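import Pool.Agent.H781.CM.Base

/-!
Project CM, task App (helper52): almost algebras from small eigenvalues with a gap.
-/

set_option autoImplicit false
set_option synthInstance.maxHeartbeats 400000
set_option maxHeartbeats 4000000
set_option linter.unusedSectionVars false

open MeasureTheory Filter
open scoped Topology ContDiff

noncomputable section

namespace Pool.Agent.H781.CM

open Pool.Agent.H781.NG

namespace App

/-! ### Linear algebra -/

/-- orthonormal bases -/
theorem onb {V : Type*} [AddCommGroup V] [Module ℝ V] [FiniteDimensional ℝ V]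
    (B : V →ₗ[ℝ] V →ₗ[ℝ] ℝ) (hs : ∀ u v, B u v = B v u) (hp : ∀ u, u ≠ 0 → 0 < B u u) :
    ∃ b : Module.Basis (Fin (Module.finrank ℝ V)) ℝ V,
      ∀ i j, B (b i) (b j) = if i = j then 1 else 0 := by
  classical
  have : Invertible (2 : ℝ) := invertibleOfNonzero two_ne_zero
  have hsymm : LinearMap.IsSymm B := ⟨fun v w => by simpa using hs v w⟩
  obtain ⟨b, hb⟩ := LinearMap.BilinForm.exists_orthogonal_basis hsymm
  have hpos : ∀ i, 0 < B (b i) (b i) := fun i => hp _ (b.ne_zero i)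
  have hu : ∀ i, IsUnit ((√(B (b i) (b i)))⁻¹ : ℝ) := fun i =>
    (inv_ne_zero (Real.sqrt_ne_zero'.2 (hpos i))).isUnit
  refine ⟨b.isUnitSMul hu, fun i j => ?_⟩
  rw [Module.Basis.isUnitSMul_apply, Module.Basis.isUnitSMul_apply]
  simp only [map_smul, LinearMap.smul_apply, smul_eq_mul]
  split_ifs with h
  · subst h
    have h1 := Real.mul_self_sqrt (hpos i).le
    have h2 : √(B (b i) (b i)) ≠ 0 := Real.sqrt_ne_zero'.2 (hpos i)
    calc (√(B (b i) (b i)))⁻¹ * ((√(B (b i) (b i)))⁻¹ * B (b i) (b i))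
        = (√(B (b i) (b i)))⁻¹ * ((√(B (b i) (b i)))⁻¹ *
          (√(B (b i) (b i)) * √(B (b i) (b i)))) := by rw [h1]
      _ = 1 := by field_simp
  · have h1 : B (b i) (b j) = 0 := hb h
    rw [h1, mul_zero, mul_zero]

/-! ### Pointwise estimates -/

section pt

variable {N : ℕ}

theorem comp_sq_le (v : Fk N ℝ) (S : Finset (Fin N)) : v S ^ 2 ≤ ip v v := by
  rw [pow_two]
  exact Finset.single_le_sum (f := fun T => v T * v T) (fun T _ => mul_self_nonneg (v T))
    (Finset.mem_univ S)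

theorem mulF_add_left {A : Type*} [CommRing A] (u v w : Fk N A) :
    mulF (u + v) w = mulF u w + mulF v w := by
  funext R
  simp only [mulF, Pi.add_apply]
  rw [← Finset.sum_add_distrib]
  exact Finset.sum_congr rfl fun S _ => by ring

theorem mulF_add_right {A : Type*} [CommRing A] (u v w : Fk N A) :
    mulF u (v + w) = mulF u v + mulF u w := by
  funext R
  simp only [mulF, Pi.add_apply]
  rw [← Finset.sum_add_distrib]
  exact Finset.sum_congr rfl fun S _ => by ring

/-- the truncation -/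
def tr (a : Fk N ℝ) : Fk N ℝ := (2 / (1 + ip a a)) • a

theorem tr_apply (a : Fk N ℝ) (T : Finset (Fin N)) : tr a T = 2 / (1 + ip a a) * a T := rfl

theorem ip_tr (a : Fk N ℝ) : ip (tr a) (tr a) ≤ 1 := by
  have h := ip_self_nonneg a
  unfold tr
  rw [ip_smul_left, ip_smul_right]
  set s := ip a a
  have h1 : 0 < 1 + s := by linarith
  have e : 2 / (1 + s) * (2 / (1 + s) * s) = 4 * s / (1 + s) ^ 2 := by
    field_simp
    ring
  rw [e, div_le_one (by positivity)]
  nlinarith [sq_nonneg (1 - s)]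

theorem ip_sub_tr (a : Fk N ℝ) : ip (a - tr a) (a - tr a) ≤ (ip a a - 1) ^ 2 / 4 := by
  have h := ip_self_nonneg a
  have e1 : a - tr a = ((ip a a - 1) / (1 + ip a a)) • a := by
    funext T
    rw [Pi.sub_apply, tr_apply, Pi.smul_apply, smul_eq_mul]
    have h1 : 0 < 1 + ip a a := by linarith
    field_simp
    ring
  rw [e1, ip_smul_left, ip_smul_right]
  set s := ip a a
  have h1 : 0 < 1 + s := by linarith
  have e : (s - 1) / (1 + s) * ((s - 1) / (1 + s) * s) = (s - 1) ^ 2 * (s / (1 + s) ^ 2) := by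
    field_simp
  have e2 : s / (1 + s) ^ 2 ≤ 1 / 4 := by
    rw [div_le_div_iff₀ (by positivity) (by norm_num)]
    nlinarith [sq_nonneg (1 - s)]
  rw [e]
  calc (s - 1) ^ 2 * (s / (1 + s) ^ 2) ≤ (s - 1) ^ 2 * (1 / 4) := by gcongr
    _ = (s - 1) ^ 2 / 4 := by ring

theorem est (h5 : S_CLIN) {ρ : ℝ} (hρ0 : 0 ≤ ρ) (hρ1 : ρ ≤ 1) (a b R : Fk N ℝ)
    (ha : |ip a a - 1| ≤ ρ) (hb : |ip b b - 1| ≤ ρ) (hR : ip R R ≤ ρ) (S : Finset (Fin N)) :
    ((mulF a b - mulF (tr a) (tr b) + R) S) ^ 2 ≤ 6 * 2 ^ N * ρ := by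
  have e1 : mulF a b - mulF (tr a) (tr b) = mulF (a - tr a) b + mulF (tr a) (b - tr b) := by
    have q1 : mulF a b = mulF (a - tr a) b + mulF (tr a) b := by
      rw [← mulF_add_left, sub_add_cancel]
    have q2 : mulF (tr a) b = mulF (tr a) (b - tr b) + mulF (tr a) (tr b) := by
      rw [← mulF_add_right, sub_add_cancel]
    rw [q1, q2]
    abel
  rw [e1]
  set X := mulF (a - tr a) b
  set Y := mulF (tr a) (b - tr b)
  have hsq : ∀ c : Fk N ℝ, |ip c c - 1| ≤ ρ → ip (c - tr c) (c - tr c) ≤ ρ ^ 2 / 4 := by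
    intro c hc
    refine (ip_sub_tr c).trans ?_
    have : (ip c c - 1) ^ 2 ≤ ρ ^ 2 := by
      rw [← sq_abs]
      gcongr
    linarith
  have hb2 : ip b b ≤ 2 := by linarith [(abs_le.1 hb).2]
  have h2N : (1 : ℝ) ≤ 2 ^ N := one_le_pow₀ (by norm_num)
  have hX : ip X X ≤ 2 ^ N * (ρ ^ 2 / 4 * 2) := by
    refine (h5 N _ _).trans ?_
    have := hsq a ha
    have := ip_self_nonneg (a - tr a)
    have := ip_self_nonneg b
    gcongr
  have hY : ip Y Y ≤ 2 ^ N * (1 * (ρ ^ 2 / 4)) := by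
    refine (h5 N _ _).trans ?_
    have := hsq b hb
    have := ip_tr a
    have := ip_self_nonneg (b - tr b)
    gcongr
  have hXS := (comp_sq_le X S).trans hX
  have hYS := (comp_sq_le Y S).trans hY
  have hRS := (comp_sq_le R S).trans hR
  have e2 : ((X + Y + R) S) ^ 2 ≤ 3 * (X S ^ 2 + Y S ^ 2 + R S ^ 2) := by
    simp only [Pi.add_apply]
    nlinarith [sq_nonneg (X S - Y S), sq_nonneg (X S - R S), sq_nonneg (Y S - R S)]
  have e3 : ρ ^ 2 ≤ ρ := by nlinarith
  have e4 : 2 ^ N * ρ ^ 2 ≤ 2 ^ N * ρ := by gcongr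
  have e5 : 1 * ρ ≤ 2 ^ N * ρ := by gcongr
  linarith

end pt

/-! ### Forms -/

variable {M : Type} [TopologicalSpace M] [CompactSpace M] [MeasurableSpace M] [BorelSpace M]
  {N : ℕ} (C : CD M N)

theorem DD_vac : DD C (vac : Fk N C.A) = 0 := by
  have h : ∀ a, nab C.F a (vac : Fk N C.A) = 0 := by
    intro a
    unfold nab gam
    have h1 : (fun S => C.F.e a ((vac : Fk N C.A) S)) = 0 := by
      funext S
      unfold vac
      split_ifs
      · exact (C.F.e a).map_one_eq_zero
      · exact map_zero _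
    rw [h1]
    simp [an_vac]
  rw [DD_eq]
  simp [h]

theorem Hor_vac : Hor C (vac : Fk N C.A) := by
  intro c
  simp [an_vac]

theorem DD_zero : DD C (0 : Fk N C.A) = 0 := map_zero (DDL C)

theorem Deg_vac : Deg 0 (vac : Fk N C.A) := by
  intro S hS
  unfold vac
  rw [if_neg]
  rintro rfl
  exact hS Finset.card_empty

theorem nq_vac : nq C (vac : Fk N C.A) = 1 := by
  unfold nq
  have : ip (vac : Fk N C.A) vac = 1 := by
    unfold ip vac
    rw [Finset.sum_eq_single ∅]
    · simp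
    · intro S _ hS
      simp [hS]
    · intro h
      exact absurd (Finset.mem_univ _) h
  rw [this, ig_one]

theorem vac_mem {t : ℝ} (ht : 0 < t) : (vac : Fk N C.A) ∈ Evp C t 0 := by
  refine ⟨?_, Deg_vac C⟩
  apply Submodule.subset_span
  refine ⟨Hor_vac C, 0, le_rfl, ht.le, ?_⟩
  rw [DD_vac, DD_zero, zero_smul]

theorem pr_deg {p q : ℕ} (hpq : p ≠ q) {u v : Fk N C.A} (hu : Deg p u) (hv : Deg q v) :
    pr C u v = 0 := by
  unfold pr
  have : ip u v = 0 := by
    unfold ip
    refine Finset.sum_eq_zero fun S _ => ?_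
    by_cases h : S.card = p
    · rw [hv S (by rw [h]; exact hpq), mul_zero]
    · rw [hu S h, zero_mul]
  rw [this, ig_zero]

/-- orthonormal bases of the eigenspaces -/
theorem basis {t : ℝ} (hfin : Module.Finite ℝ (Ev C t))
    (hdpt : ∀ u ∈ Ev C t, ∀ p, dpt p u ∈ Ev C t) :
    ∃ u : (Σ p : Fin (N + 1), Fin (Module.finrank ℝ (Evp C t p))) → Fk N C.A,
      (∀ x, u x ∈ Evp C t x.1) ∧ (∀ x y, pr C (u x) (u y) = if x = y then 1 else 0) ∧
      (∀ v ∈ Ev C t, v ∈ Submodule.span ℝ (Set.range u)) ∧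
      Fintype.card (Σ p : Fin (N + 1), Fin (Module.finrank ℝ (Evp C t p))) ≤
        Module.finrank ℝ (Ev C t) := by
  classical
  have hfinp : ∀ p : Fin (N + 1), Module.Finite ℝ (Evp C t p) := fun p =>
    Submodule.finiteDimensional_of_le (inf_le_left : Evp C t p ≤ Ev C t)
  have hb : ∀ p : Fin (N + 1), ∃ b : Module.Basis (Fin (Module.finrank ℝ (Evp C t p))) ℝ
      (Evp C t p), ∀ i j, pr C (b i : Fk N C.A) (b j) = if i = j then 1 else 0 := by
    intro p
    have := hfinp p
    obtain ⟨b, hb⟩ := onb (V := Evp C t p)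
      ((prL C).compl₁₂ (Evp C t p).subtype (Evp C t p).subtype)
      (fun u v => pr_comm C _ _)
      (fun u hu => by
        have h1 : 0 ≤ nq C (u : Fk N C.A) := nq_nonneg C _
        have h2 : nq C (u : Fk N C.A) ≠ 0 := fun h => hu (Subtype.ext (nq_eq_zero C h))
        exact lt_of_le_of_ne h1 (Ne.symm h2))
    exact ⟨b, hb⟩
  choose b hb using hb
  set u : (Σ p : Fin (N + 1), Fin (Module.finrank ℝ (Evp C t p))) → Fk N C.A :=
    fun x => (b x.1 x.2 : Fk N C.A) with hu
  have hmem : ∀ x, u x ∈ Evp C t x.1 := fun x => (b x.1 x.2).2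
  have horth : ∀ x y, pr C (u x) (u y) = if x = y then 1 else 0 := by
    rintro ⟨p, i⟩ ⟨q, j⟩
    by_cases hpq : p = q
    · subst hpq
      have h1 := hb p i j
      show pr C (b p i : Fk N C.A) (b p j) = _
      rw [h1]
      by_cases hij : i = j
      · subst hij
        rw [if_pos rfl, if_pos rfl]
      · rw [if_neg hij, if_neg]
        intro h
        exact hij (by simpa using h)
    · rw [if_neg (by rintro h; exact hpq (congrArg Sigma.fst h))]
      exact pr_deg C (fun h => hpq (Fin.ext h)) (hmem ⟨p, i⟩).2 (hmem ⟨q, j⟩).2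
  refine ⟨u, hmem, horth, ?_, ?_⟩
  · intro v hv
    have e1 : v = ∑ p : Fin (N + 1), dpt (p : ℕ) v := by
      funext S
      rw [Finset.sum_apply]
      unfold dpt
      have hS : S.card < N + 1 := by
        have := S.card_le_univ
        rw [Fintype.card_fin] at this
        omega
      rw [Finset.sum_eq_single (⟨S.card, hS⟩ : Fin (N + 1))]
      · rw [if_pos rfl]
      · intro q _ hq
        rw [if_neg]
        intro h
        exact hq (Fin.ext h.symm)
      · intro h
        exact absurd (Finset.mem_univ _) h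
    rw [e1]
    refine Submodule.sum_mem _ fun p _ => ?_
    have h1 : dpt (p : ℕ) v ∈ Evp C t p := by
      refine ⟨hdpt v hv p, fun S hS => ?_⟩
      unfold dpt
      rw [if_neg hS]
    have h2 := (b p).sum_repr ⟨_, h1⟩
    have h3 := congrArg (Subtype.val : Evp C t p → Fk N C.A) h2
    have h4 : (Subtype.val : Evp C t p → Fk N C.A)
        (∑ i, (b p).repr ⟨_, h1⟩ i • b p i) = ∑ i, (b p).repr ⟨_, h1⟩ i • (b p i : Fk N C.A) := by
      have := map_sum (Evp C t p).subtype (fun i => (b p).repr ⟨_, h1⟩ i • b p i) Finset.univ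
      exact this
    rw [h4] at h3
    have h5 : dpt (p : ℕ) v = ∑ i, (b p).repr ⟨_, h1⟩ i • (b p i : Fk N C.A) := h3.symm
    rw [h5]
    refine Submodule.sum_mem _ fun i _ => Submodule.smul_mem _ _ ?_
    exact Submodule.subset_span ⟨⟨p, i⟩, rfl⟩
  · have hmem' : ∀ x, u x ∈ Ev C t := fun x => (hmem x).1
    let u' : (Σ p : Fin (N + 1), Fin (Module.finrank ℝ (Evp C t p))) → Ev C t :=
      fun x => ⟨u x, hmem' x⟩
    have hli : LinearIndependent ℝ u' := by
      rw [Fintype.linearIndependent_iff]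
      intro g hg y
      have h1 := congrArg (Subtype.val : Ev C t → Fk N C.A) hg
      have h2 : (Subtype.val : Ev C t → Fk N C.A) (∑ x, g x • u' x) = ∑ x, g x • u x := by
        have := map_sum (Ev C t).subtype (fun x => g x • u' x) Finset.univ
        exact this
      rw [h2] at h1
      have h3 : pr C (∑ x, g x • u x) (u y) = 0 := by
        rw [h1]
        exact pr_zero_left C _
      have h4 : pr C (∑ x, g x • u x) (u y) = ∑ x, g x * pr C (u x) (u y) := by
        have h5 : pr C (∑ x, g x • u x) (u y) = prL C (∑ x, g x • u x) (u y) := rfl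
        rw [h5, map_sum, LinearMap.sum_apply]
        exact Finset.sum_congr rfl fun x _ => pr_smul_left C _ _ _
      rw [h4] at h3
      simp_rw [horth] at h3
      simpa using h3
    exact hli.fintype_card_le_finrank

/-- the Dirac operator of a linear combination -/
theorem DD_sum {κ : Type*} (s : Finset κ) (c : κ → ℝ) (u : κ → Fk N C.A) :
    DD C (∑ z ∈ s, c z • u z) = ∑ z ∈ s, c z • DD C (u z) := by
  have h := map_sum (DDL C) (fun z => c z • u z) s
  have h2 : ∀ z, DDL C (c z • u z) = c z • DD C (u z) := fun z => map_smul (DDL C) _ _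
  simp_rw [h2] at h
  exact h

end App

open App in
/-- almost algebras from small eigenvalues with a gap -/
theorem s_app (h1 : S_SPEC) (h2 : S_ENER) (h3 : S_GRAM) (h4 : S_PROD) (h5 : S_CLIN)
    (h6 : S_DDH) : S_APP := by
  classical
  intro N hN η K hη hK
  set ρ₀ : ℝ := min 1 (min η (η ^ 2 / (6 * 2 ^ N))) with hρ₀d
  have hρ₀ : 0 < ρ₀ := lt_min one_pos (lt_min hη (by positivity))
  have hρ1 : ρ₀ ≤ 1 := min_le_left _ _
  have hρη : ρ₀ ≤ η := (min_le_right _ _).trans (min_le_left _ _)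
  have hρη2 : 6 * 2 ^ N * ρ₀ ≤ η ^ 2 := by
    have : ρ₀ ≤ η ^ 2 / (6 * 2 ^ N) := (min_le_right _ _).trans (min_le_right _ _)
    rw [le_div_iff₀ (by positivity)] at this
    linarith
  obtain ⟨δ, hδ, hδρ⟩ : ∃ δ : ℝ, 0 < δ ∧
      4 ^ N * (4 * √(K * δ) + 36 * N * 2 ^ N * δ) ≤ ρ₀ := by
    have hc : Continuous fun δ : ℝ => (4 : ℝ) ^ N * (4 * √(K * δ) + 36 * N * 2 ^ N * δ) := by
      fun_prop
    have hev : ∀ᶠ δ : ℝ in 𝓝 0, (4 : ℝ) ^ N * (4 * √(K * δ) + 36 * N * 2 ^ N * δ) < ρ₀ := by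
      apply hc.continuousAt.eventually_lt continuousAt_const
      simpa using hρ₀
    have hev' : ∀ᶠ δ : ℝ in 𝓝[>] 0, (4 : ℝ) ^ N * (4 * √(K * δ) + 36 * N * 2 ^ N * δ) < ρ₀ :=
      hev.filter_mono nhdsWithin_le_nhds
    obtain ⟨δ, hδ1, hδ2⟩ := (hev'.and self_mem_nhdsWithin).exists
    exact ⟨δ, hδ2, hδ1.le⟩
  refine ⟨δ, hδ, ?_⟩
  intro M _ _ _ _ C ε t t' hε hcurv hmoll hdense hreg hpoin ht htt' hE hτ hτ' hvac hrank
  obtain ⟨hfin, hEv, -, -, -, hdpt⟩ := h1 M N C hmoll hdense hreg t ht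
  obtain ⟨-, -, hgap, -, -, -⟩ := h1 M N C hmoll hdense hreg t' (ht.trans_le htt')
  obtain ⟨-, -, -, -, -, -, -, -, -, -, hsym, -, -⟩ := h6 M N C
  rw [hE] at hgap
  set τ := t + ε * N ^ 2 with hτd
  have hτ0 : 0 ≤ τ := by positivity
  have hen : ∀ u ∈ Ev C t, nq C u = 1 → en C u ≤ τ := by
    intro u hu hn
    have q1 := (h2 M N C).2 ε hε hcurv u (hEv u hu).1
    have q2 := (hEv u hu).2.2
    rw [hn] at q1 q2
    linarith
  obtain ⟨u, hmem, horth, hspan, hcard⟩ := basis C hfin hdpt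
  have hmemE : ∀ x, u x ∈ Ev C t := fun x => (hmem x).1
  have hn1 : ∀ x, nq C (u x) = 1 := fun x => by
    have := horth x x
    rwa [if_pos rfl, pr_self] at this
  have hw : ∀ x y, ∃ w : Fk N C.A, Hor C w ∧ nq C w ≤ 2 ^ N ∧
      nq C (DD C w) ≤ 36 * N * 2 ^ N * τ ∧
      ∀ p, ∀ S, C.ev p (w S) = mulF (fun T => 2 / (1 + C.ev p (ip (u x) (u x))) *
        C.ev p (u x T)) (fun T => 2 / (1 + C.ev p (ip (u y) (u y))) * C.ev p (u y T)) S :=
    fun x y => h4 M N C τ (u x) (u y) (hEv _ (hmemE x)).1 (hEv _ (hmemE y)).1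
      (hen _ (hmemE x) (hn1 x)) (hen _ (hmemE y) (hn1 y))
  choose w hwH hwn hwD hwp using hw
  set c : (Σ p : Fin (N + 1), Fin (Module.finrank ℝ (Evp C t p))) →
    (Σ p : Fin (N + 1), Fin (Module.finrank ℝ (Evp C t p))) →
    (Σ p : Fin (N + 1), Fin (Module.finrank ℝ (Evp C t p))) → ℝ :=
    fun x y z => pr C (w x y) (u z) with hc
  set r : (Σ p : Fin (N + 1), Fin (Module.finrank ℝ (Evp C t p))) →
    (Σ p : Fin (N + 1), Fin (Module.finrank ℝ (Evp C t p))) → Fk N C.A :=
    fun x y => w x y - ∑ z, c x y z • u z with hr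
  have hcb : ∀ x y z, |c x y z| ≤ 2 ^ N := by
    intro x y z
    have q1 := pr_sq_le C (w x y) (u z)
    rw [hn1, mul_one] at q1
    have q2 : c x y z ^ 2 ≤ (2 ^ N) ^ 2 := by
      refine (q1.trans (hwn x y)).trans ?_
      have : (1 : ℝ) ≤ 2 ^ N := one_le_pow₀ (by norm_num)
      nlinarith
    exact abs_le_of_sq_le_sq q2 (by positivity)
  have hsumE : ∀ x y, ∑ z, c x y z • u z ∈ Ev C t := fun x y =>
    Submodule.sum_mem _ fun z _ => Submodule.smul_mem _ _ (hmemE z)
  have hru : ∀ x y z, pr C (u z) (r x y) = 0 := by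
    intro x y z
    rw [hr]
    simp only
    rw [pr_sub_right]
    have q1 : pr C (u z) (∑ z', c x y z' • u z') = ∑ z', c x y z' * pr C (u z) (u z') := by
      have h5 : pr C (u z) (∑ z', c x y z' • u z') = prL C (u z) (∑ z', c x y z' • u z') := rfl
      rw [h5, map_sum]
      exact Finset.sum_congr rfl fun z' _ => pr_smul_right C _ _ _
    rw [q1]
    simp_rw [horth]
    simp only [mul_ite, mul_one, mul_zero, Finset.sum_ite_eq, Finset.mem_univ, if_true]
    rw [hc]
    simp only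
    rw [pr_comm, sub_self]
  have hrE : ∀ x y, ∀ v ∈ Ev C t, pr C v (r x y) = 0 := by
    intro x y v hv
    have h7 := hspan v hv
    refine Submodule.span_induction (p := fun v _ => pr C v (r x y) = 0) ?_ ?_ ?_ ?_ h7
    · rintro _ ⟨z, rfl⟩
      exact hru x y z
    · exact pr_zero_left C _
    · intro a b _ _ ha hb
      rw [pr_add_left, ha, hb, add_zero]
    · intro k a _ ha
      rw [pr_smul_left, ha, mul_zero]
  have hrH : ∀ x y, Hor C (r x y) := fun x y =>
    (HorS C).sub_mem (hwH x y) ((hEv _ (hsumE x y)).1)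
  have hrn : ∀ x y, nq C (r x y) ≤ 36 * N * 2 ^ N * δ := by
    intro x y
    have q1 := hgap (r x y) (hrH x y) (hrE x y)
    have q2 : nq C (DD C (r x y)) ≤ nq C (DD C (w x y)) := by
      have e1 : w x y = r x y + ∑ z, c x y z • u z := by
        rw [hr]
        simp only
        rw [sub_add_cancel]
      have e2 : DD C (w x y) = DD C (r x y) + DD C (∑ z, c x y z • u z) := by
        conv_lhs => rw [e1]
        exact map_add (DDL C) _ _
      have e3 : pr C (DD C (r x y)) (DD C (∑ z, c x y z • u z)) = 0 := by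
        rw [hsym, pr_comm]
        apply hrE
        exact (hEv _ (hEv _ (hsumE x y)).2.1).2.1
      rw [e2, nq_add, e3]
      have := nq_nonneg C (DD C (∑ z, c x y z • u z))
      linarith
    have q3 : t' * nq C (r x y) ≤ t' * (36 * N * 2 ^ N * δ) := by
      have q4 : (36 * N * 2 ^ N : ℝ) * τ ≤ 36 * N * 2 ^ N * (δ * t') := by gcongr
      have := hwD x y
      calc t' * nq C (r x y) ≤ 36 * N * 2 ^ N * (δ * t') := by linarith
        _ = _ := by ring
    exact le_of_mul_le_mul_left q3 (ht.trans_le htt')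
  -- the Gram matrix
  have hgram : ∀ x y, ∫ p, |C.ev p (ip (u x) (u y)) - if x = y then 1 else 0| ∂C.μ ≤
      4 * √(K * δ) := by
    intro x y
    have hKδ : 4 * √(K * τ) ≤ 4 * √(K * δ) := by gcongr
    refine le_trans ?_ hKδ
    obtain ⟨g1, g2⟩ := h3 M N C K τ hK hτ0 hpoin
    by_cases hxy : x = y
    · subst hxy
      simp only [if_true]
      exact g1 (u x) (hn1 x) (hen _ (hmemE x) (hn1 x))
    · simp only [if_neg hxy, sub_zero]
      refine g2 (u x) (u y) (hn1 x) (hn1 y) ?_ (hen _ (hmemE x) (hn1 x))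
        (hen _ (hmemE y) (hn1 y))
      rw [horth, if_neg hxy]
  -- the point
  set f : M → ℝ := fun p => ∑ x, ∑ y, (|C.ev p (ip (u x) (u y)) - if x = y then 1 else 0| +
    C.ev p (ip (r x y) (r x y))) with hf
  have hint1 : ∀ x y, Integrable (fun p => |C.ev p (ip (u x) (u y)) - if x = y then 1 else 0|)
      C.μ := fun x y => int_cont C (((C.cont _).sub continuous_const).abs)
  have hint2 : ∀ x y, Integrable (fun p => C.ev p (ip (r x y) (r x y))) C.μ := fun x y =>
    int_ev C _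
  have hint : ∀ x y, Integrable (fun p => |C.ev p (ip (u x) (u y)) - if x = y then 1 else 0| +
      C.ev p (ip (r x y) (r x y))) C.μ := fun x y => (hint1 x y).add (hint2 x y)
  have hfint : Integrable f C.μ := by
    rw [hf]
    exact integrable_finsetSum _ fun x _ => integrable_finsetSum _ fun y _ => hint x y
  have hfle : ∫ p, f p ∂C.μ ≤ ρ₀ := by
    have e1 : ∫ p, f p ∂C.μ = ∑ x, ∑ y,
        ((∫ p, |C.ev p (ip (u x) (u y)) - if x = y then 1 else 0| ∂C.μ) +
          ∫ p, C.ev p (ip (r x y) (r x y)) ∂C.μ) := by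
      rw [hf]
      rw [integral_finsetSum _ fun x _ => integrable_finsetSum _ fun y _ => hint x y]
      refine Finset.sum_congr rfl fun x _ => ?_
      rw [integral_finsetSum _ fun y _ => hint x y]
      exact Finset.sum_congr rfl fun y _ => integral_add (hint1 x y) (hint2 x y)
    rw [e1]
    have e2 : ∀ x y, ((∫ p, |C.ev p (ip (u x) (u y)) - if x = y then 1 else 0| ∂C.μ) +
          ∫ p, C.ev p (ip (r x y) (r x y)) ∂C.μ) ≤ 4 * √(K * δ) + 36 * N * 2 ^ N * δ :=
      fun x y => add_le_add (hgram x y) (hrn x y)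
    refine (Finset.sum_le_sum fun x _ => Finset.sum_le_sum fun y _ => e2 x y).trans ?_
    rw [Finset.sum_const, Finset.sum_const, Finset.card_univ, nsmul_eq_mul, nsmul_eq_mul]
    refine le_trans ?_ hδρ
    set m : ℕ := Fintype.card (Σ p : Fin (N + 1), Fin (Module.finrank ℝ (Evp C t p)))
    have hm : (m : ℝ) ≤ 2 ^ N := by exact_mod_cast hcard.trans hrank
    have hx : 0 ≤ 4 * √(K * δ) + 36 * N * 2 ^ N * δ := by positivity
    calc (m : ℝ) * (m * (4 * √(K * δ) + 36 * N * 2 ^ N * δ))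
        ≤ 2 ^ N * (2 ^ N * (4 * √(K * δ) + 36 * N * 2 ^ N * δ)) := by gcongr
      _ = 4 ^ N * (4 * √(K * δ) + 36 * N * 2 ^ N * δ) := by
          rw [← mul_assoc, ← mul_pow]
          norm_num
  obtain ⟨q, hq⟩ := exists_le_integral hfint
  have hq' : f q ≤ ρ₀ := hq.trans hfle
  have hterm : ∀ x y, |C.ev q (ip (u x) (u y)) - if x = y then 1 else 0| +
      C.ev q (ip (r x y) (r x y)) ≤ ρ₀ := by
    intro x y
    have hnn : ∀ x y, 0 ≤ |C.ev q (ip (u x) (u y)) - if x = y then 1 else 0| +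
        C.ev q (ip (r x y) (r x y)) := fun x y => by
      have : 0 ≤ C.ev q (ip (r x y) (r x y)) := by
        rw [ev_ip]
        exact ip_self_nonneg _
      positivity
    refine le_trans ?_ hq'
    have e1 := Finset.single_le_sum (f := fun y => |C.ev q (ip (u x) (u y)) -
      if x = y then 1 else 0| + C.ev q (ip (r x y) (r x y))) (fun y _ => hnn x y)
      (Finset.mem_univ y)
    have e2 := Finset.single_le_sum (f := fun x => ∑ y, (|C.ev q (ip (u x) (u y)) -
      if x = y then 1 else 0| + C.ev q (ip (r x y) (r x y))))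
      (fun x _ => Finset.sum_nonneg fun y _ => hnn x y) (Finset.mem_univ x)
    exact e1.trans e2
  have hG : ∀ x y, |ip (evF C q (u x)) (evF C q (u y)) - if x = y then 1 else 0| ≤ ρ₀ := by
    intro x y
    have q1 := hterm x y
    rw [ev_ip, ev_ip] at q1
    have := ip_self_nonneg (evF C q (r x y))
    linarith
  have hR : ∀ x y, ip (evF C q (r x y)) (evF C q (r x y)) ≤ ρ₀ := by
    intro x y
    have q1 := hterm x y
    rw [ev_ip C q (r x y)] at q1
    have := abs_nonneg (C.ev q (ip (u x) (u y)) - if x = y then 1 else 0)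
    linarith
  have hwq : ∀ x y, evF C q (w x y) = mulF (tr (evF C q (u x))) (tr (evF C q (u y))) := by
    intro x y
    funext S
    show C.ev q (w x y S) = _
    rw [hwp x y q S, ev_ip, ev_ip]
    rfl
  refine ⟨fun x => evF C q (u x), c, ?_, ?_, ?_, ?_, hcb, ?_⟩
  · intro x S hS
    show C.ev q (u x S) = 0
    rw [(hmem x).2 S hS, map_zero]
  · show Module.finrank ℝ (Evp C t 0) = 1
    refine finrank_eq_one (⟨vac, vac_mem C ht⟩ : Evp C t 0) ?_ ?_
    · intro h
      have h7 : (vac : Fk N C.A) = 0 := congrArg Subtype.val h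
      have h8 := nq_vac C
      rw [h7] at h8
      have h9 : nq C (0 : Fk N C.A) = 0 := pr_zero_left C 0
      rw [h9] at h8
      exact zero_ne_one h8
    · rintro ⟨v, hv⟩
      obtain ⟨k, hk⟩ := hvac v hv
      exact ⟨k, Subtype.ext hk.symm⟩
  · intro i
    have hmem0 : u ⟨0, i⟩ ∈ Evp C t 0 := hmem ⟨0, i⟩
    obtain ⟨k, hk⟩ := hvac _ hmem0
    have h7 := hn1 ⟨0, i⟩
    rw [hk, nq_smul, nq_vac, mul_one] at h7
    have h8 : k = 1 ∨ k = -1 := mul_self_eq_one_iff.1 (by rw [← pow_two]; exact h7)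
    show evF C q (u ⟨0, i⟩) = vac ∨ evF C q (u ⟨0, i⟩) = -vac
    rw [hk, evF_smulR, evF_vac]
    rcases h8 with h8 | h8
    · left
      rw [h8, one_smul]
    · right
      rw [h8, neg_one_smul]
  · intro x y
    exact (hG x y).trans hρη
  · intro x y S
    have e1 : mulF (evF C q (u x)) (evF C q (u y)) - ∑ z, c x y z • evF C q (u z) =
        mulF (evF C q (u x)) (evF C q (u y)) - mulF (tr (evF C q (u x))) (tr (evF C q (u y))) +
          evF C q (r x y) := by
      have e2 : evF C q (r x y) = evF C q (w x y) - ∑ z, c x y z • evF C q (u z) := by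
        rw [hr]
        simp only
        rw [evF_sub, evF_sum]
        simp_rw [evF_smulR]
      rw [e2, hwq]
      abel
    have hxx := hG x x
    have hyy := hG y y
    rw [if_pos rfl] at hxx hyy
    have e3 := est h5 hρ₀.le hρ1 (evF C q (u x)) (evF C q (u y)) (evF C q (r x y)) hxx hyy
      (hR x y) S
    rw [← e1] at e3
    exact abs_le_of_sq_le_sq (e3.trans hρη2) hη.le

end Pool.Agent.H781.CM
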