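import Pool.Agent.H781.CM.Spec

/-!
The Clifford product on functions on finite sets.
-/

set_option autoImplicit false

noncomputable section

namespace Pool.Agent.H781.CM

open Pool.Agent.H781.NG

namespace Clif

variable {N : ℕ}

/-- the sign of a pair -/
def es (s t : Fin N) : ℤ := if t < s then -1 else 1

theorem es_sq (s t : Fin N) : es s t * es s t = 1 := by
  unfold es
  split_ifs <;> norm_num

theorem sg2_eq (S T : Finset (Fin N)) : sg2 S T = ∏ s ∈ S, ∏ t ∈ T, es s t := by
  unfold sg2 es
  rw [← Finset.prod_product', Finset.prod_ite, Finset.prod_const, Finset.prod_const_one, mul_one]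

theorem prod_sq {ι : Type} (f : ι → ℤ) (hf : ∀ i, f i * f i = 1) (U : Finset ι) :
    (∏ i ∈ U, f i) * ∏ i ∈ U, f i = 1 := by
  rw [← Finset.prod_mul_distrib]
  exact Finset.prod_eq_one fun i _ => hf i

theorem prod_symm {ι : Type} [DecidableEq ι] (f : ι → ℤ) (hf : ∀ i, f i * f i = 1)
    (S T : Finset ι) : ∏ i ∈ symmDiff S T, f i = (∏ i ∈ S, f i) * ∏ i ∈ T, f i := by
  have h2 : symmDiff S T = (S \ T) ∪ (T \ S) := rfl
  rw [h2, Finset.prod_union disjoint_sdiff_sdiff]
  have e1 := Finset.prod_sdiff (f := f) (Finset.inter_subset_left (s₁ := S) (s₂ := T))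
  have e2 := Finset.prod_sdiff (f := f) (Finset.inter_subset_right (s₁ := S) (s₂ := T))
  have e3 : S \ (S ∩ T) = S \ T := by
    ext x
    simp
  have e4 : T \ (S ∩ T) = T \ S := by
    ext x
    simp only [Finset.mem_sdiff, Finset.mem_inter]
    tauto
  rw [e3] at e1
  rw [e4] at e2
  rw [← e1, ← e2]
  have h5 := prod_sq f hf (S ∩ T)
  linear_combination (-(∏ i ∈ S \ T, f i) * ∏ i ∈ T \ S, f i) * h5

theorem sg2_left (S S' T : Finset (Fin N)) :
    sg2 (symmDiff S S') T = sg2 S T * sg2 S' T := by
  rw [sg2_eq, sg2_eq, sg2_eq]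
  exact prod_symm (fun s => ∏ t ∈ T, es s t) (fun s => prod_sq _ (es_sq s) T) S S'

theorem sg2_right (S T T' : Finset (Fin N)) :
    sg2 S (symmDiff T T') = sg2 S T * sg2 S T' := by
  rw [sg2_eq, sg2_eq, sg2_eq, ← Finset.prod_mul_distrib]
  exact Finset.prod_congr rfl fun s _ => prod_symm (es s) (es_sq s) T T'

theorem sg2_sq (S T : Finset (Fin N)) : sg2 S T * sg2 S T = 1 := by
  rw [sg2_eq]
  exact prod_sq _ (fun s => prod_sq _ (es_sq s) T) S

theorem sg2_empty_left (T : Finset (Fin N)) : sg2 ∅ T = 1 := by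
  rw [sg2_eq, Finset.prod_empty]

theorem sg2_empty_right (T : Finset (Fin N)) : sg2 T ∅ = 1 := by
  rw [sg2_eq]
  exact Finset.prod_eq_one fun s _ => Finset.prod_empty

theorem sg_prod (i : Fin N) (S : Finset (Fin N)) : sg i S = ∏ t ∈ S, es i t := by
  unfold sg es
  rw [Finset.prod_ite, Finset.prod_const, Finset.prod_const_one, mul_one]

theorem sg2_single (i : Fin N) (T : Finset (Fin N)) : sg2 {i} T = sg i T := by
  rw [sg2_eq, Finset.prod_singleton, sg_prod]

theorem sg_symm (i : Fin N) (S T : Finset (Fin N)) : sg i (symmDiff S T) = sg i S * sg i T := by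
  rw [← sg2_single, ← sg2_single, ← sg2_single, sg2_right]

theorem sg_self (i : Fin N) : sg i {i} = 1 := by
  rw [sg_prod, Finset.prod_singleton]
  unfold es
  rw [if_neg (lt_irrefl i)]

theorem sg2_single_right (S : Finset (Fin N)) (i : Fin N) :
    sg2 S {i} * sg i S = if i ∈ S then -(-1) ^ S.card else (-1) ^ S.card := by
  rw [sg2_eq, sg_prod, ← Finset.prod_mul_distrib]
  have h1 : ∀ s : Fin N, (∏ t ∈ {i}, es s t) * es i s = if s = i then 1 else -1 := by
    intro s
    rw [Finset.prod_singleton]
    unfold es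
    rcases lt_trichotomy s i with h | h | h
    · rw [if_neg (lt_asymm h), if_pos h, if_neg h.ne]
      norm_num
    · subst h
      rw [if_neg (lt_irrefl s), if_pos rfl]
      norm_num
    · rw [if_pos h, if_neg (lt_asymm h), if_neg h.ne']
      norm_num
  rw [Finset.prod_congr rfl fun s _ => h1 s]
  have h2 : ∀ U : Finset (Fin N), i ∉ U → ∏ s ∈ U, (if s = i then (1 : ℤ) else -1) =
      (-1) ^ U.card := by
    intro U hU
    rw [← Finset.prod_const]
    refine Finset.prod_congr rfl fun s hs => ?_
    rw [if_neg]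
    rintro rfl
    exact hU hs
  split_ifs with hi
  · rw [← Finset.insert_erase hi, Finset.prod_insert (Finset.notMem_erase i S), if_pos rfl, one_mul,
      h2 _ (Finset.notMem_erase i S), Finset.insert_erase hi]
    have h3 := Finset.card_erase_add_one hi
    rw [← h3, pow_succ]
    ring
  · exact h2 S hi

theorem sg2_self (S : Finset (Fin N)) : sg2 S S = (-1) ^ (S.card * (S.card - 1) / 2) := by
  unfold sg2
  rw [← Nat.choose_two_right, ← Finset.card_product_filter_lt (s := S)]
  congr 1
  refine Finset.card_bij (fun q _ => (q.2, q.1)) ?_ ?_ ?_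
  · rintro ⟨a, b⟩ h
    simp only [Finset.mem_filter, Finset.mem_product] at h ⊢
    exact ⟨⟨h.1.2, h.1.1⟩, h.2⟩
  · rintro ⟨a, b⟩ _ ⟨a', b'⟩ _ h
    simp only [Prod.mk.injEq] at h ⊢
    exact ⟨h.2, h.1⟩
  · rintro ⟨a, b⟩ h
    simp only [Finset.mem_filter, Finset.mem_product] at h
    exact ⟨(b, a), by simp only [Finset.mem_filter, Finset.mem_product]; exact ⟨⟨h.1.2, h.1.1⟩, h.2⟩,
      rfl⟩

/-- the shift by `T` -/
def shf (T : Finset (Fin N)) : Equiv.Perm (Finset (Fin N)) where
  toFun S := symmDiff T S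
  invFun S := symmDiff T S
  left_inv S := symmDiff_symmDiff_cancel_left T S
  right_inv S := symmDiff_symmDiff_cancel_left T S

theorem symm3 (T S R : Finset (Fin N)) :
    symmDiff (symmDiff T S) (symmDiff T R) = symmDiff S R := by
  rw [symmDiff_comm T S, symmDiff_assoc, symmDiff_symmDiff_cancel_left]

section

variable {A : Type*} [CommRing A]

theorem mulF_apply (u v : Fk N A) (R : Finset (Fin N)) :
    mulF u v R = ∑ S, (sg2 S (symmDiff S R) : A) * u S * v (symmDiff S R) := rfl

theorem assoc (u v w : Fk N A) : mulF (mulF u v) w = mulF u (mulF v w) := by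
  funext R
  simp only [mulF_apply, Finset.mul_sum, Finset.sum_mul]
  rw [Finset.sum_comm]
  refine Finset.sum_congr rfl fun T _ => ?_
  rw [← Equiv.sum_comp (shf T) (fun Q => (sg2 T (symmDiff T R) : A) * u T *
    ((sg2 Q (symmDiff Q (symmDiff T R)) : A) * v Q * w (symmDiff Q (symmDiff T R))))]
  refine Finset.sum_congr rfl fun S _ => ?_
  show (sg2 S (symmDiff S R) : A) * ((sg2 T (symmDiff T S) : A) * u T * v (symmDiff T S)) *
      w (symmDiff S R) = (sg2 T (symmDiff T R) : A) * u T *
      ((sg2 (symmDiff T S) (symmDiff (symmDiff T S) (symmDiff T R)) : A) * v (symmDiff T S) *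
        w (symmDiff (symmDiff T S) (symmDiff T R)))
  rw [symm3]
  have h1 : sg2 S (symmDiff S R) * sg2 T (symmDiff T S) =
      sg2 T (symmDiff T R) * sg2 (symmDiff T S) (symmDiff S R) := by
    simp only [sg2_left, sg2_right]
    linear_combination (-(sg2 T T * sg2 T S * sg2 S S * sg2 S R)) * sg2_sq T R
  have h2 : (sg2 S (symmDiff S R) : A) * (sg2 T (symmDiff T S) : A) =
      (sg2 T (symmDiff T R) : A) * (sg2 (symmDiff T S) (symmDiff S R) : A) := by
    exact_mod_cast congrArg (Int.cast : ℤ → A) h1
  linear_combination (u T * v (symmDiff T S) * w (symmDiff S R)) * h2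

theorem vac_mul (u : Fk N A) : mulF vac u = u := by
  funext R
  rw [mulF_apply, Finset.sum_eq_single ∅]
  · have h1 : symmDiff (∅ : Finset (Fin N)) R = R := bot_symmDiff R
    rw [h1, sg2_empty_left]
    unfold vac
    rw [if_pos rfl]
    push_cast
    ring
  · intro S _ hS
    unfold vac
    rw [if_neg hS]
    ring
  · intro h
    exact absurd (Finset.mem_univ _) h

theorem mul_vac (u : Fk N A) : mulF u vac = u := by
  funext R
  rw [mulF_apply, Finset.sum_eq_single R]
  · have h1 : symmDiff R R = ∅ := symmDiff_self R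
    rw [h1, sg2_empty_right]
    unfold vac
    rw [if_pos rfl]
    push_cast
    ring
  · intro S _ hS
    have hne : symmDiff S R ≠ ∅ := fun h => hS (symmDiff_eq_bot.1 h)
    unfold vac
    rw [if_neg hne]
    ring
  · intro h
    exact absurd (Finset.mem_univ _) h

/-- the generator -/
def gen (A : Type*) [CommRing A] (i : Fin N) : Fk N A := fun S => if S = {i} then 1 else 0

theorem symm_of_mem {i : Fin N} {S : Finset (Fin N)} (h : i ∈ S) :
    symmDiff {i} S = S.erase i := by
  ext x
  simp only [Finset.mem_symmDiff, Finset.mem_singleton, Finset.mem_erase]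
  constructor
  · rintro (⟨rfl, h2⟩ | ⟨h1, h2⟩)
    · exact absurd h h2
    · exact ⟨h2, h1⟩
  · rintro ⟨h1, h2⟩
    exact Or.inr ⟨h2, h1⟩

theorem symm_of_not {i : Fin N} {S : Finset (Fin N)} (h : i ∉ S) :
    symmDiff {i} S = insert i S := by
  ext x
  simp only [Finset.mem_symmDiff, Finset.mem_singleton, Finset.mem_insert]
  constructor
  · rintro (⟨h1, h2⟩ | ⟨h1, h2⟩)
    · exact Or.inl h1
    · exact Or.inr h1
  · rintro (rfl | h1)
    · exact Or.inl ⟨rfl, h⟩
    · exact Or.inr ⟨h1, fun h2 => h (h2 ▸ h1)⟩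

theorem gen_mul (i : Fin N) (u : Fk N A) (S : Finset (Fin N)) :
    mulF (gen A i) u S = (sg i S : A) * u (symmDiff {i} S) := by
  rw [mulF_apply, Finset.sum_eq_single {i}]
  · unfold gen
    rw [if_pos rfl, sg2_single, sg_symm, sg_self, one_mul, mul_one]
  · intro T _ hT
    unfold gen
    rw [if_neg hT]
    ring
  · intro h
    exact absurd (Finset.mem_univ _) h

theorem gen_eq (i : Fin N) (u : Fk N A) : mulF (gen A i) u = cr i u + an i u := by
  funext S
  rw [gen_mul, Pi.add_apply, cr_apply, an_apply]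
  split_ifs with h
  · rw [symm_of_mem h, add_zero]
  · rw [symm_of_not h, zero_add]

theorem an_eq (i : Fin N) (u : Fk N A) (S : Finset (Fin N)) :
    an i u S = if i ∈ S then 0 else (sg i S : A) * u (symmDiff {i} S) := by
  rw [an_apply]
  split_ifs with h
  · rfl
  · rw [symm_of_not h]

theorem an_mul (i : Fin N) (u v : Fk N A) : an i (mulF u v) =
    mulF (an i u) v + mulF (fun S => (-1) ^ S.card * u S) (an i v) := by
  funext R
  rw [Pi.add_apply, an_eq, mulF_apply, mulF_apply, mulF_apply]
  -- the first sum on the right, shifted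
  have h1 : ∑ S, (sg2 S (symmDiff S R) : A) * an i u S * v (symmDiff S R) =
      ∑ S, (sg2 (symmDiff {i} S) (symmDiff S (symmDiff {i} R)) : A) *
        (if i ∈ S then (sg i S : A) * u S else 0) * v (symmDiff S (symmDiff {i} R)) := by
    rw [← Equiv.sum_comp (shf {i})]
    refine Finset.sum_congr rfl fun S _ => ?_
    show (sg2 (symmDiff {i} S) (symmDiff (symmDiff {i} S) R) : A) * an i u (symmDiff {i} S) *
      v (symmDiff (symmDiff {i} S) R) = _
    have e1 : symmDiff (symmDiff {i} S) R = symmDiff S (symmDiff {i} R) := by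
      rw [symmDiff_comm {i} S, symmDiff_assoc]
    have e2 : an i u (symmDiff {i} S) = if i ∈ S then (sg i S : A) * u S else 0 := by
      rw [an_eq, symmDiff_symmDiff_cancel_left, sg_symm, sg_self, one_mul]
      by_cases h : i ∈ S
      · rw [if_pos h, if_neg]
        rw [symm_of_mem h]
        exact Finset.notMem_erase i S
      · rw [if_neg h, if_pos]
        rw [symm_of_not h]
        exact Finset.mem_insert_self i S
    rw [e1, e2]
  rw [h1]
  have h2 : ∀ S : Finset (Fin N), symmDiff {i} (symmDiff S R) = symmDiff S (symmDiff {i} R) := by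
    intro S
    rw [← symmDiff_assoc, ← symmDiff_assoc, symmDiff_comm {i} S]
  have hS : ∀ S : Finset (Fin N), (sg2 S {i} : A) * (sg i S : A) =
      if i ∈ S then -(-1) ^ S.card else (-1) ^ S.card := by
    intro S
    have h3 := congrArg (Int.cast : ℤ → A) (sg2_single_right S i)
    push_cast at h3
    exact h3
  have hq : ∀ S : Finset (Fin N), (sg i S : A) * (sg i S : A) = 1 := fun S => sg_sqA i S
  have e3 : ∀ S : Finset (Fin N), (sg2 S (symmDiff S (symmDiff {i} R)) : A) =
      (sg2 S S : A) * (sg2 S {i} : A) * (sg2 S R : A) := by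
    intro S
    rw [sg2_right, sg2_right]
    push_cast
    ring
  have e4 : ∀ S : Finset (Fin N), (sg2 (symmDiff {i} S) (symmDiff S (symmDiff {i} R)) : A) =
      (sg i S : A) * (sg i R : A) * ((sg2 S S : A) * (sg2 S {i} : A) * (sg2 S R : A)) := by
    intro S
    rw [sg2_left, sg2_right, sg2_right, sg2_right, sg2_right, sg2_single, sg2_single, sg2_single,
      sg_self]
    push_cast
    ring
  have e5 : ∀ S : Finset (Fin N), (sg2 S (symmDiff S R) : A) = (sg2 S S : A) * (sg2 S R : A) := by
    intro S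
    rw [sg2_right]
    push_cast
    ring
  have e6 : ∀ S : Finset (Fin N), (sg i (symmDiff S R) : A) = (sg i S : A) * (sg i R : A) := by
    intro S
    rw [sg_symm]
    push_cast
    ring
  have key : ∀ S : Finset (Fin N), (if i ∈ R then 0 else
      (sg i R : A) * ((sg2 S (symmDiff S (symmDiff {i} R)) : A) * u S *
        v (symmDiff S (symmDiff {i} R)))) =
      (sg2 (symmDiff {i} S) (symmDiff S (symmDiff {i} R)) : A) *
        (if i ∈ S then (sg i S : A) * u S else 0) * v (symmDiff S (symmDiff {i} R)) +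
      (sg2 S (symmDiff S R) : A) * ((-1) ^ S.card * u S) * an i v (symmDiff S R) := by
    intro S
    rw [an_eq, h2, e3, e4, e5, e6]
    have hm : i ∈ symmDiff S R ↔ (i ∈ S ∧ i ∉ R ∨ i ∈ R ∧ i ∉ S) := Finset.mem_symmDiff
    have hSi := hS S
    have hqi := hq S
    by_cases hR : i ∈ R
    · by_cases hs : i ∈ S
      · have hn : i ∉ symmDiff S R := by
          rw [hm]
          tauto
        rw [if_pos hR, if_pos hs, if_neg hn]
        rw [if_pos hs] at hSi
        linear_combination (-(sg i S : A) * (sg i R : A) * (sg2 S S : A) * (sg2 S R : A) * u S *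
          v (symmDiff S (symmDiff {i} R))) * hSi
      · have hn : i ∈ symmDiff S R := by
          rw [hm]
          tauto
        rw [if_pos hR, if_neg hs, if_pos hn]
        ring
    · by_cases hs : i ∈ S
      · have hn : i ∈ symmDiff S R := by
          rw [hm]
          tauto
        rw [if_neg hR, if_pos hs, if_pos hn]
        linear_combination (-(sg i R : A) * (sg2 S S : A) * (sg2 S {i} : A) * (sg2 S R : A) * u S *
          v (symmDiff S (symmDiff {i} R))) * hqi
      · have hn : i ∉ symmDiff S R := by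
          rw [hm]
          tauto
        rw [if_neg hR, if_neg hs, if_neg hn]
        rw [if_neg hs] at hSi
        linear_combination ((sg i S : A) * (sg i R : A) * (sg2 S S : A) * (sg2 S R : A) * u S *
          v (symmDiff S (symmDiff {i} R))) * hSi -
          ((sg i R : A) * (sg2 S S : A) * (sg2 S {i} : A) * (sg2 S R : A) * u S *
          v (symmDiff S (symmDiff {i} R))) * hqi
  rw [← Finset.sum_add_distrib, ← Finset.sum_congr rfl fun S _ => key S]
  by_cases hR : i ∈ R
  · rw [if_pos hR]
    exact (Finset.sum_eq_zero fun S _ => if_pos hR).symm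
  · rw [if_neg hR, Finset.mul_sum]
    exact Finset.sum_congr rfl fun S _ => (if_neg hR).symm

theorem sg2_selfA {p : ℕ} {S : Finset (Fin N)} (h : S.card = p) :
    (sg2 S S : A) = (-1) ^ (p * (p - 1) / 2) := by
  rw [sg2_self, h]
  push_cast
  rfl

theorem adj_left {p : ℕ} {u : Fk N A} (v w : Fk N A) (hu : Deg p u) :
    ip (mulF u v) w = (-1) ^ (p * (p - 1) / 2) * ip v (mulF u w) := by
  unfold ip
  simp only [mulF_apply, Finset.mul_sum, Finset.sum_mul]
  rw [Finset.sum_comm, Finset.sum_comm (f := fun R S => (-1) ^ (p * (p - 1) / 2) *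
    (v R * ((sg2 S (symmDiff S R) : A) * u S * w (symmDiff S R))))]
  refine Finset.sum_congr rfl fun S _ => ?_
  rw [← Equiv.sum_comp (shf S) (fun R => (-1) ^ (p * (p - 1) / 2) *
    (v R * ((sg2 S (symmDiff S R) : A) * u S * w (symmDiff S R))))]
  refine Finset.sum_congr rfl fun R _ => ?_
  show (sg2 S (symmDiff S R) : A) * u S * v (symmDiff S R) * w R = (-1) ^ (p * (p - 1) / 2) *
    (v (symmDiff S R) * ((sg2 S (symmDiff S (symmDiff S R)) : A) * u S *
      w (symmDiff S (symmDiff S R))))
  rw [symmDiff_symmDiff_cancel_left]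
  by_cases hS : S.card = p
  · rw [← sg2_selfA (A := A) hS, sg2_right]
    push_cast
    ring
  · rw [hu S hS]
    ring

theorem adj_right {p : ℕ} (u : Fk N A) {v : Fk N A} (w : Fk N A) (hv : Deg p v) :
    ip (mulF u v) w = (-1) ^ (p * (p - 1) / 2) * ip u (mulF w v) := by
  unfold ip
  simp only [mulF_apply, Finset.mul_sum, Finset.sum_mul]
  rw [Finset.sum_comm]
  refine Finset.sum_congr rfl fun S _ => Finset.sum_congr rfl fun R _ => ?_
  rw [symmDiff_comm R S]
  by_cases hS : (symmDiff S R).card = p
  · have h1 : sg2 S (symmDiff S R) = sg2 (symmDiff S R) (symmDiff S R) * sg2 R (symmDiff S R) := by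
      rw [sg2_left S R (symmDiff S R)]
      linear_combination (-(sg2 S (symmDiff S R))) * sg2_sq R (symmDiff S R)
    rw [h1, ← sg2_selfA (A := A) hS]
    push_cast
    ring
  · rw [hv _ hS]
    ring

end

end Clif

open Clif in
theorem s_clif : S_CLIF := by
  intro N A _
  refine ⟨assoc, vac_mul, mul_vac, fun i u v => ?_, an_mul, fun p u v w hu => adj_left v w hu,
    fun p u v w hv => adj_right u w hv⟩
  rw [← gen_eq, ← gen_eq, assoc]

open Clif in
theorem s_clin : S_CLIN := by
  intro N u v
  have h1 : ∀ R : Finset (Fin N), mulF u v R * mulF u v R ≤ ip u u * ip v v := by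
    intro R
    rw [mulF_apply]
    have h2 := Finset.sum_mul_sq_le_sq_mul_sq Finset.univ
      (fun S : Finset (Fin N) => (sg2 S (symmDiff S R) : ℝ) * u S)
      (fun S : Finset (Fin N) => v (symmDiff S R))
    have h3 : ∑ S : Finset (Fin N), ((sg2 S (symmDiff S R) : ℝ) * u S) ^ 2 = ip u u := by
      unfold ip
      refine Finset.sum_congr rfl fun S _ => ?_
      have h4 : (sg2 S (symmDiff S R) : ℝ) * (sg2 S (symmDiff S R) : ℝ) = 1 := by
        exact_mod_cast sg2_sq S (symmDiff S R)
      linear_combination (u S * u S) * h4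
    have h5 : ∑ S : Finset (Fin N), (v (symmDiff S R)) ^ 2 = ip v v := by
      unfold ip
      rw [← Equiv.sum_comp (shf R) (fun S => v S * v S)]
      refine Finset.sum_congr rfl fun S _ => ?_
      show v (symmDiff S R) ^ 2 = v (symmDiff R S) * v (symmDiff R S)
      rw [symmDiff_comm S R]
      ring
    rw [h3, h5] at h2
    rw [← pow_two]
    exact h2
  calc ip (mulF u v) (mulF u v) = ∑ R, mulF u v R * mulF u v R := rfl
    _ ≤ ∑ _R : Finset (Fin N), ip u u * ip v v := Finset.sum_le_sum fun R _ => h1 R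
    _ = 2 ^ N * (ip u u * ip v v) := by
      rw [Finset.sum_const, Finset.card_univ, Fintype.card_finset, Fintype.card_fin, nsmul_eq_mul]
      push_cast
      ring

end Pool.Agent.H781.CM
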