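import Pool.Agent.H781.CM.Base

/-!
Spectral theorem for the Hodge Laplacian.
-/

set_option autoImplicit false
set_option synthInstance.maxHeartbeats 400000
set_option maxHeartbeats 4000000
set_option linter.unusedSectionVars false

open MeasureTheory Filter
open scoped Topology ContDiff

noncomputable section

namespace Pool.Agent.H781.CM.Sp

open Pool.Agent.H781.NG Pool.Agent.H781.CM

section deg

variable {N : ℕ} {A : Type} [CommRing A] [Algebra ℝ A]

theorem dpt_add (p : ℕ) (u v : Fk N A) : dpt p (u + v) = dpt p u + dpt p v := by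
  funext S
  simp only [dpt, Pi.add_apply]
  split_ifs <;> simp

theorem dpt_zero (p : ℕ) : dpt p (0 : Fk N A) = 0 := by
  funext S
  simp [dpt]

theorem dpt_smul (p : ℕ) (c : ℝ) (u : Fk N A) : dpt p (c • u) = c • dpt p u := by
  funext S
  simp only [dpt, Pi.smul_apply]
  split_ifs <;> simp

theorem dpt_sum {κ : Type*} (p : ℕ) (s : Finset κ) (u : κ → Fk N A) :
    dpt p (∑ i ∈ s, u i) = ∑ i ∈ s, dpt p (u i) := by
  classical
  induction s using Finset.induction_on with
  | empty => simp [dpt_zero]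
  | insert a s ha ih => rw [Finset.sum_insert ha, Finset.sum_insert ha, dpt_add, ih]

theorem dpt_self (p : ℕ) (u : Fk N A) (h : Deg p u) : dpt p u = u := by
  funext S
  simp only [dpt]
  split_ifs with h1
  · rfl
  · exact (h S h1).symm

theorem dpt_ne {p q : ℕ} (hpq : p ≠ q) (u : Fk N A) (h : Deg q u) : dpt p u = 0 := by
  funext S
  simp only [dpt]
  split_ifs with h1
  · exact h S (by omega)
  · rfl

theorem Deg_dpt (p : ℕ) (u : Fk N A) : Deg p (dpt p u) := by
  intro S hS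
  simp only [dpt]
  rw [if_neg hS]

theorem sum_dpt (u : Fk N A) : u = ∑ q ∈ Finset.range (N + 1), dpt q u := by
  funext S
  rw [Finset.sum_apply]
  simp only [dpt]
  rw [Finset.sum_ite_eq]
  have h : S.card ≤ N := by
    have := Finset.card_le_univ S
    rwa [Fintype.card_fin] at this
  rw [if_pos (Finset.mem_range.2 (Nat.lt_succ_of_le h))]

theorem an_dpt (p : ℕ) (c : Fin N) (u : Fk N A) :
    an c (dpt p u) = fun S => if S.card + 1 = p then an c u S else 0 := by
  funext S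
  simp only [an_apply, dpt]
  by_cases h : c ∈ S
  · simp [h]
  · simp only [h, if_false, Finset.card_insert_of_notMem h]
    split_ifs <;> simp

end deg

variable {M : Type} [TopologicalSpace M] [CompactSpace M] [MeasurableSpace M] [BorelSpace M]
  {N : ℕ} (C : CD M N)

theorem Hor_dpt (p : ℕ) (u : Fk N C.A) (h : Hor C u) : Hor C (dpt p u) := by
  intro c
  rw [an_dpt]
  funext S
  rw [Finset.sum_apply]
  simp only [an_dpt, Pi.smul_apply]
  split_ifs with h1
  · have := congrFun (h c) S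
    rw [Finset.sum_apply] at this
    simpa only [Pi.smul_apply] using this
  · simp

theorem dd_zero : dd C.F (0 : Fk N C.A) = 0 := map_zero (ddL C.F)
theorem de_zero : de C.F (0 : Fk N C.A) = 0 := map_zero (deL C.F)
theorem dd_add (u v : Fk N C.A) : dd C.F (u + v) = dd C.F u + dd C.F v := map_add (ddL C.F) u v
theorem de_add (u v : Fk N C.A) : de C.F (u + v) = de C.F u + de C.F v := map_add (deL C.F) u v
theorem DD_zero : DD C (0 : Fk N C.A) = 0 := map_zero (DDL C)
theorem DD_add (u v : Fk N C.A) : DD C (u + v) = DD C u + DD C v := map_add (DDL C) u v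
theorem DD_sub (u v : Fk N C.A) : DD C (u - v) = DD C u - DD C v := map_sub (DDL C) u v
theorem DD_smul (c : ℝ) (u : Fk N C.A) : DD C (c • u) = c • DD C u := map_smul (DDL C) c u
theorem DD_sum {κ : Type*} (s : Finset κ) (u : κ → Fk N C.A) :
    DD C (∑ i ∈ s, u i) = ∑ i ∈ s, DD C (u i) := map_sum (DDL C) u s

/-- the Hodge Laplacian preserves degrees -/
theorem lap_deg (h3 : S_DDH) (q : ℕ) (u : Fk N C.A) (hu : Hor C u) (hq : Deg q u) :
    Deg q (DD C (DD C u)) := by
  obtain ⟨-, -, -, -, hdd, hde, hde0, hd2, he2, -, -, -, -⟩ := h3 M N C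
  have h1 : DD C (DD C u) = dd C.F (de C.F u) + de C.F (dd C.F u) := by
    unfold DD
    rw [dd_add, de_add, hd2 u hu, he2 u hu]
    simp
  rw [h1]
  have h2 : Deg q (dd C.F (de C.F u)) := by
    rcases q with _ | q
    · rw [hde0 u hq, dd_zero]
      exact fun S _ => rfl
    · exact hdd q _ (hde q u hq)
  have h4 : Deg q (de C.F (dd C.F u)) := hde q _ (hdd q u hq)
  intro S hS
  rw [Pi.add_apply, h2 S hS, h4 S hS, add_zero]

theorem lap_dpt (h3 : S_DDH) (p : ℕ) (u : Fk N C.A) (hu : Hor C u) :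
    DD C (DD C (dpt p u)) = dpt p (DD C (DD C u)) := by
  have h1 : DD C (DD C u) = ∑ q ∈ Finset.range (N + 1), DD C (DD C (dpt q u)) := by
    conv_lhs => rw [sum_dpt u]
    rw [DD_sum, DD_sum]
  rw [h1, dpt_sum]
  by_cases hp : p ∈ Finset.range (N + 1)
  · rw [Finset.sum_eq_single p]
    · exact (dpt_self p _ (lap_deg C h3 p _ (Hor_dpt C p u hu) (Deg_dpt p u))).symm
    · intro q _ hq
      exact dpt_ne (Ne.symm hq) _ (lap_deg C h3 q _ (Hor_dpt C q u hu) (Deg_dpt q u))
    · intro h; exact absurd hp h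
  · have h2 : dpt p u = 0 := by
      funext S
      simp only [dpt]
      rw [if_neg]
      · rfl
      · have := Finset.card_le_univ S
        rw [Fintype.card_fin] at this
        rw [Finset.mem_range] at hp
        omega
    rw [h2, DD_zero, DD_zero]
    symm
    refine Finset.sum_eq_zero fun q hq => ?_
    refine dpt_ne ?_ _ (lap_deg C h3 q _ (Hor_dpt C q u hu) (Deg_dpt q u))
    rintro rfl
    exact hp hq

/-- the scalar product on differential forms -/
def BB : HorS C →ₗ[ℝ] HorS C →ₗ[ℝ] ℝ := (prL C).compl₁₂ (HorS C).subtype (HorS C).subtype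

theorem BB_apply (u v : HorS C) : BB C u v = pr C (u : Fk N C.A) (v : Fk N C.A) := rfl

/-- `d + δ` on differential forms -/
def Dr (h3 : S_DDH) : HorS C →ₗ[ℝ] HorS C :=
  (DDL C).restrict (fun u hu => (HorS C).add_mem ((h3 M N C).2.1 u hu) ((h3 M N C).2.2.1 u hu))

theorem Dr_apply (h3 : S_DDH) (u : HorS C) : (Dr C h3 u : Fk N C.A) = DD C (u : Fk N C.A) := rfl

/-- the sum of the eigenspaces in `HorS` -/
def EE (h3 : S_DDH) (t : ℝ) : Submodule ℝ (HorS C) :=
  Submodule.span ℝ {u | ∃ l : ℝ, 0 ≤ l ∧ l ≤ t ∧ Dr C h3 (Dr C h3 u) = l • u}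

theorem Ev_eq (h3 : S_DDH) (t : ℝ) : Ev C t = (EE C h3 t).map (HorS C).subtype := by
  unfold Ev EE
  rw [Submodule.map_span]
  congr 1
  ext u
  constructor
  · rintro ⟨hu, l, h0, h1, h2⟩
    refine ⟨⟨u, hu⟩, ⟨l, h0, h1, ?_⟩, rfl⟩
    apply Subtype.ext
    exact h2
  · rintro ⟨u', ⟨l, h0, h1, h2⟩, rfl⟩
    refine ⟨u'.2, l, h0, h1, ?_⟩
    exact congrArg Subtype.val h2

end Pool.Agent.H781.CM.Sp

namespace Pool.Agent.H781.CM

open Pool.Agent.H781.NG

open Sp in
theorem s_spec (h1 : S_SPECA) (h2 : S_PH) (h3 : S_DDH) (h4 : S_CPT) (h5 : S_REG) : S_SPEC := by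
  intro M _ _ _ _ N C hM hD hR t ht
  obtain ⟨Ph, hPh1, hPh2, hPdd, hPde, hPs, -⟩ := h2 M N C
  have hsym := (h3 M N C).2.2.2.2.2.2.2.2.2.2.1
  have hPr : ∀ u v, pr C (Ph u) v = pr C u (Ph v) := fun u v => congrArg (ig C) (hPs u v)
  have hPle : ∀ w, nq C (Ph w) ≤ nq C w := by
    intro w
    have e1 : pr C w (Ph w) = nq C (Ph w) := by
      rw [← pr_self, hPr, hPh2 _ (hPh1 w)]
    have e2 := nq_nonneg C (w - Ph w)
    rw [nq_sub, e1] at e2
    linarith
  have hPDD : ∀ u, DD C (Ph u) = Ph (DD C u) := by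
    intro u
    unfold DD
    rw [hPdd, hPde, map_add]
  have key := h1 (HorS C) (BB C) (Dr C h3) (fun u v => pr_comm C _ _)
    (by
      intro u hu
      rw [BB_apply, pr_self]
      refine lt_of_le_of_ne (nq_nonneg C _) fun h => hu ?_
      exact Subtype.ext (nq_eq_zero C h.symm))
    (fun u v => hsym _ _)
    (by
      intro v hv
      obtain ⟨φ, hφ, hc⟩ := h4 M N C hM (fun k => (v k : Fk N C.A)) hv
      exact ⟨φ, hφ, hc⟩)
    (by
      intro v g l hv1 hv2 hlim
      obtain ⟨u, hu⟩ := h5 M N C hM hD hR (fun k => (v k : Fk N C.A)) g l hv1 hv2 (by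
        intro φ
        have e1 := hlim ⟨Ph φ, hPh1 φ⟩
        have e2 : pr C (g : Fk N C.A) φ = pr C (g : Fk N C.A) (Ph φ) := by
          rw [← hPr, hPh2 _ g.2]
        rw [e2]
        refine e1.congr fun k => ?_
        have e3 : pr C (v k : Fk N C.A) φ = pr C (v k : Fk N C.A) (Ph φ) := by
          rw [← hPr, hPh2 _ (v k).2]
        have e4 : pr C (DD C (v k : Fk N C.A)) (DD C φ) =
            pr C (DD C (v k : Fk N C.A)) (DD C (Ph φ)) := by
          have e6 : Ph (DD C (v k : Fk N C.A)) = DD C (v k : Fk N C.A) :=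
            hPh2 _ (Dr C h3 (v k)).2
          rw [hPDD, ← hPr, e6]
        rw [e3, e4]
        rfl)
      refine ⟨⟨Ph u, hPh1 u⟩, ?_⟩
      refine squeeze_zero (fun k => nq_nonneg C _) (fun k => ?_) hu
      have e5 : ((v k : Fk N C.A) - Ph u) = Ph ((v k : Fk N C.A) - u) := by
        rw [map_sub, hPh2 _ (v k).2]
      show nq C ((v k : Fk N C.A) - Ph u) ≤ _
      rw [e5]
      exact hPle _)
    t ht (EE C h3 t) rfl
  obtain ⟨k1, k2, k3, k4, k5⟩ := key
  have hEv := Ev_eq C h3 t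
  have hmem : ∀ u : HorS C, u ∈ EE C h3 t → (u : Fk N C.A) ∈ Ev C t := by
    intro u hu
    rw [hEv]
    exact ⟨u, hu, rfl⟩
  have hmem' : ∀ u ∈ Ev C t, ∃ u' ∈ EE C h3 t, (u' : Fk N C.A) = u := by
    intro u hu
    rw [hEv] at hu
    obtain ⟨u', hu', h⟩ := hu
    exact ⟨u', hu', h⟩
  refine ⟨?_, ?_, ?_, ?_, ?_, ?_⟩
  · rw [hEv]
    exact Module.Finite.map _ _
  · intro u hu
    obtain ⟨u', hu', rfl⟩ := hmem' u hu
    exact ⟨u'.2, hmem _ (k2 u' hu').1, (k2 u' hu').2⟩
  · intro v hv hort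
    exact k3 ⟨v, hv⟩ (fun u hu => hort _ (hmem u hu))
  · intro v hv
    obtain ⟨u, hu, h⟩ := k4 ⟨v, hv⟩
    refine ⟨u, hmem u hu, fun w hw => ?_⟩
    obtain ⟨w', hw', rfl⟩ := hmem' w hw
    exact h w' hw'
  · intro f hf hort
    obtain ⟨γ, hγ⟩ := k5 ⟨f, hf⟩ (fun u hu => hort _ (hmem u hu))
    exact ⟨γ, γ.2, congrArg Subtype.val hγ⟩
  · intro u hu p
    unfold Ev at hu ⊢
    induction hu using Submodule.span_induction with
    | mem u hu =>
      obtain ⟨hH, l, h0, hl, he⟩ := hu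
      refine Submodule.subset_span ⟨Hor_dpt C p u hH, l, h0, hl, ?_⟩
      rw [lap_dpt C h3 p u hH, he, dpt_smul]
    | zero => rw [dpt_zero]; exact Submodule.zero_mem _
    | add u v _ _ hu hv => rw [dpt_add]; exact Submodule.add_mem _ hu hv
    | smul c u _ hu => rw [dpt_smul]; exact Submodule.smul_mem _ c hu

end Pool.Agent.H781.CM
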