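import Pool.Agent.H781.CM.SA
import Pool.Agent.H781.CM.App
import Pool.Agent.H781.CM.Clif
import Pool.Agent.H781.CM.Sp

/-!
Products of self-dual forms of degree two.
-/

set_option autoImplicit false
set_option synthInstance.maxHeartbeats 400000
set_option maxHeartbeats 4000000
set_option linter.unusedSectionVars false

open MeasureTheory Filter
open scoped Topology ContDiff

noncomputable section

namespace Pool.Agent.H781.CM

open Pool.Agent.H781.NG

namespace AB

section alg

variable {N : ℕ} {A : Type} [CommRing A]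

theorem card_symm (S T : Finset (Fin N)) :
    (symmDiff S T).card + 2 * (S ∩ T).card = S.card + T.card := by
  have h1 : (symmDiff S T).card = (S \ T).card + (T \ S).card := by
    rw [symmDiff_def, Finset.sup_eq_union, Finset.card_union_of_disjoint]
    exact disjoint_sdiff_sdiff
  have h2 := Finset.card_sdiff_add_card_inter S T
  have h3 := Finset.card_sdiff_add_card_inter T S
  rw [Finset.inter_comm T S] at h3
  omega

theorem mulF_deg (u v : Fk N A) (hu : ∀ S : Finset (Fin N), S.card ≠ 2 → u S = 0)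
    (hv : ∀ S : Finset (Fin N), S.card ≠ 2 → v S = 0) (R : Finset (Fin N))
    (h0 : R.card ≠ 0) (h2 : R.card ≠ 2) (h4 : R.card ≠ 4) : mulF u v R = 0 := by
  unfold mulF
  refine Finset.sum_eq_zero fun S _ => ?_
  by_cases hS : S.card = 2
  · by_cases hT : (symmDiff S R).card = 2
    · exfalso
      have h5 := card_symm S (symmDiff S R)
      have h6 : symmDiff S (symmDiff S R) = R := symmDiff_symmDiff_cancel_left S R
      rw [h6] at h5
      omega
    · rw [hv _ hT, mul_zero]
  · rw [hu _ hS, mul_zero, zero_mul]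

theorem mulF_smul_left (c : A) (u v : Fk N A) : mulF (c • u) v = c • mulF u v := by
  funext R
  simp only [mulF, Pi.smul_apply, smul_eq_mul, Finset.mul_sum]
  refine Finset.sum_congr rfl fun S _ => ?_
  ring

theorem mulF_smul_right (c : A) (u v : Fk N A) : mulF u (c • v) = c • mulF u v := by
  funext R
  simp only [mulF, Pi.smul_apply, smul_eq_mul, Finset.mul_sum]
  refine Finset.sum_congr rfl fun S _ => ?_
  ring

/-- the basis elements -/
def dl (S : Finset (Fin N)) : Fk N A := fun T => if T = S then 1 else 0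

theorem ip_dl (u : Fk N A) (S : Finset (Fin N)) : ip u (dl S) = u S := by
  unfold ip dl
  rw [Finset.sum_eq_single S]
  · rw [if_pos rfl, mul_one]
  · intro T _ hT
    rw [if_neg hT, mul_zero]
  · intro h
    exact absurd (Finset.mem_univ S) h

end alg

section algR

variable {N : ℕ} {A : Type} [CommRing A] [Algebra ℝ A]

theorem deg_dl (S : Finset (Fin N)) : Deg S.card (dl S : Fk N A) := by
  intro T hT
  unfold dl
  rw [if_neg]
  rintro rfl
  exact hT rfl

theorem ip_deg {p q : ℕ} (hpq : p ≠ q) {u v : Fk N A} (hu : Deg p u) (hv : Deg q v) :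
    ip u v = 0 := by
  unfold ip
  refine Finset.sum_eq_zero fun S _ => ?_
  by_cases h : S.card = p
  · rw [hv S (by omega), mul_zero]
  · rw [hu S h, zero_mul]

theorem deg_vac : Deg 0 (vac : Fk N A) := by
  intro S hS
  unfold vac
  rw [if_neg]
  rintro rfl
  exact hS rfl

theorem ip_vac (u : Fk N A) : ip u vac = u ∅ := by
  have h : (vac : Fk N A) = dl ∅ := rfl
  rw [h, ip_dl]

theorem split (u v : Fk N A) (hu : Deg 2 u) (hv : Deg 2 v) :
    mulF u v = dpt 0 (mulF u v) + dpt 2 (mulF u v) + dpt 4 (mulF u v) := by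
  funext R
  simp only [Pi.add_apply, dpt]
  by_cases h0 : R.card = 0
  · rw [if_pos h0, if_neg (by omega), if_neg (by omega), add_zero, add_zero]
  · by_cases h2 : R.card = 2
    · rw [if_neg h0, if_pos h2, if_neg (by omega), add_zero, zero_add]
    · by_cases h4 : R.card = 4
      · rw [if_neg h0, if_neg h2, if_pos h4, add_zero, zero_add]
      · rw [if_neg h0, if_neg h2, if_neg h4, add_zero, add_zero]
        exact mulF_deg u v hu hv R h0 h2 h4

theorem two_zero {x : A} (h : x = -x) : x = 0 := by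
  have h1 : (2 : ℝ) • x = 0 := by
    rw [two_smul]
    nth_rewrite 1 [h]
    exact neg_add_cancel x
  have h2 : ((1 / 2 : ℝ)) • ((2 : ℝ) • x) = 0 := by rw [h1, smul_zero]
  rw [smul_smul] at h2
  norm_num at h2
  exact h2

theorem ip_dpt {p : ℕ} (u v : Fk N A) (hv : Deg p v) : ip (dpt p u) v = ip u v := by
  unfold ip
  refine Finset.sum_congr rfl fun S _ => ?_
  simp only [dpt]
  split_ifs with h
  · rfl
  · rw [hv S h, mul_zero, mul_zero]

/-- the sign rules in degrees two and four -/
theorem adjL2 (h : S_CLIF) (u v w : Fk N A) (hu : Deg 2 u) :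
    ip (mulF u v) w = - ip v (mulF u w) := by
  have := (h N A).2.2.2.2.2.1 2 u v w hu
  rw [this]
  norm_num

theorem adjR2 (h : S_CLIF) (u v w : Fk N A) (hv : Deg 2 v) :
    ip (mulF u v) w = - ip u (mulF w v) := by
  have := (h N A).2.2.2.2.2.2 2 u v w hv
  rw [this]
  norm_num

theorem adjL4 (h : S_CLIF) (u v w : Fk N A) (hu : Deg 4 u) :
    ip (mulF u v) w = ip v (mulF u w) := by
  have := (h N A).2.2.2.2.2.1 4 u v w hu
  rw [this]
  norm_num

/-- right multiplication by the volume form -/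
theorem right_W (h : S_CLIF) {W a : Fk N A} {l : ℝ} (hW : Deg 4 W) (ha : Deg 2 a)
    (hWa : mulF W a = l • a) : mulF a W = l • a := by
  funext S
  have h1 : mulF a W S = - ip (mulF a (dl S)) W := by
    rw [← ip_dl (mulF a W) S, adjL2 h a W (dl S) ha, ip_comm]
  have h2 : ip (mulF a (dl S)) W = (-1) ^ (S.card * (S.card - 1) / 2) * ip a (mulF W (dl S)) :=
    (h N A).2.2.2.2.2.2 S.card a (dl S) W (deg_dl S)
  have h3 : ip a (mulF W (dl S)) = l • a S := by
    rw [ip_comm, adjL4 h W (dl S) a hW, hWa, ip_comm, ip_dl, Pi.smul_apply]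
  rw [h1, h2, h3, Pi.smul_apply]
  by_cases hS : S.card = 2
  · rw [hS]
    norm_num
  · rw [ha S hS, smul_zero, mul_zero, neg_zero]

/-- the square of a form of degree two has no component of degree two -/
theorem sq_two (h : S_CLIF) {a : Fk N A} (ha : Deg 2 a) : dpt 2 (mulF a a) = 0 := by
  funext S
  simp only [dpt]
  by_cases hS : S.card = 2
  · rw [if_pos hS]
    have h0 : Deg 2 (dl S : Fk N A) := hS ▸ deg_dl S
    have h1 : mulF a a S = - ip a (mulF a (dl S)) := by
      rw [← ip_dl (mulF a a) S, adjL2 h a a (dl S) ha]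
    have h2 : ip (mulF a (dl S)) a = - ip a (mulF a (dl S)) := adjR2 h a (dl S) a h0
    have h3 : ip a (mulF a (dl S)) = - ip a (mulF a (dl S)) := by
      rw [← h2]
      exact ip_comm _ _
    rw [h1, two_zero h3, neg_zero, Pi.zero_apply]
  · rw [if_neg hS, Pi.zero_apply]

/-- the component of degree zero -/
theorem part0 (h : S_CLIF) {a b : Fk N A} (ha : Deg 2 a) :
    dpt 0 (mulF a b) = -(ip a b) • (vac : Fk N A) := by
  have h1 : mulF a b ∅ = - ip a b := by
    rw [← ip_vac (mulF a b), adjL2 h a b vac ha, (h N A).2.2.1 a, ip_comm]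
  funext S
  simp only [dpt, Pi.smul_apply, vac]
  by_cases hS : S.card = 0
  · have h2 : S = ∅ := Finset.card_eq_zero.1 hS
    rw [if_pos hS, h2, if_pos rfl, h1, smul_eq_mul, mul_one]
  · have h2 : S ≠ ∅ := fun h' => hS (by rw [h', Finset.card_empty])
    rw [if_neg hS, if_neg h2, smul_zero]

end algR

section main

variable {M : Type} [TopologicalSpace M] [CompactSpace M] [MeasurableSpace M] [BorelSpace M]
  {N : ℕ} (C : CD M N)

/-- the component of degree four -/
theorem part4 (h1 : S_W4) (h2 : S_CLIF) (h3 : S_CLIM) {W : Fk N C.A} (hW : W4 C W) {l : ℝ}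
    {a b : Fk N C.A} (ha : Hor C a) (ha2 : Deg 2 a) (hb : Hor C b) (hWa : mulF W a = l • a) :
    dpt 4 (mulF a b) = (-(l • ip a b)) • W := by
  have h4 := (h1 M N C W hW).2.2.2.2.1 (dpt 4 (mulF a b))
    (Sp.Hor_dpt C 4 _ ((h3 M N C).2.1 a b ha hb)) (Sp.Deg_dpt 4 _)
  rw [h4]
  congr 1
  rw [ip_dpt _ _ hW.deg, adjL2 h2 a b W ha2, right_W h2 hW.deg ha2 hWa, ip_smulR' l b a, ip_comm]

theorem sq_eq (h1 : S_W4) (h2 : S_CLIF) (h3 : S_CLIM) {W : Fk N C.A} (hW : W4 C W) {l : ℝ}
    {a : Fk N C.A} (ha : Hor C a) (ha2 : Deg 2 a) (hWa : mulF W a = l • a) :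
    mulF a a = -(ip a a) • (vac : Fk N C.A) + (-(l • ip a a)) • W := by
  conv_lhs => rw [split a a ha2 ha2]
  rw [sq_two h2 ha2, part0 h2 ha2, part4 C h1 h2 h3 hW ha ha2 ha hWa, add_zero]

end main

end AB

open AB in
theorem s_ab (h1 : S_W4) (h2 : S_CLIF) (h3 : S_CLIM) : S_AB := by
  intro M _ _ _ _ N C W hW l a b hl ha ha2 hb hb2 hWa hWb
  have haa := sq_eq C h1 h2 h3 hW ha ha2 hWa
  have hbb := sq_eq C h1 h2 h3 hW hb hb2 hWb
  have hvac : ∀ u : Fk N C.A, Deg 2 u → ip u (vac : Fk N C.A) = 0 := fun u hu =>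
    ip_deg (by norm_num) hu deg_vac
  have hWW : ∀ u : Fk N C.A, Deg 2 u → ip u W = 0 := fun u hu =>
    ip_deg (by norm_num) hu hW.deg
  have hll : l * l = 1 := by rw [← hl]; ring
  have haab : mulF a (mulF a b) = -(2 * ip a a) • b := by
    rw [← (h2 N C.A).1 a a b, haa, App.mulF_add_left, mulF_smul_left, mulF_smul_left,
      (h2 N C.A).2.1 b, hWb]
    funext S
    simp only [Pi.add_apply, Pi.smul_apply, smul_eq_mul]
    have h5 : -(l • ip a a) * (l • b S) = -(ip a a * b S) := by
      rw [neg_mul, smul_mul_smul_comm, hll, one_smul]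
    rw [h5]
    ring
  have e1 : ip (mulF a b) (mulF a b) = 2 * (ip a a * ip b b) := by
    rw [adjL2 h2 a b _ ha2, haab, ip_smul_right]
    ring
  have e2 : ip (mulF a b) a = 0 := by
    rw [adjL2 h2 a b a ha2, haa, ip_add_right, ip_smul_right, ip_smul_right, hvac b hb2,
      hWW b hb2]
    ring
  have e3 : ip (mulF a b) b = 0 := by
    rw [adjR2 h2 a b b hb2, hbb, ip_add_right, ip_smul_right, ip_smul_right, hvac a ha2,
      hWW a ha2]
    ring
  refine ⟨e1, e2, e3, split a b ha2 hb2, ?_, ?_⟩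
  · rw [part0 h2 ha2, ip_smul_left, ip_smul_right, ip_vac]
    have h6 : (vac : Fk N C.A) ∅ = 1 := if_pos rfl
    rw [h6]
    ring
  · rw [part4 C h1 h2 h3 hW ha ha2 hb hWa, ip_smul_left, ip_smul_right, hW.one, mul_one,
      neg_mul_neg, smul_mul_smul_comm, hll, one_smul]
    ring

end Pool.Agent.H781.CM
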