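import Pool.Agent.H781.CM.Spec

/-!
Project CM, task Alg (helper740): graded `*`-subalgebras of the Clifford algebra have nonnegative
super-dimension.  The algebra is represented by its left multiplications `L x`; `G` is the Gram
matrix of the `L x` for the Frobenius scalar product and `H` its inverse.
-/

set_option autoImplicit false
set_option maxHeartbeats 4000000
set_option linter.unusedSectionVars false

noncomputable section

namespace Pool.Agent.H781.CM

open Pool.Agent.H781.NG

namespace Alg

open Matrix Finset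

section

variable {ι : Type} [Fintype ι] [DecidableEq ι]

theorem tr_self_eq_zero (M : Matrix ι ι ℝ) (h : trace (Mᵀ * M) = 0) : M = 0 := by
  have h1 : trace (Mᴴ * M) = 0 := by
    rwa [Matrix.conjTranspose_eq_transpose_of_trivial]
  exact Matrix.trace_conjTranspose_mul_self_eq_zero_iff.1 h1

theorem tr_self_nonneg (M : Matrix ι ι ℝ) : 0 ≤ trace (Mᵀ * M) := by
  rw [Matrix.trace]
  refine sum_nonneg fun i _ => ?_
  rw [Matrix.diag_apply, Matrix.mul_apply]
  refine sum_nonneg fun j _ => ?_
  rw [Matrix.transpose_apply]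
  exact mul_self_nonneg _

variable (L : ι → Matrix ι ι ℝ) (s ε : ι → ℝ)

/-- the Gram matrix -/
def G : Matrix ι ι ℝ := fun x y => trace ((L x)ᵀ * L y)

/-- the sandwich -/
def Ph (S K : Matrix ι ι ℝ) : Matrix ι ι ℝ := ∑ x, ∑ y, K x y • ((L x)ᵀ * S * L y)

theorem G_symm : (G L)ᵀ = G L := by
  ext x y
  rw [Matrix.transpose_apply]
  unfold G
  rw [← Matrix.trace_transpose, Matrix.transpose_mul, Matrix.transpose_transpose]

variable {L}

theorem G_unit (h5 : ∀ v : ι → ℝ, ∑ w, v w • L w = 0 → v = 0) : IsUnit (G L) := by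
  rw [← Matrix.mulVec_injective_iff_isUnit]
  intro v w hvw
  rw [← sub_eq_zero]
  apply h5
  apply tr_self_eq_zero
  have h1 : (G L).mulVec (v - w) = 0 := by
    rw [Matrix.mulVec_sub, sub_eq_zero]; exact hvw
  set u := v - w
  have h2 : trace ((∑ w, u w • L w)ᵀ * ∑ w, u w • L w) = ∑ x, u x * (G L).mulVec u x := by
    rw [Matrix.transpose_sum, Matrix.sum_mul, Matrix.trace_sum]
    refine sum_congr rfl fun x _ => ?_
    rw [Matrix.transpose_smul, Matrix.smul_mul, Matrix.mul_sum, Matrix.trace_smul,
      Matrix.trace_sum, smul_eq_mul]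
    congr 1
    refine sum_congr rfl fun y _ => ?_
    rw [Matrix.mul_smul, Matrix.trace_smul, smul_eq_mul, mul_comm]
    rfl
  rw [h2, h1]
  simp

theorem key (hs : ∀ x, s x * s x = 1) (h1 : ∀ x y, L x * L y = ∑ w, L x w y • L w)
    (h2 : ∀ x, (L x)ᵀ = s x • L x) (h3 : ∀ x, diagonal ε * L x * diagonal ε = ε x • L x)
    (h4 : ∃ v : ι → ℝ, ∑ w, v w • L w = 1)
    (h5 : ∀ v : ι → ℝ, ∑ w, v w • L w = 0 → v = 0) : 0 ≤ ∑ x, ε x := by
  set S : Matrix ι ι ℝ := diagonal ε with hS
  have hST : Sᵀ = S := Matrix.diagonal_transpose _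
  have hGu := G_unit h5
  have hGd : IsUnit (G L).det := (Matrix.isUnit_iff_isUnit_det _).1 hGu
  set H : Matrix ι ι ℝ := (G L)⁻¹ with hH
  have hHG : H * G L = 1 := Matrix.nonsing_inv_mul _ hGd
  have hGH : G L * H = 1 := Matrix.mul_nonsing_inv _ hGd
  have hHT : Hᵀ = H := by rw [hH, Matrix.transpose_nonsing_inv, G_symm]
  have hHs : ∀ x y, H x y = H y x := fun x y => by
    conv_lhs => rw [← hHT]
    rfl
  have hGs : ∀ x y, G L x y = G L y x := fun x y => by
    conv_lhs => rw [← G_symm]
    rfl
  -- the Casimir element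
  set D : Matrix ι ι ℝ := ∑ x, ∑ y, H x y • (L x * (L y)ᵀ) with hD
  have hDtr : ∀ u, trace (L u * D) = trace (L u) := by
    intro u
    have e1 : trace (L u * D) = ∑ x, ∑ w, L u w x * ∑ y, H x y * G L y w := by
      rw [hD, Matrix.mul_sum, Matrix.trace_sum]
      refine sum_congr rfl fun x _ => ?_
      rw [Matrix.mul_sum, Matrix.trace_sum]
      have e2 : ∀ y, trace (L u * (H x y • (L x * (L y)ᵀ))) = ∑ w, L u w x * (H x y * G L y w) := by
        intro y
        rw [Matrix.mul_smul, Matrix.trace_smul, smul_eq_mul, ← Matrix.mul_assoc,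
          Matrix.trace_mul_comm, h1, Matrix.mul_sum, Matrix.trace_sum, mul_sum]
        refine sum_congr rfl fun w _ => ?_
        rw [Matrix.mul_smul, Matrix.trace_smul, smul_eq_mul]
        unfold G
        ring
      rw [sum_congr rfl fun y _ => e2 y, sum_comm]
      refine sum_congr rfl fun w _ => ?_
      rw [mul_sum]
    rw [e1]
    have e3 : ∀ x w, ∑ y, H x y * G L y w = (1 : Matrix ι ι ℝ) x w := by
      intro x w
      rw [← hHG, Matrix.mul_apply]
    rw [Matrix.trace]
    refine sum_congr rfl fun x _ => ?_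
    simp only [e3, Matrix.one_apply]
    simp
  set V : Submodule ℝ (Matrix ι ι ℝ) := Submodule.span ℝ (Set.range L) with hV
  have hLV : ∀ x, L x ∈ V := fun x => Submodule.subset_span ⟨x, rfl⟩
  have hDV : D ∈ V := by
    rw [hD]
    refine V.sum_mem fun x _ => V.sum_mem fun y _ => V.smul_mem _ ?_
    rw [h2, Matrix.mul_smul, h1]
    exact V.smul_mem _ (V.sum_mem fun w _ => V.smul_mem _ (hLV w))
  have h1V : (1 : Matrix ι ι ℝ) ∈ V := by
    obtain ⟨v, hv⟩ := h4
    rw [← hv]
    exact V.sum_mem fun w _ => V.smul_mem _ (hLV w)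
  have hVT : ∀ A ∈ V, Aᵀ ∈ V := by
    intro A hA
    induction hA using Submodule.span_induction with
    | mem A hA =>
      obtain ⟨x, rfl⟩ := hA
      rw [h2]
      exact V.smul_mem _ (hLV x)
    | zero => rw [Matrix.transpose_zero]; exact V.zero_mem
    | add A B _ _ hA hB => rw [Matrix.transpose_add]; exact V.add_mem hA hB
    | smul c A _ hA => rw [Matrix.transpose_smul]; exact V.smul_mem _ hA
  have hD1 : D = 1 := by
    rw [← sub_eq_zero]
    apply tr_self_eq_zero
    have h6 : ∀ A ∈ V, trace (A * (D - 1)) = 0 := by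
      intro A hA
      induction hA using Submodule.span_induction with
      | mem A hA =>
        obtain ⟨x, rfl⟩ := hA
        rw [Matrix.mul_sub, Matrix.trace_sub, hDtr, Matrix.mul_one, sub_self]
      | zero => rw [Matrix.zero_mul, Matrix.trace_zero]
      | add A B _ _ hA hB => rw [Matrix.add_mul, Matrix.trace_add, hA, hB, add_zero]
      | smul c A _ hA => rw [Matrix.smul_mul, Matrix.trace_smul, hA, smul_zero]
    exact h6 _ (hVT _ (V.sub_mem hDV h1V))
  -- the operator
  set P : Matrix ι ι ℝ := Ph L S H with hP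
  have hPT : Pᵀ = P := by
    rw [hP]
    unfold Ph
    rw [Matrix.transpose_sum]
    simp only [Matrix.transpose_sum, Matrix.transpose_smul, Matrix.transpose_mul,
      Matrix.transpose_transpose, hST]
    rw [sum_comm]
    refine sum_congr rfl fun x _ => sum_congr rfl fun y _ => ?_
    rw [hHs y x, Matrix.mul_assoc]
  -- commutation
  have hcomm : ∀ u, L u * P = P * L u := by
    intro u
    set R : Matrix ι ι ℝ := fun y w => L y w u with hR
    have hyu : ∀ y, L y * L u = ∑ w, R y w • L w := fun y => h1 y u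
    have hux : ∀ x, L u * (L x)ᵀ = s u • ∑ w, R x w • (L w)ᵀ := by
      intro x
      have e1 : (L x * L u)ᵀ = s u • (L u * (L x)ᵀ) := by
        rw [Matrix.transpose_mul, h2 u, Matrix.smul_mul]
      have e2 : L u * (L x)ᵀ = s u • (L x * L u)ᵀ := by
        rw [e1, smul_smul, hs, one_smul]
      rw [e2, hyu, Matrix.transpose_sum]
      simp only [Matrix.transpose_smul]
    have hRG : R * G L = s u • (G L * Rᵀ) := by
      ext x w
      rw [Matrix.smul_apply, Matrix.mul_apply, Matrix.mul_apply, smul_eq_mul]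
      have e1 : ∑ y, R x y * G L y w = trace ((L x * L u)ᵀ * L w) := by
        rw [hyu, Matrix.transpose_sum, Matrix.sum_mul, Matrix.trace_sum]
        refine sum_congr rfl fun y _ => ?_
        rw [Matrix.transpose_smul, Matrix.smul_mul, Matrix.trace_smul, smul_eq_mul]
        rfl
      have e2 : ∑ y, G L x y * Rᵀ y w = trace ((L x)ᵀ * (L w * L u)) := by
        rw [hyu, Matrix.mul_sum, Matrix.trace_sum]
        refine sum_congr rfl fun y _ => ?_
        rw [Matrix.mul_smul, Matrix.trace_smul, smul_eq_mul, Matrix.transpose_apply, mul_comm]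
        rfl
      rw [e1, e2, Matrix.transpose_mul, h2 u, Matrix.smul_mul, Matrix.smul_mul, Matrix.trace_smul,
        smul_eq_mul, Matrix.mul_assoc, Matrix.trace_mul_comm, Matrix.mul_assoc]
    have hHR : H * R = s u • (Rᵀ * H) := by
      calc H * R = H * (R * G L) * H := by
            rw [Matrix.mul_assoc, Matrix.mul_assoc, hGH, Matrix.mul_one]
        _ = s u • (Rᵀ * H) := by
            rw [hRG, Matrix.mul_smul, Matrix.smul_mul, ← Matrix.mul_assoc, hHG, Matrix.one_mul]
    have e1 : P * L u = Ph L S (H * R) := by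
      rw [hP]
      unfold Ph
      rw [Matrix.sum_mul]
      refine sum_congr rfl fun x _ => ?_
      rw [Matrix.sum_mul]
      have e3 : ∀ y, H x y • ((L x)ᵀ * S * L y) * L u =
          ∑ w, (H x y * R y w) • ((L x)ᵀ * S * L w) := by
        intro y
        rw [Matrix.smul_mul, Matrix.mul_assoc, hyu, Matrix.mul_sum, smul_sum]
        refine sum_congr rfl fun w _ => ?_
        rw [Matrix.mul_smul, smul_smul]
      rw [sum_congr rfl fun y _ => e3 y, sum_comm]
      refine sum_congr rfl fun w _ => ?_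
      rw [Matrix.mul_apply, sum_smul]
    have e2 : L u * P = Ph L S (s u • (Rᵀ * H)) := by
      rw [hP]
      unfold Ph
      rw [Matrix.mul_sum]
      have e3 : ∀ x y, L u * (H x y • ((L x)ᵀ * S * L y)) =
          ∑ w, (s u * (R x w * H x y)) • ((L w)ᵀ * S * L y) := by
        intro x y
        rw [Matrix.mul_smul, ← Matrix.mul_assoc, ← Matrix.mul_assoc, hux, Matrix.smul_mul,
          Matrix.smul_mul, Matrix.sum_mul, Matrix.sum_mul, smul_sum, smul_sum]
        refine sum_congr rfl fun w _ => ?_
        rw [Matrix.smul_mul, Matrix.smul_mul, smul_smul, smul_smul]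
        congr 1
        ring
      have e4 : ∀ x, L u * ∑ y, H x y • ((L x)ᵀ * S * L y) =
          ∑ w, ∑ y, (s u * (R x w * H x y)) • ((L w)ᵀ * S * L y) := by
        intro x
        rw [Matrix.mul_sum, sum_congr rfl fun y _ => e3 x y, sum_comm]
      rw [sum_congr rfl fun x _ => e4 x, sum_comm]
      refine sum_congr rfl fun w _ => ?_
      rw [sum_comm]
      refine sum_congr rfl fun y _ => ?_
      rw [← sum_smul, ← mul_sum, Matrix.smul_apply, Matrix.mul_apply, smul_eq_mul]
      rfl
    rw [e1, e2, hHR]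
  -- traces
  have t1 : trace (S * P) = ∑ x, ε x := by
    rw [hP]
    unfold Ph
    rw [Matrix.mul_sum, Matrix.trace_sum]
    refine sum_congr rfl fun x _ => ?_
    rw [Matrix.mul_sum, Matrix.trace_sum]
    have e1 : ∀ y, trace (S * (H x y • ((L x)ᵀ * S * L y))) = ε x * (H x y * G L y x) := by
      intro y
      have e2 : S * (L x)ᵀ * S = ε x • (L x)ᵀ := by
        have := congrArg Matrix.transpose (h3 x)
        rw [Matrix.transpose_mul, Matrix.transpose_mul, hST, Matrix.transpose_smul,
          ← Matrix.mul_assoc] at this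
        exact this
      rw [Matrix.mul_smul, ← Matrix.mul_assoc, ← Matrix.mul_assoc, e2, Matrix.smul_mul,
        Matrix.trace_smul, Matrix.trace_smul, smul_eq_mul, smul_eq_mul, hGs y x]
      unfold G
      ring
    rw [sum_congr rfl fun y _ => e1 y, ← mul_sum]
    have e3 : ∑ y, H x y * G L y x = 1 := by
      rw [← Matrix.mul_apply, hHG, Matrix.one_apply_eq]
    rw [e3, mul_one]
  have t2 : trace (P * P) = trace (S * P) := by
    have e1 : P * P = ∑ x, ∑ y, H x y • ((L x)ᵀ * S * P * L y) := by
      conv_lhs => rw [hP]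
      unfold Ph
      rw [Matrix.sum_mul]
      refine sum_congr rfl fun x _ => ?_
      rw [Matrix.sum_mul]
      refine sum_congr rfl fun y _ => ?_
      have : Ph L S H = P := rfl
      unfold Ph at this
      rw [this, Matrix.smul_mul, Matrix.mul_assoc, hcomm, ← Matrix.mul_assoc]
    have e2 : trace (P * P) = trace (S * P * D) := by
      rw [e1, hD, Matrix.mul_sum, Matrix.trace_sum, Matrix.trace_sum]
      simp only [Matrix.mul_sum, Matrix.trace_sum]
      rw [sum_comm]
      refine sum_congr rfl fun y _ => sum_congr rfl fun x _ => ?_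
      rw [Matrix.trace_smul, Matrix.mul_smul, Matrix.trace_smul, hHs x y]
      congr 1
      rw [Matrix.trace_mul_comm, ← Matrix.mul_assoc, ← Matrix.mul_assoc, Matrix.mul_assoc,
        Matrix.trace_mul_comm]
    rw [e2, hD1, Matrix.mul_one]
  rw [← t1, ← t2]
  have := tr_self_nonneg P
  rwa [hPT] at this

end

section

variable {N : ℕ}

theorem mulF_sum_left {κ : Type*} (t : Finset κ) (f : κ → ℝ) (u : κ → Fk N ℝ) (v : Fk N ℝ) :
    mulF (∑ k ∈ t, f k • u k) v = ∑ k ∈ t, f k • mulF (u k) v := by
  funext R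
  unfold mulF
  simp only [Finset.sum_apply, Pi.smul_apply, smul_eq_mul, Finset.mul_sum, Finset.sum_mul]
  rw [sum_comm]
  refine sum_congr rfl fun k _ => sum_congr rfl fun S _ => ?_
  ring

theorem mulF_sum_right {κ : Type*} (t : Finset κ) (f : κ → ℝ) (u : κ → Fk N ℝ) (v : Fk N ℝ) :
    mulF v (∑ k ∈ t, f k • u k) = ∑ k ∈ t, f k • mulF v (u k) := by
  funext R
  unfold mulF
  simp only [Finset.sum_apply, Pi.smul_apply, smul_eq_mul, Finset.mul_sum]
  rw [sum_comm]
  refine sum_congr rfl fun k _ => sum_congr rfl fun S _ => ?_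
  ring

theorem mulF_neg_left (u v : Fk N ℝ) : mulF (-u) v = - mulF u v := by
  funext R
  unfold mulF
  rw [Pi.neg_apply, ← sum_neg_distrib]
  refine sum_congr rfl fun S _ => ?_
  rw [Pi.neg_apply]; ring

theorem mulF_neg_right (u v : Fk N ℝ) : mulF u (-v) = - mulF u v := by
  funext R
  unfold mulF
  rw [Pi.neg_apply, ← sum_neg_distrib]
  refine sum_congr rfl fun S _ => ?_
  rw [Pi.neg_apply]; ring

theorem card_symm (S T : Finset (Fin N)) :
    (-1 : ℝ) ^ (symmDiff S T).card = (-1) ^ S.card * (-1) ^ T.card := by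
  have h1 : (symmDiff S T).card + 2 * (S ∩ T).card = S.card + T.card := by
    have h2 : (symmDiff S T).card = (S \ T).card + (T \ S).card := by
      have : symmDiff S T = (S \ T) ∪ (T \ S) := rfl
      rw [this]
      exact card_union_of_disjoint (disjoint_sdiff_sdiff)
    have h3 := card_sdiff_add_card_inter S T
    have h4 := card_sdiff_add_card_inter T S
    rw [inter_comm T S] at h4
    omega
  rw [← pow_add, ← h1, pow_add, pow_mul]
  norm_num

/-- parity of the degree -/
theorem mulF_par {p q : ℕ} {u v w : Fk N ℝ} {r : ℕ} (hu : Deg p u) (hv : Deg q v) (hw : Deg r w) :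
    (-1) ^ p * (-1) ^ q * ip (mulF u v) w = (-1) ^ r * ip (mulF u v) w := by
  unfold ip
  rw [mul_sum, mul_sum]
  refine sum_congr rfl fun R _ => ?_
  by_cases hR : R.card = r
  · unfold mulF
    rw [sum_mul, mul_sum, mul_sum]
    refine sum_congr rfl fun S _ => ?_
    by_cases hS : S.card = p
    · by_cases hT : (symmDiff S R).card = q
      · have h1 := card_symm S R
        rw [hS, hT, hR] at h1
        have h2 : ((-1 : ℝ) ^ p) * (-1) ^ q = (-1) ^ r := by
          rw [h1, ← mul_assoc, ← mul_pow]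
          norm_num
        rw [h2]
      · rw [hv _ hT]; ring
    · rw [hu _ hS]; ring
  · rw [hw _ hR]; ring

end

end Alg

open Alg Finset in
theorem s_alg (h : S_CLIF) : S_ALG := by
  intro N d a c hdeg hd0 hvac horth hmul
  obtain ⟨c1, c2, c3, _, _, c6, _⟩ := h N ℝ
  -- the structure constants
  have hc : ∀ x y z, c x y z = ip (mulF (a x) (a y)) (a z) := by
    intro x y z
    rw [hmul, ip_sum_left]
    simp only [ip_smul_left, horth]
    simp
  set L : (Σ p, Fin (d p)) → Matrix (Σ p, Fin (d p)) (Σ p, Fin (d p)) ℝ :=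
    fun x => Matrix.of (fun z y => c x y z) with hL
  have hLa : ∀ x z y, L x z y = c x y z := fun _ _ _ => rfl
  clear_value L
  set s : (Σ p, Fin (d p)) → ℝ := fun x => (-1) ^ ((x.1 : ℕ) * ((x.1 : ℕ) - 1) / 2) with hs
  set ε : (Σ p, Fin (d p)) → ℝ := fun x => (-1) ^ (x.1 : ℕ) with hε
  have hεε : ∀ x, ε x * ε x = 1 := by
    intro x
    simp only [hε]
    rw [← mul_pow]; norm_num
  have hli : ∀ f g : (Σ p, Fin (d p)) → ℝ, ∑ z, f z • a z = ∑ z, g z • a z → f = g := by
    intro f g hfg
    funext z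
    have h1 := congrArg (fun u => ip u (a z)) hfg
    simp only [ip_sum_left, ip_smul_left, horth] at h1
    simpa using h1
  have k1 : ∀ x y, L x * L y = ∑ w, L x w y • L w := by
    intro x y
    ext z t
    rw [Matrix.mul_apply, Matrix.sum_apply]
    simp only [Matrix.smul_apply, smul_eq_mul, hLa]
    have e1 : mulF (a x) (mulF (a y) (a t)) = ∑ z, (∑ w, c x w z * c y t w) • a z := by
      rw [hmul y t, mulF_sum_right]
      simp only [hmul, smul_sum, smul_smul, sum_smul]
      rw [sum_comm]
      refine sum_congr rfl fun z _ => sum_congr rfl fun w _ => ?_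
      rw [mul_comm]
    have e2 : mulF (mulF (a x) (a y)) (a t) = ∑ z, (∑ w, c x y w * c w t z) • a z := by
      rw [hmul x y, mulF_sum_left]
      simp only [hmul, smul_sum, smul_smul, sum_smul]
      rw [sum_comm]
    have e3 := hli _ _ (e1.symm.trans ((c1 (a x) (a y) (a t)).symm.trans e2))
    exact congrFun e3 z
  have k2 : ∀ x, (L x).transpose = s x • L x := by
    intro x
    ext z y
    rw [Matrix.transpose_apply, Matrix.smul_apply, smul_eq_mul]
    rw [hLa, hLa]
    simp only [hs]
    rw [hc x z y, hc x y z, c6 (x.1 : ℕ) (a x) (a z) (a y) (hdeg x), ip_comm (a z)]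
  have k3 : ∀ x, Matrix.diagonal ε * L x * Matrix.diagonal ε = ε x • L x := by
    intro x
    ext z y
    rw [Matrix.mul_diagonal, Matrix.diagonal_mul, Matrix.smul_apply, smul_eq_mul, hLa]
    have h1 := mulF_par (hdeg x) (hdeg y) (hdeg z)
    rw [← hc] at h1
    have h2 : ε x * ε y * c x y z = ε z * c x y z := h1
    calc ε z * c x y z * ε y = ε y * (ε z * c x y z) := by ring
      _ = (ε y * ε y) * (ε x * c x y z) := by rw [← h2]; ring
      _ = ε x * c x y z := by rw [hεε, one_mul]
  -- the unit
  have h0 : 0 < d 0 := by rw [hd0]; exact one_pos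
  set o : (Σ p, Fin (d p)) := ⟨0, ⟨0, h0⟩⟩ with ho
  obtain ⟨κ, hκ, hao⟩ : ∃ κ : ℝ, κ * κ = 1 ∧ a o = κ • (vac : Fk N ℝ) := by
    rcases hvac ⟨0, h0⟩ with h1 | h1
    · exact ⟨1, by norm_num, by rw [one_smul]; exact h1⟩
    · exact ⟨-1, by norm_num, by rw [neg_smul, one_smul]; exact h1⟩
  have hol : ∀ u, mulF (a o) u = κ • u := by
    intro u
    have := mulF_sum_left (N := N) (univ : Finset Unit) (fun _ => κ) (fun _ => vac) u
    simp only [Finset.univ_unique, sum_singleton] at this
    rw [hao, this, c2]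
  have hor : ∀ u, mulF u (a o) = κ • u := by
    intro u
    have := mulF_sum_right (N := N) (univ : Finset Unit) (fun _ => κ) (fun _ => vac) u
    simp only [Finset.univ_unique, sum_singleton] at this
    rw [hao, this, c3]
  have k4 : ∃ v : (Σ p, Fin (d p)) → ℝ, ∑ w, v w • L w = 1 := by
    refine ⟨fun w => if w = o then κ else 0, ?_⟩
    simp only [ite_smul, zero_smul, sum_ite_eq', mem_univ, if_true]
    ext z y
    rw [Matrix.smul_apply, smul_eq_mul, hLa, hc, hol, ip_smul_left, horth, ← mul_assoc, hκ,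
      one_mul, Matrix.one_apply]
    simp only [eq_comm]
  have k5 : ∀ v : (Σ p, Fin (d p)) → ℝ, ∑ w, v w • L w = 0 → v = 0 := by
    intro v hv
    funext z
    have h1 := congrFun (congrFun hv z) o
    rw [Matrix.sum_apply] at h1
    simp only [Matrix.smul_apply, smul_eq_mul, hLa, hc, hor, ip_smul_left, horth] at h1
    have h2 : ∑ w, v w * (κ * if w = z then (1 : ℝ) else 0) = v z * κ := by
      simp
    rw [h2] at h1
    have h3 : v z = v z * κ * κ := by rw [mul_assoc, hκ, mul_one]
    rw [h3, h1]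
    simp
  have hfin := key (L := L) s ε (fun x => by simp only [hs]; rw [← mul_pow]; norm_num)
    k1 k2 k3 k4 k5
  have h2 : ∑ x, ε x = ((∑ p : Fin (N + 1), (-1 : ℤ) ^ (p : ℕ) * (d p : ℤ) : ℤ) : ℝ) := by
    rw [Fintype.sum_sigma]
    push_cast
    refine sum_congr rfl fun p _ => ?_
    simp only [hε, sum_const, card_univ, Fintype.card_fin, nsmul_eq_mul]
    ring
  rw [h2] at hfin
  exact_mod_cast hfin

end Pool.Agent.H781.CM
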