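import Pool.Agent.H781.CM.Spec

/-!
Pointwise Bochner formula for functions (project CM).
-/

set_option autoImplicit false

noncomputable section

namespace Pool.Agent.H781.CM

open Finset Pool.Agent.H781.NG

namespace Bochf

variable {N : ℕ} {A : Type*} [CommRing A] [Algebra ℝ A] (F : Fr N A) (h : A)

/-- the correction term of the hessian -/
def K (a b : Fin N) : A := ∑ c, F.Γ a b c * F.e c h

/-- the hessian -/
def H (a b : Fin N) : A := F.e a (F.e b h) - K F h a b

theorem eX (a b : Fin N) : F.e a (F.e b h) = H F h a b + K F h a b := by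
  unfold H; ring

theorem K_sub (a b : Fin N) : K F h a b - K F h b a =
    ∑ c, (F.Γ a b c - F.Γ b a c) * F.e c h := by
  unfold K
  simp only [sub_mul, Finset.sum_sub_distrib]

/-- the hessian is symmetric -/
theorem H_symm (a b : Fin N) : H F h a b = H F h b a := by
  have t := F.tors a b h
  rw [← K_sub] at t
  unfold H
  linear_combination t

omit F h in
theorem eq_zero_of_neg {x : A} (hx : x = -x) : x = 0 := by
  have h1 : (2 : ℝ) • x = 0 := by
    rw [two_smul]
    linear_combination hx
  have h2 := congrArg (fun y => (2⁻¹ : ℝ) • y) h1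
  simp only [smul_smul, smul_zero] at h2
  norm_num at h2
  exact h2

omit F h in
/-- contraction of an antisymmetric with a symmetric matrix -/
theorem contr (g S : Fin N → Fin N → A) (hg : ∀ b d, g b d = - g d b)
    (hS : ∀ b d, S b d = S d b) : ∑ b, ∑ d, g b d * S b d = 0 := by
  apply eq_zero_of_neg
  conv_lhs => rw [Finset.sum_comm]
  rw [← Finset.sum_neg_distrib]
  refine Finset.sum_congr rfl fun b _ => ?_
  rw [← Finset.sum_neg_distrib]
  refine Finset.sum_congr rfl fun d _ => ?_
  rw [hg d b, hS d b]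
  ring

omit F h in
theorem dbl (X : Fin N → A) (u : Fin N → A) (v : Fin N → Fin N → A) :
    ∑ g, (∑ f, u f * v f g) * X g = ∑ f, u f * ∑ g, v f g * X g := by
  simp only [Finset.sum_mul, Finset.mul_sum]
  rw [Finset.sum_comm]
  refine Finset.sum_congr rfl fun f _ => Finset.sum_congr rfl fun g _ => ?_
  ring

/-- contraction of the curvature with the gradient -/
theorem Rm_grad (a b c : Fin N) : ∑ g, Rm F a b c g * F.e g h =
    ∑ g, F.e a (F.Γ b c g) * F.e g h - ∑ g, F.e b (F.Γ a c g) * F.e g h +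
      (∑ f, F.Γ b c f * K F h a f - ∑ f, F.Γ a c f * K F h b f) -
      (∑ f, F.Γ a b f * K F h f c - ∑ f, F.Γ b a f * K F h f c) := by
  have h1 := dbl (fun g => F.e g h) (fun f => F.Γ b c f) (fun f g => F.Γ a f g)
  have h2 := dbl (fun g => F.e g h) (fun f => F.Γ a c f) (fun f g => F.Γ b f g)
  have h3 := dbl (fun g => F.e g h) (fun f => F.Γ a b f) (fun f g => F.Γ f c g)
  have h4 := dbl (fun g => F.e g h) (fun f => F.Γ b a f) (fun f g => F.Γ f c g)
  unfold K
  rw [← h1, ← h2, ← h3, ← h4]
  unfold Rm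
  simp only [add_mul, sub_mul, Finset.sum_add_distrib, Finset.sum_sub_distrib]

/-- the covariant derivative of the hessian -/
def D (a b c : Fin N) : A :=
  F.e a (H F h b c) - ∑ d, F.Γ a b d * H F h d c - ∑ d, F.Γ a c d * H F h b d

/-- derivative of the correction term -/
theorem eK (a b c : Fin N) : F.e a (K F h b c) =
    ∑ f, F.e a (F.Γ b c f) * F.e f h + ∑ f, F.Γ b c f * F.e a (F.e f h) := by
  unfold K
  rw [map_sum, ← Finset.sum_add_distrib]
  refine Finset.sum_congr rfl fun f _ => ?_
  rw [Derivation.leibniz]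
  simp only [smul_eq_mul]
  ring

/-- the Ricci identity -/
theorem D_comm (a b c : Fin N) : D F h a b c - D F h b a c = - ∑ g, Rm F a b c g * F.e g h := by
  have t := F.tors a b (F.e c h)
  rw [Rm_grad]
  have ha : F.e a (H F h b c) = F.e a (F.e b (F.e c h)) - F.e a (K F h b c) := by
    unfold H; rw [map_sub]
  have hb : F.e b (H F h a c) = F.e b (F.e a (F.e c h)) - F.e b (K F h a c) := by
    unfold H; rw [map_sub]
  unfold D
  rw [ha, hb, eK, eK]
  simp only [H, mul_sub, sub_mul, Finset.sum_sub_distrib] at t ⊢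
  linear_combination t

/-- trace of the covariant derivative of the hessian -/
theorem D_trace (b : Fin N) : ∑ a, D F h b a a = F.e b (∑ a, H F h a a) := by
  have h1 : ∑ a, ∑ d, F.Γ b a d * H F h d a = 0 := contr _ (fun a d => H F h d a)
    (fun a d => F.anti b a d) (fun a d => H_symm F h d a)
  have h2 : ∑ a, ∑ d, F.Γ b a d * H F h a d = 0 := contr _ (fun a d => H F h a d)
    (fun a d => F.anti b a d) (fun a d => H_symm F h a d)
  unfold D
  rw [Finset.sum_sub_distrib, Finset.sum_sub_distrib, h1, h2, map_sum]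
  ring

/-- divergence of the hessian -/
theorem div_H (b : Fin N) : ∑ a, (F.e a (H F h a b) - ∑ d, F.Γ a a d * H F h d b -
    ∑ d, F.Γ a b d * H F h a d) = F.e b (∑ a, H F h a a) - ∑ a, ∑ g, Rm F a b a g * F.e g h := by
  rw [← D_trace, ← Finset.sum_sub_distrib]
  refine Finset.sum_congr rfl fun a _ => ?_
  have h1 := D_comm F h a b a
  have h2 : F.e a (H F h a b) - ∑ d, F.Γ a a d * H F h d b - ∑ d, F.Γ a b d * H F h a d =
      D F h a b a := by
    unfold D
    rw [H_symm F h b a]
    have e1 : ∑ d, F.Γ a a d * H F h d b = ∑ d, F.Γ a a d * H F h b d :=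
      Finset.sum_congr rfl fun d _ => by rw [H_symm F h d b]
    have e2 : ∑ d, F.Γ a b d * H F h a d = ∑ d, F.Γ a b d * H F h d a :=
      Finset.sum_congr rfl fun d _ => by rw [H_symm F h a d]
    rw [e1, e2]
    ring
  rw [h2]
  linear_combination h1

/-- derivative of the square of the gradient -/
theorem e_gsq (c : Fin N) : F.e c (∑ b, F.e b h * F.e b h) = 2 * ∑ b, F.e b h * H F h c b := by
  have h1 : ∑ b, ∑ d, F.Γ c b d * (F.e b h * F.e d h) = 0 :=
    contr _ (fun b d => F.e b h * F.e d h) (fun b d => F.anti c b d) (fun b d => mul_comm _ _)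
  have h2 : ∑ b, F.e b h * K F h c b = 0 := by
    rw [← h1]
    refine Finset.sum_congr rfl fun b _ => ?_
    unfold K
    rw [Finset.mul_sum]
    refine Finset.sum_congr rfl fun d _ => ?_
    ring
  rw [map_sum]
  have h3 : ∀ b, F.e c (F.e b h * F.e b h) =
      2 * (F.e b h * H F h c b) + 2 * (F.e b h * K F h c b) := by
    intro b
    rw [Derivation.leibniz, eX]
    simp only [smul_eq_mul]
    ring
  simp only [h3]
  rw [Finset.sum_add_distrib, ← Finset.mul_sum, ← Finset.mul_sum, h2]
  ring

/-- Bochner formula -/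
theorem bochner : ∑ a, (F.e a (F.e a (∑ b, F.e b h * F.e b h)) -
    ∑ c, F.Γ a a c * F.e c (∑ b, F.e b h * F.e b h)) =
    2 * ∑ a, ∑ b, H F h a b ^ 2 + 2 * ∑ b, F.e b h * F.e b (∑ a, H F h a a) -
      2 * ∑ a, ∑ b, ∑ d, Rm F a b a d * F.e b h * F.e d h := by
  have h1 : ∀ a, F.e a (F.e a (∑ b, F.e b h * F.e b h)) -
      ∑ c, F.Γ a a c * F.e c (∑ b, F.e b h * F.e b h) =
      2 * ∑ b, H F h a b ^ 2 + 2 * ∑ b, F.e b h * (F.e a (H F h a b) -
        ∑ d, F.Γ a a d * H F h d b - ∑ d, F.Γ a b d * H F h a d) := by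
    intro a
    have e1 : F.e a (2 * ∑ b, F.e b h * H F h a b) =
        2 * ∑ b, (F.e a (F.e b h) * H F h a b + F.e b h * F.e a (H F h a b)) := by
      rw [two_mul, map_add, ← two_mul, map_sum]
      congr 1
      refine Finset.sum_congr rfl fun b _ => ?_
      rw [Derivation.leibniz]
      simp only [smul_eq_mul]
      ring
    have e2 : ∑ c, F.Γ a a c * (2 * ∑ b, F.e b h * H F h c b) =
        2 * ∑ b, F.e b h * ∑ d, F.Γ a a d * H F h d b := by
      simp only [Finset.mul_sum]
      rw [Finset.sum_comm]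
      refine Finset.sum_congr rfl fun b _ => Finset.sum_congr rfl fun d _ => ?_
      ring
    have e3 : ∑ b, K F h a b * H F h a b = - ∑ b, F.e b h * ∑ d, F.Γ a b d * H F h a d := by
      unfold K
      simp only [Finset.mul_sum, Finset.sum_mul]
      rw [Finset.sum_comm, ← Finset.sum_neg_distrib]
      refine Finset.sum_congr rfl fun b _ => ?_
      rw [← Finset.sum_neg_distrib]
      refine Finset.sum_congr rfl fun d _ => ?_
      rw [F.anti a d b]
      ring
    have e4 : ∑ b, F.e a (F.e b h) * H F h a b =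
        ∑ b, H F h a b ^ 2 + ∑ b, K F h a b * H F h a b := by
      rw [← Finset.sum_add_distrib]
      refine Finset.sum_congr rfl fun b _ => ?_
      rw [eX]
      ring
    simp only [e_gsq]
    rw [e1, e2, Finset.sum_add_distrib, e4, e3]
    simp only [mul_sub, Finset.sum_sub_distrib]
    ring
  simp only [h1]
  rw [Finset.sum_add_distrib, ← Finset.mul_sum, ← Finset.mul_sum]
  have h2 : ∑ a, ∑ b, F.e b h * (F.e a (H F h a b) -
        ∑ d, F.Γ a a d * H F h d b - ∑ d, F.Γ a b d * H F h a d) =
      ∑ b, F.e b h * F.e b (∑ a, H F h a a) -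
        ∑ a, ∑ b, ∑ d, Rm F a b a d * F.e b h * F.e d h := by
    rw [Finset.sum_comm]
    have h3 : ∑ a, ∑ b, ∑ d, Rm F a b a d * F.e b h * F.e d h =
        ∑ b, F.e b h * ∑ a, ∑ g, Rm F a b a g * F.e g h := by
      rw [Finset.sum_comm]
      refine Finset.sum_congr rfl fun b _ => ?_
      rw [Finset.mul_sum]
      refine Finset.sum_congr rfl fun a _ => ?_
      rw [Finset.mul_sum]
      refine Finset.sum_congr rfl fun d _ => ?_
      ring
    rw [h3, ← Finset.sum_sub_distrib]
    refine Finset.sum_congr rfl fun b _ => ?_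
    rw [← Finset.mul_sum, div_H, mul_sub]
  rw [h2]
  ring

end Bochf

theorem s_bochf : S_BOCHF := by
  intro M _ _ _ _ N C h
  exact Bochf.bochner C.F h

end Pool.Agent.H781.CM
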