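import Pool.Agent.H781.CM.Spec

/-!
The Clifford product, the connection and horizontality: `S_CLIM` from `S_CLIF`.
-/

set_option autoImplicit false
set_option synthInstance.maxHeartbeats 400000
set_option maxHeartbeats 4000000

open MeasureTheory Filter
open scoped Topology ContDiff

noncomputable section

namespace Pool.Agent.H781.CM

open Pool.Agent.H781.NG

namespace Clim

section alg

variable {N : ℕ} {A : Type*} [CommRing A]

/-- the grading automorphism -/
def sgm (u : Fk N A) : Fk N A := fun S => (-1) ^ S.card * u S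

/-- the bilinear map `mulF` -/
def mulB : Fk N A →ₗ[A] Fk N A →ₗ[A] Fk N A :=
  LinearMap.mk₂ A mulF
    (by
      intro u u' v
      funext R
      simp only [mulF, Pi.add_apply, ← Finset.sum_add_distrib]
      exact Finset.sum_congr rfl fun S _ => by ring)
    (by
      intro c u v
      funext R
      simp only [mulF, Pi.smul_apply, smul_eq_mul, Finset.mul_sum]
      exact Finset.sum_congr rfl fun S _ => by ring)
    (by
      intro u v v'
      funext R
      simp only [mulF, Pi.add_apply, ← Finset.sum_add_distrib]
      exact Finset.sum_congr rfl fun S _ => by ring)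
    (by
      intro c u v
      funext R
      simp only [mulF, Pi.smul_apply, smul_eq_mul, Finset.mul_sum]
      exact Finset.sum_congr rfl fun S _ => by ring)

theorem mulB_eq (u v : Fk N A) : mulF u v = mulB u v := rfl

theorem sgm_sgm (u : Fk N A) : sgm (sgm u) = u := by
  funext S
  unfold sgm
  rw [← mul_assoc, ← mul_pow]
  norm_num

theorem an_sgm (i : Fin N) (u : Fk N A) : an i (sgm u) = - sgm (an i u) := by
  funext S
  rw [Pi.neg_apply, an_apply]
  unfold sgm
  rw [an_apply]
  split_ifs with h
  · ring
  · rw [Finset.card_insert_of_notMem h, pow_succ]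
    ring

theorem sg2_single (i : Fin N) (S : Finset (Fin N)) :
    sg2 S {i} = (-1) ^ (S.filter (fun s => i < s)).card := by
  unfold sg2
  congr 1
  refine Finset.card_bij' (fun q _ => q.1) (fun s _ => (s, i)) ?_ ?_ ?_ ?_
  · intro q hq
    rw [Finset.mem_filter, Finset.mem_product, Finset.mem_singleton] at hq
    rw [Finset.mem_filter]
    exact ⟨hq.1.1, by rw [← hq.1.2]; exact hq.2⟩
  · intro s hs
    rw [Finset.mem_filter] at hs
    rw [Finset.mem_filter, Finset.mem_product, Finset.mem_singleton]
    exact ⟨⟨hs.1, rfl⟩, hs.2⟩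
  · intro q hq
    rw [Finset.mem_filter, Finset.mem_product, Finset.mem_singleton] at hq
    exact Prod.ext rfl hq.1.2.symm
  · intro s _
    rfl

theorem sign_eq (i : Fin N) (S : Finset (Fin N)) (hi : i ∉ S) :
    ((-1 : ℤ)) ^ (S.filter (fun s => i < s)).card = sg i S * (-1) ^ S.card := by
  have h : S.card = (S.filter (· < i)).card + (S.filter (fun s => i < s)).card := by
    rw [← Finset.card_filter_add_card_filter_not (s := S) (fun s => s < i)]
    congr 2
    apply Finset.filter_congr
    intro s hs
    have hne : s ≠ i := fun h => hi (h ▸ hs)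
    rw [not_lt]
    exact ⟨fun h => lt_of_le_of_ne h hne.symm, fun h => h.le⟩
  unfold sg
  rw [h, pow_add, ← mul_assoc, ← mul_pow]
  norm_num

/-- right multiplication by a basis vector -/
theorem mulF_e (i : Fin N) (u : Fk N A) :
    mulF u (cr i vac) = cr i (sgm u) - an i (sgm u) := by
  funext R
  rw [Pi.sub_apply, cr_apply, an_apply]
  have hv : ∀ T : Finset (Fin N), cr i (vac : Fk N A) T = if T = {i} then 1 else 0 := by
    intro T
    rw [cr_apply]
    unfold vac
    by_cases h : T = {i}
    · subst h
      have h1 : sg i ({i} : Finset (Fin N)) = 1 := by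
        unfold sg
        rw [Finset.filter_singleton, if_neg (lt_irrefl i)]
        simp
      simp [h1]
    · rw [if_neg h]
      split_ifs with h1 h2
      · exact absurd (by
          rw [← Finset.insert_erase h1, h2]
          rfl) h
      · ring
      · rfl
  unfold mulF
  simp only [hv]
  rw [Finset.sum_eq_single (symmDiff R {i})]
  · have hs : symmDiff (symmDiff R {i}) R = {i} := by
      rw [symmDiff_comm R, symmDiff_assoc, symmDiff_self]
      simp
    rw [hs, if_pos rfl, mul_one, sg2_single]
    by_cases hi : i ∈ R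
    · have h1 : symmDiff R {i} = R.erase i := by
        ext x
        simp only [Finset.mem_symmDiff, Finset.mem_singleton, Finset.mem_erase]
        constructor
        · rintro (⟨h1, h2⟩ | ⟨h1, h2⟩)
          · exact ⟨h2, h1⟩
          · exact absurd (h1 ▸ hi) h2
        · rintro ⟨h1, h2⟩
          exact Or.inl ⟨h2, h1⟩
      rw [h1, if_pos hi, if_pos hi, sub_zero, sign_eq i _ (Finset.notMem_erase i R), sg_erase_self]
      unfold sgm
      push_cast
      ring
    · have h1 : symmDiff R {i} = insert i R := by
        ext x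
        simp only [Finset.mem_symmDiff, Finset.mem_singleton, Finset.mem_insert]
        constructor
        · rintro (⟨h1, h2⟩ | ⟨h1, h2⟩)
          · exact Or.inr h1
          · exact Or.inl h1
        · rintro (h1 | h1)
          · exact Or.inr ⟨h1, h1 ▸ hi⟩
          · exact Or.inl ⟨h1, fun h => hi (h ▸ h1)⟩
      have h2 : ((insert i R).filter (fun s => i < s)) = R.filter (fun s => i < s) := by
        rw [Finset.filter_insert, if_neg (lt_irrefl i)]
      rw [h1, if_neg hi, if_neg hi, h2, sign_eq i R hi]
      unfold sgm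
      rw [Finset.card_insert_of_notMem hi, pow_succ]
      push_cast
      ring
  · intro S _ hS
    rw [if_neg, mul_zero]
    intro h
    apply hS
    rw [← h, symmDiff_comm, symmDiff_assoc, symmDiff_self]
    exact (symmDiff_bot S).symm
  · intro h
    exact absurd (Finset.mem_univ _) h

/-- consequences of the properties of the Clifford product -/
structure CP (N : ℕ) (A : Type*) [CommRing A] : Prop where
  assoc : ∀ u v w : Fk N A, mulF (mulF u v) w = mulF u (mulF v w)
  vac_mul : ∀ u : Fk N A, mulF vac u = u
  e_mul : ∀ (i : Fin N) (u v : Fk N A),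
    mulF (cr i u + an i u) v = cr i (mulF u v) + an i (mulF u v)
  an_mul : ∀ (i : Fin N) (u v : Fk N A), an i (mulF u v) = mulF (an i u) v + mulF (sgm u) (an i v)

theorem CP.cr_mul (H : CP N A) (i : Fin N) (u v : Fk N A) :
    cr i (mulF u v) = mulF (cr i u) v - mulF (sgm u) (an i v) := by
  have h1 := H.e_mul i u v
  have h2 := H.an_mul i u v
  rw [h2, mulB_eq (cr i u + an i u), map_add, LinearMap.add_apply, ← mulB_eq, ← mulB_eq] at h1
  have h3 : cr i (mulF u v) = mulF (cr i u) v + mulF (an i u) v -
      (mulF (an i u) v + mulF (sgm u) (an i v)) := by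
    rw [h1]
    abel
  rw [h3]
  abel

theorem CP.right (H : CP N A) (i : Fin N) (u w : Fk N A) :
    mulF u (cr i w + an i w) = mulF (cr i (sgm u) - an i (sgm u)) w := by
  rw [← mulF_e, H.assoc]
  congr 1
  have h := H.e_mul i vac w
  rw [an_vac, add_zero, H.vac_mul] at h
  exact h.symm

theorem CP.cran (H : CP N A) (b c : Fin N) (u v : Fk N A) :
    cr c (an b (mulF u v)) = mulF (cr c (an b u)) v + mulF u (cr c (an b v)) +
      (mulF (an b (sgm u)) (an c v) + mulF (an c (sgm u)) (an b v)) := by
  have h1 := H.right c u (an b v)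
  rw [H.an_mul, map_add, H.cr_mul, H.cr_mul, sgm_sgm]
  have h2 : sgm (an b u) = - an b (sgm u) := by rw [an_sgm, neg_neg]
  rw [h2]
  simp only [mulB_eq, map_add, map_sub, map_neg, LinearMap.sub_apply,
    LinearMap.neg_apply] at h1 ⊢
  have h3 : mulB u (cr c (an b v)) = mulB (cr c (sgm u)) (an b v) -
      mulB (an c (sgm u)) (an b v) - mulB u (an c (an b v)) := by
    rw [← h1]
    abel
  rw [h3]
  abel

end alg

section geo

variable {N : ℕ} {A : Type*} [CommRing A] [Algebra ℝ A] (F : Fr N A)

theorem ee_mul (a : Fin N) (u v : Fk N A) : (fun S => F.e a (mulF u v S)) =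
    mulF (fun S => F.e a (u S)) v + mulF u (fun S => F.e a (v S)) := by
  funext R
  rw [Pi.add_apply]
  unfold mulF
  rw [map_sum, ← Finset.sum_add_distrib]
  refine Finset.sum_congr rfl fun S _ => ?_
  rw [Derivation.leibniz, Derivation.leibniz, Derivation.map_intCast]
  simp only [smul_eq_mul, mul_zero, add_zero]
  ring

theorem gam_mul (H : CP N A) (a : Fin N) (u v : Fk N A) :
    gam F a (mulF u v) = mulF (gam F a u) v + mulF u (gam F a v) := by
  have h0 : ∑ b, ∑ c, F.Γ a b c • (mulF (an b (sgm u)) (an c v) +
      mulF (an c (sgm u)) (an b v)) = 0 := by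
    have h1 : ∑ b, ∑ c, F.Γ a b c • mulF (an c (sgm u)) (an b v) =
        - ∑ b, ∑ c, F.Γ a b c • mulF (an b (sgm u)) (an c v) := by
      rw [Finset.sum_comm, ← Finset.sum_neg_distrib]
      refine Finset.sum_congr rfl fun b _ => ?_
      rw [← Finset.sum_neg_distrib]
      refine Finset.sum_congr rfl fun c _ => ?_
      rw [F.anti a c b, neg_smul]
    simp only [smul_add, Finset.sum_add_distrib]
    rw [h1, add_neg_cancel]
  unfold gam
  simp only [H.cran, smul_add (F.Γ a _ _) (_ + _) (_ + _), Finset.sum_add_distrib]
  simp only [mulB_eq, map_sum, map_smul, LinearMap.sum_apply, LinearMap.smul_apply, smul_add,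
    Finset.sum_add_distrib] at h0 ⊢
  rw [h0, add_zero]

theorem nab_mul (H : CP N A) (a : Fin N) (u v : Fk N A) :
    nab F a (mulF u v) = mulF (nab F a u) v + mulF u (nab F a v) := by
  unfold nab
  rw [ee_mul, gam_mul F H]
  simp only [mulB_eq, map_add, LinearMap.add_apply]
  abel

end geo

end Clim

open Clim in
theorem s_clim (h : S_CLIF) : S_CLIM := by
  intro M _ _ _ _ N C
  obtain ⟨h1, h2, h3, h4, h5, h6, h7⟩ := h N C.A
  have H : CP N C.A := ⟨h1, h2, h4, h5⟩
  refine ⟨fun a u v => nab_mul C.F H a u v, ?_, ?_, ?_⟩
  · intro u v hu hv c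
    have e : ∀ a, an a (mulF u v) = mulB (an a u) v + mulB (sgm u) (an a v) := fun a =>
      H.an_mul a u v
    rw [e c, hu c, hv c]
    simp only [map_sum, map_smul, LinearMap.sum_apply, LinearMap.smul_apply, e, smul_add,
      Finset.sum_add_distrib]
  · intro c
    rw [an_vac]
    simp [an_vac]
  · intro a
    unfold nab gam
    simp only [an_vac, map_zero, smul_zero, Finset.sum_const_zero, add_zero]
    funext S
    unfold vac
    split_ifs
    · rw [Derivation.map_one_eq_zero]
      rfl
    · rw [map_zero]
      rfl

end Pool.Agent.H781.CM
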