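import Pool.Agent.H781.CM.Spec

/-!
Compactness of almost algebras.
-/

set_option autoImplicit false

open Finset Filter Topology

namespace Pool.Agent.H781.CM

open Pool.Agent.H781.NG

namespace Cmp

/-- the index set -/
abbrev Ix (N : ℕ) (d : Fin (N + 1) → ℕ) : Type := Σ p, Fin (d p)

/-- the relations of an almost algebra -/
def Cond (N : ℕ) (η : ℝ) (d : Fin (N + 1) → ℕ)
    (p : (Ix N d → Fk N ℝ) × (Ix N d → Ix N d → Ix N d → ℝ)) : Prop :=
  (∀ x, Deg x.1 (p.1 x)) ∧ (∀ i : Fin (d 0), p.1 ⟨0, i⟩ = vac ∨ p.1 ⟨0, i⟩ = - vac) ∧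
    (∀ x y, |ip (p.1 x) (p.1 y) - if x = y then 1 else 0| ≤ η) ∧
    (∀ x y z, |p.2 x y z| ≤ 2 ^ N) ∧
    ∀ x y S, |(mulF (p.1 x) (p.1 y) - ∑ z, p.2 x y z • p.1 z) S| ≤ η

theorem cond_mono {N : ℕ} {η η' : ℝ} {d : Fin (N + 1) → ℕ} (h : η ≤ η')
    {p : (Ix N d → Fk N ℝ) × (Ix N d → Ix N d → Ix N d → ℝ)} (hp : Cond N η d p) :
    Cond N η' d p := by
  obtain ⟨h1, h2, h3, h4, h5⟩ := hp
  exact ⟨h1, h2, fun x y => (h3 x y).trans h, h4, fun x y S => (h5 x y S).trans h⟩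

theorem appAlg_iff {N : ℕ} {η : ℝ} {d : Fin (N + 1) → ℕ} :
    AppAlg N η d ↔ d 0 = 1 ∧ ∃ p, Cond N η d p := by
  constructor
  · rintro ⟨a, c, h1, h2, h3, h4, h5, h6⟩
    exact ⟨h2, (a, c), h1, h3, h4, h5, h6⟩
  · rintro ⟨h2, ⟨a, c⟩, h1, h3, h4, h5, h6⟩
    exact ⟨a, c, h1, h2, h3, h4, h5, h6⟩

theorem cont_ev {N : ℕ} {d : Fin (N + 1) → ℕ} (x : Ix N d) (S : Finset (Fin N)) :
    Continuous fun p : (Ix N d → Fk N ℝ) × (Ix N d → Ix N d → Ix N d → ℝ) => p.1 x S :=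
  (continuous_apply S).comp ((continuous_apply x).comp continuous_fst)

theorem cont_c {N : ℕ} {d : Fin (N + 1) → ℕ} (x y z : Ix N d) :
    Continuous fun p : (Ix N d → Fk N ℝ) × (Ix N d → Ix N d → Ix N d → ℝ) => p.2 x y z :=
  (continuous_apply z).comp ((continuous_apply y).comp ((continuous_apply x).comp continuous_snd))

theorem cont_ip {N : ℕ} {d : Fin (N + 1) → ℕ} (x y : Ix N d) :
    Continuous fun p : (Ix N d → Fk N ℝ) × (Ix N d → Ix N d → Ix N d → ℝ) =>
      ip (p.1 x) (p.1 y) := by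
  unfold ip
  exact continuous_finsetSum _ fun S _ => (cont_ev x S).mul (cont_ev y S)

theorem cont_mul {N : ℕ} {d : Fin (N + 1) → ℕ} (x y : Ix N d) (S : Finset (Fin N)) :
    Continuous fun p : (Ix N d → Fk N ℝ) × (Ix N d → Ix N d → Ix N d → ℝ) =>
      (mulF (p.1 x) (p.1 y) - ∑ z, p.2 x y z • p.1 z) S := by
  have h1 : (fun p : (Ix N d → Fk N ℝ) × (Ix N d → Ix N d → Ix N d → ℝ) =>
      (mulF (p.1 x) (p.1 y) - ∑ z, p.2 x y z • p.1 z) S) = fun p =>
      (∑ R, (sg2 R (symmDiff R S) : ℝ) * p.1 x R * p.1 y (symmDiff R S)) -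
        ∑ z, p.2 x y z * p.1 z S := by
    funext p
    rw [Pi.sub_apply, Finset.sum_apply]
    rfl
  rw [h1]
  refine (continuous_finsetSum _ fun R _ => ?_).sub (continuous_finsetSum _ fun z _ => ?_)
  · exact (continuous_const.mul (cont_ev x R)).mul (cont_ev y _)
  · exact (cont_c x y z).mul (cont_ev z S)

theorem isClosed_all {Y : Type*} [TopologicalSpace Y] {ι : Sort*} {q : ι → Y → Prop}
    (h : ∀ i, IsClosed {p | q i p}) : IsClosed {p | ∀ i, q i p} := by
  have h1 : {p | ∀ i, q i p} = ⋂ i, {p | q i p} := by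
    ext p
    simp
  rw [h1]
  exact isClosed_iInter h

theorem closed_cond (N : ℕ) (η : ℝ) (d : Fin (N + 1) → ℕ) : IsClosed {p | Cond N η d p} := by
  have c1 : IsClosed {p : (Ix N d → Fk N ℝ) × (Ix N d → Ix N d → Ix N d → ℝ) |
      ∀ x : Ix N d, ∀ S : Finset (Fin N), S.card ≠ x.1 → p.1 x S = 0} :=
    isClosed_all fun x => isClosed_all fun S => isClosed_all fun _ =>
      isClosed_eq (cont_ev x S) continuous_const
  have c2 : IsClosed {p : (Ix N d → Fk N ℝ) × (Ix N d → Ix N d → Ix N d → ℝ) |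
      ∀ i : Fin (d 0), p.1 ⟨0, i⟩ = vac ∨ p.1 ⟨0, i⟩ = - vac} :=
    isClosed_all fun i => IsClosed.union
      (isClosed_eq ((continuous_apply _).comp continuous_fst) continuous_const)
      (isClosed_eq ((continuous_apply _).comp continuous_fst) continuous_const)
  have c3 : IsClosed {p : (Ix N d → Fk N ℝ) × (Ix N d → Ix N d → Ix N d → ℝ) |
      ∀ x y : Ix N d, |ip (p.1 x) (p.1 y) - if x = y then 1 else 0| ≤ η} :=
    isClosed_all fun x => isClosed_all fun y =>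
      isClosed_le ((cont_ip x y).sub continuous_const).abs continuous_const
  have c4 : IsClosed {p : (Ix N d → Fk N ℝ) × (Ix N d → Ix N d → Ix N d → ℝ) |
      ∀ x y z : Ix N d, |p.2 x y z| ≤ 2 ^ N} :=
    isClosed_all fun x => isClosed_all fun y => isClosed_all fun z =>
      isClosed_le (cont_c x y z).abs continuous_const
  have c5 : IsClosed {p : (Ix N d → Fk N ℝ) × (Ix N d → Ix N d → Ix N d → ℝ) |
      ∀ (x y : Ix N d) (S : Finset (Fin N)),
        |(mulF (p.1 x) (p.1 y) - ∑ z, p.2 x y z • p.1 z) S| ≤ η} :=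
    isClosed_all fun x => isClosed_all fun y => isClosed_all fun S =>
      isClosed_le (cont_mul x y S).abs continuous_const
  exact c1.inter (c2.inter (c3.inter (c4.inter c5)))

theorem compact_cond (N : ℕ) (d : Fin (N + 1) → ℕ) : IsCompact {p | Cond N 1 d p} := by
  have hK : IsCompact ((Set.univ.pi fun _ : Ix N d => Set.univ.pi fun _ : Finset (Fin N) =>
      Set.Icc (-2 : ℝ) 2) ×ˢ (Set.univ.pi fun _ : Ix N d => Set.univ.pi fun _ : Ix N d =>
      Set.univ.pi fun _ : Ix N d => Set.Icc (-(2 : ℝ) ^ N) (2 ^ N))) := by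
    refine IsCompact.prod ?_ ?_
    · exact isCompact_univ_pi fun _ => isCompact_univ_pi fun _ => isCompact_Icc
    · exact isCompact_univ_pi fun _ => isCompact_univ_pi fun _ => isCompact_univ_pi fun _ =>
        isCompact_Icc
  refine hK.of_isClosed_subset (closed_cond N 1 d) ?_
  rintro ⟨a, c⟩ ⟨h1, h2, h3, h4, h5⟩
  refine ⟨fun x _ S _ => ?_, fun x _ y _ z _ => ?_⟩
  · have h6 := h3 x x
    rw [if_pos rfl] at h6
    have h7 := (abs_le.1 h6).2
    have h8 : a x S * a x S ≤ ip (a x) (a x) := by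
      unfold ip
      exact Finset.single_le_sum (f := fun S => a x S * a x S)
        (fun S _ => mul_self_nonneg _) (Finset.mem_univ S)
    have h9 : |a x S| ≤ 2 := by
      refine abs_le_of_sq_le_sq ?_ (by norm_num)
      have h10 : ip (a x) (a x) - 1 ≤ 1 := h7
      nlinarith
    exact abs_le.1 h9
  · exact abs_le.1 (h4 x y z)

theorem eq_zero_of_le {x : ℝ} (h : ∀ k : ℕ, |x| ≤ 1 / ((k : ℝ) + 1)) : x = 0 := by
  have h1 : |x| ≤ 0 := ge_of_tendsto' tendsto_one_div_add_atTop_nhds_zero_nat h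
  exact abs_nonpos_iff.1 h1

end Cmp

theorem appalg_mono {N : ℕ} {η η' : ℝ} {d : Fin (N + 1) → ℕ} (h : AppAlg N η d) (hη : η ≤ η') :
    AppAlg N η' d := by
  obtain ⟨h1, p, h2⟩ := Cmp.appAlg_iff.1 h
  exact Cmp.appAlg_iff.2 ⟨h1, p, Cmp.cond_mono hη h2⟩

open Cmp in
theorem s_cmp (h : S_ALG) : S_CMP := by
  intro N d hη
  have hd : d 0 = 1 := (appAlg_iff.1 (hη 1 one_pos)).1
  have hne : (⋂ k : ℕ, {p | Cond N (1 / ((k : ℝ) + 1)) d p}).Nonempty := by
    refine IsCompact.nonempty_iInter_of_sequence_nonempty_isCompact_isClosed _ ?_ ?_ ?_ ?_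
    · intro k p hp
      refine cond_mono ?_ hp
      push_cast
      exact one_div_le_one_div_of_le (by positivity) (by linarith)
    · intro k
      exact (appAlg_iff.1 (hη (1 / ((k : ℝ) + 1)) (by positivity))).2
    · simpa using compact_cond N d
    · intro k
      exact closed_cond N _ d
  obtain ⟨⟨a, c⟩, hp⟩ := hne
  rw [Set.mem_iInter] at hp
  have h0 := hp 0
  refine h N d a c h0.1 hd h0.2.1 (fun x y => ?_) (fun x y => ?_)
  · exact sub_eq_zero.1 (eq_zero_of_le fun k => (hp k).2.2.1 x y)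
  · funext S
    have h1 := eq_zero_of_le fun k => (hp k).2.2.2.2 x y S
    rw [Pi.sub_apply, sub_eq_zero] at h1
    exact h1

end Pool.Agent.H781.CM
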