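import Pool.Agent.H781.CM.Base

/-!
Compactness of sequences of forms which are bounded together with their images under the Dirac
operator.
-/

set_option autoImplicit false
set_option synthInstance.maxHeartbeats 400000
set_option maxHeartbeats 4000000
set_option linter.unusedSectionVars false

open MeasureTheory Filter
open scoped Topology ContDiff

noncomputable section

namespace Pool.Agent.H781.CM

open Pool.Agent.H781.NG

namespace Cpt

variable {M : Type} [TopologicalSpace M] [CompactSpace M] [MeasurableSpace M] [BorelSpace M]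
  {N : ℕ} (C : CD M N)

theorem ig_sq_nonneg (f : C.A) : 0 ≤ ig C (f ^ 2) :=
  ig_nonneg C fun p => by rw [map_pow]; exact sq_nonneg _

theorem ig_sub_sq (f g : C.A) :
    ig C ((f - g) ^ 2) = ig C (f ^ 2) - 2 * ig C (f * g) + ig C (g ^ 2) := by
  have h : (f - g) ^ 2 = f ^ 2 - (2 : ℝ) • (f * g) + g ^ 2 := by
    rw [two_smul]
    ring
  rw [h, ig_add, ig_sub, ig_smul]

theorem ig_add_sq (f g : C.A) :
    ig C ((f + g) ^ 2) = ig C (f ^ 2) + 2 * ig C (f * g) + ig C (g ^ 2) := by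
  have h : (f + g) ^ 2 = f ^ 2 + (2 : ℝ) • (f * g) + g ^ 2 := by
    rw [two_smul]
    ring
  rw [h, ig_add, ig_add, ig_smul]

theorem ig_sub_sq_le (f g : C.A) :
    ig C ((f - g) ^ 2) ≤ 2 * ig C (f ^ 2) + 2 * ig C (g ^ 2) := by
  have h1 := ig_sub_sq C f g
  have h2 := ig_add_sq C f g
  have h3 := ig_sq_nonneg C (f + g)
  linarith

theorem ig_add_sq_le (f g : C.A) :
    ig C ((f + g) ^ 2) ≤ 2 * ig C (f ^ 2) + 2 * ig C (g ^ 2) := by
  have h1 := ig_sub_sq C f g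
  have h2 := ig_add_sq C f g
  have h3 := ig_sq_nonneg C (f - g)
  linarith

theorem ig_mul_abs (f g : C.A) : |ig C (f * g)| ≤ ig C (f ^ 2) + ig C (g ^ 2) := by
  have h1 := ig_sub_sq C f g
  have h2 := ig_add_sq C f g
  have h3 := ig_sq_nonneg C (f - g)
  have h4 := ig_sq_nonneg C (f + g)
  have h5 := ig_sq_nonneg C f
  have h6 := ig_sq_nonneg C g
  rw [abs_le]
  constructor <;> linarith

theorem fr_sq_le {k : ℕ} (φ ψ : Fin k → C.A) (f : C.A) :
    ig C (fr C φ ψ f ^ 2) ≤ k * ∑ j, ig C (ψ j * f) ^ 2 * ig C (φ j ^ 2) := by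
  have h1 : (k : ℝ) * ∑ j, ig C (ψ j * f) ^ 2 * ig C (φ j ^ 2) =
      ig C ((k : ℝ) • ∑ j, (ig C (ψ j * f) ^ 2) • (φ j ^ 2)) := by
    rw [ig_smul, ig_sum]
    simp only [ig_smul]
  rw [h1]
  refine ig_mono C fun p => ?_
  rw [map_pow, ev_smul, ev_sum]
  unfold fr
  rw [ev_sum]
  simp only [ev_smul, map_pow]
  have h2 := sq_sum_le_card_mul_sum_sq (s := (Finset.univ : Finset (Fin k)))
    (f := fun j => ig C (ψ j * f) * C.ev p (φ j))
  simp only [mul_pow, Finset.card_univ, Fintype.card_fin] at h2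
  exact h2

/-- the Sobolev norm -/
def Q (u : Fk N C.A) : ℝ := ∑ S, (ig C (u S ^ 2) + ∑ s, ig C (C.F.e s (u S) ^ 2))

theorem Q_eq (u : Fk N C.A) : Q C u = nq C u + ∑ a, ∑ S, ig C (C.F.e a (u S) ^ 2) := by
  unfold Q
  rw [Finset.sum_add_distrib, nq_eq, Finset.sum_comm (s := (Finset.univ : Finset (Fin N)))]

theorem Q_sub_le (u v : Fk N C.A) : Q C (u - v) ≤ 2 * Q C u + 2 * Q C v := by
  unfold Q
  rw [Finset.mul_sum, Finset.mul_sum, ← Finset.sum_add_distrib]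
  refine Finset.sum_le_sum fun S _ => ?_
  rw [Pi.sub_apply]
  have h1 := ig_sub_sq_le C (u S) (v S)
  have h2 : ∑ s, ig C (C.F.e s (u S - v S) ^ 2) ≤
      2 * ∑ s, ig C (C.F.e s (u S) ^ 2) + 2 * ∑ s, ig C (C.F.e s (v S) ^ 2) := by
    rw [Finset.mul_sum, Finset.mul_sum, ← Finset.sum_add_distrib]
    refine Finset.sum_le_sum fun s _ => ?_
    rw [map_sub]
    exact ig_sub_sq_le C _ _
  linarith

end Cpt

open Cpt in
theorem s_cpt (h : S_GARD) : S_CPT := by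
  intro M _ _ _ _ N C hM v ⟨K₁, hK₁⟩
  obtain ⟨K₀, hK₀, hG⟩ := h M N C
  obtain ⟨k, φ, ψ, -, -, -, ε, hε, hMo⟩ := hM
  set X : ℝ := |K₁| + K₀ * |K₁| with hX
  have hX0 : 0 ≤ X := by positivity
  have hQ : ∀ i, Q C (v i) ≤ X := by
    intro i
    rw [Q_eq]
    have h1 := hG (v i)
    have h2 := (hK₁ i).trans (le_abs_self K₁)
    have h3 := nq_nonneg C (v i)
    have h4 := nq_nonneg C (DD C (v i))
    have h5 : K₀ * (nq C (DD C (v i)) + nq C (v i)) ≤ K₀ * |K₁| :=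
      mul_le_mul_of_nonneg_left (by linarith) hK₀
    linarith
  have hS : ∀ i S, ig C (v i S ^ 2) ≤ |K₁| := by
    intro i S
    have h1 : ig C (v i S ^ 2) ≤ nq C (v i) := by
      rw [nq_eq]
      exact Finset.single_le_sum (f := fun S => ig C (v i S ^ 2))
        (fun S _ => ig_sq_nonneg C _) (Finset.mem_univ S)
    have h2 := (hK₁ i).trans (le_abs_self K₁)
    have h4 := nq_nonneg C (DD C (v i))
    linarith
  -- the diagonal subsequence
  let I : Type := (Σ m, Fin (k m)) × Finset (Fin N)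
  let x : ℕ → I → ℝ := fun i l => ig C (ψ l.1.1 l.1.2 * v i l.2)
  have hx : ∀ i, x i ∈ Set.univ.pi fun l : I =>
      Set.Icc (-(ig C (ψ l.1.1 l.1.2 ^ 2) + |K₁|)) (ig C (ψ l.1.1 l.1.2 ^ 2) + |K₁|) := by
    intro i l _
    refine abs_le.1 ((ig_mul_abs C _ _).trans ?_)
    have := hS i l.2
    linarith
  obtain ⟨a, -, θ, hθ, hlim⟩ := (isCompact_univ_pi fun _ : I => isCompact_Icc).tendsto_subseq hx
  refine ⟨θ, hθ, ?_⟩
  have hconv : ∀ l : I, Tendsto (fun i => x (θ i) l) atTop (𝓝 (a l)) :=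
    fun l => (tendsto_pi_nhds.1 hlim) l
  intro η hη
  -- the level
  obtain ⟨m, hm⟩ : ∃ m, |ε m| * (8 * X + 1) ≤ η / 2 := by
    have h1 : Tendsto (fun m => |ε m| * (8 * X + 1)) atTop (𝓝 (|0| * (8 * X + 1))) :=
      hε.abs.mul_const _
    rw [abs_zero, zero_mul] at h1
    exact (h1.eventually (ge_mem_nhds (by positivity))).exists
  -- the finite dimensional part
  let D : ℕ × ℕ → ℝ := fun q => ∑ S : Finset (Fin N), 2 * ((k m : ℝ) * ∑ j : Fin (k m),
    (x (θ q.1) (⟨m, j⟩, S) - x (θ q.2) (⟨m, j⟩, S)) ^ 2 * ig C (φ m j ^ 2))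
  have hD : Tendsto D (atTop ×ˢ atTop) (𝓝 0) := by
    have h0 : (0 : ℝ) = ∑ S : Finset (Fin N), 2 * ((k m : ℝ) * ∑ j : Fin (k m),
        (a (⟨m, j⟩, S) - a (⟨m, j⟩, S)) ^ 2 * ig C (φ m j ^ 2)) := by
      simp
    rw [h0]
    refine tendsto_finsetSum _ fun S _ => (Tendsto.const_mul _ (Tendsto.const_mul _
      (tendsto_finsetSum _ fun j _ => ?_)))
    exact ((((hconv (⟨m, j⟩, S)).comp tendsto_fst).sub
      ((hconv (⟨m, j⟩, S)).comp tendsto_snd)).pow 2).mul_const _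
  rw [prod_atTop_atTop_eq] at hD
  obtain ⟨⟨b1, b2⟩, hb⟩ := eventually_atTop.1 (hD.eventually (ge_mem_nhds (half_pos hη)))
  refine ⟨max b1 b2, fun i hi j hj => ?_⟩
  have hDij := hb (i, j) ⟨(le_max_left _ _).trans hi, (le_max_right _ _).trans hj⟩
  set w : Fk N C.A := v (θ i) - v (θ j) with hw
  have hQw : Q C w ≤ 4 * X := by
    have h1 := Q_sub_le C (v (θ i)) (v (θ j))
    have h2 := hQ (θ i)
    have h3 := hQ (θ j)
    rw [hw]
    linarith
  have hQ0 : 0 ≤ Q C w := Finset.sum_nonneg fun S _ =>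
    add_nonneg (ig_sq_nonneg C _) (Finset.sum_nonneg fun s _ => ig_sq_nonneg C _)
  have h1 : nq C w ≤ ∑ S, (2 * ig C ((w S - fr C (φ m) (ψ m) (w S)) ^ 2) +
      2 * ig C (fr C (φ m) (ψ m) (w S) ^ 2)) := by
    rw [nq_eq]
    refine Finset.sum_le_sum fun S _ => ?_
    have h2 := ig_add_sq_le C (w S - fr C (φ m) (ψ m) (w S)) (fr C (φ m) (ψ m) (w S))
    rwa [sub_add_cancel] at h2
  rw [Finset.sum_add_distrib, ← Finset.mul_sum] at h1
  have h2 : ∑ S, ig C ((w S - fr C (φ m) (ψ m) (w S)) ^ 2) ≤ |ε m| * (4 * X) := by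
    calc ∑ S, ig C ((w S - fr C (φ m) (ψ m) (w S)) ^ 2)
        ≤ ∑ S, ε m * (ig C (w S ^ 2) + ∑ s, ig C (C.F.e s (w S) ^ 2)) :=
          Finset.sum_le_sum fun S _ => hMo m (w S)
      _ = ε m * Q C w := by
          rw [← Finset.mul_sum]
          rfl
      _ ≤ |ε m| * Q C w := mul_le_mul_of_nonneg_right (le_abs_self _) hQ0
      _ ≤ |ε m| * (4 * X) := mul_le_mul_of_nonneg_left hQw (abs_nonneg _)
  have h3 : ∑ S, 2 * ig C (fr C (φ m) (ψ m) (w S) ^ 2) ≤ D (i, j) := by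
    refine Finset.sum_le_sum fun S _ => ?_
    refine mul_le_mul_of_nonneg_left ((fr_sq_le C _ _ _).trans (le_of_eq ?_)) zero_le_two
    congr 1
    refine Finset.sum_congr rfl fun l _ => ?_
    congr 2
    show ig C (ψ m l * w S) = ig C (ψ m l * v (θ i) S) - ig C (ψ m l * v (θ j) S)
    rw [hw, Pi.sub_apply, mul_sub, ig_sub]
  have h4 : 0 ≤ |ε m| := abs_nonneg _
  have h5 : |ε m| * (8 * X + 1) = 2 * (|ε m| * (4 * X)) + |ε m| := by ring
  show nq C w ≤ η
  linarith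

end Pool.Agent.H781.CM
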