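import Pool.Agent.H781.CM.Lin

/-!
The integrated Bochner formula and the adjointness of `dd` and `de`.
-/

set_option autoImplicit false

noncomputable section

namespace Pool.Agent.H781.CM

open Finset Pool.Agent.H781.NG

namespace Boch

variable {N : ℕ} {A : Type*} [CommRing A] [Algebra ℝ A] (F : Fr N A)

/-- componentwise derivative -/
def ee (a : Fin N) (u : Fk N A) : Fk N A := fun S => F.e a (u S)

theorem nab_def (a : Fin N) (u : Fk N A) : nab F a u = ee F a u + gam F a u := rfl

theorem ee_add (a : Fin N) (u v : Fk N A) : ee F a (u + v) = ee F a u + ee F a v := by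
  funext S
  simp [ee]

theorem ee_smul (a : Fin N) (f : A) (u : Fk N A) :
    ee F a (f • u) = F.e a f • u + f • ee F a u := by
  funext S
  simp only [ee, Pi.smul_apply, Pi.add_apply, smul_eq_mul, Derivation.leibniz]
  ring

theorem ee_sum {κ : Type*} (a : Fin N) (s : Finset κ) (f : κ → Fk N A) :
    ee F a (∑ k ∈ s, f k) = ∑ k ∈ s, ee F a (f k) := by
  funext S
  simp [ee, Finset.sum_apply]

theorem e_int (a : Fin N) (n : ℤ) (f : A) : F.e a ((n : A) * f) = (n : A) * F.e a f := by
  rw [Derivation.leibniz, Derivation.map_intCast]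
  simp

theorem ee_cr (a b : Fin N) (u : Fk N A) : ee F a (cr b u) = cr b (ee F a u) := by
  funext S
  simp only [ee, cr_apply]
  split_ifs
  · rw [e_int]
  · rw [map_zero]

theorem ee_an (a b : Fin N) (u : Fk N A) : ee F a (an b u) = an b (ee F a u) := by
  funext S
  simp only [ee, an_apply]
  split_ifs
  · rw [map_zero]
  · rw [e_int]

theorem gam_add (a : Fin N) (u v : Fk N A) : gam F a (u + v) = gam F a u + gam F a v := by
  simp only [gam, map_add, smul_add, Finset.sum_add_distrib]

theorem gam_smul (a : Fin N) (f : A) (u : Fk N A) : gam F a (f • u) = f • gam F a u := by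
  simp only [gam, map_smul, Finset.smul_sum]
  refine Finset.sum_congr rfl fun b _ => Finset.sum_congr rfl fun c _ => ?_
  rw [smul_smul, smul_smul, mul_comm]

theorem gam_sum {κ : Type*} (a : Fin N) (s : Finset κ) (f : κ → Fk N A) :
    gam F a (∑ k ∈ s, f k) = ∑ k ∈ s, gam F a (f k) := by
  classical
  induction s using Finset.induction_on with
  | empty => simp [gam]
  | insert x s hx ih => rw [Finset.sum_insert hx, Finset.sum_insert hx, gam_add, ih]

theorem gam_cr (a b : Fin N) (u : Fk N A) :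
    gam F a (cr b u) = cr b (gam F a u) + ∑ c, F.Γ a b c • cr c u := by
  have h : ∀ p q, F.Γ a p q • cr q (an p (cr b u)) =
      cr b (F.Γ a p q • cr q (an p u)) + (if p = b then F.Γ a p q • cr q u else 0) := by
    intro p q
    rw [an_cr, map_sub, cr_cr q b (an p u), map_smul]
    split_ifs with hpb
    · rw [sub_neg_eq_add, smul_add, add_comm]
    · rw [map_zero, sub_neg_eq_add, zero_add, add_zero]
  unfold gam
  simp only [h, Finset.sum_add_distrib, map_sum]
  congr 1
  rw [Finset.sum_comm]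
  refine Finset.sum_congr rfl fun c _ => ?_
  simp

theorem gam_an (a b : Fin N) (u : Fk N A) :
    gam F a (an b u) = an b (gam F a u) + ∑ c, F.Γ a b c • an c u := by
  have h : ∀ p q, F.Γ a p q • cr q (an p (an b u)) =
      an b (F.Γ a p q • cr q (an p u)) + (if b = q then F.Γ a q p • an p u else 0) := by
    intro p q
    rw [an_an p b, map_neg, map_smul, an_cr b q (an p u), smul_neg, smul_sub]
    split_ifs with hbq
    · rw [F.anti a q p, neg_smul]
      abel
    · rw [smul_zero]
      abel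
  unfold gam
  simp only [h, Finset.sum_add_distrib, map_sum]
  congr 1
  refine Finset.sum_congr rfl fun c _ => ?_
  simp

theorem nab_add (a : Fin N) (u v : Fk N A) : nab F a (u + v) = nab F a u + nab F a v := by
  rw [nab_def, nab_def, nab_def, ee_add, gam_add]
  abel

theorem nab_cr (a b : Fin N) (u : Fk N A) :
    nab F a (cr b u) = cr b (nab F a u) + ∑ c, F.Γ a b c • cr c u := by
  rw [nab_def, nab_def, ee_cr, gam_cr, map_add, add_assoc]

theorem nab_an (a b : Fin N) (u : Fk N A) :
    nab F a (an b u) = an b (nab F a u) + ∑ c, F.Γ a b c • an c u := by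
  rw [nab_def, nab_def, ee_an, gam_an, map_add, add_assoc]

theorem nab_K (a p q : Fin N) (w : Fk N A) :
    nab F a (cr p (an q w)) = cr p (an q (nab F a w)) + ∑ c, F.Γ a q c • cr p (an c w) +
      ∑ c, F.Γ a p c • cr c (an q w) := by
  rw [nab_cr, nab_an, map_add, map_sum]
  simp only [map_smul]

/-- Leibniz rule for the inner product -/
theorem e_ip (a : Fin N) (u v : Fk N A) :
    F.e a (ip u v) = ip (nab F a u) v + ip u (nab F a v) := by
  have h1 : F.e a (ip u v) = ip (ee F a u) v + ip u (ee F a v) := by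
    unfold ip ee
    rw [map_sum, ← Finset.sum_add_distrib]
    refine Finset.sum_congr rfl fun S _ => ?_
    rw [Derivation.leibniz]
    simp only [smul_eq_mul]
    ring
  have h2 : ip (gam F a u) v + ip u (gam F a v) = 0 := by
    unfold gam
    simp only [ip_sum_left, ip_sum_right, ip_smul_left, ip_smul_right, ip_cr]
    have h3 : ∑ b, ∑ c, F.Γ a b c * ip u (cr c (an b v)) =
        -∑ b, ∑ c, F.Γ a b c * ip (an b u) (an c v) := by
      rw [Finset.sum_comm, ← Finset.sum_neg_distrib]
      refine Finset.sum_congr rfl fun b _ => ?_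
      rw [← Finset.sum_neg_distrib]
      refine Finset.sum_congr rfl fun c _ => ?_
      rw [F.anti a c b, ← ip_an b u (an c v)]
      ring
    rw [h3, add_neg_cancel]
  rw [h1, nab_def, nab_def, ip_add_left, ip_add_right]
  linear_combination -h2

/-- the curvature operator on the Fock space -/
def RR (a b : Fin N) (u : Fk N A) : Fk N A := ∑ c, ∑ d, Rm F a b c d • cr d (an c u)

theorem ee_gam (a b : Fin N) (u : Fk N A) :
    ee F a (gam F b u) = gam F b (ee F a u) + ∑ c, ∑ d, F.e a (F.Γ b c d) • cr d (an c u) := by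
  unfold gam
  simp only [ee_sum, ee_smul, ee_cr, ee_an, Finset.sum_add_distrib]
  rw [add_comm]

theorem gam_gam (a b : Fin N) (u : Fk N A) :
    gam F a (gam F b u) = gam F b (gam F a u) +
      ∑ c, ∑ d, (∑ f, (F.Γ b c f * F.Γ a f d - F.Γ a c f * F.Γ b f d)) • cr d (an c u) := by
  have h1 : gam F a (gam F b u) = ∑ c, ∑ d, F.Γ b c d • gam F a (cr d (an c u)) := by
    conv_lhs => rw [show gam F b u = ∑ c, ∑ d, F.Γ b c d • cr d (an c u) from rfl]
    simp only [gam_sum, gam_smul]
  rw [h1]
  have h2 : ∀ c d, F.Γ b c d • gam F a (cr d (an c u)) =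
      F.Γ b c d • cr d (an c (gam F a u)) + (∑ f, (F.Γ b c d * F.Γ a c f) • cr d (an f u) +
      ∑ f, (F.Γ b c d * F.Γ a d f) • cr f (an c u)) := by
    intro c d
    rw [gam_cr, gam_an, map_add, map_sum]
    simp only [map_smul, smul_add, Finset.smul_sum, smul_smul]
    abel
  simp only [h2, Finset.sum_add_distrib]
  congr 1
  have h3 : ∑ c, ∑ d, ∑ f, (F.Γ b c d * F.Γ a c f) • cr d (an f u) =
      ∑ c, ∑ d, (∑ f, -(F.Γ a c f * F.Γ b f d)) • cr d (an c u) := by
    rw [Finset.sum_comm]
    have : ∀ d : Fin N, ∑ c, ∑ f, (F.Γ b c d * F.Γ a c f) • cr d (an f u) =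
        ∑ c, (∑ f, -(F.Γ a c f * F.Γ b f d)) • cr d (an c u) := by
      intro d
      rw [Finset.sum_comm]
      refine Finset.sum_congr rfl fun c _ => ?_
      rw [Finset.sum_smul]
      refine Finset.sum_congr rfl fun f _ => ?_
      rw [F.anti a f c]
      congr 1
      ring
    simp only [this]
    rw [Finset.sum_comm]
  have h4 : ∑ c, ∑ d, ∑ f, (F.Γ b c d * F.Γ a d f) • cr f (an c u) =
      ∑ c, ∑ d, (∑ f, F.Γ b c f * F.Γ a f d) • cr d (an c u) := by
    refine Finset.sum_congr rfl fun c _ => ?_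
    rw [Finset.sum_comm]
    refine Finset.sum_congr rfl fun d _ => ?_
    rw [Finset.sum_smul]
  rw [h3, h4, ← Finset.sum_add_distrib]
  refine Finset.sum_congr rfl fun c _ => ?_
  rw [← Finset.sum_add_distrib]
  refine Finset.sum_congr rfl fun d _ => ?_
  rw [← add_smul, ← Finset.sum_add_distrib]
  congr 1
  refine Finset.sum_congr rfl fun f _ => ?_
  ring

theorem curv (a b : Fin N) (u : Fk N A) :
    nab F a (nab F b u) - nab F b (nab F a u) =
      RR F a b u + ∑ c, (F.Γ a b c - F.Γ b a c) • nab F c u := by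
  have h1 : ee F a (ee F b u) - ee F b (ee F a u) =
      ∑ c, (F.Γ a b c - F.Γ b a c) • ee F c u := by
    funext S
    rw [Pi.sub_apply, Finset.sum_apply]
    exact F.tors a b (u S)
  have h2 : RR F a b u = ∑ c, ∑ d, F.e a (F.Γ b c d) • cr d (an c u)
      - ∑ c, ∑ d, F.e b (F.Γ a c d) • cr d (an c u)
      + ∑ c, ∑ d, (∑ f, (F.Γ b c f * F.Γ a f d - F.Γ a c f * F.Γ b f d)) • cr d (an c u)
      - ∑ f, (F.Γ a b f - F.Γ b a f) • gam F f u := by
    have h3 : ∑ f, (F.Γ a b f - F.Γ b a f) • gam F f u =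
        ∑ c, ∑ d, (∑ f, (F.Γ a b f - F.Γ b a f) * F.Γ f c d) • cr d (an c u) := by
      unfold gam
      simp only [Finset.smul_sum, smul_smul, Finset.sum_smul]
      rw [Finset.sum_comm]
      refine Finset.sum_congr rfl fun c _ => ?_
      rw [Finset.sum_comm]
    rw [h3]
    unfold RR
    simp only [← Finset.sum_sub_distrib, ← Finset.sum_add_distrib, ← sub_smul, ← add_smul]
    rfl
  rw [h2]
  simp only [nab_def, ee_add, gam_add, ee_gam, smul_add, Finset.sum_add_distrib]
  rw [gam_gam F a b u, ← h1]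
  abel

theorem dv_add (f g : Fin N → A) : dv F (fun a => f a + g a) = dv F f + dv F g := by
  unfold dv
  simp only [map_add, mul_add, Finset.sum_add_distrib]
  ring

/-- pointwise form of the adjointness -/
theorem adj_pt (u v : Fk N A) :
    ip (dd F u) v = dv F (fun a => ip u (an a v)) + ip u (de F v) := by
  unfold dd de dv
  rw [ip_sum_left, ip_neg_right, ip_sum_right]
  have h1 : ∀ a, ip (cr a (nab F a u)) v = F.e a (ip u (an a v)) - ip u (an a (nab F a v)) -
      ∑ c, F.Γ a a c * ip u (an c v) := by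
    intro a
    rw [ip_cr, e_ip, nab_an, ip_add_right, ip_sum_right]
    simp only [ip_smul_right]
    ring
  simp only [h1, Finset.sum_sub_distrib]
  have h2 : ∑ a, ∑ c, F.Γ a a c * ip u (an c v) = -∑ a, ∑ b, F.Γ b a b * ip u (an a v) := by
    rw [Finset.sum_comm, ← Finset.sum_neg_distrib]
    refine Finset.sum_congr rfl fun c _ => ?_
    rw [← Finset.sum_neg_distrib]
    refine Finset.sum_congr rfl fun a _ => ?_
    rw [F.anti a a c]
    ring
  rw [h2]
  ring

/-- pointwise form of the Bochner formula -/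
theorem boch_pt (u : Fk N A) :
    ip (dd F u) (dd F u) + ip (de F u) (de F u) =
      ∑ a, ip (nab F a u) (nab F a u) + ric F u +
      dv F (fun a => ∑ b, (ip u (cr a (an b (nab F b u))) - ip u (cr b (an a (nab F b u))))) := by
  -- the two squares
  have hdd : ip (dd F u) (dd F u) = ∑ a, ip (nab F a u) (nab F a u) -
      ∑ a, ∑ b, ip (nab F a u) (cr b (an a (nab F b u))) := by
    unfold dd
    rw [ip_sum_left, ← Finset.sum_sub_distrib]
    refine Finset.sum_congr rfl fun a _ => ?_
    rw [ip_sum_right]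
    have : ∀ b, ip (cr a (nab F a u)) (cr b (nab F b u)) =
        (if a = b then ip (nab F a u) (nab F b u) else 0) -
          ip (nab F a u) (cr b (an a (nab F b u))) := by
      intro b
      rw [ip_cr, an_cr, ip_sub_right]
      split_ifs
      · rfl
      · rw [ip_zero_right]
    simp only [this, Finset.sum_sub_distrib, Finset.sum_ite_eq, Finset.mem_univ, if_true]
  have hde : ip (de F u) (de F u) = ∑ a, ∑ b, ip (nab F a u) (cr a (an b (nab F b u))) := by
    unfold de
    rw [ip_neg_left, ip_neg_right, neg_neg, ip_sum_left]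
    refine Finset.sum_congr rfl fun a _ => ?_
    rw [ip_sum_right]
    refine Finset.sum_congr rfl fun b _ => ?_
    rw [ip_an]
  -- the derivative of the terms of `V`
  have hP : ∀ a p q w, F.e a (ip u (cr p (an q w))) = ip (nab F a u) (cr p (an q w)) +
      ip u (cr p (an q (nab F a w))) + ∑ c, F.Γ a q c * ip u (cr p (an c w)) +
      ∑ c, F.Γ a p c * ip u (cr c (an q w)) := by
    intro a p q w
    rw [e_ip, nab_K, ip_add_right, ip_add_right, ip_sum_right, ip_sum_right]
    simp only [ip_smul_right]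
    ring
  -- abbreviations
  set P : Fin N → Fin N → Fk N A → A := fun p q w => ip u (cr p (an q w)) with hPdef
  have hric : ∑ a, ∑ b, P a b (RR F a b u) = -ric F u := by
    unfold ric
    rw [neg_neg]
    refine Finset.sum_congr rfl fun a _ => Finset.sum_congr rfl fun b _ => ?_
    simp only [hPdef, RR, map_sum, map_smul, ip_sum_right, ip_smul_right]
    refine Finset.sum_congr rfl fun c _ => Finset.sum_congr rfl fun d _ => ?_
    rw [← ip_an a u, ← ip_cr b (an a u)]
  have hY : ∑ a, ∑ b, P a b (nab F a (nab F b u)) - ∑ a, ∑ b, P b a (nab F a (nab F b u)) =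
      -ric F u + ∑ a, ∑ b, ∑ c, (F.Γ a b c - F.Γ b a c) * P a b (nab F c u) := by
    have h1 : ∑ a, ∑ b, P b a (nab F a (nab F b u)) = ∑ a, ∑ b, P a b (nab F b (nab F a u)) :=
      Finset.sum_comm
    rw [h1, ← hric, ← Finset.sum_sub_distrib, ← Finset.sum_add_distrib]
    refine Finset.sum_congr rfl fun a _ => ?_
    rw [← Finset.sum_sub_distrib, ← Finset.sum_add_distrib]
    refine Finset.sum_congr rfl fun b _ => ?_
    simp only [hPdef]
    rw [← ip_sub_right, ← map_sub, ← map_sub, curv, map_add, map_add, ip_add_right, map_sum,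
      map_sum, ip_sum_right]
    simp only [map_smul, ip_smul_right]
  have hZ1 : ∑ a, ∑ b, ∑ c, F.Γ a b c * P a c (nab F b u) =
      -∑ a, ∑ b, ∑ c, F.Γ a b c * P a b (nab F c u) := by
    rw [← Finset.sum_neg_distrib]
    refine Finset.sum_congr rfl fun a _ => ?_
    rw [Finset.sum_comm, ← Finset.sum_neg_distrib]
    refine Finset.sum_congr rfl fun b _ => ?_
    rw [← Finset.sum_neg_distrib]
    refine Finset.sum_congr rfl fun c _ => ?_
    rw [F.anti a c b]
    ring
  have hZ4 : ∑ a, ∑ b, ∑ c, F.Γ a b c * P c a (nab F b u) =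
      -∑ a, ∑ b, ∑ c, F.Γ b a c * P a b (nab F c u) := by
    have h1 : ∑ a, ∑ b, ∑ c, F.Γ a b c * P c a (nab F b u) =
        ∑ a, ∑ c, ∑ b, F.Γ a b c * P c a (nab F b u) :=
      Finset.sum_congr rfl fun a _ => Finset.sum_comm
    rw [h1, Finset.sum_comm, ← Finset.sum_neg_distrib]
    refine Finset.sum_congr rfl fun c _ => ?_
    rw [← Finset.sum_neg_distrib]
    refine Finset.sum_congr rfl fun a _ => ?_
    rw [← Finset.sum_neg_distrib]
    refine Finset.sum_congr rfl fun b _ => ?_
    rw [F.anti a b c]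
    ring
  have hD1 : ∑ a, F.e a (∑ b, (P a b (nab F b u) - P b a (nab F b u))) =
      ∑ a, ∑ b, ip (nab F a u) (cr a (an b (nab F b u))) -
      ∑ a, ∑ b, ip (nab F a u) (cr b (an a (nab F b u))) +
      (∑ a, ∑ b, P a b (nab F a (nab F b u)) - ∑ a, ∑ b, P b a (nab F a (nab F b u))) +
      (∑ a, ∑ b, ∑ c, F.Γ a b c * P a c (nab F b u) -
        ∑ a, ∑ b, ∑ c, F.Γ a b c * P c a (nab F b u)) +
      (∑ a, ∑ b, ∑ c, F.Γ a a c * P c b (nab F b u) -
        ∑ a, ∑ b, ∑ c, F.Γ a a c * P b c (nab F b u)) := by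
    simp only [← Finset.sum_sub_distrib, ← Finset.sum_add_distrib, map_sum, map_sub]
    refine Finset.sum_congr rfl fun a _ => Finset.sum_congr rfl fun b _ => ?_
    simp only [hPdef]
    rw [hP, hP]
    simp only [Finset.sum_sub_distrib]
    ring
  have hD2 : ∑ a, ∑ b, F.Γ b a b * ∑ c, (P a c (nab F c u) - P c a (nab F c u)) =
      -(∑ a, ∑ b, ∑ c, F.Γ a a c * P c b (nab F b u) -
        ∑ a, ∑ b, ∑ c, F.Γ a a c * P b c (nab F b u)) := by
    have h1 : ∑ a, ∑ b, ∑ c, F.Γ a a c * P c b (nab F b u) -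
        ∑ a, ∑ b, ∑ c, F.Γ a a c * P b c (nab F b u) =
        ∑ a, ∑ c, ∑ b, F.Γ a a c * (P c b (nab F b u) - P b c (nab F b u)) := by
      rw [← Finset.sum_sub_distrib]
      refine Finset.sum_congr rfl fun a _ => ?_
      rw [← Finset.sum_sub_distrib, Finset.sum_comm]
      refine Finset.sum_congr rfl fun c _ => ?_
      rw [← Finset.sum_sub_distrib]
      refine Finset.sum_congr rfl fun b _ => ?_
      ring
    rw [h1, Finset.sum_comm, ← Finset.sum_neg_distrib]
    refine Finset.sum_congr rfl fun a _ => ?_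
    rw [← Finset.sum_neg_distrib]
    refine Finset.sum_congr rfl fun b _ => ?_
    rw [F.anti a b a, Finset.mul_sum, ← Finset.sum_neg_distrib]
    refine Finset.sum_congr rfl fun c _ => ?_
    ring
  have hfin : ∑ a, ∑ b, ∑ c, (F.Γ a b c - F.Γ b a c) * P a b (nab F c u) =
      ∑ a, ∑ b, ∑ c, F.Γ a b c * P a b (nab F c u) -
      ∑ a, ∑ b, ∑ c, F.Γ b a c * P a b (nab F c u) := by
    simp only [← Finset.sum_sub_distrib, sub_mul]
  unfold dv
  rw [hdd, hde, hD1, hD2, hY, hZ1, hZ4, hfin]
  ring

theorem adj (N : ℕ) (A : Type) [CommRing A] [Algebra ℝ A] (F : Fr N A)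
    (I : A →ₗ[ℝ] ℝ) (hI : IsInt F I) (u v : Fk N A) : I (ip (dd F u) v) = I (ip u (de F v)) := by
  rw [Boch.adj_pt, map_add, hI, zero_add]

theorem bochner (N : ℕ) (A : Type) [CommRing A] [Algebra ℝ A] (F : Fr N A)
    (I : A →ₗ[ℝ] ℝ) (hI : IsInt F I) (u : Fk N A) :
    I (ip (dd F u) (dd F u)) + I (ip (de F u) (de F u)) =
      I (∑ a, ip (nab F a u) (nab F a u)) + I (ric F u) := by
  rw [← map_add, Boch.boch_pt, map_add, hI, add_zero, map_add]

end Boch

end Pool.Agent.H781.CM
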