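import Pool.Agent.H781.CM.Spec
import Pool.Agent.H781.CM.Bo

/-!
`d` and `δ` on differential forms: `S_DDH`.
-/

set_option autoImplicit false
set_option synthInstance.maxHeartbeats 400000
set_option maxHeartbeats 4000000
set_option linter.unusedSectionVars false

open MeasureTheory Filter
open scoped Topology

noncomputable section

namespace Pool.Agent.H781.CM

open Pool.Agent.H781.NG

namespace Ddh

section Alg

variable {N : ℕ} {A : Type*} [CommRing A] [Algebra ℝ A] (F : Fr N A)

theorem nab_smul (a : Fin N) (f : A) (u : Fk N A) :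
    nab F a (f • u) = F.e a f • u + f • nab F a u := by
  rw [Boch.nab_def, Boch.nab_def, Boch.ee_smul, Boch.gam_smul, smul_add, add_assoc]

theorem nab_sum {κ : Type*} (a : Fin N) (s : Finset κ) (f : κ → Fk N A) :
    nab F a (∑ k ∈ s, f k) = ∑ k ∈ s, nab F a (f k) := by
  simp only [Boch.nab_def, Boch.ee_sum, Boch.gam_sum, Finset.sum_add_distrib]

/-- `2 d d u` is the curvature term -/
theorem dd_dd (u : Fk N A) :
    dd F (dd F u) + dd F (dd F u) = ∑ a, ∑ b, cr a (cr b (Boch.RR F a b u)) := by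
  have h0 : dd F (dd F u) = ∑ a, ∑ b, cr a (cr b (nab F a (nab F b u))) +
      ∑ a, ∑ b, ∑ c, F.Γ a b c • cr a (cr c (nab F b u)) := by
    unfold dd
    rw [← Finset.sum_add_distrib]
    refine Finset.sum_congr rfl fun a _ => ?_
    rw [nab_sum, map_sum, ← Finset.sum_add_distrib]
    refine Finset.sum_congr rfl fun b _ => ?_
    rw [Boch.nab_cr, map_add, map_sum]
    simp only [map_smul]
  have h1 : ∑ a, ∑ b, cr a (cr b (nab F a (nab F b u))) =
      -∑ a, ∑ b, cr a (cr b (nab F b (nab F a u))) := by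
    rw [Finset.sum_comm, ← Finset.sum_neg_distrib]
    refine Finset.sum_congr rfl fun b _ => ?_
    rw [← Finset.sum_neg_distrib]
    refine Finset.sum_congr rfl fun a _ => ?_
    rw [cr_cr a b]
  have h2 : ∑ a, ∑ b, ∑ c, F.Γ a b c • cr a (cr c (nab F b u)) =
      -∑ a, ∑ b, ∑ c, F.Γ a b c • cr a (cr b (nab F c u)) := by
    rw [← Finset.sum_neg_distrib]
    refine Finset.sum_congr rfl fun a _ => ?_
    rw [Finset.sum_comm, ← Finset.sum_neg_distrib]
    refine Finset.sum_congr rfl fun c _ => ?_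
    rw [← Finset.sum_neg_distrib]
    refine Finset.sum_congr rfl fun b _ => ?_
    rw [F.anti a b c, neg_smul]
  have h3 : ∑ a, ∑ b, ∑ c, F.Γ b a c • cr a (cr b (nab F c u)) =
      -∑ a, ∑ b, ∑ c, F.Γ a b c • cr a (cr b (nab F c u)) := by
    rw [Finset.sum_comm, ← Finset.sum_neg_distrib]
    refine Finset.sum_congr rfl fun b _ => ?_
    rw [← Finset.sum_neg_distrib]
    refine Finset.sum_congr rfl fun a _ => ?_
    rw [← Finset.sum_neg_distrib]
    refine Finset.sum_congr rfl fun c _ => ?_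
    rw [cr_cr a b, smul_neg]
  have h4 : ∑ a, ∑ b, cr a (cr b (nab F a (nab F b u))) -
      ∑ a, ∑ b, cr a (cr b (nab F b (nab F a u))) =
      ∑ a, ∑ b, cr a (cr b (Boch.RR F a b u)) +
      (∑ a, ∑ b, ∑ c, F.Γ a b c • cr a (cr b (nab F c u)) -
        ∑ a, ∑ b, ∑ c, F.Γ b a c • cr a (cr b (nab F c u))) := by
    simp only [← Finset.sum_sub_distrib, ← Finset.sum_add_distrib]
    refine Finset.sum_congr rfl fun a _ => Finset.sum_congr rfl fun b _ => ?_
    rw [← map_sub, ← map_sub, Boch.curv, map_add, map_add, map_sum, map_sum]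
    congr 1
    refine Finset.sum_congr rfl fun c _ => ?_
    rw [map_smul, map_smul, sub_smul]
  have h5 : ∑ a, ∑ b, cr a (cr b (nab F a (nab F b u))) +
      ∑ a, ∑ b, cr a (cr b (nab F a (nab F b u))) =
      ∑ a, ∑ b, cr a (cr b (nab F a (nab F b u))) -
      ∑ a, ∑ b, cr a (cr b (nab F b (nab F a u))) := by
    rw [sub_eq_add_neg, ← h1]
  rw [h0, h2]
  rw [h4, h3] at h5
  calc (∑ a, ∑ b, cr a (cr b (nab F a (nab F b u))) +
      -∑ a, ∑ b, ∑ c, F.Γ a b c • cr a (cr b (nab F c u))) +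
      (∑ a, ∑ b, cr a (cr b (nab F a (nab F b u))) +
      -∑ a, ∑ b, ∑ c, F.Γ a b c • cr a (cr b (nab F c u))) =
      (∑ a, ∑ b, cr a (cr b (nab F a (nab F b u))) +
      ∑ a, ∑ b, cr a (cr b (nab F a (nab F b u)))) -
      (∑ a, ∑ b, ∑ c, F.Γ a b c • cr a (cr b (nab F c u)) +
      ∑ a, ∑ b, ∑ c, F.Γ a b c • cr a (cr b (nab F c u))) := by abel
    _ = _ := by
      rw [h5]
      abel

theorem third (K : Fk N A) (h : K + K + K = 0) : K = 0 := by
  have h1 : (3 : ℝ) • K = 0 := by
    rw [← h, show (3 : ℝ) = 1 + 1 + 1 by norm_num, add_smul, add_smul, one_smul]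
  have h2 : K = (1 / 3 : ℝ) • ((3 : ℝ) • K) := by
    rw [smul_smul]
    norm_num
  rw [h2, h1, smul_zero]

theorem half (K : Fk N A) (h : K + K = 0) : K = 0 := by
  have h1 : (2 : ℝ) • K = 0 := by
    rw [← h, show (2 : ℝ) = 1 + 1 by norm_num, add_smul, one_smul]
  have h2 : K = (1 / 2 : ℝ) • ((2 : ℝ) • K) := by
    rw [smul_smul]
    norm_num
  rw [h2, h1, smul_zero]

theorem cyc (t : Fin N → Fin N → Fin N → A) (ht : ∀ a b d, t a b d + t b d a + t d a b = 0)
    (v : Fk N A) : ∑ a, ∑ b, ∑ d, t a b d • cr a (cr b (cr d v)) = 0 := by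
  have e1 : ∀ a b d : Fin N, cr b (cr d (cr a v)) = cr a (cr b (cr d v)) := by
    intro a b d
    rw [cr_cr d a v, map_neg, cr_cr b a (cr d v), neg_neg]
  have e2 : ∀ a b d : Fin N, cr d (cr a (cr b v)) = cr a (cr b (cr d v)) := by
    intro a b d
    rw [cr_cr d a (cr b v), cr_cr d b v, map_neg, neg_neg]
  have k1 : ∑ a, ∑ b, ∑ d, t a b d • cr a (cr b (cr d v)) =
      ∑ a, ∑ b, ∑ d, t b d a • cr a (cr b (cr d v)) := by
    calc ∑ a, ∑ b, ∑ d, t a b d • cr a (cr b (cr d v)) =
        ∑ b, ∑ d, ∑ a, t b d a • cr b (cr d (cr a v)) := rfl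
      _ = ∑ b, ∑ a, ∑ d, t b d a • cr b (cr d (cr a v)) :=
          Finset.sum_congr rfl fun b _ => Finset.sum_comm
      _ = ∑ a, ∑ b, ∑ d, t b d a • cr b (cr d (cr a v)) := Finset.sum_comm
      _ = _ := by
          refine Finset.sum_congr rfl fun a _ => Finset.sum_congr rfl fun b _ =>
            Finset.sum_congr rfl fun d _ => ?_
          rw [e1 a b d]
  have k2 : ∑ a, ∑ b, ∑ d, t a b d • cr a (cr b (cr d v)) =
      ∑ a, ∑ b, ∑ d, t d a b • cr a (cr b (cr d v)) := by
    calc ∑ a, ∑ b, ∑ d, t a b d • cr a (cr b (cr d v)) =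
        ∑ d, ∑ a, ∑ b, t d a b • cr d (cr a (cr b v)) := rfl
      _ = ∑ a, ∑ d, ∑ b, t d a b • cr d (cr a (cr b v)) := Finset.sum_comm
      _ = ∑ a, ∑ b, ∑ d, t d a b • cr d (cr a (cr b v)) :=
          Finset.sum_congr rfl fun a _ => Finset.sum_comm
      _ = _ := by
          refine Finset.sum_congr rfl fun a _ => Finset.sum_congr rfl fun b _ =>
            Finset.sum_congr rfl fun d _ => ?_
          rw [e2 a b d]
  apply third
  nth_rewrite 3 [k2]
  nth_rewrite 2 [k1]
  simp only [← Finset.sum_add_distrib, ← add_smul, ht, zero_smul, Finset.sum_const_zero]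

/-! ### degrees -/

theorem deg_cr_an (p : ℕ) (b c : Fin N) (u : Fk N A) (hu : Deg p u) : Deg p (cr c (an b u)) := by
  intro S hS
  rw [cr_apply]
  split_ifs with hc
  · rw [an_apply]
    split_ifs with hb
    · rw [mul_zero]
    · rw [hu (insert b (S.erase c)) ?_, mul_zero, mul_zero]
      rw [Finset.card_insert_of_notMem hb, Finset.card_erase_add_one hc]
      exact hS
  · rfl

theorem deg_nab (p : ℕ) (a : Fin N) (u : Fk N A) (hu : Deg p u) : Deg p (nab F a u) := by
  intro S hS
  unfold nab gam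
  rw [Pi.add_apply, hu S hS, map_zero, zero_add, Finset.sum_apply]
  refine Finset.sum_eq_zero fun b _ => ?_
  rw [Finset.sum_apply]
  refine Finset.sum_eq_zero fun c _ => ?_
  rw [Pi.smul_apply, deg_cr_an p b c u hu S hS, smul_zero]

theorem deg_dd (p : ℕ) (u : Fk N A) (hu : Deg p u) : Deg (p + 1) (dd F u) := by
  intro S hS
  unfold dd
  rw [Finset.sum_apply]
  refine Finset.sum_eq_zero fun a _ => ?_
  rw [cr_apply]
  split_ifs with ha
  · rw [deg_nab F p a u hu (S.erase a) ?_, mul_zero]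
    intro h
    apply hS
    rw [← h, Finset.card_erase_add_one ha]
  · rfl

theorem deg_de (p : ℕ) (u : Fk N A) (hu : Deg (p + 1) u) : Deg p (de F u) := by
  intro S hS
  unfold de
  rw [Pi.neg_apply, Finset.sum_apply]
  rw [Finset.sum_eq_zero, neg_zero]
  intro a _
  rw [an_apply]
  split_ifs with ha
  · rfl
  · rw [deg_nab F (p + 1) a u hu (insert a S) ?_, mul_zero]
    rw [Finset.card_insert_of_notMem ha]
    intro h
    exact hS (Nat.succ_injective h)

theorem deg_de_zero (u : Fk N A) (hu : Deg 0 u) : de F u = 0 := by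
  funext S
  unfold de
  rw [Pi.neg_apply, Finset.sum_apply, Pi.zero_apply]
  rw [Finset.sum_eq_zero, neg_zero]
  intro a _
  rw [an_apply]
  split_ifs with ha
  · rfl
  · rw [deg_nab F 0 a u hu (insert a S) ?_, mul_zero]
    rw [Finset.card_insert_of_notMem ha]
    exact Nat.succ_ne_zero _

end Alg

section Geo

variable {M : Type} [TopologicalSpace M] [CompactSpace M] [MeasurableSpace M] [BorelSpace M]
  {N : ℕ} (C : CD M N)

/-! ### horizontality -/

theorem nab_P (b : Fin N) (u : Fk N C.A) : ∑ c, C.P b c • nab C.F c u = nab C.F b u := by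
  simp only [Boch.nab_def, smul_add, Finset.sum_add_distrib]
  congr 1
  · funext S
    simp only [Finset.sum_apply, Pi.smul_apply, smul_eq_mul, Boch.ee]
    exact C.Pe b (u S)
  · unfold gam
    simp only [Finset.smul_sum, smul_smul]
    rw [Finset.sum_comm]
    refine Finset.sum_congr rfl fun x _ => ?_
    rw [Finset.sum_comm]
    refine Finset.sum_congr rfl fun y _ => ?_
    rw [← Finset.sum_smul, C.PG b x y]

theorem hor_nab (a : Fin N) (u : Fk N C.A) (hu : Hor C u) : Hor C (nab C.F a u) := by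
  intro b
  have h1 := congrArg (nab C.F a) (hu b)
  rw [Boch.nab_an, nab_sum] at h1
  simp only [nab_smul, Boch.nab_an, smul_add, Finset.sum_add_distrib, Finset.smul_sum,
    smul_smul] at h1
  have h4 : ∑ d, ∑ f, (C.F.Γ a b f * C.P f d) • an d u = ∑ f, C.F.Γ a b f • an f u := by
    rw [Finset.sum_comm]
    refine Finset.sum_congr rfl fun f _ => ?_
    conv_rhs => rw [hu f, Finset.smul_sum]
    simp only [smul_smul]
  have h5 : ∑ d, ∑ f, (C.F.Γ a d f * C.P b f) • an d u =
      -∑ d, ∑ c, (C.P b d * C.F.Γ a d c) • an c u := by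
    rw [Finset.sum_comm, ← Finset.sum_neg_distrib]
    refine Finset.sum_congr rfl fun f _ => ?_
    rw [← Finset.sum_neg_distrib]
    refine Finset.sum_congr rfl fun d _ => ?_
    rw [C.F.anti a d f, ← neg_smul]
    congr 1
    ring
  have h2 : ∑ d, C.F.e a (C.P b d) • an d u = ∑ c, C.F.Γ a b c • an c u -
      ∑ d, ∑ c, (C.P b d * C.F.Γ a d c) • an c u := by
    have h3 : ∀ d, C.F.e a (C.P b d) • an d u = ∑ f, (C.F.Γ a b f * C.P f d) • an d u +
        ∑ f, (C.F.Γ a d f * C.P b f) • an d u := by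
      intro d
      rw [C.Ppar, Finset.sum_smul, ← Finset.sum_add_distrib]
      exact Finset.sum_congr rfl fun f _ => add_smul _ _ _
    simp only [h3, Finset.sum_add_distrib]
    rw [h4, h5, sub_eq_add_neg]
  rw [h2] at h1
  calc an b (nab C.F a u) = (an b (nab C.F a u) + ∑ c, C.F.Γ a b c • an c u) -
        ∑ c, C.F.Γ a b c • an c u := by abel
    _ = _ := by
      rw [h1]
      abel

theorem hor_dd (u : Fk N C.A) (hu : Hor C u) : Hor C (dd C.F u) := by
  have key : ∀ b, an b (dd C.F u) = nab C.F b u - ∑ a, cr a (an b (nab C.F a u)) := by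
    intro b
    unfold dd
    rw [map_sum]
    simp only [an_cr, Finset.sum_sub_distrib, Finset.sum_ite_eq, Finset.mem_univ, if_true]
  intro b
  rw [key b]
  simp only [key, smul_sub, Finset.sum_sub_distrib]
  rw [nab_P]
  congr 1
  simp only [Finset.smul_sum]
  rw [Finset.sum_comm]
  refine Finset.sum_congr rfl fun a _ => ?_
  rw [hor_nab C a u hu b, map_sum]
  simp only [map_smul]

theorem hor_de (u : Fk N C.A) (hu : Hor C u) : Hor C (de C.F u) := by
  have key : ∀ b, an b (de C.F u) = ∑ a, an a (an b (nab C.F a u)) := by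
    intro b
    unfold de
    rw [map_neg, map_sum, ← Finset.sum_neg_distrib]
    refine Finset.sum_congr rfl fun a _ => ?_
    rw [an_an b a, neg_neg]
  intro b
  rw [key b]
  simp only [key, Finset.smul_sum]
  rw [Finset.sum_comm]
  refine Finset.sum_congr rfl fun a _ => ?_
  rw [hor_nab C a u hu b, map_sum]
  simp only [map_smul]

/-- `P R` -/
def T (a b c d : Fin N) : C.A := ∑ c', C.P c c' * Rm C.F a b c' d

theorem RR_hor (u : Fk N C.A) (hu : Hor C u) (a b : Fin N) :
    Boch.RR C.F a b u = ∑ c, ∑ d, T C a b c d • cr d (an c u) := by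
  unfold Boch.RR
  have h1 : ∀ c d, Rm C.F a b c d • cr d (an c u) =
      ∑ c', (C.P c' c * Rm C.F a b c d) • cr d (an c' u) := by
    intro c d
    conv_lhs => rw [hu c, map_sum, Finset.smul_sum]
    refine Finset.sum_congr rfl fun c' _ => ?_
    rw [map_smul, smul_smul, C.Psymm c' c, mul_comm]
  simp only [h1]
  calc ∑ c, ∑ d, ∑ c', (C.P c' c * Rm C.F a b c d) • cr d (an c' u) =
      ∑ c, ∑ c', ∑ d, (C.P c' c * Rm C.F a b c d) • cr d (an c' u) :=
        Finset.sum_congr rfl fun c _ => Finset.sum_comm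
    _ = ∑ c', ∑ c, ∑ d, (C.P c' c * Rm C.F a b c d) • cr d (an c' u) := Finset.sum_comm
    _ = ∑ c', ∑ d, ∑ c, (C.P c' c * Rm C.F a b c d) • cr d (an c' u) :=
        Finset.sum_congr rfl fun c _ => Finset.sum_comm
    _ = _ := by
        refine Finset.sum_congr rfl fun c' _ => Finset.sum_congr rfl fun d _ => ?_
        unfold T
        rw [Finset.sum_smul]

theorem dd_dd_zero (h : S_RMP) (u : Fk N C.A) (hu : Hor C u) : dd C.F (dd C.F u) = 0 := by
  obtain ⟨r1, -, -, r4⟩ := h M N C
  have hT : ∀ a b c d, T C a b c d = -T C a b d c := by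
    intro a b c d
    unfold T
    rw [r1 a b c d, ← Finset.sum_neg_distrib]
    refine Finset.sum_congr rfl fun d' _ => ?_
    rw [r4 a b c d']
    ring
  apply half
  rw [dd_dd]
  have h1 : ∑ a, ∑ b, cr a (cr b (Boch.RR C.F a b u)) =
      ∑ c, ∑ a, ∑ b, ∑ d, T C a b c d • cr a (cr b (cr d (an c u))) := by
    calc ∑ a, ∑ b, cr a (cr b (Boch.RR C.F a b u)) =
        ∑ a, ∑ b, ∑ c, ∑ d, T C a b c d • cr a (cr b (cr d (an c u))) := by
          refine Finset.sum_congr rfl fun a _ => Finset.sum_congr rfl fun b _ => ?_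
          rw [RR_hor C u hu a b]
          simp only [map_sum, map_smul]
      _ = ∑ a, ∑ c, ∑ b, ∑ d, T C a b c d • cr a (cr b (cr d (an c u))) :=
          Finset.sum_congr rfl fun a _ => Finset.sum_comm
      _ = _ := Finset.sum_comm
  rw [h1]
  refine Finset.sum_eq_zero fun c _ => ?_
  refine cyc (fun a b d => T C a b c d) (fun a b d => ?_) (an c u)
  show T C a b c d + T C b d c a + T C d a c b = 0
  rw [hT a b c d, hT b d c a, hT d a c b]
  have h2 : T C a b d c + T C b d a c + T C d a b c = 0 := C.bianchi a b d c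
  calc -T C a b d c + -T C b d a c + -T C d a b c =
      -(T C a b d c + T C b d a c + T C d a b c) := by ring
    _ = 0 := by rw [h2, neg_zero]

/-! ### integration -/

instance : IsProbabilityMeasure C.μ := C.prob

theorem integ (f : C.A) : Integrable (fun p => C.ev p f) C.μ := by
  obtain ⟨B, hB⟩ := isCompact_univ.exists_bound_of_continuousOn (C.cont f).continuousOn
  exact Integrable.of_bound (C.cont f).aestronglyMeasurable B
    (ae_of_all _ fun p => hB p (Set.mem_univ p))

/-- integration as a linear map -/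
def igL : C.A →ₗ[ℝ] ℝ where
  toFun := ig C
  map_add' f g := by
    unfold ig
    rw [← integral_add (integ C f) (integ C g)]
    simp only [map_add]
  map_smul' c f := by
    unfold ig
    rw [RingHom.id_apply, smul_eq_mul, ← integral_const_mul]
    simp only [map_smul, smul_eq_mul]

theorem igL_int : IsInt C.F (igL C) := fun f => C.div f

theorem ig_add (f g : C.A) : ig C (f + g) = ig C f + ig C g := (igL C).map_add f g

theorem ig_zero : ig C 0 = 0 := (igL C).map_zero

theorem pr_adj (u v : Fk N C.A) : pr C (dd C.F u) v = pr C u (de C.F v) :=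
  Boch.adj N C.A C.F (igL C) (igL_int C) u v

theorem pr_comm (u v : Fk N C.A) : pr C u v = pr C v u := by
  unfold pr
  rw [ip_comm]

theorem pr_add_left (u v w : Fk N C.A) : pr C (u + v) w = pr C u w + pr C v w := by
  unfold pr
  rw [ip_add_left, ig_add]

theorem pr_add_right (u v w : Fk N C.A) : pr C u (v + w) = pr C u v + pr C u w := by
  unfold pr
  rw [ip_add_right, ig_add]

theorem pr_zero_left (u : Fk N C.A) : pr C 0 u = 0 := by
  unfold pr
  rw [ip_zero_left, ig_zero]

theorem pr_DD (u v : Fk N C.A) : pr C (DD C u) v = pr C u (DD C v) := by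
  unfold DD
  have a1 := pr_adj C u v
  have a2 := pr_adj C v u
  have a3 := pr_comm C (de C.F u) v
  have a4 := pr_comm C (dd C.F v) u
  rw [pr_add_left, pr_add_right]
  linarith

theorem nq_zero (u : Fk N C.A) (hu : nq C u = 0) : u = 0 := by
  have hval : ∀ p, C.ev p (ip u u) = ∑ S, C.ev p (u S) ^ 2 := by
    intro p
    unfold ip
    rw [map_sum]
    refine Finset.sum_congr rfl fun S _ => ?_
    rw [map_mul, sq]
  have hnn : ∀ p, 0 ≤ C.ev p (ip u u) := fun p => by
    rw [hval]
    exact Finset.sum_nonneg fun S _ => sq_nonneg _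
  have : C.μ.IsOpenPosMeasure := ⟨fun U hU hne => (C.pos U hU hne).ne'⟩
  have h1 : (fun p => C.ev p (ip u u)) =ᵐ[C.μ] 0 :=
    (integral_eq_zero_iff_of_nonneg hnn (integ C (ip u u))).1 hu
  have h2 : (fun p => C.ev p (ip u u)) = 0 :=
    ((C.cont (ip u u)).ae_eq_iff_eq C.μ continuous_zero).1 h1
  funext S
  apply C.ext_ev
  intro p
  have h3 : ∑ S, C.ev p (u S) ^ 2 = 0 := by
    rw [← hval p]
    exact congrFun h2 p
  have h4 := (Finset.sum_eq_zero_iff_of_nonneg fun S _ => sq_nonneg (C.ev p (u S))).1 h3 S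
    (Finset.mem_univ S)
  rw [Pi.zero_apply, map_zero]
  exact pow_eq_zero_iff (two_ne_zero) |>.1 h4

theorem de_de_zero (h : S_RMP) (u : Fk N C.A) (hu : Hor C u) : de C.F (de C.F u) = 0 := by
  apply nq_zero C
  have h1 : nq C (de C.F (de C.F u)) = pr C (de C.F (de C.F u)) (de C.F (de C.F u)) := rfl
  rw [h1]
  rw [← pr_adj, ← pr_adj, dd_dd_zero C h _ (hor_de C _ (hor_de C u hu)), pr_zero_left]

theorem nq_DD (h : S_RMP) (u : Fk N C.A) (hu : Hor C u) :
    nq C (DD C u) = nq C (dd C.F u) + nq C (de C.F u) := by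
  have h1 : pr C (dd C.F u) (de C.F u) = 0 := by
    rw [← pr_adj, dd_dd_zero C h u hu, pr_zero_left]
  have h2 : nq C (DD C u) = pr C (dd C.F u + de C.F u) (dd C.F u + de C.F u) := rfl
  have h3 : nq C (dd C.F u) = pr C (dd C.F u) (dd C.F u) := rfl
  have h4 : nq C (de C.F u) = pr C (de C.F u) (de C.F u) := rfl
  rw [h2, h3, h4, pr_add_left, pr_add_right, pr_add_right, pr_comm C (de C.F u) (dd C.F u), h1]
  ring

end Geo

end Ddh

theorem s_ddh (h : S_RMP) : S_DDH := by
  intro M _ _ _ _ N C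
  exact ⟨fun a u hu => Ddh.hor_nab C a u hu, fun u hu => Ddh.hor_dd C u hu,
    fun u hu => Ddh.hor_de C u hu, fun p a u hu => Ddh.deg_nab C.F p a u hu,
    fun p u hu => Ddh.deg_dd C.F p u hu, fun p u hu => Ddh.deg_de C.F p u hu,
    fun u hu => Ddh.deg_de_zero C.F u hu, fun u hu => Ddh.dd_dd_zero C h u hu,
    fun u hu => Ddh.de_de_zero C h u hu, Ddh.pr_adj C, Ddh.pr_DD C,
    fun u hu => Ddh.nq_DD C h u hu, fun u hu => Ddh.nq_zero C u hu⟩

end Pool.Agent.H781.CM
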