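import Pool.Agent.H781.CM.Base

/-!
At most `2 ^ N` small eigenvalues.
-/

set_option autoImplicit false
set_option synthInstance.maxHeartbeats 400000
set_option maxHeartbeats 4000000

open MeasureTheory Filter
open scoped Topology ContDiff

noncomputable section

namespace Pool.Agent.H781.CM

open Pool.Agent.H781.NG

namespace Dim

/-- almost orthonormal vectors are linearly independent -/
theorem lin_indep {N L : ℕ} (a : Fin L → Fk N ℝ) {θ : ℝ} (hθ : θ < 1)
    (h : ∀ j, ∑ i, |ip (a i) (a j) - if i = j then 1 else 0| ≤ θ) : LinearIndependent ℝ a := by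
  rw [Fintype.linearIndependent_iff]
  intro g hg
  by_contra hne
  push Not at hne
  obtain ⟨i₀, hi₀⟩ := hne
  obtain ⟨j, -, hj⟩ := Finset.exists_max_image Finset.univ (fun i => |g i|) ⟨i₀, Finset.mem_univ _⟩
  have hj0 : 0 < |g j| := (abs_pos.2 hi₀).trans_le (hj i₀ (Finset.mem_univ _))
  have h1 : ∑ i, g i * ip (a i) (a j) = 0 := by
    have h2 : ip (∑ i, g i • a i) (a j) = 0 := by rw [hg, ip_zero_left]
    rw [ip_sum_left] at h2
    simpa only [ip_smul_left] using h2
  have h3 : ∑ i, g i * (ip (a i) (a j) - if i = j then 1 else 0) = - g j := by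
    simp only [mul_sub, Finset.sum_sub_distrib, h1, mul_ite, mul_one, mul_zero,
      Finset.sum_ite_eq', Finset.mem_univ, if_true, zero_sub]
  have h4 : |g j| ≤ |g j| * θ := by
    calc |g j| = |∑ i, g i * (ip (a i) (a j) - if i = j then 1 else 0)| := by rw [h3, abs_neg]
      _ ≤ ∑ i, |g i * (ip (a i) (a j) - if i = j then 1 else 0)| := Finset.abs_sum_le_sum_abs _ _
      _ ≤ ∑ i, |g j| * |ip (a i) (a j) - if i = j then 1 else 0| := by
          refine Finset.sum_le_sum fun i _ => ?_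
          rw [abs_mul]
          exact mul_le_mul_of_nonneg_right (hj i (Finset.mem_univ _)) (abs_nonneg _)
      _ = |g j| * ∑ i, |ip (a i) (a j) - if i = j then 1 else 0| := by rw [Finset.mul_sum]
      _ ≤ |g j| * θ := mul_le_mul_of_nonneg_left (h j) (abs_nonneg _)
  nlinarith

section

variable {M : Type} [TopologicalSpace M] [CompactSpace M] [MeasurableSpace M] [BorelSpace M]
  {N : ℕ} (C : CD M N)

/-- orthonormal vectors in a finite dimensional space of forms -/
theorem exists_orth (E : Submodule ℝ (Fk N C.A)) : ∃ u : Fin (Module.finrank ℝ E) → Fk N C.A,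
    (∀ i, u i ∈ E) ∧ (∀ i, nq C (u i) = 1) ∧ ∀ i j, i ≠ j → pr C (u i) (u j) = 0 := by
  by_cases hfin : Module.Finite ℝ E
  · let B : LinearMap.BilinForm ℝ E := (prL C).domRestrict₁₂ E E
    have hB : LinearMap.IsSymm B := ⟨fun x y => pr_comm C x y⟩
    let : Invertible (2 : ℝ) := invertibleOfNonzero two_ne_zero
    obtain ⟨v, hv⟩ := LinearMap.BilinForm.exists_orthogonal_basis hB
    have hne : ∀ i, 0 < nq C (v i : Fk N C.A) := by
      intro i
      refine lt_of_le_of_ne (nq_nonneg C _) fun h0 => ?_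
      have h1 := nq_eq_zero C h0.symm
      exact v.ne_zero i (Subtype.ext h1)
    refine ⟨fun i => (√(nq C (v i : Fk N C.A)))⁻¹ • (v i : Fk N C.A), fun i => ?_, fun i => ?_,
      fun i j hij => ?_⟩
    · exact E.smul_mem _ (v i).2
    · rw [nq_smul, inv_pow, Real.sq_sqrt (hne i).le, inv_mul_cancel₀ (hne i).ne']
    · have h1 : pr C (v i : Fk N C.A) (v j : Fk N C.A) = 0 := hv hij
      rw [pr_smul_left, pr_smul_right, h1, mul_zero, mul_zero]
  · have h0 : Module.finrank ℝ E = 0 := Module.finrank_of_not_finite hfin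
    refine ⟨fun i => 0, fun i => E.zero_mem, fun i => ?_, fun i => ?_⟩
    · exact absurd i.2 (by omega)
    · exact absurd i.2 (by omega)

end

end Dim

theorem s_dim (h1 : S_SPEC) (h2 : S_ENER) (h3 : S_GRAM) : S_DIM := by
  intro N K hK
  set L : ℕ := 2 ^ N + 1 with hL
  have hLpos : (0 : ℝ) < L := by rw [hL]; positivity
  have hL1 : (1 : ℝ) ≤ L := by rw [hL]; push_cast; have : (0 : ℝ) ≤ 2 ^ N := by positivity
                               linarith
  set δ : ℝ := (8 * (L : ℝ) ^ 2) ⁻¹ ^ 2 / (K + 1) with hδ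
  have hδpos : 0 < δ := by rw [hδ]; positivity
  have hKδ : √(K * δ) ≤ (8 * (L : ℝ) ^ 2)⁻¹ := by
    rw [Real.sqrt_le_left (by positivity)]
    rw [hδ, ← mul_div_assoc, div_le_iff₀ (by positivity)]
    have : 0 ≤ (8 * (L : ℝ) ^ 2)⁻¹ ^ 2 := by positivity
    nlinarith
  refine ⟨δ, hδpos, ?_⟩
  intro M _ _ _ _ C ε t hε hC hM hD hR hP ht htδ
  by_contra hlt
  rw [not_le] at hlt
  have hLf : L ≤ Module.finrank ℝ (Ev C t) := hlt
  obtain ⟨u₀, hu1, hu2, hu3⟩ := Dim.exists_orth C (Ev C t)
  set u : Fin L → Fk N C.A := fun i => u₀ (Fin.castLE hLf i) with hu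
  have hspec := h1 M N C hM hD hR t ht
  set τ : ℝ := t + ε * N ^ 2 with hτ
  have hτ0 : 0 ≤ τ := by rw [hτ]; positivity
  have hen : ∀ i, en C (u i) ≤ τ := by
    intro i
    obtain ⟨hH, -, hq⟩ := hspec.2.1 (u i) (hu1 _)
    have h4 := (h2 M N C).2 ε hε hC (u i) hH
    have h5 : nq C (u i) = 1 := hu2 _
    rw [h5] at h4 hq
    linarith
  obtain ⟨hG1, hG2⟩ := h3 M N C K τ hK hτ0 hP
  have hKτ : 4 * √(K * τ) ≤ (2 * (L : ℝ) ^ 2)⁻¹ := by
    have h6 : √(K * τ) ≤ √(K * δ) :=
      Real.sqrt_le_sqrt (mul_le_mul_of_nonneg_left htδ hK)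
    have h7 : 4 * (8 * (L : ℝ) ^ 2)⁻¹ = (2 * (L : ℝ) ^ 2)⁻¹ := by
      field_simp
      norm_num
    linarith
  -- the entries of the Gram matrix
  set G : Fin L → Fin L → M → ℝ := fun i j p => |C.ev p (ip (u i) (u j)) - if i = j then 1 else 0|
    with hGdef
  have hGc : ∀ i j, Continuous (G i j) := fun i j =>
    ((C.cont (ip (u i) (u j))).sub continuous_const).abs
  have hGi : ∀ i j, ∫ p, G i j p ∂C.μ ≤ (2 * (L : ℝ) ^ 2)⁻¹ := by
    intro i j
    by_cases hij : i = j
    · subst hij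
      have h8 := hG1 (u i) (hu2 _) (hen i)
      simp only [hGdef, if_true]
      exact h8.trans hKτ
    · have hne : Fin.castLE hLf i ≠ Fin.castLE hLf j := by
        intro hc
        exact hij (Fin.castLE_injective hLf hc)
      have h8 := hG2 (u i) (u j) (hu2 _) (hu2 _) (hu3 _ _ hne) (hen i) (hen j)
      simp only [hGdef, if_neg hij, sub_zero]
      exact h8.trans hKτ
  have hsum : ∫ p, ∑ j, ∑ i, G i j p ∂C.μ ≤ 1 / 2 := by
    rw [integral_finsetSum _ (fun j _ => int_cont C (continuous_finsetSum _ fun i _ => hGc i j))]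
    calc ∑ j, ∫ p, ∑ i, G i j p ∂C.μ = ∑ j, ∑ i, ∫ p, G i j p ∂C.μ := by
          refine Finset.sum_congr rfl fun j _ => ?_
          rw [integral_finsetSum _ (fun i _ => int_cont C (hGc i j))]
      _ ≤ ∑ j : Fin L, ∑ i : Fin L, (2 * (L : ℝ) ^ 2)⁻¹ :=
          Finset.sum_le_sum fun j _ => Finset.sum_le_sum fun i _ => hGi i j
      _ = 1 / 2 := by
          simp only [Finset.sum_const, Finset.card_univ, Fintype.card_fin, nsmul_eq_mul]
          field_simp
  obtain ⟨q, hq⟩ := exists_le_integral (μ := C.μ) (f := fun p => ∑ j, ∑ i, G i j p)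
    (int_cont C (continuous_finsetSum _ fun j _ => continuous_finsetSum _ fun i _ => hGc i j))
  have hq2 : ∑ j, ∑ i, G i j q ≤ 1 / 2 := hq.trans hsum
  have hli : LinearIndependent ℝ (fun i => evF C q (u i)) := by
    refine Dim.lin_indep _ (θ := 1 / 2) (by norm_num) fun j => ?_
    have h9 : ∑ i, G i j q ≤ ∑ j, ∑ i, G i j q :=
      Finset.single_le_sum (f := fun j => ∑ i, G i j q)
        (fun j _ => Finset.sum_nonneg fun i _ => abs_nonneg _) (Finset.mem_univ j)
    refine le_trans (le_of_eq ?_) (h9.trans hq2)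
    refine Finset.sum_congr rfl fun i _ => ?_
    simp only [hGdef]
    rw [ev_ip]
  have hcard := hli.fintype_card_le_finrank
  rw [Fintype.card_fin, Module.finrank_fintype_fun_eq_card, Fintype.card_finset,
    Fintype.card_fin] at hcard
  omega

end Pool.Agent.H781.CM
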