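import Pool.Agent.H781.CM.Spec
import Pool.Agent.H781.CM.Bo

/-!
Basic lemmas on integrals of smooth functions and `L²` products.
-/

set_option autoImplicit false
set_option synthInstance.maxHeartbeats 400000
set_option maxHeartbeats 4000000
set_option linter.unusedSectionVars false

open MeasureTheory Filter
open scoped Topology ContDiff

noncomputable section

namespace Pool.Agent.H781.CM

open Pool.Agent.H781.NG

variable {M : Type} [TopologicalSpace M] [CompactSpace M] [MeasurableSpace M] [BorelSpace M]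
  {N : ℕ} (C : CD M N)

instance instProb : IsProbabilityMeasure C.μ := C.prob

theorem ev_smul (p : M) (c : ℝ) (f : C.A) : C.ev p (c • f) = c * C.ev p f := by
  rw [map_smul, smul_eq_mul]

theorem ev_sum {κ : Type*} (p : M) (s : Finset κ) (f : κ → C.A) :
    C.ev p (∑ i ∈ s, f i) = ∑ i ∈ s, C.ev p (f i) := map_sum _ _ _

theorem ev_cs (p : M) (c : ℝ) : C.ev p (cs C c) = c := by
  unfold cs
  rw [AlgHom.commutes]
  rfl

theorem ev_int (p : M) (z : ℤ) : C.ev p (z : C.A) = z := map_intCast _ _

/-- smooth functions are bounded -/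
theorem bdd (f : C.A) : ∃ K : ℝ, 0 ≤ K ∧ ∀ p, |C.ev p f| ≤ K := by
  obtain ⟨K, hK⟩ := (isCompact_range (C.cont f)).isBounded.exists_norm_le
  exact ⟨max K 0, le_max_right _ _, fun p => by
    have := hK _ ⟨p, rfl⟩
    rw [Real.norm_eq_abs] at this
    exact this.trans (le_max_left _ _)⟩

theorem int_cont {f : M → ℝ} (h : Continuous f) : Integrable f C.μ := by
  obtain ⟨K, hK⟩ := (isCompact_range h).isBounded.exists_norm_le
  exact Integrable.of_bound h.measurable.aestronglyMeasurable K
    (Filter.Eventually.of_forall fun p => hK _ ⟨p, rfl⟩)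

theorem int_ev (f : C.A) : Integrable (fun p => C.ev p f) C.μ := int_cont C (C.cont f)

theorem memLp_ev (f : C.A) : MemLp (fun p => C.ev p f) 2 C.μ := by
  obtain ⟨K, _, hK⟩ := bdd C f
  exact MemLp.of_bound (C.cont f).measurable.aestronglyMeasurable K
    (Filter.Eventually.of_forall fun p => by rw [Real.norm_eq_abs]; exact hK p)

theorem ig_add (f g : C.A) : ig C (f + g) = ig C f + ig C g := by
  unfold ig
  simp only [map_add]
  exact integral_add (int_ev C f) (int_ev C g)

theorem ig_smul (c : ℝ) (f : C.A) : ig C (c • f) = c * ig C f := by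
  unfold ig
  simp only [ev_smul]
  exact integral_const_mul _ _

/-- integration as a linear map -/
def igL : C.A →ₗ[ℝ] ℝ where
  toFun := ig C
  map_add' := ig_add C
  map_smul' c f := by rw [ig_smul]; rfl

theorem igL_apply (f : C.A) : igL C f = ig C f := rfl

theorem ig_zero : ig C 0 = 0 := map_zero (igL C)

theorem ig_neg (f : C.A) : ig C (-f) = - ig C f := map_neg (igL C) f

theorem ig_sub (f g : C.A) : ig C (f - g) = ig C f - ig C g := map_sub (igL C) f g

theorem ig_sum {κ : Type*} (s : Finset κ) (f : κ → C.A) :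
    ig C (∑ i ∈ s, f i) = ∑ i ∈ s, ig C (f i) := map_sum (igL C) f s

theorem ig_mono {f g : C.A} (h : ∀ p, C.ev p f ≤ C.ev p g) : ig C f ≤ ig C g :=
  integral_mono (int_ev C f) (int_ev C g) h

theorem ig_nonneg {f : C.A} (h : ∀ p, 0 ≤ C.ev p f) : 0 ≤ ig C f := integral_nonneg h

theorem ig_cs (c : ℝ) : ig C (cs C c) = c := by
  unfold ig
  simp only [ev_cs]
  simp

theorem ig_one : ig C 1 = 1 := by
  unfold ig
  simp

/-- a nonnegative function with vanishing integral is zero -/
theorem ig_eq_zero {f : C.A} (h : ∀ p, 0 ≤ C.ev p f) (h0 : ig C f = 0) : f = 0 := by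
  refine C.ext_ev _ _ fun p => ?_
  rw [map_zero]
  by_contra hne
  have hp : 0 < C.ev p f := lt_of_le_of_ne (h p) (Ne.symm hne)
  have hU : IsOpen {q | C.ev p f / 2 < C.ev q f} := isOpen_lt continuous_const (C.cont f)
  have hμ := C.pos _ hU ⟨p, by simp only [Set.mem_setOf_eq]; linarith⟩
  have := (integral_eq_zero_iff_of_nonneg (fun q => h q) (int_ev C f)).1 h0
  have h2 : C.μ {q | C.ev p f / 2 < C.ev q f} = 0 := by
    have h4 : C.μ {q | ¬ C.ev q f = (0 : M → ℝ) q} = 0 := this
    refine measure_mono_null (fun q hq => ?_) h4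
    simp only [Set.mem_setOf_eq, Pi.zero_apply] at hq ⊢
    linarith
  exact absurd h2 hμ.ne'

/-- the divergence theorem -/
theorem isInt : IsInt C.F (igL C) := fun f => C.div f

/-- pointwise values of forms -/
def evF (p : M) (u : Fk N C.A) : Fk N ℝ := fun S => C.ev p (u S)

theorem evF_add (p : M) (u v : Fk N C.A) : evF C p (u + v) = evF C p u + evF C p v := by
  funext S
  simp [evF]

theorem evF_smul (p : M) (a : C.A) (u : Fk N C.A) : evF C p (a • u) = C.ev p a • evF C p u := by
  funext S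
  simp [evF]

theorem evF_smulR (p : M) (c : ℝ) (u : Fk N C.A) : evF C p (c • u) = c • evF C p u := by
  funext S
  simp [evF, ev_smul]

theorem evF_neg (p : M) (u : Fk N C.A) : evF C p (-u) = - evF C p u := by
  funext S
  simp [evF]

theorem evF_sub (p : M) (u v : Fk N C.A) : evF C p (u - v) = evF C p u - evF C p v := by
  funext S
  simp [evF]

theorem evF_zero (p : M) : evF C p 0 = 0 := by
  funext S
  simp [evF]

theorem evF_sum {κ : Type*} (p : M) (s : Finset κ) (u : κ → Fk N C.A) :
    evF C p (∑ i ∈ s, u i) = ∑ i ∈ s, evF C p (u i) := by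
  funext S
  simp [evF, Finset.sum_apply]

theorem evF_an (p : M) (i : Fin N) (u : Fk N C.A) : evF C p (an i u) = an i (evF C p u) := by
  funext S
  simp only [evF, an_apply]
  split_ifs
  · exact map_zero _
  · rw [map_mul, map_intCast]

theorem evF_cr (p : M) (i : Fin N) (u : Fk N C.A) : evF C p (cr i u) = cr i (evF C p u) := by
  funext S
  simp only [evF, cr_apply]
  split_ifs
  · rw [map_mul, map_intCast]
  · exact map_zero _

theorem evF_vac (p : M) : evF C p vac = vac := by
  funext S
  simp only [evF, vac]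
  split_ifs
  · exact map_one _
  · exact map_zero _

theorem evF_mulF (p : M) (u v : Fk N C.A) :
    evF C p (mulF u v) = mulF (evF C p u) (evF C p v) := by
  funext S
  simp only [evF, mulF, map_sum, map_mul, map_intCast]

theorem ev_ip (p : M) (u v : Fk N C.A) : C.ev p (ip u v) = ip (evF C p u) (evF C p v) := by
  simp only [evF, ip, map_sum, map_mul]

theorem ip_self_nonneg (v : Fk N ℝ) : 0 ≤ ip v v :=
  Finset.sum_nonneg fun S _ => mul_self_nonneg (v S)

theorem ip_self_eq_zero {v : Fk N ℝ} (h : ip v v = 0) : v = 0 := by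
  funext S
  have := (Finset.sum_eq_zero_iff_of_nonneg (fun S _ => mul_self_nonneg (v S))).1 h S
    (Finset.mem_univ S)
  exact mul_self_eq_zero.1 this

/-- pointwise Cauchy-Schwarz inequality -/
theorem ip_sq_le (u v : Fk N ℝ) : ip u v ^ 2 ≤ ip u u * ip v v := by
  unfold ip
  have := Finset.sum_mul_sq_le_sq_mul_sq Finset.univ u v
  simpa only [pow_two] using this

/-- `|cr_i v|² + |an_i v|² = |v|²` -/
theorem ip_cr_an {A : Type*} [CommRing A] (i : Fin N) (v : Fk N A) :
    ip (cr i v) (cr i v) + ip (an i v) (an i v) = ip v v := by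
  rw [ip_cr, ip_an, ← ip_add_right, car_self]

theorem pr_comm (u v : Fk N C.A) : pr C u v = pr C v u := by
  unfold pr
  rw [ip_comm]

theorem pr_add_left (u v w : Fk N C.A) : pr C (u + v) w = pr C u w + pr C v w := by
  unfold pr
  rw [ip_add_left, ig_add]

theorem pr_smul_left (c : ℝ) (u v : Fk N C.A) : pr C (c • u) v = c * pr C u v := by
  unfold pr
  rw [ip_smulR, ig_smul]

/-- the `L²` product as a bilinear map -/
def prL : Fk N C.A →ₗ[ℝ] Fk N C.A →ₗ[ℝ] ℝ :=
  LinearMap.mk₂ ℝ (pr C) (pr_add_left C) (fun c u v => pr_smul_left C c u v)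
    (fun u v w => by rw [pr_comm, pr_add_left, pr_comm C v, pr_comm C w])
    (fun c u v => by rw [pr_comm, pr_smul_left, pr_comm C v]; rfl)

theorem prL_apply (u v : Fk N C.A) : prL C u v = pr C u v := rfl

theorem pr_add_right (u v w : Fk N C.A) : pr C u (v + w) = pr C u v + pr C u w :=
  map_add (prL C u) v w

theorem pr_smul_right (c : ℝ) (u v : Fk N C.A) : pr C u (c • v) = c * pr C u v :=
  map_smul (prL C u) c v

theorem pr_sub_right (u v w : Fk N C.A) : pr C u (v - w) = pr C u v - pr C u w :=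
  map_sub (prL C u) v w

theorem pr_sub_left (u v w : Fk N C.A) : pr C (u - v) w = pr C u w - pr C v w := by
  rw [pr_comm, pr_sub_right, pr_comm C w, pr_comm C w]

theorem pr_neg_right (u v : Fk N C.A) : pr C u (-v) = - pr C u v := map_neg (prL C u) v

theorem pr_neg_left (u v : Fk N C.A) : pr C (-u) v = - pr C u v := by
  rw [pr_comm, pr_neg_right, pr_comm]

theorem pr_zero_left (v : Fk N C.A) : pr C 0 v = 0 := by
  rw [pr_comm]; exact map_zero (prL C v)

theorem pr_zero_right (v : Fk N C.A) : pr C v 0 = 0 := map_zero (prL C v)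

theorem pr_self (u : Fk N C.A) : pr C u u = nq C u := rfl

theorem nq_nonneg (u : Fk N C.A) : 0 ≤ nq C u :=
  ig_nonneg C fun p => by rw [ev_ip]; exact ip_self_nonneg _

theorem nq_eq (u : Fk N C.A) : nq C u = ∑ S, ig C (u S ^ 2) := by
  unfold nq ip
  rw [ig_sum]
  simp only [pow_two]

theorem nq_eq_zero {u : Fk N C.A} (h : nq C u = 0) : u = 0 := by
  have h1 := ig_eq_zero C (f := ip u u) (fun p => by rw [ev_ip]; exact ip_self_nonneg _) h
  funext S
  refine C.ext_ev _ _ fun p => ?_
  have h2 : ip (evF C p u) (evF C p u) = 0 := by rw [← ev_ip, h1, map_zero]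
  have := congrFun (ip_self_eq_zero h2) S
  simpa [evF] using this

theorem nq_smul (c : ℝ) (u : Fk N C.A) : nq C (c • u) = c ^ 2 * nq C u := by
  rw [← pr_self, pr_smul_left, pr_smul_right, pr_self]
  ring

theorem nq_neg (u : Fk N C.A) : nq C (-u) = nq C u := by
  rw [← pr_self, pr_neg_left, pr_neg_right, neg_neg, pr_self]

theorem nq_add (u v : Fk N C.A) : nq C (u + v) = nq C u + 2 * pr C u v + nq C v := by
  rw [← pr_self, pr_add_left, pr_add_right, pr_add_right, pr_comm C v u, pr_self, pr_self]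
  ring

theorem nq_sub (u v : Fk N C.A) : nq C (u - v) = nq C u - 2 * pr C u v + nq C v := by
  rw [sub_eq_add_neg, nq_add, pr_neg_right, nq_neg]
  ring

theorem nq_add_le (u v : Fk N C.A) : nq C (u + v) ≤ 2 * nq C u + 2 * nq C v := by
  have := nq_nonneg C (u - v)
  rw [nq_sub] at this
  rw [nq_add]
  linarith

theorem nq_sub_le (u v : Fk N C.A) : nq C (u - v) ≤ 2 * nq C u + 2 * nq C v := by
  rw [sub_eq_add_neg, ← nq_neg C v]
  exact nq_add_le C u (-v)

/-- Cauchy-Schwarz inequality -/
theorem pr_sq_le (u v : Fk N C.A) : pr C u v ^ 2 ≤ nq C u * nq C v := by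
  have h : ∀ t : ℝ, 0 ≤ nq C u * (t * t) + 2 * pr C u v * t + nq C v := fun t => by
    have := nq_nonneg C (t • u + v)
    rw [nq_add, nq_smul, pr_smul_left] at this
    linarith
  have := discrim_le_zero h
  unfold discrim at this
  nlinarith

theorem nq_sum_le {κ : Type*} (s : Finset κ) (u : κ → Fk N C.A) :
    nq C (∑ i ∈ s, u i) ≤ s.card * ∑ i ∈ s, nq C (u i) := by
  classical
  unfold nq
  rw [← ig_sum, ← nsmul_eq_mul, ← Nat.cast_smul_eq_nsmul ℝ, smul_eq_mul, ← ig_smul]
  refine ig_mono C fun p => ?_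
  rw [ev_smul, ev_sum, ev_ip, evF_sum]
  unfold ip
  simp only [Finset.sum_apply]
  calc ∑ S, (∑ i ∈ s, evF C p (u i) S) * (∑ i ∈ s, evF C p (u i) S)
      ≤ ∑ S, (s.card : ℝ) * ∑ i ∈ s, evF C p (u i) S ^ 2 :=
        Finset.sum_le_sum fun S _ => by
          rw [← pow_two]; exact sq_sum_le_card_mul_sum_sq
    _ = (s.card : ℝ) * ∑ i ∈ s, C.ev p (∑ S, u i S * u i S) := by
        rw [← Finset.mul_sum, Finset.sum_comm]
        congr 1
        refine Finset.sum_congr rfl fun i _ => ?_
        rw [ev_sum]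
        refine Finset.sum_congr rfl fun S _ => ?_
        rw [map_mul, pow_two]
        rfl

theorem nq_smulA_le {a : C.A} {K : ℝ} (ha : ∀ p, C.ev p a ^ 2 ≤ K) (u : Fk N C.A) :
    nq C (a • u) ≤ K * nq C u := by
  unfold nq
  rw [← ig_smul]
  refine ig_mono C fun p => ?_
  rw [ev_smul, ev_ip, ev_ip, evF_smul, ip_smul_left, ip_smul_right, ← mul_assoc, ← pow_two]
  exact mul_le_mul_of_nonneg_right (ha p) (ip_self_nonneg _)

theorem nq_cr_add_an (i : Fin N) (u : Fk N C.A) : nq C (cr i u) + nq C (an i u) = nq C u := by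
  unfold nq
  rw [← ig_add, ip_cr_an]

theorem nq_cr_le (i : Fin N) (u : Fk N C.A) : nq C (cr i u) ≤ nq C u := by
  have := nq_cr_add_an C i u
  have := nq_nonneg C (an i u)
  linarith

theorem nq_an_le (i : Fin N) (u : Fk N C.A) : nq C (an i u) ≤ nq C u := by
  have := nq_cr_add_an C i u
  have := nq_nonneg C (cr i u)
  linarith

theorem ip_cr_sub_an {A : Type*} [CommRing A] (i : Fin N) (v : Fk N A) :
    ip (cr i v - an i v) (cr i v - an i v) = ip v v := by
  have h1 : ip (cr i v) (an i v) = 0 := by rw [ip_cr, an_an_self, ip_zero_right]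
  rw [ip_sub_left, ip_sub_right, ip_sub_right, h1, ip_comm (an i v) (cr i v), h1, zero_sub,
    sub_neg_eq_add, sub_zero, ip_cr_an]

theorem DD_eq (u : Fk N C.A) : DD C u = ∑ a, (cr a (nab C.F a u) - an a (nab C.F a u)) := by
  unfold DD dd de
  rw [Finset.sum_sub_distrib, sub_eq_add_neg]

/-- the operator `d + δ` as a linear map -/
def DDL : Fk N C.A →ₗ[ℝ] Fk N C.A := ddL C.F + deL C.F

theorem DDL_apply (u : Fk N C.A) : DDL C u = DD C u := rfl

theorem en_nonneg (u : Fk N C.A) : 0 ≤ en C u :=
  Finset.sum_nonneg fun a _ => nq_nonneg C _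

/-- integrated Bochner formula -/
theorem bochner (u : Fk N C.A) :
    nq C (dd C.F u) + nq C (de C.F u) = en C u + ig C (ric C.F u) := by
  have h := Boch.bochner N C.A C.F (igL C) (isInt C) u
  rw [map_sum] at h
  exact h

end Pool.Agent.H781.CM
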