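import Pool.Agent.H781.CM.Spec
import Pool.Agent.H781.CM.Bo
import Pool.Agent.H781.CM.Base

/-!
Energy and Dirac operator.
-/

set_option autoImplicit false
set_option synthInstance.maxHeartbeats 400000
set_option maxHeartbeats 4000000
set_option linter.unusedSectionVars false

open MeasureTheory Filter
open scoped Topology ContDiff

noncomputable section

namespace Pool.Agent.H781.CM

open Pool.Agent.H781.NG

namespace Ener

variable {M : Type} [TopologicalSpace M] [CompactSpace M] [MeasurableSpace M] [BorelSpace M]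
  {N : ℕ} (C : CD M N)

theorem nq_cr_sub_an (i : Fin N) (u : Fk N C.A) : nq C (cr i u - an i u) = nq C u := by
  unfold nq
  rw [ip_cr_sub_an]

theorem dirac_le (u : Fk N C.A) : nq C (DD C u) ≤ N * en C u := by
  rw [DD_eq]
  refine (nq_sum_le C Finset.univ _).trans ?_
  rw [Finset.card_univ, Fintype.card_fin]
  unfold en
  simp only [nq_cr_sub_an]
  exact le_refl _

theorem ric_ge {ε : ℝ} {u : Fk N C.A}
    (h : ∀ p, - (ε * N ^ 2) * C.ev p (ip u u) ≤ C.ev p (ric C.F u)) :
    - (ε * N ^ 2) * nq C u ≤ ig C (ric C.F u) := by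
  unfold nq
  rw [← ig_smul]
  refine ig_mono C fun p => ?_
  rw [ev_smul]
  exact h p

end Ener

theorem s_ener (h : S_RICH) (h2 : S_DDH) : S_ENER := by
  intro M _ _ _ _ N C
  refine ⟨Ener.dirac_le C, fun ε hε hC u hu => ?_⟩
  have h3 := Ener.ric_ge C (h M N C ε hε hC u hu)
  have h4 := bochner C u
  have h5 := (h2 M N C).2.2.2.2.2.2.2.2.2.2.2.1 u hu
  linarith

end Pool.Agent.H781.CM
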