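import Pool.Agent.H781.CM.Spec

/-!
The final abstract theorem: pigeonhole over the scales of the spectrum, and the uniform version.
-/

set_option autoImplicit false
set_option synthInstance.maxHeartbeats 400000
set_option maxHeartbeats 4000000
set_option linter.unusedSectionVars false

open MeasureTheory Filter
open scoped Topology ContDiff

noncomputable section

namespace Pool.Agent.H781.CM

open Pool.Agent.H781.NG

namespace Fin

/-- pigeonhole for a monotone bounded sequence -/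
theorem pigeon (m : ℕ) (f : ℕ → ℕ) (hmono : ∀ j, j ≤ m → f j ≤ f (j + 1)) (hb : f (m + 1) ≤ m) :
    ∃ j, j ≤ m ∧ f j = f (j + 1) := by
  by_contra hcon
  push Not at hcon
  have h : ∀ j, j ≤ m + 1 → j ≤ f j := by
    intro j
    induction j with
    | zero => intro _; exact Nat.zero_le _
    | succ j ih =>
      intro hj
      have h1 := ih (by omega)
      have h2 := hmono j (by omega)
      have h3 := hcon j (by omega)
      omega
  have := h (m + 1) le_rfl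
  omega

section

variable {M : Type} [TopologicalSpace M] [CompactSpace M] [MeasurableSpace M] [BorelSpace M]
  {N : ℕ} (C : CD M N)

theorem Ev_mono {s t : ℝ} (h : s ≤ t) : Ev C s ≤ Ev C t := by
  unfold Ev
  apply Submodule.span_mono
  rintro u ⟨hu, l, hl0, hl, e⟩
  exact ⟨hu, l, hl0, hl.trans h, e⟩

/-- the homogeneous parts are independent -/
theorem sum_finrank (t : ℝ) [Module.Finite ℝ (Ev C t)] :
    ∑ p : Fin (N + 1), Module.finrank ℝ (Evp C t p) ≤ Module.finrank ℝ (Ev C t) := by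
  have hfin : ∀ p : Fin (N + 1), Module.Finite ℝ (Evp C t p) := fun p =>
    Submodule.finiteDimensional_of_le (inf_le_left : Evp C t p ≤ Ev C t)
  rw [← Module.finrank_pi_fintype ℝ]
  let φ : (∀ p : Fin (N + 1), Evp C t p) →ₗ[ℝ] Ev C t :=
    { toFun := fun u => ∑ p, (⟨(u p : Fk N C.A), (Submodule.mem_inf.1 (u p).2).1⟩ : Ev C t)
      map_add' := fun u v => by
        rw [← Finset.sum_add_distrib]
        refine Finset.sum_congr rfl fun p _ => ?_
        apply Subtype.ext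
        rfl
      map_smul' := fun c u => by
        rw [RingHom.id_apply, Finset.smul_sum]
        refine Finset.sum_congr rfl fun p _ => ?_
        apply Subtype.ext
        rfl }
  have hφ : ∀ u, ((φ u : Ev C t) : Fk N C.A) = ∑ p, (u p : Fk N C.A) := by
    intro u
    show ((∑ p, (⟨(u p : Fk N C.A), (Submodule.mem_inf.1 (u p).2).1⟩ : Ev C t) : Ev C t) :
      Fk N C.A) = _
    rw [AddSubmonoidClass.coe_finsetSum]
  apply LinearMap.finrank_le_finrank_of_injective (f := φ)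
  rw [← LinearMap.ker_eq_bot, LinearMap.ker_eq_bot']
  intro u hu
  have h0 : ∑ p, (u p : Fk N C.A) = 0 := by
    rw [← hφ, hu]
    rfl
  funext p
  apply Subtype.ext
  funext S
  show (u p : Fk N C.A) S = 0
  by_cases hS : S.card = p
  · have h1 := congrFun h0 S
    rw [Finset.sum_apply, Pi.zero_apply] at h1
    rw [Finset.sum_eq_single p] at h1
    · exact h1
    · intro q _ hq
      have h2 : Deg (q : ℕ) (u q : Fk N C.A) := (Submodule.mem_inf.1 (u q).2).2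
      exact h2 S (fun hc => hq (Fin.ext (hc.symm.trans hS)))
    · intro hp
      exact absurd (Finset.mem_univ p) hp
  · have h2 : Deg (p : ℕ) (u p : Fk N C.A) := (Submodule.mem_inf.1 (u p).2).2
    exact h2 S hS

end

end Fin

theorem s_fin (h1 : S_APP) (h2 : S_DIM) (h3 : S_POIN) (h4 : S_HODGE) (h5 : S_SPEC) (_h6 : S_DDH) :
    S_FIN := by
  intro N hN η hη
  have hNr : (0 : ℝ) < N := by exact_mod_cast hN
  have hL : 0 < Real.log 2 := Real.log_pos (by norm_num)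
  obtain ⟨K, hK⟩ : ∃ K : ℝ, K = 32 * N / Real.log 2 ^ 2 := ⟨_, rfl⟩
  have hK0 : 0 ≤ K := by rw [hK]; positivity
  obtain ⟨δ₁, hδ₁, H1⟩ := h1 N hN η K hη hK0
  obtain ⟨δ₂, hδ₂, H2⟩ := h2 N K hK0
  obtain ⟨δ, hδ⟩ : ∃ δ : ℝ, δ = min δ₁ (min δ₂ 1) := ⟨_, rfl⟩
  have hδ0 : 0 < δ := by rw [hδ]; exact lt_min hδ₁ (lt_min hδ₂ one_pos)
  have hd1 : δ ≤ δ₁ := by rw [hδ]; exact min_le_left _ _
  have hd2 : δ ≤ δ₂ := by rw [hδ]; exact (min_le_right _ _).trans (min_le_left _ _)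
  have hd3 : δ ≤ 1 := by rw [hδ]; exact (min_le_right _ _).trans (min_le_right _ _)
  obtain ⟨κ, hκ⟩ : ∃ κ : ℝ, κ = 2 / δ := ⟨_, rfl⟩
  have hκ2 : 1 ≤ κ := by
    rw [hκ, le_div_iff₀ hδ0]
    linarith
  have hκ0 : 0 < κ := by linarith
  have hδκ : δ * κ = 2 := by
    rw [hκ]
    field_simp
  obtain ⟨m, hm⟩ : ∃ m : ℕ, m = 2 ^ N := ⟨_, rfl⟩
  obtain ⟨s, hs⟩ : ∃ s : ℝ, s = Real.log 2 ^ 2 / (32 * N) := ⟨_, rfl⟩
  have hs0 : 0 < s := by rw [hs]; positivity
  obtain ⟨T₀, hT₀⟩ : ∃ T₀ : ℝ, T₀ = min (δ / 2) s / κ ^ (m + 1) := ⟨_, rfl⟩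
  have hT0 : 0 < T₀ := by
    rw [hT₀]
    exact div_pos (lt_min (by linarith) hs0) (by positivity)
  have hTm : T₀ * κ ^ (m + 1) = min (δ / 2) s := by
    rw [hT₀]
    field_simp
  have hTle : ∀ j, j ≤ m + 1 → T₀ * κ ^ j ≤ min (δ / 2) s := by
    intro j hj
    rw [← hTm]
    exact mul_le_mul_of_nonneg_left (pow_le_pow_right₀ hκ2 hj) hT0.le
  have hTge : ∀ j, T₀ ≤ T₀ * κ ^ j := by
    intro j
    have := mul_le_mul_of_nonneg_left (one_le_pow₀ hκ2 (n := j)) hT0.le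
    linarith
  obtain ⟨ε, hε⟩ : ∃ ε : ℝ, ε = min (T₀ / N ^ 2) (Real.log 2 ^ 2 / (8 * N ^ 2)) := ⟨_, rfl⟩
  have hε0 : 0 < ε := by
    rw [hε]
    exact lt_min (by positivity) (by positivity)
  have hε1 : ε * N ^ 2 ≤ T₀ := by
    have : ε ≤ T₀ / N ^ 2 := by rw [hε]; exact min_le_left _ _
    rwa [le_div_iff₀ (by positivity)] at this
  have hε2 : 8 * N ^ 2 * ε ≤ Real.log 2 ^ 2 := by
    have : ε ≤ Real.log 2 ^ 2 / (8 * N ^ 2) := by rw [hε]; exact min_le_right _ _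
    rw [le_div_iff₀ (by positivity)] at this
    linarith
  refine ⟨ε, hε0, ?_⟩
  intro M _ _ _ _ C hC hMoll hDen hReg hMax hDiam
  obtain ⟨P1, P2⟩ := h3 M N C ε hN hε0.le hC hMax hDiam hMoll hDen hReg hε2
  rw [← hK] at P1
  rw [← hs] at P2
  have hfin : ∀ j, Module.Finite ℝ (Ev C (T₀ * κ ^ j)) := fun j =>
    (h5 M N C hMoll hDen hReg (T₀ * κ ^ j) (by positivity)).1
  have hdim : ∀ j, j ≤ m + 1 → Module.finrank ℝ (Ev C (T₀ * κ ^ j)) ≤ 2 ^ N := by
    intro j hj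
    refine H2 M C ε (T₀ * κ ^ j) hε0.le hC hMoll hDen hReg P1 (by positivity) ?_
    have a1 := (hTle j hj).trans (min_le_left _ _)
    have a2 := hTge j
    linarith
  have hmon : ∀ j, T₀ * κ ^ j ≤ T₀ * κ ^ (j + 1) := fun j =>
    mul_le_mul_of_nonneg_left (pow_le_pow_right₀ hκ2 (Nat.le_succ j)) hT0.le
  obtain ⟨j, hj, hje⟩ := Fin.pigeon m (fun j => Module.finrank ℝ (Ev C (T₀ * κ ^ j)))
    (fun j _ => by
      have := hfin (j + 1)
      exact Submodule.finrank_mono (Fin.Ev_mono C (hmon j)))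
    ((hdim (m + 1) le_rfl).trans_eq hm.symm)
  have hEq : Ev C (T₀ * κ ^ (j + 1)) = Ev C (T₀ * κ ^ j) := by
    have := hfin (j + 1)
    exact (Submodule.eq_of_le_of_finrank_eq (Fin.Ev_mono C (hmon j)) hje).symm
  have a1 := (hTle j (by omega)).trans (min_le_left _ _)
  have a1' := (hTle j (by omega)).trans (min_le_right _ _)
  have a2 := hTge j
  have hT0j : 0 < T₀ * κ ^ j := by positivity
  refine ⟨fun p => Module.finrank ℝ (Evp C (T₀ * κ ^ j) p), ?_, ?_, ?_⟩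
  · refine H1 M C ε (T₀ * κ ^ j) (T₀ * κ ^ (j + 1)) hε0.le hC hMoll hDen hReg P1 hT0j (hmon j) hEq
      (by linarith) ?_ ?_ (hdim j (by omega))
    · have e1 : δ * (T₀ * κ ^ (j + 1)) = 2 * (T₀ * κ ^ j) := by
        rw [← hδκ]
        ring
      have e2 : δ * (T₀ * κ ^ (j + 1)) ≤ δ₁ * (T₀ * κ ^ (j + 1)) :=
        mul_le_mul_of_nonneg_right hd1 (by positivity)
      linarith
    · intro u hu
      refine P2 u ?_
      rw [Evp, Submodule.mem_inf] at hu ⊢
      exact ⟨Fin.Ev_mono C a1' hu.1, hu.2⟩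
  · have := hfin j
    exact (Fin.sum_finrank C (T₀ * κ ^ j)).trans (hdim j (by omega))
  · rw [← (h4 M N C hMoll hDen hReg).2 (T₀ * κ ^ j) hT0j]
    exact Fin.sum_univ_eq_sum_range
      (fun p => (-1 : ℤ) ^ p * (Module.finrank ℝ (Evp C (T₀ * κ ^ j) p) : ℤ)) (N + 1)

theorem Fin.app_mono {N : ℕ} {η η' : ℝ} (h : η ≤ η') {d : Fin (N + 1) → ℕ} (H : AppAlg N η d) :
    AppAlg N η' d := by
  obtain ⟨a, c, k1, k2, k3, k4, k5, k6⟩ := H
  exact ⟨a, c, k1, k2, k3, fun x y => (k4 x y).trans h, k5, fun x y S => (k6 x y S).trans h⟩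

theorem s_chi (h : S_FIN) (h' : S_CMP) : S_CHI := by
  classical
  intro N hN
  obtain ⟨D, hD⟩ : ∃ D : Finset (Fin (N + 1) → ℕ),
      D = Fintype.piFinset (fun _ => Finset.range (2 ^ N + 1)) := ⟨_, rfl⟩
  have hex : ∀ d : Fin (N + 1) → ℕ, ∃ η : ℝ, 0 < η ∧
      (AppAlg N η d → ∀ η' : ℝ, 0 < η' → AppAlg N η' d) := by
    intro d
    by_cases hd : ∀ η' : ℝ, 0 < η' → AppAlg N η' d
    · exact ⟨1, one_pos, fun _ => hd⟩
    · push Not at hd
      obtain ⟨η, hη, hn⟩ := hd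
      exact ⟨η, hη, fun hc => absurd hc hn⟩
  choose g hg0 hg using hex
  have hne : D.Nonempty := by
    refine ⟨fun _ => 0, ?_⟩
    rw [hD, Fintype.mem_piFinset]
    intro a
    rw [Finset.mem_range]
    positivity
  obtain ⟨d₀, _, hd₀⟩ := D.exists_min_image g hne
  obtain ⟨ε, hε, H⟩ := h N hN (g d₀) (hg0 d₀)
  refine ⟨ε, hε, ?_⟩
  intro M _ _ _ _ C hC hMoll hDen hReg hMax hDiam
  obtain ⟨d, happ, hsum, he⟩ := H M C hC hMoll hDen hReg hMax hDiam
  have hdD : d ∈ D := by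
    rw [hD, Fintype.mem_piFinset]
    intro a
    rw [Finset.mem_range]
    have := Finset.single_le_sum (f := d) (fun i _ => Nat.zero_le (d i)) (Finset.mem_univ a)
    omega
  rw [← he]
  exact h' N d (hg d (Fin.app_mono (hd₀ d hdD) happ))

end Pool.Agent.H781.CM
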