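import Pool.Agent.H781.CM.Base

/-!
Gårding inequality (project CM).
-/

set_option autoImplicit false
set_option synthInstance.maxHeartbeats 400000
set_option maxHeartbeats 4000000
set_option linter.unusedSectionVars false

open MeasureTheory Filter
open scoped Topology ContDiff

noncomputable section

namespace Pool.Agent.H781.CM

open Pool.Agent.H781.NG

namespace Gard

section alg

variable {N : ℕ} {A : Type*} [CommRing A] [Algebra ℝ A] (F : Fr N A)

/-- the first order part of `d d` -/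
theorem swap (u : Fin N → Fin N → Fk N A) :
    ∑ a, ∑ b, cr a (cr b (u a b)) + ∑ a, ∑ b, cr a (cr b (u b a)) = 0 := by
  have h : ∑ a, ∑ b, cr a (cr b (u b a)) = - ∑ a, ∑ b, cr a (cr b (u a b)) := by
    rw [Finset.sum_comm, ← Finset.sum_neg_distrib]
    refine Finset.sum_congr rfl fun a _ => ?_
    rw [← Finset.sum_neg_distrib]
    refine Finset.sum_congr rfl fun b _ => ?_
    rw [cr_cr]
  rw [h, add_neg_cancel]

/-- `d d` is of order zero -/
theorem dddd (u : Fk N A) :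
    dd F (dd F u) + dd F (dd F u) = ∑ a, ∑ b, cr a (cr b (Boch.RR F a b u)) := by
  -- the second derivatives
  have h1 : dd F (dd F u) = ∑ a, ∑ b, cr a (cr b (nab F a (nab F b u))) +
      ∑ a, ∑ b, ∑ c, F.Γ a b c • cr a (cr c (nab F b u)) := by
    unfold dd
    rw [← Finset.sum_add_distrib]
    refine Finset.sum_congr rfl fun a _ => ?_
    have h2 : nab F a (∑ b, cr b (nab F b u)) = ∑ b, nab F a (cr b (nab F b u)) :=
      map_sum (nabL F a) _ _
    rw [h2, map_sum, ← Finset.sum_add_distrib]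
    refine Finset.sum_congr rfl fun b _ => ?_
    rw [Boch.nab_cr, map_add, map_sum]
    simp only [map_smul]
  have h3 : ∑ a, ∑ b, ∑ c, F.Γ a b c • cr a (cr c (nab F b u)) =
      - ∑ a, ∑ b, ∑ c, F.Γ a b c • cr a (cr b (nab F c u)) := by
    rw [← Finset.sum_neg_distrib]
    refine Finset.sum_congr rfl fun a _ => ?_
    rw [Finset.sum_comm, ← Finset.sum_neg_distrib]
    refine Finset.sum_congr rfl fun b _ => ?_
    rw [← Finset.sum_neg_distrib]
    refine Finset.sum_congr rfl fun c _ => ?_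
    rw [F.anti a c b, neg_smul]
  have h4 : ∑ a, ∑ b, ∑ c, F.Γ a b c • cr a (cr b (nab F c u)) =
      ∑ a, ∑ b, cr a (cr b (∑ c, F.Γ a b c • nab F c u)) := by
    refine Finset.sum_congr rfl fun a _ => Finset.sum_congr rfl fun b _ => ?_
    rw [map_sum, map_sum]
    simp only [map_smul]
  have h5 : ∑ a, ∑ b, cr a (cr b (Boch.RR F a b u)) =
      ∑ a, ∑ b, cr a (cr b (nab F a (nab F b u))) - ∑ a, ∑ b, cr a (cr b (nab F b (nab F a u))) -
      (∑ a, ∑ b, cr a (cr b (∑ c, F.Γ a b c • nab F c u)) -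
        ∑ a, ∑ b, cr a (cr b (∑ c, F.Γ b a c • nab F c u))) := by
    simp only [← Finset.sum_sub_distrib]
    refine Finset.sum_congr rfl fun a _ => Finset.sum_congr rfl fun b _ => ?_
    rw [← map_sub, ← map_sub, ← map_sub, ← map_sub, ← map_sub, ← map_sub, ← Finset.sum_sub_distrib]
    have h6 := Boch.curv F a b u
    have h7 : Boch.RR F a b u = nab F a (nab F b u) - nab F b (nab F a u) -
        ∑ c, (F.Γ a b c • nab F c u - F.Γ b a c • nab F c u) := by
      rw [h6]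
      simp only [sub_smul]
      abel
    rw [h7]
  have h8 := swap (fun a b => nab F a (nab F b u))
  have h9 := swap (fun a b => ∑ c, F.Γ a b c • nab F c u)
  have h10 : ∑ a, ∑ b, cr a (cr b (nab F b (nab F a u))) =
      - ∑ a, ∑ b, cr a (cr b (nab F a (nab F b u))) := (neg_eq_of_add_eq_zero_right h8).symm
  have h11 : ∑ a, ∑ b, cr a (cr b (∑ c, F.Γ b a c • nab F c u)) =
      - ∑ a, ∑ b, cr a (cr b (∑ c, F.Γ a b c • nab F c u)) :=
    (neg_eq_of_add_eq_zero_right h9).symm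
  rw [h5, h10, h11, h1, h3, h4]
  abel

end alg

variable {M : Type} [TopologicalSpace M] [CompactSpace M] [MeasurableSpace M] [BorelSpace M]
  {N : ℕ} (C : CD M N)

/-- bounded operators -/
def BO (T : Fk N C.A → Fk N C.A) : Prop := ∃ K : ℝ, 0 ≤ K ∧ ∀ u, nq C (T u) ≤ K * nq C u

theorem bo_id : BO C (fun u => u) := ⟨1, zero_le_one, fun u => by rw [one_mul]⟩

theorem bo_cr (i : Fin N) {T : Fk N C.A → Fk N C.A} (hT : BO C T) : BO C (fun u => cr i (T u)) := by
  obtain ⟨K, hK, h⟩ := hT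
  exact ⟨K, hK, fun u => (nq_cr_le C i (T u)).trans (h u)⟩

theorem bo_an (i : Fin N) {T : Fk N C.A → Fk N C.A} (hT : BO C T) : BO C (fun u => an i (T u)) := by
  obtain ⟨K, hK, h⟩ := hT
  exact ⟨K, hK, fun u => (nq_an_le C i (T u)).trans (h u)⟩

theorem bo_smul (a : C.A) {T : Fk N C.A → Fk N C.A} (hT : BO C T) : BO C (fun u => a • T u) := by
  obtain ⟨K, hK, h⟩ := hT
  obtain ⟨L, hL, h'⟩ := bdd C a
  refine ⟨L ^ 2 * K, by positivity, fun u => ?_⟩
  have h1 : ∀ p, C.ev p a ^ 2 ≤ L ^ 2 := fun p => by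
    rw [← sq_abs (C.ev p a)]
    exact pow_le_pow_left₀ (abs_nonneg _) (h' p) 2
  refine (nq_smulA_le C h1 (T u)).trans ?_
  rw [mul_assoc]
  exact mul_le_mul_of_nonneg_left (h u) (by positivity)

theorem bo_sum {κ : Type*} (s : Finset κ) {T : κ → Fk N C.A → Fk N C.A} (hT : ∀ i, BO C (T i)) :
    BO C (fun u => ∑ i ∈ s, T i u) := by
  choose K hK h using hT
  refine ⟨s.card * ∑ i ∈ s, K i, mul_nonneg (Nat.cast_nonneg _)
    (Finset.sum_nonneg fun i _ => hK i), fun u => ?_⟩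
  refine (nq_sum_le C s (fun i => T i u)).trans ?_
  rw [mul_assoc, Finset.sum_mul]
  exact mul_le_mul_of_nonneg_left (Finset.sum_le_sum fun i _ => h i u) (Nat.cast_nonneg _)

theorem bo_gam (a : Fin N) : BO C (gam C.F a) := by
  unfold gam
  exact bo_sum C _ fun b => bo_sum C _ fun c => bo_smul C _ (bo_cr C c (bo_an C b (bo_id C)))

theorem bo_RR (a b : Fin N) : BO C (Boch.RR C.F a b) := by
  unfold Boch.RR
  exact bo_sum C _ fun c => bo_sum C _ fun d => bo_smul C _ (bo_cr C d (bo_an C c (bo_id C)))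

/-- the product of two bounded operators -/
theorem bo_pr {S T : Fk N C.A → Fk N C.A} (hS : BO C S) (hT : BO C T) :
    ∃ K : ℝ, 0 ≤ K ∧ ∀ u, |pr C (S u) (T u)| ≤ K * nq C u := by
  obtain ⟨K, hK, h⟩ := hS
  obtain ⟨L, hL, h'⟩ := hT
  refine ⟨K + L, by positivity, fun u => ?_⟩
  have h1 := nq_nonneg C (S u + T u)
  have h2 := nq_nonneg C (S u - T u)
  rw [nq_add] at h1
  rw [nq_sub] at h2
  have h3 := h u
  have h4 := h' u
  have h5 := nq_nonneg C (S u)
  have h6 := nq_nonneg C (T u)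
  rw [abs_le]
  constructor <;> nlinarith

/-- the curvature term is bounded -/
theorem ric_le : ∃ K : ℝ, 0 ≤ K ∧ ∀ u, |ig C (ric C.F u)| ≤ K * nq C u := by
  have h : ∀ a b c d : Fin N, ∃ K : ℝ, 0 ≤ K ∧ ∀ u,
      |ig C (Rm C.F a b c d * ip (cr b (an a u)) (cr d (an c u)))| ≤ K * nq C u := by
    intro a b c d
    obtain ⟨K, hK, h⟩ := bo_pr C (bo_smul C (Rm C.F a b c d) (bo_cr C b (bo_an C a (bo_id C))))
      (bo_cr C d (bo_an C c (bo_id C)))
    refine ⟨K, hK, fun u => ?_⟩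
    rw [← ip_smul_left]
    exact h u
  choose K hK h using h
  refine ⟨∑ a, ∑ b, ∑ c, ∑ d, K a b c d, Finset.sum_nonneg fun a _ => Finset.sum_nonneg fun b _ =>
    Finset.sum_nonneg fun c _ => Finset.sum_nonneg fun d _ => hK a b c d, fun u => ?_⟩
  unfold ric
  rw [ig_neg, abs_neg, ig_sum]
  simp only [ig_sum, Finset.sum_mul]
  refine (Finset.abs_sum_le_sum_abs _ _).trans (Finset.sum_le_sum fun a _ => ?_)
  refine (Finset.abs_sum_le_sum_abs _ _).trans (Finset.sum_le_sum fun b _ => ?_)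
  refine (Finset.abs_sum_le_sum_abs _ _).trans (Finset.sum_le_sum fun c _ => ?_)
  refine (Finset.abs_sum_le_sum_abs _ _).trans (Finset.sum_le_sum fun d _ => ?_)
  exact h a b c d u

/-- the product of `d u` and `δ u` -/
theorem pr_dd_de (u : Fk N C.A) : pr C (dd C.F u) (de C.F u) = pr C (dd C.F (dd C.F u)) u :=
  (Boch.adj N C.A C.F (igL C) (isInt C) (dd C.F u) u).symm

theorem dd_de_le : ∃ K : ℝ, 0 ≤ K ∧ ∀ u, |2 * pr C (dd C.F u) (de C.F u)| ≤ K * nq C u := by
  obtain ⟨K, hK, h⟩ := bo_pr C (S := fun u => ∑ a, ∑ b, cr a (cr b (Boch.RR C.F a b u)))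
    (bo_sum C _ fun a => bo_sum C _ fun b => bo_cr C a (bo_cr C b (bo_RR C a b))) (bo_id C)
  refine ⟨K, hK, fun u => ?_⟩
  have h1 : 2 * pr C (dd C.F u) (de C.F u) =
      pr C (∑ a, ∑ b, cr a (cr b (Boch.RR C.F a b u))) u := by
    rw [pr_dd_de, ← dddd, pr_add_left]
    ring
  rw [h1]
  exact h u

end Gard

theorem s_gard : S_GARD := by
  intro M _ _ _ _ N C
  have h1 : ∀ a, ∃ K : ℝ, 0 ≤ K ∧ ∀ u, nq C (gam C.F a u) ≤ K * nq C u := fun a => Gard.bo_gam C a
  choose K1 hK1 h1 using h1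
  obtain ⟨K2, hK2, h2⟩ := Gard.ric_le C
  obtain ⟨K3, hK3, h3⟩ := Gard.dd_de_le C
  have hs : 0 ≤ ∑ a, K1 a := Finset.sum_nonneg fun a _ => hK1 a
  refine ⟨2 + 2 * (K2 + K3) + 2 * ∑ a, K1 a, by positivity, fun u => ?_⟩
  have h4 : ∀ a, ∑ S, ig C (C.F.e a (u S) ^ 2) ≤ 2 * nq C (nab C.F a u) + 2 * (K1 a * nq C u) := by
    intro a
    have h5 : ∑ S, ig C (C.F.e a (u S) ^ 2) = nq C (nab C.F a u - gam C.F a u) := by
      rw [nq_eq]
      refine Finset.sum_congr rfl fun S _ => ?_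
      have h6 : (nab C.F a u - gam C.F a u) S = C.F.e a (u S) := by
        unfold nab
        rw [Pi.sub_apply, Pi.add_apply]
        ring
      rw [h6]
    rw [h5]
    have h7 := nq_sub_le C (nab C.F a u) (gam C.F a u)
    have h8 := h1 a u
    linarith
  have h5 : ∑ a, ∑ S, ig C (C.F.e a (u S) ^ 2) ≤ 2 * en C u + 2 * (∑ a, K1 a) * nq C u := by
    refine (Finset.sum_le_sum fun a _ => h4 a).trans (le_of_eq ?_)
    rw [Finset.sum_add_distrib, ← Finset.mul_sum, ← Finset.mul_sum, ← Finset.sum_mul]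
    unfold en
    ring
  have h6 := bochner C u
  have h7 : nq C (DD C u) = nq C (dd C.F u) + 2 * pr C (dd C.F u) (de C.F u) +
      nq C (de C.F u) := nq_add C _ _
  have h8 := (abs_le.1 (h2 u)).1
  have h9 := (abs_le.1 (h3 u)).1
  have h10 : en C u ≤ nq C (DD C u) + (K2 + K3) * nq C u := by linarith
  have h11 := nq_nonneg C u
  have h12 := nq_nonneg C (DD C u)
  have h13 : 0 ≤ (2 * (K2 + K3) + 2 * ∑ a, K1 a) * nq C (DD C u) := by positivity
  nlinarith

end Pool.Agent.H781.CM
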