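import Pool.Agent.H781.CM.Base

/-!
Hodge theorem with all small eigenvalues.
-/

set_option autoImplicit false
set_option synthInstance.maxHeartbeats 400000
set_option maxHeartbeats 4000000
set_option linter.unusedSectionVars false

open MeasureTheory Filter
open scoped Topology ContDiff

noncomputable section

namespace Pool.Agent.H781.CM

open Pool.Agent.H781.NG

namespace Hod

/-! ### Linear algebra -/

section LinAlg

variable {V : Type*} [AddCommGroup V] [Module ℝ V]

theorem absq (Z B ZE BE : Submodule ℝ V) (h1 : ZE ≤ Z) (h2 : BE ≤ B) (h2' : BE ≤ ZE)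
    (h3 : ZE ⊓ B ≤ BE) (h4 : Z ≤ ZE ⊔ B) [FiniteDimensional ℝ ZE] :
    Module.Finite ℝ (Z ⧸ B.comap Z.subtype) ∧
      Module.finrank ℝ (Z ⧸ B.comap Z.subtype) + Module.finrank ℝ BE = Module.finrank ℝ ZE := by
  let f : ZE →ₗ[ℝ] (Z ⧸ B.comap Z.subtype) :=
    (B.comap Z.subtype).mkQ ∘ₗ Submodule.inclusion h1
  have hsurj : Function.Surjective f := by
    intro y
    obtain ⟨z, rfl⟩ := Submodule.mkQ_surjective _ y
    obtain ⟨a, ha, b, hb, hab⟩ := Submodule.mem_sup.1 (h4 z.2)
    refine ⟨⟨a, ha⟩, ?_⟩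
    change Submodule.Quotient.mk _ = Submodule.Quotient.mk _
    rw [Submodule.Quotient.eq]
    change (Submodule.inclusion h1 ⟨a, ha⟩ - z : Z) ∈ B.comap Z.subtype
    rw [Submodule.mem_comap]
    have : Z.subtype (Submodule.inclusion h1 ⟨a, ha⟩ - z) = - b := by
      change a - (z : V) = -b
      rw [← hab]
      abel
    rw [this]
    exact B.neg_mem hb
  have hker : LinearMap.ker f = BE.comap ZE.subtype := by
    ext x
    rw [LinearMap.mem_ker, Submodule.mem_comap]
    change Submodule.Quotient.mk _ = 0 ↔ _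
    rw [Submodule.Quotient.mk_eq_zero, Submodule.mem_comap]
    change (x : V) ∈ B ↔ (x : V) ∈ BE
    exact ⟨fun h => h3 ⟨x.2, h⟩, fun h => h2 h⟩
  have hr := LinearMap.finrank_range_add_finrank_ker f
  rw [LinearMap.range_eq_top.2 hsurj, finrank_top, hker] at hr
  refine ⟨Module.Finite.of_surjective f hsurj, ?_⟩
  rw [← hr]
  congr 1
  exact (LinearEquiv.finrank_eq (Submodule.comapSubtypeEquivOfLe h2')).symm

/-- rank-nullity on a subspace -/
theorem rknul (d : V →ₗ[ℝ] V) (E : Submodule ℝ V) [FiniteDimensional ℝ E] :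
    Module.finrank ℝ E =
      Module.finrank ℝ (E ⊓ LinearMap.ker d : Submodule ℝ V) + Module.finrank ℝ (E.map d) := by
  have h := LinearMap.finrank_range_add_finrank_ker (d.domRestrict E)
  rw [LinearMap.range_domRestrict] at h
  rw [← h, add_comm]
  congr 1
  have hk : LinearMap.ker (d.domRestrict E) = (E ⊓ LinearMap.ker d).comap E.subtype := by
    ext x
    simp [LinearMap.mem_ker]
  rw [hk]
  exact LinearEquiv.finrank_eq
    (Submodule.comapSubtypeEquivOfLe (p := E ⊓ LinearMap.ker d) (q := E) inf_le_left)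

theorem tele (b : ℕ → ℤ) (N : ℕ) :
    ∑ p ∈ Finset.range (N + 1), (-1 : ℤ) ^ p * (b p + b (p + 1)) = b 0 + (-1) ^ N * b (N + 1) := by
  induction N with
  | zero => simp
  | succ n ih =>
    rw [Finset.sum_range_succ, ih]
    ring

end LinAlg

/-! ### Degrees -/

section Degs

variable {N : ℕ} {A : Type*} [CommRing A] [Algebra ℝ A]

theorem deg_dpt (p : ℕ) (u : Fk N A) : Deg p (dpt p u) := by
  intro S hS
  simp [dpt, hS]

theorem dpt_self {p : ℕ} {u : Fk N A} (h : Deg p u) : dpt p u = u := by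
  funext S
  simp only [dpt]
  split_ifs with hS
  · rfl
  · exact (h S hS).symm

theorem dpt_ne {p q : ℕ} (hpq : p ≠ q) {u : Fk N A} (h : Deg q u) : dpt p u = 0 := by
  funext S
  simp only [dpt, Pi.zero_apply]
  split_ifs with hS
  · exact h S (hS ▸ hpq)
  · rfl

theorem dpt_add (p : ℕ) (u v : Fk N A) : dpt p (u + v) = dpt p u + dpt p v := by
  funext S
  simp only [dpt, Pi.add_apply]
  split_ifs
  · rfl
  · rw [add_zero]

theorem dpt_zero (p : ℕ) : dpt p (0 : Fk N A) = 0 := by
  funext S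
  simp [dpt]

theorem dpt_sum {κ : Type*} (s : Finset κ) (f : κ → Fk N A) (p : ℕ) :
    dpt p (∑ i ∈ s, f i) = ∑ i ∈ s, dpt p (f i) := by
  classical
  induction s using Finset.induction_on with
  | empty => simp [dpt_zero]
  | insert a s ha ih => rw [Finset.sum_insert ha, Finset.sum_insert ha, dpt_add, ih]

theorem card_lt (S : Finset (Fin N)) : S.card < N + 1 := by
  have := Finset.card_le_univ S
  rw [Fintype.card_fin] at this
  omega

theorem sum_dpt (u : Fk N A) : ∑ q ∈ Finset.range (N + 1), dpt q u = u := by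
  funext S
  rw [Finset.sum_apply]
  simp only [dpt]
  rw [Finset.sum_ite_eq, if_pos (Finset.mem_range.2 (card_lt S))]

theorem deg_big {p : ℕ} (hp : N < p) {u : Fk N A} (h : Deg p u) : u = 0 := by
  funext S
  exact h S (by have := card_lt S; omega)

theorem dpt_big {p : ℕ} (hp : N < p) (u : Fk N A) : dpt p u = 0 := deg_big hp (deg_dpt p u)

/-- operators raising the degree by one -/
theorem dpt_up (T : Fk N A →ₗ[ℝ] Fk N A) (hT : ∀ p u, Deg p u → Deg (p + 1) (T u)) (p : ℕ)
    (u : Fk N A) : dpt (p + 1) (T u) = T (dpt p u) := by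
  conv_lhs => rw [← sum_dpt u]
  rw [map_sum, dpt_sum]
  by_cases hp : p ∈ Finset.range (N + 1)
  · rw [Finset.sum_eq_single_of_mem p hp]
    · exact dpt_self (hT _ _ (deg_dpt p u))
    · intro q _ hq
      exact dpt_ne (by omega) (hT _ _ (deg_dpt q u))
  · rw [dpt_big (by rw [Finset.mem_range] at hp; omega) u, map_zero]
    refine Finset.sum_eq_zero fun q hq => ?_
    exact dpt_ne (by rintro h; exact hp (by rwa [show p = q by omega])) (hT _ _ (deg_dpt q u))

theorem dpt_up_zero (T : Fk N A →ₗ[ℝ] Fk N A) (hT : ∀ p u, Deg p u → Deg (p + 1) (T u))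
    (u : Fk N A) : dpt 0 (T u) = 0 := by
  conv_lhs => rw [← sum_dpt u]
  rw [map_sum, dpt_sum]
  exact Finset.sum_eq_zero fun q _ => dpt_ne (by omega) (hT _ _ (deg_dpt q u))

theorem an_dpt_succ (p : ℕ) (c : Fin N) (u : Fk N A) : an c (dpt (p + 1) u) = dpt p (an c u) := by
  funext S
  simp only [an_apply, dpt]
  by_cases h : c ∈ S
  · simp [h]
  · rw [if_neg h, if_neg h, Finset.card_insert_of_notMem h]
    by_cases hS : S.card = p
    · simp [hS]
    · rw [if_neg (by omega), if_neg hS, mul_zero]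

theorem an_dpt_zero (c : Fin N) (u : Fk N A) : an c (dpt 0 u) = 0 := by
  funext S
  simp only [an_apply, dpt, Pi.zero_apply]
  by_cases h : c ∈ S
  · simp [h]
  · rw [if_neg h, Finset.card_insert_of_notMem h, if_neg (by omega), mul_zero]

theorem dpt_smul (p : ℕ) (a : A) (u : Fk N A) : dpt p (a • u) = a • dpt p u := by
  funext S
  simp only [dpt, Pi.smul_apply]
  split_ifs
  · rfl
  · rw [smul_zero]

end Degs

/-! ### The theorem -/

variable {M : Type} [TopologicalSpace M] [CompactSpace M] [MeasurableSpace M] [BorelSpace M]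
  {N : ℕ} (C : CD M N)

theorem hor_dpt (p : ℕ) {u : Fk N C.A} (h : Hor C u) : Hor C (dpt p u) := by
  intro c
  cases p with
  | zero =>
    rw [an_dpt_zero]
    symm
    refine Finset.sum_eq_zero fun a _ => ?_
    rw [an_dpt_zero, smul_zero]
  | succ p =>
    rw [an_dpt_succ, h c, dpt_sum]
    exact Finset.sum_congr rfl fun a _ => by rw [an_dpt_succ, dpt_smul]

/-- the exact forms in `E` -/
def BE (t : ℝ) : ℕ → Submodule ℝ (Fk N C.A)
  | 0 => ⊥
  | p + 1 => (Evp C t p).map (ddL C.F)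

theorem main (h1 : S_SPEC) (h2 : S_DDH) (hM : Moll C) (hD : Dense2 C) (hR : Reg C) (t : ℝ)
    (ht : 0 < t) :
    (∀ p, Module.Finite ℝ (Hp C p)) ∧
    ∑ p ∈ Finset.range (N + 1), (-1 : ℤ) ^ p * (Module.finrank ℝ (Evp C t p) : ℤ) =
      ∑ p ∈ Finset.range (N + 1), (-1 : ℤ) ^ p * (bet C p : ℤ) := by
  obtain ⟨_, hHd, hHe, _, hGd, hGe, hGe0, hdd, hee, hadj, _, _, hnq⟩ := h2 M N C
  obtain ⟨hfin, hE, _, hproj, hsol, hdpt⟩ := h1 M N C hM hD hR t ht
  have := hfin
  have hfp : ∀ p, FiniteDimensional ℝ (Evp C t p) := fun p =>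
    Submodule.finiteDimensional_of_le (S₂ := Ev C t) inf_le_left
  -- `d` maps `E` to `E`
  have hde_ne : ∀ p u, Deg p u → dpt (p + 1) (de C.F u) = 0 := by
    intro p u hu
    cases p with
    | zero => rw [hGe0 u hu, dpt_zero]
    | succ p => exact dpt_ne (by omega) (hGe p u hu)
  have hdE : ∀ u ∈ Ev C t, dd C.F u ∈ Ev C t := by
    intro u hu
    have h : dd C.F u = ∑ q ∈ Finset.range (N + 1), dpt (q + 1) (DD C (dpt q u)) := by
      have e1 : dd C.F u = ∑ q ∈ Finset.range (N + 1), dd C.F (dpt q u) := by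
        have e2 := map_sum (ddL C.F) (fun q => dpt q u) (Finset.range (N + 1))
        rw [sum_dpt] at e2
        exact e2
      rw [e1]
      refine Finset.sum_congr rfl fun q _ => ?_
      unfold DD
      rw [dpt_add, hde_ne q _ (deg_dpt q u), add_zero, dpt_self (hGd q _ (deg_dpt q u))]
    rw [h]
    exact Submodule.sum_mem _ fun q _ => hdpt _ (hE _ (hdpt _ hu q)).2.1 _
  have heE : ∀ u ∈ Ev C t, de C.F u ∈ Ev C t := by
    intro u hu
    have : de C.F u = DD C u - dd C.F u := by
      unfold DD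
      abel
    rw [this]
    exact Submodule.sub_mem _ (hE u hu).2.1 (hdE u hu)
  -- a form orthogonal to `E` whose differential is in `E` is closed
  have hcl : ∀ b : Fk N C.A, (∀ w ∈ Ev C t, pr C w b = 0) → dd C.F b ∈ Ev C t → dd C.F b = 0 := by
    intro b hb hbE
    refine hnq _ ?_
    rw [← pr_self, hadj, pr_comm]
    exact hb _ (heE _ hbE)
  have hddsub : ∀ u v : Fk N C.A, dd C.F (u - v) = dd C.F u - dd C.F v :=
    fun u v => map_sub (ddL C.F) u v
  have hddadd : ∀ u v : Fk N C.A, dd C.F (u + v) = dd C.F u + dd C.F v :=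
    fun u v => map_add (ddL C.F) u v
  have hdeadd : ∀ u v : Fk N C.A, de C.F (u + v) = de C.F u + de C.F v :=
    fun u v => map_add (deL C.F) u v
  have hdd0 : dd C.F 0 = 0 := map_zero (ddL C.F)
  have hup : ∀ p (u : Fk N C.A), dpt (p + 1) (dd C.F u) = dd C.F (dpt p u) :=
    fun p u => dpt_up (ddL C.F) hGd p u
  have hup0 : ∀ (u : Fk N C.A), dpt 0 (dd C.F u) = 0 :=
    fun u => dpt_up_zero (ddL C.F) hGd u
  -- comparison with the full complex
  have hcomp : ∀ p, Module.Finite ℝ (Hp C p) ∧ bet C p + Module.finrank ℝ (BE C t p) =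
      Module.finrank ℝ (Evp C t p ⊓ LinearMap.ker (ddL C.F) : Submodule ℝ (Fk N C.A)) := by
    intro p
    have : FiniteDimensional ℝ (Evp C t p ⊓ LinearMap.ker (ddL C.F) : Submodule ℝ (Fk N C.A)) :=
      Submodule.finiteDimensional_of_le (S₂ := Evp C t p) inf_le_left
    refine absq (Zp C p) (Bp C p) (Evp C t p ⊓ LinearMap.ker (ddL C.F)) (BE C t p) ?_ ?_ ?_ ?_ ?_
    · rintro u ⟨⟨hu, hup⟩, huk⟩
      exact ⟨⟨(hE u hu).1, hup⟩, huk⟩
    · cases p with
      | zero => exact le_refl _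
      | succ p =>
        rintro _ ⟨u, ⟨hu, hup⟩, rfl⟩
        exact ⟨u, ⟨(hE u hu).1, hup⟩, rfl⟩
    · cases p with
      | zero => exact bot_le
      | succ p =>
        rintro _ ⟨u, ⟨hu, hup⟩, rfl⟩
        exact ⟨⟨hdE u hu, hGd p u hup⟩, hdd u (hE u hu).1⟩
    · rintro u ⟨⟨⟨hu, hud⟩, huk⟩, huB⟩
      cases p with
      | zero => exact huB
      | succ p =>
        obtain ⟨b, ⟨hbH, hbD⟩, hbu⟩ := huB
        obtain ⟨bE, hbE, hbo⟩ := hproj b hbH
        have hbu' : dd C.F b = u := hbu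
        have hz : dd C.F (b - bE) = 0 := by
          refine hcl _ hbo ?_
          rw [hddsub, hbu']
          exact Submodule.sub_mem _ hu (hdE _ hbE)
        rw [hddsub, hbu', sub_eq_zero] at hz
        refine ⟨dpt p bE, ⟨hdpt _ hbE _, deg_dpt p bE⟩, ?_⟩
        change dd C.F (dpt p bE) = u
        rw [← hup, ← hz]
        exact dpt_self hud
    · rintro a ⟨⟨haH, haD⟩, hak⟩
      have hak' : dd C.F a = 0 := hak
      obtain ⟨aE, haE, hao⟩ := hproj a haH
      have hz : dd C.F (a - aE) = 0 := by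
        refine hcl _ hao ?_
        rw [hddsub, hak', zero_sub]
        exact Submodule.neg_mem _ (hdE _ haE)
      have hzE : dd C.F aE = 0 := by
        have := hz
        rw [hddsub, hak', zero_sub, neg_eq_zero] at this
        exact this
      have hH' : Hor C (a - aE) := (HorS C).sub_mem haH (hE aE haE).1
      obtain ⟨g, hgH, hg⟩ := hsol (a - aE) hH' hao
      have hg2 : a - aE = dd C.F (de C.F g) + de C.F (dd C.F g) := by
        rw [← hg]
        unfold DD
        rw [hddadd, hdeadd, hdd g hgH, hee g hgH]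
        abel
      have hz2 : dd C.F (de C.F (dd C.F g)) = 0 := by
        have := hz
        rw [hg2, hddadd, hdd _ (hHe g hgH), zero_add] at this
        exact this
      have hz3 : de C.F (dd C.F g) = 0 := by
        refine hnq _ ?_
        rw [← pr_self, ← hadj, hz2, pr_zero_left]
      rw [hz3, add_zero] at hg2
      have hfin2 : a = dpt p aE + dpt p (dd C.F (de C.F g)) := by
        rw [← dpt_add, ← hg2, add_sub_cancel, dpt_self haD]
      rw [hfin2]
      refine Submodule.add_mem_sup ⟨⟨hdpt _ haE _, deg_dpt p aE⟩, ?_⟩ ?_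
      · change dd C.F (dpt p aE) = 0
        rw [← hup, hzE, dpt_zero]
      · cases p with
        | zero =>
          rw [hup0]
          exact Submodule.zero_mem _
        | succ p =>
          rw [hup]
          exact ⟨dpt p (de C.F g), ⟨hor_dpt C p (hHe g hgH), deg_dpt p _⟩, rfl⟩
  refine ⟨fun p => (hcomp p).1, ?_⟩
  have hN : Module.finrank ℝ (BE C t (N + 1)) = 0 := by
    have : BE C t (N + 1) = ⊥ := by
      rw [eq_bot_iff]
      rintro _ ⟨u, ⟨hu, hup⟩, rfl⟩
      exact deg_big (Nat.lt_succ_self N) (hGd N u hup)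
    rw [this, finrank_bot]
  have h0 : Module.finrank ℝ (BE C t 0) = 0 := finrank_bot ℝ _
  have hterm : ∀ p, (Module.finrank ℝ (Evp C t p) : ℤ) = (bet C p : ℤ) +
      ((Module.finrank ℝ (BE C t p) : ℤ) + (Module.finrank ℝ (BE C t (p + 1)) : ℤ)) := by
    intro p
    rw [rknul (ddL C.F) (Evp C t p), ← (hcomp p).2]
    push_cast
    change _ + (Module.finrank ℝ (BE C t (p + 1)) : ℤ) = _
    ring
  have ht := tele (fun p => (Module.finrank ℝ (BE C t p) : ℤ)) N
  rw [h0, hN] at ht
  have hsplit : ∑ p ∈ Finset.range (N + 1), (-1 : ℤ) ^ p * (Module.finrank ℝ (Evp C t p) : ℤ) =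
      ∑ p ∈ Finset.range (N + 1), (-1 : ℤ) ^ p * (bet C p : ℤ) +
      ∑ p ∈ Finset.range (N + 1), (-1 : ℤ) ^ p * ((Module.finrank ℝ (BE C t p) : ℤ) +
        (Module.finrank ℝ (BE C t (p + 1)) : ℤ)) := by
    rw [← Finset.sum_add_distrib]
    refine Finset.sum_congr rfl fun p _ => ?_
    rw [hterm, mul_add]
  rw [hsplit, ht]
  simp

end Hod

/-- Hodge theorem, with all small eigenvalues -/
theorem s_hodge (h1 : S_SPEC) (h2 : S_DDH) : S_HODGE := by
  intro M _ _ _ _ N C hM hD hR
  exact ⟨(Hod.main C h1 h2 hM hD hR 1 one_pos).1,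
    fun t ht => (Hod.main C h1 h2 hM hD hR t ht).2⟩

end Pool.Agent.H781.CM
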