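import Pool.Agent.H781.CM.Base

/-!
Gradient estimate of Li and Yau: lower bound of the eigenvalues of the Laplacian on functions.
-/

set_option autoImplicit false
set_option synthInstance.maxHeartbeats 400000
set_option maxHeartbeats 4000000
set_option linter.unusedSectionVars false

open MeasureTheory Filter
open scoped Topology ContDiff

noncomputable section

namespace Pool.Agent.H781.CM

open Pool.Agent.H781.NG

namespace LY

variable {M : Type} [TopologicalSpace M] [CompactSpace M] [MeasurableSpace M] [BorelSpace M]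
  {N : ℕ} (C : CD M N)

theorem lap_eq_dv (u : C.A) : Lap C u = dv C.F (fun a => C.F.e a u) := by
  unfold Lap Hs dv
  rw [Finset.sum_sub_distrib, sub_eq_add_neg]
  congr 1
  rw [Finset.sum_comm (f := fun a b => C.F.Γ b a b * C.F.e a u), ← Finset.sum_neg_distrib]
  refine Finset.sum_congr rfl fun a _ => ?_
  rw [← Finset.sum_neg_distrib]
  refine Finset.sum_congr rfl fun b _ => ?_
  rw [C.F.anti a b a]
  ring

theorem ig_lap (u : C.A) : ig C (Lap C u) = 0 := by
  rw [lap_eq_dv]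
  exact C.div _

theorem ig_eigen {u : C.A} {l : ℝ} (hl : 0 < l) (h : Lap C u = - (l • u)) : ig C u = 0 := by
  have h1 := ig_lap C u
  rw [h, ig_neg, ig_smul] at h1
  have h2 : l * ig C u = 0 := by linarith
  rcases mul_eq_zero.mp h2 with h3 | h3
  · exact absurd h3 hl.ne'
  · exact h3

theorem lap_smul (c : ℝ) (u : C.A) : Lap C (c • u) = c • Lap C u := by
  unfold Lap Hs
  rw [Finset.smul_sum]
  refine Finset.sum_congr rfl fun a _ => ?_
  rw [Derivation.map_smul, Derivation.map_smul, smul_sub, Finset.smul_sum]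
  congr 1
  refine Finset.sum_congr rfl fun b _ => ?_
  rw [Derivation.map_smul, mul_smul_comm]

theorem exists_max [Nonempty M] (f : C.A) : ∃ p, ∀ q, C.ev q f ≤ C.ev p f := by
  obtain ⟨p, _, hp⟩ := isCompact_univ.exists_isMaxOn (Set.univ_nonempty) (C.cont f).continuousOn
  exact ⟨p, fun q => hp (Set.mem_univ q)⟩

include C in
theorem nonempty : Nonempty M := by
  by_contra h
  rw [not_nonempty_iff] at h
  have h1 : C.μ Set.univ = 1 := C.prob.measure_univ
  rw [Set.univ_eq_empty_iff.mpr h, measure_empty] at h1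
  exact zero_ne_one h1

/-- an eigenfunction vanishes or is negative somewhere -/
theorem exists_nonpos [Nonempty M] {u : C.A} (h0 : ig C u = 0) (hu : u ≠ 0) :
    ∃ y, C.ev y u ≤ 0 := by
  by_contra h
  push Not at h
  exact hu (ig_eq_zero C (fun p => (h p).le) h0)

/-- the Laplacian at a maximum -/
theorem lap_max (hmax : MaxP C) (f : C.A) (p : M) (hp : ∀ q, C.ev q f ≤ C.ev p f) :
    (∀ a, C.ev p (C.F.e a f) = 0) ∧ C.ev p (Lap C f) ≤ 0 := by
  obtain ⟨h1, h2⟩ := hmax f p hp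
  refine ⟨h1, ?_⟩
  unfold Lap Hs
  rw [ev_sum]
  refine Finset.sum_nonpos fun a _ => ?_
  rw [map_sub, ev_sum]
  have h3 : ∑ c, C.ev p (C.F.Γ a a c * C.F.e c f) = 0 := by
    refine Finset.sum_eq_zero fun c _ => ?_
    rw [map_mul, h1 c, mul_zero]
  rw [h3, sub_zero]
  exact h2 a

theorem gsq_nonneg (h : C.A) (p : M) : 0 ≤ C.ev p (gsq C h) := by
  unfold gsq
  rw [ev_sum]
  refine Finset.sum_nonneg fun a _ => ?_
  rw [map_mul]
  exact mul_self_nonneg _

theorem lap_sq_le (h : C.A) (p : M) :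
    C.ev p (Lap C h) ^ 2 ≤ N * ∑ a, ∑ b, C.ev p (Hs C h a b) ^ 2 := by
  unfold Lap
  rw [ev_sum]
  have h1 := sq_sum_le_card_mul_sum_sq (s := (Finset.univ : Finset (Fin N)))
    (f := fun a => C.ev p (Hs C h a a))
  rw [Finset.card_univ, Fintype.card_fin] at h1
  refine h1.trans (mul_le_mul_of_nonneg_left ?_ (Nat.cast_nonneg N))
  refine Finset.sum_le_sum fun a _ => ?_
  exact Finset.single_le_sum (f := fun b => C.ev p (Hs C h a b) ^ 2)
    (fun b _ => sq_nonneg _) (Finset.mem_univ a)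

/-- the logarithmic transform -/
theorem transform {u : C.A} {l : ℝ} (h : Lap C u = - (l • u)) (hu : ∀ p, C.ev p u ≤ 1) :
    ∃ f g : C.A, (∀ p, C.ev p f = Real.log (2 - C.ev p u)) ∧ (∀ p, 0 < C.ev p g) ∧
      (∀ p, C.ev p g ≤ 1) ∧ (∀ a, C.F.e a g = - (g * C.F.e a f)) ∧
      Lap C f = (2 * l) • g - cs C l - gsq C f := by
  have hU : IsOpen (Set.Iio (2 : ℝ)) := isOpen_Iio
  have hmem : ∀ p, C.ev p u ∈ Set.Iio (2 : ℝ) := fun p => by
    rw [Set.mem_Iio]; linarith [hu p]
  have hφ : ContDiffOn ℝ ∞ (fun t : ℝ => Real.log (2 - t)) (Set.Iio 2) := by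
    refine ContDiffOn.log (contDiffOn_const.sub contDiffOn_id) ?_
    intro t ht
    rw [Set.mem_Iio] at ht
    have : (2 : ℝ) - t ≠ 0 := by linarith
    exact this
  have hψ : ContDiffOn ℝ ∞ (fun t : ℝ => (2 - t)⁻¹) (Set.Iio 2) := by
    refine ContDiffOn.inv (contDiffOn_const.sub contDiffOn_id) ?_
    intro t ht
    rw [Set.mem_Iio] at ht
    have : (2 : ℝ) - t ≠ 0 := by linarith
    exact this
  obtain ⟨f, hf⟩ := C.comp u _ _ hU hφ hmem
  obtain ⟨g, hg⟩ := C.comp u _ _ hU hψ hmem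
  have hgpos : ∀ p, 0 < C.ev p g := fun p => by
    rw [hg p]
    have := hu p
    exact inv_pos.mpr (by linarith)
  have hgu : ∀ p, C.ev p g * (2 - C.ev p u) = 1 := fun p => by
    rw [hg p]
    have := hu p
    exact inv_mul_cancel₀ (by linarith)
  have hgu' : g * (2 - u) = 1 := by
    refine C.ext_ev _ _ fun p => ?_
    rw [map_mul, map_sub, map_one, ← hgu p]
    congr 2
    exact map_ofNat _ 2
  have hef : ∀ a, C.F.e a f = - (g * C.F.e a u) := by
    intro a
    refine C.ext_ev _ _ fun p => ?_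
    rw [C.chain u f _ _ hU hφ hmem hf a p, map_neg, map_mul]
    have h1 : HasDerivAt (fun t : ℝ => Real.log (2 - t)) ((-1) / (2 - C.ev p u)) (C.ev p u) := by
      have h2 : HasDerivAt (fun t : ℝ => 2 - t) (-1) (C.ev p u) := by
        simpa using (hasDerivAt_id (C.ev p u)).const_sub 2
      exact h2.log (by have := hu p; linarith)
    rw [h1.deriv, hg p]
    rw [div_eq_mul_inv]
    ring
  have heg : ∀ a, C.F.e a g = - (g * C.F.e a f) := by
    intro a
    have h1 : C.F.e a (g * (2 - u)) = 0 := by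
      rw [hgu', Derivation.map_one_eq_zero]
    rw [Derivation.leibniz, map_sub] at h1
    have h2 : C.F.e a (2 : C.A) = 0 := by
      have : ((2 : ℕ) : C.A) = 2 := by norm_num
      rw [← this, Derivation.map_natCast]
    rw [h2] at h1
    simp only [smul_eq_mul] at h1
    -- `g * (0 - e u) + (2 - u) * e g = 0`
    rw [hef a]
    have h3 : C.F.e a g = g * ((2 - u) * C.F.e a g) := by
      rw [← mul_assoc, hgu', one_mul]
    rw [h3]
    linear_combination g * h1
  refine ⟨f, g, hf, hgpos, ?_, heg, ?_⟩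
  · intro p
    rw [hg p]
    have := hu p
    exact inv_le_one_of_one_le₀ (by linarith)
  · have h4 : ∀ a, Hs C f a a = - (g * Hs C u a a) - C.F.e a f * C.F.e a f := by
      intro a
      unfold Hs
      have h5 : C.F.e a (C.F.e a f) = - (g * C.F.e a (C.F.e a u)) - C.F.e a f * C.F.e a f := by
        conv_lhs => rw [hef a]
        rw [map_neg, Derivation.leibniz, heg a]
        simp only [smul_eq_mul]
        have h6 := hef a
        rw [show C.F.e a u * -(g * C.F.e a f) = - (g * C.F.e a u) * C.F.e a f by ring, ← h6]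
        ring
      have h7 : ∑ c, C.F.Γ a a c * C.F.e c f = - (g * ∑ c, C.F.Γ a a c * C.F.e c u) := by
        rw [Finset.mul_sum, ← Finset.sum_neg_distrib]
        refine Finset.sum_congr rfl fun c _ => ?_
        rw [hef c]
        ring
      rw [h5, h7]
      ring
    have h8 : Lap C f = - (g * Lap C u) - gsq C f := by
      unfold Lap gsq
      simp only [h4]
      rw [Finset.sum_sub_distrib, Finset.sum_neg_distrib, Finset.mul_sum]
    rw [h8, h]
    refine C.ext_ev _ _ fun p => ?_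
    rw [map_sub, map_neg, map_mul, map_neg, ev_smul, map_sub, map_sub, ev_smul, ev_cs]
    have h9 := hgu p
    linear_combination (-l) * h9

/-- the gradient estimate -/
theorem grad (hR : S_RICF) (hB : S_BOCHF) {ε : ℝ} (hε : 0 ≤ ε) (hcurv : CurvGE C ε)
    (hmax : MaxP C) [Nonempty M] {l : ℝ} (hl : 0 < l) (f g : C.A)
    (hg0 : ∀ p, 0 < C.ev p g) (hg1 : ∀ p, C.ev p g ≤ 1)
    (heg : ∀ a, C.F.e a g = - (g * C.F.e a f))
    (hlap : Lap C f = (2 * l) • g - cs C l - gsq C f) (q : M) :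
    C.ev q (gsq C f) ≤ 4 * N * (2 * l + ε * N) := by
  obtain ⟨p, hp⟩ := exists_max C (gsq C f)
  refine (hp q).trans ?_
  obtain ⟨h1, h2⟩ := lap_max C hmax _ p hp
  have hF0 : 0 ≤ C.ev p (gsq C f) := gsq_nonneg C f p
  rcases Nat.eq_zero_or_pos N with hN | hN
  · subst hN
    have : gsq C f = 0 := by
      unfold gsq
      exact Finset.sum_of_isEmpty _
    rw [this, map_zero]
    simp
  have hN1 : (1 : ℝ) ≤ N := by exact_mod_cast hN
  have h3 := hR M N C ε hε hcurv f p
  rw [hB M N C f] at h2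
  have h4 := lap_sq_le C f p
  have h5 : C.ev p (∑ b, C.F.e b f * C.F.e b (Lap C f)) =
      - (2 * l * C.ev p g * C.ev p (gsq C f)) := by
    have h6 : ∀ b, C.ev p (C.F.e b (Lap C f)) = - (2 * l * (C.ev p g * C.ev p (C.F.e b f))) := by
      intro b
      rw [hlap, map_sub, map_sub, map_sub, Derivation.map_smul, heg b]
      have h7 : C.F.e b (cs C l) = 0 := by
        unfold cs
        exact Derivation.map_algebraMap _ _
      rw [h7, sub_zero, h1 b, sub_zero, ev_smul, map_neg, map_mul]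
      ring
    rw [ev_sum]
    unfold gsq
    rw [ev_sum, Finset.mul_sum, ← Finset.sum_neg_distrib]
    refine Finset.sum_congr rfl fun b _ => ?_
    rw [map_mul, map_mul, h6 b]
    ring
  have h8 : C.ev p (∑ a, ∑ b, Hs C f a b ^ 2) = ∑ a, ∑ b, C.ev p (Hs C f a b) ^ 2 := by
    rw [ev_sum]
    refine Finset.sum_congr rfl fun a _ => ?_
    rw [ev_sum]
    refine Finset.sum_congr rfl fun b _ => ?_
    rw [map_pow]
  have htwo : C.ev p (2 : C.A) = 2 := map_ofNat _ 2
  rw [map_sub, map_add, map_mul, map_mul, map_mul, htwo, h5, h8] at h2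
  rw [map_neg] at h3
  set S := ∑ a, ∑ b, C.ev p (Hs C f a b) ^ 2 with hS
  set R := C.ev p (∑ a, ∑ b, ∑ d, Rm C.F a b a d * C.F.e b f * C.F.e d f) with hRdef
  set F := C.ev p (gsq C f) with hFdef
  have hLap : C.ev p (Lap C f) = 2 * l * C.ev p g - l - F := by
    rw [hlap, map_sub, map_sub, ev_smul, ev_cs]
  rw [hLap] at h4
  set G := C.ev p g with hG
  have hG0 : 0 < G := hg0 p
  have hG1 : G ≤ 1 := hg1 p
  -- `S ≤ 2 l G F + ε N F`
  have h9 : S ≤ (2 * l + ε * N) * F := by
    have h10 : 2 * l * G * F ≤ 2 * l * F := by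
      have : 0 ≤ 2 * l * F := by positivity
      nlinarith
    nlinarith
  have h11 : (2 * l * G - l - F) ^ 2 ≤ N * ((2 * l + ε * N) * F) :=
    h4.trans (mul_le_mul_of_nonneg_left h9 (Nat.cast_nonneg N))
  have hc0 : 0 ≤ ε * N := mul_nonneg hε (Nat.cast_nonneg N)
  by_cases hcase : 2 * l ≤ F
  · have hFpos : 0 < F := by linarith
    have h12 : F / 2 ≤ F + l - 2 * l * G := by nlinarith
    have h13 : (F / 2) ^ 2 ≤ (2 * l * G - l - F) ^ 2 := by
      have : (2 * l * G - l - F) ^ 2 = (F + l - 2 * l * G) ^ 2 := by ring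
      rw [this]
      exact pow_le_pow_left₀ (by linarith) h12 2
    have h14 : F * F ≤ (4 * N * (2 * l + ε * N)) * F := by nlinarith
    exact le_of_mul_le_mul_right h14 hFpos
  · push Not at hcase
    have h15 : 2 * l ≤ 4 * N * (2 * l + ε * N) := by nlinarith
    linarith

/-- the normalised case -/
theorem normalised (hR : S_RICF) (hB : S_BOCHF) {ε : ℝ} (hε : 0 ≤ ε) (hcurv : CurvGE C ε)
    (hmax : MaxP C) (hdiam : DiamOne C) [Nonempty M] {l : ℝ} (hl : 0 < l) {u : C.A}
    (h : Lap C u = - (l • u)) (hu : ∀ p, C.ev p u ≤ 1) {x y : M} (hx : C.ev x u = 1)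
    (hy : C.ev y u ≤ 0) : Real.log 2 ^ 2 ≤ 4 * N * (2 * l + ε * N) := by
  obtain ⟨f, g, hf, hg0, hg1, heg, hlap⟩ := transform C h hu
  have hgr := grad C hR hB hε hcurv hmax hl f g hg0 hg1 heg hlap
  have hc : 0 ≤ 4 * (N : ℝ) * (2 * l + ε * N) := by positivity
  have h1 := hdiam f (√(4 * N * (2 * l + ε * N))) (Real.sqrt_nonneg _)
    (fun p => by rw [Real.sq_sqrt hc]; exact hgr p) x y
  rw [hf x, hf y, hx] at h1
  have h2 : Real.log (2 - 1) = 0 := by norm_num
  rw [h2, zero_sub, abs_neg] at h1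
  have h3 : Real.log 2 ≤ Real.log (2 - C.ev y u) :=
    Real.log_le_log (by norm_num) (by linarith)
  have h4 : Real.log 2 ≤ √(4 * N * (2 * l + ε * N)) :=
    h3.trans ((le_abs_self _).trans h1)
  have h5 : 0 ≤ Real.log 2 := Real.log_nonneg (by norm_num)
  calc Real.log 2 ^ 2 ≤ √(4 * N * (2 * l + ε * N)) ^ 2 := pow_le_pow_left₀ h5 h4 2
    _ = 4 * N * (2 * l + ε * N) := Real.sq_sqrt hc

/-- the case of a maximum dominating the minimum -/
theorem scaled (hR : S_RICF) (hB : S_BOCHF) {ε : ℝ} (hε : 0 ≤ ε) (hcurv : CurvGE C ε)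
    (hmax : MaxP C) (hdiam : DiamOne C) [Nonempty M] {l : ℝ} (hl : 0 < l) {u : C.A}
    (h : Lap C u = - (l • u)) (hu0 : u ≠ 0) {x : M} (hx : 0 < C.ev x u)
    (hu : ∀ p, C.ev p u ≤ C.ev x u) : Real.log 2 ^ 2 ≤ 4 * N * (2 * l + ε * N) := by
  obtain ⟨y, hy⟩ := exists_nonpos C (ig_eigen C hl h) hu0
  set m := C.ev x u with hm
  refine normalised C hR hB hε hcurv hmax hdiam hl (u := m⁻¹ • u) ?_ ?_ (x := x) (y := y) ?_ ?_
  · rw [lap_smul, h, smul_neg, smul_comm]
  · intro p
    rw [ev_smul]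
    calc m⁻¹ * C.ev p u ≤ m⁻¹ * m := mul_le_mul_of_nonneg_left (hu p) (inv_nonneg.mpr hx.le)
      _ = 1 := inv_mul_cancel₀ hx.ne'
  · rw [ev_smul, ← hm]
    exact inv_mul_cancel₀ hx.ne'
  · rw [ev_smul]
    exact mul_nonpos_of_nonneg_of_nonpos (inv_nonneg.mpr hx.le) hy

end LY

open LY in
theorem s_ly (h1 : S_RICF) (h2 : S_BOCHF) : S_LY := by
  intro M _ _ _ _ N C ε hε hcurv hmax hdiam u l hl hlap hu
  have : Nonempty M := nonempty C
  obtain ⟨x, hx⟩ := exists_max C u
  by_cases hx0 : 0 < C.ev x u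
  · exact scaled C h1 h2 hε hcurv hmax hdiam hl hlap hu hx0 hx
  · exfalso
    push Not at hx0
    have h3 : ∀ p, 0 ≤ C.ev p (-u) := fun p => by
      rw [map_neg]
      linarith [hx p]
    have h4 : ig C (-u) = 0 := by rw [ig_neg, ig_eigen C hl hlap, neg_zero]
    exact hu (neg_eq_zero.mp (ig_eq_zero C h3 h4))

end Pool.Agent.H781.CM
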