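import Pool.Agent.H781.CM.Base

/-!
Almost parallel forms: length and Gram matrix.
-/

set_option autoImplicit false
set_option synthInstance.maxHeartbeats 400000
set_option maxHeartbeats 4000000
set_option linter.unusedSectionVars false

open MeasureTheory Filter
open scoped Topology ContDiff

noncomputable section

namespace Pool.Agent.H781.CM

open Pool.Agent.H781.NG

namespace Near

variable {M : Type} [TopologicalSpace M] [CompactSpace M] [MeasurableSpace M] [BorelSpace M]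
  {N : ℕ} (C : CD M N)

/-- Cauchy-Schwarz inequality for continuous functions -/
theorem cs_cont {f g : M → ℝ} (hf : Continuous f) (hg : Continuous g) :
    (∫ p, f p * g p ∂C.μ) ^ 2 ≤ (∫ p, f p ^ 2 ∂C.μ) * ∫ p, g p ^ 2 ∂C.μ := by
  have hff : Integrable (fun p => f p ^ 2) C.μ := int_cont C (by fun_prop)
  have hgg : Integrable (fun p => g p ^ 2) C.μ := int_cont C (by fun_prop)
  have hfg : Integrable (fun p => f p * g p) C.μ := int_cont C (by fun_prop)
  have h : ∀ t : ℝ, 0 ≤ (∫ p, f p ^ 2 ∂C.μ) * (t * t) + 2 * (∫ p, f p * g p ∂C.μ) * t +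
      ∫ p, g p ^ 2 ∂C.μ := by
    intro t
    have h1 : 0 ≤ ∫ p, (t * f p + g p) ^ 2 ∂C.μ := integral_nonneg fun p => sq_nonneg _
    have h2 : ∫ p, (t * f p + g p) ^ 2 ∂C.μ =
        ∫ p, (t * t * f p ^ 2 + 2 * t * (f p * g p) + g p ^ 2) ∂C.μ := by
      refine integral_congr_ae (Filter.Eventually.of_forall fun p => ?_)
      show (t * f p + g p) ^ 2 = t * t * f p ^ 2 + 2 * t * (f p * g p) + g p ^ 2
      ring
    have h3 : Integrable (fun p => t * t * f p ^ 2 + 2 * t * (f p * g p)) C.μ :=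
      int_cont C (by fun_prop)
    rw [h2, integral_add h3 hgg,
      integral_add (hff.const_mul _) (hfg.const_mul _), integral_const_mul,
      integral_const_mul] at h1
    linarith
  have := discrim_le_zero h
  unfold discrim at this
  nlinarith

theorem ev_ip_nonneg (u : Fk N C.A) (p : M) : 0 ≤ C.ev p (ip u u) := by
  rw [ev_ip]
  exact ip_self_nonneg _

/-- the smoothed length -/
theorem exists_w (u : Fk N C.A) {δ : ℝ} (hδ : 0 < δ) : ∃ w : C.A,
    (∀ p, C.ev p w = √(δ + C.ev p (ip u u))) ∧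
    ∀ a p, C.ev p (C.F.e a w) * √(δ + C.ev p (ip u u)) = C.ev p (ip (nab C.F a u) u) := by
  have hU : IsOpen {x : ℝ | 0 < δ + x} := isOpen_lt continuous_const (by fun_prop)
  have hφ : ContDiffOn ℝ ∞ (fun x : ℝ => √(δ + x)) {x : ℝ | 0 < δ + x} := by
    apply ContDiffOn.sqrt
    · fun_prop
    · intro x hx
      exact (ne_of_gt hx)
  have hm : ∀ p, C.ev p (ip u u) ∈ {x : ℝ | 0 < δ + x} := fun p => by
    have := ev_ip_nonneg C u p
    show 0 < δ + C.ev p (ip u u)
    linarith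
  obtain ⟨w, hw⟩ := C.comp (ip u u) _ _ hU hφ hm
  refine ⟨w, hw, fun a p => ?_⟩
  rw [C.chain (ip u u) w _ _ hU hφ hm hw a p, Boch.e_ip, ip_comm u (nab C.F a u), ← two_mul]
  have hpos : 0 < δ + C.ev p (ip u u) := hm p
  have hd : deriv (fun x : ℝ => √(δ + x)) (C.ev p (ip u u)) =
      1 / (2 * √(δ + C.ev p (ip u u))) := by
    have h1 : HasDerivAt (fun x : ℝ => δ + x) 1 (C.ev p (ip u u)) :=
      (hasDerivAt_id _).const_add δ
    exact (h1.sqrt hpos.ne').deriv
  have hs : √(δ + C.ev p (ip u u)) ≠ 0 := (Real.sqrt_pos.2 hpos).ne'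
  rw [hd, map_mul]
  have h2 : C.ev p (2 : C.A) = 2 := map_ofNat _ 2
  rw [h2]
  field_simp

theorem gsq_w (u : Fk N C.A) {δ : ℝ} (hδ : 0 < δ) (w : C.A)
    (hw : ∀ a p, C.ev p (C.F.e a w) * √(δ + C.ev p (ip u u)) = C.ev p (ip (nab C.F a u) u)) :
    ig C (gsq C w) ≤ en C u := by
  unfold en nq
  rw [← ig_sum]
  refine ig_mono C fun p => ?_
  unfold gsq
  rw [ev_sum, ev_sum]
  refine Finset.sum_le_sum fun a _ => ?_
  have h1 := hw a p
  have hn := ev_ip_nonneg C u p
  have hpos : 0 < δ + C.ev p (ip u u) := by linarith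
  have h2 : C.ev p (C.F.e a w) ^ 2 * (δ + C.ev p (ip u u)) = C.ev p (ip (nab C.F a u) u) ^ 2 := by
    rw [← h1, mul_pow, Real.sq_sqrt hpos.le]
  have h3 : C.ev p (ip (nab C.F a u) u) ^ 2 ≤
      C.ev p (ip (nab C.F a u) (nab C.F a u)) * C.ev p (ip u u) := by
    rw [ev_ip, ev_ip, ev_ip]
    exact ip_sq_le _ _
  have h4 : 0 ≤ C.ev p (ip (nab C.F a u) (nab C.F a u)) := ev_ip_nonneg C _ p
  have h5 : C.ev p (C.F.e a w) ^ 2 * (δ + C.ev p (ip u u)) ≤
      C.ev p (ip (nab C.F a u) (nab C.F a u)) * (δ + C.ev p (ip u u)) := by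
    rw [h2]
    nlinarith
  rw [map_mul, ← pow_two]
  exact le_of_mul_le_mul_right h5 hpos

theorem cont_len (u : Fk N C.A) : Continuous fun p => √(C.ev p (ip u u)) :=
  (C.cont _).sqrt

theorem int_len_sq (u : Fk N C.A) : ∫ p, √(C.ev p (ip u u)) ^ 2 ∂C.μ = nq C u := by
  unfold nq ig
  refine integral_congr_ae (Filter.Eventually.of_forall fun p => ?_)
  exact Real.sq_sqrt (ev_ip_nonneg C u p)

theorem len_le_one {u : Fk N C.A} (hu : nq C u = 1) : ∫ p, √(C.ev p (ip u u)) ∂C.μ ≤ 1 := by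
  have h1 := cs_cont C (cont_len C u) (continuous_const (y := (1:ℝ)))
  rw [int_len_sq, hu] at h1
  simp only [mul_one, one_pow, integral_const, probReal_univ, smul_eq_mul] at h1
  have h0 : 0 ≤ ∫ p, √(C.ev p (ip u u)) ∂C.μ := integral_nonneg fun p => Real.sqrt_nonneg _
  nlinarith

theorem len_ge {K : ℝ} (hK : 0 ≤ K) (hP : Poin C K) {u : Fk N C.A} (hu : nq C u = 1) :
    1 - (∫ p, √(C.ev p (ip u u)) ∂C.μ) ^ 2 ≤ K * en C u := by
  set x := ∫ p, √(C.ev p (ip u u)) ∂C.μ with hx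
  have hx0 : 0 ≤ x := integral_nonneg fun p => Real.sqrt_nonneg _
  have hx1 : x ≤ 1 := len_le_one C hu
  refine le_of_forall_pos_le_add fun ε hε => ?_
  obtain ⟨w, hw1, hw2⟩ := exists_w C u (δ := (ε / 2) ^ 2) (by positivity)
  have h1 := hP w
  have h2 := gsq_w C u (δ := (ε / 2) ^ 2) (by positivity) w hw2
  have h3 : ig C (w ^ 2) = (ε / 2) ^ 2 + 1 := by
    have h4 : w ^ 2 = cs C ((ε / 2) ^ 2) + ip u u := by
      refine C.ext_ev _ _ fun p => ?_
      rw [map_pow, hw1, map_add, ev_cs, Real.sq_sqrt]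
      have := ev_ip_nonneg C u p
      positivity
    rw [h4, ig_add, ig_cs]
    congr 1
  have h5 : ig C w ≤ x + ε / 2 := by
    have h6 : ∫ p, (√(C.ev p (ip u u)) + ε / 2) ∂C.μ = x + ε / 2 := by
      rw [integral_add (int_cont C (cont_len C u)) (integrable_const _)]
      simp [hx]
    rw [← h6]
    refine integral_mono (int_ev C w) ((int_cont C (cont_len C u)).add (integrable_const _)) ?_
    intro p
    show C.ev p w ≤ √(C.ev p (ip u u)) + ε / 2
    rw [hw1, Real.sqrt_le_left (by positivity), add_sq, Real.sq_sqrt (ev_ip_nonneg C u p)]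
    have := Real.sqrt_nonneg (C.ev p (ip u u))
    nlinarith
  have h6 : 0 ≤ ig C w := ig_nonneg C fun p => by
    rw [hw1]
    exact Real.sqrt_nonneg _
  have h7 : ig C w ^ 2 ≤ (x + ε / 2) ^ 2 := by nlinarith
  have h8 : K * ig C (gsq C w) ≤ K * en C u := mul_le_mul_of_nonneg_left h2 hK
  nlinarith

theorem en_smul (c : ℝ) (u : Fk N C.A) : en C (c • u) = c ^ 2 * en C u := by
  unfold en
  rw [Finset.mul_sum]
  refine Finset.sum_congr rfl fun a _ => ?_
  rw [nab_smulR, nq_smul]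

theorem en_add_le (u v : Fk N C.A) : en C (u + v) ≤ 2 * en C u + 2 * en C v := by
  unfold en
  rw [Finset.mul_sum, Finset.mul_sum, ← Finset.sum_add_distrib]
  refine Finset.sum_le_sum fun a _ => ?_
  rw [nab_add]
  exact nq_add_le C _ _

theorem en_sub_le (u v : Fk N C.A) : en C (u - v) ≤ 2 * en C u + 2 * en C v := by
  have h1 : u - v = u + (-1 : ℝ) • v := by rw [neg_one_smul, sub_eq_add_neg]
  have h2 := en_add_le C u ((-1 : ℝ) • v)
  rw [en_smul] at h2
  rw [h1]
  linarith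

/-- `∫ ||u|² - 1|` -/
theorem gram1 (h : S_NEAR) {K τ : ℝ} (hK : 0 ≤ K) (hP : Poin C K) {u : Fk N C.A}
    (hu : nq C u = 1) (he : en C u ≤ τ) :
    ∫ p, |C.ev p (ip u u) - 1| ∂C.μ ≤ 2 * √(2 * K * τ) := by
  have hn := h M N C K hK hP u hu
  have hc := cont_len C u
  have h1 := cs_cont C (f := fun p => |√(C.ev p (ip u u)) - 1|)
    (g := fun p => √(C.ev p (ip u u)) + 1) (by fun_prop) (by fun_prop)
  have h2 : ∫ p, |√(C.ev p (ip u u)) - 1| * (√(C.ev p (ip u u)) + 1) ∂C.μ =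
      ∫ p, |C.ev p (ip u u) - 1| ∂C.μ := by
    refine integral_congr_ae (Filter.Eventually.of_forall fun p => ?_)
    show |√(C.ev p (ip u u)) - 1| * (√(C.ev p (ip u u)) + 1) = |C.ev p (ip u u) - 1|
    have h3 : 0 ≤ √(C.ev p (ip u u)) + 1 := by positivity
    have h4 : C.ev p (ip u u) - 1 = (√(C.ev p (ip u u)) - 1) * (√(C.ev p (ip u u)) + 1) := by
      have := Real.sq_sqrt (ev_ip_nonneg C u p)
      linear_combination -this
    rw [h4, abs_mul, abs_of_nonneg h3]
  have h3 : ∫ p, |√(C.ev p (ip u u)) - 1| ^ 2 ∂C.μ = ∫ p, (√(C.ev p (ip u u)) - 1) ^ 2 ∂C.μ := by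
    refine integral_congr_ae (Filter.Eventually.of_forall fun p => ?_)
    exact sq_abs _
  have h4 : ∫ p, (√(C.ev p (ip u u)) + 1) ^ 2 ∂C.μ ≤ 4 := by
    have h5 : ∫ p, (2 * √(C.ev p (ip u u)) ^ 2 + 2) ∂C.μ = 4 := by
      have h6 : Integrable (fun p => 2 * √(C.ev p (ip u u)) ^ 2) C.μ :=
        int_cont C (by fun_prop)
      rw [integral_add h6 (integrable_const _), integral_const_mul, int_len_sq, hu]
      simp
      norm_num
    rw [← h5]
    refine integral_mono (int_cont C (by fun_prop)) (int_cont C (by fun_prop)) ?_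
    intro p
    show (√(C.ev p (ip u u)) + 1) ^ 2 ≤ 2 * √(C.ev p (ip u u)) ^ 2 + 2
    nlinarith [sq_nonneg (√(C.ev p (ip u u)) - 1)]
  rw [h2, h3] at h1
  have h5 : 0 ≤ ∫ p, (√(C.ev p (ip u u)) - 1) ^ 2 ∂C.μ := integral_nonneg fun p => sq_nonneg _
  have h6 : 2 * K * en C u ≤ 2 * K * τ := mul_le_mul_of_nonneg_left he (by linarith)
  have h7 : (∫ p, |C.ev p (ip u u) - 1| ∂C.μ) ^ 2 ≤ 2 ^ 2 * (2 * K * τ) := by
    nlinarith
  have h8 : 2 * √(2 * K * τ) = √(2 ^ 2 * (2 * K * τ)) := by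
    rw [Real.sqrt_mul (show (0:ℝ) ≤ 2 ^ 2 by norm_num), Real.sqrt_sq (by norm_num)]
  rw [h8]
  exact Real.le_sqrt_of_sq_le h7

end Near

open Near

theorem s_near : S_NEAR := by
  intro M _ _ _ _ N C K hK hP u hu
  have h1 := len_ge C hK hP hu
  have h2 := len_le_one C hu
  have h3 : 0 ≤ ∫ p, √(C.ev p (ip u u)) ∂C.μ := integral_nonneg fun p => Real.sqrt_nonneg _
  have hc := cont_len C u
  have h4 : ∫ p, (√(C.ev p (ip u u)) - 1) ^ 2 ∂C.μ =
      2 - 2 * ∫ p, √(C.ev p (ip u u)) ∂C.μ := by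
    have h5 : ∫ p, (√(C.ev p (ip u u)) - 1) ^ 2 ∂C.μ =
        ∫ p, ((√(C.ev p (ip u u)) ^ 2 + 1) - 2 * √(C.ev p (ip u u))) ∂C.μ := by
      refine integral_congr_ae (Filter.Eventually.of_forall fun p => ?_)
      show (√(C.ev p (ip u u)) - 1) ^ 2 =
        (√(C.ev p (ip u u)) ^ 2 + 1) - 2 * √(C.ev p (ip u u))
      ring
    have h6 : Integrable (fun p => √(C.ev p (ip u u)) ^ 2) C.μ := int_cont C (by fun_prop)
    have h7 : Integrable (fun p => √(C.ev p (ip u u)) ^ 2 + 1) C.μ := int_cont C (by fun_prop)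
    have h8 : Integrable (fun p => 2 * √(C.ev p (ip u u))) C.μ := int_cont C (by fun_prop)
    rw [h5, integral_sub h7 h8, integral_add h6 (integrable_const _),
      integral_const_mul, int_len_sq, hu]
    simp
    norm_num
  rw [h4]
  nlinarith

theorem s_gram (h : S_NEAR) : S_GRAM := by
  intro M _ _ _ _ N C K τ hK hτ hP
  refine ⟨fun u hu he => ?_, fun u v hu hv huv heu hev => ?_⟩
  · refine (gram1 C h hK hP hu he).trans ?_
    have h1 : 2 * √(2 * K * τ) = √(2 ^ 2 * (2 * K * τ)) := by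
      rw [Real.sqrt_mul (show (0:ℝ) ≤ 2 ^ 2 by norm_num), Real.sqrt_sq (by norm_num)]
    have h2 : 4 * √(K * τ) = √(4 ^ 2 * (K * τ)) := by
      rw [Real.sqrt_mul (show (0:ℝ) ≤ 4 ^ 2 by norm_num), Real.sqrt_sq (by norm_num)]
    rw [h1, h2]
    apply Real.sqrt_le_sqrt
    have : 0 ≤ K * τ := mul_nonneg hK hτ
    linarith
  · set s : ℝ := (√2)⁻¹ with hs
    have hs2 : s ^ 2 = 1 / 2 := by
      rw [hs, inv_pow, Real.sq_sqrt (by norm_num)]
      norm_num
    have hp1 : nq C (s • (u + v)) = 1 := by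
      rw [nq_smul, nq_add, hu, hv, huv, hs2]
      norm_num
    have hm1 : nq C (s • (u - v)) = 1 := by
      rw [nq_smul, nq_sub, hu, hv, huv, hs2]
      norm_num
    have hp2 : en C (s • (u + v)) ≤ 2 * τ := by
      rw [en_smul, hs2]
      have := en_add_le C u v
      linarith
    have hm2 : en C (s • (u - v)) ≤ 2 * τ := by
      rw [en_smul, hs2]
      have := en_sub_le C u v
      linarith
    have h1 := gram1 C h hK hP hp1 hp2
    have h2 := gram1 C h hK hP hm1 hm2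
    have h3 : ∀ p, C.ev p (ip (s • (u + v)) (s • (u + v))) =
        1 / 2 * C.ev p (ip (u + v) (u + v)) := fun p => by
      rw [ip_smulR, ip_smulR', ev_smul, ev_smul, ← mul_assoc, ← pow_two, hs2]
    have h4 : ∀ p, C.ev p (ip (s • (u - v)) (s • (u - v))) =
        1 / 2 * C.ev p (ip (u - v) (u - v)) := fun p => by
      rw [ip_smulR, ip_smulR', ev_smul, ev_smul, ← mul_assoc, ← pow_two, hs2]
    have h5 : ∀ p, C.ev p (ip u v) = 1 / 2 * ((C.ev p (ip (s • (u + v)) (s • (u + v))) - 1) -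
        (C.ev p (ip (s • (u - v)) (s • (u - v))) - 1)) := fun p => by
      rw [h3, h4, ip_add_left, ip_add_right, ip_add_right, ip_sub_left, ip_sub_right,
        ip_sub_right, ip_comm v u]
      simp only [map_add, map_sub]
      ring
    have hi1 : Integrable (fun p => |C.ev p (ip (s • (u + v)) (s • (u + v))) - 1|) C.μ :=
      int_cont C ((C.cont _).sub continuous_const).abs
    have hi2 : Integrable (fun p => |C.ev p (ip (s • (u - v)) (s • (u - v))) - 1|) C.μ :=
      int_cont C ((C.cont _).sub continuous_const).abs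
    have h6 : ∫ p, |C.ev p (ip u v)| ∂C.μ ≤
        ∫ p, 1 / 2 * (|C.ev p (ip (s • (u + v)) (s • (u + v))) - 1| +
          |C.ev p (ip (s • (u - v)) (s • (u - v))) - 1|) ∂C.μ := by
      refine integral_mono (int_cont C (C.cont _).abs) ((hi1.add hi2).const_mul _) ?_
      intro p
      show |C.ev p (ip u v)| ≤ 1 / 2 * (|C.ev p (ip (s • (u + v)) (s • (u + v))) - 1| +
          |C.ev p (ip (s • (u - v)) (s • (u - v))) - 1|)
      rw [h5 p, abs_mul, abs_of_pos (by norm_num : (0:ℝ) < 1 / 2)]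
      exact mul_le_mul_of_nonneg_left (abs_sub _ _) (by norm_num)
    rw [integral_const_mul, integral_add hi1 hi2] at h6
    have h7 : √(2 * K * (2 * τ)) = 2 * √(K * τ) := by
      have : 2 * K * (2 * τ) = 2 ^ 2 * (K * τ) := by ring
      rw [this, Real.sqrt_mul (show (0:ℝ) ≤ 2 ^ 2 by norm_num), Real.sqrt_sq (by norm_num)]
    rw [h7] at h1 h2
    linarith

end Pool.Agent.H781.CM
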