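import Pool.Agent.H781.CM.Spec
import Pool.Agent.H781.CM.Bo

/-!
The projection of the Fock space to the horizontal elements (task CM-2, `S_PH`).
-/

set_option autoImplicit false
set_option synthInstance.maxHeartbeats 400000
set_option maxHeartbeats 4000000
set_option linter.unusedSectionVars false

noncomputable section

namespace Pool.Agent.H781.CM

open Pool.Agent.H781.NG

namespace Phh

variable {N : ℕ} {A : Type*} [CommRing A] [Algebra ℝ A]

/-! ### The operator `K` -/

/-- `K = ∑ Q_ab cr_b an_a` -/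
def K (Q : Fin N → Fin N → A) : Fk N A →ₗ[A] Fk N A := ∑ a, ∑ b, Q a b • (cr b ∘ₗ an a)

theorem K_apply (Q : Fin N → Fin N → A) (u : Fk N A) :
    K Q u = ∑ a, ∑ b, Q a b • cr b (an a u) := by
  simp only [K, LinearMap.sum_apply, LinearMap.smul_apply, LinearMap.comp_apply]

/-- rotated creation operator -/
def crT (Q : Fin N → Fin N → A) (i : Fin N) : Fk N A →ₗ[A] Fk N A := ∑ j, Q i j • cr j

/-- rotated annihilation operator -/
def anT (Q : Fin N → Fin N → A) (i : Fin N) : Fk N A →ₗ[A] Fk N A := ∑ j, Q i j • an j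

theorem crT_apply (Q : Fin N → Fin N → A) (i : Fin N) (u : Fk N A) :
    crT Q i u = ∑ j, Q i j • cr j u := by
  simp only [crT, LinearMap.sum_apply, LinearMap.smul_apply]

theorem anT_apply (Q : Fin N → Fin N → A) (i : Fin N) (u : Fk N A) :
    anT Q i u = ∑ j, Q i j • an j u := by
  simp only [anT, LinearMap.sum_apply, LinearMap.smul_apply]

theorem K_cr (Q : Fin N → Fin N → A) (j : Fin N) (u : Fk N A) :
    K Q (cr j u) = cr j (K Q u) + crT Q j u := by
  rw [K_apply, K_apply, crT_apply, map_sum]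
  have h : ∀ a b, Q a b • cr b (an a (cr j u)) =
      cr j (Q a b • cr b (an a u)) + (if a = j then Q a b • cr b u else 0) := by
    intro a b
    rw [an_cr, map_sub, cr_cr b j (an a u), map_smul]
    split_ifs with h
    · rw [sub_neg_eq_add, smul_add, add_comm]
    · rw [map_zero, sub_neg_eq_add, zero_add, add_zero]
  simp only [h, Finset.sum_add_distrib, map_sum]
  congr 1
  rw [Finset.sum_comm]
  refine Finset.sum_congr rfl fun c _ => ?_
  simp

theorem an_K (Q : Fin N → Fin N → A) (hs : ∀ a b, Q a b = Q b a) (c : Fin N) (u : Fk N A) :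
    an c (K Q u) = K Q (an c u) + anT Q c u := by
  rw [K_apply, K_apply, anT_apply, map_sum]
  have h : ∀ a b, an c (Q a b • cr b (an a u)) =
      Q a b • cr b (an a (an c u)) + (if c = b then Q a b • an a u else 0) := by
    intro a b
    rw [map_smul, an_cr, an_an c a, map_neg, smul_sub, smul_neg]
    split_ifs with h
    · abel
    · rw [smul_zero]
      abel
  simp only [map_sum, h, Finset.sum_add_distrib]
  congr 1
  refine Finset.sum_congr rfl fun a _ => ?_
  simp [hs a c]

theorem crT_crT (Q : Fin N → Fin N → A) (hi : ∀ a c, ∑ b, Q a b * Q b c = Q a c) (i : Fin N)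
    (u : Fk N A) : ∑ j, Q i j • crT Q j u = crT Q i u := by
  simp only [crT_apply, Finset.smul_sum, smul_smul]
  rw [Finset.sum_comm]
  refine Finset.sum_congr rfl fun c _ => ?_
  rw [← Finset.sum_smul, hi]

theorem anT_anT (Q : Fin N → Fin N → A) (hi : ∀ a c, ∑ b, Q a b * Q b c = Q a c) (i : Fin N)
    (u : Fk N A) : ∑ j, Q i j • anT Q j u = anT Q i u := by
  simp only [anT_apply, Finset.smul_sum, smul_smul]
  rw [Finset.sum_comm]
  refine Finset.sum_congr rfl fun c _ => ?_
  rw [← Finset.sum_smul, hi]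

theorem K_crT (Q : Fin N → Fin N → A) (hi : ∀ a c, ∑ b, Q a b * Q b c = Q a c) (i : Fin N)
    (u : Fk N A) : K Q (crT Q i u) = crT Q i (K Q u) + crT Q i u := by
  conv_lhs => rw [crT_apply, map_sum]
  simp only [map_smul, K_cr, smul_add, Finset.sum_add_distrib]
  rw [crT_crT Q hi, ← crT_apply]

theorem anT_K (Q : Fin N → Fin N → A) (hs : ∀ a b, Q a b = Q b a)
    (hi : ∀ a c, ∑ b, Q a b * Q b c = Q a c) (i : Fin N)
    (u : Fk N A) : anT Q i (K Q u) = K Q (anT Q i u) + anT Q i u := by
  conv_lhs => rw [anT_apply]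
  simp only [an_K Q hs, smul_add, Finset.sum_add_distrib]
  rw [anT_anT Q hi]
  congr 1
  rw [anT_apply, map_sum]
  simp only [map_smul]

/-- the complementary creation operator commutes with `K` -/
theorem K_crP (Q : Fin N → Fin N → A) (hi : ∀ a c, ∑ b, Q a b * Q b c = Q a c) (i : Fin N)
    (u : Fk N A) : K Q (cr i u - crT Q i u) = cr i (K Q u) - crT Q i (K Q u) := by
  rw [map_sub, K_cr, K_crT Q hi]
  abel

/-! ### The falling factorials of `K` -/

/-- `K (K - 1) ... (K - n + 1)` -/
def R (Q : Fin N → Fin N → A) : ℕ → Fk N A →ₗ[A] Fk N A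
  | 0 => LinearMap.id
  | n + 1 => (K Q - (n : ℝ) • LinearMap.id) ∘ₗ R Q n

theorem R_succ (Q : Fin N → Fin N → A) (n : ℕ) (u : Fk N A) :
    R Q (n + 1) u = K Q (R Q n u) - (n : ℝ) • R Q n u := rfl

theorem R_crP (Q : Fin N → Fin N → A) (hi : ∀ a c, ∑ b, Q a b * Q b c = Q a c) (i : Fin N)
    (n : ℕ) (u : Fk N A) :
    R Q n (cr i u - crT Q i u) = cr i (R Q n u) - crT Q i (R Q n u) := by
  induction n with
  | zero => rfl
  | succ n ih =>
    rw [R_succ, R_succ, ih, K_crP Q hi, map_sub, map_sub, LinearMap.map_smul_of_tower,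
      LinearMap.map_smul_of_tower, smul_sub]
    abel

theorem R_crT (Q : Fin N → Fin N → A) (hi : ∀ a c, ∑ b, Q a b * Q b c = Q a c) (i : Fin N)
    (n : ℕ) (u : Fk N A) :
    R Q (n + 1) (crT Q i u) = crT Q i (R Q n (K Q u + u)) := by
  induction n with
  | zero =>
    rw [R_succ]
    simp only [R, LinearMap.id_apply, Nat.cast_zero, zero_smul, sub_zero]
    rw [K_crT Q hi, map_add]
  | succ n ih =>
    rw [R_succ, ih, K_crT Q hi, R_succ, map_sub, LinearMap.map_smul_of_tower, Nat.cast_succ,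
      add_smul, one_smul]
    abel

theorem R_add (Q : Fin N → Fin N → A) (n k : ℕ) (u : Fk N A) (h : R Q n u = 0) :
    R Q (n + k) u = 0 := by
  induction k with
  | zero => exact h
  | succ k ih => rw [← add_assoc, R_succ, ih, map_zero, smul_zero, sub_zero]

/-! ### Degrees -/

theorem Deg.crD {p : ℕ} {u : Fk N A} (h : Deg p u) (i : Fin N) : Deg (p + 1) (cr i u) := by
  intro S hS
  rw [cr_apply]
  split_ifs with hi
  · rw [h, mul_zero]
    intro hc
    apply hS
    rw [Finset.card_erase_of_mem hi] at hc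
    have := Finset.card_pos.2 ⟨i, hi⟩
    omega
  · rfl

theorem Deg.anD {p : ℕ} {u : Fk N A} (h : Deg (p + 1) u) (i : Fin N) : Deg p (an i u) := by
  intro S hS
  rw [an_apply]
  split_ifs with hi
  · rfl
  · rw [h, mul_zero]
    rw [Finset.card_insert_of_notMem hi]
    omega

theorem Deg.an_zero {u : Fk N A} (h : Deg 0 u) (i : Fin N) : an i u = 0 := by
  funext S
  rw [an_apply]
  split_ifs with hi
  · rfl
  · rw [h, mul_zero]
    · rfl
    · rw [Finset.card_insert_of_notMem hi]
      omega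

theorem Deg.addD {p : ℕ} {u v : Fk N A} (hu : Deg p u) (hv : Deg p v) : Deg p (u + v) := by
  intro S hS
  rw [Pi.add_apply, hu S hS, hv S hS, add_zero]

theorem Deg.subD {p : ℕ} {u v : Fk N A} (hu : Deg p u) (hv : Deg p v) : Deg p (u - v) := by
  intro S hS
  rw [Pi.sub_apply, hu S hS, hv S hS, sub_zero]

theorem Deg.smulD {p : ℕ} {u : Fk N A} (hu : Deg p u) (a : A) : Deg p (a • u) := by
  intro S hS
  rw [Pi.smul_apply, hu S hS, smul_zero]

theorem Deg.smulRD {p : ℕ} {u : Fk N A} (hu : Deg p u) (a : ℝ) : Deg p (a • u) := by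
  intro S hS
  rw [Pi.smul_apply, hu S hS, smul_zero]

theorem Deg.sumD {p : ℕ} {κ : Type*} (s : Finset κ) (f : κ → Fk N A) (h : ∀ k ∈ s, Deg p (f k)) :
    Deg p (∑ k ∈ s, f k) := by
  intro S hS
  rw [Finset.sum_apply]
  exact Finset.sum_eq_zero fun k hk => h k hk S hS

theorem Deg.KD (Q : Fin N → Fin N → A) {p : ℕ} {u : Fk N A} (h : Deg p u) : Deg p (K Q u) := by
  rw [K_apply]
  refine Deg.sumD _ _ fun a _ => Deg.sumD _ _ fun b _ => Deg.smulD ?_ _
  rcases p with _ | p
  · rw [Deg.an_zero h, map_zero]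
    intro S _
    rfl
  · exact Deg.crD (Deg.anD h a) b

theorem R_deg (Q : Fin N → Fin N → A) (hi : ∀ a c, ∑ b, Q a b * Q b c = Q a c) (p : ℕ)
    (u : Fk N A) (h : Deg p u) : R Q (p + 1) u = 0 := by
  induction p generalizing u with
  | zero =>
    rw [R_succ]
    simp only [R, LinearMap.id_apply, Nat.cast_zero, zero_smul, sub_zero]
    rw [K_apply]
    refine Finset.sum_eq_zero fun a _ => Finset.sum_eq_zero fun b _ => ?_
    rw [Deg.an_zero h, map_zero, smul_zero]
  | succ p ih =>
    have hn : ((p + 1 : ℕ) : ℝ) • u = ∑ i, cr i (an i u) := by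
      funext S
      rw [number, Pi.smul_apply]
      by_cases hS : S.card = p + 1
      · rw [hS, Algebra.smul_def, map_natCast]
      · rw [h S hS, smul_zero, mul_zero]
    have h0 : R Q (p + 1 + 1) (((p + 1 : ℕ) : ℝ) • u) = 0 := by
      rw [hn, map_sum]
      refine Finset.sum_eq_zero fun i _ => ?_
      have hd : Deg p (an i u) := Deg.anD h i
      have h1 : cr i (an i u) = (cr i (an i u) - crT Q i (an i u)) + crT Q i (an i u) := by abel
      rw [h1, map_add, R_crP Q hi, R_crT Q hi, ih _ (Deg.addD (Deg.KD Q hd) hd),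
        R_add Q (p + 1) 1 _ (ih _ hd)]
      simp
    rw [LinearMap.map_smul_of_tower] at h0
    have h2 : ((p + 1 : ℕ) : ℝ) ≠ 0 := by positivity
    have h3 := congrArg (fun w => (((p + 1 : ℕ) : ℝ))⁻¹ • w) h0
    simp only [smul_smul, inv_mul_cancel₀ h2, one_smul, smul_zero] at h3
    exact h3

/-! ### The projection -/

/-- `∏_{q=1..n} (1 - K/q)` -/
def Pq (Q : Fin N → Fin N → A) : ℕ → Fk N A →ₗ[A] Fk N A
  | 0 => LinearMap.id
  | n + 1 => (LinearMap.id - ((n : ℝ) + 1)⁻¹ • K Q) ∘ₗ Pq Q n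

theorem Pq_succ (Q : Fin N → Fin N → A) (n : ℕ) (u : Fk N A) :
    Pq Q (n + 1) u = Pq Q n u - ((n : ℝ) + 1)⁻¹ • K Q (Pq Q n u) := rfl

theorem anT_Pq (Q : Fin N → Fin N → A) (hs : ∀ a b, Q a b = Q b a)
    (hi : ∀ a c, ∑ b, Q a b * Q b c = Q a c) (i : Fin N) (n : ℕ) (u : Fk N A) :
    ∃ k : ℝ, anT Q i (Pq Q n u) = k • R Q n (anT Q i u) := by
  induction n with
  | zero => exact ⟨1, by rw [one_smul]; rfl⟩
  | succ n ih =>
    obtain ⟨k, hk⟩ := ih
    refine ⟨-(((n : ℝ) + 1)⁻¹ * k), ?_⟩
    rw [Pq_succ, map_sub, LinearMap.map_smul_of_tower, anT_K Q hs hi, hk, R_succ,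
      LinearMap.map_smul_of_tower]
    have hn : ((n : ℝ) + 1) ≠ 0 := by positivity
    have h1 : k • R Q n (anT Q i u) = (((n : ℝ) + 1)⁻¹ * k * n) • R Q n (anT Q i u) +
        (((n : ℝ) + 1)⁻¹ * k) • R Q n (anT Q i u) := by
      rw [← add_smul]
      congr 1
      field_simp
    rw [smul_add, smul_smul, smul_smul]
    nth_rewrite 1 [h1]
    simp only [smul_sub, smul_smul]
    module

theorem anT_Pq_top (Q : Fin N → Fin N → A) (hs : ∀ a b, Q a b = Q b a)
    (hi : ∀ a c, ∑ b, Q a b * Q b c = Q a c) (i : Fin N) (u : Fk N A) :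
    anT Q i (Pq Q N u) = 0 := by
  obtain ⟨k, hk⟩ := anT_Pq Q hs hi i N u
  rw [hk]
  set v := anT Q i u with hv
  have htop : v Finset.univ = 0 := by
    rw [hv, anT_apply, Finset.sum_apply]
    refine Finset.sum_eq_zero fun j _ => ?_
    rw [Pi.smul_apply, an_apply, if_pos (Finset.mem_univ j), smul_zero]
  have hdec : v = ∑ p ∈ Finset.range N, dpt p v := by
    funext S
    rw [Finset.sum_apply]
    unfold dpt
    by_cases hS : S.card < N
    · rw [Finset.sum_eq_single S.card]
      · rw [if_pos rfl]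
      · intro b _ hb
        rw [if_neg (Ne.symm hb)]
      · intro h
        exact absurd (Finset.mem_range.2 hS) h
    · have hU : S = Finset.univ := by
        apply Finset.eq_univ_of_card
        have := Finset.card_le_univ S
        rw [Fintype.card_fin] at this ⊢
        omega
      rw [hU, htop]
      symm
      refine Finset.sum_eq_zero fun p hp => ?_
      rw [if_neg]
      rw [Finset.card_univ, Fintype.card_fin]
      have := Finset.mem_range.1 hp
      omega
  rw [hdec, map_sum, Finset.sum_eq_zero, smul_zero]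
  intro p hp
  have hp' := Finset.mem_range.1 hp
  have hd : Deg p (dpt p v) := by
    intro S hS
    unfold dpt
    rw [if_neg hS]
  have := R_add Q (p + 1) (N - (p + 1)) _ (R_deg Q hi p _ hd)
  rwa [show p + 1 + (N - (p + 1)) = N by omega] at this

theorem Pq_fix (Q : Fin N → Fin N → A) (n : ℕ) (u : Fk N A) (h : K Q u = 0) : Pq Q n u = u := by
  induction n with
  | zero => rfl
  | succ n ih => rw [Pq_succ, ih, h, smul_zero, sub_zero]

/-- an additive real-linear operator commuting with `K` commutes with `Pq` -/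
theorem Pq_comm (Q : Fin N → Fin N → A) (T : Fk N A →ₗ[ℝ] Fk N A)
    (hT : ∀ u, T (K Q u) = K Q (T u)) (n : ℕ) (u : Fk N A) : T (Pq Q n u) = Pq Q n (T u) := by
  induction n with
  | zero => rfl
  | succ n ih => rw [Pq_succ, Pq_succ, map_sub, map_smul, hT, ih]

theorem Pq_K (Q : Fin N → Fin N → A) (n : ℕ) (u : Fk N A) : K Q (Pq Q n u) = Pq Q n (K Q u) := by
  induction n with
  | zero => rfl
  | succ n ih => rw [Pq_succ, Pq_succ, map_sub, LinearMap.map_smul_of_tower, ih]

theorem ip_K (Q : Fin N → Fin N → A) (hs : ∀ a b, Q a b = Q b a) (u v : Fk N A) :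
    ip (K Q u) v = ip u (K Q v) := by
  rw [K_apply, K_apply]
  simp only [ip_sum_left, ip_sum_right, ip_smul_left, ip_smul_right, ip_cr, ip_an]
  rw [Finset.sum_comm]
  refine Finset.sum_congr rfl fun a _ => Finset.sum_congr rfl fun b _ => ?_
  rw [hs b a]

theorem ip_Pq (Q : Fin N → Fin N → A) (hs : ∀ a b, Q a b = Q b a) (n : ℕ) (u v : Fk N A) :
    ip (Pq Q n u) v = ip u (Pq Q n v) := by
  induction n generalizing u v with
  | zero => rfl
  | succ n ih =>
    rw [Pq_succ, Pq_succ, ip_sub_left, ip_sub_right, ip_smulR, ip_smulR', ih, ip_K Q hs, ih,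
      Pq_K Q n v]

theorem Pq_deg (Q : Fin N → Fin N → A) (n p : ℕ) (u : Fk N A) (h : Deg p u) :
    Deg p (Pq Q n u) := by
  induction n with
  | zero => exact h
  | succ n ih =>
    rw [Pq_succ]
    exact Deg.subD ih (Deg.smulRD (Deg.KD Q ih) _)

/-! ### Commutation with the covariant derivative -/

theorem nab_smul (F : Fr N A) (a : Fin N) (f : A) (u : Fk N A) :
    nab F a (f • u) = F.e a f • u + f • nab F a u := by
  rw [Boch.nab_def, Boch.nab_def, Boch.ee_smul, Boch.gam_smul, smul_add, add_assoc]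

theorem nab_sum (F : Fr N A) {κ : Type*} (a : Fin N) (s : Finset κ) (f : κ → Fk N A) :
    nab F a (∑ k ∈ s, f k) = ∑ k ∈ s, nab F a (f k) := by
  rw [Boch.nab_def, Boch.ee_sum, Boch.gam_sum, ← Finset.sum_add_distrib]
  rfl

theorem nab_Kc (F : Fr N A) (Q : Fin N → Fin N → A)
    (hpar : ∀ a p q, F.e a (Q p q) + ∑ d, Q d q * F.Γ a d p + ∑ d, Q p d * F.Γ a d q = 0)
    (a : Fin N) (u : Fk N A) : nab F a (K Q u) = K Q (nab F a u) := by
  rw [K_apply, K_apply]
  simp only [nab_sum, nab_smul, Boch.nab_K, smul_add, Finset.sum_add_distrib, Finset.smul_sum,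
    smul_smul]
  have h1 : ∑ p, ∑ q, ∑ c, (Q p q * F.Γ a p c) • cr q (an c u) =
      ∑ p, ∑ q, (∑ d, Q d q * F.Γ a d p) • cr q (an p u) := by
    have : ∀ p : Fin N, ∑ q, ∑ c, (Q p q * F.Γ a p c) • cr q (an c u) =
        ∑ c, ∑ q, (Q p q * F.Γ a p c) • cr q (an c u) := fun p => Finset.sum_comm
    simp only [this, Finset.sum_smul]
    rw [Finset.sum_comm]
    refine Finset.sum_congr rfl fun c _ => ?_
    rw [Finset.sum_comm]
  have h2 : ∑ p, ∑ q, ∑ c, (Q p q * F.Γ a q c) • cr c (an p u) =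
      ∑ p, ∑ q, (∑ d, Q p d * F.Γ a d q) • cr q (an p u) := by
    refine Finset.sum_congr rfl fun p _ => ?_
    rw [Finset.sum_comm]
    simp only [Finset.sum_smul]
  rw [h1, h2]
  have h3 : ∑ p, ∑ q, F.e a (Q p q) • cr q (an p u) +
      (∑ p, ∑ q, (∑ d, Q d q * F.Γ a d p) • cr q (an p u) +
      ∑ p, ∑ q, (∑ d, Q p d * F.Γ a d q) • cr q (an p u)) = 0 := by
    simp only [← Finset.sum_add_distrib, ← add_smul]
    refine Finset.sum_eq_zero fun p _ => Finset.sum_eq_zero fun q _ => ?_
    rw [Finset.sum_add_distrib, ← add_assoc, hpar, zero_smul]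
  calc _ = (∑ p, ∑ q, F.e a (Q p q) • cr q (an p u) +
      (∑ p, ∑ q, (∑ d, Q d q * F.Γ a d p) • cr q (an p u) +
      ∑ p, ∑ q, (∑ d, Q p d * F.Γ a d q) • cr q (an p u))) +
      ∑ p, ∑ q, Q p q • cr q (an p (nab F a u)) := by abel
    _ = _ := by rw [h3, zero_add]

theorem dd_Kc (F : Fr N A) (Q : Fin N → Fin N → A)
    (hn : ∀ a (u : Fk N A), nab F a (K Q u) = K Q (nab F a u))
    (hq : ∀ b (u : Fk N A), ∑ a, Q a b • nab F a u = 0) (u : Fk N A) :
    dd F (K Q u) = K Q (dd F u) := by
  unfold dd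
  rw [map_sum]
  simp only [hn, K_cr, Finset.sum_add_distrib, crT_apply]
  rw [Finset.sum_comm (f := fun a b => Q a b • cr b (nab F a u))]
  have h : ∑ b, ∑ a, Q a b • cr b (nab F a u) = 0 := by
    refine Finset.sum_eq_zero fun b _ => ?_
    have := congrArg (cr b) (hq b u)
    rw [map_sum, map_zero] at this
    simp only [map_smul] at this
    exact this
  rw [h, add_zero]

theorem de_Kc (F : Fr N A) (Q : Fin N → Fin N → A) (hs : ∀ a b, Q a b = Q b a)
    (hn : ∀ a (u : Fk N A), nab F a (K Q u) = K Q (nab F a u))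
    (hq : ∀ b (u : Fk N A), ∑ a, Q a b • nab F a u = 0) (u : Fk N A) :
    de F (K Q u) = K Q (de F u) := by
  unfold de
  rw [map_neg, map_sum]
  simp only [hn, an_K Q hs, Finset.sum_add_distrib, anT_apply]
  rw [Finset.sum_comm (f := fun a b => Q a b • an b (nab F a u))]
  have h : ∑ b, ∑ a, Q a b • an b (nab F a u) = 0 := by
    refine Finset.sum_eq_zero fun b _ => ?_
    have := congrArg (an b) (hq b u)
    rw [map_sum, map_zero] at this
    simp only [map_smul] at this
    exact this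
  rw [h, add_zero]

end Phh

open Phh in
/-- task CM-2 -/
theorem s_ph : S_PH := by
  intro M _ _ _ _ N C
  classical
  set Q : Fin N → Fin N → C.A := fun a b => (if a = b then 1 else 0) - C.P a b with hQ
  have hs : ∀ a b, Q a b = Q b a := by
    intro a b
    simp only [hQ]
    rw [C.Psymm a b]
    congr 1
    by_cases h : a = b
    · rw [if_pos h, if_pos h.symm]
    · rw [if_neg h, if_neg (Ne.symm h)]
  have hi : ∀ a c, ∑ b, Q a b * Q b c = Q a c := by
    intro a c
    simp only [hQ, sub_mul, mul_sub, Finset.sum_sub_distrib, C.Pidem]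
    simp
  have hPQ : ∀ b d, ∑ a, Q a b * C.P a d = 0 := by
    intro b d
    simp only [hQ, sub_mul, Finset.sum_sub_distrib]
    have h1 : ∑ x, C.P x b * C.P x d = C.P b d := by
      rw [← C.Pidem b d]
      exact Finset.sum_congr rfl fun x _ => by rw [C.Psymm x b]
    rw [h1]
    simp
  have hnP : ∀ a (u : Fk N C.A), ∑ b, C.P a b • nab C.F b u = nab C.F a u := by
    intro a u
    simp only [Boch.nab_def, smul_add, Finset.sum_add_distrib]
    congr 1
    · funext S
      rw [Finset.sum_apply]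
      exact C.Pe a (u S)
    · unfold gam
      simp only [Finset.smul_sum, smul_smul]
      rw [Finset.sum_comm]
      refine Finset.sum_congr rfl fun b _ => ?_
      rw [Finset.sum_comm]
      refine Finset.sum_congr rfl fun c _ => ?_
      rw [← Finset.sum_smul, C.PG]
  have hq : ∀ b (u : Fk N C.A), ∑ a, Q a b • nab C.F a u = 0 := by
    intro b u
    have h1 : ∀ a, Q a b • nab C.F a u = ∑ d, (Q a b * C.P a d) • nab C.F d u := by
      intro a
      conv_lhs => rw [← hnP a u]
      simp only [Finset.smul_sum, smul_smul]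
    simp only [h1]
    rw [Finset.sum_comm]
    refine Finset.sum_eq_zero fun d _ => ?_
    rw [← Finset.sum_smul, hPQ, zero_smul]
  have hpar : ∀ a p q, C.F.e a (Q p q) + ∑ d, Q d q * C.F.Γ a d p +
      ∑ d, Q p d * C.F.Γ a d q = 0 := by
    intro a p q
    have h1 : C.F.e a (Q p q) = - ∑ d, (C.F.Γ a p d * C.P d q + C.F.Γ a q d * C.P p d) := by
      simp only [hQ, map_sub]
      rw [C.Ppar]
      have : C.F.e a (if p = q then (1 : C.A) else 0) = 0 := by
        split_ifs
        · exact Derivation.map_one_eq_zero _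
        · exact map_zero _
      rw [this, zero_sub]
    have h2 : ∑ d, Q d q * C.F.Γ a d p = C.F.Γ a q p + ∑ d, C.F.Γ a p d * C.P d q := by
      simp only [hQ, sub_mul, Finset.sum_sub_distrib]
      simp only [ite_mul, one_mul, zero_mul, Finset.sum_ite_eq', Finset.mem_univ, if_true]
      rw [sub_eq_add_neg, ← Finset.sum_neg_distrib]
      congr 1
      refine Finset.sum_congr rfl fun d _ => ?_
      rw [C.F.anti a d p]
      ring
    have h3 : ∑ d, Q p d * C.F.Γ a d q = C.F.Γ a p q + ∑ d, C.F.Γ a q d * C.P p d := by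
      simp only [hQ, sub_mul, Finset.sum_sub_distrib]
      simp only [ite_mul, one_mul, zero_mul, Finset.sum_ite_eq, Finset.mem_univ, if_true]
      rw [sub_eq_add_neg, ← Finset.sum_neg_distrib]
      congr 1
      refine Finset.sum_congr rfl fun d _ => ?_
      rw [C.F.anti a d q]
      ring
    rw [h1, h2, h3, C.F.anti a q p, Finset.sum_add_distrib]
    ring
  have hn := fun a u => nab_Kc C.F Q hpar a u
  have hanT : ∀ c (u : Fk N C.A), anT Q c u = an c u - ∑ a, C.P c a • an a u := by
    intro c u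
    rw [anT_apply]
    simp only [hQ, sub_smul, Finset.sum_sub_distrib, ite_smul, one_smul, zero_smul,
      Finset.sum_ite_eq, Finset.mem_univ, if_true]
  refine ⟨Pq Q N, ?_, ?_, ?_, ?_, ?_, ?_⟩
  · intro u c
    have h := anT_Pq_top Q hs hi c u
    rw [hanT] at h
    exact sub_eq_zero.1 h
  · intro u hu
    apply Pq_fix
    rw [K_apply, Finset.sum_comm]
    refine Finset.sum_eq_zero fun b _ => ?_
    have h : anT Q b u = 0 := by rw [hanT, ← hu b, sub_self]
    have h2 := congrArg (cr b) h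
    rw [anT_apply, map_sum, map_zero] at h2
    rw [← h2]
    refine Finset.sum_congr rfl fun a _ => ?_
    rw [map_smul, hs a b]
  · intro u
    exact Pq_comm Q (ddL C.F) (fun u => dd_Kc C.F Q hn hq u) N u
  · intro u
    exact Pq_comm Q (deL C.F) (fun u => de_Kc C.F Q hs hn hq u) N u
  · intro u v
    exact ip_Pq Q hs N u v
  · intro p u hu
    exact Pq_deg Q N p u hu

end Pool.Agent.H781.CM
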