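import Pool.Agent.H781.CM.Base

/-!
(CM-22) truncated products of almost parallel forms are almost parallel.
-/

set_option autoImplicit false
set_option synthInstance.maxHeartbeats 400000
set_option maxHeartbeats 4000000
set_option linter.unusedSectionVars false

open MeasureTheory Filter
open scoped Topology ContDiff

noncomputable section

namespace Pool.Agent.H781.CM

open Pool.Agent.H781.NG

namespace Prod

variable {M : Type} [TopologicalSpace M] [CompactSpace M] [MeasurableSpace M] [BorelSpace M]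
  {N : ℕ} (C : CD M N)

theorem nab_smul (a : Fin N) (f : C.A) (u : Fk N C.A) :
    nab C.F a (f • u) = C.F.e a f • u + f • nab C.F a u := by
  rw [Boch.nab_def, Boch.nab_def, Boch.ee_smul, Boch.gam_smul, smul_add, add_assoc]

theorem hor_smul (f : C.A) {u : Fk N C.A} (hu : Hor C u) : Hor C (f • u) := by
  intro c
  rw [map_smul, hu c, Finset.smul_sum]
  refine Finset.sum_congr rfl fun a _ => ?_
  rw [map_smul, smul_comm]

/-- the derivative of `2 / (1 + x)` -/
theorem deriv_phi {x : ℝ} (hx : -1 < x) : deriv (fun y : ℝ => 2 / (1 + y)) x = - (2 / (1 + x)) ^ 2 / 2 := by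
  have h1 : (1 + x) ≠ 0 := by linarith
  have h2 : HasDerivAt (fun y : ℝ => 1 + y) 1 x := (hasDerivAt_id x).const_add 1
  have h3 : HasDerivAt (fun y : ℝ => 2 / (1 + y)) ((0 * (1 + x) - 2 * 1) / (1 + x) ^ 2) x :=
    (hasDerivAt_const x (2 : ℝ)).div h2 h1
  rw [h3.deriv]
  field_simp
  ring

/-- real inequality -/
theorem real_bound {x g c w : ℝ} (hx : 0 ≤ x) (hg : g = 2 / (1 + x)) (hc : c ^ 2 ≤ x * w) (hw : 0 ≤ w) :
    g ^ 4 * c ^ 2 * x - 2 * g ^ 3 * c ^ 2 + g ^ 2 * w ≤ 9 * w ∧ g ^ 2 * x ≤ 1 := by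
  have h1 : 0 < 1 + x := by linarith
  have hg0 : 0 < g := by rw [hg]; positivity
  have hg2 : g ≤ 2 := by rw [hg, div_le_iff₀ h1]; linarith
  have hgx : g ^ 2 * x ≤ 1 := by
    rw [hg, div_pow, div_mul_eq_mul_div, div_le_one (by positivity)]
    nlinarith [sq_nonneg (1 - x)]
  refine ⟨?_, hgx⟩
  have e1 : g ^ 2 * c ^ 2 ≤ w := by
    calc g ^ 2 * c ^ 2 ≤ g ^ 2 * (x * w) := mul_le_mul_of_nonneg_left hc (by positivity)
      _ = (g ^ 2 * x) * w := by ring
      _ ≤ 1 * w := mul_le_mul_of_nonneg_right hgx hw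
      _ = w := one_mul w
  have e2 : g ^ 4 * c ^ 2 * x ≤ w := by
    calc g ^ 4 * c ^ 2 * x = (g ^ 2 * x) * (g ^ 2 * c ^ 2) := by ring
      _ ≤ 1 * (g ^ 2 * c ^ 2) := mul_le_mul_of_nonneg_right hgx (by positivity)
      _ ≤ w := by rw [one_mul]; exact e1
  have e3 : g ^ 2 * w ≤ 4 * w := by
    refine mul_le_mul_of_nonneg_right ?_ hw
    nlinarith
  have e4 : 0 ≤ 2 * g ^ 3 * c ^ 2 := by positivity
  linarith

/-- the truncation of a form -/
theorem trunc {u : Fk N C.A} (hu : Hor C u) : ∃ u' : Fk N C.A, Hor C u' ∧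
    (∀ p T, C.ev p (u' T) = 2 / (1 + C.ev p (ip u u)) * C.ev p (u T)) ∧
    (∀ p, ip (evF C p u') (evF C p u') ≤ 1) ∧
    ∀ a p, ip (evF C p (nab C.F a u')) (evF C p (nab C.F a u')) ≤
      9 * ip (evF C p (nab C.F a u)) (evF C p (nab C.F a u)) := by
  have hU : IsOpen (Set.Ioi (-1 : ℝ)) := isOpen_Ioi
  have hφ : ContDiffOn ℝ ∞ (fun y : ℝ => 2 / (1 + y)) (Set.Ioi (-1 : ℝ)) := by
    refine contDiffOn_const.div (contDiffOn_const.add contDiffOn_id) ?_
    intro x hx
    simp only [Set.mem_Ioi] at hx ⊢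
    linarith
  have hpos : ∀ p, 0 ≤ C.ev p (ip u u) := fun p => by rw [ev_ip]; exact ip_self_nonneg _
  have hmem : ∀ p, C.ev p (ip u u) ∈ Set.Ioi (-1 : ℝ) := fun p => by
    have := hpos p
    simp only [Set.mem_Ioi]
    linarith
  obtain ⟨g, hg⟩ := C.comp (ip u u) (fun y : ℝ => 2 / (1 + y)) (Set.Ioi (-1 : ℝ)) hU hφ hmem
  have hch := C.chain (ip u u) g (fun y : ℝ => 2 / (1 + y)) (Set.Ioi (-1 : ℝ)) hU hφ hmem hg
  have hg' : ∀ p, C.ev p g = 2 / (1 + C.ev p (ip u u)) := hg
  refine ⟨g • u, hor_smul C g hu, ?_, ?_, ?_⟩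
  · intro p T
    rw [Pi.smul_apply, smul_eq_mul, map_mul, hg']
  · intro p
    rw [evF_smul, ip_smul_left, ip_smul_right, ← ev_ip]
    have := (real_bound (c := 0) (w := 0) (hpos p) (hg' p) (by simp) le_rfl).2
    calc C.ev p g * (C.ev p g * C.ev p (ip u u)) = C.ev p g ^ 2 * C.ev p (ip u u) := by ring
      _ ≤ 1 := this
  · intro a p
    have h1 : C.ev p (C.F.e a (ip u u)) = 2 * ip (evF C p (nab C.F a u)) (evF C p u) := by
      rw [Boch.e_ip, map_add, ev_ip, ev_ip, ip_comm (evF C p u)]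
      ring
    have h2 : C.ev p (C.F.e a g) = - C.ev p g ^ 2 * ip (evF C p (nab C.F a u)) (evF C p u) := by
      rw [hch a p, deriv_phi (hmem p), ← hg' p, h1]
      ring
    rw [nab_smul, evF_add, evF_smul, evF_smul, h2]
    set W := evF C p (nab C.F a u) with hW
    set V := evF C p u with hV
    set γ := C.ev p g with hγ
    have hx : C.ev p (ip u u) = ip V V := ev_ip C p u u
    have h3 := (real_bound (c := ip W V) (w := ip W W) (hpos p) (hg' p)
      (by rw [hx, mul_comm]; exact ip_sq_le W V) (ip_self_nonneg W)).1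
    rw [hx] at h3
    simp only [ip_add_left, ip_add_right, ip_smul_left, ip_smul_right, ip_comm V W]
    linarith

theorem nq_mulF_le (h2 : S_CLIN) {x y : Fk N C.A} {K : ℝ} {z : Fk N C.A}
    (hx : ∀ p, ip (evF C p x) (evF C p x) * ip (evF C p y) (evF C p y) ≤ K * ip (evF C p z) (evF C p z)) :
    nq C (mulF x y) ≤ 2 ^ N * K * nq C z := by
  unfold nq
  rw [← ig_smul]
  refine ig_mono C fun p => ?_
  rw [ev_smul, ev_ip, ev_ip, evF_mulF, mul_assoc]
  exact (h2 N _ _).trans (mul_le_mul_of_nonneg_left (hx p) (by positivity))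

end Prod

open Pool.Agent.H781.CM.Prod in
theorem s_prod (h1 : S_CLIF) (h2 : S_CLIN) (h3 : S_CLIM) (h4 : S_ENER) : S_PROD := by
  intro M _ _ _ _ N C τ u v hu hv hτu hτv
  obtain ⟨u', hu', eu, nu, du⟩ := trunc C hu
  obtain ⟨v', hv', ev', nv, dv'⟩ := trunc C hv
  obtain ⟨c1, c2, -, -⟩ := h3 M N C
  obtain ⟨en1, -⟩ := h4 M N C
  refine ⟨mulF u' v', c2 u' v' hu' hv', ?_, ?_, ?_⟩
  · unfold nq
    rw [← ig_cs C (2 ^ N)]
    refine ig_mono C fun p => ?_
    rw [ev_cs, ev_ip, evF_mulF]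
    refine (h2 N _ _).trans ?_
    have h5 : ip (evF C p u') (evF C p u') * ip (evF C p v') (evF C p v') ≤ 1 :=
      mul_le_one₀ (nu p) (ip_self_nonneg _) (nv p)
    calc (2 : ℝ) ^ N * (ip (evF C p u') (evF C p u') * ip (evF C p v') (evF C p v'))
        ≤ 2 ^ N * 1 := mul_le_mul_of_nonneg_left h5 (by positivity)
      _ = 2 ^ N := mul_one _
  · have hen : en C (mulF u' v') ≤ 36 * 2 ^ N * τ := by
      have hterm : ∀ a, nq C (nab C.F a (mulF u' v')) ≤
          18 * 2 ^ N * (nq C (nab C.F a u) + nq C (nab C.F a v)) := by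
        intro a
        rw [c1 a u' v']
        have h6 := nq_add_le C (mulF (nab C.F a u') v') (mulF u' (nab C.F a v'))
        have h7 : nq C (mulF (nab C.F a u') v') ≤ 2 ^ N * 9 * nq C (nab C.F a u) := by
          refine nq_mulF_le C h2 fun p => ?_
          calc _ ≤ ip (evF C p (nab C.F a u')) (evF C p (nab C.F a u')) * 1 :=
                mul_le_mul_of_nonneg_left (nv p) (ip_self_nonneg _)
            _ = _ := mul_one _
            _ ≤ _ := du a p
        have h8 : nq C (mulF u' (nab C.F a v')) ≤ 2 ^ N * 9 * nq C (nab C.F a v) := by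
          refine nq_mulF_le C h2 fun p => ?_
          calc _ ≤ 1 * ip (evF C p (nab C.F a v')) (evF C p (nab C.F a v')) :=
                mul_le_mul_of_nonneg_right (nu p) (ip_self_nonneg _)
            _ = _ := one_mul _
            _ ≤ _ := dv' a p
        linarith
      have h9 : en C (mulF u' v') ≤ 18 * 2 ^ N * (en C u + en C v) := by
        unfold en
        rw [← Finset.sum_add_distrib, Finset.mul_sum]
        exact Finset.sum_le_sum fun a _ => hterm a
      have h10 : (18 : ℝ) * 2 ^ N * (en C u + en C v) ≤ 18 * 2 ^ N * (τ + τ) :=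
        mul_le_mul_of_nonneg_left (by linarith) (by positivity)
      linarith
    refine (en1 _).trans ?_
    calc (N : ℝ) * en C (mulF u' v') ≤ N * (36 * 2 ^ N * τ) :=
          mul_le_mul_of_nonneg_left hen (Nat.cast_nonneg N)
      _ = 36 * N * 2 ^ N * τ := by ring
  · intro p S
    have h11 : C.ev p (mulF u' v' S) = evF C p (mulF u' v') S := rfl
    rw [h11, evF_mulF]
    have h12 : evF C p u' = fun T => 2 / (1 + C.ev p (ip u u)) * C.ev p (u T) := funext (eu p)
    have h13 : evF C p v' = fun T => 2 / (1 + C.ev p (ip v v)) * C.ev p (v T) := funext (ev' p)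
    rw [h12, h13]

end Pool.Agent.H781.CM
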