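import Pool.Agent.H781.CM.Base

/-!
Regularity for `(d + δ)²` (helper707).
-/

set_option autoImplicit false
set_option synthInstance.maxHeartbeats 400000
set_option maxHeartbeats 4000000
set_option linter.unusedSectionVars false

open MeasureTheory Filter
open scoped Topology ContDiff InnerProductSpace

noncomputable section

namespace Pool.Agent.H781.CM

open Pool.Agent.H781.NG

namespace Reg

variable {M : Type} [TopologicalSpace M] [CompactSpace M] [MeasurableSpace M] [BorelSpace M]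
  {N : ℕ} (C : CD M N)

/-! ### smooth functions in `L²` -/

/-- a smooth function as an element of `L²` -/
def tl (f : C.A) : Lp ℝ 2 C.μ := (memLp_ev C f).toLp _

theorem inner_tl (a : Lp ℝ 2 C.μ) (φ : C.A) :
    ⟪a, tl C φ⟫_ℝ = ∫ p, a p * C.ev p φ ∂C.μ := by
  rw [L2.inner_def]
  refine integral_congr_ae ?_
  filter_upwards [(memLp_ev C φ).coeFn_toLp] with p hp
  unfold tl
  rw [hp]
  simp [mul_comm]

theorem tl_ae (f : C.A) : (tl C f : M → ℝ) =ᵐ[C.μ] fun p => C.ev p f :=
  (memLp_ev C f).coeFn_toLp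

theorem inner_tl_tl (f φ : C.A) : ⟪tl C f, tl C φ⟫_ℝ = ig C (f * φ) := by
  rw [inner_tl]
  unfold ig
  refine integral_congr_ae ?_
  filter_upwards [tl_ae C f] with p hp
  rw [hp, map_mul]

theorem tl_sub (f g : C.A) : tl C f - tl C g = tl C (f - g) := by
  unfold tl
  rw [← MemLp.toLp_sub]
  congr 1
  funext p
  simp

theorem norm_tl_sub (f g : C.A) : ‖tl C f - tl C g‖ ^ 2 = ig C ((f - g) ^ 2) := by
  rw [tl_sub, ← real_inner_self_eq_norm_sq, inner_tl_tl, pow_two]

/-- components of Cauchy sequences converge in `L²` -/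
theorem exists_lim {v : ℕ → Fk N C.A} (hv : Cau C v) (S : Finset (Fin N)) :
    ∃ a : Lp ℝ 2 C.μ, Tendsto (fun k => tl C (v k S)) atTop (𝓝 a) := by
  refine cauchySeq_tendsto_of_complete ?_
  rw [Metric.cauchySeq_iff]
  intro ε hε
  obtain ⟨K, hK⟩ := hv ((ε / 2) ^ 2) (by positivity)
  refine ⟨K, fun m hm n hn => ?_⟩
  have h1 : ‖tl C (v m S) - tl C (v n S)‖ ^ 2 ≤ (ε / 2) ^ 2 := by
    rw [norm_tl_sub]
    refine le_trans ?_ (hK m hm n hn)
    rw [nq_eq]
    exact Finset.single_le_sum (f := fun S => ig C ((v m - v n) S ^ 2))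
      (fun T _ => ig_nonneg C fun p => by rw [map_pow]; positivity) (Finset.mem_univ S)
  have h2 := (pow_le_pow_iff_left₀ (norm_nonneg _) (by positivity) two_ne_zero).1 h1
  rw [dist_eq_norm]
  linarith

/-! ### weak derivatives -/

theorem wk_memLp : ∀ (k : ℕ) (u : M → ℝ), Wk C k u → MemLp u 2 C.μ
  | 0, _, h => h
  | _ + 1, _, h => h.1

theorem int_mul {u : M → ℝ} (hu : MemLp u 2 C.μ) (φ : C.A) :
    Integrable (fun p => u p * C.ev p φ) C.μ := hu.integrable_mul (memLp_ev C φ)

theorem dv_single (s : Fin N) (h : C.A) :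
    dv C.F (Pi.single s h) = C.F.e s h + (∑ b, C.F.Γ b s b) * h := by
  classical
  unfold dv
  congr 1
  · rw [Finset.sum_eq_single s]
    · rw [Pi.single_eq_same]
    · intro b _ hb
      rw [Pi.single_eq_of_ne hb, map_zero]
    · intro h'
      exact absurd (Finset.mem_univ s) h'
  · rw [Finset.sum_eq_single s]
    · rw [Finset.sum_mul]
      refine Finset.sum_congr rfl fun b _ => ?_
      rw [Pi.single_eq_same]
    · intro b _ hb
      refine Finset.sum_eq_zero fun c _ => ?_
      rw [Pi.single_eq_of_ne hb, mul_zero]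
    · intro h'
      exact absurd (Finset.mem_univ s) h'

/-- integration by parts -/
theorem parts (s : Fin N) (f φ : C.A) :
    ∫ p, C.ev p (C.F.e s f) * C.ev p φ ∂C.μ = ∫ p, C.ev p f * C.ev p (adj C s φ) ∂C.μ := by
  have h1 : ig C (C.F.e s f * φ - f * adj C s φ) = 0 := by
    have h2 := C.div (Pi.single s (f * φ))
    rw [dv_single] at h2
    rw [← h2]
    unfold ig
    congr 1
    funext p
    congr 1
    rw [Derivation.leibniz]
    unfold adj
    simp only [smul_eq_mul]
    ring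
  rw [ig_sub, sub_eq_zero] at h1
  unfold ig at h1
  simpa only [map_mul] using h1

/-- smooth functions have weak derivatives of all orders -/
theorem wk_ev : ∀ (k : ℕ) (f : C.A), Wk C k (fun p => C.ev p f)
  | 0, f => memLp_ev C f
  | k + 1, f => ⟨memLp_ev C f, fun s => ⟨fun p => C.ev p (C.F.e s f), wk_ev k _,
      fun φ => parts C s f φ⟩⟩

theorem wk_lin (l : ℝ) : ∀ (k : ℕ) (u w : M → ℝ), Wk C k u → Wk C k w →
    Wk C k (fun p => l * u p + w p)
  | 0, _, _, hu, hw => (MemLp.const_mul hu l).add hw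
  | k + 1, u, w, hu, hw => by
    refine ⟨(MemLp.const_mul hu.1 l).add hw.1, fun s => ?_⟩
    obtain ⟨v1, h1, h2⟩ := hu.2 s
    obtain ⟨v2, h3, h4⟩ := hw.2 s
    refine ⟨fun p => l * v1 p + v2 p, wk_lin l k v1 v2 h1 h3, fun φ => ?_⟩
    have e1 : ∫ p, (l * v1 p + v2 p) * C.ev p φ ∂C.μ =
        l * ∫ p, v1 p * C.ev p φ ∂C.μ + ∫ p, v2 p * C.ev p φ ∂C.μ := by
      rw [← integral_const_mul, ← integral_add ((int_mul C (wk_memLp C k v1 h1) φ).const_mul l)
        (int_mul C (wk_memLp C k v2 h3) φ)]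
      congr 1
      funext p
      ring
    have e2 : ∫ p, (l * u p + w p) * C.ev p (adj C s φ) ∂C.μ =
        l * ∫ p, u p * C.ev p (adj C s φ) ∂C.μ + ∫ p, w p * C.ev p (adj C s φ) ∂C.μ := by
      rw [← integral_const_mul, ← integral_add ((int_mul C hu.1 (adj C s φ)).const_mul l)
        (int_mul C hw.1 (adj C s φ))]
      congr 1
      funext p
      ring
    rw [e1, e2, h2 φ, h4 φ]

/-! ### `d + δ` as a first order system -/

/-- the constant matrices of `d + δ` -/
def BB (a : Fin N) : Matrix (Finset (Fin N)) (Finset (Fin N)) ℝ := fun i j =>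
  (if a ∈ i then (if j = i.erase a then (sg a i : ℝ) else 0) else 0) -
    (if a ∈ i then 0 else (if j = insert a i then (sg a i : ℝ) else 0))

theorem BB_apply (a : Fin N) (x : Fk N C.A) (i : Finset (Fin N)) :
    ∑ j, BB a i j • x j = (cr a x - an a x) i := by
  rw [Pi.sub_apply, cr_apply, an_apply]
  unfold BB
  simp only [sub_smul, Finset.sum_sub_distrib]
  split_ifs with h
  · simp only [ite_smul, zero_smul, Finset.sum_ite_eq', Finset.mem_univ, if_true,
      Finset.sum_const_zero, sub_zero]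
    rw [Algebra.smul_def, map_intCast]
  · simp only [ite_smul, zero_smul, Finset.sum_ite_eq', Finset.mem_univ, if_true,
      Finset.sum_const_zero, zero_sub]
    rw [Algebra.smul_def, map_intCast]

/-- the zeroth order part -/
def cL : Fk N C.A →ₗ[C.A] Fk N C.A where
  toFun u := ∑ a, (cr a (gam C.F a u) - an a (gam C.F a u))
  map_add' u v := by
    simp only [Boch.gam_add, map_add]
    rw [← Finset.sum_add_distrib]
    refine Finset.sum_congr rfl fun a _ => ?_
    abel
  map_smul' c u := by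
    simp only [Boch.gam_smul, map_smul, RingHom.id_apply]
    rw [Finset.smul_sum]
    refine Finset.sum_congr rfl fun a _ => ?_
    rw [smul_sub]

/-- the matrix of the zeroth order part -/
def cc : Matrix (Finset (Fin N)) (Finset (Fin N)) C.A := LinearMap.toMatrix' (cL C)

theorem cc_apply (x : Fk N C.A) (i : Finset (Fin N)) : ∑ j, cc C i j * x j = cL C x i := by
  have := congrFun (LinearMap.toMatrix'_mulVec (cL C) x) i
  rw [← this]
  rfl

theorem FO_eq (φ : Fk N C.A) : FO C BB (cc C) φ = DD C φ := by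
  funext i
  unfold FO
  rw [DD_eq, cc_apply, Finset.sum_apply]
  have h1 : ∀ a, ∑ j, BB a i j • C.F.e a (φ j) =
      (cr a (Boch.ee C.F a φ) - an a (Boch.ee C.F a φ)) i := fun a => BB_apply C a (Boch.ee C.F a φ) i
  rw [Finset.sum_congr rfl fun a _ => h1 a]
  change _ + (∑ a, (cr a (gam C.F a φ) - an a (gam C.F a φ))) i = _
  rw [Finset.sum_apply, ← Finset.sum_add_distrib]
  refine Finset.sum_congr rfl fun a _ => ?_
  rw [Boch.nab_def, map_add, map_add]
  simp only [Pi.sub_apply, Pi.add_apply]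
  ring

theorem pr_eq (u v : Fk N C.A) : pr C u v = ∑ S, ig C (u S * v S) := by
  unfold pr ip
  rw [ig_sum]

/-- limits of `L²` products -/
theorem pr_lim {v : ℕ → Fk N C.A} {a : Finset (Fin N) → Lp ℝ 2 C.μ}
    (ha : ∀ S, Tendsto (fun k => tl C (v k S)) atTop (𝓝 (a S))) (ψ : Fk N C.A) :
    Tendsto (fun k => pr C (v k) ψ) atTop (𝓝 (∑ S, ∫ p, a S p * C.ev p (ψ S) ∂C.μ)) := by
  simp only [pr_eq, ← inner_tl_tl, ← inner_tl]
  exact tendsto_finsetSum _ fun S _ => (ha S).inner tendsto_const_nhds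

end Reg

open Reg in
theorem s_reg (h1 : S_RI) (h2 : S_GARD) (h3 : S_DDH) : S_REG := by
  intro M _ _ _ _ N C hM hD hR v g l hv hw hlim
  obtain ⟨-, -, -, -, -, -, -, -, -, -, h11, -, -⟩ := h3 M N C
  choose a ha using fun S => exists_lim C hv S
  choose b hb using fun S => exists_lim C hw S
  have hSym : SymFO C BB (cc C) := by
    intro φ ψ
    rw [FO_eq, FO_eq]
    have := h11 φ ψ
    rwa [pr_eq, pr_eq] at this
  have hGard : GardFO C BB (cc C) := by
    obtain ⟨K, _, hK⟩ := h2 M N C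
    refine ⟨K, fun φ => ?_⟩
    rw [FO_eq, Finset.sum_add_distrib, ← nq_eq, ← nq_eq]
    exact hK φ
  have hma : ∀ S, MemLp (a S : M → ℝ) 2 C.μ := fun S => Lp.memLp _
  have hmb : ∀ S, MemLp (b S : M → ℝ) 2 C.μ := fun S => Lp.memLp _
  have hw1 : WeakEq C BB (cc C) (fun S => (a S : M → ℝ)) (fun S => (b S : M → ℝ)) := by
    intro φ
    rw [FO_eq]
    refine tendsto_nhds_unique (pr_lim C ha (DD C φ)) ?_
    refine (pr_lim C hb φ).congr fun k => ?_
    exact h11 (v k) φ
  have hw2 : WeakEq C BB (cc C) (fun S => (b S : M → ℝ))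
      (fun S p => l * (a S : M → ℝ) p + C.ev p (g S)) := by
    intro φ
    rw [FO_eq]
    have e1 := (pr_lim C hb (DD C φ)).sub ((pr_lim C ha φ).const_mul l)
    have e2 := tendsto_nhds_unique e1 (hlim φ)
    rw [sub_eq_iff_eq_add] at e2
    rw [e2, pr_eq, Finset.mul_sum, ← Finset.sum_add_distrib]
    refine Finset.sum_congr rfl fun S _ => ?_
    have e3 : ∫ p, (l * (a S : M → ℝ) p + C.ev p (g S)) * C.ev p (φ S) ∂C.μ =
        l * ∫ p, (a S : M → ℝ) p * C.ev p (φ S) ∂C.μ + ∫ p, C.ev p (g S) * C.ev p (φ S) ∂C.μ := by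
      rw [← integral_const_mul, ← integral_add ((int_mul C (hma S) (φ S)).const_mul l)
        (int_mul C (memLp_ev C (g S)) (φ S))]
      congr 1
      funext p
      ring
    rw [e3, add_comm]
    unfold ig
    simp only [map_mul]
  have key : ∀ k, (∀ S, Wk C k (a S : M → ℝ)) ∧ ∀ S, Wk C k (b S : M → ℝ) := by
    intro k
    induction k with
    | zero => exact ⟨hma, hmb⟩
    | succ k ih =>
      refine ⟨?_, ?_⟩
      · exact h1 M N C (Finset (Fin N)) BB (cc C) hM hD hSym hGard k _ _ hma ih.2 hw1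
      · exact h1 M N C (Finset (Fin N)) BB (cc C) hM hD hSym hGard k _ _ hmb
          (fun S => wk_lin C l k _ _ (ih.1 S) (wk_ev C k (g S))) hw2
  choose f hf using fun S => hR (a S : M → ℝ) (fun k => (key k).1 S)
  have hfa : ∀ S, tl C (f S) = a S := fun S => Lp.ext ((tl_ae C (f S)).trans (hf S).symm)
  refine ⟨f, ?_⟩
  have e4 : ∀ k, nq C (v k - f) = ∑ S, ‖tl C (v k S) - a S‖ ^ 2 := by
    intro k
    rw [nq_eq]
    refine Finset.sum_congr rfl fun S _ => ?_
    rw [← hfa S, norm_tl_sub]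
    rfl
  simp only [e4]
  have e5 : (0 : ℝ) = ∑ S : Finset (Fin N), ‖a S - a S‖ ^ 2 := by simp
  rw [e5]
  exact tendsto_finsetSum _ fun S _ => (((ha S).sub tendsto_const_nhds).norm).pow 2

end Pool.Agent.H781.CM
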