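import Pool.Agent.H781.CM.Base

/-!
Regularity of weak solutions of symmetric first order systems: the induction (helper155).
-/

set_option autoImplicit false
set_option synthInstance.maxHeartbeats 400000
set_option maxHeartbeats 4000000
set_option linter.unusedSectionVars false

open MeasureTheory Filter
open scoped Topology ContDiff

noncomputable section

namespace Pool.Agent.H781.CM

open Pool.Agent.H781.NG

namespace Ri

variable {M : Type} [TopologicalSpace M] [CompactSpace M] [MeasurableSpace M] [BorelSpace M]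
  {N : ℕ} (C : CD M N)

theorem memLp_mul (a : C.A) {u : M → ℝ} (hu : MemLp u 2 C.μ) :
    MemLp (fun p => C.ev p a * u p) 2 C.μ := by
  obtain ⟨K, _, hK⟩ := bdd C a
  refine MemLp.of_le_mul (c := K) hu
    ((C.cont a).measurable.aestronglyMeasurable.mul hu.aestronglyMeasurable) ?_
  refine Filter.Eventually.of_forall fun p => ?_
  rw [norm_mul, Real.norm_eq_abs (C.ev p a)]
  exact mul_le_mul_of_nonneg_right (hK p) (norm_nonneg _)

theorem int_mul {u : M → ℝ} (hu : MemLp u 2 C.μ) (φ : C.A) :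
    Integrable (fun p => u p * C.ev p φ) C.μ := by
  have h := (memLp_mul C φ hu).integrable one_le_two
  refine h.congr (Filter.Eventually.of_forall fun p => ?_)
  exact mul_comm _ _

theorem Wk_memLp {k : ℕ} {u : M → ℝ} (h : Wk C k u) : MemLp u 2 C.μ := by
  cases k with
  | zero => exact h
  | succ k => exact h.1

theorem Wk_down : ∀ (k : ℕ) (u : M → ℝ), Wk C (k + 1) u → Wk C k u
  | 0, _, h => h.1
  | k + 1, _, h => ⟨h.1, fun s => by
      obtain ⟨v, hv, e⟩ := h.2 s
      exact ⟨v, Wk_down k v hv, e⟩⟩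

theorem Wk_add : ∀ (k : ℕ) (u v : M → ℝ), Wk C k u → Wk C k v → Wk C k (fun p => u p + v p)
  | 0, _, _, hu, hv => MemLp.add hu hv
  | k + 1, u, v, hu, hv => ⟨MemLp.add hu.1 hv.1, fun s => by
      obtain ⟨u', hu', eu⟩ := hu.2 s
      obtain ⟨v', hv', ev⟩ := hv.2 s
      refine ⟨fun p => u' p + v' p, Wk_add k u' v' hu' hv', fun φ => ?_⟩
      simp only [add_mul]
      rw [integral_add (int_mul C (Wk_memLp C hu') φ) (int_mul C (Wk_memLp C hv') φ),
        integral_add (int_mul C hu.1 _) (int_mul C hv.1 _), eu φ, ev φ]⟩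

theorem Wk_zero : ∀ k : ℕ, Wk C k (fun _ => 0)
  | 0 => MemLp.zero'
  | k + 1 => ⟨MemLp.zero', fun s => ⟨fun _ => 0, Wk_zero k, fun φ => by simp⟩⟩

theorem adj_mul (s : Fin N) (a φ : C.A) :
    adj C s (a * φ) = - C.F.e s a * φ + a * adj C s φ := by
  unfold adj
  rw [Derivation.leibniz, smul_eq_mul, smul_eq_mul]
  ring

theorem Wk_mul : ∀ (k : ℕ) (a : C.A) (u : M → ℝ), Wk C k u → Wk C k (fun p => C.ev p a * u p)
  | 0, a, _, hu => memLp_mul C a hu
  | k + 1, a, u, hu => ⟨memLp_mul C a hu.1, fun s => by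
      obtain ⟨v, hv, e⟩ := hu.2 s
      refine ⟨fun p => C.ev p (C.F.e s a) * u p + C.ev p a * v p,
        Wk_add C k _ _ (Wk_mul k _ u (Wk_down C k u hu)) (Wk_mul k a v hv), fun φ => ?_⟩
      have h1 : ∀ p, (C.ev p (C.F.e s a) * u p + C.ev p a * v p) * C.ev p φ =
          u p * C.ev p (C.F.e s a * φ) + v p * C.ev p (a * φ) := by
        intro p
        rw [map_mul, map_mul]
        ring
      have h2 : ∀ p, C.ev p a * u p * C.ev p (adj C s φ) =
          u p * C.ev p (C.F.e s a * φ) + u p * C.ev p (adj C s (a * φ)) := by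
        intro p
        rw [adj_mul, map_add, map_mul, map_mul, map_mul, map_neg]
        ring
      simp only [h1, h2]
      rw [integral_add (int_mul C hu.1 _) (int_mul C (Wk_memLp C hv) _),
        integral_add (int_mul C hu.1 _) (int_mul C hu.1 _), e (a * φ)]⟩

section rep

variable {κ : Type} [Fintype κ] [DecidableEq κ]

/-- functionals given by functions with weak derivatives of order `k` -/
def Rep (k : ℕ) (T : (κ → C.A) → ℝ) : Prop := ∃ h : κ → M → ℝ, (∀ i, Wk C k (h i)) ∧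
  ∀ φ, T φ = ∑ i, ∫ p, h i p * C.ev p (φ i) ∂C.μ

theorem rep_add {k : ℕ} {T₁ T₂ : (κ → C.A) → ℝ} (h₁ : Rep C k T₁) (h₂ : Rep C k T₂) :
    Rep C k (fun φ => T₁ φ + T₂ φ) := by
  obtain ⟨g₁, hg₁, e₁⟩ := h₁
  obtain ⟨g₂, hg₂, e₂⟩ := h₂
  refine ⟨fun i p => g₁ i p + g₂ i p, fun i => Wk_add C k _ _ (hg₁ i) (hg₂ i), fun φ => ?_⟩
  show T₁ φ + T₂ φ = _
  rw [e₁, e₂, ← Finset.sum_add_distrib]
  refine Finset.sum_congr rfl fun i _ => ?_
  simp only [add_mul]
  rw [integral_add (int_mul C (Wk_memLp C (hg₁ i)) _) (int_mul C (Wk_memLp C (hg₂ i)) _)]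

theorem rep_zero {k : ℕ} : Rep C k (fun _ : κ → C.A => 0) :=
  ⟨fun _ _ => 0, fun _ => Wk_zero C k, fun φ => by simp⟩

theorem rep_smul {k : ℕ} {T : (κ → C.A) → ℝ} (c : ℝ) (h : Rep C k T) :
    Rep C k (fun φ => c * T φ) := by
  obtain ⟨g, hg, e⟩ := h
  refine ⟨fun i p => C.ev p (cs C c) * g i p, fun i => Wk_mul C k _ _ (hg i), fun φ => ?_⟩
  show c * T φ = _
  rw [e, Finset.mul_sum]
  refine Finset.sum_congr rfl fun i _ => ?_
  rw [← integral_const_mul]
  refine integral_congr_ae (Filter.Eventually.of_forall fun p => ?_)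
  show c * (g i p * C.ev p (φ i)) = C.ev p (cs C c) * g i p * C.ev p (φ i)
  rw [ev_cs, mul_assoc]

theorem rep_sum {k : ℕ} {ι : Type} (s : Finset ι) {T : ι → (κ → C.A) → ℝ}
    (h : ∀ i ∈ s, Rep C k (T i)) : Rep C k (fun φ => ∑ i ∈ s, T i φ) := by
  classical
  induction s using Finset.induction_on with
  | empty => simpa using rep_zero C (κ := κ)
  | insert a s ha ih =>
    have h1 := rep_add C (h a (Finset.mem_insert_self a s))
      (ih fun i hi => h i (Finset.mem_insert_of_mem hi))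
    simpa only [Finset.sum_insert ha] using h1

theorem rep_mul {k : ℕ} {v : M → ℝ} (hv : Wk C k v) (a : C.A) (j : κ) :
    Rep C k (fun φ => ∫ p, v p * C.ev p (a * φ j) ∂C.μ) := by
  refine ⟨fun i => if i = j then (fun p => C.ev p a * v p) else fun _ => 0, fun i => ?_,
    fun φ => ?_⟩
  · by_cases h : i = j
    · simp only [h, if_true]
      exact Wk_mul C k a v hv
    · simp only [h, if_false]
      exact Wk_zero C k
  · rw [Finset.sum_eq_single j]
    · simp only [if_true]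
      refine integral_congr_ae (Filter.Eventually.of_forall fun p => ?_)
      show v p * C.ev p (a * φ j) = C.ev p a * v p * C.ev p (φ j)
      rw [map_mul]
      ring
    · intro i _ hi
      simp only [hi, if_false, zero_mul]
      exact integral_zero _ _
    · intro h
      exact absurd (Finset.mem_univ j) h

variable {u : M → ℝ}

theorem repL_add {k : ℕ} (hu : MemLp u 2 C.μ) {L₁ L₂ : (κ → C.A) → C.A}
    (h₁ : Rep C k (fun φ => ∫ p, u p * C.ev p (L₁ φ) ∂C.μ))
    (h₂ : Rep C k (fun φ => ∫ p, u p * C.ev p (L₂ φ) ∂C.μ)) :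
    Rep C k (fun φ => ∫ p, u p * C.ev p (L₁ φ + L₂ φ) ∂C.μ) := by
  have h3 := rep_add C h₁ h₂
  have h4 : (fun φ : κ → C.A => ∫ p, u p * C.ev p (L₁ φ + L₂ φ) ∂C.μ) =
      fun φ => ∫ p, u p * C.ev p (L₁ φ) ∂C.μ + ∫ p, u p * C.ev p (L₂ φ) ∂C.μ := by
    funext φ
    rw [← integral_add (int_mul C hu _) (int_mul C hu _)]
    simp only [map_add, mul_add]
  rw [h4]
  exact h3

theorem repL_zero {k : ℕ} : Rep C k (fun _ : κ → C.A => ∫ p, u p * C.ev p 0 ∂C.μ) := by
  simpa using rep_zero C (κ := κ)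

theorem repL_smul {k : ℕ} (c : ℝ) {L : (κ → C.A) → C.A}
    (h : Rep C k (fun φ => ∫ p, u p * C.ev p (L φ) ∂C.μ)) :
    Rep C k (fun φ => ∫ p, u p * C.ev p (c • L φ) ∂C.μ) := by
  have h3 := rep_smul C c h
  have h4 : (fun φ : κ → C.A => ∫ p, u p * C.ev p (c • L φ) ∂C.μ) =
      fun φ => c * ∫ p, u p * C.ev p (L φ) ∂C.μ := by
    funext φ
    rw [← integral_const_mul]
    refine integral_congr_ae (Filter.Eventually.of_forall fun p => ?_)
    show u p * C.ev p (c • L φ) = c * (u p * C.ev p (L φ))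
    rw [ev_smul]
    ring
  rw [h4]
  exact h3

theorem repL_sum {k : ℕ} (hu : MemLp u 2 C.μ) {ι : Type} (s : Finset ι)
    {L : ι → (κ → C.A) → C.A}
    (h : ∀ i ∈ s, Rep C k (fun φ => ∫ p, u p * C.ev p (L i φ) ∂C.μ)) :
    Rep C k (fun φ => ∫ p, u p * C.ev p (∑ i ∈ s, L i φ) ∂C.μ) := by
  classical
  induction s using Finset.induction_on with
  | empty => simpa using rep_zero C (κ := κ)
  | insert a s ha ih =>
    have h1 := repL_add C hu (h a (Finset.mem_insert_self a s))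
      (ih fun i hi => h i (Finset.mem_insert_of_mem hi))
    simpa only [Finset.sum_insert ha] using h1

/-- one derivative can be moved -/
theorem repL_der {k : ℕ} (hu : Wk C (k + 1) u) (a : C.A) (c : Fin N) (j : κ) :
    Rep C k (fun φ => ∫ p, u p * C.ev p (a * C.F.e c (φ j)) ∂C.μ) := by
  obtain ⟨v, hv, e⟩ := hu.2 c
  have h1 := rep_smul C (-1) (rep_mul C hv a j)
  have h2 := repL_smul C (-1) (rep_mul C (Wk_down C k u hu)
    (C.F.e c a + (∑ b, C.F.Γ b c b) * a) j)
  have h3 := rep_add C h1 h2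
  have h4 : (fun φ : κ → C.A => ∫ p, u p * C.ev p (a * C.F.e c (φ j)) ∂C.μ) =
      fun φ => -1 * ∫ p, v p * C.ev p (a * φ j) ∂C.μ +
        ∫ p, u p * C.ev p ((-1 : ℝ) • ((C.F.e c a + (∑ b, C.F.Γ b c b) * a) * φ j)) ∂C.μ := by
    funext φ
    rw [e (a * φ j), ← integral_const_mul, ← integral_add ((int_mul C hu.1 _).const_mul _)
      (int_mul C hu.1 _)]
    refine integral_congr_ae (Filter.Eventually.of_forall fun p => ?_)
    show u p * C.ev p (a * C.F.e c (φ j)) = -1 * (u p * C.ev p (adj C c (a * φ j))) +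
      u p * C.ev p ((-1 : ℝ) • ((C.F.e c a + (∑ b, C.F.Γ b c b) * a) * φ j))
    have h5 : a * C.F.e c (φ j) = (-1 : ℝ) • adj C c (a * φ j) +
        (-1 : ℝ) • ((C.F.e c a + (∑ b, C.F.Γ b c b) * a) * φ j) := by
      unfold adj
      rw [Derivation.leibniz, smul_eq_mul, smul_eq_mul, neg_one_smul, neg_one_smul]
      ring
    rw [h5, map_add, ev_smul]
    ring
  rw [h4]
  exact h3

/-- the remainder -/
def Rr (B : Fin N → Matrix κ κ ℝ) (c : Matrix κ κ C.A) (s : Fin N) (i : κ) (φ : κ → C.A) : C.A :=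
  ∑ a, ∑ j, B a i j • (∑ d, (-(C.F.Γ s a d - C.F.Γ a s d)) * C.F.e d (φ j) +
    C.F.e a (∑ b, C.F.Γ b s b) * φ j) + ∑ j, (- C.F.e s (c i j)) * φ j

theorem adj_add (s : Fin N) (x y : C.A) : adj C s (x + y) = adj C s x + adj C s y := by
  unfold adj
  rw [map_add]
  ring

theorem adj_smul (s : Fin N) (r : ℝ) (x : C.A) : adj C s (r • x) = r • adj C s x := by
  unfold adj
  rw [Derivation.map_smul, mul_smul_comm, smul_sub, smul_neg]

theorem adj_sum (s : Fin N) {ι : Type} (t : Finset ι) (x : ι → C.A) :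
    adj C s (∑ i ∈ t, x i) = ∑ i ∈ t, adj C s (x i) := by
  classical
  induction t using Finset.induction_on with
  | empty => simp [adj]
  | insert a t ha ih => rw [Finset.sum_insert ha, Finset.sum_insert ha, adj_add, ih]

theorem adj_e (s a : Fin N) (ψ : C.A) : adj C s (C.F.e a ψ) = C.F.e a (adj C s ψ) +
    (∑ d, (-(C.F.Γ s a d - C.F.Γ a s d)) * C.F.e d ψ + C.F.e a (∑ b, C.F.Γ b s b) * ψ) := by
  have h := C.F.tors s a ψ
  have h1 : ∑ d, (-(C.F.Γ s a d - C.F.Γ a s d)) * C.F.e d ψ =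
      - (C.F.e s (C.F.e a ψ) - C.F.e a (C.F.e s ψ)) := by
    rw [h, ← Finset.sum_neg_distrib]
    exact Finset.sum_congr rfl fun d _ => by ring
  rw [h1]
  unfold adj
  rw [map_sub, map_neg, Derivation.leibniz, smul_eq_mul, smul_eq_mul]
  ring

theorem adj_FO (B : Fin N → Matrix κ κ ℝ) (c : Matrix κ κ C.A) (s : Fin N) (i : κ)
    (φ : κ → C.A) : adj C s (FO C B c φ i) =
      FO C B c (fun j => adj C s (φ j)) i + Rr C B c s i φ := by
  unfold FO Rr
  rw [adj_add, adj_sum, adj_sum]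
  simp only [adj_sum, adj_smul, adj_e, adj_mul, smul_add, Finset.sum_add_distrib]
  simp only [neg_mul]
  abel

theorem rep_Rr (B : Fin N → Matrix κ κ ℝ) (c : Matrix κ κ C.A) (s : Fin N) (i : κ) {k : ℕ}
    (hu : Wk C (k + 1) u) : Rep C k (fun φ => ∫ p, u p * C.ev p (Rr C B c s i φ) ∂C.μ) := by
  unfold Rr
  refine repL_add C hu.1 ?_ ?_
  · refine repL_sum C hu.1 _ fun a _ => repL_sum C hu.1 _ fun j _ => repL_smul C _ ?_
    refine repL_add C hu.1 ?_ (rep_mul C (Wk_down C k u hu) _ j)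
    exact repL_sum C hu.1 _ fun d _ => repL_der C hu _ d j
  · exact repL_sum C hu.1 _ fun j _ => rep_mul C (Wk_down C k u hu) _ j

end rep

end Ri

theorem s_ri (h : S_WS) : S_RI := by
  intro M _ _ _ _ N C κ _ _ B c hmoll hdens hsym hgard k
  induction k with
  | zero =>
    intro u f hu hf hw
    exact h M N C κ B c hmoll hdens hsym hgard u f hu (fun i => Ri.Wk_memLp C (hf i)) hw
  | succ k ih =>
    intro u f hu hf hw
    have h1 : ∀ i, Wk C (k + 1) (u i) := ih u f hu (fun i => Ri.Wk_down C k _ (hf i)) hw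
    intro i₀
    refine ⟨hu i₀, fun s => ?_⟩
    have h2 : ∀ i, ∃ v : M → ℝ, Wk C k v ∧
        ∀ φ : C.A, ∫ p, v p * C.ev p φ ∂C.μ = ∫ p, u i p * C.ev p (adj C s φ) ∂C.μ :=
      fun i => (h1 i).2 s
    have h3 : ∀ i, ∃ v : M → ℝ, Wk C k v ∧
        ∀ φ : C.A, ∫ p, v p * C.ev p φ ∂C.μ = ∫ p, f i p * C.ev p (adj C s φ) ∂C.μ :=
      fun i => (hf i).2 s
    choose us hus eus using h2
    choose fs hfs efs using h3
    have hT : Ri.Rep C k (fun φ : κ → C.A => ∑ i, ∫ p, us i p * C.ev p (FO C B c φ i) ∂C.μ) := by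
      have e1 : (fun φ : κ → C.A => ∑ i, ∫ p, us i p * C.ev p (FO C B c φ i) ∂C.μ) =
          fun φ => ∑ i, ∫ p, fs i p * C.ev p (φ i) ∂C.μ +
            ∑ i, ∫ p, u i p * C.ev p (Ri.Rr C B c s i φ) ∂C.μ := by
        funext φ
        have e2 : ∑ i, ∫ p, fs i p * C.ev p (φ i) ∂C.μ =
            ∑ i, ∫ p, u i p * C.ev p (FO C B c (fun j => adj C s (φ j)) i) ∂C.μ := by
          rw [hw (fun j => adj C s (φ j))]
          exact Finset.sum_congr rfl fun i _ => efs i (φ i)
        rw [e2, ← Finset.sum_add_distrib]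
        refine Finset.sum_congr rfl fun i _ => ?_
        rw [eus i, Ri.adj_FO, ← integral_add (Ri.int_mul C (hu i) _) (Ri.int_mul C (hu i) _)]
        simp only [map_add, mul_add]
      rw [e1]
      refine Ri.rep_add C ⟨fs, hfs, fun φ => rfl⟩ ?_
      exact Ri.rep_sum C _ fun i _ => Ri.rep_Rr C B c s i (h1 i)
    obtain ⟨g, hg, eg⟩ := hT
    exact ⟨us i₀, ih us g (fun i => Ri.Wk_memLp C (hus i)) hg eg i₀, eus i₀⟩

end Pool.Agent.H781.CM
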