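import Pool.Agent.H781.CM.Spec

/-!
Lower bounds of the Weitzenböck term and of the Ricci curvature (`S_RICH`, `S_RICF`).
-/

set_option autoImplicit false
set_option linter.unusedSectionVars false
set_option synthInstance.maxHeartbeats 400000
set_option maxHeartbeats 4000000

open MeasureTheory Filter
open scoped Topology ContDiff

noncomputable section

namespace Pool.Agent.H781.CM

open Pool.Agent.H781.NG

namespace Ric

variable {N : ℕ}

/-! ### Real arrays -/

theorem sum4_comm (G : Fin N → Fin N → Fin N → Fin N → ℝ) :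
    ∑ a, ∑ b, ∑ c, ∑ d, G a b c d = ∑ c, ∑ d, ∑ a, ∑ b, G a b c d := by
  calc ∑ a, ∑ b, ∑ c, ∑ d, G a b c d = ∑ a, ∑ c, ∑ b, ∑ d, G a b c d :=
        Finset.sum_congr rfl fun a _ => Finset.sum_comm
    _ = ∑ c, ∑ a, ∑ b, ∑ d, G a b c d := Finset.sum_comm
    _ = ∑ c, ∑ a, ∑ d, ∑ b, G a b c d :=
        Finset.sum_congr rfl fun c _ => Finset.sum_congr rfl fun a _ => Finset.sum_comm
    _ = ∑ c, ∑ d, ∑ a, ∑ b, G a b c d := Finset.sum_congr rfl fun c _ => Finset.sum_comm

/-- skew arrays see only the skew part -/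
theorem skew_part (R X : Fin N → Fin N → ℝ) (h : ∀ a b, R a b = - R b a) :
    ∑ a, ∑ b, R a b * X a b = ∑ a, ∑ b, R a b * ((X a b - X b a) / 2) := by
  have h1 : ∑ a, ∑ b, R a b * X b a = - ∑ a, ∑ b, R a b * X a b := by
    rw [Finset.sum_comm, ← Finset.sum_neg_distrib]
    refine Finset.sum_congr rfl fun a _ => ?_
    rw [← Finset.sum_neg_distrib]
    refine Finset.sum_congr rfl fun b _ => ?_
    rw [h b a]
    ring
  have h2 : ∑ a, ∑ b, R a b * ((X a b - X b a) / 2) =
      (∑ a, ∑ b, R a b * X a b - ∑ a, ∑ b, R a b * X b a) / 2 := by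
    rw [← Finset.sum_sub_distrib, Finset.sum_div]
    refine Finset.sum_congr rfl fun a _ => ?_
    rw [← Finset.sum_sub_distrib, Finset.sum_div]
    refine Finset.sum_congr rfl fun b _ => ?_
    ring
  rw [h2, h1]
  ring

/-- an array which is horizontal in the second index -/
theorem hor_snd (R X P : Fin N → Fin N → ℝ) (hP : ∀ a b, P a b = P b a)
    (h : ∀ a b, ∑ b', P b b' * R a b' = R a b) :
    ∑ a, ∑ b, R a b * X a b = ∑ a, ∑ b, R a b * ∑ b', P b b' * X a b' := by
  refine Finset.sum_congr rfl fun a _ => ?_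
  calc ∑ b, R a b * X a b = ∑ b, ∑ b', P b b' * R a b' * X a b := by
        refine Finset.sum_congr rfl fun b _ => ?_
        rw [← Finset.sum_mul, h a b]
    _ = ∑ b', ∑ b, P b b' * R a b' * X a b := Finset.sum_comm
    _ = ∑ b, R a b * ∑ b', P b b' * X a b' := by
        refine Finset.sum_congr rfl fun b _ => ?_
        rw [Finset.mul_sum]
        refine Finset.sum_congr rfl fun b' _ => ?_
        rw [hP b' b]
        ring

/-- a matrix `R` commuting with `P` and `X = P X` -/
theorem comm_snd (R X P : Fin N → Fin N → ℝ) (hP : ∀ a b, P a b = P b a)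
    (h : ∀ c d, ∑ c', P c c' * R c' d = ∑ d', P d d' * R c d')
    (hX : ∀ c d, X c d = ∑ c', P c c' * X c' d) :
    ∑ c, ∑ d, R c d * X c d = ∑ c, ∑ d, R c d * ∑ d', P d d' * X c d' := by
  calc ∑ c, ∑ d, R c d * X c d = ∑ d, ∑ c, R c d * X c d := Finset.sum_comm
    _ = ∑ d, ∑ c, ∑ c', R c d * (P c c' * X c' d) := by
        refine Finset.sum_congr rfl fun d _ => Finset.sum_congr rfl fun c _ => ?_
        rw [← Finset.mul_sum, ← hX c d]
    _ = ∑ d, ∑ c', ∑ c, R c d * (P c c' * X c' d) :=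
        Finset.sum_congr rfl fun d _ => Finset.sum_comm
    _ = ∑ d, ∑ c', (∑ c, P c' c * R c d) * X c' d := by
        refine Finset.sum_congr rfl fun d _ => Finset.sum_congr rfl fun c' _ => ?_
        rw [Finset.sum_mul]
        refine Finset.sum_congr rfl fun c _ => ?_
        rw [hP c c']
        ring
    _ = ∑ d, ∑ c', (∑ d', P d d' * R c' d') * X c' d := by
        refine Finset.sum_congr rfl fun d _ => Finset.sum_congr rfl fun c' _ => ?_
        rw [h c' d]
    _ = ∑ c', ∑ d, (∑ d', P d d' * R c' d') * X c' d := Finset.sum_comm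
    _ = ∑ c, ∑ d, R c d * ∑ d', P d d' * X c d' := by
        refine Finset.sum_congr rfl fun c _ => ?_
        calc ∑ d, (∑ d', P d d' * R c d') * X c d
            = ∑ d, ∑ d', P d d' * R c d' * X c d :=
              Finset.sum_congr rfl fun d _ => Finset.sum_mul _ _ _
          _ = ∑ d', ∑ d, P d d' * R c d' * X c d := Finset.sum_comm
          _ = ∑ d, R c d * ∑ d', P d d' * X c d' := by
              refine Finset.sum_congr rfl fun d _ => ?_
              rw [Finset.mul_sum]
              refine Finset.sum_congr rfl fun d' _ => ?_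
              rw [hP d' d]
              ring

/-- `|P x|² ≤ |x|²` -/
theorem proj_le (P : Fin N → Fin N → ℝ) (hP : ∀ a b, P a b = P b a)
    (hI : ∀ a c, ∑ b, P a b * P b c = P a c) (x : Fin N → ℝ) :
    ∑ b, (∑ b', P b b' * x b') ^ 2 ≤ ∑ b, x b ^ 2 := by
  have h1 : ∑ b, (∑ b', P b b' * x b') ^ 2 = ∑ b, x b * ∑ b', P b b' * x b' := by
    calc ∑ b, (∑ b', P b b' * x b') ^ 2
        = ∑ b, ∑ c, P b c * x c * ∑ b', P b b' * x b' := by
          refine Finset.sum_congr rfl fun b _ => ?_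
          rw [sq, Finset.sum_mul]
      _ = ∑ c, ∑ b, P b c * x c * ∑ b', P b b' * x b' := Finset.sum_comm
      _ = ∑ c, x c * ∑ b', P c b' * x b' := by
          refine Finset.sum_congr rfl fun c _ => ?_
          calc ∑ b, P b c * x c * ∑ b', P b b' * x b'
              = ∑ b, ∑ b', x c * (P c b * P b b' * x b') := by
                refine Finset.sum_congr rfl fun b _ => ?_
                rw [Finset.mul_sum]
                refine Finset.sum_congr rfl fun b' _ => ?_
                rw [hP b c]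
                ring
            _ = ∑ b', ∑ b, x c * (P c b * P b b' * x b') := Finset.sum_comm
            _ = x c * ∑ b', P c b' * x b' := by
                rw [Finset.mul_sum]
                refine Finset.sum_congr rfl fun b' _ => ?_
                rw [← Finset.mul_sum, ← Finset.sum_mul, hI]
  have h2 : 0 ≤ ∑ b, (x b - ∑ b', P b b' * x b') ^ 2 :=
    Finset.sum_nonneg fun b _ => sq_nonneg _
  have h3 : ∑ b, (x b - ∑ b', P b b' * x b') ^ 2 =
      ∑ b, x b ^ 2 - 2 * ∑ b, x b * ∑ b', P b b' * x b' + ∑ b, (∑ b', P b b' * x b') ^ 2 := by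
    rw [Finset.mul_sum, ← Finset.sum_sub_distrib, ← Finset.sum_add_distrib]
    refine Finset.sum_congr rfl fun b _ => ?_
    ring
  linarith

/-- the algebraic part of the lower bound -/
theorem core (R : Fin N → Fin N → Fin N → Fin N → ℝ) (P : Fin N → Fin N → ℝ) (ε : ℝ)
    (hε : 0 ≤ ε) (hP : ∀ a b, P a b = P b a) (hI : ∀ a c, ∑ b, P a b * P b c = P a c)
    (h1 : ∀ a b c d, ∑ c', P c c' * R a b c' d = ∑ d', P d d' * R a b c d')
    (h2 : ∀ a b c d, ∑ a', P a a' * R a' b c d = R a b c d)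
    (h3 : ∀ a b c d, R a b c d = - R b a c d) (h4 : ∀ a b c d, R a b c d = - R a b d c)
    (hc : ∀ w : Fin N → Fin N → ℝ, (∀ a b, w a b = - w b a) →
      (∀ a b, ∑ c, P a c * w c b = w a b) →
      - ε * ∑ a, ∑ b, w a b ^ 2 ≤ - ∑ a, ∑ b, ∑ c, ∑ d, R a b c d * w a b * w c d)
    (m : Fin N → Fin N → ℝ) (hm : ∀ c b, m c b = ∑ a, P c a * m a b) :
    - ε * ∑ a, ∑ b, m a b ^ 2 ≤ - ∑ a, ∑ b, ∑ c, ∑ d, R a b c d * m a b * m c d := by
  set t : Fin N → Fin N → ℝ := fun a b => ∑ b', P b b' * m a b' with ht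
  set w : Fin N → Fin N → ℝ := fun a b => (t a b - t b a) / 2 with hw
  -- `t` is horizontal in both indices
  have t1 : ∀ a b, ∑ c, P a c * t c b = t a b := by
    intro a b
    calc ∑ c, P a c * ∑ b', P b b' * m c b' = ∑ c, ∑ b', P a c * (P b b' * m c b') :=
          Finset.sum_congr rfl fun c _ => Finset.mul_sum _ _ _
      _ = ∑ b', ∑ c, P a c * (P b b' * m c b') := Finset.sum_comm
      _ = ∑ b', P b b' * m a b' := by
          refine Finset.sum_congr rfl fun b' _ => ?_
          rw [hm a b', Finset.mul_sum]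
          refine Finset.sum_congr rfl fun c _ => ?_
          ring
  have t2 : ∀ a b, ∑ c, P a c * t b c = t b a := by
    intro a b
    calc ∑ c, P a c * ∑ b', P c b' * m b b' = ∑ c, ∑ b', P a c * (P c b' * m b b') :=
          Finset.sum_congr rfl fun c _ => Finset.mul_sum _ _ _
      _ = ∑ b', ∑ c, P a c * (P c b' * m b b') := Finset.sum_comm
      _ = ∑ b', P a b' * m b b' := by
          refine Finset.sum_congr rfl fun b' _ => ?_
          rw [← hI a b', Finset.sum_mul]
          refine Finset.sum_congr rfl fun c _ => ?_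
          ring
  have w1 : ∀ a b, w a b = - w b a := by
    intro a b
    simp only [hw]
    ring
  have w2 : ∀ a b, ∑ c, P a c * w c b = w a b := by
    intro a b
    have e : ∑ c, P a c * w c b = (∑ c, P a c * t c b - ∑ c, P a c * t b c) / 2 := by
      rw [← Finset.sum_sub_distrib, Finset.sum_div]
      refine Finset.sum_congr rfl fun c _ => ?_
      simp only [hw]
      ring
    rw [e, t1, t2]
  have key := hc w w1 w2
  -- the quadratic form
  have q1 : ∀ a b, ∑ c, ∑ d, R a b c d * m c d = ∑ c, ∑ d, R a b c d * w c d := by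
    intro a b
    rw [comm_snd (R a b) m P hP (h1 a b) hm]
    exact skew_part (R a b) t (h4 a b)
  have h2' : ∀ a b c d, ∑ b', P b b' * R a b' c d = R a b c d := by
    intro a b c d
    rw [h3 a b c d, ← h2 b a c d, ← Finset.sum_neg_distrib]
    refine Finset.sum_congr rfl fun b' _ => ?_
    rw [h3 a b' c d]
    ring
  have q2 : ∀ c d, ∑ a, ∑ b, R a b c d * m a b = ∑ a, ∑ b, R a b c d * w a b := by
    intro c d
    rw [hor_snd (fun a b => R a b c d) m P hP (fun a b => h2' a b c d)]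
    exact skew_part (fun a b => R a b c d) t (fun a b => h3 a b c d)
  have q3 : ∀ X Y : Fin N → Fin N → ℝ, ∑ a, ∑ b, ∑ c, ∑ d, R a b c d * X a b * Y c d =
      ∑ a, ∑ b, X a b * ∑ c, ∑ d, R a b c d * Y c d := by
    intro X Y
    refine Finset.sum_congr rfl fun a _ => Finset.sum_congr rfl fun b _ => ?_
    rw [Finset.mul_sum]
    refine Finset.sum_congr rfl fun c _ => ?_
    rw [Finset.mul_sum]
    refine Finset.sum_congr rfl fun d _ => ?_
    ring
  have q4 : ∀ X Y : Fin N → Fin N → ℝ, ∑ a, ∑ b, ∑ c, ∑ d, R a b c d * X a b * Y c d =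
      ∑ c, ∑ d, Y c d * ∑ a, ∑ b, R a b c d * X a b := by
    intro X Y
    rw [sum4_comm]
    refine Finset.sum_congr rfl fun c _ => Finset.sum_congr rfl fun d _ => ?_
    rw [Finset.mul_sum]
    refine Finset.sum_congr rfl fun a _ => ?_
    rw [Finset.mul_sum]
    refine Finset.sum_congr rfl fun b _ => ?_
    ring
  have q5 : ∑ a, ∑ b, ∑ c, ∑ d, R a b c d * m a b * m c d =
      ∑ a, ∑ b, ∑ c, ∑ d, R a b c d * w a b * w c d := by
    rw [q3 m m]
    rw [Finset.sum_congr rfl fun a _ => Finset.sum_congr rfl fun b _ => by rw [q1 a b]]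
    rw [← q3 m w, q4 m w]
    rw [Finset.sum_congr rfl fun c _ => Finset.sum_congr rfl fun d _ => by rw [q2 c d]]
    rw [← q4 w w]
  -- the norm
  have n1 : ∑ a, ∑ b, w a b ^ 2 ≤ ∑ a, ∑ b, t a b ^ 2 := by
    have e1 : ∑ a, ∑ b, w a b ^ 2 ≤ ∑ a, ∑ b, (t a b ^ 2 + t b a ^ 2) / 2 := by
      refine Finset.sum_le_sum fun a _ => Finset.sum_le_sum fun b _ => ?_
      simp only [hw]
      nlinarith [sq_nonneg (t a b + t b a)]
    have e2 : ∑ a, ∑ b, (t a b ^ 2 + t b a ^ 2) / 2 =
        (∑ a, ∑ b, t a b ^ 2 + ∑ a, ∑ b, t b a ^ 2) / 2 := by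
      rw [← Finset.sum_add_distrib, Finset.sum_div]
      refine Finset.sum_congr rfl fun a _ => ?_
      rw [← Finset.sum_add_distrib, Finset.sum_div]
    have e3 : ∑ a, ∑ b, t b a ^ 2 = ∑ a, ∑ b, t a b ^ 2 := Finset.sum_comm
    rw [e2, e3] at e1
    linarith
  have n2 : ∑ a, ∑ b, t a b ^ 2 ≤ ∑ a, ∑ b, m a b ^ 2 :=
    Finset.sum_le_sum fun a _ => proj_le P hP hI (m a)
  rw [q5]
  refine le_trans ?_ key
  have n3 := mul_le_mul_of_nonneg_left (n1.trans n2) hε
  linarith

/-- the algebraic part of the lower bound of the Ricci curvature -/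
theorem coreF (R : Fin N → Fin N → Fin N → Fin N → ℝ) (P : Fin N → Fin N → ℝ) (ε : ℝ)
    (hε : 0 ≤ ε) (hP : ∀ a b, P a b = P b a) (hI : ∀ a c, ∑ b, P a b * P b c = P a c)
    (h2 : ∀ a b c d, ∑ a', P a a' * R a' b c d = R a b c d)
    (h3 : ∀ a b c d, R a b c d = - R b a c d) (h4 : ∀ a b c d, R a b c d = - R a b d c)
    (hc : ∀ w : Fin N → Fin N → ℝ, (∀ a b, w a b = - w b a) →
      (∀ a b, ∑ c, P a c * w c b = w a b) →
      - ε * ∑ a, ∑ b, w a b ^ 2 ≤ - ∑ a, ∑ b, ∑ c, ∑ d, R a b c d * w a b * w c d)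
    (X : Fin N → ℝ) (hX : ∀ a, ∑ b, P a b * X b = X a) :
    - (ε * N) * ∑ a, X a * X a ≤ - ∑ a, ∑ b, ∑ d, R a b a d * X b * X d := by
  set w : Fin N → Fin N → Fin N → ℝ := fun a b c => P a b * X c - P a c * X b with hw
  have w1 : ∀ a b c, w a b c = - w a c b := by
    intro a b c
    simp only [hw]
    ring
  have w2 : ∀ a b c, ∑ b', P b b' * w a b' c = w a b c := by
    intro a b c
    have e1 : ∑ b', P b b' * w a b' c =
        (∑ b', P a b' * P b' b) * X c - P a c * ∑ b', P b b' * X b' := by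
      rw [Finset.sum_mul, Finset.mul_sum, ← Finset.sum_sub_distrib]
      refine Finset.sum_congr rfl fun b' _ => ?_
      simp only [hw]
      rw [hP b' b]
      ring
    rw [e1, hI, hX]
  have key : ∀ a, - ε * ∑ b, ∑ c, w a b c ^ 2 ≤
      - ∑ b, ∑ c, ∑ d, ∑ e, R b c d e * w a b c * w a d e := fun a => hc (w a) (w1 a) (w2 a)
  -- contraction of a skew array with `w a`
  have q0 : ∀ (S : Fin N → Fin N → ℝ), (∀ a b, S a b = - S b a) → ∀ a,
      ∑ b, ∑ c, S b c * w a b c = 2 * ∑ b, ∑ c, S b c * (P a b * X c) := by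
    intro S hS a
    have e1 : ∑ b, ∑ c, S b c * (P a c * X b) = - ∑ b, ∑ c, S b c * (P a b * X c) := by
      rw [Finset.sum_comm, ← Finset.sum_neg_distrib]
      refine Finset.sum_congr rfl fun b _ => ?_
      rw [← Finset.sum_neg_distrib]
      refine Finset.sum_congr rfl fun c _ => ?_
      rw [hS c b]
      ring
    have e2 : ∑ b, ∑ c, S b c * w a b c =
        ∑ b, ∑ c, S b c * (P a b * X c) - ∑ b, ∑ c, S b c * (P a c * X b) := by
      rw [← Finset.sum_sub_distrib]
      refine Finset.sum_congr rfl fun b _ => ?_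
      rw [← Finset.sum_sub_distrib]
      refine Finset.sum_congr rfl fun c _ => ?_
      simp only [hw]
      ring
    rw [e2, e1]
    ring
  -- contraction with `P a b X c` in the first pair
  have q1 : ∀ a d e, ∑ b, ∑ c, R b c d e * (P a b * X c) = ∑ c, R a c d e * X c := by
    intro a d e
    rw [Finset.sum_comm]
    refine Finset.sum_congr rfl fun c _ => ?_
    rw [← h2 a c d e, Finset.sum_mul]
    refine Finset.sum_congr rfl fun b _ => ?_
    ring
  have q2 : ∀ a, ∑ b, ∑ c, ∑ d, ∑ e, R b c d e * w a b c * w a d e =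
      4 * ∑ c, ∑ d, ∑ e, R a c d e * P a d * X c * X e := by
    intro a
    calc ∑ b, ∑ c, ∑ d, ∑ e, R b c d e * w a b c * w a d e
        = ∑ d, ∑ e, ∑ b, ∑ c, R b c d e * w a b c * w a d e := sum4_comm _
      _ = ∑ d, ∑ e, (∑ b, ∑ c, R b c d e * w a b c) * w a d e := by
          refine Finset.sum_congr rfl fun d _ => Finset.sum_congr rfl fun e _ => ?_
          rw [Finset.sum_mul]
          refine Finset.sum_congr rfl fun b _ => ?_
          rw [Finset.sum_mul]
      _ = ∑ d, ∑ e, (2 * ∑ c, R a c d e * X c) * w a d e := by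
          refine Finset.sum_congr rfl fun d _ => Finset.sum_congr rfl fun e _ => ?_
          rw [q0 (fun b c => R b c d e) (fun b c => h3 b c d e) a, q1 a d e]
      _ = 2 * ∑ d, ∑ e, (2 * ∑ c, R a c d e * X c) * (P a d * X e) := by
          refine q0 (fun d e => 2 * ∑ c, R a c d e * X c) (fun d e => ?_) a
          rw [← mul_neg, ← Finset.sum_neg_distrib]
          congr 1
          refine Finset.sum_congr rfl fun c _ => ?_
          rw [h4 a c d e]
          ring
      _ = 4 * ∑ d, ∑ e, ∑ c, R a c d e * P a d * X c * X e := by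
          rw [Finset.mul_sum, Finset.mul_sum]
          refine Finset.sum_congr rfl fun d _ => ?_
          rw [Finset.mul_sum, Finset.mul_sum]
          refine Finset.sum_congr rfl fun e _ => ?_
          rw [Finset.mul_sum, Finset.sum_mul, Finset.mul_sum, Finset.mul_sum]
          refine Finset.sum_congr rfl fun c _ => ?_
          ring
      _ = 4 * ∑ c, ∑ d, ∑ e, R a c d e * P a d * X c * X e := by
          congr 1
          rw [Finset.sum_congr rfl fun d _ => Finset.sum_comm]
          exact Finset.sum_comm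
  have q3 : ∑ a, ∑ c, ∑ d, ∑ e, R a c d e * P a d * X c * X e =
      ∑ a, ∑ b, ∑ d, R a b a d * X b * X d := by
    calc ∑ a, ∑ c, ∑ d, ∑ e, R a c d e * P a d * X c * X e
        = ∑ c, ∑ a, ∑ d, ∑ e, R a c d e * P a d * X c * X e := Finset.sum_comm
      _ = ∑ c, ∑ d, ∑ a, ∑ e, R a c d e * P a d * X c * X e :=
          Finset.sum_congr rfl fun c _ => Finset.sum_comm
      _ = ∑ c, ∑ d, ∑ e, ∑ a, R a c d e * P a d * X c * X e :=
          Finset.sum_congr rfl fun c _ => Finset.sum_congr rfl fun d _ => Finset.sum_comm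
      _ = ∑ c, ∑ d, ∑ e, R d c d e * X c * X e := by
          refine Finset.sum_congr rfl fun c _ => Finset.sum_congr rfl fun d _ =>
            Finset.sum_congr rfl fun e _ => ?_
          rw [← h2 d c d e, Finset.sum_mul, Finset.sum_mul]
          refine Finset.sum_congr rfl fun a _ => ?_
          rw [hP a d]
          ring
      _ = ∑ d, ∑ c, ∑ e, R d c d e * X c * X e := Finset.sum_comm
  -- the norm
  have n1 : ∀ a, ∑ b, ∑ c, w a b c ^ 2 =
      2 * (∑ b, P a b ^ 2) * (∑ c, X c * X c) - 2 * X a ^ 2 := by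
    intro a
    have e1 : ∑ b, ∑ c, w a b c ^ 2 =
        ∑ b, ∑ c, P a b ^ 2 * (X c * X c) + ∑ b, ∑ c, P a c ^ 2 * (X b * X b)
          - 2 * ∑ b, ∑ c, (P a b * X b) * (P a c * X c) := by
      rw [← Finset.sum_add_distrib, Finset.mul_sum, ← Finset.sum_sub_distrib]
      refine Finset.sum_congr rfl fun b _ => ?_
      rw [← Finset.sum_add_distrib, Finset.mul_sum, ← Finset.sum_sub_distrib]
      refine Finset.sum_congr rfl fun c _ => ?_
      simp only [hw]
      ring
    have e2 : ∑ b, ∑ c, P a b ^ 2 * (X c * X c) = (∑ b, P a b ^ 2) * (∑ c, X c * X c) :=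
      (Finset.sum_mul_sum _ _ _ _).symm
    have e3 : ∑ b, ∑ c, P a c ^ 2 * (X b * X b) = (∑ b, P a b ^ 2) * (∑ c, X c * X c) := by
      rw [Finset.sum_comm, e2]
    have e4 : ∑ b, ∑ c, (P a b * X b) * (P a c * X c) = X a ^ 2 := by
      rw [← Finset.sum_mul_sum, hX]
      ring
    rw [e1, e2, e3, e4]
    ring
  have n2 : ∀ a, ∑ b, P a b ^ 2 ≤ 1 := by
    intro a
    have e1 : ∑ b, P a b ^ 2 = P a a := by
      rw [← hI a a]
      refine Finset.sum_congr rfl fun b _ => ?_
      rw [hP b a]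
      ring
    have e2 : P a a ^ 2 ≤ ∑ b, P a b ^ 2 :=
      Finset.single_le_sum (f := fun b => P a b ^ 2) (fun b _ => sq_nonneg _) (Finset.mem_univ a)
    rw [e1] at e2 ⊢
    nlinarith
  have hXX : 0 ≤ ∑ c, X c * X c := Finset.sum_nonneg fun c _ => mul_self_nonneg _
  have n3 : ∑ a, ∑ b, ∑ c, w a b c ^ 2 ≤ 2 * N * ∑ c, X c * X c := by
    calc ∑ a, ∑ b, ∑ c, w a b c ^ 2 ≤ ∑ a : Fin N, 2 * ∑ c, X c * X c := by
          refine Finset.sum_le_sum fun a _ => ?_
          rw [n1 a]
          have := mul_le_mul_of_nonneg_right (n2 a) hXX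
          nlinarith [sq_nonneg (X a)]
      _ = 2 * N * ∑ c, X c * X c := by
          rw [Finset.sum_const, Finset.card_univ, Fintype.card_fin, nsmul_eq_mul]
          ring
  have k1 : - ε * ∑ a, ∑ b, ∑ c, w a b c ^ 2 ≤
      - (4 * ∑ a, ∑ b, ∑ d, R a b a d * X b * X d) := by
    rw [← q3, Finset.mul_sum, Finset.mul_sum, ← Finset.sum_neg_distrib]
    refine Finset.sum_le_sum fun a _ => ?_
    rw [← q2 a]
    exact key a
  have k2 : ε * ∑ a, ∑ b, ∑ c, w a b c ^ 2 ≤ ε * (2 * N * ∑ c, X c * X c) :=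
    mul_le_mul_of_nonneg_left n3 hε
  have k3 : 0 ≤ ε * N * ∑ c, X c * X c := by positivity
  nlinarith

/-! ### Norms on the Fock space -/

variable {M : Type} [TopologicalSpace M] [CompactSpace M] [MeasurableSpace M] [BorelSpace M]
  (C : CD M N)

theorem ev_ip (p : M) (u v : Fk N C.A) :
    C.ev p (ip u v) = ∑ S, C.ev p (u S) * C.ev p (v S) := by
  unfold ip
  rw [map_sum]
  exact Finset.sum_congr rfl fun S _ => map_mul _ _ _

theorem ev_ip_nonneg (p : M) (u : Fk N C.A) : 0 ≤ C.ev p (ip u u) := by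
  rw [ev_ip]
  exact Finset.sum_nonneg fun S _ => mul_self_nonneg _

theorem ip_cr_cr (i : Fin N) (u : Fk N C.A) :
    ip (cr i u) (cr i u) + ip (an i u) (an i u) = ip u u := by
  rw [ip_cr, ip_an, ← ip_add_right, car_self]

theorem ev_cr_le (p : M) (i : Fin N) (u : Fk N C.A) :
    C.ev p (ip (cr i u) (cr i u)) ≤ C.ev p (ip u u) := by
  rw [← ip_cr_cr C i u, map_add]
  have := ev_ip_nonneg C p (an i u)
  linarith

theorem ev_an_le (p : M) (i : Fin N) (u : Fk N C.A) :
    C.ev p (ip (an i u) (an i u)) ≤ C.ev p (ip u u) := by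
  rw [← ip_cr_cr C i u, map_add]
  have := ev_ip_nonneg C p (cr i u)
  linarith

theorem ev_P_symm (p : M) (a b : Fin N) : C.ev p (C.P a b) = C.ev p (C.P b a) := by
  rw [C.Psymm]

theorem ev_P_idem (p : M) (a c : Fin N) :
    ∑ b, C.ev p (C.P a b) * C.ev p (C.P b c) = C.ev p (C.P a c) := by
  rw [← C.Pidem a c, map_sum]
  exact Finset.sum_congr rfl fun b _ => (map_mul _ _ _).symm

end Ric

open Ric in
/-- lower bound of the Weitzenböck term -/
theorem s_rich (h : S_RMP) : S_RICH := by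
  intro M _ _ _ _ N C ε hε hC u hu p
  obtain ⟨h1, h2, h3, h4⟩ := h M N C
  have r1 : ∀ a b c d, ∑ c', C.ev p (C.P c c') * C.ev p (Rm C.F a b c' d) =
      ∑ d', C.ev p (C.P d d') * C.ev p (Rm C.F a b c d') := by
    intro a b c d
    have e := congrArg (C.ev p) (h1 a b c d)
    rw [map_sum, map_sum] at e
    simpa only [map_mul] using e
  have r2 : ∀ a b c d, ∑ a', C.ev p (C.P a a') * C.ev p (Rm C.F a' b c d) =
      C.ev p (Rm C.F a b c d) := by
    intro a b c d
    have e := congrArg (C.ev p) (h2 a b c d)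
    rw [map_sum] at e
    simpa only [map_mul] using e
  have r3 : ∀ a b c d, C.ev p (Rm C.F a b c d) = - C.ev p (Rm C.F b a c d) := by
    intro a b c d
    rw [← map_neg, ← h3 a b c d]
  have r4 : ∀ a b c d, C.ev p (Rm C.F a b c d) = - C.ev p (Rm C.F a b d c) := by
    intro a b c d
    rw [← map_neg, ← h4 a b c d]
  -- the arrays
  set m : Finset (Fin N) → Fin N → Fin N → ℝ := fun S a b => C.ev p (cr b (an a u) S) with hm
  have m1 : ∀ S c b, m S c b = ∑ a, C.ev p (C.P c a) * m S a b := by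
    intro S c b
    simp only [hm]
    rw [hu c, map_sum, Finset.sum_apply, map_sum]
    refine Finset.sum_congr rfl fun a _ => ?_
    rw [map_smul, Pi.smul_apply, smul_eq_mul, map_mul]
  have key : ∀ S, - ε * ∑ a, ∑ b, m S a b ^ 2 ≤
      - ∑ a, ∑ b, ∑ c, ∑ d, C.ev p (Rm C.F a b c d) * m S a b * m S c d := fun S =>
    core (fun a b c d => C.ev p (Rm C.F a b c d)) (fun a b => C.ev p (C.P a b)) ε hε
      (ev_P_symm C p) (ev_P_idem C p) r1 r2 r3 r4 (hC p) (m S) (m1 S)
  -- the Weitzenböck term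
  have e1 : C.ev p (ric C.F u) =
      ∑ S, - ∑ a, ∑ b, ∑ c, ∑ d, C.ev p (Rm C.F a b c d) * m S a b * m S c d := by
    unfold ric
    rw [map_neg, Finset.sum_neg_distrib]
    congr 1
    rw [map_sum]
    rw [Finset.sum_comm]
    refine Finset.sum_congr rfl fun a _ => ?_
    rw [map_sum, Finset.sum_comm]
    refine Finset.sum_congr rfl fun b _ => ?_
    rw [map_sum, Finset.sum_comm]
    refine Finset.sum_congr rfl fun c _ => ?_
    rw [map_sum, Finset.sum_comm]
    refine Finset.sum_congr rfl fun d _ => ?_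
    rw [map_mul, ev_ip, Finset.mul_sum]
    refine Finset.sum_congr rfl fun S _ => ?_
    simp only [hm]
    ring
  have e2 : ∑ S, ∑ a, ∑ b, m S a b ^ 2 ≤ N ^ 2 * C.ev p (ip u u) := by
    have e3 : ∑ S, ∑ a, ∑ b, m S a b ^ 2 =
        ∑ a, ∑ b, C.ev p (ip (cr b (an a u)) (cr b (an a u))) := by
      rw [Finset.sum_comm]
      refine Finset.sum_congr rfl fun a _ => ?_
      rw [Finset.sum_comm]
      refine Finset.sum_congr rfl fun b _ => ?_
      rw [ev_ip]
      refine Finset.sum_congr rfl fun S _ => ?_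
      simp only [hm]
      ring
    rw [e3]
    calc ∑ a, ∑ b, C.ev p (ip (cr b (an a u)) (cr b (an a u)))
        ≤ ∑ a : Fin N, ∑ b : Fin N, C.ev p (ip u u) :=
          Finset.sum_le_sum fun a _ => Finset.sum_le_sum fun b _ =>
            (ev_cr_le C p b _).trans (ev_an_le C p a _)
      _ = N ^ 2 * C.ev p (ip u u) := by
          rw [Finset.sum_const, Finset.sum_const, Finset.card_univ, Fintype.card_fin,
            nsmul_eq_mul, nsmul_eq_mul]
          ring
  rw [e1]
  have e4 : - ε * ∑ S, ∑ a, ∑ b, m S a b ^ 2 ≤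
      ∑ S, - ∑ a, ∑ b, ∑ c, ∑ d, C.ev p (Rm C.F a b c d) * m S a b * m S c d := by
    rw [Finset.mul_sum]
    exact Finset.sum_le_sum fun S _ => key S
  refine le_trans ?_ e4
  have e5 := mul_le_mul_of_nonneg_left e2 hε
  linarith

open Ric in
/-- lower bound of the Ricci curvature -/
theorem s_ricf (h : S_RMP) : S_RICF := by
  intro M _ _ _ _ N C ε hε hC f p
  obtain ⟨h1, h2, h3, h4⟩ := h M N C
  have r2 : ∀ a b c d, ∑ a', C.ev p (C.P a a') * C.ev p (Rm C.F a' b c d) =
      C.ev p (Rm C.F a b c d) := by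
    intro a b c d
    have e := congrArg (C.ev p) (h2 a b c d)
    rw [map_sum] at e
    simpa only [map_mul] using e
  have r3 : ∀ a b c d, C.ev p (Rm C.F a b c d) = - C.ev p (Rm C.F b a c d) := by
    intro a b c d
    rw [← map_neg, ← h3 a b c d]
  have r4 : ∀ a b c d, C.ev p (Rm C.F a b c d) = - C.ev p (Rm C.F a b d c) := by
    intro a b c d
    rw [← map_neg, ← h4 a b c d]
  have hX : ∀ a, ∑ b, C.ev p (C.P a b) * C.ev p (C.F.e b f) = C.ev p (C.F.e a f) := by
    intro a
    have e := congrArg (C.ev p) (C.Pe a f)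
    rw [map_sum] at e
    simpa only [map_mul] using e
  have key := coreF (fun a b c d => C.ev p (Rm C.F a b c d)) (fun a b => C.ev p (C.P a b)) ε hε
    (ev_P_symm C p) (ev_P_idem C p) r2 r3 r4 (hC p) (fun a => C.ev p (C.F.e a f)) hX
  have e1 : C.ev p (gsq C f) = ∑ a, C.ev p (C.F.e a f) * C.ev p (C.F.e a f) := by
    unfold gsq
    rw [map_sum]
    exact Finset.sum_congr rfl fun a _ => map_mul _ _ _
  have e2 : C.ev p (- ∑ a, ∑ b, ∑ d, Rm C.F a b a d * C.F.e b f * C.F.e d f) =
      - ∑ a, ∑ b, ∑ d, C.ev p (Rm C.F a b a d) * C.ev p (C.F.e b f) * C.ev p (C.F.e d f) := by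
    rw [map_neg, map_sum]
    congr 1
    refine Finset.sum_congr rfl fun a _ => ?_
    rw [map_sum]
    refine Finset.sum_congr rfl fun b _ => ?_
    rw [map_sum]
    refine Finset.sum_congr rfl fun d _ => ?_
    rw [map_mul, map_mul]
  rw [e1, e2]
  exact key

end Pool.Agent.H781.CM
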