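import Pool.Agent.H781.CM.Spec

/-!
# Project CM (helper781): the abstract spectral theorem `S_SPECA` (helper385)
-/

set_option autoImplicit false
set_option synthInstance.maxHeartbeats 400000
set_option maxHeartbeats 4000000

open Filter
open scoped Topology

noncomputable section

namespace Pool.Agent.H781.CM

namespace Speca

section
variable {V : Type} [NormedAddCommGroup V] [InnerProductSpace ℝ V]

/-- the span of the eigenvectors -/
def EE (D : V →ₗ[ℝ] V) (t : ℝ) : Submodule ℝ V :=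
  Submodule.span ℝ {u | ∃ l : ℝ, 0 ≤ l ∧ l ≤ t ∧ D (D u) = l • u}

/-- the hypotheses -/
structure Hyp (D : V →ₗ[ℝ] V) : Prop where
  sym : ∀ u v, inner ℝ (D u) v = inner ℝ u (D v)
  cpt : ∀ v : ℕ → V, (∃ K : ℝ, ∀ k, ‖v k‖ ^ 2 + ‖D (v k)‖ ^ 2 ≤ K) →
    ∃ φ : ℕ → ℕ, StrictMono φ ∧ CauchySeq (v ∘ φ)
  reg : ∀ (v : ℕ → V) (g : V) (l : ℝ), CauchySeq v → CauchySeq (fun k => D (v k)) →
    (∀ φ, Tendsto (fun k => inner ℝ (D (v k)) (D φ) - l * inner ℝ (v k) φ) atTop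
      (𝓝 (inner ℝ g φ))) → ∃ u, Tendsto v atTop (𝓝 u)

variable {D : V →ₗ[ℝ] V} {t : ℝ}

theorem EE_inv {u : V} (hu : u ∈ EE D t) : D u ∈ EE D t := by
  unfold EE at hu
  induction hu using Submodule.span_induction with
  | mem u h =>
    obtain ⟨l, h0, h1, h2⟩ := h
    exact Submodule.subset_span ⟨l, h0, h1, by rw [h2, map_smul]⟩
  | zero => rw [map_zero]; exact Submodule.zero_mem _
  | add u v _ _ hu hv => rw [map_add]; exact Submodule.add_mem _ hu hv
  | smul c u _ hu => rw [map_smul]; exact Submodule.smul_mem _ _ hu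

/-- decomposition into eigenvectors -/
theorem EE_repr {u : V} (hu : u ∈ EE D t) : ∃ f : ℝ →₀ V,
    (∀ l, D (D (f l)) = l • f l ∧ (f l ≠ 0 → 0 ≤ l ∧ l ≤ t)) ∧ u = f.sum fun _ x => x := by
  unfold EE at hu
  induction hu using Submodule.span_induction with
  | mem u h =>
    obtain ⟨l, h0, h1, h2⟩ := h
    refine ⟨Finsupp.single l u, fun m => ?_, ?_⟩
    · by_cases hm : l = m
      · subst hm
        rw [Finsupp.single_eq_same]
        exact ⟨h2, fun _ => ⟨h0, h1⟩⟩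
      · rw [Finsupp.single_eq_of_ne (Ne.symm hm), map_zero, map_zero, smul_zero]
        exact ⟨rfl, fun h => absurd rfl h⟩
    · rw [Finsupp.sum_single_index rfl]
  | zero => exact ⟨0, fun l => by simp, by simp⟩
  | add u v _ _ hu hv =>
    obtain ⟨f, hf, hfu⟩ := hu
    obtain ⟨g, hg, hgv⟩ := hv
    refine ⟨f + g, fun l => ?_, ?_⟩
    · rw [Finsupp.add_apply, map_add, map_add, (hf l).1, (hg l).1, smul_add]
      refine ⟨rfl, fun h => ?_⟩
      by_cases h1 : f l = 0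
      · by_cases h2 : g l = 0
        · exact absurd (by rw [h1, h2, add_zero]) h
        · exact (hg l).2 h2
      · exact (hf l).2 h1
    · rw [Finsupp.sum_add_index' (fun _ => rfl) (fun _ _ _ => rfl), ← hfu, ← hgv]
  | smul c u _ hu =>
    obtain ⟨f, hf, hfu⟩ := hu
    refine ⟨c • f, fun l => ?_, ?_⟩
    · rw [Finsupp.smul_apply, map_smul, map_smul, (hf l).1]
      refine ⟨smul_comm _ _ _, fun h => (hf l).2 fun h0 => h ?_⟩
      rw [h0, smul_zero]
    · rw [Finsupp.sum_smul_index' (fun _ => rfl), hfu, Finsupp.smul_sum]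

theorem EE_le (H : Hyp D) {u : V} (hu : u ∈ EE D t) : ‖D u‖ ^ 2 ≤ t * ‖u‖ ^ 2 := by
  obtain ⟨f, hf, hfu⟩ := EE_repr hu
  have orth : ∀ l m, l ≠ m → inner ℝ (f l) (f m) = 0 := by
    intro l m hlm
    have h1 : inner ℝ (D (D (f l))) (f m) = inner ℝ (f l) (D (D (f m))) := by
      rw [H.sym, H.sym]
    rw [(hf l).1, (hf m).1, real_inner_smul_left, real_inner_smul_right] at h1
    have h2 : (l - m) * inner ℝ (f l) (f m) = 0 := by linarith
    exact (mul_eq_zero.1 h2).resolve_left (sub_ne_zero.2 hlm)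
  have hsum : ∀ g : ℝ → ℝ, inner ℝ u (f.sum fun l x => g l • x) =
      ∑ l ∈ f.support, g l * inner ℝ (f l) (f l) := by
    intro g
    rw [hfu]
    unfold Finsupp.sum
    rw [sum_inner]
    refine Finset.sum_congr rfl fun l hl => ?_
    rw [inner_sum, Finset.sum_eq_single l]
    · rw [real_inner_smul_right]
    · intro m _ hm
      rw [real_inner_smul_right, orth l m (Ne.symm hm), mul_zero]
    · intro h
      exact absurd hl h
  have e1 : ‖D u‖ ^ 2 = ∑ l ∈ f.support, l * inner ℝ (f l) (f l) := by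
    rw [← real_inner_self_eq_norm_sq, H.sym, ← hsum (fun l => l)]
    congr 1
    rw [hfu]
    unfold Finsupp.sum
    rw [map_sum, map_sum]
    exact Finset.sum_congr rfl fun l _ => (hf l).1
  have e2 : ‖u‖ ^ 2 = ∑ l ∈ f.support, inner ℝ (f l) (f l) := by
    have := hsum (fun _ => 1)
    simp only [one_smul, one_mul] at this
    rw [← this, ← hfu, real_inner_self_eq_norm_sq]
  rw [e1, e2, Finset.mul_sum]
  refine Finset.sum_le_sum fun l hl => ?_
  exact mul_le_mul_of_nonneg_right ((hf l).2 (Finsupp.mem_support_iff.1 hl)).2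
    real_inner_self_nonneg

theorem EE_fin (H : Hyp D) (ht : 0 ≤ t) : FiniteDimensional ℝ (EE D t) := by
  by_contra hfin
  obtain ⟨R, f, hR, hf, hsep⟩ := exists_seq_norm_le_one_le_norm_sub hfin
  obtain ⟨φ, hφ, hc⟩ := H.cpt (fun n => (f n : V)) ⟨R ^ 2 + t * R ^ 2, fun k => by
    have h1 : ‖(f k : V)‖ ≤ R := hf k
    have h2 : ‖(f k : V)‖ ^ 2 ≤ R ^ 2 := pow_le_pow_left₀ (norm_nonneg _) h1 2
    have h3 := EE_le H (f k).2
    have h4 := mul_le_mul_of_nonneg_left h2 ht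
    linarith⟩
  rw [Metric.cauchySeq_iff] at hc
  obtain ⟨K, hK⟩ := hc 1 one_pos
  have h1 := hK K le_rfl (K + 1) (by omega)
  have h2 : 1 ≤ ‖f (φ K) - f (φ (K + 1))‖ := hsep (hφ (by omega : K < K + 1)).ne
  rw [dist_eq_norm] at h1
  exact absurd h1 (not_lt.2 h2)

theorem cau_of_sq {v : ℕ → V} (h : ∀ ε : ℝ, 0 < ε → ∃ K, ∀ i, K ≤ i → ∀ j, K ≤ j →
    ‖v i - v j‖ ^ 2 ≤ ε) : CauchySeq v := by
  rw [Metric.cauchySeq_iff]
  intro ε hε
  obtain ⟨K, hK⟩ := h ((ε / 2) ^ 2) (by positivity)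
  refine ⟨K, fun i hi j hj => ?_⟩
  have h1 := (pow_le_pow_iff_left₀ (norm_nonneg _) (by positivity) two_ne_zero).1 (hK i hi j hj)
  rw [dist_eq_norm]
  linarith

theorem sq_of_cau {v : ℕ → V} (h : CauchySeq v) {ε : ℝ} (hε : 0 < ε) :
    ∃ K, ∀ i, K ≤ i → ∀ j, K ≤ j → ‖v i - v j‖ ^ 2 ≤ ε := by
  rw [Metric.cauchySeq_iff] at h
  obtain ⟨K, hK⟩ := h (√ε) (Real.sqrt_pos.2 hε)
  refine ⟨K, fun i hi j hj => ?_⟩
  have h1 := hK i hi j hj
  rw [dist_eq_norm] at h1
  calc ‖v i - v j‖ ^ 2 ≤ √ε ^ 2 := pow_le_pow_left₀ (norm_nonneg _) h1.le 2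
    _ = ε := Real.sq_sqrt hε.le

/-- orthogonality to `EE` -/
theorem orth_D (H : Hyp D) {v e : V} (hv : v ∈ (EE D t)ᗮ) (he : e ∈ EE D t) :
    inner ℝ v e = 0 ∧ inner ℝ (D v) (D e) = 0 := by
  refine ⟨Submodule.inner_left_of_mem_orthogonal he hv, ?_⟩
  rw [H.sym]
  exact Submodule.inner_left_of_mem_orthogonal (EE_inv (EE_inv he)) hv

/-- weak equations determine the limit -/
theorem weak_lim (H : Hyp D) {v : ℕ → V} {u g : V} {l : ℝ} (hu : Tendsto v atTop (𝓝 u))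
    (h : ∀ φ, Tendsto (fun k => inner ℝ (D (v k)) (D φ) - l * inner ℝ (v k) φ) atTop
      (𝓝 (inner ℝ g φ))) : D (D u) = l • u + g := by
  have h1 : ∀ φ, inner ℝ (D (D u) - (l • u + g)) φ = 0 := by
    intro φ
    have h2 : Tendsto (fun k => inner ℝ (D (v k)) (D φ) - l * inner ℝ (v k) φ) atTop
        (𝓝 (inner ℝ u (D (D φ)) - l * inner ℝ u φ)) := by
      have e : (fun k => inner ℝ (D (v k)) (D φ) - l * inner ℝ (v k) φ) =
          fun k => inner ℝ (v k) (D (D φ)) - l * inner ℝ (v k) φ := by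
        funext k
        rw [H.sym]
      rw [e]
      exact (hu.inner tendsto_const_nhds).sub ((hu.inner tendsto_const_nhds).const_mul l)
    have h3 := tendsto_nhds_unique h2 (h φ)
    rw [inner_sub_left, inner_add_left, real_inner_smul_left, H.sym, H.sym]
    linarith
  have h4 := h1 (D (D u) - (l • u + g))
  rw [inner_self_eq_zero (𝕜 := ℝ)] at h4
  exact sub_eq_zero.1 h4

/-- the spectral gap -/
theorem EE_gap (H : Hyp D) (ht : 0 < t) {v : V} (hv : v ∈ (EE D t)ᗮ) :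
    t * ‖v‖ ^ 2 ≤ ‖D v‖ ^ 2 := by
  by_contra hcon
  push Not at hcon
  have hfin := EE_fin H ht.le
  have hv0 : v ≠ 0 := by
    rintro rfl
    simp at hcon
  have norml : ∀ w ∈ (EE D t)ᗮ, w ≠ 0 → (‖w‖⁻¹ • w) ∈ (EE D t)ᗮ ∧ ‖(‖w‖⁻¹ • w)‖ = 1 ∧
      ‖D (‖w‖⁻¹ • w)‖ ^ 2 = ‖D w‖ ^ 2 / ‖w‖ ^ 2 := by
    intro w hw hw0
    have hn : 0 < ‖w‖ := norm_pos_iff.2 hw0
    refine ⟨Submodule.smul_mem _ _ hw, ?_, ?_⟩
    · rw [norm_smul, norm_inv, norm_norm, inv_mul_cancel₀ hn.ne']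
    · rw [map_smul, norm_smul, norm_inv, norm_norm, mul_pow, inv_pow]
      field_simp
  obtain ⟨S, hS⟩ : ∃ S : Set ℝ, ∀ x, x ∈ S ↔ ∃ w ∈ (EE D t)ᗮ, ‖w‖ = 1 ∧ ‖D w‖ ^ 2 = x :=
    ⟨{x | ∃ w ∈ (EE D t)ᗮ, ‖w‖ = 1 ∧ ‖D w‖ ^ 2 = x}, fun _ => Iff.rfl⟩
  have hS0 : ∀ x ∈ S, 0 ≤ x := by
    intro x hx
    obtain ⟨w, -, -, rfl⟩ := (hS x).1 hx
    positivity
  have hbdd : BddBelow S := ⟨0, hS0⟩
  have hmemS : ∀ w ∈ (EE D t)ᗮ, w ≠ 0 → ‖D w‖ ^ 2 / ‖w‖ ^ 2 ∈ S := by
    intro w hw hw0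
    obtain ⟨h1, h2, h3⟩ := norml w hw hw0
    exact (hS _).2 ⟨_, h1, h2, h3⟩
  have hne : S.Nonempty := ⟨_, hmemS v hv hv0⟩
  obtain ⟨m, hm⟩ : ∃ m, m = sInf S := ⟨_, rfl⟩
  have hmt : m < t := by
    rw [hm]
    refine lt_of_le_of_lt (csInf_le hbdd (hmemS v hv hv0)) ?_
    rw [div_lt_iff₀ (by positivity)]
    exact hcon
  have hm0 : 0 ≤ m := by
    rw [hm]
    exact le_csInf hne hS0
  have hmin : ∀ w ∈ (EE D t)ᗮ, m * ‖w‖ ^ 2 ≤ ‖D w‖ ^ 2 := by
    intro w hw
    by_cases hw0 : w = 0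
    · simp [hw0]
    · have h1 := csInf_le hbdd (hmemS w hw hw0)
      rw [← hm, le_div_iff₀ (by positivity)] at h1
      exact h1
  obtain ⟨x, hanti, hx, hxS⟩ := exists_seq_tendsto_sInf hne hbdd
  rw [← hm] at hx
  have hxS' : ∀ n, ∃ w ∈ (EE D t)ᗮ, ‖w‖ = 1 ∧ ‖D w‖ ^ 2 = x n := fun n => (hS _).1 (hxS n)
  choose w hwE hw1 hwx using hxS'
  obtain ⟨ψ, hψ, hc⟩ := H.cpt w ⟨1 + x 0, fun k => by
    rw [hw1, hwx, one_pow]
    have := hanti (Nat.zero_le k)
    linarith⟩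
  -- the subsequence
  obtain ⟨y, hy⟩ : ∃ y : ℕ → V, ∀ k, y k = w (ψ k) := ⟨_, fun _ => rfl⟩
  have hyE : ∀ k, y k ∈ (EE D t)ᗮ := fun k => by rw [hy]; exact hwE _
  have hy1 : ∀ k, ‖y k‖ = 1 := fun k => by rw [hy]; exact hw1 _
  have hyc : CauchySeq y := by
    have : y = w ∘ ψ := funext hy
    rw [this]; exact hc
  have hylim : Tendsto (fun k => ‖D (y k)‖ ^ 2 - m) atTop (𝓝 0) := by
    have h1 : Tendsto (fun k => x (ψ k)) atTop (𝓝 m) := hx.comp hψ.tendsto_atTop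
    have h2 := h1.sub_const m
    rw [sub_self] at h2
    refine h2.congr fun k => ?_
    rw [hy, hwx]
  have hDc : CauchySeq (fun k => D (y k)) := by
    apply cau_of_sq
    intro ε hε
    obtain ⟨K1, hK1⟩ := sq_of_cau hyc (show 0 < ε / (2 * (m + 1)) by positivity)
    obtain ⟨K2, hK2⟩ := (hylim.eventually (gt_mem_nhds (show (0 : ℝ) < ε / 8 by positivity))).exists_forall_of_atTop
    refine ⟨max K1 K2, fun i hi j hj => ?_⟩
    have a1 := hK1 i (le_of_max_le_left hi) j (le_of_max_le_left hj)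
    have a2 := hK2 i (le_of_max_le_right hi)
    have a3 := hK2 j (le_of_max_le_right hj)
    have a4 := hmin (y i + y j) (Submodule.add_mem _ (hyE i) (hyE j))
    have p1 := parallelogram_law_with_norm ℝ (y i) (y j)
    have p2 := parallelogram_law_with_norm ℝ (D (y i)) (D (y j))
    rw [map_add] at a4
    rw [hy1, hy1] at p1
    have a5 : m * ‖y i - y j‖ ^ 2 ≤ ε / 2 := by
      have h1 : m * ‖y i - y j‖ ^ 2 ≤ (m + 1) * (ε / (2 * (m + 1))) :=
        mul_le_mul (by linarith) a1 (by positivity) (by positivity)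
      have h2 : (m + 1) * (ε / (2 * (m + 1))) = ε / 2 := by field_simp
      linarith
    have a6 : ‖y i + y j‖ ^ 2 = 4 - ‖y i - y j‖ ^ 2 := by nlinarith [p1]
    rw [a6] at a4
    nlinarith [p2]
  have hweak : ∀ φ, Tendsto (fun k => inner ℝ (D (y k)) (D φ) - m * inner ℝ (y k) φ) atTop
      (𝓝 (inner ℝ (0 : V) φ)) := by
    intro φ
    rw [inner_zero_left]
    obtain ⟨e, he, z, hz, rfl⟩ := (EE D t).exists_add_mem_mem_orthogonal φ
    have h1 : ∀ k, inner ℝ (D (y k)) (D (e + z)) - m * inner ℝ (y k) (e + z) =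
        inner ℝ (D (y k)) (D z) - m * inner ℝ (y k) z := by
      intro k
      obtain ⟨o1, o2⟩ := orth_D H (hyE k) he
      rw [map_add, inner_add_right, inner_add_right, o1, o2, zero_add, zero_add]
    simp only [h1]
    -- Cauchy-Schwarz
    have h2 : ∀ k, (inner ℝ (D (y k)) (D z) - m * inner ℝ (y k) z) ^ 2 ≤
        (‖D (y k)‖ ^ 2 - m) * (‖D z‖ ^ 2 - m * ‖z‖ ^ 2) := by
      intro k
      have h3 : ∀ s : ℝ, 0 ≤ (‖D z‖ ^ 2 - m * ‖z‖ ^ 2) * (s * s) +
          (2 * (inner ℝ (D (y k)) (D z) - m * inner ℝ (y k) z)) * s + (‖D (y k)‖ ^ 2 - m) := by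
        intro s
        have h4 := hmin (y k + s • z) (Submodule.add_mem _ (hyE k) (Submodule.smul_mem _ _ hz))
        rw [map_add, map_smul, norm_add_sq_real, norm_add_sq_real, real_inner_smul_right,
          real_inner_smul_right, norm_smul, norm_smul, hy1, mul_pow, mul_pow,
          Real.norm_eq_abs, sq_abs] at h4
        nlinarith [h4]
      have h5 := discrim_le_zero h3
      unfold discrim at h5
      nlinarith [h5]
    have h6 : Tendsto (fun k => (inner ℝ (D (y k)) (D z) - m * inner ℝ (y k) z) ^ 2) atTop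
        (𝓝 0) := by
      have h7 := hylim.mul_const (‖D z‖ ^ 2 - m * ‖z‖ ^ 2)
      rw [zero_mul] at h7
      exact squeeze_zero (fun k => sq_nonneg _) h2 h7
    have h8 := h6.sqrt
    rw [Real.sqrt_zero] at h8
    refine squeeze_zero_norm (fun k => ?_) h8
    rw [Real.sqrt_sq_eq_abs, Real.norm_eq_abs]
  obtain ⟨u, hu⟩ := H.reg y 0 m hyc hDc hweak
  have h1 := weak_lim H hu hweak
  rw [add_zero] at h1
  have huE : u ∈ EE D t := Submodule.subset_span ⟨m, hm0, hmt.le, h1⟩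
  have huE' : u ∈ (EE D t)ᗮ :=
    (Submodule.isClosed_orthogonal _).mem_of_tendsto hu (Eventually.of_forall hyE)
  have h2 : ‖u‖ = 1 := by
    have h3 := hu.norm
    simp only [hy1] at h3
    exact (tendsto_nhds_unique h3 tendsto_const_nhds)
  have h4 : inner ℝ u u = (0 : ℝ) := Submodule.inner_left_of_mem_orthogonal huE huE'
  rw [real_inner_self_eq_norm_sq, h2] at h4
  norm_num at h4

/-- solvability -/
theorem EE_solve (H : Hyp D) (ht : 0 < t) {f : V} (hf : f ∈ (EE D t)ᗮ) : ∃ γ, D (D γ) = f := by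
  have hfin := EE_fin H ht.le
  obtain ⟨J, hJ⟩ : ∃ J : V → ℝ, ∀ v, J v = ‖D v‖ ^ 2 / 2 - inner ℝ f v := ⟨_, fun _ => rfl⟩
  obtain ⟨S, hS⟩ : ∃ S : Set ℝ, ∀ x, x ∈ S ↔ ∃ w ∈ (EE D t)ᗮ, J w = x :=
    ⟨{x | ∃ w ∈ (EE D t)ᗮ, J w = x}, fun _ => Iff.rfl⟩
  have hbdd : BddBelow S := by
    refine ⟨-(‖f‖ ^ 2 / (2 * t)), fun x hx => ?_⟩
    obtain ⟨w, hw, rfl⟩ := (hS x).1 hx
    rw [hJ]
    have h1 := EE_gap H ht hw
    have h2 := real_inner_le_norm f w
    have h3 : ‖f‖ * ‖w‖ ≤ t * ‖w‖ ^ 2 / 2 + ‖f‖ ^ 2 / (2 * t) := by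
      have h4 : 0 ≤ (t * ‖w‖ - ‖f‖) ^ 2 / (2 * t) := by positivity
      have h5 : (t * ‖w‖ - ‖f‖) ^ 2 / (2 * t) =
          t * ‖w‖ ^ 2 / 2 + ‖f‖ ^ 2 / (2 * t) - ‖f‖ * ‖w‖ := by
        field_simp
        ring
      linarith
    linarith
  have hne : S.Nonempty := ⟨J 0, (hS _).2 ⟨0, Submodule.zero_mem _, rfl⟩⟩
  obtain ⟨j, hj⟩ : ∃ j, j = sInf S := ⟨_, rfl⟩
  have hmin : ∀ w ∈ (EE D t)ᗮ, j ≤ J w := fun w hw => by
    rw [hj]
    exact csInf_le hbdd ((hS _).2 ⟨w, hw, rfl⟩)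
  obtain ⟨x, -, hx, hxS⟩ := exists_seq_tendsto_sInf hne hbdd
  rw [← hj] at hx
  have hxS' : ∀ n, ∃ w ∈ (EE D t)ᗮ, J w = x n := fun n => (hS _).1 (hxS n)
  choose v hvE hvx using hxS'
  have hlim : Tendsto (fun k => J (v k) - j) atTop (𝓝 0) := by
    have h2 := hx.sub_const j
    rw [sub_self] at h2
    exact h2.congr fun k => by rw [hvx]
  have hdiff : ∀ a b, ‖D (v a) - D (v b)‖ ^ 2 ≤ 4 * ((J (v a) - j) + (J (v b) - j)) := by
    intro a b
    have h1 := hmin ((1 / 2 : ℝ) • (v a + v b))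
      (Submodule.smul_mem _ _ (Submodule.add_mem _ (hvE a) (hvE b)))
    have p := parallelogram_law_with_norm ℝ (D (v a)) (D (v b))
    rw [hJ, map_smul, map_add, norm_smul, mul_pow, real_inner_smul_right, inner_add_right,
      Real.norm_eq_abs, sq_abs] at h1
    rw [hJ (v a), hJ (v b)]
    nlinarith [h1, p]
  have hDc : CauchySeq (fun k => D (v k)) := by
    apply cau_of_sq
    intro ε hε
    obtain ⟨K, hK⟩ := (hlim.eventually (gt_mem_nhds (show (0 : ℝ) < ε / 8 by positivity))).exists_forall_of_atTop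
    refine ⟨K, fun a ha b hb => ?_⟩
    have a1 := hK a ha
    have a2 := hK b hb
    have a3 := hdiff a b
    linarith
  have hvc : CauchySeq v := by
    apply cau_of_sq
    intro ε hε
    obtain ⟨K, hK⟩ := sq_of_cau hDc (show 0 < t * ε by positivity)
    refine ⟨K, fun a ha b hb => ?_⟩
    have a1 := hK a ha b hb
    have a2 := EE_gap H ht (Submodule.sub_mem _ (hvE a) (hvE b))
    rw [map_sub] at a2
    exact le_of_mul_le_mul_left (a2.trans a1) ht
  have hweak : ∀ φ, Tendsto (fun k => inner ℝ (D (v k)) (D φ) - 0 * inner ℝ (v k) φ) atTop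
      (𝓝 (inner ℝ f φ)) := by
    intro φ
    obtain ⟨e, he, z, hz, rfl⟩ := (EE D t).exists_add_mem_mem_orthogonal φ
    have h0 : inner ℝ f (e + z) = (inner ℝ f z : ℝ) := by
      rw [inner_add_right, Submodule.inner_left_of_mem_orthogonal he hf, zero_add]
    have h1 : ∀ k, inner ℝ (D (v k)) (D (e + z)) - 0 * inner ℝ (v k) (e + z) =
        (inner ℝ (D (v k)) (D z) - inner ℝ f z) + inner ℝ f z := by
      intro k
      obtain ⟨o1, o2⟩ := orth_D H (hvE k) he
      rw [map_add, inner_add_right, inner_add_right, o1, o2]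
      ring
    simp only [h1, h0]
    have h2 : ∀ k, (inner ℝ (D (v k)) (D z) - inner ℝ f z) ^ 2 ≤
        (J (v k) - j) * (2 * ‖D z‖ ^ 2) := by
      intro k
      have h3 : ∀ s : ℝ, 0 ≤ (‖D z‖ ^ 2 / 2) * (s * s) +
          (inner ℝ (D (v k)) (D z) - inner ℝ f z) * s + (J (v k) - j) := by
        intro s
        have h4 := hmin (v k + s • z) (Submodule.add_mem _ (hvE k) (Submodule.smul_mem _ _ hz))
        rw [hJ, map_add, map_smul, norm_add_sq_real, real_inner_smul_right, norm_smul,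
          inner_add_right, real_inner_smul_right, mul_pow, Real.norm_eq_abs, sq_abs] at h4
        rw [hJ (v k)]
        nlinarith [h4]
      have h5 := discrim_le_zero h3
      unfold discrim at h5
      nlinarith [h5]
    have h6 : Tendsto (fun k => (inner ℝ (D (v k)) (D z) - inner ℝ f z) ^ 2) atTop (𝓝 0) := by
      have h7 := hlim.mul_const (2 * ‖D z‖ ^ 2)
      rw [zero_mul] at h7
      exact squeeze_zero (fun k => sq_nonneg _) h2 h7
    have h8 := h6.sqrt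
    rw [Real.sqrt_zero] at h8
    have h9 : Tendsto (fun k => inner ℝ (D (v k)) (D z) - (inner ℝ f z : ℝ)) atTop (𝓝 0) := by
      refine squeeze_zero_norm (fun k => ?_) h8
      rw [Real.sqrt_sq_eq_abs, Real.norm_eq_abs]
    have h10 := h9.add_const (inner ℝ f z : ℝ)
    rw [zero_add] at h10
    exact h10
  obtain ⟨u, hu⟩ := H.reg v f 0 hvc hDc hweak
  have h1 := weak_lim H hu hweak
  rw [zero_smul, zero_add] at h1
  exact ⟨u, h1⟩

end

end Speca

open Speca

theorem s_speca : S_SPECA := by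
  intro V _ _ B D hs hp hD hC hR t ht E hE
  let core : InnerProductSpace.Core ℝ V :=
    { inner := fun u v => B u v
      conj_inner_symm := fun u v => hs v u
      re_inner_nonneg := fun u => by
        by_cases h : u = 0
        · subst h
          simp
        · exact (hp u h).le
      add_left := fun u v w => by simp
      smul_left := fun u v r => by simp
      definite := fun u h => by
        by_contra h0
        exact (hp u h0).ne' h }
  letI i1 : NormedAddCommGroup V := core.toNormedAddCommGroup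
  letI i2 : InnerProductSpace ℝ V := InnerProductSpace.ofCore core.toCore
  have hB : ∀ u v : V, inner ℝ u v = B u v := fun u v => rfl
  have hn : ∀ u : V, ‖u‖ ^ 2 = B u u := fun u => by rw [← real_inner_self_eq_norm_sq, hB]
  have H : Hyp D := by
    refine ⟨fun u v => ?_, fun v hv => ?_, fun v g l h1 h2 h3 => ?_⟩
    · rw [hB, hB, hD]
    · obtain ⟨K, hK⟩ := hv
      obtain ⟨φ, hφ, hc⟩ := hC v ⟨K, fun k => by rw [← hn, ← hn]; exact hK k⟩
      refine ⟨φ, hφ, cau_of_sq fun ε hε => ?_⟩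
      obtain ⟨K', hK'⟩ := hc ε hε
      exact ⟨K', fun i hi j hj => by rw [hn]; exact hK' i hi j hj⟩
    · obtain ⟨u, hu⟩ := hR v g l
        (fun ε hε => by
          obtain ⟨K, hK⟩ := sq_of_cau h1 hε
          exact ⟨K, fun i hi j hj => by rw [← hn]; exact hK i hi j hj⟩)
        (fun ε hε => by
          obtain ⟨K, hK⟩ := sq_of_cau h2 hε
          exact ⟨K, fun i hi j hj => by rw [← hn]; exact hK i hi j hj⟩)
        (fun φ => by
          have := h3 φ
          simp only [hB] at this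
          exact this)
      refine ⟨u, ?_⟩
      rw [tendsto_iff_norm_sub_tendsto_zero]
      have h4 : Tendsto (fun k => ‖v k - u‖ ^ 2) atTop (𝓝 0) := by
        simp only [hn]
        exact hu
      have h5 := h4.sqrt
      rw [Real.sqrt_zero] at h5
      refine h5.congr fun k => ?_
      rw [Real.sqrt_sq (norm_nonneg _)]
  have hEE : E = EE D t := hE
  have hmem : ∀ v : V, v ∈ (EE D t)ᗮ ↔ ∀ u ∈ E, B u v = 0 := by
    intro v
    rw [Submodule.mem_orthogonal, hEE]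
    exact Iff.rfl
  have hfin : FiniteDimensional ℝ (EE D t) := EE_fin H ht.le
  refine ⟨?_, ?_, ?_, ?_, ?_⟩
  · rw [hEE]
    exact hfin
  · intro u hu
    rw [hEE] at hu ⊢
    refine ⟨EE_inv hu, ?_⟩
    rw [← hn, ← hn]
    exact EE_le H hu
  · intro v hv
    rw [← hn, ← hn]
    exact EE_gap H ht ((hmem v).2 hv)
  · intro v
    obtain ⟨e, he, z, hz, rfl⟩ := (EE D t).exists_add_mem_mem_orthogonal v
    refine ⟨e, hEE ▸ he, fun w hw => ?_⟩
    rw [add_sub_cancel_left]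
    exact (hmem z).1 hz w hw
  · intro f hf
    exact EE_solve H ht ((hmem f).2 hf)

end Pool.Agent.H781.CM
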