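import Pool.Agent.H781.CM.Spec
import Pool.Agent.H781.CM.Base

/-!
Weak solutions of symmetric first order systems are strong solutions (Friedrichs).
-/

set_option autoImplicit false
set_option synthInstance.maxHeartbeats 400000
set_option maxHeartbeats 4000000
set_option linter.unusedSectionVars false

open MeasureTheory Filter
open scoped Topology ContDiff

noncomputable section

namespace Pool.Agent.H781.CM

open Pool.Agent.H781.NG

namespace Ws

variable {M : Type} [TopologicalSpace M] [CompactSpace M] [MeasurableSpace M] [BorelSpace M]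
  {N : ℕ} (C : CD M N)

/-- pairing of an `L²` function with a smooth function -/
def cu (u : M → ℝ) (f : C.A) : ℝ := ∫ p, u p * C.ev p f ∂C.μ

theorem int_mul {u v : M → ℝ} (hu : MemLp u 2 C.μ) (hv : MemLp v 2 C.μ) :
    Integrable (fun p => u p * v p) C.μ := hu.integrable_mul hv

theorem int_cu {u : M → ℝ} (hu : MemLp u 2 C.μ) (f : C.A) :
    Integrable (fun p => u p * C.ev p f) C.μ := int_mul C hu (memLp_ev C f)

/-- the pairing as a linear map -/
def cuL {u : M → ℝ} (hu : MemLp u 2 C.μ) : C.A →ₗ[ℝ] ℝ where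
  toFun := cu C u
  map_add' f g := by
    unfold cu
    simp only [map_add, mul_add]
    exact integral_add (int_cu C hu f) (int_cu C hu g)
  map_smul' c f := by
    unfold cu
    simp only [ev_smul, RingHom.id_apply, smul_eq_mul]
    rw [← integral_const_mul]
    congr 1
    funext p
    ring

theorem cuL_apply {u : M → ℝ} (hu : MemLp u 2 C.μ) (f : C.A) : cuL C hu f = cu C u f := rfl

theorem cu_ev (g f : C.A) : cu C (fun p => C.ev p g) f = ig C (g * f) := by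
  unfold cu ig
  simp only [map_mul]

/-- Cauchy-Schwarz -/
theorem cs {κ : Type} [Fintype κ] {u v : κ → M → ℝ} (hu : ∀ i, MemLp (u i) 2 C.μ)
    (hv : ∀ i, MemLp (v i) 2 C.μ) : (∑ i, ∫ p, u i p * v i p ∂C.μ) ^ 2 ≤
      (∑ i, ∫ p, u i p ^ 2 ∂C.μ) * ∑ i, ∫ p, v i p ^ 2 ∂C.μ := by
  have h : ∀ t : ℝ, 0 ≤ (∑ i, ∫ p, u i p ^ 2 ∂C.μ) * (t * t) +
      2 * (∑ i, ∫ p, u i p * v i p ∂C.μ) * t + ∑ i, ∫ p, v i p ^ 2 ∂C.μ := by
    intro t
    have h1 : ∀ i, ∫ p, (t * u i p + v i p) ^ 2 ∂C.μ = (∫ p, u i p ^ 2 ∂C.μ) * (t * t) +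
        (∫ p, u i p * v i p ∂C.μ) * (2 * t) + ∫ p, v i p ^ 2 ∂C.μ := by
      intro i
      have e : (fun p => (t * u i p + v i p) ^ 2) = fun p => ((u i p ^ 2) * (t * t) +
          (u i p * v i p) * (2 * t)) + v i p ^ 2 := by
        funext p; ring
      have i1 : Integrable (fun p => (u i p ^ 2) * (t * t)) C.μ := (hu i).integrable_sq.mul_const _
      have i2 : Integrable (fun p => (u i p * v i p) * (2 * t)) C.μ :=
        (int_mul C (hu i) (hv i)).mul_const _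
      have i3 : Integrable (fun p => v i p ^ 2) C.μ := (hv i).integrable_sq
      have i12 : Integrable (fun p => (u i p ^ 2) * (t * t) + (u i p * v i p) * (2 * t)) C.μ :=
        i1.add i2
      rw [e, integral_add i12 i3, integral_add i1 i2, integral_mul_const,
        integral_mul_const]
    have h2 : 0 ≤ ∑ i, ∫ p, (t * u i p + v i p) ^ 2 ∂C.μ :=
      Finset.sum_nonneg fun i _ => integral_nonneg fun p => sq_nonneg _
    rw [Finset.sum_congr rfl fun i _ => h1 i, Finset.sum_add_distrib, Finset.sum_add_distrib,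
      ← Finset.sum_mul, ← Finset.sum_mul] at h2
    linarith
  have h3 := discrim_le_zero h
  unfold discrim at h3
  nlinarith

theorem cs_cu {κ : Type} [Fintype κ] {u : κ → M → ℝ} (hu : ∀ i, MemLp (u i) 2 C.μ)
    (f : κ → C.A) : (∑ i, cu C (u i) (f i)) ^ 2 ≤
      (∑ i, ∫ p, u i p ^ 2 ∂C.μ) * ∑ i, ig C (f i ^ 2) := by
  have h := cs C hu (v := fun i p => C.ev p (f i)) (fun i => memLp_ev C (f i))
  have e : ∀ i, ig C (f i ^ 2) = ∫ p, C.ev p (f i) ^ 2 ∂C.μ := by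
    intro i
    unfold ig
    simp only [map_pow]
  simp only [e]
  exact h

theorem cs_ig {κ : Type} [Fintype κ] (g f : κ → C.A) : (∑ i, ig C (g i * f i)) ^ 2 ≤
    (∑ i, ig C (g i ^ 2)) * ∑ i, ig C (f i ^ 2) := by
  have h := cs_cu C (u := fun i p => C.ev p (g i)) (fun i => memLp_ev C (g i)) f
  have e : ∀ i, ig C (g i ^ 2) = ∫ p, C.ev p (g i) ^ 2 ∂C.μ := by
    intro i
    unfold ig
    simp only [map_pow]
  simp only [cu_ev] at h
  simp only [e] at h ⊢
  exact h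

theorem ig_sq_nonneg (f : C.A) : 0 ≤ ig C (f ^ 2) :=
  ig_nonneg C fun p => by rw [map_pow]; exact sq_nonneg _

theorem ig_add_sq (f g : C.A) : ig C ((f + g) ^ 2) ≤ 2 * ig C (f ^ 2) + 2 * ig C (g ^ 2) := by
  rw [← ig_smul, ← ig_smul, ← ig_add]
  refine ig_mono C fun p => ?_
  simp only [map_add, map_pow, ev_smul]
  nlinarith [sq_nonneg (C.ev p f - C.ev p g)]

theorem ig_neg_sq (f : C.A) : ig C ((-f) ^ 2) = ig C (f ^ 2) := by
  rw [neg_sq]

theorem ig_sub_sq (f g : C.A) : ig C ((f - g) ^ 2) ≤ 2 * ig C (f ^ 2) + 2 * ig C (g ^ 2) := by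
  rw [sub_eq_add_neg, ← ig_neg_sq C g]
  exact ig_add_sq C f (-g)

theorem ig_smul_sq (t : ℝ) (f : C.A) : ig C ((t • f) ^ 2) = t ^ 2 * ig C (f ^ 2) := by
  rw [smul_pow, ig_smul]

theorem ig_mul_sq (a : C.A) : ∃ K : ℝ, 0 ≤ K ∧ ∀ f, ig C ((a * f) ^ 2) ≤ K * ig C (f ^ 2) := by
  obtain ⟨K, hK0, hK⟩ := bdd C a
  refine ⟨K ^ 2, sq_nonneg _, fun f => ?_⟩
  rw [← ig_smul]
  refine ig_mono C fun p => ?_
  simp only [map_mul, map_pow, ev_smul, mul_pow]
  refine mul_le_mul_of_nonneg_right ?_ (sq_nonneg _)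
  rw [sq_le_sq, abs_of_nonneg hK0]
  exact hK p

/-- division by the common factor -/
theorem div_aux {G K W : ℝ} (hG : 0 ≤ G) (hK : 0 ≤ K) (hW : 0 ≤ W) (h : G ^ 2 ≤ K * G * W) :
    G ≤ K * W := by
  rcases hG.eq_or_lt with h0 | h0
  · rw [← h0]; positivity
  · have : G * G ≤ G * (K * W) := by nlinarith
    exact le_of_mul_le_mul_left this h0

/-! ### finite rank operators -/

section fin
variable {k : ℕ} (φ ψ : Fin k → C.A)

/-- the finite rank operator as a linear map -/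
def frL : C.A →ₗ[ℝ] C.A where
  toFun := fr C φ ψ
  map_add' f g := by
    unfold fr
    rw [← Finset.sum_add_distrib]
    refine Finset.sum_congr rfl fun j _ => ?_
    rw [mul_add, ig_add, add_smul]
  map_smul' c f := by
    unfold fr
    rw [RingHom.id_apply, Finset.smul_sum]
    refine Finset.sum_congr rfl fun j _ => ?_
    rw [mul_smul_comm, ig_smul, mul_smul]

theorem frL_apply (f : C.A) : frL C φ ψ f = fr C φ ψ f := rfl

/-- the operator on `L²` -/
def fu (u : M → ℝ) : C.A := ∑ j, cu C u (ψ j) • φ j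

theorem ig_fu {u : M → ℝ} (hu : MemLp u 2 C.μ) (w : C.A) :
    ig C (fu C φ ψ u * w) = cu C u (fr C ψ φ w) := by
  have h1 : cu C u (fr C ψ φ w) = ∑ j, cu C u (ig C (φ j * w) • ψ j) := by
    rw [← cuL_apply C hu]
    unfold fr
    rw [map_sum]
    rfl
  rw [h1]
  unfold fu
  rw [Finset.sum_mul, ig_sum]
  refine Finset.sum_congr rfl fun j _ => ?_
  rw [smul_mul_assoc, ig_smul, ← cuL_apply C hu (ig C (φ j * w) • ψ j), map_smul, cuL_apply,
    smul_eq_mul]
  ring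

theorem fu_ev (g : C.A) : fu C φ ψ (fun p => C.ev p g) = fr C φ ψ g := by
  unfold fu fr
  refine Finset.sum_congr rfl fun j _ => ?_
  rw [cu_ev, mul_comm]

theorem ig_fr (g w : C.A) : ig C (fr C φ ψ g * w) = ig C (g * fr C ψ φ w) := by
  rw [← fu_ev, ig_fu C φ ψ (memLp_ev C g), cu_ev]

end fin


/-! ### bounded families of operators -/

section bd
variable {κ : Type} [Fintype κ]

/-- uniformly bounded families -/
def Bd (T : ℕ → (κ → C.A) → C.A) : Prop :=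
  ∃ K : ℝ, 0 ≤ K ∧ ∀ m g, ig C (T m g ^ 2) ≤ K * ∑ i, ig C (g i ^ 2)

theorem sumsq_nonneg (g : κ → C.A) : 0 ≤ ∑ i, ig C (g i ^ 2) :=
  Finset.sum_nonneg fun i _ => ig_sq_nonneg C (g i)

theorem bd_proj (j : κ) {T : ℕ → C.A → C.A}
    (hT : ∃ K : ℝ, ∀ m g, ig C (T m g ^ 2) ≤ K * ig C (g ^ 2)) : Bd C (fun m g => T m (g j)) := by
  obtain ⟨K, hK⟩ := hT
  refine ⟨|K|, abs_nonneg _, fun m g => (hK m (g j)).trans ?_⟩
  have h1 : ig C (g j ^ 2) ≤ ∑ i, ig C (g i ^ 2) :=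
    Finset.single_le_sum (f := fun i => ig C (g i ^ 2)) (fun i _ => ig_sq_nonneg C (g i))
      (Finset.mem_univ j)
  calc K * ig C (g j ^ 2) ≤ |K| * ig C (g j ^ 2) :=
        mul_le_mul_of_nonneg_right (le_abs_self K) (ig_sq_nonneg C _)
    _ ≤ |K| * ∑ i, ig C (g i ^ 2) := mul_le_mul_of_nonneg_left h1 (abs_nonneg _)

theorem bd_zero : Bd C (fun _ (_ : κ → C.A) => 0) :=
  ⟨0, le_rfl, fun m g => by
    have : (0 : C.A) ^ 2 = 0 := by ring
    rw [this, ig_zero, zero_mul]⟩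

theorem bd_add {T T' : ℕ → (κ → C.A) → C.A} (h : Bd C T) (h' : Bd C T') :
    Bd C (fun m g => T m g + T' m g) := by
  obtain ⟨K, hK0, hK⟩ := h
  obtain ⟨K', hK0', hK'⟩ := h'
  refine ⟨2 * K + 2 * K', by positivity, fun m g => (ig_add_sq C _ _).trans ?_⟩
  have h1 := hK m g
  have h2 := hK' m g
  nlinarith

theorem bd_smul (t : ℝ) {T : ℕ → (κ → C.A) → C.A} (h : Bd C T) : Bd C (fun m g => t • T m g) := by
  obtain ⟨K, hK0, hK⟩ := h
  refine ⟨t ^ 2 * K, by positivity, fun m g => ?_⟩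
  rw [ig_smul_sq, mul_assoc]
  exact mul_le_mul_of_nonneg_left (hK m g) (sq_nonneg t)

theorem bd_neg {T : ℕ → (κ → C.A) → C.A} (h : Bd C T) : Bd C (fun m g => -T m g) := by
  obtain ⟨K, hK0, hK⟩ := h
  exact ⟨K, hK0, fun m g => by rw [ig_neg_sq]; exact hK m g⟩

theorem bd_mul (a : C.A) {T : ℕ → (κ → C.A) → C.A} (h : Bd C T) : Bd C (fun m g => a * T m g) := by
  obtain ⟨K, hK0, hK⟩ := h
  obtain ⟨L, hL0, hL⟩ := ig_mul_sq C a
  refine ⟨L * K, by positivity, fun m g => (hL _).trans ?_⟩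
  rw [mul_assoc]
  exact mul_le_mul_of_nonneg_left (hK m g) hL0

theorem bd_sum {ι : Type} (s : Finset ι) {T : ι → ℕ → (κ → C.A) → C.A} (h : ∀ i, Bd C (T i)) :
    Bd C (fun m g => ∑ i ∈ s, T i m g) := by
  classical
  induction s using Finset.induction_on with
  | empty =>
    simp only [Finset.sum_empty]
    exact bd_zero C
  | insert i s hi ih =>
    simp only [Finset.sum_insert hi]
    exact bd_add C (h i) ih

theorem bd_congr {T T' : ℕ → (κ → C.A) → C.A} (h : Bd C T) (e : ∀ m g, T' m g = T m g) :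
    Bd C T' := by
  obtain ⟨K, hK0, hK⟩ := h
  exact ⟨K, hK0, fun m g => by rw [e]; exact hK m g⟩

theorem bd_all {T : κ → ℕ → (κ → C.A) → C.A} (h : ∀ i, Bd C (T i)) :
    ∃ K : ℝ, 0 ≤ K ∧ ∀ m g, ∑ i, ig C (T i m g ^ 2) ≤ K * ∑ i, ig C (g i ^ 2) := by
  choose K hK0 hK using h
  refine ⟨∑ i, K i, Finset.sum_nonneg fun i _ => hK0 i, fun m g => ?_⟩
  rw [Finset.sum_mul]
  exact Finset.sum_le_sum fun i _ => hK i m g

end bd

/-! ### the mollifiers and the system -/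

section main
variable {κ : Type} [Fintype κ] [DecidableEq κ] (B : Fin N → Matrix κ κ ℝ) (c : Matrix κ κ C.A)
  {k : ℕ → ℕ} (φ ψ : ∀ m, Fin (k m) → C.A)

/-- the commutator of the system with the mollifiers is bounded -/
theorem comm_bd
    (h1 : ∃ K : ℝ, ∀ m f, ig C (fr C (φ m) (ψ m) f ^ 2) ≤ K * ig C (f ^ 2))
    (h3 : ∀ (a : C.A) (s : Fin N), ∃ K : ℝ, ∀ m f,
      ig C ((a * C.F.e s (fr C (φ m) (ψ m) f) - fr C (φ m) (ψ m) (a * C.F.e s f)) ^ 2) ≤
        K * ig C (f ^ 2)) :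
    ∃ K : ℝ, 0 ≤ K ∧ ∀ m (g : κ → C.A), ∑ i, ig C ((FO C B c (fun j => fr C (φ m) (ψ m) (g j)) i -
      fr C (φ m) (ψ m) (FO C B c g i)) ^ 2) ≤ K * ∑ i, ig C (g i ^ 2) := by
  apply bd_all C (T := fun i m g => FO C B c (fun j => fr C (φ m) (ψ m) (g j)) i -
      fr C (φ m) (ψ m) (FO C B c g i))
  intro i
  have e1 : ∀ (a : Fin N) (j : κ), Bd C (κ := κ) (fun m g => B a i j •
      (C.F.e a (fr C (φ m) (ψ m) (g j)) - fr C (φ m) (ψ m) (C.F.e a (g j)))) := by
    intro a j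
    apply bd_smul
    apply bd_proj C j (T := fun m f => C.F.e a (fr C (φ m) (ψ m) f) -
      fr C (φ m) (ψ m) (C.F.e a f))
    obtain ⟨K, hK⟩ := h3 1 a
    refine ⟨K, fun m f => ?_⟩
    have := hK m f
    rwa [one_mul, one_mul] at this
  have e2 : ∀ j : κ, Bd C (κ := κ) (fun m g => c i j * fr C (φ m) (ψ m) (g j) -
      fr C (φ m) (ψ m) (c i j * g j)) := by
    intro j
    have h4 : Bd C (κ := κ) (fun m g => c i j * fr C (φ m) (ψ m) (g j)) := by
      apply bd_mul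
      exact bd_proj C j (T := fun m f => fr C (φ m) (ψ m) f) h1
    have h5 : Bd C (κ := κ) (fun m g => fr C (φ m) (ψ m) (c i j * g j)) := by
      apply bd_proj C j (T := fun m f => fr C (φ m) (ψ m) (c i j * f))
      obtain ⟨K, hK⟩ := h1
      obtain ⟨L, hL0, hL⟩ := ig_mul_sq C (c i j)
      refine ⟨|K| * L, fun m f => (hK m _).trans ?_⟩
      calc K * ig C ((c i j * f) ^ 2) ≤ |K| * ig C ((c i j * f) ^ 2) :=
            mul_le_mul_of_nonneg_right (le_abs_self K) (ig_sq_nonneg C _)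
        _ ≤ |K| * (L * ig C (f ^ 2)) := mul_le_mul_of_nonneg_left (hL f) (abs_nonneg _)
        _ = |K| * L * ig C (f ^ 2) := by ring
    refine bd_congr C (bd_add C h4 (bd_neg C h5)) fun m g => ?_
    rw [sub_eq_add_neg]
  refine bd_congr C (bd_add C (bd_sum C Finset.univ fun a => bd_sum C Finset.univ fun j => e1 a j)
    (bd_sum C Finset.univ fun j => e2 j)) fun m g => ?_
  unfold FO
  simp only [← frL_apply]
  rw [map_add, map_sum, map_sum]
  simp only [map_sum, map_smul, smul_sub, Finset.sum_sub_distrib]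
  ring

variable (hS : SymFO C B c)
include hS

/-- the adjoint of the commutator -/
theorem adj_bd {K : ℝ} (hK0 : 0 ≤ K) (hK : ∀ m (g : κ → C.A),
      ∑ i, ig C ((FO C B c (fun j => fr C (φ m) (ψ m) (g j)) i -
      fr C (φ m) (ψ m) (FO C B c g i)) ^ 2) ≤ K * ∑ i, ig C (g i ^ 2)) (m : ℕ) (w : κ → C.A) :
    ∑ i, ig C ((fr C (ψ m) (φ m) (FO C B c w i) -
      FO C B c (fun j => fr C (ψ m) (φ m) (w j)) i) ^ 2) ≤ K * ∑ i, ig C (w i ^ 2) := by
  set g : κ → C.A := fun i => fr C (ψ m) (φ m) (FO C B c w i) -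
      FO C B c (fun j => fr C (ψ m) (φ m) (w j)) i with hg
  have e1 : ∑ i, ig C (g i ^ 2) = ∑ i, ig C ((FO C B c (fun j => fr C (φ m) (ψ m) (g j)) i -
      fr C (φ m) (ψ m) (FO C B c g i)) * w i) := by
    have e2 : ∀ i, ig C (g i ^ 2) = ig C (fr C (φ m) (ψ m) (g i) * FO C B c w i) -
        ig C (g i * FO C B c (fun j => fr C (ψ m) (φ m) (w j)) i) := by
      intro i
      rw [ig_fr, ← ig_sub, ← mul_sub, pow_two]
    have e3 : ∀ i, ig C ((FO C B c (fun j => fr C (φ m) (ψ m) (g j)) i -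
      fr C (φ m) (ψ m) (FO C B c g i)) * w i) =
      ig C (FO C B c (fun j => fr C (φ m) (ψ m) (g j)) i * w i) -
        ig C (FO C B c g i * fr C (ψ m) (φ m) (w i)) := by
      intro i
      rw [sub_mul, ig_sub, ig_fr]
    simp only [e2, e3, Finset.sum_sub_distrib]
    rw [hS (fun j => fr C (φ m) (ψ m) (g j)) w, hS g (fun j => fr C (ψ m) (φ m) (w j))]
  have h1 := cs_ig C (fun i => FO C B c (fun j => fr C (φ m) (ψ m) (g j)) i -
      fr C (φ m) (ψ m) (FO C B c g i)) w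
  rw [← e1] at h1
  refine div_aux (sumsq_nonneg C g) hK0 (sumsq_nonneg C w) (h1.trans ?_)
  exact mul_le_mul_of_nonneg_right (hK m g) (sumsq_nonneg C w)

/-- the mollified solution -/
theorem moll_bd {K : ℝ} (hK0 : 0 ≤ K) (hK : ∀ m (g : κ → C.A),
      ∑ i, ig C ((FO C B c (fun j => fr C (φ m) (ψ m) (g j)) i -
      fr C (φ m) (ψ m) (FO C B c g i)) ^ 2) ≤ K * ∑ i, ig C (g i ^ 2))
    {u f : κ → M → ℝ} (hu : ∀ i, MemLp (u i) 2 C.μ) (hf : ∀ i, MemLp (f i) 2 C.μ)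
    (hw : WeakEq C B c u f) (m : ℕ) :
    ∑ i, ig C ((FO C B c (fun j => fu C (φ m) (ψ m) (u j)) i - fu C (φ m) (ψ m) (f i)) ^ 2) ≤
      K * ∑ i, ∫ p, u i p ^ 2 ∂C.μ := by
  set w : κ → C.A := fun i => FO C B c (fun j => fu C (φ m) (ψ m) (u j)) i -
    fu C (φ m) (ψ m) (f i) with hwd
  have e1 : ∑ i, ig C (w i ^ 2) = ∑ i, cu C (u i) (fr C (ψ m) (φ m) (FO C B c w i) -
      FO C B c (fun j => fr C (ψ m) (φ m) (w j)) i) := by
    have e2 : ∀ i, ig C (w i ^ 2) = ig C (FO C B c (fun j => fu C (φ m) (ψ m) (u j)) i * w i) -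
        cu C (f i) (fr C (ψ m) (φ m) (w i)) := by
      intro i
      rw [← ig_fu C (φ m) (ψ m) (hf i), ← ig_sub, ← sub_mul, pow_two]
    have e3 : ∀ i, cu C (u i) (fr C (ψ m) (φ m) (FO C B c w i) -
      FO C B c (fun j => fr C (ψ m) (φ m) (w j)) i) =
      ig C (fu C (φ m) (ψ m) (u i) * FO C B c w i) -
        cu C (u i) (FO C B c (fun j => fr C (ψ m) (φ m) (w j)) i) := by
      intro i
      rw [ig_fu C (φ m) (ψ m) (hu i), ← cuL_apply C (hu i), map_sub]
      rfl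
    simp only [e2, e3, Finset.sum_sub_distrib]
    rw [hS (fun j => fu C (φ m) (ψ m) (u j)) w]
    have e4 := hw (fun j => fr C (ψ m) (φ m) (w j))
    have e5 : ∑ i, cu C (u i) (FO C B c (fun j => fr C (ψ m) (φ m) (w j)) i) =
        ∑ i, cu C (f i) (fr C (ψ m) (φ m) (w i)) := e4
    rw [e5]
  have h1 := cs_cu C hu (fun i => fr C (ψ m) (φ m) (FO C B c w i) -
      FO C B c (fun j => fr C (ψ m) (φ m) (w j)) i)
  rw [← e1] at h1
  have hU : 0 ≤ ∑ i, ∫ p, u i p ^ 2 ∂C.μ :=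
    Finset.sum_nonneg fun i _ => integral_nonneg fun p => sq_nonneg _
  refine div_aux (sumsq_nonneg C w) hK0 hU (h1.trans ?_)
  have h2 := adj_bd C B c φ ψ hS hK0 hK m w
  calc (∑ i, ∫ p, u i p ^ 2 ∂C.μ) * ∑ i, ig C ((fr C (ψ m) (φ m) (FO C B c w i) -
      FO C B c (fun j => fr C (ψ m) (φ m) (w j)) i) ^ 2)
      ≤ (∑ i, ∫ p, u i p ^ 2 ∂C.μ) * (K * ∑ i, ig C (w i ^ 2)) :=
        mul_le_mul_of_nonneg_left h2 hU
    _ = K * (∑ i, ig C (w i ^ 2)) * ∑ i, ∫ p, u i p ^ 2 ∂C.μ := by ring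

end main

section J
variable {k : ℕ → ℕ} (φ ψ : ∀ m, Fin (k m) → C.A)

theorem frt_bd {K : ℝ} (hK0 : 0 ≤ K)
    (h1 : ∀ m f, ig C (fr C (φ m) (ψ m) f ^ 2) ≤ K * ig C (f ^ 2)) (m : ℕ) (w : C.A) :
    ig C (fr C (ψ m) (φ m) w ^ 2) ≤ K * ig C (w ^ 2) := by
  set g := fr C (ψ m) (φ m) w with hg
  have e1 : ig C (g ^ 2) = ig C (fr C (φ m) (ψ m) g * w) := by
    rw [ig_fr, pow_two]
  have h2 := cs_ig C (κ := Unit) (fun _ => fr C (φ m) (ψ m) g) (fun _ => w)
  simp only [Finset.univ_unique, Finset.sum_singleton] at h2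
  rw [← e1] at h2
  refine div_aux (ig_sq_nonneg C g) hK0 (ig_sq_nonneg C w) (h2.trans ?_)
  exact mul_le_mul_of_nonneg_right (h1 m g) (ig_sq_nonneg C w)

theorem fu_bd {K : ℝ} (hK0 : 0 ≤ K)
    (h1 : ∀ m f, ig C (fr C (φ m) (ψ m) f ^ 2) ≤ K * ig C (f ^ 2)) (m : ℕ) {u : M → ℝ}
    (hu : MemLp u 2 C.μ) : ig C (fu C (φ m) (ψ m) u ^ 2) ≤ K * ∫ p, u p ^ 2 ∂C.μ := by
  set w := fu C (φ m) (ψ m) u with hw
  have e1 : ig C (w ^ 2) = cu C u (fr C (ψ m) (φ m) w) := by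
    rw [← ig_fu C (φ m) (ψ m) hu, pow_two]
  have h2 := cs_cu C (κ := Unit) (u := fun _ => u) (fun _ => hu) (fun _ => fr C (ψ m) (φ m) w)
  simp only [Finset.univ_unique, Finset.sum_singleton] at h2
  rw [← e1] at h2
  have hU : 0 ≤ ∫ p, u p ^ 2 ∂C.μ := integral_nonneg fun p => sq_nonneg _
  refine div_aux (ig_sq_nonneg C w) hK0 hU (h2.trans ?_)
  calc (∫ p, u p ^ 2 ∂C.μ) * ig C (fr C (ψ m) (φ m) w ^ 2)
      ≤ (∫ p, u p ^ 2 ∂C.μ) * (K * ig C (w ^ 2)) :=
        mul_le_mul_of_nonneg_left (frt_bd C φ ψ hK0 h1 m w) hU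
    _ = K * ig C (w ^ 2) * ∫ p, u p ^ 2 ∂C.μ := by ring

/-- weak convergence of the mollified functions -/
theorem fu_lim {K : ℝ} (hK0 : 0 ≤ K)
    (h1 : ∀ m f, ig C (fr C (φ m) (ψ m) f ^ 2) ≤ K * ig C (f ^ 2))
    (h2 : ∀ f, Tendsto (fun m => ig C ((fr C (φ m) (ψ m) f - f) ^ 2)) atTop (𝓝 0))
    (hd : Dense2 C) {u : M → ℝ} (hu : MemLp u 2 C.μ) (w : C.A) :
    Tendsto (fun m => ig C (fu C (φ m) (ψ m) u * w)) atTop (𝓝 (cu C u w)) := by
  rw [Metric.tendsto_atTop]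
  intro ε hε
  have hW := ig_sq_nonneg C w
  set W := ig C (w ^ 2) with hWd
  set Q : ℝ := (2 * K + 2) * W with hQ
  have hQ0 : 0 ≤ Q := by positivity
  obtain ⟨g, hg⟩ := hd u hu ((ε / 2) ^ 2 / (2 * (Q + 1))) (by positivity)
  have hug : MemLp (fun p => u p - C.ev p g) 2 C.μ := hu.sub (memLp_ev C g)
  have e0 : ∀ h : C.A, cu C (fun p => u p - C.ev p g) h = cu C u h - ig C (g * h) := by
    intro h
    rw [← cu_ev]
    unfold cu
    rw [← integral_sub (int_cu C hu h) (int_cu C (memLp_ev C g) h)]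
    congr 1
    funext p
    ring
  -- the smooth part
  have e1 : Tendsto (fun m => ig C ((fr C (φ m) (ψ m) g - g) ^ 2) * W) atTop (𝓝 (0 * W)) :=
    (h2 g).mul_const W
  rw [zero_mul] at e1
  have hε2 : 0 < (ε / 2) ^ 2 / 2 := by positivity
  obtain ⟨m0, hm0⟩ := eventually_atTop.1 (e1.eventually (gt_mem_nhds hε2))
  refine ⟨m0, fun m hm => ?_⟩
  have e2 : ig C (fu C (φ m) (ψ m) u * w) - cu C u w =
      cu C (fun p => u p - C.ev p g) (fr C (ψ m) (φ m) w - w) +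
        ig C ((fr C (φ m) (ψ m) g - g) * w) := by
    rw [e0, ig_fu C (φ m) (ψ m) hu, mul_sub, ig_sub, sub_mul, ig_sub, ig_fr,
      ← cuL_apply C hu (fr C (ψ m) (φ m) w - w), map_sub, cuL_apply, cuL_apply]
    ring
  have e3 : cu C (fun p => u p - C.ev p g) (fr C (ψ m) (φ m) w - w) ^ 2 < (ε / 2) ^ 2 := by
    have h3 := cs_cu C (κ := Unit) (u := fun _ => fun p => u p - C.ev p g) (fun _ => hug)
      (fun _ => fr C (ψ m) (φ m) w - w)
    simp only [Finset.univ_unique, Finset.sum_singleton] at h3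
    have h4 : ig C ((fr C (ψ m) (φ m) w - w) ^ 2) ≤ Q := by
      have h5 := ig_sub_sq C (fr C (ψ m) (φ m) w) w
      have h6 := frt_bd C φ ψ hK0 h1 m w
      rw [hQ]
      nlinarith
    have h7 : 0 ≤ ∫ p, (u p - C.ev p g) ^ 2 ∂C.μ := integral_nonneg fun p => sq_nonneg _
    have h8 : (∫ p, (u p - C.ev p g) ^ 2 ∂C.μ) * ig C ((fr C (ψ m) (φ m) w - w) ^ 2) ≤
        ((ε / 2) ^ 2 / (2 * (Q + 1))) * Q :=
      mul_le_mul hg h4 (ig_sq_nonneg C _) (by positivity)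
    have h9 : ((ε / 2) ^ 2 / (2 * (Q + 1))) * Q < (ε / 2) ^ 2 := by
      rw [div_mul_eq_mul_div, div_lt_iff₀ (by positivity)]
      have : 0 < (ε / 2) ^ 2 := by positivity
      nlinarith
    linarith
  have e4 : ig C ((fr C (φ m) (ψ m) g - g) * w) ^ 2 < (ε / 2) ^ 2 := by
    have h3 := cs_ig C (κ := Unit) (fun _ => fr C (φ m) (ψ m) g - g) (fun _ => w)
    simp only [Finset.univ_unique, Finset.sum_singleton] at h3
    have h4 := hm0 m hm
    have : 0 < (ε / 2) ^ 2 := by positivity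
    linarith
  rw [Real.dist_eq, e2]
  have a3 := abs_lt_of_sq_lt_sq e3 (by positivity)
  have a4 := abs_lt_of_sq_lt_sq e4 (by positivity)
  calc |cu C (fun p => u p - C.ev p g) (fr C (ψ m) (φ m) w - w) +
        ig C ((fr C (φ m) (ψ m) g - g) * w)|
      ≤ |cu C (fun p => u p - C.ev p g) (fr C (ψ m) (φ m) w - w)| +
        |ig C ((fr C (φ m) (ψ m) g - g) * w)| := abs_add_le _ _
    _ < ε := by linarith

end J

/-- integration by parts -/
theorem parts (s : Fin N) (h f : C.A) : ig C (h * adj C s f) = ig C (C.F.e s h * f) := by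
  have h1 := C.div (fun b => if b = s then h * f else 0)
  have h2 : dv C.F (fun b => if b = s then h * f else 0) =
      C.F.e s (h * f) + (∑ b, C.F.Γ b s b) * (h * f) := by
    unfold dv
    congr 1
    · rw [Finset.sum_eq_single s]
      · beta_reduce
        rw [if_pos rfl]
      · intro b _ hb
        beta_reduce
        rw [if_neg hb, map_zero]
      · intro hs
        exact absurd (Finset.mem_univ s) hs
    · rw [Finset.sum_eq_single s]
      · beta_reduce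
        rw [if_pos rfl, Finset.sum_mul]
      · intro b _ hb
        beta_reduce
        rw [if_neg hb]
        simp
      · intro hs
        exact absurd (Finset.mem_univ s) hs
  rw [h2] at h1
  have h3 : ig C (C.F.e s (h * f) + (∑ b, C.F.Γ b s b) * (h * f)) = 0 := h1
  have h4 : h * adj C s f = C.F.e s h * f -
      (C.F.e s (h * f) + (∑ b, C.F.Γ b s b) * (h * f)) := by
    unfold adj
    rw [Derivation.leibniz, smul_eq_mul, smul_eq_mul]
    ring
  rw [h4, ig_sub, h3, sub_zero]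

/-- Fréchet-Riesz -/
theorem riesz (l : C.A →ₗ[ℝ] ℝ) {K : ℝ} (hK0 : 0 ≤ K) (hK : ∀ f, l f ^ 2 ≤ K * ig C (f ^ 2)) :
    ∃ v : M → ℝ, MemLp v 2 C.μ ∧ ∀ f, cu C v f = l f := by
  let ι : C.A →ₗ[ℝ] Lp ℝ 2 C.μ :=
    { toFun := fun f => (memLp_ev C f).toLp
      map_add' := fun f g => by
        rw [← MemLp.toLp_add]
        congr 1
        funext p
        exact map_add _ _ _
      map_smul' := fun t f => by
        rw [RingHom.id_apply, ← MemLp.toLp_const_smul]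
        congr 1
        funext p
        exact ev_smul C p t f }
  have hn : ∀ f, ‖ι f‖ ^ 2 = ig C (f ^ 2) := by
    intro f
    rw [← real_inner_self_eq_norm_sq, L2.inner_def]
    unfold ig
    refine integral_congr_ae ?_
    filter_upwards [(memLp_ev C f).coeFn_toLp] with p hp
    have hp' : (ι f : M → ℝ) p = C.ev p f := hp
    rw [hp', map_pow]
    simp [pow_two]
  have hinj : Function.Injective ι := by
    rw [injective_iff_map_eq_zero]
    intro f hf
    have h1 := hn f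
    rw [hf, norm_zero] at h1
    have h2 := ig_eq_zero C (f := f ^ 2) (fun p => by rw [map_pow]; exact sq_nonneg _)
      (by rw [← h1]; ring)
    refine C.ext_ev _ _ fun p => ?_
    have h3 : C.ev p f ^ 2 = 0 := by rw [← map_pow, h2, map_zero]
    rw [map_zero]
    exact pow_eq_zero_iff (two_ne_zero) |>.1 h3
  let E : C.A ≃ₗ[ℝ] LinearMap.range ι := LinearEquiv.ofInjective ι hinj
  let l0 : LinearMap.range ι →ₗ[ℝ] ℝ := l ∘ₗ E.symm.toLinearMap
  have hl0 : ∀ x : LinearMap.range ι, ‖l0 x‖ ≤ √K * ‖x‖ := by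
    intro x
    obtain ⟨f, rfl⟩ := E.surjective x
    have h1 : l0 (E f) = l f := by
      show l (E.symm (E f)) = l f
      rw [E.symm_apply_apply]
    have h2 : ‖E f‖ = ‖ι f‖ := rfl
    rw [h1, h2, Real.norm_eq_abs]
    refine abs_le_of_sq_le_sq ?_ (by positivity)
    rw [mul_pow, Real.sq_sqrt hK0, hn]
    exact hK f
  obtain ⟨g, hg, -⟩ := exists_extension_norm_eq (LinearMap.range ι)
    (LinearMap.mkContinuous l0 (√K) hl0)
  let v : Lp ℝ 2 C.μ := (InnerProductSpace.toDual ℝ (Lp ℝ 2 C.μ)).symm g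
  refine ⟨v, Lp.memLp v, fun f => ?_⟩
  have h1 : inner ℝ v (ι f) = g (ι f) := InnerProductSpace.toDual_symm_apply
  have h2 : g (ι f) = l f := by
    have h3 := hg (E f)
    have h4 : ((E f : LinearMap.range ι) : Lp ℝ 2 C.μ) = ι f := rfl
    rw [h4] at h3
    rw [h3]
    show l (E.symm (E f)) = l f
    rw [E.symm_apply_apply]
  rw [← h2, ← h1, L2.inner_def]
  unfold cu
  refine integral_congr_ae ?_
  filter_upwards [(memLp_ev C f).coeFn_toLp] with p hp
  have hp' : (ι f : M → ℝ) p = C.ev p f := hp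
  rw [hp']
  simp [mul_comm]

end Ws

open Ws in
theorem s_ws : S_WS := by
  intro M _ _ _ _ N C κ _ _ B c hM hd hS hG u f hu hf hw i
  obtain ⟨k, φ, ψ, ⟨K1, h1⟩, h2, h3, -⟩ := hM
  have h1' : ∀ m f, ig C (fr C (φ m) (ψ m) f ^ 2) ≤ |K1| * ig C (f ^ 2) := fun m f =>
    (h1 m f).trans (mul_le_mul_of_nonneg_right (le_abs_self K1) (ig_sq_nonneg C _))
  obtain ⟨K, hK0, hK⟩ := comm_bd C B c φ ψ ⟨K1, h1⟩ h3
  obtain ⟨G, hG⟩ := hG
  set U : ℝ := ∑ i, ∫ p, u i p ^ 2 ∂C.μ with hU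
  set F : ℝ := ∑ i, ∫ p, f i p ^ 2 ∂C.μ with hF
  have hU0 : 0 ≤ U := Finset.sum_nonneg fun i _ => integral_nonneg fun p => sq_nonneg _
  have hF0 : 0 ≤ F := Finset.sum_nonneg fun i _ => integral_nonneg fun p => sq_nonneg _
  set L : ℝ := |G| * (2 * (K * U) + 2 * (|K1| * F) + |K1| * U) with hL
  have hL0 : 0 ≤ L := by positivity
  -- the uniform bound
  have hb : ∀ m s, ig C (C.F.e s (fu C (φ m) (ψ m) (u i)) ^ 2) ≤ L := by
    intro m s
    have b1 := hG (fun j => fu C (φ m) (ψ m) (u j))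
    have b2 := moll_bd C B c φ ψ hS hK0 hK hu hf hw m
    have b3 : ∑ j, ig C (fu C (φ m) (ψ m) (f j) ^ 2) ≤ |K1| * F := by
      rw [hF, Finset.mul_sum]
      exact Finset.sum_le_sum fun j _ => fu_bd C φ ψ (abs_nonneg _) h1' m (hf j)
    have b4 : ∑ j, ig C (fu C (φ m) (ψ m) (u j) ^ 2) ≤ |K1| * U := by
      rw [hU, Finset.mul_sum]
      exact Finset.sum_le_sum fun j _ => fu_bd C φ ψ (abs_nonneg _) h1' m (hu j)
    have b5 : ∑ j, ig C (FO C B c (fun j => fu C (φ m) (ψ m) (u j)) j ^ 2) ≤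
        2 * (K * U) + 2 * (|K1| * F) := by
      have b6 : ∀ j, ig C (FO C B c (fun j => fu C (φ m) (ψ m) (u j)) j ^ 2) ≤
          2 * ig C ((FO C B c (fun j => fu C (φ m) (ψ m) (u j)) j -
            fu C (φ m) (ψ m) (f j)) ^ 2) + 2 * ig C (fu C (φ m) (ψ m) (f j) ^ 2) := by
        intro j
        have := ig_add_sq C (FO C B c (fun j => fu C (φ m) (ψ m) (u j)) j -
            fu C (φ m) (ψ m) (f j)) (fu C (φ m) (ψ m) (f j))
        rwa [sub_add_cancel] at this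
      refine (Finset.sum_le_sum fun j _ => b6 j).trans ?_
      rw [Finset.sum_add_distrib, ← Finset.mul_sum, ← Finset.mul_sum]
      linarith
    have b7 : ∑ j, (ig C (FO C B c (fun j => fu C (φ m) (ψ m) (u j)) j ^ 2) +
        ig C (fu C (φ m) (ψ m) (u j) ^ 2)) ≤ 2 * (K * U) + 2 * (|K1| * F) + |K1| * U := by
      rw [Finset.sum_add_distrib]
      linarith
    have b8 : 0 ≤ ∑ j, (ig C (FO C B c (fun j => fu C (φ m) (ψ m) (u j)) j ^ 2) +
        ig C (fu C (φ m) (ψ m) (u j) ^ 2)) :=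
      Finset.sum_nonneg fun j _ => add_nonneg (ig_sq_nonneg C _) (ig_sq_nonneg C _)
    have b9 : ig C (C.F.e s (fu C (φ m) (ψ m) (u i)) ^ 2) ≤
        ∑ a, ∑ j, ig C (C.F.e a (fu C (φ m) (ψ m) (u j)) ^ 2) := by
      have c1 : ig C (C.F.e s (fu C (φ m) (ψ m) (u i)) ^ 2) ≤
          ∑ j, ig C (C.F.e s (fu C (φ m) (ψ m) (u j)) ^ 2) :=
        Finset.single_le_sum (f := fun j => ig C (C.F.e s (fu C (φ m) (ψ m) (u j)) ^ 2))
          (fun j _ => ig_sq_nonneg C _) (Finset.mem_univ i)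
      refine c1.trans ?_
      exact Finset.single_le_sum
        (f := fun a => ∑ j, ig C (C.F.e a (fu C (φ m) (ψ m) (u j)) ^ 2))
        (fun a _ => Finset.sum_nonneg fun j _ => ig_sq_nonneg C _) (Finset.mem_univ s)
    calc ig C (C.F.e s (fu C (φ m) (ψ m) (u i)) ^ 2)
        ≤ G * ∑ j, (ig C (FO C B c (fun j => fu C (φ m) (ψ m) (u j)) j ^ 2) +
          ig C (fu C (φ m) (ψ m) (u j) ^ 2)) := b9.trans b1
      _ ≤ |G| * ∑ j, (ig C (FO C B c (fun j => fu C (φ m) (ψ m) (u j)) j ^ 2) +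
          ig C (fu C (φ m) (ψ m) (u j) ^ 2)) := mul_le_mul_of_nonneg_right (le_abs_self G) b8
      _ ≤ L := mul_le_mul_of_nonneg_left b7 (abs_nonneg _)
  refine ⟨hu i, fun s => ?_⟩
  -- the functional
  let A : C.A →ₗ[ℝ] C.A :=
    { toFun := adj C s
      map_add' := fun x y => by
        unfold adj
        rw [map_add]
        ring
      map_smul' := fun t x => by
        unfold adj
        rw [Derivation.map_smul, RingHom.id_apply, mul_smul_comm, smul_sub, smul_neg] }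
  have hbd : ∀ x : C.A, ((cuL C (hu i)) ∘ₗ A) x ^ 2 ≤ L * ig C (x ^ 2) := by
    intro x
    have t1 := fu_lim C φ ψ (abs_nonneg K1) h1' h2 hd (hu i) (adj C s x)
    have t2 := t1.pow 2
    refine le_of_tendsto t2 (Eventually.of_forall fun m => ?_)
    rw [parts]
    have h4 := cs_ig C (κ := Unit) (fun _ => C.F.e s (fu C (φ m) (ψ m) (u i))) (fun _ => x)
    simp only [Finset.univ_unique, Finset.sum_singleton] at h4
    exact h4.trans (mul_le_mul_of_nonneg_right (hb m s) (ig_sq_nonneg C x))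
  obtain ⟨v, hv, hv2⟩ := riesz C ((cuL C (hu i)) ∘ₗ A) hL0 hbd
  exact ⟨v, hv, fun x => hv2 x⟩

end Pool.Agent.H781.CM
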