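import Pool.Agent.H781.CM.Rmp
import Pool.Agent.H781.CM.Bochf
import Pool.Agent.H781.CM.Cmp
import Pool.Agent.H781.CM.Clim
import Pool.Agent.H781.CM.Ric
import Pool.Agent.H781.CM.Speca
import Pool.Agent.H781.CM.Ddh
import Pool.Agent.H781.CM.Alg
import Pool.Agent.H781.CM.Clif
import Pool.Agent.H781.CM.Phh
import Pool.Agent.H781.CM.Cpt
import Pool.Agent.H781.CM.Gard
import Pool.Agent.H781.CM.Ener
import Pool.Agent.H781.CM.Prod
import Pool.Agent.H781.CM.Dim
import Pool.Agent.H781.CM.Sp
import Pool.Agent.H781.CM.Poi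
import Pool.Agent.H781.CM.Near
import Pool.Agent.H781.CM.Reg
import Pool.Agent.H781.CM.Hod
import Pool.Agent.H781.CM.LY
import Pool.Agent.H781.CM.Ri
import Pool.Agent.H781.CM.Fin
import Pool.Agent.H781.CM.App
import Pool.Agent.H781.CM.Ws

/-!
Assembly of the abstract part.
-/

set_option autoImplicit false

namespace Pool.Agent.H781.CM

theorem rmp : S_RMP := s_rmp

theorem ddh : S_DDH := s_ddh rmp

theorem spec : S_SPEC := s_spec s_speca s_ph ddh (s_cpt s_gard) (s_reg (s_ri s_ws) s_gard ddh)

theorem hodge : S_HODGE := s_hodge spec ddh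

theorem ener : S_ENER := s_ener (s_rich rmp) ddh

theorem poin : S_POIN := s_poin (s_ly (s_ricf rmp) s_bochf) spec ddh

theorem gram : S_GRAM := s_gram s_near

theorem prod : S_PROD := s_prod s_clif s_clin (s_clim s_clif) ener

theorem app : S_APP := s_app spec ener gram prod s_clin ddh

theorem dimS : S_DIM := s_dim spec ener gram

theorem fin : S_FIN := s_fin app dimS poin hodge spec ddh

theorem chi : S_CHI := s_chi fin (s_cmp (s_alg s_clif))

end Pool.Agent.H781.CM
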