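import Pool.Agent.H781.CM.GSpec
import Pool.Agent.H781.CM.Base

/-!
Mollifiers in one chart.
-/

set_option autoImplicit false
set_option synthInstance.maxHeartbeats 400000
set_option maxHeartbeats 4000000
set_option linter.unusedSectionVars false

open Bundle Manifold ContDiff VectorField MeasureTheory Filter
open scoped Topology

noncomputable section

namespace Pool.Agent.H781.CM

open Pool.Agent.H781.NG Pool.Agent.H821R2 Pool.Agent.H821R3 Pool.Agent.H893R5.HO
  Pool.Agent.H781.S22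

namespace Lmoll

section topo

variable {n : ℕ} {M : Type} [TopologicalSpace M] [T2Space M] [CompactSpace M]
  [ChartedSpace (EU n) M] [IsManifold (𝓡 n) ∞ M]

/-- the image of the support in the chart -/
def Kc (x₀ : M) (η : M → ℝ) : Set (EU n) := extChartAt (𝓡 n) x₀ '' tsupport η

theorem Kc_sub {x₀ : M} {η : M → ℝ} (h : tsupport η ⊆ (extChartAt (𝓡 n) x₀).source) :
    Kc x₀ η ⊆ (extChartAt (𝓡 n) x₀).target := by
  rintro y ⟨p, hp, rfl⟩
  exact (extChartAt (𝓡 n) x₀).map_source (h hp)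

theorem Kc_compact {x₀ : M} {η : M → ℝ} (h : tsupport η ⊆ (extChartAt (𝓡 n) x₀).source) :
    IsCompact (Kc (n := n) x₀ η) :=
  (isClosed_tsupport η).isCompact.image_of_continuousOn
    ((continuousOn_extChartAt (I := 𝓡 n) x₀).mono h)

theorem open_target (x₀ : M) : IsOpen (extChartAt (𝓡 n) x₀).target :=
  isOpen_extChartAt_target x₀

theorem mem_Kc {x₀ : M} {η : M → ℝ} {y : EU n} (hy : y ∈ (extChartAt (𝓡 n) x₀).target)
    (h : (extChartAt (𝓡 n) x₀).symm y ∈ tsupport η) : y ∈ Kc x₀ η :=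
  ⟨_, h, (extChartAt (𝓡 n) x₀).right_inv hy⟩

theorem Kc_inv {x₀ : M} {η : M → ℝ} {y : EU n}
    (hs : tsupport η ⊆ (extChartAt (𝓡 n) x₀).source) (h : y ∈ Kc x₀ η) :
    (extChartAt (𝓡 n) x₀).symm y ∈ tsupport η := by
  obtain ⟨p, hp, rfl⟩ := h
  rw [(extChartAt (𝓡 n) x₀).left_inv (hs hp)]
  exact hp

/-- cut-off functions -/
theorem exists_theta {K U : Set (EU n)} (hK : IsCompact K) (hU : IsOpen U) (h : K ⊆ U) :
    ∃ θ : EU n → ℝ, ContDiff ℝ ∞ θ ∧ HasCompactSupport θ ∧ tsupport θ ⊆ U ∧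
      ∀ y ∈ K, ∀ᶠ z in 𝓝 y, θ z = 1 := by
  obtain ⟨L, hL, h1, h2⟩ := exists_compact_between hK hU h
  obtain ⟨f, hf1, hf2, _⟩ := exists_contMDiffMap_one_nhds_of_subset_interior (n := (⊤ : ℕ∞))
    (I := 𝓘(ℝ, EU n)) hK.isClosed h1
  have hsub : tsupport (f : EU n → ℝ) ⊆ L := by
    refine closure_minimal (fun y hy => ?_) hL.isClosed
    by_contra hne
    exact hy (hf2 y hne)
  refine ⟨f, f.contMDiff.contDiff, HasCompactSupport.of_support_subset_isCompact hL
    ((subset_tsupport _).trans hsub), hsub.trans h2, fun y hy => ?_⟩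
  exact (eventually_nhdsSet_iff_forall.1 hf1) y hy

/-- multiplication with a cut-off function -/
theorem cut {U : Set (EU n)} (hU : IsOpen U) {θ b : EU n → ℝ} (hθ : ContDiff ℝ ∞ θ)
    (hs : tsupport θ ⊆ U) (hb : ContDiffOn ℝ ∞ b U) : ContDiff ℝ ∞ (fun y => θ y * b y) := by
  rw [contDiff_iff_contDiffAt]
  intro y
  by_cases hy : y ∈ tsupport θ
  · exact hθ.contDiffAt.mul (hb.contDiffAt (hU.mem_nhds (hs hy)))
  · have h1 : θ =ᶠ[𝓝 y] 0 := notMem_tsupport_iff_eventuallyEq.1 hy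
    have h2 : (fun y => θ y * b y) =ᶠ[𝓝 y] fun _ => (0 : ℝ) := by
      filter_upwards [h1] with z hz
      rw [hz]
      simp
    exact contDiffAt_const.congr_of_eventuallyEq h2

theorem cut_supp {θ b : EU n → ℝ} : tsupport (fun y => θ y * b y) ⊆ tsupport θ :=
  closure_mono (fun y hy h => hy (by simp [h]))

theorem cut_comp {θ b : EU n → ℝ} (h : HasCompactSupport θ) :
    HasCompactSupport (fun y => θ y * b y) :=
  h.of_isClosed_subset (isClosed_tsupport _) cut_supp

theorem pul_of {x₀ : M} {f : M → ℝ} {y : EU n} (hy : y ∈ (extChartAt (𝓡 n) x₀).target) :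
    pul n x₀ f y = f ((extChartAt (𝓡 n) x₀).symm y) := if_pos hy

theorem pul_not {x₀ : M} {f : M → ℝ} {y : EU n} (hy : y ∉ (extChartAt (𝓡 n) x₀).target) :
    pul n x₀ f y = 0 := if_neg hy

theorem psh_of {x₀ : M} {u : EU n → ℝ} {p : M} (hp : p ∈ (extChartAt (𝓡 n) x₀).source) :
    psh x₀ u p = u (extChartAt (𝓡 n) x₀ p) := if_pos hp

theorem psh_not {x₀ : M} {u : EU n → ℝ} {p : M} (hp : p ∉ (extChartAt (𝓡 n) x₀).source) :
    psh x₀ u p = 0 := if_neg hp

/-- the pull-back vanishes off `K` -/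
theorem pul_off {x₀ : M} {η f : M → ℝ} (hf : ∀ p ∉ tsupport η, f p = 0) {y : EU n}
    (hy : y ∉ Kc x₀ η) : pul n x₀ f y = 0 := by
  by_cases h : y ∈ (extChartAt (𝓡 n) x₀).target
  · rw [pul_of h]
    exact hf _ fun h1 => hy (mem_Kc h h1)
  · exact pul_not h

end topo

section meas

variable {n : ℕ} {M : Type} [TopologicalSpace M] [T2Space M] [CompactSpace M]
  [ChartedSpace (EU n) M] [IsManifold (𝓡 n) ∞ M] [MeasurableSpace M] [BorelSpace M] {N : ℕ}

/-- integral of a smooth function -/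
def jg (D : GD n M N) (f : SA n M) : ℝ := ∫ p, evA p f ∂D.μ

theorem jg_eq (D : GD n M N) (f : SA n M) : ig D.C f = jg D f := rfl

/-- the finite rank operator -/
def jr (D : GD n M N) {k : ℕ} (φ ψ : Fin k → SA n M) (f : SA n M) : SA n M :=
  ∑ j, jg D (ψ j * f) • φ j

theorem jr_eq (D : GD n M N) {k : ℕ} (φ ψ : Fin k → SA n M) (f : SA n M) :
    fr D.C φ ψ f = jr D φ ψ f := rfl

theorem jg_mono (D : GD n M N) {f g : SA n M} (h : ∀ p, evA p f ≤ evA p g) : jg D f ≤ jg D g :=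
  ig_mono D.C h

/-- integrals of functions supported in `tsupport η` -/
theorem norm_up (h5 : S_TKI) (D : GD n M N) (x₀ : M) (η : SA n M)
    (hη : tsupport η.1 ⊆ (extChartAt (𝓡 n) x₀).source) :
    ∃ B : ℝ, 0 ≤ B ∧ ∀ (F : SA n M) (H : EU n → ℝ), Integrable H → (∀ y, 0 ≤ H y) →
      (∀ p ∈ tsupport η.1, evA p F ^ 2 ≤ H (extChartAt (𝓡 n) x₀ p)) →
      (∀ p ∉ tsupport η.1, evA p F = 0) → jg D (F ^ 2) ≤ B * ∫ y, H y := by
  obtain ⟨d, hd1, hd2, hd3⟩ := D.dens x₀
  have hfin : IsFiniteMeasure D.μ := by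
    have := D.prob
    infer_instance
  have key := (h5 n M D.μ x₀ d hd1 hd2 hd3).1
  obtain ⟨B, hB⟩ := (Kc_compact hη).bddAbove_image (hd1.continuousOn.mono (Kc_sub hη))
  refine ⟨max B 0, le_max_right _ _, fun F H hH hH0 h1 h2 => ?_⟩
  have hc : Continuous fun p => evA p (F ^ 2 : SA n M) := cont_evA _
  obtain ⟨k1, k2⟩ := key _ (int_cont D.C hc)
  have e1 : jg D (F ^ 2) = ∫ p in (extChartAt (𝓡 n) x₀).source,
      evA p (F ^ 2 : SA n M) ∂D.μ := by
    refine (setIntegral_eq_integral_of_forall_compl_eq_zero fun p hp => ?_).symm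
    rw [map_pow, h2 p fun h => hp (hη h), zero_pow two_ne_zero]
  rw [e1, k2, ← integral_const_mul]
  refine integral_mono k1 (hH.const_mul _) fun y => ?_
  have hp0 : 0 ≤ max B 0 * H y := mul_nonneg (le_max_right _ _) (hH0 y)
  by_cases hy : y ∈ (extChartAt (𝓡 n) x₀).target
  · simp only [pul_of hy, map_pow]
    by_cases hy2 : (extChartAt (𝓡 n) x₀).symm y ∈ tsupport η.1
    · have h3 := h1 _ hy2
      rw [(extChartAt (𝓡 n) x₀).right_inv hy] at h3
      have h4 : d y ≤ max B 0 := (hB ⟨y, mem_Kc hy hy2, rfl⟩).trans (le_max_left _ _)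
      calc _ ≤ H y * d y := mul_le_mul_of_nonneg_right h3 (hd2 y hy).le
        _ ≤ H y * max B 0 := mul_le_mul_of_nonneg_left h4 (hH0 y)
        _ = _ := mul_comm _ _
    · rw [h2 _ hy2]
      simpa using hp0
  · simp only [pul_not hy, zero_mul]
    exact hp0

/-- the lower bound -/
theorem norm_dn (h5 : S_TKI) (D : GD n M N) (x₀ : M) (η : SA n M)
    (hη : tsupport η.1 ⊆ (extChartAt (𝓡 n) x₀).source) :
    ∃ B : ℝ, 0 ≤ B ∧ ∀ (F : SA n M), (∀ p ∉ tsupport η.1, evA p F = 0) →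
      ∫ y, pul n x₀ F.1 y ^ 2 ≤ B * jg D (F ^ 2) := by
  obtain ⟨d, hd1, hd2, hd3⟩ := D.dens x₀
  have hfin : IsFiniteMeasure D.μ := by
    have := D.prob
    infer_instance
  have key := (h5 n M D.μ x₀ d hd1 hd2 hd3).1
  have hinv : ContinuousOn (fun y => (d y)⁻¹) (Kc x₀ η.1) :=
    (hd1.continuousOn.mono (Kc_sub hη)).inv₀ fun y hy => (hd2 y (Kc_sub hη hy)).ne'
  obtain ⟨B, hB⟩ := (Kc_compact hη).bddAbove_image hinv
  refine ⟨max B 0, le_max_right _ _, fun F h2 => ?_⟩
  have hc : Continuous fun p => evA p (F ^ 2 : SA n M) := cont_evA _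
  obtain ⟨k1, k2⟩ := key _ (int_cont D.C hc)
  have e1 : jg D (F ^ 2) = ∫ p in (extChartAt (𝓡 n) x₀).source,
      evA p (F ^ 2 : SA n M) ∂D.μ := by
    refine (setIntegral_eq_integral_of_forall_compl_eq_zero fun p hp => ?_).symm
    rw [map_pow, h2 p fun h => hp (hη h), zero_pow two_ne_zero]
  rw [e1, k2, ← integral_const_mul]
  refine integral_mono_of_nonneg (Eventually.of_forall fun y => sq_nonneg _) (k1.const_mul _)
    (Eventually.of_forall fun y => ?_)
  by_cases hy : y ∈ (extChartAt (𝓡 n) x₀).target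
  · simp only [pul_of hy, map_pow]
    by_cases hy2 : (extChartAt (𝓡 n) x₀).symm y ∈ tsupport η.1
    · have h4 : (d y)⁻¹ ≤ max B 0 := (hB ⟨y, mem_Kc hy hy2, rfl⟩).trans (le_max_left _ _)
      have h5 := hd2 y hy
      have h6 : 1 ≤ max B 0 * d y := by
        calc (1 : ℝ) = (d y)⁻¹ * d y := (inv_mul_cancel₀ h5.ne').symm
          _ ≤ _ := mul_le_mul_of_nonneg_right h4 h5.le
      have h7 : 0 ≤ F.1 ((extChartAt (𝓡 n) x₀).symm y) ^ 2 := sq_nonneg _
      rw [evA_apply]
      calc _ = F.1 ((extChartAt (𝓡 n) x₀).symm y) ^ 2 * 1 := by ring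
        _ ≤ F.1 ((extChartAt (𝓡 n) x₀).symm y) ^ 2 * (max B 0 * d y) :=
          mul_le_mul_of_nonneg_left h6 h7
        _ = _ := by ring
    · have h8 : F.1 ((extChartAt (𝓡 n) x₀).symm y) = 0 := h2 _ hy2
      rw [evA_apply, h8]
      simp
  · simp only [pul_not hy]
    simp

/-- continuous functions times `pul` of supported smooth functions are integrable -/
theorem int_mul_pul {u b : EU n → ℝ} (hu : Continuous u) (hs : HasCompactSupport u)
    (hb : Continuous b) : Integrable (fun w => b w * u w) :=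
  (hb.mul hu).integrable_of_hasCompactSupport hs.mul_left

theorem supp_sub {χ η : SA n M} (h1 : ∀ p ∈ tsupport χ.1, ∀ᶠ q in 𝓝 p, evA q η = 1) :
    tsupport χ.1 ⊆ tsupport η.1 := fun p hp =>
  subset_tsupport _ (by
    have h : evA p η = 1 := (h1 p hp).self_of_nhds
    rw [evA_apply] at h
    rw [Function.mem_support, h]
    exact one_ne_zero)

theorem supp_mul (χ f : SA n M) : tsupport (χ * f).1 ⊆ tsupport χ.1 :=
  closure_mono fun p hp h => hp (by
    change χ.1 p * f.1 p = 0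
    rw [h, zero_mul])

theorem off_supp {χ η : SA n M} (h1 : ∀ p ∈ tsupport χ.1, ∀ᶠ q in 𝓝 p, evA q η = 1)
    (f : SA n M) {p : M} (hp : p ∉ tsupport η.1) : evA p (χ * f) = 0 := by
  rw [map_mul]
  have : evA p χ = 0 := image_eq_zero_of_notMem_tsupport (f := χ.1) fun h => hp (supp_sub h1 h)
  rw [this, zero_mul]

/-- the finite rank operators -/
theorem fin_rank (h2 : S_FRK) (h3 : S_TKF) (h5 : S_TKI) (D : GD n M N) (x₀ : M) (χ η : SA n M)
    (hη : tsupport η.1 ⊆ (extChartAt (𝓡 n) x₀).source)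
    (h1 : ∀ p ∈ tsupport χ.1, ∀ᶠ q in 𝓝 p, evA q η = 1) :
    ∃ (r : ℝ) (k : ℕ → ℕ) (φ ψ : ∀ m, Fin (k m) → SA n M), 0 < r ∧ ∀ m (f : SA n M),
      (∀ p ∉ tsupport η.1, evA p (jr D (φ m) (ψ m) f) = 0) ∧
      ∀ p ∈ tsupport η.1, evA p (jr D (φ m) (ψ m) f) =
        evA p η * lT n r m (pul n x₀ (χ * f).1) (extChartAt (𝓡 n) x₀ p) := by
  obtain ⟨d, hd1, hd2, hd3⟩ := D.dens x₀
  have hfin : IsFiniteMeasure D.μ := by
    have := D.prob
    infer_instance
  have key := (h5 n M D.μ x₀ d hd1 hd2 hd3).1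
  obtain ⟨θ, t1, t2, t3, t4⟩ := exists_theta (Kc_compact hη) (open_target x₀) (Kc_sub hη)
  have hKb : ∃ r : ℝ, 0 < r ∧ ∀ x ∈ Kc (n := n) x₀ η.1, ∀ w ∈ Kc (n := n) x₀ η.1,
      ‖x - w‖ < r := by
    obtain ⟨R, hR⟩ := Metric.isBounded_iff.1 (Kc_compact hη).isBounded
    refine ⟨max R 0 + 1, by positivity, fun x hx w hw => ?_⟩
    have h := hR hx hw
    rw [dist_eq_norm] at h
    exact (h.trans (le_max_left R 0)).trans_lt (lt_add_one _)
  obtain ⟨r, hr, hr2⟩ := hKb
  choose k α β ha hb hab using fun m => h2 n r m hr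
  have cu : ∀ m (j : Fin (k m)), ContDiff ℝ ∞ (fun y => θ y * α m j y) := fun m j =>
    t1.mul (ha m j)
  have cv : ∀ m (j : Fin (k m)), ContDiff ℝ ∞ (fun y => θ y * (β m j y / d y)) := fun m j =>
    cut (open_target x₀) t1 t3 ((hb m j).contDiffOn.div hd1 fun y hy => (hd2 y hy).ne')
  have su := fun m (j : Fin (k m)) => ((h3 n M x₀).1 _ (cu m j) (cut_comp t2)
    (cut_supp.trans t3)).1
  have sv := fun m (j : Fin (k m)) => ((h3 n M x₀).1 _ (cv m j) (cut_comp t2)
    (cut_supp.trans t3)).1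
  refine ⟨r, k, fun m j => ⟨psh x₀ (fun y => θ y * α m j y), su m j⟩ * η,
    fun m j => ⟨psh x₀ (fun y => θ y * (β m j y / d y)), sv m j⟩ * χ, hr, fun m f =>
    ⟨fun p hp => ?_, fun p hp => ?_⟩⟩
  · have h0 : evA p η = 0 := image_eq_zero_of_notMem_tsupport (f := η.1) hp
    unfold jr
    rw [map_sum]
    refine Finset.sum_eq_zero fun j _ => ?_
    rw [map_smul, map_mul, h0, mul_zero, smul_zero]
  · have hps := hη hp
    have hpt : θ (extChartAt (𝓡 n) x₀ p) = 1 := (t4 _ ⟨p, hp, rfl⟩).self_of_nhds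
    have hpK : extChartAt (𝓡 n) x₀ p ∈ Kc x₀ η.1 := ⟨p, hp, rfl⟩
    have off : ∀ q ∉ tsupport η.1, evA q (χ * f) = 0 := fun q hq => off_supp h1 f hq
    have hχs : tsupport (χ * f).1 ⊆ (extChartAt (𝓡 n) x₀).source :=
      (supp_mul χ f).trans ((supp_sub h1).trans hη)
    obtain ⟨g1, g2, _, _⟩ := (h3 n M x₀).2.1 (χ * f).1 (χ * f).2 hχs
    have hj : ∀ j : Fin (k m), jg D ((⟨psh x₀ (fun y => θ y * (β m j y / d y)), sv m j⟩ * χ) * f) =
        ∫ w, β m j w * pul n x₀ (χ * f).1 w := by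
      intro j
      set F : SA n M := (⟨psh x₀ (fun y => θ y * (β m j y / d y)), sv m j⟩ * χ) * f with hF
      have hFe : ∀ q, evA q F = psh x₀ (fun y => θ y * (β m j y / d y)) q * evA q (χ * f) := by
        intro q
        rw [hF, mul_assoc, map_mul]
        rfl
      obtain ⟨k1, k2⟩ := key _ (int_cont D.C (cont_evA F))
      have e1 : jg D F = ∫ p in (extChartAt (𝓡 n) x₀).source, evA p F ∂D.μ := by
        refine (setIntegral_eq_integral_of_forall_compl_eq_zero fun q hq => ?_).symm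
        rw [hFe, off q fun h => hq (hη h), mul_zero]
      rw [e1, k2]
      refine integral_congr_ae (Eventually.of_forall fun y => ?_)
      simp only
      by_cases hy : y ∈ Kc x₀ η.1
      · have hyt := Kc_sub hη hy
        have h4 : θ y = 1 := (t4 _ hy).self_of_nhds
        rw [pul_of hyt, pul_of hyt, hFe, psh_of ((extChartAt (𝓡 n) x₀).map_target hyt),
          (extChartAt (𝓡 n) x₀).right_inv hyt, h4, evA_apply]
        have h5 := (hd2 y hyt).ne'
        field_simp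
      · rw [pul_off (η := η.1) (fun q hq => (hFe q).trans (by rw [off q hq, mul_zero])) hy,
          pul_off (η := η.1) (f := (χ * f).1) (fun q hq => off q hq) hy]
        ring
    unfold jr
    rw [map_sum]
    have hA : ∀ j : Fin (k m), evA p (⟨psh x₀ (fun y => θ y * α m j y), su m j⟩ : SA n M) =
        α m j (extChartAt (𝓡 n) x₀ p) := fun j => by
      change psh x₀ (fun y => θ y * α m j y) p = _
      rw [psh_of hps, hpt, one_mul]
    have e2 : ∀ j : Fin (k m), evA p (jg D ((⟨psh x₀ (fun y => θ y * (β m j y / d y)), sv m j⟩ * χ)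
        * f) • ((⟨psh x₀ (fun y => θ y * α m j y), su m j⟩ * η : SA n M))) =
        evA p η * ∫ w, α m j (extChartAt (𝓡 n) x₀ p) * (β m j w * pul n x₀ (χ * f).1 w) := by
      intro j
      rw [hj, map_smul, map_mul, integral_const_mul, hA, smul_eq_mul]
      ring
    rw [Finset.sum_congr rfl fun j _ => e2 j, ← Finset.mul_sum, ← integral_finsetSum]
    · congr 1
      refine integral_congr_ae (Eventually.of_forall fun w => ?_)
      simp only
      by_cases hw : w ∈ Kc x₀ η.1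
      · rw [hab m _ _ (hr2 _ hpK _ hw), Finset.sum_mul]
        exact Finset.sum_congr rfl fun j _ => by ring
      · rw [pul_off (η := η.1) (f := (χ * f).1) (fun q hq => off q hq) hw]
        simp
    · intro j _
      exact (int_mul_pul g1.continuous g2 (hb m j).continuous).const_mul _

theorem der_off {Z : VF n M} (hZ : SmV Z) {F : SA n M} {p : M} (h : p ∉ tsupport F.1) :
    evA p (derA hZ F) = 0 := by
  rw [ev_derA]
  have h0 : F.1 =ᶠ[𝓝 p] fun _ => (0 : ℝ) := notMem_tsupport_iff_eventuallyEq.1 h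
  have h1 : mfderiv (𝓡 n) 𝓘(ℝ, ℝ) F.1 p = mfderiv (𝓡 n) 𝓘(ℝ, ℝ) (fun _ => (0 : ℝ)) p :=
    h0.mfderiv_eq
  change (mfderiv (𝓡 n) 𝓘(ℝ, ℝ) F.1 p) (Z p) = _
  rw [h1, mfderiv_const]
  rfl

theorem der_supp {Z : VF n M} (hZ : SmV Z) (F : SA n M) :
    tsupport (derA hZ F).1 ⊆ tsupport F.1 :=
  closure_minimal (fun p hp => by
    by_contra h
    exact hp (der_off hZ h)) (isClosed_tsupport _)

/-- multiplication is bounded -/
theorem jg_mul_le (D : GD n M N) (a : SA n M) : ∃ K : ℝ, 0 ≤ K ∧ ∀ f : SA n M,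
    jg D ((a * f) ^ 2) ≤ K * jg D (f ^ 2) := by
  obtain ⟨K, hK, h⟩ := bdd D.C a
  refine ⟨K ^ 2, sq_nonneg _, fun f => ?_⟩
  have e : K ^ 2 * jg D (f ^ 2) = jg D (K ^ 2 • f ^ 2) := by
    unfold jg
    rw [← integral_const_mul]
    refine integral_congr_ae (Eventually.of_forall fun p => ?_)
    simp only [map_smul, smul_eq_mul]
  rw [e]
  refine jg_mono D fun p => ?_
  rw [map_smul, map_pow, map_mul, map_pow, smul_eq_mul, mul_pow]
  refine mul_le_mul_of_nonneg_right ?_ (sq_nonneg _)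
  have h2 : |evA p a| ≤ K := h p
  nlinarith [abs_nonneg (evA p a), sq_abs (evA p a)]

theorem jg_add_sq (D : GD n M N) (f g : SA n M) :
    jg D ((f + g) ^ 2) ≤ 2 * jg D (f ^ 2) + 2 * jg D (g ^ 2) := by
  have e : 2 * jg D (f ^ 2) + 2 * jg D (g ^ 2) = jg D ((2 : ℝ) • f ^ 2 + (2 : ℝ) • g ^ 2) := by
    unfold jg
    rw [← integral_const_mul, ← integral_const_mul, ← integral_add]
    · refine integral_congr_ae (Eventually.of_forall fun p => ?_)
      simp only [map_smul, smul_eq_mul, map_add]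
    · exact (int_cont D.C (cont_evA (f ^ 2))).const_mul _
    · exact (int_cont D.C (cont_evA (g ^ 2))).const_mul _
  rw [e]
  refine jg_mono D fun p => ?_
  rw [map_add, map_smul, map_smul, map_pow, map_pow, map_pow, map_add, smul_eq_mul, smul_eq_mul]
  nlinarith [sq_nonneg (evA p f - evA p g)]

theorem jg_nonneg (D : GD n M N) (f : SA n M) : 0 ≤ jg D (f ^ 2) :=
  ig_nonneg D.C fun p => by
    change 0 ≤ evA p (f ^ 2)
    rw [map_pow]
    exact sq_nonneg _

theorem pd_congr {u v : EU n → ℝ} {y : EU n} (h : u =ᶠ[𝓝 y] v) (k : Fin n) :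
    pd k u y = pd k v y := by
  unfold pd
  rw [h.fderiv_eq]

theorem pul_near {x₀ : M} {f : M → ℝ} {y : EU n} (hy : y ∈ (extChartAt (𝓡 n) x₀).target) :
    pul n x₀ f =ᶠ[𝓝 y] f ∘ (extChartAt (𝓡 n) x₀).symm := by
  filter_upwards [(open_target x₀).mem_nhds hy] with z hz
  rw [pul_of hz]
  rfl

theorem pd_off {x₀ : M} {η f : M → ℝ} (hη : tsupport η ⊆ (extChartAt (𝓡 n) x₀).source)
    (hf : ∀ p ∉ tsupport η, f p = 0) {y : EU n} (hy : y ∉ Kc x₀ η) (k : Fin n) :
    pd k (pul n x₀ f) y = 0 := by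
  have h : pul n x₀ f =ᶠ[𝓝 y] fun _ => (0 : ℝ) := by
    filter_upwards [(Kc_compact hη).isClosed.isOpen_compl.mem_nhds hy] with z hz
    exact pul_off hf hz
  rw [pd_congr h]
  unfold pd
  simp

/-- partial derivatives are bounded by the derivatives along the frame -/
theorem pd_bound (h3 : S_TKF) (h4 : S_TKV) (h5 : S_TKI) (D : GD n M N) (x₀ : M) (η : SA n M)
    (hη : tsupport η.1 ⊆ (extChartAt (𝓡 n) x₀).source) :
    ∃ B : ℝ, 0 ≤ B ∧ ∀ (F : SA n M), tsupport F.1 ⊆ tsupport η.1 → ∀ k,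
      ∫ y, pd k (pul n x₀ F.1) y ^ 2 ≤ B * ∑ a, jg D ((D.F.e a F) ^ 2) := by
  obtain ⟨Bd, hBd, dn⟩ := norm_dn h5 D x₀ η hη
  obtain ⟨-, -, v3, -, -, v6⟩ := h4 n M x₀
  have hc := fun a k => (v6 D.g).1 (D.T.X a) (D.T.hX a) k
  set c : Fin N → Fin n → EU n → ℝ := fun a k y => D.g.inner ((extChartAt (𝓡 n) x₀).symm y)
    (cf x₀ k y) (D.T.X a ((extChartAt (𝓡 n) x₀).symm y)) with hcdef
  have hb : ∀ a k, ∃ B : ℝ, 0 ≤ B ∧ ∀ y ∈ Kc x₀ η.1, c a k y ^ 2 ≤ B := by
    intro a k
    have h : ContinuousOn (fun y => c a k y ^ 2) (Kc x₀ η.1) :=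
      ((hc a k).continuousOn.mono (Kc_sub hη)).pow 2
    obtain ⟨B, hB⟩ := (Kc_compact hη).bddAbove_image h
    exact ⟨max B 0, le_max_right _ _, fun y hy => (hB ⟨y, hy, rfl⟩).trans (le_max_left _ _)⟩
  choose B hB0 hB using hb
  set Bs := ∑ a, ∑ k, B a k with hBs
  have hBle : ∀ a k, B a k ≤ Bs := fun a k =>
    (Finset.single_le_sum (f := fun k => B a k) (fun k _ => hB0 a k) (Finset.mem_univ k)).trans
      (Finset.single_le_sum (f := fun a => ∑ k, B a k)
        (fun a _ => Finset.sum_nonneg fun k _ => hB0 a k) (Finset.mem_univ a))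
  have hBs0 : 0 ≤ Bs := Finset.sum_nonneg fun a _ => Finset.sum_nonneg fun k _ => hB0 a k
  refine ⟨N * Bs * Bd, by positivity, fun F hF k => ?_⟩
  have hoff : ∀ p ∉ tsupport η.1, F.1 p = 0 := fun p hp =>
    image_eq_zero_of_notMem_tsupport fun h => hp (hF h)
  have hoffe : ∀ a, ∀ p ∉ tsupport η.1, evA p (D.F.e a F) = 0 := fun a p hp => by
    rw [D.ok.e]
    exact der_off _ fun h => hp (hF h)
  have key : ∀ y, pd k (pul n x₀ F.1) y ^ 2 ≤ N * Bs * ∑ a, pul n x₀ (D.F.e a F).1 y ^ 2 := by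
    intro y
    by_cases hy : y ∈ Kc x₀ η.1
    · have hyt := Kc_sub hη hy
      have e1 : pd k (pul n x₀ F.1) y = ∑ a, c a k y * pul n x₀ (D.F.e a F).1 y := by
        rw [pd_congr (pul_near hyt), ← v3 F.1 F.2 y hyt k]
        have hpar := D.T.par _ (cf x₀ k y)
        conv_lhs => rw [← hpar]
        rw [map_sum]
        refine Finset.sum_congr rfl fun a _ => ?_
        rw [map_smul, pul_of hyt, D.ok.e]
        rfl
      rw [e1]
      refine (sq_sum_le_card_mul_sum_sq).trans ?_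
      rw [Finset.card_univ, Fintype.card_fin, mul_assoc, Finset.mul_sum Finset.univ _ Bs]
      refine mul_le_mul_of_nonneg_left (Finset.sum_le_sum fun a _ => ?_) (Nat.cast_nonneg _)
      rw [mul_pow]
      exact mul_le_mul_of_nonneg_right ((hB a k y hy).trans (hBle a k)) (sq_nonneg _)
    · rw [pd_off hη hoff hy]
      have : 0 ≤ N * Bs * ∑ a, pul n x₀ (D.F.e a F).1 y ^ 2 := by positivity
      simpa using this
  have hint : ∀ a, Integrable fun y => pul n x₀ (D.F.e a F).1 y ^ 2 := by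
    intro a
    have hs : tsupport (D.F.e a F).1 ⊆ (extChartAt (𝓡 n) x₀).source := by
      rw [D.ok.e]
      exact ((der_supp _ F).trans hF).trans hη
    obtain ⟨g1, g2, _, _⟩ := (h3 n M x₀).2.1 _ (D.F.e a F).2 hs
    have := int_mul_pul g1.continuous g2 g1.continuous
    simpa only [pow_two] using this
  calc ∫ y, pd k (pul n x₀ F.1) y ^ 2
      ≤ ∫ y, N * Bs * ∑ a, pul n x₀ (D.F.e a F).1 y ^ 2 :=
        integral_mono_of_nonneg (Eventually.of_forall fun y => sq_nonneg _)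
          ((integrable_finsetSum _ fun a _ => hint a).const_mul _)
          (Eventually.of_forall key)
    _ = N * Bs * ∑ a, ∫ y, pul n x₀ (D.F.e a F).1 y ^ 2 := by
        rw [integral_const_mul, integral_finsetSum _ fun a _ => hint a]
    _ ≤ N * Bs * ∑ a, Bd * jg D ((D.F.e a F) ^ 2) :=
        mul_le_mul_of_nonneg_left (Finset.sum_le_sum fun a _ => dn _ (hoffe a)) (by positivity)
    _ = _ := by rw [← Finset.mul_sum]; ring

/-- a smooth function times a constant bounds -/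
theorem ev_sq_le (D : GD n M N) (a : SA n M) : ∃ K : ℝ, 0 ≤ K ∧ ∀ p, evA p a ^ 2 ≤ K := by
  obtain ⟨K, hK, h⟩ := bdd D.C a
  refine ⟨K ^ 2, sq_nonneg _, fun p => ?_⟩
  have h2 : |evA p a| ≤ K := h p
  nlinarith [abs_nonneg (evA p a), sq_abs (evA p a)]

theorem lT_add {r : ℝ} {m : ℕ} (hl : Continuous (lk n r m)) {u v : EU n → ℝ}
    (hu : Continuous u) (hus : HasCompactSupport u) (hv : Continuous v)
    (hvs : HasCompactSupport v) (x : EU n) :
    lT n r m (fun w => u w - v w) x = lT n r m u x - lT n r m v x := by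
  unfold lT
  have hc : Continuous fun w => lk n r m (x - w) := hl.comp (continuous_const.sub continuous_id)
  rw [← integral_sub (int_mul_pul hu hus hc) (int_mul_pul hv hvs hc)]
  refine integral_congr_ae (Eventually.of_forall fun w => ?_)
  simp only
  ring

theorem lT_sum {r : ℝ} {m : ℕ} (hl : Continuous (lk n r m)) {κ : Type} [Fintype κ]
    {u : κ → EU n → ℝ} (hu : ∀ k, Continuous (u k)) (hus : ∀ k, HasCompactSupport (u k))
    (x : EU n) : lT n r m (fun w => ∑ k, u k w) x = ∑ k, lT n r m (u k) x := by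
  unfold lT
  have hc : Continuous fun w => lk n r m (x - w) := hl.comp (continuous_const.sub continuous_id)
  rw [← integral_finsetSum _ fun k _ => int_mul_pul (hu k) (hus k) hc]
  refine integral_congr_ae (Eventually.of_forall fun w => ?_)
  simp only
  rw [Finset.mul_sum]

theorem sq_int {u : EU n → ℝ} (hu : Continuous u) (hs : HasCompactSupport u) :
    Integrable fun y => u y ^ 2 := by
  have := int_mul_pul hu hs hu
  simpa only [pow_two] using this

theorem pd_smooth {u : EU n → ℝ} (hu : ContDiff ℝ ∞ u) (k : Fin n) : ContDiff ℝ ∞ (pd k u) :=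
  (hu.fderiv_right (m := ∞) (by simp)).clm_apply contDiff_const

theorem pd_supp {u : EU n → ℝ} (hu : HasCompactSupport u) (k : Fin n) :
    HasCompactSupport (pd k u) := by
  have h := hu.fderiv_apply (𝕜 := ℝ) (EuclideanSpace.single k (1 : ℝ))
  exact h

theorem der_theta (h4 : S_TKV) (D : GD n M N) (x₀ : M) (s : Fin N) (F : SA n M) {y : EU n}
    (hy : y ∈ (extChartAt (𝓡 n) x₀).target) {u : EU n → ℝ}
    (hu : F.1 ∘ (extChartAt (𝓡 n) x₀).symm =ᶠ[𝓝 y] u) :
    evA ((extChartAt (𝓡 n) x₀).symm y) (D.F.e s F) =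
      ∑ k, zc x₀ (D.T.X s) k y * pd k u y := by
  have h := (h4 n M x₀).2.2.2.1 (D.T.X s) F.1 (D.T.hX s) F.2 y hy
  rw [D.ok.e]
  refine h.trans (Finset.sum_congr rfl fun k _ => ?_)
  rw [pd_congr hu]

set_option maxHeartbeats 8000000 in
theorem main (h1 : S_LAN) (h2 : S_FRK) (h3 : S_TKF) (h4 : S_TKV) (h5 : S_TKI) (D : GD n M N)
    (hn : 1 ≤ n) (x₀ : M) (χ η : SA n M)
    (hη : tsupport η.1 ⊆ (extChartAt (𝓡 n) x₀).source)
    (hχη : ∀ p ∈ tsupport χ.1, ∀ᶠ q in 𝓝 p, evA q η = 1) :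
    ∃ (k : ℕ → ℕ) (φ ψ : ∀ m, Fin (k m) → SA n M),
      (∃ K : ℝ, ∀ m f, jg D (jr D (φ m) (ψ m) f ^ 2) ≤ K * jg D (f ^ 2)) ∧
      (∀ (a : SA n M) (s : Fin N), ∃ K : ℝ, ∀ m f,
        jg D ((a * D.F.e s (jr D (φ m) (ψ m) f) - jr D (φ m) (ψ m) (a * D.F.e s f)) ^ 2) ≤
          K * jg D (f ^ 2)) ∧
      ∃ ε : ℕ → ℝ, Tendsto ε atTop (𝓝 0) ∧ ∀ m (f : SA n M),
        jg D ((χ * f - jr D (φ m) (ψ m) f) ^ 2) ≤
          ε m * (jg D (f ^ 2) + ∑ s, jg D (D.F.e s f ^ 2)) := by
  obtain ⟨r, k, φ, ψ, hr, hJ⟩ := fin_rank h2 h3 h5 D x₀ χ η hη hχη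
  obtain ⟨Bu, hBu, up⟩ := norm_up h5 D x₀ η hη
  obtain ⟨Bd, hBd, dn⟩ := norm_dn h5 D x₀ η hη
  obtain ⟨Bp, hBp, pb⟩ := pd_bound h3 h4 h5 D x₀ η hη
  obtain ⟨La, Lb, ⟨δ, hδ, Lc⟩, Ld⟩ := h1 n r hn hr
  obtain ⟨Kη, hKη, bη⟩ := ev_sq_le D η
  obtain ⟨Kχ, hKχ, bχ⟩ := jg_mul_le D χ
  have off : ∀ f, ∀ q ∉ tsupport η.1, evA q (χ * f) = 0 := fun f q hq => off_supp hχη f hq
  have hsup : ∀ f, tsupport (χ * f).1 ⊆ tsupport η.1 := fun f =>
    (supp_mul χ f).trans (supp_sub hχη)
  have hG1 : ∀ F : SA n M, tsupport F.1 ⊆ tsupport η.1 → ContDiff ℝ ∞ (pul n x₀ F.1) :=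
    fun F hF => ((h3 n M x₀).2.1 F.1 F.2 (hF.trans hη)).1
  have hG2 : ∀ F : SA n M, tsupport F.1 ⊆ tsupport η.1 → HasCompactSupport (pul n x₀ F.1) :=
    fun F hF => ((h3 n M x₀).2.1 F.1 F.2 (hF.trans hη)).2.1
  have E1 : ∀ f : SA n M, ∫ y, pul n x₀ (χ * f).1 y ^ 2 ≤ Bd * Kχ * jg D (f ^ 2) := fun f => by
    calc _ ≤ Bd * jg D ((χ * f) ^ 2) := dn _ (off f)
      _ ≤ Bd * (Kχ * jg D (f ^ 2)) := mul_le_mul_of_nonneg_left (bχ f) hBd
      _ = _ := by ring
  have E2 : ∀ m (f : SA n M), ∫ y, lT n r m (pul n x₀ (χ * f).1) y ^ 2 ≤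
      Bd * Kχ * jg D (f ^ 2) := fun m f =>
    ((Lb m _ (hG1 _ (hsup f)) (hG2 _ (hsup f))).2.2.2).trans (E1 f)
  refine ⟨k, φ, ψ, ⟨Bu * (Kη * (Bd * Kχ)), fun m f => ?_⟩, fun a s => ?_, ?_⟩
  · have hl := Lb m _ (hG1 _ (hsup f)) (hG2 _ (hsup f))
    have h := up (jr D (φ m) (ψ m) f) (fun y => Kη * lT n r m (pul n x₀ (χ * f).1) y ^ 2)
      ((sq_int hl.1.continuous hl.2.1).const_mul _) (fun y => by positivity)
      (fun p hp => by
        rw [(hJ m f).2 p hp, mul_pow]
        exact mul_le_mul_of_nonneg_right (bη p) (sq_nonneg _)) (hJ m f).1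
    refine h.trans ?_
    rw [integral_const_mul]
    calc Bu * (Kη * ∫ y, lT n r m (pul n x₀ (χ * f).1) y ^ 2)
        ≤ Bu * (Kη * (Bd * Kχ * jg D (f ^ 2))) :=
          mul_le_mul_of_nonneg_left (mul_le_mul_of_nonneg_left (E2 m f) hKη) hBu
      _ = _ := by ring
  · -- the commutator
    obtain ⟨θ, t1, t2, t3, t4⟩ := exists_theta (Kc_compact hη) (open_target x₀) (Kc_sub hη)
    set b : Fin n → EU n → ℝ := fun k y => θ y * ((a.1 ∘ (extChartAt (𝓡 n) x₀).symm) y *
      zc x₀ (D.T.X s) k y) with hb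
    have hbs : ∀ k, ContDiff ℝ ∞ (b k) := fun k => cut (open_target x₀) t1 t3
      (((h3 n M x₀).2.2 a.1 a.2).mul ((h4 n M x₀).1 (D.T.X s) (D.T.hX s) k))
    have hbc : ∀ k, HasCompactSupport (b k) := fun k => cut_comp t2
    choose Kb hKb using fun k => Ld (b k) (hbs k) (hbc k) k
    obtain ⟨K1, hK1, b1⟩ := ev_sq_le D (a * D.F.e s η)
    obtain ⟨K2, hK2, b2⟩ := jg_mul_le D (a * D.F.e s χ)
    refine ⟨Bu * (3 * (K1 * (Bd * Kχ) + Kη * (n * ∑ k, |Kb k| * (Bd * Kχ)) + Kη * (Bd * K2))),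
      fun m f => ?_⟩
    set G := pul n x₀ (χ * f).1 with hG
    have g1 := hG1 _ (hsup f)
    have g2 := hG2 _ (hsup f)
    have hl := Lb m _ g1 g2
    set u := lT n r m G with hu
    set Hf : SA n M := a * D.F.e s χ * f with hHf
    have hHs : tsupport Hf.1 ⊆ tsupport η.1 := by
      have e : Hf = D.F.e s χ * (a * f) := by rw [hHf]; ring
      rw [e]
      refine (supp_mul _ _).trans ?_
      rw [D.ok.e]
      exact (der_supp _ _).trans (supp_sub hχη)
    have w1 := hG1 _ hHs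
    have w2 := hG2 _ hHs
    set h := pul n x₀ Hf.1 with hh
    have hlh := Lb m _ w1 w2
    have hoffH : ∀ p ∉ tsupport η.1, Hf.1 p = 0 := fun p hp =>
      image_eq_zero_of_notMem_tsupport fun h => hp (hHs h)
    -- the pull-back of `χ a e_s f`
    have hP : (pul n x₀ (χ * (a * D.F.e s f)).1) = fun w => (∑ k, b k w * pd k G w) - h w := by
      funext w
      by_cases hw : w ∈ Kc x₀ η.1
      · have hwt := Kc_sub hη hw
        have ht : θ w = 1 := (t4 _ hw).self_of_nhds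
        have e1 : χ * (a * D.F.e s f) = a * D.F.e s (χ * f) - Hf := by
          rw [hHf, (D.F.e s).leibniz]
          simp only [smul_eq_mul]
          ring
        have e2 := der_theta h4 D x₀ s (χ * f) hwt (pul_near hwt).symm
        rw [pul_of hwt, hh, pul_of hwt, e1]
        change evA _ (a * D.F.e s (χ * f) - Hf) = _ - evA _ Hf
        rw [map_sub, map_mul, e2, Finset.mul_sum]
        congr 1
        refine Finset.sum_congr rfl fun k _ => ?_
        simp only [hb, ht]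
        change a.1 _ * _ = 1 * (a.1 _ * _) * _
        ring
      · rw [pul_off (η := η.1) (f := (χ * (a * D.F.e s f)).1) (fun q hq => off _ q hq) hw, hh,
          pul_off hoffH hw, sub_zero]
        refine (Finset.sum_eq_zero fun k _ => ?_).symm
        rw [hG, pd_off (f := (χ * f).1) hη (fun q hq => off f q hq) hw, mul_zero]
    have hbG1 : ∀ k, ContDiff ℝ ∞ (fun w => b k w * pd k G w) := fun k =>
      (hbs k).mul (pd_smooth g1 k)
    have hbG2 : ∀ k, HasCompactSupport (fun w => b k w * pd k G w) := fun k => (hbc k).mul_right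
    have hlT : ∀ x, lT n r m (pul n x₀ (χ * (a * D.F.e s f)).1) x =
        (∑ k, lT n r m (fun w => b k w * pd k G w) x) - lT n r m h x := by
      intro x
      rw [hP, lT_add (La m).1 _ _ w1.continuous w2, lT_sum (La m).1
        (fun k => (hbG1 k).continuous) hbG2]
      · exact continuous_finsetSum _ fun k _ => (hbG1 k).continuous
      · refine HasCompactSupport.intro (K := ⋃ k, tsupport fun w => b k w * pd k G w)
          (isCompact_iUnion fun k => hbG2 k) fun x hx => ?_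
        refine Finset.sum_eq_zero fun k _ => ?_
        exact image_eq_zero_of_notMem_tsupport (f := fun w => b k w * pd k G w) fun hk =>
          hx (Set.mem_iUnion.2 ⟨k, hk⟩)
    -- `J f` as a product
    have cu : ContDiff ℝ ∞ (fun y => θ y * u y) := t1.mul hl.1
    have su := ((h3 n M x₀).1 _ cu (cut_comp t2) (cut_supp.trans t3)).1
    set Θ : SA n M := ⟨psh x₀ (fun y => θ y * u y), su⟩ with hΘ
    have hΘe : ∀ p ∈ tsupport η.1, evA p Θ = u (extChartAt (𝓡 n) x₀ p) := by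
      intro p hp
      change psh x₀ (fun y => θ y * u y) p = _
      rw [psh_of (hη hp), (t4 _ ⟨p, hp, rfl⟩).self_of_nhds, one_mul]
    have hJe : jr D (φ m) (ψ m) f = η * Θ := by
      refine ext_evA fun p => ?_
      rw [map_mul]
      by_cases hp : p ∈ tsupport η.1
      · rw [(hJ m f).2 p hp, hΘe p hp]
      · have : evA p η = 0 := image_eq_zero_of_notMem_tsupport (f := η.1) hp
        rw [(hJ m f).1 p hp, this, zero_mul]
    have hΘd : ∀ p ∈ tsupport η.1, evA p (D.F.e s Θ) =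
        ∑ k, zc x₀ (D.T.X s) k (extChartAt (𝓡 n) x₀ p) * pd k u (extChartAt (𝓡 n) x₀ p) := by
      intro p hp
      have hyt := (extChartAt (𝓡 n) x₀).map_source (hη hp)
      have hc : Θ.1 ∘ (extChartAt (𝓡 n) x₀).symm =ᶠ[𝓝 (extChartAt (𝓡 n) x₀ p)] u := by
        filter_upwards [(open_target x₀).mem_nhds hyt, t4 _ ⟨p, hp, rfl⟩] with z hz1 hz2
        change psh x₀ (fun y => θ y * u y) ((extChartAt (𝓡 n) x₀).symm z) = _
        rw [psh_of ((extChartAt (𝓡 n) x₀).map_target hz1), (extChartAt (𝓡 n) x₀).right_inv hz1,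
          hz2, one_mul]
      have := der_theta h4 D x₀ s Θ hyt hc
      rwa [(extChartAt (𝓡 n) x₀).left_inv (hη hp)] at this
    set cm : Fin n → EU n → ℝ := fun k y =>
      b k y * pd k u y - lT n r m (fun w => b k w * pd k G w) y with hcm
    have hlk := fun k => Lb m _ (hbG1 k) (hbG2 k)
    have cm1 : ∀ k, Continuous (cm k) := fun k =>
      ((hbs k).mul (pd_smooth hl.1 k)).continuous.sub (hlk k).1.continuous
    have cm2 : ∀ k, HasCompactSupport (cm k) := fun k => ((hbc k).mul_right).sub (hlk k).2.1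
    have iu : Integrable fun y => u y ^ 2 := sq_int hl.1.continuous hl.2.1
    have ih : Integrable fun y => lT n r m h y ^ 2 := sq_int hlh.1.continuous hlh.2.1
    have ic : ∀ k, Integrable fun y => cm k y ^ 2 := fun k => sq_int (cm1 k) (cm2 k)
    have ics : Integrable fun y => ∑ k, cm k y ^ 2 := integrable_finsetSum _ fun k _ => ic k
    have hI : Integrable fun y => 3 * (K1 * u y ^ 2 + Kη * (n * ∑ k, cm k y ^ 2) +
        Kη * lT n r m h y ^ 2) :=
      (((iu.const_mul _).add ((ics.const_mul _).const_mul _)).add (ih.const_mul _)).const_mul _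
    have hup := up (a * D.F.e s (jr D (φ m) (ψ m) f) - jr D (φ m) (ψ m) (a * D.F.e s f)) _ hI
      (fun y => by
        have : 0 ≤ ∑ k, cm k y ^ 2 := Finset.sum_nonneg fun k _ => sq_nonneg _
        positivity)
      (fun p hp => by
        set y := extChartAt (𝓡 n) x₀ p with hy
        have hyK : y ∈ Kc x₀ η.1 := ⟨p, hp, rfl⟩
        have ht : θ y = 1 := (t4 _ hyK).self_of_nhds
        have hsy : (extChartAt (𝓡 n) x₀).symm y = p := (extChartAt (𝓡 n) x₀).left_inv (hη hp)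
        have e1 : evA p (a * D.F.e s (jr D (φ m) (ψ m) f)) =
            evA p (a * D.F.e s η) * u y + evA p η * ∑ k, b k y * pd k u y := by
          rw [hJe, (D.F.e s).leibniz]
          simp only [smul_eq_mul]
          have e3 : a * (η * D.F.e s Θ + Θ * D.F.e s η) =
            (a * D.F.e s η) * Θ + η * (a * D.F.e s Θ) := by ring
          rw [e3, map_add, map_mul _ (a * D.F.e s η) Θ, hΘe p hp, map_mul _ η, map_mul _ a
            (D.F.e s Θ), hΘd p hp, Finset.mul_sum]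
          congr 2
          refine Finset.sum_congr rfl fun k _ => ?_
          simp only [hb, ← hy, ht]
          change a.1 p * _ = 1 * (a.1 ((extChartAt (𝓡 n) x₀).symm y) * _) * _
          rw [hsy]
          ring
        have e2 : evA p (a * D.F.e s (jr D (φ m) (ψ m) f) - jr D (φ m) (ψ m) (a * D.F.e s f)) =
            evA p (a * D.F.e s η) * u y + evA p η * (∑ k, cm k y) + evA p η * lT n r m h y := by
          rw [map_sub, e1, (hJ m _).2 p hp, hlT, hcm]
          simp only [Finset.sum_sub_distrib, ← hy]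
          ring
        rw [e2]
        have q1 : (evA p (a * D.F.e s η) * u y) ^ 2 ≤ K1 * u y ^ 2 := by
          rw [mul_pow]
          exact mul_le_mul_of_nonneg_right (b1 p) (sq_nonneg _)
        have q2 : (evA p η * (∑ k, cm k y)) ^ 2 ≤ Kη * (n * ∑ k, cm k y ^ 2) := by
          rw [mul_pow]
          have h5 : (∑ k, cm k y) ^ 2 ≤ n * ∑ k, cm k y ^ 2 := by
            have := sq_sum_le_card_mul_sum_sq (s := Finset.univ) (f := fun k => cm k y)
            simpa using this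
          exact mul_le_mul (bη p) h5 (sq_nonneg _) hKη
        have q3 : (evA p η * lT n r m h y) ^ 2 ≤ Kη * lT n r m h y ^ 2 := by
          rw [mul_pow]
          exact mul_le_mul_of_nonneg_right (bη p) (sq_nonneg _)
        have q4 : ∀ A B C : ℝ, (A + B + C) ^ 2 ≤ 3 * (A ^ 2 + B ^ 2 + C ^ 2) := fun A B C => by
          nlinarith [sq_nonneg (A - B), sq_nonneg (B - C), sq_nonneg (A - C)]
        refine (q4 _ _ _).trans ?_
        exact mul_le_mul_of_nonneg_left (add_le_add (add_le_add q1 q2) q3) (by norm_num))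
      (fun p hp => by
        have e0 : evA p η = 0 := image_eq_zero_of_notMem_tsupport (f := η.1) hp
        have e1 : evA p (D.F.e s (jr D (φ m) (ψ m) f)) = 0 := by
          rw [D.ok.e]
          refine der_off _ fun h => hp ?_
          rw [hJe] at h
          exact supp_mul _ _ h
        rw [map_sub, map_mul, e1, (hJ m _).1 p hp]
        ring)
    refine hup.trans ?_
    have i1 : Integrable fun y => K1 * u y ^ 2 := iu.const_mul _
    have i2 : Integrable fun y => Kη * (n * ∑ k, cm k y ^ 2) := (ics.const_mul _).const_mul _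
    have i3 : Integrable fun y => Kη * lT n r m h y ^ 2 := ih.const_mul _
    have i12 : Integrable fun y => K1 * u y ^ 2 + Kη * (n * ∑ k, cm k y ^ 2) := i1.add i2
    rw [integral_const_mul, integral_add i12 i3, integral_add i1 i2,
      integral_const_mul, integral_const_mul, integral_const_mul, integral_const_mul,
      integral_finsetSum _ fun k _ => ic k]
    have z0 := jg_nonneg D f
    have z1 : ∫ y, u y ^ 2 ≤ Bd * Kχ * jg D (f ^ 2) := E2 m f
    have z2 : ∀ k, ∫ y, cm k y ^ 2 ≤ |Kb k| * (Bd * Kχ) * jg D (f ^ 2) := by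
      intro k
      have i0 : 0 ≤ ∫ y, G y ^ 2 := integral_nonneg fun y => sq_nonneg _
      calc ∫ y, cm k y ^ 2 ≤ Kb k * ∫ y, G y ^ 2 := hKb k m G g1 g2
        _ ≤ |Kb k| * ∫ y, G y ^ 2 := mul_le_mul_of_nonneg_right (le_abs_self _) i0
        _ ≤ |Kb k| * (Bd * Kχ * jg D (f ^ 2)) :=
          mul_le_mul_of_nonneg_left (E1 f) (abs_nonneg _)
        _ = _ := by ring
    have z3 : ∫ y, lT n r m h y ^ 2 ≤ Bd * K2 * jg D (f ^ 2) := by
      calc _ ≤ ∫ y, h y ^ 2 := hlh.2.2.2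
        _ ≤ Bd * jg D (Hf ^ 2) := dn _ hoffH
        _ ≤ Bd * (K2 * jg D (f ^ 2)) := mul_le_mul_of_nonneg_left (b2 f) hBd
        _ = _ := by ring
    have z4 : ∑ k, ∫ y, cm k y ^ 2 ≤ (∑ k, |Kb k| * (Bd * Kχ)) * jg D (f ^ 2) := by
      rw [Finset.sum_mul]
      exact Finset.sum_le_sum fun k _ => z2 k
    calc Bu * (3 * (K1 * (∫ y, u y ^ 2) + Kη * (n * ∑ k, (∫ y, cm k y ^ 2)) +
        Kη * (∫ y, lT n r m h y ^ 2)))
        ≤ Bu * (3 * (K1 * (Bd * Kχ * jg D (f ^ 2)) +
          Kη * (n * ((∑ k, |Kb k| * (Bd * Kχ)) * jg D (f ^ 2))) +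
          Kη * (Bd * K2 * jg D (f ^ 2)))) := by gcongr
      _ = _ := by ring
  · obtain ⟨K1, hK1, b1⟩ := jg_mul_le D χ
    have he : ∀ s, ∃ K : ℝ, 0 ≤ K ∧ ∀ f : SA n M, jg D ((D.F.e s χ * f) ^ 2) ≤ K * jg D (f ^ 2) :=
      fun s => jg_mul_le D _
    choose Ks hKs bs using he
    set Kt := ∑ s, Ks s with hKt
    have hKt0 : 0 ≤ Kt := Finset.sum_nonneg fun s _ => hKs s
    set T : ℝ := Bu * Kη * (n * Bp * (2 * Kt + 2 * Kχ)) with hT
    have hT0 : 0 ≤ T := by positivity
    refine ⟨fun m => |δ m| * T, ?_, fun m f => ?_⟩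
    · have := (hδ.abs).mul_const T
      simpa using this
    · set G := pul n x₀ (χ * f).1 with hG
      have g1 := hG1 _ (hsup f)
      have g2 := hG2 _ (hsup f)
      have hl := Lb m _ g1 g2
      have hc1 : Continuous fun y => G y - lT n r m G y := g1.continuous.sub hl.1.continuous
      have hc2 : HasCompactSupport fun y => G y - lT n r m G y := g2.sub hl.2.1
      have h := up (χ * f - jr D (φ m) (ψ m) f) (fun y => Kη * (G y - lT n r m G y) ^ 2)
        ((sq_int hc1 hc2).const_mul _) (fun y => by positivity)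
        (fun p hp => by
          have e1 : evA p (χ * f) = evA p η * G (extChartAt (𝓡 n) x₀ p) := by
            have e2 : G (extChartAt (𝓡 n) x₀ p) = evA p (χ * f) := by
              rw [hG, pul_of ((extChartAt (𝓡 n) x₀).map_source (hη hp)),
                (extChartAt (𝓡 n) x₀).left_inv (hη hp)]
              rfl
            rw [e2]
            by_cases hp2 : p ∈ tsupport χ.1
            · rw [(hχη p hp2).self_of_nhds, one_mul]
            · have : evA p χ = 0 := image_eq_zero_of_notMem_tsupport (f := χ.1) hp2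
              rw [map_mul, this]
              ring
          rw [map_sub, (hJ m f).2 p hp, e1, ← mul_sub, mul_pow]
          exact mul_le_mul_of_nonneg_right (bη p) (sq_nonneg _))
        (fun p hp => by rw [map_sub, (hJ m f).1 p hp, off f p hp, sub_zero])
      refine h.trans ?_
      rw [integral_const_mul]
      have hS : ∑ k, ∫ y, pd k G y ^ 2 ≤ n * Bp * (2 * Kt + 2 * Kχ) *
          (jg D (f ^ 2) + ∑ s, jg D (D.F.e s f ^ 2)) := by
        have hk : ∀ k, ∫ y, pd k G y ^ 2 ≤ Bp * ((2 * Kt + 2 * Kχ) *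
            (jg D (f ^ 2) + ∑ s, jg D (D.F.e s f ^ 2))) := by
          intro k
          refine (pb _ (hsup f) k).trans (mul_le_mul_of_nonneg_left ?_ hBp)
          have hs : ∀ s, jg D (D.F.e s (χ * f) ^ 2) ≤ 2 * (Ks s * jg D (f ^ 2)) +
              2 * (Kχ * jg D (D.F.e s f ^ 2)) := by
            intro s
            have e : D.F.e s (χ * f) = D.F.e s χ * f + χ * D.F.e s f := by
              rw [(D.F.e s).leibniz]
              simp only [smul_eq_mul]
              ring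
            rw [e]
            refine (jg_add_sq D _ _).trans ?_
            have := bs s f
            have := bχ (D.F.e s f)
            linarith
          have h0 := jg_nonneg D f
          have h00 : 0 ≤ ∑ s, jg D (D.F.e s f ^ 2) := Finset.sum_nonneg fun s _ => jg_nonneg D _
          calc ∑ s, jg D (D.F.e s (χ * f) ^ 2)
              ≤ ∑ s, (2 * (Ks s * jg D (f ^ 2)) + 2 * (Kχ * jg D (D.F.e s f ^ 2))) :=
                Finset.sum_le_sum fun s _ => hs s
            _ = 2 * (Kt * jg D (f ^ 2)) + 2 * (Kχ * ∑ s, jg D (D.F.e s f ^ 2)) := by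
                rw [Finset.sum_add_distrib, ← Finset.mul_sum, ← Finset.mul_sum, ← Finset.sum_mul,
                  ← Finset.mul_sum]
            _ ≤ _ := by nlinarith [mul_nonneg hKt0 h00, mul_nonneg hKχ h0]
        calc ∑ k, ∫ y, pd k G y ^ 2 ≤ ∑ _k : Fin n, Bp * ((2 * Kt + 2 * Kχ) *
            (jg D (f ^ 2) + ∑ s, jg D (D.F.e s f ^ 2))) := Finset.sum_le_sum fun k _ => hk k
          _ = _ := by
            rw [Finset.sum_const, Finset.card_univ, Fintype.card_fin, nsmul_eq_mul]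
            ring
      have hS0 : 0 ≤ ∑ k, ∫ y, pd k G y ^ 2 := Finset.sum_nonneg fun k _ =>
        integral_nonneg fun y => sq_nonneg _
      have hL : ∫ y, (G y - lT n r m G y) ^ 2 ≤ |δ m| * ∑ k, ∫ y, pd k G y ^ 2 :=
        (Lc m G g1 g2).trans (mul_le_mul_of_nonneg_right (le_abs_self _) hS0)
      calc Bu * (Kη * ∫ y, (G y - lT n r m G y) ^ 2)
          ≤ Bu * (Kη * (|δ m| * (n * Bp * (2 * Kt + 2 * Kχ) *
          (jg D (f ^ 2) + ∑ s, jg D (D.F.e s f ^ 2))))) := by
            refine mul_le_mul_of_nonneg_left (mul_le_mul_of_nonneg_left (hL.trans ?_) hKη) hBu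
            exact mul_le_mul_of_nonneg_left hS (abs_nonneg _)
        _ = _ := by rw [hT]; ring

end meas

end Lmoll

theorem s_lmoll (h1 : S_LAN) (h2 : S_FRK) (h3 : S_TKF) (h4 : S_TKV) (h5 : S_TKI) : S_LMOLL := by
  intro n M _ _ _ _ _ _ _ N D hn x₀ χ η _ hη hχη
  exact Lmoll.main h1 h2 h3 h4 h5 D hn x₀ χ η hη hχη

end Pool.Agent.H781.CM
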