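import Pool.Agent.H781.CM.AllG
import Pool.Agent.H781.CM.Lmoll

/-!
Closed manifolds with almost nonnegative curvature operator have nonnegative Euler characteristic.
-/

set_option autoImplicit false

namespace Pool.Agent.H781.CM

theorem lmoll : S_LMOLL := s_lmoll s_lan s_frk s_tkf s_tkv s_tki

theorem main : S_MAIN := main0 lmoll

end Pool.Agent.H781.CM
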