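import Pool.Agent.H781.CM.GSpec

/-!
The main theorem from the abstract part and the geometric part.
-/

set_option autoImplicit false
set_option synthInstance.maxHeartbeats 400000
set_option maxHeartbeats 4000000
set_option linter.unusedSectionVars false

open Bundle Manifold ContDiff VectorField MeasureTheory Filter
open scoped Topology

noncomputable section

namespace Pool.Agent.H781.CM

open Pool.Agent.H781.NG Pool.Agent.H821R2 Pool.Agent.H821R3 Pool.Agent.H893R5.HO
  Pool.Agent.H781.S22

theorem hp_zero {M : Type} [TopologicalSpace M] [CompactSpace M] [MeasurableSpace M]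
    [BorelSpace M] {N : ℕ} (C : CD M N) {p : ℕ} (hp : N < p) : Subsingleton (Hp C p) := by
  have h : ∀ u ∈ Zp C p, u = 0 := by
    intro u hu
    funext S
    exact hu.1.2 S (by
      have : S.card ≤ N := by
        simpa using Finset.card_le_univ S
      omega)
  have : Subsingleton (Zp C p) := ⟨fun a b => Subtype.ext ((h _ a.2).trans (h _ b.2).symm)⟩
  exact (Submodule.Quotient.mk_surjective _).subsingleton

theorem sum_ext {f : ℕ → ℤ} {a b : ℕ} (ha : ∀ p, a < p → f p = 0) (hb : ∀ p, b < p → f p = 0) :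
    ∑ p ∈ Finset.range (a + 1), f p = ∑ p ∈ Finset.range (b + 1), f p := by
  have key : ∀ {a b : ℕ}, a ≤ b → (∀ p, a < p → f p = 0) →
      ∑ p ∈ Finset.range (a + 1), f p = ∑ p ∈ Finset.range (b + 1), f p := by
    intro a b hab h
    refine Finset.sum_subset (Finset.range_mono (by omega)) fun p _ hp => h p ?_
    simp only [Finset.mem_range, not_lt] at hp
    omega
  rcases le_total a b with hab | hab
  · exact key hab ha
  · exact (key hab hb).symm

theorem s_main (h0 : S_CHI) (h1 : S_HODGE) (h2 : S_GD) (h3 : S_GCURV) (h4 : S_GMAX)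
    (h5 : S_GDIAM) (h6 : S_GDENSE) (h7 : S_GMOLL) (h8 : S_GREG) (h9 : S_GDR) (h10 : S_DRV)
    (h11 : ∀ (M : Type) [TopologicalSpace M] [T2Space M] [CompactSpace M] [ConnectedSpace M]
      [ChartedSpace (EU 0) M] [IsManifold (𝓡 0) ∞ M] (p : ℕ), Module.Finite ℝ (HF 0 M p)) :
    S_MAIN := by
  intro n M _ _ _ _ _ _ hA
  rcases Nat.eq_zero_or_pos n with hn | hn
  · subst hn
    refine ⟨h11 M, ?_⟩
    unfold eulerChar
    simp
  letI : MeasurableSpace M := borel M
  haveI : BorelSpace M := ⟨rfl⟩
  obtain ⟨N, hN, hD⟩ := h2 n M hn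
  obtain ⟨ε, hε, hC⟩ := h0 N hN
  obtain ⟨g, hdiam, hcurv⟩ := hA (ε / 2) (by positivity)
  obtain ⟨cov, R, hlc, hrt⟩ := hcurv.1
  obtain ⟨D, rfl⟩ := hD g cov R hlc hrt
  have hcv : CurvGE D.C ε := by
    have := h3 n M N D (ε / 2) hn (by positivity) hcurv
    rwa [mul_div_cancel₀ ε (two_ne_zero)] at this
  have hm := h7 n M N D hn
  have hd := h6 n M N D
  have hr := h8 n M N D hn
  have key := hC M D.C hcv hm hd hr (h4 n M N D) (h5 n M N D hdiam)
  have hfin := (h1 M N D.C hm hd hr).1
  refine ⟨fun p => ?_, ?_⟩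
  · obtain ⟨e⟩ := h9 n M N D hn p
    haveI := hfin p
    exact Module.Finite.equiv e.symm
  · unfold eulerChar
    have e : ∀ p, Module.finrank ℝ (HF n M p) = bet D.C p := fun p => by
      obtain ⟨e⟩ := h9 n M N D hn p
      exact e.finrank_eq
    have e2 : ∑ p ∈ Finset.range (n + 1), (-1 : ℤ) ^ p * (Module.finrank ℝ (HF n M p) : ℤ) =
        ∑ p ∈ Finset.range (N + 1), (-1 : ℤ) ^ p * (Module.finrank ℝ (HF n M p) : ℤ) := by
      apply sum_ext
      · intro p hp
        haveI := h10 n M p hp
        rw [Module.finrank_zero_of_subsingleton]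
        simp
      · intro p hp
        haveI := hp_zero D.C hp
        rw [e p]
        unfold bet
        rw [Module.finrank_zero_of_subsingleton]
        simp
    rw [e2, Finset.sum_congr rfl fun p _ => by rw [e p]]
    exact key

end Pool.Agent.H781.CM
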