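import Pool.Agent.H781.CM.GSpec

/-!
Smooth Cholesky decomposition over the smooth functions of `M` (helper967 for helper781),
adapted from `Pool/Agent/H781/NG/Chol.lean` (helper292).
-/

set_option autoImplicit false
set_option synthInstance.maxHeartbeats 400000
set_option maxHeartbeats 4000000
set_option linter.unusedSectionVars false

open Bundle Manifold ContDiff VectorField MeasureTheory Filter
open scoped Topology

noncomputable section

namespace Pool.Agent.H781.CM

open Pool.Agent.H781.NG Pool.Agent.H821R2 Pool.Agent.H821R3 Pool.Agent.H893R5.HO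
  Pool.Agent.H781.S22

namespace Cholg

theorem cholesky_split {n : ℕ} (H : Fin (n + 1) → Fin (n + 1) → ℝ) (hs : ∀ i j, H i j = H j i)
    (hg : H 0 0 ≠ 0) (u v : Fin (n + 1) → ℝ) :
    ∑ i, ∑ j, u i * H i j * v j =
      (u 0 * H 0 0 + ∑ j : Fin n, u j.succ * H j.succ 0) *
        (v 0 * H 0 0 + ∑ j : Fin n, v j.succ * H j.succ 0) * (H 0 0)⁻¹ +
      ∑ i : Fin n, ∑ j : Fin n,
        u i.succ * (H i.succ j.succ - H i.succ 0 * H 0 j.succ * (H 0 0)⁻¹) * v j.succ := by
  set Su : ℝ := ∑ j : Fin n, u j.succ * H j.succ 0 with hSu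
  set Sv : ℝ := ∑ j : Fin n, v j.succ * H j.succ 0 with hSv
  have e1 : ∑ j : Fin n, u 0 * H 0 j.succ * v j.succ = u 0 * Sv := by
    rw [hSv, Finset.mul_sum]
    refine Finset.sum_congr rfl fun j _ => ?_
    rw [hs 0 j.succ]; ring
  have e2 : ∑ i : Fin n, u i.succ * H i.succ 0 * v 0 = Su * v 0 := by
    rw [hSu, Finset.sum_mul]
  have e3 : ∑ i : Fin n, ∑ j : Fin n,
      u i.succ * (H i.succ j.succ - H i.succ 0 * H 0 j.succ * (H 0 0)⁻¹) * v j.succ =
      (∑ i : Fin n, ∑ j : Fin n, u i.succ * H i.succ j.succ * v j.succ) -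
        Su * Sv * (H 0 0)⁻¹ := by
    have h1 : Su * Sv * (H 0 0)⁻¹ = ∑ i : Fin n, ∑ j : Fin n,
        (u i.succ * H i.succ 0) * (v j.succ * H j.succ 0) * (H 0 0)⁻¹ := by
      rw [hSu, hSv, Finset.sum_mul_sum, Finset.sum_mul]
      refine Finset.sum_congr rfl fun i _ => ?_
      rw [Finset.sum_mul]
    rw [h1, ← Finset.sum_sub_distrib]
    refine Finset.sum_congr rfl fun i _ => ?_
    rw [← Finset.sum_sub_distrib]
    refine Finset.sum_congr rfl fun j _ => ?_
    rw [hs 0 j.succ]; ring
  have e4 : ∑ i, ∑ j, u i * H i j * v j =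
      (u 0 * H 0 0 * v 0 + ∑ j : Fin n, u 0 * H 0 j.succ * v j.succ) +
      ((∑ i : Fin n, u i.succ * H i.succ 0 * v 0) +
        ∑ i : Fin n, ∑ j : Fin n, u i.succ * H i.succ j.succ * v j.succ) := by
    rw [Fin.sum_univ_succ, Fin.sum_univ_succ, ← Finset.sum_add_distrib]
    congr 1
    refine Finset.sum_congr rfl fun i _ => ?_
    rw [Fin.sum_univ_succ]
  rw [e4, e1, e2, e3]
  field_simp
  ring

/-- closure properties of the class of functions -/
structure Cls {M : Type*} (P : (M → ℝ) → Prop) : Prop where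
  const : ∀ c : ℝ, P fun _ => c
  add : ∀ f g, P f → P g → P fun x => f x + g x
  mul : ∀ f g, P f → P g → P fun x => f x * g x
  inv : ∀ f, P f → (∀ x, f x ≠ 0) → P fun x => (f x)⁻¹
  sqrt : ∀ f, P f → (∀ x, 0 < f x) → P fun x => Real.sqrt (f x)

theorem cholesky_aux {M : Type*} {P : (M → ℝ) → Prop} (hP : Cls P) (n : ℕ) :
    ∀ (G : Fin n → Fin n → M → ℝ) (_ : ∀ i j, P (G i j))
    (_ : ∀ i j x, G i j x = G j i x)
    (_ : ∀ x (v : Fin n → ℝ), v ≠ 0 → 0 < ∑ i, ∑ j, v i * G i j x * v j),
    ∃ a : Fin n → Fin n → M → ℝ, (∀ α i, P (a α i)) ∧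
      ∀ x α β, ∑ i, ∑ j, a α i x * G i j x * a β j x = if α = β then 1 else 0 := by
  induction n with
  | zero =>
    intro G _ _ _
    exact ⟨fun i => i.elim0, fun i => i.elim0, fun _ i => i.elim0⟩
  | succ n ih =>
    intro G hG hs hp
    have smc := hP.const
    have sma := hP.add
    have smm := hP.mul
    have hg : ∀ x, 0 < G 0 0 x := by
      intro x
      have h1 := hp x (Pi.single 0 1) (by
        intro h
        have := congrFun h 0
        simp at this)
      rw [Fin.sum_univ_succ, Fin.sum_univ_succ] at h1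
      simpa using h1
    have hgi : P (fun x => (G 0 0 x)⁻¹) := hP.inv _ (hG 0 0) fun x => (hg x).ne'
    set C : Fin n → Fin n → M → ℝ := fun i j x =>
      G i.succ j.succ x - G i.succ 0 x * G 0 j.succ x * (G 0 0 x)⁻¹ with hC
    have hCs : ∀ i j, P (C i j) := by
      intro i j
      have h1 := sma _ _ (hG i.succ j.succ)
        (smm _ _ (smc (-1)) (smm _ _ (smm _ _ (hG i.succ 0) (hG 0 j.succ)) hgi))
      have e : C i j = fun x => G i.succ j.succ x +
          (-1) * (G i.succ 0 x * G 0 j.succ x * (G 0 0 x)⁻¹) := by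
        funext x; simp only [hC]; ring
      rw [e]
      exact h1
    have hCsym : ∀ i j x, C i j x = C j i x := by
      intro i j x
      simp only [hC]
      rw [hs i.succ j.succ x, hs i.succ 0 x, hs 0 j.succ x]
      ring
    have hCp : ∀ x (v : Fin n → ℝ), v ≠ 0 → 0 < ∑ i, ∑ j, v i * C i j x * v j := by
      intro x v hv
      set t : ℝ := -(∑ j : Fin n, v j * G j.succ 0 x) * (G 0 0 x)⁻¹ with ht
      have h1 := hp x (Fin.cons t v) (by
        intro h
        apply hv
        funext i
        have := congrFun h i.succ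
        simpa using this)
      rw [cholesky_split (fun i j => G i j x) (fun i j => hs i j x) (hg x).ne'] at h1
      simp only [Fin.cons_zero, Fin.cons_succ] at h1
      have h2 : t * G 0 0 x + ∑ j : Fin n, v j * G j.succ 0 x = 0 := by
        rw [ht, mul_assoc, inv_mul_cancel₀ (hg x).ne']; ring
      rw [h2, zero_mul, zero_mul, zero_add] at h1
      exact h1
    obtain ⟨a', ha's, ha'⟩ := ih C hCs hCsym hCp
    have hsum : ∀ (m : ℕ) (f : Fin m → M → ℝ), (∀ i, P (f i)) → P (fun x => ∑ i, f i x) := by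
      intro m
      induction m with
      | zero => intro f _; simpa using smc 0
      | succ m ihm =>
        intro f hf
        have e : (fun x => ∑ i, f i x) = fun x => f 0 x + ∑ i : Fin m, f i.succ x := by
          funext x; rw [Fin.sum_univ_succ]
        rw [e]
        exact sma _ _ (hf 0) (ihm _ fun i => hf i.succ)
    set t : Fin n → M → ℝ := fun α x =>
      -1 * (∑ j : Fin n, a' α j x * G j.succ 0 x) * (G 0 0 x)⁻¹ with ht
    have hts : ∀ α, P (t α) := fun α =>
      smm _ _ (smm _ _ (smc (-1)) (hsum n _ fun j => smm _ _ (ha's α j) (hG j.succ 0))) hgi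
    have hrs : P (fun x => (Real.sqrt (G 0 0 x))⁻¹) :=
      hP.inv _ (hP.sqrt _ (hG 0 0) hg) fun x => (Real.sqrt_pos.mpr (hg x)).ne'
    set a : Fin (n + 1) → Fin (n + 1) → M → ℝ := fun α i x =>
      Fin.cases (motive := fun _ => ℝ)
        (Fin.cases (motive := fun _ => ℝ) (Real.sqrt (G 0 0 x))⁻¹ (fun _ => 0) i)
        (fun β => Fin.cases (motive := fun _ => ℝ) (t β x) (fun j => a' β j x) i) α with hadef
    have a00 : ∀ x, a 0 0 x = (Real.sqrt (G 0 0 x))⁻¹ := fun x => rfl
    have a0s : ∀ i : Fin n, ∀ x, a 0 i.succ x = 0 := fun i x => rfl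
    have as0 : ∀ α : Fin n, ∀ x, a α.succ 0 x = t α x := fun α x => rfl
    have ass : ∀ α i : Fin n, ∀ x, a α.succ i.succ x = a' α i x := fun α i x => rfl
    have hz : ∀ x (α : Fin n), t α x * G 0 0 x + ∑ j : Fin n, a' α j x * G j.succ 0 x = 0 := by
      intro x α
      simp only [ht]
      rw [mul_assoc, inv_mul_cancel₀ (hg x).ne']; ring
    refine ⟨a, ?_, ?_⟩
    · intro α i
      refine Fin.cases ?_ (fun β => ?_) α
      · refine Fin.cases ?_ (fun j => ?_) i
        · exact hrs
        · exact smc 0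
      · refine Fin.cases ?_ (fun j => ?_) i
        · exact hts β
        · exact ha's β j
    · intro x α β
      have hspl := cholesky_split (fun i j => G i j x) (fun i j => hs i j x) (hg x).ne'
        (fun i => a α i x) (fun j => a β j x)
      rw [hspl]
      refine Fin.cases ?_ (fun α' => ?_) α
      · refine Fin.cases ?_ (fun β' => ?_) β
        · simp only [a00, a0s, zero_mul, Finset.sum_const_zero, add_zero, if_true]
          have h1 : Real.sqrt (G 0 0 x) * Real.sqrt (G 0 0 x) = G 0 0 x :=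
            Real.mul_self_sqrt (hg x).le
          have h2 : Real.sqrt (G 0 0 x) ≠ 0 := (Real.sqrt_pos.mpr (hg x)).ne'
          have h3 : G 0 0 x ≠ 0 := (hg x).ne'
          have h4 : (Real.sqrt (G 0 0 x))⁻¹ * (Real.sqrt (G 0 0 x))⁻¹ = (G 0 0 x)⁻¹ := by
            rw [← mul_inv, h1]
          calc (Real.sqrt (G 0 0 x))⁻¹ * G 0 0 x * ((Real.sqrt (G 0 0 x))⁻¹ * G 0 0 x) *
                (G 0 0 x)⁻¹
              = ((Real.sqrt (G 0 0 x))⁻¹ * (Real.sqrt (G 0 0 x))⁻¹) * G 0 0 x *
                (G 0 0 x * (G 0 0 x)⁻¹) := by ring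
            _ = 1 := by rw [h4, inv_mul_cancel₀ h3, mul_inv_cancel₀ h3, one_mul]
        · simp only [a00, a0s, as0, ass, zero_mul, Finset.sum_const_zero, add_zero]
          rw [hz x β']
          rw [if_neg (Fin.succ_ne_zero β').symm]
          ring
      · refine Fin.cases ?_ (fun β' => ?_) β
        · simp only [a00, a0s, as0, ass, mul_zero, zero_mul, Finset.sum_const_zero, add_zero]
          rw [hz x α']
          rw [if_neg (Fin.succ_ne_zero α')]
          ring
        · simp only [as0, ass]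
          rw [hz x α', zero_mul, zero_mul, zero_add]
          have h1 := ha' x α' β'
          simp only [Fin.succ_inj]
          exact h1

theorem cls (n : ℕ) (M : Type) [TopologicalSpace M] [ChartedSpace (EU n) M]
    [IsManifold (𝓡 n) ∞ M] : Cls (M := M) (fun f => Sm (𝓡 n) f) where
  const c := Sm.const c
  add f g hf hg := Sm.add hf hg
  mul f g hf hg := Sm.mul hf hg
  inv f hf h := by
    intro x
    exact (hf x).inv₀ (h x)
  sqrt f hf h := by
    intro x
    have h1 : ContMDiffAt 𝓘(ℝ, ℝ) 𝓘(ℝ, ℝ) ∞ Real.sqrt (f x) :=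
      (Real.contDiffAt_sqrt (h x).ne').contMDiffAt
    exact h1.comp x (hf x)

end Cholg

theorem s_cholg : S_CHOLG := by
  intro n M _ _ _ N G hG hp
  have hpos : ∀ (x : M) (v : Fin N → ℝ), v ≠ 0 →
      0 < ∑ i, ∑ j, v i * (G i j).1 x * v j := by
    intro x v hv
    have h3 := (hp x).dotProduct_mulVec_pos hv
    simp only [dotProduct, Matrix.mulVec, star_trivial, Matrix.of_apply] at h3
    refine lt_of_lt_of_eq h3 ?_
    refine Finset.sum_congr rfl fun i _ => ?_
    rw [Finset.mul_sum]
    refine Finset.sum_congr rfl fun j _ => ?_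
    rw [evA_apply]
    ring
  have hsym : ∀ (i j : Fin N) (x : M), (G i j).1 x = (G j i).1 x := fun i j x => by rw [hG i j]
  obtain ⟨a, ha, h1⟩ := Cholg.cholesky_aux (Cholg.cls n M) N (fun i j => (G i j).1)
    (fun i j => (G i j).2) hsym hpos
  refine ⟨fun i j => ⟨a i j, ha i j⟩, fun α β => ?_⟩
  apply ext_evA
  intro p
  have h3 := h1 p α β
  simp only [map_sum, map_mul]
  have e : evA p (if α = β then (1 : SA n M) else 0) = if α = β then 1 else 0 := by
    split_ifs <;> simp
  rw [e, ← h3]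
  rfl

end Pool.Agent.H781.CM
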