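import Pool.Agent.H781.CM.GSpec
import Pool.Agent.H781.CM.Base

/-!
The divergence theorem on closed manifolds.
-/

set_option autoImplicit false
set_option synthInstance.maxHeartbeats 400000
set_option maxHeartbeats 4000000
set_option linter.unusedSectionVars false

open Bundle Manifold ContDiff VectorField MeasureTheory Filter
open scoped Topology

noncomputable section

namespace Pool.Agent.H781.CM

open Pool.Agent.H781.NG Pool.Agent.H821R2 Pool.Agent.H821R3 Pool.Agent.H893R5.HO
  Pool.Agent.H781.S22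

namespace Divt

section alg
variable {n : ℕ} {M : Type} [TopologicalSpace M] [ChartedSpace (EU n) M] [IsManifold (𝓡 n) ∞ M]
  {g : Met n M} {cov : Cov n M} {h : IsLeviCivita g cov} {N : ℕ} {T : PF g N}
  {F : Fr N (SA n M)}

theorem Pm_symm (a b : Fin N) : Pm T a b = Pm T b a := Subtype.ext (gi_comm _ _)

/-- derivative of the idempotent relation -/
theorem dP (ok : FrOK h T F) (c a b : Fin N) : F.e c (Pm T a b) =
    ∑ d, Pm T a d * F.e c (Pm T d b) + ∑ d, Pm T d b * F.e c (Pm T a d) := by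
  conv_lhs => rw [← ok.idem a b, map_sum]
  rw [← Finset.sum_add_distrib]
  refine Finset.sum_congr rfl fun d _ => ?_
  rw [Derivation.leibniz, smul_eq_mul, smul_eq_mul]

/-- the trace of `P ∂P` vanishes -/
theorem trace0 (ok : FrOK h T F) (a : Fin N) :
    ∑ b, ∑ d, Pm T a d * F.e b (Pm T d b) = 0 := by
  have e1 : ∑ b, ∑ d, Pm T a d * F.e b (Pm T d b) =
      ∑ c, ∑ d, Pm T a d * ∑ b, Pm T b c * F.e c (Pm T d b) := by
    have e2 : ∀ b d, Pm T a d * F.e b (Pm T d b) =
        ∑ c, Pm T a d * (Pm T b c * F.e c (Pm T d b)) := by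
      intro b d
      rw [← Finset.mul_sum, ok.Pe]
    simp only [e2]
    calc ∑ b, ∑ d, ∑ c, Pm T a d * (Pm T b c * F.e c (Pm T d b))
        = ∑ b, ∑ c, ∑ d, Pm T a d * (Pm T b c * F.e c (Pm T d b)) :=
          Finset.sum_congr rfl fun b _ => Finset.sum_comm
      _ = ∑ c, ∑ b, ∑ d, Pm T a d * (Pm T b c * F.e c (Pm T d b)) := Finset.sum_comm
      _ = ∑ c, ∑ d, ∑ b, Pm T a d * (Pm T b c * F.e c (Pm T d b)) :=
          Finset.sum_congr rfl fun c _ => Finset.sum_comm
      _ = _ := by simp only [Finset.mul_sum]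
  rw [e1]
  refine Finset.sum_eq_zero fun c _ => ?_
  have e3 : ∀ d, ∑ b, Pm T b c * F.e c (Pm T d b) =
      F.e c (Pm T d c) - ∑ b, Pm T d b * F.e c (Pm T b c) := by
    intro d
    rw [dP ok c d c]
    ring
  simp only [e3, mul_sub, Finset.sum_sub_distrib]
  have e4 : ∑ d, Pm T a d * ∑ b, Pm T d b * F.e c (Pm T b c) =
      ∑ b, Pm T a b * F.e c (Pm T b c) := by
    simp only [Finset.mul_sum]
    rw [Finset.sum_comm]
    refine Finset.sum_congr rfl fun b _ => ?_
    rw [← ok.idem a b, Finset.sum_mul]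
    refine Finset.sum_congr rfl fun d _ => ?_
    ring
  rw [e4, sub_self]

/-- metric compatibility -/
theorem eP (ok : FrOK h T F) (b a c : Fin N) : F.e b (Pm T a c) = cG h T b a c + cG h T b c a := by
  rw [ok.e]
  apply Subtype.ext
  have h1 := der_gi h (T.hX b) (T.hX a) (T.hX c)
  have h2 : (derA (T.hX b) (Pm T a c)).1 = der (T.X b) (gi g (T.X a) (T.X c)) := rfl
  rw [h2, h1]
  funext p
  show gi g (nabla cov (T.X b) (T.X a)) (T.X c) p + gi g (T.X a) (nabla cov (T.X b) (T.X c)) p =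
    gi g (nabla cov (T.X b) (T.X a)) (T.X c) p + gi g (nabla cov (T.X b) (T.X c)) (T.X a) p
  rw [gi_comm (T.X a)]

/-- the divergence -/
theorem dv_eq (ok : FrOK h T F) (f : Fin N → SA n M) :
    dv F f = ∑ b, F.e b (∑ a, f a * Pm T a b) - ∑ b, ∑ a, f a * cG h T b b a := by
  have e1 : ∀ b, F.e b (∑ a, f a * Pm T a b) =
      ∑ a, f a * (cG h T b a b + cG h T b b a) + ∑ a, Pm T a b * F.e b (f a) := by
    intro b
    rw [map_sum, ← Finset.sum_add_distrib]
    refine Finset.sum_congr rfl fun a _ => ?_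
    rw [Derivation.leibniz, smul_eq_mul, smul_eq_mul, eP ok]
  have e2 : ∑ b, ∑ a, Pm T a b * F.e b (f a) = ∑ b, F.e b (f b) := by
    rw [Finset.sum_comm]
    exact Finset.sum_congr rfl fun a _ => ok.Pe a (f a)
  have e3 : ∑ a, ∑ b, F.Γ b a b * f a = ∑ b, ∑ a, f a * cG h T b a b := by
    have e4 : ∀ a b, F.Γ b a b * f a = f a * cG h T b a b -
        f a * ∑ d, Pm T a d * F.e b (Pm T d b) := by
      intro a b
      rw [ok.G, Gm]
      simp only [ok.e]
      ring
    simp only [e4, Finset.sum_sub_distrib, ← Finset.mul_sum]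
    have e5 : ∀ a, f a * ∑ b, ∑ d, Pm T a d * F.e b (Pm T d b) = 0 := by
      intro a
      rw [trace0 ok a, mul_zero]
    simp only [e5, Finset.sum_const_zero, sub_zero]
    simp only [Finset.mul_sum]
    exact Finset.sum_comm
  unfold dv
  simp only [e1, Finset.sum_add_distrib, mul_add]
  rw [e2, e3]
  ring

/-- the vector field `∑ f_a X_a` -/
def fld (T : PF g N) (f : Fin N → SA n M) : VF n M := fun p => ∑ a, (f a).1 p • T.X a p

theorem fld_smooth (f : Fin N → SA n M) : SmV (fld T f) := by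
  apply ContMDiff.sum_section (V := fun x : M => TangentSpace (𝓡 n) x) (F := EU n)
    (t := fun (a : Fin N) (x : M) => (f a).1 x • T.X a x)
  intro a _
  exact ContMDiff.smul_section (f a).2 (T.hX a)

theorem inner_fld (f : Fin N → SA n M) (p : M) (v : TangentSpace (𝓡 n) p) :
    g.inner p (fld T f p) v = ∑ a, (f a).1 p * g.inner p (T.X a p) v := by
  unfold fld
  rw [map_sum, sum_apply]
  refine Finset.sum_congr rfl fun a _ => ?_
  rw [map_smul]
  rfl

/-- pointwise values of the divergence -/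
theorem ev_dv (ok : FrOK h T F) (f : Fin N → SA n M) (p : M) : evA p (dv F f) =
    ∑ b, g.inner p (cov (fld T f) p (T.X b p)) (T.X b p) := by
  rw [dv_eq ok, map_sub, map_sum, map_sum, ← Finset.sum_sub_distrib]
  refine Finset.sum_congr rfl fun b _ => ?_
  have h1 := congrFun (der_gi h (T.hX b) (fld_smooth (T := T) f) (T.hX b)) p
  have h2 : gi g (fld T f) (T.X b) = (∑ a, f a * Pm T a b : SA n M).1 := by
    funext q
    have h3 : (∑ a, f a * Pm T a b : SA n M).1 q = ∑ a, evA q (f a * Pm T a b) := by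
      show evA q (∑ a, f a * Pm T a b) = _
      rw [map_sum]
    rw [h3]
    show g.inner q (fld T f q) (T.X b q) = _
    rw [inner_fld]
    rfl
  have h4 : evA p (F.e b (∑ a, f a * Pm T a b)) = der (T.X b) (gi g (fld T f) (T.X b)) p := by
    rw [h2, ok.e]
    rfl
  have h5 : evA p (∑ a, f a * cG h T b b a) =
      gi g (fld T f) (nabla cov (T.X b) (T.X b)) p := by
    rw [map_sum]
    show _ = g.inner p (fld T f p) (nabla cov (T.X b) (T.X b) p)
    rw [inner_fld]
    refine Finset.sum_congr rfl fun a _ => ?_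
    rw [map_mul]
    show (f a).1 p * gi g (nabla cov (T.X b) (T.X b)) (T.X a) p = _
    rw [gi_comm]
    rfl
  rw [h4, h1, h5]
  show gi g (nabla cov (T.X b) (fld T f)) (T.X b) p + _ - _ = _
  rw [add_sub_cancel_right]
  rfl

end alg

section ana
variable {n : ℕ}

theorem cd_mul {u w : EU n → ℝ} {O : Set (EU n)} (hO : IsOpen O) (hu : ContDiff ℝ ∞ u)
    (hs : tsupport u ⊆ O) (hw : ContDiffOn ℝ ∞ w O) : ContDiff ℝ ∞ (fun y => u y * w y) := by
  rw [contDiff_iff_contDiffAt]
  intro y
  by_cases hy : y ∈ tsupport u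
  · exact hu.contDiffAt.mul (hw.contDiffAt (hO.mem_nhds (hs hy)))
  · have h1 : (fun y => u y * w y) =ᶠ[𝓝 y] fun _ => 0 := by
      filter_upwards [notMem_tsupport_iff_eventuallyEq.1 hy] with z hz
      rw [hz, Pi.zero_apply, zero_mul]
    exact contDiffAt_const.congr_of_eventuallyEq h1

theorem int_pd {V : EU n → ℝ} (hV : ContDiff ℝ ∞ V) (hc : HasCompactSupport V) (k : Fin n) :
    ∫ y, pd k V y = 0 := by
  have hd : ∀ y, fderiv ℝ (fun _ : EU n => (1 : ℝ)) y (EuclideanSpace.single k (1 : ℝ)) = 0 := by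
    intro y
    rw [fderiv_fun_const]
    rfl
  have h1 := integral_mul_fderiv_eq_neg_fderiv_mul_of_integrable (μ := (volume : Measure (EU n)))
    (f := fun _ : EU n => (1 : ℝ)) (g := V) (v := EuclideanSpace.single k (1 : ℝ))
    (by simp only [hd, zero_mul]; exact integrable_zero _ _ _)
    (by
      simp only [one_mul]
      have hcont : Continuous (fun y => fderiv ℝ V y (EuclideanSpace.single k (1 : ℝ))) :=
        (hV.continuous_fderiv (by simp)).clm_apply continuous_const
      refine hcont.integrable_of_hasCompactSupport ?_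
      exact hc.fderiv_apply ℝ _)
    (by
      simp only [one_mul]
      exact hV.continuous.integrable_of_hasCompactSupport hc)
    (fun _ _ => differentiableAt_const _)
    (fun _ _ => hV.differentiable (by simp) _)
  simp only [hd, zero_mul, one_mul, integral_zero, neg_zero] at h1
  exact h1

end ana

section loc
variable {n : ℕ} {M : Type} [TopologicalSpace M] [ChartedSpace (EU n) M] [IsManifold (𝓡 n) ∞ M]
  {g : Met n M} {cov : Cov n M} {h : IsLeviCivita g cov} {N : ℕ} {T : PF g N}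
  {F : Fr N (SA n M)}

theorem der_zero {χ : SA n M} {p : M} (hp : p ∉ tsupport χ.1) {Z : VF n M} (hZ : SmV Z) :
    evA p (derA hZ χ) = 0 := by
  rw [ev_derA]
  have h1 : χ.1 =ᶠ[𝓝 p] fun _ => (0 : ℝ) := notMem_tsupport_iff_eventuallyEq.1 hp
  have h2 : HasMFDerivAt (𝓡 n) 𝓘(ℝ, ℝ) χ.1 p 0 :=
    (hasMFDerivAt_const (0 : ℝ) p).congr_of_eventuallyEq h1
  have h3 : (mfderiv (𝓡 n) 𝓘(ℝ, ℝ) χ.1 p) = 0 := h2.mfderiv
  change (mfderiv (𝓡 n) 𝓘(ℝ, ℝ) χ.1 p) (Z p) = 0
  rw [h3]
  rfl

theorem dv_zero (ok : FrOK h T F) {χ : SA n M} {p : M} (hp : p ∉ tsupport χ.1)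
    (f : Fin N → SA n M) : evA p (dv F (fun a => χ * f a)) = 0 := by
  have h0 : evA p χ = 0 := image_eq_zero_of_notMem_tsupport (f := χ.1) hp
  unfold dv
  rw [map_add, map_sum, map_sum]
  have h1 : ∀ b, evA p (F.e b (χ * f b)) = 0 := by
    intro b
    rw [Derivation.leibniz, map_add, smul_eq_mul, smul_eq_mul, map_mul, map_mul, h0, ok.e,
      der_zero hp]
    ring
  have h2 : ∀ a, evA p (∑ b, F.Γ b a b * (χ * f a)) = 0 := by
    intro a
    rw [map_sum]
    refine Finset.sum_eq_zero fun b _ => ?_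
    rw [map_mul, map_mul, h0]
    ring
  simp only [h1, h2, Finset.sum_const_zero, add_zero]

theorem dv_sum {ι : Type} (s : Finset ι) (f : ι → Fin N → SA n M) :
    dv F (fun a => ∑ i ∈ s, f i a) = ∑ i ∈ s, dv F (f i) := by
  unfold dv
  rw [Finset.sum_add_distrib]
  congr 1
  · rw [Finset.sum_comm]
    exact Finset.sum_congr rfl fun b _ => map_sum _ _ _
  · simp only [Finset.mul_sum]
    rw [Finset.sum_comm' (s := s) (t := fun _ => Finset.univ) (t' := Finset.univ)
      (s' := fun _ => s) (by simp)]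
    refine Finset.sum_congr rfl fun a _ => ?_
    rw [Finset.sum_comm]

theorem zc_fld (x₀ : M) (χ : SA n M) (f : Fin N → SA n M) (k : Fin n) (y : EU n) :
    zc x₀ (fld T (fun a => χ * f a)) k y =
      χ.1 ((extChartAt (𝓡 n) x₀).symm y) * zc x₀ (fld T f) k y := by
  have h1 : fld T (fun a => χ * f a) ((extChartAt (𝓡 n) x₀).symm y) =
      χ.1 ((extChartAt (𝓡 n) x₀).symm y) • fld T f ((extChartAt (𝓡 n) x₀).symm y) := by
    unfold fld
    rw [Finset.smul_sum]
    refine Finset.sum_congr rfl fun a _ => ?_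
    rw [smul_smul]
    rfl
  unfold zc
  rw [h1, map_smul]
  rfl

theorem det_cd {x₀ : M} (hgm : ∀ k l, ContDiffOn ℝ ∞ (fun y => gm g x₀ y k l)
    (extChartAt (𝓡 n) x₀).target) :
    ContDiffOn ℝ ∞ (fun y => (gm g x₀ y).det) (extChartAt (𝓡 n) x₀).target := by
  simp only [Matrix.det_apply]
  refine ContDiffOn.sum fun σ _ => ?_
  refine ContDiffOn.const_smul _ ?_
  exact contDiffOn_prod fun i _ => hgm _ _

theorem int_smooth [CompactSpace M] [MeasurableSpace M] [BorelSpace M] {μ : Measure M}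
    [IsFiniteMeasure μ] (f : SA n M) : Integrable (fun p => evA p f) μ := by
  have hc := cont_evA f
  obtain ⟨K, hK⟩ := (isCompact_range hc).isBounded.exists_norm_le
  exact Integrable.of_bound hc.measurable.aestronglyMeasurable K
    (Filter.Eventually.of_forall fun p => hK _ ⟨p, rfl⟩)

end loc

/-- one chart -/
theorem loc_int (h1 : S_DIVL) (h2 : S_TKF) (h3 : S_TKV) (h5 : S_TKI) (n : ℕ) (M : Type)
    [TopologicalSpace M] [T2Space M] [CompactSpace M] [ChartedSpace (EU n) M]
    [IsManifold (𝓡 n) ∞ M] [MeasurableSpace M] [BorelSpace M] (hn : 1 ≤ n) (g : Met n M)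
    (cov : Cov n M) (h : IsLeviCivita g cov) (N : ℕ) (T : PF g N) (F : Fr N (SA n M))
    (ok : FrOK h T F) (c : ℝ) (μ : Measure M) (hc : 0 < c) [IsFiniteMeasure μ]
    (hd : HasDens g c μ) (x₀ : M) (χ : SA n M)
    (hχ : tsupport χ.1 ⊆ (extChartAt (𝓡 n) x₀).source) (f : Fin N → SA n M) :
    ∫ p, evA p (dv F (fun a => χ * f a)) ∂μ = 0 := by
  classical
  obtain ⟨-, tk2, -⟩ := h2 n M x₀
  obtain ⟨u1, u2, u3, -⟩ := tk2 χ.1 χ.2 hχ
  obtain ⟨z1, -, -, -, -, z6⟩ := h3 n M x₀
  obtain ⟨-, gmS, gmP⟩ := z6 g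
  have hO : IsOpen (extChartAt (𝓡 n) x₀).target := isOpen_extChartAt_target x₀
  have hdet := det_cd gmS
  have hpos : ∀ y ∈ (extChartAt (𝓡 n) x₀).target, 0 < (gm g x₀ y).det := fun y hy =>
    (gmP y hy).det_pos
  have hsq : ContDiffOn ℝ ∞ (fun y => √(gm g x₀ y).det) (extChartAt (𝓡 n) x₀).target :=
    hdet.sqrt fun y hy => (hpos y hy).ne'
  obtain ⟨k1, -, -⟩ := h5 n M μ x₀ (fun y => c * √(gm g x₀ y).det)
    (contDiffOn_const.mul hsq) (fun y hy => mul_pos hc (Real.sqrt_pos.2 (hpos y hy))) (hd x₀)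
  set D : M → ℝ := fun p => evA p (dv F (fun a => χ * f a)) with hD
  obtain ⟨-, kk⟩ := k1 D (int_smooth _)
  have hsrc : ∫ p in (extChartAt (𝓡 n) x₀).source, D p ∂μ = ∫ p, D p ∂μ :=
    setIntegral_eq_integral_of_forall_compl_eq_zero fun p hp =>
      dv_zero ok (fun h' => hp (hχ h')) f
  rw [← hsrc, kk]
  have hZ : SmV (fld T f) := fld_smooth f
  set V : Fin n → EU n → ℝ := fun k y =>
    pul n x₀ χ.1 y * (√(gm g x₀ y).det * zc x₀ (fld T f) k y) with hV
  have hVS : ∀ k, ContDiff ℝ ∞ (V k) := fun k => cd_mul hO u1 u3 (hsq.mul (z1 _ hZ k))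
  have hVC : ∀ k, HasCompactSupport (V k) := fun k => u2.mul_right
  have hpt : ∀ y, pul n x₀ D y * (c * √(gm g x₀ y).det) = c * ∑ k, pd k (V k) y := by
    intro y
    by_cases hy : y ∈ (extChartAt (𝓡 n) x₀).target
    · have e1 : pul n x₀ D y = D ((extChartAt (𝓡 n) x₀).symm y) := by
        unfold pul
        rw [if_pos hy]
      have e2 := h1 n M hn g cov h N T (fld T (fun a => χ * f a)) (fld_smooth _) x₀ y hy
      have e3 : D ((extChartAt (𝓡 n) x₀).symm y) = ∑ b, g.inner ((extChartAt (𝓡 n) x₀).symm y)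
          (cov (fld T (fun a => χ * f a)) ((extChartAt (𝓡 n) x₀).symm y)
            (T.X b ((extChartAt (𝓡 n) x₀).symm y)))
          (T.X b ((extChartAt (𝓡 n) x₀).symm y)) := ev_dv ok _ _
      have e4 : ∀ k, pd k (fun y' => √(gm g x₀ y').det *
          zc x₀ (fld T (fun a => χ * f a)) k y') y = pd k (V k) y := by
        intro k
        have e5 : (fun y' => √(gm g x₀ y').det * zc x₀ (fld T (fun a => χ * f a)) k y')
            =ᶠ[𝓝 y] V k := by
          filter_upwards [hO.mem_nhds hy] with y' hy'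
          rw [zc_fld]
          have e6 : pul n x₀ χ.1 y' = χ.1 ((extChartAt (𝓡 n) x₀).symm y') := by
            unfold pul
            rw [if_pos hy']
          simp only [hV, e6]
          ring
        unfold pd
        rw [e5.fderiv_eq]
      simp only [e4] at e2
      rw [e1, e3, ← e2]
      ring
    · have e1 : pul n x₀ D y = 0 := by
        unfold pul
        rw [if_neg hy]
      have e2 : ∀ k, pd k (V k) y = 0 := by
        intro k
        have e3 : V k =ᶠ[𝓝 y] fun _ => (0 : ℝ) := by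
          have e4 : y ∉ tsupport (pul n x₀ χ.1) := fun h' => hy (u3 h')
          filter_upwards [notMem_tsupport_iff_eventuallyEq.1 e4] with y' hy'
          simp only [hV, hy', Pi.zero_apply, zero_mul]
        unfold pd
        rw [e3.fderiv_eq, fderiv_fun_const]
        rfl
      simp only [e2, e1, Finset.sum_const_zero, zero_mul, mul_zero]
  rw [integral_congr_ae (Eventually.of_forall hpt), integral_const_mul, integral_finsetSum]
  · simp only [int_pd (hVS _) (hVC _), Finset.sum_const_zero, mul_zero]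
  · intro k _
    have hcont : Continuous (fun y => pd k (V k) y) :=
      ((hVS k).continuous_fderiv (by simp)).clm_apply continuous_const
    refine hcont.integrable_of_hasCompactSupport ?_
    exact (hVC k).fderiv_apply ℝ _

end Divt

open Divt in
theorem s_divt (h1 : S_DIVL) (h2 : S_TKF) (h3 : S_TKV) (h4 : S_TKP) (h5 : S_TKI) : S_DIVT := by
  intro n M _ _ _ _ _ _ _ hn g cov h N T F ok c μ hc hμ hd f
  obtain ⟨m, x, χ, η, hsum, -, hs, -, -⟩ := h4 n M
  have e1 : f = fun a => ∑ i, χ i * f a := by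
    funext a
    apply ext_evA
    intro p
    rw [map_sum]
    simp only [map_mul]
    rw [← Finset.sum_mul, hsum, one_mul]
  have e2 : dv F f = ∑ i, dv F (fun a => χ i * f a) := by
    conv_lhs => rw [e1]
    exact dv_sum Finset.univ (fun i a => χ i * f a)
  rw [e2]
  simp only [map_sum]
  rw [integral_finsetSum]
  · refine Finset.sum_eq_zero fun i _ => ?_
    exact loc_int h1 h2 h3 h5 n M hn g cov h N T F ok c μ hc hd (x i) (χ i) (hs i) f
  · intro i _
    exact int_smooth _

end Pool.Agent.H781.CM
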