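import Pool.Agent.H781.CM.GSpec
import Pool.Agent.H781.CM.Base

/-!
Job CG-25 (by helper357): the exterior derivative in the frame.
-/

set_option autoImplicit false
set_option synthInstance.maxHeartbeats 400000
set_option maxHeartbeats 4000000
set_option linter.unusedSectionVars false

open Bundle Manifold ContDiff VectorField MeasureTheory Filter
open scoped Topology

noncomputable section

namespace Pool.Agent.H781.CM

open Pool.Agent.H781.NG Pool.Agent.H821R2 Pool.Agent.H821R3 Pool.Agent.H893R5.HO
  Pool.Agent.H781.S22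

namespace Drd

/-! ### Combinatorics -/

section comb

variable {V : Type*} [AddCommGroup V] [Module ℝ V] {p : ℕ}

theorem swap_sign (A : V [⋀^Fin p]→ₗ[ℝ] ℝ) (v : Fin (p + 1) → V) (Z : V) {i k : Fin p}
    (hik : i ≤ k) :
    (-1 : ℝ) ^ ((k.succ : Fin (p + 1)) : ℕ) * A (Function.update (k.succ.removeNth v) i Z) =
      -((-1 : ℝ) ^ ((i.castSucc : Fin (p + 1)) : ℕ) *
        A (Function.update (i.castSucc.removeNth v) k Z)) := by
  have hne : (i.castSucc : Fin (p + 1)) ≠ k.succ := by
    intro h
    have h1 := congrArg Fin.val h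
    rw [Fin.val_castSucc, Fin.val_succ] at h1
    have h2 : (i : ℕ) ≤ k := hik
    omega
  set w : Fin (p + 1) → V := Function.update (Function.update v i.castSucc Z) k.succ Z with hw
  have hw' : w = Function.update (Function.update v k.succ Z) i.castSucc Z := by
    rw [hw, Function.update_comm hne]
  have e1 : w i.castSucc = w k.succ := by
    have h1 : w i.castSucc = Z := by
      rw [hw', Function.update_self]
    have h2 : w k.succ = Z := by
      rw [hw, Function.update_self]
    rw [h1, h2]
  have h3 := A.neg_one_pow_smul_map_removeNth_add_eq_zero_of_eq e1 hne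
  have h4 : k.succ.removeNth w = Function.update (k.succ.removeNth v) i Z := by
    rw [hw, Fin.removeNth_update]
    have h5 := Fin.removeNth_update_succAbove (α := fun _ => V) k.succ i Z v
    rw [Fin.succAbove_succ_of_le _ _ hik] at h5
    exact h5
  have h6 : i.castSucc.removeNth w = Function.update (i.castSucc.removeNth v) k Z := by
    rw [hw', Fin.removeNth_update]
    have h5 := Fin.removeNth_update_succAbove (α := fun _ => V) i.castSucc k Z v
    rw [Fin.succAbove_castSucc_of_le _ _ hik] at h5
    exact h5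
  rw [h4, h6] at h3
  have h7 : ∀ (m : ℕ) (r : ℝ), (-1 : ℤ) ^ m • r = (-1 : ℝ) ^ m * r := by
    intro m r
    rw [zsmul_eq_mul]
    push_cast
    rfl
  rw [h7, h7] at h3
  linarith

theorem comb (A : V [⋀^Fin p]→ₗ[ℝ] ℝ) (v : Fin (p + 1) → V)
    (B : Fin (p + 1) → Fin (p + 1) → V) :
    ∑ j : Fin (p + 1), (-1 : ℝ) ^ (j : ℕ) *
        ∑ k : Fin p, -(A (Function.update (j.removeNth v) k (B j (j.succAbove k)))) =
      ∑ j : Fin (p + 1), (-1 : ℝ) ^ (j : ℕ) *
        ∑ i : Fin p, if (i : ℕ) < (j : ℕ) then
          A (Function.update (j.removeNth v) i (B i.castSucc j - B j i.castSucc)) else 0 := by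
  -- the main cancellation
  have key : ∑ j : Fin (p + 1), ∑ i : Fin p, (if (i : ℕ) < (j : ℕ) then (-1 : ℝ) ^ (j : ℕ) *
        A (Function.update (j.removeNth v) i (B i.castSucc j)) else 0) =
      ∑ j : Fin (p + 1), ∑ k : Fin p, (if (k : ℕ) < (j : ℕ) then 0 else -((-1 : ℝ) ^ (j : ℕ) *
        A (Function.update (j.removeNth v) k (B j k.succ)))) := by
    rw [Fin.sum_univ_succ, Fin.sum_univ_castSucc (n := p)]
    have z1 : ∑ i : Fin p, (if (i : ℕ) < ((0 : Fin (p + 1)) : ℕ) then
        (-1 : ℝ) ^ ((0 : Fin (p + 1)) : ℕ) *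
        A (Function.update ((0 : Fin (p + 1)).removeNth v) i (B i.castSucc 0)) else 0) = 0 := by
      refine Finset.sum_eq_zero fun i _ => if_neg ?_
      rw [Fin.val_zero]
      omega
    have z2 : ∑ k : Fin p, (if (k : ℕ) < ((Fin.last p : Fin (p + 1)) : ℕ) then 0 else
        -((-1 : ℝ) ^ ((Fin.last p : Fin (p + 1)) : ℕ) *
        A (Function.update ((Fin.last p).removeNth v) k (B (Fin.last p) k.succ)))) = 0 := by
      refine Finset.sum_eq_zero fun k _ => if_pos ?_
      rw [Fin.val_last]
      exact k.2
    rw [z1, z2, zero_add, add_zero, Finset.sum_comm]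
    refine Finset.sum_congr rfl fun i _ => Finset.sum_congr rfl fun k _ => ?_
    by_cases hik : i ≤ k
    · have h1 : (i : ℕ) < ((k.succ : Fin (p + 1)) : ℕ) := by
        rw [Fin.val_succ]
        have : (i : ℕ) ≤ k := hik
        omega
      have h2 : ¬ (k : ℕ) < ((i.castSucc : Fin (p + 1)) : ℕ) := by
        rw [Fin.val_castSucc]
        have : (i : ℕ) ≤ k := hik
        omega
      rw [if_pos h1, if_neg h2, swap_sign A v _ hik]
    · have h0 : (k : ℕ) < i := not_le.1 hik
      have h1 : ¬ (i : ℕ) < ((k.succ : Fin (p + 1)) : ℕ) := by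
        rw [Fin.val_succ]
        omega
      have h2 : (k : ℕ) < ((i.castSucc : Fin (p + 1)) : ℕ) := by
        rw [Fin.val_castSucc]
        omega
      rw [if_neg h1, if_pos h2]
  have hR : ∀ j : Fin (p + 1), (-1 : ℝ) ^ (j : ℕ) *
        (∑ i : Fin p, if (i : ℕ) < (j : ℕ) then
          A (Function.update (j.removeNth v) i (B i.castSucc j - B j i.castSucc)) else 0) =
      ∑ i : Fin p, (if (i : ℕ) < (j : ℕ) then (-1 : ℝ) ^ (j : ℕ) *
        A (Function.update (j.removeNth v) i (B i.castSucc j)) else 0) +
      ∑ i : Fin p, (if (i : ℕ) < (j : ℕ) then -((-1 : ℝ) ^ (j : ℕ) *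
        A (Function.update (j.removeNth v) i (B j i.castSucc))) else 0) := by
    intro j
    rw [Finset.mul_sum, ← Finset.sum_add_distrib]
    refine Finset.sum_congr rfl fun i _ => ?_
    split_ifs with hij
    · rw [A.map_update_sub]
      ring
    · ring
  have hL : ∀ j : Fin (p + 1), (-1 : ℝ) ^ (j : ℕ) *
        (∑ k : Fin p, -(A (Function.update (j.removeNth v) k (B j (j.succAbove k))))) =
      ∑ k : Fin p, (if (k : ℕ) < (j : ℕ) then 0 else -((-1 : ℝ) ^ (j : ℕ) *
        A (Function.update (j.removeNth v) k (B j k.succ)))) +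
      ∑ i : Fin p, (if (i : ℕ) < (j : ℕ) then -((-1 : ℝ) ^ (j : ℕ) *
        A (Function.update (j.removeNth v) i (B j i.castSucc))) else 0) := by
    intro j
    rw [Finset.mul_sum, ← Finset.sum_add_distrib]
    refine Finset.sum_congr rfl fun k _ => ?_
    split_ifs with hkj
    · have h1 : j.succAbove k = k.castSucc := Fin.succAbove_of_castSucc_lt _ _ hkj
      rw [h1]
      ring
    · have h1 : j.succAbove k = k.succ := by
        refine Fin.succAbove_of_le_castSucc _ _ ?_
        exact not_lt.1 hkj
      rw [h1]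
      ring
  rw [Finset.sum_congr rfl fun j _ => hL j, Finset.sum_congr rfl fun j _ => hR j,
    Finset.sum_add_distrib, Finset.sum_add_distrib, key]

end comb

/-! ### Iterated contractions with coefficients in an algebra -/

section alg

variable {N : ℕ} {A : Type*} [CommRing A] [Algebra ℝ A]

/-- iterated contraction with coefficients in `A` -/
def phiA : (p : ℕ) → (Fin p → Fin N → A) → Fk N A → A
  | 0, _, u => u ∅
  | p + 1, v, u => phiA p (Fin.tail v) (∑ a, v 0 a • an a u)

theorem phiA_add (p : ℕ) (v : Fin p → Fin N → A) (u w : Fk N A) :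
    phiA p v (u + w) = phiA p v u + phiA p v w := by
  induction p generalizing u w with
  | zero => rfl
  | succ p ih =>
    have h : (∑ a, v 0 a • an a (u + w)) =
        (∑ a, v 0 a • an a u) + ∑ a, v 0 a • an a w := by
      rw [← Finset.sum_add_distrib]
      refine Finset.sum_congr rfl fun a _ => ?_
      rw [map_add, smul_add]
    change phiA p (Fin.tail v) (∑ a, v 0 a • an a (u + w)) = _
    rw [h, ih]
    rfl

theorem der_an (δ : Derivation ℝ A A) (a : Fin N) (u : Fk N A) :
    (fun S => δ (an a u S)) = an a (fun S => δ (u S)) := by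
  funext S
  rw [an_apply, an_apply]
  split_ifs
  · exact map_zero δ
  · rw [δ.leibniz, δ.map_intCast, smul_zero, add_zero, smul_eq_mul]

theorem leib (δ : Derivation ℝ A A) (p : ℕ) (v : Fin p → Fin N → A) (u : Fk N A) :
    δ (phiA p v u) = phiA p v (fun S => δ (u S)) +
      ∑ i, phiA p (Function.update v i (fun a => δ (v i a))) u := by
  induction p generalizing u with
  | zero =>
    rw [Finset.univ_eq_empty, Finset.sum_empty, add_zero]
    rfl
  | succ p ih =>
    have h1 : (fun S => δ ((∑ a, v 0 a • an a u) S)) =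
        (∑ a, v 0 a • an a (fun S => δ (u S))) + ∑ a, δ (v 0 a) • an a u := by
      funext S
      rw [Finset.sum_apply, map_sum, Pi.add_apply, Finset.sum_apply, Finset.sum_apply,
        ← Finset.sum_add_distrib]
      refine Finset.sum_congr rfl fun a _ => ?_
      rw [Pi.smul_apply, smul_eq_mul, δ.leibniz, Pi.smul_apply, Pi.smul_apply, ← der_an]
      simp only [smul_eq_mul]
      ring
    change δ (phiA p (Fin.tail v) (∑ a, v 0 a • an a u)) = _
    rw [ih (Fin.tail v) (∑ a, v 0 a • an a u), h1, phiA_add, Fin.sum_univ_succ]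
    have h2 : phiA (p + 1) (Function.update v 0 (fun a => δ (v 0 a))) u =
        phiA p (Fin.tail v) (∑ a, δ (v 0 a) • an a u) := by
      change phiA p (Fin.tail (Function.update v 0 (fun a => δ (v 0 a))))
        (∑ a, (Function.update v 0 (fun a => δ (v 0 a))) 0 a • an a u) = _
      rw [Fin.tail_update_zero, Function.update_self]
    have h3 : ∀ i : Fin p, phiA (p + 1) (Function.update v i.succ (fun a => δ (v i.succ a))) u =
        phiA p (Function.update (Fin.tail v) i (fun a => δ (Fin.tail v i a)))
          (∑ a, v 0 a • an a u) := by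
      intro i
      change phiA p (Fin.tail (Function.update v i.succ (fun a => δ (v i.succ a))))
        (∑ a, (Function.update v i.succ (fun a => δ (v i.succ a))) 0 a • an a u) = _
      rw [Fin.tail_update_succ, Function.update_of_ne (Fin.succ_ne_zero i).symm]
      rfl
    have h4 : phiA (p + 1) v (fun S => δ (u S)) =
        phiA p (Fin.tail v) (∑ a, v 0 a • an a (fun S => δ (u S))) := rfl
    rw [h2, h4, Finset.sum_congr rfl fun i _ => h3 i]
    ring

/-- values at a point -/
def mp (f : A →ₐ[ℝ] ℝ) (u : Fk N A) : Fk N ℝ := fun S => f (u S)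

theorem mp_add (f : A →ₐ[ℝ] ℝ) (u w : Fk N A) : mp f (u + w) = mp f u + mp f w := by
  funext S
  exact map_add f _ _

theorem mp_smul (f : A →ₐ[ℝ] ℝ) (c : A) (u : Fk N A) : mp f (c • u) = f c • mp f u := by
  funext S
  exact map_mul f _ _

theorem mp_sum {κ : Type*} (f : A →ₐ[ℝ] ℝ) (s : Finset κ) (u : κ → Fk N A) :
    mp f (∑ i ∈ s, u i) = ∑ i ∈ s, mp f (u i) := by
  funext S
  rw [Finset.sum_apply]
  change f ((∑ i ∈ s, u i) S) = _
  rw [Finset.sum_apply, map_sum]
  rfl

theorem mp_an (f : A →ₐ[ℝ] ℝ) (i : Fin N) (u : Fk N A) : mp f (an i u) = an i (mp f u) := by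
  funext S
  simp only [mp, an_apply]
  split_ifs
  · exact map_zero _
  · rw [map_mul, map_intCast]

theorem mp_cr (f : A →ₐ[ℝ] ℝ) (i : Fin N) (u : Fk N A) : mp f (cr i u) = cr i (mp f u) := by
  funext S
  simp only [mp, cr_apply]
  split_ifs
  · rw [map_mul, map_intCast]
  · exact map_zero _

theorem map_phiA (f : A →ₐ[ℝ] ℝ) (p : ℕ) (v : Fin p → Fin N → A) (u : Fk N A) :
    f (phiA p v u) = phi p (fun i a => f (v i a)) (mp f u) := by
  induction p generalizing u with
  | zero => rfl
  | succ p ih =>
    change f (phiA p (Fin.tail v) (∑ a, v 0 a • an a u)) = _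
    rw [ih, mp_sum]
    have h : ∀ a, mp f (v 0 a • an a u) = f (v 0 a) • an a (mp f u) := by
      intro a
      rw [mp_smul, mp_an]
    rw [Finset.sum_congr rfl fun a _ => h a]
    rfl

/-- `P (δP) P = 0` for an idempotent matrix `P` -/
theorem pdp (δ : Derivation ℝ A A) (P : Fin N → Fin N → A)
    (hP : ∀ a c, ∑ b, P a b * P b c = P a c) (a c : Fin N) :
    ∑ d, ∑ c', P a d * δ (P d c') * P c' c = 0 := by
  set Q : Matrix (Fin N) (Fin N) A := Matrix.of P with hQ
  set R : Matrix (Fin N) (Fin N) A := Matrix.of fun i j => δ (P i j) with hR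
  have h1 : Q * Q = Q := by
    ext i j
    rw [Matrix.mul_apply]
    exact hP i j
  have h2 : R * Q + Q * R = R := by
    ext i j
    rw [Matrix.add_apply, Matrix.mul_apply, Matrix.mul_apply]
    change ∑ b, δ (P i b) * P b j + ∑ b, P i b * δ (P b j) = δ (P i j)
    rw [← hP i j, map_sum, ← Finset.sum_add_distrib]
    refine Finset.sum_congr rfl fun b _ => ?_
    rw [δ.leibniz, smul_eq_mul, smul_eq_mul]
    ring
  have h3 : Q * R * Q = 0 := by
    have h4 : Q * R * Q = Q * R * Q + Q * R * Q := by
      calc Q * R * Q = Q * (R * Q + Q * R) * Q := by rw [h2]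
        _ = Q * R * (Q * Q) + (Q * Q) * R * Q := by noncomm_ring
        _ = Q * R * Q + Q * R * Q := by rw [h1]
    exact left_eq_add.1 h4
  have h5 := congrFun (congrFun h3 a) c
  rw [Matrix.mul_assoc, Matrix.mul_apply] at h5
  refine Eq.trans ?_ h5
  refine Finset.sum_congr rfl fun d _ => ?_
  rw [Matrix.mul_apply, Finset.mul_sum]
  refine Finset.sum_congr rfl fun c' _ => ?_
  change P a d * δ (P d c') * P c' c = P a d * (δ (P d c') * P c' c)
  ring

end alg

/-! ### Geometry -/

section geo

variable {n : ℕ} {M : Type} [TopologicalSpace M] [ChartedSpace (EU n) M] [IsManifold (𝓡 n) ∞ M]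
  {g : Met n M} {cov : Cov n M} {N : ℕ}

/-- components of a tangent vector -/
def co (T : PF g N) (x : M) (v : TangentSpace (𝓡 n) x) : Fin N → ℝ := fun a => g.inner x v (T.X a x)

theorem co_sub (T : PF g N) (x : M) (v w : TangentSpace (𝓡 n) x) :
    co T x (v - w) = co T x v - co T x w := by
  funext a
  change g.inner x (v - w) (T.X a x) = g.inner x v (T.X a x) - g.inner x w (T.X a x)
  rw [map_sub]
  rfl

/-- component functions of a smooth vector field -/
def cS (T : PF g N) {V : VF n M} (hV : SmV V) : Fin N → SA n M :=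
  fun a => ⟨gi g V (T.X a), gi_smooth hV (T.hX a)⟩

theorem ev_cS (T : PF g N) {V : VF n M} (hV : SmV V) (x : M) (a : Fin N) :
    evA x (cS T hV a) = co T x (V x) a := rfl

/-- the inner product in components -/
theorem co_inner (T : PF g N) (x : M) (v w : TangentSpace (𝓡 n) x) :
    ∑ c, co T x v c * co T x w c = g.inner x v w := by
  have h := T.par x w
  have h2 : g.inner x v (∑ c, g.inner x w (T.X c x) • T.X c x) = g.inner x v w := by rw [h]
  rw [← h2, map_sum]
  refine Finset.sum_congr rfl fun c _ => ?_
  rw [map_smul, smul_eq_mul]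
  change g.inner x v (T.X c x) * g.inner x w (T.X c x) = _
  ring

/-- expansion of the derivative in the frame -/
theorem der_frame (T : PF g N) {Y : VF n M} (hY : SmV Y) (f : SA n M) (x : M) :
    evA x (derA hY f) = ∑ b, co T x (Y x) b * evA x (derA (T.hX b) f) := by
  rw [ev_derA]
  have h := T.par x (Y x)
  calc mvfderiv (𝓡 n) f.1 x (Y x)
      = mvfderiv (𝓡 n) f.1 x (∑ b, g.inner x (Y x) (T.X b x) • T.X b x) := by rw [h]
    _ = ∑ b, co T x (Y x) b * evA x (derA (T.hX b) f) := by
        rw [map_sum]
        refine Finset.sum_congr rfl fun b _ => ?_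
        rw [map_smul, smul_eq_mul]
        rfl

/-- derivative of the components -/
theorem der_comp (h : IsLeviCivita g cov) (T : PF g N) {Y V : VF n M} (hY : SmV Y) (hV : SmV V)
    (x : M) (a : Fin N) : evA x (derA hY (cS T hV a)) =
      co T x (cov V x (Y x)) a + g.inner x (V x) (cov (T.X a) x (Y x)) := by
  rw [ev_derA]
  exact h.metric hY hV (T.hX a) x

/-- the connection coefficients applied to the components of a tangent vector -/
theorem gam_comp {h : IsLeviCivita g cov} {T : PF g N} {F : Fr N (SA n M)} (hF : FrOK h T F)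
    (x : M) (y v : TangentSpace (𝓡 n) x) (a : Fin N) :
    ∑ c, (∑ b, co T x y b * evA x (F.Γ b a c)) * co T x v c =
      g.inner x v (cov (T.X a) x y) := by
  have e1 : ∀ b c, evA x (F.Γ b a c) = co T x (cov (T.X a) x (T.X b x)) c -
      ∑ d, evA x (Pm T a d) * evA x (derA (T.hX b) (Pm T d c)) := by
    intro b c
    rw [hF.G, Gm, map_sub, map_sum]
    congr 1
  -- the projection
  have e2 : ∀ c, co T x v c = ∑ c', evA x (Pm T c c') * co T x v c' := by
    intro c
    have h2 := co_inner T x (T.X c x) v
    have h3 : g.inner x (T.X c x) v = co T x v c := g.symm x _ _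
    rw [← h3, ← h2]
    rfl
  have e3 : ∀ b, ∑ c, (∑ d, evA x (Pm T a d) * evA x (derA (T.hX b) (Pm T d c))) *
      co T x v c = 0 := by
    intro b
    have h4 : ∀ c', ∑ d, ∑ c, evA x (Pm T a d) * evA x (derA (T.hX b) (Pm T d c)) *
        evA x (Pm T c c') = 0 := by
      intro c'
      have h5 := congrArg (evA x) (pdp (derA (T.hX b)) (Pm T) hF.idem a c')
      rw [map_sum, map_zero] at h5
      refine Eq.trans (Finset.sum_congr rfl fun d _ => ?_) h5
      rw [map_sum]
      refine Finset.sum_congr rfl fun c _ => ?_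
      rw [map_mul, map_mul]
    calc ∑ c, (∑ d, evA x (Pm T a d) * evA x (derA (T.hX b) (Pm T d c))) * co T x v c
        = ∑ c, ∑ d, ∑ c', evA x (Pm T a d) * evA x (derA (T.hX b) (Pm T d c)) *
            evA x (Pm T c c') * co T x v c' := by
          refine Finset.sum_congr rfl fun c _ => ?_
          rw [Finset.sum_mul]
          refine Finset.sum_congr rfl fun d _ => ?_
          conv_lhs => rw [e2 c]
          rw [Finset.mul_sum]
          refine Finset.sum_congr rfl fun c' _ => ?_
          ring
      _ = ∑ c', (∑ d, ∑ c, evA x (Pm T a d) * evA x (derA (T.hX b) (Pm T d c)) *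
            evA x (Pm T c c')) * co T x v c' := by
          have h6 : ∀ c', (∑ d, ∑ c, evA x (Pm T a d) * evA x (derA (T.hX b) (Pm T d c)) *
            evA x (Pm T c c')) * co T x v c' = ∑ c, ∑ d, evA x (Pm T a d) *
            evA x (derA (T.hX b) (Pm T d c)) * evA x (Pm T c c') * co T x v c' := by
            intro c'
            rw [Finset.sum_comm, Finset.sum_mul]
            refine Finset.sum_congr rfl fun c _ => ?_
            rw [Finset.sum_mul]
          rw [Finset.sum_congr rfl fun c' _ => h6 c']
          rw [Finset.sum_comm]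
          rw [Finset.sum_comm (s := Finset.univ) (t := Finset.univ) (f := fun c' c => ∑ d,
            evA x (Pm T a d) * evA x (derA (T.hX b) (Pm T d c)) * evA x (Pm T c c') *
              co T x v c')]
          rw [Finset.sum_comm]
          refine Finset.sum_congr rfl fun c _ => ?_
          rw [Finset.sum_comm]
      _ = 0 := by
          refine Finset.sum_eq_zero fun c' _ => ?_
          rw [h4 c', zero_mul]
  have e4 : g.inner x v (cov (T.X a) x y) =
      ∑ b, co T x y b * ∑ c, co T x (cov (T.X a) x (T.X b x)) c * co T x v c := by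
    have h7 := T.par x y
    calc g.inner x v (cov (T.X a) x y)
        = g.inner x v (cov (T.X a) x (∑ b, g.inner x y (T.X b x) • T.X b x)) := by rw [h7]
      _ = ∑ b, co T x y b * g.inner x (cov (T.X a) x (T.X b x)) v := by
          rw [map_sum, map_sum]
          refine Finset.sum_congr rfl fun b _ => ?_
          rw [map_smul, map_smul, smul_eq_mul, g.symm x v]
          rfl
      _ = _ := by
          refine Finset.sum_congr rfl fun b _ => ?_
          rw [co_inner]
  rw [e4]
  calc ∑ c, (∑ b, co T x y b * evA x (F.Γ b a c)) * co T x v c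
      = ∑ b, co T x y b * ∑ c, evA x (F.Γ b a c) * co T x v c := by
        have h8 : ∀ c, (∑ b, co T x y b * evA x (F.Γ b a c)) * co T x v c =
            ∑ b, co T x y b * (evA x (F.Γ b a c) * co T x v c) := by
          intro c
          rw [Finset.sum_mul]
          refine Finset.sum_congr rfl fun b _ => ?_
          ring
        rw [Finset.sum_congr rfl fun c _ => h8 c, Finset.sum_comm]
        refine Finset.sum_congr rfl fun b _ => ?_
        rw [Finset.mul_sum]
    _ = _ := by
        refine Finset.sum_congr rfl fun b _ => ?_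
        congr 1
        have h9 : ∀ c, evA x (F.Γ b a c) * co T x v c =
            co T x (cov (T.X a) x (T.X b x)) c * co T x v c -
            (∑ d, evA x (Pm T a d) * evA x (derA (T.hX b) (Pm T d c))) * co T x v c := by
          intro c
          rw [e1 b c]
          ring
        rw [Finset.sum_congr rfl fun c _ => h9 c, Finset.sum_sub_distrib, e3 b, sub_zero]

/-- **covariant derivative and iterated contraction** -/
theorem core (hPHI : S_PHI) {h : IsLeviCivita g cov} {T : PF g N} {F : Fr N (SA n M)}
    (hF : FrOK h T F) {p : ℕ} {Y : VF n M} (hY : SmV Y) (V : Fin p → VF n M)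
    (hV : ∀ i, SmV (V i)) (u : Fk N (SA n M)) (x : M) :
    phi p (fun i => co T x (V i x)) (∑ b, co T x (Y x) b • mp (evA x) (nab F b u)) =
      der Y (phiA p (fun i => cS T (hV i)) u).1 x -
      ∑ i, phi p (Function.update (fun i => co T x (V i x)) i (co T x (cov (V i) x (Y x))))
        (mp (evA x) u) := by
  obtain ⟨P1, P2, _, _, _, P6⟩ := hPHI N p
  obtain ⟨A, hA⟩ := P2 (mp (evA x) u)
  set v : Fin p → Fin N → ℝ := fun i => co T x (V i x) with hv
  -- the derivative
  have d1 : der Y (phiA p (fun i => cS T (hV i)) u).1 x =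
      phi p v (mp (evA x) (fun S => derA hY (u S))) +
      ∑ i, phi p (Function.update v i (co T x (cov (V i) x (Y x)) +
        fun a => g.inner x (V i x) (cov (T.X a) x (Y x)))) (mp (evA x) u) := by
    have h1 : der Y (phiA p (fun i => cS T (hV i)) u).1 x =
        evA x (derA hY (phiA p (fun i => cS T (hV i)) u)) := rfl
    rw [h1, leib, map_add, map_sum, map_phiA]
    congr 1
    refine Finset.sum_congr rfl fun i _ => ?_
    rw [map_phiA]
    congr 1
    funext k a
    by_cases hk : k = i
    · subst hk
      rw [Function.update_self, Function.update_self, der_comp h T hY (hV k) x a]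
      rfl
    · rw [Function.update_of_ne hk, Function.update_of_ne hk]
      rfl
  -- the connection
  set Xm : Fin N → Fin N → ℝ := fun a c => ∑ b, co T x (Y x) b * evA x (F.Γ b a c) with hXm
  have hanti : ∀ a c, Xm a c = - Xm c a := by
    intro a c
    rw [hXm]
    simp only
    rw [← Finset.sum_neg_distrib]
    refine Finset.sum_congr rfl fun b _ => ?_
    rw [F.anti b a c, map_neg]
    ring
  have d2 := P6 (mp (evA x) u) Xm v hanti
  have d3 : ∀ i, (fun b => ∑ c, Xm b c * v i c) =
      fun a => g.inner x (V i x) (cov (T.X a) x (Y x)) := by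
    intro i
    funext a
    exact gam_comp hF x (Y x) (V i x) a
  have d4 : (∑ b, co T x (Y x) b • mp (evA x) (nab F b u)) =
      mp (evA x) (fun S => derA hY (u S)) +
      ∑ b, ∑ c, Xm b c • cr c (an b (mp (evA x) u)) := by
    have h2 : ∀ b, mp (evA x) (nab F b u) = mp (evA x) (fun S => F.e b (u S)) +
        ∑ a, ∑ c, evA x (F.Γ b a c) • cr c (an a (mp (evA x) u)) := by
      intro b
      rw [nab, mp_add]
      congr 1
      rw [gam, mp_sum]
      refine Finset.sum_congr rfl fun a _ => ?_
      rw [mp_sum]
      refine Finset.sum_congr rfl fun c _ => ?_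
      rw [mp_smul, mp_cr, mp_an]
    have h3 : ∀ b, co T x (Y x) b • mp (evA x) (nab F b u) =
        co T x (Y x) b • mp (evA x) (fun S => F.e b (u S)) +
        ∑ a, ∑ c, (co T x (Y x) b * evA x (F.Γ b a c)) • cr c (an a (mp (evA x) u)) := by
      intro b
      rw [h2 b, smul_add]
      congr 1
      rw [Finset.smul_sum]
      refine Finset.sum_congr rfl fun a _ => ?_
      rw [Finset.smul_sum]
      refine Finset.sum_congr rfl fun c _ => ?_
      rw [smul_smul]
    rw [Finset.sum_congr rfl fun b _ => h3 b, Finset.sum_add_distrib]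
    congr 1
    · funext S
      rw [Finset.sum_apply]
      change ∑ b, co T x (Y x) b * evA x (F.e b (u S)) = evA x (derA hY (u S))
      rw [der_frame T hY]
      refine Finset.sum_congr rfl fun b _ => ?_
      rw [hF.e]
    · rw [Finset.sum_comm]
      refine Finset.sum_congr rfl fun a _ => ?_
      rw [Finset.sum_comm]
      refine Finset.sum_congr rfl fun c _ => ?_
      rw [hXm]
      simp only
      rw [Finset.sum_smul]
  rw [d4, (P1 v).map_add, d2, d1, add_sub_assoc, ← Finset.sum_sub_distrib]
  congr 1
  refine Finset.sum_congr rfl fun i _ => ?_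
  rw [d3 i, ← hA, ← hA, ← hA, A.map_update_add]
  ring

end geo

end Drd

open Drd in
theorem s_drd (h : S_PHI) : S_DRD := by
  intro n M _ _ _ _ _ _ _ N D hn p u α β hHor hDeg hα hβ Y hY x
  obtain ⟨_, P2, _, _, _, _⟩ := h N p
  obtain ⟨Q1, _, _, _, _, _⟩ := h N (p + 1)
  obtain ⟨P1, _, _, _, P5, _⟩ := h N p
  set ux : Fk N ℝ := mp (evA x) (show Fk N (SA n M) from u) with hux
  obtain ⟨A, hA⟩ := P2 ux
  set v : Fin (p + 1) → Fin N → ℝ := fun i => co D.T x (Y i x) with hv
  set B : Fin (p + 1) → Fin (p + 1) → Fin N → ℝ :=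
    fun i j => co D.T x (D.cov (Y j) x (Y i x)) with hB
  -- the left-hand side
  have l1 : β x (fun i => Y i x) = phi (p + 1) v
      (∑ b, cr b (mp (evA x) (nab D.F b (show Fk N (SA n M) from u)))) := by
    rw [hβ]
    have l2 : (fun S => evA x (dd D.F (show Fk N (SA n M) from u) S)) =
        ∑ b, cr b (mp (evA x) (nab D.F b (show Fk N (SA n M) from u))) := by
      change mp (evA x) (dd D.F (show Fk N (SA n M) from u)) = _
      rw [dd, mp_sum]
      refine Finset.sum_congr rfl fun b _ => ?_
      rw [mp_cr]
    exact congrArg (phi (p + 1) v) l2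
  have l3 : ∀ (w : Fk N ℝ) (b : Fin N), phi (p + 1) v (cr b w) =
      ∑ i : Fin (p + 1), (-1 : ℝ) ^ (i : ℕ) * (v i b * phi p (i.removeNth v) w) := by
    intro w b
    have h1 := P5 w (Pi.single b 1) v
    have h2 : ∑ a, (Pi.single b 1 : Fin N → ℝ) a • cr a w = cr b w := by
      rw [Finset.sum_eq_single b]
      · rw [Pi.single_eq_same, one_smul]
      · intro a _ hab
        rw [Pi.single_eq_of_ne hab, zero_smul]
      · intro hb
        exact absurd (Finset.mem_univ b) hb
    rw [h2] at h1
    rw [h1]
    refine Finset.sum_congr rfl fun i _ => ?_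
    have h3 : ∑ a, v i a * (Pi.single b 1 : Fin N → ℝ) a = v i b := by
      rw [Finset.sum_eq_single b]
      · rw [Pi.single_eq_same, mul_one]
      · intro a _ hab
        rw [Pi.single_eq_of_ne hab, mul_zero]
      · intro hb
        exact absurd (Finset.mem_univ b) hb
    rw [h3]
    ring
  have l4 : β x (fun i => Y i x) = ∑ j : Fin (p + 1), (-1 : ℝ) ^ (j : ℕ) *
      phi p (j.removeNth v) (∑ b, v j b •
        mp (evA x) (nab D.F b (show Fk N (SA n M) from u))) := by
    rw [l1]
    have l5 : phi (p + 1) v
      (∑ b, cr b (mp (evA x) (nab D.F b (show Fk N (SA n M) from u)))) =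
      ∑ b, phi (p + 1) v (cr b (mp (evA x) (nab D.F b (show Fk N (SA n M) from u)))) :=
      map_sum ((Q1 v).mk' _) _ _
    rw [l5, Finset.sum_congr rfl fun b _ => l3 _ b, Finset.sum_comm]
    refine Finset.sum_congr rfl fun j _ => ?_
    have l6 : phi p (j.removeNth v) (∑ b, v j b •
        mp (evA x) (nab D.F b (show Fk N (SA n M) from u))) =
        ∑ b, v j b * phi p (j.removeNth v)
          (mp (evA x) (nab D.F b (show Fk N (SA n M) from u))) := by
      have l7 := map_sum ((P1 (j.removeNth v)).mk' _) (fun b => v j b •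
        mp (evA x) (nab D.F b (show Fk N (SA n M) from u))) Finset.univ
      refine Eq.trans l7 (Finset.sum_congr rfl fun b _ => ?_)
      exact (P1 (j.removeNth v)).map_smul _ _
    rw [l6, Finset.mul_sum]
  -- the core formula
  have l8 : ∀ j : Fin (p + 1), phi p (j.removeNth v) (∑ b, v j b •
        mp (evA x) (nab D.F b (show Fk N (SA n M) from u))) =
      der (Y j) (fun y => α y (fun k => j.removeNth Y k y)) x +
      ∑ k : Fin p, -(A (Function.update (j.removeNth v) k (B j (j.succAbove k)))) := by
    intro j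
    have h1 := core h D.ok (hY j) (fun k => Y (j.succAbove k)) (fun k => hY _)
      (show Fk N (SA n M) from u) x
    have h2 : (fun y => α y (fun k => j.removeNth Y k y)) =
        (phiA p (fun i => cS D.T (hY (j.succAbove i))) (show Fk N (SA n M) from u)).1 := by
      funext y
      rw [hα]
      exact (map_phiA (evA y) p (fun i => cS D.T (hY (j.succAbove i)))
        (show Fk N (SA n M) from u)).symm
    rw [h2, Finset.sum_neg_distrib, ← sub_eq_add_neg]
    refine Eq.trans h1 ?_
    congr 1
    refine Finset.sum_congr rfl fun k _ => ?_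
    exact (hA _).symm
  -- the brackets
  have l9 : ∀ (j : Fin (p + 1)) (i : Fin p), α x (Function.update (fun k => j.removeNth Y k x) i
        (mlieBracket (𝓡 n) (Y i.castSucc) (Y j) x)) =
      A (Function.update (j.removeNth v) i (B i.castSucc j - B j i.castSucc)) := by
    intro j i
    rw [hα, hA]
    have h3 : B i.castSucc j - B j i.castSucc =
        co D.T x (mlieBracket (𝓡 n) (Y i.castSucc) (Y j) x) := by
      rw [← D.lc.torsionFree (hY i.castSucc) (hY j) x, co_sub]
    rw [h3]
    change phi p _ ux = phi p _ ux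
    congr 1
    funext k a
    by_cases hk : k = i
    · subst hk
      rw [Function.update_self, Function.update_self]
      rfl
    · rw [Function.update_of_ne hk, Function.update_of_ne hk]
      rfl
  rw [l4]
  unfold extD
  have l10 := comb A v B
  have l11 : ∀ j : Fin (p + 1), (-1 : ℝ) ^ (j : ℕ) * phi p (j.removeNth v) (∑ b, v j b •
        mp (evA x) (nab D.F b (show Fk N (SA n M) from u))) =
      (-1 : ℝ) ^ (j : ℕ) * der (Y j) (fun y => α y (fun k => j.removeNth Y k y)) x +
      (-1 : ℝ) ^ (j : ℕ) *
        ∑ k : Fin p, -(A (Function.update (j.removeNth v) k (B j (j.succAbove k)))) := by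
    intro j
    rw [l8 j]
    ring
  rw [Finset.sum_congr rfl fun j _ => l11 j, Finset.sum_add_distrib, l10,
    ← Finset.sum_add_distrib]
  refine Finset.sum_congr rfl fun j _ => ?_
  rw [mul_add]
  congr 2
  refine Finset.sum_congr rfl fun i _ => ?_
  rw [l9 j i]

end Pool.Agent.H781.CM
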