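import Pool.Agent.H781.CM.GSpec
import Pool.Agent.H781.CM.Base

/-!
Differential forms as horizontal elements of the Fock space (`s_drf`).
-/

set_option autoImplicit false
set_option synthInstance.maxHeartbeats 400000
set_option maxHeartbeats 4000000
set_option linter.unusedSectionVars false

open Bundle Manifold ContDiff VectorField MeasureTheory Filter
open scoped Topology

noncomputable section

namespace Pool.Agent.H781.CM

open Pool.Agent.H781.NG Pool.Agent.H821R2 Pool.Agent.H821R3 Pool.Agent.H893R5.HO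
  Pool.Agent.H781.S22

namespace Drf

/-! ### algebra at a point -/

section point

variable {N : ℕ} {A : Type*} [CommRing A]

/-- contraction with `w` -/
def ct (w : Fin N → A) (u : Fk N A) : Fk N A := ∑ a, w a • an a u

theorem an_ct (c : Fin N) (w : Fin N → A) (u : Fk N A) : an c (ct w u) = - ct w (an c u) := by
  unfold ct
  rw [map_sum, ← Finset.sum_neg_distrib]
  refine Finset.sum_congr rfl fun a _ => ?_
  rw [LinearMap.map_smul, an_an, smul_neg]

theorem ct_sum_smul {κ : Type*} (s : Finset κ) (w : Fin N → A) (r : κ → A) (f : κ → Fk N A) :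
    ct w (∑ i ∈ s, r i • f i) = ∑ i ∈ s, r i • ct w (f i) := by
  unfold ct
  simp only [map_sum, LinearMap.map_smul, Finset.smul_sum]
  rw [Finset.sum_comm]
  refine Finset.sum_congr rfl fun i _ => Finset.sum_congr rfl fun a _ => ?_
  rw [smul_comm]

/-- horizontal with respect to `P` -/
def Hr (P : Fin N → Fin N → A) (u : Fk N A) : Prop := ∀ c, an c u = ∑ a, P c a • an a u

theorem Hr.ct {P : Fin N → Fin N → A} {u : Fk N A} (h : Hr P u) (w : Fin N → A) :
    Hr P (ct w u) := by
  intro c
  rw [an_ct, h c, ct_sum_smul, ← Finset.sum_neg_distrib]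
  refine Finset.sum_congr rfl fun a _ => ?_
  rw [an_ct, smul_neg]

theorem Hr.ct_eq {P : Fin N → Fin N → A} {u : Fk N A} (h : Hr P u) (w : Fin N → A) :
    Drf.ct w u = Drf.ct (fun a => ∑ c, w c * P c a) u := by
  unfold Drf.ct
  calc ∑ c, w c • an c u = ∑ c, w c • ∑ a, P c a • an a u :=
        Finset.sum_congr rfl fun c _ => by rw [← h c]
    _ = ∑ c, ∑ a, (w c * P c a) • an a u := by
        refine Finset.sum_congr rfl fun c _ => ?_
        rw [Finset.smul_sum]
        exact Finset.sum_congr rfl fun a _ => by rw [smul_smul]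
    _ = ∑ a, ∑ c, (w c * P c a) • an a u := Finset.sum_comm
    _ = ∑ a, (∑ c, w c * P c a) • an a u := by
        refine Finset.sum_congr rfl fun a _ => ?_
        rw [Finset.sum_smul]

theorem phi_succ (p : ℕ) (v : Fin (p + 1) → Fin N → ℝ) (u : Fk N ℝ) :
    phi (p + 1) v u = phi p (Fin.tail v) (ct (v 0) u) := rfl

theorem phi_proj {P : Fin N → Fin N → ℝ} : ∀ (p : ℕ) (v : Fin p → Fin N → ℝ) (u : Fk N ℝ),
    Hr P u → phi p v u = phi p (fun i a => ∑ c, v i c * P c a) u := by
  intro p
  induction p with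
  | zero => intro v u _; rfl
  | succ p ih =>
    intro v u h
    rw [phi_succ, phi_succ, ih _ _ (h.ct _), h.ct_eq]
    rfl

/-- iterated contraction with coefficients in an algebra -/
def phiA : (p : ℕ) → (Fin p → Fin N → A) → Fk N A → A
  | 0, _, u => u ∅
  | p + 1, v, u => phiA p (Fin.tail v) (ct (v 0) u)

theorem map_ct (f : A →+* ℝ) (w : Fin N → A) (u : Fk N A) :
    (fun S => f (ct w u S)) = ct (fun a => f (w a)) (fun S => f (u S)) := by
  funext S
  unfold ct
  rw [Finset.sum_apply, Finset.sum_apply, map_sum]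
  refine Finset.sum_congr rfl fun a _ => ?_
  rw [Pi.smul_apply, Pi.smul_apply, an_apply, an_apply, smul_eq_mul, smul_eq_mul, map_mul]
  split_ifs
  · rw [map_zero]
  · rw [map_mul, map_intCast]

theorem map_phiA (f : A →+* ℝ) : ∀ (p : ℕ) (v : Fin p → Fin N → A) (u : Fk N A),
    f (phiA p v u) = phi p (fun i a => f (v i a)) (fun S => f (u S)) := by
  intro p
  induction p with
  | zero => intro v u; rfl
  | succ p ih =>
    intro v u
    rw [phi_succ]
    have h := map_ct f (v 0) u
    rw [← h]
    exact ih (Fin.tail v) (ct (v 0) u)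

theorem an_deg_zero {u : Fk N A} (h : Deg 0 u) (c : Fin N) : an c u = 0 := by
  funext S
  rw [an_apply]
  split_ifs with hc
  · rfl
  · rw [h (insert c S) (by rw [Finset.card_insert_of_notMem hc]; omega), mul_zero]
    rfl

theorem an_deg {p : ℕ} {u : Fk N A} (h : Deg (p + 1) u) (c : Fin N) : Deg p (an c u) := by
  intro S hS
  rw [an_apply]
  split_ifs with hc
  · rfl
  · rw [h (insert c S) (by rw [Finset.card_insert_of_notMem hc]; omega), mul_zero]

end point

/-! ### forms -/

section forms

variable {n : ℕ} {M : Type} [TopologicalSpace M] [T2Space M] [CompactSpace M]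
  [ChartedSpace (EU n) M] [IsManifold (𝓡 n) ∞ M] [MeasurableSpace M] [BorelSpace M] {N : ℕ}
  (D : GD n M N)

/-- the analysis map -/
def Lm (x : M) : TangentSpace (𝓡 n) x →ₗ[ℝ] (Fin N → ℝ) where
  toFun v a := D.g.inner x v (D.T.X a x)
  map_add' v w := by
    funext a
    rw [map_add]
    rfl
  map_smul' c v := by
    funext a
    rw [map_smul]
    rfl

theorem Lm_apply (x : M) (v : TangentSpace (𝓡 n) x) (a : Fin N) :
    Lm D x v a = D.g.inner x v (D.T.X a x) := rfl

/-- the synthesis map -/
def Km (x : M) : (Fin N → ℝ) →ₗ[ℝ] TangentSpace (𝓡 n) x where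
  toFun w := ∑ a, w a • D.T.X a x
  map_add' v w := by
    simp only [Pi.add_apply, add_smul, Finset.sum_add_distrib]
  map_smul' c v := by
    simp only [Pi.smul_apply, smul_eq_mul, mul_smul, Finset.smul_sum, RingHom.id_apply]

theorem Km_apply (x : M) (w : Fin N → ℝ) : Km D x w = ∑ a, w a • D.T.X a x := rfl

theorem Km_Lm (x : M) (v : TangentSpace (𝓡 n) x) : Km D x (Lm D x v) = v := D.T.par x v

/-- the value of `P` at a point -/
def Px (x : M) (c a : Fin N) : ℝ := D.g.inner x (D.T.X c x) (D.T.X a x)

theorem Lm_Km (x : M) (w : Fin N → ℝ) :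
    Lm D x (Km D x w) = fun a => ∑ c, w c * Px D x c a := by
  funext a
  rw [Lm_apply, Km_apply, map_sum, sum_apply]
  refine Finset.sum_congr rfl fun c _ => ?_
  rw [map_smul]
  rfl

theorem Km_single (x : M) (c : Fin N) : Km D x (Pi.single c 1) = D.T.X c x := by
  rw [Km_apply, Finset.sum_eq_single c]
  · rw [Pi.single_eq_same, one_smul]
  · intro b _ hb
    rw [Pi.single_eq_of_ne hb, zero_smul]
  · intro hc
    exact absurd (Finset.mem_univ c) hc

theorem Km_Px (x : M) (c : Fin N) : Km D x (Px D x c) = D.T.X c x := D.T.par x (D.T.X c x)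

/-- value of a Fock space element at a point -/
def ex (x : M) (u : Fk N D.C.A) : Fk N ℝ := fun S => evA x (u S)

theorem ex_eq (x : M) (u : Fk N D.C.A) : ex D x u = evF D.C x u := rfl

theorem ex_hr {u : Fk N D.C.A} (h : Hor D.C u) (x : M) : Hr (Px D x) (ex D x u) := by
  intro c
  have h1 := congrArg (evF D.C x) (h c)
  rw [evF_an, evF_sum] at h1
  rw [ex_eq]
  refine h1.trans (Finset.sum_congr rfl fun a _ => ?_)
  rw [evF_smul, evF_an]
  rfl

/-- the alternating map of `S_PHI` -/
def Bm (h : S_PHI) (p : ℕ) (u : Fk N ℝ) : (Fin N → ℝ) [⋀^Fin p]→ₗ[ℝ] ℝ :=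
  ((h N p).2.1 u).choose

theorem Bm_apply (h : S_PHI) (p : ℕ) (u : Fk N ℝ) (v : Fin p → Fin N → ℝ) :
    Bm h p u v = phi p v u := ((h N p).2.1 u).choose_spec v

/-- the linear map to differential forms -/
def Ph (h : S_PHI) (p : ℕ) : HD D.C p →ₗ[ℝ] AF n M p where
  toFun u := fun x => (Bm h p (ex D x u)).compLinearMap (Lm D x)
  map_add' u u' := by
    funext x
    ext v
    have e : ex D x ((u + u' : HD D.C p) : Fk N D.C.A) =
      ex D x (u : Fk N D.C.A) + ex D x (u' : Fk N D.C.A) := evF_add D.C x _ _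
    have h1 := ((h N p).1 (fun i => Lm D x (v i))).map_add (ex D x (u : Fk N D.C.A))
      (ex D x (u' : Fk N D.C.A))
    change Bm h p _ (fun i => Lm D x (v i)) = Bm h p _ (fun i => Lm D x (v i)) +
      Bm h p _ (fun i => Lm D x (v i))
    rw [Bm_apply, Bm_apply, Bm_apply, e, h1]
  map_smul' c u := by
    funext x
    ext v
    have e : ex D x ((c • u : HD D.C p) : Fk N D.C.A) =
      c • ex D x (u : Fk N D.C.A) := evF_smulR D.C x _ _
    have h1 := ((h N p).1 (fun i => Lm D x (v i))).map_smul c (ex D x (u : Fk N D.C.A))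
    change Bm h p _ (fun i => Lm D x (v i)) = c • Bm h p _ (fun i => Lm D x (v i))
    rw [Bm_apply, Bm_apply, e, h1]

theorem Ph_apply (h : S_PHI) (p : ℕ) (u : HD D.C p) (x : M)
    (v : Fin p → TangentSpace (𝓡 n) x) :
    Ph D h p u x v = phi p (fun i => Lm D x (v i)) (ex D x (u : Fk N D.C.A)) :=
  Bm_apply h p _ _

theorem Ph_inj (h : S_PHI) (p : ℕ) : Function.Injective (Ph D h p) := by
  rw [injective_iff_map_eq_zero]
  intro u hu
  refine Subtype.ext (funext fun S => ext_evA fun x => ?_)
  have hdeg : Deg p (ex D x (u : Fk N D.C.A)) := by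
    intro S hS
    have := u.2.2 S hS
    change evA x ((u : Fk N D.C.A) S) = 0
    rw [this]
    exact map_zero _
  have h0 : ex D x (u : Fk N D.C.A) = 0 := by
    refine (h N p).2.2.1 _ hdeg fun v => ?_
    rw [phi_proj p v _ (ex_hr D u.2.1 x)]
    have e : (fun (i : Fin p) (a : Fin N) => ∑ c, v i c * Px D x c a) =
        fun i => Lm D x (Km D x (v i)) := by
      funext i
      rw [Lm_Km]
    rw [e, ← Ph_apply D h p u x (fun i => Km D x (v i)), hu]
    rfl
  have h1 := congrFun h0 S
  refine h1.trans ?_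
  exact (map_zero (evA (n := n) x)).symm

theorem Ph_smooth (h : S_PHI) (p : ℕ) (u : HD D.C p) : SmF (Ph D h p u) := by
  intro Y hY
  let w : Fin p → Fin N → SA n M := fun i a =>
    ⟨gi D.g (Y i) (D.T.X a), gi_smooth (hY i) (D.T.hX a)⟩
  have h1 := (phiA p w (u : Fk N D.C.A)).2
  have h2 : (fun x => Ph D h p u x fun i => Y i x) = (phiA p w (u : Fk N D.C.A)).1 := by
    funext x
    rw [Ph_apply]
    exact (map_phiA (evA (n := n) x).toRingHom p w (u : Fk N D.C.A)).symm
  rw [h2]
  exact h1

/-- the coefficients of a differential form -/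
def co {p : ℕ} {α : AF n M p} (hα : SmF α) : Fk N D.C.A := fun S =>
  if h : S.card = p then
    (⟨fun x => α x (fun i => D.T.X (S.orderEmbOfFin h i) x),
      hα (fun i => D.T.X (S.orderEmbOfFin h i)) fun _ => D.T.hX _⟩ : SA n M)
  else (0 : SA n M)

theorem co_deg {p : ℕ} {α : AF n M p} (hα : SmF α) : Deg p (co D hα) := by
  intro S hS
  exact dif_neg hS

theorem ex_co (h : S_PHI) {p : ℕ} {α : AF n M p} (hα : SmF α) (x : M)
    (v : Fin p → Fin N → ℝ) : phi p v (ex D x (co D hα)) = α x (fun i => Km D x (v i)) := by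
  obtain ⟨u, hu, h1, h2⟩ := (h N p).2.2.2.1 ((α x).compLinearMap (Km D x))
  have e : ex D x (co D hα) = u := by
    funext S
    by_cases hS : S.card = p
    · rw [h2 S hS]
      change evA x (co D hα S) = _
      have h3 : co D hα S = (⟨fun x => α x (fun i => D.T.X (S.orderEmbOfFin hS i) x),
        hα (fun i => D.T.X (S.orderEmbOfFin hS i)) fun i => D.T.hX _⟩ : SA n M) := dif_pos hS
      rw [h3]
      change α x (fun i => D.T.X (S.orderEmbOfFin hS i) x) =
        α x (fun i => Km D x (Pi.single (S.orderEmbOfFin hS i) 1))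
      refine congrArg _ (funext fun i => ?_)
      rw [Km_single]
    · rw [hu S hS]
      have h3 : co D hα S = (0 : SA n M) := dif_neg hS
      change evA x (co D hα S) = _
      rw [h3]
      exact map_zero _
  rw [e, ← h1]
  rfl

theorem co_hor (h : S_PHI) {p : ℕ} {α : AF n M p} (hα : SmF α) : Hor D.C (co D hα) := by
  intro c
  refine funext fun S => ext_evA fun x => ?_
  have key : an c (ex D x (co D hα)) = ∑ a, Px D x c a • an a (ex D x (co D hα)) := by
    have hdeg : Deg p (ex D x (co D hα)) := by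
      intro S hS
      have h3 : co D hα S = (0 : SA n M) := dif_neg hS
      change evA x (co D hα S) = 0
      rw [h3]
      exact map_zero _
    rcases p with _ | p
    · rw [an_deg_zero hdeg]
      refine (Finset.sum_eq_zero fun a _ => ?_).symm
      rw [an_deg_zero hdeg, smul_zero]
    · rw [← sub_eq_zero]
      refine (h N p).2.2.1 _ ?_ fun v => ?_
      · intro S hS
        rw [Pi.sub_apply, an_deg hdeg c S hS, Finset.sum_apply, Finset.sum_eq_zero, sub_zero]
        intro a _
        rw [Pi.smul_apply, an_deg hdeg a S hS, smul_zero]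
      · rw [((h N p).1 v).map_sub]
        have e1 : phi p v (an c (ex D x (co D hα))) =
            phi (p + 1) (Fin.cons (Pi.single c 1) v) (ex D x (co D hα)) := by
          rw [phi_succ, Fin.tail_cons, Fin.cons_zero]
          congr 1
          unfold ct
          rw [Finset.sum_eq_single c]
          · rw [Pi.single_eq_same, one_smul]
          · intro b _ hb
            rw [Pi.single_eq_of_ne hb, zero_smul]
          · intro hc
            exact absurd (Finset.mem_univ c) hc
        have e2 : phi p v (∑ a, Px D x c a • an a (ex D x (co D hα))) =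
            phi (p + 1) (Fin.cons (Px D x c) v) (ex D x (co D hα)) := by
          rw [phi_succ, Fin.tail_cons, Fin.cons_zero]
          rfl
        rw [e1, e2, ex_co D h hα, ex_co D h hα, sub_eq_zero]
        refine congrArg _ (funext fun i => ?_)
        refine Fin.cases ?_ (fun i => ?_) i
        · rw [Fin.cons_zero, Fin.cons_zero, Km_single, Km_Px]
        · rw [Fin.cons_succ, Fin.cons_succ]
  have h1 : evF D.C x (an c (co D hα)) = evF D.C x (∑ a, D.C.P c a • an a (co D hα)) := by
    rw [evF_an, evF_sum]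
    refine key.trans (Finset.sum_congr rfl fun a _ => ?_)
    rw [evF_smul, evF_an]
    rfl
  exact congrFun h1 S

end forms

end Drf

open Drf in
/-- differential forms are the horizontal elements of the Fock space -/
theorem s_drf (h : S_PHI) : S_DRF := by
  intro n M _ _ _ _ _ _ _ N D _ p
  refine ⟨Ph D h p, fun u x v => Ph_apply D h p u x v, Ph_inj D h p, fun α => ⟨fun hα => ?_, ?_⟩⟩
  · refine ⟨⟨co D hα, co_hor D h hα, co_deg D hα⟩, ?_⟩
    funext x
    ext v
    rw [Ph_apply]
    refine (ex_co D h hα x _).trans ?_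
    refine congrArg _ (funext fun i => ?_)
    exact Km_Lm D x (v i)
  · rintro ⟨u, rfl⟩
    exact Ph_smooth D h p u

end Pool.Agent.H781.CM
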