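import Pool.Agent.H781.CM.GSpec

/-!
Forms above the dimension vanish; cohomology of a point (subtask by helper284).
-/

set_option autoImplicit false
set_option synthInstance.maxHeartbeats 400000
set_option maxHeartbeats 4000000
set_option linter.unusedSectionVars false

open Bundle Manifold ContDiff VectorField MeasureTheory Filter
open scoped Topology

noncomputable section

namespace Pool.Agent.H781.CM

open Pool.Agent.H781.NG Pool.Agent.H821R2 Pool.Agent.H821R3 Pool.Agent.H893R5.HO
  Pool.Agent.H781.S22

namespace Drv

theorem alt_zero (n p : ℕ) (hp : n < p) (f : (EU n) [⋀^Fin p]→ₗ[ℝ] ℝ) : f = 0 := by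
  ext v
  refine AlternatingMap.map_linearDependent f v fun h => ?_
  have h1 := h.fintype_card_le_finrank
  rw [Fintype.card_fin, finrank_euclideanSpace_fin] at h1
  omega

theorem af_sub (n : ℕ) (M : Type) [TopologicalSpace M] [ChartedSpace (EU n) M] (p : ℕ)
    (hp : n < p) : Subsingleton (AF n M p) := by
  refine ⟨fun α β => ?_⟩
  funext x
  exact (alt_zero n p hp (α x)).trans (alt_zero n p hp (β x)).symm

theorem point (M : Type) [TopologicalSpace M] [ConnectedSpace M] [ChartedSpace (EU 0) M] :
    Subsingleton M := by
  have hd : DiscreteTopology M := by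
    refine discreteTopology_iff_isOpen_singleton.2 fun x => ?_
    have h1 : (chartAt (EU 0) x).source = {x} := by
      ext y
      rw [Set.mem_singleton_iff]
      constructor
      · intro hy
        exact (chartAt (EU 0) x).injOn hy (mem_chart_source (EU 0) x) (Subsingleton.elim _ _)
      · rintro rfl
        exact mem_chart_source (EU 0) y
    rw [← h1]
    exact (chartAt (EU 0) x).open_source
  exact Set.subsingleton_univ_iff.1 isPreconnected_univ.subsingleton

/-- the value at a point, on no arguments -/
def ev0 (M : Type) [TopologicalSpace M] [ChartedSpace (EU 0) M] (x : M) : AF 0 M 0 →ₗ[ℝ] ℝ where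
  toFun α := α x (fun i => i.elim0)
  map_add' _ _ := rfl
  map_smul' _ _ := rfl

end Drv

open Drv

theorem s_drv : S_DRV := by
  intro n M _ _ _ p hp
  have h1 : Subsingleton (AF n M p) := af_sub n M p hp
  have h2 : Subsingleton (ZF n M p) := inferInstance
  exact inferInstance

theorem hf_fin0 : ∀ (M : Type) [TopologicalSpace M] [T2Space M] [CompactSpace M]
    [ConnectedSpace M] [ChartedSpace (EU 0) M] [IsManifold (𝓡 0) ∞ M] (p : ℕ),
    Module.Finite ℝ (HF 0 M p) := by
  intro M _ _ _ _ _ _ p
  rcases Nat.eq_zero_or_pos p with rfl | hp
  · obtain ⟨x⟩ : Nonempty M := inferInstance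
    have hM : Subsingleton M := point M
    have hinj : Function.Injective (ev0 M x) := by
      intro α β h
      funext y
      obtain rfl : x = y := Subsingleton.elim _ _
      refine AlternatingMap.ext fun v => ?_
      have hv : v = fun i => i.elim0 := Subsingleton.elim _ _
      rw [hv]
      exact h
    have hfin : Module.Finite ℝ (AF 0 M 0) := Module.Finite.of_injective (ev0 M x) hinj
    have hfin2 : Module.Finite ℝ (ZF 0 M 0) := inferInstance
    exact inferInstance
  · have h1 : Subsingleton (HF 0 M p) := s_drv 0 M p hp
    exact inferInstance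

end Pool.Agent.H781.CM
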