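import Pool.Agent.H781.CM.GSpec

/-!
First Bianchi identity (statement `S_GBI`).
-/

set_option autoImplicit false
set_option synthInstance.maxHeartbeats 400000
set_option maxHeartbeats 4000000
set_option linter.unusedSectionVars false

open Bundle Manifold ContDiff VectorField MeasureTheory Filter
open scoped Topology

noncomputable section

namespace Pool.Agent.H781.CM

open Pool.Agent.H781.NG Pool.Agent.H821R2 Pool.Agent.H821R3 Pool.Agent.H893R5.HO
  Pool.Agent.H781.S22

namespace Gbi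

section alg

variable {N : ℕ} {A : Type*} [CommRing A] [Algebra ℝ A] (F : Fr N A)

/-- the matrix of the connection -/
def Mg (a : Fin N) : Matrix (Fin N) (Fin N) A := Matrix.of fun b c => F.Γ a b c

/-- derivative of a matrix -/
def Em (a : Fin N) (X : Matrix (Fin N) (Fin N) A) : Matrix (Fin N) (Fin N) A :=
  Matrix.of fun b c => F.e a (X b c)

lemma Em_mul (a : Fin N) (X Y : Matrix (Fin N) (Fin N) A) :
    Em F a (X * Y) = Em F a X * Y + X * Em F a Y := by
  ext b c
  simp only [Em, Matrix.of_apply, Matrix.mul_apply, Matrix.add_apply, map_sum, Derivation.leibniz,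
    smul_eq_mul]
  rw [← Finset.sum_add_distrib]
  exact Finset.sum_congr rfl fun d _ => by ring

lemma Em_sub (a : Fin N) (X Y : Matrix (Fin N) (Fin N) A) :
    Em F a (X - Y) = Em F a X - Em F a Y := by
  ext b c
  simp [Em]

/-- the matrix of the curvature -/
lemma Rm_mat (a b : Fin N) : (Matrix.of fun c d => Rm F a b c d) =
    Em F a (Mg F b) - Em F b (Mg F a) + (Mg F b * Mg F a - Mg F a * Mg F b)
      - ∑ f, (F.Γ a b f - F.Γ b a f) • Mg F f := by
  ext c d
  simp only [Rm, Em, Mg, Matrix.of_apply, Matrix.mul_apply, Matrix.add_apply, Matrix.sub_apply,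
    Matrix.sum_apply, Matrix.smul_apply, smul_eq_mul, Finset.sum_sub_distrib]

/-- the curvature commutes with a parallel projection -/
lemma comm_key (P : Matrix (Fin N) (Fin N) A) (hP : ∀ a, Em F a P = Mg F a * P - P * Mg F a)
    (a b : Fin N) :
    P * (Matrix.of fun c d => Rm F a b c d) = (Matrix.of fun c d => Rm F a b c d) * P := by
  have h1 : Em F a (Em F b P) - Em F b (Em F a P) =
      ∑ f, (F.Γ a b f - F.Γ b a f) • Em F f P := by
    ext c d
    simp only [Em, Matrix.of_apply, Matrix.sub_apply, Matrix.sum_apply, Matrix.smul_apply,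
      smul_eq_mul]
    exact F.tors a b (P c d)
  have h2 : ∑ f, (F.Γ a b f - F.Γ b a f) • Em F f P =
      (∑ f, (F.Γ a b f - F.Γ b a f) • Mg F f) * P - P * ∑ f, (F.Γ a b f - F.Γ b a f) • Mg F f := by
    rw [Finset.sum_mul, Finset.mul_sum, ← Finset.sum_sub_distrib]
    refine Finset.sum_congr rfl fun f _ => ?_
    rw [hP, smul_sub, Matrix.smul_mul, Matrix.mul_smul]
  rw [h2, hP a, hP b, Em_sub, Em_sub, Em_mul, Em_mul, Em_mul, Em_mul, hP a, hP b] at h1
  rw [Rm_mat]
  rw [← sub_eq_zero] at h1 ⊢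
  rw [← neg_eq_zero, ← h1]
  generalize (∑ f, (F.Γ a b f - F.Γ b a f) • Mg F f) = T
  generalize Em F a (Mg F b) = X
  generalize Em F b (Mg F a) = Y
  generalize Mg F a = G
  generalize Mg F b = H
  noncomm_ring

/-- second covariant derivative of a function -/
def Hs (f : A) (a c : Fin N) : A := F.e a (F.e c f) - ∑ x, F.Γ a c x * F.e x f

lemma Hs_symm (f : A) (a c : Fin N) : Hs F f a c = Hs F f c a := by
  have h := F.tors a c f
  have e : ∑ x, (F.Γ a c x - F.Γ c a x) * F.e x f =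
      ∑ x, F.Γ a c x * F.e x f - ∑ x, F.Γ c a x * F.e x f := by
    rw [← Finset.sum_sub_distrib]
    exact Finset.sum_congr rfl fun x _ => by ring
  rw [e] at h
  unfold Hs
  linear_combination h

/-- third covariant derivative of a function -/
def Ks (f : A) (a b c : Fin N) : A :=
  F.e a (Hs F f b c) - ∑ x, F.Γ a b x * Hs F f x c - ∑ x, F.Γ a c x * Hs F f b x

lemma Ks_symm (f : A) (a b c : Fin N) : Ks F f a b c = Ks F f a c b := by
  unfold Ks
  rw [Hs_symm F f b c]
  have e1 : ∀ x, Hs F f x c = Hs F f c x := fun x => Hs_symm F f x c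
  have e2 : ∀ x, Hs F f b x = Hs F f x b := fun x => Hs_symm F f b x
  simp only [e1, e2]
  ring

/-- Ricci identity -/
lemma ricci (f : A) (a b c : Fin N) :
    ∑ d, Rm F a b c d * F.e d f = Ks F f b a c - Ks F f a b c := by
  have ht := F.tors a b (F.e c f)
  have e0 : ∑ x, (F.Γ a b x - F.Γ b a x) * F.e x (F.e c f) =
      ∑ x, F.Γ a b x * F.e x (F.e c f) - ∑ x, F.Γ b a x * F.e x (F.e c f) := by
    rw [← Finset.sum_sub_distrib]
    exact Finset.sum_congr rfl fun x _ => by ring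
  rw [e0] at ht
  have e1 : ∑ d, Rm F a b c d * F.e d f =
      ∑ d, F.e a (F.Γ b c d) * F.e d f - ∑ d, F.e b (F.Γ a c d) * F.e d f +
      (∑ x, F.Γ b c x * ∑ d, F.Γ a x d * F.e d f - ∑ x, F.Γ a c x * ∑ d, F.Γ b x d * F.e d f) -
      (∑ x, F.Γ a b x * ∑ d, F.Γ x c d * F.e d f - ∑ x, F.Γ b a x * ∑ d, F.Γ x c d * F.e d f) := by
    have q1 : ∑ x, F.Γ b c x * ∑ d, F.Γ a x d * F.e d f -
        ∑ x, F.Γ a c x * ∑ d, F.Γ b x d * F.e d f =
        ∑ d, (∑ x, (F.Γ b c x * F.Γ a x d - F.Γ a c x * F.Γ b x d)) * F.e d f := by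
      simp only [Finset.mul_sum, Finset.sum_mul]
      rw [← Finset.sum_sub_distrib, Finset.sum_comm (s := Finset.univ) (t := Finset.univ)
        (f := fun d x => (F.Γ b c x * F.Γ a x d - F.Γ a c x * F.Γ b x d) * F.e d f)]
      refine Finset.sum_congr rfl fun x _ => ?_
      rw [← Finset.sum_sub_distrib]
      exact Finset.sum_congr rfl fun d _ => by ring
    have q2 : ∑ x, F.Γ a b x * ∑ d, F.Γ x c d * F.e d f -
        ∑ x, F.Γ b a x * ∑ d, F.Γ x c d * F.e d f =
        ∑ d, (∑ x, (F.Γ a b x - F.Γ b a x) * F.Γ x c d) * F.e d f := by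
      simp only [Finset.mul_sum, Finset.sum_mul]
      rw [← Finset.sum_sub_distrib, Finset.sum_comm (s := Finset.univ) (t := Finset.univ)
        (f := fun d x => (F.Γ a b x - F.Γ b a x) * F.Γ x c d * F.e d f)]
      refine Finset.sum_congr rfl fun x _ => ?_
      rw [← Finset.sum_sub_distrib]
      exact Finset.sum_congr rfl fun d _ => by ring
    rw [q1, q2, ← Finset.sum_sub_distrib, ← Finset.sum_add_distrib, ← Finset.sum_sub_distrib]
    refine Finset.sum_congr rfl fun d _ => ?_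
    unfold Rm
    ring
  have e2 : ∀ a b c : Fin N, F.e a (Hs F f b c) = F.e a (F.e b (F.e c f)) -
      (∑ x, F.Γ b c x * F.e a (F.e x f) + ∑ x, F.e a (F.Γ b c x) * F.e x f) := by
    intro a b c
    unfold Hs
    rw [map_sub, map_sum, ← Finset.sum_add_distrib]
    congr 1
    refine Finset.sum_congr rfl fun x _ => ?_
    rw [Derivation.leibniz, smul_eq_mul, smul_eq_mul]
    ring
  have e3 : ∀ a b c : Fin N, ∑ x, F.Γ a c x * Hs F f b x =
      ∑ x, F.Γ a c x * F.e b (F.e x f) - ∑ x, F.Γ a c x * ∑ d, F.Γ b x d * F.e d f := by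
    intro a b c
    rw [← Finset.sum_sub_distrib]
    refine Finset.sum_congr rfl fun x _ => ?_
    unfold Hs
    ring
  have e4 : ∀ a b c : Fin N, ∑ x, F.Γ a b x * Hs F f x c =
      ∑ x, F.Γ a b x * F.e x (F.e c f) - ∑ x, F.Γ a b x * ∑ d, F.Γ x c d * F.e d f := by
    intro a b c
    rw [← Finset.sum_sub_distrib]
    refine Finset.sum_congr rfl fun x _ => ?_
    unfold Hs
    ring
  unfold Ks
  rw [e1, e2, e2, e3, e3, e4, e4]
  linear_combination ht

/-- the cyclic sum kills all differentials -/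
lemma cyc (f : A) (a b c : Fin N) :
    ∑ d, (Rm F a b c d + Rm F b c a d + Rm F c a b d) * F.e d f = 0 := by
  have h : ∑ d, (Rm F a b c d + Rm F b c a d + Rm F c a b d) * F.e d f =
      ∑ d, Rm F a b c d * F.e d f + ∑ d, Rm F b c a d * F.e d f +
        ∑ d, Rm F c a b d * F.e d f := by
    rw [← Finset.sum_add_distrib, ← Finset.sum_add_distrib]
    exact Finset.sum_congr rfl fun d _ => by ring
  rw [h, ricci, ricci, ricci, Ks_symm F f a b c, Ks_symm F f b a c, Ks_symm F f c b a]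
  ring

end alg

/-- a tangent vector which is killed by all smooth functions vanishes -/
theorem vec_zero {n : ℕ} {M : Type} [TopologicalSpace M] [T2Space M] [ChartedSpace (EU n) M]
    [IsManifold (𝓡 n) ∞ M] (p : M) (v : TangentSpace (𝓡 n) p)
    (h : ∀ f : M → ℝ, Sm (𝓡 n) f → mvfderiv (𝓡 n) f p v = 0) : v = 0 := by
  obtain ⟨χ⟩ : Nonempty (SmoothBumpFunction (𝓡 n) p) := inferInstance
  have h1 : ∀ i : Fin n, (show EU n from mfderiv (𝓡 n) 𝓘(ℝ, EU n) (extChartAt (𝓡 n) p) p v) i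
      = 0 := by
    intro i
    have hs : ContMDiffOn (𝓡 n) 𝓘(ℝ, ℝ) ∞ (fun x => (extChartAt (𝓡 n) p x) i)
        (chartAt (EU n) p).source := by
      have h2 : ContMDiffOn (𝓡 n) 𝓘(ℝ, EU n) ∞ (extChartAt (𝓡 n) p) (chartAt (EU n) p).source :=
        contMDiffOn_extChartAt
      have h3 : ContMDiff 𝓘(ℝ, EU n) 𝓘(ℝ, ℝ) ∞ (fun y : EU n => y i) :=
        (EuclideanSpace.proj (𝕜 := ℝ) i).contMDiff
      exact h3.comp_contMDiffOn h2
    have h4 := h _ (χ.contMDiff_smul hs)
    have h5 : (fun x => χ x • (extChartAt (𝓡 n) p x) i) =ᶠ[𝓝 p]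
        (fun y : EU n => y i) ∘ (extChartAt (𝓡 n) p) := by
      filter_upwards [χ.eventuallyEq_one] with x hx
      rw [hx]
      simp
    have h6 : mfderiv (𝓡 n) 𝓘(ℝ, ℝ) (fun x => χ x • (extChartAt (𝓡 n) p x) i) p v = 0 := h4
    rw [h5.mfderiv_eq] at h6
    have h7 : MDifferentiableAt (𝓡 n) 𝓘(ℝ, EU n) (extChartAt (𝓡 n) p) p :=
      mdifferentiableAt_extChartAt (mem_chart_source (EU n) p)
    have h8 : HasMFDerivAt 𝓘(ℝ, EU n) 𝓘(ℝ, ℝ) (fun y : EU n => y i) (extChartAt (𝓡 n) p p)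
        (EuclideanSpace.proj (𝕜 := ℝ) i) := by
      apply HasFDerivAt.hasMFDerivAt
      exact (EuclideanSpace.proj (𝕜 := ℝ) i : EU n →L[ℝ] ℝ).hasFDerivAt
    rw [(h8.comp p h7.hasMFDerivAt).mfderiv] at h6
    exact h6
  have h9 : mfderiv (𝓡 n) 𝓘(ℝ, EU n) (extChartAt (𝓡 n) p) p v = 0 := by
    have : (show EU n from mfderiv (𝓡 n) 𝓘(ℝ, EU n) (extChartAt (𝓡 n) p) p v) = 0 := by
      ext i
      exact h1 i
    exact this
  have h10 := (isInvertible_mfderiv_extChartAt (I := 𝓡 n) (mem_extChartAt_source (I := 𝓡 n) p))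
  exact h10.injective (by rw [h9, map_zero])

end Gbi

theorem s_gbi : S_GBI := by
  intro n M _ _ _ _ _ _ g cov h N T F ok a b c d
  have symm : ∀ i j, Pm T i j = Pm T j i := fun i j => Subtype.ext (gi_comm _ _)
  have hP : ∀ a, Gbi.Em F a (Matrix.of fun c d => Pm T c d) =
      Gbi.Mg F a * (Matrix.of fun c d => Pm T c d) -
        (Matrix.of fun c d => Pm T c d) * Gbi.Mg F a := by
    intro a
    refine Matrix.ext fun i j => ?_
    simp only [Gbi.Em, Gbi.Mg, Matrix.of_apply, Matrix.sub_apply, Matrix.mul_apply]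
    rw [ok.Ppar, ← Finset.sum_sub_distrib]
    refine Finset.sum_congr rfl fun x _ => ?_
    rw [F.anti a j x]
    ring
  have hcomm : ∀ a b c d, ∑ c', Pm T c c' * Rm F a b c' d = ∑ d', Rm F a b c d' * Pm T d' d := by
    intro a b c d
    have h1 := congrFun (congrFun (Gbi.comm_key F (Matrix.of fun c d => Pm T c d) hP a b) c) d
    simp only [Matrix.mul_apply, Matrix.of_apply] at h1
    exact h1
  obtain ⟨S, hS⟩ : ∃ S : Fin N → SA n M, ∀ x, S x = Rm F a b c x + Rm F b c a x + Rm F c a b x :=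
    ⟨fun x => _, fun x => rfl⟩
  have hw : ∑ c', Pm T c c' * Rm F a b c' d + ∑ c', Pm T a c' * Rm F b c c' d +
      ∑ c', Pm T b c' * Rm F c a c' d = ∑ x, S x * Pm T x d := by
    rw [hcomm, hcomm, hcomm, ← Finset.sum_add_distrib, ← Finset.sum_add_distrib]
    refine Finset.sum_congr rfl fun x _ => ?_
    rw [hS]
    ring
  rw [hw]
  apply ext_evA
  intro p
  rw [map_zero, map_sum]
  have hv : ∑ x, evA p (S x) • T.X x p = 0 := by
    apply Gbi.vec_zero
    intro f hf
    rw [map_sum]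
    have h1 := congrArg (evA p) (Gbi.cyc F (⟨f, hf⟩ : SA n M) a b c)
    rw [map_sum, map_zero] at h1
    rw [← h1]
    refine Finset.sum_congr rfl fun x _ => ?_
    rw [map_smul, smul_eq_mul, map_mul, ok.e, ev_derA, ← hS]
  have h2 : g.inner p (∑ x, evA p (S x) • T.X x p) (T.X d p) = 0 := by
    rw [hv, map_zero]
    rfl
  rw [map_sum, _root_.sum_apply] at h2
  rw [← h2]
  refine Finset.sum_congr rfl fun x _ => ?_
  rw [map_mul, map_smul]
  rfl

end Pool.Agent.H781.CM
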