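import Pool.Agent.H781.CM.GSpec

/-!
Curvature of the connection of the trivial bundle (task CG-5).
-/

set_option autoImplicit false
set_option synthInstance.maxHeartbeats 400000
set_option maxHeartbeats 4000000
set_option linter.unusedSectionVars false

open Bundle Manifold ContDiff VectorField MeasureTheory Filter
open scoped Topology

noncomputable section

namespace Pool.Agent.H781.CM

open Pool.Agent.H781.NG Pool.Agent.H821R2 Pool.Agent.H821R3 Pool.Agent.H893R5.HO
  Pool.Agent.H781.S22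

namespace Gcu

section alg

variable {N : ℕ} {A : Type*} [CommRing A] [Algebra ℝ A] (F : Fr N A)

/-- the covariant derivative of a section of the trivial bundle -/
def Ds (a : Fin N) (s : Fin N → A) (d : Fin N) : A := F.e a (s d) + ∑ c, s c * F.Γ a c d

theorem Ds_Ds (a b : Fin N) (s : Fin N → A) (d : Fin N) :
    Ds F a (Ds F b s) d = F.e a (F.e b (s d)) + ∑ c, s c * F.e a (F.Γ b c d) +
      (∑ c, F.e a (s c) * F.Γ b c d + ∑ c, F.e b (s c) * F.Γ a c d) +
      ∑ c, s c * ∑ f, F.Γ b c f * F.Γ a f d := by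
  have h1 : F.e a (∑ c, s c * F.Γ b c d) = ∑ c, s c * F.e a (F.Γ b c d) +
      ∑ c, F.e a (s c) * F.Γ b c d := by
    rw [map_sum, ← Finset.sum_add_distrib]
    refine Finset.sum_congr rfl fun c _ => ?_
    rw [Derivation.leibniz, smul_eq_mul, smul_eq_mul, mul_comm (F.Γ b c d)]
  have h2 : ∑ f, (F.e b (s f) + ∑ c, s c * F.Γ b c f) * F.Γ a f d =
      ∑ c, F.e b (s c) * F.Γ a c d + ∑ c, s c * ∑ f, F.Γ b c f * F.Γ a f d := by
    simp only [add_mul, Finset.sum_add_distrib]
    congr 1
    simp only [Finset.sum_mul, Finset.mul_sum]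
    rw [Finset.sum_comm]
    refine Finset.sum_congr rfl fun c _ => Finset.sum_congr rfl fun f _ => ?_
    ring
  unfold Ds
  rw [map_add, h1, h2]
  ring

theorem curv_alg (a b : Fin N) (s : Fin N → A) (d : Fin N) :
    Ds F a (Ds F b s) d - Ds F b (Ds F a s) d - ∑ f, (F.Γ a b f - F.Γ b a f) * Ds F f s d =
      ∑ c, s c * Rm F a b c d := by
  have h1 := F.tors a b (s d)
  have h2 : ∑ f, (F.Γ a b f - F.Γ b a f) * Ds F f s d =
      ∑ f, (F.Γ a b f - F.Γ b a f) * F.e f (s d) +
        ∑ c, s c * ∑ f, (F.Γ a b f - F.Γ b a f) * F.Γ f c d := by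
    unfold Ds
    simp only [mul_add, Finset.sum_add_distrib]
    congr 1
    simp only [Finset.mul_sum]
    rw [Finset.sum_comm]
    refine Finset.sum_congr rfl fun c _ => Finset.sum_congr rfl fun f _ => ?_
    ring
  have h3 : ∑ c, s c * Rm F a b c d = ∑ c, s c * F.e a (F.Γ b c d) -
      ∑ c, s c * F.e b (F.Γ a c d) + (∑ c, s c * ∑ f, F.Γ b c f * F.Γ a f d -
      ∑ c, s c * ∑ f, F.Γ a c f * F.Γ b f d) -
      ∑ c, s c * ∑ f, (F.Γ a b f - F.Γ b a f) * F.Γ f c d := by
    simp only [← Finset.sum_sub_distrib, ← Finset.sum_add_distrib]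
    refine Finset.sum_congr rfl fun c _ => ?_
    unfold Rm
    rw [Finset.sum_sub_distrib]
    ring
  rw [Ds_Ds, Ds_Ds, h2, h3, ← h1]
  ring

end alg

section geo

variable {n : ℕ} {M : Type} [TopologicalSpace M] [ChartedSpace (EU n) M] [IsManifold (𝓡 n) ∞ M]
variable {g : Met n M} {cov : Cov n M} {N : ℕ}

/-- Parseval identity -/
theorem pars (T : PF g N) (p : M) (v w : TangentSpace (𝓡 n) p) :
    ∑ c, g.inner p v (T.X c p) * g.inner p (T.X c p) w = g.inner p v w := by
  have h := congrArg (fun u => g.inner p u w) (T.par p v)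
  simp only [map_sum, sum_apply, map_smul, smul_apply, smul_eq_mul] at h
  exact h

/-- the connection coefficients contracted with a vector -/
theorem con (h : IsLeviCivita g cov) (T : PF g N) (p : M) (v : TangentSpace (𝓡 n) p)
    (a d : Fin N) :
    ∑ c, g.inner p v (T.X c p) * evA p (Gm h T a c d) =
      - g.inner p v (cov (T.X d) p (T.X a p)) := by
  have h1 : ∀ c f, evA p (derA (T.hX a) (Pm T c f)) =
      g.inner p (cov (T.X c) p (T.X a p)) (T.X f p) +
        g.inner p (T.X c p) (cov (T.X f) p (T.X a p)) := by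
    intro c f
    exact congrFun (der_gi h (T.hX a) (T.hX c) (T.hX f)) p
  have h2 : ∀ c, evA p (Gm h T a c d) = g.inner p (cov (T.X c) p (T.X a p)) (T.X d p) -
      ∑ f, g.inner p (T.X c p) (T.X f p) * (g.inner p (cov (T.X f) p (T.X a p)) (T.X d p) +
        g.inner p (T.X f p) (cov (T.X d) p (T.X a p))) := by
    intro c
    unfold Gm
    rw [map_sub, map_sum]
    congr 1
    refine Finset.sum_congr rfl fun f _ => ?_
    rw [map_mul, h1]
    rfl
  simp only [h2, mul_sub, Finset.sum_sub_distrib]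
  have h3 : ∑ c, g.inner p v (T.X c p) * ∑ f, g.inner p (T.X c p) (T.X f p) *
      (g.inner p (cov (T.X f) p (T.X a p)) (T.X d p) +
        g.inner p (T.X f p) (cov (T.X d) p (T.X a p))) =
      ∑ f, g.inner p v (T.X f p) * (g.inner p (cov (T.X f) p (T.X a p)) (T.X d p) +
        g.inner p (T.X f p) (cov (T.X d) p (T.X a p))) := by
    simp only [Finset.mul_sum]
    rw [Finset.sum_comm]
    refine Finset.sum_congr rfl fun f _ => ?_
    rw [← pars T p v (T.X f p), Finset.sum_mul]
    refine Finset.sum_congr rfl fun c _ => ?_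
    ring
  rw [h3]
  simp only [mul_add, Finset.sum_add_distrib]
  rw [pars T p v]
  ring

/-- a vector field as a section of the trivial bundle -/
def sc (T : PF g N) {V : VF n M} (hV : SmV V) (c : Fin N) : SA n M :=
  ⟨gi g V (T.X c), gi_smooth hV (T.hX c)⟩

theorem Ds_sc (h : IsLeviCivita g cov) (T : PF g N) (F : Fr N (SA n M)) (hF : FrOK h T F)
    {V : VF n M} (hV : SmV V) (a d : Fin N) :
    Ds F a (sc T hV) d = sc T (nabla_smooth h (T.hX a) hV) d := by
  apply ext_evA
  intro p
  unfold Ds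
  rw [hF.e, map_add, map_sum]
  have h1 : evA p (derA (T.hX a) (sc T hV d)) = g.inner p (cov V p (T.X a p)) (T.X d p) +
      g.inner p (V p) (cov (T.X d) p (T.X a p)) :=
    congrFun (der_gi h (T.hX a) hV (T.hX d)) p
  have h2 : ∑ c, evA p (sc T hV c * F.Γ a c d) =
      - g.inner p (V p) (cov (T.X d) p (T.X a p)) := by
    rw [← con h T p (V p) a d]
    refine Finset.sum_congr rfl fun c _ => ?_
    rw [map_mul, hF.G]
    rfl
  rw [h1, h2]
  have h3 : evA p (sc T (nabla_smooth h (T.hX a) hV) d) =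
      g.inner p (cov V p (T.X a p)) (T.X d p) := rfl
  rw [h3]
  ring

/-- the connection coefficients give the covariant derivatives of the frame -/
theorem cov_X (h : IsLeviCivita g cov) (T : PF g N) (F : Fr N (SA n M)) (hF : FrOK h T F)
    (a b : Fin N) (p : M) :
    ∑ f, evA p (F.Γ a b f) • T.X f p = cov (T.X b) p (T.X a p) := by
  rw [← T.par p (∑ f, evA p (F.Γ a b f) • T.X f p), ← T.par p (cov (T.X b) p (T.X a p))]
  refine Finset.sum_congr rfl fun c _ => ?_
  congr 1
  have h1 := con h T p (T.X c p) a b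
  rw [g.symm p (cov (T.X b) p (T.X a p)) (T.X c p)]
  have h2 : g.inner p (∑ f, evA p (F.Γ a b f) • T.X f p) (T.X c p) =
      ∑ f, evA p (F.Γ a b f) * g.inner p (T.X c p) (T.X f p) := by
    simp only [map_sum, sum_apply, map_smul, smul_apply, smul_eq_mul]
    refine Finset.sum_congr rfl fun f _ => ?_
    rw [g.symm p (T.X f p) (T.X c p)]
  rw [h2]
  have h3 : ∑ f, evA p (F.Γ a b f) * g.inner p (T.X c p) (T.X f p) =
      - ∑ f, g.inner p (T.X c p) (T.X f p) * evA p (Gm h T a f b) := by
    rw [← Finset.sum_neg_distrib]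
    refine Finset.sum_congr rfl fun f _ => ?_
    rw [F.anti a b f, hF.G, map_neg]
    ring
  rw [h3, h1]
  ring

end geo

end Gcu

open Gcu in
/-- **CG-5** -/
theorem s_gcu : S_GCU := by
  intro n M _ _ _ _ _ hn g cov R h hR N T F hF a b c d p
  have h1 := congrArg (evA p) (curv_alg F a b (sc T (T.hX c)) d)
  have e1 : Ds F a (Ds F b (sc T (T.hX c))) d =
      sc T (nabla_smooth h (T.hX a) (nabla_smooth h (T.hX b) (T.hX c))) d := by
    have : Ds F b (sc T (T.hX c)) = sc T (nabla_smooth h (T.hX b) (T.hX c)) :=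
      funext fun d => Ds_sc h T F hF (T.hX c) b d
    rw [this, Ds_sc h T F hF]
  have e2 : Ds F b (Ds F a (sc T (T.hX c))) d =
      sc T (nabla_smooth h (T.hX b) (nabla_smooth h (T.hX a) (T.hX c))) d := by
    have : Ds F a (sc T (T.hX c)) = sc T (nabla_smooth h (T.hX a) (T.hX c)) :=
      funext fun d => Ds_sc h T F hF (T.hX c) a d
    rw [this, Ds_sc h T F hF]
  rw [e1, e2, map_sub, map_sub, map_sum, map_sum] at h1
  have e3 : ∑ c', evA p (Pm T c c') * evA p (Rm F a b c' d) =
      ∑ c', evA p (sc T (T.hX c) c' * Rm F a b c' d) := by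
    refine Finset.sum_congr rfl fun c' _ => ?_
    rw [map_mul]
    rfl
  rw [e3, ← h1]
  have e4 : mlieBracket (𝓡 n) (T.X a) (T.X b) p =
      ∑ f, (evA p (F.Γ a b f) - evA p (F.Γ b a f)) • T.X f p := by
    rw [← h.torsionFree (T.hX a) (T.hX b) p, ← cov_X h T F hF a b p, ← cov_X h T F hF b a p,
      ← Finset.sum_sub_distrib]
    refine Finset.sum_congr rfl fun f _ => ?_
    rw [sub_smul]
  rw [hR (T.hX a) (T.hX b) (T.hX c) p]
  unfold curv
  rw [e4]
  simp only [map_sum, map_sub, sub_apply, sum_apply, map_smul, smul_apply, smul_eq_mul]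
  congr 1
  refine Finset.sum_congr rfl fun f _ => ?_
  rw [Ds_sc h T F hF, map_mul, map_sub]
  rfl

end Pool.Agent.H781.CM
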