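import Pool.Agent.H781.CM.GSpec

/-!
Project CM, task CG-7 (helper52): the curvature bound.
-/

set_option autoImplicit false
set_option synthInstance.maxHeartbeats 400000
set_option maxHeartbeats 4000000
set_option linter.unusedSectionVars false

open Bundle Manifold ContDiff VectorField MeasureTheory Filter
open scoped Topology

noncomputable section

namespace Pool.Agent.H781.CM

open Pool.Agent.H781.NG Pool.Agent.H821R2 Pool.Agent.H821R3 Pool.Agent.H893R5.HO
  Pool.Agent.H781.S22

namespace Gcurv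

open Matrix

theorem quad_ge {ι : Type} [Fintype ι] [DecidableEq ι] (M : Matrix ι ι ℝ) (h : M.IsHermitian) (c : ℝ)
    (hc : ∀ i, c ≤ h.eigenvalues i) (y : ι → ℝ) :
    c * ∑ p, y p ^ 2 ≤ ∑ p, ∑ q, y p * y q * M p q := by
  have h1 : (M - c • (1 : Matrix ι ι ℝ)).PosSemidef := by
    have e1 : M - c • (1 : Matrix ι ι ℝ) =
        Unitary.conjStarAlgAut ℝ _ h.eigenvectorUnitary (diagonal (fun i => h.eigenvalues i - c)) := by
      have e2 : (diagonal (fun i => h.eigenvalues i - c) : Matrix ι ι ℝ) =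
          diagonal (RCLike.ofReal ∘ h.eigenvalues) - c • 1 := by
        ext i j
        by_cases hij : i = j
        · subst hij
          simp
        · simp [hij]
      rw [e2, map_sub, map_smul, map_one, ← h.spectral_theorem]
    rw [e1, Unitary.conjStarAlgAut_apply]
    have h2 : (diagonal (fun i => h.eigenvalues i - c) : Matrix ι ι ℝ).PosSemidef :=
      Matrix.PosSemidef.diagonal (fun i => sub_nonneg.2 (hc i))
    exact h2.mul_mul_conjTranspose_same _
  have h3 := h1.dotProduct_mulVec_nonneg y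
  have h4 : star y ⬝ᵥ (M - c • (1 : Matrix ι ι ℝ)) *ᵥ y =
      ∑ p, ∑ q, y p * y q * M p q - c * ∑ p, y p ^ 2 := by
    rw [Matrix.sub_mulVec, dotProduct_sub, Matrix.smul_mulVec, Matrix.one_mulVec, dotProduct_smul]
    congr 1
    · simp only [dotProduct, mulVec, Finset.mul_sum, star_trivial]
      exact Finset.sum_congr rfl fun p _ => Finset.sum_congr rfl fun q _ => by ring
    · simp only [dotProduct, star_trivial, smul_eq_mul]
      congr 1
      exact Finset.sum_congr rfl fun p _ => by ring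
  rw [h4] at h3
  linarith

section
variable {V W : Type} [AddCommGroup V] [Module ℝ V] [AddCommGroup W] [Module ℝ W]

theorem span_zero {N : ℕ} {X : Fin N → V} (B : V →ₗ[ℝ] V →ₗ[ℝ] ℝ)
    (par : ∀ v, ∑ a, B v (X a) • X a = v) (L : V →ₗ[ℝ] W) (h : ∀ a, L (X a) = 0) : L = 0 := by
  ext v
  rw [← par v, map_sum]
  simp [h]

theorem span_zero2 {N : ℕ} {X : Fin N → V} (B : V →ₗ[ℝ] V →ₗ[ℝ] ℝ)
    (par : ∀ v, ∑ a, B v (X a) • X a = v) (L : V →ₗ[ℝ] V →ₗ[ℝ] W) (h : ∀ a b, L (X a) (X b) = 0) :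
    L = 0 :=
  span_zero B par L fun a => span_zero B par (L (X a)) (h a)

theorem bil_change {n N : ℕ} {X : Fin N → V} {f : Fin n → V} {x : Fin N → Fin n → ℝ}
    (hX : ∀ a, X a = ∑ i, x a i • f i) (β : V →ₗ[ℝ] V →ₗ[ℝ] W) (w : Fin N → Fin N → ℝ) :
    ∑ a, ∑ b, w a b • β (X a) (X b) =
      ∑ i, ∑ j, (∑ a, ∑ b, x a i * w a b * x b j) • β (f i) (f j) := by
  have h1 : ∀ a b, w a b • β (X a) (X b) = ∑ i, ∑ j, (x a i * w a b * x b j) • β (f i) (f j) := by
    intro a b
    rw [hX a, hX b, map_sum β, LinearMap.sum_apply, Finset.smul_sum]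
    refine Finset.sum_congr rfl fun i _ => ?_
    rw [map_smul β, LinearMap.smul_apply, map_sum, Finset.smul_sum, Finset.smul_sum]
    refine Finset.sum_congr rfl fun j _ => ?_
    rw [map_smul, smul_smul, smul_smul]
    congr 1
    ring
  simp only [h1]
  simp only [Finset.sum_smul]
  rw [Finset.sum_congr rfl fun a _ => Finset.sum_comm]
  rw [Finset.sum_comm]
  refine Finset.sum_congr rfl fun i _ => ?_
  rw [Finset.sum_congr rfl fun a _ => Finset.sum_comm]
  rw [Finset.sum_comm]

theorem sum_pairs {n : ℕ} (h : Fin n → Fin n → ℝ) (hs : ∀ i j, h i j = h j i) (h0 : ∀ i, h i i = 0) :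
    ∑ i, ∑ j, h i j = 2 * ∑ p : Pr n, h p.1.1 p.1.2 := by
  classical
  have e1 : ∑ p : Pr n, h p.1.1 p.1.2 = ∑ i, ∑ j, if i < j then h i j else 0 := by
    rw [← Finset.sum_product', Finset.univ_product_univ, ← Finset.sum_filter]
    exact (Finset.sum_subtype (Finset.univ.filter fun p : Fin n × Fin n => p.1 < p.2) (by simp)
      (fun p => h p.1 p.2)).symm
  have e2 : ∑ i, ∑ j, (if i < j then h i j else 0) = ∑ i, ∑ j, if j < i then h i j else 0 := by
    rw [Finset.sum_comm]
    refine Finset.sum_congr rfl fun i _ => Finset.sum_congr rfl fun j _ => ?_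
    rw [hs]
  have e3 : ∑ i, ∑ j, h i j = ∑ i, ∑ j, (if i < j then h i j else 0) +
      ∑ i, ∑ j, (if j < i then h i j else 0) := by
    rw [← Finset.sum_add_distrib]
    refine Finset.sum_congr rfl fun i _ => ?_
    rw [← Finset.sum_add_distrib]
    refine Finset.sum_congr rfl fun j _ => ?_
    rcases lt_trichotomy i j with h1 | h1 | h1
    · rw [if_pos h1, if_neg h1.asymm, add_zero]
    · subst h1
      rw [if_neg (lt_irrefl _), h0, add_zero]
    · rw [if_neg h1.asymm, if_pos h1, zero_add]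
  rw [e3, ← e2, ← e1]
  ring

theorem frame_exp {n : ℕ} [FiniteDimensional ℝ V] (hn : Module.finrank ℝ V = n)
    (B : V →ₗ[ℝ] V →ₗ[ℝ] ℝ) (f : Fin n → V)
    (hf : ∀ i j, B (f i) (f j) = if i = j then 1 else 0) (v : V) : v = ∑ i, B v (f i) • f i := by
  classical
  have hli : LinearIndependent ℝ f := by
    rw [Fintype.linearIndependent_iff]
    intro c hc j
    have h1 : B (∑ i, c i • f i) (f j) = 0 := by rw [hc, map_zero, LinearMap.zero_apply]
    rw [map_sum, LinearMap.sum_apply] at h1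
    simp only [map_smul, LinearMap.smul_apply, hf, smul_eq_mul, mul_ite, mul_one, mul_zero] at h1
    rw [Finset.sum_ite_eq' Finset.univ j c, if_pos (Finset.mem_univ _)] at h1
    exact h1
  let b := basisOfLinearIndependentOfCardEqFinrank' f hli (by rw [Fintype.card_fin, hn])
  have hb : ∀ i, b i = f i := fun i => by
    show (basisOfLinearIndependentOfCardEqFinrank' f hli _) i = f i
    rw [coe_basisOfLinearIndependentOfCardEqFinrank']
  have hv := b.sum_repr v
  have hc : ∀ j, B v (f j) = b.repr v j := by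
    intro j
    conv_lhs => rw [← hv]
    rw [map_sum, LinearMap.sum_apply]
    simp only [map_smul, LinearMap.smul_apply, hb, hf, smul_eq_mul, mul_ite, mul_one, mul_zero]
    rw [Finset.sum_ite_eq' Finset.univ j (fun i => b.repr v i), if_pos (Finset.mem_univ _)]
  have he : ∑ i, B v (f i) • f i = ∑ i, b.repr v i • b i :=
    Finset.sum_congr rfl fun i _ => by rw [hc, hb]
  rw [he, hv]


theorem core {n N : ℕ} [FiniteDimensional ℝ V] (hn : Module.finrank ℝ V = n)
    (B : V →ₗ[ℝ] V →ₗ[ℝ] ℝ) (R : V →ₗ[ℝ] V →ₗ[ℝ] V →ₗ[ℝ] V)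
    (hBs : ∀ u v, B u v = B v u)
    (X : Fin N → V) (par : ∀ v, ∑ a, B v (X a) • X a = v)
    (f : Fin n → V) (hf : ∀ i j, B (f i) (f j) = if i = j then 1 else 0)
    (Rm : Fin N → Fin N → Fin N → Fin N → ℝ)
    (hT : ∀ a b c d, ∑ c', B (X c) (X c') * Rm a b c' d = B (R (X a) (X b) (X c)) (X d))
    (hR3 : ∀ a b c d, Rm a b c d = - Rm b a c d)
    (hR1 : ∀ a b c d, ∑ c', B (X c) (X c') * Rm a b c' d = ∑ d', B (X d) (X d') * Rm a b c d')
    (hR4 : ∀ a b c d, Rm a b c d = - Rm a b d c) (ε : ℝ)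
    (hM : ∀ y : Pr n → ℝ, -ε * ∑ p, y p ^ 2 ≤
      ∑ p, ∑ q, y p * y q * B (R (f p.1.1) (f p.1.2) (f q.1.2)) (f q.1.1))
    (w : Fin N → Fin N → ℝ) (hw : ∀ a b, w a b = - w b a)
    (hPw : ∀ a b, ∑ c, B (X a) (X c) * w c b = w a b) :
    -(2 * ε) * ∑ a, ∑ b, w a b ^ 2 ≤ - ∑ a, ∑ b, ∑ c, ∑ d, Rm a b c d * w a b * w c d := by
  classical
  obtain ⟨x, hx⟩ : ∃ x : Fin N → Fin n → ℝ, ∀ a i, x a i = B (X a) (f i) := ⟨_, fun _ _ => rfl⟩
  have hX : ∀ a, X a = ∑ i, x a i • f i := fun a => by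
    simp only [hx]
    exact frame_exp hn B f hf (X a)
  obtain ⟨o, ho⟩ : ∃ o : Fin n → Fin n → ℝ, ∀ i j, o i j = ∑ a, ∑ b, x a i * w a b * x b j :=
    ⟨_, fun _ _ => rfl⟩
  have hos : ∀ i j, o i j = - o j i := by
    intro i j
    rw [ho, ho, Finset.sum_comm, ← Finset.sum_neg_distrib]
    refine Finset.sum_congr rfl fun a _ => ?_
    rw [← Finset.sum_neg_distrib]
    refine Finset.sum_congr rfl fun b _ => ?_
    rw [hw b a]
    ring
  have hoo : ∀ i, o i i = 0 := fun i => by
    have := hos i i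
    linarith
  -- sum of squares
  have hsq : ∑ a, ∑ b, w a b ^ 2 = ∑ i, ∑ j, o i j ^ 2 := by
    let β : V →ₗ[ℝ] V →ₗ[ℝ] ℝ := ∑ c, ∑ d, w c d • (B.flip (X c)).smulRight (B.flip (X d))
    have hβ : ∀ u v, β u v = ∑ c, ∑ d, w c d * (B u (X c) * B v (X d)) := by
      intro u v
      simp only [β, LinearMap.sum_apply, LinearMap.smul_apply, LinearMap.smulRight_apply,
        LinearMap.flip_apply, smul_eq_mul]
    have h1 := bil_change hX β w
    have h2 : ∀ a b, β (X a) (X b) = w a b := by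
      intro a b
      rw [hβ, ← hPw a b]
      refine Finset.sum_congr rfl fun c _ => ?_
      have h3 : ∑ d, w c d * (B (X a) (X c) * B (X b) (X d)) =
          B (X a) (X c) * - ∑ d, B (X b) (X d) * w d c := by
        rw [← Finset.sum_neg_distrib, Finset.mul_sum]
        refine Finset.sum_congr rfl fun d _ => ?_
        rw [hw c d]
        ring
      rw [h3, hPw b c, ← hw c b]
    have h4 : ∀ i j, β (f i) (f j) = o i j := by
      intro i j
      rw [hβ, ho]
      refine Finset.sum_congr rfl fun c _ => Finset.sum_congr rfl fun d _ => ?_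
      rw [hx, hx, hBs (f i), hBs (f j)]
      ring
    simp only [h2, h4, ← ho, smul_eq_mul] at h1
    simp only [sq]
    exact h1
  -- reduction to the Riemann tensor
  have hR : ∑ a, ∑ b, ∑ c, ∑ d, Rm a b c d * w a b * w c d =
      ∑ k, ∑ l, o k l * ∑ i, ∑ j, o i j * B (R (f i) (f j) (f k)) (f l) := by
    have h1 : ∀ a b, ∑ c, ∑ d, Rm a b c d * w a b * w c d =
        ∑ c, ∑ d, w c d * (w a b * B (R (X a) (X b) (X c)) (X d)) := by
      intro a b
      have h2 : ∀ c d, Rm a b c d * w a b * w c d =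
          ∑ c', w c' d * (w a b * (B (X c') (X c) * Rm a b c d)) := by
        intro c d
        rw [← hPw c d, Finset.mul_sum]
        refine Finset.sum_congr rfl fun c' _ => ?_
        rw [hBs (X c) (X c')]
        ring
      have h3 : ∑ c, ∑ d, Rm a b c d * w a b * w c d =
          ∑ c, ∑ d, ∑ c', w c' d * (w a b * (B (X c') (X c) * Rm a b c d)) :=
        Finset.sum_congr rfl fun c _ => Finset.sum_congr rfl fun d _ => h2 c d
      have h4 : ∑ c, ∑ d, ∑ c', w c' d * (w a b * (B (X c') (X c) * Rm a b c d)) =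
          ∑ c, ∑ c', ∑ d, w c' d * (w a b * (B (X c') (X c) * Rm a b c d)) :=
        Finset.sum_congr rfl fun c _ => Finset.sum_comm
      rw [h3, h4, Finset.sum_comm]
      refine Finset.sum_congr rfl fun c' _ => ?_
      rw [Finset.sum_comm]
      refine Finset.sum_congr rfl fun d _ => ?_
      rw [← Finset.mul_sum, ← Finset.mul_sum, hT]
    have h5 : ∑ a, ∑ b, ∑ c, ∑ d, Rm a b c d * w a b * w c d =
        ∑ c, ∑ d, w c d * B ((∑ a, ∑ b, w a b • R (X a) (X b)) (X c)) (X d) := by
      have h6 : ∀ c d, w c d * B ((∑ a, ∑ b, w a b • R (X a) (X b)) (X c)) (X d) =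
          ∑ a, ∑ b, w c d * (w a b * B (R (X a) (X b) (X c)) (X d)) := by
        intro c d
        simp only [LinearMap.sum_apply, LinearMap.smul_apply, map_sum, map_smul, smul_eq_mul,
          Finset.mul_sum]
      simp only [h1, h6]
      have h7 : ∑ a, ∑ b, ∑ c, ∑ d, w c d * (w a b * B (R (X a) (X b) (X c)) (X d)) =
          ∑ a, ∑ c, ∑ d, ∑ b, w c d * (w a b * B (R (X a) (X b) (X c)) (X d)) := by
        refine Finset.sum_congr rfl fun a _ => ?_
        rw [Finset.sum_comm]
        exact Finset.sum_congr rfl fun c _ => Finset.sum_comm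
      rw [h7, Finset.sum_comm]
      exact Finset.sum_congr rfl fun c _ => Finset.sum_comm
    have h8 := bil_change hX R w
    have h9 := bil_change hX (B ∘ₗ (∑ i, ∑ j, (∑ a, ∑ b, x a i * w a b * x b j) • R (f i) (f j))) w
    rw [h5, h8]
    simp only [LinearMap.comp_apply, smul_eq_mul, ← ho] at h9 ⊢
    rw [h9]
    refine Finset.sum_congr rfl fun k _ => Finset.sum_congr rfl fun l _ => ?_
    congr 1
    simp only [LinearMap.sum_apply, LinearMap.smul_apply, map_sum, map_smul, smul_eq_mul]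
  -- symmetries
  have hTs : ∀ a b c d, B (R (X a) (X b) (X c)) (X d) = - B (R (X b) (X a) (X c)) (X d) := by
    intro a b c d
    rw [← hT, ← hT, ← Finset.sum_neg_distrib]
    refine Finset.sum_congr rfl fun c' _ => ?_
    rw [hR3 a b]
    ring
  have hTs' : ∀ a b c d, B (R (X a) (X b) (X c)) (X d) = - B (R (X a) (X b) (X d)) (X c) := by
    intro a b c d
    rw [← hT, ← hT, hR1, ← Finset.sum_neg_distrib]
    refine Finset.sum_congr rfl fun c' _ => ?_
    rw [hR4 a b]
    ring
  have hzero : ∀ v, (∀ d, B v (X d) = 0) → v = 0 := by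
    intro v hv
    rw [← par v]
    exact Finset.sum_eq_zero fun a _ => by rw [hv, zero_smul]
  have hRs : R + R.flip = 0 := by
    apply span_zero2 B par
    intro a b
    apply span_zero B par
    intro c
    apply hzero
    intro d
    simp only [LinearMap.add_apply, LinearMap.flip_apply, map_add]
    rw [hTs a b]
    ring
  have hQ12 : ∀ i j k l, B (R (f i) (f j) (f k)) (f l) = - B (R (f j) (f i) (f k)) (f l) := by
    intro i j k l
    have h1 : (R + R.flip) (f i) (f j) (f k) = 0 := by rw [hRs]; rfl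
    simp only [LinearMap.add_apply, LinearMap.flip_apply] at h1
    rw [eq_neg_of_add_eq_zero_left h1, map_neg, LinearMap.neg_apply]
  have hQ34 : ∀ i j k l, B (R (f i) (f j) (f k)) (f l) = - B (R (f i) (f j) (f l)) (f k) := by
    intro i j k l
    -- for all `u, v`
    have h1 : ∀ a b, ∀ z y, B (R (X a) (X b) z) y + B (R (X a) (X b) y) z = 0 := by
      intro a b
      have h2 : (B ∘ₗ R (X a) (X b)) + (B ∘ₗ R (X a) (X b)).flip = 0 := by
        apply span_zero2 B par
        intro c d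
        simp only [LinearMap.add_apply, LinearMap.flip_apply, LinearMap.comp_apply]
        rw [hTs' a b c d]
        ring
      intro z y
      have h3 : ((B ∘ₗ R (X a) (X b)) + (B ∘ₗ R (X a) (X b)).flip) z y = 0 := by rw [h2]; rfl
      simpa only [LinearMap.add_apply, LinearMap.flip_apply, LinearMap.comp_apply] using h3
    let ev : V → V → (V →ₗ[ℝ] V) →ₗ[ℝ] ℝ := fun z y => (B.flip y) ∘ₗ (LinearMap.applyₗ z)
    have hev : ∀ z y S, ev z y S = B (S z) y := by
      intro z y S
      simp only [ev, LinearMap.comp_apply, LinearMap.flip_apply, LinearMap.applyₗ_apply_apply]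
    have h4 : R.compr₂ (ev (f k) (f l) + ev (f l) (f k)) = 0 := by
      apply span_zero2 B par
      intro a b
      rw [LinearMap.compr₂_apply, LinearMap.add_apply, hev, hev]
      exact h1 a b _ _
    have h5 : R.compr₂ (ev (f k) (f l) + ev (f l) (f k)) (f i) (f j) = 0 := by rw [h4]; rfl
    rw [LinearMap.compr₂_apply, LinearMap.add_apply, hev, hev] at h5
    linarith
  -- conclusion
  have hfin : ∑ k, ∑ l, o k l * ∑ i, ∑ j, o i j * B (R (f i) (f j) (f k)) (f l) =
      - (4 * ∑ p : Pr n, ∑ q : Pr n, o p.1.1 p.1.2 * o q.1.1 q.1.2 *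
        B (R (f p.1.1) (f p.1.2) (f q.1.2)) (f q.1.1)) := by
    rw [sum_pairs (fun k l => o k l * ∑ i, ∑ j, o i j * B (R (f i) (f j) (f k)) (f l))]
    · have h1 : ∀ q : Pr n, o q.1.1 q.1.2 * ∑ i, ∑ j, o i j * B (R (f i) (f j) (f q.1.1)) (f q.1.2) =
          - (2 * ∑ p : Pr n, o p.1.1 p.1.2 * o q.1.1 q.1.2 *
            B (R (f p.1.1) (f p.1.2) (f q.1.2)) (f q.1.1)) := by
        intro q
        rw [sum_pairs (fun i j => o i j * B (R (f i) (f j) (f q.1.1)) (f q.1.2))]
        · rw [Finset.mul_sum, Finset.mul_sum, Finset.mul_sum, ← Finset.sum_neg_distrib]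
          refine Finset.sum_congr rfl fun p _ => ?_
          rw [hQ34 _ _ q.1.1 q.1.2]
          ring
        · intro i j
          rw [hos i j, hQ12 i j]
          ring
        · intro i
          rw [hoo, zero_mul]
      rw [Finset.sum_congr rfl fun q _ => h1 q, Finset.sum_neg_distrib, ← Finset.mul_sum,
        Finset.sum_comm]
      ring
    · intro k l
      rw [hos k l]
      have h1 : ∑ i, ∑ j, o i j * B (R (f i) (f j) (f k)) (f l) =
          - ∑ i, ∑ j, o i j * B (R (f i) (f j) (f l)) (f k) := by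
        rw [← Finset.sum_neg_distrib]
        refine Finset.sum_congr rfl fun i _ => ?_
        rw [← Finset.sum_neg_distrib]
        refine Finset.sum_congr rfl fun j _ => ?_
        rw [hQ34 _ _ k l]
        ring
      rw [h1]
      ring
    · intro k
      rw [hoo, zero_mul]
  have hsq2 : ∑ i, ∑ j, o i j ^ 2 = 2 * ∑ p : Pr n, o p.1.1 p.1.2 ^ 2 :=
    sum_pairs (fun i j => o i j ^ 2) (fun i j => by rw [hos i j]; ring) (fun i => by rw [hoo]; ring)
  rw [hR, hfin, hsq, hsq2]
  have := hM (fun p => o p.1.1 p.1.2)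
  linarith

end

end Gcurv

open Gcurv in
/-- the curvature bound -/
theorem s_gcurv (h1 : S_GCU) (h2 : S_RMP) : S_GCURV := by
  intro n M _ _ _ _ _ _ _ N D ε hn _ hC p w hw hPw
  classical
  obtain ⟨-, hR3, hR2, hR4⟩ := h2 M N D.C
  have hR1 := (h2 M N D.C).1
  have hev : ∀ a b, D.C.ev p (D.C.P a b) = D.g.inner p (D.T.X a p) (D.T.X b p) := fun a b => rfl
  obtain ⟨⟨f, hf⟩, hfr⟩ := hC.2 D.cov D.R D.lc D.rt p
  obtain ⟨hH, hE⟩ := hfr f hf
  have hfd : FiniteDimensional ℝ (TangentSpace (𝓡 n) p) :=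
    inferInstanceAs (FiniteDimensional ℝ (EU n))
  have hrk : Module.finrank ℝ (TangentSpace (𝓡 n) p) = n := finrank_euclideanSpace_fin
  let B : TangentSpace (𝓡 n) p →ₗ[ℝ] TangentSpace (𝓡 n) p →ₗ[ℝ] ℝ :=
    LinearMap.mk₂ ℝ (fun u v => D.g.inner p u v)
      (fun u v w => by rw [map_add]; rfl) (fun c u v => by rw [map_smul]; rfl)
      (fun u v w => by rw [map_add]) (fun c u v => by rw [map_smul])
  have hB : ∀ u v, B u v = D.g.inner p u v := fun u v => rfl
  refine core (V := TangentSpace (𝓡 n) p) hrk B (D.R p) (fun u v => D.g.symm p u v)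
    (fun a => D.T.X a p) (D.T.par p) f hf (fun a b c d => D.C.ev p (Rm D.C.F a b c d)) ?_ ?_ ?_ ?_ ε ?_
    w hw hPw
  · intro a b c d
    exact h1 n M hn D.g D.cov D.R D.lc D.rt N D.T D.F D.ok a b c d p
  · intro a b c d
    show D.C.ev p (Rm D.C.F a b c d) = - D.C.ev p (Rm D.C.F b a c d)
    rw [← map_neg, ← hR2]
  · intro a b c d
    have h := congrArg (D.C.ev p) (hR1 a b c d)
    rw [map_sum, map_sum] at h
    simp only [map_mul, hev] at h
    exact h
  · intro a b c d
    show D.C.ev p (Rm D.C.F a b c d) = - D.C.ev p (Rm D.C.F a b d c)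
    rw [← map_neg, ← hR4]
  · intro y
    exact quad_ge _ hH (-ε) hE y

end Pool.Agent.H781.CM
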