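import Pool.Agent.H781.CM.GSpec

/-!
Smooth functions are dense in `L²`.
-/

set_option autoImplicit false
set_option synthInstance.maxHeartbeats 400000
set_option maxHeartbeats 4000000

open Bundle Manifold ContDiff VectorField MeasureTheory Filter
open scoped Topology

noncomputable section

namespace Pool.Agent.H781.CM

open Pool.Agent.H781.NG Pool.Agent.H821R2 Pool.Agent.H821R3 Pool.Agent.H893R5.HO

theorem s_gdense : S_GDENSE := by
  intro n M _ _ _ _ _ _ _ N D u hu ε hε
  have hsc : SecondCountableTopology M := ChartedSpace.secondCountable_of_sigmaCompact (EU n) M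
  have hprob : IsProbabilityMeasure D.μ := D.prob
  have hmet : TopologicalSpace.MetrizableSpace M := inferInstance
  have hreg : D.μ.WeaklyRegular := by
    letI := TopologicalSpace.metrizableSpaceMetric M
    infer_instance
  have hu2 : MemLp u (ENNReal.ofReal 2) D.μ := by
    have h2 : ENNReal.ofReal 2 = 2 := by norm_num
    rw [h2]
    exact hu
  obtain ⟨g, hg, hgm⟩ := hu2.exists_boundedContinuous_integral_rpow_sub_le
    (by norm_num : (0:ℝ) < 2) (show 0 < ε / 4 by positivity)
  have hδ : 0 < √(ε / 4) := Real.sqrt_pos.2 (by positivity)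
  obtain ⟨h, hh, -⟩ := Continuous.exists_contMDiff_approx (𝓡 n) (⊤ : ℕ∞) g.continuous
    (continuous_const (y := √(ε / 4))) (fun _ => hδ)
  refine ⟨(⟨fun p => h p, h.contMDiff⟩ : SA n M), ?_⟩
  change ∫ p, (u p - h p) ^ 2 ∂D.μ ≤ ε
  have hint : Integrable (fun p => ‖u p - g p‖ ^ (2:ℝ)) D.μ := by
    have h3 := (hu2.sub hgm).integrable_norm_rpow (by norm_num) (by simp)
    have h4 : (ENNReal.ofReal 2).toReal = 2 := by norm_num
    rw [h4] at h3
    exact h3
  have hb : ∀ p, (u p - h p) ^ 2 ≤ 2 * ‖u p - g p‖ ^ (2:ℝ) + ε / 2 := by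
    intro p
    have h5 : |h p - g p| < √(ε / 4) := by
      have := hh p
      rwa [Real.dist_eq] at this
    have h6 : (h p - g p) ^ 2 ≤ ε / 4 := by
      rw [← sq_abs, ← Real.sq_sqrt (show 0 ≤ ε / 4 by positivity)]
      exact pow_le_pow_left₀ (abs_nonneg _) h5.le 2
    have h7 : ‖u p - g p‖ ^ (2:ℝ) = (u p - g p) ^ 2 := by
      rw [Real.rpow_two, Real.norm_eq_abs, sq_abs]
    rw [h7]
    nlinarith [sq_nonneg ((u p - g p) + (h p - g p))]
  calc ∫ p, (u p - h p) ^ 2 ∂D.μ ≤ ∫ p, (2 * ‖u p - g p‖ ^ (2:ℝ) + ε / 2) ∂D.μ := by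
        apply integral_mono_of_nonneg
        · exact Eventually.of_forall fun p => sq_nonneg _
        · exact (hint.const_mul 2).add (integrable_const _)
        · exact Eventually.of_forall hb
    _ = 2 * ∫ p, ‖u p - g p‖ ^ (2:ℝ) ∂D.μ + ε / 2 := by
        rw [integral_add (hint.const_mul 2) (integrable_const _), integral_const_mul,
          integral_const]
        simp
    _ ≤ 2 * (ε / 4) + ε / 2 := by gcongr
    _ = ε := by ring

end Pool.Agent.H781.CM
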