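import Pool.Agent.H781.CM.GSpec

/-!
The diameter: functions with gradient at most `c` vary by at most `c`.
-/

set_option autoImplicit false
set_option synthInstance.maxHeartbeats 400000
set_option maxHeartbeats 4000000
set_option linter.unusedSectionVars false

open Bundle Manifold ContDiff VectorField MeasureTheory Filter
open scoped Topology

noncomputable section

namespace Pool.Agent.H781.CM

open Pool.Agent.H781.NG Pool.Agent.H821R2 Pool.Agent.H821R3 Pool.Agent.H893R5.HO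
  Pool.Agent.H781.S22

namespace Gdiam

variable {n : ℕ} {M : Type} [TopologicalSpace M] [ChartedSpace (EU n) M] [IsManifold (𝓡 n) ∞ M]
  {g : Met n M} {N : ℕ}

theorem sum_sq (T : PF g N) (p : M) (v : TangentSpace (𝓡 n) p) :
    g.inner p v v = ∑ a, g.inner p v (T.X a p) ^ 2 := by
  have h1 : g.inner p v v = g.inner p v (∑ a, g.inner p v (T.X a p) • T.X a p) :=
    congrArg (g.inner p v) (T.par p v).symm
  rw [h1, map_sum]
  refine Finset.sum_congr rfl fun a _ => ?_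
  rw [map_smul, smul_eq_mul, sq]

theorem dH_eq (T : PF g N) (f : M → ℝ) (p : M) (v : TangentSpace (𝓡 n) p) :
    mvfderiv (𝓡 n) f p v = ∑ a, g.inner p v (T.X a p) * mvfderiv (𝓡 n) f p (T.X a p) := by
  have h1 : mvfderiv (𝓡 n) f p v =
      mvfderiv (𝓡 n) f p (∑ a, g.inner p v (T.X a p) • T.X a p) :=
    congrArg (mvfderiv (𝓡 n) f p) (T.par p v).symm
  rw [h1, map_sum]
  refine Finset.sum_congr rfl fun a _ => ?_
  rw [map_smul, smul_eq_mul]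

theorem dH_le (T : PF g N) (f : M → ℝ) (c : ℝ) (hc : 0 ≤ c) (p : M)
    (hf : ∑ a, mvfderiv (𝓡 n) f p (T.X a p) ^ 2 ≤ c ^ 2) (v : TangentSpace (𝓡 n) p) :
    |mvfderiv (𝓡 n) f p v| ≤ c * √(g.inner p v v) := by
  have h1 : (mvfderiv (𝓡 n) f p v) ^ 2 ≤ g.inner p v v * c ^ 2 := by
    rw [dH_eq T f p v, sum_sq T p v]
    refine (Finset.sum_mul_sq_le_sq_mul_sq _ _ _).trans ?_
    exact mul_le_mul_of_nonneg_left hf (Finset.sum_nonneg fun a _ => sq_nonneg _)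
  have h2 : |mvfderiv (𝓡 n) f p v| = √((mvfderiv (𝓡 n) f p v) ^ 2) := (Real.sqrt_sq_eq_abs _).symm
  rw [h2]
  refine (Real.sqrt_le_sqrt h1).trans ?_
  rw [mul_comm (g.inner p v v) (c ^ 2), Real.sqrt_mul (sq_nonneg c), Real.sqrt_sq hc]

theorem cont_tan (γ : ℝ → M) (hγ : ContMDiffOn 𝓘(ℝ, ℝ) (𝓡 n) 1 γ (Set.Icc 0 1)) :
    ContinuousOn (fun t : ℝ => (⟨γ t, vel γ t⟩ : TangentBundle (𝓡 n) M)) (Set.Icc 0 1) := by
  have h2 := hγ.continuousOn_tangentMapWithin le_rfl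
    (uniqueMDiffOn_iff_uniqueDiffOn.2 (uniqueDiffOn_Icc zero_lt_one))
  have h3 : Continuous (fun t : ℝ => (⟨t, (1 : ℝ)⟩ : TangentBundle 𝓘(ℝ, ℝ) ℝ)) := by
    have h4 : Continuous ((tangentBundleModelSpaceHomeomorph 𝓘(ℝ, ℝ)).symm) :=
      (tangentBundleModelSpaceHomeomorph 𝓘(ℝ, ℝ)).symm.continuous
    have h5 : Continuous (fun t : ℝ => ((t, (1 : ℝ)) : ModelProd ℝ ℝ)) :=
      (continuous_id.prodMk continuous_const : Continuous fun t : ℝ => ((t, (1 : ℝ)) : ℝ × ℝ))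
    exact h4.comp h5
  exact h2.comp h3.continuousOn (fun t ht => ht)

theorem cont_g (g : Met n M) (γ : ℝ → M)
    (hγ : ContMDiffOn 𝓘(ℝ, ℝ) (𝓡 n) 1 γ (Set.Icc 0 1)) :
    ContinuousOn (fun t => g.inner (γ t) (vel γ t) (vel γ t)) (Set.Icc 0 1) := by
  have h1 : ContMDiffOn 𝓘(ℝ, ℝ) ((𝓡 n).prod 𝓘(ℝ, EU n)) 0
      (fun t : ℝ => (⟨γ t, vel γ t⟩ : TangentBundle (𝓡 n) M)) (Set.Icc 0 1) :=
    contMDiffOn_zero_iff.2 (cont_tan γ hγ)
  have h0 : ContMDiffOn 𝓘(ℝ, ℝ) (𝓡 n) 0 γ (Set.Icc 0 1) := hγ.of_le zero_le_one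
  rw [← contMDiffOn_zero_iff (I := 𝓘(ℝ, ℝ)) (I' := 𝓘(ℝ, ℝ))]
  intro t ht
  have this : ContMDiffWithinAt 𝓘(ℝ, ℝ) ((𝓡 n).prod 𝓘(ℝ, ℝ)) 0
      (fun t ↦ TotalSpace.mk' ℝ (E := Bundle.Trivial M ℝ) (γ t)
        (g.inner (γ t) (vel γ t) (vel γ t))) (Set.Icc 0 1) t := by
    apply ContMDiffWithinAt.clm_bundle_apply₂ (F₁ := EU n) (F₂ := EU n)
    · exact ContMDiffAt.comp_contMDiffWithinAt t
        ((g.contMDiff (γ t)).of_le (show (0 : WithTop ℕ∞) ≤ ∞ from zero_le)) (h0 t ht)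
    · exact h1 t ht
    · exact h1 t ht
  simp only [contMDiffWithinAt_totalSpace] at this
  exact this.2

theorem hder {f : M → ℝ} (hf : Sm (𝓡 n) f) (γ : ℝ → M)
    (hγ : ContMDiffOn 𝓘(ℝ, ℝ) (𝓡 n) 1 γ (Set.Icc 0 1)) (t : ℝ) (ht : t ∈ Set.Icc (0 : ℝ) 1) :
    HasDerivWithinAt (fun t => f (γ t)) (mvfderiv (𝓡 n) f (γ t) (vel γ t)) (Set.Icc 0 1) t := by
  have h1 : HasMFDerivWithinAt 𝓘(ℝ, ℝ) (𝓡 n) γ (Set.Icc 0 1) t
      (mfderivWithin 𝓘(ℝ, ℝ) (𝓡 n) γ (Set.Icc 0 1) t) :=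
    (hγ.mdifferentiableOn one_ne_zero t ht).hasMFDerivWithinAt
  have h2 : HasMFDerivAt (𝓡 n) 𝓘(ℝ, ℝ) f (γ t) (mfderiv (𝓡 n) 𝓘(ℝ, ℝ) f (γ t)) :=
    (Sm.mdiff hf (γ t)).hasMFDerivAt
  have h3 := HasMFDerivAt.comp_hasMFDerivWithinAt t h2 h1
  let L : ℝ →L[ℝ] ℝ := (show EU n →L[ℝ] ℝ from mfderiv (𝓡 n) 𝓘(ℝ, ℝ) f (γ t)).comp
    (show ℝ →L[ℝ] EU n from mfderivWithin 𝓘(ℝ, ℝ) (𝓡 n) γ (Set.Icc 0 1) t)
  have h4 : HasFDerivWithinAt (fun t => f (γ t)) L (Set.Icc 0 1) t :=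
    hasMFDerivWithinAt_iff_hasFDerivWithinAt.1 h3
  exact h4.hasDerivWithinAt

theorem curve_le (T : PF g N) {f : M → ℝ} (hf : Sm (𝓡 n) f) (c : ℝ) (hc : 0 ≤ c)
    (hbd : ∀ p, ∑ a, mvfderiv (𝓡 n) f p (T.X a p) ^ 2 ≤ c ^ 2) (γ : ℝ → M)
    (hγ : ContMDiffOn 𝓘(ℝ, ℝ) (𝓡 n) 1 γ (Set.Icc 0 1)) :
    |f (γ 1) - f (γ 0)| ≤ c * ∫ t in (0 : ℝ)..1, √(g.inner (γ t) (vel γ t) (vel γ t)) := by
  have h01 : (0 : ℝ) ≤ 1 := zero_le_one
  have hu : ContDiffOn ℝ 1 (fun t => f (γ t)) (Set.Icc 0 1) := by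
    have h1 : ContMDiffOn 𝓘(ℝ, ℝ) 𝓘(ℝ, ℝ) 1 (f ∘ γ) (Set.Icc 0 1) :=
      (ContMDiff.of_le hf (by exact_mod_cast le_top)).comp_contMDiffOn hγ
    exact contMDiffOn_iff_contDiffOn.1 h1
  have hcd : ContinuousOn (fun t => mvfderiv (𝓡 n) f (γ t) (vel γ t) : ℝ → ℝ) (Set.Icc 0 1) := by
    refine (hu.continuousOn_derivWithin (uniqueDiffOn_Icc zero_lt_one) le_rfl).congr ?_
    intro t ht
    exact ((hder hf γ hγ t ht).derivWithin (uniqueDiffOn_Icc zero_lt_one t ht)).symm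
  have hint : IntervalIntegrable (fun t => mvfderiv (𝓡 n) f (γ t) (vel γ t) : ℝ → ℝ)
      volume 0 1 := by
    refine ContinuousOn.intervalIntegrable ?_
    rwa [Set.uIcc_of_le h01]
  have hgi : IntervalIntegrable (fun t => √(g.inner (γ t) (vel γ t) (vel γ t))) volume 0 1 := by
    refine ContinuousOn.intervalIntegrable ?_
    rw [Set.uIcc_of_le h01]
    exact (cont_g g γ hγ).sqrt
  have hftc : ∫ t in (0 : ℝ)..1, (mvfderiv (𝓡 n) f (γ t) (vel γ t) : ℝ) = f (γ 1) - f (γ 0) := by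
    refine intervalIntegral.integral_eq_sub_of_hasDerivAt_of_le h01 hu.continuousOn ?_ hint
    intro t ht
    exact (hder hf γ hγ t (Set.Ioo_subset_Icc_self ht)).hasDerivAt (Icc_mem_nhds ht.1 ht.2)
  rw [← hftc, ← intervalIntegral.integral_const_mul]
  refine (intervalIntegral.abs_integral_le_integral_abs h01).trans ?_
  refine intervalIntegral.integral_mono_on h01 hint.abs (hgi.const_mul c) ?_
  intro t _
  exact dH_le T f c hc (γ t) (hbd (γ t)) (vel γ t)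

theorem core [CompactSpace M] [MeasurableSpace M] [BorelSpace M] (D : GD n M N)
    (hD : DiamLE D.g 1) (h : SA n M) (c : ℝ) (hc : 0 ≤ c)
    (hg : ∀ p, evA p (∑ a, D.F.e a h * D.F.e a h) ≤ c ^ 2) (x y : M) :
    |evA x h - evA y h| ≤ c := by
  have hbd : ∀ p, ∑ a, mvfderiv (𝓡 n) h.1 p (D.T.X a p) ^ 2 ≤ c ^ 2 := by
    intro p
    refine le_trans (le_of_eq ?_) (hg p)
    rw [map_sum]
    refine Finset.sum_congr rfl fun a _ => ?_
    rw [map_mul, D.ok.e, ev_derA, sq]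
  refine le_of_forall_pos_le_add fun ε hε => ?_
  have hc1 : 0 < c + 1 := by linarith
  obtain ⟨γ, hγ, h0, h1, hl⟩ := hD y x (ε / (c + 1)) (by positivity)
  have h2 := curve_le D.T h.2 c hc hbd γ hγ
  rw [h0, h1] at h2
  refine (show |evA x h - evA y h| ≤ _ from h2).trans ?_
  have h3 : c * ∫ t in (0 : ℝ)..1, √(D.g.inner (γ t) (vel γ t) (vel γ t)) ≤
      c * (1 + ε / (c + 1)) := mul_le_mul_of_nonneg_left hl hc
  refine h3.trans ?_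
  have h4 : c * (ε / (c + 1)) ≤ ε := by
    rw [mul_div_assoc', div_le_iff₀ hc1]
    nlinarith
  linarith

end Gdiam

open Gdiam in
theorem s_gdiam : S_GDIAM := by
  intro n M _ _ _ _ _ _ _ N D hD h c hc hg x y
  exact core D hD h c hc hg x y

end Pool.Agent.H781.CM
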