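import Pool.Agent.H781.CM.GSpec
import Pool.Agent.H781.CM.Base

/-!
de Rham cohomology in the frame.
-/

set_option autoImplicit false
set_option synthInstance.maxHeartbeats 400000
set_option maxHeartbeats 4000000
set_option linter.unusedSectionVars false

open Bundle Manifold ContDiff VectorField MeasureTheory Filter
open scoped Topology

noncomputable section

namespace Pool.Agent.H781.CM

open Pool.Agent.H781.NG Pool.Agent.H821R2 Pool.Agent.H821R3 Pool.Agent.H893R5.HO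
  Pool.Agent.H781.S22

namespace Gdr

section ext

variable {n : ℕ} {M : Type} [TopologicalSpace M] [ChartedSpace (EU n) M] [IsManifold (𝓡 n) ∞ M]

/-- every tangent vector is the value of a smooth field -/
theorem exists_field {g : Met n M} {N : ℕ} (T : PF g N) (x : M) (v : TangentSpace (𝓡 n) x) :
    ∃ Z : VF n M, SmV Z ∧ Z x = v := by
  refine ⟨fun y => ∑ a, g.inner x v (T.X a x) • T.X a y, ?_, T.par x v⟩
  apply ContMDiff.sum_section (V := fun x : M => TangentSpace (𝓡 n) x) (F := EU n)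
  intro a _
  exact ContMDiff.const_smul_section (T.hX a)

/-- the exterior derivative is unique -/
theorem isExtD_unique {g : Met n M} {N : ℕ} (T : PF g N) {p : ℕ} {α : AF n M p}
    {β β' : AF n M (p + 1)} (h : IsExtD α β) (h' : IsExtD α β') : β = β' := by
  funext x
  apply AlternatingMap.ext
  intro v
  choose Y hY1 hY2 using fun i => exists_field T x (v i)
  have h1 := h Y hY1 x
  have h2 := h' Y hY1 x
  have h3 : (fun i => Y i x) = v := funext hY2
  rw [h3] at h1 h2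
  rw [h1, h2]

end ext

end Gdr

open Gdr in
theorem s_gdr (h1 : S_DRF) (h2 : S_DRD) (h3 : S_DDH) : S_GDR := by
  intro n M _ _ _ _ _ _ _ N D hn p
  obtain ⟨-, hHor, -, -, hDeg, -, -, hdd, -⟩ := h3 M N D.C
  choose Φ hΦ1 hΦ2 hΦ3 using fun q : ℕ => h1 n M N D hn q
  -- the exterior derivative
  have hdm : ∀ (q : ℕ) (u : Fk N D.C.A), u ∈ HD D.C q → dd D.C.F u ∈ HD D.C (q + 1) :=
    fun q u hu => ⟨hHor u hu.1, hDeg q u hu.2⟩
  have hext : ∀ (q : ℕ) (u : HD D.C q),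
      IsExtD (Φ q u) (Φ (q + 1) ⟨dd D.C.F u.1, hdm q u.1 u.2⟩) := fun q u =>
    h2 n M N D hn q u.1 _ _ u.2.1 u.2.2 (hΦ1 q u) (hΦ1 (q + 1) _)
  have huniq : ∀ {q : ℕ} {α : AF n M q} {β β' : AF n M (q + 1)}, IsExtD α β → IsExtD α β' →
      β = β' := fun h h' => isExtD_unique D.T h h'
  -- the isomorphism of the closed forms
  let Ψ : Zp D.C p →ₗ[ℝ] ZF n M p :=
    { toFun := fun u => ⟨Φ p ⟨u.1, u.2.1⟩, (hΦ3 p _).2 ⟨_, rfl⟩, by
        have h := hext p ⟨u.1, u.2.1⟩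
        have h0 : dd D.C.F u.1 = 0 := u.2.2
        have h4 : (⟨dd D.C.F u.1, hdm p u.1 u.2.1⟩ : HD D.C (p + 1)) = 0 := Subtype.ext h0
        have h5 : Φ (p + 1) ⟨dd D.C.F u.1, hdm p u.1 u.2.1⟩ = 0 := by rw [h4, map_zero]
        rw [h5] at h
        exact h⟩
      map_add' := fun u w => Subtype.ext ((Φ p).map_add ⟨u.1, u.2.1⟩ ⟨w.1, w.2.1⟩)
      map_smul' := fun c u => Subtype.ext ((Φ p).map_smul c ⟨u.1, u.2.1⟩) }
  have hΨ : ∀ u : Zp D.C p, (Ψ u : AF n M p) = Φ p ⟨u.1, u.2.1⟩ := fun u => rfl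
  have hinj : Function.Injective Ψ := by
    intro u w h
    have h4 : Φ p ⟨u.1, u.2.1⟩ = Φ p ⟨w.1, w.2.1⟩ := congrArg Subtype.val h
    have h5 := hΦ2 p h4
    have h6 : (u : Fk N D.C.A) = w := congrArg (fun z : HD D.C p => (z : Fk N D.C.A)) h5
    exact Subtype.ext h6
  have hsurj : Function.Surjective Ψ := by
    rintro ⟨α, hα1, hα2⟩
    obtain ⟨u, rfl⟩ := (hΦ3 p α).1 hα1
    have h4 := huniq (hext p u) hα2
    have h5 : (⟨dd D.C.F u.1, hdm p u.1 u.2⟩ : HD D.C (p + 1)) = 0 := by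
      apply hΦ2 (p + 1)
      rw [h4, map_zero]
    have h6 : dd D.C.F u.1 = 0 := congrArg Subtype.val h5
    exact ⟨⟨u.1, u.2, h6⟩, Subtype.ext rfl⟩
  let e : Zp D.C p ≃ₗ[ℝ] ZF n M p := LinearEquiv.ofBijective Ψ ⟨hinj, hsurj⟩
  -- the exact forms
  have hB : ∀ u : Zp D.C p, (u : Fk N D.C.A) ∈ Bp D.C p ↔ (Ψ u : AF n M p) ∈ BF n M p := by
    intro u
    rw [hΨ]
    obtain ⟨u, hu⟩ := u
    cases p with
    | zero =>
      show u ∈ (⊥ : Submodule ℝ (Fk N D.C.A)) ↔ Φ 0 ⟨u, hu.1⟩ ∈ (⊥ : Submodule ℝ (AF n M 0))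
      rw [Submodule.mem_bot, Submodule.mem_bot]
      constructor
      · intro h
        have h4 : (⟨u, hu.1⟩ : HD D.C 0) = 0 := Subtype.ext h
        rw [h4, map_zero]
      · intro h
        have h4 : (⟨u, hu.1⟩ : HD D.C 0) = 0 := hΦ2 0 (by rw [h, map_zero])
        exact congrArg Subtype.val h4
    | succ q =>
      constructor
      · rintro ⟨w, hw, hwu⟩
        have hwu' : dd D.C.F w = u := hwu
        refine ⟨Φ q ⟨w, hw⟩, (hΦ3 q _).2 ⟨_, rfl⟩, (hΦ3 (q + 1) _).2 ⟨_, rfl⟩, ?_⟩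
        have h4 := hext q ⟨w, hw⟩
        have h5 : (⟨dd D.C.F w, hdm q w hw⟩ : HD D.C (q + 1)) = ⟨u, hu.1⟩ := Subtype.ext hwu'
        have h6 : Φ (q + 1) ⟨dd D.C.F w, hdm q w hw⟩ = Φ (q + 1) ⟨u, hu.1⟩ := by rw [h5]
        rw [h6] at h4
        exact h4
      · rintro ⟨α, hα1, -, hα3⟩
        obtain ⟨w, rfl⟩ := (hΦ3 q α).1 hα1
        have h4 := huniq (hext q w) hα3
        have h5 := hΦ2 (q + 1) h4
        exact ⟨w.1, w.2, congrArg Subtype.val h5⟩
  have hmap : ((BF n M p).comap (ZF n M p).subtype).map (e.symm : ZF n M p →ₗ[ℝ] Zp D.C p) =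
      (Bp D.C p).comap (Zp D.C p).subtype := by
    ext u
    rw [Submodule.mem_map_equiv, Submodule.mem_comap, Submodule.mem_comap]
    exact (hB u).symm
  exact ⟨Submodule.Quotient.equiv _ _ e.symm hmap⟩

end Pool.Agent.H781.CM
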