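import Pool.Agent.H781.CM.GSpec

/-!
The connection of the trivial bundle from a Parseval frame (helper870): proof of `S_GFR`.
-/

set_option autoImplicit false
set_option synthInstance.maxHeartbeats 400000
set_option maxHeartbeats 4000000
set_option linter.unusedSectionVars false

open Bundle Manifold ContDiff VectorField MeasureTheory Filter
open scoped Topology

noncomputable section

namespace Pool.Agent.H781.CM

namespace Gfr

open Pool.Agent.H781.NG Pool.Agent.H821R2 Pool.Agent.H821R3 Pool.Agent.H893R5.HO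
  Pool.Agent.H781.S22

variable {n : ℕ} {M : Type} [TopologicalSpace M] [ChartedSpace (EU n) M] [IsManifold (𝓡 n) ∞ M]
  {g : Met n M} {cov : Cov n M} {N : ℕ}

theorem ev_Pm (T : PF g N) (b c : Fin N) (p : M) :
    evA p (Pm T b c) = g.inner p (T.X b p) (T.X c p) := rfl

theorem ev_cG (h : IsLeviCivita g cov) (T : PF g N) (a b c : Fin N) (p : M) :
    evA p (cG h T a b c) = g.inner p (cov (T.X b) p (T.X a p)) (T.X c p) := rfl

theorem Pm_symm (T : PF g N) (b c : Fin N) : Pm T b c = Pm T c b :=
  Subtype.ext (gi_comm _ _)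

/-- expansion of the inner product -/
theorem exp_inner (T : PF g N) (p : M) (v w : TangentSpace (𝓡 n) p) :
    ∑ b, g.inner p v (T.X b p) * g.inner p w (T.X b p) = g.inner p w v := by
  have h := congrArg (fun u => g.inner p w u) (T.par p v)
  simp only [map_sum, map_smul, smul_eq_mul] at h
  exact h

/-- the projection as a matrix -/
def PM (T : PF g N) : Matrix (Fin N) (Fin N) (SA n M) := Matrix.of fun b c => Pm T b c

/-- its derivative -/
def DM (T : PF g N) (a : Fin N) : Matrix (Fin N) (Fin N) (SA n M) :=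
  Matrix.of fun b c => derA (T.hX a) (Pm T b c)

/-- the connection matrix of the Levi-Civita connection -/
def KM (h : IsLeviCivita g cov) (T : PF g N) (a : Fin N) : Matrix (Fin N) (Fin N) (SA n M) :=
  Matrix.of fun b c => cG h T a b c

/-- the connection matrix -/
def GM (h : IsLeviCivita g cov) (T : PF g N) (a : Fin N) : Matrix (Fin N) (Fin N) (SA n M) :=
  Matrix.of fun b c => Gm h T a b c

theorem GM_eq (h : IsLeviCivita g cov) (T : PF g N) (a : Fin N) :
    GM h T a = KM h T a - PM T * DM T a := by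
  refine Matrix.ext fun b c => ?_
  rfl

theorem PM_T (T : PF g N) : (PM T).transpose = PM T := by
  refine Matrix.ext fun b c => ?_
  exact Pm_symm T c b

theorem DM_T (T : PF g N) (a : Fin N) : (DM T a).transpose = DM T a := by
  refine Matrix.ext fun b c => ?_
  show derA (T.hX a) (Pm T c b) = derA (T.hX a) (Pm T b c)
  rw [Pm_symm]

theorem PM_idem (T : PF g N) : PM T * PM T = PM T := by
  refine Matrix.ext fun a c => ?_
  show ∑ b, Pm T a b * Pm T b c = Pm T a c
  apply ext_evA
  intro p
  rw [map_sum]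
  simp only [map_mul]
  have h1 := exp_inner T p (T.X a p) (T.X c p)
  rw [ev_Pm, g.symm p (T.X a p) (T.X c p), ← h1]
  refine Finset.sum_congr rfl fun b _ => ?_
  rw [ev_Pm, ev_Pm, g.symm p (T.X b p) (T.X c p)]

theorem KM_P (h : IsLeviCivita g cov) (T : PF g N) (a : Fin N) : KM h T a * PM T = KM h T a := by
  refine Matrix.ext fun b c => ?_
  show ∑ d, cG h T a b d * Pm T d c = cG h T a b c
  apply ext_evA
  intro p
  rw [map_sum]
  simp only [map_mul]
  have h1 := exp_inner T p (cov (T.X b) p (T.X a p)) (T.X c p)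
  rw [ev_cG, g.symm p (cov (T.X b) p (T.X a p)) (T.X c p), ← h1]
  refine Finset.sum_congr rfl fun d _ => ?_
  rw [ev_cG, ev_Pm, g.symm p (T.X d p) (T.X c p)]

theorem P_KT (h : IsLeviCivita g cov) (T : PF g N) (a : Fin N) :
    PM T * (KM h T a).transpose = (KM h T a).transpose := by
  conv_rhs => rw [← KM_P h T a, Matrix.transpose_mul, PM_T]

theorem DM_eq (h : IsLeviCivita g cov) (T : PF g N) (a : Fin N) :
    DM T a = KM h T a + (KM h T a).transpose := by
  refine Matrix.ext fun b c => ?_
  show derA (T.hX a) (Pm T b c) = cG h T a b c + cG h T a c b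
  apply ext_evA
  intro p
  have h1 := congrFun (der_gi h (T.hX a) (T.hX b) (T.hX c)) p
  rw [map_add]
  refine h1.trans ?_
  show _ + g.inner p (T.X b p) (nabla cov (T.X a) (T.X c) p) = _
  rw [g.symm p (T.X b p)]
  rfl

theorem leib (T : PF g N) (a : Fin N) : DM T a = DM T a * PM T + PM T * DM T a := by
  refine Matrix.ext fun b c => ?_
  show derA (T.hX a) (Pm T b c) =
    ∑ d, derA (T.hX a) (Pm T b d) * Pm T d c + ∑ d, Pm T b d * derA (T.hX a) (Pm T d c)
  have h1 : Pm T b c = ∑ d, Pm T b d * Pm T d c := by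
    have := congrFun (congrFun (PM_idem T) b) c
    exact this.symm
  conv_lhs => rw [h1]
  rw [map_sum, ← Finset.sum_add_distrib]
  refine Finset.sum_congr rfl fun d _ => ?_
  rw [Derivation.leibniz, smul_eq_mul, smul_eq_mul]
  ring

theorem PDP (T : PF g N) (a : Fin N) : PM T * DM T a * PM T = 0 := by
  have h1 := leib T a
  have h2 := congrArg (fun X => PM T * X * PM T) h1
  simp only [mul_add, add_mul] at h2
  have h3 : PM T * (DM T a * PM T) * PM T = PM T * DM T a * PM T := by
    rw [mul_assoc, mul_assoc (DM T a), PM_idem, ← mul_assoc]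
  have h4 : PM T * (PM T * DM T a) * PM T = PM T * DM T a * PM T := by
    rw [← mul_assoc (PM T) (PM T), PM_idem]
  rw [h3, h4] at h2
  exact left_eq_add.1 h2

theorem anti (h : IsLeviCivita g cov) (T : PF g N) (a b c : Fin N) :
    Gm h T a b c = - Gm h T a c b := by
  have h1 : GM h T a = - (GM h T a).transpose := by
    rw [GM_eq, Matrix.transpose_sub, Matrix.transpose_mul, DM_T, PM_T]
    have h2 := leib T a
    have h3 := DM_eq h T a
    have h4 : KM h T a + (KM h T a).transpose = DM T a * PM T + PM T * DM T a :=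
      h3.symm.trans h2
    rw [← sub_eq_zero]
    have h5 : KM h T a - PM T * DM T a - -((KM h T a).transpose - DM T a * PM T) =
        (KM h T a + (KM h T a).transpose) - (DM T a * PM T + PM T * DM T a) := by abel
    rw [h5, h4, sub_self]
  exact congrFun (congrFun h1 b) c

theorem Pe (T : PF g N) (a : Fin N) (f : SA n M) :
    ∑ b, Pm T a b * derA (T.hX b) f = derA (T.hX a) f := by
  apply ext_evA
  intro p
  rw [map_sum]
  simp only [map_mul, ev_derA, ev_Pm]
  have h1 := congrArg (fun v => mvfderiv (𝓡 n) f.1 p v) (T.par p (T.X a p))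
  simp only [map_sum, map_smul, smul_eq_mul] at h1
  exact h1

theorem PK (h : IsLeviCivita g cov) (T : PF g N) (a b c : Fin N) :
    ∑ d, Pm T a d * cG h T d b c = cG h T a b c := by
  apply ext_evA
  intro p
  rw [map_sum]
  simp only [map_mul, ev_cG, ev_Pm]
  have h1 := congrArg (fun v => g.inner p (T.X c p) (cov (T.X b) p v)) (T.par p (T.X a p))
  simp only [map_sum, map_smul, smul_eq_mul] at h1
  rw [g.symm p (cov (T.X b) p (T.X a p)) (T.X c p), ← h1]
  refine Finset.sum_congr rfl fun d _ => ?_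
  rw [g.symm p (cov (T.X b) p (T.X d p)) (T.X c p)]

theorem PG (h : IsLeviCivita g cov) (T : PF g N) (a b c : Fin N) :
    ∑ d, Pm T a d * Gm h T d b c = Gm h T a b c := by
  unfold Gm
  simp only [mul_sub, Finset.sum_sub_distrib]
  rw [PK]
  congr 1
  simp only [Finset.mul_sum]
  rw [Finset.sum_comm]
  refine Finset.sum_congr rfl fun k _ => ?_
  rw [← Pe T a (Pm T k c), Finset.mul_sum]
  refine Finset.sum_congr rfl fun d _ => ?_
  ring

theorem Ppar (h : IsLeviCivita g cov) (T : PF g N) (a b c : Fin N) :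
    derA (T.hX a) (Pm T b c) = ∑ d, (Gm h T a b d * Pm T d c + Gm h T a c d * Pm T b d) := by
  have h1 : DM T a = GM h T a * PM T + PM T * (GM h T a).transpose := by
    rw [GM_eq, Matrix.transpose_sub, Matrix.transpose_mul, DM_T, PM_T, sub_mul, mul_sub, KM_P,
      P_KT, PDP, ← mul_assoc, PDP, sub_zero, sub_zero]
    exact DM_eq h T a
  have h2 := congrFun (congrFun h1 b) c
  refine h2.trans ?_
  show ∑ d, Gm h T a b d * Pm T d c + ∑ d, Pm T b d * Gm h T a c d = _
  rw [← Finset.sum_add_distrib]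
  refine Finset.sum_congr rfl fun d _ => ?_
  ring

theorem cov_X (h : IsLeviCivita g cov) (T : PF g N) (a b : Fin N) (p : M) :
    cov (T.X b) p (T.X a p) = ∑ c, evA p (cG h T a b c) • T.X c p :=
  (T.par p (cov (T.X b) p (T.X a p))).symm

theorem zero_term (T : PF g N) (a b : Fin N) (f : SA n M) :
    ∑ c, (∑ d, Pm T b d * derA (T.hX a) (Pm T d c)) * derA (T.hX c) f = 0 := by
  have h1 : ∀ k, ∑ c, (∑ d, Pm T b d * derA (T.hX a) (Pm T d c)) * Pm T c k = 0 := fun k =>
    congrFun (congrFun (PDP T a) b) k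
  calc ∑ c, (∑ d, Pm T b d * derA (T.hX a) (Pm T d c)) * derA (T.hX c) f
      = ∑ c, ∑ k, ((∑ d, Pm T b d * derA (T.hX a) (Pm T d c)) * Pm T c k) *
          derA (T.hX k) f := by
        refine Finset.sum_congr rfl fun c _ => ?_
        rw [← Pe T c f, Finset.mul_sum]
        refine Finset.sum_congr rfl fun k _ => ?_
        ring
    _ = ∑ k, (∑ c, (∑ d, Pm T b d * derA (T.hX a) (Pm T d c)) * Pm T c k) *
          derA (T.hX k) f := by
        rw [Finset.sum_comm]
        refine Finset.sum_congr rfl fun k _ => ?_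
        rw [Finset.sum_mul]
    _ = 0 := by
        refine Finset.sum_eq_zero fun k _ => ?_
        rw [h1, zero_mul]

theorem tors [T2Space M] [CompactSpace M] (hn : 1 ≤ n) (h : IsLeviCivita g cov) (T : PF g N)
    (a b : Fin N) (f : SA n M) :
    derA (T.hX a) (derA (T.hX b) f) - derA (T.hX b) (derA (T.hX a) f) =
      ∑ c, (Gm h T a b c - Gm h T b a c) * derA (T.hX c) f := by
  have : Nonempty (Fin n) := ⟨⟨0, hn⟩⟩
  have : Nontrivial (EU n) := inferInstance
  have e1 : ∑ c, (Gm h T a b c - Gm h T b a c) * derA (T.hX c) f =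
      ∑ c, (cG h T a b c - cG h T b a c) * derA (T.hX c) f := by
    have h2 : ∑ c, (Gm h T a b c - Gm h T b a c) * derA (T.hX c) f =
        ∑ c, (cG h T a b c - cG h T b a c) * derA (T.hX c) f -
        (∑ c, (∑ d, Pm T b d * derA (T.hX a) (Pm T d c)) * derA (T.hX c) f) +
        ∑ c, (∑ d, Pm T a d * derA (T.hX b) (Pm T d c)) * derA (T.hX c) f := by
      rw [← Finset.sum_sub_distrib, ← Finset.sum_add_distrib]
      refine Finset.sum_congr rfl fun c _ => ?_
      unfold Gm
      ring
    rw [h2, zero_term, zero_term, sub_zero, add_zero]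
  rw [e1]
  apply ext_evA
  intro p
  have h1 := comm_fun f.2 (T.hX a) (T.hX b) (Sm.der (T.hX a) f.2) (Sm.der (T.hX b) f.2) p
  have h2 : evA p (derA (T.hX a) (derA (T.hX b) f) - derA (T.hX b) (derA (T.hX a) f)) =
      mvfderiv (𝓡 n) f.1 p (mlieBracket (𝓡 n) (T.X a) (T.X b) p) := by
    rw [map_sub]
    exact h1
  rw [h2, ← h.torsionFree (T.hX a) (T.hX b) p, cov_X h T a b, cov_X h T b a,
    ← Finset.sum_sub_distrib, map_sum, map_sum]
  refine Finset.sum_congr rfl fun c _ => ?_
  rw [← sub_smul, map_smul, map_mul, map_sub, smul_eq_mul]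
  rfl

end Gfr

theorem s_gfr : S_GFR := by
  intro n M _ _ _ _ _ hn g cov h N T
  refine ⟨⟨fun a => derA (T.hX a), fun a b c => Gm h T a b c, Gfr.anti h T, Gfr.tors hn h T⟩,
    ⟨fun _ => rfl, fun _ _ _ => rfl, ?_, Gfr.Pe T, Gfr.PG h T, Gfr.Ppar h T⟩⟩
  intro a c
  exact congrFun (congrFun (Gfr.PM_idem T) a) c

end Pool.Agent.H781.CM
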