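import Pool.Agent.H781.CM.GSpec

/-!
Global frame data on compact manifolds.
-/

set_option autoImplicit false
set_option synthInstance.maxHeartbeats 400000
set_option maxHeartbeats 4000000
set_option linter.unusedSectionVars false

open Bundle Manifold ContDiff VectorField MeasureTheory Filter
open scoped Topology

noncomputable section

namespace Pool.Agent.H781.CM

open Pool.Agent.H821R2 Pool.Agent.H821R3 Pool.Agent.H893R5.HO

namespace Gfrm

variable {n : ℕ} {M : Type} [TopologicalSpace M] [ChartedSpace (EU n) M] [IsManifold (𝓡 n) ∞ M]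

/-- the coordinate functions -/
def co (x₀ : M) (k : Fin n) (p : M) : ℝ := (extChartAt (𝓡 n) x₀ p) k

/-- the coordinate fields -/
def fr (x₀ : M) (k : Fin n) (p : M) : TangentSpace (𝓡 n) p :=
  (trivializationAt (EU n) (TangentSpace (𝓡 n)) x₀).localFrame
    (EuclideanSpace.basisFun (Fin n) ℝ).toBasis k p

theorem co_smooth (x₀ : M) (k : Fin n) :
    ContMDiffOn (𝓡 n) 𝓘(ℝ, ℝ) ∞ (co x₀ k) (chartAt (EU n) x₀).source := by
  have h1 : ContMDiffOn (𝓡 n) 𝓘(ℝ, EU n) ∞ (extChartAt (𝓡 n) x₀) (chartAt (EU n) x₀).source :=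
    contMDiffOn_extChartAt
  have h2 : ContMDiff 𝓘(ℝ, EU n) 𝓘(ℝ, ℝ) ∞ (fun y : EU n => y k) :=
    (EuclideanSpace.proj (𝕜 := ℝ) k : EU n →L[ℝ] ℝ).contMDiff
  exact h2.comp_contMDiffOn h1

theorem fr_smooth (x₀ : M) (k : Fin n) :
    ContMDiffOn (𝓡 n) ((𝓡 n).prod 𝓘(ℝ, EU n)) ∞
      (fun p => TotalSpace.mk' (EU n) (E := TangentSpace (𝓡 n)) p (fr x₀ k p))
      (chartAt (EU n) x₀).source := by
  have h := Bundle.Trivialization.contMDiffOn_localFrame_baseSet (I := 𝓡 n) (n := ∞)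
    (trivializationAt (EU n) (TangentSpace (𝓡 n) : M → Type _) x₀)
    (EuclideanSpace.basisFun (Fin n) ℝ).toBasis k
  exact h

theorem co_fr (x₀ : M) {p : M} (hp : p ∈ (chartAt (EU n) x₀).source) (v : TangentSpace (𝓡 n) p) :
    ∑ k, (mvfderiv (𝓡 n) (co x₀ k) p v) • fr x₀ k p = v := by
  have hb : p ∈ (trivializationAt (EU n) (TangentSpace (𝓡 n)) x₀).baseSet := by
    rw [TangentBundle.trivializationAt_baseSet]
    exact hp
  have h1 := ((trivializationAt (EU n) (TangentSpace (𝓡 n)) x₀).basisAt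
    (EuclideanSpace.basisFun (Fin n) ℝ).toBasis hb).sum_repr v
  have h2 : ∀ k, ((trivializationAt (EU n) (TangentSpace (𝓡 n)) x₀).basisAt
    (EuclideanSpace.basisFun (Fin n) ℝ).toBasis hb).repr v k = mvfderiv (𝓡 n) (co x₀ k) p v := by
    intro k
    have h3 : MDifferentiableAt (𝓡 n) 𝓘(ℝ, EU n) (extChartAt (𝓡 n) x₀) p :=
      mdifferentiableAt_extChartAt hp
    have h4 : HasMFDerivAt 𝓘(ℝ, EU n) 𝓘(ℝ, ℝ) (fun y : EU n => y k) (extChartAt (𝓡 n) x₀ p)
        (EuclideanSpace.proj (𝕜 := ℝ) k : EU n →L[ℝ] ℝ) :=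
      (EuclideanSpace.proj (𝕜 := ℝ) k : EU n →L[ℝ] ℝ).hasMFDerivAt
    have h5 := (h4.comp p h3.hasMFDerivAt).mfderiv
    have h6 : mvfderiv (𝓡 n) (co x₀ k) p v =
        (EuclideanSpace.proj (𝕜 := ℝ) k : EU n →L[ℝ] ℝ)
          (mfderiv (𝓡 n) 𝓘(ℝ, EU n) (extChartAt (𝓡 n) x₀) p v) := by
      change (mfderiv (𝓡 n) 𝓘(ℝ, ℝ) ((fun y : EU n => y k) ∘ (extChartAt (𝓡 n) x₀)) p) v = _
      rw [h5]
      rfl
    have h7 : mfderiv (𝓡 n) 𝓘(ℝ, EU n) (extChartAt (𝓡 n) x₀) p v =
        ((trivializationAt (EU n) (TangentSpace (𝓡 n)) x₀) ⟨p, v⟩).2 := by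
      have h8 := TangentBundle.continuousLinearMapAt_trivializationAt (I := 𝓡 n) hp
      have h9 := Bundle.Trivialization.continuousLinearMapAt_apply_of_mem ℝ
        (trivializationAt (EU n) (TangentSpace (𝓡 n)) x₀) hb (y := v)
      rw [← h9]
      exact (DFunLike.congr_fun h8 v).symm
    rw [h6, h7, Bundle.Trivialization.basisAt]
    simp
  calc _ = ∑ k, ((trivializationAt (EU n) (TangentSpace (𝓡 n)) x₀).basisAt
    (EuclideanSpace.basisFun (Fin n) ℝ).toBasis hb).repr v k •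
      ((trivializationAt (EU n) (TangentSpace (𝓡 n)) x₀).basisAt
    (EuclideanSpace.basisFun (Fin n) ℝ).toBasis hb) k := by
        refine Finset.sum_congr rfl fun k _ => ?_
        rw [← h2 k, fr, Bundle.Trivialization.localFrame_apply_of_mem_baseSet _ _ hb]
    _ = v := h1


section build

variable {J : Type} [Fintype J] (x : J → M) (ρ θ : J → M → ℝ)

theorem sm_cut {x₀ : M} {r : M → ℝ} (hr : Sm (𝓡 n) r)
    (hs : tsupport r ⊆ (chartAt (EU n) x₀).source) (k : Fin n) :
    Sm (𝓡 n) (fun p => r p * co x₀ k p) := by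
  refine contMDiff_of_tsupport fun p hp => ?_
  have h1 : tsupport (fun p => r p * co x₀ k p) ⊆ tsupport r := by
    apply closure_mono
    intro q hq hq'
    apply hq
    simp [hq']
  have hp' := hs (h1 hp)
  have h2 := (co_smooth x₀ k).contMDiffAt ((chartAt (EU n) x₀).open_source.mem_nhds hp')
  exact (hr p).mul h2

theorem smV_cut {x₀ : M} {r : M → ℝ} (hr : Sm (𝓡 n) r)
    (hs : tsupport r ⊆ (chartAt (EU n) x₀).source) (k : Fin n) :
    SmV (fun p => r p • fr x₀ k p) := by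
  have h := ContMDiffOn.smul_section_of_tsupport (ψ := r) hr.contMDiffOn
    (chartAt (EU n) x₀).open_source hs (fr_smooth x₀ k)
  exact h

/-- the functions -/
def ff : J × Option (Fin n) → M → ℝ
  | (j, some k) => fun p => ρ j p * co (x j) k p
  | (j, none) => ρ j

/-- the fields -/
def ee : J × Option (Fin n) → Π p : M, TangentSpace (𝓡 n) p
  | (j, some k) => fun p => θ j p • fr (x j) k p
  | (j, none) => fun p => - ∑ k, (θ j p * co (x j) k p) • fr (x j) k p

theorem smV_none {x₀ : M} {r : M → ℝ} (hr : Sm (𝓡 n) r)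
    (hs : tsupport r ⊆ (chartAt (EU n) x₀).source) :
    SmV (fun p => - ∑ k : Fin n, (r p * co x₀ k p) • fr x₀ k p) := by
  apply ContMDiff.neg_section (V := fun p : M => TangentSpace (𝓡 n) p) (F := EU n)
  apply ContMDiff.sum_section (V := fun p : M => TangentSpace (𝓡 n) p) (F := EU n)
    (t := fun (k : Fin n) (p : M) => (r p * co x₀ k p) • fr x₀ k p)
  intro k _
  refine smV_cut (sm_cut hr hs k) ?_ k
  refine subset_trans (closure_mono ?_) hs
  intro q hq hq'
  apply hq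
  simp [hq']

theorem repr_aux {x₀ : M} {r t : M → ℝ} (hr : Sm (𝓡 n) r)
    (hs : tsupport t ⊆ (chartAt (EU n) x₀).source) (p : M) (v : TangentSpace (𝓡 n) p) :
    (mvfderiv (𝓡 n) r p v) • (- ∑ k : Fin n, (t p * co x₀ k p) • fr x₀ k p) +
      ∑ k : Fin n, (mvfderiv (𝓡 n) (fun p => r p * co x₀ k p) p v) • (t p • fr x₀ k p) =
      (r p * t p) • v := by
  by_cases hp : p ∈ (chartAt (EU n) x₀).source
  · have h1 : ∀ k : Fin n, mvfderiv (𝓡 n) (fun p => r p * co x₀ k p) p v =
        r p * mvfderiv (𝓡 n) (co x₀ k) p v + co x₀ k p * mvfderiv (𝓡 n) r p v := by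
      intro k
      have h2 := (co_smooth x₀ k).contMDiffAt ((chartAt (EU n) x₀).open_source.mem_nhds hp)
      have h3 := mvfderiv_mul (hr.mdiff p) (h2.mdifferentiableAt (by simp))
      change mvfderiv (𝓡 n) (r * co x₀ k) p v = _
      rw [h3]
      rfl
    have h4 : ∀ k : Fin n, (mvfderiv (𝓡 n) (fun p => r p * co x₀ k p) p v) • (t p • fr x₀ k p) =
        (r p * t p) • ((mvfderiv (𝓡 n) (co x₀ k) p v) • fr x₀ k p) +
        (mvfderiv (𝓡 n) r p v) • ((t p * co x₀ k p) • fr x₀ k p) := by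
      intro k
      rw [h1 k, smul_smul, smul_smul, smul_smul, ← add_smul]
      congr 1
      ring
    rw [Finset.sum_congr rfl fun k _ => h4 k, Finset.sum_add_distrib, ← Finset.smul_sum,
      ← Finset.smul_sum, co_fr x₀ hp v, smul_neg]
    abel
  · have h1 : t p = 0 := by
      by_contra h
      exact hp (hs (subset_tsupport _ h))
    simp [h1]

/-- frame data from cutoffs -/
def fd (hρ : ∀ j, Sm (𝓡 n) (ρ j)) (hθ : ∀ j, Sm (𝓡 n) (θ j))
    (hsρ : ∀ j, tsupport (ρ j) ⊆ (chartAt (EU n) (x j)).source)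
    (hsθ : ∀ j, tsupport (θ j) ⊆ (chartAt (EU n) (x j)).source)
    (h1 : ∀ p, ∑ j, ρ j p * θ j p = 1) : FrameData (𝓡 n) M (J × Option (Fin n)) where
  f := ff x ρ
  e := ee x θ
  hf := by
    rintro ⟨j, _ | k⟩
    · exact hρ j
    · exact sm_cut (hρ j) (hsρ j) k
  he := by
    rintro ⟨j, _ | k⟩
    · exact smV_none (hθ j) (hsθ j)
    · exact smV_cut (hθ j) (hsθ j) k
  repr := by
    intro p v
    rw [Fintype.sum_prod_type]
    have h2 : ∀ j, ∑ o : Option (Fin n), (mvfderiv (𝓡 n) (ff x ρ (j, o)) p v) • ee x θ (j, o) p =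
        (ρ j p * θ j p) • v := by
      intro j
      rw [Fintype.sum_option]
      exact repr_aux (hρ j) (hsθ j) p v
    rw [Finset.sum_congr rfl fun j _ => h2 j, ← Finset.sum_smul, h1 p, one_smul]

end build

/-- reindexing -/
def reix {ι κ : Type} [Fintype ι] [Fintype κ] (D : FrameData (𝓡 n) M ι) (s : κ ≃ ι) :
    FrameData (𝓡 n) M κ where
  f i := D.f (s i)
  e i := D.e (s i)
  hf i := D.hf _
  he i := D.he _
  repr p v := by
    refine Eq.trans ?_ (D.repr p v)
    exact Equiv.sum_comp s fun i => (mvfderiv (𝓡 n) (D.f i) p v) • D.e i p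

/-- adding a trivial pair -/
def dummy {ι : Type} [Fintype ι] (D : FrameData (𝓡 n) M ι) : FrameData (𝓡 n) M (Option ι) where
  f i := i.elim (fun _ => 0) D.f
  e i := i.elim (fun _ => 0) D.e
  hf := by
    rintro (_ | i)
    · exact Sm.const 0
    · exact D.hf i
  he := by
    rintro (_ | i)
    · exact contMDiff_zeroSection ℝ (fun p : M => TangentSpace (𝓡 n) p)
    · exact D.he i
  repr p v := by
    rw [Fintype.sum_option]
    have h := D.repr p v
    simp only [Option.elim]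
    rw [h, smul_zero, zero_add]

theorem exists_cut [T2Space M] [CompactSpace M] :
    ∃ (J : Type) (_ : Fintype J) (x : J → M) (ρ : J → M → ℝ), (∀ j, Sm (𝓡 n) (ρ j)) ∧
      (∀ j, tsupport (ρ j) ⊆ (chartAt (EU n) (x j)).source) ∧ ∀ p, ∑ j, ρ j p = 1 := by
  obtain ⟨χ, hχ⟩ := SmoothPartitionOfUnity.exists_isSubordinate_chartAt_source (𝓡 n) M
  have hfin : {i : M | (Function.support (χ i)).Nonempty}.Finite :=
    χ.locallyFinite.finite_nonempty_of_compact
  refine ⟨{i : M | (Function.support (χ i)).Nonempty}, hfin.fintype, fun j => j.1,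
    fun j => χ j.1, fun j => (χ j.1).contMDiff, fun j => hχ j.1, fun p => ?_⟩
  have h1 := χ.sum_eq_one (Set.mem_univ p)
  rw [← h1]
  have h2 : Function.support (fun i => χ i p) ⊆ (hfin.toFinset : Set M) := by
    intro i hi
    rw [Set.Finite.coe_toFinset]
    exact ⟨p, hi⟩
  rw [finsum_eq_sum_of_support_subset _ h2]
  let := hfin.fintype
  exact (Finset.sum_subtype (p := fun i => i ∈ {i : M | (Function.support (χ i)).Nonempty})
    hfin.toFinset (fun i => hfin.mem_toFinset) (fun i => χ i p)).symm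

theorem exists_fd [T2Space M] [CompactSpace M] :
    ∃ m : ℕ, 0 < m ∧ Nonempty (FrameData (𝓡 n) M (Fin m)) := by
  obtain ⟨J, hJ, x, ρ, h1, h2, h3⟩ := exists_cut (n := n) (M := M)
  have hσ : Sm (𝓡 n) (fun p => ∑ j, ρ j p * ρ j p) := by
    apply contMDiff_finsetSum
    intro j _
    exact (h1 j).mul (h1 j)
  have hpos : ∀ p, (∑ j, ρ j p * ρ j p) ≠ 0 := by
    intro p h
    rw [Finset.sum_eq_zero_iff_of_nonneg fun j _ => mul_self_nonneg _] at h
    have h4 := h3 p
    rw [Finset.sum_eq_zero fun j hj => mul_self_eq_zero.1 (h j hj)] at h4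
    exact zero_ne_one h4
  have D := fd x ρ (fun j p => ρ j p / ∑ i, ρ i p * ρ i p) h1
    (fun j => (h1 j).div₀ hσ hpos) h2 (fun j => by
      refine subset_trans (closure_mono ?_) (h2 j)
      intro q hq hq'
      apply hq
      simp [hq']) (fun p => by
      have h5 : ∀ j, ρ j p * (ρ j p / ∑ i, ρ i p * ρ i p) =
          (ρ j p * ρ j p) / ∑ i, ρ i p * ρ i p := fun j => by ring
      rw [Finset.sum_congr rfl fun j _ => h5 j, ← Finset.sum_div, div_self (hpos p)])
  refine ⟨Fintype.card (Option (J × Option (Fin n))), Fintype.card_pos, ⟨reix (dummy D)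
    (Fintype.equivFin (Option (J × Option (Fin n)))).symm⟩⟩

end Gfrm
theorem s_gfrm : S_GFRM := by
  intro n M _ _ _ _ _
  exact Gfrm.exists_fd

end Pool.Agent.H781.CM
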