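import Pool.Agent.H781.CM.GSpec

/-!
Task GMAX: the maximum principle for smooth functions on a closed manifold
(helper249, for helper781).
-/

set_option autoImplicit false
set_option synthInstance.maxHeartbeats 400000
set_option maxHeartbeats 4000000
set_option linter.unusedSectionVars false

open Bundle Manifold ContDiff VectorField MeasureTheory Filter
open scoped Topology

noncomputable section

namespace Pool.Agent.H781.CM

open Pool.Agent.H781.NG Pool.Agent.H821R2 Pool.Agent.H821R3 Pool.Agent.H893R5.HO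
  Pool.Agent.H781.S22

namespace Gmax

variable {n : ℕ} {M : Type} [TopologicalSpace M] [ChartedSpace (EU n) M] [IsManifold (𝓡 n) ∞ M]

/-- derivative of a smooth function along an integral curve -/
theorem curve_deriv {Z : VF n M} (hZ : SmV Z) (h : SA n M) {γ : ℝ → M} {t : ℝ}
    (hγ : HasMFDerivAt 𝓘(ℝ, ℝ) (𝓡 n) γ t ((1 : ℝ →L[ℝ] ℝ).smulRight (Z (γ t)))) :
    HasDerivAt (fun s => evA (γ s) h) (evA (γ t) (derA hZ h)) t := by
  have h1 : HasMFDerivAt (𝓡 n) 𝓘(ℝ, ℝ) h.1 (γ t) (mfderiv (𝓡 n) 𝓘(ℝ, ℝ) h.1 (γ t)) :=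
    (Sm.mdiff h.2 (γ t)).hasMFDerivAt
  have h2 := h1.comp t hγ
  let L : ℝ →L[ℝ] ℝ :=
    (mfderiv (𝓡 n) 𝓘(ℝ, ℝ) h.1 (γ t)).comp ((1 : ℝ →L[ℝ] ℝ).smulRight (Z (γ t)))
  have h3 : HasFDerivAt (fun s => evA (γ s) h) L t := hasMFDerivAt_iff_hasFDerivAt.1 h2
  refine h3.hasDerivAt.congr_deriv ?_
  rw [ev_derA]
  change (mfderiv (𝓡 n) 𝓘(ℝ, ℝ) h.1 (γ t)) ((1 : ℝ) • Z (γ t)) = _
  rw [one_smul]
  rfl

theorem second {Z : VF n M} (hZ : SmV Z) (h : SA n M) (p : M)
    (hmax : ∀ q, evA q h ≤ evA p h) :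
    evA p (derA hZ h) = 0 ∧ evA p (derA hZ (derA hZ h)) ≤ 0 := by
  obtain ⟨γ, h0, hγ⟩ := exists_isMIntegralCurveAt_of_contMDiffAt_boundaryless
    (I := 𝓡 n) (v := Z) (x₀ := p) (0 : ℝ) ((hZ p).of_le (by simp))
  have e1 : ∀ᶠ t in 𝓝 (0 : ℝ), HasDerivAt (fun s => evA (γ s) h) (evA (γ t) (derA hZ h)) t :=
    hγ.mono fun t ht => curve_deriv hZ h ht
  have d1 : deriv (fun s => evA (γ s) h) =ᶠ[𝓝 (0 : ℝ)] fun t => evA (γ t) (derA hZ h) :=
    e1.mono fun t ht => ht.deriv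
  have d2 : deriv (deriv (fun s => evA (γ s) h)) 0 = evA p (derA hZ (derA hZ h)) := by
    rw [d1.deriv_eq, (curve_deriv hZ (derA hZ h) hγ.self_of_nhds).deriv, h0]
  have d3 : deriv (fun s => evA (γ s) h) 0 = evA p (derA hZ h) := by
    rw [e1.self_of_nhds.deriv, h0]
  have hM : IsLocalMax (fun s => evA (γ s) h) 0 :=
    Eventually.of_forall fun s => by
      change evA (γ s) h ≤ evA (γ 0) h
      rw [h0]
      exact hmax (γ s)
  have z1 : evA p (derA hZ h) = 0 := by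
    rw [← d3]
    exact hM.deriv_eq_zero
  refine ⟨z1, ?_⟩
  by_contra hc
  have hc : 0 < evA p (derA hZ (derA hZ h)) := not_le.1 hc
  have hm : IsLocalMin (fun s => evA (γ s) h) 0 :=
    isLocalMin_of_deriv_deriv_pos (by rw [d2]; exact hc) (by rw [d3]; exact z1)
      e1.self_of_nhds.continuousAt
  have hE : (fun s => evA (γ s) h) =ᶠ[𝓝 (0 : ℝ)] fun _ => evA (γ 0) h := by
    filter_upwards [hM, hm] with s a b
    exact le_antisymm a b
  have hE2 : deriv (fun s => evA (γ s) h) =ᶠ[𝓝 (0 : ℝ)] fun _ => (0 : ℝ) := by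
    have h5 := hE.deriv
    rw [deriv_const'] at h5
    exact h5
  have h6 : deriv (deriv (fun s => evA (γ s) h)) 0 = 0 := by
    rw [hE2.deriv_eq, deriv_const]
  rw [d2] at h6
  exact absurd h6 hc.ne'

end Gmax

theorem s_gmax : S_GMAX := by
  intro n M _ _ _ _ _ _ _ N D h p hmax
  constructor
  · intro a
    change evA p (D.F.e a h) = 0
    rw [D.ok.e]
    exact (Gmax.second (D.T.hX a) h p hmax).1
  · intro a
    change evA p (D.F.e a (D.F.e a h)) ≤ 0
    rw [D.ok.e]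
    exact (Gmax.second (D.T.hX a) h p hmax).2

end Pool.Agent.H781.CM
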