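import Pool.Agent.H781.CM.GSpec
import Pool.Agent.H781.CM.Base

/-!
Mollifiers on a closed manifold from the mollifiers in the charts.
-/

set_option autoImplicit false
set_option synthInstance.maxHeartbeats 400000
set_option maxHeartbeats 4000000
set_option linter.unusedSectionVars false

open Bundle Manifold ContDiff VectorField MeasureTheory Filter
open scoped Topology

noncomputable section

namespace Pool.Agent.H781.CM

open Pool.Agent.H781.NG Pool.Agent.H821R2 Pool.Agent.H821R3 Pool.Agent.H893R5.HO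
  Pool.Agent.H781.S22

namespace Gmoll

section abs

variable {M : Type} [TopologicalSpace M] [CompactSpace M] [MeasurableSpace M] [BorelSpace M]
  {N : ℕ} (C : CD M N)

theorem ig_sq_nonneg (f : C.A) : 0 ≤ ig C (f ^ 2) :=
  ig_nonneg C fun p => by rw [map_pow]; exact sq_nonneg _

theorem ig_sum_sq_le {m : ℕ} (u : Fin m → C.A) :
    ig C ((∑ i, u i) ^ 2) ≤ (m : ℝ) * ∑ i, ig C (u i ^ 2) := by
  rw [← ig_sum, ← ig_smul]
  refine ig_mono C fun p => ?_
  rw [ev_smul, ev_sum, map_pow, ev_sum]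
  have h := sq_sum_le_card_mul_sum_sq (s := (Finset.univ : Finset (Fin m)))
    (f := fun i => C.ev p (u i))
  rw [Finset.card_univ, Fintype.card_fin] at h
  refine h.trans (le_of_eq ?_)
  congr 1
  refine Finset.sum_congr rfl fun i _ => ?_
  rw [map_pow]

/-- the sum of operators of finite rank -/
theorem fr_sum {m : ℕ} (k : Fin m → ℕ) (φ ψ : ∀ i, Fin (k i) → C.A) (f : C.A) :
    fr C (fun j : Fin (∑ i, k i) => φ (finSigmaFinEquiv.symm j).1 (finSigmaFinEquiv.symm j).2)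
      (fun j : Fin (∑ i, k i) => ψ (finSigmaFinEquiv.symm j).1 (finSigmaFinEquiv.symm j).2) f =
      ∑ i, fr C (φ i) (ψ i) f := by
  unfold fr
  have h := Equiv.sum_comp (finSigmaFinEquiv (m := m) (n := k)).symm
    (fun x : (i : Fin m) × Fin (k i) => ig C (ψ x.1 x.2 * f) • φ x.1 x.2)
  refine h.trans ?_
  exact Fintype.sum_sigma (fun x : (i : Fin m) × Fin (k i) => ig C (ψ x.1 x.2 * f) • φ x.1 x.2)

theorem glue {m0 : ℕ} (χ : Fin m0 → C.A) (h1 : ∑ i, χ i = 1)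
    (H : ∀ i, ∃ (k : ℕ → ℕ) (φ ψ : ∀ m, Fin (k m) → C.A),
      (∃ K : ℝ, ∀ m f, ig C (fr C (φ m) (ψ m) f ^ 2) ≤ K * ig C (f ^ 2)) ∧
      (∀ (a : C.A) (s : Fin N), ∃ K : ℝ, ∀ m f,
        ig C ((a * C.F.e s (fr C (φ m) (ψ m) f) - fr C (φ m) (ψ m) (a * C.F.e s f)) ^ 2) ≤
          K * ig C (f ^ 2)) ∧
      ∃ ε : ℕ → ℝ, Tendsto ε atTop (𝓝 0) ∧ ∀ m (f : C.A),
        ig C ((χ i * f - fr C (φ m) (ψ m) f) ^ 2) ≤
          ε m * (ig C (f ^ 2) + ∑ s, ig C (C.F.e s f ^ 2))) : Moll C := by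
  choose k φ ψ hK hcom ε hε hεb using H
  choose K hK using hK
  have key : ∀ m f, fr C (fun j : Fin (∑ i, k i m) =>
      φ (finSigmaFinEquiv.symm j).1 m (finSigmaFinEquiv.symm j).2)
      (fun j : Fin (∑ i, k i m) =>
      ψ (finSigmaFinEquiv.symm j).1 m (finSigmaFinEquiv.symm j).2) f =
      ∑ i, fr C (φ i m) (ψ i m) f := fun m f =>
    fr_sum C (fun i => k i m) (fun i => φ i m) (fun i => ψ i m) f
  have last : ∀ m f, ig C ((f - ∑ i, fr C (φ i m) (ψ i m) f) ^ 2) ≤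
      ((m0 : ℝ) * ∑ i, ε i m) * (ig C (f ^ 2) + ∑ s, ig C (C.F.e s f ^ 2)) := by
    intro m f
    have e : f - ∑ i, fr C (φ i m) (ψ i m) f = ∑ i, (χ i * f - fr C (φ i m) (ψ i m) f) := by
      rw [Finset.sum_sub_distrib, ← Finset.sum_mul, h1, one_mul]
    rw [e]
    refine (ig_sum_sq_le C _).trans ?_
    rw [mul_assoc, Finset.sum_mul]
    refine mul_le_mul_of_nonneg_left ?_ (Nat.cast_nonneg _)
    exact Finset.sum_le_sum fun i _ => hεb i m f
  have hlim : Tendsto (fun m => (m0 : ℝ) * ∑ i, ε i m) atTop (𝓝 0) := by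
    have h2 : Tendsto (fun m => ∑ i, ε i m) atTop (𝓝 (∑ _i : Fin m0, (0 : ℝ))) :=
      tendsto_finsetSum _ fun i _ => hε i
    rw [Finset.sum_const_zero] at h2
    have h3 := h2.const_mul (m0 : ℝ)
    rw [mul_zero] at h3
    exact h3
  refine ⟨fun m => ∑ i, k i m,
    fun m j => φ (finSigmaFinEquiv.symm j).1 m (finSigmaFinEquiv.symm j).2,
    fun m j => ψ (finSigmaFinEquiv.symm j).1 m (finSigmaFinEquiv.symm j).2, ?_, ?_, ?_, ?_⟩
  · refine ⟨(m0 : ℝ) * ∑ i, K i, fun m f => ?_⟩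
    rw [key]
    refine (ig_sum_sq_le C _).trans ?_
    rw [mul_assoc, Finset.sum_mul]
    refine mul_le_mul_of_nonneg_left ?_ (Nat.cast_nonneg _)
    exact Finset.sum_le_sum fun i _ => hK i m f
  · intro f
    have h4 : Tendsto (fun m => ((m0 : ℝ) * ∑ i, ε i m) *
        (ig C (f ^ 2) + ∑ s, ig C (C.F.e s f ^ 2))) atTop (𝓝 0) := by
      have h5 := hlim.mul_const (ig C (f ^ 2) + ∑ s, ig C (C.F.e s f ^ 2))
      rw [zero_mul] at h5
      exact h5
    refine squeeze_zero (fun m => ig_sq_nonneg C _) (fun m => ?_) h4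
    rw [key]
    have e : (∑ i, fr C (φ i m) (ψ i m) f - f) ^ 2 = (f - ∑ i, fr C (φ i m) (ψ i m) f) ^ 2 := by
      ring
    rw [e]
    exact last m f
  · intro a s
    choose L hL using fun i => hcom i a s
    refine ⟨(m0 : ℝ) * ∑ i, L i, fun m f => ?_⟩
    rw [key, key]
    have e : a * C.F.e s (∑ i, fr C (φ i m) (ψ i m) f) - ∑ i, fr C (φ i m) (ψ i m) (a * C.F.e s f) =
        ∑ i, (a * C.F.e s (fr C (φ i m) (ψ i m) f) - fr C (φ i m) (ψ i m) (a * C.F.e s f)) := by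
      rw [Finset.sum_sub_distrib, map_sum, Finset.mul_sum]
    rw [e]
    refine (ig_sum_sq_le C _).trans ?_
    rw [mul_assoc, Finset.sum_mul]
    refine mul_le_mul_of_nonneg_left ?_ (Nat.cast_nonneg _)
    exact Finset.sum_le_sum fun i _ => hL i m f
  · refine ⟨fun m => (m0 : ℝ) * ∑ i, ε i m, hlim, fun m f => ?_⟩
    rw [key]
    exact last m f

end abs

end Gmoll

theorem s_gmoll (h1 : S_LMOLL) (h2 : S_TKP) : S_GMOLL := by
  intro n M _ _ _ _ _ _ _ N D hn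
  obtain ⟨m0, x, χ, η, hsum, hχ, hχs, hηs, hη⟩ := h2 n M
  refine Gmoll.glue D.C (fun i => (show D.C.A from χ i)) ?_ ?_
  · refine D.C.ext_ev _ _ fun p => ?_
    rw [ev_sum, map_one]
    exact hsum p
  · intro i
    exact h1 n M N D hn (x i) (χ i) (η i) (hχs i) (hηs i) (hη i)

end Pool.Agent.H781.CM
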