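import Pool.Agent.H781.CM.GSpec
import Pool.Agent.H781.CM.Base

/-!
Regularity: functions with weak derivatives of all orders are smooth.
-/

set_option autoImplicit false
set_option synthInstance.maxHeartbeats 400000
set_option maxHeartbeats 4000000
set_option linter.unusedSectionVars false

open Bundle Manifold ContDiff VectorField MeasureTheory Filter
open scoped Topology

noncomputable section

namespace Pool.Agent.H781.CM

open Pool.Agent.H781.NG Pool.Agent.H821R2 Pool.Agent.H821R3 Pool.Agent.H893R5.HO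
  Pool.Agent.H781.S22

namespace Greg

section mulr

variable {n : ℕ} {M : Type} [TopologicalSpace M] [T2Space M] [CompactSpace M]
  [ChartedSpace (EU n) M] [IsManifold (𝓡 n) ∞ M]

omit [T2Space M] [CompactSpace M] [IsManifold (𝓡 n) ∞ M] in
theorem pul_mem {x₀ : M} {f : M → ℝ} {y : EU n} (hy : y ∈ (extChartAt (𝓡 n) x₀).target) :
    pul n x₀ f y = f ((extChartAt (𝓡 n) x₀).symm y) := if_pos hy

omit [T2Space M] [CompactSpace M] [IsManifold (𝓡 n) ∞ M] in
theorem pul_nmem {x₀ : M} {f : M → ℝ} {y : EU n} (hy : y ∉ (extChartAt (𝓡 n) x₀).target) :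
    pul n x₀ f y = 0 := if_neg hy

omit [T2Space M] [CompactSpace M] [IsManifold (𝓡 n) ∞ M] in
theorem psh_mem {x₀ : M} {u : EU n → ℝ} {p : M} (hp : p ∈ (extChartAt (𝓡 n) x₀).source) :
    psh x₀ u p = u (extChartAt (𝓡 n) x₀ p) := if_pos hp

omit [T2Space M] [CompactSpace M] [IsManifold (𝓡 n) ∞ M] in
theorem psh_nmem {x₀ : M} {u : EU n → ℝ} {p : M} (hp : p ∉ (extChartAt (𝓡 n) x₀).source) :
    psh x₀ u p = 0 := if_neg hp

/-- multiplication of a function supported in a chart with a function on the chart -/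
theorem mulr (h2 : S_TKF) (x₀ : M) (c : SA n M)
    (hc : tsupport c.1 ⊆ (extChartAt (𝓡 n) x₀).source) (r : EU n → ℝ)
    (hr : ContDiffOn ℝ ∞ r (extChartAt (𝓡 n) x₀).target) :
    ∃ c' : SA n M, tsupport c'.1 ⊆ (extChartAt (𝓡 n) x₀).source ∧
      (∀ y ∈ (extChartAt (𝓡 n) x₀).target, c'.1 ((extChartAt (𝓡 n) x₀).symm y) =
        c.1 ((extChartAt (𝓡 n) x₀).symm y) * r y) ∧
      (∀ p ∈ (extChartAt (𝓡 n) x₀).source, c'.1 p = c.1 p * r (extChartAt (𝓡 n) x₀ p)) ∧
      ∀ p, p ∉ (extChartAt (𝓡 n) x₀).source → c'.1 p = 0 := by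
  obtain ⟨hA, hB, -⟩ := h2 n M x₀
  obtain ⟨b1, b2, b3, b4⟩ := hB c.1 c.2 hc
  have hT : IsOpen (extChartAt (𝓡 n) x₀).target := isOpen_extChartAt_target x₀
  set u : EU n → ℝ := fun y => pul n x₀ c.1 y * r y with hu
  have hts : tsupport u ⊆ tsupport (pul n x₀ c.1) := tsupport_mul_subset_left
  have hucs : HasCompactSupport u := b2.mul_right
  have hus : ContDiff ℝ ∞ u := by
    rw [contDiff_iff_contDiffAt]
    intro y
    by_cases hy : y ∈ (extChartAt (𝓡 n) x₀).target
    · exact (b1.contDiffAt).mul (hr.contDiffAt (hT.mem_nhds hy))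
    · have h0 : y ∉ tsupport u := fun h => hy (b3 (hts h))
      have h1 : u =ᶠ[𝓝 y] fun _ => 0 := by
        have := (isClosed_tsupport u).isOpen_compl.mem_nhds h0
        filter_upwards [this] with z hz
        exact image_eq_zero_of_notMem_tsupport hz
      exact (contDiffAt_const (c := (0 : ℝ))).congr_of_eventuallyEq h1
  obtain ⟨a1, a2, a3⟩ := hA u hus hucs (hts.trans b3)
  have key : ∀ p ∈ (extChartAt (𝓡 n) x₀).source,
      psh x₀ u p = c.1 p * r (extChartAt (𝓡 n) x₀ p) := by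
    intro p hp
    rw [psh_mem hp]
    simp only [hu]
    rw [pul_mem ((extChartAt (𝓡 n) x₀).map_source hp), (extChartAt (𝓡 n) x₀).left_inv hp]
  refine ⟨⟨psh x₀ u, a1⟩, a2, ?_, key,
    fun p hp => (psh_nmem hp : psh x₀ u p = 0)⟩
  intro y hy
  change psh x₀ u _ = _
  rw [key _ ((extChartAt (𝓡 n) x₀).map_target hy), (extChartAt (𝓡 n) x₀).right_inv hy]

end mulr

section dens

variable {n : ℕ} {M : Type} [TopologicalSpace M] [T2Space M] [CompactSpace M]
  [ChartedSpace (EU n) M] [IsManifold (𝓡 n) ∞ M] [MeasurableSpace M] [BorelSpace M] {N : ℕ}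

/-- the density in a chart with the integral formulas -/
theorem dens_ex (h5 : S_TKI) (D : GD n M N) (x₀ : M) :
    ∃ d : EU n → ℝ, ContDiffOn ℝ ∞ d (extChartAt (𝓡 n) x₀).target ∧
      (∀ y ∈ (extChartAt (𝓡 n) x₀).target, 0 < d y) ∧
      (∀ f : M → ℝ, Integrable f D.μ → Integrable (fun y => pul n x₀ f y * d y)) ∧
      (∀ f : M → ℝ, Integrable f D.μ → (∀ p, p ∉ (extChartAt (𝓡 n) x₀).source → f p = 0) →
        ∫ p, f p ∂D.μ = ∫ y, pul n x₀ f y * d y) ∧
      (∀ f : M → ℝ, MemLp f 2 D.μ → Integrable (fun y => pul n x₀ f y ^ 2 * d y)) ∧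
      (∀ s : Set (EU n), volume s = 0 →
        D.μ ((extChartAt (𝓡 n) x₀).source ∩ (extChartAt (𝓡 n) x₀) ⁻¹' s) = 0) := by
  obtain ⟨d, hd1, hd2, hd3⟩ := D.dens x₀
  have hp : IsProbabilityMeasure D.μ := D.prob
  obtain ⟨k1, k2, -⟩ := h5 n M D.μ x₀ d hd1 hd2 hd3
  have hS : IsOpen (extChartAt (𝓡 n) x₀).source := isOpen_extChartAt_source x₀
  have hT : IsOpen (extChartAt (𝓡 n) x₀).target := isOpen_extChartAt_target x₀
  refine ⟨d, hd1, hd2, fun f hf => (k1 f hf).1, ?_, k2, ?_⟩
  · intro f hf h0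
    rw [← (k1 f hf).2]
    exact (setIntegral_eq_integral_of_forall_compl_eq_zero h0).symm
  · intro s hs
    classical
    set s' := toMeasurable volume s with hs'
    have hs'm : MeasurableSet s' := measurableSet_toMeasurable _ _
    have hs'0 : volume s' = 0 := by rw [hs', measure_toMeasurable, hs]
    set A : Set M := (extChartAt (𝓡 n) x₀).source ∩ (extChartAt (𝓡 n) x₀) ⁻¹' s' with hA
    have hAm : MeasurableSet A := by
      have h1 : Measurable ((extChartAt (𝓡 n) x₀).source.piecewise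
          (extChartAt (𝓡 n) x₀) (fun _ => (0 : EU n))) :=
        (continuousOn_extChartAt x₀).measurable_piecewise continuousOn_const hS.measurableSet
      have h2 : A = (extChartAt (𝓡 n) x₀).source ∩ ((extChartAt (𝓡 n) x₀).source.piecewise
          (extChartAt (𝓡 n) x₀) (fun _ => (0 : EU n))) ⁻¹' s' := by
        ext p
        simp only [hA, Set.mem_inter_iff, Set.mem_preimage]
        constructor
        · rintro ⟨a, b⟩
          exact ⟨a, by rwa [Set.piecewise_eq_of_mem _ _ _ a]⟩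
        · rintro ⟨a, b⟩
          exact ⟨a, by rwa [Set.piecewise_eq_of_mem _ _ _ a] at b⟩
      rw [h2]
      exact hS.measurableSet.inter (h1 hs'm)
    have h3 := hd3 (A.indicator 1) (measurable_one.indicator hAm)
    have h4 : ∫⁻ p in (extChartAt (𝓡 n) x₀).source, A.indicator 1 p ∂D.μ = D.μ A := by
      rw [lintegral_indicator_one hAm, Measure.restrict_apply hAm]
      congr 1
      exact Set.inter_eq_left.2 Set.inter_subset_left
    have h5' : ∫⁻ y in (extChartAt (𝓡 n) x₀).target,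
        A.indicator 1 ((extChartAt (𝓡 n) x₀).symm y) * ENNReal.ofReal (d y) = 0 := by
      have h6 : ∀ᵐ y ∂(volume : Measure (EU n)), y ∉ s' := by
        rw [ae_iff]
        simpa using hs'0
      have h7 : ∀ᵐ y ∂((volume : Measure (EU n)).restrict (extChartAt (𝓡 n) x₀).target),
          A.indicator (1 : M → ENNReal) ((extChartAt (𝓡 n) x₀).symm y) *
            ENNReal.ofReal (d y) = 0 := by
        rw [ae_restrict_iff' hT.measurableSet]
        filter_upwards [h6] with y hy hyT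
        have : (extChartAt (𝓡 n) x₀).symm y ∉ A := by
          rintro ⟨-, h⟩
          rw [Set.mem_preimage, (extChartAt (𝓡 n) x₀).right_inv hyT] at h
          exact hy h
        rw [Set.indicator_of_notMem this, zero_mul]
      rw [lintegral_congr_ae h7]
      simp
    rw [h4, h5'] at h3
    exact measure_mono_null (Set.inter_subset_inter_right _
      (Set.preimage_mono (subset_toMeasurable volume s))) h3

theorem memLp_smul (D : GD n M N) (c : SA n M) {w : M → ℝ} (hw : MemLp w 2 D.μ) :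
    MemLp (fun p => c.1 p * w p) 2 D.μ := by
  have hp : IsProbabilityMeasure D.μ := D.prob
  obtain ⟨K, hK, hK'⟩ := bdd D.C c
  have hc : Continuous c.1 := cont_evA c
  refine hw.of_le_mul (c := K) ?_ ?_
  · exact hc.measurable.aestronglyMeasurable.mul hw.aestronglyMeasurable
  · refine Filter.Eventually.of_forall fun p => ?_
    rw [norm_mul]
    exact mul_le_mul_of_nonneg_right (hK' p) (norm_nonneg _)

theorem int_smul (D : GD n M N) (c : SA n M) {w : M → ℝ} (hw : MemLp w 2 D.μ) :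
    Integrable (fun p => c.1 p * w p) D.μ := by
  have hp : IsProbabilityMeasure D.μ := D.prob
  exact (memLp_smul D c hw).integrable (by norm_num)

theorem Wk_mono (D : GD n M N) : ∀ (k : ℕ) (u : M → ℝ), Wk D.C (k + 1) u → Wk D.C k u
  | 0, _, h => h.1
  | k + 1, _, h => ⟨h.1, fun s => by
      obtain ⟨v, hv, hφ⟩ := h.2 s
      exact ⟨v, Wk_mono D k v hv, hφ⟩⟩

theorem Wk_memLp (D : GD n M N) : ∀ (k : ℕ) (u : M → ℝ), Wk D.C k u → MemLp u 2 D.μ
  | 0, _, h => h
  | _ + 1, _, h => h.1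

end dens

section euc

theorem pd_cont {n : ℕ} {φ : EU n → ℝ} (h : ContDiff ℝ ∞ φ) (s : Fin n) : Continuous (pd s φ) :=
  (h.continuous_fderiv (by simp)).clm_apply continuous_const

theorem pd_cs {n : ℕ} {φ : EU n → ℝ} (h : HasCompactSupport φ) (s : Fin n) :
    HasCompactSupport (pd s φ) := h.fderiv_apply ℝ _

theorem pd_smooth {n : ℕ} {φ : EU n → ℝ} (h : ContDiff ℝ ∞ φ) (s : Fin n) :
    ContDiff ℝ ∞ (pd s φ) := (h.fderiv_right (by simp)).clm_apply contDiff_const

theorem cc_memLp {n : ℕ} {φ : EU n → ℝ} (h : Continuous φ) (h' : HasCompactSupport φ) :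
    MemLp φ 2 (volume : Measure (EU n)) := h.memLp_of_hasCompactSupport h'

theorem mul_int {n : ℕ} {u φ : EU n → ℝ} (hu : MemLp u 2) (h : Continuous φ)
    (h' : HasCompactSupport φ) : Integrable (fun y => u y * φ y) :=
  hu.integrable_mul (cc_memLp h h')

theorem WE_memLp {n : ℕ} : ∀ (k : ℕ) (u : EU n → ℝ), WE n k u → MemLp u 2
  | 0, _, h => h
  | _ + 1, _, h => h.1

theorem WE_add {n : ℕ} : ∀ (k : ℕ) (u v : EU n → ℝ), WE n k u → WE n k v →
    WE n k (fun y => u y + v y)
  | 0, u, v, hu, hv => MemLp.add (f := u) (g := v) hu hv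
  | k + 1, u, v, hu, hv => by
    refine ⟨MemLp.add (f := u) (g := v) hu.1 hv.1, fun s => ?_⟩
    obtain ⟨u', hu', hu2⟩ := hu.2 s
    obtain ⟨v', hv', hv2⟩ := hv.2 s
    refine ⟨fun y => u' y + v' y, WE_add k _ _ hu' hv', fun φ h1 h2 => ?_⟩
    have e1 := mul_int (WE_memLp k _ hu') h1.continuous h2
    have e2 := mul_int (WE_memLp k _ hv') h1.continuous h2
    have e3 := mul_int hu.1 (pd_cont h1 s) (pd_cs h2 s)
    have e4 := mul_int hv.1 (pd_cont h1 s) (pd_cs h2 s)
    simp only [add_mul]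
    rw [integral_add e1 e2, integral_add e3 e4, hu2 φ h1 h2, hv2 φ h1 h2]
    ring

theorem WE_zero {n : ℕ} : ∀ (k : ℕ), WE n k (fun _ : EU n => (0 : ℝ))
  | 0 => MemLp.zero
  | k + 1 => ⟨MemLp.zero, fun s => ⟨_, WE_zero k, fun φ _ _ => by simp⟩⟩

theorem WE_sum {n : ℕ} {κ : Type*} (k : ℕ) (s : Finset κ) (u : κ → EU n → ℝ)
    (h : ∀ i ∈ s, WE n k (u i)) : WE n k (fun y => ∑ i ∈ s, u i y) := by
  classical
  induction s using Finset.induction_on with
  | empty => simpa using WE_zero k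
  | insert a s ha ih =>
    simp only [Finset.sum_insert ha]
    exact WE_add k _ _ (h a (Finset.mem_insert_self _ _))
      (ih fun i hi => h i (Finset.mem_insert_of_mem hi))

end euc

section loc

variable {n : ℕ} {M : Type} [TopologicalSpace M] [T2Space M] [CompactSpace M]
  [ChartedSpace (EU n) M] [IsManifold (𝓡 n) ∞ M] [MeasurableSpace M] [BorelSpace M] {N : ℕ}

/-- coefficients of the coordinate fields in the Parseval frame -/
def be (D : GD n M N) (x₀ : M) (i : Fin n) (a : Fin N) (y : EU n) : ℝ :=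
  D.g.inner ((extChartAt (𝓡 n) x₀).symm y) (cf x₀ i y) (D.T.X a ((extChartAt (𝓡 n) x₀).symm y))

theorem frame_id (h3 : S_TKV) (D : GD n M N) (x₀ : M) (y : EU n)
    (hy : y ∈ (extChartAt (𝓡 n) x₀).target) (i j : Fin n) :
    ∑ a, be D x₀ i a y * zc x₀ (D.T.X a) j y = if i = j then 1 else 0 := by
  obtain ⟨-, t2, -, -, t5, -⟩ := h3 n M x₀
  have e1 := D.T.par ((extChartAt (𝓡 n) x₀).symm y) (cf x₀ i y)
  have e2 : ∑ k, ((∑ a, be D x₀ i a y * zc x₀ (D.T.X a) k y) - if i = k then 1 else 0) •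
      cf (M := M) x₀ k y = 0 := by
    have e3 : ∑ k, (if i = k then (1 : ℝ) else 0) • cf (M := M) x₀ k y = cf x₀ i y := by
      rw [Finset.sum_eq_single i]
      · rw [if_pos rfl, one_smul]
      · intro b _ hb
        rw [if_neg (Ne.symm hb), zero_smul]
      · exact fun h => absurd (Finset.mem_univ i) h
    simp only [sub_smul, Finset.sum_sub_distrib]
    rw [e3, sub_eq_zero]
    conv_rhs => rw [← e1]
    have e4 : ∀ a, D.T.X a ((extChartAt (𝓡 n) x₀).symm y) =
        ∑ k, zc x₀ (D.T.X a) k y • cf x₀ k y := fun a => t2 (D.T.X a) y hy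
    have e5 : ∀ a, (D.g.inner ((extChartAt (𝓡 n) x₀).symm y) (cf x₀ i y)
        (D.T.X a ((extChartAt (𝓡 n) x₀).symm y))) • D.T.X a ((extChartAt (𝓡 n) x₀).symm y) =
        ∑ k, (be D x₀ i a y * zc x₀ (D.T.X a) k y) • cf (M := M) x₀ k y := by
      intro a
      conv_lhs => arg 2; rw [e4 a]
      rw [Finset.smul_sum]
      exact Finset.sum_congr rfl fun k _ => by rw [smul_smul]; rfl
    rw [Finset.sum_congr rfl fun a _ => e5 a, Finset.sum_comm]
    exact Finset.sum_congr rfl fun k _ => by rw [Finset.sum_smul]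
  have := (Fintype.linearIndependent_iff.1 (t5 y hy)) _ e2 j
  exact sub_eq_zero.1 this

theorem eF (D : GD n M N) (a : Fin N) (f : SA n M) (p : M) :
    (D.F.e a f).1 p = der (D.T.X a) f.1 p := by
  rw [D.ok.e]
  rfl

/-- first step: multiplication with a function supported in a chart -/
theorem base (h2 : S_TKF) (h5 : S_TKI) (D : GD n M N) (x₀ : M) {w : M → ℝ}
    (hw : MemLp w 2 D.μ) (c : SA n M) (hc : tsupport c.1 ⊆ (extChartAt (𝓡 n) x₀).source) :
    MemLp (pul n x₀ (fun p => c.1 p * w p)) 2 := by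
  obtain ⟨d, hd1, hd2, i1, -, i3, -⟩ := dens_ex h5 D x₀
  obtain ⟨c2, -, hc2, -, -⟩ := mulr h2 x₀ c hc (fun y => (d y)⁻¹)
    (hd1.inv fun y hy => (hd2 y hy).ne')
  obtain ⟨c3, -, hc3, -, -⟩ := mulr h2 x₀ c hc (fun y => (√(d y))⁻¹)
    ((hd1.sqrt fun y hy => (hd2 y hy).ne').inv fun y hy => (Real.sqrt_pos.2 (hd2 y hy)).ne')
  have m1 := i1 _ (int_smul D c2 hw)
  have m2 := i3 _ (memLp_smul D c3 hw)
  have e1 : (fun y => pul n x₀ (fun p => c2.1 p * w p) y * d y) =
      pul n x₀ (fun p => c.1 p * w p) := by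
    funext y
    by_cases hy : y ∈ (extChartAt (𝓡 n) x₀).target
    · rw [pul_mem hy, pul_mem hy, hc2 y hy]
      have := (hd2 y hy).ne'
      field_simp
    · rw [pul_nmem hy, pul_nmem hy, zero_mul]
  have e2 : (fun y => pul n x₀ (fun p => c3.1 p * w p) y ^ 2 * d y) =
      fun y => pul n x₀ (fun p => c.1 p * w p) y ^ 2 := by
    funext y
    by_cases hy : y ∈ (extChartAt (𝓡 n) x₀).target
    · rw [pul_mem hy, pul_mem hy, hc3 y hy]
      have h0 := (Real.sqrt_pos.2 (hd2 y hy)).ne'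
      have h1 := Real.sq_sqrt (hd2 y hy).le
      field_simp
      rw [h1]
      ring
    · rw [pul_nmem hy, pul_nmem hy]
      simp
  rw [e1] at m1
  rw [e2] at m2
  exact (memLp_two_iff_integrable_sq m1.aestronglyMeasurable).2 m2

theorem key (h2 : S_TKF) (h3 : S_TKV) (D : GD n M N) (x₀ : M) (i : Fin n) (c1 : SA n M)
    (φ : EU n → ℝ) (hφ : ContDiff ℝ ∞ φ) (b P : Fin N → SA n M)
    (hb : ∀ a, ∀ y ∈ (extChartAt (𝓡 n) x₀).target, (b a).1 ((extChartAt (𝓡 n) x₀).symm y) =
      c1.1 ((extChartAt (𝓡 n) x₀).symm y) * be D x₀ i a y)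
    (hP : ∀ a, ∀ y ∈ (extChartAt (𝓡 n) x₀).target, (P a).1 ((extChartAt (𝓡 n) x₀).symm y) =
      (b a).1 ((extChartAt (𝓡 n) x₀).symm y) * φ y) (y : EU n)
    (hy : y ∈ (extChartAt (𝓡 n) x₀).target) :
    c1.1 ((extChartAt (𝓡 n) x₀).symm y) * pd i φ y =
      ∑ a, ((D.F.e a (P a)).1 ((extChartAt (𝓡 n) x₀).symm y) -
        (D.F.e a (b a)).1 ((extChartAt (𝓡 n) x₀).symm y) * φ y) := by
  obtain ⟨-, -, hC⟩ := h2 n M x₀
  obtain ⟨-, -, -, t4, -, -⟩ := h3 n M x₀
  have hT : IsOpen (extChartAt (𝓡 n) x₀).target := isOpen_extChartAt_target x₀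
  have e1 : ∀ a, (D.F.e a (P a)).1 ((extChartAt (𝓡 n) x₀).symm y) -
        (D.F.e a (b a)).1 ((extChartAt (𝓡 n) x₀).symm y) * φ y =
      ∑ k, (b a).1 ((extChartAt (𝓡 n) x₀).symm y) * (zc x₀ (D.T.X a) k y * pd k φ y) := by
    intro a
    rw [eF, eF, t4 _ _ (D.T.hX a) (P a).2 y hy, t4 _ _ (D.T.hX a) (b a).2 y hy, Finset.sum_mul,
      ← Finset.sum_sub_distrib]
    refine Finset.sum_congr rfl fun k _ => ?_
    have hd1 : DifferentiableAt ℝ ((b a).1 ∘ (extChartAt (𝓡 n) x₀).symm) y :=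
      ((hC _ (b a).2).contDiffAt (hT.mem_nhds hy)).differentiableAt (by simp)
    have hd2 : DifferentiableAt ℝ φ y := (hφ.differentiable (by simp)) y
    have e2 : (P a).1 ∘ (extChartAt (𝓡 n) x₀).symm =ᶠ[𝓝 y]
        fun z => ((b a).1 ∘ (extChartAt (𝓡 n) x₀).symm) z * φ z := by
      filter_upwards [hT.mem_nhds hy] with z hz
      exact hP a z hz
    have e3 : pd k ((P a).1 ∘ (extChartAt (𝓡 n) x₀).symm) y =
        ((b a).1 ((extChartAt (𝓡 n) x₀).symm y)) * pd k φ y +
          φ y * pd k ((b a).1 ∘ (extChartAt (𝓡 n) x₀).symm) y := by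
      unfold pd
      rw [e2.fderiv_eq, fderiv_fun_mul hd1 hd2]
      rfl
    rw [e3]
    ring
  rw [Finset.sum_congr rfl fun a _ => e1 a, Finset.sum_comm]
  have e4 : ∀ k, ∑ a, (b a).1 ((extChartAt (𝓡 n) x₀).symm y) *
      (zc x₀ (D.T.X a) k y * pd k φ y) =
      c1.1 ((extChartAt (𝓡 n) x₀).symm y) * (if i = k then 1 else 0) * pd k φ y := by
    intro k
    rw [← frame_id h3 D x₀ y hy i k, Finset.mul_sum, Finset.sum_mul]
    refine Finset.sum_congr rfl fun a _ => ?_
    rw [hb a y hy]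
    ring
  rw [Finset.sum_congr rfl fun k _ => e4 k, Finset.sum_eq_single i]
  · rw [if_pos rfl, mul_one]
  · intro k _ hk
    rw [if_neg (Ne.symm hk)]
    ring
  · exact fun h => absurd (Finset.mem_univ i) h

theorem supp_der (D : GD n M N) (x₀ : M) (a : Fin N) (f : SA n M)
    (hf : tsupport f.1 ⊆ (extChartAt (𝓡 n) x₀).source) :
    tsupport (D.F.e a f).1 ⊆ (extChartAt (𝓡 n) x₀).source := by
  have h1 : ∀ p, p ∉ tsupport f.1 → (D.F.e a f).1 p = 0 := by
    intro p hp
    rw [eF]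
    have h2 : f.1 =ᶠ[𝓝 p] fun _ => 0 := by
      filter_upwards [(isClosed_tsupport f.1).isOpen_compl.mem_nhds hp] with q hq
      exact image_eq_zero_of_notMem_tsupport hq
    change mvfderiv (𝓡 n) f.1 p (D.T.X a p) = 0
    have h3 : mfderiv (𝓡 n) 𝓘(ℝ, ℝ) f.1 p = 0 := by
      rw [h2.mfderiv_eq]
      exact mfderiv_const
    change (mfderiv (𝓡 n) 𝓘(ℝ, ℝ) f.1 p) (D.T.X a p) = 0
    rw [h3]
    rfl
  have h2 : Function.support (D.F.e a f).1 ⊆ tsupport f.1 := by
    intro p hp
    by_contra hne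
    exact hp (h1 p hne)
  exact (closure_minimal h2 (isClosed_tsupport _)).trans hf

theorem wk_we (h2 : S_TKF) (h3 : S_TKV) (h5 : S_TKI) (D : GD n M N) (x₀ : M) :
    ∀ (k : ℕ) (w : M → ℝ), Wk D.C k w → ∀ c : SA n M,
      tsupport c.1 ⊆ (extChartAt (𝓡 n) x₀).source → WE n k (pul n x₀ (fun p => c.1 p * w p))
  | 0, w, hw, c, hc => base h2 h5 D x₀ hw c hc
  | k + 1, w, hw, c, hc => by
    refine ⟨base h2 h5 D x₀ hw.1 c hc, fun i => ?_⟩
    obtain ⟨-, -, -, -, -, t6⟩ := h3 n M x₀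
    obtain ⟨d, hd1, hd2, i1, i2, i3, -⟩ := dens_ex h5 D x₀
    obtain ⟨c1, hc1, hc1T, hc1S, hc1o⟩ := mulr h2 x₀ c hc (fun y => (d y)⁻¹)
      (hd1.inv fun y hy => (hd2 y hy).ne')
    choose b hb hbT hbS hbo using fun a => mulr h2 x₀ c1 hc1 (be D x₀ i a)
      ((t6 D.g).1 (D.T.X a) (D.T.hX a) i)
    choose b' hb' hbT' hbS' hbo' using fun a => mulr h2 x₀ (b a) (hb a) d hd1
    set G : Fin N → SA n M := fun a => ∑ b, D.F.Γ b a b with hG
    have hq : ∀ a, tsupport (G a * b a + D.F.e a (b a)).1 ⊆ (extChartAt (𝓡 n) x₀).source := by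
      intro a
      have e1 : (G a * b a + D.F.e a (b a)).1 =
          fun p => (G a).1 p * (b a).1 p + (D.F.e a (b a)).1 p := rfl
      rw [e1]
      refine (tsupport_add _ _).trans (Set.union_subset ?_ (supp_der D x₀ a _ (hb a)))
      exact (tsupport_mul_subset_right).trans (hb a)
    choose h hh hhT hhS hho using fun a => mulr h2 x₀ (G a * b a + D.F.e a (b a)) (hq a) d hd1
    choose v hv hv2 using hw.2
    refine ⟨fun y => ∑ a, (pul n x₀ (fun p => (b' a).1 p * v a p) y +
      pul n x₀ (fun p => (h a).1 p * w p) y), ?_, ?_⟩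
    · exact WE_sum k _ _ fun a _ => WE_add k _ _ (wk_we h2 h3 h5 D x₀ k _ (hv a) (b' a) (hb' a))
        (wk_we h2 h3 h5 D x₀ k _ (Wk_mono D k w hw) (h a) (hh a))
    · intro φ hφ hφc
      choose P hP hPT hPS hPo using fun a => mulr h2 x₀ (b a) (hb a) φ hφ.contDiffOn
      choose Q hQ hQT hQS hQo using fun a =>
        mulr h2 x₀ (G a * b a + D.F.e a (b a)) (hq a) φ hφ.contDiffOn
      obtain ⟨c', hc', hcT', hcS', hco'⟩ := mulr h2 x₀ c1 hc1 (pd i φ)
        (pd_smooth hφ i).contDiffOn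
      have hkey := key h2 h3 D x₀ i c1 φ hφ b P hbT hPT
      -- pointwise identity
      have e1 : ∀ p, c'.1 p = ∑ a, (- (adj D.C a (P a) : SA n M).1 p - (Q a).1 p) := by
        intro p
        by_cases hp : p ∈ (extChartAt (𝓡 n) x₀).source
        · have hy := (extChartAt (𝓡 n) x₀).map_source hp
          have h0 := hkey _ hy
          rw [(extChartAt (𝓡 n) x₀).left_inv hp] at h0
          rw [hcS' p hp, h0]
          refine Finset.sum_congr rfl fun a _ => ?_
          have e2 : (adj D.C a (P a) : SA n M).1 p =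
            - (D.F.e a (P a)).1 p - (G a).1 p * (P a).1 p := rfl
          have e3 : (G a * b a + D.F.e a (b a)).1 p =
            (G a).1 p * (b a).1 p + (D.F.e a (b a)).1 p := rfl
          rw [e2, hQS a p hp, hPS a p hp, e3]
          ring
        · rw [hco' p hp]
          symm
          refine Finset.sum_eq_zero fun a _ => ?_
          have e2 : (adj D.C a (P a) : SA n M).1 p =
            - (D.F.e a (P a)).1 p - (G a).1 p * (P a).1 p := rfl
          have e3 : (D.F.e a (P a)).1 p = 0 :=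
            image_eq_zero_of_notMem_tsupport fun hn => hp (supp_der D x₀ a _ (hP a) hn)
          rw [e2, hQo a p hp, hPo a p hp, e3]
          ring
      have hwm := hw.1
      have hvm : ∀ a, MemLp (v a) 2 D.μ := fun a => Wk_memLp D k _ (hv a)
      -- the left hand side
      have e4 : ∫ y, pul n x₀ (fun p => c.1 p * w p) y * pd i φ y = ∫ p, c'.1 p * w p ∂D.μ := by
        rw [i2 _ (int_smul D c' hwm) (fun p hp => by rw [hco' p hp, zero_mul])]
        refine integral_congr_ae (Filter.Eventually.of_forall fun y => ?_)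
        by_cases hy : y ∈ (extChartAt (𝓡 n) x₀).target
        · simp only
          rw [pul_mem hy, pul_mem hy, hcT' y hy, hc1T y hy]
          have := (hd2 y hy).ne'
          field_simp
        · simp only
          rw [pul_nmem hy, pul_nmem hy, zero_mul, zero_mul]
      have e5 : ∫ p, c'.1 p * w p ∂D.μ = ∑ a, (- ∫ p, (P a).1 p * v a p ∂D.μ -
          ∫ p, (Q a).1 p * w p ∂D.μ) := by
        have e6 : ∀ p, c'.1 p * w p =
            ∑ a, (- ((adj D.C a (P a) : SA n M).1 p * w p) - (Q a).1 p * w p) := by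
          intro p
          rw [e1 p, Finset.sum_mul]
          exact Finset.sum_congr rfl fun a _ => by ring
        simp only [e6]
        have hi1 : ∀ a, Integrable (fun p => (adj D.C a (P a) : SA n M).1 p * w p) D.μ :=
          fun a => int_smul D _ hwm
        have hi2 : ∀ a, Integrable (fun p => (Q a).1 p * w p) D.μ := fun a => int_smul D _ hwm
        have hi0 : ∀ a, Integrable (fun p => - ((adj D.C a (P a) : SA n M).1 p * w p)) D.μ :=
          fun a => (hi1 a).neg
        have hi3 : ∀ a, Integrable (fun p => - ((adj D.C a (P a) : SA n M).1 p * w p) -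
            (Q a).1 p * w p) D.μ := fun a => (hi0 a).sub (hi2 a)
        rw [integral_finsetSum _ fun a _ => hi3 a]
        refine Finset.sum_congr rfl fun a _ => ?_
        rw [integral_sub (hi0 a) (hi2 a), integral_neg]
        congr 2
        have := hv2 a (P a)
        have e7 : ∀ p, D.C.ev p (adj D.C a (P a)) = (adj D.C a (P a) : SA n M).1 p := fun p => rfl
        have e8 : ∀ p, D.C.ev p (P a) = (P a).1 p := fun p => rfl
        simp only [e7, e8] at this
        calc ∫ p, (adj D.C a (P a) : SA n M).1 p * w p ∂D.μ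
            = ∫ p, w p * (adj D.C a (P a) : SA n M).1 p ∂D.μ := by simp only [mul_comm]
          _ = ∫ p, v a p * (P a).1 p ∂D.μ := this.symm
          _ = ∫ p, (P a).1 p * v a p ∂D.μ := by simp only [mul_comm]
      have e9 : ∀ a, ∫ p, (P a).1 p * v a p ∂D.μ =
          ∫ y, pul n x₀ (fun p => (b' a).1 p * v a p) y * φ y := by
        intro a
        rw [i2 _ (int_smul D (P a) (hvm a)) (fun p hp => by rw [hPo a p hp, zero_mul])]
        refine integral_congr_ae (Filter.Eventually.of_forall fun y => ?_)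
        by_cases hy : y ∈ (extChartAt (𝓡 n) x₀).target
        · simp only
          rw [pul_mem hy, pul_mem hy, hPT a y hy, hbT' a y hy]
          ring
        · simp only
          rw [pul_nmem hy, pul_nmem hy, zero_mul, zero_mul]
      have e10 : ∀ a, ∫ p, (Q a).1 p * w p ∂D.μ =
          ∫ y, pul n x₀ (fun p => (h a).1 p * w p) y * φ y := by
        intro a
        rw [i2 _ (int_smul D (Q a) hwm) (fun p hp => by rw [hQo a p hp, zero_mul])]
        refine integral_congr_ae (Filter.Eventually.of_forall fun y => ?_)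
        by_cases hy : y ∈ (extChartAt (𝓡 n) x₀).target
        · simp only
          rw [pul_mem hy, pul_mem hy, hQT a y hy, hhT a y hy]
          ring
        · simp only
          rw [pul_nmem hy, pul_nmem hy, zero_mul, zero_mul]
      rw [e4, e5]
      have hj1 : ∀ a, Integrable (fun y => pul n x₀ (fun p => (b' a).1 p * v a p) y * φ y) :=
        fun a => mul_int (base h2 h5 D x₀ (hvm a) (b' a) (hb' a)) hφ.continuous hφc
      have hj2 : ∀ a, Integrable (fun y => pul n x₀ (fun p => (h a).1 p * w p) y * φ y) :=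
        fun a => mul_int (base h2 h5 D x₀ hwm (h a) (hh a)) hφ.continuous hφc
      have e11 : ∀ y, (∑ a, (pul n x₀ (fun p => (b' a).1 p * v a p) y +
          pul n x₀ (fun p => (h a).1 p * w p) y)) * φ y =
          ∑ a, (pul n x₀ (fun p => (b' a).1 p * v a p) y * φ y +
          pul n x₀ (fun p => (h a).1 p * w p) y * φ y) := by
        intro y
        rw [Finset.sum_mul]
        exact Finset.sum_congr rfl fun a _ => by ring
      simp only [e11]
      have hj3 : ∀ a, Integrable (fun y => pul n x₀ (fun p => (b' a).1 p * v a p) y * φ y +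
          pul n x₀ (fun p => (h a).1 p * w p) y * φ y) := fun a => (hj1 a).add (hj2 a)
      rw [integral_finsetSum _ fun a _ => hj3 a, ← Finset.sum_neg_distrib]
      refine Finset.sum_congr rfl fun a _ => ?_
      rw [integral_add (hj1 a) (hj2 a), e9, e10]
      ring

end loc

end Greg

/-- functions with weak derivatives of all orders are smooth -/
theorem s_greg (h1 : S_SOB) (h2 : S_TKF) (h3 : S_TKV) (h4 : S_TKP) (h5 : S_TKI) : S_GREG := by
  intro n M _ _ _ _ _ _ _ N D hn u hu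
  obtain ⟨m, x, χ, η, p1, -, p3, p4, p5⟩ := h4 n M
  have hi : ∀ i, ∃ g : SA n M, ∀ᵐ p ∂D.μ, (χ i).1 p * u p = g.1 p := by
    intro i
    have hW : ∀ k, WE n k (pul n (x i) (fun p => (χ i).1 p * u p)) := fun k =>
      Greg.wk_we h2 h3 h5 D (x i) k u (hu k) (χ i) (p3 i)
    obtain ⟨-, b2, -, -⟩ := (h2 n M (x i)).2.1 (χ i).1 (χ i).2 (p3 i)
    have hcs : HasCompactSupport (pul n (x i) (fun p => (χ i).1 p * u p)) := by
      refine b2.mono ?_
      intro y hy hy0
      refine hy ?_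
      by_cases hyT : y ∈ (extChartAt (𝓡 n) (x i)).target
      · rw [Greg.pul_mem hyT] at hy0 ⊢
        rw [hy0, zero_mul]
      · rw [Greg.pul_nmem hyT]
    obtain ⟨f, hf, hfe⟩ := h1 n _ hn hcs hW
    obtain ⟨g, -, -, hgS, hgo⟩ := Greg.mulr h2 (x i) (η i) (p4 i) f hf.contDiffOn
    obtain ⟨d, -, -, -, -, -, hnull⟩ := Greg.dens_ex h5 D (x i)
    have h0 := hnull _ (ae_iff.1 hfe)
    refine ⟨g, ae_iff.2 (measure_mono_null ?_ h0)⟩
    intro p hp
    have hη : (χ i).1 p = (η i).1 p * (χ i).1 p := by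
      by_cases hs : p ∈ tsupport (χ i).1
      · have h1 : (η i).1 p = 1 := (p5 i p hs).self_of_nhds
        rw [h1, one_mul]
      · rw [image_eq_zero_of_notMem_tsupport hs, mul_zero]
    by_cases hpS : p ∈ (extChartAt (𝓡 n) (x i)).source
    · refine ⟨hpS, fun hc => hp ?_⟩
      rw [Greg.pul_mem ((extChartAt (𝓡 n) (x i)).map_source hpS),
        (extChartAt (𝓡 n) (x i)).left_inv hpS] at hc
      rw [hgS p hpS, ← hc, ← mul_assoc, ← hη]
    · refine absurd ?_ hp
      have h3 : (χ i).1 p = 0 := image_eq_zero_of_notMem_tsupport fun hs => hpS (p3 i hs)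
      rw [h3, zero_mul, hgo p hpS]
  choose g hg using hi
  refine ⟨∑ i, g i, ?_⟩
  have hall : ∀ᵐ p ∂D.μ, ∀ i, (χ i).1 p * u p = (g i).1 p := ae_all_iff.2 hg
  filter_upwards [hall] with p hp
  have e1 : D.C.ev p (∑ i, g i) = ∑ i, (g i).1 p := map_sum (D.C.ev p) g Finset.univ
  have e2 : ∑ i, (χ i).1 p = 1 := p1 p
  rw [e1, ← Finset.sum_congr rfl (fun i _ => hp i), ← Finset.sum_mul, e2, one_mul]

end Pool.Agent.H781.CM
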