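import Pool.Agent.H781.CM.GSpec

/-!
# The Landau kernel on `ℝⁿ`: properties of the mollification, and finite rank near the diagonal
-/

set_option autoImplicit false
set_option maxHeartbeats 4000000

open MeasureTheory Filter ContDiff Function Set
open scoped Topology

noncomputable section

namespace Pool.Agent.H781.CM

namespace Lan

/-! ### General lemmas -/

theorem cs {Z : Type} [MeasurableSpace Z] {μ : Measure Z} {h F : Z → ℝ} {A : ℝ} (hA : 0 < A)
    (h0 : ∀ z, 0 ≤ h z) (hi : Integrable h μ) (hle : ∫ z, h z ∂μ ≤ A)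
    (h1 : Integrable (fun z => h z * F z) μ) (h2 : Integrable (fun z => h z * F z ^ 2) μ) :
    (∫ z, h z * F z ∂μ) ^ 2 ≤ A * ∫ z, h z * F z ^ 2 ∂μ := by
  obtain ⟨B, hB⟩ : ∃ B : ℝ, B = ∫ z, h z * F z ∂μ := ⟨_, rfl⟩
  obtain ⟨C, hC⟩ : ∃ C : ℝ, C = ∫ z, h z * F z ^ 2 ∂μ := ⟨_, rfl⟩
  rw [← hB, ← hC]
  have key : 0 ≤ ∫ z, (h z * F z ^ 2 - (2 * (B / A)) * (h z * F z) + (B / A) ^ 2 * h z) ∂μ := by
    apply integral_nonneg
    intro z
    have : h z * F z ^ 2 - (2 * (B / A)) * (h z * F z) + (B / A) ^ 2 * h z =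
        h z * (F z - B / A) ^ 2 := by ring
    show 0 ≤ h z * F z ^ 2 - (2 * (B / A)) * (h z * F z) + (B / A) ^ 2 * h z
    rw [this]
    exact mul_nonneg (h0 z) (sq_nonneg _)
  have i1 : Integrable (fun z => h z * F z ^ 2 - (2 * (B / A)) * (h z * F z)) μ :=
    h2.sub (h1.const_mul _)
  rw [integral_add i1 (hi.const_mul _), integral_sub h2 (h1.const_mul _),
    integral_const_mul, integral_const_mul, ← hB, ← hC] at key
  have h3 : (B / A) ^ 2 * ∫ z, h z ∂μ ≤ (B / A) ^ 2 * A :=
    mul_le_mul_of_nonneg_left hle (sq_nonneg _)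
  have h4 : 0 ≤ C - 2 * (B / A) * B + (B / A) ^ 2 * A := by linarith
  have h5 : C - 2 * (B / A) * B + (B / A) ^ 2 * A = C - B ^ 2 / A := by
    field_simp
    ring
  rw [h5] at h4
  have h6 : B ^ 2 / A ≤ C := by linarith
  rw [div_le_iff₀ hA] at h6
  linarith

theorem young {Z X : Type} [MeasurableSpace Z] [MeasurableSpace X] {μ : Measure Z}
    {ν : Measure X} [SFinite μ] [SFinite ν] {h : Z → ℝ} {F : Z → X → ℝ} {A : ℝ} (hA : 0 < A)
    (h0 : ∀ z, 0 ≤ h z) (hi : Integrable h μ) (hle : ∫ z, h z ∂μ ≤ A)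
    (h1 : ∀ x, Integrable (fun z => h z * F z x) μ)
    (h2 : ∀ x, Integrable (fun z => h z * F z x ^ 2) μ)
    (h3 : Integrable (fun p : Z × X => h p.1 * F p.1 p.2 ^ 2) (μ.prod ν)) (f : X → ℝ)
    (hf : ∀ x, f x ^ 2 ≤ (∫ z, h z * F z x ∂μ) ^ 2) :
    ∫ x, f x ^ 2 ∂ν ≤ A * ∫ z, h z * ∫ x, F z x ^ 2 ∂ν ∂μ := by
  have e1 : ∫ x, f x ^ 2 ∂ν ≤ ∫ x, A * ∫ z, h z * F z x ^ 2 ∂μ ∂ν := by
    apply integral_mono_of_nonneg (Eventually.of_forall fun x => sq_nonneg _)
    · exact (h3.integral_prod_right).const_mul A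
    · exact Eventually.of_forall fun x => (hf x).trans (cs hA h0 hi hle (h1 x) (h2 x))
  refine e1.trans (le_of_eq ?_)
  rw [integral_const_mul]
  congr 1
  rw [← integral_integral_swap (f := fun z x => h z * F z x ^ 2) h3]
  apply integral_congr_ae
  apply Eventually.of_forall
  intro z
  exact integral_const_mul _ _

section euc

variable {n : ℕ}

theorem int_cc {g : EU n → ℝ} (hg : Continuous g) (hc : HasCompactSupport g) : Integrable g :=
  hg.integrable_of_hasCompactSupport hc

theorem int_prod {g : EU n × EU n → ℝ} (hg : Continuous g) (R1 R2 : ℝ)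
    (h1 : ∀ p, R1 < ‖p.1‖ → g p = 0) (h2 : ∀ p, R2 < ‖p.2‖ → g p = 0) :
    Integrable g ((volume : Measure (EU n)).prod (volume : Measure (EU n))) := by
  apply hg.integrable_of_hasCompactSupport
  apply HasCompactSupport.intro
    ((isCompact_closedBall (0 : EU n) R1).prod (isCompact_closedBall (0 : EU n) R2))
  intro p hp
  by_contra hne
  apply hp
  rw [Set.mem_prod, mem_closedBall_zero_iff, mem_closedBall_zero_iff]
  constructor
  · by_contra h
    exact hne (h1 p (not_le.1 h))
  · by_contra h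
    exact hne (h2 p (not_le.1 h))

theorem bound_of_cc {u : EU n → ℝ} (hc : HasCompactSupport u) :
    ∃ R : ℝ, 0 ≤ R ∧ ∀ x, R < ‖x‖ → u x = 0 := by
  obtain ⟨R, hR⟩ := (hc.isCompact.isBounded).subset_closedBall (0 : EU n)
  refine ⟨max R 0, le_max_right _ _, fun x hx => ?_⟩
  by_contra hne
  have := hR (subset_tsupport u hne)
  rw [mem_closedBall_zero_iff] at this
  exact absurd (lt_of_le_of_lt (le_max_left R 0) hx) (not_lt.2 this)

theorem cc_of_bound {u : EU n → ℝ} {R : ℝ} (h : ∀ x, R < ‖x‖ → u x = 0) :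
    HasCompactSupport u := by
  apply HasCompactSupport.intro (isCompact_closedBall (0 : EU n) R)
  intro x hx
  apply h
  rw [mem_closedBall_zero_iff, not_le] at hx
  exact hx

/-- the estimate for averages of functions with `h` of compact support. -/
theorem young' {h : EU n → ℝ} {F : EU n → EU n → ℝ} {A R1 R2 : ℝ} (hA : 0 < A)
    (h0 : ∀ z, 0 ≤ h z) (hc : Continuous h) (hs : ∀ z, R1 < ‖z‖ → h z = 0)
    (hle : ∫ z, h z ≤ A) (hF : Continuous fun p : EU n × EU n => F p.1 p.2)
    (hFs : ∀ z x, ‖z‖ ≤ R1 → R2 < ‖x‖ → F z x = 0) (f : EU n → ℝ)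
    (hf : ∀ x, f x ^ 2 ≤ (∫ z, h z * F z x) ^ 2) :
    ∫ x, f x ^ 2 ≤ A * ∫ z, h z * ∫ x, F z x ^ 2 := by
  have hcs : HasCompactSupport h := cc_of_bound hs
  have hFx : ∀ x, Continuous fun z => F z x := fun x =>
    hF.comp (continuous_id.prodMk continuous_const)
  apply young (μ := (volume : Measure (EU n))) (ν := (volume : Measure (EU n))) hA h0
    (int_cc hc hcs) hle ?_ ?_ ?_ f hf
  · intro x
    exact int_cc (hc.mul (hFx x)) hcs.mul_right
  · intro x
    exact int_cc (hc.mul ((hFx x).pow 2)) hcs.mul_right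
  · apply int_prod ((hc.comp continuous_fst).mul (hF.pow 2)) R1 R2
    · intro p hp
      show h p.1 * F p.1 p.2 ^ 2 = 0
      rw [hs p.1 hp, zero_mul]
    · intro p hp
      show h p.1 * F p.1 p.2 ^ 2 = 0
      rcases le_or_gt ‖p.1‖ R1 with h5 | h5
      · rw [hFs p.1 p.2 h5 hp]
        ring
      · rw [hs p.1 h5, zero_mul]

theorem int_shift (g : EU n → ℝ) (z : EU n) : ∫ x, g (x - z) = ∫ x, g x :=
  integral_sub_right_eq_self g z

theorem int_refl (g : EU n → ℝ) (x : EU n) : ∫ w, g (x - w) = ∫ z, g z :=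
  integral_sub_left_eq_self g volume x

theorem fderiv_eq (u : EU n → ℝ) (y z : EU n) : fderiv ℝ u y z = ∑ k, z k * pd k u y := by
  have hz : z = ∑ k, z k • EuclideanSpace.single k (1 : ℝ) := by
    ext i
    simp [Finset.sum_apply, Pi.single_apply]
  conv_lhs => rw [hz]
  rw [map_sum]
  apply Finset.sum_congr rfl
  intro k _
  rw [map_smul, smul_eq_mul]
  rfl

theorem fderiv_sq_le (u : EU n → ℝ) (y z : EU n) :
    (fderiv ℝ u y z) ^ 2 ≤ ‖z‖ ^ 2 * ∑ k, pd k u y ^ 2 := by
  rw [fderiv_eq, EuclideanSpace.real_norm_sq_eq]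
  exact Finset.sum_mul_sq_le_sq_mul_sq _ _ _

theorem cont_pd {u : EU n → ℝ} (hu : ContDiff ℝ ∞ u) (k : Fin n) : Continuous (pd k u) := by
  have h := hu.continuous_fderiv (by simp)
  exact h.clm_apply continuous_const

theorem smooth_pd {u : EU n → ℝ} (hu : ContDiff ℝ ∞ u) (k : Fin n) : ContDiff ℝ ∞ (pd k u) := by
  have h : ContDiff ℝ ∞ (fderiv ℝ u) := hu.fderiv_right (by simp)
  exact h.clm_apply contDiff_const

theorem cc_pd {u : EU n → ℝ} (hc : HasCompactSupport u) (k : Fin n) :
    HasCompactSupport (pd k u) := by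
  have h := hc.fderiv (𝕜 := ℝ)
  exact h.comp_left (g := fun L : EU n →L[ℝ] ℝ => L (EuclideanSpace.single k (1 : ℝ))) rfl

/-- translations -/
theorem transl {u : EU n → ℝ} (hu : ContDiff ℝ ∞ u) (hc : HasCompactSupport u) (z : EU n) :
    ∫ x, (u x - u (x - z)) ^ 2 ≤ ‖z‖ ^ 2 * ∑ k, ∫ x, pd k u x ^ 2 := by
  obtain ⟨R, hR0, hR⟩ := bound_of_cc (hc.fderiv (𝕜 := ℝ) |>.comp_left
    (g := fun L : EU n →L[ℝ] ℝ => L z) rfl)
  have hcf : Continuous (fderiv ℝ u) := hu.continuous_fderiv (by simp)
  have hcF : Continuous fun p : ℝ × EU n => fderiv ℝ u (p.2 - z + p.1 • z) z := by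
    apply (hcf.comp _).clm_apply continuous_const
    fun_prop
  have hzero : ∀ (t : ℝ) (x : EU n), t ∈ Icc (0 : ℝ) 1 → R + ‖z‖ < ‖x‖ →
      fderiv ℝ u (x - z + t • z) z = 0 := by
    intro t x ht hx
    apply hR (x - z + t • z)
    have e : x - z + t • z = x - (1 - t) • z := by
      rw [sub_smul, one_smul]
      abel
    rw [e]
    have h1 : ‖(1 - t) • z‖ ≤ ‖z‖ := by
      rw [norm_smul, Real.norm_eq_abs, abs_of_nonneg (by linarith [ht.2])]
      have := norm_nonneg z
      nlinarith [ht.1]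
    have h2 := norm_sub_norm_le x ((1 - t) • z)
    linarith
  have h := young (μ := (volume : Measure ℝ).restrict (Icc 0 1)) (ν := (volume : Measure (EU n)))
    (h := fun _ => (1 : ℝ)) (F := fun t x => fderiv ℝ u (x - z + t • z) z) (A := 1) one_pos
    (fun _ => zero_le_one) (integrable_const _) (by simp) ?_ ?_ ?_ (fun x => u x - u (x - z)) ?_
  · refine h.trans ?_
    rw [one_mul]
    have h2 : ∀ t : ℝ, ∫ x, fderiv ℝ u (x - z + t • z) z ^ 2 = ∫ y, fderiv ℝ u y z ^ 2 := by
      intro t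
      have := int_shift (fun y => fderiv ℝ u y z ^ 2) (z - t • z)
      rw [← this]
      apply integral_congr_ae
      apply Eventually.of_forall
      intro x
      have e : x - (z - t • z) = x - z + t • z := by abel
      show fderiv ℝ u (x - z + t • z) z ^ 2 = fderiv ℝ u (x - (z - t • z)) z ^ 2
      rw [e]
    simp only [h2, one_mul]
    rw [setIntegral_const]
    simp only [measureReal_def, Real.volume_Icc, sub_zero, ENNReal.ofReal_one,
      ENNReal.toReal_one, one_smul]
    rw [← integral_finsetSum, ← integral_const_mul]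
    · apply integral_mono_of_nonneg (Eventually.of_forall fun x => sq_nonneg _)
      · apply Integrable.const_mul
        apply integrable_finsetSum
        intro k _
        exact int_cc ((cont_pd hu k).pow 2) ((cc_pd hc k).comp_left (g := fun s : ℝ => s ^ 2)
          (by norm_num))
      · exact Eventually.of_forall fun x => fderiv_sq_le u x z
    · intro k _
      exact int_cc ((cont_pd hu k).pow 2) ((cc_pd hc k).comp_left (g := fun s : ℝ => s ^ 2)
          (by norm_num))
  · intro x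
    have : Continuous fun t : ℝ => (1 : ℝ) * fderiv ℝ u (x - z + t • z) z :=
      continuous_const.mul (hcF.comp (continuous_id.prodMk continuous_const))
    exact this.integrableOn_Icc
  · intro x
    have : Continuous fun t : ℝ => (1 : ℝ) * fderiv ℝ u (x - z + t • z) z ^ 2 :=
      continuous_const.mul ((hcF.comp (continuous_id.prodMk continuous_const)).pow 2)
    exact this.integrableOn_Icc
  · have e : ((volume : Measure ℝ).restrict (Icc 0 1)).prod (volume : Measure (EU n)) =
        ((volume : Measure ℝ).prod (volume : Measure (EU n))).restrict (Icc 0 1 ×ˢ univ) := by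
      rw [← Measure.prod_restrict, Measure.restrict_univ]
    rw [e]
    have hcomp : IsCompact (Icc (0 : ℝ) 1 ×ˢ Metric.closedBall (0 : EU n) (R + ‖z‖)) :=
      isCompact_Icc.prod (isCompact_closedBall _ _)
    have hco : Continuous fun p : ℝ × EU n => (1 : ℝ) * fderiv ℝ u (p.2 - z + p.1 • z) z ^ 2 :=
      continuous_const.mul (hcF.pow 2)
    have h1 := hco.continuousOn.integrableOn_compact
      (μ := (volume : Measure ℝ).prod (volume : Measure (EU n))) hcomp
    apply h1.of_forall_sdiff_eq_zero (measurableSet_Icc.prod MeasurableSet.univ)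
    rintro ⟨t, x⟩ ⟨h2, h3⟩
    have ht : t ∈ Icc (0 : ℝ) 1 := h2.1
    have hx : R + ‖z‖ < ‖x‖ := by
      by_contra hcon
      apply h3
      exact ⟨ht, by rw [mem_closedBall_zero_iff]; exact not_lt.1 hcon⟩
    show (1 : ℝ) * fderiv ℝ u (x - z + t • z) z ^ 2 = 0
    rw [hzero t x ht hx]
    ring
  · intro x
    apply le_of_eq
    congr 1
    have hd : ∀ t : ℝ, HasDerivAt (fun t : ℝ => u (x - z + t • z))
        (fderiv ℝ u (x - z + t • z) z) t := by
      intro t
      have h1 : HasFDerivAt u (fderiv ℝ u (x - z + t • z)) (x - z + t • z) :=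
        (hu.differentiable (by simp) _).hasFDerivAt
      have h2 : HasDerivAt (fun t : ℝ => x - z + t • z) z t := by
        have := ((hasDerivAt_id t).smul_const z).const_add (x - z)
        simpa using this
      exact h1.comp_hasDerivAt t h2
    have h3 := intervalIntegral.integral_eq_sub_of_hasDerivAt (a := 0) (b := 1)
      (f := fun t : ℝ => u (x - z + t • z)) (fun t _ => hd t)
      ((hcF.comp (continuous_id.prodMk continuous_const)).intervalIntegrable _ _)
    rw [intervalIntegral.integral_of_le zero_le_one, ← integral_Icc_eq_integral_Ioc] at h3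
    simp only [one_mul]
    rw [h3]
    simp

end euc

section kern

variable {n : ℕ} {r : ℝ}

/-- the profile -/
theorem prof (m : ℕ) (s : ℝ) :
    HasDerivAt (fun s : ℝ => (max 0 s) ^ (m + 2)) ((m + 2) * (max 0 s) ^ (m + 1)) s := by
  rcases lt_trichotomy s 0 with h | h | h
  · have e : (fun s : ℝ => (max 0 s) ^ (m + 2)) =ᶠ[𝓝 s] fun _ => 0 := by
      filter_upwards [eventually_lt_nhds h] with t ht
      rw [max_eq_left ht.le]
      exact zero_pow (by omega)
    rw [max_eq_left h.le, zero_pow (by omega), mul_zero]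
    exact (hasDerivAt_const s (0 : ℝ)).congr_of_eventuallyEq e
  · subst h
    rw [max_self, zero_pow (by omega), mul_zero]
    have hO : (fun s : ℝ => (max 0 s) ^ (m + 2)) =O[𝓝 0] fun x : ℝ => ‖x - 0‖ ^ (m + 2) := by
      apply Asymptotics.IsBigO.of_bound 1
      apply Eventually.of_forall
      intro x
      rw [one_mul, sub_zero, norm_pow, norm_pow, norm_norm]
      apply pow_le_pow_left₀ (norm_nonneg _)
      rw [Real.norm_eq_abs, Real.norm_eq_abs, abs_of_nonneg (le_max_left _ _)]
      exact max_le (abs_nonneg _) (le_abs_self _)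
    have h1 := hO.hasFDerivAt (𝕜 := ℝ) (by omega)
    have h2 := h1.hasDerivAt
    simpa using h2
  · have e : (fun s : ℝ => (max 0 s) ^ (m + 2)) =ᶠ[𝓝 s] fun s => s ^ (m + 2) := by
      filter_upwards [eventually_gt_nhds h] with t ht
      rw [max_eq_right (le_of_lt ht)]
    rw [max_eq_right h.le]
    have h1 := (hasDerivAt_pow (m + 2) s).congr_of_eventuallyEq e
    have e2 : ((m + 2 : ℕ) : ℝ) * s ^ (m + 2 - 1) = ((m : ℝ) + 2) * s ^ (m + 1) := by
      push_cast
      rfl
    rw [e2] at h1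
    exact h1

/-- the cut off -/
def mx (r : ℝ) (z : EU n) : ℝ := max 0 (1 - ‖z‖ ^ 2 / r ^ 2)

theorem mx_cont : Continuous (mx (n := n) r) := by
  unfold mx
  fun_prop

theorem mx_nonneg (z : EU n) : 0 ≤ mx r z := le_max_left _ _

theorem mx_zero (hr : 0 < r) {z : EU n} (hz : r ≤ ‖z‖) : mx r z = 0 := by
  unfold mx
  apply max_eq_left
  have : 1 ≤ ‖z‖ ^ 2 / r ^ 2 := by
    rw [le_div_iff₀ (by positivity), one_mul]
    exact pow_le_pow_left₀ hr.le hz 2
  linarith

theorem mx_at_zero : mx r (0 : EU n) = 1 := by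
  unfold mx
  simp

/-- the normalising constant -/
def ck (n : ℕ) (r : ℝ) (m : ℕ) : ℝ := ∫ z : EU n, mx r z ^ (m + 2)

theorem lk_eq (m : ℕ) (z : EU n) : lk n r m z = mx r z ^ (m + 2) / ck n r m := rfl

theorem mxp_cs (hr : 0 < r) (m : ℕ) : HasCompactSupport fun z : EU n => mx r z ^ (m + 1) := by
  apply cc_of_bound (R := r)
  intro x hx
  rw [mx_zero hr hx.le]
  exact zero_pow (by omega)

theorem ck_pos (hr : 0 < r) (m : ℕ) : 0 < ck n r m := by
  apply Continuous.integral_pos_of_hasCompactSupport_nonneg_nonzero (x := (0 : EU n))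
  · exact mx_cont.pow _
  · exact mxp_cs hr (m + 1)
  · intro z
    exact pow_nonneg (mx_nonneg z) _
  · rw [mx_at_zero, one_pow]
    exact one_ne_zero

theorem lk_cont (m : ℕ) : Continuous (lk n r m) := by
  have : lk n r m = fun z => mx r z ^ (m + 2) / ck n r m := funext (lk_eq m)
  rw [this]
  exact (mx_cont.pow _).div_const _

theorem lk_nonneg (hr : 0 < r) (m : ℕ) (z : EU n) : 0 ≤ lk n r m z := by
  rw [lk_eq]
  exact div_nonneg (pow_nonneg (mx_nonneg z) _) (ck_pos hr m).le

theorem lk_zero (hr : 0 < r) (m : ℕ) {z : EU n} (hz : r ≤ ‖z‖) : lk n r m z = 0 := by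
  rw [lk_eq, mx_zero hr hz, zero_pow (by omega), zero_div]

theorem lk_cs (hr : 0 < r) (m : ℕ) : HasCompactSupport (lk n r m) :=
  cc_of_bound (R := r) fun _ hx => lk_zero hr m hx.le

theorem lk_one (hr : 0 < r) (m : ℕ) : ∫ z, lk n r m z = 1 := by
  have : lk n r m = fun z => mx r z ^ (m + 2) / ck n r m := funext (lk_eq m)
  rw [this, integral_div]
  exact div_self (ck_pos hr m).ne'

theorem lk_diff (m : ℕ) (z : EU n) : HasFDerivAt (lk n r m)
    ((((m : ℝ) + 2) * mx r z ^ (m + 1) / ck n r m) • (-((r ^ 2)⁻¹ • ((2 : ℝ) • innerSL ℝ z)))) z := by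
  have h1 : HasFDerivAt (fun z : EU n => ‖z‖ ^ 2) ((2 : ℝ) • innerSL ℝ z) z := by
    have := (hasStrictFDerivAt_norm_sq z).hasFDerivAt
    rw [two_smul] at this
    rw [two_smul]
    exact this
  have h2 : HasFDerivAt (fun z : EU n => 1 - ‖z‖ ^ 2 / r ^ 2)
      (-((r ^ 2)⁻¹ • ((2 : ℝ) • innerSL ℝ z))) z := by
    have h3 := (h1.const_mul ((r ^ 2)⁻¹)).const_sub 1
    have e : (fun z : EU n => 1 - ‖z‖ ^ 2 / r ^ 2) = fun z => 1 - (r ^ 2)⁻¹ * ‖z‖ ^ 2 := by
      funext y
      rw [div_eq_inv_mul]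
    rw [e]
    exact h3
  have h3 := (prof m (1 - ‖z‖ ^ 2 / r ^ 2)).comp_hasFDerivAt z h2
  have h4 := h3.const_mul ((ck n r m)⁻¹)
  have e : lk n r m = fun z => (ck n r m)⁻¹ *
      ((fun s : ℝ => (max 0 s) ^ (m + 2)) ∘ fun z : EU n => 1 - ‖z‖ ^ 2 / r ^ 2) z := by
    funext y
    rw [lk_eq, div_eq_inv_mul]
    rfl
  rw [e]
  refine h4.congr_fderiv ?_
  rw [smul_smul]
  congr 1
  show (ck n r m)⁻¹ * (((m : ℝ) + 2) * mx r z ^ (m + 1)) = _
  rw [div_eq_inv_mul]

theorem pd_lk (m : ℕ) (k : Fin n) (z : EU n) :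
    pd k (lk n r m) z = -(((m : ℝ) + 2) * mx r z ^ (m + 1) / ck n r m * (2 / r ^ 2 * z k)) := by
  unfold pd
  rw [(lk_diff m z).fderiv]
  simp only [smul_apply, neg_apply, innerSL_apply_apply, smul_eq_mul]
  rw [EuclideanSpace.inner_single_right]
  simp only [conj_trivial, one_mul]
  ring

theorem lk_differentiable (m : ℕ) : Differentiable ℝ (lk n r m) :=
  fun z => (lk_diff m z).differentiableAt

theorem pdlk_cont (m : ℕ) (k : Fin n) : Continuous (pd k (lk n r m)) := by
  have : pd k (lk n r m) =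
      fun z => -(((m : ℝ) + 2) * mx r z ^ (m + 1) / ck n r m * (2 / r ^ 2 * z k)) :=
    funext (pd_lk m k)
  rw [this]
  have h := mx_cont (n := n) (r := r)
  fun_prop

/-- the majorant of the derivative of the kernel -/
def gg (n : ℕ) (r : ℝ) (m : ℕ) (z : EU n) : ℝ :=
  ((m : ℝ) + 2) * mx r z ^ (m + 1) / ck n r m * (2 / r ^ 2 * ‖z‖ ^ 2)

theorem gg_cont (m : ℕ) : Continuous (gg n r m) := by
  have h := mx_cont (n := n) (r := r)
  unfold gg
  fun_prop

theorem gg_nonneg (hr : 0 < r) (m : ℕ) (z : EU n) : 0 ≤ gg n r m z := by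
  have h1 := mx_nonneg (r := r) z
  have h2 := ck_pos (n := n) hr m
  unfold gg
  positivity

theorem gg_zero (hr : 0 < r) (m : ℕ) {z : EU n} (hz : r ≤ ‖z‖) : gg n r m z = 0 := by
  unfold gg
  rw [mx_zero hr hz, zero_pow (by omega)]
  ring

theorem gg_eq (m : ℕ) (z : EU n) : gg n r m z = ∑ k, -(z k * pd k (lk n r m) z) := by
  unfold gg
  rw [EuclideanSpace.real_norm_sq_eq, Finset.mul_sum, Finset.mul_sum]
  apply Finset.sum_congr rfl
  intro k _
  rw [pd_lk]
  ring

theorem le_gg (hr : 0 < r) (m : ℕ) (k : Fin n) (z : EU n) :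
    ‖z‖ * |pd k (lk n r m) z| ≤ gg n r m z := by
  have h1 := mx_nonneg (r := r) z
  have h2 := ck_pos (n := n) hr m
  have h3 : |z k| ≤ ‖z‖ := by
    have := EuclideanSpace.norm_eq z
    have h4 : z k ^ 2 ≤ ‖z‖ ^ 2 := by
      rw [EuclideanSpace.real_norm_sq_eq]
      exact Finset.single_le_sum (f := fun i => z i ^ 2) (fun i _ => sq_nonneg _)
        (Finset.mem_univ k)
    exact abs_le_of_sq_le_sq h4 (norm_nonneg z)
  have h5 : 0 ≤ ((m : ℝ) + 2) * mx r z ^ (m + 1) / ck n r m := by positivity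
  have h6 : 0 ≤ 2 / r ^ 2 := by positivity
  rw [pd_lk, abs_neg, abs_mul, abs_of_nonneg h5, abs_mul, abs_of_nonneg h6]
  unfold gg
  have h7 : ‖z‖ * |z k| ≤ ‖z‖ ^ 2 := by
    rw [sq]
    exact mul_le_mul_of_nonneg_left h3 (norm_nonneg z)
  calc ‖z‖ * (((m : ℝ) + 2) * mx r z ^ (m + 1) / ck n r m * (2 / r ^ 2 * |z k|))
      = ((m : ℝ) + 2) * mx r z ^ (m + 1) / ck n r m * (2 / r ^ 2 * (‖z‖ * |z k|)) := by ring
    _ ≤ _ := mul_le_mul_of_nonneg_left (mul_le_mul_of_nonneg_left h7 h6) h5

theorem int_xpd (hr : 0 < r) (m : ℕ) (k : Fin n) : ∫ z, z k * pd k (lk n r m) z = -1 := by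
  have hcs := lk_cs (n := n) hr m
  have hpd := cc_pd hcs k
  have hf : ∀ z : EU n, fderiv ℝ (fun z : EU n => z k) z (EuclideanSpace.single k (1 : ℝ)) = 1 := by
    intro z
    have : HasFDerivAt (fun z : EU n => z k) (EuclideanSpace.proj k : EU n →L[ℝ] ℝ) z :=
      (EuclideanSpace.proj k : EU n →L[ℝ] ℝ).hasFDerivAt
    rw [this.fderiv]
    simp
  have hc : Continuous fun z : EU n => z k := by fun_prop
  have h := integral_mul_fderiv_eq_neg_fderiv_mul_of_integrable (μ := (volume : Measure (EU n)))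
    (f := fun z : EU n => z k) (g := lk n r m) (v := EuclideanSpace.single k (1 : ℝ)) ?_ ?_ ?_
    (fun z _ => by fun_prop) (fun z _ => lk_differentiable m z)
  · simp only [hf, one_mul] at h
    rw [lk_one hr] at h
    exact h
  · simp only [hf, one_mul]
    exact int_cc (lk_cont m) hcs
  · exact int_cc (hc.mul (pdlk_cont m k)) hpd.mul_left
  · exact int_cc (hc.mul (lk_cont m)) hcs.mul_left

theorem gg_int (hr : 0 < r) (m : ℕ) : ∫ z, gg n r m z = n := by
  have : gg n r m = fun z => ∑ k, -(z k * pd k (lk n r m) z) := funext (gg_eq m)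
  rw [this, integral_finsetSum]
  · simp only [integral_neg, int_xpd hr]
    simp
  · intro k _
    have hc : Continuous fun z : EU n => z k := by fun_prop
    exact (int_cc (hc.mul (pdlk_cont m k)) (cc_pd (lk_cs hr m) k).mul_left).neg

end kern

section op

variable {n : ℕ} {r : ℝ}

theorem lT_eq (m : ℕ) (u : EU n → ℝ) (x : EU n) : lT n r m u x = ∫ z, lk n r m z * u (x - z) := by
  unfold lT
  rw [← int_refl (fun z => lk n r m z * u (x - z)) x]
  simp only [sub_sub_cancel]

theorem lT_conv (m : ℕ) (u : EU n → ℝ) :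
    lT n r m u = convolution (lk n r m) u (ContinuousLinearMap.mul ℝ ℝ) volume := by
  funext x
  rw [lT_eq, convolution_def]
  rfl

theorem lT_smooth (m : ℕ) {u : EU n → ℝ} (hu : ContDiff ℝ ∞ u) (hc : HasCompactSupport u) :
    ContDiff ℝ ∞ (lT n r m u) := by
  rw [lT_conv]
  exact hc.contDiff_convolution_right _ (lk_cont m).locallyIntegrable hu

theorem lT_cs (hr : 0 < r) (m : ℕ) {u : EU n → ℝ} (hc : HasCompactSupport u) :
    HasCompactSupport (lT n r m u) := by
  rw [lT_conv]
  exact (lk_cs hr m).convolution _ hc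

theorem lT_pd (m : ℕ) {u : EU n → ℝ} (hu : ContDiff ℝ ∞ u) (hc : HasCompactSupport u)
    (k : Fin n) (x : EU n) : pd k (lT n r m u) x = lT n r m (pd k u) x := by
  rw [lT_conv, lT_conv]
  unfold pd
  have h := hc.hasFDerivAt_convolution_right (ContinuousLinearMap.mul ℝ ℝ)
    (lk_cont (n := n) (r := r) m).locallyIntegrable (hu.of_le (by simp)) x (μ := volume)
  rw [h.fderiv]
  exact convolution_precompR_apply _ (lk_cont m).locallyIntegrable (hc.fderiv (𝕜 := ℝ))
    (hu.continuous_fderiv (by simp)) x _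

theorem shift_cont {u : EU n → ℝ} (hu : Continuous u) :
    Continuous fun p : EU n × EU n => u (p.2 - p.1) := by fun_prop

theorem lT_l2 (hr : 0 < r) (m : ℕ) {u : EU n → ℝ} (hu : Continuous u)
    (hc : HasCompactSupport u) : ∫ x, lT n r m u x ^ 2 ≤ ∫ x, u x ^ 2 := by
  obtain ⟨R, hR0, hR⟩ := bound_of_cc hc
  have h := young' (h := lk n r m) (F := fun z x => u (x - z)) (A := 1) (R1 := r) (R2 := R + r)
    one_pos (lk_nonneg hr m) (lk_cont m) (fun z hz => lk_zero hr m hz.le) (lk_one hr m).le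
    (shift_cont hu) (fun z x hz hx => hR _ (by
      have := norm_sub_norm_le x z
      linarith)) (lT n r m u) (fun x => by rw [lT_eq])
  refine h.trans (le_of_eq ?_)
  rw [one_mul]
  have h2 : ∀ z : EU n, ∫ x, u (x - z) ^ 2 = ∫ x, u x ^ 2 := fun z =>
    int_shift (fun y => u y ^ 2) z
  simp only [h2]
  rw [integral_mul_const, lk_one hr, one_mul]

/-- the second moment of the kernel -/
def dl (n : ℕ) (r : ℝ) (m : ℕ) : ℝ := ∫ z : EU n, lk n r m z * ‖z‖ ^ 2

theorem dl_tendsto (hr : 0 < r) : Tendsto (dl n r) atTop (𝓝 0) := by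
  have hs : ∀ (g : EU n → ℝ) (m : ℕ), ∫ z in Metric.closedBall (0 : EU n) r,
      mx r z ^ (m + 2) * g z = ∫ z, mx r z ^ (m + 2) * g z := by
    intro g m
    apply setIntegral_eq_integral_of_forall_compl_eq_zero
    intro z hz
    rw [mem_closedBall_zero_iff, not_le] at hz
    rw [mx_zero hr hz.le, zero_pow (by omega), zero_mul]
  have h := tendsto_setIntegral_pow_smul_of_unique_maximum_of_isCompact_of_continuousOn
    (μ := (volume : Measure (EU n))) (g := fun z : EU n => ‖z‖ ^ 2) (x₀ := (0 : EU n))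
    (isCompact_closedBall (0 : EU n) r) (c := mx r) mx_cont.continuousOn ?_
    (fun x _ => mx_nonneg x) (by rw [mx_at_zero]; exact one_pos) ?_ (by fun_prop)
  · have h2 := h.comp (tendsto_add_atTop_nat 2)
    have e : ((fun k : ℕ => (∫ x in Metric.closedBall (0 : EU n) r, mx r x ^ k)⁻¹ •
        ∫ x in Metric.closedBall (0 : EU n) r, mx r x ^ k • ‖x‖ ^ 2) ∘ fun a => a + 2) =
        dl n r := by
      funext m
      have e1 := hs (fun _ => 1) m
      simp only [mul_one] at e1
      have e2 := hs (fun z => ‖z‖ ^ 2) m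
      simp only [comp_apply, smul_eq_mul]
      rw [e1, e2]
      unfold dl
      simp only [lk_eq, div_mul_eq_mul_div]
      rw [integral_div, div_eq_inv_mul]
      rfl
    rw [e] at h2
    simpa using h2
  · intro y hy hne
    rw [mx_at_zero]
    unfold mx
    apply max_lt one_pos
    have : 0 < ‖y‖ ^ 2 / r ^ 2 := by
      have := norm_pos_iff.2 hne
      positivity
    linarith
  · apply subset_closure
    rw [mem_interior]
    exact ⟨Metric.ball 0 r, Metric.ball_subset_closedBall, Metric.isOpen_ball,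
      Metric.mem_ball_self hr⟩

theorem lT_sub (hr : 0 < r) (m : ℕ) {u : EU n → ℝ} (hu : ContDiff ℝ ∞ u)
    (hc : HasCompactSupport u) :
    ∫ x, (u x - lT n r m u x) ^ 2 ≤ dl n r m * ∑ k, ∫ x, pd k u x ^ 2 := by
  obtain ⟨R, hR0, hR⟩ := bound_of_cc hc
  have hcont : Continuous fun p : EU n × EU n => u p.2 - u (p.2 - p.1) :=
    (hu.continuous.comp continuous_snd).sub (shift_cont hu.continuous)
  have hlk := int_cc (lk_cont m) (lk_cs (n := n) hr m)
  have h := young' (h := lk n r m) (F := fun z x => u x - u (x - z)) (A := 1) (R1 := r)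
    (R2 := R + r) one_pos (lk_nonneg hr m) (lk_cont m) (fun z hz => lk_zero hr m hz.le)
    (lk_one hr m).le hcont (fun z x hz hx => by
      have h1 := norm_sub_norm_le x z
      have h2 : u x = 0 := hR x (by linarith)
      have h3 : u (x - z) = 0 := hR _ (by linarith)
      show u x - u (x - z) = 0
      rw [h2, h3, sub_zero]) (fun x => u x - lT n r m u x) (fun x => by
      apply le_of_eq
      congr 1
      have hi1 : Integrable fun z : EU n => lk n r m z * u x := hlk.mul_const _
      have hi2 : Integrable fun z : EU n => lk n r m z * u (x - z) :=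
        int_cc ((lk_cont m).mul (hu.continuous.comp (continuous_const.sub continuous_id)))
          (lk_cs hr m).mul_right
      show u x - lT n r m u x = ∫ z, lk n r m z * (u x - u (x - z))
      simp only [mul_sub]
      rw [integral_sub hi1 hi2, integral_mul_const, lk_one hr, one_mul, lT_eq])
  refine h.trans ?_
  rw [one_mul]
  unfold dl
  rw [← integral_mul_const]
  apply integral_mono_of_nonneg
  · exact Eventually.of_forall fun z => mul_nonneg (lk_nonneg hr m z)
      (integral_nonneg fun x => sq_nonneg _)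
  · apply Integrable.mul_const
    exact int_cc ((lk_cont m).mul (continuous_norm.pow 2)) (lk_cs hr m).mul_right
  · apply Eventually.of_forall
    intro z
    show lk n r m z * ∫ x, (u x - u (x - z)) ^ 2 ≤ lk n r m z * ‖z‖ ^ 2 * ∑ k, ∫ x, pd k u x ^ 2
    rw [mul_assoc]
    exact mul_le_mul_of_nonneg_left (transl hu hc z) (lk_nonneg hr m z)

theorem comm (hr : 0 < r) {b : EU n → ℝ} (hb : ContDiff ℝ ∞ b) (hbc : HasCompactSupport b)
    (k : Fin n) : ∃ K : ℝ, ∀ m (u : EU n → ℝ), ContDiff ℝ ∞ u → HasCompactSupport u →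
    ∫ x, (b x * pd k (lT n r m u) x - lT n r m (fun w => b w * pd k u w) x) ^ 2 ≤
      K * ∫ x, u x ^ 2 := by
  obtain ⟨L, hL⟩ := ContDiff.lipschitzWith_of_hasCompactSupport hbc hb (by simp)
  have hL0 : (0 : ℝ) ≤ L := L.2
  have hbd : ∀ y, |pd k b y| ≤ L := by
    intro y
    have h1 := norm_fderiv_le_of_lipschitz ℝ hL (x₀ := y)
    have h2 := (fderiv ℝ b y).le_opNorm (EuclideanSpace.single k (1 : ℝ))
    rw [PiLp.norm_single, norm_one, mul_one, Real.norm_eq_abs] at h2
    exact h2.trans h1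
  obtain ⟨A, hA⟩ : ∃ A : ℝ, A = L * n + L + 1 := ⟨_, rfl⟩
  have hA0 : 0 < A := by rw [hA]; positivity
  refine ⟨A * A, ?_⟩
  intro m u hu hc
  obtain ⟨R, hR0, hR⟩ := bound_of_cc hc
  have hlk := int_cc (lk_cont m) (lk_cs (n := n) hr m)
  have hggc : HasCompactSupport (gg n r m) := cc_of_bound (R := r) fun _ hx => gg_zero hr m hx.le
  have hgg := int_cc (gg_cont m) hggc
  -- the majorant
  have hh : Continuous fun z : EU n => L * gg n r m z + L * lk n r m z :=
    (continuous_const.mul (gg_cont m)).add (continuous_const.mul (lk_cont m))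
  have hhi : ∫ z : EU n, (L * gg n r m z + L * lk n r m z) ≤ A := by
    rw [integral_add (hgg.const_mul _) (hlk.const_mul _), integral_const_mul, integral_const_mul,
      gg_int hr, lk_one hr, hA]
    linarith
  have hh0 : ∀ z : EU n, 0 ≤ L * gg n r m z + L * lk n r m z := fun z =>
    add_nonneg (mul_nonneg hL0 (gg_nonneg hr m z)) (mul_nonneg hL0 (lk_nonneg hr m z))
  have hhz : ∀ z : EU n, r ≤ ‖z‖ → L * gg n r m z + L * lk n r m z = 0 := by
    intro z hz
    rw [gg_zero hr m hz, lk_zero hr m hz]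
    ring
  -- the commutator as an integral
  have key : ∀ x, b x * pd k (lT n r m u) x - lT n r m (fun w => b w * pd k u w) x =
      ∫ z, (pd k (lk n r m) z * (b x - b (x - z)) + lk n r m z * pd k b (x - z)) * u (x - z) := by
    intro x
    rw [lT_pd m hu hc]
    unfold lT
    have hxc : Continuous fun w : EU n => lk n r m (x - w) :=
      (lk_cont m).comp (continuous_const.sub continuous_id)
    have hi1 : Integrable fun w : EU n => b x * (lk n r m (x - w) * pd k u w) :=
      (int_cc (hxc.mul (cont_pd hu k)) (cc_pd hc k).mul_left).const_mul _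
    have hi2 : Integrable fun w : EU n => lk n r m (x - w) * (b w * pd k u w) :=
      int_cc (hxc.mul (hb.continuous.mul (cont_pd hu k))) (cc_pd hc k).mul_left.mul_left
    rw [← integral_const_mul, ← integral_sub hi1 hi2]
    -- the function `f`
    have hf : ∀ w : EU n, HasFDerivAt (fun w : EU n => lk n r m (x - w) * (b x - b w))
        (lk n r m (x - w) • (-(fderiv ℝ b w)) +
          (b x - b w) • (-(fderiv ℝ (lk n r m) (x - w)))) w := by
      intro w
      have h1 : HasFDerivAt (fun w : EU n => lk n r m (x - w)) (-(fderiv ℝ (lk n r m) (x - w))) w := by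
        have h2 := (lk_differentiable (n := n) (r := r) m (x - w)).hasFDerivAt
        have h3 : HasFDerivAt (fun w : EU n => x - w) (-(ContinuousLinearMap.id ℝ (EU n))) w :=
          (hasFDerivAt_id w).const_sub x
        have h4 := h2.comp w h3
        refine h4.congr_fderiv ?_
        ext v
        simp
      have h2 : HasFDerivAt (fun w : EU n => b x - b w) (-(fderiv ℝ b w)) w :=
        ((hb.differentiable (by simp) w).hasFDerivAt).const_sub (b x)
      exact h1.mul h2
    have hfv : ∀ w : EU n, fderiv ℝ (fun w : EU n => lk n r m (x - w) * (b x - b w)) w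
        (EuclideanSpace.single k (1 : ℝ)) =
        -(pd k (lk n r m) (x - w) * (b x - b w) + lk n r m (x - w) * pd k b w) := by
      intro w
      rw [(hf w).fderiv]
      simp only [add_apply, smul_apply, neg_apply, smul_eq_mul]
      unfold pd
      ring
    have hpc : Continuous fun w : EU n => pd k (lk n r m) (x - w) :=
      (pdlk_cont m k).comp (continuous_const.sub continuous_id)
    have h := integral_mul_fderiv_eq_neg_fderiv_mul_of_integrable
      (μ := (volume : Measure (EU n)))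
      (f := fun w : EU n => lk n r m (x - w) * (b x - b w)) (g := u)
      (v := EuclideanSpace.single k (1 : ℝ)) ?_ ?_ ?_
      (fun w _ => (hf w).differentiableAt) (fun w _ => hu.differentiable (by simp) w)
    · have e1 : ∫ w, (b x * (lk n r m (x - w) * pd k u w) - lk n r m (x - w) * (b w * pd k u w)) =
          ∫ w, lk n r m (x - w) * (b x - b w) * fderiv ℝ u w (EuclideanSpace.single k (1 : ℝ)) := by
        apply integral_congr_ae
        apply Eventually.of_forall
        intro w
        show b x * (lk n r m (x - w) * pd k u w) - lk n r m (x - w) * (b w * pd k u w) =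
          lk n r m (x - w) * (b x - b w) * pd k u w
        ring
      rw [e1, h, ← integral_neg]
      rw [← int_refl (fun z => (pd k (lk n r m) z * (b x - b (x - z)) +
        lk n r m z * pd k b (x - z)) * u (x - z)) x]
      apply integral_congr_ae
      apply Eventually.of_forall
      intro w
      simp only [sub_sub_cancel, hfv]
      ring
    · simp only [hfv]
      apply int_cc _ hc.mul_left
      exact (((hpc.mul (continuous_const.sub hb.continuous)).add (hxc.mul (cont_pd hb k))).neg).mul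
        hu.continuous
    · exact int_cc ((hxc.mul (continuous_const.sub hb.continuous)).mul (cont_pd hu k))
        (cc_pd hc k).mul_left
    · exact int_cc ((hxc.mul (continuous_const.sub hb.continuous)).mul hu.continuous) hc.mul_left
  have h := young' (h := fun z : EU n => L * gg n r m z + L * lk n r m z)
    (F := fun z x => |u (x - z)|) (A := A) (R1 := r) (R2 := R + r) hA0 hh0 hh
    (fun z hz => hhz z hz.le) hhi (shift_cont hu.continuous).abs (fun z x hz hx => by
      have h1 := norm_sub_norm_le x z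
      have h3 : u (x - z) = 0 := hR _ (by linarith)
      show |u (x - z)| = 0
      rw [h3, abs_zero])
    (fun x => b x * pd k (lT n r m u) x - lT n r m (fun w => b w * pd k u w) x) (fun x => by
      rw [key x, sq_le_sq]
      have hnn : 0 ≤ ∫ z, (L * gg n r m z + L * lk n r m z) * |u (x - z)| :=
        integral_nonneg fun z => mul_nonneg (hh0 z) (abs_nonneg _)
      rw [abs_of_nonneg hnn, ← Real.norm_eq_abs]
      apply norm_integral_le_of_norm_le
      · apply int_cc (hh.mul (hu.continuous.comp (continuous_const.sub continuous_id)).abs)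
        apply HasCompactSupport.mul_right
        exact cc_of_bound (R := r) fun z hz => hhz z hz.le
      · apply Eventually.of_forall
        intro z
        rw [Real.norm_eq_abs, abs_mul]
        apply mul_le_mul_of_nonneg_right _ (abs_nonneg _)
        refine (abs_add_le _ _).trans ?_
        apply add_le_add
        · rw [abs_mul]
          have h1 : |b x - b (x - z)| ≤ L * ‖z‖ := by
            have := hL.dist_le_mul x (x - z)
            rw [Real.dist_eq, dist_eq_norm, sub_sub_cancel] at this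
            exact this
          calc |pd k (lk n r m) z| * |b x - b (x - z)| ≤ |pd k (lk n r m) z| * (L * ‖z‖) :=
                mul_le_mul_of_nonneg_left h1 (abs_nonneg _)
            _ = L * (‖z‖ * |pd k (lk n r m) z|) := by ring
            _ ≤ L * gg n r m z := mul_le_mul_of_nonneg_left (le_gg hr m k z) hL0
        · rw [abs_mul, abs_of_nonneg (lk_nonneg hr m z), mul_comm]
          exact mul_le_mul_of_nonneg_right (hbd _) (lk_nonneg hr m z))
  refine h.trans ?_
  have h2 : ∀ z : EU n, ∫ x, |u (x - z)| ^ 2 = ∫ x, u x ^ 2 := by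
    intro z
    simp only [sq_abs]
    exact int_shift (fun y => u y ^ 2) z
  simp only [h2]
  rw [integral_mul_const, mul_assoc]
  apply mul_le_mul_of_nonneg_left _ hA0.le
  exact mul_le_mul_of_nonneg_right hhi (integral_nonneg fun x => sq_nonneg _)

theorem lan (n : ℕ) (r : ℝ) (hr : 0 < r) :
    (∀ m, Continuous (lk n r m) ∧ (∀ z, 0 ≤ lk n r m z) ∧ (∀ z, r ≤ ‖z‖ → lk n r m z = 0) ∧
    ∫ z, lk n r m z = 1) ∧
  (∀ m (u : EU n → ℝ), ContDiff ℝ ∞ u → HasCompactSupport u →
    ContDiff ℝ ∞ (lT n r m u) ∧ HasCompactSupport (lT n r m u) ∧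
    (∀ k x, pd k (lT n r m u) x = lT n r m (pd k u) x) ∧
    ∫ x, lT n r m u x ^ 2 ≤ ∫ x, u x ^ 2) ∧
  (∃ δ : ℕ → ℝ, Tendsto δ atTop (𝓝 0) ∧ ∀ m (u : EU n → ℝ), ContDiff ℝ ∞ u →
    HasCompactSupport u → ∫ x, (u x - lT n r m u x) ^ 2 ≤ δ m * ∑ k, ∫ x, pd k u x ^ 2) ∧
  ∀ (b : EU n → ℝ), ContDiff ℝ ∞ b → HasCompactSupport b → ∀ k, ∃ K : ℝ, ∀ m (u : EU n → ℝ),
    ContDiff ℝ ∞ u → HasCompactSupport u →
    ∫ x, (b x * pd k (lT n r m u) x - lT n r m (fun w => b w * pd k u w) x) ^ 2 ≤
      K * ∫ x, u x ^ 2 :=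
  ⟨fun m => ⟨lk_cont m, lk_nonneg hr m, fun _ hz => lk_zero hr m hz, lk_one hr m⟩,
    fun m _ hu hc => ⟨lT_smooth m hu hc, lT_cs hr m hc, fun k x => lT_pd m hu hc k x,
      lT_l2 hr m hu.continuous hc⟩,
    ⟨dl n r, dl_tendsto hr, fun m _ hu hc => lT_sub hr m hu hc⟩,
    fun _ hb hbc k => comm hr hb hbc k⟩

end op

/-! ### Finite rank -/

section rank

variable {n : ℕ}

/-- kernels of finite rank -/
def FR (κ : EU n → EU n → ℝ) : Prop :=
  ∃ (ι : Type) (_ : Fintype ι) (α β : ι → EU n → ℝ), (∀ j, ContDiff ℝ ∞ (α j)) ∧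
    (∀ j, ContDiff ℝ ∞ (β j)) ∧ ∀ x w, κ x w = ∑ j, α j x * β j w

theorem FR.single {a b : EU n → ℝ} (ha : ContDiff ℝ ∞ a) (hb : ContDiff ℝ ∞ b) :
    FR fun x w => a x * b w :=
  ⟨Unit, inferInstance, fun _ => a, fun _ => b, fun _ => ha, fun _ => hb, fun x w => by simp⟩

theorem FR.add {κ κ' : EU n → EU n → ℝ} (h : FR κ) (h' : FR κ') : FR fun x w => κ x w + κ' x w := by
  obtain ⟨ι, i1, α, β, h1, h2, h3⟩ := h
  obtain ⟨ι', i1', α', β', h1', h2', h3'⟩ := h'
  refine ⟨ι ⊕ ι', inferInstance, Sum.elim α α', Sum.elim β β', ?_, ?_, ?_⟩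
  · rintro (j | j)
    · exact h1 j
    · exact h1' j
  · rintro (j | j)
    · exact h2 j
    · exact h2' j
  · intro x w
    show κ x w + κ' x w = _
    rw [Fintype.sum_sum_type, h3, h3']
    rfl

theorem FR.mul {κ κ' : EU n → EU n → ℝ} (h : FR κ) (h' : FR κ') : FR fun x w => κ x w * κ' x w := by
  obtain ⟨ι, i1, α, β, h1, h2, h3⟩ := h
  obtain ⟨ι', i1', α', β', h1', h2', h3'⟩ := h'
  refine ⟨ι × ι', inferInstance, fun j x => α j.1 x * α' j.2 x, fun j x => β j.1 x * β' j.2 x,
    fun j => (h1 j.1).mul (h1' j.2), fun j => (h2 j.1).mul (h2' j.2), ?_⟩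
  intro x w
  show κ x w * κ' x w = _
  rw [Fintype.sum_prod_type, h3, h3', Finset.sum_mul_sum]
  apply Finset.sum_congr rfl
  intro i _
  apply Finset.sum_congr rfl
  intro j _
  ring

theorem FR.const (c : ℝ) : FR fun _ _ : EU n => c := by
  have h := FR.single (n := n) (a := fun _ => c) (b := fun _ => 1) contDiff_const contDiff_const
  simpa using h

theorem FR.pow {κ : EU n → EU n → ℝ} (h : FR κ) (m : ℕ) : FR fun x w => κ x w ^ m := by
  induction m with
  | zero => simpa using FR.const (n := n) 1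
  | succ m ih => simpa only [pow_succ] using ih.mul h

theorem FR.sum {κ : Fin n → EU n → EU n → ℝ} (h : ∀ i, FR (κ i)) :
    FR fun x w => ∑ i, κ i x w := by
  classical
  have key : ∀ s : Finset (Fin n), FR fun x w => ∑ i ∈ s, κ i x w := by
    intro s
    induction s using Finset.induction_on with
    | empty => simpa using FR.const (n := n) 0
    | insert i s hi ih =>
      simp only [Finset.sum_insert hi]
      exact (h i).add ih
  exact key Finset.univ

theorem FR.poly (r : ℝ) : FR fun x w : EU n => 1 - ‖x - w‖ ^ 2 / r ^ 2 := by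
  have hco : ∀ i : Fin n, ContDiff ℝ ∞ fun x : EU n => x i := fun i =>
    (EuclideanSpace.proj i : EU n →L[ℝ] ℝ).contDiff
  have h1 : ∀ i : Fin n, FR fun x w : EU n => (x i + -(w i)) ^ 2 := by
    intro i
    apply FR.pow
    apply FR.add
    · have := FR.single (a := fun x : EU n => x i) (b := fun _ => 1) (hco i) contDiff_const
      simpa using this
    · have := FR.single (a := fun _ : EU n => 1) (b := fun w : EU n => -(w i)) contDiff_const
        (hco i).neg
      simpa using this
  have h2 := (FR.const (n := n) 1).add ((FR.const (n := n) (-(r ^ 2)⁻¹)).mul (FR.sum h1))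
  have e : (fun x w : EU n => 1 - ‖x - w‖ ^ 2 / r ^ 2) =
      fun x w => 1 + -(r ^ 2)⁻¹ * ∑ i, (x i + -(w i)) ^ 2 := by
    funext x w
    rw [EuclideanSpace.real_norm_sq_eq]
    simp only [PiLp.sub_apply, ← sub_eq_add_neg]
    rw [div_eq_inv_mul]
    ring
  rw [e]
  exact h2

theorem frk (n : ℕ) (r : ℝ) (m : ℕ) (hr : 0 < r) :
    ∃ (k : ℕ) (α β : Fin k → EU n → ℝ), (∀ j, ContDiff ℝ ∞ (α j)) ∧ (∀ j, ContDiff ℝ ∞ (β j)) ∧
    ∀ x w : EU n, ‖x - w‖ < r → lk n r m (x - w) = ∑ j, α j x * β j w := by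
  obtain ⟨c, hc⟩ : ∃ c : ℝ, c = ∫ w : EU n, (max 0 (1 - ‖w‖ ^ 2 / r ^ 2)) ^ (m + 2) := ⟨_, rfl⟩
  obtain ⟨ι, i1, α, β, h1, h2, h3⟩ := ((FR.poly (n := n) r).pow (m + 2)).mul (FR.const c⁻¹)
  refine ⟨Fintype.card ι, fun j => α ((Fintype.equivFin ι).symm j),
    fun j => β ((Fintype.equivFin ι).symm j), fun j => h1 _, fun j => h2 _, ?_⟩
  intro x w hxw
  rw [(Fintype.equivFin ι).symm.sum_comp (fun j => α j x * β j w), ← h3]
  unfold lk
  rw [← hc, div_eq_mul_inv]
  congr 2
  apply max_eq_right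
  have : ‖x - w‖ ^ 2 / r ^ 2 ≤ 1 := by
    rw [div_le_one (by positivity)]
    exact pow_le_pow_left₀ (norm_nonneg _) hxw.le 2
  linarith

end rank

end Lan

theorem s_lan : S_LAN := fun n r _ hr => Lan.lan n r hr

theorem s_frk : S_FRK := fun n r m hr => Lan.frk n r m hr

end Pool.Agent.H781.CM
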