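import Pool.Agent.H781.CM.GSpec

/-!
Existence of the normalised Riemannian measure on a compact manifold.
-/

set_option autoImplicit false
set_option synthInstance.maxHeartbeats 400000
set_option maxHeartbeats 4000000
set_option linter.unusedSectionVars false

open Bundle Manifold ContDiff VectorField MeasureTheory Filter
open scoped Topology ENNReal

noncomputable section

namespace Pool.Agent.H781.CM

open Pool.Agent.H781.NG Pool.Agent.H821R2 Pool.Agent.H821R3 Pool.Agent.H893R5.HO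
  Pool.Agent.H781.S22

namespace Meas

variable {n : ℕ} {M : Type} [TopologicalSpace M] [ChartedSpace (EU n) M] [IsManifold (𝓡 n) ∞ M]

/-- the derivative of the inverse chart -/
def A (x₀ : M) (y : EU n) : EU n →L[ℝ] EU n :=
  mfderiv 𝓘(ℝ, EU n) (𝓡 n) (extChartAt (𝓡 n) x₀).symm y

/-- the derivative of the chart -/
def E (x₀ p : M) : EU n →L[ℝ] EU n :=
  mfderiv (𝓡 n) 𝓘(ℝ, EU n) (extChartAt (𝓡 n) x₀) p

/-- the metric -/
def G (g : Met n M) (p : M) : EU n →L[ℝ] EU n →L[ℝ] ℝ := g.inner p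

theorem gm_eq (g : Met n M) (x₀ : M) (y : EU n) (i j : Fin n) : gm g x₀ y i j =
    G g ((extChartAt (𝓡 n) x₀).symm y) (A x₀ y (EuclideanSpace.single i 1))
      (A x₀ y (EuclideanSpace.single j 1)) := rfl

theorem mdE {x₀ p : M} (hp : p ∈ (extChartAt (𝓡 n) x₀).source) :
    MDifferentiableAt (𝓡 n) 𝓘(ℝ, EU n) (extChartAt (𝓡 n) x₀) p :=
  mdifferentiableAt_extChartAt (by rwa [extChartAt_source] at hp)

theorem mdA {x₀ : M} {y : EU n} (hy : y ∈ (extChartAt (𝓡 n) x₀).target) :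
    MDifferentiableAt 𝓘(ℝ, EU n) (𝓡 n) (extChartAt (𝓡 n) x₀).symm y := by
  have h := mdifferentiableWithinAt_extChartAt_symm (I := 𝓡 n) hy
  have e : Set.range (𝓡 n) = Set.univ := ModelWithCorners.range_eq_univ (𝓡 n)
  rw [e, mdifferentiableWithinAt_univ] at h
  exact h

/-- the inverse chart and the chart -/
theorem A_E {x₀ p : M} (hp : p ∈ (extChartAt (𝓡 n) x₀).source) (v : EU n) :
    A x₀ (extChartAt (𝓡 n) x₀ p) (E x₀ p v) = v := by
  have h1 := (mdE hp).hasMFDerivAt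
  have hy : extChartAt (𝓡 n) x₀ p ∈ (extChartAt (𝓡 n) x₀).target :=
    (extChartAt (𝓡 n) x₀).map_source hp
  have h2 := (mdA hy).hasMFDerivAt
  have h3 := h2.comp p h1
  have h4 : HasMFDerivAt (𝓡 n) (𝓡 n) (id : M → M) p
      (ContinuousLinearMap.id ℝ (TangentSpace (𝓡 n) p)) := hasMFDerivAt_id p
  have h5 : ((extChartAt (𝓡 n) x₀).symm ∘ (extChartAt (𝓡 n) x₀)) =ᶠ[𝓝 p] id := by
    filter_upwards [(isOpen_extChartAt_source (I := 𝓡 n) x₀).mem_nhds hp] with q hq
    exact (extChartAt (𝓡 n) x₀).left_inv hq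
  have h6 := (h4.congr_of_eventuallyEq h5)
  have h7 := hasMFDerivAt_unique h3 h6
  exact congrArg (fun L : EU n →L[ℝ] EU n => L v) h7

/-- the change of charts -/
def tr (x₀ x₁ : M) (y : EU n) : EU n := extChartAt (𝓡 n) x₁ ((extChartAt (𝓡 n) x₀).symm y)

/-- the derivative of the change of charts -/
def T (x₀ x₁ : M) (y : EU n) : EU n →L[ℝ] EU n :=
  (E x₁ ((extChartAt (𝓡 n) x₀).symm y)).comp (A x₀ y)

/-- the domain of the change of charts -/
def S (n : ℕ) {M : Type} [TopologicalSpace M] [ChartedSpace (EU n) M] (x₀ x₁ : M) : Set (EU n) :=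
  (extChartAt (𝓡 n) x₀).target ∩ (extChartAt (𝓡 n) x₀).symm ⁻¹' (extChartAt (𝓡 n) x₁).source

theorem isOpen_S (x₀ x₁ : M) : IsOpen (S n x₀ x₁) :=
  (continuousOn_extChartAt_symm x₀).isOpen_inter_preimage (isOpen_extChartAt_target x₀)
    (isOpen_extChartAt_source x₁)

theorem hasF {x₀ x₁ : M} {y : EU n} (hy : y ∈ S n x₀ x₁) :
    HasFDerivAt (tr x₀ x₁) (T x₀ x₁ y) y := by
  have h1 := (mdA hy.1).hasMFDerivAt
  have h2 := (mdE hy.2).hasMFDerivAt
  have h3 := h2.comp y h1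
  exact hasMFDerivAt_iff_hasFDerivAt.1 h3

theorem A_T {x₀ x₁ : M} {y : EU n} (hy : y ∈ S n x₀ x₁) (v : EU n) :
    A x₁ (tr x₀ x₁ y) (T x₀ x₁ y v) = A x₀ y v := A_E hy.2 _

theorem symm_tr {x₀ x₁ : M} {y : EU n} (hy : y ∈ S n x₀ x₁) :
    (extChartAt (𝓡 n) x₁).symm (tr x₀ x₁ y) = (extChartAt (𝓡 n) x₀).symm y :=
  (extChartAt (𝓡 n) x₁).left_inv hy.2

theorem tr_mem {x₀ x₁ : M} {y : EU n} (hy : y ∈ S n x₀ x₁) : tr x₀ x₁ y ∈ S n x₁ x₀ := by
  refine ⟨(extChartAt (𝓡 n) x₁).map_source hy.2, ?_⟩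
  rw [Set.mem_preimage, symm_tr hy]
  exact (extChartAt (𝓡 n) x₀).map_target hy.1

theorem tr_tr {x₀ x₁ : M} {y : EU n} (hy : y ∈ S n x₀ x₁) : tr x₁ x₀ (tr x₀ x₁ y) = y := by
  unfold tr
  rw [(extChartAt (𝓡 n) x₁).left_inv hy.2, (extChartAt (𝓡 n) x₀).right_inv hy.1]

theorem image_tr (x₀ x₁ : M) : tr (n := n) x₀ x₁ '' S n x₀ x₁ = S n x₁ x₀ := by
  ext z
  constructor
  · rintro ⟨y, hy, rfl⟩
    exact tr_mem hy
  · intro hz
    exact ⟨tr x₁ x₀ z, tr_mem hz, tr_tr hz⟩

theorem inj_tr (x₀ x₁ : M) : Set.InjOn (tr (n := n) x₀ x₁) (S n x₀ x₁) := by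
  intro y hy y' hy' h
  rw [← tr_tr hy, h, tr_tr hy']

/-- the matrix of the derivative of the change of charts -/
def B (x₀ x₁ : M) (y : EU n) : Matrix (Fin n) (Fin n) ℝ :=
  Matrix.of fun k i => T x₀ x₁ y (EuclideanSpace.single i 1) k

theorem expand (v : EU n) : v = ∑ k, v k • EuclideanSpace.single k (1 : ℝ) := by
  ext i
  simp [Pi.single_apply]

theorem det_B (x₀ x₁ : M) (y : EU n) : (T x₀ x₁ y).det = (B x₀ x₁ y).det := by
  have h := LinearMap.det_toMatrix (EuclideanSpace.basisFun (Fin n) ℝ).toBasis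
    (T x₀ x₁ y : EU n →ₗ[ℝ] EU n)
  rw [ContinuousLinearMap.det, ← h]
  congr 1

theorem gm_tr (g : Met n M) {x₀ x₁ : M} {y : EU n} (hy : y ∈ S n x₀ x₁) :
    gm g x₀ y = (B x₀ x₁ y).transpose * gm g x₁ (tr x₀ x₁ y) * B x₀ x₁ y := by
  ext i j
  rw [gm_eq, Matrix.mul_apply]
  simp only [Matrix.mul_apply, Matrix.transpose_apply, gm_eq, symm_tr hy]
  rw [← A_T hy, ← A_T hy]
  conv_lhs => rw [expand (T x₀ x₁ y (EuclideanSpace.single i 1)),
    expand (T x₀ x₁ y (EuclideanSpace.single j 1))]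
  simp only [map_sum, map_smul, sum_apply, smul_apply, smul_eq_mul]
  refine Finset.sum_congr rfl fun l _ => ?_
  rw [Finset.sum_mul, Finset.mul_sum]
  refine Finset.sum_congr rfl fun k _ => ?_
  simp only [B, Matrix.of_apply]
  ring

/-- the density of the Riemannian measure in the chart -/
def dn (g : Met n M) (x₀ : M) (y : EU n) : ℝ := √(gm g x₀ y).det

theorem dn_tr (g : Met n M) {x₀ x₁ : M} {y : EU n} (hy : y ∈ S n x₀ x₁) :
    dn g x₀ y = |(T x₀ x₁ y).det| * dn g x₁ (tr x₀ x₁ y) := by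
  unfold dn
  rw [gm_tr g hy, Matrix.det_mul, Matrix.det_mul, Matrix.det_transpose, det_B]
  have e : (B x₀ x₁ y).det * (gm g x₁ (tr x₀ x₁ y)).det * (B x₀ x₁ y).det =
      (B x₀ x₁ y).det ^ 2 * (gm g x₁ (tr x₀ x₁ y)).det := by ring
  rw [e, Real.sqrt_mul (sq_nonneg _), Real.sqrt_sq_eq_abs]

/-! ### The measures -/

section meas

variable [T2Space M] [CompactSpace M] (h : S_TKV) (g : Met n M)
include h

theorem cont_dn (x₀ : M) : ContinuousOn (dn g x₀) (extChartAt (𝓡 n) x₀).target := by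
  obtain ⟨-, -, -, -, -, hg⟩ := h n M x₀
  obtain ⟨-, h1, -⟩ := hg g
  have h2 : ContinuousOn (fun y => gm g x₀ y) (extChartAt (𝓡 n) x₀).target :=
    continuousOn_pi.2 fun k => continuousOn_pi.2 fun l => (h1 k l).continuousOn
  have h3 : Continuous fun m : Matrix (Fin n) (Fin n) ℝ => m.det := continuous_id.matrix_det
  exact Real.continuous_sqrt.comp_continuousOn (h3.comp_continuousOn h2)

theorem pos_dn (x₀ : M) {y : EU n} (hy : y ∈ (extChartAt (𝓡 n) x₀).target) : 0 < dn g x₀ y := by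
  obtain ⟨-, -, -, -, -, hg⟩ := h n M x₀
  obtain ⟨-, -, h1⟩ := hg g
  exact Real.sqrt_pos.2 (h1 y hy).det_pos

theorem mt (x₀ : M) : MeasurableSet (extChartAt (𝓡 n) x₀).target :=
  (isOpen_extChartAt_target x₀).measurableSet

theorem ae_dn (x₀ : M) : AEMeasurable (fun y => ENNReal.ofReal (dn g x₀ y))
    (volume.restrict (extChartAt (𝓡 n) x₀).target) :=
  ((cont_dn h g x₀).aemeasurable (mt h x₀)).ennreal_ofReal

variable [MeasurableSpace M] [BorelSpace M]

/-- the Riemannian measure of the domain of a chart -/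
def nl (g : Met n M) (x₀ : M) : Measure M :=
  Measure.map (extChartAt (𝓡 n) x₀).symm
    ((volume.restrict (extChartAt (𝓡 n) x₀).target).withDensity
      fun y => ENNReal.ofReal (dn g x₀ y))

theorem ms (x₀ : M) : MeasurableSet (extChartAt (𝓡 n) x₀).source :=
  (isOpen_extChartAt_source x₀).measurableSet

theorem ae_symm (x₀ : M) : AEMeasurable (extChartAt (𝓡 n) x₀).symm
    (volume.restrict (extChartAt (𝓡 n) x₀).target) :=
  (continuousOn_extChartAt_symm x₀).aemeasurable (mt h x₀)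

theorem lint_nl (x₀ : M) {f : M → ℝ≥0∞} (hf : Measurable f) : ∫⁻ p, f p ∂(nl g x₀) =
    ∫⁻ y in (extChartAt (𝓡 n) x₀).target, f ((extChartAt (𝓡 n) x₀).symm y) *
      ENNReal.ofReal (dn g x₀ y) := by
  have h1 := ae_symm (n := n) h x₀
  have h2 : AEMeasurable (extChartAt (𝓡 n) x₀).symm
      ((volume.restrict (extChartAt (𝓡 n) x₀).target).withDensity
        fun y => ENNReal.ofReal (dn g x₀ y)) := h1.mono_ac (withDensity_absolutelyContinuous _ _)
  unfold nl
  rw [lintegral_map' hf.aemeasurable h2]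
  refine (lintegral_withDensity_eq_lintegral_mul₀ (ae_dn h g x₀)
    (hf.comp_aemeasurable h1)).trans ?_
  exact lintegral_congr fun y => by rw [Pi.mul_apply, mul_comm]; rfl

theorem lint_S {x₀ x₁ : M} {F : M → ℝ≥0∞} (hF0 : ∀ p, p ∉ (extChartAt (𝓡 n) x₁).source → F p = 0) :
    ∫⁻ y in (extChartAt (𝓡 n) x₀).target, F ((extChartAt (𝓡 n) x₀).symm y) *
      ENNReal.ofReal (dn g x₀ y) =
    ∫⁻ y in S n x₀ x₁, F ((extChartAt (𝓡 n) x₀).symm y) * ENNReal.ofReal (dn g x₀ y) := by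
  rw [← lintegral_indicator (mt h x₀), ← lintegral_indicator (isOpen_S x₀ x₁).measurableSet]
  refine lintegral_congr fun y => ?_
  by_cases h1 : y ∈ (extChartAt (𝓡 n) x₀).target
  · by_cases h2 : (extChartAt (𝓡 n) x₀).symm y ∈ (extChartAt (𝓡 n) x₁).source
    · rw [Set.indicator_of_mem h1, Set.indicator_of_mem (show y ∈ S n x₀ x₁ from ⟨h1, h2⟩)]
    · rw [Set.indicator_of_mem h1, Set.indicator_of_notMem (fun h3 => h2 h3.2), hF0 _ h2, zero_mul]
  · rw [Set.indicator_of_notMem h1, Set.indicator_of_notMem (fun h3 => h1 h3.1)]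

/-- change of charts -/
theorem cv (x₀ x₁ : M) {F : M → ℝ≥0∞} (hF : Measurable F)
    (hF0 : ∀ p, p ∉ (extChartAt (𝓡 n) x₀).source → F p = 0)
    (hF1 : ∀ p, p ∉ (extChartAt (𝓡 n) x₁).source → F p = 0) :
    ∫⁻ p, F p ∂(nl g x₀) = ∫⁻ p, F p ∂(nl g x₁) := by
  rw [lint_nl h g x₀ hF, lint_nl h g x₁ hF, lint_S h g hF1, lint_S h g hF0, ← image_tr x₀ x₁,
    lintegral_image_eq_lintegral_abs_det_fderiv_mul volume (isOpen_S x₀ x₁).measurableSet
      (fun y hy => (hasF hy).hasFDerivWithinAt) (inj_tr x₀ x₁)]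
  refine setLIntegral_congr_fun (isOpen_S x₀ x₁).measurableSet fun y hy => ?_
  rw [symm_tr hy, dn_tr g hy, ENNReal.ofReal_mul (abs_nonneg _)]
  ring

/-! ### The global measure -/

/-- the number of the charts of a finite family which contain the point -/
def cnt (n : ℕ) {M : Type} [TopologicalSpace M] [ChartedSpace (EU n) M] (t : Finset M) (p : M) :
    ℝ≥0∞ :=
  ∑ x ∈ t, (extChartAt (𝓡 n) x).source.indicator (fun _ => 1) p

/-- the weights -/
def wt (n : ℕ) {M : Type} [TopologicalSpace M] [ChartedSpace (EU n) M] (t : Finset M) (x p : M) :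
    ℝ≥0∞ :=
  (extChartAt (𝓡 n) x).source.indicator (fun _ => 1) p / cnt n t p

/-- the Riemannian measure -/
def nu (g : Met n M) (t : Finset M) : Measure M :=
  ∑ x ∈ t, (nl g x).withDensity (wt n t x)

theorem meas_ind (x : M) :
    Measurable fun p => (extChartAt (𝓡 n) x).source.indicator (fun _ => (1 : ℝ≥0∞)) p :=
  measurable_const.indicator (ms h x)

theorem meas_cnt (t : Finset M) : Measurable (cnt n t) :=
  Finset.measurable_sum _ fun x _ => meas_ind h x

theorem meas_wt (t : Finset M) (x : M) : Measurable (wt n t x) :=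
  (meas_ind h x).div (meas_cnt h t)

omit [T2Space M] [CompactSpace M] [MeasurableSpace M] [BorelSpace M] [IsManifold (𝓡 n) ∞ M] h in
theorem sum_wt {t : Finset M} (ht : ∀ p, ∃ x ∈ t, p ∈ (extChartAt (𝓡 n) x).source) (p : M) :
    ∑ x ∈ t, wt n t x p = 1 := by
  unfold wt
  simp only [div_eq_mul_inv]
  rw [← Finset.sum_mul]
  change cnt n t p * (cnt n t p)⁻¹ = 1
  refine ENNReal.mul_inv_cancel ?_ ?_
  · obtain ⟨x, hx, hp⟩ := ht p
    intro h0
    have h1 := (Finset.sum_eq_zero_iff.1 h0) x hx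
    rw [Set.indicator_of_mem hp] at h1
    exact one_ne_zero h1
  · unfold cnt
    rw [Ne, ENNReal.sum_eq_top]
    rintro ⟨x, -, hx⟩
    by_cases hp : p ∈ (extChartAt (𝓡 n) x).source
    · rw [Set.indicator_of_mem hp] at hx
      exact ENNReal.one_ne_top hx
    · rw [Set.indicator_of_notMem hp] at hx
      exact ENNReal.zero_ne_top hx

theorem lint_nu {t : Finset M} (ht : ∀ p, ∃ x ∈ t, p ∈ (extChartAt (𝓡 n) x).source) (x₀ : M)
    {f : M → ℝ≥0∞} (hf : Measurable f) :
    ∫⁻ p in (extChartAt (𝓡 n) x₀).source, f p ∂(nu g t) =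
      ∫⁻ y in (extChartAt (𝓡 n) x₀).target, f ((extChartAt (𝓡 n) x₀).symm y) *
        ENNReal.ofReal (dn g x₀ y) := by
  set f' : M → ℝ≥0∞ := (extChartAt (𝓡 n) x₀).source.indicator f with hf'
  have hm : Measurable f' := hf.indicator (ms h x₀)
  rw [← lintegral_indicator (ms h x₀)]
  unfold nu
  rw [lintegral_finsetSum_measure]
  have h1 : ∀ x ∈ t, ∫⁻ p, f' p ∂((nl g x).withDensity (wt n t x)) =
      ∫⁻ p, (wt n t x * f') p ∂(nl g x₀) := by
    intro x _
    rw [lintegral_withDensity_eq_lintegral_mul _ (meas_wt h t x) hm]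
    refine cv h g x x₀ ((meas_wt h t x).mul hm) ?_ ?_
    · intro p hp
      rw [Pi.mul_apply]
      unfold wt
      rw [Set.indicator_of_notMem hp, ENNReal.zero_div, zero_mul]
    · intro p hp
      rw [Pi.mul_apply, hf', Set.indicator_of_notMem hp, mul_zero]
  rw [Finset.sum_congr rfl h1, ← lintegral_finsetSum _ fun x _ => (meas_wt h t x).mul hm]
  have h2 : ∀ p, ∑ x ∈ t, (wt n t x * f') p = f' p := by
    intro p
    simp only [Pi.mul_apply]
    rw [← Finset.sum_mul, sum_wt ht, one_mul]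
  simp only [h2]
  rw [lint_nl h g x₀ hm]
  refine setLIntegral_congr_fun (mt h x₀) fun y hy => ?_
  rw [hf', Set.indicator_of_mem ((extChartAt (𝓡 n) x₀).map_target hy)]

theorem fin_at {t : Finset M} (ht : ∀ p, ∃ x ∈ t, p ∈ (extChartAt (𝓡 n) x).source) (p : M) :
    (nu g t).FiniteAtFilter (𝓝 p) := by
  set e := extChartAt (𝓡 n) p with he
  have hp : p ∈ e.source := mem_extChartAt_source p
  have hy : e p ∈ e.target := e.map_source hp
  obtain ⟨K, hK, hKt, hKc⟩ := local_compact_nhds ((isOpen_extChartAt_target p).mem_nhds hy)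
  obtain ⟨C, hC⟩ := hKc.exists_bound_of_continuousOn ((cont_dn h g p).mono hKt)
  have hU : IsOpen (e.source ∩ e ⁻¹' interior K) :=
    (continuousOn_extChartAt p).isOpen_inter_preimage (isOpen_extChartAt_source p) isOpen_interior
  refine ⟨e.source ∩ e ⁻¹' interior K,
    hU.mem_nhds ⟨hp, mem_interior_iff_mem_nhds.2 hK⟩, ?_⟩
  have h1 : nu g t (e.source ∩ e ⁻¹' interior K) =
      ∫⁻ q in e.source, (e.source ∩ e ⁻¹' interior K).indicator (fun _ => 1) q ∂(nu g t) := by
    rw [lintegral_indicator hU.measurableSet, setLIntegral_one, Measure.restrict_apply hU.measurableSet]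
    congr 1
    ext q
    simp only [Set.mem_inter_iff, Set.mem_preimage]
    tauto
  rw [h1, lint_nu h g ht p (measurable_const.indicator hU.measurableSet)]
  have h2 : ∀ y ∈ e.target, (e.source ∩ e ⁻¹' interior K).indicator (fun _ => (1 : ℝ≥0∞)) (e.symm y) *
      ENNReal.ofReal (dn g p y) ≤ K.indicator (fun _ => ENNReal.ofReal C) y := by
    intro y hy'
    by_cases hyK : e.symm y ∈ e.source ∩ e ⁻¹' interior K
    · have h3 : y ∈ K := by
        have := hyK.2
        rw [Set.mem_preimage, e.right_inv hy'] at this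
        exact interior_subset this
      rw [Set.indicator_of_mem hyK, Set.indicator_of_mem h3, one_mul]
      exact ENNReal.ofReal_le_ofReal ((le_abs_self _).trans (hC y h3))
    · rw [Set.indicator_of_notMem hyK, zero_mul]
      exact bot_le
  refine lt_of_le_of_lt (setLIntegral_mono' (mt h p) h2) ?_
  refine lt_of_le_of_lt (setLIntegral_le_lintegral _ _) ?_
  rw [lintegral_indicator hKc.measurableSet, setLIntegral_const]
  exact ENNReal.mul_lt_top ENNReal.ofReal_lt_top hKc.measure_lt_top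

theorem fin_nu {t : Finset M} (ht : ∀ p, ∃ x ∈ t, p ∈ (extChartAt (𝓡 n) x).source) :
    nu g t Set.univ < ⊤ :=
  isCompact_univ.measure_lt_top_of_nhdsWithin fun p _ => by
    rw [nhdsWithin_univ]
    exact fin_at h g ht p

theorem pos_nu {t : Finset M} (ht : ∀ p, ∃ x ∈ t, p ∈ (extChartAt (𝓡 n) x).source)
    {U : Set M} (hU : IsOpen U) (hne : U.Nonempty) : 0 < nu g t U := by
  obtain ⟨p, hpU⟩ := hne
  set e := extChartAt (𝓡 n) p with he
  have hp : p ∈ e.source := mem_extChartAt_source p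
  have hW : IsOpen (e.target ∩ e.symm ⁻¹' U) :=
    (continuousOn_extChartAt_symm p).isOpen_inter_preimage (isOpen_extChartAt_target p) hU
  have hWne : (e.target ∩ e.symm ⁻¹' U).Nonempty :=
    ⟨e p, e.map_source hp, by rw [Set.mem_preimage, e.left_inv hp]; exact hpU⟩
  have h1 : ∫⁻ q in e.source, U.indicator (fun _ => 1) q ∂(nu g t) ≤ nu g t U := by
    refine (setLIntegral_le_lintegral _ _).trans ?_
    rw [lintegral_indicator hU.measurableSet, setLIntegral_one]
  refine lt_of_lt_of_le ?_ h1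
  rw [lint_nu h g ht p (measurable_const.indicator hU.measurableSet)]
  rw [pos_iff_ne_zero]
  intro h0
  have h2 : ∫⁻ y in e.target ∩ e.symm ⁻¹' U, ENNReal.ofReal (dn g p y) = 0 := by
    rw [← nonpos_iff_eq_zero, ← h0]
    calc ∫⁻ y in e.target ∩ e.symm ⁻¹' U, ENNReal.ofReal (dn g p y)
        = ∫⁻ y in e.target ∩ e.symm ⁻¹' U, U.indicator (fun _ => 1) (e.symm y) *
            ENNReal.ofReal (dn g p y) := by
          refine setLIntegral_congr_fun hW.measurableSet fun y hy => ?_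
          rw [Set.indicator_of_mem (show e.symm y ∈ U from hy.2), one_mul]
      _ ≤ _ := lintegral_mono_set Set.inter_subset_left
  have h3 : AEMeasurable (fun y => ENNReal.ofReal (dn g p y))
      (volume.restrict (e.target ∩ e.symm ⁻¹' U)) :=
    (ae_dn h g p).mono_set Set.inter_subset_left
  rw [lintegral_eq_zero_iff' h3, Filter.EventuallyEq, ae_restrict_iff' hW.measurableSet] at h2
  have h4 : volume (e.target ∩ e.symm ⁻¹' U) = 0 := by
    refine measure_mono_null (fun y hy => ?_) h2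
    rw [Set.mem_compl_iff, Set.mem_ofPred_eq]
    intro h5
    have h6 := h5 hy
    rw [Pi.zero_apply, ENNReal.ofReal_eq_zero] at h6
    exact absurd (pos_dn h g p hy.1) (not_lt.2 h6)
  exact absurd (hW.measure_pos volume hWne) (by rw [h4]; exact lt_irrefl _)

end meas

end Meas

open Meas

theorem s_meas (h : S_TKV) : S_MEAS := by
  intro n M _ _ _ _ _ _ _ _ g _
  obtain ⟨t, ht'⟩ := CompactSpace.elim_nhds_subcover (fun x : M => (extChartAt (𝓡 n) x).source)
    fun x => (isOpen_extChartAt_source x).mem_nhds (mem_extChartAt_source x)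
  have ht : ∀ p, ∃ x ∈ t, p ∈ (extChartAt (𝓡 n) x).source := by
    intro p
    have : p ∈ ⋃ x ∈ t, (extChartAt (𝓡 n) x).source := by rw [ht']; trivial
    simpa using this
  have hfin := fin_nu h g ht
  have hpos : 0 < nu g t Set.univ := pos_nu h g ht isOpen_univ Set.univ_nonempty
  have hinv : (nu g t Set.univ)⁻¹ ≠ ⊤ := ENNReal.inv_ne_top.2 hpos.ne'
  have hinv0 : (nu g t Set.univ)⁻¹ ≠ 0 := ENNReal.inv_ne_zero.2 hfin.ne
  have hr : 0 < (nu g t Set.univ).toReal := ENNReal.toReal_pos hpos.ne' hfin.ne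
  refine ⟨(nu g t Set.univ).toReal⁻¹, (nu g t Set.univ)⁻¹ • nu g t, inv_pos.2 hr, ⟨?_⟩, ?_, ?_⟩
  · rw [Measure.smul_apply, smul_eq_mul, ENNReal.inv_mul_cancel hpos.ne' hfin.ne]
  · intro U hU hne
    rw [Measure.smul_apply, smul_eq_mul]
    exact ENNReal.mul_pos hinv0 (pos_nu h g ht hU hne).ne'
  · intro x₀ f hf
    rw [Measure.restrict_smul, lintegral_smul_measure, lint_nu h g ht x₀ hf, smul_eq_mul,
      ← lintegral_const_mul' _ _ hinv]
    refine lintegral_congr fun y => ?_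
    rw [ENNReal.ofReal_mul (inv_pos.2 hr).le, ENNReal.ofReal_inv_of_pos hr,
      ENNReal.ofReal_toReal hfin.ne]
    unfold dn
    ring

end Pool.Agent.H781.CM
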