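import Pool.Agent.H781.CM.GSpec

/-!
Parseval frames of Riemannian metrics on compact manifolds.
-/

set_option autoImplicit false
set_option synthInstance.maxHeartbeats 400000
set_option maxHeartbeats 4000000

open Bundle Manifold ContDiff VectorField MeasureTheory Filter Matrix
open scoped Topology

noncomputable section

namespace Pool.Agent.H781.CM

open Pool.Agent.H781.NG Pool.Agent.H821R2 Pool.Agent.H821R3 Pool.Agent.H893R5.HO
  Pool.Agent.H781.S22

namespace Pf

variable {n : ℕ} {M : Type} [TopologicalSpace M] [ChartedSpace (EU n) M] [IsManifold (𝓡 n) ∞ M]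
  {m : ℕ} (D : FrameData (𝓡 n) M (Fin m)) (g : Met n M)

/-- `df_i(e_j)` -/
def q (i j : Fin m) : SA n M := ⟨der (D.e j) (D.f i), Sm.der (D.he j) (D.hf i)⟩

/-- `δ - q` -/
def r (i j : Fin m) : SA n M := (if i = j then 1 else 0) - q D i j

/-- the Gram matrix -/
def Gf (i j : Fin m) : SA n M :=
  ⟨gi g (D.e i) (D.e j), gi_smooth (D.he i) (D.he j)⟩ + ∑ k, r D k i * r D k j

theorem Gf_symm (i j : Fin m) : Gf D g i j = Gf D g j i := by
  apply ext_evA
  intro p
  simp only [Gf, map_add, map_sum, map_mul]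
  congr 1
  · change gi g (D.e i) (D.e j) p = gi g (D.e j) (D.e i) p
    rw [gi_comm]
  · exact Finset.sum_congr rfl fun k _ => mul_comm _ _

theorem ev_Gf (p : M) (i j : Fin m) : evA p (Gf D g i j) =
    g.inner p (D.e i p) (D.e j p) + ∑ k, evA p (r D k i) * evA p (r D k j) := by
  simp only [Gf, map_add, map_sum, map_mul]
  rfl

theorem ev_r (p : M) (i j : Fin m) : evA p (r D i j) =
    (if i = j then 1 else 0) - mvfderiv (𝓡 n) (D.f i) p (D.e j p) := by
  unfold r
  rw [map_sub]
  congr 1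
  split_ifs <;> simp

/-- the vector `∑ x_i e_i` -/
def vec (p : M) (x : Fin m → ℝ) : TangentSpace (𝓡 n) p := ∑ i, x i • D.e i p

theorem sum_r (p : M) (x : Fin m → ℝ) (k : Fin m) :
    ∑ j, evA p (r D k j) * x j = x k - mvfderiv (𝓡 n) (D.f k) p (vec D p x) := by
  have h1 : mvfderiv (𝓡 n) (D.f k) p (vec D p x) =
      ∑ j, mvfderiv (𝓡 n) (D.f k) p (D.e j p) * x j := by
    unfold vec
    rw [map_sum]
    refine Finset.sum_congr rfl fun j _ => ?_
    rw [map_smul, smul_eq_mul, mul_comm]
  rw [h1]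
  simp only [ev_r, sub_mul, Finset.sum_sub_distrib, ite_mul, one_mul, zero_mul,
    Finset.sum_ite_eq, Finset.mem_univ, if_true]

theorem inner_vec (p : M) (x y : Fin m → ℝ) : g.inner p (vec D p x) (vec D p y) =
    ∑ i, ∑ j, x i * g.inner p (D.e i p) (D.e j p) * y j := by
  have h1 : g.inner p (vec D p x) = ∑ i, x i • g.inner p (D.e i p) := by
    unfold vec
    rw [map_sum]
    exact Finset.sum_congr rfl fun i _ => map_smul _ _ _
  rw [h1, _root_.sum_apply]
  refine Finset.sum_congr rfl fun i _ => ?_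
  have h2 : g.inner p (D.e i p) (vec D p y) = ∑ j, y j * g.inner p (D.e i p) (D.e j p) := by
    unfold vec
    rw [map_sum]
    exact Finset.sum_congr rfl fun j _ => map_smul _ _ _
  change x i * g.inner p (D.e i p) (vec D p y) = _
  rw [h2, Finset.mul_sum]
  exact Finset.sum_congr rfl fun j _ => by ring

theorem form_Gf (p : M) (x y : Fin m → ℝ) : ∑ i, ∑ j, x i * evA p (Gf D g i j) * y j =
    g.inner p (vec D p x) (vec D p y) +
      ∑ k, (∑ i, evA p (r D k i) * x i) * (∑ j, evA p (r D k j) * y j) := by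
  rw [inner_vec]
  have h1 : ∑ k, (∑ i, evA p (r D k i) * x i) * (∑ j, evA p (r D k j) * y j) =
      ∑ i, ∑ j, x i * (∑ k, evA p (r D k i) * evA p (r D k j)) * y j := by
    have h2 : ∀ k, (∑ i, evA p (r D k i) * x i) * (∑ j, evA p (r D k j) * y j) =
        ∑ i, ∑ j, (evA p (r D k i) * x i) * (evA p (r D k j) * y j) := fun k =>
      Finset.sum_mul_sum _ _ _ _
    rw [Finset.sum_congr rfl fun k _ => h2 k, Finset.sum_comm]
    refine Finset.sum_congr rfl fun i _ => ?_
    rw [Finset.sum_comm]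
    refine Finset.sum_congr rfl fun j _ => ?_
    rw [Finset.mul_sum, Finset.sum_mul]
    exact Finset.sum_congr rfl fun k _ => by ring
  rw [h1, ← Finset.sum_add_distrib]
  refine Finset.sum_congr rfl fun i _ => ?_
  rw [← Finset.sum_add_distrib]
  refine Finset.sum_congr rfl fun j _ => ?_
  rw [ev_Gf]
  ring

theorem Gf_pos (p : M) : (Matrix.of fun i j => evA p (Gf D g i j)).PosDef := by
  apply Matrix.PosDef.of_dotProduct_mulVec_pos
  · ext i j
    simp only [conjTranspose_apply, of_apply, star_trivial]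
    rw [Gf_symm]
  · intro x hx
    have h1 : star x ⬝ᵥ ((Matrix.of fun i j => evA p (Gf D g i j)) *ᵥ x) =
        ∑ i, ∑ j, x i * evA p (Gf D g i j) * x j := by
      simp only [dotProduct, mulVec, star_trivial, of_apply, Finset.mul_sum, mul_assoc]
    rw [h1, form_Gf]
    have h3 : 0 ≤ ∑ k, (∑ i, evA p (r D k i) * x i) * (∑ j, evA p (r D k j) * x j) :=
      Finset.sum_nonneg fun k _ => mul_self_nonneg _
    by_cases hv : vec D p x = 0
    · have h4 : ∀ k, ∑ j, evA p (r D k j) * x j = x k := by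
        intro k
        rw [sum_r, hv, map_zero, sub_zero]
      rw [hv]
      simp only [h4, map_zero]
      have h5 : ∃ k, x k ≠ 0 := by
        by_contra hcon
        push Not at hcon
        exact hx (funext hcon)
      obtain ⟨k, hk⟩ := h5
      have h6 : 0 < ∑ k, x k * x k :=
        Finset.sum_pos' (fun i _ => mul_self_nonneg _) ⟨k, Finset.mem_univ k, mul_self_pos.mpr hk⟩
      simpa using h6
    · have h7 := g.pos p (vec D p x) hv
      linarith

variable (S : Fin m → Fin m → SA n M)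

/-- the frame -/
def X (a : Fin m) : VF n M := fun p => ∑ i, evA p (S a i) • D.e i p

theorem hX (a : Fin m) : SmV (X D S a) := by
  apply ContMDiff.sum_section (V := fun x : M => TangentSpace (𝓡 n) x) (F := EU n)
    (t := fun (i : Fin m) (p : M) => evA p (S a i) • D.e i p)
  intro i _
  exact ContMDiff.smul_section (S a i).2 (D.he i)

theorem par (hS : ∀ a b, ∑ i, ∑ j, S a i * Gf D g i j * S b j = if a = b then 1 else 0)
    (p : M) (v : TangentSpace (𝓡 n) p) :
    ∑ a, g.inner p v (X D S a p) • X D S a p = v := by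
  obtain ⟨w, hw⟩ : ∃ w : Fin m → ℝ, w = fun i => mvfderiv (𝓡 n) (D.f i) p v := ⟨_, rfl⟩
  have hv : vec D p w = v := by
    rw [hw]
    exact D.repr p v
  have hr : ∀ k, ∑ j, evA p (r D k j) * w j = 0 := by
    intro k
    rw [sum_r, hv, hw]
    exact sub_self _
  have hg : ∀ a, g.inner p v (X D S a p) = ∑ i, ∑ j, w i * evA p (Gf D g i j) * evA p (S a j) := by
    intro a
    rw [form_Gf, hv]
    simp only [hr, zero_mul, Finset.sum_const_zero, add_zero]
    rfl
  obtain ⟨A, hA⟩ : ∃ A : Matrix (Fin m) (Fin m) ℝ, A = Matrix.of fun a i => evA p (S a i) :=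
    ⟨_, rfl⟩
  obtain ⟨B, hB⟩ : ∃ B : Matrix (Fin m) (Fin m) ℝ, B = Matrix.of fun i j => evA p (Gf D g i j) :=
    ⟨_, rfl⟩
  have h1 : (A * B) * Aᵀ = 1 := by
    ext a b
    have h2 := congrArg (evA p) (hS a b)
    simp only [map_sum, map_mul] at h2
    rw [Matrix.mul_apply, Matrix.one_apply]
    simp only [Matrix.mul_apply, transpose_apply, hA, hB, of_apply, Finset.sum_mul]
    rw [Finset.sum_comm, h2]
    split_ifs <;> simp
  have h2 : Aᵀ * (A * B) = 1 := mul_eq_one_comm.mp h1
  have hBs : ∀ i j, evA p (Gf D g i j) = evA p (Gf D g j i) := fun i j => by rw [Gf_symm]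
  have h3 : ∀ i, ∑ a, g.inner p v (X D S a p) * evA p (S a i) = w i := by
    intro i
    have h4 : (Aᵀ * (A * B)).mulVec w i = w i := by
      rw [h2, one_mulVec]
    rw [← h4]
    rw [← mulVec_mulVec, ← mulVec_mulVec]
    simp only [mulVec, dotProduct, transpose_apply, hA, hB, of_apply, hg]
    refine Finset.sum_congr rfl fun a _ => ?_
    rw [mul_comm]
    congr 1
    rw [Finset.sum_comm]
    refine Finset.sum_congr rfl fun j _ => ?_
    rw [Finset.mul_sum]
    refine Finset.sum_congr rfl fun k _ => ?_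
    rw [hBs k j]
    ring
  calc ∑ a, g.inner p v (X D S a p) • X D S a p
      = ∑ a, ∑ i, (g.inner p v (X D S a p) * evA p (S a i)) • D.e i p := by
        refine Finset.sum_congr rfl fun a _ => ?_
        change g.inner p v (X D S a p) • (∑ i, evA p (S a i) • D.e i p) = _
        rw [Finset.smul_sum]
        refine Finset.sum_congr rfl fun i _ => ?_
        rw [smul_smul]
    _ = ∑ i, ∑ a, (g.inner p v (X D S a p) * evA p (S a i)) • D.e i p := Finset.sum_comm
    _ = ∑ i, w i • D.e i p := by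
        refine Finset.sum_congr rfl fun i _ => ?_
        rw [← Finset.sum_smul, h3]
    _ = v := hv

end Pf

theorem s_pf (h1 : S_GFRM) (h2 : S_CHOLG) : S_PF := by
  intro n M _ _ _ _ _
  obtain ⟨m, hm, ⟨D⟩⟩ := h1 n M
  refine ⟨m, hm, fun g => ?_⟩
  obtain ⟨S, hS⟩ := h2 n M m (Pf.Gf D g) (Pf.Gf_symm D g) (Pf.Gf_pos D g)
  exact ⟨⟨Pf.X D S, Pf.hX D S, Pf.par D g S hS⟩⟩

end Pool.Agent.H781.CM
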