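import Pool.Agent.H781.CM.GSpec

/-!
# Iterated contractions and alternating maps
-/

set_option autoImplicit false
set_option synthInstance.maxHeartbeats 400000
set_option maxHeartbeats 4000000
set_option linter.unusedSectionVars false

noncomputable section

namespace Pool.Agent.H781.CM

open Pool.Agent.H781.NG

namespace Phi

variable {N : ℕ}

/-- contraction with a vector -/
def AN (v : Fin N → ℝ) (u : Fk N ℝ) : Fk N ℝ := ∑ a, v a • an a u

/-- exterior multiplication with a vector -/
def CR (w : Fin N → ℝ) (u : Fk N ℝ) : Fk N ℝ := ∑ a, w a • cr a u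

theorem phi_zero (v : Fin 0 → Fin N → ℝ) (u : Fk N ℝ) : phi 0 v u = u ∅ := rfl

theorem phi_succ (p : ℕ) (v : Fin (p + 1) → Fin N → ℝ) (u : Fk N ℝ) :
    phi (p + 1) v u = phi p (Fin.tail v) (AN (v 0) u) := rfl

theorem AN_add_right (v : Fin N → ℝ) (u u' : Fk N ℝ) : AN v (u + u') = AN v u + AN v u' := by
  unfold AN
  rw [← Finset.sum_add_distrib]
  exact Finset.sum_congr rfl fun a _ => by rw [map_add, smul_add]

theorem AN_smul_right (v : Fin N → ℝ) (c : ℝ) (u : Fk N ℝ) : AN v (c • u) = c • AN v u := by
  unfold AN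
  rw [Finset.smul_sum]
  exact Finset.sum_congr rfl fun a _ => by rw [map_smul, smul_comm]

theorem AN_add_left (v v' : Fin N → ℝ) (u : Fk N ℝ) : AN (v + v') u = AN v u + AN v' u := by
  unfold AN
  rw [← Finset.sum_add_distrib]
  exact Finset.sum_congr rfl fun a _ => by rw [Pi.add_apply, add_smul]

theorem AN_smul_left (c : ℝ) (v : Fin N → ℝ) (u : Fk N ℝ) : AN (c • v) u = c • AN v u := by
  unfold AN
  rw [Finset.smul_sum]
  exact Finset.sum_congr rfl fun a _ => by rw [Pi.smul_apply, smul_eq_mul, mul_smul]

theorem AN_single (a : Fin N) (u : Fk N ℝ) : AN (Pi.single a 1) u = an a u := by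
  unfold AN
  rw [Finset.sum_eq_single a]
  · rw [Pi.single_eq_same, one_smul]
  · intro b _ hb
    rw [Pi.single_eq_of_ne hb, zero_smul]
  · intro h
    exact (h (Finset.mem_univ a)).elim

theorem phi_lin (p : ℕ) : ∀ v : Fin p → Fin N → ℝ, IsLinearMap ℝ (phi p v) := by
  induction p with
  | zero =>
    intro v
    exact ⟨fun u u' => rfl, fun c u => rfl⟩
  | succ p ih =>
    intro v
    refine ⟨fun u u' => ?_, fun c u => ?_⟩
    · rw [phi_succ, phi_succ, phi_succ, AN_add_right, (ih _).map_add]
    · rw [phi_succ, phi_succ, AN_smul_right, (ih _).map_smul]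

theorem AN_neg_right (v : Fin N → ℝ) (u : Fk N ℝ) : AN v (-u) = - AN v u := by
  rw [← neg_one_smul ℝ u, AN_smul_right, neg_one_smul]

theorem AN_sum_right {κ : Type} (s : Finset κ) (v : Fin N → ℝ) (f : κ → Fk N ℝ) :
    AN v (∑ k ∈ s, f k) = ∑ k ∈ s, AN v (f k) := by
  classical
  induction s using Finset.induction_on with
  | empty =>
    rw [Finset.sum_empty, Finset.sum_empty]
    have := AN_smul_right v 0 (0 : Fk N ℝ)
    rwa [zero_smul, zero_smul] at this
  | insert a s ha ih => rw [Finset.sum_insert ha, Finset.sum_insert ha, AN_add_right, ih]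

theorem AN_AN (v w : Fin N → ℝ) (u : Fk N ℝ) : AN v (AN w u) = - AN w (AN v u) := by
  have h1 : AN v (AN w u) = ∑ a, ∑ b, (v a * w b) • an a (an b u) := by
    show (∑ a, v a • an a (∑ b, w b • an b u)) = _
    refine Finset.sum_congr rfl fun a _ => ?_
    rw [map_sum, Finset.smul_sum]
    exact Finset.sum_congr rfl fun b _ => by rw [map_smul, smul_smul]
  have h2 : AN w (AN v u) = ∑ a, ∑ b, (w a * v b) • an a (an b u) := by
    show (∑ a, w a • an a (∑ b, v b • an b u)) = _
    refine Finset.sum_congr rfl fun a _ => ?_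
    rw [map_sum, Finset.smul_sum]
    exact Finset.sum_congr rfl fun b _ => by rw [map_smul, smul_smul]
  rw [h1, h2, Finset.sum_comm, ← Finset.sum_neg_distrib]
  refine Finset.sum_congr rfl fun a _ => ?_
  rw [← Finset.sum_neg_distrib]
  refine Finset.sum_congr rfl fun b _ => ?_
  rw [an_an b a, smul_neg, mul_comm]

theorem AN_AN_self (v : Fin N → ℝ) (u : Fk N ℝ) : AN v (AN v u) = 0 := by
  have h := AN_AN v v u
  have h2 : (2 : ℝ) • AN v (AN v u) = 0 := by
    rw [two_smul]
    nth_rewrite 1 [h]
    exact neg_add_cancel _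
  exact (smul_eq_zero.1 h2).resolve_left (by norm_num)

theorem phi_neg (p : ℕ) (v : Fin p → Fin N → ℝ) (u : Fk N ℝ) : phi p v (-u) = - phi p v u :=
  (phi_lin p v).map_neg u

theorem phi_z (p : ℕ) (v : Fin p → Fin N → ℝ) : phi p v 0 = 0 := (phi_lin p v).map_zero

theorem phi_AN_zero (p : ℕ) : ∀ (w : Fin p → Fin N → ℝ) (x : Fin N → ℝ) (u : Fk N ℝ) (k : Fin p),
    w k = x → phi p w (AN x u) = 0 := by
  induction p with
  | zero => intro w x u k; exact k.elim0
  | succ p ih =>
    intro w x u k hk
    rw [phi_succ]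
    refine Fin.cases ?_ (fun j hj => ?_) k hk
    · intro h0
      rw [h0, AN_AN_self, phi_z]
    · rw [AN_AN, phi_neg, ih (Fin.tail w) x _ j hj, neg_zero]

theorem phi_alt (p : ℕ) : ∀ (v : Fin p → Fin N → ℝ) (i j : Fin p) (u : Fk N ℝ), v i = v j → i ≠ j →
    phi p v u = 0 := by
  induction p with
  | zero => intro v i; exact i.elim0
  | succ p ih =>
    intro v i j u hij hne
    rw [phi_succ]
    rcases Fin.eq_zero_or_eq_succ i with rfl | ⟨i', rfl⟩
    · rcases Fin.eq_zero_or_eq_succ j with rfl | ⟨j', rfl⟩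
      · exact (hne rfl).elim
      · exact phi_AN_zero p _ _ u j' hij.symm
    · rcases Fin.eq_zero_or_eq_succ j with rfl | ⟨j', rfl⟩
      · exact phi_AN_zero p _ _ u i' hij
      · exact ih _ i' j' _ hij (fun h => hne (by rw [h]))

theorem phi_update_add (p : ℕ) : ∀ (v : Fin p → Fin N → ℝ) (i : Fin p) (x y : Fin N → ℝ)
    (u : Fk N ℝ), phi p (Function.update v i (x + y)) u =
      phi p (Function.update v i x) u + phi p (Function.update v i y) u := by
  induction p with
  | zero => intro v i; exact i.elim0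
  | succ p ih =>
    intro v i x y u
    rw [phi_succ, phi_succ, phi_succ]
    rcases Fin.eq_zero_or_eq_succ i with rfl | ⟨i', rfl⟩
    · rw [Fin.tail_update_zero, Fin.tail_update_zero, Fin.tail_update_zero,
        Function.update_self, Function.update_self, Function.update_self, AN_add_left,
        (phi_lin p _).map_add]
    · rw [Fin.tail_update_succ, Fin.tail_update_succ, Fin.tail_update_succ,
        Function.update_of_ne (Fin.succ_ne_zero i').symm,
        Function.update_of_ne (Fin.succ_ne_zero i').symm,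
        Function.update_of_ne (Fin.succ_ne_zero i').symm, ih]

theorem phi_update_smul (p : ℕ) : ∀ (v : Fin p → Fin N → ℝ) (i : Fin p) (c : ℝ) (x : Fin N → ℝ)
    (u : Fk N ℝ), phi p (Function.update v i (c • x)) u =
      c * phi p (Function.update v i x) u := by
  induction p with
  | zero => intro v i; exact i.elim0
  | succ p ih =>
    intro v i c x u
    rw [phi_succ, phi_succ]
    rcases Fin.eq_zero_or_eq_succ i with rfl | ⟨i', rfl⟩
    · rw [Fin.tail_update_zero, Fin.tail_update_zero,
        Function.update_self, Function.update_self, AN_smul_left,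
        (phi_lin p _).map_smul, smul_eq_mul]
    · rw [Fin.tail_update_succ, Fin.tail_update_succ,
        Function.update_of_ne (Fin.succ_ne_zero i').symm,
        Function.update_of_ne (Fin.succ_ne_zero i').symm, ih]

/-- the alternating map of `u` -/
def altm (p : ℕ) (u : Fk N ℝ) : (Fin N → ℝ) [⋀^Fin p]→ₗ[ℝ] ℝ where
  toFun v := phi p v u
  map_update_add' := by
    intro hdec v i x y
    rw [Subsingleton.elim hdec (instDecidableEqFin p)]
    exact phi_update_add p v i x y u
  map_update_smul' := by
    intro hdec v i c x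
    rw [Subsingleton.elim hdec (instDecidableEqFin p)]
    exact phi_update_smul p v i c x u
  map_eq_zero_of_eq' v i j hij hne := phi_alt p v i j u hij hne

theorem altm_apply (p : ℕ) (u : Fk N ℝ) (v : Fin p → Fin N → ℝ) : altm p u v = phi p v u := rfl

theorem phi_single (p : ℕ) : ∀ (s : Fin p → Fin N), StrictMono s → ∀ u : Fk N ℝ,
    phi p (fun i => Pi.single (s i) 1) u = u (Finset.image s Finset.univ) := by
  induction p with
  | zero =>
    intro s hs u
    rw [phi_zero]
    congr 1
  | succ p ih =>
    intro s hs u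
    rw [phi_succ, AN_single]
    have h1 : (Fin.tail fun i : Fin (p + 1) => (Pi.single (s i) 1 : Fin N → ℝ)) =
      fun i : Fin p => Pi.single (s i.succ) 1 := rfl
    rw [h1, ih (fun i => s i.succ) (fun a b hab => hs (Fin.succ_lt_succ_iff.2 hab)), an_apply]
    have h2 : ∀ i : Fin p, s 0 < s i.succ := fun i => hs (Fin.succ_pos i)
    have h3 : s 0 ∉ Finset.image (fun i : Fin p => s i.succ) Finset.univ := by
      intro h
      obtain ⟨i, -, hi⟩ := Finset.mem_image.1 h
      exact (h2 i).ne' hi
    rw [if_neg h3]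
    have h4 : sg (s 0) (Finset.image (fun i : Fin p => s i.succ) Finset.univ) = 1 := by
      unfold sg
      have : (Finset.image (fun i : Fin p => s i.succ) Finset.univ).filter (· < s 0) = ∅ := by
        rw [Finset.filter_eq_empty_iff]
        intro x hx
        obtain ⟨i, -, rfl⟩ := Finset.mem_image.1 hx
        exact not_lt.2 (h2 i).le
      rw [this, Finset.card_empty, pow_zero]
    rw [h4, Int.cast_one, one_mul]
    congr 1
    ext x
    simp only [Finset.mem_insert, Finset.mem_image, Finset.mem_univ, true_and]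
    constructor
    · rintro (rfl | ⟨i, rfl⟩)
      · exact ⟨0, rfl⟩
      · exact ⟨i.succ, rfl⟩
    · rintro ⟨i, rfl⟩
      rcases Fin.eq_zero_or_eq_succ i with rfl | ⟨i', rfl⟩
      · exact Or.inl rfl
      · exact Or.inr ⟨i', rfl⟩

theorem phi_emb (p : ℕ) (S : Finset (Fin N)) (h : S.card = p) (u : Fk N ℝ) :
    phi p (fun i => Pi.single (S.orderEmbOfFin h i) 1) u = u S := by
  rw [phi_single p (fun i => S.orderEmbOfFin h i) (S.orderEmbOfFin h).strictMono]
  congr 1
  exact Finset.image_orderEmbOfFin_univ S h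

theorem eq_zero_of (p : ℕ) (u : Fk N ℝ) (hu : Deg p u)
    (h : ∀ v : Fin p → Fin N → ℝ, phi p v u = 0) : u = 0 := by
  funext S
  by_cases hS : S.card = p
  · rw [← phi_emb p S hS u, h]
    rfl
  · rw [hu S hS]
    rfl

theorem exists_of_alt (p : ℕ) (A : (Fin N → ℝ) [⋀^Fin p]→ₗ[ℝ] ℝ) :
    ∃ u : Fk N ℝ, Deg p u ∧ (∀ v, A v = phi p v u) ∧
    ∀ S : Finset (Fin N), ∀ h : S.card = p,
      u S = A (fun i => Pi.single (S.orderEmbOfFin h i) 1) := by
  classical
  let u : Fk N ℝ := fun S =>
    if h : S.card = p then A (fun i => Pi.single (S.orderEmbOfFin h i) 1) else 0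
  have hu : ∀ S : Finset (Fin N), ∀ h : S.card = p,
      u S = A (fun i => Pi.single (S.orderEmbOfFin h i) 1) := fun S h => dif_pos h
  refine ⟨u, fun S hS => dif_neg hS, ?_, hu⟩
  have hmono : ∀ s : Fin p → Fin N, StrictMono s →
      A (fun i => Pi.single (s i) 1) = altm p u (fun i => Pi.single (s i) 1) := by
    intro s hs
    rw [altm_apply, phi_single p s hs]
    have hcard : (Finset.image s Finset.univ).card = p := by
      rw [Finset.card_image_of_injective _ hs.injective, Finset.card_univ, Fintype.card_fin]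
    rw [hu _ hcard]
    have := Finset.orderEmbOfFin_unique hcard (f := s)
      (fun x => Finset.mem_image_of_mem s (Finset.mem_univ x)) hs
    rw [← this]
  have hA : A = altm p u := by
    refine Module.Basis.ext_alternating (Pi.basisFun ℝ (Fin N)) ?_
    intro v hv
    simp only [Pi.basisFun_apply]
    have hs : StrictMono (v ∘ Tuple.sort v) :=
      (Tuple.monotone_sort v).strictMono_of_injective (hv.comp (Tuple.sort v).injective)
    have h1 := hmono _ hs
    have h2 := A.map_perm (fun i => (Pi.single (v i) 1 : Fin N → ℝ)) (Tuple.sort v)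
    have h3 := (altm p u).map_perm (fun i => (Pi.single (v i) 1 : Fin N → ℝ)) (Tuple.sort v)
    have h4 : (fun i => (Pi.single ((v ∘ Tuple.sort v) i) 1 : Fin N → ℝ)) =
      (fun i => (Pi.single (v i) 1 : Fin N → ℝ)) ∘ (Tuple.sort v) := rfl
    rw [h4, h2, h3] at h1
    rcases Int.units_eq_one_or (Equiv.Perm.sign (Tuple.sort v)) with hsg | hsg
    · rw [hsg, one_smul, one_smul] at h1
      exact h1
    · rw [hsg] at h1
      simpa using h1
  intro v
  rw [hA, altm_apply]

theorem AN_CR (v w : Fin N → ℝ) (u : Fk N ℝ) :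
    AN v (CR w u) = (∑ a, v a * w a) • u - CR w (AN v u) := by
  have h1 : AN v (CR w u) = ∑ a, ∑ b, (v a * w b) • an a (cr b u) := by
    show (∑ a, v a • an a (∑ b, w b • cr b u)) = _
    refine Finset.sum_congr rfl fun a _ => ?_
    rw [map_sum, Finset.smul_sum]
    exact Finset.sum_congr rfl fun b _ => by rw [map_smul, smul_smul]
  have h2 : CR w (AN v u) = ∑ a, ∑ b, (v a * w b) • cr b (an a u) := by
    show (∑ b, w b • cr b (∑ a, v a • an a u)) = _
    rw [Finset.sum_comm]
    refine Finset.sum_congr rfl fun b _ => ?_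
    rw [map_sum, Finset.smul_sum]
    exact Finset.sum_congr rfl fun a _ => by rw [map_smul, smul_smul, mul_comm]
  rw [eq_sub_iff_add_eq, h1, h2, ← Finset.sum_add_distrib, Finset.sum_smul]
  refine Finset.sum_congr rfl fun a _ => ?_
  rw [← Finset.sum_add_distrib, Finset.sum_eq_single a]
  · rw [← smul_add, car, if_pos rfl]
  · intro b _ hb
    rw [← smul_add, car, if_neg (Ne.symm hb), smul_zero]
  · intro h
    exact (h (Finset.mem_univ a)).elim

theorem CR_empty (w : Fin N → ℝ) (u : Fk N ℝ) : CR w u ∅ = 0 := by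
  unfold CR
  rw [Finset.sum_apply]
  refine Finset.sum_eq_zero fun a _ => ?_
  rw [Pi.smul_apply, cr_apply, if_neg (Finset.notMem_empty a), smul_zero]

theorem phi_CR (p : ℕ) : ∀ (u : Fk N ℝ) (w : Fin N → ℝ) (v : Fin (p + 1) → Fin N → ℝ),
    phi (p + 1) v (CR w u) =
      ∑ i : Fin (p + 1), (-1 : ℝ) ^ (i : ℕ) * (∑ a, v i a * w a) * phi p (i.removeNth v) u := by
  induction p with
  | zero =>
    intro u w v
    rw [phi_succ, AN_CR, (phi_lin 0 _).map_sub, (phi_lin 0 _).map_smul, phi_zero, phi_zero,
      CR_empty, sub_zero, smul_eq_mul, Fin.sum_univ_one]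
    simp [phi_zero]
  | succ p ih =>
    intro u w v
    rw [phi_succ, AN_CR, (phi_lin (p + 1) _).map_sub, (phi_lin (p + 1) _).map_smul, smul_eq_mul,
      ih, Fin.sum_univ_succ (n := p + 1), sub_eq_add_neg, ← Finset.sum_neg_distrib]
    congr 1
    · simp [Fin.removeNth_zero]
    · refine Finset.sum_congr rfl fun i _ => ?_
      have h1 : phi p (i.removeNth (Fin.tail v)) (AN (v 0) u) =
          phi (p + 1) (i.succ.removeNth v) u := by
        have e1 : i.succ.removeNth v 0 = v 0 := by
          show v (i.succ.succAbove 0) = v 0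
          rw [Fin.succ_succAbove_zero]
        have e2 : Fin.tail (i.succ.removeNth v) = i.removeNth (Fin.tail v) := by
          funext j
          show v (i.succ.succAbove j.succ) = v (i.succAbove j).succ
          rw [Fin.succ_succAbove_succ]
        rw [phi_succ, e1, e2]
      rw [h1, Fin.val_succ, pow_succ]
      show -((-1 : ℝ) ^ (i : ℕ) * (∑ a, v i.succ a * w a) * _) = _
      ring

theorem phi_X (p : ℕ) (X : Fin N → Fin N → ℝ) : ∀ (u : Fk N ℝ) (v : Fin p → Fin N → ℝ),
    phi p v (∑ b, ∑ c, X b c • cr c (an b u)) =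
      ∑ i : Fin p, phi p (Function.update v i (fun b => ∑ c, X b c * v i c)) u := by
  induction p with
  | zero =>
    intro u v
    rw [phi_zero, Finset.sum_apply]
    simp only [Finset.univ_eq_empty, Finset.sum_empty]
    refine Finset.sum_eq_zero fun b _ => ?_
    rw [Finset.sum_apply]
    refine Finset.sum_eq_zero fun c _ => ?_
    rw [Pi.smul_apply, cr_apply, if_neg (Finset.notMem_empty c), smul_zero]
  | succ p ih =>
    intro u v
    have key : AN (v 0) (∑ b, ∑ c, X b c • cr c (an b u)) =
        AN (fun b => ∑ c, X b c * v 0 c) u + ∑ b, ∑ c, X b c • cr c (an b (AN (v 0) u)) := by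
      have h1 : ∀ b c, AN (v 0) (cr c (an b u)) = v 0 c • an b u + cr c (an b (AN (v 0) u)) := by
        intro b c
        have h2 : cr c (an b (AN (v 0) u)) = ∑ a, v 0 a • cr c (an b (an a u)) := by
          show cr c (an b (∑ a, v 0 a • an a u)) = _
          rw [map_sum, map_sum]
          exact Finset.sum_congr rfl fun a _ => by rw [map_smul, map_smul]
        have h3 : v 0 c • an b u = ∑ a, v 0 a • (if a = c then an b u else 0) := by
          rw [Finset.sum_eq_single c]
          · rw [if_pos rfl]
          · intro a _ ha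
            rw [if_neg ha, smul_zero]
          · intro h
            exact (h (Finset.mem_univ c)).elim
        rw [h2, h3, ← Finset.sum_add_distrib]
        show (∑ a, v 0 a • an a (cr c (an b u))) = _
        refine Finset.sum_congr rfl fun a _ => ?_
        rw [← smul_add, an_cr, an_an a b, map_neg, sub_neg_eq_add]
      rw [AN_sum_right]
      have h4 : AN (fun b => ∑ c, X b c * v 0 c) u = ∑ b, ∑ c, X b c • (v 0 c • an b u) := by
        show (∑ b, (∑ c, X b c * v 0 c) • an b u) = _
        refine Finset.sum_congr rfl fun b _ => ?_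
        rw [Finset.sum_smul]
        exact Finset.sum_congr rfl fun c _ => by rw [mul_smul]
      rw [h4, ← Finset.sum_add_distrib]
      refine Finset.sum_congr rfl fun b _ => ?_
      rw [AN_sum_right, ← Finset.sum_add_distrib]
      refine Finset.sum_congr rfl fun c _ => ?_
      rw [AN_smul_right, h1, smul_add]
    rw [phi_succ, key, (phi_lin p _).map_add, ih, Fin.sum_univ_succ]
    have h0 : phi p (Fin.tail v) (AN (fun b => ∑ c, X b c * v 0 c) u) =
        phi (p + 1) (Function.update v 0 fun b => ∑ c, X b c * v 0 c) u := by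
      rw [phi_succ, Fin.tail_update_zero, Function.update_self]
    rw [h0]
    refine congrArg₂ (· + ·) rfl ?_
    · refine Finset.sum_congr rfl fun i _ => ?_
      rw [phi_succ, Fin.tail_update_succ, Function.update_of_ne (Fin.succ_ne_zero i).symm]
      rfl

end Phi

theorem s_phi : S_PHI := by
  intro N p
  exact ⟨Phi.phi_lin p, fun u => ⟨Phi.altm p u, fun v => rfl⟩, fun u hu h => Phi.eq_zero_of p u hu h,
    Phi.exists_of_alt p, fun u w v => Phi.phi_CR p u w v, fun u X v _ => Phi.phi_X p X u v⟩

end Pool.Agent.H781.CM
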