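import Pool.Agent.H781.CM.GSpec

/-!
# Sobolev embedding: all weak derivatives in `L²` implies smooth (`S_SOB`)

The Fourier transform of a compactly supported function with weak derivatives of all orders in `L²`
decays rapidly; Fourier inversion (by duality with test functions).
-/

set_option autoImplicit false

open MeasureTheory Filter Real
open scoped Topology FourierTransform RealInnerProductSpace ContDiff

noncomputable section

namespace Pool.Agent.H781.CM

namespace Sob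

variable {n : ℕ}

/-- vanishing outside of `K`, almost everywhere -/
def Van (K : Set (EU n)) (u : EU n → ℝ) : Prop := ∀ᵐ y : EU n, y ∉ K → u y = 0

/-- the weak derivative relation -/
def WD (s : Fin n) (u v : EU n → ℝ) : Prop :=
  ∀ φ : EU n → ℝ, ContDiff ℝ ∞ φ → HasCompactSupport φ → ∫ y, v y * φ y = - ∫ y, u y * pd s φ y

lemma vanish {K : Set (EU n)} (hK : IsCompact K) {u v : EU n → ℝ} {s : Fin n} (hv : MemLp v 2)
    (hu : Van K u) (h : WD s u v) : Van K v := by
  have h1 : LocallyIntegrableOn v Kᶜ :=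
    (hv.locallyIntegrable (by norm_num)).locallyIntegrableOn _
  refine IsOpen.ae_eq_zero_of_integral_contDiff_smul_eq_zero hK.isClosed.isOpen_compl h1 ?_
  intro g hg hgc hgK
  have h2 := h g hg hgc
  have h3 : ∫ y, u y * pd s g y = 0 := by
    have h4 : (fun y => u y * pd s g y) =ᵐ[volume] fun _ => (0 : ℝ) := by
      filter_upwards [hu] with y hy
      by_cases hyK : y ∈ K
      · have h5 : y ∉ tsupport g := fun h => hgK h hyK
        unfold pd
        rw [fderiv_of_notMem_tsupport ℝ h5]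
        simp
      · rw [hy hyK, zero_mul]
    rw [integral_congr_ae h4, integral_zero]
  rw [h3, neg_zero] at h2
  rw [← h2]
  congr 1
  funext y
  rw [smul_eq_mul, mul_comm]

lemma integ {K : Set (EU n)} (hK : IsCompact K) {u : EU n → ℝ} (hu2 : MemLp u 2)
    (hu : Van K u) : Integrable u := by
  have h1 : IntegrableOn u K := (hu2.locallyIntegrable (by norm_num)).integrableOn_isCompact hK
  have h2 : Integrable (K.indicator u) := (integrable_indicator_iff hK.measurableSet).2 h1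
  refine h2.congr ?_
  filter_upwards [hu] with y hy
  by_cases hyK : y ∈ K
  · rw [Set.indicator_of_mem hyK]
  · rw [Set.indicator_of_notMem hyK, hy hyK]

/-- the Fourier transform -/
def hat (u : EU n → ℝ) : EU n → ℂ := 𝓕 (fun y => (u y : ℂ))

/-- the cosine transform -/
def cs (u : EU n → ℝ) (ξ : EU n) : ℝ := ∫ y, u y * Real.cos (2 * π * ⟪y, ξ⟫)

/-- the sine transform -/
def sn (u : EU n → ℝ) (ξ : EU n) : ℝ := ∫ y, u y * Real.sin (2 * π * ⟪y, ξ⟫)

lemma int_cos {u : EU n → ℝ} (hu : Integrable u) (ξ : EU n) :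
    Integrable (fun y => u y * Real.cos (2 * π * ⟪y, ξ⟫)) := by
  refine hu.mono (hu.aestronglyMeasurable.mul
    (Continuous.aestronglyMeasurable (by fun_prop))) (Eventually.of_forall fun y => ?_)
  rw [norm_mul]
  exact mul_le_of_le_one_right (norm_nonneg _) (Real.abs_cos_le_one _)

lemma int_sin {u : EU n → ℝ} (hu : Integrable u) (ξ : EU n) :
    Integrable (fun y => u y * Real.sin (2 * π * ⟪y, ξ⟫)) := by
  refine hu.mono (hu.aestronglyMeasurable.mul
    (Continuous.aestronglyMeasurable (by fun_prop))) (Eventually.of_forall fun y => ?_)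
  rw [norm_mul]
  exact mul_le_of_le_one_right (norm_nonneg _) (Real.abs_sin_le_one _)

lemma hat_eq {u : EU n → ℝ} (hu : Integrable u) (ξ : EU n) :
    hat u ξ = (cs u ξ : ℂ) - (sn u ξ : ℂ) * Complex.I := by
  unfold hat cs sn
  have h1 : ∫ y, ((u y * Real.cos (2 * π * ⟪y, ξ⟫) : ℝ) : ℂ) =
      ((∫ y, u y * Real.cos (2 * π * ⟪y, ξ⟫) : ℝ) : ℂ) := integral_ofReal
  have h2 : ∫ y, ((u y * Real.sin (2 * π * ⟪y, ξ⟫) : ℝ) : ℂ) =
      ((∫ y, u y * Real.sin (2 * π * ⟪y, ξ⟫) : ℝ) : ℂ) := integral_ofReal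
  rw [Real.fourier_eq', ← h1, ← h2, ← integral_mul_const,
    ← integral_sub (int_cos hu ξ).ofReal ((int_sin hu ξ).ofReal.mul_const _)]
  congr 1
  funext y
  rw [Complex.exp_mul_I, smul_eq_mul]
  have e1 : ((-2 * π * ⟪y, ξ⟫ : ℝ) : ℂ) = -((2 * π * ⟪y, ξ⟫ : ℝ) : ℂ) := by
    push_cast
    ring
  rw [e1, Complex.cos_neg, Complex.sin_neg, ← Complex.ofReal_cos, ← Complex.ofReal_sin]
  push_cast
  ring

lemma exists_cutoff {K : Set (EU n)} (hK : IsCompact K) :
    ∃ χ : EU n → ℝ, ContDiff ℝ ∞ χ ∧ HasCompactSupport χ ∧ ∀ y ∈ K, χ =ᶠ[𝓝 y] 1 := by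
  obtain ⟨R, hR⟩ := hK.isBounded.subset_ball (0 : EU n)
  let f : ContDiffBump (0 : EU n) := ⟨max R 1, max R 1 + 1, by positivity, by linarith⟩
  refine ⟨f, f.contDiff, f.hasCompactSupport, fun y hy => ?_⟩
  refine f.eventuallyEq_one_of_mem_ball ?_
  exact Metric.ball_subset_ball (le_max_left _ _) (hR hy)

lemma pd_cos (s : Fin n) (ξ y : EU n) :
    pd s (fun y => Real.cos (2 * π * ⟪y, ξ⟫)) y = -(2 * π * ξ s) * Real.sin (2 * π * ⟪y, ξ⟫) := by
  unfold pd
  have h1 : HasFDerivAt (fun y : EU n => ⟪y, ξ⟫) ((innerSL ℝ ξ : EU n →L[ℝ] ℝ)) y := by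
    have : (fun y : EU n => ⟪y, ξ⟫) = fun y => (innerSL ℝ ξ : EU n →L[ℝ] ℝ) y := by
      funext y
      rw [innerSL_apply_apply, real_inner_comm]
    rw [this]
    exact (innerSL ℝ ξ : EU n →L[ℝ] ℝ).hasFDerivAt
  have h2 := (h1.const_mul (2 * π)).cos
  rw [h2.fderiv]
  simp only [smul_apply, smul_eq_mul, innerSL_apply_apply]
  rw [EuclideanSpace.inner_single_right]
  simp
  ring

lemma pd_sin (s : Fin n) (ξ y : EU n) :
    pd s (fun y => Real.sin (2 * π * ⟪y, ξ⟫)) y = (2 * π * ξ s) * Real.cos (2 * π * ⟪y, ξ⟫) := by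
  unfold pd
  have h1 : HasFDerivAt (fun y : EU n => ⟪y, ξ⟫) ((innerSL ℝ ξ : EU n →L[ℝ] ℝ)) y := by
    have : (fun y : EU n => ⟪y, ξ⟫) = fun y => (innerSL ℝ ξ : EU n →L[ℝ] ℝ) y := by
      funext y
      rw [innerSL_apply_apply, real_inner_comm]
    rw [this]
    exact (innerSL ℝ ξ : EU n →L[ℝ] ℝ).hasFDerivAt
  have h2 := (h1.const_mul (2 * π)).sin
  rw [h2.fderiv]
  simp only [smul_apply, smul_eq_mul, innerSL_apply_apply]
  rw [EuclideanSpace.inner_single_right]
  simp
  ring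

/-- testing with a smooth function that need not have compact support -/
lemma test {K : Set (EU n)} (hK : IsCompact K) {u v : EU n → ℝ} {s : Fin n}
    (hu : Van K u) (hv : Van K v) (h : WD s u v) (g : EU n → ℝ) (hg : ContDiff ℝ ∞ g) :
    ∫ y, v y * g y = - ∫ y, u y * pd s g y := by
  obtain ⟨χ, h1, h2, h3⟩ := exists_cutoff hK
  have h4 := h (fun y => χ y * g y) (h1.mul hg) h2.mul_right
  have h5 : ∫ y, v y * (χ y * g y) = ∫ y, v y * g y := by
    refine integral_congr_ae ?_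
    filter_upwards [hv] with y hy
    by_cases hyK : y ∈ K
    · rw [(h3 y hyK).eq_of_nhds, Pi.one_apply, one_mul]
    · rw [hy hyK, zero_mul, zero_mul]
  have h6 : ∫ y, u y * pd s (fun y => χ y * g y) y = ∫ y, u y * pd s g y := by
    refine integral_congr_ae ?_
    filter_upwards [hu] with y hy
    by_cases hyK : y ∈ K
    · have h7 : (fun y => χ y * g y) =ᶠ[𝓝 y] g := by
        filter_upwards [h3 y hyK] with z hz
        rw [hz, Pi.one_apply, one_mul]
      unfold pd
      rw [h7.fderiv_eq]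
    · rw [hy hyK, zero_mul, zero_mul]
  rw [h5, h6] at h4
  exact h4

lemma contDiff_cos (ξ : EU n) : ContDiff ℝ ∞ (fun y : EU n => Real.cos (2 * π * ⟪y, ξ⟫)) :=
  Real.contDiff_cos.comp (contDiff_const.mul (contDiff_id.inner ℝ contDiff_const))

lemma contDiff_sin (ξ : EU n) : ContDiff ℝ ∞ (fun y : EU n => Real.sin (2 * π * ⟪y, ξ⟫)) :=
  Real.contDiff_sin.comp (contDiff_const.mul (contDiff_id.inner ℝ contDiff_const))

lemma hat_deriv {K : Set (EU n)} (hK : IsCompact K) {u v : EU n → ℝ} {s : Fin n}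
    (hu2 : MemLp u 2) (hv2 : MemLp v 2) (hu : Van K u) (h : WD s u v) (ξ : EU n) :
    hat v ξ = (2 * π * ξ s : ℝ) * Complex.I * hat u ξ := by
  have hv := vanish hK hv2 hu h
  have hui := integ hK hu2 hu
  have hvi := integ hK hv2 hv
  have h1 : cs v ξ = (2 * π * ξ s) * sn u ξ := by
    unfold cs sn
    rw [test hK hu hv h _ (contDiff_cos ξ), ← integral_const_mul, ← integral_neg]
    congr 1
    funext y
    rw [pd_cos]
    ring
  have h2 : sn v ξ = -(2 * π * ξ s) * cs u ξ := by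
    unfold cs sn
    rw [test hK hu hv h _ (contDiff_sin ξ), ← integral_const_mul, ← integral_neg]
    congr 1
    funext y
    rw [pd_sin]
    ring
  rw [hat_eq hvi, hat_eq hui, h1, h2]
  push_cast
  have hI : Complex.I * Complex.I = -1 := Complex.I_mul_I
  linear_combination (2 * (π : ℂ) * (ξ s : ℂ) * (sn u ξ : ℂ)) * hI

lemma norm_le_sum (ξ : EU n) : ‖ξ‖ ≤ ∑ s, |ξ s| := by
  have h1 := (EuclideanSpace.basisFun (Fin n) ℝ).sum_repr ξ
  conv_lhs => rw [← h1]
  refine (norm_sum_le _ _).trans (Finset.sum_le_sum fun s _ => ?_)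
  rw [norm_smul, (EuclideanSpace.basisFun (Fin n) ℝ).norm_eq_one, mul_one, Real.norm_eq_abs]
  simp

lemma decay {K : Set (EU n)} (hK : IsCompact K) (k : ℕ) : ∀ u : EU n → ℝ, Van K u → WE n k u →
    ∃ C : ℝ, 0 ≤ C ∧ ∀ ξ, ‖ξ‖ ^ k * ‖hat u ξ‖ ≤ C := by
  induction k with
  | zero =>
    intro u hu h2
    refine ⟨∫ y, ‖(u y : ℂ)‖, integral_nonneg fun y => norm_nonneg _, fun ξ => ?_⟩
    rw [pow_zero, one_mul]
    exact VectorFourier.norm_fourierIntegral_le_integral_norm _ _ _ _ _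
  | succ k ih =>
    intro u hu h2
    obtain ⟨hu2, h3⟩ := h2
    choose v hv1 hv2 using h3
    have hm : ∀ s, MemLp (v s) 2 := by
      intro s
      have := hv1 s
      cases k with
      | zero => exact this
      | succ k => exact this.1
    have hvan : ∀ s, Van K (v s) := fun s => vanish hK (hm s) hu (hv2 s)
    choose C hC0 hC using fun s => ih (v s) (hvan s) (hv1 s)
    refine ⟨∑ s, C s, Finset.sum_nonneg fun s _ => hC0 s, fun ξ => ?_⟩
    have h4 : ∀ s, ‖ξ‖ ^ k * (|ξ s| * ‖hat u ξ‖) ≤ C s := by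
      intro s
      have h5 := hC s ξ
      rw [hat_deriv hK hu2 (hm s) hu (hv2 s) ξ, norm_mul, norm_mul, Complex.norm_I, mul_one,
        Complex.norm_real, Real.norm_eq_abs, abs_mul, abs_of_pos (by positivity : 0 < 2 * π)] at h5
      refine le_trans ?_ h5
      have h6 : 1 ≤ 2 * π := by have := Real.pi_gt_three; linarith
      have h7 : 0 ≤ ‖ξ‖ ^ k * (|ξ s| * ‖hat u ξ‖) := by positivity
      nlinarith
    calc ‖ξ‖ ^ (k + 1) * ‖hat u ξ‖ = ‖ξ‖ ^ k * (‖ξ‖ * ‖hat u ξ‖) := by ring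
      _ ≤ ‖ξ‖ ^ k * ((∑ s, |ξ s|) * ‖hat u ξ‖) := by
          gcongr
          exact norm_le_sum ξ
      _ = ∑ s, ‖ξ‖ ^ k * (|ξ s| * ‖hat u ξ‖) := by
          rw [Finset.sum_mul, Finset.mul_sum]
      _ ≤ ∑ s, C s := Finset.sum_le_sum fun s _ => h4 s

lemma hat_cont {u : EU n → ℝ} (hu : Integrable u) : Continuous (hat u) :=
  VectorFourier.fourierIntegral_continuous Real.continuous_fourierChar
    (by exact continuous_inner) hu.ofReal

lemma hat_int {K : Set (EU n)} (hK : IsCompact K) {u : EU n → ℝ} (hu : Van K u)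
    (h : ∀ k, WE n k u) (k : ℕ) : Integrable (fun ξ => ‖ξ‖ ^ k * ‖hat u ξ‖) := by
  have hu2 : MemLp u 2 := h 0
  have hui := integ hK hu2 hu
  obtain ⟨C1, hC1, h1⟩ := decay hK k u hu (h k)
  obtain ⟨C2, hC2, h2⟩ := decay hK (k + (n + 1)) u hu (h _)
  have hd : Integrable (fun ξ : EU n => (1 + ‖ξ‖) ^ (-((n : ℝ) + 1))) :=
    integrable_one_add_norm (by
      rw [finrank_euclideanSpace, Fintype.card_fin]
      linarith)
  refine (hd.const_mul (2 ^ n * (C1 + C2))).mono' ?_ (Eventually.of_forall fun ξ => ?_)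
  · exact ((continuous_norm.pow k).mul (hat_cont hui).norm).aestronglyMeasurable
  · rw [Real.norm_of_nonneg (by positivity)]
    have h3 : (0 : ℝ) < 1 + ‖ξ‖ := by positivity
    have h4 : (1 + ‖ξ‖) ^ (-((n : ℝ) + 1)) = ((1 + ‖ξ‖) ^ (n + 1))⁻¹ := by
      rw [Real.rpow_neg h3.le]
      congr 1
      rw [← Real.rpow_natCast]
      push_cast
      rfl
    rw [h4, ← div_eq_mul_inv, le_div_iff₀ (by positivity)]
    have h5 : (1 + ‖ξ‖) ^ (n + 1) ≤ 2 ^ n * (1 ^ (n + 1) + ‖ξ‖ ^ (n + 1)) :=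
      _root_.add_pow_le (zero_le_one) (norm_nonneg _) (n + 1)
    calc ‖ξ‖ ^ k * ‖hat u ξ‖ * (1 + ‖ξ‖) ^ (n + 1)
        ≤ ‖ξ‖ ^ k * ‖hat u ξ‖ * (2 ^ n * (1 ^ (n + 1) + ‖ξ‖ ^ (n + 1))) := by gcongr
      _ = 2 ^ n * (‖ξ‖ ^ k * ‖hat u ξ‖ + ‖ξ‖ ^ (k + (n + 1)) * ‖hat u ξ‖) := by
          rw [pow_add]
          ring
      _ ≤ 2 ^ n * (C1 + C2) := by
          gcongr
          · exact h1 ξ
          · exact h2 ξ

/-- the smooth representative -/
def inv (u : EU n → ℝ) : EU n → ℂ := 𝓕⁻ (hat u)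

lemma inv_eq (u : EU n → ℝ) : inv u = 𝓕 (fun ξ => hat u (-ξ)) :=
  Real.fourierInv_eq_fourier_comp_neg _

lemma inv_smooth {K : Set (EU n)} (hK : IsCompact K) {u : EU n → ℝ} (hu : Van K u)
    (h : ∀ k, WE n k u) : ContDiff ℝ ∞ (inv u) := by
  rw [inv_eq]
  refine Real.contDiff_fourier (N := ⊤) fun k _ => ?_
  have h1 := (hat_int hK hu h k).comp_neg
  simpa only [norm_neg] using h1

lemma dual {K : Set (EU n)} (hK : IsCompact K) {u : EU n → ℝ} (hu : Van K u)
    (h : ∀ k, WE n k u) (g : EU n → ℝ) (hg : ContDiff ℝ ∞ g) (hgc : HasCompactSupport g) :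
    ∫ x, g x • (u x : ℂ) = ∫ x, g x • inv u x := by
  have hu2 : MemLp u 2 := h 0
  have hui := integ hK hu2 hu
  have hhi : Integrable (hat u) := by
    have := hat_int hK hu h 0
    simp only [pow_zero, one_mul] at this
    exact (integrable_norm_iff (hat_cont hui).aestronglyMeasurable).1 this
  let G : EU n → ℂ := fun x => (g x : ℂ)
  have hG : ContDiff ℝ ∞ G := Complex.ofRealCLM.contDiff.comp hg
  have hGc : HasCompactSupport G := hgc.comp_left Complex.ofReal_zero
  let S : SchwartzMap (EU n) ℂ := hGc.toSchwartzMap hG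
  have hS : (S : EU n → ℂ) = G := rfl
  have hGi : Integrable G := by
    have := S.integrable (μ := volume)
    rwa [hS] at this
  have hFi : Integrable (𝓕 G) := by
    have := (𝓕 S).integrable (μ := volume)
    rw [SchwartzMap.fourier_coe, hS] at this
    exact this
  have hIi : Integrable (𝓕⁻ G) := by
    rw [Real.fourierInv_eq_fourier_comp_neg]
    have := (𝓕⁻ S).integrable (μ := volume)
    rw [SchwartzMap.fourierInv_coe, hS, Real.fourierInv_eq_fourier_comp_neg] at this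
    exact this
  have e1 : 𝓕 (𝓕⁻ G) = G := hG.continuous.fourier_fourierInv_eq hGi hFi
  have sw : ∀ a b : EU n → ℂ, Integrable a → Integrable b →
      ∫ ξ, 𝓕 a ξ • b ξ = ∫ x, a x • 𝓕 b x := by
    intro a b ha hb
    have := VectorFourier.integral_fourierIntegral_smul_eq_flip (μ := volume) (ν := volume)
      (L := innerₗ (EU n)) Real.continuous_fourierChar continuous_inner ha hb
    rw [flip_innerₗ] at this
    exact this
  have e2 : ∫ x, (u x : ℂ) • G x = ∫ ξ, hat u ξ • 𝓕⁻ G ξ := by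
    have := sw (fun y => (u y : ℂ)) (𝓕⁻ G) hui.ofReal hIi
    rw [e1] at this
    exact this.symm
  have e3 : ∫ ξ, hat u ξ • 𝓕⁻ G ξ = ∫ ξ, hat u (-ξ) • 𝓕 G ξ := by
    rw [← integral_neg_eq_self (fun ξ => hat u ξ • 𝓕⁻ G ξ)]
    congr 1
    funext ξ
    rw [Real.fourierInv_eq_fourier_neg, neg_neg]
  have e4 : ∫ ξ, hat u (-ξ) • 𝓕 G ξ = ∫ x, inv u x • G x := by
    rw [inv_eq]
    exact (sw (fun ξ => hat u (-ξ)) G hhi.comp_neg hGi).symm
  have e5 : ∀ w : EU n → ℂ, (fun x => g x • w x) = fun x => w x • G x := by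
    intro w
    funext x
    show g x • w x = w x * (g x : ℂ)
    rw [Complex.real_smul, mul_comm]
  rw [e5, e5 (inv u), e2, e3, e4]

end Sob

open Sob in
/-- Sobolev embedding -/
theorem s_sob : S_SOB := by
  intro n u hn huc h
  have hK : IsCompact (tsupport u) := huc
  have hu : Van (tsupport u) u := Eventually.of_forall fun y hy => image_eq_zero_of_notMem_tsupport hy
  have hu2 : MemLp u 2 := h 0
  have hsm := inv_smooth hK hu h
  have h1 : LocallyIntegrable (fun x => (u x : ℂ)) := (integ hK hu2 hu).ofReal.locallyIntegrable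
  have h2 : LocallyIntegrable (inv u) := hsm.continuous.locallyIntegrable
  have h3 := ae_eq_of_integral_contDiff_smul_eq h1 h2 (fun g hg hgc => dual hK hu h g hg hgc)
  refine ⟨fun x => (inv u x).re, Complex.reCLM.contDiff.comp hsm, ?_⟩
  filter_upwards [h3] with x hx
  rw [← hx, Complex.ofReal_re]

end Pool.Agent.H781.CM
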