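import Pool.Agent.H781.CM.GSpec

/-!
Functions supported in a chart.
-/

set_option autoImplicit false
set_option synthInstance.maxHeartbeats 400000
set_option maxHeartbeats 4000000
set_option linter.unusedSectionVars false

open Bundle Manifold ContDiff VectorField MeasureTheory Filter
open scoped Topology

noncomputable section

namespace Pool.Agent.H781.CM

open Pool.Agent.H781.NG Pool.Agent.H821R2 Pool.Agent.H821R3 Pool.Agent.H893R5.HO
  Pool.Agent.H781.S22

namespace Tkf

variable {n : ℕ} {M : Type} [TopologicalSpace M] [T2Space M] [CompactSpace M]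
  [ChartedSpace (EU n) M] [IsManifold (𝓡 n) ∞ M]

omit [T2Space M] [CompactSpace M] in
theorem part3 (x₀ : M) (f : M → ℝ) (hf : Sm (𝓡 n) f) :
    ContDiffOn ℝ ∞ (f ∘ (extChartAt (𝓡 n) x₀).symm) (extChartAt (𝓡 n) x₀).target := by
  rw [← contMDiffOn_iff_contDiffOn]
  have h1 : ContMDiffOn 𝓘(ℝ, EU n) (𝓡 n) ∞ (extChartAt (𝓡 n) x₀).symm
    (extChartAt (𝓡 n) x₀).target := contMDiffOn_extChartAt_symm x₀
  exact ContMDiff.comp_contMDiffOn (show ContMDiff (𝓡 n) 𝓘(ℝ, ℝ) ∞ f from hf) h1

omit [CompactSpace M] in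
theorem part1 (x₀ : M) (u : EU n → ℝ) (hu : ContDiff ℝ ∞ u) (hc : HasCompactSupport u)
    (hs : tsupport u ⊆ (extChartAt (𝓡 n) x₀).target) :
    Sm (𝓡 n) (psh x₀ u) ∧
      tsupport (psh x₀ u) ⊆ (extChartAt (𝓡 n) x₀).source ∧ pul n x₀ (psh x₀ u) = u := by
  classical
  set φ := extChartAt (𝓡 n) x₀ with hφ
  set K' : Set M := φ.symm '' tsupport u with hK'
  have hKc : IsCompact K' :=
    IsCompact.image_of_continuousOn hc ((continuousOn_extChartAt_symm x₀).mono hs)
  have hKs : K' ⊆ φ.source := by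
    rintro _ ⟨y, hy, rfl⟩
    exact φ.map_target (hs hy)
  have hz : ∀ p ∉ K', psh x₀ u p = 0 := by
    intro p hp
    unfold psh
    split_ifs with h
    · by_contra hne
      have h1 : φ p ∈ tsupport u := by
        by_contra h2
        exact hne (image_eq_zero_of_notMem_tsupport h2)
      exact hp ⟨φ p, h1, φ.left_inv h⟩
    · rfl
  have hsm : Sm (𝓡 n) (psh x₀ u) := by
    intro p
    by_cases hp : p ∈ K'
    · have hps : p ∈ φ.source := hKs hp
      have hev : psh x₀ u =ᶠ[𝓝 p] u ∘ φ := by
        filter_upwards [(isOpen_extChartAt_source (I := 𝓡 n) x₀).mem_nhds hps] with p' hp'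
        unfold psh
        rw [if_pos hp']
        rfl
      have h1 : ContMDiffAt (𝓡 n) 𝓘(ℝ, EU n) ∞ φ p := by
        have h2 : ContMDiffOn (𝓡 n) 𝓘(ℝ, EU n) ∞ φ (chartAt (EU n) x₀).source :=
          contMDiffOn_extChartAt
        have h3 : p ∈ (chartAt (EU n) x₀).source := by
          rw [← extChartAt_source (𝓡 n) x₀]
          exact hps
        exact h2.contMDiffAt ((chartAt (EU n) x₀).open_source.mem_nhds h3)
      have h4 : ContMDiffAt (𝓡 n) 𝓘(ℝ, ℝ) ∞ (u ∘ φ) p :=
        ContMDiffAt.comp p (hu.contMDiff.contMDiffAt) h1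
      exact h4.congr_of_eventuallyEq hev
    · have hev : psh x₀ u =ᶠ[𝓝 p] fun _ => (0 : ℝ) := by
        filter_upwards [hKc.isClosed.isOpen_compl.mem_nhds hp] with p' hp'
        exact hz p' hp'
      exact (contMDiffAt_const (c := (0 : ℝ))).congr_of_eventuallyEq hev
  refine ⟨hsm, ?_, ?_⟩
  · have h1 : Function.support (psh x₀ u) ⊆ K' := by
      intro p hp
      by_contra h
      exact hp (hz p h)
    exact (closure_minimal h1 hKc.isClosed).trans hKs
  · funext y
    unfold pul
    split_ifs with h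
    · unfold psh
      rw [if_pos (φ.map_target h), ← hφ, φ.right_inv h]
    · symm
      apply image_eq_zero_of_notMem_tsupport
      intro h1
      exact h (hs h1)

theorem part2 (x₀ : M) (f : M → ℝ) (hf : Sm (𝓡 n) f)
    (hs : tsupport f ⊆ (extChartAt (𝓡 n) x₀).source) :
    ContDiff ℝ ∞ (pul n x₀ f) ∧ HasCompactSupport (pul n x₀ f) ∧
      tsupport (pul n x₀ f) ⊆ (extChartAt (𝓡 n) x₀).target ∧ psh x₀ (pul n x₀ f) = f := by
  classical
  set φ := extChartAt (𝓡 n) x₀ with hφ
  set K' : Set (EU n) := φ '' tsupport f with hK'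
  have hKc : IsCompact K' :=
    IsCompact.image_of_continuousOn (isClosed_tsupport f).isCompact
      ((continuousOn_extChartAt x₀).mono hs)
  have hKt : K' ⊆ φ.target := by
    rintro _ ⟨p, hp, rfl⟩
    exact φ.map_source (hs hp)
  have hz : ∀ y ∉ K', pul n x₀ f y = 0 := by
    intro y hy
    unfold pul
    split_ifs with h
    · by_contra hne
      have h1 : φ.symm y ∈ tsupport f := by
        by_contra h2
        exact hne (image_eq_zero_of_notMem_tsupport h2)
      exact hy ⟨φ.symm y, h1, φ.right_inv h⟩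
    · rfl
  have hsub : Function.support (pul n x₀ f) ⊆ K' := by
    intro y hy
    by_contra h
    exact hy (hz y h)
  refine ⟨?_, HasCompactSupport.of_support_subset_isCompact hKc hsub,
    (closure_minimal hsub hKc.isClosed).trans hKt, ?_⟩
  · rw [contDiff_iff_contDiffAt]
    intro y
    by_cases hy : y ∈ K'
    · have hyt : y ∈ φ.target := hKt hy
      have hmem : φ.target ∈ 𝓝 y := (isOpen_extChartAt_target (I := 𝓡 n) x₀).mem_nhds hyt
      have hev : pul n x₀ f =ᶠ[𝓝 y] f ∘ φ.symm := by
        filter_upwards [hmem] with y' hy'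
        unfold pul
        rw [if_pos hy']
        rfl
      exact ((part3 x₀ f hf).contDiffAt hmem).congr_of_eventuallyEq hev
    · have hev : pul n x₀ f =ᶠ[𝓝 y] fun _ => (0 : ℝ) := by
        filter_upwards [hKc.isClosed.isOpen_compl.mem_nhds hy] with y' hy'
        exact hz y' hy'
      exact contDiffAt_const.congr_of_eventuallyEq hev
  · funext p
    unfold psh
    split_ifs with h
    · unfold pul
      rw [if_pos (φ.map_source h), ← hφ, φ.left_inv h]
    · symm
      apply image_eq_zero_of_notMem_tsupport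
      intro h1
      exact h (hs h1)

end Tkf

theorem s_tkf : S_TKF := by
  intro n M _ _ _ _ _ x₀
  refine ⟨fun u hu hc hs => Tkf.part1 x₀ u hu hc hs, fun f hf hs => Tkf.part2 x₀ f hf hs,
    fun f hf => Tkf.part3 x₀ f hf⟩

end Pool.Agent.H781.CM
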