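import Pool.Agent.H781.CM.GSpec

/-! Integrals of functions supported in a chart. -/

set_option autoImplicit false
set_option linter.unusedSectionVars false

open Bundle Manifold ContDiff VectorField MeasureTheory Filter
open scoped Topology

noncomputable section

namespace Pool.Agent.H781.CM

open Pool.Agent.H781.NG Pool.Agent.H821R2 Pool.Agent.H821R3 Pool.Agent.H893R5.HO
  Pool.Agent.H781.S22

namespace Tki

variable {n : ℕ} {M : Type} [TopologicalSpace M] [ChartedSpace (EU n) M]

lemma pul_ind (x₀ : M) (f : M → ℝ) (d : EU n → ℝ) :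
    (fun y => pul n x₀ f y * d y) = (extChartAt (𝓡 n) x₀).target.indicator
      (fun y => f ((extChartAt (𝓡 n) x₀).symm y) * d y) := by
  funext y
  unfold pul
  by_cases hy : y ∈ (extChartAt (𝓡 n) x₀).target
  · rw [Set.indicator_of_mem hy, if_pos hy]
  · rw [Set.indicator_of_notMem hy, if_neg hy, zero_mul]

lemma pul_sq (x₀ : M) (f : M → ℝ) (y : EU n) :
    pul n x₀ f y ^ 2 = pul n x₀ (fun p => f p ^ 2) y := by
  unfold pul
  by_cases hy : y ∈ (extChartAt (𝓡 n) x₀).target
  · rw [if_pos hy, if_pos hy]
  · rw [if_neg hy, if_neg hy]; norm_num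

/-- a map on the target of the chart -/
lemma mapeq [MeasurableSpace M] [BorelSpace M] (μ : Measure M) {T : Set (EU n)}
    {S : Set M} {φ : EU n → M} {D : EU n → ENNReal}
    (hφ : AEMeasurable φ (volume.restrict T))
    (H : ∀ f : M → ENNReal, Measurable f →
      ∫⁻ p in S, f p ∂μ = ∫⁻ y in T, f (φ y) * D y) :
    Measure.map φ ((volume.restrict T).withDensity D) = μ.restrict S := by
  have hφ' : AEMeasurable φ ((volume.restrict T).withDensity D) :=
    hφ.mono_ac (withDensity_absolutelyContinuous _ _)
  ext s hs
  rw [Measure.map_apply_of_aemeasurable hφ' hs, withDensity_apply']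
  have h1 := H (s.indicator 1) (measurable_one.indicator hs)
  rw [lintegral_indicator_one hs] at h1
  rw [h1, ← lintegral_indicator₀ (hφ.nullMeasurable hs)]
  refine lintegral_congr fun y => ?_
  by_cases hy : φ y ∈ s
  · rw [Set.indicator_of_mem (show y ∈ φ ⁻¹' s from hy), Set.indicator_of_mem hy, Pi.one_apply,
      one_mul]
  · rw [Set.indicator_of_notMem (show y ∉ φ ⁻¹' s from hy), Set.indicator_of_notMem hy, zero_mul]

end Tki

open Tki in
theorem s_tki : S_TKI := by
  intro n M _ _ _ _ _ _ _ μ _ x₀ d hd hd0 H
  set e := extChartAt (𝓡 n) x₀ with he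
  have hT : MeasurableSet e.target := (isOpen_extChartAt_target x₀).measurableSet
  have hφ : AEMeasurable e.symm (volume.restrict e.target) :=
    (continuousOn_extChartAt_symm x₀).aemeasurable hT
  have hD : AEMeasurable (fun y => ENNReal.ofReal (d y)) (volume.restrict e.target) :=
    (hd.continuousOn.aemeasurable hT).ennreal_ofReal
  have hDt : ∀ᵐ y ∂(volume.restrict e.target), ENNReal.ofReal (d y) < ⊤ :=
    Eventually.of_forall fun y => ENNReal.ofReal_lt_top
  have hmap := mapeq μ (S := e.source) hφ H
  have hφ' : AEMeasurable e.symm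
      ((volume.restrict e.target).withDensity fun y => ENNReal.ofReal (d y)) :=
    hφ.mono_ac (withDensity_absolutelyContinuous _ _)
  have hcongr : ∀ f : M → ℝ, ∀ y ∈ e.target,
      (ENNReal.ofReal (d y)).toReal • f (e.symm y) = f (e.symm y) * d y := by
    intro f y hy
    rw [ENNReal.toReal_ofReal (hd0 y hy).le, smul_eq_mul, mul_comm]
  have key : ∀ f : M → ℝ, Integrable f μ → Integrable (fun y => pul n x₀ f y * d y) ∧
      ∫ p in e.source, f p ∂μ = ∫ y, pul n x₀ f y * d y := by
    intro f hf
    have hfS : Integrable f (μ.restrict e.source) := hf.restrict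
    rw [← hmap] at hfS
    have h1 := (integrable_map_measure hfS.aestronglyMeasurable hφ').1 hfS
    rw [integrable_withDensity_iff_integrable_smul₀' hD hDt] at h1
    constructor
    · rw [pul_ind, integrable_indicator_iff hT]
      refine Integrable.congr h1 ?_
      rw [EventuallyEq, ae_restrict_iff' hT]
      exact Eventually.of_forall fun y hy => hcongr f y hy
    · rw [pul_ind, integral_indicator hT, ← hmap, integral_map hφ' hfS.aestronglyMeasurable,
        integral_withDensity_eq_integral_toReal_smul₀ hD hDt]
      exact setIntegral_congr_fun hT fun y hy => hcongr f y hy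
  refine ⟨key, ?_, ?_⟩
  · intro f hf
    have h1 := (key (fun p => f p ^ 2) hf.integrable_sq).1
    refine h1.congr (Eventually.of_forall fun y => ?_)
    simp only [pul_sq]
  · intro f g hfg
    have h1 : ∀ᵐ p ∂(μ.restrict e.source), f p = g p := ae_restrict_of_ae hfg
    rw [← hmap] at h1
    have h2 := ae_of_ae_map hφ' h1
    rw [ae_withDensity_iff' hD, ae_restrict_iff' hT] at h2
    filter_upwards [h2] with y hy hyT
    unfold pul
    rw [if_pos hyT, if_pos hyT]
    exact hy hyT (by rw [Ne, ENNReal.ofReal_eq_zero, not_le]; exact hd0 y hyT)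

end Pool.Agent.H781.CM
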