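import Pool.Agent.H781.CM.GSpec

/-!
Partition of unity with cut-off functions.
-/

set_option autoImplicit false
set_option synthInstance.maxHeartbeats 400000
set_option maxHeartbeats 4000000
set_option linter.unusedSectionVars false

open Bundle Manifold ContDiff VectorField MeasureTheory Filter
open scoped Topology

noncomputable section

namespace Pool.Agent.H781.CM

open Pool.Agent.H781.NG Pool.Agent.H821R2 Pool.Agent.H821R3 Pool.Agent.H893R5.HO
  Pool.Agent.H781.S22

namespace Tkp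

variable {n : ℕ} {M : Type} [TopologicalSpace M] [T2Space M] [CompactSpace M]
  [ChartedSpace (EU n) M] [IsManifold (𝓡 n) ∞ M]

/-- a finite cover by chart domains -/
theorem cover : ∃ (m : ℕ) (x : Fin m → M),
    (Set.univ : Set M) ⊆ ⋃ i, (extChartAt (𝓡 n) (x i)).source := by
  obtain ⟨t, ht⟩ := CompactSpace.elim_nhds_subcover
    (fun x : M => (extChartAt (𝓡 n) x).source) (fun x => extChartAt_source_mem_nhds (I := 𝓡 n) x)
  refine ⟨t.card, fun i => (t.equivFin.symm i).1, fun p _ => ?_⟩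
  have hp : p ∈ ⋃ x ∈ t, (extChartAt (𝓡 n) x).source := by
    rw [ht]
    exact Set.mem_univ p
  obtain ⟨x, hx, hpx⟩ := Set.mem_iUnion₂.1 hp
  refine Set.mem_iUnion.2 ⟨t.equivFin ⟨x, hx⟩, ?_⟩
  change p ∈ (extChartAt (𝓡 n) (t.equivFin.symm (t.equivFin ⟨x, hx⟩)).1).source
  rw [Equiv.symm_apply_apply]
  exact hpx

/-- a cut-off function -/
theorem cut {s U : Set M} (hs : IsClosed s) (hU : IsOpen U) (h : s ⊆ U) :
    ∃ η : SA n M, tsupport η.1 ⊆ U ∧ ∀ p ∈ s, ∀ᶠ q in 𝓝 p, evA q η = 1 := by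
  obtain ⟨u, u1, u2, u3⟩ := normal_exists_closure_subset hs hU h
  obtain ⟨f, f1, f2, -⟩ := exists_contMDiffMap_one_nhds_of_subset_interior (𝓡 n) (n := ⊤) hs
    (u2.trans (u1.interior_eq.symm.subset) : s ⊆ interior u)
  refine ⟨⟨f, f.contMDiff⟩, ?_, fun p hp => ?_⟩
  · refine (closure_mono ?_).trans u3
    intro q hq
    by_contra h1
    exact hq (f2 q h1)
  · exact (eventually_nhdsSet_iff_forall.1 f1) p hp

end Tkp

/-- partitions of unity with cut-off functions -/
theorem s_tkp : S_TKP := by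
  intro n M _ _ _ _ _
  obtain ⟨m, x, hx⟩ := Tkp.cover (n := n) (M := M)
  obtain ⟨f, hf⟩ := SmoothPartitionOfUnity.exists_isSubordinate (𝓡 n) isClosed_univ
    (fun i : Fin m => (extChartAt (𝓡 n) (x i)).source) (fun i => isOpen_extChartAt_source (x i)) hx
  have hη := fun i => Tkp.cut (n := n) (isClosed_tsupport (f i)) (isOpen_extChartAt_source (x i))
    (hf i)
  choose η h1 h2 using hη
  refine ⟨m, x, fun i => ⟨f i, (f i).contMDiff⟩, η, fun p => ?_, fun i p => ⟨f.nonneg i p, f.le_one i p⟩,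
    fun i => hf i, h1, h2⟩
  have h3 := f.sum_eq_one (Set.mem_univ p)
  rw [finsum_eq_sum_of_fintype] at h3
  exact h3

end Pool.Agent.H781.CM
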