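import Pool.Agent.H781.CM.GSpec

/-!
Vector fields and the metric in a chart: `S_TKV`.
-/

set_option autoImplicit false
set_option synthInstance.maxHeartbeats 400000
set_option maxHeartbeats 4000000
set_option linter.unusedSectionVars false

open Bundle Manifold ContDiff VectorField MeasureTheory Filter
open scoped Topology

noncomputable section

namespace Pool.Agent.H781.CM

open Pool.Agent.H781.NG Pool.Agent.H821R2 Pool.Agent.H821R3 Pool.Agent.H893R5.HO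
  Pool.Agent.H781.S22

namespace Tkv

variable {n : ℕ} {M : Type} [TopologicalSpace M] [ChartedSpace (EU n) M] [IsManifold (𝓡 n) ∞ M]
  (x₀ : M)

theorem inv1 {y : EU n} (hy : y ∈ (extChartAt (𝓡 n) x₀).target) :
    (mfderiv (𝓡 n) 𝓘(ℝ, EU n) (extChartAt (𝓡 n) x₀) ((extChartAt (𝓡 n) x₀).symm y)) ∘L
      (mfderiv 𝓘(ℝ, EU n) (𝓡 n) (extChartAt (𝓡 n) x₀).symm y) = ContinuousLinearMap.id _ _ := by
  have h := mfderiv_extChartAt_comp_mfderivWithin_extChartAt_symm (I := 𝓡 n) hy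
  rw [ModelWithCorners.range_eq_univ, mfderivWithin_univ] at h
  exact h

theorem inv2 {y : EU n} (hy : y ∈ (extChartAt (𝓡 n) x₀).target) :
    (mfderiv 𝓘(ℝ, EU n) (𝓡 n) (extChartAt (𝓡 n) x₀).symm y) ∘L
      (mfderiv (𝓡 n) 𝓘(ℝ, EU n) (extChartAt (𝓡 n) x₀) ((extChartAt (𝓡 n) x₀).symm y)) =
      ContinuousLinearMap.id _ _ := by
  have h := mfderivWithin_extChartAt_symm_comp_mfderiv_extChartAt (I := 𝓡 n) hy
  rw [ModelWithCorners.range_eq_univ, mfderivWithin_univ] at h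
  exact h

theorem symm_smooth : ContMDiffOn 𝓘(ℝ, EU n) (𝓡 n) ∞ (extChartAt (𝓡 n) x₀).symm
    (extChartAt (𝓡 n) x₀).target := contMDiffOn_extChartAt_symm x₀

theorem symm_mdiff {y : EU n} (hy : y ∈ (extChartAt (𝓡 n) x₀).target) :
    MDifferentiableAt 𝓘(ℝ, EU n) (𝓡 n) (extChartAt (𝓡 n) x₀).symm y :=
  ((symm_smooth x₀).contMDiffAt ((isOpen_extChartAt_target x₀).mem_nhds hy)).mdifferentiableAt
    (by simp)

/-- the coordinate fields are smooth -/
theorem cf_smooth (k : Fin n) : ContMDiffOn 𝓘(ℝ, EU n) (𝓡 n).tangent ∞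
    (fun y => (⟨(extChartAt (𝓡 n) x₀).symm y, cf x₀ k y⟩ : TangentBundle (𝓡 n) M))
    (extChartAt (𝓡 n) x₀).target := by
  have hopen : IsOpen (extChartAt (𝓡 n) x₀).target := isOpen_extChartAt_target x₀
  have h2 := (symm_smooth x₀).contMDiffOn_tangentMapWithin (m := ∞) (by simp)
    hopen.uniqueMDiffOn
  have h3 : ContMDiffOn 𝓘(ℝ, EU n) 𝓘(ℝ, EU n).tangent ∞
      (fun y : EU n => (⟨y, (EuclideanSpace.single k (1 : ℝ) : EU n)⟩ :
        TangentBundle 𝓘(ℝ, EU n) (EU n))) (extChartAt (𝓡 n) x₀).target :=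
    contMDiffOn_vectorSpace_iff_contDiffOn.2 contDiffOn_const
  have h4 := h2.comp h3 (fun y hy => hy)
  refine h4.congr fun y hy => ?_
  simp only [Function.comp_def, tangentMapWithin]
  rw [mfderivWithin_of_isOpen hopen hy]
  rfl

theorem Z_smooth {Z : VF n M} (hZ : SmV Z) : ContMDiffOn 𝓘(ℝ, EU n) (𝓡 n).tangent ∞
    (fun y => (⟨(extChartAt (𝓡 n) x₀).symm y, Z ((extChartAt (𝓡 n) x₀).symm y)⟩ :
      TangentBundle (𝓡 n) M)) (extChartAt (𝓡 n) x₀).target :=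
  hZ.comp_contMDiffOn (symm_smooth x₀)

theorem zc_smooth {Z : VF n M} (hZ : SmV Z) (k : Fin n) :
    ContDiffOn ℝ ∞ (zc x₀ Z k) (extChartAt (𝓡 n) x₀).target := by
  have hopen : IsOpen (extChartAt (𝓡 n) x₀).source := isOpen_extChartAt_source x₀
  have h1 : ContMDiffOn (𝓡 n) 𝓘(ℝ, EU n) ∞ (extChartAt (𝓡 n) x₀)
      (extChartAt (𝓡 n) x₀).source := by
    rw [extChartAt_source]
    exact contMDiffOn_extChartAt
  have h2 := h1.contMDiffOn_tangentMapWithin (m := ∞) (by simp) hopen.uniqueMDiffOn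
  have h3 := h2.comp (Z_smooth x₀ hZ) (fun y hy => (extChartAt (𝓡 n) x₀).map_target hy)
  have h4 := (contMDiff_snd_tangentBundle_modelSpace (n := ∞) (EU n)
    𝓘(ℝ, EU n)).comp_contMDiffOn h3
  have h5 : ContDiffOn ℝ ∞ (fun y => (show EU n from mfderiv (𝓡 n) 𝓘(ℝ, EU n)
      (extChartAt (𝓡 n) x₀) ((extChartAt (𝓡 n) x₀).symm y)
      (Z ((extChartAt (𝓡 n) x₀).symm y)))) (extChartAt (𝓡 n) x₀).target := by
    refine (contMDiffOn_iff_contDiffOn.1 h4).congr fun y hy => ?_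
    simp only [Function.comp_def, tangentMapWithin]
    rw [mfderivWithin_of_isOpen hopen ((extChartAt (𝓡 n) x₀).map_target hy)]
  exact (EuclideanSpace.proj (𝕜 := ℝ) k : EU n →L[ℝ] ℝ).contDiff.comp_contDiffOn h5

theorem eu_sum (v : EU n) : v = ∑ k, v k • (EuclideanSpace.single k (1 : ℝ) : EU n) := by
  ext i
  simp [Finset.sum_apply, Pi.single_apply]

theorem L_sum {y : EU n} (v : EU n) :
    (mfderiv 𝓘(ℝ, EU n) (𝓡 n) (extChartAt (𝓡 n) x₀).symm y) v = ∑ k, v k • cf x₀ k y := by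
  conv_lhs => rw [eu_sum v]
  unfold cf
  exact (map_sum (mfderiv 𝓘(ℝ, EU n) (𝓡 n) (extChartAt (𝓡 n) x₀).symm y) _ _).trans
    (Finset.sum_congr rfl fun k _ => map_smul _ _ _)

theorem comb (Z : VF n M) {y : EU n} (hy : y ∈ (extChartAt (𝓡 n) x₀).target) :
    Z ((extChartAt (𝓡 n) x₀).symm y) = ∑ k, zc x₀ Z k y • cf x₀ k y := by
  have h := congrArg (fun L => L (Z ((extChartAt (𝓡 n) x₀).symm y))) (inv2 x₀ hy)
  exact (Eq.symm h).trans (L_sum x₀ _)

theorem L_inj {y : EU n} (hy : y ∈ (extChartAt (𝓡 n) x₀).target) (v : EU n)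
    (hv : (mfderiv 𝓘(ℝ, EU n) (𝓡 n) (extChartAt (𝓡 n) x₀).symm y) v = 0) : v = 0 := by
  have h : (mfderiv (𝓡 n) 𝓘(ℝ, EU n) (extChartAt (𝓡 n) x₀) ((extChartAt (𝓡 n) x₀).symm y))
      ((mfderiv 𝓘(ℝ, EU n) (𝓡 n) (extChartAt (𝓡 n) x₀).symm y) v) = v :=
    congrArg (fun L => L v) (inv1 x₀ hy)
  rw [hv, map_zero] at h
  exact h.symm

theorem lin_ind {y : EU n} (hy : y ∈ (extChartAt (𝓡 n) x₀).target) :
    LinearIndependent ℝ (fun k => cf (M := M) x₀ k y) := by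
  rw [Fintype.linearIndependent_iff]
  intro c hc i
  have h1 := L_inj x₀ hy (WithLp.toLp 2 c) ((L_sum x₀ _).trans hc)
  have h2 := congrArg (fun v : EU n => v i) h1
  simpa using h2

theorem chain {f : M → ℝ} (hf : Sm (𝓡 n) f) {y : EU n}
    (hy : y ∈ (extChartAt (𝓡 n) x₀).target) (k : Fin n) :
    mvfderiv (𝓡 n) f ((extChartAt (𝓡 n) x₀).symm y) (cf x₀ k y) =
      pd k (f ∘ (extChartAt (𝓡 n) x₀).symm) y := by
  have h1 := mfderiv_comp y (Sm.mdiff hf ((extChartAt (𝓡 n) x₀).symm y)) (symm_mdiff x₀ hy)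
  rw [mfderiv_eq_fderiv] at h1
  have h2 := congrArg (fun L => L (EuclideanSpace.single k (1 : ℝ) : EU n)) h1
  exact h2.symm

theorem der_chart {Z : VF n M} {f : M → ℝ} (hf : Sm (𝓡 n) f) {y : EU n}
    (hy : y ∈ (extChartAt (𝓡 n) x₀).target) :
    der Z f ((extChartAt (𝓡 n) x₀).symm y) =
      ∑ k, zc x₀ Z k y * pd k (f ∘ (extChartAt (𝓡 n) x₀).symm) y := by
  rw [der_apply, comb x₀ Z hy, map_sum]
  refine Finset.sum_congr rfl fun k _ => ?_
  rw [map_smul, chain x₀ hf hy k, smul_eq_mul]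

theorem inner_smooth (g : Met n M) {s : Set (EU n)} {b : EU n → M}
    {v w : ∀ y, TangentSpace (𝓡 n) (b y)}
    (hv : ContMDiffOn 𝓘(ℝ, EU n) (𝓡 n).tangent ∞
      (fun y => (⟨b y, v y⟩ : TangentBundle (𝓡 n) M)) s)
    (hw : ContMDiffOn 𝓘(ℝ, EU n) (𝓡 n).tangent ∞
      (fun y => (⟨b y, w y⟩ : TangentBundle (𝓡 n) M)) s) :
    ContDiffOn ℝ ∞ (fun y => g.inner (b y) (v y) (w y)) s := by
  let _ : RiemannianBundle (fun x : M => TangentSpace (𝓡 n) x) := ⟨g.toRiemannianMetric⟩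
  exact contMDiffOn_iff_contDiffOn.1 (ContMDiffOn.inner_bundle (F := EU n)
    (E := fun x : M => TangentSpace (𝓡 n) x) (IB := 𝓡 n) hv hw)

theorem gm_apply (g : Met n M) (y : EU n) (k l : Fin n) :
    gm g x₀ y k l = g.inner ((extChartAt (𝓡 n) x₀).symm y) (cf x₀ k y) (cf x₀ l y) := rfl

theorem gm_pos (g : Met n M) {y : EU n} (hy : y ∈ (extChartAt (𝓡 n) x₀).target) :
    (gm g x₀ y).PosDef := by
  refine Matrix.PosDef.of_dotProduct_mulVec_pos ?_ fun x hx => ?_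
  · ext i j
    rw [Matrix.conjTranspose_apply, gm_apply, gm_apply, star_trivial]
    exact g.symm _ _ _
  · have h1 : (∑ k, x k • cf (M := M) x₀ k y) ≠ 0 := by
      intro h
      apply hx
      funext i
      exact Fintype.linearIndependent_iff.1 (lin_ind x₀ hy) x h i
    have h2 := g.pos ((extChartAt (𝓡 n) x₀).symm y) _ h1
    have h3 : g.inner ((extChartAt (𝓡 n) x₀).symm y) (∑ k, x k • cf (M := M) x₀ k y)
        (∑ k, x k • cf (M := M) x₀ k y) = star x ⬝ᵥ (gm g x₀ y).mulVec x := by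
      have e1 : g.inner ((extChartAt (𝓡 n) x₀).symm y) (∑ k, x k • cf (M := M) x₀ k y) =
          ∑ k, x k • g.inner ((extChartAt (𝓡 n) x₀).symm y) (cf (M := M) x₀ k y) :=
        (map_sum _ _ _).trans (Finset.sum_congr rfl fun k _ => map_smul _ _ _)
      rw [e1, sum_apply, dotProduct]
      refine Finset.sum_congr rfl fun i _ => ?_
      rw [smul_apply, map_sum, smul_eq_mul, Pi.star_apply,
        star_trivial, Matrix.mulVec, dotProduct]
      congr 1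
      refine Finset.sum_congr rfl fun j _ => ?_
      rw [map_smul, smul_eq_mul, gm_apply, mul_comm]
    rw [← h3]
    exact h2

end Tkv

theorem s_tkv : S_TKV := by
  intro n M _ _ _ _ _ x₀
  refine ⟨fun Z hZ k => Tkv.zc_smooth x₀ hZ k, fun Z y hy => Tkv.comb x₀ Z hy,
    fun f hf y hy k => Tkv.chain x₀ hf hy k, fun Z f _ hf y hy => Tkv.der_chart x₀ hf hy,
    fun y hy => Tkv.lin_ind x₀ hy, fun g => ⟨fun Z hZ k => ?_, fun k l => ?_,
      fun y hy => Tkv.gm_pos x₀ g hy⟩⟩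
  · exact Tkv.inner_smooth g (Tkv.cf_smooth x₀ k) (Tkv.Z_smooth x₀ hZ)
  · exact Tkv.inner_smooth g (Tkv.cf_smooth x₀ k) (Tkv.cf_smooth x₀ l)

end Pool.Agent.H781.CM
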