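import Pool.Agent.H781.CM.Abs
import Pool.Agent.H781.CM.AsmG
import Pool.Agent.H781.CM.AsmM
import Pool.Agent.H781.CM.Gfrm
import Pool.Agent.H781.CM.Cholg
import Pool.Agent.H781.CM.Pf
import Pool.Agent.H781.CM.Gfr
import Pool.Agent.H781.CM.Gcu
import Pool.Agent.H781.CM.Gbi
import Pool.Agent.H781.CM.Gcurv
import Pool.Agent.H781.CM.Tkf
import Pool.Agent.H781.CM.Tkv
import Pool.Agent.H781.CM.Tkp
import Pool.Agent.H781.CM.Tki
import Pool.Agent.H781.CM.Meas
import Pool.Agent.H781.CM.Divl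
import Pool.Agent.H781.CM.Divt
import Pool.Agent.H781.CM.Gmax
import Pool.Agent.H781.CM.Gdiam
import Pool.Agent.H781.CM.Gdense
import Pool.Agent.H781.CM.Lan
import Pool.Agent.H781.CM.Gmoll
import Pool.Agent.H781.CM.Sob
import Pool.Agent.H781.CM.Greg
import Pool.Agent.H781.CM.Phi
import Pool.Agent.H781.CM.Drf
import Pool.Agent.H781.CM.Drd
import Pool.Agent.H781.CM.Gdr
import Pool.Agent.H781.CM.Drv

/-!
Assembly of the geometric part.
-/

set_option autoImplicit false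

namespace Pool.Agent.H781.CM

theorem gd : S_GD :=
  s_gd (s_pf s_gfrm s_cholg) s_gfr s_gbi (s_meas s_tkv)
    (s_divt (s_divl s_tkv) s_tkf s_tkv s_tkp s_tki) s_tkv

theorem gcurv : S_GCURV := s_gcurv s_gcu rmp

theorem greg : S_GREG := s_greg s_sob s_tkf s_tkv s_tkp s_tki

theorem gdr : S_GDR := s_gdr (s_drf s_phi) (s_drd s_phi) ddh

theorem main0 (h : S_LMOLL) : S_MAIN :=
  s_main chi hodge gd gcurv s_gmax s_gdiam s_gdense (s_gmoll h s_tkp) greg gdr s_drv
    (fun M _ _ _ _ _ _ p => hf_fin0 M p)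

end Pool.Agent.H781.CM
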