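import Pool.Agent.H781.CM.SA
import Pool.Agent.H781.CM.Fin

/-!
Existence of a spectral gap: pigeonhole over the scales of the spectrum (helper282 for helper781).
-/

set_option autoImplicit false
set_option synthInstance.maxHeartbeats 400000
set_option maxHeartbeats 4000000
set_option linter.unusedSectionVars false

open MeasureTheory Filter
open scoped Topology ContDiff

noncomputable section

namespace Pool.Agent.H781.CM

open Pool.Agent.H781.NG

/-- **existence of a gap** -/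
theorem s_gapx (h2 : S_DIM) (h3 : S_POIN) (h5 : S_SPEC) : S_GAPX := by
  intro N hN δ₁ hδ₁
  have hNr : (0 : ℝ) < N := by exact_mod_cast hN
  have hL : 0 < Real.log 2 := Real.log_pos (by norm_num)
  obtain ⟨K, hK⟩ : ∃ K : ℝ, K = 32 * N / Real.log 2 ^ 2 := ⟨_, rfl⟩
  have hK0 : 0 ≤ K := by rw [hK]; positivity
  obtain ⟨δ₂, hδ₂, H2⟩ := h2 N K hK0
  obtain ⟨δ, hδ⟩ : ∃ δ : ℝ, δ = min δ₁ (min δ₂ 1) := ⟨_, rfl⟩
  have hδ0 : 0 < δ := by rw [hδ]; exact lt_min hδ₁ (lt_min hδ₂ one_pos)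
  have hd1 : δ ≤ δ₁ := by rw [hδ]; exact min_le_left _ _
  have hd2 : δ ≤ δ₂ := by rw [hδ]; exact (min_le_right _ _).trans (min_le_left _ _)
  have hd3 : δ ≤ 1 := by rw [hδ]; exact (min_le_right _ _).trans (min_le_right _ _)
  obtain ⟨κ, hκ⟩ : ∃ κ : ℝ, κ = 2 / δ := ⟨_, rfl⟩
  have hκ2 : 1 ≤ κ := by
    rw [hκ, le_div_iff₀ hδ0]
    linarith
  have hκ0 : 0 < κ := by linarith
  have hδκ : δ * κ = 2 := by
    rw [hκ]
    field_simp
  obtain ⟨m, hm⟩ : ∃ m : ℕ, m = 2 ^ N := ⟨_, rfl⟩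
  obtain ⟨s, hs⟩ : ∃ s : ℝ, s = Real.log 2 ^ 2 / (32 * N) := ⟨_, rfl⟩
  have hs0 : 0 < s := by rw [hs]; positivity
  obtain ⟨T₀, hT₀⟩ : ∃ T₀ : ℝ, T₀ = min (δ / 2) s / κ ^ (m + 1) := ⟨_, rfl⟩
  have hT0 : 0 < T₀ := by
    rw [hT₀]
    exact div_pos (lt_min (by linarith) hs0) (by positivity)
  have hTm : T₀ * κ ^ (m + 1) = min (δ / 2) s := by
    rw [hT₀]
    field_simp
  have hTle : ∀ j, j ≤ m + 1 → T₀ * κ ^ j ≤ min (δ / 2) s := by
    intro j hj
    rw [← hTm]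
    exact mul_le_mul_of_nonneg_left (pow_le_pow_right₀ hκ2 hj) hT0.le
  have hTge : ∀ j, T₀ ≤ T₀ * κ ^ j := by
    intro j
    have := mul_le_mul_of_nonneg_left (one_le_pow₀ hκ2 (n := j)) hT0.le
    linarith
  obtain ⟨ε, hε⟩ : ∃ ε : ℝ, ε = min (T₀ / N ^ 2) (Real.log 2 ^ 2 / (8 * N ^ 2)) := ⟨_, rfl⟩
  have hε0 : 0 < ε := by
    rw [hε]
    exact lt_min (by positivity) (by positivity)
  have hε1 : ε * N ^ 2 ≤ T₀ := by
    have : ε ≤ T₀ / N ^ 2 := by rw [hε]; exact min_le_left _ _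
    rwa [le_div_iff₀ (by positivity)] at this
  have hε2 : 8 * N ^ 2 * ε ≤ Real.log 2 ^ 2 := by
    have : ε ≤ Real.log 2 ^ 2 / (8 * N ^ 2) := by rw [hε]; exact min_le_right _ _
    rw [le_div_iff₀ (by positivity)] at this
    linarith
  refine ⟨ε, hε0, ?_⟩
  intro M _ _ _ _ C hC hMoll hDen hReg hMax hDiam
  obtain ⟨P1, P2⟩ := h3 M N C ε hN hε0.le hC hMax hDiam hMoll hDen hReg hε2
  rw [← hK] at P1
  rw [← hs] at P2
  have hfin : ∀ j, Module.Finite ℝ (Ev C (T₀ * κ ^ j)) := fun j =>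
    (h5 M N C hMoll hDen hReg (T₀ * κ ^ j) (by positivity)).1
  have hdim : ∀ j, j ≤ m + 1 → Module.finrank ℝ (Ev C (T₀ * κ ^ j)) ≤ 2 ^ N := by
    intro j hj
    refine H2 M C ε (T₀ * κ ^ j) hε0.le hC hMoll hDen hReg P1 (by positivity) ?_
    have a1 := (hTle j hj).trans (min_le_left _ _)
    have a2 := hTge j
    linarith
  have hmon : ∀ j, T₀ * κ ^ j ≤ T₀ * κ ^ (j + 1) := fun j =>
    mul_le_mul_of_nonneg_left (pow_le_pow_right₀ hκ2 (Nat.le_succ j)) hT0.le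
  obtain ⟨j, hj, hje⟩ := Fin.pigeon m (fun j => Module.finrank ℝ (Ev C (T₀ * κ ^ j)))
    (fun j _ => by
      have := hfin (j + 1)
      exact Submodule.finrank_mono (Fin.Ev_mono C (hmon j)))
    ((hdim (m + 1) le_rfl).trans_eq hm.symm)
  have hEq : Ev C (T₀ * κ ^ (j + 1)) = Ev C (T₀ * κ ^ j) := by
    have := hfin (j + 1)
    exact (Submodule.eq_of_le_of_finrank_eq (Fin.Ev_mono C (hmon j)) hje).symm
  have a1 := (hTle j (by omega)).trans (min_le_left _ _)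
  have a1' := (hTle j (by omega)).trans (min_le_right _ _)
  have a2 := hTge j
  have hT0j : 0 < T₀ * κ ^ j := by positivity
  refine ⟨T₀ * κ ^ j, T₀ * κ ^ (j + 1), ?_⟩
  exact {
    e0 := hε0.le
    cv := hC
    mo := hMoll
    de := hDen
    re := hReg
    po := by
      unfold KN
      rw [← hK]
      exact P1
    t0 := hT0j
    tt := hmon j
    ev := hEq
    s1 := by linarith
    s2 := by
      have e1 : δ * (T₀ * κ ^ (j + 1)) = 2 * (T₀ * κ ^ j) := by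
        rw [pow_succ]
        calc δ * (T₀ * (κ ^ j * κ)) = (δ * κ) * (T₀ * κ ^ j) := by ring
          _ = _ := by rw [hδκ]
      have e2 : δ * (T₀ * κ ^ (j + 1)) ≤ δ₁ * (T₀ * κ ^ (j + 1)) :=
        mul_le_mul_of_nonneg_right hd1 (by positivity)
      linarith
    v0 := by
      intro u hu
      refine P2 u ?_
      rw [Evp, Submodule.mem_inf] at hu ⊢
      exact ⟨Fin.Ev_mono C a1' hu.1, hu.2⟩
    fr := hdim j (by omega) }

end Pool.Agent.H781.CM
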