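import Pool.Agent.H781.CM.SG

/-!
The trace of the tangential projection (helper549): proof of `S_GTR`.
-/

set_option autoImplicit false
set_option synthInstance.maxHeartbeats 400000
set_option maxHeartbeats 4000000
set_option linter.unusedSectionVars false

open Bundle Manifold ContDiff VectorField MeasureTheory Filter
open scoped Topology

noncomputable section

namespace Pool.Agent.H781.CM

namespace Gtr

open Pool.Agent.H781.NG Pool.Agent.H821R2 Pool.Agent.H821R3 Pool.Agent.H893R5.HO
  Pool.Agent.H781.S22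

variable {n : ℕ} {M : Type} [TopologicalSpace M] [ChartedSpace (EU n) M] [IsManifold (𝓡 n) ∞ M]
  {g : Met n M} {N : ℕ}

/-- the rank one map `v ↦ ⟨v, X_a⟩ X_a` -/
def rk (T : PF g N) (p : M) (a : Fin N) :
    TangentSpace (𝓡 n) p →ₗ[ℝ] TangentSpace (𝓡 n) p :=
  ((g.inner p (T.X a p)).toLinearMap : TangentSpace (𝓡 n) p →ₗ[ℝ] ℝ).smulRight (T.X a p)

theorem sum_rk (T : PF g N) (p : M) : ∑ a, rk T p a = LinearMap.id := by
  apply LinearMap.ext
  intro v
  rw [LinearMap.sum_apply]
  refine Eq.trans (Finset.sum_congr rfl fun a _ => ?_) (T.par p v)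
  change g.inner p (T.X a p) v • T.X a p = g.inner p v (T.X a p) • T.X a p
  rw [g.symm p (T.X a p) v]

theorem finrank_T (p : M) : Module.finrank ℝ (TangentSpace (𝓡 n) p) = n := by
  change Module.finrank ℝ (EuclideanSpace ℝ (Fin n)) = n
  exact finrank_euclideanSpace_fin

theorem trace_rk (T : PF g N) (p : M) (a : Fin N) :
    LinearMap.trace ℝ (TangentSpace (𝓡 n) p) (rk T p a) = g.inner p (T.X a p) (T.X a p) := by
  have h1 : Module.Finite ℝ (TangentSpace (𝓡 n) p) :=
    inferInstanceAs (Module.Finite ℝ (EuclideanSpace ℝ (Fin n)))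
  unfold rk
  rw [LinearMap.trace_smulRight]
  rfl

theorem sum_inner (T : PF g N) (p : M) :
    ∑ a, g.inner p (T.X a p) (T.X a p) = (n : ℝ) := by
  have h1 : Module.Finite ℝ (TangentSpace (𝓡 n) p) :=
    inferInstanceAs (Module.Finite ℝ (EuclideanSpace ℝ (Fin n)))
  have h2 := congrArg (LinearMap.trace ℝ (TangentSpace (𝓡 n) p)) (sum_rk T p)
  rw [map_sum, LinearMap.trace_id, finrank_T] at h2
  rw [← h2]
  exact Finset.sum_congr rfl fun a _ => (trace_rk T p a).symm

end Gtr

theorem s_gtr : S_GTR := by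
  intro n M _ _ _ _ _ _ _ N D _
  change ∑ a, Pm D.T a a = (n : SA n M)
  apply ext_evA
  intro p
  rw [map_sum, map_natCast]
  exact Gtr.sum_inner D.T p

end Pool.Agent.H781.CM
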