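import Pool.Agent.H781.CM.SG

/-!
The volume form of an oriented closed 4-manifold as a normalised horizontal element of degree four.
-/

set_option autoImplicit false
set_option synthInstance.maxHeartbeats 400000
set_option maxHeartbeats 4000000
set_option linter.unusedSectionVars false

open Bundle Manifold ContDiff VectorField MeasureTheory Filter
open scoped Topology

noncomputable section

namespace Pool.Agent.H781.CM

open Pool.Agent.H781.NG Pool.Agent.H821R2 Pool.Agent.H821R3 Pool.Agent.H893R5.HO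
  Pool.Agent.H781.S22

namespace Gw4

theorem hor_smul {M : Type} [TopologicalSpace M] [CompactSpace M] [MeasurableSpace M]
    [BorelSpace M] {N : ℕ} (C : CD M N) (f : C.A) {u : Fk N C.A} (hu : Hor C u) :
    Hor C (f • u) := by
  intro c
  rw [map_smul, hu c, Finset.smul_sum]
  refine Finset.sum_congr rfl fun a _ => ?_
  rw [map_smul, smul_comm]

theorem ev_ip {M : Type} [TopologicalSpace M] [CompactSpace M] [MeasurableSpace M]
    [BorelSpace M] {N : ℕ} (C : CD M N) (x : M) (u : Fk N C.A) :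
    C.ev x (ip u u) = ∑ S, C.ev x (u S) * C.ev x (u S) := by
  unfold ip
  rw [map_sum]
  exact Finset.sum_congr rfl fun S _ => map_mul _ _ _

/-- the abstract normalisation -/
theorem norm_form {M : Type} [TopologicalSpace M] [CompactSpace M] [MeasurableSpace M]
    [BorelSpace M] {N : ℕ} (C : CD M N) (u : Fk N C.A) (hpos : ∀ x, 0 < C.ev x (ip u u)) :
    ∃ s : C.A, (∀ x, C.ev x s = 1 / √(C.ev x (ip u u))) ∧ ip (s • u) (s • u) = 1 := by
  have hφ : ContDiffOn ℝ ∞ (fun t : ℝ => 1 / √t) (Set.Ioi 0) := by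
    intro t ht
    have ht' : (t : ℝ) ≠ 0 := ne_of_gt ht
    have h1 : ContDiffAt ℝ ∞ (fun t : ℝ => √t) t := Real.contDiffAt_sqrt ht'
    have h2 : √t ≠ 0 := (Real.sqrt_pos.2 ht).ne'
    exact (contDiffAt_const.div h1 h2).contDiffWithinAt
  obtain ⟨s, hs⟩ := C.comp (ip u u) (fun t : ℝ => 1 / √t) (Set.Ioi 0) isOpen_Ioi hφ hpos
  refine ⟨s, hs, ?_⟩
  apply C.ext_ev
  intro x
  rw [ip_smul_left, ip_smul_right, map_mul, map_mul, hs x, map_one]
  have h1 : (0:ℝ) < √(C.ev x (ip u u)) := Real.sqrt_pos.2 (hpos x)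
  have h2 : √(C.ev x (ip u u)) * √(C.ev x (ip u u)) = C.ev x (ip u u) :=
    Real.mul_self_sqrt (hpos x).le
  field_simp
  rw [pow_two, h2]

end Gw4

theorem s_gw4 (h1 : S_DRF) (h2 : S_GTR) (h3 : S_PHI) (h4 : S_LIN4) : S_GW4 := by
  intro M _ _ _ _ _ _ _ N D Ω hΩ hne
  obtain ⟨Φ, hΦ, -, hsm⟩ := h1 4 M N D (by norm_num) 4
  obtain ⟨u, hu⟩ := (hsm Ω).1 hΩ
  have hlin := (h3 N 4).1
  have hΩu : ∀ (x : M) (v : Fin 4 → TangentSpace (𝓡 4) x), Ω x v =
      phi 4 (fun i a => D.g.inner x (v i) (D.T.X a x))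
        (fun S => evA x ((u : Fk N D.C.A) S)) := by
    intro x v
    rw [← hu]
    exact hΦ u x v
  have hpos : ∀ x, 0 < D.C.ev x (ip (u : Fk N D.C.A) (u : Fk N D.C.A)) := by
    intro x
    rw [Gw4.ev_ip]
    have h0 : 0 ≤ ∑ S, D.C.ev x ((u : Fk N D.C.A) S) * D.C.ev x ((u : Fk N D.C.A) S) :=
      Finset.sum_nonneg fun S _ => mul_self_nonneg _
    rcases h0.lt_or_eq with h | h
    · exact h
    · exfalso
      have h5 := (Finset.sum_eq_zero_iff_of_nonneg
        (fun S _ => mul_self_nonneg (D.C.ev x ((u : Fk N D.C.A) S)))).1 h.symm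
      have h6 : (fun S => evA x ((u : Fk N D.C.A) S)) = (0 : Fk N ℝ) := by
        funext S
        exact mul_self_eq_zero.1 (h5 S (Finset.mem_univ S))
      apply hne x
      refine AlternatingMap.ext fun v => ?_
      rw [hΩu x v, h6]
      exact (hlin _).map_zero
  obtain ⟨s, hs, hW⟩ := Gw4.norm_form D.C (u : Fk N D.C.A) hpos
  have hu2 : Hor D.C (u : Fk N D.C.A) ∧ Deg 4 (u : Fk N D.C.A) := u.2
  refine ⟨s • (u : Fk N D.C.A), fun x => √(D.C.ev x (ip (u : Fk N D.C.A) (u : Fk N D.C.A))),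
    ⟨Gw4.hor_smul D.C s hu2.1, ?_, hW, ?_⟩, fun x => Real.sqrt_pos.2 (hpos x),
    Real.continuous_sqrt.comp (D.C.cont _), ?_⟩
  · intro S hS
    rw [Pi.smul_apply, hu2.2 S hS, smul_zero]
  · have := h2 4 M N D (by norm_num)
    rw [this]
    norm_num
  · intro x v
    have e : (fun S => evA x ((s • (u : Fk N D.C.A)) S)) =
        (D.C.ev x s) • (fun S => evA x ((u : Fk N D.C.A) S) : Fk N ℝ) := by
      funext S
      rw [Pi.smul_apply, Pi.smul_apply, smul_eq_mul, smul_eq_mul]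
      exact map_mul (evA x) s ((u : Fk N D.C.A) S)
    have e2 := (hlin (fun i a => D.g.inner x (v i) (D.T.X a x))).map_smul (D.C.ev x s)
      (fun S => evA x ((u : Fk N D.C.A) S) : Fk N ℝ)
    rw [hΩu x v, e, e2, hs x, smul_eq_mul, ← mul_assoc, mul_one_div,
      div_self (Real.sqrt_pos.2 (hpos x)).ne', one_mul]

end Pool.Agent.H781.CM
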