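import Pool.Agent.H781.CM.SA
import Pool.Agent.H781.CM.Hod

/-!
Hodge theorem for harmonic forms.
-/

set_option autoImplicit false
set_option synthInstance.maxHeartbeats 400000
set_option maxHeartbeats 4000000
set_option linter.unusedSectionVars false

open MeasureTheory Filter
open scoped Topology ContDiff

noncomputable section

namespace Pool.Agent.H781.CM

open Pool.Agent.H781.NG

namespace Harm

open Hod

section Degs

variable {N : ℕ} {A : Type*} [CommRing A] [Algebra ℝ A]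

/-- operators lowering the degree by one -/
theorem dpt_down (T : Fk N A →ₗ[ℝ] Fk N A) (hT : ∀ p u, Deg (p + 1) u → Deg p (T u))
    (hT0 : ∀ u, Deg 0 u → T u = 0) (p : ℕ) (u : Fk N A) :
    dpt p (T u) = T (dpt (p + 1) u) := by
  have key : ∀ q, q ≠ p + 1 → dpt p (T (dpt q u)) = 0 := by
    intro q hq
    cases q with
    | zero => rw [hT0 _ (deg_dpt 0 u), dpt_zero]
    | succ q => exact dpt_ne (by omega) (hT _ _ (deg_dpt (q + 1) u))
  conv_lhs => rw [← sum_dpt u]
  rw [map_sum, dpt_sum]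
  by_cases hp : p + 1 ∈ Finset.range (N + 1)
  · rw [Finset.sum_eq_single_of_mem (p + 1) hp (fun q _ hq => key q hq)]
    exact dpt_self (hT _ _ (deg_dpt (p + 1) u))
  · rw [dpt_big (by rw [Finset.mem_range] at hp; omega) u, map_zero]
    refine Finset.sum_eq_zero fun q hq => key q ?_
    rintro rfl
    exact hp hq

end Degs

variable {M : Type} [TopologicalSpace M] [CompactSpace M] [MeasurableSpace M] [BorelSpace M]
  {N : ℕ} (C : CD M N)

theorem main (h1 : S_SPEC) (h2 : S_DDH) (hM : Moll C) (hD : Dense2 C) (hR : Reg C) (p : ℕ) :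
    Module.Finite ℝ (Hm C p) ∧ Module.finrank ℝ (Hm C p) = bet C p ∧
    (∀ u ∈ Zp C p, ∃ h ∈ Hm C p, u - h ∈ Bp C p) ∧ ∀ h ∈ Hm C p, h ∈ Bp C p → h = 0 := by
  obtain ⟨_, hHd, hHe, _, hGd, hGe, hGe0, hdd, hee, hadj, hDadj, hnqD, hnq⟩ := h2 M N C
  obtain ⟨hfin, hE, _, hproj, hsol, _⟩ := h1 M N C hM hD hR 1 one_pos
  have := hfin
  have hddadd : ∀ u v : Fk N C.A, dd C.F (u + v) = dd C.F u + dd C.F v :=
    fun u v => map_add (ddL C.F) u v
  have hdeadd : ∀ u v : Fk N C.A, de C.F (u + v) = de C.F u + de C.F v :=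
    fun u v => map_add (deL C.F) u v
  have hdd0 : dd C.F 0 = 0 := map_zero (ddL C.F)
  have hde0 : de C.F 0 = 0 := map_zero (deL C.F)
  have hDD0 : DD C 0 = 0 := by
    unfold DD
    rw [hdd0, hde0, add_zero]
  have hDDadd : ∀ u v : Fk N C.A, DD C (u + v) = DD C u + DD C v := by
    intro u v
    unfold DD
    rw [hddadd, hdeadd]
    abel
  have hDDsmul : ∀ (c : ℝ) (u : Fk N C.A), DD C (c • u) = c • DD C u := by
    intro c u
    unfold DD
    rw [smul_add]
    exact congrArg₂ (· + ·) (map_smul (ddL C.F) c u) (map_smul (deL C.F) c u)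
  -- harmonic forms of mixed degree
  have hnn : ∀ u : Fk N C.A, 0 ≤ nq C u := fun u => nq_nonneg C u
  have hharm : ∀ h : Fk N C.A, Hor C h → DD C (DD C h) = 0 → dd C.F h = 0 ∧ de C.F h = 0 := by
    intro h hh hz
    have e1 : nq C (DD C h) = 0 := by
      rw [← pr_self, hDadj, hz, pr_comm, pr_zero_left]
    rw [hnqD h hh] at e1
    have a1 := hnn (dd C.F h)
    have a2 := hnn (de C.F h)
    exact ⟨hnq _ (by linarith), hnq _ (by linarith)⟩
  -- decomposition of the elements of `E`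
  have hdecE : ∀ f ∈ Ev C 1, ∃ h γ : Fk N C.A, Hor C h ∧ DD C (DD C h) = 0 ∧ Hor C γ ∧
      f = h + DD C (DD C γ) := by
    intro f hf
    unfold Ev at hf
    induction hf using Submodule.span_induction with
    | mem u hu =>
      obtain ⟨hu1, l, hl0, hl1, hu2⟩ := hu
      by_cases hl : l = 0
      · refine ⟨u, 0, hu1, ?_, (HorS C).zero_mem, ?_⟩
        · rw [hu2, hl, zero_smul]
        · rw [hDD0, hDD0, add_zero]
      · refine ⟨0, l⁻¹ • u, (HorS C).zero_mem, ?_, (HorS C).smul_mem _ hu1, ?_⟩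
        · rw [hDD0, hDD0]
        · rw [hDDsmul, hDDsmul, hu2, smul_smul, inv_mul_cancel₀ hl, one_smul, zero_add]
    | zero =>
      refine ⟨0, 0, (HorS C).zero_mem, ?_, (HorS C).zero_mem, ?_⟩
      · rw [hDD0, hDD0]
      · rw [hDD0, hDD0, add_zero]
    | add x y _ _ hx hy =>
      obtain ⟨a, b, a1, a2, a3, a4⟩ := hx
      obtain ⟨c, d, c1, c2, c3, c4⟩ := hy
      refine ⟨a + c, b + d, (HorS C).add_mem a1 c1, ?_, (HorS C).add_mem a3 c3, ?_⟩
      · rw [hDDadd, hDDadd, a2, c2, add_zero]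
      · rw [a4, c4, hDDadd, hDDadd]
        abel
    | smul r x _ hx =>
      obtain ⟨a, b, a1, a2, a3, a4⟩ := hx
      refine ⟨r • a, r • b, (HorS C).smul_mem _ a1, ?_, (HorS C).smul_mem _ a3, ?_⟩
      · rw [hDDsmul, hDDsmul, a2, smul_zero]
      · rw [a4, hDDsmul, hDDsmul, smul_add]
  -- decomposition of all forms
  have hdec : ∀ f : Fk N C.A, Hor C f → ∃ h γ : Fk N C.A, Hor C h ∧ DD C (DD C h) = 0 ∧
      Hor C γ ∧ f = h + DD C (DD C γ) := by
    intro f hf
    obtain ⟨f1, hf1, ho⟩ := hproj f hf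
    obtain ⟨h, γ, b1, b2, b3, b4⟩ := hdecE f1 hf1
    obtain ⟨γ2, c1, c2⟩ := hsol (f - f1) ((HorS C).sub_mem hf (hE f1 hf1).1) ho
    refine ⟨h, γ + γ2, b1, b2, (HorS C).add_mem b3 c1, ?_⟩
    rw [hDDadd, hDDadd, c2, ← add_assoc, ← b4]
    abel
  have hup : ∀ p (u : Fk N C.A), dpt (p + 1) (dd C.F u) = dd C.F (dpt p u) :=
    fun p u => dpt_up (ddL C.F) hGd p u
  have hup0 : ∀ (u : Fk N C.A), dpt 0 (dd C.F u) = 0 :=
    fun u => dpt_up_zero (ddL C.F) hGd u
  have hdn : ∀ p (u : Fk N C.A), dpt p (de C.F u) = de C.F (dpt (p + 1) u) :=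
    fun p u => dpt_down (deL C.F) hGe hGe0 p u
  -- (D)
  have hZ : ∀ u ∈ Zp C p, ∃ h ∈ Hm C p, u - h ∈ Bp C p := by
    rintro u ⟨⟨huH, huD⟩, huk⟩
    have huk' : dd C.F u = 0 := huk
    obtain ⟨h, γ, b1, b2, b3, b4⟩ := hdec u huH
    obtain ⟨hh1, hh2⟩ := hharm h b1 b2
    have e1 : DD C (DD C γ) = dd C.F (de C.F γ) + de C.F (dd C.F γ) := by
      unfold DD
      rw [hddadd, hdeadd, hdd γ b3, hee γ b3]
      abel
    have e2 : dd C.F (de C.F (dd C.F γ)) = 0 := by
      have := huk'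
      rw [b4, e1, hddadd, hddadd, hh1, hdd _ (hHe γ b3), zero_add, zero_add] at this
      exact this
    have e3 : de C.F (dd C.F γ) = 0 := by
      refine hnq _ ?_
      rw [← pr_self, ← hadj, e2, pr_zero_left]
    have e4 : u = h + dd C.F (de C.F γ) := by
      rw [b4, e1, e3, add_zero]
    have e5 : u - dpt p h = dpt p (dd C.F (de C.F γ)) := by
      have h6 : dpt p u = u := dpt_self huD
      rw [e4, dpt_add] at h6
      rw [sub_eq_iff_eq_add, add_comm, e4]
      exact h6.symm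
    refine ⟨dpt p h, ⟨⟨⟨hor_dpt C p b1, deg_dpt p h⟩, ?_⟩, ?_⟩, ?_⟩
    · change dd C.F (dpt p h) = 0
      rw [← hup, hh1, dpt_zero]
    · change de C.F (dpt p h) = 0
      cases p with
      | zero => exact hGe0 _ (deg_dpt 0 h)
      | succ p => rw [← hdn, hh2, dpt_zero]
    · rw [e5]
      cases p with
      | zero =>
        rw [hup0]
        exact Submodule.zero_mem _
      | succ p =>
        rw [hup]
        exact ⟨dpt p (de C.F γ), ⟨hor_dpt C p (hHe γ b3), deg_dpt p _⟩, rfl⟩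
  -- (E)
  have hU : ∀ h ∈ Hm C p, h ∈ Bp C p → h = 0 := by
    rintro h ⟨⟨⟨hhH, hhD⟩, hhd⟩, hhe⟩ hB
    have hhe' : de C.F h = 0 := hhe
    cases p with
    | zero => exact hB
    | succ p =>
      obtain ⟨b, ⟨hbH, hbD⟩, hbh⟩ := hB
      have hbh' : dd C.F b = h := hbh
      refine hnq _ ?_
      rw [← pr_self]
      have : pr C (dd C.F b) h = 0 := by
        rw [hadj, hhe', pr_comm, pr_zero_left]
      rwa [hbh'] at this
  have hle : Hm C p ≤ Ev C 1 := by
    rintro u ⟨⟨⟨hH, _⟩, hd⟩, he⟩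
    have hd' : dd C.F u = 0 := hd
    have he' : de C.F u = 0 := he
    refine Submodule.subset_span ⟨hH, 0, le_rfl, zero_le_one, ?_⟩
    have : DD C u = 0 := by
      unfold DD
      rw [hd', he', add_zero]
    rw [this, hDD0, zero_smul]
  have hf : FiniteDimensional ℝ (Hm C p) := Submodule.finiteDimensional_of_le (S₂ := Ev C 1) hle
  refine ⟨hf, ?_, hZ, hU⟩
  have habs := (absq (Zp C p) (Bp C p) (Hm C p) ⊥ ?_ bot_le bot_le ?_ ?_).2
  · rw [finrank_bot, add_zero] at habs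
    exact habs.symm
  · rintro u ⟨⟨h, hd⟩, _⟩
    exact ⟨h, hd⟩
  · rintro u ⟨h, hB⟩
    exact hU u h hB
  · intro u hu
    obtain ⟨h, hh, hb⟩ := hZ u hu
    have : u = h + (u - h) := by abel
    rw [this]
    exact Submodule.add_mem_sup hh hb

end Harm

/-- Hodge theorem for harmonic forms -/
theorem s_harm (h1 : S_SPEC) (h2 : S_DDH) : S_HARM := by
  intro M _ _ _ _ N C hM hD hR p
  exact Harm.main C h1 h2 hM hD hR p

end Pool.Agent.H781.CM
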