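import Pool.Agent.H781.CM.SA

/-!
The volume element of a 4-dimensional subspace of `ℝ^N` (S2-1, by helper967 for helper781).
-/

set_option autoImplicit false
set_option synthInstance.maxHeartbeats 400000
set_option maxHeartbeats 4000000

noncomputable section

namespace Pool.Agent.H781.CM

open Pool.Agent.H781.NG

namespace Lin4

variable {N : ℕ}

/-- creation operator of a vector -/
def Cv (t : Fin N → ℝ) : Fk N ℝ →ₗ[ℝ] Fk N ℝ := ∑ a, t a • cr a

/-- annihilation operator of a vector -/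
def Av (t : Fin N → ℝ) : Fk N ℝ →ₗ[ℝ] Fk N ℝ := ∑ a, t a • an a

theorem Cv_apply (t : Fin N → ℝ) (u : Fk N ℝ) : Cv t u = ∑ a, t a • cr a u := by
  unfold Cv
  rw [LinearMap.sum_apply]
  rfl

theorem Av_apply (t : Fin N → ℝ) (u : Fk N ℝ) : Av t u = ∑ a, t a • an a u := by
  unfold Av
  rw [LinearMap.sum_apply]
  rfl

theorem car_v (s t : Fin N → ℝ) (u : Fk N ℝ) :
    Av s (Cv t u) + Cv t (Av s u) = (∑ a, s a * t a) • u := by
  have h1 : Av s (Cv t u) = ∑ a, ∑ b, (s a * t b) • an a (cr b u) := by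
    rw [Av_apply]
    refine Finset.sum_congr rfl fun a _ => ?_
    rw [Cv_apply, map_sum, Finset.smul_sum]
    exact Finset.sum_congr rfl fun b _ => by rw [map_smul, smul_smul]
  have h2 : Cv t (Av s u) = ∑ a, ∑ b, (s a * t b) • cr b (an a u) := by
    rw [Cv_apply, Finset.sum_comm]
    refine Finset.sum_congr rfl fun b _ => ?_
    rw [Av_apply, map_sum, Finset.smul_sum]
    exact Finset.sum_congr rfl fun a _ => by rw [map_smul, smul_smul, mul_comm]
  rw [h1, h2, ← Finset.sum_add_distrib, Finset.sum_smul]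
  refine Finset.sum_congr rfl fun a _ => ?_
  rw [← Finset.sum_add_distrib]
  have h3 : ∀ b, (s a * t b) • an a (cr b u) + (s a * t b) • cr b (an a u) =
      if a = b then (s a * t b) • u else 0 := by
    intro b
    rw [← smul_add, car]
    split_ifs
    · rfl
    · rw [smul_zero]
  rw [Finset.sum_congr rfl fun b _ => h3 b, Finset.sum_ite_eq, if_pos (Finset.mem_univ a)]

theorem an_Av (c : Fin N) (t : Fin N → ℝ) (u : Fk N ℝ) : an c (Av t u) = - Av t (an c u) := by
  rw [Av_apply, Av_apply, map_sum, ← Finset.sum_neg_distrib]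
  refine Finset.sum_congr rfl fun a _ => ?_
  rw [map_smul, an_an, smul_neg]

theorem Av_Av (s t : Fin N → ℝ) (u : Fk N ℝ) : Av s (Av t u) = - Av t (Av s u) := by
  rw [Av_apply s (Av t u), Av_apply s u, map_sum, ← Finset.sum_neg_distrib]
  refine Finset.sum_congr rfl fun a _ => ?_
  rw [an_Av, map_smul, smul_neg]

theorem Cv_Cv (s t : Fin N → ℝ) (u : Fk N ℝ) : Cv s (Cv t u) = - Cv t (Cv s u) := by
  have h1 : ∀ a, cr a (Cv t u) = - Cv t (cr a u) := by
    intro a
    rw [Cv_apply, Cv_apply, map_sum, ← Finset.sum_neg_distrib]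
    refine Finset.sum_congr rfl fun b _ => ?_
    rw [map_smul, cr_cr, smul_neg]
  rw [Cv_apply s (Cv t u), Cv_apply s u, map_sum, ← Finset.sum_neg_distrib]
  refine Finset.sum_congr rfl fun a _ => ?_
  rw [h1, map_smul, smul_neg]

theorem self_zero {u : Fk N ℝ} (h : u = - u) : u = 0 := by
  funext S
  have h1 := congrFun h S
  rw [Pi.neg_apply] at h1
  rw [Pi.zero_apply]
  linarith

theorem Av_self (t : Fin N → ℝ) (u : Fk N ℝ) : Av t (Av t u) = 0 := self_zero (Av_Av t t u)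

theorem Cv_self (t : Fin N → ℝ) (u : Fk N ℝ) : Cv t (Cv t u) = 0 := self_zero (Cv_Cv t t u)

theorem ip_Cv (t : Fin N → ℝ) (u v : Fk N ℝ) : ip (Cv t u) v = ip u (Av t v) := by
  rw [Cv_apply, Av_apply, ip_sum_left, ip_sum_right]
  refine Finset.sum_congr rfl fun a _ => ?_
  rw [ip_smul_left, ip_smul_right, ip_cr]

theorem Av_vac (t : Fin N → ℝ) : Av t (vac : Fk N ℝ) = 0 := by
  rw [Av_apply]
  refine Finset.sum_eq_zero fun a _ => ?_
  rw [an_vac, smul_zero]

theorem ip_vac : ip (vac : Fk N ℝ) vac = 1 := by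
  unfold ip
  rw [Finset.sum_eq_single (∅ : Finset (Fin N))]
  · show (if (∅ : Finset (Fin N)) = ∅ then (1 : ℝ) else 0) *
      (if (∅ : Finset (Fin N)) = ∅ then (1 : ℝ) else 0) = 1
    rw [if_pos rfl, mul_one]
  · intro S _ hS
    show (if S = ∅ then (1 : ℝ) else 0) * (if S = ∅ then (1 : ℝ) else 0) = 0
    rw [if_neg hS, mul_zero]
  · intro h
    exact absurd (Finset.mem_univ _) h

/-! ### degrees -/

theorem deg_smul {p : ℕ} {u : Fk N ℝ} (c : ℝ) (h : Deg p u) : Deg p (c • u) := by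
  intro S hS
  rw [Pi.smul_apply, h S hS, smul_zero]

theorem deg_sum {ι : Type*} {p : ℕ} (s : Finset ι) (f : ι → Fk N ℝ) (h : ∀ i ∈ s, Deg p (f i)) :
    Deg p (∑ i ∈ s, f i) := by
  intro S hS
  rw [Finset.sum_apply]
  exact Finset.sum_eq_zero fun i hi => h i hi S hS

theorem deg_an {p : ℕ} (a : Fin N) {u : Fk N ℝ} (h : Deg (p + 1) u) : Deg p (an a u) := by
  intro S hS
  rw [an_apply]
  split_ifs with ha
  · rfl
  · rw [h _ (by rw [Finset.card_insert_of_notMem ha]; omega), mul_zero]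

theorem deg_cr {p : ℕ} (a : Fin N) {u : Fk N ℝ} (h : Deg p u) : Deg (p + 1) (cr a u) := by
  intro S hS
  rw [cr_apply]
  split_ifs with ha
  · rw [h _ (by
      rw [Finset.card_erase_of_mem ha]
      have := Finset.card_pos.2 ⟨a, ha⟩
      omega), mul_zero]
  · rfl

theorem deg_Av {p : ℕ} (t : Fin N → ℝ) {u : Fk N ℝ} (h : Deg (p + 1) u) : Deg p (Av t u) := by
  rw [Av_apply]
  exact deg_sum _ _ fun a _ => deg_smul _ (deg_an a h)

theorem deg_Cv {p : ℕ} (t : Fin N → ℝ) {u : Fk N ℝ} (h : Deg p u) : Deg (p + 1) (Cv t u) := by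
  rw [Cv_apply]
  exact deg_sum _ _ fun a _ => deg_smul _ (deg_cr a h)

theorem deg_vac : Deg 0 (vac : Fk N ℝ) := by
  intro S hS
  show (if S = ∅ then (1 : ℝ) else 0) = 0
  exact if_neg fun h => hS (by rw [h, Finset.card_empty])

theorem deg_zero_eq {u : Fk N ℝ} (h : Deg 0 u) : u = u ∅ • vac := by
  funext S
  rw [Pi.smul_apply]
  show u S = u ∅ • (if S = ∅ then (1 : ℝ) else 0)
  by_cases hS : S = ∅
  · rw [hS, if_pos rfl, smul_eq_mul, mul_one]
  · rw [if_neg hS, smul_zero]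
    exact h S fun h0 => hS (Finset.card_eq_zero.1 h0)

/-! ### horizontal elements -/

section basis

variable {P : Fin N → Fin N → ℝ} {m : ℕ} {b : Fin m → Fin N → ℝ}

theorem hor_an (hP : ∀ a c, P a c = ∑ i, b i a * b i c) {u : Fk N ℝ} (h : HorP P u) (c : Fin N) :
    an c u = ∑ i, b i c • Av (b i) u := by
  rw [h c]
  have h1 : ∀ i, b i c • Av (b i) u = ∑ a, (b i c * b i a) • an a u := by
    intro i
    rw [Av_apply, Finset.smul_sum]
    exact Finset.sum_congr rfl fun a _ => by rw [smul_smul]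
  rw [Finset.sum_congr rfl fun i _ => h1 i, Finset.sum_comm]
  refine Finset.sum_congr rfl fun a _ => ?_
  rw [hP c a, Finset.sum_smul]

theorem hor_Av (t : Fin N → ℝ) {u : Fk N ℝ} (h : HorP P u) : HorP P (Av t u) := by
  intro c
  rw [an_Av, h c, map_sum, ← Finset.sum_neg_distrib]
  refine Finset.sum_congr rfl fun a _ => ?_
  rw [map_smul, an_Av, smul_neg]

theorem number_v (hP : ∀ a c, P a c = ∑ i, b i a * b i c) {p : ℕ} {u : Fk N ℝ} (h : HorP P u)
    (hd : Deg p u) : (p : ℝ) • u = ∑ i, Cv (b i) (Av (b i) u) := by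
  have h1 : (∑ a, cr a (an a u)) = (p : ℝ) • u := by
    funext S
    rw [number, Pi.smul_apply, smul_eq_mul]
    by_cases hS : S.card = p
    · rw [hS]
    · rw [hd S hS, mul_zero, mul_zero]
  rw [← h1]
  have h2 : ∀ a, cr a (an a u) = ∑ i, b i a • cr a (Av (b i) u) := by
    intro a
    rw [hor_an hP h a, map_sum]
    exact Finset.sum_congr rfl fun i _ => by rw [map_smul]
  rw [Finset.sum_congr rfl fun a _ => h2 a, Finset.sum_comm]
  exact Finset.sum_congr rfl fun i _ => (Cv_apply _ _).symm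

variable (b) in
/-- products of creation operators applied to the vacuum -/
def CL (L : List (Fin m)) : Fk N ℝ := L.foldr (fun i x => Cv (b i) x) vac

theorem CL_cons (i : Fin m) (L : List (Fin m)) : CL b (i :: L) = Cv (b i) (CL b L) := rfl

theorem CL_nil : CL b [] = vac := rfl

theorem Cv_CL_mem {i : Fin m} {L : List (Fin m)} (h : i ∈ L) : Cv (b i) (CL b L) = 0 := by
  induction L with
  | nil => exact absurd h List.not_mem_nil
  | cons j L ih =>
    rw [CL_cons]
    by_cases hij : i = j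
    · rw [hij, Cv_self]
    · rw [Cv_Cv, ih ((List.mem_cons.1 h).resolve_left hij), map_zero, neg_zero]

theorem CL_not_nodup {L : List (Fin m)} (h : ¬ L.Nodup) : CL b L = 0 := by
  induction L with
  | nil => exact absurd List.nodup_nil h
  | cons j L ih =>
    rw [CL_cons]
    by_cases hj : j ∈ L
    · exact Cv_CL_mem hj
    · rw [ih fun hL => h (List.nodup_cons.2 ⟨hj, hL⟩), map_zero]

theorem CL_perm {L L' : List (Fin m)} (h : L.Perm L') : ∃ e : ℝ, CL b L = e • CL b L' := by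
  induction h with
  | nil => exact ⟨1, (one_smul ℝ _).symm⟩
  | cons x _ ih =>
    obtain ⟨e, he⟩ := ih
    exact ⟨e, by rw [CL_cons, CL_cons, he, map_smul]⟩
  | swap x y L => exact ⟨-1, by rw [CL_cons, CL_cons, CL_cons, CL_cons, Cv_Cv, neg_one_smul]⟩
  | trans _ _ ih1 ih2 =>
    obtain ⟨e, he⟩ := ih1
    obtain ⟨e', he'⟩ := ih2
    exact ⟨e * e', by rw [he, he', smul_smul]⟩

variable (b) in
/-- the span of the monomials of degree `p` -/
def MS (p : ℕ) : Submodule ℝ (Fk N ℝ) :=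
  Submodule.span ℝ {x | ∃ L : List (Fin m), L.length = p ∧ x = CL b L}

theorem Cv_MS (i : Fin m) {p : ℕ} {x : Fk N ℝ} (hx : x ∈ MS b p) :
    Cv (b i) x ∈ MS b (p + 1) := by
  have h1 : MS b p ≤ (MS b (p + 1)).comap (Cv (b i)) := by
    refine Submodule.span_le.2 ?_
    rintro _ ⟨L, hL, rfl⟩
    exact Submodule.subset_span ⟨i :: L, by rw [List.length_cons, hL], rfl⟩
  exact h1 hx

theorem mem_MS (hP : ∀ a c, P a c = ∑ i, b i a * b i c) (p : ℕ) :
    ∀ u : Fk N ℝ, HorP P u → Deg p u → u ∈ MS b p := by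
  induction p with
  | zero =>
    intro u _ hd
    rw [deg_zero_eq hd]
    exact Submodule.smul_mem _ _ (Submodule.subset_span ⟨[], rfl, rfl⟩)
  | succ p ih =>
    intro u h hd
    have h1 := number_v hP h hd
    have h2 : ((p + 1 : ℕ) : ℝ) • u ∈ MS b (p + 1) := by
      rw [h1]
      exact Submodule.sum_mem _ fun i _ => Cv_MS i (ih _ (hor_Av _ h) (deg_Av _ hd))
    have h3 : ((p + 1 : ℕ) : ℝ) ≠ 0 := by positivity
    have h4 := Submodule.smul_mem _ (((p + 1 : ℕ) : ℝ))⁻¹ h2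
    rwa [smul_smul, inv_mul_cancel₀ h3, one_smul] at h4

end basis

/-! ### the volume element -/

section vol

variable {b : Fin 4 → Fin N → ℝ}

theorem mulF_add_left (u v w : Fk N ℝ) : mulF (u + v) w = mulF u w + mulF v w := by
  funext R
  rw [Pi.add_apply]
  unfold mulF
  rw [← Finset.sum_add_distrib]
  exact Finset.sum_congr rfl fun S _ => by rw [Pi.add_apply]; ring

theorem mulF_smul_left (c : ℝ) (u w : Fk N ℝ) : mulF (c • u) w = c • mulF u w := by
  funext R
  rw [Pi.smul_apply]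
  unfold mulF
  rw [Finset.smul_sum]
  exact Finset.sum_congr rfl fun S _ => by rw [Pi.smul_apply, smul_eq_mul, smul_eq_mul]; ring

theorem mulF_sum_left {ι : Type*} (s : Finset ι) (f : ι → Fk N ℝ) (w : Fk N ℝ) :
    mulF (∑ i ∈ s, f i) w = ∑ i ∈ s, mulF (f i) w := by
  classical
  induction s using Finset.induction_on with
  | empty =>
    rw [Finset.sum_empty, Finset.sum_empty]
    have h := mulF_smul_left 0 (0 : Fk N ℝ) w
    rwa [zero_smul, zero_smul] at h
  | insert a s ha ih => rw [Finset.sum_insert ha, Finset.sum_insert ha, mulF_add_left, ih]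

theorem mulF_smul_right (c : ℝ) (u w : Fk N ℝ) : mulF u (c • w) = c • mulF u w := by
  funext R
  rw [Pi.smul_apply]
  unfold mulF
  rw [Finset.smul_sum]
  exact Finset.sum_congr rfl fun S _ => by rw [Pi.smul_apply, smul_eq_mul, smul_eq_mul]; ring

/-- Clifford generator -/
def Gv (t : Fin N → ℝ) : Fk N ℝ →ₗ[ℝ] Fk N ℝ := Cv t + Av t

theorem Gv_apply (t : Fin N → ℝ) (u : Fk N ℝ) : Gv t u = Cv t u + Av t u := rfl

theorem mulF_Gv (h : S_CLIF) (t : Fin N → ℝ) (u v : Fk N ℝ) :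
    mulF (Gv t u) v = Gv t (mulF u v) := by
  obtain ⟨-, -, -, h4, -⟩ := h N ℝ
  have h1 : ∀ x : Fk N ℝ, Gv t x = ∑ a, t a • (cr a x + an a x) := by
    intro x
    rw [Gv_apply, Cv_apply, Av_apply, ← Finset.sum_add_distrib]
    exact Finset.sum_congr rfl fun a _ => (smul_add _ _ _).symm
  rw [h1, h1, mulF_sum_left]
  exact Finset.sum_congr rfl fun a _ => by rw [mulF_smul_left, h4]

/-- the product of the four generators -/
def Om (b : Fin 4 → Fin N → ℝ) : Fk N ℝ →ₗ[ℝ] Fk N ℝ :=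
  Gv (b 0) ∘ₗ Gv (b 1) ∘ₗ Gv (b 2) ∘ₗ Gv (b 3)

theorem Om_apply (u : Fk N ℝ) : Om b u = Gv (b 0) (Gv (b 1) (Gv (b 2) (Gv (b 3) u))) := rfl

variable (ho : ∀ i j, ∑ a, b i a * b j a = if i = j then 1 else 0)

include ho in
theorem Av_Cv_ne {i j : Fin 4} (hij : i ≠ j) (u : Fk N ℝ) :
    Av (b i) (Cv (b j) u) = - Cv (b j) (Av (b i) u) := by
  have h := car_v (b i) (b j) u
  rw [ho, if_neg hij, zero_smul] at h
  exact eq_neg_of_add_eq_zero_left h

include ho in
theorem Av_Cv_self (i : Fin 4) (u : Fk N ℝ) :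
    Av (b i) (Cv (b i) u) = u - Cv (b i) (Av (b i) u) := by
  have h := car_v (b i) (b i) u
  rw [ho, if_pos rfl, one_smul] at h
  exact eq_sub_of_add_eq h

/-- the other generators -/
def Hv (t : Fin N → ℝ) : Fk N ℝ →ₗ[ℝ] Fk N ℝ := Cv t - Av t

theorem Hv_apply (t : Fin N → ℝ) (u : Fk N ℝ) : Hv t u = Cv t u - Av t u := rfl

theorem GH (s t : Fin N → ℝ) (u : Fk N ℝ) : Gv s (Hv t u) = - Hv t (Gv s u) := by
  have h1 := car_v s t u
  have h2 := car_v t s u
  have h3 : (∑ a, t a * s a) = ∑ a, s a * t a := Finset.sum_congr rfl fun a _ => mul_comm _ _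
  rw [h3] at h2
  have h4 := Cv_Cv s t u
  have h5 := Av_Av s t u
  rw [Gv_apply, Gv_apply, Hv_apply, Hv_apply, map_sub, map_sub, map_add, map_add, h4, h5]
  have h6 : Av s (Cv t u) + Cv t (Av s u) = Av t (Cv s u) + Cv s (Av t u) := h1.trans h2.symm
  have h7 : Av s (Cv t u) = Av t (Cv s u) + Cv s (Av t u) - Cv t (Av s u) :=
    eq_sub_of_add_eq h6
  rw [h7]
  abel

include ho in
theorem GG_ne {i j : Fin 4} (hij : i ≠ j) (u : Fk N ℝ) :
    Gv (b i) (Gv (b j) u) = - Gv (b j) (Gv (b i) u) := by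
  rw [Gv_apply, Gv_apply, Gv_apply, Gv_apply, map_add, map_add, map_add, map_add,
    Cv_Cv (b i) (b j), Av_Av (b i) (b j), Av_Cv_ne ho hij, Av_Cv_ne ho hij.symm]
  abel

theorem Om_Hv (i : Fin 4) (u : Fk N ℝ) : Om b (Hv (b i) u) = Hv (b i) (Om b u) := by
  rw [Om_apply, Om_apply]
  simp only [GH, map_neg, neg_neg]

include ho in
theorem Om_Gv (i : Fin 4) (u : Fk N ℝ) : Om b (Gv (b i) u) = - Gv (b i) (Om b u) := by
  rw [Om_apply, Om_apply]
  fin_cases i
  · show Gv (b 0) (Gv (b 1) (Gv (b 2) (Gv (b 3) (Gv (b 0) u)))) =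
      - Gv (b 0) (Gv (b 0) (Gv (b 1) (Gv (b 2) (Gv (b 3) u))))
    simp only [GG_ne ho (by decide : (3 : Fin 4) ≠ 0), GG_ne ho (by decide : (2 : Fin 4) ≠ 0),
      GG_ne ho (by decide : (1 : Fin 4) ≠ 0), map_neg, neg_neg]
  · show Gv (b 0) (Gv (b 1) (Gv (b 2) (Gv (b 3) (Gv (b 1) u)))) =
      - Gv (b 1) (Gv (b 0) (Gv (b 1) (Gv (b 2) (Gv (b 3) u))))
    simp only [GG_ne ho (by decide : (3 : Fin 4) ≠ 1), GG_ne ho (by decide : (2 : Fin 4) ≠ 1),
      GG_ne ho (by decide : (1 : Fin 4) ≠ 0), map_neg, neg_neg]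
  · show Gv (b 0) (Gv (b 1) (Gv (b 2) (Gv (b 3) (Gv (b 2) u)))) =
      - Gv (b 2) (Gv (b 0) (Gv (b 1) (Gv (b 2) (Gv (b 3) u))))
    simp only [GG_ne ho (by decide : (3 : Fin 4) ≠ 2), GG_ne ho (by decide : (2 : Fin 4) ≠ 0),
      GG_ne ho (by decide : (2 : Fin 4) ≠ 1), map_neg, neg_neg]
  · show Gv (b 0) (Gv (b 1) (Gv (b 2) (Gv (b 3) (Gv (b 3) u)))) =
      - Gv (b 3) (Gv (b 0) (Gv (b 1) (Gv (b 2) (Gv (b 3) u))))
    simp only [GG_ne ho (by decide : (3 : Fin 4) ≠ 0), GG_ne ho (by decide : (3 : Fin 4) ≠ 1),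
      GG_ne ho (by decide : (3 : Fin 4) ≠ 2), map_neg, neg_neg]

include ho in
theorem Om_Cv (i : Fin 4) (u : Fk N ℝ) : Om b (Cv (b i) u) = - Av (b i) (Om b u) := by
  have h1 := Om_Gv ho i u
  have h2 := Om_Hv (b := b) i u
  rw [Gv_apply, Gv_apply, map_add] at h1
  rw [Hv_apply, Hv_apply, map_sub] at h2
  have h3 : (2 : ℝ) • Om b (Cv (b i) u) = (2 : ℝ) • (- Av (b i) (Om b u)) := by
    rw [two_smul, two_smul]
    have h4 : Om b (Cv (b i) u) + Om b (Cv (b i) u) =
        (Om b (Cv (b i) u) + Om b (Av (b i) u)) + (Om b (Cv (b i) u) - Om b (Av (b i) u)) := by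
      abel
    rw [h4, h1, h2]
    abel
  exact smul_right_injective _ (two_ne_zero' ℝ) h3

include ho in
theorem Om_vac : Om b vac = CL b [0, 1, 2, 3] := by
  have h3 : Gv (b 3) vac = CL b [3] := by
    rw [Gv_apply, Av_vac, add_zero]
    rfl
  have h2 : Gv (b 2) (CL b [3]) = CL b [2, 3] := by
    rw [Gv_apply, CL_cons 3 [], CL_nil, Av_Cv_ne ho (by decide : (2 : Fin 4) ≠ 3), Av_vac,
      map_zero, neg_zero, add_zero]
    rfl
  have h1 : Gv (b 1) (CL b [2, 3]) = CL b [1, 2, 3] := by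
    rw [Gv_apply, CL_cons 2 [3], CL_cons 3 [], CL_nil, Av_Cv_ne ho (by decide : (1 : Fin 4) ≠ 2),
      Av_Cv_ne ho (by decide : (1 : Fin 4) ≠ 3), Av_vac, map_zero, neg_zero, map_zero, neg_zero,
      add_zero]
    rfl
  have h0 : Gv (b 0) (CL b [1, 2, 3]) = CL b [0, 1, 2, 3] := by
    rw [Gv_apply, CL_cons 1 [2, 3], CL_cons 2 [3], CL_cons 3 [], CL_nil,
      Av_Cv_ne ho (by decide : (0 : Fin 4) ≠ 1), Av_Cv_ne ho (by decide : (0 : Fin 4) ≠ 2),
      Av_Cv_ne ho (by decide : (0 : Fin 4) ≠ 3), Av_vac, map_zero, neg_zero, map_zero, neg_zero,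
      map_zero, neg_zero, add_zero]
    rfl
  rw [Om_apply, h3, h2, h1, h0]

include ho in
theorem mulF_om (h : S_CLIF) (u : Fk N ℝ) : mulF (CL b [0, 1, 2, 3]) u = Om b u := by
  obtain ⟨-, h2, -⟩ := h N ℝ
  rw [← Om_vac ho, Om_apply, mulF_Gv h, mulF_Gv h, mulF_Gv h, mulF_Gv h, h2]
  rfl

theorem deg_CL (L : List (Fin 4)) : Deg L.length (CL b L) := by
  induction L with
  | nil => exact deg_vac
  | cons i L ih => exact deg_Cv _ ih

include ho in
theorem deg_Om_CL (L : List (Fin 4)) (hL : L.length ≤ 4) :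
    Deg (4 - L.length) (Om b (CL b L)) := by
  induction L with
  | nil =>
    rw [CL_nil, Om_vac ho]
    exact deg_CL [0, 1, 2, 3]
  | cons i L ih =>
    rw [List.length_cons] at hL
    have h1 := ih (by omega)
    rw [CL_cons, Om_Cv ho, ← neg_one_smul ℝ]
    apply deg_smul
    have h2 : 4 - L.length = (4 - (i :: L).length) + 1 := by
      rw [List.length_cons]
      omega
    rw [h2] at h1
    exact deg_Av _ h1

include ho in
theorem deg_Om {p : ℕ} (hp : p ≤ 4) {x : Fk N ℝ} (hx : x ∈ MS b p) : Deg (4 - p) (Om b x) := by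
  have h1 : MS b p ≤ (DegS N ℝ (4 - p)).comap (Om b) := by
    refine Submodule.span_le.2 ?_
    rintro _ ⟨L, rfl, rfl⟩
    exact deg_Om_CL ho L hp
  exact h1 hx

theorem MS_zero {p : ℕ} (hp : 4 < p) {x : Fk N ℝ} (hx : x ∈ MS b p) : x = 0 := by
  have h1 : MS b p ≤ ⊥ := by
    refine Submodule.span_le.2 ?_
    rintro _ ⟨L, hL, rfl⟩
    rw [SetLike.mem_coe, Submodule.mem_bot]
    apply CL_not_nodup
    intro h
    have h2 := h.length_le_card
    rw [Fintype.card_fin] at h2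
    omega
  exact (Submodule.mem_bot ℝ).1 (h1 hx)

theorem MS_four {x : Fk N ℝ} (hx : x ∈ MS b 4) : ∃ α : ℝ, x = α • CL b [0, 1, 2, 3] := by
  have h1 : MS b 4 ≤ Submodule.span ℝ {CL b [0, 1, 2, 3]} := by
    refine Submodule.span_le.2 ?_
    rintro _ ⟨L, hL, rfl⟩
    rw [SetLike.mem_coe, Submodule.mem_span_singleton]
    by_cases h : L.Nodup
    · have h2 : L.Perm [0, 1, 2, 3] := by
        rw [List.perm_ext_iff_of_nodup h (by decide)]
        intro i
        have h3 : L.toFinset = Finset.univ := by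
          apply Finset.eq_univ_of_card
          rw [List.toFinset_card_of_nodup h, hL, Fintype.card_fin]
        have h4 : ∀ j : Fin 4, j ∈ ([0, 1, 2, 3] : List (Fin 4)) := by decide
        constructor
        · intro _
          exact h4 i
        · intro _
          rw [← List.mem_toFinset, h3]
          exact Finset.mem_univ i
      obtain ⟨e, he⟩ := CL_perm (b := b) h2
      exact ⟨e, he.symm⟩
    · exact ⟨0, by rw [zero_smul, CL_not_nodup h]⟩
  obtain ⟨α, hα⟩ := Submodule.mem_span_singleton.1 (h1 hx)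
  exact ⟨α, hα.symm⟩

include ho in
theorem Om_om : Om b (CL b [0, 1, 2, 3]) = vac := by
  rw [CL_cons 0, Om_Cv ho, CL_cons 1, Om_Cv ho, CL_cons 2, Om_Cv ho, CL_cons 3 [], Om_Cv ho,
    CL_nil, Om_vac ho]
  simp only [map_neg, neg_neg]
  rw [CL_cons 0, CL_cons 1, CL_cons 2, CL_cons 3 [], CL_nil]
  have e3 : Av (b 3) (Cv (b 3) vac) = vac := by
    rw [Av_Cv_self ho, Av_vac, map_zero, sub_zero]
  have e2 : Av (b 2) (Cv (b 2) (Cv (b 3) vac)) = Cv (b 3) vac := by
    rw [Av_Cv_self ho, Av_Cv_ne ho (by decide : (2 : Fin 4) ≠ 3), Av_vac, map_zero, neg_zero,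
      map_zero, sub_zero]
  have e1 : Av (b 1) (Cv (b 1) (Cv (b 2) (Cv (b 3) vac))) = Cv (b 2) (Cv (b 3) vac) := by
    rw [Av_Cv_self ho, Av_Cv_ne ho (by decide : (1 : Fin 4) ≠ 2),
      Av_Cv_ne ho (by decide : (1 : Fin 4) ≠ 3), Av_vac, map_zero, neg_zero, map_zero, neg_zero,
      map_zero, sub_zero]
  have e0 : Av (b 0) (Cv (b 0) (Cv (b 1) (Cv (b 2) (Cv (b 3) vac)))) =
      Cv (b 1) (Cv (b 2) (Cv (b 3) vac)) := by
    rw [Av_Cv_self ho, Av_Cv_ne ho (by decide : (0 : Fin 4) ≠ 1),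
      Av_Cv_ne ho (by decide : (0 : Fin 4) ≠ 2),
      Av_Cv_ne ho (by decide : (0 : Fin 4) ≠ 3), Av_vac, map_zero, neg_zero, map_zero, neg_zero,
      map_zero, neg_zero, map_zero, sub_zero]
  have r1 : ∀ x : Fk N ℝ, Av (b 0) (Av (b 1) (Av (b 2) (Av (b 3) x))) =
      Av (b 3) (Av (b 2) (Av (b 1) (Av (b 0) x))) := by
    intro x
    rw [Av_Av (b 2) (b 3) x, map_neg, map_neg, Av_Av (b 1) (b 3), map_neg, neg_neg,
      Av_Av (b 1) (b 2) x, map_neg, map_neg, Av_Av (b 0) (b 3), neg_neg, Av_Av (b 0) (b 2),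
      Av_Av (b 0) (b 1) x]
    simp only [map_neg, neg_neg]
  rw [r1, e0, e1, e2, e3]

include ho in
theorem ip_om : ip (CL b [0, 1, 2, 3]) (CL b [0, 1, 2, 3]) = 1 := by
  have e3 : Av (b 3) (Cv (b 3) vac) = vac := by
    rw [Av_Cv_self ho, Av_vac, map_zero, sub_zero]
  have e2 : Av (b 2) (Cv (b 2) (Cv (b 3) vac)) = Cv (b 3) vac := by
    rw [Av_Cv_self ho, Av_Cv_ne ho (by decide : (2 : Fin 4) ≠ 3), Av_vac, map_zero, neg_zero,
      map_zero, sub_zero]
  have e1 : Av (b 1) (Cv (b 1) (Cv (b 2) (Cv (b 3) vac))) = Cv (b 2) (Cv (b 3) vac) := by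
    rw [Av_Cv_self ho, Av_Cv_ne ho (by decide : (1 : Fin 4) ≠ 2),
      Av_Cv_ne ho (by decide : (1 : Fin 4) ≠ 3), Av_vac, map_zero, neg_zero, map_zero, neg_zero,
      map_zero, sub_zero]
  have e0 : Av (b 0) (Cv (b 0) (Cv (b 1) (Cv (b 2) (Cv (b 3) vac)))) =
      Cv (b 1) (Cv (b 2) (Cv (b 3) vac)) := by
    rw [Av_Cv_self ho, Av_Cv_ne ho (by decide : (0 : Fin 4) ≠ 1),
      Av_Cv_ne ho (by decide : (0 : Fin 4) ≠ 2),
      Av_Cv_ne ho (by decide : (0 : Fin 4) ≠ 3), Av_vac, map_zero, neg_zero, map_zero, neg_zero,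
      map_zero, neg_zero, map_zero, sub_zero]
  rw [CL_cons 0, CL_cons 1, CL_cons 2, CL_cons 3 [], CL_nil, ip_Cv, e0, ip_Cv, e1, ip_Cv, e2,
    ip_Cv, e3, ip_vac]

end vol

/-! ### an orthonormal basis -/

theorem exists_basis (P : Fin N → Fin N → ℝ) (hs : ∀ a b, P a b = P b a)
    (hi : ∀ a c, ∑ b, P a b * P b c = P a c) (ht : ∑ a, P a a = 4) :
    ∃ b : Fin 4 → Fin N → ℝ, (∀ i j, ∑ a, b i a * b j a = if i = j then 1 else 0) ∧
      ∀ a c, P a c = ∑ i, b i a * b i c := by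
  let T : EuclideanSpace ℝ (Fin N) →ₗ[ℝ] EuclideanSpace ℝ (Fin N) :=
    Matrix.toEuclideanLin (Matrix.of P)
  have hT : ∀ (x : EuclideanSpace ℝ (Fin N)) (a : Fin N), T x a = ∑ c, P a c * x c := by
    intro x a
    rfl
  have hin : ∀ x y : EuclideanSpace ℝ (Fin N), inner ℝ x y = ∑ a, x a * y a := by
    intro x y
    rw [PiLp.inner_apply]
    exact Finset.sum_congr rfl fun a _ => by rw [RCLike.inner_apply, conj_trivial, mul_comm]
  have hTT : ∀ x, T (T x) = T x := by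
    intro x
    ext a
    rw [hT, hT]
    have h1 : ∀ c, P a c * T x c = ∑ d, (P a c * P c d) * x d := by
      intro c
      rw [hT, Finset.mul_sum]
      exact Finset.sum_congr rfl fun d _ => by ring
    rw [Finset.sum_congr rfl fun c _ => h1 c, Finset.sum_comm]
    refine Finset.sum_congr rfl fun d _ => ?_
    rw [← Finset.sum_mul, hi]
  have hTs : ∀ x y, inner ℝ (T x) y = inner ℝ x (T y) := by
    intro x y
    rw [hin, hin]
    have h1 : ∀ a, T x a * y a = ∑ c, x c * (P a c * y a) := by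
      intro a
      rw [hT, Finset.sum_mul]
      exact Finset.sum_congr rfl fun c _ => by ring
    rw [Finset.sum_congr rfl fun a _ => h1 a, Finset.sum_comm]
    refine Finset.sum_congr rfl fun c _ => ?_
    rw [← Finset.mul_sum, hT]
    congr 1
    exact Finset.sum_congr rfl fun a _ => by rw [hs a c]
  obtain ⟨m, B, hm⟩ : ∃ (m : ℕ) (B : OrthonormalBasis (Fin m) ℝ (LinearMap.range T)), True :=
    ⟨_, stdOrthonormalBasis ℝ _, trivial⟩
  have hfix : ∀ i, T (B i : EuclideanSpace ℝ (Fin N)) = B i := by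
    intro i
    obtain ⟨x, hx⟩ := (B i).2
    rw [← hx, hTT]
  have hexp : ∀ x, T x = ∑ i, inner ℝ (B i : EuclideanSpace ℝ (Fin N)) x •
      (B i : EuclideanSpace ℝ (Fin N)) := by
    intro x
    obtain ⟨y, hy⟩ : ∃ y : LinearMap.range T, (y : EuclideanSpace ℝ (Fin N)) = T x :=
      ⟨⟨T x, LinearMap.mem_range_self T x⟩, rfl⟩
    have h1 := B.sum_repr y
    have h2 := congrArg (fun z : LinearMap.range T => (z : EuclideanSpace ℝ (Fin N))) h1
    simp only [Submodule.coe_sum, Submodule.coe_smul] at h2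
    rw [hy] at h2
    rw [← h2]
    refine Finset.sum_congr rfl fun i _ => ?_
    congr 1
    rw [B.repr_apply_apply, Submodule.coe_inner, hy, ← hTs, hfix]
  have hon : ∀ i j, ∑ a, (B i : EuclideanSpace ℝ (Fin N)) a * (B j : EuclideanSpace ℝ (Fin N)) a =
      if i = j then 1 else 0 := by
    intro i j
    rw [← hin]
    have h1 := B.orthonormal
    rw [orthonormal_iff_ite] at h1
    exact h1 i j
  have hPe : ∀ a c, P a c = ∑ i, (B i : EuclideanSpace ℝ (Fin N)) a *
      (B i : EuclideanSpace ℝ (Fin N)) c := by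
    intro a c
    have h1 := congrArg (fun z : EuclideanSpace ℝ (Fin N) => z a)
      (hexp (EuclideanSpace.single c (1 : ℝ)))
    have h2 : T (EuclideanSpace.single c (1 : ℝ)) a = P a c := by
      rw [hT]
      rw [Finset.sum_eq_single c]
      · rw [EuclideanSpace.single_apply, if_pos rfl, mul_one]
      · intro d _ hd
        rw [EuclideanSpace.single_apply, if_neg hd, mul_zero]
      · intro h
        exact absurd (Finset.mem_univ c) h
    rw [← h2]
    refine h1.trans ?_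
    show (∑ i, inner ℝ (B i : EuclideanSpace ℝ (Fin N)) (EuclideanSpace.single c (1 : ℝ)) •
      (B i : EuclideanSpace ℝ (Fin N))) a = _
    rw [WithLp.ofLp_sum, Finset.sum_apply]
    refine Finset.sum_congr rfl fun i _ => ?_
    rw [hin, Finset.sum_eq_single c]
    · rw [EuclideanSpace.single_apply, if_pos rfl, mul_one]
      show (B i : EuclideanSpace ℝ (Fin N)) c * (B i : EuclideanSpace ℝ (Fin N)) a = _
      rw [mul_comm]
    · intro d _ hd
      rw [EuclideanSpace.single_apply, if_neg hd, mul_zero]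
    · intro h
      exact absurd (Finset.mem_univ c) h
  have hm4 : m = 4 := by
    have h1 : ∑ a, P a a = (m : ℝ) := by
      rw [Finset.sum_congr rfl fun a _ => hPe a a, Finset.sum_comm,
        Finset.sum_congr rfl fun i _ => hon i i]
      simp
    rw [ht] at h1
    exact_mod_cast h1.symm
  subst hm4
  exact ⟨fun i a => (B i : EuclideanSpace ℝ (Fin N)) a, hon, hPe⟩

end Lin4

open Lin4

theorem s_lin4 (h : S_CLIF) : S_LIN4 := by
  intro N P hs hi ht w hw hwd hww
  obtain ⟨b, ho, hP⟩ := exists_basis P hs hi ht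
  obtain ⟨β, hβ⟩ := MS_four (mem_MS hP 4 w hw hwd)
  have hβ2 : β * β = 1 := by
    rw [hβ, ip_smul_left, ip_smul_right, ip_om ho, mul_one] at hww
    exact hww
  refine ⟨?_, fun p u hp hu hd => ?_, fun p u hp hu hd => MS_zero hp (mem_MS hP p u hu hd),
    fun u hu hd => ?_⟩
  · rw [hβ, mulF_smul_left, mulF_smul_right, mulF_om ho h, Om_om ho, smul_smul, hβ2, one_smul]
  · rw [hβ, mulF_smul_left, mulF_om ho h]
    exact deg_smul _ (deg_Om ho hp (mem_MS hP p u hu hd))
  · obtain ⟨α, hα⟩ := MS_four (mem_MS hP 4 u hu hd)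
    rw [hα, hβ, ip_smul_left, ip_smul_right, ip_om ho, mul_one, smul_smul, mul_assoc, hβ2, mul_one]

end Pool.Agent.H781.CM
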