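import Pool.Agent.H781.CM.SG
import Pool.Agent.H781.CM.All

/-!
The geometric theorem of stage 2 from the abstract theorem.
-/

set_option autoImplicit false
set_option synthInstance.maxHeartbeats 400000
set_option maxHeartbeats 4000000
set_option linter.unusedSectionVars false

open Bundle Manifold ContDiff VectorField MeasureTheory Filter
open scoped Topology

noncomputable section

namespace Pool.Agent.H781.CM

open Pool.Agent.H781.NG Pool.Agent.H821R2 Pool.Agent.H821R3 Pool.Agent.H893R5.HO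
  Pool.Agent.H781.S22

namespace Nanco

/-! ### iterated contractions only see the component of their degree -/

theorem phi_eq_zero {N : ℕ} : ∀ (p : ℕ) (V : Fin p → Fin N → ℝ) (u : Fk N ℝ),
    (∀ S : Finset (Fin N), S.card = p → u S = 0) → phi p V u = 0 := by
  intro p
  induction p with
  | zero =>
    intro V u h
    exact h ∅ rfl
  | succ p ih =>
    intro V u h
    refine ih (Fin.tail V) (∑ a, V 0 a • an a u) fun S hS => ?_
    rw [Finset.sum_apply]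
    refine Finset.sum_eq_zero fun a _ => ?_
    rw [Pi.smul_apply, an_apply]
    split_ifs with ha
    · rw [smul_zero]
    · rw [h _ (by rw [Finset.card_insert_of_notMem ha, hS]), mul_zero, smul_zero]

/-- if all contractions of order `p` vanish then the component of degree `p` is zero -/
theorem comp_eq_zero {N : ℕ} (p : ℕ) (u : Fk N ℝ)
    (h : ∀ V : Fin p → Fin N → ℝ, phi p V u = 0) (S : Finset (Fin N)) (hS : S.card = p) :
    u S = 0 := by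
  have h1 : dpt p u = 0 := by
    refine (s_phi N p).2.2.1 _ (fun T hT => if_neg hT) fun V => ?_
    have h2 := ((s_phi N p).1 V).map_sub u (u - dpt p u)
    have h3 : u - (u - dpt p u) = dpt p u := by abel
    rw [h3, h V, phi_eq_zero p V (u - dpt p u), sub_zero] at h2
    · exact h2
    · intro T hT
      show u T - (if T.card = p then u T else 0) = 0
      rw [if_pos hT, sub_self]
  have h4 := congrFun h1 S
  have h5 : dpt p u S = u S := if_pos hS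
  rw [← h5, h4]
  rfl

theorem ip_eq_of_comp {N : ℕ} (p : ℕ) (z w : Fk N ℝ) (c : ℝ) (hw : Deg p w)
    (h : ∀ V : Fin p → Fin N → ℝ, phi p V z = c * phi p V w) : ip z w = c * ip w w := by
  have h1 : ∀ S : Finset (Fin N), S.card = p → (z - c • w) S = 0 := by
    intro S hS
    refine comp_eq_zero p (z - c • w) (fun V => ?_) S hS
    rw [((s_phi N p).1 V).map_sub, ((s_phi N p).1 V).map_smul, h V, smul_eq_mul, sub_self]
  unfold ip
  rw [Finset.mul_sum]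
  refine Finset.sum_congr rfl fun S _ => ?_
  by_cases hS : S.card = p
  · have h2 := h1 S hS
    have h3 : z S - c * w S = 0 := h2
    have h4 : z S = c * w S := by linarith
    rw [h4]
    ring
  · rw [hw S hS]
    ring

section forms

variable {n : ℕ} {M : Type} [TopologicalSpace M] [T2Space M] [CompactSpace M]
  [ChartedSpace (EU n) M] [IsManifold (𝓡 n) ∞ M] [MeasurableSpace M] [BorelSpace M] {N : ℕ}
  (D : GD n M N)

/-- dictionary between horizontal elements and differential forms -/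
theorem dict (hn : 1 ≤ n) : ∃ Φ : ∀ p : ℕ, HD D.C p →ₗ[ℝ] AF n M p,
    (∀ (p : ℕ) (u : HD D.C p) (x : M) (v : Fin p → TangentSpace (𝓡 n) x), Φ p u x v =
      phi p (fun i => Drf.Lm D x (v i)) (evF D.C x (u : Fk N D.C.A))) ∧
    (∀ p : ℕ, Function.Injective (Φ p)) ∧
    (∀ (p : ℕ) (α : AF n M p), SmF α → ∃ u, Φ p u = α) ∧
    (∀ (p : ℕ) (u : HD D.C p), (u : Fk N D.C.A) ∈ Zp D.C p ↔ Φ p u ∈ ZF n M p) ∧
    (∀ (p : ℕ) (u : HD D.C (p + 1)), (u : Fk N D.C.A) ∈ Bp D.C (p + 1) ↔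
      Φ (p + 1) u ∈ BF n M (p + 1)) := by
  obtain ⟨-, hHor, -, -, hDeg, -, -, hdd, -⟩ := ddh M N D.C
  choose Φ hΦ1 hΦ2 hΦ3 using fun q : ℕ => s_drf s_phi n M N D hn q
  have hdm : ∀ (q : ℕ) (u : Fk N D.C.A), u ∈ HD D.C q → dd D.C.F u ∈ HD D.C (q + 1) :=
    fun q u hu => ⟨hHor u hu.1, hDeg q u hu.2⟩
  have hext : ∀ (q : ℕ) (u : HD D.C q),
      IsExtD (Φ q u) (Φ (q + 1) ⟨dd D.C.F u.1, hdm q u.1 u.2⟩) := fun q u =>
    s_drd s_phi n M N D hn q u.1 _ _ u.2.1 u.2.2 (hΦ1 q u) (hΦ1 (q + 1) _)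
  have huniq : ∀ {q : ℕ} {α : AF n M q} {β β' : AF n M (q + 1)}, IsExtD α β → IsExtD α β' →
      β = β' := fun h h' => Gdr.isExtD_unique D.T h h'
  refine ⟨Φ, fun p u x v => hΦ1 p u x v, hΦ2, fun p α h => (hΦ3 p α).1 h, ?_, ?_⟩
  · intro p u
    constructor
    · intro hu
      refine ⟨(hΦ3 p _).2 ⟨_, rfl⟩, ?_⟩
      have h := hext p u
      have h0 : dd D.C.F u.1 = 0 := hu.2
      have h4 : (⟨dd D.C.F u.1, hdm p u.1 u.2⟩ : HD D.C (p + 1)) = 0 := Subtype.ext h0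
      have h5 : Φ (p + 1) ⟨dd D.C.F u.1, hdm p u.1 u.2⟩ = 0 := by rw [h4, map_zero]
      rw [h5] at h
      exact h
    · rintro ⟨-, hα2⟩
      have h4 := huniq (hext p u) hα2
      have h5 : (⟨dd D.C.F u.1, hdm p u.1 u.2⟩ : HD D.C (p + 1)) = 0 := by
        apply hΦ2 (p + 1)
        rw [h4, map_zero]
      have h6 : dd D.C.F u.1 = 0 := congrArg Subtype.val h5
      exact ⟨u.2, h6⟩
  · intro q u
    constructor
    · rintro ⟨w, hw, hwu⟩
      have hwu' : dd D.C.F w = (u : Fk N D.C.A) := hwu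
      refine ⟨Φ q ⟨w, hw⟩, (hΦ3 q _).2 ⟨_, rfl⟩, (hΦ3 (q + 1) _).2 ⟨_, rfl⟩, ?_⟩
      have h4 := hext q ⟨w, hw⟩
      have h5 : (⟨dd D.C.F w, hdm q w hw⟩ : HD D.C (q + 1)) = u := Subtype.ext hwu'
      have h6 : Φ (q + 1) ⟨dd D.C.F w, hdm q w hw⟩ = Φ (q + 1) u := by rw [h5]
      rw [h6] at h4
      exact h4
    · rintro ⟨α, hα1, -, hα3⟩
      obtain ⟨w, rfl⟩ := (hΦ3 q α).1 hα1
      have h4 := huniq (hext q w) hα3
      have h5 := hΦ2 (q + 1) h4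
      exact ⟨w.1, w.2, congrArg Subtype.val h5⟩

end forms

section dim4

variable {M : Type} [TopologicalSpace M] [T2Space M] [CompactSpace M]
  [ChartedSpace (EU 4) M] [IsManifold (𝓡 4) ∞ M] [MeasurableSpace M] [BorelSpace M] {N : ℕ}
  (D : GD 4 M N)

/-- the pointwise value of the intersection form -/
theorem ev_ip_mul (h3 : S_PHIW) {u v W : Fk N D.C.A} {Ω : AF 4 M 4} {ρ : M → ℝ}
    (hW : W4 D.C W)
    (hWρ : ∀ (x : M) (v : Fin 4 → TangentSpace (𝓡 4) x), Ω x v =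
      ρ x * phi 4 (fun i => Drf.Lm D x (v i)) (evF D.C x W))
    {e f : AF 4 M 2}
    (he : ∀ (x : M) (v : Fin 2 → TangentSpace (𝓡 4) x), e x v =
      phi 2 (fun i => Drf.Lm D x (v i)) (evF D.C x u))
    (hf : ∀ (x : M) (w : Fin 2 → TangentSpace (𝓡 4) x), f x w =
      phi 2 (fun i => Drf.Lm D x (w i)) (evF D.C x v))
    (hu : u ∈ HD D.C 2) (hv : v ∈ HD D.C 2) (r : M → ℝ)
    (hr : ∀ x w, F.wedge22 (toDF e) (toDF f) x w = r x * toDF Ω x w) (x : M) :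
    D.C.ev x (ip (mulF u v) W) = r x * ρ x := by
  have hdu : Deg 2 (evF D.C x u) := by
    intro S hS
    show D.C.ev x (u S) = 0
    rw [hu.2 S hS, map_zero]
  have hdv : Deg 2 (evF D.C x v) := by
    intro S hS
    show D.C.ev x (v S) = 0
    rw [hv.2 S hS, map_zero]
  have hdW : Deg 4 (evF D.C x W) := by
    intro S hS
    show D.C.ev x (W S) = 0
    rw [hW.deg S hS, map_zero]
  have hHm : Hor D.C (mulF u v) := (s_clim s_clif M N D.C).2.1 u v hu.1 hv.1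
  have h1W : ip (evF D.C x W) (evF D.C x W) = 1 := by
    rw [← ev_ip, hW.one, map_one]
  have hL : ∀ w : Fin 4 → TangentSpace (𝓡 4) x,
      phi 4 (fun i => Drf.Lm D x (w i)) (evF D.C x (mulF u v)) =
        (r x * ρ x) * phi 4 (fun i => Drf.Lm D x (w i)) (evF D.C x W) := by
    intro w
    have e2 : ∀ i j : Fin 4, phi 2 ![Drf.Lm D x (w i), Drf.Lm D x (w j)] (evF D.C x u) =
        toDF e x ![w i, w j] := by
      intro i j
      show _ = e x ![w i, w j]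
      rw [he]
      congr 1
      funext k
      fin_cases k <;> rfl
    have f2 : ∀ i j : Fin 4, phi 2 ![Drf.Lm D x (w i), Drf.Lm D x (w j)] (evF D.C x v) =
        toDF f x ![w i, w j] := by
      intro i j
      show _ = f x ![w i, w j]
      rw [hf]
      congr 1
      funext k
      fin_cases k <;> rfl
    rw [evF_mulF, h3 N _ _ hdu hdv]
    have h5 := hr x w
    unfold F.wedge22 at h5
    have h6 : toDF Ω x w = Ω x w := rfl
    rw [h6, hWρ] at h5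
    rw [e2, e2, e2, e2, e2, e2, f2, f2, f2, f2, f2, f2, h5]
    ring
  rw [ev_ip, ip_eq_of_comp 4 (evF D.C x (mulF u v)) (evF D.C x W) (r x * ρ x) hdW ?_, h1W, mul_one]
  intro V
  have hp1 := Drf.phi_proj 4 V _ (Drf.ex_hr D hHm x)
  have hp2 := Drf.phi_proj 4 V _ (Drf.ex_hr D hW.hor x)
  rw [Drf.ex_eq] at hp1 hp2
  rw [hp1, hp2]
  have e3 : (fun (i : Fin 4) (a : Fin N) => ∑ c, V i c * Drf.Px D x c a) =
      fun i => Drf.Lm D x (Drf.Km D x (V i)) := by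
    funext i
    rw [Drf.Lm_Km]
  rw [e3]
  exact hL fun i => Drf.Km D x (V i)

theorem pr_pos_of {f W : Fk N D.C.A} {r ρ : M → ℝ} (hr : ∀ x, 0 ≤ r x) (hρ : ∀ x, 0 < ρ x)
    (hp : ∃ x, 0 < r x) (h : ∀ x, D.C.ev x (ip f W) = r x * ρ x) : 0 < pr D.C f W := by
  have h0 : ∀ x, 0 ≤ D.C.ev x (ip f W) := fun x => by
    rw [h x]
    exact mul_nonneg (hr x) (hρ x).le
  refine lt_of_le_of_ne (ig_nonneg D.C h0) fun hne => ?_
  have h1 := ig_eq_zero D.C h0 hne.symm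
  obtain ⟨x, hx⟩ := hp
  have h2 := h x
  rw [h1, map_zero] at h2
  exact (mul_pos hx (hρ x)).ne h2

end dim4

end Nanco

open Nanco in
theorem s_nanco (h1 : S_NO4) (_h2 : S_GTR) (h3 : S_PHIW) (h4 : S_GW4) (_h5 : S_STK) :
    S_NANCO := by
  intro M _ _ _ _ _ _ Ω η₁ η₂ r₁ r₂ hΩ hΩ0 hb1 hη₁ hη₂ hspan _ _ hr₁0 hr₂0 hr₁p hr₂p hw11 hw22
    hw12 hA
  let _ : MeasurableSpace M := borel M
  have : BorelSpace M := ⟨rfl⟩
  have hn : 1 ≤ 4 := by norm_num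
  obtain ⟨N, hN, hD⟩ := gd 4 M hn
  obtain ⟨ε, hε, hC⟩ := h1 N hN
  have hA' : AdmitsANCO 4 M := hA
  obtain ⟨g, hdiam, hcurv⟩ := hA' (ε / 2) (by positivity)
  obtain ⟨cov, R, hlc, hrt⟩ := hcurv.1
  obtain ⟨D, rfl⟩ := hD g cov R hlc hrt
  have hcv : CurvGE D.C ε := by
    have := gcurv 4 M N D (ε / 2) hn (by positivity) hcurv
    rwa [mul_div_cancel₀ ε (two_ne_zero)] at this
  have hm : Moll D.C := s_gmoll lmoll s_tkp 4 M N D hn
  have hd : Dense2 D.C := s_gdense 4 M N D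
  have hr : Reg D.C := greg 4 M N D hn
  obtain ⟨Φ, hΦ1, hΦ2, hΦ3, hΦZ, hΦB⟩ := dict D hn
  obtain ⟨Ω', rfl⟩ := exists_toDF hΩ
  obtain ⟨e₁, rfl⟩ := exists_toDF hη₁.1
  obtain ⟨e₂, rfl⟩ := exists_toDF hη₂.1
  have hΩne : ∀ x, Ω' x ≠ 0 := by
    intro x hx
    obtain ⟨v, hv⟩ := hΩ0 x
    apply hv
    show Ω' x v = 0
    rw [hx]
    rfl
  obtain ⟨W, ρ, hW, hρ, -, hWρ⟩ := h4 M N D Ω' (isForm_toDF.1 hΩ) hΩne
  have hz₁ : e₁ ∈ ZF 4 M 2 := closed_toDF.1 hη₁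
  have hz₂ : e₂ ∈ ZF 4 M 2 := closed_toDF.1 hη₂
  obtain ⟨f₁, hf₁⟩ := hΦ3 2 e₁ hz₁.1
  obtain ⟨f₂, hf₂⟩ := hΦ3 2 e₂ hz₂.1
  have hfz₁ : (f₁ : Fk N D.C.A) ∈ Zp D.C 2 := (hΦZ 2 f₁).2 (hf₁ ▸ hz₁)
  have hfz₂ : (f₂ : Fk N D.C.A) ∈ Zp D.C 2 := (hΦZ 2 f₂).2 (hf₂ ▸ hz₂)
  have he₁ : ∀ (x : M) (v : Fin 2 → TangentSpace (𝓡 4) x), e₁ x v =
      phi 2 (fun i => Drf.Lm D x (v i)) (evF D.C x (f₁ : Fk N D.C.A)) := fun x v => by
    rw [← hf₁]
    exact hΦ1 2 f₁ x v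
  have he₂ : ∀ (x : M) (v : Fin 2 → TangentSpace (𝓡 4) x), e₂ x v =
      phi 2 (fun i => Drf.Lm D x (v i)) (evF D.C x (f₂ : Fk N D.C.A)) := fun x v => by
    rw [← hf₂]
    exact hΦ1 2 f₂ x v
  have hWρ' : ∀ (x : M) (v : Fin 4 → TangentSpace (𝓡 4) x), Ω' x v =
      ρ x * phi 4 (fun i => Drf.Lm D x (v i)) (evF D.C x W) := hWρ
  refine hC M D.C W f₁ f₂ hcv hm hd hr (s_gmax 4 M N D) (s_gdiam 4 M N D hdiam) hW ?_ hfz₁ hfz₂
    ?_ ?_ ?_ ?_
  · intro u hu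
    have h6 : Φ 1 ⟨u, hu.1⟩ ∈ ZF 4 M 1 := (hΦZ 1 ⟨u, hu.1⟩).1 hu
    have h7 := hb1 _ (closed_toDF.2 h6)
    exact (hΦB 0 ⟨u, hu.1⟩).2 (exact_toDF.1 h7)
  · intro u hu
    have h6 : Φ 2 ⟨u, hu.1⟩ ∈ ZF 4 M 2 := (hΦZ 2 ⟨u, hu.1⟩).1 hu
    obtain ⟨s, t, hst⟩ := hspan _ (closed_toDF.2 h6)
    refine ⟨s, t, ?_⟩
    have h7 : (fun x v => toDF (Φ 2 ⟨u, hu.1⟩) x v - s * toDF e₁ x v - t * toDF e₂ x v) =
        toDF (Φ 2 ((⟨u, hu.1⟩ : HD D.C 2) - s • f₁ - t • f₂)) := by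
      rw [map_sub, map_sub, map_smul, map_smul, hf₁, hf₂]
      rfl
    rw [h7] at hst
    exact (hΦB 1 _).2 (exact_toDF.1 hst)
  · refine pr_pos_of D hr₁0 hρ hr₁p fun x => ?_
    exact ev_ip_mul D h3 hW hWρ' he₁ he₁ f₁.2 f₁.2 r₁ hw11 x
  · refine pr_pos_of D hr₂0 hρ hr₂p fun x => ?_
    exact ev_ip_mul D h3 hW hWρ' he₂ he₂ f₂.2 f₂.2 r₂ hw22 x
  · have h8 : ip (mulF (f₁ : Fk N D.C.A) f₂) W = 0 := by
      refine D.C.ext_ev _ _ fun x => ?_
      rw [map_zero, ev_ip_mul D h3 hW hWρ' he₁ he₂ f₁.2 f₂.2 (fun _ => 0) ?_ x, zero_mul]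
      intro x v
      rw [hw12 x v, zero_mul]
    show ig D.C _ = 0
    rw [h8]
    exact ig_zero D.C

end Pool.Agent.H781.CM
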