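import Pool.Agent.H781.CM.SA
import Pool.Agent.H781.CM.Base
import Pool.Agent.H781.CM.Clif
import Pool.Agent.H781.CM.Hod

/-!
The abstract theorem of stage 2.
-/

set_option autoImplicit false
set_option synthInstance.maxHeartbeats 400000
set_option maxHeartbeats 4000000
set_option linter.unusedSectionVars false

open MeasureTheory Filter
open scoped Topology ContDiff

noncomputable section

namespace Pool.Agent.H781.CM

open Pool.Agent.H781.NG

namespace No4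

section alg

variable {N : ℕ} {A : Type*} [CommRing A] [Algebra ℝ A]

theorem mulF_al (u v w : Fk N A) : mulF (u + v) w = mulF u w + mulF v w := by
  funext R
  simp only [mulF, Pi.add_apply]
  rw [← Finset.sum_add_distrib]
  exact Finset.sum_congr rfl fun S _ => by ring

theorem mulF_ar (u v w : Fk N A) : mulF u (v + w) = mulF u v + mulF u w := by
  funext R
  simp only [mulF, Pi.add_apply]
  rw [← Finset.sum_add_distrib]
  exact Finset.sum_congr rfl fun S _ => by ring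

theorem mulF_sl (c : ℝ) (u v : Fk N A) : mulF (c • u) v = c • mulF u v := by
  funext R
  simp only [mulF, Pi.smul_apply, Finset.smul_sum]
  refine Finset.sum_congr rfl fun S _ => ?_
  rw [mul_smul_comm, smul_mul_assoc]

theorem mulF_sr (c : ℝ) (u v : Fk N A) : mulF u (c • v) = c • mulF u v := by
  funext R
  simp only [mulF, Pi.smul_apply, Finset.smul_sum]
  refine Finset.sum_congr rfl fun S _ => ?_
  rw [mul_smul_comm]

theorem mulF_zr (u : Fk N A) : mulF u 0 = 0 := by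
  have := mulF_sr 0 u 0
  simpa using this

theorem nab_vac (F : Fr N A) (a : Fin N) : nab F a (vac : Fk N A) = 0 := by
  unfold nab gam
  have h1 : ∑ b, ∑ c, F.Γ a b c • cr c (an b (vac : Fk N A)) = 0 := by
    refine Finset.sum_eq_zero fun b _ => Finset.sum_eq_zero fun c _ => ?_
    rw [an_vac, map_zero, smul_zero]
  rw [h1, add_zero]
  funext S
  unfold vac
  split_ifs
  · exact (F.e a).map_one_eq_zero
  · exact map_zero _

theorem dd_vac (F : Fr N A) : dd F (vac : Fk N A) = 0 := by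
  unfold dd
  refine Finset.sum_eq_zero fun a _ => ?_
  rw [nab_vac, map_zero]

theorem de_vac (F : Fr N A) : de F (vac : Fk N A) = 0 := by
  unfold de
  rw [neg_eq_zero]
  refine Finset.sum_eq_zero fun a _ => ?_
  rw [nab_vac, map_zero]

theorem ip_vac : ip (vac : Fk N A) vac = 1 := by
  unfold ip vac
  rw [Finset.sum_eq_single ∅]
  · simp
  · intro S _ hS
    simp [hS]
  · intro h
    exact absurd (Finset.mem_univ _) h

end alg

variable {M : Type} [TopologicalSpace M] [CompactSpace M] [MeasurableSpace M] [BorelSpace M]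
  {N : ℕ}

theorem gap_mono {C : CD M N} {δ δ' ε t t' : ℝ} (h : Gap C δ ε t t') (hδ : δ ≤ δ') :
    Gap C δ' ε t t' where
  e0 := h.e0
  cv := h.cv
  mo := h.mo
  de := h.de
  re := h.re
  po := h.po
  t0 := h.t0
  tt := h.tt
  ev := h.ev
  s1 := h.s1.trans hδ
  s2 := h.s2.trans (mul_le_mul_of_nonneg_right hδ (h.t0.le.trans h.tt))
  v0 := h.v0
  fr := h.fr

variable (C : CD M N)

theorem mem_HD {p : ℕ} {u : Fk N C.A} : u ∈ HD C p ↔ Hor C u ∧ Deg p u := Iff.rfl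

theorem mem_Zp {p : ℕ} {u : Fk N C.A} : u ∈ Zp C p ↔ (Hor C u ∧ Deg p u) ∧ dd C.F u = 0 :=
  Iff.rfl

theorem mem_Hm {p : ℕ} {u : Fk N C.A} :
    u ∈ Hm C p ↔ ((Hor C u ∧ Deg p u) ∧ dd C.F u = 0) ∧ de C.F u = 0 := Iff.rfl

theorem mem_Evp {t : ℝ} {p : ℕ} {u : Fk N C.A} : u ∈ Evp C t p ↔ u ∈ Ev C t ∧ Deg p u := Iff.rfl

theorem Hm_le_Zp {p : ℕ} {u : Fk N C.A} (h : u ∈ Hm C p) : u ∈ Zp C p := h.1

theorem DD_of_Hm {p : ℕ} {u : Fk N C.A} (h : u ∈ Hm C p) : DD C u = 0 := by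
  unfold DD
  rw [((mem_Hm C).1 h).1.2, ((mem_Hm C).1 h).2, add_zero]

theorem DD_zero : DD C (0 : Fk N C.A) = 0 := map_zero (DDL C)

/-- harmonic forms are the horizontal forms in the kernel of the Dirac operator -/
theorem Hm_of (h9 : S_DDH) {p : ℕ} {u : Fk N C.A} (hu : Hor C u) (hd : Deg p u)
    (h0 : DD C u = 0) : u ∈ Hm C p := by
  obtain ⟨_, _, _, _, _, _, _, _, _, _, _, hn, _⟩ := h9 M N C
  have h1 := hn u hu
  have h2 : nq C (DD C u) = 0 := by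
    rw [h0]
    exact pr_zero_left C 0
  rw [h2] at h1
  have h3 := nq_nonneg C (dd C.F u)
  have h4 := nq_nonneg C (de C.F u)
  refine (mem_Hm C).2 ⟨⟨⟨hu, hd⟩, ?_⟩, ?_⟩
  · exact nq_eq_zero C (by linarith)
  · exact nq_eq_zero C (by linarith)

theorem Ev_of {t : ℝ} (ht : 0 < t) {u : Fk N C.A} (hu : Hor C u) (h0 : DD C u = 0) :
    u ∈ Ev C t := by
  refine Submodule.subset_span ⟨hu, 0, le_refl 0, ht.le, ?_⟩
  rw [h0, DD_zero, zero_smul]

/-- Clifford multiplication by the volume form preserves the small eigenforms -/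
theorem Ev_mul (h5 : S_W4) {W : Fk N C.A} (hW : W4 C W) {t : ℝ} {u : Fk N C.A}
    (hu : u ∈ Ev C t) : mulF W u ∈ Ev C t := by
  obtain ⟨_, _, _, _, _, hH, _, hD⟩ := h5 M N C W hW
  unfold Ev at hu ⊢
  induction hu using Submodule.span_induction with
  | mem x hx =>
    obtain ⟨hx1, l, hl0, hlt, hl⟩ := hx
    refine Submodule.subset_span ⟨hH x hx1, l, hl0, hlt, ?_⟩
    rw [hD, hD, hl, mulF_sr]
  | zero => rw [mulF_zr]; exact Submodule.zero_mem _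
  | add x y _ _ hx hy => rw [mulF_ar]; exact Submodule.add_mem _ hx hy
  | smul c x _ hx => rw [mulF_sr]; exact Submodule.smul_mem _ c hx

theorem vac_mem : (vac : Fk N C.A) ∈ Hm C 0 := by
  refine (mem_Hm C).2 ⟨⟨⟨?_, ?_⟩, dd_vac C.F⟩, de_vac C.F⟩
  · intro c
    rw [an_vac]
    symm
    refine Finset.sum_eq_zero fun a _ => ?_
    rw [an_vac, smul_zero]
  · intro S hS
    unfold vac
    rw [if_neg (fun h => hS (by rw [h, Finset.card_empty]))]

theorem vac_ne : (vac : Fk N C.A) ≠ 0 := by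
  intro h
  have h1 : nq C (vac : Fk N C.A) = 1 := by
    unfold nq
    rw [ip_vac, ig_one]
  rw [h] at h1
  have h2 : nq C (0 : Fk N C.A) = 0 := pr_zero_left C 0
  rw [h2] at h1
  exact zero_ne_one h1

/-- the core of the argument -/
theorem core (h4 : S_HARM) (h5 : S_W4) (h6 : S_STK) (h7 : S_HODGE) (h8 : S_SPEC) (h9 : S_DDH)
    {δ ε t t' : ℝ} (hG : Gap C δ ε t t') {W f₁ f₂ : Fk N C.A} (hW : W4 C W)
    (hodd : ∀ e ∈ Evp C t 1, e ≠ 0 →
      ∑ p ∈ Finset.range (N + 1), (-1 : ℤ) ^ p * (Module.finrank ℝ (Evp C t p) : ℤ) = 0)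
    (htwo : ∀ (l : ℝ) (a b : Fk N C.A), l ^ 2 = 1 → a ∈ Evp C t 2 → b ∈ Evp C t 2 → nq C a = 1 →
      nq C b = 1 → pr C a b = 0 → mulF W a = l • a → mulF W b = l • b →
      ∃ g ∈ Evp C t 2, g ≠ 0 ∧ pr C g a = 0 ∧ pr C g b = 0)
    (hZ1 : ∀ u ∈ Zp C 1, u ∈ Bp C 1) (hf1 : f₁ ∈ Zp C 2) (hf2 : f₂ ∈ Zp C 2)
    (hsp : ∀ u ∈ Zp C 2, ∃ x y : ℝ, u - x • f₁ - y • f₂ ∈ Bp C 2)
    (h11 : 0 < pr C (mulF f₁ f₁) W) (h22 : 0 < pr C (mulF f₂ f₂) W)
    (h12 : pr C (mulF f₁ f₂) W = 0) : False := by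
  obtain ⟨hWW, _, hdeg, hbig, _, hH, _, hDJ⟩ := h5 M N C W hW
  obtain ⟨hQ, hQe⟩ := h6 M N C W hW
  obtain ⟨hassoc, hvac, _⟩ := s_clif N C.A
  have hharm := h4 M N C hG.mo hG.de hG.re
  obtain ⟨_, hspecE, _, _, _, hdpt⟩ := h8 M N C hG.mo hG.de hG.re t hG.t0
  obtain ⟨_, _, _, _, hdp, hem, he0, _⟩ := h9 M N C
  have hJJ : ∀ u : Fk N C.A, mulF W (mulF W u) = u := by
    intro u
    rw [← hassoc, hWW, hvac]
  -- `J` on harmonic forms
  have hJ : ∀ (p : ℕ) (u : Fk N C.A), p ≤ 4 → u ∈ Hm C p → mulF W u ∈ Hm C (4 - p) := by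
    intro p u hp hu
    have h1 := (mem_Hm C).1 hu
    refine Hm_of C h9 (hH u h1.1.1.1) (hdeg p u hp h1.1.1.1 h1.1.1.2) ?_
    rw [hDJ, DD_of_Hm C hu, mulF_zr]
  have hHm1 : ∀ u ∈ Hm C 1, u = 0 := fun u hu => (hharm 1).2.2.2 u hu (hZ1 u (Hm_le_Zp C hu))
  have hHm3 : ∀ u ∈ Hm C 3, u = 0 := by
    intro u hu
    have h1 := hHm1 _ (hJ 3 u (by norm_num) hu)
    rw [← hJJ u, h1, mulF_zr]
  have hHmb : ∀ p, 4 < p → ∀ u ∈ Hm C p, u = 0 := by
    intro p hp u hu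
    have h1 := (mem_Hm C).1 hu
    exact hbig p u hp h1.1.1.1 h1.1.1.2
  have hbet0 : ∀ p, (∀ u ∈ Hm C p, u = 0) → bet C p = 0 := by
    intro p hp
    rw [← (hharm p).2.1]
    have : Hm C p = ⊥ := by
      rw [eq_bot_iff]
      intro u hu
      rw [Submodule.mem_bot]
      exact hp u hu
    rw [this]
    exact finrank_bot ℝ _
  have hb0 : 1 ≤ bet C 0 := by
    rw [← (hharm 0).2.1]
    have := (hharm 0).1
    refine Module.finrank_pos_iff_exists_ne_zero.2 ⟨⟨vac, vac_mem C⟩, ?_⟩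
    intro h
    exact vac_ne C (congrArg Subtype.val h)
  have hchi : 0 < ∑ p ∈ Finset.range (N + 1), (-1 : ℤ) ^ p * (bet C p : ℤ) := by
    have hnn : ∀ p ∈ Finset.range (N + 1), 0 ≤ (-1 : ℤ) ^ p * (bet C p : ℤ) := by
      intro p _
      rcases Nat.even_or_odd p with hp | hp
      · rw [hp.neg_one_pow, one_mul]
        exact_mod_cast Nat.zero_le _
      · have h0 : bet C p = 0 := by
          apply hbet0
          rcases Nat.lt_or_ge 4 p with h | h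
          · exact hHmb p h
          · obtain ⟨k, hk⟩ := hp
            have : p = 1 ∨ p = 3 := by omega
            rcases this with rfl | rfl
            · exact hHm1
            · exact hHm3
        rw [h0]
        simp
    have h1 := Finset.single_le_sum hnn (Finset.mem_range.2 (Nat.succ_pos N))
    have h2 : (1 : ℤ) ≤ (-1 : ℤ) ^ 0 * (bet C 0 : ℤ) := by
      rw [pow_zero, one_mul]
      exact_mod_cast hb0
    linarith
  have hE1 : ∀ e ∈ Evp C t 1, e = 0 := by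
    intro e he
    by_contra hne
    have h1 := hodd e he hne
    have h2 := (h7 M N C hG.mo hG.de hG.re).2 t hG.t0
    rw [h1] at h2
    rw [← h2] at hchi
    exact lt_irrefl _ hchi
  have hE3 : ∀ e ∈ Evp C t 3, e = 0 := by
    intro e he
    have he' := (mem_Evp C).1 he
    have h1 : mulF W e ∈ Evp C t 1 := (mem_Evp C).2
      ⟨Ev_mul C h5 hW he'.1, hdeg 3 e (by norm_num) (hspecE e he'.1).1 he'.2⟩
    rw [← hJJ e, hE1 _ h1, mulF_zr]
  have hE2 : ∀ e ∈ Evp C t 2, e ∈ Hm C 2 := by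
    intro e he
    have he' := (mem_Evp C).1 he
    have hDe := (hspecE e he'.1).2.1
    have d3 : Deg 3 (dd C.F e) := hdp 2 e he'.2
    have d1 : Deg 1 (de C.F e) := hem 1 e he'.2
    have c3 : dpt 3 (DD C e) = dd C.F e := by
      unfold DD
      rw [Hod.dpt_add, Hod.dpt_self d3, Hod.dpt_ne (by norm_num) d1, add_zero]
    have c1 : dpt 1 (DD C e) = de C.F e := by
      unfold DD
      rw [Hod.dpt_add, Hod.dpt_self d1, Hod.dpt_ne (by norm_num) d3, zero_add]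
    have m3 : dd C.F e ∈ Evp C t 3 := (mem_Evp C).2 ⟨c3 ▸ hdpt _ hDe 3, d3⟩
    have m1 : de C.F e ∈ Evp C t 1 := (mem_Evp C).2 ⟨c1 ▸ hdpt _ hDe 1, d1⟩
    exact (mem_Hm C).2 ⟨⟨⟨(hspecE e he'.1).1, he'.2⟩, hE3 _ m3⟩, hE1 _ m1⟩
  have hE2' : ∀ e ∈ Hm C 2, e ∈ Evp C t 2 := by
    intro e he
    have he' := (mem_Hm C).1 he
    exact (mem_Evp C).2 ⟨Ev_of C hG.t0 he'.1.1.1 (DD_of_Hm C he), he'.1.1.2⟩
  -- the intersection form
  have Qal : ∀ u v w : Fk N C.A,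
      pr C (mulF (u + v) w) W = pr C (mulF u w) W + pr C (mulF v w) W := by
    intro u v w
    rw [mulF_al, pr_add_left]
  have Qsl : ∀ (c : ℝ) (u v : Fk N C.A), pr C (mulF (c • u) v) W = c * pr C (mulF u v) W := by
    intro c u v
    rw [mulF_sl, pr_smul_left]
  have Qsym : ∀ u ∈ Zp C 2, ∀ v ∈ Zp C 2, pr C (mulF u v) W = pr C (mulF v u) W := by
    intro u hu v hv
    exact (hQ u v hu.1.1 hu.1.2 hv.1.1 hv.1.2).2
  have Qex : ∀ w ∈ Bp C 2, ∀ v ∈ Zp C 2, pr C (mulF w v) W = 0 := by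
    rintro w ⟨a, ha, rfl⟩ v hv
    exact hQe a ha v hv
  -- `Q (u, v)` for `u = x f₁ + y f₂ + exact`
  have Qexp : ∀ u ∈ Zp C 2, ∃ x y : ℝ, u - x • f₁ - y • f₂ ∈ Bp C 2 ∧ ∀ v ∈ Zp C 2,
      pr C (mulF u v) W = x * pr C (mulF f₁ v) W + y * pr C (mulF f₂ v) W := by
    intro u hu
    obtain ⟨x, y, hxy⟩ := hsp u hu
    refine ⟨x, y, hxy, fun v hv => ?_⟩
    have e1 : u = (u - x • f₁ - y • f₂) + (x • f₁ + y • f₂) := by abel
    conv_lhs => rw [e1]
    rw [Qal, Qal, Qsl, Qsl, Qex _ hxy v hv, zero_add]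
  have Qpos : ∀ u ∈ Hm C 2, u ≠ 0 → 0 < pr C (mulF u u) W := by
    intro u hu hne
    have hz := Hm_le_Zp C hu
    obtain ⟨x, y, hxy, hq⟩ := Qexp u hz
    have q1 : pr C (mulF f₁ u) W = x * pr C (mulF f₁ f₁) W := by
      rw [Qsym _ hf1 _ hz, hq f₁ hf1, Qsym _ hf2 _ hf1, h12, mul_zero, add_zero]
    have q2 : pr C (mulF f₂ u) W = y * pr C (mulF f₂ f₂) W := by
      rw [Qsym _ hf2 _ hz, hq f₂ hf2, h12, mul_zero, zero_add]
    rw [hq u hz, q1, q2]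
    by_cases hx : x = 0
    · by_cases hy : y = 0
      · exfalso
        rw [hx, hy, zero_smul, zero_smul, sub_zero, sub_zero] at hxy
        exact hne ((hharm 2).2.2.2 u hu hxy)
      · have h1 : 0 < y * y := mul_self_pos.2 hy
        have h2 : 0 ≤ x * x := mul_self_nonneg x
        nlinarith [mul_pos h1 h22, mul_nonneg h2 h11.le]
    · have h1 : 0 < x * x := mul_self_pos.2 hx
      have h2 : 0 ≤ y * y := mul_self_nonneg y
      nlinarith [mul_pos h1 h11, mul_nonneg h2 h22.le]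
  have QJ : ∀ u ∈ Zp C 2, ∀ v ∈ Zp C 2, pr C (mulF u v) W = - pr C u (mulF W v) := by
    intro u hu v hv
    exact (hQ u v hu.1.1 hu.1.2 hv.1.1 hv.1.2).1
  have hJneg : ∀ u ∈ Hm C 2, mulF W u = - u := by
    intro u hu
    have hJu : mulF W u ∈ Hm C 2 := hJ 2 u (by norm_num) hu
    have hv : u + mulF W u ∈ Hm C 2 := Submodule.add_mem _ hu hJu
    have hJv : mulF W (u + mulF W u) = u + mulF W u := by
      rw [mulF_ar, hJJ, add_comm]
    have h1 : u + mulF W u = 0 := by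
      by_contra hne
      have h2 := Qpos _ hv hne
      rw [QJ _ (Hm_le_Zp C hv) _ (Hm_le_Zp C hv), hJv, pr_self] at h2
      have h3 := nq_nonneg C (u + mulF W u)
      linarith
    exact (neg_eq_of_add_eq_zero_right h1).symm
  have Qpr : ∀ u ∈ Hm C 2, ∀ v ∈ Hm C 2, pr C (mulF u v) W = pr C u v := by
    intro u hu v hv
    rw [QJ _ (Hm_le_Zp C hu) _ (Hm_le_Zp C hv), hJneg v hv, pr_neg_right, neg_neg]
  -- harmonic representatives
  obtain ⟨g₁, hg1, he1⟩ := (hharm 2).2.2.1 f₁ hf1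
  obtain ⟨g₂, hg2, he2⟩ := (hharm 2).2.2.1 f₂ hf2
  have zg1 := Hm_le_Zp C hg1
  have zg2 := Hm_le_Zp C hg2
  have r1 : ∀ v ∈ Zp C 2, pr C (mulF f₁ v) W = pr C (mulF g₁ v) W := by
    intro v hv
    have e1 : f₁ = (f₁ - g₁) + g₁ := by abel
    conv_lhs => rw [e1]
    rw [Qal, Qex _ he1 v hv, zero_add]
  have r2 : ∀ v ∈ Zp C 2, pr C (mulF f₂ v) W = pr C (mulF g₂ v) W := by
    intro v hv
    have e1 : f₂ = (f₂ - g₂) + g₂ := by abel
    conv_lhs => rw [e1]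
    rw [Qal, Qex _ he2 v hv, zero_add]
  have n1 : 0 < nq C g₁ := by
    rw [← pr_self, ← Qpr g₁ hg1 g₁ hg1, ← r1 g₁ zg1, Qsym _ hf1 _ zg1, ← r1 f₁ hf1]
    exact h11
  have n2 : 0 < nq C g₂ := by
    rw [← pr_self, ← Qpr g₂ hg2 g₂ hg2, ← r2 g₂ zg2, Qsym _ hf2 _ zg2, ← r2 f₂ hf2]
    exact h22
  have n12 : pr C g₁ g₂ = 0 := by
    rw [← Qpr g₁ hg1 g₂ hg2, ← r1 g₂ zg2, Qsym _ hf1 _ zg2, ← r2 f₁ hf1, Qsym _ hf2 _ hf1]
    exact h12
  set c₁ : ℝ := (√(nq C g₁))⁻¹ with hc1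
  set c₂ : ℝ := (√(nq C g₂))⁻¹ with hc2
  have s1 : c₁ ≠ 0 := inv_ne_zero (Real.sqrt_ne_zero'.2 n1)
  have s2 : c₂ ≠ 0 := inv_ne_zero (Real.sqrt_ne_zero'.2 n2)
  have u1 : nq C (c₁ • g₁) = 1 := by
    rw [nq_smul, hc1, inv_pow, Real.sq_sqrt n1.le]
    exact inv_mul_cancel₀ n1.ne'
  have u2 : nq C (c₂ • g₂) = 1 := by
    rw [nq_smul, hc2, inv_pow, Real.sq_sqrt n2.le]
    exact inv_mul_cancel₀ n2.ne'
  have m1 : c₁ • g₁ ∈ Hm C 2 := Submodule.smul_mem _ _ hg1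
  have m2 : c₂ • g₂ ∈ Hm C 2 := Submodule.smul_mem _ _ hg2
  obtain ⟨g, hg, hgne, hga, hgb⟩ := htwo (-1) (c₁ • g₁) (c₂ • g₂) (by norm_num) (hE2' _ m1)
    (hE2' _ m2) u1 u2 (by rw [pr_smul_left, pr_smul_right, n12, mul_zero, mul_zero])
    (by rw [hJneg _ m1, neg_smul, one_smul]) (by rw [hJneg _ m2, neg_smul, one_smul])
  have hgH := hE2 g hg
  have zg := Hm_le_Zp C hgH
  have o1 : pr C g g₁ = 0 := by
    rw [pr_smul_right] at hga
    exact (mul_eq_zero.1 hga).resolve_left s1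
  have o2 : pr C g g₂ = 0 := by
    rw [pr_smul_right] at hgb
    exact (mul_eq_zero.1 hgb).resolve_left s2
  obtain ⟨x, y, _, hq⟩ := Qexp g zg
  have hpos := Qpos g hgH hgne
  rw [hq g zg, r1 g zg, r2 g zg, Qpr g₁ hg1 g hgH, Qpr g₂ hg2 g hgH, pr_comm C g₁ g,
    pr_comm C g₂ g, o1, o2, mul_zero, mul_zero, add_zero] at hpos
  exact lt_irrefl _ hpos

end No4

/-- the abstract theorem of stage 2 -/
theorem s_no4 (h1 : S_GAPX) (h2 : S_ODD) (h3 : S_TWO) (h4 : S_HARM) (h5 : S_W4) (h6 : S_STK)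
    (h7 : S_HODGE) (h8 : S_SPEC) (h9 : S_DDH) : S_NO4 := by
  intro N hN
  obtain ⟨δ₁, hδ₁, hodd⟩ := h2 N hN
  obtain ⟨δ₂, hδ₂, htwo⟩ := h3 N hN
  obtain ⟨ε, hε, hgap⟩ := h1 N hN (min δ₁ δ₂) (lt_min hδ₁ hδ₂)
  refine ⟨ε, hε, ?_⟩
  intro M _ _ _ _ C W f₁ f₂ hcv hMo hDe hRe hMax hDiam hW hZ1 hf1 hf2 hsp h11 h22 h12
  obtain ⟨t, t', hG⟩ := hgap M C hcv hMo hDe hRe hMax hDiam
  exact No4.core C h4 h5 h6 h7 h8 h9 hG hW
    (hodd M C ε t t' (No4.gap_mono hG (min_le_left _ _)))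
    (htwo M C ε t t' (No4.gap_mono hG (min_le_right _ _)) W hW) hZ1 hf1 hf2 hsp h11 h22 h12

end Pool.Agent.H781.CM
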