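import Pool.Agent.H781.CM.SA
import Pool.Agent.H781.CM.App
import Pool.Agent.H781.CM.Alg
import Pool.Agent.H781.CM.Clif

/-!
Project CM, stage 2, task Odd (helper597): a small eigenform of degree one implies that the
alternating sum of the numbers of small eigenforms vanishes.
-/

set_option autoImplicit false
set_option synthInstance.maxHeartbeats 400000
set_option maxHeartbeats 4000000
set_option linter.unusedSectionVars false

open MeasureTheory Filter
open scoped Topology ContDiff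

noncomputable section

namespace Pool.Agent.H781.CM

open Pool.Agent.H781.NG

namespace Odd

open App

/-! ### Clifford multiplication by an element of degree one -/

section pt

variable {N : ℕ}

/-- `c_i = cr i + an i` -/
def cl (i : Fin N) (b : Fk N ℝ) : Fk N ℝ := cr i b + an i b

theorem ip_cl (i : Fin N) (a b : Fk N ℝ) : ip (cl i a) b = ip a (cl i b) := by
  unfold cl
  rw [ip_add_left, ip_add_right, ip_cr, ip_an, add_comm]

theorem cl_cl (i j : Fin N) (b : Fk N ℝ) :
    cl i (cl j b) + cl j (cl i b) = (2 : ℝ) • (if i = j then b else 0) := by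
  unfold cl
  simp only [map_add]
  have h1 := cr_cr i j b
  have h2 := an_an i j b
  have h3 := car i j b
  have h4 := car j i b
  have h5 : (if j = i then b else 0) = (if i = j then b else 0) := by
    by_cases h : i = j
    · rw [if_pos h, if_pos h.symm]
    · rw [if_neg h, if_neg (fun h' => h h'.symm)]
  rw [h5] at h4
  rw [h1, h2, two_smul]
  nth_rewrite 1 [← h3]
  rw [← h4]
  abel

theorem deg_one_eq {E : Fk N ℝ} (hE : Deg 1 E) : E = ∑ i, E {i} • Clif.gen ℝ i := by
  classical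
  funext S
  rw [Finset.sum_apply]
  by_cases hS : S.card = 1
  · obtain ⟨j, rfl⟩ := Finset.card_eq_one.1 hS
    rw [Finset.sum_eq_single j]
    · rw [Pi.smul_apply, Clif.gen, if_pos rfl, smul_eq_mul, mul_one]
    · intro i _ hij
      rw [Pi.smul_apply, Clif.gen, if_neg, smul_zero]
      intro h
      exact hij (Finset.singleton_injective h).symm
    · intro h
      exact absurd (Finset.mem_univ _) h
  · rw [hE S hS]
    refine (Finset.sum_eq_zero fun i _ => ?_).symm
    rw [Pi.smul_apply, Clif.gen, if_neg, smul_zero]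
    rintro rfl
    exact hS (Finset.card_singleton i)

theorem mulF_deg_one {E : Fk N ℝ} (hE : Deg 1 E) (b : Fk N ℝ) :
    mulF E b = ∑ i, E {i} • cl i b := by
  conv_lhs => rw [deg_one_eq hE]
  rw [Alg.mulF_sum_left]
  refine Finset.sum_congr rfl fun i _ => ?_
  rw [Clif.gen_eq]
  rfl

theorem ip_deg_one {E : Fk N ℝ} (hE : Deg 1 E) : ip E E = ∑ i, E {i} * E {i} := by
  classical
  unfold ip
  have h1 : ∑ S, E S * E S = ∑ S ∈ Finset.univ.image (fun i : Fin N => ({i} : Finset (Fin N))),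
      E S * E S := by
    refine (Finset.sum_subset (Finset.subset_univ _) fun S _ hS => ?_).symm
    have : S.card ≠ 1 := by
      intro h
      obtain ⟨j, rfl⟩ := Finset.card_eq_one.1 h
      exact hS (Finset.mem_image.2 ⟨j, Finset.mem_univ _, rfl⟩)
    rw [hE S this, mul_zero]
  rw [h1, Finset.sum_image]
  intro i _ j _ h
  exact Finset.singleton_injective h

/-- Clifford multiplication by a covector is conformal -/
theorem conf {E : Fk N ℝ} (hE : Deg 1 E) (a b : Fk N ℝ) :
    ip (mulF E a) (mulF E b) = ip E E * ip a b := by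
  have h1 : ip (mulF E a) (mulF E b) = ∑ i, ∑ j, E {i} * E {j} * ip a (cl i (cl j b)) := by
    rw [mulF_deg_one hE, mulF_deg_one hE, ip_sum_left]
    refine Finset.sum_congr rfl fun i _ => ?_
    rw [ip_smul_left, ip_sum_right, Finset.mul_sum]
    refine Finset.sum_congr rfl fun j _ => ?_
    rw [ip_smul_right, ip_cl]
    ring
  have h2 : ip (mulF E a) (mulF E b) = ∑ i, ∑ j, E {i} * E {j} * ip a (cl j (cl i b)) := by
    rw [h1, Finset.sum_comm]
    refine Finset.sum_congr rfl fun i _ => Finset.sum_congr rfl fun j _ => ?_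
    ring
  have h3 : 2 * ip (mulF E a) (mulF E b) = ∑ i, ∑ j, E {i} * E {j} *
      (2 * if i = j then ip a b else 0) := by
    rw [two_mul]
    conv_lhs =>
      congr
      · rw [h1]
      · rw [h2]
    rw [← Finset.sum_add_distrib]
    refine Finset.sum_congr rfl fun i _ => ?_
    rw [← Finset.sum_add_distrib]
    refine Finset.sum_congr rfl fun j _ => ?_
    rw [← mul_add, ← ip_add_right, cl_cl, ip_smul_right]
    congr 2
    split_ifs
    · rfl
    · exact ip_zero_right a
  have h4 : ∑ i, ∑ j, E {i} * E {j} * (2 * if i = j then ip a b else 0) =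
      2 * (ip E E * ip a b) := by
    rw [ip_deg_one hE, Finset.sum_mul, Finset.mul_sum]
    refine Finset.sum_congr rfl fun i _ => ?_
    rw [Finset.sum_eq_single i]
    · rw [if_pos rfl]
      ring
    · intro j _ hj
      rw [if_neg (Ne.symm hj)]
      ring
    · intro h
      exact absurd (Finset.mem_univ _) h
  rw [h4] at h3
  linarith

theorem tr_deg {p : ℕ} {a : Fk N ℝ} (ha : Deg p a) : Deg p (tr a) := by
  intro S hS
  rw [tr_apply, ha S hS, mul_zero]

theorem ip_tr_tr (a b : Fk N ℝ) :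
    ip (tr a) (tr b) = 2 / (1 + ip a a) * (2 / (1 + ip b b)) * ip a b := by
  unfold tr
  rw [ip_smul_left, ip_smul_right]
  ring

theorem tr_off (a b : Fk N ℝ) : |ip (tr a) (tr b)| ≤ 4 * |ip a b| := by
  have ha := ip_self_nonneg a
  have hb := ip_self_nonneg b
  rw [ip_tr_tr, abs_mul]
  refine mul_le_mul_of_nonneg_right ?_ (abs_nonneg _)
  have h1 : 2 / (1 + ip a a) ≤ 2 := by
    rw [div_le_iff₀ (by linarith)]
    linarith
  have h2 : 2 / (1 + ip b b) ≤ 2 := by
    rw [div_le_iff₀ (by linarith)]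
    linarith
  have h3 : 0 ≤ 2 / (1 + ip a a) := by positivity
  have h4 : 0 ≤ 2 / (1 + ip b b) := by positivity
  rw [abs_of_nonneg (mul_nonneg h3 h4)]
  nlinarith

theorem one_sub_tr (a : Fk N ℝ) : 1 - ip (tr a) (tr a) ≤ |ip a a - 1| := by
  have h := ip_self_nonneg a
  rw [ip_tr_tr]
  set s := ip a a
  have h1 : 0 < 1 + s := by linarith
  have e : 1 - 2 / (1 + s) * (2 / (1 + s)) * s = (s - 1) ^ 2 / (1 + s) ^ 2 := by
    field_simp
    ring
  rw [e, div_le_iff₀ (by positivity), ← sq_abs (s - 1)]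
  have h2 : |s - 1| ≤ 1 + s := by
    rw [abs_le]
    constructor <;> linarith
  have h3 := abs_nonneg (s - 1)
  have h4 : |s - 1| ≤ (1 + s) ^ 2 := by nlinarith
  nlinarith

/-- the Gram matrix of the products -/
theorem gram_pt {E U V : Fk N ℝ} (hE : Deg 1 E) {δ : ℝ} (hδ : δ = 0 ∨ (δ = 1 ∧ U = V)) :
    |ip (mulF (tr E) (tr U)) (mulF (tr E) (tr V)) - δ| ≤ |ip E E - 1| + 4 * |ip U V - δ| := by
  rw [conf (tr_deg hE)]
  have hα0 := ip_self_nonneg (tr E)
  have hα1 := ip_tr E
  rcases hδ with rfl | ⟨rfl, rfl⟩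
  · rw [sub_zero, sub_zero, abs_mul, abs_of_nonneg hα0]
    have h1 := tr_off U V
    have h2 := abs_nonneg (ip (tr U) (tr V))
    have h3 := abs_nonneg (ip E E - 1)
    nlinarith
  · have hβ0 := ip_self_nonneg (tr U)
    have hβ1 := ip_tr U
    have h1 := one_sub_tr E
    have h2 := one_sub_tr U
    have h3 := abs_nonneg (ip U U - 1)
    have h4 : ip (tr E) (tr E) * ip (tr U) (tr U) ≤ 1 := by nlinarith
    rw [abs_sub_comm, abs_of_nonneg (by linarith)]
    nlinarith

/-- the product has the opposite parity -/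
theorem par_pt {p q : ℕ} {E U V : Fk N ℝ} (hE : Deg 1 E) (hU : Deg p U) (hV : Deg q V)
    (hpq : p % 2 = q % 2) : ip (mulF (tr E) (tr U)) V = 0 := by
  have h := Alg.mulF_par (tr_deg hE) (tr_deg hU) hV
  have h1 : (-1 : ℝ) ^ p = (-1) ^ q := by
    rw [← Nat.div_add_mod p 2, ← Nat.div_add_mod q 2, hpq, pow_add, pow_add, pow_mul, pow_mul]
    norm_num
  rw [h1] at h
  have h2 : ((-1 : ℝ) ^ q) ≠ 0 := pow_ne_zero _ (by norm_num)
  have h3 : (-1 : ℝ) ^ q * ip (mulF (tr E) (tr U)) V = 0 := by linarith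
  exact (mul_eq_zero.1 h3).resolve_left h2

end pt

/-! ### Linear algebra -/

/-- a matrix with almost orthonormal rows has at least as many columns as rows -/
theorem card_le {ι κ : Type} [Fintype ι] [Fintype κ] [DecidableEq ι] (c : ι → κ → ℝ) {θ : ℝ}
    (hθ : θ < 1) (h : ∀ j, ∑ i, |∑ y, c i y * c j y - if i = j then 1 else 0| ≤ θ) :
    Fintype.card ι ≤ Fintype.card κ := by
  have hli : LinearIndependent ℝ c := by
    rw [Fintype.linearIndependent_iff]
    intro g hg
    by_contra hne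
    push Not at hne
    obtain ⟨i₀, hi₀⟩ := hne
    obtain ⟨j, -, hj⟩ := Finset.exists_max_image Finset.univ (fun i => |g i|)
      ⟨i₀, Finset.mem_univ _⟩
    have hj0 : 0 < |g j| := (abs_pos.2 hi₀).trans_le (hj i₀ (Finset.mem_univ _))
    have h1 : ∑ i, g i * ∑ y, c i y * c j y = 0 := by
      have h2 : ∑ y, (∑ i, g i • c i) y * c j y = 0 := by
        rw [hg]
        simp
      simp only [Finset.sum_apply, Pi.smul_apply, smul_eq_mul, Finset.sum_mul] at h2
      rw [Finset.sum_comm] at h2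
      rw [← h2]
      refine Finset.sum_congr rfl fun i _ => ?_
      rw [Finset.mul_sum]
      refine Finset.sum_congr rfl fun y _ => ?_
      ring
    have h3 : ∑ i, g i * (∑ y, c i y * c j y - if i = j then 1 else 0) = - g j := by
      simp only [mul_sub, Finset.sum_sub_distrib, h1, mul_ite, mul_one, mul_zero,
        Finset.sum_ite_eq', Finset.mem_univ, if_true, zero_sub]
    have h4 : |g j| ≤ |g j| * θ := by
      calc |g j| = |∑ i, g i * (∑ y, c i y * c j y - if i = j then 1 else 0)| := by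
            rw [h3, abs_neg]
        _ ≤ ∑ i, |g i * (∑ y, c i y * c j y - if i = j then 1 else 0)| :=
            Finset.abs_sum_le_sum_abs _ _
        _ ≤ ∑ i, |g j| * |∑ y, c i y * c j y - if i = j then 1 else 0| := by
            refine Finset.sum_le_sum fun i _ => ?_
            rw [abs_mul]
            exact mul_le_mul_of_nonneg_right (hj i (Finset.mem_univ _)) (abs_nonneg _)
        _ = |g j| * ∑ i, |∑ y, c i y * c j y - if i = j then 1 else 0| := by rw [Finset.mul_sum]
        _ ≤ |g j| * θ := mul_le_mul_of_nonneg_left (h j) (abs_nonneg _)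
    nlinarith
  have h5 := hli.fintype_card_le_finrank
  rwa [Module.finrank_fintype_fun_eq_card] at h5

/-- counting with signs -/
theorem count {N : ℕ} (d : ℕ → ℕ)
    (h : Fintype.card {x : Σ p : Fin (N + 1), Fin (d p) // (x.1 : ℕ) % 2 = 0} =
      Fintype.card {x : Σ p : Fin (N + 1), Fin (d p) // ¬ ((x.1 : ℕ) % 2 = 0)}) :
    ∑ p ∈ Finset.range (N + 1), (-1 : ℤ) ^ p * (d p : ℤ) = 0 := by
  classical
  have h1 : ∑ p ∈ Finset.range (N + 1), (-1 : ℤ) ^ p * (d p : ℤ) =
      ∑ x : Σ p : Fin (N + 1), Fin (d p), (-1 : ℤ) ^ (x.1 : ℕ) := by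
    rw [Fintype.sum_sigma, Finset.sum_range]
    refine Finset.sum_congr rfl fun p _ => ?_
    show _ = ∑ _y : Fin (d p), (-1 : ℤ) ^ (p : ℕ)
    rw [Finset.sum_const, Finset.card_univ, Fintype.card_fin, nsmul_eq_mul, mul_comm]
  have h2 : ∀ x : Σ p : Fin (N + 1), Fin (d p), (-1 : ℤ) ^ (x.1 : ℕ) =
      (if (x.1 : ℕ) % 2 = 0 then (1 : ℤ) else 0) - if ¬ ((x.1 : ℕ) % 2 = 0) then (1 : ℤ) else 0 := by
    intro x
    by_cases hx : (x.1 : ℕ) % 2 = 0
    · rw [if_pos hx, if_neg (not_not.2 hx), sub_zero]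
      exact (Nat.even_iff.2 hx).neg_one_pow
    · rw [if_neg hx, if_pos hx, zero_sub]
      exact (Nat.odd_iff.2 (by omega)).neg_one_pow
  rw [h1, Finset.sum_congr rfl fun x _ => h2 x, Finset.sum_sub_distrib, Finset.sum_boole,
    Finset.sum_boole, ← Fintype.card_subtype, ← Fintype.card_subtype, h, sub_self]

end Odd

open App _root_.Pool.Agent.H781.CM.Odd in
/-- a small eigenform of degree one implies that the alternating sum vanishes -/
theorem s_odd (h1 : S_SPEC) (h2 : S_ENER) (h3 : S_NEAR) (h4 : S_GRAM) (h5 : S_PROD2)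
    (h6 : S_CLIF) (h7 : S_DDH) : S_ODD := by
  classical
  intro N hN
  obtain ⟨K, hKN⟩ : ∃ K : ℝ, K = KN N := ⟨_, rfl⟩
  have hK : 0 ≤ K := by
    rw [hKN]
    unfold KN
    positivity
  obtain ⟨δ, hδ, hδρ⟩ : ∃ δ : ℝ, 0 < δ ∧
      2 ^ N * (20 * √(K * δ) + 36 * N * 2 ^ N * δ) ≤ 1 / 2 := by
    have hc : Continuous fun δ : ℝ => (2 : ℝ) ^ N * (20 * √(K * δ) + 36 * N * 2 ^ N * δ) := by
      fun_prop
    have hev : ∀ᶠ δ : ℝ in 𝓝 0, (2 : ℝ) ^ N * (20 * √(K * δ) + 36 * N * 2 ^ N * δ) < 1 / 2 := by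
      apply hc.continuousAt.eventually_lt continuousAt_const
      simp
    have hev' : ∀ᶠ δ : ℝ in 𝓝[>] 0,
        (2 : ℝ) ^ N * (20 * √(K * δ) + 36 * N * 2 ^ N * δ) < 1 / 2 :=
      hev.filter_mono nhdsWithin_le_nhds
    obtain ⟨δ, hδ1, hδ2⟩ := (hev'.and self_mem_nhdsWithin).exists
    exact ⟨δ, hδ2, hδ1.le⟩
  refine ⟨δ, hδ, ?_⟩
  intro M _ _ _ _ C ε t t' G e₀ he₀ he₀0
  have hε := G.e0
  have hpoin : Poin C K := by rw [hKN]; exact G.po
  have ht := G.t0
  have htt' := G.tt
  obtain ⟨hfin, hEv, -, -, -, hdpt⟩ := h1 M N C G.mo G.de G.re t ht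
  obtain ⟨-, -, hgap, -, -, -⟩ := h1 M N C G.mo G.de G.re t' (ht.trans_le htt')
  obtain ⟨-, -, -, -, -, -, -, -, -, -, hsym, -, -⟩ := h7 M N C
  rw [G.ev] at hgap
  obtain ⟨τ, hτd⟩ : ∃ τ : ℝ, τ = t + ε * N ^ 2 := ⟨_, rfl⟩
  have hτ : τ ≤ δ := by rw [hτd]; exact G.s1
  have hτ' : τ ≤ δ * t' := by rw [hτd]; exact G.s2
  have hτ0 : 0 ≤ τ := by rw [hτd]; positivity
  have hen : ∀ u ∈ Ev C t, nq C u = 1 → en C u ≤ τ := by
    intro u hu hn
    have q1 := (h2 M N C).2 ε hε G.cv u (hEv u hu).1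
    have q2 := (hEv u hu).2.2
    rw [hn] at q1 q2
    linarith
  -- the normalised eigenform of degree one
  have hnq0 : 0 < nq C e₀ :=
    lt_of_le_of_ne (nq_nonneg C e₀) fun h => he₀0 (nq_eq_zero C h.symm)
  obtain ⟨e, he, hne⟩ : ∃ e ∈ Evp C t 1, nq C e = 1 := by
    refine ⟨(√(nq C e₀))⁻¹ • e₀, (Evp C t 1).smul_mem _ he₀, ?_⟩
    rw [nq_smul, inv_pow, Real.sq_sqrt hnq0.le, inv_mul_cancel₀ hnq0.ne']
  have heE : ∀ p, Deg 1 (evF C p e) := by
    intro p S hS
    show C.ev p (e S) = 0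
    rw [he.2 S hS, map_zero]
  obtain ⟨u, hmem, horth, hspan, hcard⟩ := basis C hfin hdpt
  have hmemE : ∀ x, u x ∈ Ev C t := fun x => (hmem x).1
  have hdeg : ∀ x p, Deg (x.1 : ℕ) (evF C p (u x)) := by
    intro x p S hS
    show C.ev p (u x S) = 0
    rw [(hmem x).2 S hS, map_zero]
  have hn1 : ∀ x, nq C (u x) = 1 := fun x => by
    have := horth x x
    rwa [if_pos rfl, pr_self] at this
  -- the products
  have hw : ∀ x, ∃ w : Fk N C.A, Hor C w ∧ nq C (DD C w) ≤ 36 * N * 2 ^ N * τ ∧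
      ∀ p, evF C p w = mulF (tr (evF C p e)) (tr (evF C p (u x))) := by
    intro x
    obtain ⟨φ, ψ, q1, q2, q3, q4⟩ := h5 M N C τ e (u x) (hEv _ he.1).1 (hEv _ (hmemE x)).1
      (hen _ he.1 hne) (hen _ (hmemE x) (hn1 x))
    refine ⟨mulF (φ • e) (ψ • u x), q3, q4, fun p => ?_⟩
    rw [evF_mulF, evF_smul, evF_smul, q1, q2, ev_ip, ev_ip]
    rfl
  choose w hwH hwD hwp using hw
  -- the residuals
  obtain ⟨c, hc⟩ : ∃ c : (Σ p : Fin (N + 1), Fin (Module.finrank ℝ (Evp C t p))) →
    (Σ p : Fin (N + 1), Fin (Module.finrank ℝ (Evp C t p))) → ℝ,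
    ∀ x y, c x y = pr C (w x) (u y) := ⟨_, fun _ _ => rfl⟩
  obtain ⟨r, hr⟩ : ∃ r : (Σ p : Fin (N + 1), Fin (Module.finrank ℝ (Evp C t p))) → Fk N C.A,
    ∀ x, r x = w x - ∑ y, c x y • u y := ⟨_, fun _ => rfl⟩
  have hsumE : ∀ x, ∑ y, c x y • u y ∈ Ev C t := fun x =>
    Submodule.sum_mem _ fun y _ => Submodule.smul_mem _ _ (hmemE y)
  have hprs : ∀ (v : Fk N C.A) x, pr C v (∑ y, c x y • u y) = ∑ y, c x y * pr C v (u y) := by
    intro v x
    have h5 : pr C v (∑ y, c x y • u y) = prL C v (∑ y, c x y • u y) := rfl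
    rw [h5, map_sum]
    exact Finset.sum_congr rfl fun y _ => pr_smul_right C _ _ _
  have hru : ∀ x y, pr C (u y) (r x) = 0 := by
    intro x y
    rw [hr, pr_sub_right, hprs]
    simp_rw [horth]
    simp only [mul_ite, mul_one, mul_zero, Finset.sum_ite_eq, Finset.mem_univ, if_true]
    rw [hc, pr_comm, sub_self]
  have hrE : ∀ x, ∀ v ∈ Ev C t, pr C v (r x) = 0 := by
    intro x v hv
    have h7 := hspan v hv
    refine Submodule.span_induction (p := fun v _ => pr C v (r x) = 0) ?_ ?_ ?_ ?_ h7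
    · rintro _ ⟨z, rfl⟩
      exact hru x z
    · exact pr_zero_left C _
    · intro a b _ _ ha hb
      rw [pr_add_left, ha, hb, add_zero]
    · intro k a _ ha
      rw [pr_smul_left, ha, mul_zero]
  have hrH : ∀ x, Hor C (r x) := fun x => by
    rw [hr]
    exact (HorS C).sub_mem (hwH x) ((hEv _ (hsumE x)).1)
  have hrn : ∀ x, nq C (r x) ≤ 36 * N * 2 ^ N * δ := by
    intro x
    have q1 := hgap (r x) (hrH x) (hrE x)
    have q2 : nq C (DD C (r x)) ≤ nq C (DD C (w x)) := by
      have e1 : w x = r x + ∑ y, c x y • u y := by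
        rw [hr, sub_add_cancel]
      have e2 : DD C (w x) = DD C (r x) + DD C (∑ y, c x y • u y) := by
        conv_lhs => rw [e1]
        exact map_add (DDL C) _ _
      have e3 : pr C (DD C (r x)) (DD C (∑ y, c x y • u y)) = 0 := by
        rw [hsym, pr_comm]
        apply hrE
        exact (hEv _ (hEv _ (hsumE x)).2.1).2.1
      rw [e2, nq_add, e3]
      have := nq_nonneg C (DD C (∑ y, c x y • u y))
      linarith
    have q3 : t' * nq C (r x) ≤ t' * (36 * N * 2 ^ N * δ) := by
      have q4 : (36 * N * 2 ^ N : ℝ) * τ ≤ 36 * N * 2 ^ N * (δ * t') := by gcongr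
      have := hwD x
      calc t' * nq C (r x) ≤ 36 * N * 2 ^ N * (δ * t') := by linarith
        _ = _ := by ring
    exact le_of_mul_le_mul_left q3 (ht.trans_le htt')
  have hrr : ∀ x y, |pr C (r x) (r y)| ≤ 36 * N * 2 ^ N * δ := by
    intro x y
    have q1 := pr_sq_le C (r x) (r y)
    have q0 : (0 : ℝ) ≤ 36 * N * 2 ^ N * δ := by positivity
    refine abs_le_of_sq_le_sq (q1.trans ?_) q0
    rw [sq]
    exact mul_le_mul (hrn x) (hrn y) (nq_nonneg C _) q0
  -- the coefficients between forms of equal parity vanish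
  have hc0 : ∀ x y, (x.1 : ℕ) % 2 = (y.1 : ℕ) % 2 → c x y = 0 := by
    intro x y hxy
    rw [hc]
    unfold pr
    have : ip (w x) (u y) = 0 := by
      refine C.ext_ev _ _ fun p => ?_
      rw [ev_ip, hwp, map_zero]
      exact par_pt (heE p) (hdeg x p) (hdeg y p) hxy
    rw [this, ig_zero]
  -- the Gram matrix of the products
  obtain ⟨g1, g2⟩ := h4 M N C K τ hK hτ0 hpoin
  have hKδ : 4 * √(K * τ) ≤ 4 * √(K * δ) := by gcongr
  have hgram : ∀ x y, ∫ p, |C.ev p (ip (u x) (u y)) - if x = y then 1 else 0| ∂C.μ ≤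
      4 * √(K * δ) := by
    intro x y
    refine le_trans ?_ hKδ
    by_cases hxy : x = y
    · subst hxy
      simp only [if_true]
      exact g1 (u x) (hn1 x) (hen _ (hmemE x) (hn1 x))
    · simp only [if_neg hxy, sub_zero]
      refine g2 (u x) (u y) (hn1 x) (hn1 y) ?_ (hen _ (hmemE x) (hn1 x))
        (hen _ (hmemE y) (hn1 y))
      rw [horth, if_neg hxy]
  have hge : ∫ p, |C.ev p (ip e e) - 1| ∂C.μ ≤ 4 * √(K * δ) :=
    (g1 e hne (hen _ he.1 hne)).trans hKδ
  have hww : ∀ x y, |pr C (w x) (w y) - if x = y then 1 else 0| ≤ 20 * √(K * δ) := by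
    intro x y
    have i1 : Integrable (fun p => |C.ev p (ip e e) - 1|) C.μ :=
      int_cont C (((C.cont _).sub continuous_const).abs)
    have i2 : Integrable (fun p => |C.ev p (ip (u x) (u y)) - if x = y then 1 else 0|) C.μ :=
      int_cont C (((C.cont _).sub continuous_const).abs)
    have i3 : Integrable (fun p => C.ev p (ip (w x) (w y)) - if x = y then (1 : ℝ) else 0) C.μ :=
      int_cont C ((C.cont _).sub continuous_const)
    have hprob := C.prob
    have e1 : pr C (w x) (w y) - (if x = y then (1 : ℝ) else 0) =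
        ∫ p, (C.ev p (ip (w x) (w y)) - if x = y then (1 : ℝ) else 0) ∂C.μ := by
      rw [integral_sub (int_ev C _) (integrable_const _), integral_const, probReal_univ, one_smul]
      rfl
    rw [e1]
    calc |∫ p, (C.ev p (ip (w x) (w y)) - if x = y then (1 : ℝ) else 0) ∂C.μ|
        ≤ ∫ p, |C.ev p (ip (w x) (w y)) - if x = y then (1 : ℝ) else 0| ∂C.μ :=
          abs_integral_le_integral_abs
      _ ≤ ∫ p, (|C.ev p (ip e e) - 1| +
            4 * |C.ev p (ip (u x) (u y)) - if x = y then 1 else 0|) ∂C.μ := by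
          refine integral_mono i3.abs (i1.add (i2.const_mul 4)) fun p => ?_
          show |C.ev p (ip (w x) (w y)) - if x = y then (1 : ℝ) else 0| ≤
            |C.ev p (ip e e) - 1| + 4 * |C.ev p (ip (u x) (u y)) - if x = y then 1 else 0|
          rw [ev_ip, ev_ip, ev_ip, hwp, hwp]
          refine gram_pt (heE p) ?_
          by_cases hxy : x = y
          · right
            rw [if_pos hxy, hxy]
            exact ⟨rfl, rfl⟩
          · left
            rw [if_neg hxy]
      _ = (∫ p, |C.ev p (ip e e) - 1| ∂C.μ) +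
            4 * ∫ p, |C.ev p (ip (u x) (u y)) - if x = y then 1 else 0| ∂C.μ := by
          rw [integral_add i1 (i2.const_mul 4), integral_const_mul]
      _ ≤ 20 * √(K * δ) := by
          have := hgram x y
          linarith
  have hcc : ∀ x y, |∑ z, c x z * c y z - if x = y then 1 else 0| ≤
      20 * √(K * δ) + 36 * N * 2 ^ N * δ := by
    intro x y
    have e1 : pr C (r x) (r y) = pr C (w x) (w y) - ∑ z, c x z * c y z := by
      have e2 : pr C (r x) (r y) = pr C (w x) (r y) := by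
        conv_lhs => rw [hr x]
        rw [pr_sub_left, hrE y _ (hsumE x), sub_zero]
      rw [e2, hr y, pr_sub_right, hprs]
      congr 1
      refine Finset.sum_congr rfl fun z _ => ?_
      rw [hc x z, mul_comm]
    have e3 : ∑ z, c x z * c y z - (if x = y then (1 : ℝ) else 0) =
        (pr C (w x) (w y) - if x = y then (1 : ℝ) else 0) - pr C (r x) (r y) := by
      rw [e1]
      ring
    rw [e3]
    refine (abs_sub _ _).trans ?_
    exact add_le_add (hww x y) (hrr x y)
  -- comparison of the two parities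
  have hcmp : ∀ b : ℕ, b < 2 →
      Fintype.card {x : Σ p : Fin (N + 1), Fin (Module.finrank ℝ (Evp C t p)) //
        (x.1 : ℕ) % 2 = b} ≤
      Fintype.card {x : Σ p : Fin (N + 1), Fin (Module.finrank ℝ (Evp C t p)) //
        ¬ ((x.1 : ℕ) % 2 = b)} := by
    intro b hb
    refine Odd.card_le (fun x y => c x.1 y.1) (θ := 1 / 2) (by norm_num) fun j => ?_
    have e1 : ∀ i : {x : Σ p : Fin (N + 1), Fin (Module.finrank ℝ (Evp C t p)) //
        (x.1 : ℕ) % 2 = b},
        |(∑ y : {x : Σ p : Fin (N + 1), Fin (Module.finrank ℝ (Evp C t p)) //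
          ¬ ((x.1 : ℕ) % 2 = b)}, c i.1 y.1 * c j.1 y.1) - if i = j then 1 else 0| ≤
        20 * √(K * δ) + 36 * N * 2 ^ N * δ := by
      intro i
      have e2 : ∑ y : {x : Σ p : Fin (N + 1), Fin (Module.finrank ℝ (Evp C t p)) //
          ¬ ((x.1 : ℕ) % 2 = b)}, c i.1 y.1 * c j.1 y.1 = ∑ z, c i.1 z * c j.1 z := by
        rw [← Finset.sum_subtype (Finset.univ.filter
          (fun x : Σ p : Fin (N + 1), Fin (Module.finrank ℝ (Evp C t p)) =>
            ¬ ((x.1 : ℕ) % 2 = b))) (by simp) (fun z => c i.1 z * c j.1 z)]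
        refine Finset.sum_subset (Finset.subset_univ _) fun z _ hz => ?_
        have hz' : (z.1 : ℕ) % 2 = b := by
          by_contra hne
          exact hz (Finset.mem_filter.2 ⟨Finset.mem_univ _, hne⟩)
        rw [hc0 i.1 z (by rw [i.2, hz']), zero_mul]
      have e3 : (if i = j then (1 : ℝ) else 0) = if i.1 = j.1 then 1 else 0 := by
        by_cases hij : i = j
        · rw [if_pos hij, if_pos (congrArg Subtype.val hij)]
        · rw [if_neg hij, if_neg (fun h => hij (Subtype.ext h))]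
      rw [e2, e3]
      exact hcc i.1 j.1
    refine (Finset.sum_le_sum fun i _ => e1 i).trans ?_
    rw [Finset.sum_const, Finset.card_univ, nsmul_eq_mul]
    refine le_trans ?_ hδρ
    have hx : 0 ≤ 20 * √(K * δ) + 36 * N * 2 ^ N * δ := by positivity
    have hm : (Fintype.card {x : Σ p : Fin (N + 1), Fin (Module.finrank ℝ (Evp C t p)) //
        (x.1 : ℕ) % 2 = b} : ℝ) ≤ 2 ^ N := by
      have := (Fintype.card_subtype_le (fun x : Σ p : Fin (N + 1),
        Fin (Module.finrank ℝ (Evp C t p)) => (x.1 : ℕ) % 2 = b)).trans (hcard.trans G.fr)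
      exact_mod_cast this
    exact mul_le_mul_of_nonneg_right hm hx
  have c0 := hcmp 0 (by norm_num)
  have c1 := hcmp 1 (by norm_num)
  have c2 : Fintype.card {x : Σ p : Fin (N + 1), Fin (Module.finrank ℝ (Evp C t p)) //
        ¬ ((x.1 : ℕ) % 2 = 0)} =
      Fintype.card {x : Σ p : Fin (N + 1), Fin (Module.finrank ℝ (Evp C t p)) //
        (x.1 : ℕ) % 2 = 1} :=
    Fintype.card_congr (Equiv.subtypeEquivRight fun x => by omega)
  have c3 : Fintype.card {x : Σ p : Fin (N + 1), Fin (Module.finrank ℝ (Evp C t p)) //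
        ¬ ((x.1 : ℕ) % 2 = 1)} =
      Fintype.card {x : Σ p : Fin (N + 1), Fin (Module.finrank ℝ (Evp C t p)) //
        (x.1 : ℕ) % 2 = 0} :=
    Fintype.card_congr (Equiv.subtypeEquivRight fun x => by omega)
  exact Odd.count (fun p => Module.finrank ℝ (Evp C t p)) (by omega)

end Pool.Agent.H781.CM
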