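import Pool.Agent.H781.CM.SG

/-!
The wedge product in terms of iterated contractions.
-/

set_option autoImplicit false
set_option synthInstance.maxHeartbeats 400000
set_option maxHeartbeats 4000000

noncomputable section

namespace Pool.Agent.H781.CM

open Pool.Agent.H781.NG

namespace Phiw

variable {N : ℕ}

/-- contraction with a vector -/
def Ao (w : Fin N → ℝ) (u : Fk N ℝ) : Fk N ℝ := ∑ a, w a • an a u

theorem Ao_add (w : Fin N → ℝ) (u v : Fk N ℝ) : Ao w (u + v) = Ao w u + Ao w v := by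
  unfold Ao
  rw [← Finset.sum_add_distrib]
  refine Finset.sum_congr rfl fun a _ => ?_
  rw [map_add, smul_add]

theorem Ao_sub (w : Fin N → ℝ) (u v : Fk N ℝ) : Ao w (u - v) = Ao w u - Ao w v := by
  unfold Ao
  rw [← Finset.sum_sub_distrib]
  refine Finset.sum_congr rfl fun a _ => ?_
  rw [map_sub, smul_sub]

theorem Ao_apply (w : Fin N → ℝ) (u : Fk N ℝ) (S : Finset (Fin N)) :
    Ao w u S = ∑ a, w a * an a u S := by
  unfold Ao
  rw [Finset.sum_apply]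
  rfl

theorem mul_sum_left (f : Fin N → ℝ) (u : Fin N → Fk N ℝ) (v : Fk N ℝ) :
    mulF (∑ a, f a • u a) v = ∑ a, f a • mulF (u a) v := by
  funext R
  rw [Finset.sum_apply]
  simp only [mulF, Finset.sum_apply, Pi.smul_apply, smul_eq_mul, Finset.mul_sum, Finset.sum_mul]
  rw [Finset.sum_comm]
  refine Finset.sum_congr rfl fun a _ => Finset.sum_congr rfl fun S _ => ?_
  ring

theorem mul_sum_right (f : Fin N → ℝ) (v : Fin N → Fk N ℝ) (u : Fk N ℝ) :
    mulF u (∑ a, f a • v a) = ∑ a, f a • mulF u (v a) := by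
  funext R
  rw [Finset.sum_apply]
  simp only [mulF, Finset.sum_apply, Pi.smul_apply, smul_eq_mul, Finset.mul_sum]
  rw [Finset.sum_comm]
  refine Finset.sum_congr rfl fun a _ => Finset.sum_congr rfl fun S _ => ?_
  ring

theorem mul_neg_left (u v : Fk N ℝ) : mulF (-u) v = - mulF u v := by
  funext R
  simp only [mulF, Pi.neg_apply, mul_neg, neg_mul, Finset.sum_neg_distrib]

theorem mul_smul_left (c : ℝ) (u v : Fk N ℝ) : mulF (c • u) v = c • mulF u v := by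
  funext R
  simp only [mulF, Pi.smul_apply, smul_eq_mul, Finset.mul_sum]
  refine Finset.sum_congr rfl fun S _ => ?_
  ring

theorem mul_zero_left (v : Fk N ℝ) : mulF (0 : Fk N ℝ) v = 0 := by
  funext R
  simp [mulF]

theorem mul_zero_right (u : Fk N ℝ) : mulF u (0 : Fk N ℝ) = 0 := by
  funext R
  simp [mulF]

theorem Ao_deg {p : ℕ} (w : Fin N → ℝ) {u : Fk N ℝ} (hu : Deg (p + 1) u) : Deg p (Ao w u) := by
  intro S hS
  rw [Ao_apply]
  apply Finset.sum_eq_zero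
  intro a _
  rw [an_apply]
  split_ifs with h
  · simp
  · rw [hu (insert a S) (by rw [Finset.card_insert_of_notMem h]; omega)]
    simp

theorem Ao_zero (w : Fin N → ℝ) {u : Fk N ℝ} (hu : Deg 0 u) : Ao w u = 0 := by
  funext S
  rw [Ao_apply]
  apply Finset.sum_eq_zero
  intro a _
  rw [an_apply]
  split_ifs with h
  · simp
  · rw [hu (insert a S) (by rw [Finset.card_insert_of_notMem h]; omega)]
    simp

theorem Ao_mul (h : S_CLIF) (w : Fin N → ℝ) (u v : Fk N ℝ) :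
    Ao w (mulF u v) = mulF (Ao w u) v + mulF (fun S => (-1) ^ S.card * u S) (Ao w v) := by
  obtain ⟨-, -, -, -, h5, -, -⟩ := h N ℝ
  unfold Ao
  rw [mul_sum_left, mul_sum_right, ← Finset.sum_add_distrib]
  refine Finset.sum_congr rfl fun a _ => ?_
  rw [h5, smul_add]

theorem alpha2 {u : Fk N ℝ} (hu : Deg 2 u) : (fun S => (-1) ^ S.card * u S) = u := by
  funext S
  by_cases hS : S.card = 2
  · rw [hS]
    norm_num
  · rw [hu S hS, mul_zero]

theorem alpha0 {u : Fk N ℝ} (hu : Deg 0 u) : (fun S => (-1) ^ S.card * u S) = u := by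
  funext S
  by_cases hS : S.card = 0
  · rw [hS]
    norm_num
  · rw [hu S hS, mul_zero]

theorem alpha1 {u : Fk N ℝ} (hu : Deg 1 u) : (fun S => (-1) ^ S.card * u S) = -u := by
  funext S
  by_cases hS : S.card = 1
  · rw [hS, Pi.neg_apply]
    norm_num
  · rw [hu S hS, mul_zero, Pi.neg_apply, hu S hS, neg_zero]

theorem rule2 (h : S_CLIF) (w : Fin N → ℝ) {u : Fk N ℝ} (v : Fk N ℝ) (hu : Deg 2 u) :
    Ao w (mulF u v) = mulF (Ao w u) v + mulF u (Ao w v) := by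
  rw [Ao_mul h, alpha2 hu]

theorem rule1 (h : S_CLIF) (w : Fin N → ℝ) {u : Fk N ℝ} (v : Fk N ℝ) (hu : Deg 1 u) :
    Ao w (mulF u v) = mulF (Ao w u) v - mulF u (Ao w v) := by
  rw [Ao_mul h, alpha1 hu, mul_neg_left, sub_eq_add_neg]

theorem rule0 (h : S_CLIF) (w : Fin N → ℝ) {u : Fk N ℝ} (v : Fk N ℝ) (hu : Deg 0 u) :
    Ao w (mulF u v) = mulF u (Ao w v) := by
  rw [Ao_mul h, alpha0 hu, Ao_zero w hu, mul_zero_left, zero_add]

theorem val (h : S_CLIF) {u : Fk N ℝ} (v : Fk N ℝ) (hu : Deg 0 u) :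
    mulF u v ∅ = u ∅ * v ∅ := by
  obtain ⟨-, h2, -⟩ := h N ℝ
  have h3 : u = u ∅ • (vac : Fk N ℝ) := by
    funext S
    rw [Pi.smul_apply, smul_eq_mul, vac]
    by_cases hS : S = ∅
    · rw [if_pos hS, hS, mul_one]
    · rw [if_neg hS, mul_zero, hu S (by rwa [Ne, Finset.card_eq_zero])]
  conv_lhs => rw [h3]
  rw [mul_smul_left, h2]
  rfl

theorem phi_two (x y : Fin N → ℝ) (u : Fk N ℝ) : phi 2 ![x, y] u = Ao y (Ao x u) ∅ := rfl

theorem phi_four (V : Fin 4 → Fin N → ℝ) (u : Fk N ℝ) :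
    phi 4 V u = Ao (V 3) (Ao (V 2) (Ao (V 1) (Ao (V 0) u))) ∅ := rfl

theorem expand (h : S_CLIF) (a b c d : Fin N → ℝ) {u v : Fk N ℝ} (hu : Deg 2 u) (hv : Deg 2 v) :
    Ao d (Ao c (Ao b (Ao a (mulF u v)))) =
      mulF (Ao b (Ao a u)) (Ao d (Ao c v)) - mulF (Ao c (Ao a u)) (Ao d (Ao b v)) +
      mulF (Ao d (Ao a u)) (Ao c (Ao b v)) + mulF (Ao c (Ao b u)) (Ao d (Ao a v)) -
      mulF (Ao d (Ao b u)) (Ao c (Ao a v)) + mulF (Ao d (Ao c u)) (Ao b (Ao a v)) := by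
  have u1 : ∀ x, Deg 1 (Ao x u) := fun x => Ao_deg x hu
  have v1 : ∀ x, Deg 1 (Ao x v) := fun x => Ao_deg x hv
  have u0 : ∀ x y, Deg 0 (Ao y (Ao x u)) := fun x y => Ao_deg y (u1 x)
  have v0 : ∀ x y, Deg 0 (Ao y (Ao x v)) := fun x y => Ao_deg y (v1 x)
  have uz : ∀ x y z, Ao z (Ao y (Ao x u)) = 0 := fun x y z => Ao_zero z (u0 x y)
  have vz : ∀ x y z, Ao z (Ao y (Ao x v)) = 0 := fun x y z => Ao_zero z (v0 x y)
  rw [rule2 h a v hu, Ao_add, rule1 h b v (u1 a), rule2 h b (Ao a v) hu]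
  simp only [Ao_add, Ao_sub]
  rw [rule0 h c v (u0 a b), rule1 h c (Ao b v) (u1 a),
    rule1 h c (Ao a v) (u1 b), rule2 h c (Ao b (Ao a v)) hu, vz, mul_zero_right, add_zero]
  simp only [Ao_add, Ao_sub]
  rw [rule0 h d (Ao c v) (u0 a b), rule0 h d (Ao b v) (u0 a c), rule1 h d (Ao c (Ao b v)) (u1 a),
    rule0 h d (Ao a v) (u0 b c), rule1 h d (Ao c (Ao a v)) (u1 b),
    rule1 h d (Ao b (Ao a v)) (u1 c)]
  simp only [vz, mul_zero_right]
  abel

end Phiw

open Phiw in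
theorem s_phiw (h : S_CLIF) (_h2 : S_PHI) : S_PHIW := by
  intro N u v hu hv V
  have u0 : ∀ x y, Deg 0 (Ao y (Ao x u)) := fun x y => Ao_deg y (Ao_deg x hu)
  simp only [phi_two]
  rw [phi_four, expand h (V 0) (V 1) (V 2) (V 3) hu hv]
  simp only [Pi.add_apply, Pi.sub_apply]
  rw [val h _ (u0 _ _), val h _ (u0 _ _), val h _ (u0 _ _), val h _ (u0 _ _), val h _ (u0 _ _),
    val h _ (u0 _ _)]

end Pool.Agent.H781.CM
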