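import Pool.Agent.H781.CM.SA
import Pool.Agent.H781.CM.Prod

/-!
Truncated products with explicit factors.
-/

set_option autoImplicit false
set_option synthInstance.maxHeartbeats 400000
set_option maxHeartbeats 4000000
set_option linter.unusedSectionVars false

open MeasureTheory Filter
open scoped Topology ContDiff

noncomputable section

namespace Pool.Agent.H781.CM

open Pool.Agent.H781.NG

namespace Prod2

open Pool.Agent.H781.CM.Prod

variable {M : Type} [TopologicalSpace M] [CompactSpace M] [MeasurableSpace M] [BorelSpace M]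
  {N : ℕ} (C : CD M N)

/-- the truncation of a form -/
theorem trunc2 {u : Fk N C.A} (hu : Hor C u) : ∃ g : C.A, Hor C (g • u) ∧
    (∀ p, C.ev p g = 2 / (1 + C.ev p (ip u u))) ∧
    (∀ p, ip (evF C p (g • u)) (evF C p (g • u)) ≤ 1) ∧
    ∀ a p, ip (evF C p (nab C.F a (g • u))) (evF C p (nab C.F a (g • u))) ≤
      9 * ip (evF C p (nab C.F a u)) (evF C p (nab C.F a u)) := by
  have hU : IsOpen (Set.Ioi (-1 : ℝ)) := isOpen_Ioi
  have hφ : ContDiffOn ℝ ∞ (fun y : ℝ => 2 / (1 + y)) (Set.Ioi (-1 : ℝ)) := by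
    refine contDiffOn_const.div (contDiffOn_const.add contDiffOn_id) ?_
    intro x hx
    simp only [Set.mem_Ioi] at hx ⊢
    linarith
  have hpos : ∀ p, 0 ≤ C.ev p (ip u u) := fun p => by rw [ev_ip]; exact ip_self_nonneg _
  have hmem : ∀ p, C.ev p (ip u u) ∈ Set.Ioi (-1 : ℝ) := fun p => by
    have := hpos p
    simp only [Set.mem_Ioi]
    linarith
  obtain ⟨g, hg⟩ := C.comp (ip u u) (fun y : ℝ => 2 / (1 + y)) (Set.Ioi (-1 : ℝ)) hU hφ hmem
  have hch := C.chain (ip u u) g (fun y : ℝ => 2 / (1 + y)) (Set.Ioi (-1 : ℝ)) hU hφ hmem hg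
  have hg' : ∀ p, C.ev p g = 2 / (1 + C.ev p (ip u u)) := hg
  refine ⟨g, hor_smul C g hu, hg', ?_, ?_⟩
  · intro p
    rw [evF_smul, ip_smul_left, ip_smul_right, ← ev_ip]
    have := (real_bound (c := 0) (w := 0) (hpos p) (hg' p) (by simp) le_rfl).2
    calc C.ev p g * (C.ev p g * C.ev p (ip u u)) = C.ev p g ^ 2 * C.ev p (ip u u) := by ring
      _ ≤ 1 := this
  · intro a p
    have h1 : C.ev p (C.F.e a (ip u u)) = 2 * ip (evF C p (nab C.F a u)) (evF C p u) := by
      rw [Boch.e_ip, map_add, ev_ip, ev_ip, ip_comm (evF C p u)]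
      ring
    have h2 : C.ev p (C.F.e a g) = - C.ev p g ^ 2 * ip (evF C p (nab C.F a u)) (evF C p u) := by
      rw [hch a p, deriv_phi (hmem p), ← hg' p, h1]
      ring
    rw [nab_smul, evF_add, evF_smul, evF_smul, h2]
    set W := evF C p (nab C.F a u) with hW
    set V := evF C p u with hV
    set γ := C.ev p g with hγ
    have hx : C.ev p (ip u u) = ip V V := ev_ip C p u u
    have h3 := (real_bound (c := ip W V) (w := ip W W) (hpos p) (hg' p)
      (by rw [hx, mul_comm]; exact ip_sq_le W V) (ip_self_nonneg W)).1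
    rw [hx] at h3
    simp only [ip_add_left, ip_add_right, ip_smul_left, ip_smul_right, ip_comm V W]
    linarith

end Prod2

open Pool.Agent.H781.CM.Prod Pool.Agent.H781.CM.Prod2 in
theorem s_prod2 (h1 : S_CLIF) (h2 : S_CLIN) (h3 : S_CLIM) (h4 : S_ENER) : S_PROD2 := by
  intro M _ _ _ _ N C τ u v hu hv hτu hτv
  obtain ⟨φ, hu', eu, nu, du⟩ := trunc2 C hu
  obtain ⟨ψ, hv', ev', nv, dv'⟩ := trunc2 C hv
  obtain ⟨c1, c2, -, -⟩ := h3 M N C
  obtain ⟨en1, -⟩ := h4 M N C
  refine ⟨φ, ψ, eu, ev', c2 _ _ hu' hv', ?_⟩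
  set u' := φ • u with hu'def
  set v' := ψ • v with hv'def
  · have hen : en C (mulF u' v') ≤ 36 * 2 ^ N * τ := by
      have hterm : ∀ a, nq C (nab C.F a (mulF u' v')) ≤
          18 * 2 ^ N * (nq C (nab C.F a u) + nq C (nab C.F a v)) := by
        intro a
        rw [c1 a u' v']
        have h6 := nq_add_le C (mulF (nab C.F a u') v') (mulF u' (nab C.F a v'))
        have h7 : nq C (mulF (nab C.F a u') v') ≤ 2 ^ N * 9 * nq C (nab C.F a u) := by
          refine nq_mulF_le C h2 fun p => ?_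
          calc _ ≤ ip (evF C p (nab C.F a u')) (evF C p (nab C.F a u')) * 1 :=
                mul_le_mul_of_nonneg_left (nv p) (ip_self_nonneg _)
            _ = _ := mul_one _
            _ ≤ _ := du a p
        have h8 : nq C (mulF u' (nab C.F a v')) ≤ 2 ^ N * 9 * nq C (nab C.F a v) := by
          refine nq_mulF_le C h2 fun p => ?_
          calc _ ≤ 1 * ip (evF C p (nab C.F a v')) (evF C p (nab C.F a v')) :=
                mul_le_mul_of_nonneg_right (nu p) (ip_self_nonneg _)
            _ = _ := one_mul _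
            _ ≤ _ := dv' a p
        linarith
      have h9 : en C (mulF u' v') ≤ 18 * 2 ^ N * (en C u + en C v) := by
        unfold en
        rw [← Finset.sum_add_distrib, Finset.mul_sum]
        exact Finset.sum_le_sum fun a _ => hterm a
      have h10 : (18 : ℝ) * 2 ^ N * (en C u + en C v) ≤ 18 * 2 ^ N * (τ + τ) :=
        mul_le_mul_of_nonneg_left (by linarith) (by positivity)
      linarith
    refine (en1 _).trans ?_
    calc (N : ℝ) * en C (mulF u' v') ≤ N * (36 * 2 ^ N * τ) :=
          mul_le_mul_of_nonneg_left hen (Nat.cast_nonneg N)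
      _ = 36 * N * 2 ^ N * τ := by ring

end Pool.Agent.H781.CM
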