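import Pool.Agent.H781.CM.SA

/-!
The intersection form (statement `S_STK`).
-/

set_option autoImplicit false
set_option synthInstance.maxHeartbeats 400000
set_option maxHeartbeats 4000000
set_option linter.unusedSectionVars false

open MeasureTheory Filter
open scoped Topology ContDiff

noncomputable section

namespace Pool.Agent.H781.CM

open Pool.Agent.H781.NG

namespace Stk

variable {M : Type} [TopologicalSpace M] [CompactSpace M] [MeasurableSpace M] [BorelSpace M]
  {N : ℕ}

theorem ig_neg (C : CD M N) (f : C.A) : ig C (-f) = - ig C f := by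
  unfold ig
  rw [← integral_neg]
  refine integral_congr_ae (Eventually.of_forall fun p => ?_)
  exact map_neg _ _

theorem ig_zero (C : CD M N) : ig C (0 : C.A) = 0 := by
  unfold ig
  have h : ∀ p, C.ev p (0 : C.A) = 0 := fun p => map_zero _
  simp only [h, integral_zero]

theorem ip_zero (C : CD M N) (u : Fk N C.A) : ip u (0 : Fk N C.A) = 0 := by
  unfold ip
  refine Finset.sum_eq_zero fun S _ => ?_
  rw [Pi.zero_apply, mul_zero]

theorem deg_sub {A : Type*} [CommRing A] [Algebra ℝ A] {p : ℕ} {u v : Fk N A} (hu : Deg p u)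
    (hv : Deg p v) : Deg p (u - v) := by
  intro S hS
  rw [Pi.sub_apply, hu S hS, hv S hS, sub_zero]

theorem deg_two {A : Type*} [CommRing A] [Algebra ℝ A] {p q : ℕ} {u : Fk N A} (hpq : p ≠ q)
    (hu : Deg p u) (hv : Deg q u) : u = 0 := by
  funext S
  by_cases h : S.card = p
  · exact hv S (by omega)
  · exact hu S h

end Stk

open Stk

theorem s_stk (h1 : S_W4) (h2 : S_CLIF) (_h3 : S_CLIM) (h4 : S_DDH) : S_STK := by
  intro M _ _ _ _ N C W hW
  obtain ⟨-, -, w3, -, -, w6, -, w8⟩ := h1 M N C W hW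
  obtain ⟨-, -, -, -, -, c6, c7⟩ := h2 N C.A
  obtain ⟨-, d2, d3, -, d5, d6, -, -, -, d10, -, -, -⟩ := h4 M N C
  have key : ∀ u v : Fk N C.A, Deg 2 v → ip (mulF u v) W = - ip u (mulF W v) := by
    intro u v hv
    rw [c7 2 u v W hv]
    norm_num
  have key2 : ∀ u v : Fk N C.A, ip u (mulF W v) = ip v (mulF W u) := by
    intro u v
    have h := c6 4 W v u hW.deg
    rw [ip_comm] at h
    rw [h]
    norm_num
  have first : ∀ u v : Fk N C.A, Deg 2 v → pr C (mulF u v) W = - pr C u (mulF W v) := by
    intro u v hv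
    unfold pr
    rw [key u v hv, ig_neg]
  refine ⟨fun u v _ hu _ hv => ⟨first u v hv, ?_⟩, fun a ha v hv => ?_⟩
  · rw [first u v hv, first v u hu]
    unfold pr
    rw [key2]
  · have haH : Hor C a := ha.1
    have haD : Deg 1 a := ha.2
    have hvH : Hor C v := hv.1.1
    have hvD : Deg 2 v := hv.1.2
    have hvd : dd C.F v = 0 := hv.2
    rw [first _ _ hvD, d10]
    have e1 : DD C (mulF W v) = mulF W (de C.F v) := by
      rw [w8 v]
      unfold DD
      rw [hvd, zero_add]
    have e2 : Deg 2 (mulF W v) := w3 2 v (by norm_num) hvH hvD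
    have e3 : Deg 3 (mulF W (de C.F v)) := w3 1 _ (by norm_num) (d3 v hvH) (d6 1 v hvD)
    have e4 : Deg 3 (dd C.F (mulF W v)) := d5 2 _ e2
    have e5 : Deg 1 (de C.F (mulF W v)) := d6 1 _ e2
    have e6 : de C.F (mulF W v) = mulF W (de C.F v) - dd C.F (mulF W v) := by
      rw [← e1]
      unfold DD
      rw [add_sub_cancel_left]
    have e7 : Deg 3 (de C.F (mulF W v)) := by
      rw [e6]
      exact deg_sub e3 e4
    rw [deg_two (by norm_num) e5 e7]
    unfold pr
    rw [ip_zero, ig_zero, neg_zero]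

end Pool.Agent.H781.CM
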