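import Pool.Agent.H781.CM.SA
import Pool.Agent.H781.CM.Hod
import Pool.Agent.H781.CM.Prod

/-!
A third self-dual small eigenform: the product of two self-dual small eigenforms.
-/

set_option autoImplicit false
set_option synthInstance.maxHeartbeats 400000
set_option maxHeartbeats 4000000
set_option linter.unusedSectionVars false

open MeasureTheory Filter
open scoped Topology ContDiff

noncomputable section

namespace Pool.Agent.H781.CM

open Pool.Agent.H781.NG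

namespace Two

section alg

variable {N : ℕ} {A : Type*} [CommRing A]

theorem mulF_smul_left (f : A) (u v : Fk N A) : mulF (f • u) v = f • mulF u v := by
  funext R
  simp only [mulF, Pi.smul_apply, smul_eq_mul, Finset.mul_sum]
  exact Finset.sum_congr rfl fun S _ => by ring

theorem mulF_smul_right (f : A) (u v : Fk N A) : mulF u (f • v) = f • mulF u v := by
  funext R
  simp only [mulF, Pi.smul_apply, smul_eq_mul, Finset.mul_sum]
  exact Finset.sum_congr rfl fun S _ => by ring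

theorem deg_smul {p : ℕ} (f : A) {u : Fk N A} (hu : Deg p u) : Deg p (f • u) := by
  intro S hS
  rw [Pi.smul_apply, hu S hS, smul_zero]

theorem deg_dpt (p : ℕ) (u : Fk N A) : Deg p (dpt p u) := by
  intro S hS
  simp [dpt, hS]

theorem dpt_self {p : ℕ} {u : Fk N A} (h : Deg p u) : dpt p u = u := by
  funext S
  simp only [dpt]
  split_ifs with hS
  · rfl
  · exact (h S hS).symm

theorem dpt_add (p : ℕ) (u v : Fk N A) : dpt p (u + v) = dpt p u + dpt p v := by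
  funext S
  simp only [dpt, Pi.add_apply]
  split_ifs
  · rfl
  · rw [add_zero]

theorem dpt_sub (p : ℕ) (u v : Fk N A) : dpt p (u - v) = dpt p u - dpt p v := by
  funext S
  simp only [dpt, Pi.sub_apply]
  split_ifs
  · rfl
  · rw [sub_zero]

theorem dpt_ne {p q : ℕ} (hpq : p ≠ q) {u : Fk N A} (h : Deg q u) : dpt p u = 0 := by
  funext S
  simp only [dpt, Pi.zero_apply]
  split_ifs with hS
  · exact h S (hS ▸ hpq)
  · rfl

theorem ip_deg {p q : ℕ} (hpq : p ≠ q) {u v : Fk N A} (hu : Deg p u) (hv : Deg q v) :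
    ip u v = 0 := by
  unfold ip
  refine Finset.sum_eq_zero fun S _ => ?_
  by_cases h : S.card = p
  · rw [hv S (fun h' => hpq (h.symm.trans h')), mul_zero]
  · rw [hu S h, zero_mul]

theorem ip_dpt (p : ℕ) (u v : Fk N A) : ip u (dpt p v) = ip (dpt p u) v := by
  unfold ip
  refine Finset.sum_congr rfl fun S _ => ?_
  simp only [dpt]
  split_ifs
  · rfl
  · rw [mul_zero, zero_mul]

end alg

/-- real inequality for the truncation -/
theorem trunc_real {s g : ℝ} (hs : 0 ≤ s) (hg : g = 2 / (1 + s)) :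
    0 < g ∧ g ≤ 2 ∧ g * (g * s) ≤ 1 ∧ 0 ≤ g * (g * s) ∧
      1 - g * (g * s) ≤ 4 * (√s - 1) ^ 2 := by
  obtain ⟨r, hr, rfl⟩ : ∃ r : ℝ, 0 ≤ r ∧ s = r ^ 2 :=
    ⟨√s, Real.sqrt_nonneg _, (Real.sq_sqrt hs).symm⟩
  rw [Real.sqrt_sq hr]
  have h1 : 0 < 1 + r ^ 2 := by positivity
  have hg0 : 0 < g := by rw [hg]; positivity
  have hg2 : g * (1 + r ^ 2) = 2 := by rw [hg]; field_simp
  have hgle : g ≤ 2 := by nlinarith [mul_nonneg hg0.le (sq_nonneg r)]
  have e : 4 * (1 - g * (g * r ^ 2)) = g ^ 2 * ((1 - r) ^ 2 * (1 + r) ^ 2) := by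
    have : g ^ 2 * (1 + r ^ 2) ^ 2 = 4 := by
      rw [← mul_pow, hg2]; norm_num
    linear_combination (-1 : ℝ) * this
  have h2 : g * (1 + r) ^ 2 ≤ 4 := by
    have : g * (1 + r) ^ 2 ≤ g * (2 * (1 + r ^ 2)) :=
      mul_le_mul_of_nonneg_left (by nlinarith [sq_nonneg (1 - r)]) hg0.le
    linarith [this, hg2]
  have h3 : g ^ 2 * (1 + r) ^ 2 ≤ 8 := by
    calc g ^ 2 * (1 + r) ^ 2 = g * (g * (1 + r) ^ 2) := by ring
      _ ≤ 2 * 4 := mul_le_mul hgle h2 (by positivity) (by norm_num)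
      _ = 8 := by norm_num
  have h4 : g ^ 2 * ((1 - r) ^ 2 * (1 + r) ^ 2) ≤ 8 * (1 - r) ^ 2 := by
    calc g ^ 2 * ((1 - r) ^ 2 * (1 + r) ^ 2) = (g ^ 2 * (1 + r) ^ 2) * (1 - r) ^ 2 := by ring
      _ ≤ 8 * (1 - r) ^ 2 := mul_le_mul_of_nonneg_right h3 (sq_nonneg _)
  refine ⟨hg0, hgle, ?_, by positivity, ?_⟩
  · have : 0 ≤ g ^ 2 * ((1 - r) ^ 2 * (1 + r) ^ 2) := by positivity
    linarith
  · nlinarith [sq_nonneg (1 - r)]

variable {M : Type} [TopologicalSpace M] [CompactSpace M] [MeasurableSpace M] [BorelSpace M]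
  {N : ℕ} (C : CD M N)

theorem pr_dpt (p : ℕ) (u v : Fk N C.A) : pr C u (dpt p v) = pr C (dpt p u) v := by
  unfold pr
  rw [ip_dpt]

theorem nq_dpt_le (p : ℕ) (u : Fk N C.A) : nq C (dpt p u) ≤ nq C u := by
  rw [nq_eq, nq_eq]
  refine Finset.sum_le_sum fun S _ => ?_
  simp only [dpt]
  split_ifs
  · exact le_rfl
  · rw [zero_pow two_ne_zero, ig_zero]
    exact ig_nonneg C fun p => by rw [map_pow]; exact sq_nonneg _

/-- the part of degree two of `x0 + x2 + x4` -/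
theorem nq_DD_dpt (h7 : S_DDH) {x : Fk N C.A} (hx : Hor C x)
    (he : x = dpt 0 x + dpt 2 x + dpt 4 x) : nq C (DD C (dpt 2 x)) ≤ nq C (DD C x) := by
  obtain ⟨-, -, -, -, hdd, hde, hde0, -, -, -, -, hnq, -⟩ := h7 M N C
  have hdadd : ∀ u v, dd C.F (u + v) = dd C.F u + dd C.F v := fun u v => map_add (ddL C.F) u v
  have headd : ∀ u v, de C.F (u + v) = de C.F u + de C.F v := fun u v => map_add (deL C.F) u v
  rw [hnq _ hx, hnq _ (Hod.hor_dpt C 2 hx)]
  have e1 : dd C.F (dpt 2 x) = dpt 3 (dd C.F x) := by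
    conv_rhs => rw [he]
    rw [hdadd, hdadd, dpt_add, dpt_add, dpt_ne (by norm_num) (hdd 0 _ (deg_dpt 0 x)),
      dpt_self (hdd 2 _ (deg_dpt 2 x)), dpt_ne (by norm_num) (hdd 4 _ (deg_dpt 4 x)),
      zero_add, add_zero]
  have e2 : de C.F (dpt 2 x) = dpt 1 (de C.F x) := by
    conv_rhs => rw [he]
    rw [headd, headd, dpt_add, dpt_add, hde0 _ (deg_dpt 0 x),
      dpt_self (hde 1 _ (deg_dpt 2 x)), dpt_ne (by norm_num) (hde 3 _ (deg_dpt 4 x)),
      dpt_self (p := 1) (u := (0 : Fk N C.A)) (fun S _ => rfl), zero_add, add_zero]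
  rw [e1, e2]
  exact add_le_add (nq_dpt_le C _ _) (nq_dpt_le C _ _)

/-- the energy of small eigenforms -/
theorem en_le (h1 : S_SPEC) (h2 : S_ENER) {δ ε t t' : ℝ} (G : Gap C δ ε t t') {a : Fk N C.A}
    (ha : a ∈ Ev C t) (hn : nq C a = 1) : en C a ≤ t + ε * N ^ 2 := by
  obtain ⟨-, e2, -⟩ := h1 M N C G.mo G.de G.re t G.t0
  obtain ⟨k1, -, k2⟩ := e2 a ha
  have := (h2 M N C).2 ε G.e0 G.cv a k1
  rw [hn] at this k2
  linarith

theorem KN_nonneg (N : ℕ) : 0 ≤ KN N := by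
  unfold KN
  positivity

/-- the truncated form is almost of length one -/
theorem near (h3 : S_NEAR) {K τ : ℝ} (hK : 0 ≤ K) (hP : Poin C K) {a : Fk N C.A} {φ : C.A}
    (hn : nq C a = 1) (he : en C a ≤ τ) (hφ : ∀ p, C.ev p φ = 2 / (1 + C.ev p (ip a a))) :
    1 - ig C (ip (φ • a) (φ • a)) ≤ 8 * K * τ := by
  have hpos : ∀ p, 0 ≤ C.ev p (ip a a) := fun p => by rw [ev_ip]; exact ip_self_nonneg _
  have h := h3 M N C K hK hP a hn
  have hc : Continuous fun p => 4 * (√(C.ev p (ip a a)) - 1) ^ 2 := by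
    have := C.cont (ip a a)
    fun_prop
  have hi : ig C (1 - ip (φ • a) (φ • a)) ≤ ∫ p, 4 * (√(C.ev p (ip a a)) - 1) ^ 2 ∂C.μ := by
    refine integral_mono (int_ev C _) (int_cont C hc) fun p => ?_
    show C.ev p (1 - ip (φ • a) (φ • a)) ≤ 4 * (√(C.ev p (ip a a)) - 1) ^ 2
    rw [map_sub, map_one, ip_smul_left, ip_smul_right, map_mul, map_mul]
    exact (trunc_real (hpos p) (hφ p)).2.2.2.2
  rw [integral_const_mul, ig_sub, ig_one] at hi
  have : 2 * K * en C a ≤ 2 * K * τ := mul_le_mul_of_nonneg_left he (by positivity)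
  linarith

/-- the product of the truncated forms has a large component of degree two -/
theorem big (h3 : S_NEAR) (h4 : S_GRAM) (h6 : S_AB) {K τ : ℝ} (hK : 0 ≤ K) (hτ : 0 ≤ τ)
    (hP : Poin C K) {W a b : Fk N C.A} {φ ψ : C.A} {l : ℝ} (hW : W4 C W) (hl : l ^ 2 = 1)
    (ha : Hor C a) (ha2 : Deg 2 a) (hb : Hor C b) (hb2 : Deg 2 b) (hWa : mulF W a = l • a)
    (hWb : mulF W b = l • b) (na : nq C a = 1) (nb : nq C b = 1) (hab : pr C a b = 0)
    (ea : en C a ≤ τ) (eb : en C b ≤ τ) (hφ : ∀ p, C.ev p φ = 2 / (1 + C.ev p (ip a a)))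
    (hψ : ∀ p, C.ev p ψ = 2 / (1 + C.ev p (ip b b))) :
    2 - 32 * (K * τ) - 32 * √(K * τ) ≤ nq C (dpt 2 (mulF (φ • a) (ψ • b))) ∧
    pr C (dpt 2 (mulF (φ • a) (ψ • b))) a = 0 ∧ pr C (dpt 2 (mulF (φ • a) (ψ • b))) b = 0 ∧
    mulF (φ • a) (ψ • b) = dpt 0 (mulF (φ • a) (ψ • b)) + dpt 2 (mulF (φ • a) (ψ • b)) +
      dpt 4 (mulF (φ • a) (ψ • b)) := by
  have hWa' : mulF W (φ • a) = l • (φ • a) := by
    rw [mulF_smul_right, hWa, smul_comm]
  have hWb' : mulF W (ψ • b) = l • (ψ • b) := by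
    rw [mulF_smul_right, hWb, smul_comm]
  obtain ⟨q1, q2, q3, q4, q5, q6⟩ := h6 M N C W hW l (φ • a) (ψ • b) hl (Prod.hor_smul C φ ha)
    (deg_smul φ ha2) (Prod.hor_smul C ψ hb) (deg_smul ψ hb2) hWa' hWb'
  set x := mulF (φ • a) (ψ • b) with hx
  have hpa : ∀ p, 0 ≤ C.ev p (ip a a) := fun p => by rw [ev_ip]; exact ip_self_nonneg _
  have hpb : ∀ p, 0 ≤ C.ev p (ip b b) := fun p => by rw [ev_ip]; exact ip_self_nonneg _
  have r1 : ip x a = 0 := by
    refine C.ext_ev _ _ fun p => ?_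
    have h := congrArg (C.ev p) q2
    rw [ip_smul_right, map_mul, map_zero] at h
    rw [map_zero]
    exact (mul_eq_zero.1 h).resolve_left (trunc_real (hpa p) (hφ p)).1.ne'
  have r2 : ip x b = 0 := by
    refine C.ext_ev _ _ fun p => ?_
    have h := congrArg (C.ev p) q3
    rw [ip_smul_right, map_mul, map_zero] at h
    rw [map_zero]
    exact (mul_eq_zero.1 h).resolve_left (trunc_real (hpb p) (hψ p)).1.ne'
  have s1 : pr C (dpt 2 x) a = 0 := by
    rw [← pr_dpt, dpt_self ha2]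
    unfold pr
    rw [r1, ig_zero]
  have s2 : pr C (dpt 2 x) b = 0 := by
    rw [← pr_dpt, dpt_self hb2]
    unfold pr
    rw [r2, ig_zero]
  have s3 : ip x x = ip (dpt 0 x) (dpt 0 x) + ip (dpt 2 x) (dpt 2 x) +
      ip (dpt 4 x) (dpt 4 x) := by
    have t : ∀ q, ip x (dpt q x) = ip (dpt q x) (dpt q x) := by
      intro q
      conv_lhs => rw [← dpt_self (deg_dpt q x)]
      rw [ip_dpt]
    conv_lhs => rw [q4]
    rw [ip_comm, ip_add_right, ip_add_right, ← q4, t, t, t]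
  have s4 : ip (dpt 2 x) (dpt 2 x) = 2 * (ip (φ • a) (φ • a) * ip (ψ • b) (ψ • b)) -
      2 * ip (φ • a) (ψ • b) ^ 2 := by
    rw [q1, q5, q6] at s3
    linear_combination (-1 : C.A) * s3
  have hc : Continuous fun p => 8 * |C.ev p (ip a b)| := by
    have := C.cont (ip a b)
    fun_prop
  have hi : ig C ((2 : ℝ) • (ip (φ • a) (φ • a) + ip (ψ • b) (ψ • b) - 1) -
      ip (dpt 2 x) (dpt 2 x)) ≤ ∫ p, 8 * |C.ev p (ip a b)| ∂C.μ := by
    refine integral_mono (int_ev C _) (int_cont C hc) fun p => ?_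
    show C.ev p ((2 : ℝ) • (ip (φ • a) (φ • a) + ip (ψ • b) (ψ • b) - 1) -
      ip (dpt 2 x) (dpt 2 x)) ≤ 8 * |C.ev p (ip a b)|
    have u0 : 0 ≤ C.ev p (ip (dpt 2 x) (dpt 2 x)) := by rw [ev_ip]; exact ip_self_nonneg _
    have u1 : C.ev p (ip (dpt 2 x) (dpt 2 x)) = 2 * (C.ev p (ip (φ • a) (φ • a)) *
        C.ev p (ip (ψ • b) (ψ • b))) - 2 * C.ev p (ip (φ • a) (ψ • b)) ^ 2 := by
      rw [s4, map_sub, map_mul, map_mul, map_mul, map_pow, map_ofNat]
    have u2 : C.ev p (ip (φ • a) (φ • a)) = C.ev p φ * (C.ev p φ * C.ev p (ip a a)) := by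
      rw [ip_smul_left, ip_smul_right, map_mul, map_mul]
    have u3 : C.ev p (ip (ψ • b) (ψ • b)) = C.ev p ψ * (C.ev p ψ * C.ev p (ip b b)) := by
      rw [ip_smul_left, ip_smul_right, map_mul, map_mul]
    have u4 : C.ev p (ip (φ • a) (ψ • b)) = C.ev p φ * (C.ev p ψ * C.ev p (ip a b)) := by
      rw [ip_smul_left, ip_smul_right, map_mul, map_mul]
    obtain ⟨v1, v2, v3, v4, -⟩ := trunc_real (hpa p) (hφ p)
    obtain ⟨w1, w2, w3, w4, -⟩ := trunc_real (hpb p) (hψ p)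
    rw [← u2] at v3 v4
    rw [← u3] at w3 w4
    set X := C.ev p (ip (φ • a) (φ • a))
    set Y := C.ev p (ip (ψ • b) (ψ • b))
    set c := C.ev p (ip (φ • a) (ψ • b))
    have y1 : c ^ 2 ≤ 1 := by
      have : X * Y ≤ 1 := mul_le_one₀ v3 w4 w3
      linarith [u0, u1]
    have y2 : |c| ≤ 1 := by
      rw [← sq_abs] at y1
      nlinarith [abs_nonneg c]
    have y3 : c ^ 2 ≤ |c| := by
      rw [← sq_abs]
      nlinarith [abs_nonneg c]
    have y4 : |c| ≤ 4 * |C.ev p (ip a b)| := by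
      rw [u4, abs_mul, abs_mul, abs_of_pos v1, abs_of_pos w1]
      have z := abs_nonneg (C.ev p (ip a b))
      calc C.ev p φ * (C.ev p ψ * |C.ev p (ip a b)|) ≤ 2 * (2 * |C.ev p (ip a b)|) := by gcongr
        _ = 4 * |C.ev p (ip a b)| := by ring
    rw [map_sub, ev_smul, map_sub, map_add, map_one, u1]
    nlinarith [mul_nonneg (sub_nonneg.2 v3) (sub_nonneg.2 w3)]
  rw [integral_const_mul, ig_sub, ig_smul, ig_sub, ig_add, ig_one] at hi
  have g1 := (h4 M N C K τ hK hτ hP).2 a b na nb hab ea eb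
  have n1 := near C h3 hK hP na ea hφ
  have n2 := near C h3 hK hP nb eb hψ
  refine ⟨?_, s1, s2, q4⟩
  have : nq C (dpt 2 x) = ig C (ip (dpt 2 x) (dpt 2 x)) := rfl
  rw [this]
  nlinarith

end Two

open Two in
theorem s_two (h1 : S_SPEC) (h2 : S_ENER) (h3 : S_NEAR) (h4 : S_GRAM) (h5 : S_PROD2)
    (h6 : S_AB) (h7 : S_DDH) : S_TWO := by
  intro N hN
  have hK := KN_nonneg N
  have hNpos : (0 : ℝ) < N := Nat.cast_pos.2 hN
  refine ⟨min (1 / (4096 * (KN N + 1))) (1 / (72 * N * 2 ^ N)), by positivity, ?_⟩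
  intro M _ _ _ _ C ε t t' G W hW l a b hl ha hb na nb hab hWa hWb
  set δ := min (1 / (4096 * (KN N + 1))) (1 / (72 * N * 2 ^ N)) with hδ
  have hτ0 : 0 ≤ t + ε * N ^ 2 := by
    have := G.t0
    have := G.e0
    positivity
  have ht' : 0 < t' := lt_of_lt_of_le G.t0 G.tt
  have hδ1 : KN N * (t + ε * N ^ 2) ≤ (1 / 64) ^ 2 := by
    have h : t + ε * N ^ 2 ≤ 1 / (4096 * (KN N + 1)) := G.s1.trans (min_le_left _ _)
    calc KN N * (t + ε * N ^ 2) ≤ (KN N + 1) * (1 / (4096 * (KN N + 1))) :=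
          mul_le_mul (by linarith) h hτ0 (by linarith)
      _ = (1 / 64) ^ 2 := by
          field_simp
          norm_num
  have hδ2 : 36 * N * 2 ^ N * δ ≤ 1 / 2 := by
    have h : δ ≤ 1 / (72 * N * 2 ^ N) := min_le_right _ _
    calc 36 * (N : ℝ) * 2 ^ N * δ ≤ 36 * N * 2 ^ N * (1 / (72 * N * 2 ^ N)) :=
          mul_le_mul_of_nonneg_left h (by positivity)
      _ = 1 / 2 := by
          field_simp
          norm_num
  obtain ⟨-, e2, -, e4, -, e6⟩ := h1 M N C G.mo G.de G.re t G.t0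
  obtain ⟨-, -, f3, -⟩ := h1 M N C G.mo G.de G.re t' ht'
  have ha1 : a ∈ Ev C t := ha.1
  have hb1 : b ∈ Ev C t := hb.1
  have ea := en_le C h1 h2 G ha1 na
  have eb := en_le C h1 h2 G hb1 nb
  obtain ⟨φ, ψ, hφ, hψ, hor, hDD⟩ := h5 M N C (t + ε * N ^ 2) a b (e2 a ha1).1 (e2 b hb1).1 ea eb
  obtain ⟨b1, b2, b3, b4⟩ := big C h3 h4 h6 hK hτ0 G.po hW hl (e2 a ha1).1 ha.2 (e2 b hb1).1 hb.2
    hWa hWb na nb hab ea eb hφ hψ
  have hle := nq_DD_dpt C h7 hor b4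
  set x := dpt 2 (mulF (φ • a) (ψ • b)) with hx
  have hxdeg : Deg 2 x := deg_dpt _ _
  have hxhor : Hor C x := Hod.hor_dpt C 2 hor
  have hbig : 1 ≤ nq C x := by
    have : √(KN N * (t + ε * N ^ 2)) ≤ 1 / 64 := by
      rw [show (1 : ℝ) / 64 = √((1 / 64) ^ 2) from (Real.sqrt_sq (by norm_num)).symm]
      exact Real.sqrt_le_sqrt hδ1
    linarith
  obtain ⟨g, hg, hgo⟩ := e4 x hxhor
  have hg2 : dpt 2 g ∈ Ev C t := e6 g hg 2
  have hort : ∀ w ∈ Ev C t, pr C w (x - dpt 2 g) = 0 := by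
    intro w hw
    have : x - dpt 2 g = dpt 2 (x - g) := by rw [dpt_sub, dpt_self hxdeg]
    rw [this, pr_dpt]
    exact hgo _ (e6 w hw 2)
  have hvhor : Hor C (x - dpt 2 g) := (HorS C).sub_mem hxhor (e2 _ hg2).1
  have hv := f3 _ hvhor (fun u hu => hort u (G.ev ▸ hu))
  have hsymm := (h7 M N C).2.2.2.2.2.2.2.2.2.2.1
  have hpyth : nq C (DD C x) = nq C (DD C (x - dpt 2 g)) + nq C (DD C (dpt 2 g)) := by
    have e : DD C x = DD C (x - dpt 2 g) + DD C (dpt 2 g) := by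
      have h : DD C ((x - dpt 2 g) + dpt 2 g) = DD C (x - dpt 2 g) + DD C (dpt 2 g) :=
        map_add (DDL C) _ _
      rw [sub_add_cancel] at h
      exact h
    have o : pr C (DD C (x - dpt 2 g)) (DD C (dpt 2 g)) = 0 := by
      rw [hsymm, pr_comm]
      exact hort _ (e2 _ (e2 _ hg2).2.1).2.1
    rw [e, nq_add, o]
    ring
  have hsmall : nq C (x - dpt 2 g) ≤ 1 / 2 := by
    have k1 : t' * nq C (x - dpt 2 g) ≤ 36 * N * 2 ^ N * (t + ε * N ^ 2) := by
      have := nq_nonneg C (DD C (dpt 2 g))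
      linarith
    have k2 : 36 * (N : ℝ) * 2 ^ N * (t + ε * N ^ 2) ≤ 36 * N * 2 ^ N * (δ * t') :=
      mul_le_mul_of_nonneg_left G.s2 (by positivity)
    have k3 : 36 * (N : ℝ) * 2 ^ N * (δ * t') ≤ 1 / 2 * t' := by
      calc 36 * (N : ℝ) * 2 ^ N * (δ * t') = (36 * N * 2 ^ N * δ) * t' := by ring
        _ ≤ 1 / 2 * t' := mul_le_mul_of_nonneg_right hδ2 ht'.le
    have k4 : t' * nq C (x - dpt 2 g) ≤ t' * (1 / 2) := by linarith
    exact le_of_mul_le_mul_left k4 ht'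
  have hproj : ∀ c ∈ Ev C t, pr C x c = 0 → pr C (dpt 2 g) c = 0 := by
    intro c hc h
    have k := hort c hc
    rw [pr_sub_right, pr_comm C c x, h, zero_sub, neg_eq_zero, pr_comm] at k
    exact k
  refine ⟨dpt 2 g, ⟨hg2, deg_dpt 2 g⟩, ?_, hproj a ha1 b2, hproj b hb1 b3⟩
  intro h0
  rw [h0, sub_zero] at hsmall
  linarith

end Pool.Agent.H781.CM
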