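import Pool.Agent.H781.CM.SA
import Pool.Agent.H781.CM.Base
import Pool.Agent.H781.CM.Clim
import Pool.Agent.H781.CM.Ddh

/-!
Clifford multiplication by the volume form: `S_W4` from `S_LIN4`, `S_CLIF`, `S_CLIM`, `S_DDH`.
-/

set_option autoImplicit false
set_option synthInstance.maxHeartbeats 400000
set_option maxHeartbeats 4000000
set_option linter.unusedSectionVars false

open MeasureTheory Filter
open scoped Topology ContDiff

noncomputable section

namespace Pool.Agent.H781.CM

open Pool.Agent.H781.NG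

namespace W4f

section

variable {M : Type} [TopologicalSpace M] [CompactSpace M] [MeasurableSpace M] [BorelSpace M]
  {N : ℕ} (C : CD M N)

theorem evF_inj {u v : Fk N C.A} (h : ∀ p, evF C p u = evF C p v) : u = v := by
  funext S
  exact C.ext_ev _ _ fun p => congrFun (h p) S

/-- the projection matrix at a point -/
def Pp (p : M) : Fin N → Fin N → ℝ := fun a b => C.ev p (C.P a b)

theorem hor_ev {u : Fk N C.A} (hu : Hor C u) (p : M) : HorP (Pp C p) (evF C p u) := by
  intro c
  rw [← evF_an, hu c, evF_sum]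
  exact Finset.sum_congr rfl fun a _ => by
    rw [evF_smul, evF_an]
    rfl

theorem deg_ev {k : ℕ} {u : Fk N C.A} (hu : Deg k u) (p : M) : Deg k (evF C p u) := by
  intro S hS
  show C.ev p (u S) = 0
  rw [hu S hS, map_zero]

theorem deg_of_ev {k : ℕ} {u : Fk N C.A} (hu : ∀ p, Deg k (evF C p u)) : Deg k u := by
  intro S hS
  apply C.ext_ev
  intro p
  rw [map_zero]
  exact hu p S hS

end

end W4f

open W4f

theorem s_w4 (h1 : S_LIN4) (h2 : S_CLIF) (h3 : S_CLIM) (h4 : S_DDH) : S_W4 := by
  intro M _ _ _ _ N C W hW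
  obtain ⟨cl1, cl2, cl3, cl4, cl5, cl6, cl7⟩ := h2 N C.A
  obtain ⟨cm1, cm2, cm3, cm4⟩ := h3 M N C
  obtain ⟨d1, d2, d3, d4, -⟩ := h4 M N C
  have key := fun p : M => h1 N (Pp C p)
    (fun a b => by unfold Pp; rw [C.Psymm])
    (fun a c => by
      unfold Pp
      rw [← C.Pidem a c, map_sum]
      exact Finset.sum_congr rfl fun b _ => (map_mul _ _ _).symm)
    (by
      have h := congrArg (C.ev p) hW.tr
      rw [map_sum, map_ofNat] at h
      exact h)
    (evF C p W) (hor_ev C hW.hor p) (deg_ev C hW.deg p)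
    (by rw [← ev_ip, hW.one, map_one])
  have s1 : mulF W W = vac := evF_inj C fun p => by
    rw [evF_mulF, evF_vac]
    exact (key p).1
  have s5 : ∀ u, Hor C u → Deg 4 u → u = ip u W • W := fun u hu hd => evF_inj C fun p => by
    rw [evF_smul, ev_ip]
    exact (key p).2.2.2 _ (hor_ev C hu p) (deg_ev C hd p)
  have s2 : ∀ a, nab C.F a W = 0 := by
    intro a
    have e1 := s5 (nab C.F a W) (d1 a W hW.hor) (d4 4 a W hW.deg)
    have e2 := Boch.e_ip C.F a W W
    rw [hW.one, Derivation.map_one_eq_zero, ip_comm W (nab C.F a W)] at e2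
    have e3 : ip (nab C.F a W) W = 0 := by
      apply C.ext_ev
      intro p
      have e4 := congrArg (C.ev p) e2
      rw [map_add, map_zero] at e4
      rw [map_zero]
      linarith
    rw [e3, zero_smul] at e1
    exact e1
  refine ⟨s1, s2, fun p u hp hu hd => ?_, fun p u hp hu hd => ?_, s5, fun u hu => cm2 W u hW.hor hu,
    fun u v => ?_, fun u => ?_⟩
  · refine deg_of_ev C fun q => ?_
    rw [evF_mulF]
    exact (key q).2.1 p _ hp (hor_ev C hu q) (deg_ev C hd q)
  · refine evF_inj C fun q => ?_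
    rw [evF_zero]
    exact (key q).2.2.1 p _ hp (hor_ev C hu q) (deg_ev C hd q)
  · rw [cl6 4 W u (mulF W v) hW.deg, ← cl1, s1, cl2]
    norm_num
  · have H : Clim.CP N C.A := ⟨cl1, cl2, cl4, cl5⟩
    have hs : Clim.sgm W = W := by
      funext S
      unfold Clim.sgm
      by_cases hS : S.card = 4
      · rw [hS]
        norm_num
      · rw [hW.deg S hS, mul_zero]
    rw [DD_eq, DD_eq, Clim.mulB_eq W (∑ a, _), map_sum]
    refine Finset.sum_congr rfl fun a _ => ?_
    rw [cm1, s2]
    have h0 : mulF (0 : Fk N C.A) u = 0 := by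
      rw [Clim.mulB_eq, map_zero, LinearMap.zero_apply]
    rw [h0, zero_add]
    have e1 := H.cr_mul a W (nab C.F a u)
    have e2 := H.an_mul a W (nab C.F a u)
    have e3 := H.right a W (nab C.F a u)
    rw [hs] at e1 e2 e3
    rw [e1, e2]
    simp only [Clim.mulB_eq, map_add, map_sub, LinearMap.sub_apply] at e3 ⊢
    have e4 : (Clim.mulB (cr a W)) (nab C.F a u) = (Clim.mulB W) (cr a (nab C.F a u)) +
        (Clim.mulB W) (an a (nab C.F a u)) + (Clim.mulB (an a W)) (nab C.F a u) := by
      rw [e3]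
      abel
    rw [e4]
    abel

end Pool.Agent.H781.CM
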