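import Pool.Agent.H781.CM.All
import Pool.Agent.H781.CM.Nanco
import Pool.Agent.H781.CM.No4
import Pool.Agent.H781.CM.Gapx
import Pool.Agent.H781.CM.Odd
import Pool.Agent.H781.CM.Two
import Pool.Agent.H781.CM.Harm
import Pool.Agent.H781.CM.W4f
import Pool.Agent.H781.CM.Stk
import Pool.Agent.H781.CM.AB
import Pool.Agent.H781.CM.Prod2
import Pool.Agent.H781.CM.Lin4
import Pool.Agent.H781.CM.Gtr
import Pool.Agent.H781.CM.Phiw
import Pool.Agent.H781.CM.Gw4

/-!
Assembly of stage 2: an oriented closed 4-manifold with `b_1 = 0`, `b_2 = 2` and definite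
intersection form has no almost nonnegative curvature operator.
-/

set_option autoImplicit false

namespace Pool.Agent.H781.CM

theorem clif : S_CLIF := s_clif

theorem clim : S_CLIM := s_clim s_clif

theorem lin4 : S_LIN4 := s_lin4 clif

theorem w4 : S_W4 := s_w4 lin4 clif clim ddh

theorem prod2 : S_PROD2 := s_prod2 clif s_clin clim ener

theorem no4 : S_NO4 :=
  s_no4 (s_gapx dimS poin spec) (s_odd spec ener s_near gram prod2 clif ddh)
    (s_two spec ener s_near gram prod2 (s_ab w4 clif clim) ddh) (s_harm spec ddh) w4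
    (s_stk w4 clif clim ddh) hodge spec ddh

theorem nanco : S_NANCO :=
  s_nanco no4 s_gtr (s_phiw clif s_phi) (s_gw4 (s_drf s_phi) s_gtr s_phi lin4)
    (s_stk w4 clif clim ddh)

end Pool.Agent.H781.CM
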