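import Pool.Agent.H781.CM.QG

/-!
Finite diameter and scaling: nonnegative sectional curvature implies almost nonnegative sectional
curvature.
-/

set_option autoImplicit false

open Bundle Manifold ContDiff VectorField MeasureTheory Set Filter
open scoped Topology RealInnerProductSpace ENNReal

noncomputable section

namespace Pool.Agent.H781.CM.Q

open Pool.Agent.H821R2 Pool.Agent.H781.S22 Pool.Agent.H781.CM.F

namespace Ansc

section diam

variable {E : Type} [NormedAddCommGroup E] [NormedSpace ℝ E]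
  {H : Type} [TopologicalSpace H] {I : ModelWithCorners ℝ E H}
  {M : Type} [TopologicalSpace M] [ChartedSpace H M] [IsManifold I ∞ M]

/-- Finite diameter. -/
theorem finite_diam [CompactSpace M] [ConnectedSpace M]
    (g : ContMDiffRiemannianMetric I ∞ E (fun x : M => TangentSpace I x)) :
    ∃ L : ℝ, 0 ≤ L ∧ ∀ x y : M, ∃ γ : ℝ → M,
      ContMDiffOn 𝓘(ℝ, ℝ) I 1 γ (Set.Icc 0 1) ∧ γ 0 = x ∧ γ 1 = y ∧
      ∫ t in (0 : ℝ)..1, √(g.inner (γ t) (F.vel I γ t) (F.vel I γ t)) ≤ L := by
  let _ : RiemannianBundle (fun x : M => TangentSpace I x) := ⟨g.toRiemannianMetric⟩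
  have _ : IsManifold I 1 M := IsManifold.of_le (n := ∞) (by norm_num)
  have _ : IsContinuousRiemannianBundle E (fun x : M => TangentSpace I x) :=
    ⟨⟨g.inner, g.contMDiff.continuous, fun _ _ _ => rfl⟩⟩
  obtain ⟨x0⟩ := (inferInstance : Nonempty M)
  have hloc : ∀ x : M, ∀ᶠ y in 𝓝 x, riemannianEDist I x y < 1 := fun x =>
    eventually_riemannianEDist_lt I x one_pos
  have hclopen : IsClopen {y : M | riemannianEDist I x0 y < ⊤} := by
    constructor
    · rw [← isOpen_compl_iff, isOpen_iff_mem_nhds]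
      intro y hy
      filter_upwards [hloc y] with z hz
      intro hz'
      apply hy
      show riemannianEDist I x0 y < ⊤
      refine lt_of_le_of_lt (riemannianEDist_triangle (y := z)) ?_
      rw [riemannianEDist_comm (x := z)]
      exact ENNReal.add_lt_top.2 ⟨hz', hz.trans ENNReal.one_lt_top⟩
    · rw [isOpen_iff_mem_nhds]
      intro y hy
      filter_upwards [hloc y] with z hz
      exact lt_of_le_of_lt (riemannianEDist_triangle (y := y))
        (ENNReal.add_lt_top.2 ⟨hy, hz.trans ENNReal.one_lt_top⟩)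
  have huniv := hclopen.eq_univ ⟨x0, by simp [riemannianEDist_self]⟩
  have hfin : ∀ y : M, riemannianEDist I x0 y < ⊤ := fun y => by
    have : y ∈ {y : M | riemannianEDist I x0 y < ⊤} := by rw [huniv]; trivial
    exact this
  obtain ⟨t, -, ht⟩ := (isCompact_univ (X := M)).elim_nhds_subcover
    (fun x => {y | riemannianEDist I x y < 1}) (fun x _ => hloc x)
  set L0 : ℝ≥0∞ := ∑ x ∈ t, riemannianEDist I x0 x + 1 with hL0
  have hL0t : L0 < ⊤ := ENNReal.add_lt_top.2
    ⟨ENNReal.sum_lt_top.2 fun x _ => hfin x, ENNReal.one_lt_top⟩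
  have hd : ∀ y : M, riemannianEDist I x0 y ≤ L0 := by
    intro y
    obtain ⟨x, hx, hxy⟩ := Set.mem_iUnion₂.1 (ht (mem_univ y))
    refine le_trans (riemannianEDist_triangle (y := x)) ?_
    exact add_le_add (Finset.single_le_sum (f := fun x => riemannianEDist I x0 x)
      (fun i _ => bot_le) hx) hxy.le
  have hd2 : ∀ y z : M, riemannianEDist I y z < L0 + L0 + 1 := by
    intro y z
    have h1 : riemannianEDist I y z ≤ L0 + L0 := by
      refine le_trans (riemannianEDist_triangle (y := x0)) ?_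
      rw [riemannianEDist_comm (x := y)]
      exact add_le_add (hd y) (hd z)
    refine lt_of_le_of_lt h1 ?_
    exact ENNReal.lt_add_right (ENNReal.add_lt_top.2 ⟨hL0t, hL0t⟩).ne one_ne_zero
  have hLt : L0 + L0 + 1 ≠ ⊤ :=
    (ENNReal.add_lt_top.2 ⟨ENNReal.add_lt_top.2 ⟨hL0t, hL0t⟩, ENNReal.one_lt_top⟩).ne
  refine ⟨(L0 + L0 + 1).toReal, ENNReal.toReal_nonneg, fun x y => ?_⟩
  obtain ⟨γ, h0, h1, hγ, hlen⟩ := exists_lt_of_riemannianEDist_lt (hd2 x y)
  refine ⟨γ, hγ, h0, h1, ?_⟩
  rw [pathELength_eq_lintegral_mfderivWithin_Icc] at hlen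
  have hnorm : ∀ t : ℝ, √(g.inner (γ t) (F.vel I γ t) (F.vel I γ t)) = ‖F.vel I γ t‖ := by
    intro t
    rw [norm_eq_sqrt_real_inner]
    rfl
  simp only [hnorm]
  rw [intervalIntegral.integral_of_le zero_le_one, ← integral_Icc_eq_integral_Ioc]
  by_cases hm : AEStronglyMeasurable (fun t => ‖F.vel I γ t‖) (volume.restrict (Icc (0 : ℝ) 1))
  · rw [integral_eq_lintegral_of_nonneg_ae (Eventually.of_forall fun t => norm_nonneg _) hm]
    refine ENNReal.toReal_mono hLt ?_
    refine le_trans (le_of_eq ?_) hlen.le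
    refine lintegral_congr fun t => ?_
    rw [ofReal_norm]
    rfl
  · rw [integral_non_aestronglyMeasurable hm]
    exact ENNReal.toReal_nonneg

end diam

section scale

variable {E : Type} [NormedAddCommGroup E] [NormedSpace ℝ E]
  {H : Type} [TopologicalSpace H] {I : ModelWithCorners ℝ E H}
  {M : Type} [TopologicalSpace M] [ChartedSpace H M] [IsManifold I ∞ M]

/-- The scaled metric. -/
def smet (c : ℝ) (hc : 0 < c)
    (g : ContMDiffRiemannianMetric I ∞ E (fun x : M => TangentSpace I x)) :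
    ContMDiffRiemannianMetric I ∞ E (fun x : M => TangentSpace I x) where
  inner x := c • g.inner x
  symm x v w := by
    simp only [smul_apply, g.symm x v w]
  pos x v hv := by
    simp only [smul_apply, smul_eq_mul]
    exact mul_pos hc (g.pos x v hv)
  isVonNBounded x := by
    have h1 := (g.isVonNBounded x).image ((√c)⁻¹ • ContinuousLinearMap.id ℝ (TangentSpace I x))
    refine h1.subset ?_
    intro v hv
    simp only [smul_apply, smul_eq_mul, mem_ofPred_eq] at hv
    have hs : 0 < √c := Real.sqrt_pos.2 hc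
    refine ⟨√c • v, ?_, ?_⟩
    · show g.inner x (√c • v) (√c • v) < 1
      rw [map_smul, map_smul, smul_apply, smul_eq_mul, smul_eq_mul,
        ← mul_assoc, Real.mul_self_sqrt hc.le]
      exact hv
    · simp only [smul_apply, ContinuousLinearMap.id_apply, smul_smul,
        inv_mul_cancel₀ hs.ne', one_smul]
  contMDiff := by
    have h := g.contMDiff
    exact h.const_smul_section (a := c)

theorem smet_inner (c : ℝ) (hc : 0 < c)
    (g : ContMDiffRiemannianMetric I ∞ E (fun x : M => TangentSpace I x)) (x : M)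
    (v w : TangentSpace I x) : (smet c hc g).inner x v w = c * g.inner x v w := by
  simp [smet]

theorem lc_iff (c : ℝ) (hc : 0 < c)
    (g : ContMDiffRiemannianMetric I ∞ E (fun x : M => TangentSpace I x))
    (cov : CovariantDerivative I E (TangentSpace I : M → Type _)) :
    IsLeviCivita g cov → IsLeviCivita (smet c hc g) cov := by
  intro h
  refine ⟨h.smooth, ?_, h.torsionFree⟩
  intro X Y Z hX hY hZ x
  have h1 := h.metric hX hY hZ x
  simp only [smet_inner]
  rw [← mul_add, ← h1]
  have hsm : CMDiff ∞ (fun y => g.inner y (Y y) (Z y)) := by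
    let _ : RiemannianBundle (fun x : M => TangentSpace I x) := ⟨g.toRiemannianMetric⟩
    exact ContMDiff.inner_bundle (F := E) (E := fun x : M => TangentSpace I x) (IB := I) hY hZ
  have hd : MDiffAt (fun y => g.inner y (Y y) (Z y)) x :=
    (hsm x).mdifferentiableAt (by norm_num)
  have hc1 : MDiffAt (fun _ : M => c) x := mdifferentiableAt_const
  have h2 : (fun y => c * g.inner y (Y y) (Z y)) =
      (fun _ : M => c) • (fun y => g.inner y (Y y) (Z y)) := by
    funext y
    rfl
  rw [h2, mvfderiv_smul hc1 hd, mvfderiv_const]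
  simp

theorem smet_smet (c : ℝ) (hc : 0 < c)
    (g : ContMDiffRiemannianMetric I ∞ E (fun x : M => TangentSpace I x)) :
    smet c⁻¹ (inv_pos.2 hc) (smet c hc g) = g := by
  have h : (smet c⁻¹ (inv_pos.2 hc) (smet c hc g)).inner = g.inner := by
    funext x
    simp [smet, smul_smul, inv_mul_cancel₀ hc.ne']
  have key : ∀ g1 g2 : ContMDiffRiemannianMetric I ∞ E (fun x : M => TangentSpace I x),
      g1.inner = g2.inner → g1 = g2 := by
    rintro ⟨i1, _, _, _, _⟩ ⟨i2, _, _, _, _⟩ h12
    have h12' : i1 = i2 := h12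
    subst h12'
    rfl
  exact key _ _ h

theorem lc_iff' (c : ℝ) (hc : 0 < c)
    (g : ContMDiffRiemannianMetric I ∞ E (fun x : M => TangentSpace I x))
    (cov : CovariantDerivative I E (TangentSpace I : M → Type _)) :
    IsLeviCivita (smet c hc g) cov ↔ IsLeviCivita g cov := by
  refine ⟨fun h => ?_, lc_iff c hc g cov⟩
  have := lc_iff c⁻¹ (inv_pos.2 hc) _ cov h
  rwa [smet_smet] at this

/-- Cauchy-Schwarz. -/
theorem gram_nonneg (g : ContMDiffRiemannianMetric I ∞ E (fun x : M => TangentSpace I x)) (x : M)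
    (u v : TangentSpace I x) : 0 ≤ g.inner x u u * g.inner x v v - g.inner x u v ^ 2 := by
  by_cases hv : v = 0
  · subst hv
    simp
  · have hpos := g.pos x v hv
    have h1 : 0 ≤ g.inner x (u - (g.inner x u v / g.inner x v v) • v)
        (u - (g.inner x u v / g.inner x v v) • v) := by
      by_cases h : u - (g.inner x u v / g.inner x v v) • v = 0
      · rw [h]; simp
      · exact (g.pos x _ h).le
    have h2 : g.inner x (u - (g.inner x u v / g.inner x v v) • v)
        (u - (g.inner x u v / g.inner x v v) • v) =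
        g.inner x u u - g.inner x u v ^ 2 / g.inner x v v := by
      rw [map_sub, map_smul]
      simp only [sub_apply, smul_apply, map_sub, map_smul, smul_eq_mul]
      rw [g.symm x v u]
      field_simp
      ring
    rw [h2] at h1
    have h3 : 0 ≤ (g.inner x u u - g.inner x u v ^ 2 / g.inner x v v) * g.inner x v v :=
      mul_nonneg h1 hpos.le
    have h4 : (g.inner x u u - g.inner x u v ^ 2 / g.inner x v v) * g.inner x v v =
        g.inner x u u * g.inner x v v - g.inner x u v ^ 2 := by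
      field_simp
    rwa [h4] at h3

theorem sec_scale (c : ℝ) (hc : 0 < c)
    (g : ContMDiffRiemannianMetric I ∞ E (fun x : M => TangentSpace I x)) (hg : SecGE g 0)
    (ε : ℝ) (hε : 0 < ε) : SecGE (smet c hc g) (-ε) := by
  obtain ⟨⟨cov, R, h1, h2⟩, h3⟩ := hg
  refine ⟨⟨cov, R, lc_iff c hc g cov h1, h2⟩, ?_⟩
  intro cov' R' h1' h2' x u v
  have h4 := h3 cov' R' ((lc_iff' c hc g cov').1 h1') h2' x u v
  rw [zero_mul] at h4
  have h5 := gram_nonneg (smet c hc g) x u v
  have h6 : -ε * ((smet c hc g).inner x u u * (smet c hc g).inner x v v -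
      (smet c hc g).inner x u v ^ 2) ≤ 0 := by
    rw [neg_mul]
    exact neg_nonpos.2 (mul_nonneg hε.le h5)
  refine le_trans h6 ?_
  rw [smet_inner]
  exact mul_nonneg hc.le h4

end scale

end Ansc

theorem s_ansc : S_ANSC := by
  intro n M _ _ _ _ _ _ hn g hg ε hε
  obtain ⟨L, hL, hd⟩ := Ansc.finite_diam g
  have hc : 0 < ((L + 1) ^ 2)⁻¹ := by positivity
  refine ⟨Ansc.smet ((L + 1) ^ 2)⁻¹ hc g, ?_, Ansc.sec_scale _ hc g hg ε hε⟩
  intro x y η hη
  obtain ⟨γ, hγ, h0, h1, hlen⟩ := hd x y
  refine ⟨γ, hγ, h0, h1, ?_⟩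
  have hs : √(((L + 1) ^ 2)⁻¹) = (L + 1)⁻¹ := by
    rw [Real.sqrt_inv, Real.sqrt_sq (by positivity)]
  have heq : ∀ t, √((Ansc.smet ((L + 1) ^ 2)⁻¹ hc g).inner (γ t) (F.vel (𝓡 n) γ t)
      (F.vel (𝓡 n) γ t)) = (L + 1)⁻¹ * √(g.inner (γ t) (F.vel (𝓡 n) γ t) (F.vel (𝓡 n) γ t)) := by
    intro t
    rw [Ansc.smet_inner, Real.sqrt_mul hc.le, hs]
  simp only [heq]
  rw [intervalIntegral.integral_const_mul]
  have h2 : (L + 1)⁻¹ * ∫ t in (0 : ℝ)..1, √(g.inner (γ t) (F.vel (𝓡 n) γ t) (F.vel (𝓡 n) γ t)) ≤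
      (L + 1)⁻¹ * L := mul_le_mul_of_nonneg_left hlen (by positivity)
  have h3 : (L + 1)⁻¹ * L ≤ 1 := by
    rw [inv_mul_le_iff₀ (by positivity)]
    linarith
  linarith

end Pool.Agent.H781.CM.Q
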