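import Pool.Agent.H781.S22.Defs

/-!
Definitions for the final statement: diameter and curvature operator bounds, almost nonnegative
curvature operator, smooth differential forms, de Rham Betti numbers.
-/

open Bundle Manifold ContDiff VectorField
open scoped Topology

set_option autoImplicit false

noncomputable section

namespace Pool.Agent.H781.CM.F

open Pool.Agent.H821R2 Pool.Agent.H781.S22

section metric

variable {E : Type*} [NormedAddCommGroup E] [NormedSpace ℝ E]
  {H : Type*} [TopologicalSpace H] {I : ModelWithCorners ℝ E H}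
  {M : Type*} [TopologicalSpace M] [ChartedSpace H M] [IsManifold I ∞ M]

/-- All eigenvalues of the curvature operator are at least `c`: the Levi-Civita connection and the
Riemann tensor exist, and for them, at every point `x`, in every orthonormal frame of `N` vectors
of `T_x M` (and there is one), the matrix of the curvature operator is symmetric and all its
eigenvalues are at least `c`. -/
def CurvOpGE (N : ℕ) (g : ContMDiffRiemannianMetric I ∞ E (fun x : M => TangentSpace I x))
    (c : ℝ) : Prop :=
  (∃ (cov : CovariantDerivative I E (TangentSpace I : M → Type _)) (R : CurvField I M),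
    IsLeviCivita g cov ∧ IsRiemannTensor cov R) ∧
  ∀ (cov : CovariantDerivative I E (TangentSpace I : M → Type _)) (R : CurvField I M),
    IsLeviCivita g cov → IsRiemannTensor cov R → ∀ x : M,
      (∃ f : Fin N → TangentSpace I x, IsOrthonormalFrame g x f) ∧
      ∀ f : Fin N → TangentSpace I x, IsOrthonormalFrame g x f →
        ∃ h : (curvMatrix g R x f).IsHermitian, ∀ i, c ≤ h.eigenvalues i

omit [IsManifold I ∞ M] in
variable (I) in
/-- velocity of a curve on `[0, 1]` -/
def vel (γ : ℝ → M) (t : ℝ) : TangentSpace I (γ t) :=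
  mfderivWithin 𝓘(ℝ, ℝ) I γ (Set.Icc 0 1) t (1 : ℝ)

/-- The diameter is at most `L`: any two points are joined by `C¹` curves of length at most
`L + η`, for every `η > 0`. -/
def DiamLE (g : ContMDiffRiemannianMetric I ∞ E (fun x : M => TangentSpace I x)) (L : ℝ) : Prop :=
  ∀ x y : M, ∀ η : ℝ, 0 < η → ∃ γ : ℝ → M,
    ContMDiffOn 𝓘(ℝ, ℝ) I 1 γ (Set.Icc 0 1) ∧ γ 0 = x ∧ γ 1 = y ∧
      ∫ t in (0 : ℝ)..1, √(g.inner (γ t) (vel I γ t) (vel I γ t)) ≤ L + η

variable (I M) in
/-- The `N`-dimensional manifold `M` admits almost nonnegative curvature operator. -/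
def AdmitsANCO (N : ℕ) : Prop := ∀ ε : ℝ, 0 < ε →
  ∃ g : ContMDiffRiemannianMetric I ∞ E (fun x : M => TangentSpace I x),
    DiamLE g 1 ∧ CurvOpGE N g (-ε)

end metric

section forms

variable {E : Type*} [NormedAddCommGroup E] [NormedSpace ℝ E]
  {H : Type*} [TopologicalSpace H] (I : ModelWithCorners ℝ E H)
  (M : Type*) [TopologicalSpace M] [ChartedSpace H M]

/-- real functions of `p` tangent vectors at a point -/
abbrev DF (p : ℕ) : Type _ := Π x : M, (Fin p → TangentSpace I x) → ℝ

variable {I M} [IsManifold I ∞ M]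

/-- smooth differential forms of degree `p`: alternating multilinear on every tangent space, and
smooth on smooth vector fields -/
def IsForm {p : ℕ} (α : DF I M p) : Prop :=
  (∀ x, ∃ A : (TangentSpace I x) [⋀^Fin p]→ₗ[ℝ] ℝ, ∀ v, α x v = A v) ∧
  ∀ Y : Fin p → Π x : M, TangentSpace I x, (∀ i, CMDiff ∞ (T% (Y i))) →
    ContMDiff I 𝓘(ℝ, ℝ) ∞ (fun x => α x (fun i => Y i x))

/-- `β = dα`, by the invariant formula
`dα(Y_0, …, Y_p) = ∑_j (-1)^j Y_j(α(Y_0, …, Ŷ_j, …, Y_p)) +
  ∑_{i < j} (-1)^(i+j) α([Y_i, Y_j], Y_0, …, Ŷ_i, …, Ŷ_j, …, Y_p)`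
for smooth vector fields; in the second sum `[Y_i, Y_j]` is written at the place of `Y_i`, which
changes the sign to `(-1)^j`. -/
def IsD {p : ℕ} (α : DF I M p) (β : DF I M (p + 1)) : Prop :=
  ∀ Y : Fin (p + 1) → Π x : M, TangentSpace I x, (∀ i, CMDiff ∞ (T% (Y i))) → ∀ x,
    β x (fun i => Y i x) = ∑ j : Fin (p + 1), (-1 : ℝ) ^ (j : ℕ) *
      (d% (fun y => α y (fun k => j.removeNth Y k y)) x (Y j x) +
        ∑ i : Fin p, if (i : ℕ) < (j : ℕ) then
          α x (Function.update (fun k => j.removeNth Y k x) i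
            (mlieBracket I (Y i.castSucc) (Y j) x)) else 0)

/-- closed forms -/
def IsClosedForm {p : ℕ} (α : DF I M p) : Prop := IsForm α ∧ IsD α (fun _ _ => 0)

/-- exact forms -/
def IsExactForm : (p : ℕ) → DF I M p → Prop
  | 0, β => ∀ x v, β x v = 0
  | p + 1, β => ∃ α : DF I M p, IsForm α ∧ IsForm β ∧ IsD α β

variable (I M)

/-- The `p`-th de Rham cohomology (closed forms modulo exact forms) has dimension `b`: there are
`b` closed forms such that every closed form is, up to an exact form, a unique linear combination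
of them. -/
def IsBetti (p b : ℕ) : Prop := ∃ α : Fin b → DF I M p, (∀ i, IsClosedForm (α i)) ∧
  ∀ β : DF I M p, IsClosedForm β →
    ∃! c : Fin b → ℝ, IsExactForm p (fun x v => β x v - ∑ i, c i * α i x v)

end forms

end Pool.Agent.H781.CM.F
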