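import Pool.Agent.H781.CM.DR
import Pool.Agent.H781.CM.FDefs

/-!
Comparison of the definitions of `FDefs.lean` with those of `DR.lean`.
-/

set_option autoImplicit false
set_option synthInstance.maxHeartbeats 400000
set_option maxHeartbeats 4000000
set_option linter.unusedSectionVars false

open Bundle Manifold ContDiff VectorField MeasureTheory Filter
open scoped Topology

noncomputable section

namespace Pool.Agent.H781.CM

open Pool.Agent.H781.NG Pool.Agent.H821R2 Pool.Agent.H821R3 Pool.Agent.H893R5.HO
  Pool.Agent.H781.S22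

variable {n : ℕ} {M : Type} [TopologicalSpace M] [ChartedSpace (EU n) M] [IsManifold (𝓡 n) ∞ M]

/-- forget the alternating map structure -/
def toDF {p : ℕ} (α : AF n M p) : F.DF (𝓡 n) M p := fun x v => α x v

theorem toDF_inj {p : ℕ} {α β : AF n M p} (h : toDF α = toDF β) : α = β := by
  funext x
  exact AlternatingMap.ext fun v => congrFun (congrFun h x) v

theorem isForm_toDF {p : ℕ} {α : AF n M p} : F.IsForm (toDF α) ↔ SmF α :=
  ⟨fun h => h.2, fun h => ⟨fun x => ⟨α x, fun _ => rfl⟩, h⟩⟩

theorem exists_toDF {p : ℕ} {β : F.DF (𝓡 n) M p} (h : F.IsForm β) :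
    ∃ α : AF n M p, toDF α = β := by
  choose A hA using h.1
  exact ⟨A, funext fun x => funext fun v => (hA x v).symm⟩

theorem isD_toDF {p : ℕ} {α : AF n M p} {β : AF n M (p + 1)} :
    F.IsD (toDF α) (toDF β) ↔ IsExtD α β := Iff.rfl

theorem closed_toDF {p : ℕ} {α : AF n M p} : F.IsClosedForm (toDF α) ↔ α ∈ ZF n M p :=
  and_congr isForm_toDF Iff.rfl

theorem exact_toDF {p : ℕ} {α : AF n M p} : F.IsExactForm p (toDF α) ↔ α ∈ BF n M p := by
  cases p with
  | zero =>
    constructor
    · intro h
      have : α = 0 := toDF_inj (funext fun x => funext fun v => h x v)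
      rw [this]
      exact Submodule.zero_mem _
    · intro h
      have h0 : α = 0 := h
      rw [h0]
      intro x v
      rfl
  | succ p =>
    constructor
    · rintro ⟨γ, h1, h2, h3⟩
      obtain ⟨ω', rfl⟩ := exists_toDF h1
      exact ⟨ω', isForm_toDF.1 h1, isForm_toDF.1 h2, h3⟩
    · rintro ⟨γ, h1, h2, h3⟩
      exact ⟨toDF γ, isForm_toDF.2 h1, isForm_toDF.2 h2, h3⟩

theorem isBetti (p : ℕ) [Module.Finite ℝ (HF n M p)] :
    F.IsBetti (𝓡 n) M p (Module.finrank ℝ (HF n M p)) := by
  let e := Module.finBasis ℝ (HF n M p)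
  have hs : ∀ i, ∃ z : ZF n M p, Submodule.Quotient.mk z = e i := fun i =>
    Submodule.Quotient.mk_surjective _ (e i)
  choose z hz using hs
  refine ⟨fun i => toDF (z i : AF n M p), fun i => closed_toDF.2 (z i).2, ?_⟩
  intro β hβ
  obtain ⟨α, rfl⟩ := exists_toDF hβ.1
  have hα := closed_toDF.1 hβ
  have key : ∀ c : Fin (Module.finrank ℝ (HF n M p)) → ℝ,
      F.IsExactForm p (fun x v => toDF α x v - ∑ i, c i * toDF (z i : AF n M p) x v) ↔
        (Submodule.Quotient.mk (⟨α, hα⟩ : ZF n M p) : HF n M p) = ∑ i, c i • e i := by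
    intro c
    have h1 : (fun x v => toDF α x v - ∑ i, c i * toDF (z i : AF n M p) x v) =
        toDF (((⟨α, hα⟩ : ZF n M p) - ∑ i, c i • z i : ZF n M p) : AF n M p) := by
      funext x v
      have h2 : (((⟨α, hα⟩ : ZF n M p) - ∑ i, c i • z i : ZF n M p) : AF n M p) =
          α - ∑ i, c i • (z i : AF n M p) := by
        rw [Submodule.coe_sub, Submodule.coe_sum]
        rfl
      have h3 : ∀ (s : Finset (Fin (Module.finrank ℝ (HF n M p)))),
          toDF (∑ i ∈ s, c i • (z i : AF n M p)) x v =
            ∑ i ∈ s, c i * toDF (z i : AF n M p) x v := by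
        intro s
        classical
        induction s using Finset.induction_on with
        | empty => rfl
        | insert a s ha ih =>
          rw [Finset.sum_insert ha, Finset.sum_insert ha, ← ih]
          rfl
      rw [h2]
      change _ = α x v - toDF (∑ i, c i • (z i : AF n M p)) x v
      rw [h3]
      rfl
    rw [h1, exact_toDF]
    have h4 : (∑ i, c i • e i : HF n M p) =
        Submodule.Quotient.mk (∑ i, c i • z i : ZF n M p) := by
      change _ = Submodule.mkQ _ (∑ i, c i • z i : ZF n M p)
      rw [map_sum]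
      refine Finset.sum_congr rfl fun i _ => ?_
      rw [map_smul, Submodule.mkQ_apply, hz]
    rw [h4, Submodule.Quotient.eq]
    rfl
  refine ⟨fun i => e.repr (Submodule.Quotient.mk (⟨α, hα⟩ : ZF n M p)) i, ?_, ?_⟩
  · refine (key _).2 ?_
    exact (e.sum_repr _).symm
  · intro c hc
    have := (key c).1 hc
    funext i
    change c i = e.repr (Submodule.Quotient.mk (⟨α, hα⟩ : ZF n M p)) i
    rw [this, e.repr_sum_self]

end Pool.Agent.H781.CM
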