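import Pool.Agent.H781.CM.QM

/-!
Closed 1-forms on the chart domains of `M` and on their intersections (Q-27, by helper707 for
helper781).
-/

set_option autoImplicit false

open Bundle Manifold ContDiff VectorField
open scoped Topology ComplexConjugate

noncomputable section

namespace Pool.Agent.H781.CM.Q

open Pool.Agent.H781.CM.F

namespace Clm

theorem dm_surj (i j : Fin 2) {y : U4} (hy : y ∈ BD) (v : U4) :
    ∃ w : TangentSpace (𝓡 4) (psM i j y), dm (cM i j) (psM i j y) w = v :=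
  ⟨_, deriv_ch_ps i j hy v⟩

/-- the coordinate expression of a closed 1-form -/
theorem gen (i j : Fin 2) {O : Set M} (hO : IsOpen O) (hs : O ⊆ DM i j) {α : DF (𝓡 4) M 1}
    (h1 : IsFormOn O α) (h2 : IsDOn O α (fun _ _ => 0)) :
    ∃ a : EV 4 → EV 4 →L[ℝ] ℝ, ContDiffOn ℝ ∞ a (cM i j '' O) ∧ Co1 (cM i j) O α a ∧
      Cl1 (cM i j '' O) a := by
  obtain ⟨a, ha, hC⟩ := (s_t1 4 M BD (DM i j) (psM i j) (cM i j) (parM i j) O hO hs α).1 h1
  refine ⟨a, ha, hC, ?_⟩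
  have h3 := (s_t2 4 M BD (DM i j) (psM i j) (cM i j) (parM i j) O hO hs α (fun _ _ => 0) a
    ha hC).1 h2
  rintro y ⟨x, hx, rfl⟩ v w
  have hxD := hs hx
  have hyB : cM i j x ∈ BD := chM_mem hxD
  have hpx : psM i j (cM i j x) = x := psM_chM hxD
  obtain ⟨v', hv'⟩ := dm_surj i j hyB v
  obtain ⟨w', hw'⟩ := dm_surj i j hyB w
  have hmem : psM i j (cM i j x) ∈ O := by rw [hpx]; exact hx
  have h4 := h3 _ hmem (fun k => if k = 0 then v' else w')
  have e : cM i j (psM i j (cM i j x)) = cM i j x := chM_psM hyB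
  simp only [if_pos, if_neg (show ¬ ((1 : Fin 2) = 0) by decide), hv', hw', e] at h4
  exact (sub_eq_zero.1 h4.symm)

theorem img (i j : Fin 2) {O : Set M} (hs : O ⊆ DM i j) {V : Set U4}
    (h : ∀ y ∈ BD, psM i j y ∈ O ↔ y ∈ V) : cM i j '' O = BD ∩ V := by
  ext y
  constructor
  · rintro ⟨x, hx, rfl⟩
    have hB : cM i j x ∈ BD := chM_mem (hs hx)
    refine ⟨hB, (h _ hB).1 ?_⟩
    have : psM i j (cM i j x) = x := psM_chM (hs hx)
    rw [this]
    exact hx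
  · rintro ⟨hB, hV⟩
    exact ⟨psM i j y, (h y hB).2 hV, chM_psM hB⟩

/-- primitives in a chart -/
theorem prim (i j : Fin 2) {O : Set M} (hO : IsOpen O) (hs : O ⊆ DM i j) {f : U4 → ℝ}
    (hf : ContDiffOn ℝ ∞ f (cM i j '' O)) :
    ContMDiffOn (𝓡 4) 𝓘(ℝ, ℝ) ∞ (fun x => f (cM i j x)) O ∧
    ∀ x ∈ O, ∀ v : Fin 1 → TangentSpace (𝓡 4) x,
      fderiv ℝ f (cM i j x) (dm (cM i j) x (v 0)) =
        mvfderiv (𝓡 4) (fun x => f (cM i j x)) x (v 0) :=
  s_t5 4 M BD (DM i j) (psM i j) (cM i j) (parM i j) O hO hs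
    (fun x v => fderiv ℝ f (cM i j x) (dm (cM i j) x (v 0))) (fun y => fderiv ℝ f y)
    (fun _ _ _ => rfl) f hf (fun _ _ _ => rfl)

theorem dArg_scale (g t : ℝ) (hg : g ≠ 0) (z ζ : ℂ) :
    dArg (g • z) (g • ζ + t • z) = dArg z ζ := by
  have h1 : (conj (g • z) * (g • ζ + t • z)).im = (g * g) * (conj z * ζ).im := by
    simp only [Complex.mul_im, Complex.add_re, Complex.add_im, Complex.conj_re, Complex.conj_im,
      Complex.smul_re, Complex.smul_im, smul_eq_mul]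
    ring
  have h2 : Complex.normSq (g • z) = (g * g) * Complex.normSq z := by
    simp only [Complex.normSq_apply, Complex.smul_re, Complex.smul_im, smul_eq_mul]
    ring
  unfold dArg
  rw [h1, h2, mul_div_mul_left _ _ (mul_ne_zero hg hg)]

/-- `c1` as a linear map -/
def L1 : U4 →L[ℝ] ℂ :=
  (Complex.equivRealProdCLM.symm : (ℝ × ℝ) →L[ℝ] ℂ).comp
    ((EuclideanSpace.proj 0 : U4 →L[ℝ] ℝ).prod (EuclideanSpace.proj 1 : U4 →L[ℝ] ℝ))

/-- `c2` as a linear map -/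
def L2 : U4 →L[ℝ] ℂ :=
  (Complex.equivRealProdCLM.symm : (ℝ × ℝ) →L[ℝ] ℂ).comp
    ((EuclideanSpace.proj 2 : U4 →L[ℝ] ℝ).prod (EuclideanSpace.proj 3 : U4 →L[ℝ] ℝ))

theorem L1_apply (y : U4) : L1 y = c1 y := by
  apply Complex.ext <;> simp [L1, c1]

theorem L2_apply (y : U4) : L2 y = c2 y := by
  apply Complex.ext <;> simp [L2, c2]

/-- differentials of arguments in a chart -/
theorem dA_eq (i j : Fin 2) (w : M → ℂ) (L : U4 →L[ℝ] ℂ) (g : U4 → ℝ)
    (hg : ContDiffOn ℝ ∞ g BD) (hg0 : ∀ y ∈ BD, g y ≠ 0)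
    (hw : ∀ y ∈ BD, w (psM i j y) = g y • L y) {x : M} (hx : x ∈ DM i j)
    (v : Fin 1 → TangentSpace (𝓡 4) x) :
    dA w x v = dArg (L (cM i j x)) (L (dm (cM i j) x (v 0))) := by
  have hB : cM i j x ∈ BD := chM_mem hx
  have hgd : HasFDerivAt g (fderiv ℝ g (cM i j x)) (cM i j x) :=
    ((hg.contDiffAt (s_q0.open_BD.mem_nhds hB)).differentiableAt (by simp)).hasFDerivAt
  have hF : HasFDerivAt (fun y => g y • L y)
      (g (cM i j x) • L + (fderiv ℝ g (cM i j x)).smulRight (L (cM i j x))) (cM i j x) :=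
    hgd.smul L.hasFDerivAt
  have hev : w =ᶠ[𝓝 x] ((fun y => g y • L y) ∘ cM i j) := by
    filter_upwards [(isOpen_DM i j).mem_nhds hx] with q hq
    have hqB : cM i j q ∈ BD := chM_mem hq
    have h1 : psM i j (cM i j q) = q := psM_chM hq
    have h2 := hw _ hqB
    rw [h1] at h2
    exact h2
  have hcomp : mfderiv (𝓡 4) 𝓘(ℝ, ℂ) ((fun y => g y • L y) ∘ cM i j) x =
      (mfderiv 𝓘(ℝ, U4) 𝓘(ℝ, ℂ) (fun y => g y • L y) (cM i j x)).comp
        (mfderiv (𝓡 4) 𝓘(ℝ, U4) (cM i j) x) :=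
    mfderiv_comp x hF.differentiableAt.mdifferentiableAt (mdiff_chM hx)
  have hd : mfderiv (𝓡 4) 𝓘(ℝ, ℂ) w x (v 0) =
      g (cM i j x) • L (dm (cM i j) x (v 0)) +
        (fderiv ℝ g (cM i j x) (dm (cM i j) x (v 0))) • L (cM i j x) := by
    rw [hev.mfderiv_eq, hcomp, mfderiv_eq_fderiv, hF.fderiv]
    rfl
  have hwx : w x = g (cM i j x) • L (cM i j x) := hev.self_of_nhds
  exact (congrArg₂ dArg hwx hd).trans (dArg_scale _ _ (hg0 _ hB) _ _)

/-! ### the chart `(1, 1)` and the chart `(0, 0)` -/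

theorem normSq_h1 {u : ℂ} (hu : Complex.normSq u < 1) :
    Complex.normSq (h1 u) = 1 - Complex.normSq u := by
  unfold h1
  rw [Complex.normSq_ofReal, Real.mul_self_sqrt (by linarith)]

theorem rr11 {y : U4} (hy : y ∈ BD) : rr (psM 1 1 y : A) = 1 - Complex.normSq (c1 y) := by
  rw [psM_val hy, ← normSq_h1 hy.1]
  simp [rr, ps, Phi, Phi4, sg]

theorem ss11 {y : U4} (hy : y ∈ BD) : ss (psM 1 1 y : A) = 1 - Complex.normSq (c2 y) := by
  rw [psM_val hy, ← normSq_h1 hy.2]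
  simp [ss, ps, Phi, Phi4, sg]

theorem rr00 {y : U4} (hy : y ∈ BD) : rr (psM 0 0 y : A) = Complex.normSq (c1 y) := by
  rw [psM_val hy]
  simp [rr, ps, Phi, Phi4, sg]

theorem ss00 {y : U4} (hy : y ∈ BD) : ss (psM 0 0 y : A) = Complex.normSq (c2 y) := by
  rw [psM_val hy]
  simp [ss, ps, Phi, Phi4, sg]

theorem wm11 {y : U4} (hy : y ∈ BD) : wm (psM 1 1 y) =
    ((1 - Complex.normSq (c1 y)) * Real.sqrt (1 - Complex.normSq (c2 y))) • L2 y := by
  have h : wm (psM 1 1 y) = h1 (c1 y) ^ 2 * c2 y * h1 (c2 y) := by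
    unfold wm
    rw [psM_val hy]
    simp [ps, Phi, Phi4, sg]
  have h2 : h1 (c1 y) ^ 2 = ((1 - Complex.normSq (c1 y) : ℝ) : ℂ) := by
    unfold h1
    rw [← Complex.ofReal_pow, Real.sq_sqrt (by linarith [hy.1])]
  rw [h, h2, L2_apply, Complex.real_smul, Complex.ofReal_mul]
  unfold h1
  ring

theorem wq11 {y : U4} (hy : y ∈ BD) : wq (psM 1 1 y) =
    (Real.sqrt (1 - Complex.normSq (c1 y)) * Real.sqrt (1 - Complex.normSq (c2 y))) • L1 y := by
  have h : wq (psM 1 1 y) = c1 y * h1 (c1 y) * h1 (c2 y) := by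
    unfold wq
    rw [psM_val hy]
    simp [ps, Phi, Phi4, sg]
  rw [h, L1_apply, Complex.real_smul, Complex.ofReal_mul]
  unfold h1
  ring

theorem cd_n1 : ContDiffOn ℝ ∞ (fun y : U4 => 1 - Complex.normSq (c1 y)) BD :=
  (contDiff_const.sub (contDiff_normSq.comp contDiff_c1)).contDiffOn

theorem cd_n2 : ContDiffOn ℝ ∞ (fun y : U4 => 1 - Complex.normSq (c2 y)) BD :=
  (contDiff_const.sub (contDiff_normSq.comp contDiff_c2)).contDiffOn

theorem mem11a {y : U4} (hy : y ∈ BD) : psM 1 1 y ∈ DM 1 0 ∩ DM 1 1 ↔ y ∈ {y : U4 | c2 y ≠ 0} := by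
  have h1 : psM 1 1 y ∈ DM 1 0 ↔ 0 < rr (psM 1 1 y : A) ∧ ss (psM 1 1 y : A) < 1 := by
    simp [DM, OO]
  rw [Set.mem_inter_iff, h1, rr11 hy, ss11 hy]
  have h2 : 0 < 1 - Complex.normSq (c1 y) := by linarith [hy.1]
  have h3 : (1 - Complex.normSq (c2 y) < 1) ↔ c2 y ≠ 0 := by
    rw [← Complex.normSq_pos]
    constructor <;> intro h <;> linarith
  rw [h3]
  exact ⟨fun h => h.1.2, fun h => ⟨⟨h2, h⟩, psM_mem hy⟩⟩

theorem mem11b {y : U4} (hy : y ∈ BD) : psM 1 1 y ∈ DM 0 1 ∩ DM 1 1 ↔ y ∈ {y : U4 | c1 y ≠ 0} := by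
  have h1 : psM 1 1 y ∈ DM 0 1 ↔ rr (psM 1 1 y : A) < 1 ∧ 0 < ss (psM 1 1 y : A) := by
    simp [DM, OO]
  rw [Set.mem_inter_iff, h1, rr11 hy, ss11 hy]
  have h2 : 0 < 1 - Complex.normSq (c2 y) := by linarith [hy.2]
  have h3 : (1 - Complex.normSq (c1 y) < 1) ↔ c1 y ≠ 0 := by
    rw [← Complex.normSq_pos]
    constructor <;> intro h <;> linarith
  rw [h3]
  exact ⟨fun h => h.1.1, fun h => ⟨⟨h, h2⟩, psM_mem hy⟩⟩

theorem mem00 {y : U4} (hy : y ∈ BD) :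
    psM 0 0 y ∈ DM 0 0 ∩ {x : M | 0 < rr x.1 ∨ 0 < ss x.1} ↔ y ∈ {y : U4 | y ≠ 0} := by
  have h1 : psM 0 0 y ∈ {x : M | 0 < rr x.1 ∨ 0 < ss x.1} ↔
      0 < rr (psM 0 0 y : A) ∨ 0 < ss (psM 0 0 y : A) := Iff.rfl
  rw [Set.mem_inter_iff, h1, rr00 hy, ss00 hy, Complex.normSq_pos, Complex.normSq_pos]
  have h3 : (c1 y ≠ 0 ∨ c2 y ≠ 0) ↔ y ≠ 0 := by
    rw [← not_and_or, not_iff_not]
    constructor
    · rintro ⟨h, h'⟩
      rw [← mk_c y, h, h']
      ext i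
      fin_cases i <;> simp [mk]
    · rintro rfl
      constructor <;> apply Complex.ext <;> simp [c1, c2]
  rw [h3]
  exact ⟨fun h => h.2, fun h => ⟨psM_mem hy, h⟩⟩

theorem star_BD : StarConvex ℝ 0 BD := by
  intro y hy a b ha hb hab
  have h1 : c1 (a • (0 : U4) + b • y) = b • c1 y := by
    rw [← L1_apply, ← L1_apply, map_add, map_smul, map_smul, map_zero, smul_zero, zero_add]
  have h2 : c2 (a • (0 : U4) + b • y) = b • c2 y := by
    rw [← L2_apply, ← L2_apply, map_add, map_smul, map_smul, map_zero, smul_zero, zero_add]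
  have h3 : ∀ z : ℂ, Complex.normSq z < 1 → Complex.normSq (b • z) < 1 := by
    intro z hz
    have h4 : Complex.normSq (b • z) = (b * b) * Complex.normSq z := by
      simp only [Complex.normSq_apply, Complex.smul_re, Complex.smul_im, smul_eq_mul]
      ring
    have h5 : b * b ≤ 1 := by nlinarith
    have h6 := Complex.normSq_nonneg z
    rw [h4]
    nlinarith
  exact ⟨by rw [h1]; exact h3 _ hy.1, by rw [h2]; exact h3 _ hy.2⟩

end Clm

open Clm in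
theorem s_clm : S_CLM := by
  refine ⟨?_, ?_, ?_, ?_⟩
  · intro i j α hα hD
    obtain ⟨a, ha, hC, hcl⟩ := gen i j (isOpen_DM i j) subset_rfl hα hD
    have himg : cM i j '' DM i j = BD := by
      rw [img i j (V := Set.univ) subset_rfl (fun y hy => ⟨fun _ => trivial, fun _ => psM_mem hy⟩),
        Set.inter_univ]
    rw [himg] at ha hcl
    obtain ⟨f, hf, haf⟩ := s_h1a 4 BD s_q0.open_BD star_BD a ha hcl
    have hp := prim i j (isOpen_DM i j) subset_rfl (f := f) (by rw [himg]; exact hf)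
    refine ⟨fun x => f (cM i j x), hp.1, fun x hx v => ?_⟩
    have hy : cM i j x ∈ BD := chM_mem hx
    rw [← hp.2 x hx v, hC x hx v, haf _ hy]
  · intro α hα hD
    have hO : IsOpen (DM 1 0 ∩ DM 1 1) := (isOpen_DM 1 0).inter (isOpen_DM 1 1)
    have hs : DM 1 0 ∩ DM 1 1 ⊆ DM 1 1 := Set.inter_subset_right
    obtain ⟨a, ha, hC, hcl⟩ := gen 1 1 hO hs hα hD
    have himg : cM 1 1 '' (DM 1 0 ∩ DM 1 1) = BD ∩ {y | c2 y ≠ 0} := img 1 1 hs fun y hy => mem11a hy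
    rw [himg] at ha hcl
    obtain ⟨c, f, hf, haf⟩ := s_h1b a ha hcl
    have hp := prim 1 1 hO hs (f := f) (by rw [himg]; exact hf)
    refine ⟨c, fun x => f (cM 1 1 x), hp.1, fun x hx v => ?_⟩
    have hy : cM 1 1 x ∈ BD ∩ {y | c2 y ≠ 0} := by rw [← himg]; exact ⟨x, hx, rfl⟩
    have hdA : dA wm x v = dArg (L2 (cM 1 1 x)) (L2 (dm (cM 1 1) x (v 0))) :=
      dA_eq 1 1 wm L2 (fun y => (1 - Complex.normSq (c1 y)) * Real.sqrt (1 - Complex.normSq (c2 y)))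
        (cd_n1.mul (cd_n2.sqrt fun y hy => by linarith [hy.2]))
        (fun y hy => mul_ne_zero (by linarith [hy.1])
          (Real.sqrt_ne_zero'.2 (by linarith [hy.2]))) (fun y hy => wm11 hy) hx.2 v
    rw [L2_apply, L2_apply] at hdA
    rw [← hp.2 x hx v, hC x hx v, haf _ hy, hdA]
  · intro α hα hD
    have hO : IsOpen (DM 0 1 ∩ DM 1 1) := (isOpen_DM 0 1).inter (isOpen_DM 1 1)
    have hs : DM 0 1 ∩ DM 1 1 ⊆ DM 1 1 := Set.inter_subset_right
    obtain ⟨a, ha, hC, hcl⟩ := gen 1 1 hO hs hα hD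
    have himg : cM 1 1 '' (DM 0 1 ∩ DM 1 1) = BD ∩ {y | c1 y ≠ 0} := img 1 1 hs fun y hy => mem11b hy
    rw [himg] at ha hcl
    obtain ⟨c, f, hf, haf⟩ := s_h1c a ha hcl
    have hp := prim 1 1 hO hs (f := f) (by rw [himg]; exact hf)
    refine ⟨c, fun x => f (cM 1 1 x), hp.1, fun x hx v => ?_⟩
    have hy : cM 1 1 x ∈ BD ∩ {y | c1 y ≠ 0} := by rw [← himg]; exact ⟨x, hx, rfl⟩
    have hdA : dA wq x v = dArg (L1 (cM 1 1 x)) (L1 (dm (cM 1 1) x (v 0))) :=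
      dA_eq 1 1 wq L1
        (fun y => Real.sqrt (1 - Complex.normSq (c1 y)) * Real.sqrt (1 - Complex.normSq (c2 y)))
        ((cd_n1.sqrt fun y hy => by linarith [hy.1]).mul (cd_n2.sqrt fun y hy => by linarith [hy.2]))
        (fun y hy => mul_ne_zero (Real.sqrt_ne_zero'.2 (by linarith [hy.1]))
          (Real.sqrt_ne_zero'.2 (by linarith [hy.2]))) (fun y hy => wq11 hy) hx.2 v
    rw [L1_apply, L1_apply] at hdA
    rw [← hp.2 x hx v, hC x hx v, haf _ hy, hdA]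
  · intro α hα hD
    have himg : cM 0 0 '' (DM 0 0 ∩ {x : M | 0 < rr x.1 ∨ 0 < ss x.1}) = BD ∩ {y | y ≠ 0} :=
      img 0 0 Set.inter_subset_left fun y hy => mem00 hy
    have hO : IsOpen (DM 0 0 ∩ {x : M | 0 < rr x.1 ∨ 0 < ss x.1}) := by
      refine (isOpen_DM 0 0).inter ?_
      have h1 : Continuous (fun x : M => rr x.1) := by
        unfold rr
        fun_prop
      have h2 : Continuous (fun x : M => ss x.1) := by
        unfold ss
        fun_prop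
      exact (isOpen_lt continuous_const h1).union (isOpen_lt continuous_const h2)
    obtain ⟨a, ha, hC, hcl⟩ := gen 0 0 hO Set.inter_subset_left hα hD
    rw [himg] at ha hcl
    obtain ⟨f, hf, haf⟩ := s_h1d s_h1a s_h1b s_h1c a ha hcl
    have hp := prim 0 0 hO Set.inter_subset_left (f := f) (by rw [himg]; exact hf)
    refine ⟨fun x => f (cM 0 0 x), hp.1, fun x hx v => ?_⟩
    have hy : cM 0 0 x ∈ BD ∩ {y | y ≠ 0} := by rw [← himg]; exact ⟨x, hx, rfl⟩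
    rw [← hp.2 x hx v, hC x hx v, haf _ hy]

end Pool.Agent.H781.CM.Q
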