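import Pool.Agent.H781.CM.QM

/-!
The overlaps of the charts are connected.
-/

set_option autoImplicit false

open Bundle Manifold ContDiff VectorField
open scoped Topology ComplexConjugate

noncomputable section

namespace Pool.Agent.H781.CM.Q

namespace Cnn

theorem c1_mk (z w : ℂ) : c1 (mk z w) = z := by
  apply Complex.ext <;> simp [c1, mk]

theorem c2_mk (z w : ℂ) : c2 (mk z w) = w := by
  apply Complex.ext <;> simp [c2, mk]

theorem mk_c (x : U4) : mk (c1 x) (c2 x) = x := by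
  ext i
  fin_cases i <;> simp [c1, c2, mk]

theorem continuous_mk : Continuous fun p : ℂ × ℂ => mk p.1 p.2 := by
  have h : Continuous fun p : ℂ × ℂ => (![p.1.re, p.1.im, p.2.re, p.2.im] : Fin 4 → ℝ) := by
    refine continuous_pi fun i => ?_
    fin_cases i
    · exact Complex.continuous_re.comp continuous_fst
    · exact Complex.continuous_im.comp continuous_fst
    · exact Complex.continuous_re.comp continuous_snd
    · exact Complex.continuous_im.comp continuous_snd
  exact (PiLp.continuous_toLp 2 (fun _ : Fin 4 => ℝ)).comp h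

theorem normSq_h1 {u : ℂ} (hu : Complex.normSq u < 1) :
    Complex.normSq (h1 u) = 1 - Complex.normSq u := by
  unfold h1
  rw [Complex.normSq_ofReal, Real.mul_self_sqrt (by linarith)]

theorem rr_ps {i j : Fin 2} {y : U4} (hy : y ∈ BD) :
    rr (ps i j y) = if i = 0 then Complex.normSq (c1 y) else 1 - Complex.normSq (c1 y) := by
  change Complex.normSq (c2 (sg i j y).1) = _
  unfold sg
  dsimp only
  split_ifs
  · rw [c2_mk]
  · rw [c2_mk, normSq_h1 hy.1]

theorem ss_ps {i j : Fin 2} {y : U4} (hy : y ∈ BD) :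
    ss (ps i j y) = if j = 0 then Complex.normSq (c2 y) else 1 - Complex.normSq (c2 y) := by
  change Complex.normSq (c2 (sg i j y).2) = _
  unfold sg
  dsimp only
  split_ifs
  · rw [c2_mk]
  · rw [c2_mk, normSq_h1 hy.2]

theorem aux (k i : Fin 2) {u : ℂ} (hu : Complex.normSq u < 1) :
    (if k = 0 then (if i = 0 then Complex.normSq u else 1 - Complex.normSq u) < 1
      else 0 < (if i = 0 then Complex.normSq u else 1 - Complex.normSq u)) ↔ (k ≠ i → u ≠ 0) := by
  have h0 : 0 < Complex.normSq u ↔ u ≠ 0 := Complex.normSq_pos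
  fin_cases k <;> fin_cases i
  · simpa using hu
  · simp only [Fin.mk_one, Fin.zero_eta, if_true, one_ne_zero, if_false, ne_eq, zero_ne_one,
      not_false_eq_true, forall_const]
    rw [sub_lt_self_iff]
    exact h0
  · simp only [Fin.mk_one, Fin.zero_eta, if_true, one_ne_zero, if_false, ne_eq,
      not_false_eq_true, forall_const]
    exact h0
  · simpa using hu

theorem mem_iff {i j k l : Fin 2} {y : U4} (hy : y ∈ BD) :
    psM i j y ∈ DM k l ↔ (k ≠ i → c1 y ≠ 0) ∧ (l ≠ j → c2 y ≠ 0) := by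
  change (psM i j y : A) ∈ OO k l ↔ _
  rw [psM_val hy]
  change ((if k = 0 then rr (ps i j y) < 1 else 0 < rr (ps i j y)) ∧
    (if l = 0 then ss (ps i j y) < 1 else 0 < ss (ps i j y))) ↔ _
  rw [rr_ps hy, ss_ps hy]
  exact and_congr (aux k i hy.1) (aux l j hy.2)

theorem cong {X : Type} [TopologicalSpace X] {s t : Set X} (h : IsPreconnected s) (e : s = t) :
    IsPreconnected t := e ▸ h

theorem pre_disc (p : Prop) : IsPreconnected {u : ℂ | Complex.normSq u < 1 ∧ (p → u ≠ 0)} := by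
  by_cases hp : p
  · have h1 : IsPreconnected (Set.Ioo (0 : ℝ) 1 ×ˢ (Set.univ : Set ℝ)) :=
      isPreconnected_Ioo.prod isPreconnected_univ
    have h2 := h1.image (fun q : ℝ × ℝ => (q.1 : ℂ) * Complex.exp (q.2 * Complex.I))
      (by fun_prop)
    refine cong h2 ?_
    ext u
    constructor
    · rintro ⟨⟨ρ, t⟩, ⟨⟨h3, h4⟩, -⟩, rfl⟩
      have h5 : Complex.normSq ((ρ : ℂ) * Complex.exp (t * Complex.I)) = ρ ^ 2 := by
        rw [Complex.normSq_eq_norm_sq, norm_mul, Complex.norm_exp_ofReal_mul_I, mul_one,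
          Complex.norm_real, Real.norm_eq_abs, sq_abs]
      constructor
      · change Complex.normSq ((ρ : ℂ) * Complex.exp (t * Complex.I)) < 1
        rw [h5]
        nlinarith
      · intro _
        change (ρ : ℂ) * Complex.exp (t * Complex.I) ≠ 0
        exact mul_ne_zero (by exact_mod_cast h3.ne') (Complex.exp_ne_zero _)
    · rintro ⟨h3, h4⟩
      have h5 : 0 < ‖u‖ := norm_pos_iff.2 (h4 hp)
      refine ⟨(‖u‖, u.arg), ⟨⟨h5, ?_⟩, trivial⟩, Complex.norm_mul_exp_arg_mul_I u⟩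
      change ‖u‖ < 1
      rw [Complex.normSq_eq_norm_sq] at h3
      nlinarith
  · have : {u : ℂ | Complex.normSq u < 1 ∧ (p → u ≠ 0)} = Metric.ball 0 1 := by
      ext u
      rw [mem_ball_zero_iff]
      constructor
      · rintro ⟨h3, -⟩
        rw [Complex.normSq_eq_norm_sq] at h3
        nlinarith [norm_nonneg u]
      · intro h
        refine ⟨?_, fun h' => absurd h' hp⟩
        rw [Complex.normSq_eq_norm_sq]
        nlinarith [norm_nonneg u]
    rw [this]
    exact (convex_ball (0 : ℂ) 1).isPreconnected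

end Cnn

open Cnn in
theorem s_con : S_CON := by
  intro i j k l
  constructor
  · have h1 := (pre_disc (k ≠ i)).prod (pre_disc (l ≠ j))
    have hc : ContinuousOn (psM i j) BD := (psM_smooth i j).continuousOn
    have h2 : ContinuousOn (fun p : ℂ × ℂ => psM i j (mk p.1 p.2))
        ({u : ℂ | Complex.normSq u < 1 ∧ (k ≠ i → u ≠ 0)} ×ˢ
          {u : ℂ | Complex.normSq u < 1 ∧ (l ≠ j → u ≠ 0)}) := by
      refine hc.comp continuous_mk.continuousOn ?_
      rintro ⟨u, v⟩ ⟨⟨hu, -⟩, ⟨hv, -⟩⟩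
      change Complex.normSq (c1 (mk u v)) < 1 ∧ Complex.normSq (c2 (mk u v)) < 1
      rw [Cnn.c1_mk, Cnn.c2_mk]
      exact ⟨hu, hv⟩
    refine Cnn.cong (h1.image _ h2) ?_
    ext x
    constructor
    · rintro ⟨⟨u, v⟩, ⟨⟨hu, hu'⟩, ⟨hv, hv'⟩⟩, rfl⟩
      have hb : mk u v ∈ BD := by
        change Complex.normSq (c1 (mk u v)) < 1 ∧ Complex.normSq (c2 (mk u v)) < 1
        rw [Cnn.c1_mk, Cnn.c2_mk]
        exact ⟨hu, hv⟩
      refine ⟨psM_mem hb, (mem_iff hb).2 ?_⟩
      rw [Cnn.c1_mk, Cnn.c2_mk]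
      exact ⟨hu', hv'⟩
    · rintro ⟨h3, h4⟩
      have hb := chM_mem h3
      have hx := psM_chM h3
      rw [← hx] at h4
      have h5 := (mem_iff hb).1 h4
      refine ⟨(c1 (ch i j x.1), c2 (ch i j x.1)), ⟨⟨hb.1, h5.1⟩, ⟨hb.2, h5.2⟩⟩, ?_⟩
      change psM i j (mk (c1 (ch i j x.1)) (c2 (ch i j x.1))) = x
      rw [Cnn.mk_c, hx]
  · have hn : Complex.normSq (1 / 2 : ℂ) < 1 := by
      rw [Complex.normSq_eq_norm_sq]
      norm_num
    have hb : mk (1 / 2) (1 / 2) ∈ BD := by
      change Complex.normSq (c1 (mk (1 / 2) (1 / 2))) < 1 ∧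
        Complex.normSq (c2 (mk (1 / 2) (1 / 2))) < 1
      rw [Cnn.c1_mk, Cnn.c2_mk]
      exact ⟨hn, hn⟩
    refine ⟨psM 0 0 (mk (1 / 2) (1 / 2)), fun i j => (mem_iff hb).2 ?_⟩
    rw [Cnn.c1_mk, Cnn.c2_mk]
    exact ⟨fun _ => by norm_num, fun _ => by norm_num⟩

end Pool.Agent.H781.CM.Q
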