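import Pool.Agent.H781.CM.GDefs

/-!
Differential forms, de Rham cohomology, Euler characteristic, almost nonnegative curvature
operator.
-/

set_option autoImplicit false
set_option synthInstance.maxHeartbeats 400000
set_option maxHeartbeats 4000000
set_option linter.unusedSectionVars false

open Bundle Manifold ContDiff VectorField MeasureTheory Filter
open scoped Topology

noncomputable section

namespace Pool.Agent.H781.CM

open Pool.Agent.H781.NG Pool.Agent.H821R2 Pool.Agent.H821R3 Pool.Agent.H893R5.HO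
  Pool.Agent.H781.S22

variable (n : ℕ) (M : Type) [TopologicalSpace M] [ChartedSpace (EU n) M] [IsManifold (𝓡 n) ∞ M]

omit [IsManifold (𝓡 n) ∞ M] in
/-- fields of alternating `p`-forms on the tangent spaces -/
def AF (p : ℕ) : Type := Π x : M, (TangentSpace (𝓡 n) x) [⋀^Fin p]→ₗ[ℝ] ℝ

instance (p : ℕ) : AddCommGroup (AF n M p) :=
  inferInstanceAs (AddCommGroup (Π x : M, (TangentSpace (𝓡 n) x) [⋀^Fin p]→ₗ[ℝ] ℝ))

instance (p : ℕ) : Module ℝ (AF n M p) :=
  inferInstanceAs (Module ℝ (Π x : M, (TangentSpace (𝓡 n) x) [⋀^Fin p]→ₗ[ℝ] ℝ))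

variable {n M} in
/-- smooth differential forms: the value on smooth vector fields is a smooth function -/
def SmF {p : ℕ} (α : AF n M p) : Prop :=
  ∀ Y : Fin p → VF n M, (∀ i, SmV (Y i)) → Sm (𝓡 n) (fun x => α x (fun i => Y i x))

variable {n M} in
/-- The right-hand side of the invariant formula for the exterior derivative,
`∑_j (-1)^j Y_j(α(Y_0, …, Ŷ_j, …, Y_p)) +
  ∑_{i < j} (-1)^(i+j) α([Y_i, Y_j], Y_0, …, Ŷ_i, …, Ŷ_j, …, Y_p)`;
in the second sum `[Y_i, Y_j]` is written at the place of `Y_i`, which changes the sign to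
`(-1)^j`. -/
def extD {p : ℕ} (α : AF n M p) (Y : Fin (p + 1) → VF n M) (x : M) : ℝ :=
  ∑ j : Fin (p + 1), (-1 : ℝ) ^ (j : ℕ) *
    (der (Y j) (fun y => α y (fun k => j.removeNth Y k y)) x +
      ∑ i : Fin p, if (i : ℕ) < (j : ℕ) then
        α x (Function.update (fun k => j.removeNth Y k x) i
          (mlieBracket (𝓡 n) (Y i.castSucc) (Y j) x)) else 0)

variable {n M} in
/-- `η` is the exterior derivative of `α` -/
def IsExtD {p : ℕ} (α : AF n M p) (η : AF n M (p + 1)) : Prop :=
  ∀ Y : Fin (p + 1) → VF n M, (∀ i, SmV (Y i)) → ∀ x, η x (fun i => Y i x) = extD α Y x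

variable {n M} in
theorem SmF.add {p : ℕ} {α η : AF n M p} (h : SmF α) (h' : SmF η) : SmF (α + η) :=
  fun Y hY => Sm.add (h Y hY) (h' Y hY)

variable {n M} in
theorem SmF.smul {p : ℕ} {α : AF n M p} (c : ℝ) (h : SmF α) : SmF (c • α) :=
  fun Y hY => Sm.cmul c (h Y hY)

variable {n M} in
theorem SmF.zero {p : ℕ} : SmF (0 : AF n M p) := fun _ _ => Sm.const 0

variable {n M} in
theorem extD_add {p : ℕ} {α η : AF n M p} (h : SmF α) (h' : SmF η) (Y : Fin (p + 1) → VF n M)
    (hY : ∀ i, SmV (Y i)) (x : M) : extD (α + η) Y x = extD α Y x + extD η Y x := by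
  unfold extD
  rw [← Finset.sum_add_distrib]
  refine Finset.sum_congr rfl fun j _ => ?_
  have h1 : der (Y j) (fun y => (α + η) y (fun k => j.removeNth Y k y)) x =
      der (Y j) (fun y => α y (fun k => j.removeNth Y k y)) x +
      der (Y j) (fun y => η y (fun k => j.removeNth Y k y)) x :=
    congrFun (der_add (Z := Y j) (h (j.removeNth Y) fun i => hY _)
      (h' (j.removeNth Y) fun i => hY _)) x
  rw [h1, ← mul_add]
  congr 1
  have h2 : ∀ i : Fin p, (if (i : ℕ) < (j : ℕ) then
        (α + η) x (Function.update (fun k => j.removeNth Y k x) i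
          (mlieBracket (𝓡 n) (Y i.castSucc) (Y j) x)) else 0) =
      (if (i : ℕ) < (j : ℕ) then
        α x (Function.update (fun k => j.removeNth Y k x) i
          (mlieBracket (𝓡 n) (Y i.castSucc) (Y j) x)) else 0) +
      (if (i : ℕ) < (j : ℕ) then
        η x (Function.update (fun k => j.removeNth Y k x) i
          (mlieBracket (𝓡 n) (Y i.castSucc) (Y j) x)) else 0) := by
    intro i
    split_ifs
    · rfl
    · exact (add_zero 0).symm
  rw [Finset.sum_congr rfl fun i _ => h2 i, Finset.sum_add_distrib]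
  ring

variable {n M} in
theorem extD_smul {p : ℕ} {α : AF n M p} (c : ℝ) (h : SmF α) (Y : Fin (p + 1) → VF n M)
    (hY : ∀ i, SmV (Y i)) (x : M) : extD (c • α) Y x = c * extD α Y x := by
  unfold extD
  rw [Finset.mul_sum]
  refine Finset.sum_congr rfl fun j _ => ?_
  have h1 : der (Y j) (fun y => (c • α) y (fun k => j.removeNth Y k y)) x =
      c * der (Y j) (fun y => α y (fun k => j.removeNth Y k y)) x :=
    congrFun (der_cmul (Z := Y j) c (h (j.removeNth Y) fun i => hY _)) x
  have h2 : ∀ i : Fin p, (if (i : ℕ) < (j : ℕ) then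
        (c • α) x (Function.update (fun k => j.removeNth Y k x) i
          (mlieBracket (𝓡 n) (Y i.castSucc) (Y j) x)) else 0) =
      c * (if (i : ℕ) < (j : ℕ) then
        α x (Function.update (fun k => j.removeNth Y k x) i
          (mlieBracket (𝓡 n) (Y i.castSucc) (Y j) x)) else 0) := by
    intro i
    split_ifs
    · rfl
    · exact (mul_zero c).symm
  rw [h1, Finset.sum_congr rfl fun i _ => h2 i, ← Finset.mul_sum]
  ring

variable {n M} in
theorem IsExtD.add {p : ℕ} {α α' : AF n M p} {η η' : AF n M (p + 1)} (h1 : SmF α) (h2 : SmF α')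
    (h : IsExtD α η) (h' : IsExtD α' η') : IsExtD (α + α') (η + η') := by
  intro Y hY x
  rw [extD_add h1 h2 Y hY, ← h Y hY, ← h' Y hY]
  rfl

variable {n M} in
theorem IsExtD.smul {p : ℕ} {α : AF n M p} {η : AF n M (p + 1)} (c : ℝ) (h1 : SmF α)
    (h : IsExtD α η) : IsExtD (c • α) (c • η) := by
  intro Y hY x
  rw [extD_smul c h1 Y hY, ← h Y hY]
  rfl

/-- closed smooth `p`-forms -/
def ZF (p : ℕ) : Submodule ℝ (AF n M p) where
  carrier := {α | SmF α ∧ IsExtD α 0}
  add_mem' := fun {α η} h h' => ⟨h.1.add h'.1, by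
    have := IsExtD.add h.1 h'.1 h.2 h'.2
    rwa [add_zero] at this⟩
  zero_mem' := ⟨SmF.zero, by
    have := IsExtD.smul (n := n) (M := M) (p := p) (0 : ℝ) SmF.zero (α := 0) (η := 0) (by
      intro Y hY x
      have h := extD_add (n := n) (M := M) (p := p) SmF.zero SmF.zero Y hY x (α := 0) (η := 0)
      rw [add_zero] at h
      have h0 : extD (0 : AF n M p) Y x = 0 := by linarith
      rw [h0]
      rfl)
    rwa [zero_smul, zero_smul] at this⟩
  smul_mem' := fun c α h => ⟨h.1.smul c, by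
    have := IsExtD.smul c h.1 h.2
    rwa [smul_zero] at this⟩

/-- exact `p`-forms -/
def BF : (p : ℕ) → Submodule ℝ (AF n M p)
  | 0 => ⊥
  | p + 1 =>
    { carrier := {η | ∃ α : AF n M p, SmF α ∧ SmF η ∧ IsExtD α η}
      add_mem' := by
        rintro η η' ⟨α, h1, h2, h3⟩ ⟨α', h1', h2', h3'⟩
        exact ⟨α + α', h1.add h1', h2.add h2', IsExtD.add h1 h1' h3 h3'⟩
      zero_mem' := ⟨0, SmF.zero, SmF.zero, (ZF n M p).zero_mem.2⟩
      smul_mem' := by
        rintro c η ⟨α, h1, h2, h3⟩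
        exact ⟨c • α, h1.smul c, h2.smul c, IsExtD.smul c h1 h3⟩ }

/-- de Rham cohomology -/
abbrev HF (p : ℕ) : Type := ZF n M p ⧸ (BF n M p).comap (ZF n M p).subtype

/-- the Euler characteristic of a closed `n`-manifold: alternating sum of the dimensions of the de
Rham cohomology groups -/
def eulerChar : ℤ := ∑ p ∈ Finset.range (n + 1), (-1 : ℤ) ^ p * (Module.finrank ℝ (HF n M p) : ℤ)

variable {n M}

/-- the curvature operator is at least `c`: the Levi-Civita connection and the Riemann tensor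
exist, and for them, at every point `x`, in every orthonormal frame of `T_x M` (and there is one),
the matrix of the curvature operator is symmetric and all its eigenvalues are at least `c`. -/
def CurvOpGE (g : Met n M) (c : ℝ) : Prop :=
  (∃ (cov : Cov n M) (R : CurvField (𝓡 n) M), IsLeviCivita g cov ∧ IsRiemannTensor cov R) ∧
  ∀ (cov : Cov n M) (R : CurvField (𝓡 n) M), IsLeviCivita g cov → IsRiemannTensor cov R →
    ∀ x : M, (∃ f : Fin n → TangentSpace (𝓡 n) x, IsOrthonormalFrame g x f) ∧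
      ∀ f : Fin n → TangentSpace (𝓡 n) x, IsOrthonormalFrame g x f →
        ∃ h : (curvMatrix g R x f).IsHermitian, ∀ i, c ≤ h.eigenvalues i

/-- velocity of a curve on `[0, 1]` -/
def vel (γ : ℝ → M) (t : ℝ) : TangentSpace (𝓡 n) (γ t) :=
  mfderivWithin 𝓘(ℝ, ℝ) (𝓡 n) γ (Set.Icc 0 1) t (1 : ℝ)

/-- the diameter is at most `L`: any two points are joined by `C¹` curves of length at most
`L + η`, for every `η > 0` -/
def DiamLE (g : Met n M) (L : ℝ) : Prop := ∀ x y : M, ∀ η : ℝ, 0 < η → ∃ γ : ℝ → M,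
  ContMDiffOn 𝓘(ℝ, ℝ) (𝓡 n) 1 γ (Set.Icc 0 1) ∧ γ 0 = x ∧ γ 1 = y ∧
    ∫ t in (0 : ℝ)..1, √(g.inner (γ t) (vel γ t) (vel γ t)) ≤ L + η

variable (n M)

/-- almost nonnegative curvature operator -/
def AdmitsANCO : Prop := ∀ ε : ℝ, 0 < ε → ∃ g : Met n M, DiamLE g 1 ∧ CurvOpGE g (-ε)

end Pool.Agent.H781.CM
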