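import Pool.Agent.H781.CM.Lin

/-!
Abstract data of a closed Riemannian manifold: the algebra `A` of smooth functions, finitely many
vector fields `e a` (derivations) forming a Parseval frame, the projection `P` of the trivial bundle
`ℝ^N = T ⊕ ν` to `T`, a metric connection of `ℝ^N` preserving `T` which is the Levi-Civita connection
on `T`, the volume measure.
-/

set_option autoImplicit false
set_option synthInstance.maxHeartbeats 400000
set_option maxHeartbeats 4000000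

open MeasureTheory Filter
open scoped Topology ContDiff

noncomputable section

namespace Pool.Agent.H781.CM

open Pool.Agent.H781.NG

variable {M : Type} [TopologicalSpace M] [CompactSpace M] [MeasurableSpace M] [BorelSpace M]

variable (M) in
/-- Data of a closed Riemannian manifold with underlying compact space `M`. `E_a` (`a < N`) is the
standard frame of the trivial bundle `ℝ^N = T ⊕ ν`, `P` the orthogonal projection to the tangent
bundle `T`, `F.e a` the derivation given by the vector field `P E_a`, `F.Γ` the connection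
`∇^(Levi-Civita) ⊕ ∇^ν` in the frame `E`. -/
structure CD (N : ℕ) where
  /-- the algebra of smooth functions -/
  A : Type
  [ring : CommRing A]
  [alg : Algebra ℝ A]
  /-- value at a point -/
  ev : M → A →ₐ[ℝ] ℝ
  ext_ev : ∀ f g : A, (∀ p, ev p f = ev p g) → f = g
  cont : ∀ f : A, Continuous (fun p => ev p f)
  /-- smooth functions of smooth functions are smooth -/
  comp : ∀ (f : A) (φ : ℝ → ℝ) (U : Set ℝ), IsOpen U → ContDiffOn ℝ ∞ φ U →
    (∀ p, ev p f ∈ U) → ∃ g : A, ∀ p, ev p g = φ (ev p f)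
  F : Fr N A
  /-- chain rule -/
  chain : ∀ (f g : A) (φ : ℝ → ℝ) (U : Set ℝ), IsOpen U → ContDiffOn ℝ ∞ φ U →
    (∀ p, ev p f ∈ U) → (∀ p, ev p g = φ (ev p f)) →
    ∀ a p, ev p (F.e a g) = deriv φ (ev p f) * ev p (F.e a f)
  P : Fin N → Fin N → A
  Psymm : ∀ a b, P a b = P b a
  Pidem : ∀ a c, ∑ b, P a b * P b c = P a c
  Pe : ∀ a f, ∑ b, P a b * F.e b f = F.e a f
  PG : ∀ a b c, ∑ d, P a d * F.Γ d b c = F.Γ a b c
  /-- `P` is parallel -/
  Ppar : ∀ a b c, F.e a (P b c) = ∑ d, (F.Γ a b d * P d c + F.Γ a c d * P b d)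
  /-- first Bianchi identity of the curvature of `T` -/
  bianchi : ∀ a b c d,
    ∑ c', P c c' * Rm F a b c' d + ∑ c', P a c' * Rm F b c c' d + ∑ c', P b c' * Rm F c a c' d = 0
  /-- the normalised volume measure -/
  μ : Measure M
  prob : IsProbabilityMeasure μ
  pos : ∀ U : Set M, IsOpen U → U.Nonempty → 0 < μ U
  /-- divergence theorem -/
  div : ∀ f : Fin N → A, ∫ p, ev p (dv F f) ∂μ = 0

attribute [instance] CD.ring CD.alg

variable {N : ℕ} (C : CD M N)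

/-- constants -/
def cs (c : ℝ) : C.A := algebraMap ℝ C.A c

/-- integral of a smooth function -/
def ig (f : C.A) : ℝ := ∫ p, C.ev p f ∂C.μ

/-- `L²` product of forms -/
def pr (u v : Fk N C.A) : ℝ := ig C (ip u v)

/-- squared `L²` norm -/
def nq (u : Fk N C.A) : ℝ := ig C (ip u u)

/-- energy -/
def en (u : Fk N C.A) : ℝ := ∑ a, nq C (nab C.F a u)

/-- the Dirac operator `d + δ` -/
def DD (u : Fk N C.A) : Fk N C.A := dd C.F u + de C.F u

/-- horizontal elements of `Λ ℝ^N = Λ T ⊗ Λ ν`: the differential forms on the manifold -/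
def Hor (u : Fk N C.A) : Prop := ∀ c, an c u = ∑ a, C.P c a • an a u

/-- hessian of a function -/
def Hs (h : C.A) (a b : Fin N) : C.A := C.F.e a (C.F.e b h) - ∑ c, C.F.Γ a b c * C.F.e c h

/-- Laplacian of a function -/
def Lap (h : C.A) : C.A := ∑ a, Hs C h a a

/-- `|∇ h|²` -/
def gsq (h : C.A) : C.A := ∑ a, C.F.e a h * C.F.e a h

/-- the curvature operator is at least `-ε` (in a suitable normalisation) -/
def CurvGE (ε : ℝ) : Prop := ∀ (p : M) (w : Fin N → Fin N → ℝ), (∀ a b, w a b = - w b a) →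
  (∀ a b, ∑ c, C.ev p (C.P a c) * w c b = w a b) →
  - ε * ∑ a, ∑ b, w a b ^ 2 ≤ - ∑ a, ∑ b, ∑ c, ∑ d, C.ev p (Rm C.F a b c d) * w a b * w c d

/-- maximum principle -/
def MaxP : Prop := ∀ (h : C.A) (p : M), (∀ q, C.ev q h ≤ C.ev p h) →
  (∀ a, C.ev p (C.F.e a h) = 0) ∧ ∀ a, C.ev p (C.F.e a (C.F.e a h)) ≤ 0

/-- the diameter is at most one -/
def DiamOne : Prop := ∀ (h : C.A) (c : ℝ), 0 ≤ c → (∀ p, C.ev p (gsq C h) ≤ c ^ 2) →
  ∀ x y, |C.ev x h - C.ev y h| ≤ c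

/-- the finite rank operator `f ↦ ∑ ⟨ψ_j, f⟩ φ_j` -/
def fr {k : ℕ} (φ ψ : Fin k → C.A) (f : C.A) : C.A := ∑ j, ig C (ψ j * f) • φ j

/-- existence of mollifiers -/
def Moll : Prop := ∃ (k : ℕ → ℕ) (φ ψ : ∀ m, Fin (k m) → C.A),
  (∃ K : ℝ, ∀ m f, ig C (fr C (φ m) (ψ m) f ^ 2) ≤ K * ig C (f ^ 2)) ∧
  (∀ f, Tendsto (fun m => ig C ((fr C (φ m) (ψ m) f - f) ^ 2)) atTop (𝓝 0)) ∧
  (∀ (a : C.A) (s : Fin N), ∃ K : ℝ, ∀ m f,
    ig C ((a * C.F.e s (fr C (φ m) (ψ m) f) - fr C (φ m) (ψ m) (a * C.F.e s f)) ^ 2) ≤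
      K * ig C (f ^ 2)) ∧
  ∃ ε : ℕ → ℝ, Tendsto ε atTop (𝓝 0) ∧ ∀ m f,
    ig C ((f - fr C (φ m) (ψ m) f) ^ 2) ≤ ε m * (ig C (f ^ 2) + ∑ s, ig C (C.F.e s f ^ 2))

/-- smooth functions are dense in `L²` -/
def Dense2 : Prop := ∀ u : M → ℝ, MemLp u 2 C.μ → ∀ ε : ℝ, 0 < ε →
  ∃ f : C.A, ∫ p, (u p - C.ev p f) ^ 2 ∂C.μ ≤ ε

/-- the adjoint of the derivation `e s` -/
def adj (s : Fin N) (φ : C.A) : C.A := - C.F.e s φ - (∑ b, C.F.Γ b s b) * φ

/-- `Wk k u`: `u` has weak derivatives of order `≤ k` in `L²` -/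
def Wk : ℕ → (M → ℝ) → Prop
  | 0, u => MemLp u 2 C.μ
  | k + 1, u => MemLp u 2 C.μ ∧ ∀ s : Fin N, ∃ v : M → ℝ, Wk k v ∧
      ∀ φ : C.A, ∫ p, v p * C.ev p φ ∂C.μ = ∫ p, u p * C.ev p (adj C s φ) ∂C.μ

/-- functions with weak derivatives of all orders are smooth -/
def Reg : Prop := ∀ u : M → ℝ, (∀ k, Wk C k u) → ∃ f : C.A, u =ᵐ[C.μ] fun p => C.ev p f

/-- Cauchy sequences in `L²` -/
def Cau (v : ℕ → Fk N C.A) : Prop :=
  ∀ ε : ℝ, 0 < ε → ∃ K, ∀ i, K ≤ i → ∀ j, K ≤ j → nq C (v i - v j) ≤ ε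

/-- the differential forms -/
def HorS : Submodule ℝ (Fk N C.A) where
  carrier := {u | Hor C u}
  add_mem' := by
    intro u v hu hv c
    have h : ∀ a, an a (u + v) = an a u + an a v := fun a => map_add _ _ _
    rw [h, hu c, hv c, ← Finset.sum_add_distrib]
    exact Finset.sum_congr rfl fun a _ => by rw [h, smul_add]
  zero_mem' := by
    intro c
    simp
  smul_mem' := by
    intro t u hu c
    have h : ∀ a, an a (t • u) = t • an a u := fun a => LinearMap.map_smul_of_tower _ _ _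
    rw [h, hu c, Finset.smul_sum]
    exact Finset.sum_congr rfl fun a _ => by rw [h, smul_comm]

/-- differential forms of degree `p` -/
def HD (p : ℕ) : Submodule ℝ (Fk N C.A) := HorS C ⊓ DegS N C.A p

/-- closed forms -/
def Zp (p : ℕ) : Submodule ℝ (Fk N C.A) := HD C p ⊓ LinearMap.ker (ddL C.F)

/-- exact forms -/
def Bp : ℕ → Submodule ℝ (Fk N C.A)
  | 0 => ⊥
  | p + 1 => (HD C p).map (ddL C.F)

/-- de Rham cohomology -/
abbrev Hp (p : ℕ) : Type := Zp C p ⧸ (Bp C p).comap (Zp C p).subtype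

/-- Betti numbers -/
def bet (p : ℕ) : ℕ := Module.finrank ℝ (Hp C p)

/-- sum of the eigenspaces of the Hodge Laplacian on differential forms with eigenvalue in
`[0, t]` -/
def Ev (t : ℝ) : Submodule ℝ (Fk N C.A) :=
  Submodule.span ℝ {u | Hor C u ∧ ∃ l : ℝ, 0 ≤ l ∧ l ≤ t ∧ DD C (DD C u) = l • u}

/-- the part of degree `p` -/
def Evp (t : ℝ) (p : ℕ) : Submodule ℝ (Fk N C.A) := Ev C t ⊓ DegS N C.A p

end Pool.Agent.H781.CM
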