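import Pool.Agent.H781.CM.QM

/-!
Differences of the local primitives of the two generators of the second cohomology of `M`.
-/

set_option autoImplicit false

open Bundle Manifold ContDiff VectorField
open scoped Topology ComplexConjugate

noncomputable section

namespace Pool.Agent.H781.CM.Q

open Pool.Agent.H781.CM.F

namespace Diff

/-- differential of a complex function on `M` -/
def D (w : M → ℂ) (x : M) (v : TangentSpace (𝓡 4) x) : ℂ := mfderiv (𝓡 4) 𝓘(ℝ, ℂ) w x v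

/-- differentiability of a complex function on `M` -/
abbrev Df (w : M → ℂ) (x : M) : Prop := MDifferentiableAt (𝓡 4) 𝓘(ℝ, ℂ) w x

theorem dA_eq (w : M → ℂ) (x : M) (v : Fin 1 → TangentSpace (𝓡 4) x) :
    dA w x v = (conj (w x) * D w x (v 0)).im / Complex.normSq (w x) := rfl

theorem D_mul {w u : M → ℂ} {x : M} (hw : Df w x) (hu : Df u x) (v : TangentSpace (𝓡 4) x) :
    D (fun y => w y * u y) x v = w x * D u x v + u x * D w x v := by
  have h := (hw.hasMFDerivAt.mul hu.hasMFDerivAt).mfderiv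
  exact congrArg (fun L => L v) h

theorem Df_mul {w u : M → ℂ} {x : M} (hw : Df w x) (hu : Df u x) :
    Df (fun y => w y * u y) x :=
  (hw.hasMFDerivAt.mul hu.hasMFDerivAt).mdifferentiableAt

theorem D_clm {F : Type} [NormedAddCommGroup F] [NormedSpace ℝ F] (L : F →L[ℝ] ℂ) {w : M → F}
    {x : M} (hw : MDifferentiableAt (𝓡 4) 𝓘(ℝ, F) w x) (v : TangentSpace (𝓡 4) x) :
    D (fun y => L (w y)) x v = L (mfderiv (𝓡 4) 𝓘(ℝ, F) w x v) := by
  have h := (HasMFDerivAt.comp x (L.hasMFDerivAt (x := w x)) hw.hasMFDerivAt).mfderiv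
  exact congrArg (fun L => L v) h

theorem Df_clm {F : Type} [NormedAddCommGroup F] [NormedSpace ℝ F] (L : F →L[ℝ] ℂ) {w : M → F}
    {x : M} (hw : MDifferentiableAt (𝓡 4) 𝓘(ℝ, F) w x) :
    Df (fun y => L (w y)) x :=
  (HasMFDerivAt.comp x (L.hasMFDerivAt (x := w x)) hw.hasMFDerivAt).mdifferentiableAt

theorem D_conj {w : M → ℂ} {x : M} (hw : Df w x) (v : TangentSpace (𝓡 4) x) :
    D (fun y => conj (w y)) x v = conj (D w x v) :=
  D_clm (Complex.conjCLE : ℂ →L[ℝ] ℂ) hw v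

theorem Df_conj {w : M → ℂ} {x : M} (hw : Df w x) : Df (fun y => conj (w y)) x :=
  Df_clm (Complex.conjCLE : ℂ →L[ℝ] ℂ) hw

theorem dA_conj {w : M → ℂ} {x : M} (hw : Df w x) (v : Fin 1 → TangentSpace (𝓡 4) x) :
    dA (fun y => conj (w y)) x v = - dA w x v := by
  rw [dA_eq, dA_eq, D_conj hw, Complex.normSq_conj, ← map_mul, Complex.conj_im, neg_div]

theorem dA_mul {w u : M → ℂ} {x : M} (hw : Df w x) (hu : Df u x) (hw0 : w x ≠ 0)
    (hu0 : u x ≠ 0) (v : Fin 1 → TangentSpace (𝓡 4) x) :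
    dA (fun y => w y * u y) x v = dA w x v + dA u x v := by
  rw [dA_eq, dA_eq, dA_eq, D_mul hw hu, map_mul, map_mul]
  have h1 : Complex.normSq (w x) ≠ 0 := by simpa using hw0
  have h2 : Complex.normSq (u x) ≠ 0 := by simpa using hu0
  have h3 : (conj (w x) * conj (u x) * (w x * D u x (v 0) + u x * D w x (v 0))).im =
      Complex.normSq (w x) * (conj (u x) * D u x (v 0)).im +
        Complex.normSq (u x) * (conj (w x) * D w x (v 0)).im := by
    have h4 : conj (w x) * conj (u x) * (w x * D u x (v 0) + u x * D w x (v 0)) =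
        (Complex.normSq (w x) : ℂ) * (conj (u x) * D u x (v 0)) +
          (Complex.normSq (u x) : ℂ) * (conj (w x) * D w x (v 0)) := by
      rw [Complex.normSq_eq_conj_mul_self, Complex.normSq_eq_conj_mul_self]
      ring
    rw [h4, Complex.add_im, Complex.im_ofReal_mul, Complex.im_ofReal_mul]
  rw [h3]
  field_simp
  ring

/-- scaling by a real function does not change the differential of the argument -/
theorem dA_scale {w u : M → ℂ} {f : M → ℝ} {x : M} (hu : Df u x)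
    (hf : MDifferentiableAt (𝓡 4) 𝓘(ℝ, ℝ) f x) (hf0 : f x ≠ 0)
    (h : w =ᶠ[𝓝 x] fun y => u y * rc (f y)) (v : Fin 1 → TangentSpace (𝓡 4) x) :
    dA w x v = dA u x v := by
  have hc : Df (fun y => rc (f y)) x := Df_clm Complex.ofRealCLM hf
  have hD : D w x (v 0) = u x * D (fun y => rc (f y)) x (v 0) + rc (f x) * D u x (v 0) := by
    have h1 : D w x (v 0) = D (fun y => u y * rc (f y)) x (v 0) := by
      unfold D
      rw [h.mfderiv_eq]
      rfl
    rw [h1, D_mul hu hc]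
  obtain ⟨t, ht⟩ : ∃ t : ℝ, t = mfderiv (𝓡 4) 𝓘(ℝ, ℝ) f x (v 0) := ⟨_, rfl⟩
  have hDc : D (fun y => rc (f y)) x (v 0) = (t : ℂ) := by
    rw [ht]
    exact D_clm Complex.ofRealCLM hf (v 0)
  have hx : w x = u x * rc (f x) := h.self_of_nhds
  rw [dA_eq, dA_eq, hx, hD, hDc]
  have h4 : conj (u x * rc (f x)) * (u x * (t : ℂ) + rc (f x) * D u x (v 0)) =
      ((f x * t * Complex.normSq (u x) : ℝ) : ℂ) +
        ((f x ^ 2 : ℝ) : ℂ) * (conj (u x) * D u x (v 0)) := by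
    have h5 : (Complex.normSq (u x) : ℂ) = conj (u x) * u x := Complex.normSq_eq_conj_mul_self
    push_cast
    rw [h5, map_mul]
    unfold rc
    rw [Complex.conj_ofReal]
    ring
  have h6 : Complex.normSq (u x * rc (f x)) = f x ^ 2 * Complex.normSq (u x) := by
    rw [Complex.normSq_mul]
    unfold rc
    rw [Complex.normSq_ofReal]
    ring
  rw [h4, h6, Complex.add_im, Complex.im_ofReal_mul, Complex.ofReal_im, zero_add]
  exact mul_div_mul_left _ _ (pow_ne_zero 2 hf0)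

/-! ### the coordinates as continuous linear maps -/

/-- `c1` as a continuous linear map -/
def c1L : U4 →L[ℝ] ℂ := (EuclideanSpace.proj 0 : U4 →L[ℝ] ℝ).smulRight (1 : ℂ) +
  (EuclideanSpace.proj 1 : U4 →L[ℝ] ℝ).smulRight Complex.I

/-- `c2` as a continuous linear map -/
def c2L : U4 →L[ℝ] ℂ := (EuclideanSpace.proj 2 : U4 →L[ℝ] ℝ).smulRight (1 : ℂ) +
  (EuclideanSpace.proj 3 : U4 →L[ℝ] ℝ).smulRight Complex.I

theorem c1L_apply (y : U4) : c1L y = c1 y := by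
  apply Complex.ext <;> simp [c1L, c1]

theorem c2L_apply (y : U4) : c2L y = c2 y := by
  apply Complex.ext <;> simp [c2L, c2]

theorem nu_eq (y : U4) : nu y = Complex.normSq (c1 y) := by
  simp only [nu, c1, Complex.normSq_apply]
  ring

theorem nv_eq (y : U4) : nv y = Complex.normSq (c2 y) := by
  simp only [nv, c2, Complex.normSq_apply]
  ring

theorem iuL_eq (y w : U4) : iuL y w = (conj (c1 y) * c1 w).im := by
  simp [iuL, c1, Complex.mul_im]
  ring

theorem ivL_eq (y w : U4) : ivL y w = (conj (c2 y) * c2 w).im := by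
  simp [ivL, c2, Complex.mul_im]
  ring

theorem mdiff_cM {i j : Fin 2} {x : M} (hx : x ∈ DM i j) :
    MDifferentiableAt (𝓡 4) 𝓘(ℝ, U4) (cM i j) x := mdiff_chM hx

theorem im_div_mul (u w : ℂ) :
    (conj u * w).im = Complex.normSq u * ((conj u * w).im / Complex.normSq u) := by
  by_cases h : u = 0
  · subst h
    simp
  · have h1 : Complex.normSq u ≠ 0 := by simpa using h
    field_simp

theorem iu_dm {i j : Fin 2} {x : M} (hx : x ∈ DM i j) (v : Fin 1 → TangentSpace (𝓡 4) x) :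
    iuL (cM i j x) (dm (cM i j) x (v 0)) = nu (cM i j x) * dA (fun y => c1 (cM i j y)) x v := by
  have h1 : D (fun y => c1 (cM i j y)) x (v 0) = c1 (dm (cM i j) x (v 0)) := by
    have h2 := D_clm c1L (mdiff_cM hx) (v 0)
    simp only [c1L_apply] at h2
    exact h2
  rw [dA_eq, h1, iuL_eq, nu_eq]
  exact im_div_mul _ _

theorem iv_dm {i j : Fin 2} {x : M} (hx : x ∈ DM i j) (v : Fin 1 → TangentSpace (𝓡 4) x) :
    ivL (cM i j x) (dm (cM i j) x (v 0)) = nv (cM i j x) * dA (fun y => c2 (cM i j y)) x v := by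
  have h1 : D (fun y => c2 (cM i j y)) x (v 0) = c2 (dm (cM i j) x (v 0)) := by
    have h2 := D_clm c2L (mdiff_cM hx) (v 0)
    simp only [c2L_apply] at h2
    exact h2
  rw [dA_eq, h1, ivL_eq, nv_eq]
  exact im_div_mul _ _

/-! ### values of the invariants -/

theorem normSq_h1 {u : ℂ} (hu : Complex.normSq u < 1) :
    Complex.normSq (h1 u) = 1 - Complex.normSq u := by
  unfold h1
  rw [Complex.normSq_ofReal, Real.mul_self_sqrt (by linarith)]

theorem rr_cM {i j : Fin 2} {x : M} (hx : x ∈ DM i j) :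
    rr x.1 = if i = 0 then nu (cM i j x) else 1 - nu (cM i j x) := by
  have e1 : ps i j (cM i j x) = x.1 := s_q0.ps_ch i j x.1 x.2 hx
  have e2 : cM i j x ∈ BD := chM_mem hx
  rw [← e1, nu_eq]
  by_cases hi : i = 0
  · subst hi
    simp [ps, Phi, Phi4, sg, rr]
  · rw [if_neg hi, ← normSq_h1 e2.1]
    simp [ps, Phi, Phi4, sg, rr, hi]

theorem ss_cM {i j : Fin 2} {x : M} (hx : x ∈ DM i j) :
    ss x.1 = if j = 0 then nv (cM i j x) else 1 - nv (cM i j x) := by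
  have e1 : ps i j (cM i j x) = x.1 := s_q0.ps_ch i j x.1 x.2 hx
  have e2 : cM i j x ∈ BD := chM_mem hx
  rw [← e1, nv_eq]
  by_cases hj : j = 0
  · subst hj
    simp [ps, Phi, Phi4, sg, ss]
  · rw [if_neg hj, ← normSq_h1 e2.2]
    simp [ps, Phi, Phi4, sg, ss, hj]

/-- `x = Phi (z₁, z₂, a, b)` -/
theorem repr_M (x : M) : ∃ z1 z2 a b : ℂ, Complex.normSq z1 + Complex.normSq z2 = 1 ∧
    Complex.normSq a + Complex.normSq b = 1 ∧ x.1 = Phi4 z1 z2 a b := by
  obtain ⟨q, X, rfl⟩ := x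
  refine ⟨c1 X.1, c2 X.1, c1 X.2, c2 X.2, ?_, ?_, rfl⟩
  · rw [← norm_sq_eq, norm_eq_of_mem_sphere]
    norm_num
  · rw [← norm_sq_eq, norm_eq_of_mem_sphere]
    norm_num

theorem wp_ne {x : M} (hr0 : 0 < rr x.1) (hr1 : rr x.1 < 1) (hs1 : ss x.1 < 1) : wp x ≠ 0 := by
  obtain ⟨z1, z2, a, b, h1, h2, h3⟩ := repr_M x
  unfold wp
  unfold rr at hr0 hr1
  unfold ss at hs1
  rw [h3] at hr0 hr1 hs1 ⊢
  simp only [Phi4] at hr0 hr1 hs1 ⊢
  intro h
  rw [← Complex.normSq_eq_zero] at h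
  simp only [Complex.normSq_mul, Complex.normSq_conj, mul_eq_zero] at h
  rcases h with (h | h) | h <;> linarith

theorem wq_ne {x : M} (hr0 : 0 < rr x.1) (hr1 : rr x.1 < 1) (hs0 : 0 < ss x.1) : wq x ≠ 0 := by
  obtain ⟨z1, z2, a, b, h1, h2, h3⟩ := repr_M x
  unfold wq
  unfold rr at hr0 hr1
  unfold ss at hs0
  rw [h3] at hr0 hr1 hs0 ⊢
  simp only [Phi4] at hr0 hr1 hs0 ⊢
  intro h
  rw [← Complex.normSq_eq_zero] at h
  simp only [Complex.normSq_mul, mul_eq_zero] at h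
  rcases h with (h | h) | h <;> linarith

theorem pq_m (x : M) : wp x * wq x = wm x * rc (1 - rr x.1) := by
  obtain ⟨z1, z2, a, b, h1, h2, h3⟩ := repr_M x
  unfold wp wq wm rr rc
  rw [h3]
  simp only [Phi4]
  have h4 : (1 - Complex.normSq z2 : ℝ) = Complex.normSq z1 := by linarith
  rw [h4, Complex.normSq_eq_conj_mul_self]
  ring

theorem pq_n (x : M) : wp x * conj (wq x) = wn x * rc (rr x.1) := by
  obtain ⟨z1, z2, a, b, h1, h2, h3⟩ := repr_M x
  unfold wp wq wn rr rc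
  rw [h3]
  simp only [Phi4]
  rw [Complex.normSq_eq_conj_mul_self, map_mul, map_mul]
  ring

theorem mdiff_val {G : Type} [NormedAddCommGroup G] [NormedSpace ℝ G] {F : A → G} {x : M}
    (hF : DifferentiableAt ℝ F x.1) :
    MDifferentiableAt (𝓡 4) 𝓘(ℝ, G) (fun y : M => F y.1) x :=
  hF.mdifferentiableAt.comp x (mdiff_incl x)

theorem Df_wm (x : M) : Df wm x := mdiff_val (F := fun q : A => q.2.2.1) (by fun_prop)
theorem Df_wn (x : M) : Df wn x := mdiff_val (F := fun q : A => q.2.2.2) (by fun_prop)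
theorem Df_wp (x : M) : Df wp x := mdiff_val (F := fun q : A => q.2.1.1) (by fun_prop)
theorem Df_wq (x : M) : Df wq x := mdiff_val (F := fun q : A => q.2.1.2) (by fun_prop)

theorem dA_m {x : M} (hr0 : 0 < rr x.1) (hr1 : rr x.1 < 1) (hs0 : 0 < ss x.1)
    (hs1 : ss x.1 < 1) (v : Fin 1 → TangentSpace (𝓡 4) x) :
    dA wm x v = dA wp x v + dA wq x v := by
  rw [← dA_mul (Df_wp x) (Df_wq x) (wp_ne hr0 hr1 hs1) (wq_ne hr0 hr1 hs0)]
  symm
  refine dA_scale (f := fun y : M => 1 - rr y.1) (Df_wm x)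
    (mdiff_val (F := fun q : A => 1 - rr q) ?_) ?_ ?_ v
  · unfold rr
    fun_prop
  · have : (1 : ℝ) - rr x.1 ≠ 0 := by linarith
    exact this
  · exact Filter.Eventually.of_forall fun y => pq_m y

theorem dA_n {x : M} (hr0 : 0 < rr x.1) (hr1 : rr x.1 < 1) (hs0 : 0 < ss x.1)
    (hs1 : ss x.1 < 1) (v : Fin 1 → TangentSpace (𝓡 4) x) :
    dA wn x v = dA wp x v - dA wq x v := by
  have hq : (fun y => conj (wq y)) x ≠ 0 := by
    have := wq_ne hr0 hr1 hs0
    simpa using this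
  rw [sub_eq_add_neg, ← dA_conj (Df_wq x),
    ← dA_mul (Df_wp x) (Df_conj (Df_wq x)) (wp_ne hr0 hr1 hs1) hq]
  symm
  refine dA_scale (f := fun y : M => rr y.1) (Df_wn x)
    (mdiff_val (F := fun q : A => rr q) ?_) hr0.ne' ?_ v
  · unfold rr
    fun_prop
  · exact Filter.Eventually.of_forall fun y => pq_n y

/-! ### the arguments of the coordinates -/

theorem mem_DM {i j : Fin 2} {x : M} (hx : x ∈ DM i j) :
    (if i = 0 then rr x.1 < 1 else 0 < rr x.1) ∧ (if j = 0 then ss x.1 < 1 else 0 < ss x.1) := hx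

/-- `dA (c1 ∘ cM) = dA w` if `c1 ∘ ch = w / (√ F)` etc. -/
theorem dA_ch {w u : M → ℂ} {G : A → ℝ} {x : M} (hu : Df u x) (hG : DifferentiableAt ℝ G x.1)
    (hG0 : G x.1 ≠ 0) (h : ∀ y : M, w y = u y / rc (G y.1))
    (v : Fin 1 → TangentSpace (𝓡 4) x) : dA w x v = dA u x v := by
  refine dA_scale (f := fun y : M => (G y.1)⁻¹) hu (mdiff_val (F := fun q : A => (G q)⁻¹)
    (hG.inv hG0)) (inv_ne_zero hG0) ?_ v
  refine Filter.Eventually.of_forall fun y => ?_
  simp only [h y, rc]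
  rw [Complex.ofReal_inv, div_eq_mul_inv]

theorem dif_r (q : A) : DifferentiableAt ℝ rr q := by
  unfold rr
  fun_prop

theorem dif_s (q : A) : DifferentiableAt ℝ ss q := by
  unfold ss
  fun_prop

theorem dif_mul {F G : A → ℝ} {q : A} (hF : DifferentiableAt ℝ F q)
    (hG : DifferentiableAt ℝ G q) : DifferentiableAt ℝ (fun y => F y * G y) q := hF.mul hG

theorem dif_sqrt {F : A → ℝ} {q : A} (hF : DifferentiableAt ℝ F q) (h : F q ≠ 0) :
    DifferentiableAt ℝ (fun y => Real.sqrt (F y)) q := hF.sqrt h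

theorem dif_one_sub {F : A → ℝ} {q : A} (hF : DifferentiableAt ℝ F q) :
    DifferentiableAt ℝ (fun y => 1 - F y) q := by fun_prop

theorem dA_c1_00 {x : M} (hr : rr x.1 < 1) (hs : ss x.1 < 1)
    (v : Fin 1 → TangentSpace (𝓡 4) x) :
    dA (fun y => c1 (cM 0 0 y)) x v = dA wp x v := by
  have h1 : 0 < (1 - rr x.1) * (1 - ss x.1) := mul_pos (by linarith) (by linarith)
  refine dA_ch (G := fun q => Real.sqrt ((1 - rr q) * (1 - ss q))) (Df_wp x)
    (dif_sqrt (dif_mul (dif_one_sub (dif_r _)) (dif_one_sub (dif_s _))) h1.ne')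
    (Real.sqrt_pos.2 h1).ne' (fun y => ?_) v
  simp [cM, ch, wp]

theorem dA_c2_00 {x : M} (hr : rr x.1 < 1) (hs : ss x.1 < 1)
    (v : Fin 1 → TangentSpace (𝓡 4) x) :
    dA (fun y => c2 (cM 0 0 y)) x v = - dA wn x v := by
  have h1 : 0 < 1 - rr x.1 := by linarith
  have h2 : 0 < 1 - ss x.1 := by linarith
  rw [← dA_conj (Df_wn x)]
  refine dA_ch (G := fun q => (1 - rr q) * Real.sqrt (1 - ss q)) (Df_conj (Df_wn x))
    (dif_mul (dif_one_sub (dif_r _)) (dif_sqrt (dif_one_sub (dif_s _)) h2.ne'))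
    (mul_pos h1 (Real.sqrt_pos.2 h2)).ne' (fun y => ?_) v
  simp [cM, ch, wn]

theorem dA_c1_01 {x : M} (hr : rr x.1 < 1) (hs : 0 < ss x.1)
    (v : Fin 1 → TangentSpace (𝓡 4) x) :
    dA (fun y => c1 (cM 0 1 y)) x v = dA wq x v := by
  have h1 : 0 < (1 - rr x.1) * ss x.1 := mul_pos (by linarith) (by linarith)
  refine dA_ch (G := fun q => Real.sqrt ((1 - rr q) * ss q)) (Df_wq x)
    (dif_sqrt (dif_mul (dif_one_sub (dif_r _)) (dif_s _)) h1.ne')
    (Real.sqrt_pos.2 h1).ne' (fun y => ?_) v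
  simp [cM, ch, wq]

theorem dA_c2_01 {x : M} (hr : rr x.1 < 1) (hs : 0 < ss x.1)
    (v : Fin 1 → TangentSpace (𝓡 4) x) :
    dA (fun y => c2 (cM 0 1 y)) x v = dA wn x v := by
  have h1 : 0 < 1 - rr x.1 := by linarith
  refine dA_ch (G := fun q => (1 - rr q) * Real.sqrt (ss q)) (Df_wn x)
    (dif_mul (dif_one_sub (dif_r _)) (dif_sqrt (dif_s _) hs.ne'))
    (mul_pos h1 (Real.sqrt_pos.2 hs)).ne' (fun y => ?_) v
  simp [cM, ch, wn]

theorem dA_c1_10 {x : M} (hr : 0 < rr x.1) (hs : ss x.1 < 1)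
    (v : Fin 1 → TangentSpace (𝓡 4) x) :
    dA (fun y => c1 (cM 1 0 y)) x v = - dA wp x v := by
  have h1 : 0 < rr x.1 * (1 - ss x.1) := mul_pos (by linarith) (by linarith)
  rw [← dA_conj (Df_wp x)]
  refine dA_ch (G := fun q => Real.sqrt (rr q * (1 - ss q))) (Df_conj (Df_wp x))
    (dif_sqrt (dif_mul (dif_r _) (dif_one_sub (dif_s _))) h1.ne')
    (Real.sqrt_pos.2 h1).ne' (fun y => ?_) v
  simp [cM, ch, wp]

theorem dA_c2_10 {x : M} (hr : 0 < rr x.1) (hs : ss x.1 < 1)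
    (v : Fin 1 → TangentSpace (𝓡 4) x) :
    dA (fun y => c2 (cM 1 0 y)) x v = dA wm x v := by
  have h2 : 0 < 1 - ss x.1 := by linarith
  refine dA_ch (G := fun q => rr q * Real.sqrt (1 - ss q)) (Df_wm x)
    (dif_mul (dif_r _) (dif_sqrt (dif_one_sub (dif_s _)) h2.ne'))
    (mul_pos hr (Real.sqrt_pos.2 h2)).ne' (fun y => ?_) v
  simp [cM, ch, wm]

theorem dA_c1_11 {x : M} (hr : 0 < rr x.1) (hs : 0 < ss x.1)
    (v : Fin 1 → TangentSpace (𝓡 4) x) :
    dA (fun y => c1 (cM 1 1 y)) x v = dA wq x v := by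
  have h1 : 0 < rr x.1 * ss x.1 := mul_pos hr hs
  refine dA_ch (G := fun q => Real.sqrt (rr q * ss q)) (Df_wq x)
    (dif_sqrt (dif_mul (dif_r _) (dif_s _)) h1.ne')
    (Real.sqrt_pos.2 h1).ne' (fun y => ?_) v
  simp [cM, ch, wq]

theorem dA_c2_11 {x : M} (hr : 0 < rr x.1) (hs : 0 < ss x.1)
    (v : Fin 1 → TangentSpace (𝓡 4) x) :
    dA (fun y => c2 (cM 1 1 y)) x v = dA wm x v := by
  refine dA_ch (G := fun q => rr q * Real.sqrt (ss q)) (Df_wm x)
    (dif_mul (dif_r _) (dif_sqrt (dif_s _) hs.ne'))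
    (mul_pos hr (Real.sqrt_pos.2 hs)).ne' (fun y => ?_) v
  simp [cM, ch, wm]

/-! ### the local primitives in terms of the arguments -/

theorem m00 {x : M} (hx : x ∈ DM 0 0) : rr x.1 < 1 ∧ ss x.1 < 1 := by simpa using mem_DM hx
theorem m01 {x : M} (hx : x ∈ DM 0 1) : rr x.1 < 1 ∧ 0 < ss x.1 := by simpa using mem_DM hx
theorem m10 {x : M} (hx : x ∈ DM 1 0) : 0 < rr x.1 ∧ ss x.1 < 1 := by simpa using mem_DM hx
theorem m11 {x : M} (hx : x ∈ DM 1 1) : 0 < rr x.1 ∧ 0 < ss x.1 := by simpa using mem_DM hx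

theorem nu_0 {j : Fin 2} {x : M} (hx : x ∈ DM 0 j) : nu (cM 0 j x) = rr x.1 := by
  have := rr_cM hx
  simpa using this.symm

theorem nu_1 {j : Fin 2} {x : M} (hx : x ∈ DM 1 j) : nu (cM 1 j x) = 1 - rr x.1 := by
  have := rr_cM hx
  simp at this
  linarith

theorem nv_0 {i : Fin 2} {x : M} (hx : x ∈ DM i 0) : nv (cM i 0 x) = ss x.1 := by
  have := ss_cM hx
  simpa using this.symm

theorem nv_1 {i : Fin 2} {x : M} (hx : x ∈ DM i 1) : nv (cM i 1 x) = 1 - ss x.1 := by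
  have := ss_cM hx
  simp at this
  linarith

theorem LF000 {x : M} (hx : x ∈ DM 0 0) (v : Fin 1 → TangentSpace (𝓡 4) x) :
    LF 0 0 0 x v = -(hh (rr x.1) / rr x.1 * (1 - 2 * ss x.1)) * (rr x.1 * dA wp x v) +
      hh (rr x.1) * (ss x.1 * (- dA wn x v)) := by
  have h := m00 hx
  have h1 := iu_dm hx v
  have h2 := iv_dm hx v
  rw [dA_c1_00 h.1 h.2, nu_0 hx] at h1
  rw [dA_c2_00 h.1 h.2, nv_0 hx] at h2
  simp only [LF, lamL, if_true, add_apply, smul_apply,
    smul_eq_mul, nu_0 hx, nv_0 hx]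
  rw [h1, h2]

theorem LF001 {x : M} (hx : x ∈ DM 0 1) (v : Fin 1 → TangentSpace (𝓡 4) x) :
    LF 0 0 1 x v = (hh (rr x.1) / rr x.1 * (1 - 2 * (1 - ss x.1))) * (rr x.1 * dA wq x v) -
      hh (rr x.1) * ((1 - ss x.1) * dA wn x v) := by
  have h := m01 hx
  have h1 := iu_dm hx v
  have h2 := iv_dm hx v
  rw [dA_c1_01 h.1 h.2, nu_0 hx] at h1
  rw [dA_c2_01 h.1 h.2, nv_1 hx] at h2
  simp only [LF, lamL, if_true, one_ne_zero, if_false, sub_apply,
    smul_apply, smul_eq_mul, nu_0 hx, nv_1 hx]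
  rw [h1, h2]

theorem LF010 {x : M} (hx : x ∈ DM 1 0) (v : Fin 1 → TangentSpace (𝓡 4) x) :
    LF 0 1 0 x v = ((hh (rr x.1) - 1) / (1 - rr x.1)) * ((1 - rr x.1) * (- dA wp x v)) +
      hh (rr x.1) * (ss x.1 * dA wm x v) := by
  have h := m10 hx
  have h1 := iu_dm hx v
  have h2 := iv_dm hx v
  rw [dA_c1_10 h.1 h.2, nu_1 hx] at h1
  rw [dA_c2_10 h.1 h.2, nv_0 hx] at h2
  simp only [LF, lamL, if_true, one_ne_zero, if_false, add_apply,
    smul_apply, smul_eq_mul, nu_1 hx, nv_0 hx, sub_sub_cancel]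
  rw [h1, h2]

theorem LF011 {x : M} (hx : x ∈ DM 1 1) (v : Fin 1 → TangentSpace (𝓡 4) x) :
    LF 0 1 1 x v = ((hh (rr x.1) - 1) / (1 - rr x.1)) * ((1 - rr x.1) * dA wq x v) -
      hh (rr x.1) * ((1 - ss x.1) * dA wm x v) := by
  have h := m11 hx
  have h1 := iu_dm hx v
  have h2 := iv_dm hx v
  rw [dA_c1_11 h.1 h.2, nu_1 hx] at h1
  rw [dA_c2_11 h.1 h.2, nv_1 hx] at h2
  simp only [LF, lamL, if_true, one_ne_zero, if_false, sub_apply,
    smul_apply, smul_eq_mul, nu_1 hx, nv_1 hx, sub_sub_cancel]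
  rw [h1, h2]

theorem LF100 {x : M} (hx : x ∈ DM 0 0) (v : Fin 1 → TangentSpace (𝓡 4) x) :
    LF 1 0 0 x v = ((kk (rr x.1) - 1) / rr x.1) * (rr x.1 * dA wp x v) +
      kk (rr x.1) * (ss x.1 * (- dA wn x v)) := by
  have h := m00 hx
  have h1 := iu_dm hx v
  have h2 := iv_dm hx v
  rw [dA_c1_00 h.1 h.2, nu_0 hx] at h1
  rw [dA_c2_00 h.1 h.2, nv_0 hx] at h2
  simp only [LF, lamL, if_true, one_ne_zero, if_false, add_apply,
    smul_apply, smul_eq_mul, nu_0 hx]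
  rw [h1, h2]

theorem LF101 {x : M} (hx : x ∈ DM 0 1) (v : Fin 1 → TangentSpace (𝓡 4) x) :
    LF 1 0 1 x v = ((kk (rr x.1) - 1) / rr x.1) * (rr x.1 * dA wq x v) +
      kk (rr x.1) * ((1 - ss x.1) * dA wn x v) := by
  have h := m01 hx
  have h1 := iu_dm hx v
  have h2 := iv_dm hx v
  rw [dA_c1_01 h.1 h.2, nu_0 hx] at h1
  rw [dA_c2_01 h.1 h.2, nv_1 hx] at h2
  simp only [LF, lamL, if_true, one_ne_zero, if_false, add_apply,
    smul_apply, smul_eq_mul, nu_0 hx]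
  rw [h1, h2]

theorem LF110 {x : M} (hx : x ∈ DM 1 0) (v : Fin 1 → TangentSpace (𝓡 4) x) :
    LF 1 1 0 x v = -(kk (rr x.1) / (1 - rr x.1) * (1 - 2 * ss x.1)) *
      ((1 - rr x.1) * (- dA wp x v)) + kk (rr x.1) * (ss x.1 * dA wm x v) := by
  have h := m10 hx
  have h1 := iu_dm hx v
  have h2 := iv_dm hx v
  rw [dA_c1_10 h.1 h.2, nu_1 hx] at h1
  rw [dA_c2_10 h.1 h.2, nv_0 hx] at h2
  simp only [LF, lamL, if_true, one_ne_zero, if_false, add_apply,
    smul_apply, smul_eq_mul, nu_1 hx, nv_0 hx, sub_sub_cancel]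
  rw [h1, h2]

theorem LF111 {x : M} (hx : x ∈ DM 1 1) (v : Fin 1 → TangentSpace (𝓡 4) x) :
    LF 1 1 1 x v = (kk (rr x.1) / (1 - rr x.1) * (1 - 2 * (1 - ss x.1))) *
      ((1 - rr x.1) * dA wq x v) + kk (rr x.1) * ((1 - ss x.1) * dA wm x v) := by
  have h := m11 hx
  have h1 := iu_dm hx v
  have h2 := iv_dm hx v
  rw [dA_c1_11 h.1 h.2, nu_1 hx] at h1
  rw [dA_c2_11 h.1 h.2, nv_1 hx] at h2
  simp only [LF, lamL, one_ne_zero, if_false, add_apply,
    smul_apply, smul_eq_mul, nu_1 hx, nv_1 hx, sub_sub_cancel]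
  rw [h1, h2]

theorem hh_0 : hh 0 = 0 := by
  unfold hh
  exact Real.smoothTransition.zero_of_nonpos (by norm_num)

theorem hh_1 : hh 1 = 1 := by
  unfold hh
  exact Real.smoothTransition.one_of_one_le (by norm_num)

theorem kk_0 : kk 0 = 1 := by
  unfold kk
  exact Real.smoothTransition.one_of_one_le (by norm_num)

theorem kk_1 : kk 1 = 0 := by
  unfold kk
  exact Real.smoothTransition.zero_of_nonpos (by norm_num)

/-- `0 ≤ r ≤ 1` and `0 ≤ s ≤ 1` on `M` -/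
theorem bds (x : M) : 0 ≤ rr x.1 ∧ rr x.1 ≤ 1 ∧ 0 ≤ ss x.1 ∧ ss x.1 ≤ 1 := by
  obtain ⟨z1, z2, a, b, h1, h2, h3⟩ := repr_M x
  unfold rr ss
  rw [h3]
  simp only [Phi4]
  have := Complex.normSq_nonneg z1
  have := Complex.normSq_nonneg z2
  have := Complex.normSq_nonneg a
  have := Complex.normSq_nonneg b
  refine ⟨?_, ?_, ?_, ?_⟩ <;> linarith

end Diff

open Diff in
theorem s_diff : S_DIFF := by
  refine ⟨?_, ?_, ?_, ?_⟩
  · rintro x ⟨hx0, hx1⟩ v
    have h0 := m10 hx0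
    have h1 := m11 hx1
    have hb := bds x
    rw [LF010 hx0, LF011 hx1, LF110 hx0, LF111 hx1]
    rcases hb.2.1.lt_or_eq with hr | hr
    · rw [dA_m h0.1 hr h1.2 h0.2]
      have h3 : (1 : ℝ) - rr x.1 ≠ 0 := by linarith
      constructor <;> field_simp <;> ring
    · rw [hr, hh_1, kk_1]
      constructor <;> ring
  · rintro x ⟨hx0, hx1⟩ v
    have h0 := m01 hx0
    have h1 := m11 hx1
    have hb := bds x
    rw [LF001 hx0, LF011 hx1, LF101 hx0, LF111 hx1]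
    have h3 : (1 : ℝ) - rr x.1 ≠ 0 := by linarith
    have h4 : rr x.1 ≠ 0 := h1.1.ne'
    rcases hb.2.2.2.lt_or_eq with hs | hs
    · rw [dA_m h1.1 h0.1 h1.2 hs, dA_n h1.1 h0.1 h1.2 hs]
      constructor <;> field_simp <;> ring
    · rw [hs]
      constructor <;> field_simp <;> ring
  · rintro x ⟨hx0, hx1⟩ v
    have h0 := m00 hx0
    have h1 := m01 hx1
    have hb := bds x
    rw [LF000 hx0, LF001 hx1, LF100 hx0, LF101 hx1]
    rcases hb.1.lt_or_eq with hr | hr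
    · rw [dA_n hr h0.1 h1.2 h0.2]
      have h3 : rr x.1 ≠ 0 := hr.ne'
      constructor <;> field_simp <;> ring
    · rw [← hr, hh_0, kk_0]
      constructor <;> ring
  · rintro x ⟨hx0, hx1⟩ v
    have h0 := m00 hx0
    have h1 := m10 hx1
    have hb := bds x
    rw [LF000 hx0, LF010 hx1, LF100 hx0, LF110 hx1]
    have h3 : (1 : ℝ) - rr x.1 ≠ 0 := by linarith
    have h4 : rr x.1 ≠ 0 := h1.1.ne'
    rcases hb.2.2.1.lt_or_eq with hs | hs
    · rw [dA_m h1.1 h0.1 hs h0.2, dA_n h1.1 h0.1 hs h0.2]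
      constructor <;> field_simp <;> ring
    · rw [← hs]
      constructor <;> field_simp <;> ring

end Pool.Agent.H781.CM.Q
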