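import Pool.Agent.H781.CM.GSpec

/-!
Divergence in coordinates.
-/

set_option autoImplicit false
set_option synthInstance.maxHeartbeats 400000
set_option maxHeartbeats 4000000
set_option linter.unusedSectionVars false

open Bundle Manifold ContDiff VectorField MeasureTheory Filter
open scoped Topology

noncomputable section

namespace Pool.Agent.H781.CM

open Pool.Agent.H781.NG Pool.Agent.H821R2 Pool.Agent.H821R3 Pool.Agent.H893R5.HO
  Pool.Agent.H781.S22

namespace Divl

/-! ### Jacobi's formula -/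

theorem det_alg {n : ℕ} (A B : Matrix (Fin n) (Fin n) ℝ) :
    ∑ σ : Equiv.Perm (Fin n), ((Equiv.Perm.sign σ : ℤ) : ℝ) *
      ∑ j, (∏ i ∈ Finset.univ.erase j, A (σ i) i) * B (σ j) j =
    ∑ j, ∑ l, A.adjugate j l * B l j := by
  have h1 : ∀ j, ∑ l, A.adjugate j l * B l j = (A.updateCol j (fun l => B l j)).det := by
    intro j
    have h2 := congrFun (Matrix.cramer_eq_adjugate_mulVec A (fun l => B l j)) j
    rw [Matrix.cramer_apply] at h2
    rw [h2]
    rfl
  simp only [h1, Matrix.det_apply']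
  rw [Finset.sum_comm]
  refine Finset.sum_congr rfl fun σ _ => ?_
  rw [Finset.mul_sum]
  refine Finset.sum_congr rfl fun j _ => ?_
  congr 1
  rw [← Finset.mul_prod_erase Finset.univ _ (Finset.mem_univ j), Matrix.updateCol_self, mul_comm]
  congr 1
  refine Finset.prod_congr rfl fun i hi => ?_
  rw [Matrix.updateCol_ne (Finset.ne_of_mem_erase hi)]

theorem det_fderiv {E : Type*} [NormedAddCommGroup E] [NormedSpace ℝ E] {n : ℕ}
    {G : E → Matrix (Fin n) (Fin n) ℝ} {G' : Fin n → Fin n → E →L[ℝ] ℝ} {y : E}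
    (h : ∀ i j, HasFDerivAt (fun y => G y i j) (G' i j) y) :
    HasFDerivAt (fun y => (G y).det) (∑ j, ∑ l, (G y).adjugate j l • G' l j) y := by
  have h1 : HasFDerivAt (fun y => ∑ σ : Equiv.Perm (Fin n), ((Equiv.Perm.sign σ : ℤ) : ℝ) *
      ∏ i, G y (σ i) i) (∑ σ : Equiv.Perm (Fin n), ((Equiv.Perm.sign σ : ℤ) : ℝ) •
      ∑ j, (∏ i ∈ Finset.univ.erase j, G y (σ i) i) • G' (σ j) j) y :=
    HasFDerivAt.fun_sum fun σ _ =>
      (HasFDerivAt.finsetProd (fun i _ => h (σ i) i)).const_mul _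
  have h2 : (fun y => (G y).det) = fun y => ∑ σ : Equiv.Perm (Fin n),
      ((Equiv.Perm.sign σ : ℤ) : ℝ) * ∏ i, G y (σ i) i := by
    funext y
    exact Matrix.det_apply' _
  rw [h2]
  refine h1.congr_fderiv ?_
  ext v
  have h3 := det_alg (G y) (Matrix.of fun l j => G' l j v)
  simp only [Matrix.of_apply] at h3
  rw [sum_apply, sum_apply]
  simp only [smul_apply, sum_apply, smul_eq_mul]
  exact h3

/-! ### The calculus part -/

theorem pd_sum {n : ℕ} {ι : Type*} (s : Finset ι) {u : ι → EU n → ℝ} {y : EU n} (k : Fin n)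
    (h : ∀ i ∈ s, DifferentiableAt ℝ (u i) y) :
    pd k (fun y' => ∑ i ∈ s, u i y') y = ∑ i ∈ s, pd k (u i) y := by
  unfold pd
  rw [fderiv_fun_sum h, sum_apply]

theorem pd_mul {n : ℕ} {u v : EU n → ℝ} {y : EU n} (k : Fin n) (hu : DifferentiableAt ℝ u y)
    (hv : DifferentiableAt ℝ v y) :
    pd k (fun y' => u y' * v y') y = pd k u y * v y + u y * pd k v y := by
  unfold pd
  rw [fderiv_fun_mul hu hv]
  simp only [add_apply, smul_apply, smul_eq_mul]
  ring

theorem pd_congr {n : ℕ} {u v : EU n → ℝ} {y : EU n} (k : Fin n) (h : u =ᶠ[𝓝 y] v) :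
    pd k u y = pd k v y := by
  unfold pd
  rw [h.fderiv_eq]

theorem pd_const {n : ℕ} (c : ℝ) (y : EU n) (k : Fin n) : pd k (fun _ => c) y = 0 := by
  unfold pd
  simp

theorem abs_div {n N : ℕ} {Ω : Set (EU n)} (hΩ : IsOpen Ω) {y : EU n} (hy : y ∈ Ω)
    {G : EU n → Matrix (Fin n) (Fin n) ℝ} {x : Fin N → Fin n → EU n → ℝ} {z : Fin n → EU n → ℝ}
    (hG : ∀ k l, DifferentiableAt ℝ (fun y => G y k l) y)
    (hx : ∀ a k, DifferentiableAt ℝ (x a k) y) (hz : ∀ k, DifferentiableAt ℝ (z k) y)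
    (hsym : ∀ y' ∈ Ω, ∀ k l, G y' k l = G y' l k) (hdet : 0 < (G y).det)
    (hGH : ∀ y' ∈ Ω, ∀ j k, ∑ l, G y' j l * ∑ a, x a l y' * x a k y' = if j = k then 1 else 0) :
    √(G y).det * ∑ a, ∑ m, ∑ l, (∑ k, (x a k y * pd k (z m) y - z k y * pd k (x a m) y)) *
      x a l y * G y m l = ∑ k, pd k (fun y' => √(G y').det * z k y') y := by
  have hH : ∀ l k, DifferentiableAt ℝ (fun y' => ∑ a, x a l y' * x a k y') y := fun l k =>
    DifferentiableAt.fun_sum fun a _ => (hx a l).fun_mul (hx a k)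
  have hdd := det_fderiv (fun i j => (hG i j).hasFDerivAt)
  -- the derivative of `H`
  have e1 : ∀ k l m, pd k (fun y' => ∑ a, x a l y' * x a m y') y =
      ∑ a, (pd k (x a l) y * x a m y + x a l y * pd k (x a m) y) := by
    intro k l m
    rw [pd_sum _ _ fun a _ => (hx a l).fun_mul (hx a m)]
    exact Finset.sum_congr rfl fun a _ => pd_mul k (hx a l) (hx a m)
  -- the derivative of the trace of `G H`
  have e2 : ∀ k, ∑ j, ∑ l, (pd k (fun y' => G y' j l) y * (∑ a, x a l y * x a j y) +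
      G y j l * ∑ a, (pd k (x a l) y * x a j y + x a l y * pd k (x a j) y)) = 0 := by
    intro k
    have h1 : pd k (fun y' => ∑ j, ∑ l, G y' j l * ∑ a, x a l y' * x a j y') y = 0 := by
      have h2 : (fun y' => ∑ j, ∑ l, G y' j l * ∑ a, x a l y' * x a j y') =ᶠ[𝓝 y]
          fun _ => ∑ j : Fin n, (1 : ℝ) := by
        filter_upwards [hΩ.mem_nhds hy] with y' hy'
        refine Finset.sum_congr rfl fun j _ => ?_
        rw [hGH y' hy' j j, if_pos rfl]
      rw [pd_congr k h2, pd_const]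
    rw [pd_sum _ _ fun j _ => DifferentiableAt.fun_sum fun l _ => (hG j l).fun_mul (hH l j)] at h1
    rw [← h1]
    refine Finset.sum_congr rfl fun j _ => ?_
    rw [pd_sum _ _ fun l _ => (hG j l).fun_mul (hH l j)]
    refine Finset.sum_congr rfl fun l _ => ?_
    rw [pd_mul k (hG j l) (hH l j), e1]
  -- the adjugate
  have e3 : ∀ j l, (G y).adjugate j l = (G y).det * ∑ a, x a j y * x a l y := by
    have h1 : G y * (Matrix.of fun j l => ∑ a, x a j y * x a l y) = 1 := by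
      ext j k
      rw [Matrix.mul_apply, Matrix.one_apply]
      exact hGH y hy j k
    intro j l
    have h2 : (G y).adjugate = (G y).det • (Matrix.of fun j l => ∑ a, x a j y * x a l y) := by
      have h3 : (G y).adjugate * (G y * (Matrix.of fun j l => ∑ a, x a j y * x a l y)) =
          (G y).det • (Matrix.of fun j l => ∑ a, x a j y * x a l y) := by
        rw [← Matrix.mul_assoc, Matrix.adjugate_mul, Matrix.smul_mul, Matrix.one_mul]
      rwa [h1, Matrix.mul_one] at h3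
    rw [h2]
    rfl
  have hddiff : DifferentiableAt ℝ (fun y' => (G y').det) y := hdd.differentiableAt
  -- the derivative of the determinant
  have e4 : ∀ k, pd k (fun y' => (G y').det) y =
      -2 * (G y).det * ∑ a, ∑ m, ∑ l, pd k (x a m) y * x a l y * G y m l := by
    intro k
    have h1 : pd k (fun y' => (G y').det) y =
        ∑ j, ∑ l, (G y).adjugate j l * pd k (fun y' => G y' l j) y := by
      unfold pd
      rw [hdd.fderiv]
      simp only [smul_apply, sum_apply, smul_eq_mul]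
    have h2 : ∑ j, ∑ l, (G y).adjugate j l * pd k (fun y' => G y' l j) y =
        (G y).det * ∑ j, ∑ l, pd k (fun y' => G y' j l) y * (∑ a, x a l y * x a j y) := by
      rw [Finset.sum_comm, Finset.mul_sum]
      refine Finset.sum_congr rfl fun j _ => ?_
      rw [Finset.mul_sum]
      refine Finset.sum_congr rfl fun l _ => ?_
      rw [e3]
      ring
    have h3 := e2 k
    simp only [Finset.sum_add_distrib] at h3
    have h4 : ∑ j, ∑ l, G y j l * (∑ a, pd k (x a l) y * x a j y + ∑ a, x a l y * pd k (x a j) y) =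
        2 * ∑ a, ∑ m, ∑ l, pd k (x a m) y * x a l y * G y m l := by
      have h5 : ∑ j, ∑ l, G y j l * ∑ a, pd k (x a l) y * x a j y =
          ∑ a, ∑ m, ∑ l, pd k (x a m) y * x a l y * G y m l := by
        rw [Finset.sum_comm]
        have : ∀ l j, G y j l * ∑ a, pd k (x a l) y * x a j y =
            ∑ a, pd k (x a l) y * x a j y * G y l j := by
          intro l j
          rw [hsym y hy j l, Finset.mul_sum]
          exact Finset.sum_congr rfl fun a _ => by ring
        simp only [this]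
        calc ∑ l, ∑ j, ∑ a, pd k (x a l) y * x a j y * G y l j
            = ∑ l, ∑ a, ∑ j, pd k (x a l) y * x a j y * G y l j :=
              Finset.sum_congr rfl fun l _ => Finset.sum_comm
          _ = _ := Finset.sum_comm
      have h6 : ∑ j, ∑ l, G y j l * ∑ a, x a l y * pd k (x a j) y =
          ∑ a, ∑ m, ∑ l, pd k (x a m) y * x a l y * G y m l := by
        have : ∀ j l, G y j l * ∑ a, x a l y * pd k (x a j) y =
            ∑ a, pd k (x a j) y * x a l y * G y j l := by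
          intro j l
          rw [Finset.mul_sum]
          exact Finset.sum_congr rfl fun a _ => by ring
        simp only [this]
        calc ∑ j, ∑ l, ∑ a, pd k (x a j) y * x a l y * G y j l
            = ∑ j, ∑ a, ∑ l, pd k (x a j) y * x a l y * G y j l :=
              Finset.sum_congr rfl fun l _ => Finset.sum_comm
          _ = _ := Finset.sum_comm
      simp only [mul_add, Finset.sum_add_distrib]
      rw [h5, h6]
      ring
    rw [h4] at h3
    rw [h1, h2]
    have h7 : ∑ j, ∑ l, pd k (fun y' => G y' j l) y * (∑ a, x a l y * x a j y) =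
        -(2 * ∑ a, ∑ m, ∑ l, pd k (x a m) y * x a l y * G y m l) := by linarith
    rw [h7]
    ring
  -- the derivative of the density
  have hsq : 0 < √(G y).det := Real.sqrt_pos.2 hdet
  have hsd : DifferentiableAt ℝ (fun y' => √(G y').det) y := hddiff.sqrt hdet.ne'
  have e5 : ∀ k, pd k (fun y' => √(G y').det) y =
      -√(G y).det * ∑ a, ∑ m, ∑ l, pd k (x a m) y * x a l y * G y m l := by
    intro k
    have h1 : pd k (fun y' => √(G y').det) y = (1 / (2 * √(G y).det)) *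
        pd k (fun y' => (G y').det) y := by
      unfold pd
      rw [(hddiff.hasFDerivAt.sqrt hdet.ne').fderiv]
      rfl
    rw [h1, e4]
    have h2 : (G y).det = √(G y).det * √(G y).det := (Real.mul_self_sqrt hdet.le).symm
    generalize ∑ a, ∑ m, ∑ l, pd k (x a m) y * x a l y * G y m l = W
    have h3 : 1 / (2 * √(G y).det) * (-2 * (G y).det * W) =
        1 / (2 * √(G y).det) * (-2 * (√(G y).det * √(G y).det) * W) := by rw [← h2]
    rw [h3]
    field_simp
  -- the first part of the trace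
  have e6 : ∑ a, ∑ m, ∑ l, (∑ k, x a k y * pd k (z m) y) * x a l y * G y m l =
      ∑ k, pd k (z k) y := by
    have h1 : ∀ m, ∑ a, ∑ l, (∑ k, x a k y * pd k (z m) y) * x a l y * G y m l =
        pd m (z m) y := by
      intro m
      have h2 : ∑ a, ∑ l, (∑ k, x a k y * pd k (z m) y) * x a l y * G y m l =
          ∑ k, pd k (z m) y * ∑ l, G y m l * ∑ a, x a l y * x a k y := by
        simp only [Finset.sum_mul, Finset.mul_sum]
        rw [Finset.sum_comm]
        calc ∑ l, ∑ a, ∑ k, x a k y * pd k (z m) y * x a l y * G y m l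
            = ∑ l, ∑ k, ∑ a, x a k y * pd k (z m) y * x a l y * G y m l :=
              Finset.sum_congr rfl fun l _ => Finset.sum_comm
          _ = ∑ k, ∑ l, ∑ a, x a k y * pd k (z m) y * x a l y * G y m l := Finset.sum_comm
          _ = _ := Finset.sum_congr rfl fun k _ => Finset.sum_congr rfl fun l _ =>
              Finset.sum_congr rfl fun a _ => by ring
      rw [h2]
      simp only [hGH y hy, mul_ite, mul_one, mul_zero, Finset.sum_ite_eq, Finset.mem_univ, if_true]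
    rw [Finset.sum_comm]
    exact Finset.sum_congr rfl fun m _ => h1 m
  have e7 : ∑ a, ∑ m, ∑ l, (∑ k, z k y * pd k (x a m) y) * x a l y * G y m l =
      ∑ k, z k y * ∑ a, ∑ m, ∑ l, pd k (x a m) y * x a l y * G y m l := by
    simp only [Finset.sum_mul, Finset.mul_sum]
    calc ∑ a, ∑ m, ∑ l, ∑ k, z k y * pd k (x a m) y * x a l y * G y m l
        = ∑ a, ∑ m, ∑ k, ∑ l, z k y * pd k (x a m) y * x a l y * G y m l :=
          Finset.sum_congr rfl fun a _ => Finset.sum_congr rfl fun m _ => Finset.sum_comm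
      _ = ∑ a, ∑ k, ∑ m, ∑ l, z k y * pd k (x a m) y * x a l y * G y m l :=
          Finset.sum_congr rfl fun a _ => Finset.sum_comm
      _ = ∑ k, ∑ a, ∑ m, ∑ l, z k y * pd k (x a m) y * x a l y * G y m l := Finset.sum_comm
      _ = _ := by simp only [mul_assoc]
  have e8 : ∑ a, ∑ m, ∑ l, (∑ k, (x a k y * pd k (z m) y - z k y * pd k (x a m) y)) *
      x a l y * G y m l = ∑ k, pd k (z k) y -
      ∑ k, z k y * ∑ a, ∑ m, ∑ l, pd k (x a m) y * x a l y * G y m l := by
    rw [← e6, ← e7]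
    simp only [Finset.sum_sub_distrib, sub_mul]
  rw [e8, mul_sub, Finset.mul_sum, Finset.mul_sum, ← Finset.sum_sub_distrib]
  refine Finset.sum_congr rfl fun k _ => ?_
  rw [pd_mul k hsd (hz k), e5]
  ring

/-! ### Coordinates -/

section coords

variable {n : ℕ} {M : Type} [TopologicalSpace M] [T2Space M] [CompactSpace M]
  [ChartedSpace (EU n) M] [IsManifold (𝓡 n) ∞ M]

/-- a global smooth function equal to a coordinate near a point -/
theorem exists_coord (x₀ : M) {y₀ : EU n} (hy : y₀ ∈ (extChartAt (𝓡 n) x₀).target) (m : Fin n) :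
    ∃ f : M → ℝ, Sm (𝓡 n) f ∧ ∀ᶠ y in 𝓝 y₀, f ((extChartAt (𝓡 n) x₀).symm y) = y m := by
  have hp : (extChartAt (𝓡 n) x₀).symm y₀ ∈ (extChartAt (𝓡 n) x₀).source :=
    (extChartAt (𝓡 n) x₀).map_target hy
  obtain ⟨χ, -, hχ⟩ := (SmoothBumpFunction.nhds_basis_tsupport (I := 𝓡 n)
    ((extChartAt (𝓡 n) x₀).symm y₀)).mem_iff.1 (extChartAt_source_mem_nhds' hp)
  refine ⟨fun q => χ q * (extChartAt (𝓡 n) x₀ q) m, ?_, ?_⟩
  · refine contMDiff_of_tsupport fun q hq => ?_
    have hq1 : q ∈ tsupport χ := tsupport_mul_subset_left hq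
    have hq2 : q ∈ (chartAt (EU n) x₀).source := by
      rw [← extChartAt_source (𝓡 n)]
      exact hχ hq1
    have h1 : ContMDiffAt (𝓡 n) 𝓘(ℝ, EU n) ∞ (extChartAt (𝓡 n) x₀) q := contMDiffAt_extChartAt' hq2
    have h2 : ContDiff ℝ ∞ (fun y : EU n => y m) :=
      (EuclideanSpace.proj m : EU n →L[ℝ] ℝ).contDiff
    have h3 : ContMDiffAt (𝓡 n) 𝓘(ℝ, ℝ) ∞ (fun q => (extChartAt (𝓡 n) x₀ q) m) q :=
      h2.contMDiff.contMDiffAt.comp q h1
    exact χ.contMDiffAt.mul h3
  · have h1 : Tendsto (extChartAt (𝓡 n) x₀).symm (𝓝 y₀) (𝓝 ((extChartAt (𝓡 n) x₀).symm y₀)) :=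
      continuousAt_extChartAt_symm'' hy
    filter_upwards [h1.eventually χ.eventuallyEq_one,
      (isOpen_extChartAt_target (I := 𝓡 n) x₀).mem_nhds hy] with y hy1 hy2
    rw [hy1, (extChartAt (𝓡 n) x₀).right_inv hy2]
    simp

theorem pd_coord (m k : Fin n) (y : EU n) :
    pd k (fun y : EU n => y m) y = if k = m then 1 else 0 := by
  unfold pd
  have h : fderiv ℝ (fun y : EU n => y m) y = (EuclideanSpace.proj m : EU n →L[ℝ] ℝ) :=
    (EuclideanSpace.proj m : EU n →L[ℝ] ℝ).fderiv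
  rw [h]
  show (EuclideanSpace.single k (1 : ℝ) : EU n) m = _
  by_cases hk : k = m
  · subst hk
    simp
  · rw [if_neg hk]
    simp [Ne.symm hk]

/-- the components of a field are the derivatives of the coordinates -/
theorem der_coord {x₀ : M} (t4 : ∀ (Z : VF n M) (f : M → ℝ), SmV Z → Sm (𝓡 n) f →
      ∀ y ∈ (extChartAt (𝓡 n) x₀).target, der Z f ((extChartAt (𝓡 n) x₀).symm y) =
      ∑ k, zc x₀ Z k y * pd k (f ∘ (extChartAt (𝓡 n) x₀).symm) y)
    {y₀ : EU n} (hy : y₀ ∈ (extChartAt (𝓡 n) x₀).target) {m : Fin n} {f : M → ℝ}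
    (hf : Sm (𝓡 n) f) (hfm : ∀ᶠ y in 𝓝 y₀, f ((extChartAt (𝓡 n) x₀).symm y) = y m)
    {Z : VF n M} (hZ : SmV Z) :
    ∀ᶠ y in 𝓝 y₀, der Z f ((extChartAt (𝓡 n) x₀).symm y) = zc x₀ Z m y := by
  filter_upwards [hfm.eventually_nhds,
    (isOpen_extChartAt_target (I := 𝓡 n) x₀).mem_nhds hy] with y hy1 hy2
  rw [t4 Z f hZ hf y hy2]
  have h1 : ∀ k, pd k (f ∘ (extChartAt (𝓡 n) x₀).symm) y = if k = m then 1 else 0 := by
    intro k
    have h2 : f ∘ (extChartAt (𝓡 n) x₀).symm =ᶠ[𝓝 y] fun y : EU n => y m := hy1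
    rw [pd_congr k h2, pd_coord]
  simp only [h1, mul_ite, mul_one, mul_zero, Finset.sum_ite_eq', Finset.mem_univ, if_true]

/-- the bracket in coordinates -/
theorem bracket_coord (hn : 1 ≤ n) {x₀ : M} (t4 : ∀ (Z : VF n M) (f : M → ℝ), SmV Z →
      Sm (𝓡 n) f → ∀ y ∈ (extChartAt (𝓡 n) x₀).target,
      der Z f ((extChartAt (𝓡 n) x₀).symm y) =
      ∑ k, zc x₀ Z k y * pd k (f ∘ (extChartAt (𝓡 n) x₀).symm) y)
    {y₀ : EU n} (hy : y₀ ∈ (extChartAt (𝓡 n) x₀).target) (m : Fin n)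
    {X Z : VF n M} (hX : SmV X) (hZ : SmV Z) :
    zc x₀ (mlieBracket (𝓡 n) X Z) m y₀ =
      ∑ k, (zc x₀ X k y₀ * pd k (zc x₀ Z m) y₀ - zc x₀ Z k y₀ * pd k (zc x₀ X m) y₀) := by
  obtain ⟨f, hf, hfm⟩ := exists_coord x₀ hy m
  have : Nontrivial (EU n) := ⟨0, EuclideanSpace.single ⟨0, hn⟩ 1, fun h => by
    have h1 := congrArg (fun v : EU n => v ⟨0, hn⟩) h
    simp at h1⟩
  have hb : SmV (mlieBracket (𝓡 n) X Z) := smooth_bracket hX hZ
  have e1 := (der_coord t4 hy hf hfm hb).self_of_nhds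
  have e2 : der X (der Z f) ((extChartAt (𝓡 n) x₀).symm y₀) -
      der Z (der X f) ((extChartAt (𝓡 n) x₀).symm y₀) =
      der (mlieBracket (𝓡 n) X Z) f ((extChartAt (𝓡 n) x₀).symm y₀) :=
    comm_fun hf hX hZ (Sm.der hX hf) (Sm.der hZ hf) _
  rw [← e1, ← e2, t4 X _ hX (Sm.der hZ hf) y₀ hy, t4 Z _ hZ (Sm.der hX hf) y₀ hy,
    Finset.sum_sub_distrib]
  have e3 : ∀ k, pd k (der Z f ∘ (extChartAt (𝓡 n) x₀).symm) y₀ = pd k (zc x₀ Z m) y₀ :=
    fun k => pd_congr k (der_coord t4 hy hf hfm hZ)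
  have e4 : ∀ k, pd k (der X f ∘ (extChartAt (𝓡 n) x₀).symm) y₀ = pd k (zc x₀ X m) y₀ :=
    fun k => pd_congr k (der_coord t4 hy hf hfm hX)
  simp only [e3, e4]

/-- inner products in coordinates -/
theorem inner_coord (g : Met n M) {x₀ : M} {y : EU n}
    {u w : TangentSpace (𝓡 n) ((extChartAt (𝓡 n) x₀).symm y)} {a b : Fin n → ℝ}
    (hu : u = ∑ k, a k • cf x₀ k y) (hw : w = ∑ k, b k • cf x₀ k y) :
    g.inner ((extChartAt (𝓡 n) x₀).symm y) u w = ∑ m, ∑ l, a m * b l * gm g x₀ y m l := by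
  have h1 : ∀ v : TangentSpace (𝓡 n) ((extChartAt (𝓡 n) x₀).symm y),
      g.inner ((extChartAt (𝓡 n) x₀).symm y) u v =
      ∑ m, a m * g.inner ((extChartAt (𝓡 n) x₀).symm y) (cf x₀ m y) v := by
    intro v
    rw [hu]
    have h2 := map_sum (g.inner ((extChartAt (𝓡 n) x₀).symm y)) (fun k => a k • cf x₀ k y)
      Finset.univ
    rw [h2, sum_apply]
    refine Finset.sum_congr rfl fun m _ => ?_
    rw [map_smul]
    rfl
  rw [h1]
  refine Finset.sum_congr rfl fun m _ => ?_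
  rw [hw]
  have h3 := map_sum (g.inner ((extChartAt (𝓡 n) x₀).symm y) (cf x₀ m y))
    (fun k => b k • cf x₀ k y) Finset.univ
  rw [h3, Finset.mul_sum]
  refine Finset.sum_congr rfl fun l _ => ?_
  rw [map_smul, smul_eq_mul]
  show a m * (b l * gm g x₀ y m l) = _
  ring

end coords

end Divl

open Divl in
theorem s_divl (h : S_TKV) : S_DIVL := by
  intro n M _ _ _ _ _ hn g cov hlc N T Z hZ x₀ y hy
  obtain ⟨t1, t2, t3, t4, t5, t6⟩ := h n M x₀
  obtain ⟨t7, t8, t9⟩ := t6 g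
  have hΩ := isOpen_extChartAt_target (I := 𝓡 n) x₀
  have hsym : ∀ y' ∈ (extChartAt (𝓡 n) x₀).target, ∀ k l, gm g x₀ y' k l = gm g x₀ y' l k :=
    fun y' _ k l => g.symm _ _ _
  have hgX : ∀ y' ∈ (extChartAt (𝓡 n) x₀).target, ∀ (U W : VF n M),
      g.inner ((extChartAt (𝓡 n) x₀).symm y') (U ((extChartAt (𝓡 n) x₀).symm y'))
        (W ((extChartAt (𝓡 n) x₀).symm y')) =
      ∑ m, ∑ l, zc x₀ U m y' * zc x₀ W l y' * gm g x₀ y' m l :=
    fun y' hy' U W => inner_coord g (t2 U y' hy') (t2 W y' hy')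
  have hcf : ∀ (y' : EU n) (j : Fin n), (cf x₀ j y' : TangentSpace (𝓡 n)
      ((extChartAt (𝓡 n) x₀).symm y')) = ∑ k, (if k = j then (1 : ℝ) else 0) • cf x₀ k y' := by
    intro y' j
    rw [Finset.sum_eq_single j, if_pos rfl, one_smul]
    · intro k _ hk
      rw [if_neg hk, zero_smul]
    · intro hj
      exact absurd (Finset.mem_univ j) hj
  have hGH : ∀ y' ∈ (extChartAt (𝓡 n) x₀).target, ∀ j k,
      ∑ l, gm g x₀ y' j l * ∑ a, zc x₀ (T.X a) l y' * zc x₀ (T.X a) k y' =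
        if j = k then 1 else 0 := by
    intro y' hy' j k
    have h1 := T.par ((extChartAt (𝓡 n) x₀).symm y') (cf x₀ j y')
    have h2 : ∀ a, g.inner ((extChartAt (𝓡 n) x₀).symm y') (cf x₀ j y')
        (T.X a ((extChartAt (𝓡 n) x₀).symm y')) =
        ∑ l, zc x₀ (T.X a) l y' * gm g x₀ y' j l := by
      intro a
      rw [inner_coord g (hcf y' j) (t2 (T.X a) y' hy')]
      simp
    have h3 : ∑ k, ((∑ a, (∑ l, zc x₀ (T.X a) l y' * gm g x₀ y' j l) * zc x₀ (T.X a) k y') -
        (if k = j then (1 : ℝ) else 0)) • (cf x₀ k y' : TangentSpace (𝓡 n)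
      ((extChartAt (𝓡 n) x₀).symm y')) = 0 := by
      simp only [sub_smul, Finset.sum_sub_distrib]
      rw [← hcf y' j, sub_eq_zero, ← h1]
      simp only [Finset.sum_smul]
      rw [Finset.sum_comm]
      refine Finset.sum_congr rfl fun a _ => ?_
      rw [h2 a]
      conv_rhs => rw [t2 (T.X a) y' hy']
      rw [Finset.smul_sum]
      refine Finset.sum_congr rfl fun k _ => ?_
      rw [smul_smul]
    have h4 := Fintype.linearIndependent_iff.1 (t5 y' hy') _ h3 k
    have h5 : ∑ l, gm g x₀ y' j l * ∑ a, zc x₀ (T.X a) l y' * zc x₀ (T.X a) k y' =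
        ∑ a, (∑ l, zc x₀ (T.X a) l y' * gm g x₀ y' j l) * zc x₀ (T.X a) k y' := by
      simp only [Finset.sum_mul, Finset.mul_sum]
      rw [Finset.sum_comm]
      exact Finset.sum_congr rfl fun a _ => Finset.sum_congr rfl fun l _ => by ring
    rw [h5, sub_eq_zero.1 h4]
    simp only [eq_comm]
  have hdiff : ∀ {u : EU n → ℝ}, ContDiffOn ℝ ∞ u (extChartAt (𝓡 n) x₀).target →
      DifferentiableAt ℝ u y := fun hu =>
    (hu.contDiffAt (hΩ.mem_nhds hy)).differentiableAt (by simp)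
  have hcalc := abs_div hΩ hy (G := fun y => gm g x₀ y) (x := fun a k => zc x₀ (T.X a) k)
    (z := fun k => zc x₀ Z k) (fun k l => hdiff (t8 k l)) (fun a k => hdiff (t1 _ (T.hX a) k))
    (fun k => hdiff (t1 _ hZ k)) hsym (t9 y hy).det_pos hGH
  rw [← hcalc]
  congr 1
  -- the trace
  have e1 : ∀ a, g.inner ((extChartAt (𝓡 n) x₀).symm y)
      (cov Z ((extChartAt (𝓡 n) x₀).symm y) (T.X a ((extChartAt (𝓡 n) x₀).symm y)))
      (T.X a ((extChartAt (𝓡 n) x₀).symm y)) =
      g.inner ((extChartAt (𝓡 n) x₀).symm y)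
        (mlieBracket (𝓡 n) (T.X a) Z ((extChartAt (𝓡 n) x₀).symm y))
        (T.X a ((extChartAt (𝓡 n) x₀).symm y)) +
      (1 / 2) * mvfderiv (𝓡 n) (gi g (T.X a) (T.X a)) ((extChartAt (𝓡 n) x₀).symm y)
        (Z ((extChartAt (𝓡 n) x₀).symm y)) := by
    intro a
    have h1 := hlc.torsionFree (T.hX a) hZ ((extChartAt (𝓡 n) x₀).symm y)
    have h2 := hlc.metric hZ (T.hX a) (T.hX a) ((extChartAt (𝓡 n) x₀).symm y)
    have h3 : mvfderiv (𝓡 n) (gi g (T.X a) (T.X a)) ((extChartAt (𝓡 n) x₀).symm y)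
        (Z ((extChartAt (𝓡 n) x₀).symm y)) = g.inner ((extChartAt (𝓡 n) x₀).symm y)
          (cov (T.X a) ((extChartAt (𝓡 n) x₀).symm y) (Z ((extChartAt (𝓡 n) x₀).symm y)))
          (T.X a ((extChartAt (𝓡 n) x₀).symm y)) +
        g.inner ((extChartAt (𝓡 n) x₀).symm y) (T.X a ((extChartAt (𝓡 n) x₀).symm y))
          (cov (T.X a) ((extChartAt (𝓡 n) x₀).symm y) (Z ((extChartAt (𝓡 n) x₀).symm y))) := h2
    rw [g.symm _ (T.X a _) (cov (T.X a) _ _)] at h3
    rw [h3, ← h1, map_sub, sub_apply]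
    ring
  have e2 : ∑ a, mvfderiv (𝓡 n) (gi g (T.X a) (T.X a)) ((extChartAt (𝓡 n) x₀).symm y)
      (Z ((extChartAt (𝓡 n) x₀).symm y)) = 0 := by
    have hF : Sm (𝓡 n) (fun q => ∑ a, gi g (T.X a) (T.X a) q) :=
      sm_sum Finset.univ fun a => gi_smooth (T.hX a) (T.hX a)
    have h1 := d_sum (I := 𝓡 n) Finset.univ (fun a => gi_smooth (g := g) (T.hX a) (T.hX a))
      ((extChartAt (𝓡 n) x₀).symm y) (Z ((extChartAt (𝓡 n) x₀).symm y))
    rw [← h1]
    have h2 := t4 Z _ hZ hF y hy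
    have h3 : ∀ k, pd k ((fun q => ∑ a, gi g (T.X a) (T.X a) q) ∘ (extChartAt (𝓡 n) x₀).symm) y =
        0 := by
      intro k
      have h4 : (fun q => ∑ a, gi g (T.X a) (T.X a) q) ∘ (extChartAt (𝓡 n) x₀).symm =ᶠ[𝓝 y]
          fun _ => ∑ j : Fin n, (1 : ℝ) := by
        filter_upwards [hΩ.mem_nhds hy] with y' hy'
        show ∑ a, g.inner ((extChartAt (𝓡 n) x₀).symm y') (T.X a _) (T.X a _) = _
        simp only [hgX y' hy']
        rw [Finset.sum_comm]
        refine Finset.sum_congr rfl fun j _ => ?_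
        have h5 := hGH y' hy' j j
        rw [if_pos rfl] at h5
        rw [← h5, Finset.sum_comm]
        refine Finset.sum_congr rfl fun l _ => ?_
        rw [Finset.mul_sum]
        exact Finset.sum_congr rfl fun a _ => by ring
      rw [pd_congr k h4, pd_const]
    simp only [h3, mul_zero, Finset.sum_const_zero] at h2
    exact h2
  simp only [e1, Finset.sum_add_distrib, ← Finset.mul_sum, e2, mul_zero, add_zero]
  refine Finset.sum_congr rfl fun a _ => ?_
  rw [hgX y hy (mlieBracket (𝓡 n) (T.X a) Z) (T.X a)]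
  refine Finset.sum_congr rfl fun m _ => Finset.sum_congr rfl fun l _ => ?_
  rw [bracket_coord hn t4 hy m (T.hX a) hZ]

end Pool.Agent.H781.CM
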