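import Pool.Agent.H781.CM.QM

/-!
The two generators of the second cohomology of `M` are well defined closed forms.
-/

set_option autoImplicit false

open Bundle Manifold ContDiff VectorField Filter
open scoped Topology ComplexConjugate

noncomputable section

namespace Pool.Agent.H781.CM.Q

open Pool.Agent.H781.CM.F

namespace Eta

/-! ### smoothness of the local primitives -/

theorem sm_div {f : ℝ → ℝ} (hf : ContDiff ℝ ∞ f) (h0 : ∀ r : ℝ, r ≤ 1 / 4 → f r = 0) :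
    ContDiff ℝ ∞ (fun r => f r / r) := by
  rw [contDiff_iff_contDiffAt]
  intro r
  by_cases h : r < 1 / 4
  · have h1 : (fun r => f r / r) =ᶠ[𝓝 r] fun _ => 0 := by
      filter_upwards [isOpen_Iio.mem_nhds h] with s hs
      rw [h0 s (le_of_lt hs), zero_div]
    exact contDiffAt_const.congr_of_eventuallyEq h1
  · have hr : r ≠ 0 := by
      intro h'
      rw [h'] at h
      norm_num at h
    exact hf.contDiffAt.div contDiffAt_id hr

theorem cd_hh : ContDiff ℝ ∞ hh :=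
  Real.smoothTransition.contDiff.comp ((contDiff_const.mul contDiff_id).sub contDiff_const)

theorem cd_kk : ContDiff ℝ ∞ kk :=
  Real.smoothTransition.contDiff.comp (contDiff_const.sub (contDiff_const.mul contDiff_id))

theorem cd_one_sub : ContDiff ℝ ∞ (fun r : ℝ => 1 - r) := contDiff_const.sub contDiff_id

theorem cd_f1 : ContDiff ℝ ∞ (fun r : ℝ => hh r / r) :=
  sm_div cd_hh fun r hr => Real.smoothTransition.zero_of_nonpos (by linarith)

theorem cd_f2 : ContDiff ℝ ∞ (fun r : ℝ => (hh (1 - r) - 1) / r) := by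
  refine sm_div ((cd_hh.comp cd_one_sub).sub contDiff_const) fun r hr => ?_
  have h1 : hh (1 - r) = 1 := Real.smoothTransition.one_of_one_le (by linarith)
  change hh (1 - r) - 1 = 0
  rw [h1, sub_self]

theorem cd_f3 : ContDiff ℝ ∞ (fun r : ℝ => (kk r - 1) / r) := by
  refine sm_div (cd_kk.sub contDiff_const) fun r hr => ?_
  have h1 : kk r = 1 := Real.smoothTransition.one_of_one_le (by linarith)
  rw [h1, sub_self]

theorem cd_f4 : ContDiff ℝ ∞ (fun r : ℝ => kk (1 - r) / r) := by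
  refine sm_div (cd_kk.comp cd_one_sub) fun r hr => ?_
  exact Real.smoothTransition.zero_of_nonpos (by linarith)

theorem cd_co (i : Fin 4) : ContDiff ℝ ∞ (fun y : U4 => y i) :=
  (EuclideanSpace.proj i : U4 →L[ℝ] ℝ).contDiff

theorem cd_nu : ContDiff ℝ ∞ nu := ((cd_co 0).pow 2).add ((cd_co 1).pow 2)

theorem cd_nv : ContDiff ℝ ∞ nv := ((cd_co 2).pow 2).add ((cd_co 3).pow 2)

theorem cd_iuL : ContDiff ℝ ∞ iuL :=
  ((cd_co 0).smul contDiff_const).sub ((cd_co 1).smul contDiff_const)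

theorem cd_ivL : ContDiff ℝ ∞ ivL :=
  ((cd_co 2).smul contDiff_const).sub ((cd_co 3).smul contDiff_const)

theorem cd_g1 : ContDiff ℝ ∞ (fun y : U4 => hh (nu y) / nu y) := cd_f1.comp cd_nu

theorem cd_g2 : ContDiff ℝ ∞ (fun y : U4 => (hh (1 - nu y) - 1) / nu y) := cd_f2.comp cd_nu

theorem cd_g3 : ContDiff ℝ ∞ (fun y : U4 => (kk (nu y) - 1) / nu y) := cd_f3.comp cd_nu

theorem cd_g4 : ContDiff ℝ ∞ (fun y : U4 => kk (1 - nu y) / nu y) := cd_f4.comp cd_nu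

theorem cd_v : ContDiff ℝ ∞ (fun y : U4 => 1 - 2 * nv y) :=
  contDiff_const.sub (contDiff_const.mul cd_nv)

theorem cd_h1 : ContDiff ℝ ∞ (fun y : U4 => hh (nu y)) := cd_hh.comp cd_nu

theorem cd_h2 : ContDiff ℝ ∞ (fun y : U4 => hh (1 - nu y)) :=
  cd_hh.comp (contDiff_const.sub cd_nu)

theorem cd_k1 : ContDiff ℝ ∞ (fun y : U4 => kk (nu y)) := cd_kk.comp cd_nu

theorem cd_k2 : ContDiff ℝ ∞ (fun y : U4 => kk (1 - nu y)) :=
  cd_kk.comp (contDiff_const.sub cd_nu)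

theorem cd_lamL (k i j : Fin 2) : ContDiff ℝ ∞ (lamL k i j) := by
  unfold lamL
  by_cases hk : k = 0
  · by_cases hi : i = 0
    · by_cases hj : j = 0
      · simp only [hk, hi, hj, if_true]
        exact (((cd_g1.mul cd_v).neg).smul cd_iuL).add (cd_h1.smul cd_ivL)
      · simp only [hk, hi, hj, if_true, if_false]
        exact ((cd_g1.mul cd_v).smul cd_iuL).sub (cd_h1.smul cd_ivL)
    · by_cases hj : j = 0
      · simp only [hk, hi, hj, if_true, if_false]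
        exact (cd_g2.smul cd_iuL).add (cd_h2.smul cd_ivL)
      · simp only [hk, hi, hj, if_true, if_false]
        exact (cd_g2.smul cd_iuL).sub (cd_h2.smul cd_ivL)
  · by_cases hi : i = 0
    · simp only [hk, hi, if_true, if_false]
      exact (cd_g3.smul cd_iuL).add (cd_k1.smul cd_ivL)
    · by_cases hj : j = 0
      · simp only [hk, hi, hj, if_true, if_false]
        exact (((cd_g4.mul cd_v).neg).smul cd_iuL).add (cd_k2.smul cd_ivL)
      · simp only [hk, hi, hj, if_false]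
        exact ((cd_g4.mul cd_v).smul cd_iuL).add (cd_k2.smul cd_ivL)

/-! ### the local exterior derivatives -/

/-- the exterior derivative of `LF k i j` on the chart domain -/
def Dk (k i j : Fin 2) : DF (𝓡 4) M 2 := fun x v =>
  fderiv ℝ (lamL k i j) (cM i j x) (dm (cM i j) x (v 0)) (dm (cM i j) x (v 1)) -
    fderiv ℝ (lamL k i j) (cM i j x) (dm (cM i j) x (v 1)) (dm (cM i j) x (v 0))

theorem form_LF (k i j : Fin 2) : IsFormOn (DM i j) (LF k i j) :=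
  (s_t1 4 M BD (DM i j) (psM i j) (cM i j) (parM i j) (DM i j) (isOpen_DM i j) subset_rfl
    (LF k i j)).2 (lamL k i j) (cd_lamL k i j).contDiffOn (fun _ _ _ => rfl)

theorem D_LF (k i j : Fin 2) : IsDOn (DM i j) (LF k i j) (Dk k i j) :=
  (s_t2 4 M BD (DM i j) (psM i j) (cM i j) (parM i j) (DM i j) (isOpen_DM i j) subset_rfl
    (LF k i j) (Dk k i j) (lamL k i j) (cd_lamL k i j).contDiffOn (fun _ _ _ => rfl)).2
    (fun _ _ _ => rfl)

/-- uniqueness of the exterior derivative on open subsets of chart domains -/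
theorem uniq_D {k i j : Fin 2} {O : Set M} (hO : IsOpen O) (hOU : O ⊆ DM i j)
    {β : DF (𝓡 4) M 2} (h : IsDOn O (LF k i j) β) : ∀ x ∈ O, ∀ v, β x v = Dk k i j x v :=
  (s_t2 4 M BD (DM i j) (psM i j) (cM i j) (parM i j) O hO hOU
    (LF k i j) β (lamL k i j) (cd_lamL k i j).contDiffOn (fun _ _ _ => rfl)).1 h

/-- the bilinear coordinate expression of `Dk` -/
def bk (k i j : Fin 2) (y : U4) : U4 →L[ℝ] U4 →L[ℝ] ℝ :=
  fderiv ℝ (lamL k i j) y - (fderiv ℝ (lamL k i j) y).flip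

theorem bk_apply (k i j : Fin 2) (y v w : U4) :
    bk k i j y v w = fderiv ℝ (lamL k i j) y v w - fderiv ℝ (lamL k i j) y w v := rfl

theorem cd_fd (k i j : Fin 2) : ContDiff ℝ ∞ (fderiv ℝ (lamL k i j)) :=
  (cd_lamL k i j).fderiv_right (by simp)

theorem bk_eq (k i j : Fin 2) : bk k i j = fun y => fderiv ℝ (lamL k i j) y -
    (ContinuousLinearMap.flipₗᵢ ℝ U4 U4 ℝ).toContinuousLinearEquiv.toContinuousLinearMap
      (fderiv ℝ (lamL k i j) y) := rfl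

theorem cd_bk (k i j : Fin 2) : ContDiff ℝ ∞ (bk k i j) := by
  rw [bk_eq]
  exact (cd_fd k i j).sub ((ContinuousLinearMap.contDiff _).comp (cd_fd k i j))

theorem bk_alt (k i j : Fin 2) (y v : U4) : bk k i j y v v = 0 := by
  rw [bk_apply, sub_self]

theorem form_Dk (k i j : Fin 2) : IsFormOn (DM i j) (Dk k i j) :=
  (s_t3 4 M BD (DM i j) (psM i j) (cM i j) (parM i j) (DM i j) (isOpen_DM i j) subset_rfl
    (Dk k i j)).2 (bk k i j) (cd_bk k i j).contDiffOn (bk_alt k i j) (fun _ _ _ => rfl)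

theorem ev2 {D : U4 → U4 →L[ℝ] U4 →L[ℝ] ℝ} {y : U4} (h : DifferentiableAt ℝ D y)
    (u v w : U4) : fderiv ℝ (fun z => D z v w) y u = fderiv ℝ D y u v w := by
  have h1 : HasFDerivAt (fun z => D z v) ((fderiv ℝ D y).flip v) y := by
    have h3 := h.hasFDerivAt.clm_apply (hasFDerivAt_const v y)
    simpa using h3
  have h2 : HasFDerivAt (fun z => D z v w) (((fderiv ℝ D y).flip v).flip w) y := by
    have h3 := h1.clm_apply (hasFDerivAt_const w y)
    simpa using h3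
  rw [h2.fderiv]
  rfl

theorem fderiv_bk (k i j : Fin 2) (y u v w : U4) : fderiv ℝ (bk k i j) y u v w =
    fderiv ℝ (fderiv ℝ (lamL k i j)) y u v w - fderiv ℝ (fderiv ℝ (lamL k i j)) y u w v := by
  have h1 : DifferentiableAt ℝ (fderiv ℝ (lamL k i j)) y :=
    ((cd_fd k i j).differentiable (by simp)) y
  have h2 : DifferentiableAt ℝ (bk k i j) y := ((cd_bk k i j).differentiable (by simp)) y
  rw [← ev2 h1, ← ev2 h1, ← ev2 h2]
  have h3 : (fun z => bk k i j z v w) = fun z => fderiv ℝ (lamL k i j) z v w -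
      fderiv ℝ (lamL k i j) z w v := funext fun z => bk_apply k i j z v w
  have h4 : ∀ a b : U4, DifferentiableAt ℝ (fun z => fderiv ℝ (lamL k i j) z a b) y :=
    fun a b => (h1.clm_apply (differentiableAt_const a)).clm_apply (differentiableAt_const b)
  rw [h3, fderiv_fun_sub (h4 v w) (h4 w v)]
  rfl

theorem closed_Dk (k i j : Fin 2) : IsDOn (DM i j) (Dk k i j) (fun _ _ => 0) := by
  refine (s_t4 4 M BD (DM i j) (psM i j) (cM i j) (parM i j) (DM i j) (isOpen_DM i j) subset_rfl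
    (Dk k i j) (bk k i j) (cd_bk k i j).contDiffOn (bk_alt k i j) (fun _ _ _ => rfl)).2 ?_
  intro y _ u v w
  rw [fderiv_bk, fderiv_bk, fderiv_bk]
  have hs : ∀ a b : U4, fderiv ℝ (fderiv ℝ (lamL k i j)) y a b =
      fderiv ℝ (fderiv ℝ (lamL k i j)) y b a := by
    intro a b
    have h1 : IsSymmSndFDerivAt ℝ (lamL k i j) y :=
      (cd_lamL k i j).contDiffAt.isSymmSndFDerivAt (by simpa using ENat.LEInfty.out)
    exact h1 a b
  rw [hs v u, hs w u, hs w v]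
  ring

/-! ### closedness of `dA w` -/

theorem dArg_eq (z u : ℂ) : dArg z u = (u / z).im := by
  unfold dArg
  rw [Complex.div_im]
  simp only [Complex.mul_im, Complex.conj_re, Complex.conj_im]
  ring

theorem hasFD_log {c z : ℂ} (h : z / c ∈ Complex.slitPlane) :
    HasFDerivAt (fun t : ℂ => (Complex.log (t / c)).im)
      (Complex.imCLM.comp ((z / c)⁻¹ • ((c⁻¹ : ℂ) • (1 : ℂ →L[ℝ] ℂ)))) z := by
  have h1 : HasFDerivAt (fun t : ℂ => t / c) ((c⁻¹ : ℂ) • (1 : ℂ →L[ℝ] ℂ)) z := by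
    have h2 : HasFDerivAt (fun t : ℂ => t * c⁻¹) ((c⁻¹ : ℂ) • (1 : ℂ →L[ℝ] ℂ)) z :=
      (hasFDerivAt_id (𝕜 := ℝ) z).mul_const c⁻¹
    exact h2
  have h3 := (Complex.hasStrictFDerivAt_log_real h).hasFDerivAt.comp z h1
  have h4 := (Complex.imCLM.hasFDerivAt).comp z h3
  exact h4

/-- locally, `dA w` is the differential of a smooth function -/
theorem dA_local {w : M → ℂ} {O : Set M} (hO : IsOpen O)
    (hw : ContMDiffOn (𝓡 4) 𝓘(ℝ, ℂ) ∞ w O) (h0 : ∀ x ∈ O, w x ≠ 0) (x : M) (hx : x ∈ O) :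
    ∃ (W : Set M) (θ : M → ℝ), IsOpen W ∧ x ∈ W ∧ ContMDiffOn (𝓡 4) 𝓘(ℝ, ℝ) ∞ θ W ∧
      ∀ y ∈ W, ∀ v, dA w y v = Qpat.dF (I := 𝓡 4) θ y v := by
  have hc := h0 x hx
  set c : ℂ := w x with hcd
  have hSo : IsOpen {z : ℂ | z / c ∈ Complex.slitPlane} :=
    Complex.isOpen_slitPlane.preimage (continuous_id.div_const c)
  let L : ℂ → ℝ := fun t => (Complex.log (t / c)).im
  have hL : ContDiffOn ℝ ∞ L {z : ℂ | z / c ∈ Complex.slitPlane} := by
    intro z hz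
    have h1 : ContDiffAt ℝ ∞ Complex.log (z / c) :=
      (Complex.contDiffAt_log hz).restrict_scalars ℝ
    have h2 : ContDiffAt ℝ ∞ (fun t : ℂ => t / c) z := contDiffAt_id.div_const c
    have h3 : ContDiffAt ℝ ∞ (fun t : ℂ => Complex.log (t / c)) z :=
      ContDiffAt.comp (g := Complex.log) (f := fun t : ℂ => t / c) z h1 h2
    exact (Complex.imCLM.contDiff.contDiffAt.comp z h3).contDiffWithinAt
  refine ⟨O ∩ w ⁻¹' {z : ℂ | z / c ∈ Complex.slitPlane}, fun y => L (w y),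
    hw.continuousOn.isOpen_inter_preimage hO hSo, ⟨hx, ?_⟩, ?_, ?_⟩
  · change w x / c ∈ Complex.slitPlane
    rw [← hcd, div_self hc]
    exact Complex.one_mem_slitPlane
  · exact hL.contMDiffOn.comp (hw.mono Set.inter_subset_left) (fun y hy => hy.2)
  · rintro y ⟨hyO, hyS⟩ v
    have h1 : MDifferentiableAt (𝓡 4) 𝓘(ℝ, ℂ) w y :=
      (hw.contMDiffAt (hO.mem_nhds hyO)).mdifferentiableAt (by simp)
    have h2 := hasFD_log (c := c) (z := w y) hyS
    have h3 : mfderiv (𝓡 4) 𝓘(ℝ, ℝ) (L ∘ w) y =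
        (mfderiv 𝓘(ℝ, ℂ) 𝓘(ℝ, ℝ) L (w y)).comp (mfderiv (𝓡 4) 𝓘(ℝ, ℂ) w y) :=
      mfderiv_comp y h2.differentiableAt.mdifferentiableAt h1
    have hwy := h0 y hyO
    have key : ∀ u : ℂ, dArg (w y) u = fderiv ℝ L (w y) u := by
      intro u
      rw [h2.fderiv, dArg_eq]
      show (u / w y).im = ((w y / c)⁻¹ * (c⁻¹ * u)).im
      have h5 : (w y / c)⁻¹ * (c⁻¹ * u) = u / w y := by
        field_simp
      rw [h5]
    show dArg (w y) (mfderiv (𝓡 4) 𝓘(ℝ, ℂ) w y (v 0)) = mfderiv (𝓡 4) 𝓘(ℝ, ℝ) (L ∘ w) y (v 0)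
    rw [h3, mfderiv_eq_fderiv]
    exact key _

theorem dA_form {w : M → ℂ} {O : Set M} (hO : IsOpen O)
    (hw : ContMDiffOn (𝓡 4) 𝓘(ℝ, ℂ) ∞ w O) (h0 : ∀ x ∈ O, w x ≠ 0) : IsFormOn O (dA w) := by
  refine Qpat.isFormOn_local fun x hx => ?_
  obtain ⟨W, θ, hW, hxW, hθ, he⟩ := dA_local hO hw h0 x hx
  exact ⟨W, _, hW, hxW, Qpat.dF_form hW hθ, he⟩

theorem dA_closed {w : M → ℂ} {O : Set M} (hO : IsOpen O)
    (hw : ContMDiffOn (𝓡 4) 𝓘(ℝ, ℂ) ∞ w O) (h0 : ∀ x ∈ O, w x ≠ 0) :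
    IsDOn O (dA w) (fun _ _ => 0) := by
  refine Qpat.isDOn_local fun x hx => ?_
  obtain ⟨W, θ, hW, hxW, hθ, he⟩ := dA_local hO hw h0 x hx
  exact ⟨W, _, hW, hxW, Qpat.dF_closed hW hθ, he⟩

/-! ### agreement of the local exterior derivatives -/

theorem agree_of {k i j i' j' : Fin 2} (γ : DF (𝓡 4) M 1)
    (hγ : IsFormOn (DM i j ∩ DM i' j') γ) (hγ' : IsDOn (DM i j ∩ DM i' j') γ (fun _ _ => 0))
    (h : ∀ x ∈ DM i j ∩ DM i' j', ∀ v, LF k i j x v = LF k i' j' x v + γ x v) :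
    ∀ x ∈ DM i j ∩ DM i' j', ∀ v, Dk k i j x v = Dk k i' j' x v := by
  have hO : IsOpen (DM i j ∩ DM i' j') := (isOpen_DM i j).inter (isOpen_DM i' j')
  have h1 : IsDOn (DM i j ∩ DM i' j') (fun x v => LF k i' j' x v + γ x v)
      (fun x v => Dk k i' j' x v + 0) :=
    Qpat.isDOn_add hO (Qpat.isFormOn_mono (form_LF k i' j') Set.inter_subset_right) hγ
      (Qpat.isDOn_mono (D_LF k i' j') Set.inter_subset_right) hγ'
  have h2 : IsDOn (DM i j ∩ DM i' j') (LF k i j) (fun x v => Dk k i' j' x v + 0) :=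
    Qpat.isDOn_local fun x hx => ⟨DM i j ∩ DM i' j', _, hO, hx, h1, h⟩
  intro x hx v
  have h3 := uniq_D hO Set.inter_subset_left h2 x hx v
  rw [← h3, add_zero]

theorem agree_dA {k i j i' j' : Fin 2} {w : M → ℂ} (hw : ContMDiff (𝓡 4) 𝓘(ℝ, ℂ) ∞ w)
    (h0 : ∀ x ∈ DM i j ∩ DM i' j', w x ≠ 0)
    (h : ∀ x ∈ DM i j ∩ DM i' j', ∀ v, LF k i j x v = LF k i' j' x v + dA w x v) :
    ∀ x ∈ DM i j ∩ DM i' j', ∀ v, Dk k i j x v = Dk k i' j' x v :=
  agree_of (dA w) (dA_form ((isOpen_DM i j).inter (isOpen_DM i' j')) hw.contMDiffOn h0)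
    (dA_closed ((isOpen_DM i j).inter (isOpen_DM i' j')) hw.contMDiffOn h0) h

theorem agree_eq {k i j i' j' : Fin 2}
    (h : ∀ x ∈ DM i j ∩ DM i' j', ∀ v, LF k i j x v = LF k i' j' x v) :
    ∀ x ∈ DM i j ∩ DM i' j', ∀ v, Dk k i j x v = Dk k i' j' x v := by
  have hO : IsOpen (DM i j ∩ DM i' j') := (isOpen_DM i j).inter (isOpen_DM i' j')
  have h2 : IsDOn (DM i j ∩ DM i' j') (LF k i j) (Dk k i' j') :=
    Qpat.isDOn_local fun x hx => ⟨DM i j ∩ DM i' j', _, hO, hx,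
      Qpat.isDOn_mono (D_LF k i' j') Set.inter_subset_right, h⟩
  intro x hx v
  exact (uniq_D hO Set.inter_subset_left h2 x hx v).symm

/-! ### the invariant functions -/

theorem sm_wm : ContMDiff (𝓡 4) 𝓘(ℝ, ℂ) ∞ wm :=
  (contDiff_fst.comp (contDiff_snd.comp contDiff_snd) : ContDiff ℝ ∞ fun q : A => q.2.2.1)
    |>.contMDiff.comp incl_smooth

theorem sm_wn : ContMDiff (𝓡 4) 𝓘(ℝ, ℂ) ∞ wn :=
  (contDiff_snd.comp (contDiff_snd.comp contDiff_snd) : ContDiff ℝ ∞ fun q : A => q.2.2.2)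
    |>.contMDiff.comp incl_smooth

theorem sm_wp : ContMDiff (𝓡 4) 𝓘(ℝ, ℂ) ∞ wp :=
  (contDiff_fst.comp (contDiff_fst.comp contDiff_snd) : ContDiff ℝ ∞ fun q : A => q.2.1.1)
    |>.contMDiff.comp incl_smooth

theorem sm_wq : ContMDiff (𝓡 4) 𝓘(ℝ, ℂ) ∞ wq :=
  (contDiff_snd.comp (contDiff_fst.comp contDiff_snd) : ContDiff ℝ ∞ fun q : A => q.2.1.2)
    |>.contMDiff.comp incl_smooth

/-- a point of `M` in terms of the coordinates of `S³ × S³` -/
theorem exists_z (x : M) : ∃ z1 z2 a b : ℂ, Complex.normSq z1 + Complex.normSq z2 = 1 ∧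
    Complex.normSq a + Complex.normSq b = 1 ∧ x.1 = Phi4 z1 z2 a b := by
  obtain ⟨X, hX⟩ := x.2
  refine ⟨c1 (X.1 : U4), c2 (X.1 : U4), c1 (X.2 : U4), c2 (X.2 : U4), ?_, ?_, hX.symm⟩
  · rw [← norm_sq_eq, norm_eq_of_mem_sphere]
    norm_num
  · rw [← norm_sq_eq, norm_eq_of_mem_sphere]
    norm_num

theorem mem_DM (i j : Fin 2) (x : M) : x ∈ DM i j ↔
    ((if i = 0 then rr x.1 < 1 else 0 < rr x.1) ∧ (if j = 0 then ss x.1 < 1 else 0 < ss x.1)) :=
  Iff.rfl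

theorem ne_of_lt1 {z w : ℂ} (h : Complex.normSq z + Complex.normSq w = 1)
    (hw : Complex.normSq w < 1) : z ≠ 0 := by
  rintro rfl
  rw [map_zero, zero_add] at h
  exact absurd h hw.ne

theorem ne_of_pos {w : ℂ} (hw : 0 < Complex.normSq w) : w ≠ 0 := Complex.normSq_pos.1 hw

theorem wm_ne (x : M) (hx : x ∈ DM 1 0 ∩ DM 1 1) : wm x ≠ 0 := by
  obtain ⟨z1, z2, a, b, hz, hab, he⟩ := exists_z x
  obtain ⟨⟨h1, h2⟩, ⟨h3, h4⟩⟩ := hx
  simp only [he, Phi4, rr, ss, one_ne_zero, if_true, if_false] at h1 h2 h3 h4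
  have e : wm x = z2 ^ 2 * a * b := by
    unfold wm
    rw [he]
    rfl
  rw [e]
  exact mul_ne_zero (mul_ne_zero (pow_ne_zero 2 (ne_of_pos h1)) (ne_of_lt1 hab h2)) (ne_of_pos h4)

theorem wq_ne (x : M) (hx : x ∈ DM 0 1 ∩ DM 1 1) : wq x ≠ 0 := by
  obtain ⟨z1, z2, a, b, hz, hab, he⟩ := exists_z x
  obtain ⟨⟨h1, h2⟩, ⟨h3, h4⟩⟩ := hx
  simp only [he, Phi4, rr, ss, one_ne_zero, if_true, if_false] at h1 h2 h3 h4
  have e : wq x = z1 * z2 * b := by
    unfold wq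
    rw [he]
    rfl
  rw [e]
  exact mul_ne_zero (mul_ne_zero (ne_of_lt1 hz h1) (ne_of_pos h3)) (ne_of_pos h4)

theorem wn_ne (x : M) (hx : x ∈ DM 0 0 ∩ DM 0 1) : wn x ≠ 0 := by
  obtain ⟨z1, z2, a, b, hz, hab, he⟩ := exists_z x
  obtain ⟨⟨h1, h2⟩, ⟨h3, h4⟩⟩ := hx
  simp only [he, Phi4, rr, ss, one_ne_zero, if_true, if_false] at h1 h2 h3 h4
  have e : wn x = conj z1 ^ 2 * a * conj b := by
    unfold wn
    rw [he]
    rfl
  rw [e]
  exact mul_ne_zero (mul_ne_zero (pow_ne_zero 2 ((map_ne_zero _).2 (ne_of_lt1 hz h1)))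
    (ne_of_lt1 hab h2)) ((map_ne_zero _).2 (ne_of_pos h4))

theorem wp_ne (x : M) (hx : x ∈ DM 0 0 ∩ DM 1 0) : wp x ≠ 0 := by
  obtain ⟨z1, z2, a, b, hz, hab, he⟩ := exists_z x
  obtain ⟨⟨h1, h2⟩, ⟨h3, h4⟩⟩ := hx
  simp only [he, Phi4, rr, ss, one_ne_zero, if_true, if_false] at h1 h2 h3 h4
  have e : wp x = conj z1 * z2 * a := by
    unfold wp
    rw [he]
    rfl
  rw [e]
  exact mul_ne_zero (mul_ne_zero ((map_ne_zero _).2 (ne_of_lt1 hz h1)) (ne_of_pos h3))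
    (ne_of_lt1 hab h2)

/-! ### agreement on all the overlaps -/

theorem a_10_11 (h : S_DIFF) (k : Fin 2) (x : M) (hx : x ∈ DM 1 0 ∩ DM 1 1)
    (v : Fin 2 → TangentSpace (𝓡 4) x) : Dk k 1 0 x v = Dk k 1 1 x v := by
  fin_cases k
  · refine agree_dA sm_wm wm_ne (fun y hy u => ?_) x hx v
    have := (h.1 y hy u).1
    change LF 0 1 0 y u = LF 0 1 1 y u + dA wm y u
    linarith
  · exact agree_eq (fun y hy u => (h.1 y hy u).2) x hx v

theorem a_01_11 (h : S_DIFF) (k : Fin 2) (x : M) (hx : x ∈ DM 0 1 ∩ DM 1 1)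
    (v : Fin 2 → TangentSpace (𝓡 4) x) : Dk k 0 1 x v = Dk k 1 1 x v := by
  fin_cases k
  · refine agree_dA sm_wq wq_ne (fun y hy u => ?_) x hx v
    have := (h.2.1 y hy u).1
    change LF 0 0 1 y u = LF 0 1 1 y u + dA wq y u
    linarith
  · refine (agree_dA sm_wq (fun y hy => wq_ne y hy.symm) (fun y hy u => ?_) x hx.symm v).symm
    have := (h.2.1 y hy.symm u).2
    change LF 1 1 1 y u = LF 1 0 1 y u + dA wq y u
    linarith

theorem a_00_01 (h : S_DIFF) (k : Fin 2) (x : M) (hx : x ∈ DM 0 0 ∩ DM 0 1)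
    (v : Fin 2 → TangentSpace (𝓡 4) x) : Dk k 0 0 x v = Dk k 0 1 x v := by
  fin_cases k
  · exact agree_eq (fun y hy u => (h.2.2.1 y hy u).1) x hx v
  · refine (agree_dA sm_wn (fun y hy => wn_ne y hy.symm) (fun y hy u => ?_) x hx.symm v).symm
    have := (h.2.2.1 y hy.symm u).2
    change LF 1 0 1 y u = LF 1 0 0 y u + dA wn y u
    linarith

theorem a_00_10 (h : S_DIFF) (k : Fin 2) (x : M) (hx : x ∈ DM 0 0 ∩ DM 1 0)
    (v : Fin 2 → TangentSpace (𝓡 4) x) : Dk k 0 0 x v = Dk k 1 0 x v := by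
  fin_cases k
  · refine (agree_dA sm_wp (fun y hy => wp_ne y hy.symm) (fun y hy u => ?_) x hx.symm v).symm
    have := (h.2.2.2 y hy.symm u).1
    change LF 0 1 0 y u = LF 0 0 0 y u + dA wp y u
    linarith
  · refine (agree_dA sm_wp (fun y hy => wp_ne y hy.symm) (fun y hy u => ?_) x hx.symm v).symm
    have := (h.2.2.2 y hy.symm u).2
    change LF 1 1 0 y u = LF 1 0 0 y u + dA wp y u
    linarith

theorem fin2 (i : Fin 2) : i = 0 ∨ i = 1 := by
  fin_cases i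
  · exact Or.inl rfl
  · exact Or.inr rfl

theorem a_all (h : S_DIFF) (k i j i' j' : Fin 2) (x : M) (hx : x ∈ DM i j) (hx' : x ∈ DM i' j')
    (v : Fin 2 → TangentSpace (𝓡 4) x) : Dk k i j x v = Dk k i' j' x v := by
  -- membership in the mixed chart domains
  have hm1 : x ∈ DM i j' := ⟨hx.1, hx'.2⟩
  have hm2 : x ∈ DM i' j := ⟨hx'.1, hx.2⟩
  -- change the second index
  have s2 : ∀ i, x ∈ DM i j → x ∈ DM i j' → Dk k i j x v = Dk k i j' x v := by
    intro i ha hb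
    rcases fin2 i with rfl | rfl <;> rcases fin2 j with rfl | rfl <;>
      rcases fin2 j' with rfl | rfl
    · rfl
    · exact a_00_01 h k x ⟨ha, hb⟩ v
    · exact (a_00_01 h k x ⟨hb, ha⟩ v).symm
    · rfl
    · rfl
    · exact a_10_11 h k x ⟨ha, hb⟩ v
    · exact (a_10_11 h k x ⟨hb, ha⟩ v).symm
    · rfl
  have s1 : ∀ j, x ∈ DM i j → x ∈ DM i' j → Dk k i j x v = Dk k i' j x v := by
    intro j ha hb
    rcases fin2 j with rfl | rfl <;> rcases fin2 i with rfl | rfl <;>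
      rcases fin2 i' with rfl | rfl
    · rfl
    · exact a_00_10 h k x ⟨ha, hb⟩ v
    · exact (a_00_10 h k x ⟨hb, ha⟩ v).symm
    · rfl
    · rfl
    · exact a_01_11 h k x ⟨ha, hb⟩ v
    · exact (a_01_11 h k x ⟨hb, ha⟩ v).symm
    · rfl
  exact (s2 i hx hm1).trans (s1 j' hm1 hx')

/-- the generator `k` -/
def et (k : Fin 2) : DF (𝓡 4) M 2 := fun x v => Dk k (ci x) (cj x) x v

theorem et_eq (h : S_DIFF) (k i j : Fin 2) (x : M) (hx : x ∈ DM i j)
    (v : Fin 2 → TangentSpace (𝓡 4) x) : et k x v = Dk k i j x v :=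
  a_all h k (ci x) (cj x) i j x (mem_cij x) hx v

theorem et_form (h : S_DIFF) (k : Fin 2) : IsForm (et k) := by
  have h1 : IsFormOn (Set.univ : Set M) (et k) := by
    refine Qpat.isFormOn_local fun x _ => ?_
    obtain ⟨i, j, hx⟩ := exists_DM x
    exact ⟨DM i j, Dk k i j, isOpen_DM i j, hx, form_Dk k i j, fun y hy v => et_eq h k i j y hy v⟩
  exact ⟨fun x => h1.1 x (Set.mem_univ x), fun Y hY => contMDiffOn_univ.1 (h1.2 Y hY)⟩

theorem et_closed (h : S_DIFF) (k : Fin 2) : IsD (et k) (fun _ _ => 0) := by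
  intro Y hY x
  obtain ⟨i, j, hx⟩ := exists_DM x
  have h1 : IsDOn (DM i j) (et k) (fun _ _ => 0) :=
    Qpat.isDOn_local fun y hy => ⟨DM i j, Dk k i j, isOpen_DM i j, hy, closed_Dk k i j,
      fun z hz v => et_eq h k i j z hz v⟩
  exact h1 Y hY x hx

end Eta

open Eta in
theorem s_eta (h : S_DIFF) : S_ETA := by
  refine ⟨et, fun k => ⟨⟨et_form h k, et_closed h k⟩, fun i j => ⟨form_LF k i j, ?_⟩⟩⟩
  intro Y hY x hx
  have h1 := D_LF k i j Y hY x hx
  rw [← h1]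
  exact et_eq h k i j x hx _

end Pool.Agent.H781.CM.Q
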