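import Pool.Agent.H781.CM.FDefs

/-!
Definitions: lower bound of the sectional curvature, almost nonnegative sectional curvature, the
wedge product of two 2-forms.
-/

open Bundle Manifold ContDiff VectorField
open scoped Topology

set_option autoImplicit false

noncomputable section

namespace Pool.Agent.H781.CM.F

open Pool.Agent.H821R2 Pool.Agent.H781.S22

section metric

variable {E : Type*} [NormedAddCommGroup E] [NormedSpace ℝ E]
  {H : Type*} [TopologicalSpace H] {I : ModelWithCorners ℝ E H}
  {M : Type*} [TopologicalSpace M] [ChartedSpace H M] [IsManifold I ∞ M]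

/-- All sectional curvatures are at least `c`: the Levi-Civita connection and the Riemann tensor
exist, and for them `⟨R(u, v) v, u⟩ ≥ c (|u|² |v|² - ⟨u, v⟩²)` for all tangent vectors `u`, `v` at
the same point. -/
def SecGE (g : ContMDiffRiemannianMetric I ∞ E (fun x : M => TangentSpace I x)) (c : ℝ) : Prop :=
  (∃ (cov : CovariantDerivative I E (TangentSpace I : M → Type _)) (R : CurvField I M),
    IsLeviCivita g cov ∧ IsRiemannTensor cov R) ∧
  ∀ (cov : CovariantDerivative I E (TangentSpace I : M → Type _)) (R : CurvField I M),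
    IsLeviCivita g cov → IsRiemannTensor cov R → ∀ (x : M) (u v : TangentSpace I x),
      c * (g.inner x u u * g.inner x v v - g.inner x u v ^ 2) ≤ g.inner x (R x u v v) u

variable (I M) in
/-- The manifold `M` admits almost nonnegative sectional curvature. -/
def AdmitsANSC : Prop := ∀ ε : ℝ, 0 < ε →
  ∃ g : ContMDiffRiemannianMetric I ∞ E (fun x : M => TangentSpace I x),
    DiamLE g 1 ∧ SecGE g (-ε)

end metric

section forms

variable {E : Type*} [NormedAddCommGroup E] [NormedSpace ℝ E]
  {H : Type*} [TopologicalSpace H] {I : ModelWithCorners ℝ E H}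
  {M : Type*} [TopologicalSpace M] [ChartedSpace H M]

/-- the wedge product of two 2-forms -/
def wedge22 (α β : DF I M 2) : DF I M 4 := fun x v =>
  α x ![v 0, v 1] * β x ![v 2, v 3] - α x ![v 0, v 2] * β x ![v 1, v 3] +
    α x ![v 0, v 3] * β x ![v 1, v 2] + α x ![v 1, v 2] * β x ![v 0, v 3] -
    α x ![v 1, v 3] * β x ![v 0, v 2] + α x ![v 2, v 3] * β x ![v 0, v 1]

end forms

end Pool.Agent.H781.CM.F
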