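import Pool.Agent.H781.CM.Defs

/-!
Specification of the abstract part of project CM (statements `S_*`). Goal: a closed manifold with
almost nonnegative curvature operator has nonnegative Euler characteristic (MP_738e39_gt).
-/

set_option autoImplicit false
set_option synthInstance.maxHeartbeats 400000
set_option maxHeartbeats 4000000

open MeasureTheory Filter
open scoped Topology ContDiff

noncomputable section

namespace Pool.Agent.H781.CM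

open Pool.Agent.H781.NG

/-! ### Algebra of the frame -/

/-- the curvature commutes with `P` and is horizontal in the first two indices -/
def S_RMP : Prop := ∀ (M : Type) [TopologicalSpace M] [CompactSpace M] [MeasurableSpace M]
  [BorelSpace M] (N : ℕ) (C : CD M N),
  (∀ a b c d, ∑ c', C.P c c' * Rm C.F a b c' d = ∑ d', C.P d d' * Rm C.F a b c d') ∧
  (∀ a b c d, ∑ a', C.P a a' * Rm C.F a' b c d = Rm C.F a b c d) ∧
  (∀ a b c d, Rm C.F a b c d = - Rm C.F b a c d) ∧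
  (∀ a b c d, Rm C.F a b c d = - Rm C.F a b d c)

/-- horizontal projection -/
def S_PH : Prop := ∀ (M : Type) [TopologicalSpace M] [CompactSpace M] [MeasurableSpace M]
  [BorelSpace M] (N : ℕ) (C : CD M N), ∃ Ph : Fk N C.A →ₗ[C.A] Fk N C.A,
  (∀ u, Hor C (Ph u)) ∧ (∀ u, Hor C u → Ph u = u) ∧
  (∀ u, dd C.F (Ph u) = Ph (dd C.F u)) ∧ (∀ u, de C.F (Ph u) = Ph (de C.F u)) ∧
  (∀ u v, ip (Ph u) v = ip u (Ph v)) ∧ ∀ p u, Deg p u → Deg p (Ph u)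

/-- `d` and `δ` on differential forms -/
def S_DDH : Prop := ∀ (M : Type) [TopologicalSpace M] [CompactSpace M] [MeasurableSpace M]
  [BorelSpace M] (N : ℕ) (C : CD M N),
  (∀ a u, Hor C u → Hor C (nab C.F a u)) ∧ (∀ u, Hor C u → Hor C (dd C.F u)) ∧
  (∀ u, Hor C u → Hor C (de C.F u)) ∧
  (∀ p a u, Deg p u → Deg p (nab C.F a u)) ∧ (∀ p u, Deg p u → Deg (p + 1) (dd C.F u)) ∧
  (∀ p u, Deg (p + 1) u → Deg p (de C.F u)) ∧ (∀ u, Deg 0 u → de C.F u = 0) ∧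
  (∀ u, Hor C u → dd C.F (dd C.F u) = 0) ∧ (∀ u, Hor C u → de C.F (de C.F u) = 0) ∧
  (∀ u v, pr C (dd C.F u) v = pr C u (de C.F v)) ∧ (∀ u v, pr C (DD C u) v = pr C u (DD C v)) ∧
  (∀ u, Hor C u → nq C (DD C u) = nq C (dd C.F u) + nq C (de C.F u)) ∧
  (∀ u, nq C u = 0 → u = 0)

/-- lower bound of the Weitzenböck term -/
def S_RICH : Prop := ∀ (M : Type) [TopologicalSpace M] [CompactSpace M] [MeasurableSpace M]
  [BorelSpace M] (N : ℕ) (C : CD M N) (ε : ℝ), 0 ≤ ε → CurvGE C ε → ∀ u, Hor C u → ∀ p,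
  - (ε * N ^ 2) * C.ev p (ip u u) ≤ C.ev p (ric C.F u)

/-- lower bound of the Ricci curvature -/
def S_RICF : Prop := ∀ (M : Type) [TopologicalSpace M] [CompactSpace M] [MeasurableSpace M]
  [BorelSpace M] (N : ℕ) (C : CD M N) (ε : ℝ), 0 ≤ ε → CurvGE C ε → ∀ (h : C.A) p,
  - (ε * N) * C.ev p (gsq C h) ≤
    C.ev p (- ∑ a, ∑ b, ∑ d, Rm C.F a b a d * C.F.e b h * C.F.e d h)

/-- pointwise Bochner formula for functions -/
def S_BOCHF : Prop := ∀ (M : Type) [TopologicalSpace M] [CompactSpace M] [MeasurableSpace M]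
  [BorelSpace M] (N : ℕ) (C : CD M N) (h : C.A),
  Lap C (gsq C h) = 2 * ∑ a, ∑ b, Hs C h a b ^ 2 + 2 * ∑ b, C.F.e b h * C.F.e b (Lap C h)
    - 2 * ∑ a, ∑ b, ∑ d, Rm C.F a b a d * C.F.e b h * C.F.e d h

/-- the energy and the Dirac operator -/
def S_ENER : Prop := ∀ (M : Type) [TopologicalSpace M] [CompactSpace M] [MeasurableSpace M]
  [BorelSpace M] (N : ℕ) (C : CD M N), (∀ u, nq C (DD C u) ≤ N * en C u) ∧
  ∀ ε : ℝ, 0 ≤ ε → CurvGE C ε → ∀ u, Hor C u → en C u ≤ nq C (DD C u) + ε * N ^ 2 * nq C u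

/-! ### Gradient estimate of Li and Yau -/

/-- eigenvalues of the Laplacian on functions are bounded below -/
def S_LY : Prop := ∀ (M : Type) [TopologicalSpace M] [CompactSpace M] [MeasurableSpace M]
  [BorelSpace M] (N : ℕ) (C : CD M N) (ε : ℝ), 0 ≤ ε → CurvGE C ε → MaxP C → DiamOne C →
  ∀ (u : C.A) (l : ℝ), 0 < l → Lap C u = - (l • u) → u ≠ 0 →
  Real.log 2 ^ 2 ≤ 4 * N * (2 * l + ε * N)

/-! ### Elliptic regularity -/

/-- Gårding inequality -/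
def S_GARD : Prop := ∀ (M : Type) [TopologicalSpace M] [CompactSpace M] [MeasurableSpace M]
  [BorelSpace M] (N : ℕ) (C : CD M N), ∃ K : ℝ, 0 ≤ K ∧ ∀ u : Fk N C.A,
  ∑ a, ∑ S, ig C (C.F.e a (u S) ^ 2) ≤ K * (nq C (DD C u) + nq C u)

/-- compactness -/
def S_CPT : Prop := ∀ (M : Type) [TopologicalSpace M] [CompactSpace M] [MeasurableSpace M]
  [BorelSpace M] (N : ℕ) (C : CD M N), Moll C → ∀ v : ℕ → Fk N C.A,
  (∃ K : ℝ, ∀ k, nq C (v k) + nq C (DD C (v k)) ≤ K) →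
  ∃ φ : ℕ → ℕ, StrictMono φ ∧ Cau C (v ∘ φ)

section FO

variable {M : Type} [TopologicalSpace M] [CompactSpace M] [MeasurableSpace M] [BorelSpace M]
  {N : ℕ} (C : CD M N) {κ : Type} [Fintype κ] [DecidableEq κ]

/-- first order system -/
def FO (B : Fin N → Matrix κ κ ℝ) (c : Matrix κ κ C.A) (φ : κ → C.A) : κ → C.A :=
  fun i => ∑ a, ∑ j, B a i j • C.F.e a (φ j) + ∑ j, c i j * φ j

/-- the system is symmetric -/
def SymFO (B : Fin N → Matrix κ κ ℝ) (c : Matrix κ κ C.A) : Prop := ∀ φ ψ : κ → C.A,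
  ∑ i, ig C (FO C B c φ i * ψ i) = ∑ i, ig C (φ i * FO C B c ψ i)

/-- Gårding inequality of the system -/
def GardFO (B : Fin N → Matrix κ κ ℝ) (c : Matrix κ κ C.A) : Prop := ∃ K : ℝ, ∀ φ : κ → C.A,
  ∑ a, ∑ i, ig C (C.F.e a (φ i) ^ 2) ≤ K * ∑ i, (ig C (FO C B c φ i ^ 2) + ig C (φ i ^ 2))

/-- `u` is a weak solution of `D u = f` -/
def WeakEq (B : Fin N → Matrix κ κ ℝ) (c : Matrix κ κ C.A) (u f : κ → M → ℝ) : Prop :=
  ∀ φ : κ → C.A, ∑ i, ∫ p, u i p * C.ev p (FO C B c φ i) ∂C.μ = ∑ i, ∫ p, f i p * C.ev p (φ i) ∂C.μ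

end FO

/-- weak solutions are strong solutions -/
def S_WS : Prop := ∀ (M : Type) [TopologicalSpace M] [CompactSpace M] [MeasurableSpace M]
  [BorelSpace M] (N : ℕ) (C : CD M N) (κ : Type) [Fintype κ] [DecidableEq κ]
  (B : Fin N → Matrix κ κ ℝ) (c : Matrix κ κ C.A), Moll C → Dense2 C → SymFO C B c →
  GardFO C B c → ∀ u f : κ → M → ℝ, (∀ i, MemLp (u i) 2 C.μ) → (∀ i, MemLp (f i) 2 C.μ) →
  WeakEq C B c u f → ∀ i, Wk C 1 (u i)

/-- regularity of weak solutions -/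
def S_RI : Prop := ∀ (M : Type) [TopologicalSpace M] [CompactSpace M] [MeasurableSpace M]
  [BorelSpace M] (N : ℕ) (C : CD M N) (κ : Type) [Fintype κ] [DecidableEq κ]
  (B : Fin N → Matrix κ κ ℝ) (c : Matrix κ κ C.A), Moll C → Dense2 C → SymFO C B c →
  GardFO C B c → ∀ (k : ℕ) (u f : κ → M → ℝ), (∀ i, MemLp (u i) 2 C.μ) → (∀ i, Wk C k (f i)) →
  WeakEq C B c u f → ∀ i, Wk C (k + 1) (u i)

/-- regularity for `(d + δ)²` -/
def S_REG : Prop := ∀ (M : Type) [TopologicalSpace M] [CompactSpace M] [MeasurableSpace M]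
  [BorelSpace M] (N : ℕ) (C : CD M N), Moll C → Dense2 C → Reg C →
  ∀ (v : ℕ → Fk N C.A) (g : Fk N C.A) (l : ℝ), Cau C v → Cau C (fun k => DD C (v k)) →
  (∀ φ, Tendsto (fun k => pr C (DD C (v k)) (DD C φ) - l * pr C (v k) φ) atTop
    (𝓝 (pr C g φ))) →
  ∃ u : Fk N C.A, Tendsto (fun k => nq C (v k - u)) atTop (𝓝 0)

/-- abstract spectral theorem: `B` a scalar product, `D` symmetric with compactness and
regularity -/
def S_SPECA : Prop := ∀ (V : Type) [AddCommGroup V] [Module ℝ V] (B : V →ₗ[ℝ] V →ₗ[ℝ] ℝ)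
  (D : V →ₗ[ℝ] V), (∀ u v, B u v = B v u) → (∀ u, u ≠ 0 → 0 < B u u) →
  (∀ u v, B (D u) v = B u (D v)) →
  (∀ v : ℕ → V, (∃ K : ℝ, ∀ k, B (v k) (v k) + B (D (v k)) (D (v k)) ≤ K) →
    ∃ φ : ℕ → ℕ, StrictMono φ ∧ ∀ ε : ℝ, 0 < ε → ∃ K, ∀ i, K ≤ i → ∀ j, K ≤ j →
      B (v (φ i) - v (φ j)) (v (φ i) - v (φ j)) ≤ ε) →
  (∀ (v : ℕ → V) (g : V) (l : ℝ),
    (∀ ε : ℝ, 0 < ε → ∃ K, ∀ i, K ≤ i → ∀ j, K ≤ j → B (v i - v j) (v i - v j) ≤ ε) →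
    (∀ ε : ℝ, 0 < ε → ∃ K, ∀ i, K ≤ i → ∀ j, K ≤ j →
      B (D (v i) - D (v j)) (D (v i) - D (v j)) ≤ ε) →
    (∀ φ, Tendsto (fun k => B (D (v k)) (D φ) - l * B (v k) φ) atTop (𝓝 (B g φ))) →
    ∃ u : V, Tendsto (fun k => B (v k - u) (v k - u)) atTop (𝓝 0)) →
  ∀ t : ℝ, 0 < t → ∀ E : Submodule ℝ V,
    E = Submodule.span ℝ {u | ∃ l : ℝ, 0 ≤ l ∧ l ≤ t ∧ D (D u) = l • u} →
    Module.Finite ℝ E ∧ (∀ u ∈ E, D u ∈ E ∧ B (D u) (D u) ≤ t * B u u) ∧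
    (∀ v, (∀ u ∈ E, B u v = 0) → t * B v v ≤ B (D v) (D v)) ∧
    (∀ v, ∃ u ∈ E, ∀ w ∈ E, B w (v - u) = 0) ∧
    ∀ f, (∀ u ∈ E, B u f = 0) → ∃ γ, D (D γ) = f

/-- spectral theorem for the Hodge Laplacian -/
def S_SPEC : Prop := ∀ (M : Type) [TopologicalSpace M] [CompactSpace M] [MeasurableSpace M]
  [BorelSpace M] (N : ℕ) (C : CD M N), Moll C → Dense2 C → Reg C → ∀ t : ℝ, 0 < t →
    Module.Finite ℝ (Ev C t) ∧ (∀ u ∈ Ev C t, Hor C u ∧ DD C u ∈ Ev C t ∧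
      nq C (DD C u) ≤ t * nq C u) ∧
    (∀ v, Hor C v → (∀ u ∈ Ev C t, pr C u v = 0) → t * nq C v ≤ nq C (DD C v)) ∧
    (∀ v, Hor C v → ∃ u ∈ Ev C t, ∀ w ∈ Ev C t, pr C w (v - u) = 0) ∧
    (∀ f, Hor C f → (∀ u ∈ Ev C t, pr C u f = 0) → ∃ γ, Hor C γ ∧ DD C (DD C γ) = f) ∧
    ∀ u ∈ Ev C t, ∀ p, dpt p u ∈ Ev C t

/-- Hodge theorem, with all small eigenvalues -/
def S_HODGE : Prop := ∀ (M : Type) [TopologicalSpace M] [CompactSpace M] [MeasurableSpace M]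
  [BorelSpace M] (N : ℕ) (C : CD M N), Moll C → Dense2 C → Reg C →
    (∀ p, Module.Finite ℝ (Hp C p)) ∧ ∀ t : ℝ, 0 < t →
    ∑ p ∈ Finset.range (N + 1), (-1 : ℤ) ^ p * (Module.finrank ℝ (Evp C t p) : ℤ) =
      ∑ p ∈ Finset.range (N + 1), (-1 : ℤ) ^ p * (bet C p : ℤ)

/-! ### Poincaré inequality and almost parallel forms -/

/-- Poincaré inequality -/
def Poin {M : Type} [TopologicalSpace M] [CompactSpace M] [MeasurableSpace M] [BorelSpace M]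
    {N : ℕ} (C : CD M N) (K : ℝ) : Prop :=
  ∀ f : C.A, ig C (f ^ 2) - ig C f ^ 2 ≤ K * ig C (gsq C f)

/-- uniform Poincaré inequality -/
def S_POIN : Prop := ∀ (M : Type) [TopologicalSpace M] [CompactSpace M] [MeasurableSpace M]
  [BorelSpace M] (N : ℕ) (C : CD M N) (ε : ℝ), 0 < N → 0 ≤ ε → CurvGE C ε → MaxP C → DiamOne C →
  Moll C → Dense2 C → Reg C → 8 * N ^ 2 * ε ≤ Real.log 2 ^ 2 →
  Poin C (32 * N / Real.log 2 ^ 2) ∧
  ∀ u ∈ Evp C (Real.log 2 ^ 2 / (32 * N)) 0, ∃ c : ℝ, u = c • (vac : Fk N C.A)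

/-- almost parallel forms have almost constant length -/
def S_NEAR : Prop := ∀ (M : Type) [TopologicalSpace M] [CompactSpace M] [MeasurableSpace M]
  [BorelSpace M] (N : ℕ) (C : CD M N) (K : ℝ), 0 ≤ K → Poin C K → ∀ u : Fk N C.A, nq C u = 1 →
  ∫ p, (√(C.ev p (ip u u)) - 1) ^ 2 ∂C.μ ≤ 2 * K * en C u

/-- Gram matrix of almost parallel forms -/
def S_GRAM : Prop := ∀ (M : Type) [TopologicalSpace M] [CompactSpace M] [MeasurableSpace M]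
  [BorelSpace M] (N : ℕ) (C : CD M N) (K τ : ℝ), 0 ≤ K → 0 ≤ τ → Poin C K →
  (∀ u : Fk N C.A, nq C u = 1 → en C u ≤ τ → ∫ p, |C.ev p (ip u u) - 1| ∂C.μ ≤ 4 * √(K * τ)) ∧
  ∀ u v : Fk N C.A, nq C u = 1 → nq C v = 1 → pr C u v = 0 → en C u ≤ τ → en C v ≤ τ →
    ∫ p, |C.ev p (ip u v)| ∂C.μ ≤ 4 * √(K * τ)

/-! ### Clifford product -/

/-- the sign of the product of the basis elements `e_S`, `e_T` of the Clifford algebra with
`e_i² = 1` -/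
def sg2 {N : ℕ} (S T : Finset (Fin N)) : ℤ :=
  (-1) ^ ((S ×ˢ T).filter fun q => q.2 < q.1).card

/-- Clifford product -/
def mulF {N : ℕ} {A : Type*} [CommRing A] (u v : Fk N A) : Fk N A :=
  fun R => ∑ S, (sg2 S (symmDiff S R) : A) * u S * v (symmDiff S R)

/-- algebraic properties of the Clifford product -/
def S_CLIF : Prop := ∀ (N : ℕ) (A : Type) [CommRing A],
  (∀ u v w : Fk N A, mulF (mulF u v) w = mulF u (mulF v w)) ∧
  (∀ u : Fk N A, mulF vac u = u) ∧ (∀ u : Fk N A, mulF u vac = u) ∧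
  (∀ (i : Fin N) (u v : Fk N A), mulF (cr i u + an i u) v = cr i (mulF u v) + an i (mulF u v)) ∧
  (∀ (i : Fin N) (u v : Fk N A), an i (mulF u v) =
    mulF (an i u) v + mulF (fun S => (-1) ^ S.card * u S) (an i v)) ∧
  (∀ (p : ℕ) (u v w : Fk N A), Deg p u →
    ip (mulF u v) w = (-1) ^ (p * (p - 1) / 2) * ip v (mulF u w)) ∧
  (∀ (p : ℕ) (u v w : Fk N A), Deg p v →
    ip (mulF u v) w = (-1) ^ (p * (p - 1) / 2) * ip u (mulF w v))

/-- norm of the Clifford product -/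
def S_CLIN : Prop := ∀ (N : ℕ) (u v : Fk N ℝ),
  ip (mulF u v) (mulF u v) ≤ 2 ^ N * (ip u u * ip v v)

/-- Clifford product, connection and horizontality -/
def S_CLIM : Prop := ∀ (M : Type) [TopologicalSpace M] [CompactSpace M] [MeasurableSpace M]
  [BorelSpace M] (N : ℕ) (C : CD M N),
  (∀ a (u v : Fk N C.A), nab C.F a (mulF u v) = mulF (nab C.F a u) v + mulF u (nab C.F a v)) ∧
  (∀ u v, Hor C u → Hor C v → Hor C (mulF u v)) ∧ Hor C vac ∧ ∀ a, nab C.F a vac = 0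

/-- truncated products of almost parallel forms are almost parallel -/
def S_PROD : Prop := ∀ (M : Type) [TopologicalSpace M] [CompactSpace M] [MeasurableSpace M]
  [BorelSpace M] (N : ℕ) (C : CD M N) (τ : ℝ) (u v : Fk N C.A), Hor C u → Hor C v →
  en C u ≤ τ → en C v ≤ τ → ∃ w : Fk N C.A, Hor C w ∧ nq C w ≤ 2 ^ N ∧
    nq C (DD C w) ≤ 36 * N * 2 ^ N * τ ∧
    ∀ p, ∀ S, C.ev p (w S) = mulF (fun T => 2 / (1 + C.ev p (ip u u)) * C.ev p (u T))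
      (fun T => 2 / (1 + C.ev p (ip v v)) * C.ev p (v T)) S

/-! ### The limit algebra -/

/-- Almost algebras: almost orthonormal vectors of the Fock space `Λ ℝ^N`, `d p` of degree `p`,
whose span is almost closed under the Clifford product. -/
def AppAlg (N : ℕ) (η : ℝ) (d : Fin (N + 1) → ℕ) : Prop :=
  ∃ (a : (Σ p, Fin (d p)) → Fk N ℝ) (c : (Σ p, Fin (d p)) → (Σ p, Fin (d p)) →
      (Σ p, Fin (d p)) → ℝ),
    (∀ x, Deg x.1 (a x)) ∧ d 0 = 1 ∧ (∀ i : Fin (d 0), a ⟨0, i⟩ = vac ∨ a ⟨0, i⟩ = - vac) ∧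
    (∀ x y, |ip (a x) (a y) - if x = y then 1 else 0| ≤ η) ∧
    (∀ x y z, |c x y z| ≤ 2 ^ N) ∧
    ∀ x y S, |(mulF (a x) (a y) - ∑ z, c x y z • a z) S| ≤ η

/-- exact algebras: the alternating sum of the dimensions is nonnegative -/
def S_ALG : Prop := ∀ (N : ℕ) (d : Fin (N + 1) → ℕ) (a : (Σ p, Fin (d p)) → Fk N ℝ)
  (c : (Σ p, Fin (d p)) → (Σ p, Fin (d p)) → (Σ p, Fin (d p)) → ℝ),
  (∀ x, Deg x.1 (a x)) → d 0 = 1 → (∀ i : Fin (d 0), a ⟨0, i⟩ = vac ∨ a ⟨0, i⟩ = - vac) →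
  (∀ x y, ip (a x) (a y) = if x = y then 1 else 0) →
  (∀ x y, mulF (a x) (a y) = ∑ z, c x y z • a z) →
  0 ≤ ∑ p : Fin (N + 1), (-1 : ℤ) ^ (p : ℕ) * (d p : ℤ)

/-- compactness -/
def S_CMP : Prop := ∀ (N : ℕ) (d : Fin (N + 1) → ℕ), (∀ η : ℝ, 0 < η → AppAlg N η d) →
  0 ≤ ∑ p : Fin (N + 1), (-1 : ℤ) ^ (p : ℕ) * (d p : ℤ)

/-- almost algebras from small eigenvalues with a gap -/
def S_APP : Prop := ∀ (N : ℕ), 0 < N → ∀ (η K : ℝ), 0 < η → 0 ≤ K → ∃ δ : ℝ, 0 < δ ∧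
  ∀ (M : Type) [TopologicalSpace M] [CompactSpace M] [MeasurableSpace M] [BorelSpace M]
    (C : CD M N) (ε t t' : ℝ), 0 ≤ ε → CurvGE C ε → Moll C → Dense2 C → Reg C → Poin C K →
    0 < t → t ≤ t' → Ev C t' = Ev C t → t + ε * N ^ 2 ≤ δ → t + ε * N ^ 2 ≤ δ * t' →
    (∀ u ∈ Evp C t 0, ∃ c : ℝ, u = c • (vac : Fk N C.A)) →
    Module.finrank ℝ (Ev C t) ≤ 2 ^ N →
    AppAlg N η (fun p => Module.finrank ℝ (Evp C t p))

/-- bound of the number of small eigenvalues -/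
def S_DIM : Prop := ∀ (N : ℕ) (K : ℝ), 0 ≤ K → ∃ δ : ℝ, 0 < δ ∧
  ∀ (M : Type) [TopologicalSpace M] [CompactSpace M] [MeasurableSpace M] [BorelSpace M]
    (C : CD M N) (ε t : ℝ), 0 ≤ ε → CurvGE C ε → Moll C → Dense2 C → Reg C → Poin C K →
    0 < t → t + ε * N ^ 2 ≤ δ → Module.finrank ℝ (Ev C t) ≤ 2 ^ N

/-- the abstract theorem -/
def S_FIN : Prop := ∀ N : ℕ, 0 < N → ∀ η : ℝ, 0 < η → ∃ ε : ℝ, 0 < ε ∧
  ∀ (M : Type) [TopologicalSpace M] [CompactSpace M] [MeasurableSpace M] [BorelSpace M]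
    (C : CD M N), CurvGE C ε → Moll C → Dense2 C → Reg C → MaxP C → DiamOne C →
    ∃ d : Fin (N + 1) → ℕ, AppAlg N η d ∧ ∑ p, d p ≤ 2 ^ N ∧
      ∑ p : Fin (N + 1), (-1 : ℤ) ^ (p : ℕ) * (d p : ℤ) =
        ∑ p ∈ Finset.range (N + 1), (-1 : ℤ) ^ p * (bet C p : ℤ)

/-- almost nonnegative curvature operator implies `χ ≥ 0`, abstract version, uniform -/
def S_CHI : Prop := ∀ N : ℕ, 0 < N → ∃ ε : ℝ, 0 < ε ∧
  ∀ (M : Type) [TopologicalSpace M] [CompactSpace M] [MeasurableSpace M] [BorelSpace M]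
    (C : CD M N), CurvGE C ε → Moll C → Dense2 C → Reg C → MaxP C → DiamOne C →
    0 ≤ ∑ p ∈ Finset.range (N + 1), (-1 : ℤ) ^ p * (bet C p : ℤ)

end Pool.Agent.H781.CM
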