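import Pool.Graph.R_seed8.H893R5.HO.Frame
import Pool.Agent.H781.S22.Defs
import Pool.Agent.H781.CM.Spec

/-!
Geometric side: smooth functions, metrics, Parseval frames, the data `GD` of a closed Riemannian
manifold and the resulting abstract data `CD`.
-/

set_option autoImplicit false
set_option synthInstance.maxHeartbeats 400000
set_option maxHeartbeats 4000000
set_option linter.unusedSectionVars false

open Bundle Manifold ContDiff VectorField MeasureTheory Filter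
open scoped Topology

noncomputable section

namespace Pool.Agent.H781.CM

open Pool.Agent.H781.NG Pool.Agent.H821R2 Pool.Agent.H821R3 Pool.Agent.H893R5.HO
  Pool.Agent.H781.S22

/-- `ℝⁿ` -/
abbrev EU (n : ℕ) : Type := EuclideanSpace ℝ (Fin n)

section basics

variable (n : ℕ) (M : Type) [TopologicalSpace M] [ChartedSpace (EU n) M] [IsManifold (𝓡 n) ∞ M]

/-- smooth Riemannian metrics -/
abbrev Met : Type := ContMDiffRiemannianMetric (𝓡 n) ∞ (EU n) (fun x : M => TangentSpace (𝓡 n) x)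

/-- connections -/
abbrev Cov : Type := CovariantDerivative (𝓡 n) (EU n) (TangentSpace (𝓡 n) : M → Type _)

omit [IsManifold (𝓡 n) ∞ M] in
/-- vector fields -/
abbrev VF : Type := Π x : M, TangentSpace (𝓡 n) x

/-- the algebra of smooth functions -/
def SA : Subalgebra ℝ (M → ℝ) where
  carrier := {f | Sm (𝓡 n) f}
  mul_mem' := fun {f g} hf hg => Sm.mul hf hg
  add_mem' := fun {f g} hf hg => Sm.add hf hg
  algebraMap_mem' := fun c => Sm.const c

variable {n M}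

/-- value at a point -/
def evA (p : M) : SA n M →ₐ[ℝ] ℝ := (Pi.evalAlgHom ℝ (fun _ : M => ℝ) p).comp (SA n M).val

theorem evA_apply (p : M) (f : SA n M) : evA p f = f.1 p := rfl

theorem ext_evA {f g : SA n M} (h : ∀ p, evA p f = evA p g) : f = g := Subtype.ext (funext h)

theorem cont_evA (f : SA n M) : Continuous fun p => evA p f :=
  (show ContMDiff (𝓡 n) 𝓘(ℝ, ℝ) ∞ f.1 from f.2).continuous

/-- the derivation given by a smooth vector field -/
def derA {Z : VF n M} (hZ : SmV Z) : Derivation ℝ (SA n M) (SA n M) :=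
  Derivation.mk'
    { toFun := fun f => ⟨der Z f.1, Sm.der hZ f.2⟩
      map_add' := fun f g => Subtype.ext (der_add f.2 g.2)
      map_smul' := fun c f => Subtype.ext (der_cmul c f.2) }
    (fun f g => Subtype.ext (by
      have h := der_mul (Z := Z) f.2 g.2
      refine h.trans ?_
      funext p
      change der Z f.1 p * g.1 p + f.1 p * der Z g.1 p = f.1 p * der Z g.1 p + g.1 p * der Z f.1 p
      ring))

theorem ev_derA {Z : VF n M} (hZ : SmV Z) (f : SA n M) (p : M) :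
    evA p (derA hZ f) = mvfderiv (𝓡 n) f.1 p (Z p) := rfl

theorem compA (f : SA n M) (φ : ℝ → ℝ) (U : Set ℝ) (hU : IsOpen U) (hφ : ContDiffOn ℝ ∞ φ U)
    (hf : ∀ p, evA p f ∈ U) : ∃ g : SA n M, ∀ p, evA p g = φ (evA p f) := by
  have h : Sm (𝓡 n) (fun p => φ (f.1 p)) := by
    intro p
    have h1 : ContDiffAt ℝ ∞ φ (f.1 p) := (hφ _ (hf p)).contDiffAt (hU.mem_nhds (hf p))
    exact ContDiffAt.comp_contMDiffAt (g := φ) (f := f.1) h1 (f.2 p)
  exact ⟨⟨_, h⟩, fun p => rfl⟩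

theorem chainA (f g : SA n M) (φ : ℝ → ℝ) (U : Set ℝ) (hU : IsOpen U) (hφ : ContDiffOn ℝ ∞ φ U)
    (hf : ∀ p, evA p f ∈ U) (hg : ∀ p, evA p g = φ (evA p f)) {Z : VF n M} (hZ : SmV Z) (p : M) :
    evA p (derA hZ g) = deriv φ (evA p f) * evA p (derA hZ f) := by
  rw [ev_derA, ev_derA]
  have e : g.1 = φ ∘ f.1 := funext hg
  rw [e]
  have h1 : ContDiffAt ℝ ∞ φ (f.1 p) := (hφ _ (hf p)).contDiffAt (hU.mem_nhds (hf p))
  have h2 : HasFDerivAt φ (ContinuousLinearMap.toSpanSingleton ℝ (deriv φ (f.1 p))) (f.1 p) :=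
    (h1.differentiableAt (by simp)).hasDerivAt.hasFDerivAt
  have h3 : HasMFDerivAt (𝓡 n) 𝓘(ℝ, ℝ) f.1 p (mfderiv (𝓡 n) 𝓘(ℝ, ℝ) f.1 p) :=
    (Sm.mdiff f.2 p).hasMFDerivAt
  have h4 := (h2.hasMFDerivAt.comp p h3).mfderiv
  change (mfderiv (𝓡 n) 𝓘(ℝ, ℝ) (φ ∘ f.1) p) (Z p) = _
  rw [h4]
  exact mul_comm (G := ℝ) ((mfderiv (𝓡 n) 𝓘(ℝ, ℝ) f.1 p) (Z p)) (deriv φ (f.1 p))

end basics

section frames

variable {n : ℕ} {M : Type} [TopologicalSpace M] [ChartedSpace (EU n) M] [IsManifold (𝓡 n) ∞ M]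

/-- Parseval frame of a Riemannian metric: finitely many smooth vector fields with
`∑ ⟨v, X_a⟩ X_a = v` -/
structure PF (g : Met n M) (N : ℕ) where
  X : Fin N → VF n M
  hX : ∀ a, SmV (X a)
  par : ∀ (p : M) (v : TangentSpace (𝓡 n) p), ∑ a, g.inner p v (X a p) • X a p = v

variable {g : Met n M} {cov : Cov n M} {N : ℕ}

/-- `⟨X_b, X_c⟩` -/
def Pm (T : PF g N) (b c : Fin N) : SA n M :=
  ⟨gi g (T.X b) (T.X c), gi_smooth (T.hX b) (T.hX c)⟩

/-- `⟨∇_{X_a} X_b, X_c⟩` -/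
def cG (h : IsLeviCivita g cov) (T : PF g N) (a b c : Fin N) : SA n M :=
  ⟨gi g (nabla cov (T.X a) (T.X b)) (T.X c),
    gi_smooth (nabla_smooth h (T.hX a) (T.hX b)) (T.hX c)⟩

/-- connection coefficients of `∇^(Levi-Civita) ⊕ ∇^ν` -/
def Gm (h : IsLeviCivita g cov) (T : PF g N) (a b c : Fin N) : SA n M :=
  cG h T a b c - ∑ d, Pm T b d * derA (T.hX a) (Pm T d c)

/-- the connection of the trivial bundle -/
structure FrOK (h : IsLeviCivita g cov) (T : PF g N) (F : Fr N (SA n M)) : Prop where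
  e : ∀ a, F.e a = derA (T.hX a)
  G : ∀ a b c, F.Γ a b c = Gm h T a b c
  idem : ∀ a c, ∑ b, Pm T a b * Pm T b c = Pm T a c
  Pe : ∀ a f, ∑ b, Pm T a b * F.e b f = F.e a f
  PG : ∀ a b c, ∑ d, Pm T a d * F.Γ d b c = F.Γ a b c
  Ppar : ∀ a b c, F.e a (Pm T b c) = ∑ d, (F.Γ a b d * Pm T d c + F.Γ a c d * Pm T b d)

end frames

section measure

variable {n : ℕ} {M : Type} [TopologicalSpace M] [ChartedSpace (EU n) M] [IsManifold (𝓡 n) ∞ M]

/-- the metric in the chart at `x₀` -/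
def gm (g : Met n M) (x₀ : M) (y : EU n) : Matrix (Fin n) (Fin n) ℝ :=
  Matrix.of fun i j => g.inner ((extChartAt (𝓡 n) x₀).symm y)
    (mfderiv 𝓘(ℝ, EU n) (𝓡 n) (extChartAt (𝓡 n) x₀).symm y (EuclideanSpace.single i (1 : ℝ)))
    (mfderiv 𝓘(ℝ, EU n) (𝓡 n) (extChartAt (𝓡 n) x₀).symm y (EuclideanSpace.single j (1 : ℝ)))

/-- `μ` is `c` times the Riemannian measure: in every chart it has the density
`c √(det g_ij)` -/
def HasDens [MeasurableSpace M] (g : Met n M) (c : ℝ) (μ : Measure M) : Prop :=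
  ∀ x₀ : M, ∀ f : M → ENNReal, Measurable f →
    ∫⁻ p in (extChartAt (𝓡 n) x₀).source, f p ∂μ =
      ∫⁻ y in (extChartAt (𝓡 n) x₀).target, f ((extChartAt (𝓡 n) x₀).symm y) *
        ENNReal.ofReal (c * √(gm g x₀ y).det)

/-- in every chart `μ` has a smooth positive density -/
def SmDens [MeasurableSpace M] (n : ℕ) [ChartedSpace (EU n) M] (μ : Measure M) : Prop :=
  ∀ x₀ : M, ∃ d : EU n → ℝ, ContDiffOn ℝ ∞ d (extChartAt (𝓡 n) x₀).target ∧
    (∀ y ∈ (extChartAt (𝓡 n) x₀).target, 0 < d y) ∧ ∀ f : M → ENNReal, Measurable f →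
    ∫⁻ p in (extChartAt (𝓡 n) x₀).source, f p ∂μ =
      ∫⁻ y in (extChartAt (𝓡 n) x₀).target, f ((extChartAt (𝓡 n) x₀).symm y) *
        ENNReal.ofReal (d y)

end measure

/-- Data of a closed Riemannian manifold. -/
structure GD (n : ℕ) (M : Type) [TopologicalSpace M] [ChartedSpace (EU n) M]
    [IsManifold (𝓡 n) ∞ M] [MeasurableSpace M] (N : ℕ) where
  g : Met n M
  cov : Cov n M
  R : CurvField (𝓡 n) M
  lc : IsLeviCivita g cov
  rt : IsRiemannTensor cov R
  T : PF g N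
  F : Fr N (SA n M)
  ok : FrOK lc T F
  bianchi : ∀ a b c d, ∑ c', Pm T c c' * Rm F a b c' d + ∑ c', Pm T a c' * Rm F b c c' d +
    ∑ c', Pm T b c' * Rm F c a c' d = 0
  μ : Measure M
  prob : IsProbabilityMeasure μ
  pos : ∀ U : Set M, IsOpen U → U.Nonempty → 0 < μ U
  dens : SmDens n μ
  div : ∀ f : Fin N → SA n M, ∫ p, evA p (dv F f) ∂μ = 0

variable {n : ℕ} {M : Type} [TopologicalSpace M] [ChartedSpace (EU n) M]
  [IsManifold (𝓡 n) ∞ M] [CompactSpace M] [MeasurableSpace M] [BorelSpace M] {N : ℕ}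

/-- the abstract data -/
def GD.C (D : GD n M N) : CD M N where
  A := SA n M
  ev := evA
  ext_ev f g h := ext_evA h
  cont := cont_evA
  comp := compA
  F := D.F
  chain f g φ U hU hφ hf hg a p := by
    rw [D.ok.e]
    exact chainA f g φ U hU hφ hf hg (D.T.hX a) p
  P := Pm D.T
  Psymm a b := Subtype.ext (gi_comm _ _)
  Pidem := D.ok.idem
  Pe := D.ok.Pe
  PG := D.ok.PG
  Ppar := D.ok.Ppar
  bianchi := D.bianchi
  μ := D.μ
  prob := D.prob
  pos := D.pos
  div := D.div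

end Pool.Agent.H781.CM
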