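import Pool.Agent.H781.CM.DR

/-!
Specification of the geometric part of project CM.
-/

set_option autoImplicit false
set_option synthInstance.maxHeartbeats 400000
set_option maxHeartbeats 4000000
set_option linter.unusedSectionVars false

open Bundle Manifold ContDiff VectorField MeasureTheory Filter
open scoped Topology

noncomputable section

namespace Pool.Agent.H781.CM

open Pool.Agent.H781.NG Pool.Agent.H821R2 Pool.Agent.H821R3 Pool.Agent.H893R5.HO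
  Pool.Agent.H781.S22

/-! ### Frames -/

/-- existence of frame data on compact manifolds -/
def S_GFRM : Prop := ∀ (n : ℕ) (M : Type) [TopologicalSpace M] [T2Space M] [CompactSpace M]
  [ChartedSpace (EU n) M] [IsManifold (𝓡 n) ∞ M],
  ∃ m : ℕ, 0 < m ∧ Nonempty (FrameData (𝓡 n) M (Fin m))

/-- smooth Cholesky decomposition -/
def S_CHOLG : Prop := ∀ (n : ℕ) (M : Type) [TopologicalSpace M]
  [ChartedSpace (EU n) M] [IsManifold (𝓡 n) ∞ M] (N : ℕ) (G : Fin N → Fin N → SA n M),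
  (∀ i j, G i j = G j i) → (∀ p : M, (Matrix.of fun i j => evA p (G i j)).PosDef) →
  ∃ S : Fin N → Fin N → SA n M,
    ∀ a b, ∑ i, ∑ j, S a i * G i j * S b j = if a = b then 1 else 0

/-- Parseval frames; their number depends only on the manifold -/
def S_PF : Prop := ∀ (n : ℕ) (M : Type) [TopologicalSpace M] [T2Space M] [CompactSpace M]
  [ChartedSpace (EU n) M] [IsManifold (𝓡 n) ∞ M],
  ∃ N : ℕ, 0 < N ∧ ∀ g : Met n M, Nonempty (PF g N)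

/-- the connection of the trivial bundle -/
def S_GFR : Prop := ∀ (n : ℕ) (M : Type) [TopologicalSpace M] [T2Space M] [CompactSpace M]
  [ChartedSpace (EU n) M] [IsManifold (𝓡 n) ∞ M], 1 ≤ n → ∀ (g : Met n M) (cov : Cov n M)
  (h : IsLeviCivita g cov) (N : ℕ) (T : PF g N), ∃ F : Fr N (SA n M), FrOK h T F

/-- the curvature of the trivial bundle -/
def S_GCU : Prop := ∀ (n : ℕ) (M : Type) [TopologicalSpace M] [T2Space M] [CompactSpace M]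
  [ChartedSpace (EU n) M] [IsManifold (𝓡 n) ∞ M], 1 ≤ n → ∀ (g : Met n M) (cov : Cov n M)
  (R : CurvField (𝓡 n) M) (h : IsLeviCivita g cov), IsRiemannTensor cov R →
  ∀ (N : ℕ) (T : PF g N) (F : Fr N (SA n M)), FrOK h T F → ∀ a b c d p,
    ∑ c', evA p (Pm T c c') * evA p (Rm F a b c' d) =
      g.inner p (R p (T.X a p) (T.X b p) (T.X c p)) (T.X d p)

/-- first Bianchi identity -/
def S_GBI : Prop := ∀ (n : ℕ) (M : Type) [TopologicalSpace M] [T2Space M] [CompactSpace M]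
  [ChartedSpace (EU n) M] [IsManifold (𝓡 n) ∞ M], 1 ≤ n → ∀ (g : Met n M) (cov : Cov n M)
  (h : IsLeviCivita g cov) (N : ℕ) (T : PF g N) (F : Fr N (SA n M)), FrOK h T F →
  ∀ a b c d, ∑ c', Pm T c c' * Rm F a b c' d + ∑ c', Pm T a c' * Rm F b c c' d +
    ∑ c', Pm T b c' * Rm F c a c' d = 0

/-- the curvature bound -/
def S_GCURV : Prop := ∀ (n : ℕ) (M : Type) [TopologicalSpace M] [T2Space M] [CompactSpace M]
  [ChartedSpace (EU n) M] [IsManifold (𝓡 n) ∞ M] [MeasurableSpace M] [BorelSpace M] (N : ℕ)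
  (D : GD n M N) (ε : ℝ), 1 ≤ n → 0 ≤ ε → CurvOpGE D.g (-ε) → CurvGE D.C (2 * ε)

/-! ### Charts -/

section charts

variable {n : ℕ} {M : Type} [TopologicalSpace M] [ChartedSpace (EU n) M]

variable (n) in
/-- a function on `M` in the chart at `x₀`, extended by zero -/
def pul (x₀ : M) (f : M → ℝ) : EU n → ℝ := fun y =>
  open Classical in
  if y ∈ (extChartAt (𝓡 n) x₀).target then f ((extChartAt (𝓡 n) x₀).symm y) else 0

/-- a function on the chart at `x₀` as a function on `M`, extended by zero -/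
def psh (x₀ : M) (u : EU n → ℝ) : M → ℝ := fun p =>
  open Classical in
  if p ∈ (extChartAt (𝓡 n) x₀).source then u (extChartAt (𝓡 n) x₀ p) else 0

/-- the `k`-th component of a vector field in the chart at `x₀` -/
def zc (x₀ : M) (Z : VF n M) (k : Fin n) (y : EU n) : ℝ :=
  (show EU n from mfderiv (𝓡 n) 𝓘(ℝ, EU n) (extChartAt (𝓡 n) x₀)
    ((extChartAt (𝓡 n) x₀).symm y) (Z ((extChartAt (𝓡 n) x₀).symm y))) k

/-- the coordinate field `∂_k` at the point with coordinates `y` -/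
def cf (x₀ : M) (k : Fin n) (y : EU n) : TangentSpace (𝓡 n) ((extChartAt (𝓡 n) x₀).symm y) :=
  mfderiv 𝓘(ℝ, EU n) (𝓡 n) (extChartAt (𝓡 n) x₀).symm y (EuclideanSpace.single k (1 : ℝ))

/-- `∂_k` -/
def pd (k : Fin n) (u : EU n → ℝ) (y : EU n) : ℝ := fderiv ℝ u y (EuclideanSpace.single k (1 : ℝ))

end charts

/-- functions supported in a chart -/
def S_TKF : Prop := ∀ (n : ℕ) (M : Type) [TopologicalSpace M] [T2Space M] [CompactSpace M]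
  [ChartedSpace (EU n) M] [IsManifold (𝓡 n) ∞ M] (x₀ : M),
  (∀ u : EU n → ℝ, ContDiff ℝ ∞ u → HasCompactSupport u →
    tsupport u ⊆ (extChartAt (𝓡 n) x₀).target → Sm (𝓡 n) (psh x₀ u) ∧
      tsupport (psh x₀ u) ⊆ (extChartAt (𝓡 n) x₀).source ∧ pul n x₀ (psh x₀ u) = u) ∧
  (∀ f : M → ℝ, Sm (𝓡 n) f → tsupport f ⊆ (extChartAt (𝓡 n) x₀).source →
    ContDiff ℝ ∞ (pul n x₀ f) ∧ HasCompactSupport (pul n x₀ f) ∧
      tsupport (pul n x₀ f) ⊆ (extChartAt (𝓡 n) x₀).target ∧ psh x₀ (pul n x₀ f) = f) ∧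
  ∀ f : M → ℝ, Sm (𝓡 n) f →
    ContDiffOn ℝ ∞ (f ∘ (extChartAt (𝓡 n) x₀).symm) (extChartAt (𝓡 n) x₀).target

/-- vector fields in a chart -/
def S_TKV : Prop := ∀ (n : ℕ) (M : Type) [TopologicalSpace M] [T2Space M] [CompactSpace M]
  [ChartedSpace (EU n) M] [IsManifold (𝓡 n) ∞ M] (x₀ : M),
  (∀ (Z : VF n M), SmV Z → ∀ k, ContDiffOn ℝ ∞ (zc x₀ Z k) (extChartAt (𝓡 n) x₀).target) ∧
  (∀ (Z : VF n M), ∀ y ∈ (extChartAt (𝓡 n) x₀).target,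
    Z ((extChartAt (𝓡 n) x₀).symm y) = ∑ k, zc x₀ Z k y • cf x₀ k y) ∧
  (∀ (f : M → ℝ), Sm (𝓡 n) f → ∀ y ∈ (extChartAt (𝓡 n) x₀).target, ∀ k,
    mvfderiv (𝓡 n) f ((extChartAt (𝓡 n) x₀).symm y) (cf x₀ k y) =
      pd k (f ∘ (extChartAt (𝓡 n) x₀).symm) y) ∧
  (∀ (Z : VF n M) (f : M → ℝ), SmV Z → Sm (𝓡 n) f → ∀ y ∈ (extChartAt (𝓡 n) x₀).target,
    der Z f ((extChartAt (𝓡 n) x₀).symm y) =
      ∑ k, zc x₀ Z k y * pd k (f ∘ (extChartAt (𝓡 n) x₀).symm) y) ∧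
  (∀ y ∈ (extChartAt (𝓡 n) x₀).target, LinearIndependent ℝ (fun k => cf (M := M) x₀ k y)) ∧
  ∀ (g : Met n M),
    (∀ (Z : VF n M), SmV Z → ∀ k, ContDiffOn ℝ ∞
      (fun y => g.inner ((extChartAt (𝓡 n) x₀).symm y) (cf x₀ k y)
        (Z ((extChartAt (𝓡 n) x₀).symm y))) (extChartAt (𝓡 n) x₀).target) ∧
    (∀ k l, ContDiffOn ℝ ∞ (fun y => gm g x₀ y k l) (extChartAt (𝓡 n) x₀).target) ∧
    ∀ y ∈ (extChartAt (𝓡 n) x₀).target, (gm g x₀ y).PosDef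

/-- partitions of unity -/
def S_TKP : Prop := ∀ (n : ℕ) (M : Type) [TopologicalSpace M] [T2Space M] [CompactSpace M]
  [ChartedSpace (EU n) M] [IsManifold (𝓡 n) ∞ M],
  ∃ (m : ℕ) (x : Fin m → M) (χ η : Fin m → SA n M), (∀ p : M, ∑ i, evA p (χ i) = 1) ∧
    (∀ i (p : M), 0 ≤ evA p (χ i) ∧ evA p (χ i) ≤ 1) ∧
    (∀ i, tsupport (χ i).1 ⊆ (extChartAt (𝓡 n) (x i)).source) ∧
    (∀ i, tsupport (η i).1 ⊆ (extChartAt (𝓡 n) (x i)).source) ∧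
    ∀ i, ∀ p ∈ tsupport (χ i).1, ∀ᶠ q in 𝓝 p, evA q (η i) = 1

/-- integrals of functions supported in a chart -/
def S_TKI : Prop := ∀ (n : ℕ) (M : Type) [TopologicalSpace M] [T2Space M] [CompactSpace M]
  [ChartedSpace (EU n) M] [IsManifold (𝓡 n) ∞ M] [MeasurableSpace M] [BorelSpace M]
  (μ : Measure M) [IsFiniteMeasure μ] (x₀ : M) (d : EU n → ℝ),
  ContDiffOn ℝ ∞ d (extChartAt (𝓡 n) x₀).target →
  (∀ y ∈ (extChartAt (𝓡 n) x₀).target, 0 < d y) →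
  (∀ f : M → ENNReal, Measurable f →
    ∫⁻ p in (extChartAt (𝓡 n) x₀).source, f p ∂μ =
      ∫⁻ y in (extChartAt (𝓡 n) x₀).target, f ((extChartAt (𝓡 n) x₀).symm y) *
        ENNReal.ofReal (d y)) →
  (∀ f : M → ℝ, Integrable f μ → Integrable (fun y => pul n x₀ f y * d y) ∧
    ∫ p in (extChartAt (𝓡 n) x₀).source, f p ∂μ = ∫ y, pul n x₀ f y * d y) ∧
  (∀ f : M → ℝ, MemLp f 2 μ → Integrable (fun y => pul n x₀ f y ^ 2 * d y)) ∧
  ∀ f g : M → ℝ, f =ᵐ[μ] g →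
    ∀ᵐ y, y ∈ (extChartAt (𝓡 n) x₀).target → pul n x₀ f y = pul n x₀ g y

/-! ### Measure -/

/-- existence of the normalised Riemannian measure -/
def S_MEAS : Prop := ∀ (n : ℕ) (M : Type) [TopologicalSpace M] [T2Space M] [CompactSpace M]
  [Nonempty M] [ChartedSpace (EU n) M] [IsManifold (𝓡 n) ∞ M] [MeasurableSpace M] [BorelSpace M]
  (g : Met n M), 1 ≤ n → ∃ (c : ℝ) (μ : Measure M), 0 < c ∧ IsProbabilityMeasure μ ∧
    (∀ U : Set M, IsOpen U → U.Nonempty → 0 < μ U) ∧ HasDens g c μ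

/-- divergence in coordinates -/
def S_DIVL : Prop := ∀ (n : ℕ) (M : Type) [TopologicalSpace M] [T2Space M] [CompactSpace M]
  [ChartedSpace (EU n) M] [IsManifold (𝓡 n) ∞ M], 1 ≤ n → ∀ (g : Met n M) (cov : Cov n M),
  IsLeviCivita g cov → ∀ (N : ℕ) (T : PF g N) (Z : VF n M), SmV Z → ∀ (x₀ : M),
  ∀ y ∈ (extChartAt (𝓡 n) x₀).target,
    √(gm g x₀ y).det * ∑ a, g.inner ((extChartAt (𝓡 n) x₀).symm y)
      (cov Z ((extChartAt (𝓡 n) x₀).symm y) (T.X a ((extChartAt (𝓡 n) x₀).symm y)))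
      (T.X a ((extChartAt (𝓡 n) x₀).symm y)) =
    ∑ k, pd k (fun y' => √(gm g x₀ y').det * zc x₀ Z k y') y

/-- divergence theorem -/
def S_DIVT : Prop := ∀ (n : ℕ) (M : Type) [TopologicalSpace M] [T2Space M] [CompactSpace M]
  [ChartedSpace (EU n) M] [IsManifold (𝓡 n) ∞ M] [MeasurableSpace M] [BorelSpace M],
  1 ≤ n → ∀ (g : Met n M) (cov : Cov n M) (h : IsLeviCivita g cov) (N : ℕ) (T : PF g N)
  (F : Fr N (SA n M)), FrOK h T F → ∀ (c : ℝ) (μ : Measure M), 0 < c → IsProbabilityMeasure μ →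
  HasDens g c μ → ∀ f : Fin N → SA n M, ∫ p, evA p (dv F f) ∂μ = 0

/-- existence of the data -/
def S_GD : Prop := ∀ (n : ℕ) (M : Type) [TopologicalSpace M] [T2Space M] [CompactSpace M]
  [Nonempty M] [ChartedSpace (EU n) M] [IsManifold (𝓡 n) ∞ M] [MeasurableSpace M] [BorelSpace M],
  1 ≤ n → ∃ N : ℕ, 0 < N ∧ ∀ (g : Met n M) (cov : Cov n M) (R : CurvField (𝓡 n) M),
    IsLeviCivita g cov → IsRiemannTensor cov R → ∃ D : GD n M N, D.g = g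

/-! ### Analysis -/

/-- maximum principle -/
def S_GMAX : Prop := ∀ (n : ℕ) (M : Type) [TopologicalSpace M] [T2Space M] [CompactSpace M]
  [ChartedSpace (EU n) M] [IsManifold (𝓡 n) ∞ M] [MeasurableSpace M] [BorelSpace M] (N : ℕ)
  (D : GD n M N), MaxP D.C

/-- diameter -/
def S_GDIAM : Prop := ∀ (n : ℕ) (M : Type) [TopologicalSpace M] [T2Space M] [CompactSpace M]
  [ChartedSpace (EU n) M] [IsManifold (𝓡 n) ∞ M] [MeasurableSpace M] [BorelSpace M] (N : ℕ)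
  (D : GD n M N), DiamLE D.g 1 → DiamOne D.C

/-- density of smooth functions -/
def S_GDENSE : Prop := ∀ (n : ℕ) (M : Type) [TopologicalSpace M] [T2Space M] [CompactSpace M]
  [ChartedSpace (EU n) M] [IsManifold (𝓡 n) ∞ M] [MeasurableSpace M] [BorelSpace M] (N : ℕ)
  (D : GD n M N), Dense2 D.C

/-- the Landau kernel -/
def lk (n : ℕ) (r : ℝ) (m : ℕ) (z : EU n) : ℝ :=
  (max 0 (1 - ‖z‖ ^ 2 / r ^ 2)) ^ (m + 2) / ∫ w : EU n, (max 0 (1 - ‖w‖ ^ 2 / r ^ 2)) ^ (m + 2)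

/-- convolution with the Landau kernel -/
def lT (n : ℕ) (r : ℝ) (m : ℕ) (u : EU n → ℝ) (x : EU n) : ℝ := ∫ w, lk n r m (x - w) * u w

/-- properties of the Landau kernel on `ℝⁿ` -/
def S_LAN : Prop := ∀ (n : ℕ) (r : ℝ), 1 ≤ n → 0 < r →
  (∀ m, Continuous (lk n r m) ∧ (∀ z, 0 ≤ lk n r m z) ∧ (∀ z, r ≤ ‖z‖ → lk n r m z = 0) ∧
    ∫ z, lk n r m z = 1) ∧
  (∀ m (u : EU n → ℝ), ContDiff ℝ ∞ u → HasCompactSupport u →
    ContDiff ℝ ∞ (lT n r m u) ∧ HasCompactSupport (lT n r m u) ∧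
    (∀ k x, pd k (lT n r m u) x = lT n r m (pd k u) x) ∧
    ∫ x, lT n r m u x ^ 2 ≤ ∫ x, u x ^ 2) ∧
  (∃ δ : ℕ → ℝ, Tendsto δ atTop (𝓝 0) ∧ ∀ m (u : EU n → ℝ), ContDiff ℝ ∞ u →
    HasCompactSupport u → ∫ x, (u x - lT n r m u x) ^ 2 ≤ δ m * ∑ k, ∫ x, pd k u x ^ 2) ∧
  ∀ (b : EU n → ℝ), ContDiff ℝ ∞ b → HasCompactSupport b → ∀ k, ∃ K : ℝ, ∀ m (u : EU n → ℝ),
    ContDiff ℝ ∞ u → HasCompactSupport u →
    ∫ x, (b x * pd k (lT n r m u) x - lT n r m (fun w => b w * pd k u w) x) ^ 2 ≤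
      K * ∫ x, u x ^ 2

/-- the Landau kernel is of finite rank near the diagonal -/
def S_FRK : Prop := ∀ (n : ℕ) (r : ℝ) (m : ℕ), 0 < r →
  ∃ (k : ℕ) (α β : Fin k → EU n → ℝ), (∀ j, ContDiff ℝ ∞ (α j)) ∧ (∀ j, ContDiff ℝ ∞ (β j)) ∧
    ∀ x w : EU n, ‖x - w‖ < r → lk n r m (x - w) = ∑ j, α j x * β j w

/-- mollifiers in one chart -/
def S_LMOLL : Prop := ∀ (n : ℕ) (M : Type) [TopologicalSpace M] [T2Space M] [CompactSpace M]
  [ChartedSpace (EU n) M] [IsManifold (𝓡 n) ∞ M] [MeasurableSpace M] [BorelSpace M] (N : ℕ)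
  (D : GD n M N), 1 ≤ n → ∀ (x₀ : M) (χ η : SA n M),
  tsupport χ.1 ⊆ (extChartAt (𝓡 n) x₀).source → tsupport η.1 ⊆ (extChartAt (𝓡 n) x₀).source →
  (∀ p ∈ tsupport χ.1, ∀ᶠ q in 𝓝 p, evA q η = 1) →
  ∃ (k : ℕ → ℕ) (φ ψ : ∀ m, Fin (k m) → D.C.A),
  (∃ K : ℝ, ∀ m f, ig D.C (fr D.C (φ m) (ψ m) f ^ 2) ≤ K * ig D.C (f ^ 2)) ∧
  (∀ (a : D.C.A) (s : Fin N), ∃ K : ℝ, ∀ m f,
    ig D.C ((a * D.C.F.e s (fr D.C (φ m) (ψ m) f) - fr D.C (φ m) (ψ m) (a * D.C.F.e s f)) ^ 2) ≤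
      K * ig D.C (f ^ 2)) ∧
  ∃ ε : ℕ → ℝ, Tendsto ε atTop (𝓝 0) ∧ ∀ m (f : D.C.A),
    ig D.C (((show D.C.A from χ) * f - fr D.C (φ m) (ψ m) f) ^ 2) ≤
      ε m * (ig D.C (f ^ 2) + ∑ s, ig D.C (D.C.F.e s f ^ 2))

/-- mollifiers -/
def S_GMOLL : Prop := ∀ (n : ℕ) (M : Type) [TopologicalSpace M] [T2Space M] [CompactSpace M]
  [ChartedSpace (EU n) M] [IsManifold (𝓡 n) ∞ M] [MeasurableSpace M] [BorelSpace M] (N : ℕ)
  (D : GD n M N), 1 ≤ n → Moll D.C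

/-- weak derivatives on `ℝⁿ` -/
def WE (n : ℕ) : ℕ → (EU n → ℝ) → Prop
  | 0, u => MemLp u 2
  | k + 1, u => MemLp u 2 ∧ ∀ s : Fin n, ∃ v : EU n → ℝ, WE n k v ∧
      ∀ φ : EU n → ℝ, ContDiff ℝ ∞ φ → HasCompactSupport φ →
        ∫ y, v y * φ y = - ∫ y, u y * pd s φ y

/-- Sobolev embedding -/
def S_SOB : Prop := ∀ (n : ℕ) (u : EU n → ℝ), 1 ≤ n → HasCompactSupport u → (∀ k, WE n k u) →
  ∃ f : EU n → ℝ, ContDiff ℝ ∞ f ∧ u =ᵐ[volume] f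

/-- functions with all weak derivatives are smooth -/
def S_GREG : Prop := ∀ (n : ℕ) (M : Type) [TopologicalSpace M] [T2Space M] [CompactSpace M]
  [ChartedSpace (EU n) M] [IsManifold (𝓡 n) ∞ M] [MeasurableSpace M] [BorelSpace M] (N : ℕ)
  (D : GD n M N), 1 ≤ n → Reg D.C

/-! ### de Rham cohomology -/

/-- iterated contraction -/
def phi {N : ℕ} : (p : ℕ) → (Fin p → Fin N → ℝ) → Fk N ℝ → ℝ
  | 0, _, u => u ∅
  | p + 1, v, u => phi p (Fin.tail v) (∑ a, v 0 a • an a u)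

/-- algebra of iterated contractions -/
def S_PHI : Prop := ∀ (N p : ℕ),
  (∀ (v : Fin p → Fin N → ℝ), IsLinearMap ℝ (phi p v)) ∧
  (∀ (u : Fk N ℝ), ∃ A : (Fin N → ℝ) [⋀^Fin p]→ₗ[ℝ] ℝ, ∀ v, A v = phi p v u) ∧
  (∀ (u : Fk N ℝ), Deg p u → (∀ v : Fin p → Fin N → ℝ, phi p v u = 0) → u = 0) ∧
  (∀ A : (Fin N → ℝ) [⋀^Fin p]→ₗ[ℝ] ℝ, ∃ u : Fk N ℝ, Deg p u ∧ (∀ v, A v = phi p v u) ∧
    ∀ S : Finset (Fin N), ∀ h : S.card = p,
      u S = A (fun i => Pi.single (S.orderEmbOfFin h i) 1)) ∧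
  (∀ (u : Fk N ℝ) (w : Fin N → ℝ) (v : Fin (p + 1) → Fin N → ℝ),
    phi (p + 1) v (∑ a, w a • cr a u) =
      ∑ i : Fin (p + 1), (-1 : ℝ) ^ (i : ℕ) * (∑ a, v i a * w a) * phi p (i.removeNth v) u) ∧
  ∀ (u : Fk N ℝ) (X : Fin N → Fin N → ℝ) (v : Fin p → Fin N → ℝ), (∀ a b, X a b = - X b a) →
    phi p v (∑ b, ∑ c, X b c • cr c (an b u)) =
      ∑ i : Fin p, phi p (Function.update v i (fun b => ∑ c, X b c * v i c)) u

/-- the isomorphism with differential forms -/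
def S_DRF : Prop := ∀ (n : ℕ) (M : Type) [TopologicalSpace M] [T2Space M] [CompactSpace M]
  [ChartedSpace (EU n) M] [IsManifold (𝓡 n) ∞ M] [MeasurableSpace M] [BorelSpace M] (N : ℕ)
  (D : GD n M N), 1 ≤ n → ∀ p : ℕ, ∃ Φ : HD D.C p →ₗ[ℝ] AF n M p,
    (∀ (u : HD D.C p) (x : M) (v : Fin p → TangentSpace (𝓡 n) x), Φ u x v =
      phi p (fun i a => D.g.inner x (v i) (D.T.X a x)) (fun S => evA x ((u : Fk N D.C.A) S))) ∧
    Function.Injective Φ ∧ ∀ α : AF n M p, SmF α ↔ ∃ u, Φ u = α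

/-- the exterior derivative -/
def S_DRD : Prop := ∀ (n : ℕ) (M : Type) [TopologicalSpace M] [T2Space M] [CompactSpace M]
  [ChartedSpace (EU n) M] [IsManifold (𝓡 n) ∞ M] [MeasurableSpace M] [BorelSpace M] (N : ℕ)
  (D : GD n M N), 1 ≤ n → ∀ (p : ℕ) (u : Fk N D.C.A) (α : AF n M p) (β : AF n M (p + 1)),
    Hor D.C u → Deg p u →
    (∀ (x : M) (v : Fin p → TangentSpace (𝓡 n) x), α x v =
      phi p (fun i a => D.g.inner x (v i) (D.T.X a x)) (fun S => evA x (u S))) →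
    (∀ (x : M) (v : Fin (p + 1) → TangentSpace (𝓡 n) x), β x v =
      phi (p + 1) (fun i a => D.g.inner x (v i) (D.T.X a x)) (fun S => evA x (dd D.F u S))) →
    IsExtD α β

/-- de Rham cohomology -/
def S_GDR : Prop := ∀ (n : ℕ) (M : Type) [TopologicalSpace M] [T2Space M] [CompactSpace M]
  [ChartedSpace (EU n) M] [IsManifold (𝓡 n) ∞ M] [MeasurableSpace M] [BorelSpace M] (N : ℕ)
  (D : GD n M N), 1 ≤ n → ∀ p : ℕ, Nonempty (HF n M p ≃ₗ[ℝ] Hp D.C p)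

/-- cohomology above the dimension -/
def S_DRV : Prop := ∀ (n : ℕ) (M : Type) [TopologicalSpace M]
  [ChartedSpace (EU n) M] [IsManifold (𝓡 n) ∞ M] (p : ℕ), n < p → Subsingleton (HF n M p)

/-- the final result -/
def S_MAIN : Prop := ∀ (n : ℕ) (M : Type) [TopologicalSpace M] [T2Space M] [CompactSpace M]
  [ConnectedSpace M] [ChartedSpace (EU n) M] [IsManifold (𝓡 n) ∞ M], AdmitsANCO n M →
  (∀ p, Module.Finite ℝ (HF n M p)) ∧ 0 ≤ eulerChar n M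

end Pool.Agent.H781.CM
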