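import Pool.Agent.H781.CM.QM

/-!
The first cohomology of `M` vanishes.
-/

set_option autoImplicit false

open Bundle Manifold ContDiff VectorField Filter
open scoped Topology ComplexConjugate

noncomputable section

namespace Pool.Agent.H781.CM.Q

open Pool.Agent.H781.CM.F

namespace H1m

/-- a smooth function with vanishing differential on a preconnected open subset of a chart domain
is constant -/
theorem const {n : ℕ} {M : Type} [TopologicalSpace M] [ChartedSpace (EV n) M]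
    [IsManifold (𝓡 n) ∞ M] {V : Set (EV n)} {U : Set M} {ψ : EV n → M} {φ : M → EV n}
    (P : Par V U ψ φ) {O : Set M} (hO : IsOpen O) (hOU : O ⊆ U) (hc : IsPreconnected O)
    {g : M → ℝ} (hg : ContMDiffOn (𝓡 n) 𝓘(ℝ, ℝ) ∞ g O)
    (h0 : ∀ x ∈ O, ∀ v : TangentSpace (𝓡 n) x, mvfderiv (𝓡 n) g x v = 0) :
    ∀ x ∈ O, ∀ y ∈ O, g x = g y := by
  have himg : φ '' O = V ∩ ψ ⁻¹' O := by
    ext y
    constructor
    · rintro ⟨x, hx, rfl⟩
      refine ⟨(P.r x (hOU hx)).1, ?_⟩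
      show ψ (φ x) ∈ O
      rw [(P.r x (hOU hx)).2]
      exact hx
    · rintro ⟨hy, hy2⟩
      exact ⟨ψ y, hy2, (P.l y hy).2⟩
  have hopen : IsOpen (φ '' O) := by
    rw [himg]
    exact P.smψ.continuousOn.isOpen_inter_preimage P.oV hO
  have hpre : IsPreconnected (φ '' O) := hc.image φ (P.smφ.continuousOn.mono hOU)
  have hmem : ∀ y ∈ φ '' O, y ∈ V ∧ ψ y ∈ O := by
    intro y hy
    rw [himg] at hy
    exact hy
  have hgψ : ∀ y ∈ φ '' O, MDifferentiableAt 𝓘(ℝ, EV n) 𝓘(ℝ, ℝ) (g ∘ ψ) y ∧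
      mfderiv 𝓘(ℝ, EV n) 𝓘(ℝ, ℝ) (g ∘ ψ) y = 0 := by
    intro y hy
    obtain ⟨hyV, hyO⟩ := hmem y hy
    have m1 : MDifferentiableAt (𝓡 n) 𝓘(ℝ, ℝ) g (ψ y) :=
      (hg.contMDiffAt (hO.mem_nhds hyO)).mdifferentiableAt (by simp)
    have m2 : MDifferentiableAt 𝓘(ℝ, EV n) (𝓡 n) ψ y :=
      (P.smψ.contMDiffAt (P.oV.mem_nhds hyV)).mdifferentiableAt (by simp)
    refine ⟨m1.comp y m2, ?_⟩
    rw [mfderiv_comp y m1 m2]
    ext v
    exact h0 (ψ y) hyO _
  have hd : DifferentiableOn ℝ (g ∘ ψ) (φ '' O) := fun y hy =>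
    (mdifferentiableAt_iff_differentiableAt.1 (hgψ y hy).1).differentiableWithinAt
  have hf : (φ '' O).EqOn (fderiv ℝ (g ∘ ψ)) 0 := by
    intro y hy
    rw [← mfderiv_eq_fderiv]
    exact (hgψ y hy).2
  intro x hx y hy
  have h1 := hopen.is_const_of_fderiv_eq_zero hpre hd hf ⟨x, hx, rfl⟩ ⟨y, hy, rfl⟩
  simp only [Function.comp_apply] at h1
  rwa [(P.r x (hOU hx)).2, (P.r y (hOU hy)).2] at h1

end H1m

/-- the first cohomology of `M` vanishes -/
theorem s_h1m (hc : S_CLM) (hk : S_CON) : S_H1M := by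
  classical
  intro α hα
  obtain ⟨hαf, hαd⟩ := hα
  have hF : ∀ i j : Fin 2, ∃ f : M → ℝ, ContMDiffOn (𝓡 4) 𝓘(ℝ, ℝ) ∞ f (DM i j) ∧
      ∀ x ∈ DM i j, ∀ v : Fin 1 → TangentSpace (𝓡 4) x,
        α x v = mvfderiv (𝓡 4) f x (v 0) := by
    intro i j
    refine hc.1 i j α ⟨fun x _ => hαf.1 x, fun Y hY => (hαf.2 Y hY).contMDiffOn⟩ ?_
    intro Y hY x _
    exact hαd Y hY x
  choose f hfs hfd using hF
  obtain ⟨x0, hx0⟩ := (hk 0 0 0 0).2
  -- normalisation
  set F : Fin 2 → Fin 2 → M → ℝ := fun i j x => f i j x - f i j x0 with hFdef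
  have hFs : ∀ i j, ContMDiffOn (𝓡 4) 𝓘(ℝ, ℝ) ∞ (F i j) (DM i j) := by
    intro i j
    exact (hfs i j).sub contMDiffOn_const
  have hmd : ∀ i j, ∀ x ∈ DM i j, MDifferentiableAt (𝓡 4) 𝓘(ℝ, ℝ) (f i j) x := fun i j x hx =>
    ((hfs i j).contMDiffAt ((isOpen_DM i j).mem_nhds hx)).mdifferentiableAt (by simp)
  have hFd : ∀ i j, ∀ x ∈ DM i j, ∀ v : TangentSpace (𝓡 4) x,
      mvfderiv (𝓡 4) (F i j) x v = mvfderiv (𝓡 4) (f i j) x v := by
    intro i j x hx v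
    have h1 : mvfderiv (𝓡 4) (F i j) x = mvfderiv (𝓡 4) (f i j) x -
        mvfderiv (𝓡 4) (fun _ : M => f i j x0) x :=
      mvfderiv_sub (hmd i j x hx) mdifferentiableAt_const
    rw [h1, mvfderiv_const]
    simp
  have hagree : ∀ i j k l, ∀ x ∈ DM i j, x ∈ DM k l → F i j x = F k l x := by
    intro i j k l x hx hx'
    have hO : IsOpen (DM i j ∩ DM k l) := (isOpen_DM i j).inter (isOpen_DM k l)
    have h1 := H1m.const (parM i j) hO Set.inter_subset_left (hk i j k l).1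
      (g := fun x => F i j x - F k l x)
      (((hFs i j).mono Set.inter_subset_left).sub ((hFs k l).mono Set.inter_subset_right))
      (by
        intro y hy v
        have h2 : mvfderiv (𝓡 4) (fun x => F i j x - F k l x) y = mvfderiv (𝓡 4) (F i j) y -
            mvfderiv (𝓡 4) (F k l) y :=
          mvfderiv_sub
            (((hFs i j).contMDiffAt ((isOpen_DM i j).mem_nhds hy.1)).mdifferentiableAt (by simp))
            (((hFs k l).contMDiffAt ((isOpen_DM k l).mem_nhds hy.2)).mdifferentiableAt (by simp))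
        rw [h2, sub_apply, hFd i j y hy.1, hFd k l y hy.2,
          ← hfd i j y hy.1 (fun _ => v), ← hfd k l y hy.2 (fun _ => v), sub_self])
      x ⟨hx, hx'⟩ x0 ⟨hx0 i j, hx0 k l⟩
    simp only [hFdef, sub_self] at h1 ⊢
    linarith
  -- the primitive
  set Fg : M → ℝ := fun x => F (ci x) (cj x) x with hFg
  have hFgeq : ∀ i j, ∀ x ∈ DM i j, Fg x = F i j x := by
    intro i j x hx
    exact hagree _ _ _ _ x (mem_cij x) hx
  have hFgev : ∀ i j, ∀ x ∈ DM i j, Fg =ᶠ[𝓝 x] F i j := by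
    intro i j x hx
    filter_upwards [(isOpen_DM i j).mem_nhds hx] with y hy using hFgeq i j y hy
  have hFgs : ContMDiff (𝓡 4) 𝓘(ℝ, ℝ) ∞ Fg := by
    intro x
    obtain ⟨i, j, hx⟩ := exists_DM x
    exact ((hFs i j).contMDiffAt ((isOpen_DM i j).mem_nhds hx)).congr_of_eventuallyEq
      (hFgev i j x hx)
  have hFgd : ∀ (x : M) (v : Fin 1 → TangentSpace (𝓡 4) x),
      α x v = mvfderiv (𝓡 4) Fg x (v 0) := by
    intro x v
    obtain ⟨i, j, hx⟩ := exists_DM x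
    rw [Qpat.mvf_congr (hFgev i j x hx), hFd i j x hx, hfd i j x hx]
  refine ⟨fun x _ => Fg x, ⟨fun x => ?_, fun Y _ => hFgs⟩, hαf, ?_⟩
  · exact ⟨AlternatingMap.constOfIsEmpty ℝ (TangentSpace (𝓡 4) x) (Fin 0) (Fg x), fun v => rfl⟩
  · intro Y hY x
    rw [hFgd]
    simp

end Pool.Agent.H781.CM.Q
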