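import Pool.Agent.H781.CM.QM

/-!
The second cohomology of `M`: assembly.
-/

set_option autoImplicit false

open Bundle Manifold ContDiff VectorField
open scoped Topology ComplexConjugate

noncomputable section

namespace Pool.Agent.H781.CM.Q

open Pool.Agent.H781.CM.F

namespace H2m

open Qpat

section gen

variable {E : Type*} [NormedAddCommGroup E] [NormedSpace ℝ E]
  {H : Type*} [TopologicalSpace H] {I : ModelWithCorners ℝ E H}
  {M : Type*} [TopologicalSpace M] [ChartedSpace H M] [IsManifold I ∞ M]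

theorem isFormOn_smul {O : Set M} {p : ℕ} (c : ℝ) {α : DF I M p} (h : IsFormOn O α) :
    IsFormOn O (fun x v => c * α x v) := by
  constructor
  · intro x hx
    obtain ⟨A, hA⟩ := h.1 x hx
    exact ⟨c • A, fun v => by show c * α x v = _; rw [hA v]; rfl⟩
  · intro Y hY
    exact contMDiffOn_const.mul (h.2 Y hY)

theorem isDOn_smul {O : Set M} (hO : IsOpen O) {p : ℕ} (c : ℝ) {α : DF I M p}
    {β : DF I M (p + 1)} (f : IsFormOn O α) (h : IsDOn O α β) :
    IsDOn O (fun x v => c * α x v) (fun x v => c * β x v) := by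
  intro Y hY x hx
  show c * β x _ = _
  rw [h Y hY x hx, Finset.mul_sum]
  refine Finset.sum_congr rfl fun j _ => ?_
  have m1 : MDifferentiableAt I 𝓘(ℝ, ℝ) (fun y => α y (fun k => j.removeNth Y k y)) x :=
    ((f.2 (fun k => j.removeNth Y k) fun k => hY _).contMDiffAt
      (hO.mem_nhds hx)).mdifferentiableAt (by simp)
  have m0 : MDifferentiableAt I 𝓘(ℝ, ℝ) (fun _ : M => c) x := mdifferentiableAt_const
  have e1 : mvfderiv I (fun y => c * α y (fun k => j.removeNth Y k y)) x =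
      c • mvfderiv I (fun y => α y (fun k => j.removeNth Y k y)) x := by
    have h1 : mvfderiv I ((fun _ : M => c) * fun y => α y (fun k => j.removeNth Y k y)) x =
      c • mvfderiv I (fun y => α y (fun k => j.removeNth Y k y)) x +
        α x (fun k => j.removeNth Y k x) • mvfderiv I (fun _ : M => c) x := mvfderiv_mul m0 m1
    rw [mvfderiv_const, smul_zero, add_zero] at h1
    exact h1
  rw [e1]
  have e2 : (∑ i : Fin p, if (i : ℕ) < (j : ℕ) then
        c * α x (Function.update (fun k => j.removeNth Y k x) i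
            (mlieBracket I (Y i.castSucc) (Y j) x)) else 0) =
      c * ∑ i : Fin p, if (i : ℕ) < (j : ℕ) then
        α x (Function.update (fun k => j.removeNth Y k x) i
            (mlieBracket I (Y i.castSucc) (Y j) x)) else 0 := by
    rw [Finset.mul_sum]
    refine Finset.sum_congr rfl fun i _ => ?_
    split_ifs
    · rfl
    · simp
  rw [e2]
  show c * ((-1 : ℝ) ^ (j : ℕ) * (_ + _)) = (-1 : ℝ) ^ (j : ℕ) *
    (c * mvfderiv I (fun y => α y (fun k => j.removeNth Y k y)) x (Y j x) + _)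
  ring

/-- the linear combination `α₁ - s α₂ - t α₃` -/
def lc {p : ℕ} (s t : ℝ) (α₁ α₂ α₃ : DF I M p) : DF I M p :=
  fun x v => α₁ x v - s * α₂ x v - t * α₃ x v

omit [IsManifold I ∞ M] in
theorem lc_eq {p : ℕ} (s t : ℝ) (α₁ α₂ α₃ : DF I M p) :
    lc s t α₁ α₂ α₃ = fun x v => (α₁ x v + (-s) * α₂ x v) + (-t) * α₃ x v := by
  funext x v
  unfold lc
  ring

theorem isFormOn_lc {O : Set M} {p : ℕ} (s t : ℝ) {α₁ α₂ α₃ : DF I M p} (h1 : IsFormOn O α₁)
    (h2 : IsFormOn O α₂) (h3 : IsFormOn O α₃) : IsFormOn O (lc s t α₁ α₂ α₃) := by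
  rw [lc_eq]
  exact isFormOn_add (isFormOn_add h1 (isFormOn_smul (-s) h2)) (isFormOn_smul (-t) h3)

theorem isDOn_lc {O : Set M} (hO : IsOpen O) {p : ℕ} (s t : ℝ) {α₁ α₂ α₃ : DF I M p}
    {β₁ β₂ β₃ : DF I M (p + 1)} (f1 : IsFormOn O α₁) (f2 : IsFormOn O α₂) (f3 : IsFormOn O α₃)
    (h1 : IsDOn O α₁ β₁) (h2 : IsDOn O α₂ β₂) (h3 : IsDOn O α₃ β₃) :
    IsDOn O (lc s t α₁ α₂ α₃) (lc s t β₁ β₂ β₃) := by
  rw [lc_eq, lc_eq]
  exact isDOn_add hO (isFormOn_add f1 (isFormOn_smul (-s) f2)) (isFormOn_smul (-t) f3)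
    (isDOn_add hO f1 (isFormOn_smul (-s) f2) h1 (isDOn_smul hO (-s) f2 h2))
    (isDOn_smul hO (-t) f3 h3)

theorem isFormOn_sub {O : Set M} {p : ℕ} {α₁ α₂ : DF I M p} (h1 : IsFormOn O α₁)
    (h2 : IsFormOn O α₂) : IsFormOn O (fun x v => α₁ x v - α₂ x v) := by
  have h : (fun x v => α₁ x v - α₂ x v : DF I M p) = lc 1 0 α₁ α₂ α₁ := by
    funext x v
    unfold lc
    ring
  rw [h]
  exact isFormOn_lc 1 0 h1 h2 h1

/-- the difference of two primitives is closed -/
theorem isDOn_sub {O : Set M} (hO : IsOpen O) {p : ℕ} {α₁ α₂ : DF I M p} {β : DF I M (p + 1)}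
    (f1 : IsFormOn O α₁) (f2 : IsFormOn O α₂) (h1 : IsDOn O α₁ β) (h2 : IsDOn O α₂ β) :
    IsDOn O (fun x v => α₁ x v - α₂ x v) (fun _ _ => 0) := by
  have h : (fun x v => α₁ x v - α₂ x v : DF I M p) = lc 1 0 α₁ α₂ α₁ := by
    funext x v
    unfold lc
    ring
  have h' : (fun _ _ => 0 : DF I M (p + 1)) = lc 1 0 β β β := by
    funext x v
    unfold lc
    ring
  rw [h, h']
  exact isDOn_lc hO 1 0 f1 f2 f1 h1 h2 h1

theorem isFormOn_of {p : ℕ} {α : DF I M p} (h : IsForm α) (O : Set M) : IsFormOn O α :=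
  ⟨fun x _ => h.1 x, fun Y hY => (h.2 Y hY).contMDiffOn⟩

theorem isForm_of {p : ℕ} {α : DF I M p} (h : IsFormOn Set.univ α) : IsForm α :=
  ⟨fun x => h.1 x (Set.mem_univ x), fun Y hY => contMDiffOn_univ.1 (h.2 Y hY)⟩

theorem isD_of {p : ℕ} {α : DF I M p} {β : DF I M (p + 1)} (h : IsDOn Set.univ α β) : IsD α β :=
  fun Y hY x => h Y hY x (Set.mem_univ x)

end gen

/-! ### the functions `r`, `s` on `M` -/

theorem rr_smooth : ContMDiff (𝓡 4) 𝓘(ℝ, ℝ) ∞ (fun x : M => rr x.1) :=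
  ((contDiff_fst.comp contDiff_fst : ContDiff ℝ ∞ (fun q : A => q.1.1)).contMDiff).comp
    incl_smooth

theorem ss_smooth : ContMDiff (𝓡 4) 𝓘(ℝ, ℝ) ∞ (fun x : M => ss x.1) :=
  ((contDiff_snd.comp contDiff_fst : ContDiff ℝ ∞ (fun q : A => q.1.2)).contMDiff).comp
    incl_smooth

theorem rr_nonneg (x : M) : 0 ≤ rr x.1 := by
  obtain ⟨q, y, rfl⟩ := x
  exact Complex.normSq_nonneg _

theorem ss_nonneg (x : M) : 0 ≤ ss x.1 := by
  obtain ⟨q, y, rfl⟩ := x
  exact Complex.normSq_nonneg _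

theorem mem_DM00 (x : M) : x ∈ DM 0 0 ↔ rr x.1 < 1 ∧ ss x.1 < 1 := by
  unfold DM OO
  simp

theorem mem_DM01 (x : M) : x ∈ DM 0 1 ↔ rr x.1 < 1 ∧ 0 < ss x.1 := by
  unfold DM OO
  simp

theorem mem_DM10 (x : M) : x ∈ DM 1 0 ↔ 0 < rr x.1 ∧ ss x.1 < 1 := by
  unfold DM OO
  simp

theorem mem_DM11 (x : M) : x ∈ DM 1 1 ↔ 0 < rr x.1 ∧ 0 < ss x.1 := by
  unfold DM OO
  simp

theorem st_one {t : ℝ} (h : 1 ≤ t) : Real.smoothTransition t = 1 :=
  Real.smoothTransition.one_of_one_le h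

theorem st_zero {t : ℝ} (h : t ≤ 0) : Real.smoothTransition t = 0 :=
  Real.smoothTransition.zero_of_nonpos h

theorem st_smooth {f : M → ℝ} {O : Set M} (hf : ContMDiffOn (𝓡 4) 𝓘(ℝ, ℝ) ∞ f O) :
    ContMDiffOn (𝓡 4) 𝓘(ℝ, ℝ) ∞ (fun x => Real.smoothTransition (f x)) O :=
  (Real.smoothTransition.contDiff.contMDiff).comp_contMDiffOn hf

theorem cont_r : Continuous (fun x : M => rr x.1) := rr_smooth.continuous

theorem cont_s : Continuous (fun x : M => ss x.1) := ss_smooth.continuous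

end H2m

open Qpat H2m in
/-- the second cohomology of `M` -/
theorem s_h2m (hd : S_DIFF) (hl : S_LP2) (hc : S_CLM) : S_H2M := by
  intro η hη β hβ
  obtain ⟨hc1, hc2, hc3, hc4⟩ := hc
  obtain ⟨hd1, hd2, -, -⟩ := hd
  choose a ha using hl β hβ
  have oD : ∀ i j, IsOpen (DM i j) := isOpen_DM
  have oR1 : IsOpen (DM 1 0 ∩ DM 1 1) := (oD _ _).inter (oD _ _)
  have oR2 : IsOpen (DM 0 1 ∩ DM 1 1) := (oD _ _).inter (oD _ _)
  -- the constants
  obtain ⟨k1, f1, hf1, hk1⟩ := hc2 (fun x v => a 1 0 x v - a 1 1 x v)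
    (isFormOn_sub (isFormOn_mono (ha 1 0).1 Set.inter_subset_left)
      (isFormOn_mono (ha 1 1).1 Set.inter_subset_right))
    (isDOn_sub oR1 (isFormOn_mono (ha 1 0).1 Set.inter_subset_left)
      (isFormOn_mono (ha 1 1).1 Set.inter_subset_right)
      (isDOn_mono (ha 1 0).2 Set.inter_subset_left) (isDOn_mono (ha 1 1).2 Set.inter_subset_right))
  obtain ⟨k2, f2, hf2, hk2⟩ := hc3 (fun x v => a 0 1 x v - a 1 1 x v)
    (isFormOn_sub (isFormOn_mono (ha 0 1).1 Set.inter_subset_left)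
      (isFormOn_mono (ha 1 1).1 Set.inter_subset_right))
    (isDOn_sub oR2 (isFormOn_mono (ha 0 1).1 Set.inter_subset_left)
      (isFormOn_mono (ha 1 1).1 Set.inter_subset_right)
      (isDOn_mono (ha 0 1).2 Set.inter_subset_left) (isDOn_mono (ha 1 1).2 Set.inter_subset_right))
  -- the modified forms
  set s := k1 with hs
  set t := k1 - k2 with ht
  refine ⟨s, t, ?_⟩
  set b : DF (𝓡 4) M 2 := lc s t β (η 0) (η 1) with hb
  set a' : Fin 2 → Fin 2 → DF (𝓡 4) M 1 := fun i j => lc s t (a i j) (LF 0 i j) (LF 1 i j)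
    with ha'
  have fa : ∀ i j, IsFormOn (DM i j) (a' i j) := fun i j =>
    isFormOn_lc s t (ha i j).1 ((hη 0).2 i j).1 ((hη 1).2 i j).1
  have da : ∀ i j, IsDOn (DM i j) (a' i j) b := fun i j =>
    isDOn_lc (oD i j) s t (ha i j).1 ((hη 0).2 i j).1 ((hη 1).2 i j).1 (ha i j).2
      ((hη 0).2 i j).2 ((hη 1).2 i j).2
  have e1 : ∀ x ∈ DM 1 0 ∩ DM 1 1, ∀ v : Fin 1 → TangentSpace (𝓡 4) x,
      a' 1 0 x v - a' 1 1 x v = mvfderiv (𝓡 4) f1 x (v 0) := by
    intro x hx v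
    have g1 := hk1 x hx v
    obtain ⟨g2, g3⟩ := hd1 x hx v
    simp only [ha', lc]
    rw [g3]
    have : a 1 0 x v - s * LF 0 1 0 x v - t * LF 1 1 1 x v -
        (a 1 1 x v - s * LF 0 1 1 x v - t * LF 1 1 1 x v) =
        (a 1 0 x v - a 1 1 x v) - s * (LF 0 1 0 x v - LF 0 1 1 x v) := by ring
    rw [this, g1, g2]
    ring
  have e2 : ∀ x ∈ DM 0 1 ∩ DM 1 1, ∀ v : Fin 1 → TangentSpace (𝓡 4) x,
      a' 0 1 x v - a' 1 1 x v = mvfderiv (𝓡 4) f2 x (v 0) := by
    intro x hx v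
    have g1 := hk2 x hx v
    obtain ⟨g2, g3⟩ := hd2 x hx v
    simp only [ha', lc]
    have : a 0 1 x v - s * LF 0 0 1 x v - t * LF 1 0 1 x v -
        (a 1 1 x v - s * LF 0 1 1 x v - t * LF 1 1 1 x v) =
        (a 0 1 x v - a 1 1 x v) - s * (LF 0 0 1 x v - LF 0 1 1 x v) -
          t * (LF 1 0 1 x v - LF 1 1 1 x v) := by ring
    rw [this, g1, g2, g3, ht, hs]
    ring
  -- gluing (i)
  obtain ⟨α1, hα1f, hα1d⟩ := s_patch 4 M (DM 1 0) (DM 1 1) {x | 0 < rr x.1 ∧ ss x.1 < 1 / 3}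
    {x | 0 < rr x.1 ∧ 2 / 3 < ss x.1} (oD _ _) (oD _ _)
    ((isOpen_lt continuous_const cont_r).inter (isOpen_lt cont_s continuous_const))
    ((isOpen_lt continuous_const cont_r).inter (isOpen_lt continuous_const cont_s))
    (fun x hx => (mem_DM10 x).2 ⟨hx.1, by have := hx.2; linarith⟩)
    (fun x hx => (mem_DM11 x).2 ⟨hx.1, by have := hx.2; linarith⟩)
    (by
      intro x hx
      have h0 : 0 < rr x.1 := by
        rcases hx with h | h
        · exact ((mem_DM10 x).1 h).1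
        · exact ((mem_DM11 x).1 h).1
      by_cases h1 : ss x.1 < 1 / 3
      · exact Or.inl (Or.inl ⟨h0, h1⟩)
      by_cases h2 : 2 / 3 < ss x.1
      · exact Or.inl (Or.inr ⟨h0, h2⟩)
      exact Or.inr ⟨(mem_DM10 x).2 ⟨h0, by linarith⟩, (mem_DM11 x).2 ⟨h0, by linarith⟩⟩)
    (fun x => Real.smoothTransition (2 - 3 * ss x.1))
    (st_smooth ((contMDiff_const.sub (contMDiff_const.mul ss_smooth)).contMDiffOn))
    (fun x hx => st_one (by have := hx.1.2; linarith))
    (fun x hx => st_zero (by have := hx.1.2; linarith))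
    b (a' 1 0) (a' 1 1) (fa _ _) (da _ _) (fa _ _) (da _ _) f1 hf1 e1
  -- gluing (ii)
  obtain ⟨α2, hα2f, hα2d⟩ := s_patch 4 M (DM 0 1) (DM 1 1) {x | 0 < ss x.1 ∧ rr x.1 < 1 / 3}
    {x | 0 < ss x.1 ∧ 2 / 3 < rr x.1} (oD _ _) (oD _ _)
    ((isOpen_lt continuous_const cont_s).inter (isOpen_lt cont_r continuous_const))
    ((isOpen_lt continuous_const cont_s).inter (isOpen_lt continuous_const cont_r))
    (fun x hx => (mem_DM01 x).2 ⟨by have := hx.2; linarith, hx.1⟩)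
    (fun x hx => (mem_DM11 x).2 ⟨by have := hx.2; linarith, hx.1⟩)
    (by
      intro x hx
      have h0 : 0 < ss x.1 := by
        rcases hx with h | h
        · exact ((mem_DM01 x).1 h).2
        · exact ((mem_DM11 x).1 h).2
      by_cases h1 : rr x.1 < 1 / 3
      · exact Or.inl (Or.inl ⟨h0, h1⟩)
      by_cases h2 : 2 / 3 < rr x.1
      · exact Or.inl (Or.inr ⟨h0, h2⟩)
      exact Or.inr ⟨(mem_DM01 x).2 ⟨by linarith, h0⟩, (mem_DM11 x).2 ⟨by linarith, h0⟩⟩)
    (fun x => Real.smoothTransition (2 - 3 * rr x.1))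
    (st_smooth ((contMDiff_const.sub (contMDiff_const.mul rr_smooth)).contMDiffOn))
    (fun x hx => st_one (by have := hx.1.2; linarith))
    (fun x hx => st_zero (by have := hx.1.2; linarith))
    b (a' 0 1) (a' 1 1) (fa _ _) (da _ _) (fa _ _) (da _ _) f2 hf2 e2
  -- the unions
  have hW1 : DM 1 0 ∪ DM 1 1 = {x : M | 0 < rr x.1} := by
    ext x
    constructor
    · rintro (h | h)
      · exact ((mem_DM10 x).1 h).1
      · exact ((mem_DM11 x).1 h).1
    · intro h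
      by_cases h1 : 0 < ss x.1
      · exact Or.inr ((mem_DM11 x).2 ⟨h, h1⟩)
      · exact Or.inl ((mem_DM10 x).2 ⟨h, by linarith⟩)
  have hW2 : DM 0 1 ∪ DM 1 1 = {x : M | 0 < ss x.1} := by
    ext x
    constructor
    · rintro (h | h)
      · exact ((mem_DM01 x).1 h).2
      · exact ((mem_DM11 x).1 h).2
    · intro h
      by_cases h1 : 0 < rr x.1
      · exact Or.inr ((mem_DM11 x).2 ⟨h1, h⟩)
      · exact Or.inl ((mem_DM01 x).2 ⟨by linarith, h⟩)
  rw [hW1] at hα1f hα1d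
  rw [hW2] at hα2f hα2d
  have oW1 : IsOpen {x : M | 0 < rr x.1} := isOpen_lt continuous_const cont_r
  have oW2 : IsOpen {x : M | 0 < ss x.1} := isOpen_lt continuous_const cont_s
  have hI : {x : M | 0 < rr x.1} ∩ {x : M | 0 < ss x.1} = DM 1 1 := by
    ext x
    exact (mem_DM11 x).symm
  -- gluing (iii)
  obtain ⟨f3, hf3, e3⟩ := hc1 1 1 (fun x v => α1 x v - α2 x v)
    (by
      rw [← hI]
      exact isFormOn_sub (isFormOn_mono hα1f Set.inter_subset_left)
        (isFormOn_mono hα2f Set.inter_subset_right))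
    (by
      rw [← hI]
      exact isDOn_sub (oW1.inter oW2) (isFormOn_mono hα1f Set.inter_subset_left)
        (isFormOn_mono hα2f Set.inter_subset_right) (isDOn_mono hα1d Set.inter_subset_left)
        (isDOn_mono hα2d Set.inter_subset_right))
  obtain ⟨α3, hα3f, hα3d⟩ := s_patch 4 M {x : M | 0 < rr x.1} {x : M | 0 < ss x.1}
    {x | 0 < rr x.1 ∧ ss x.1 < rr x.1 / 2} {x | 0 < ss x.1 ∧ rr x.1 < ss x.1 / 2} oW1 oW2
    (oW1.inter (isOpen_lt cont_s (cont_r.div_const 2)))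
    (oW2.inter (isOpen_lt cont_r (cont_s.div_const 2)))
    (fun x hx => hx.1) (fun x hx => hx.1)
    (by
      intro x hx
      by_cases h1 : 0 < rr x.1
      · by_cases h2 : 0 < ss x.1
        · exact Or.inr ⟨h1, h2⟩
        · exact Or.inl (Or.inl ⟨h1, by linarith⟩)
      · have h2 : 0 < ss x.1 := hx.resolve_left h1
        exact Or.inl (Or.inr ⟨h2, by linarith⟩))
    (fun x => Real.smoothTransition (3 * rr x.1 / (rr x.1 + ss x.1) - 1))
    (by
      refine st_smooth (ContMDiffOn.sub (ContMDiffOn.div₀ ?_ ?_ ?_) contMDiffOn_const)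
      · exact (contMDiff_const.mul rr_smooth).contMDiffOn
      · exact (rr_smooth.add ss_smooth).contMDiffOn
      · intro x hx
        have h1 : 0 < rr x.1 := hx.1
        have h2 : 0 < ss x.1 := hx.2
        show rr x.1 + ss x.1 ≠ 0
        linarith)
    (fun x hx => st_one (by
      have h1 : 0 < rr x.1 := hx.1.1
      have h2 : 0 < ss x.1 := hx.2
      have h3 : ss x.1 < rr x.1 / 2 := hx.1.2
      have h4 : 2 ≤ 3 * rr x.1 / (rr x.1 + ss x.1) := by
        rw [le_div_iff₀ (by linarith)]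
        linarith
      linarith))
    (fun x hx => st_zero (by
      have h1 : 0 < ss x.1 := hx.1.1
      have h2 : 0 < rr x.1 := hx.2
      have h3 : rr x.1 < ss x.1 / 2 := hx.1.2
      have h4 : 3 * rr x.1 / (rr x.1 + ss x.1) ≤ 1 := by
        rw [div_le_iff₀ (by linarith)]
        linarith
      linarith))
    b α1 α2 hα1f hα1d hα2f hα2d f3 (by rw [hI]; exact hf3) (by rw [hI]; exact e3)
  -- gluing (iv)
  have hU : {x : M | 0 < rr x.1} ∪ {x : M | 0 < ss x.1} = {x : M | 0 < rr x.1 ∨ 0 < ss x.1} := rfl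
  rw [hU] at hα3f hα3d
  have oV : IsOpen {x : M | 0 < rr x.1 ∨ 0 < ss x.1} := oW1.union oW2
  obtain ⟨f4, hf4, e4⟩ := hc4 (fun x v => a' 0 0 x v - α3 x v)
    (isFormOn_sub (isFormOn_mono (fa 0 0) Set.inter_subset_left)
      (isFormOn_mono hα3f Set.inter_subset_right))
    (isDOn_sub ((oD 0 0).inter oV) (isFormOn_mono (fa 0 0) Set.inter_subset_left)
      (isFormOn_mono hα3f Set.inter_subset_right) (isDOn_mono (da 0 0) Set.inter_subset_left)
      (isDOn_mono hα3d Set.inter_subset_right))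
  obtain ⟨α4, hα4f, hα4d⟩ := s_patch 4 M (DM 0 0) {x : M | 0 < rr x.1 ∨ 0 < ss x.1}
    {x | rr x.1 + ss x.1 < 1 / 3} {x | 2 / 3 < rr x.1 + ss x.1} (oD 0 0) oV
    (isOpen_lt (cont_r.add cont_s) continuous_const)
    (isOpen_lt continuous_const (cont_r.add cont_s))
    (by
      intro x hx
      have h1 : rr x.1 + ss x.1 < 1 / 3 := hx
      have h2 := rr_nonneg x
      have h3 := ss_nonneg x
      exact (mem_DM00 x).2 ⟨by linarith, by linarith⟩)
    (by
      intro x hx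
      have h1 : 2 / 3 < rr x.1 + ss x.1 := hx
      by_cases h2 : 0 < rr x.1
      · exact Or.inl h2
      · exact Or.inr (by linarith))
    (by
      intro x _
      have h2 := rr_nonneg x
      have h3 := ss_nonneg x
      by_cases h1 : rr x.1 + ss x.1 < 1 / 3
      · exact Or.inl (Or.inl h1)
      by_cases h4 : 2 / 3 < rr x.1 + ss x.1
      · exact Or.inl (Or.inr h4)
      refine Or.inr ⟨(mem_DM00 x).2 ⟨by linarith, by linarith⟩, ?_⟩
      by_cases h5 : 0 < rr x.1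
      · exact Or.inl h5
      · exact Or.inr (by linarith))
    (fun x => Real.smoothTransition (2 - 3 * (rr x.1 + ss x.1)))
    (st_smooth ((contMDiff_const.sub (contMDiff_const.mul (rr_smooth.add ss_smooth))).contMDiffOn))
    (fun x hx => st_one (by
      have h1 : rr x.1 + ss x.1 < 1 / 3 := hx.1
      linarith))
    (fun x hx => st_zero (by
      have h1 : 2 / 3 < rr x.1 + ss x.1 := hx.1
      linarith))
    b (a' 0 0) α3 (fa _ _) (da _ _) hα3f hα3d f4 hf4 e4
  have hT : DM 0 0 ∪ {x : M | 0 < rr x.1 ∨ 0 < ss x.1} = Set.univ := by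
    ext x
    simp only [Set.mem_univ, iff_true]
    by_cases h1 : 0 < rr x.1
    · exact Or.inr (Or.inl h1)
    by_cases h2 : 0 < ss x.1
    · exact Or.inr (Or.inr h2)
    exact Or.inl ((mem_DM00 x).2 ⟨by linarith, by linarith⟩)
  rw [hT] at hα4f hα4d
  refine ⟨α4, isForm_of hα4f, ?_, isD_of hα4d⟩
  exact isForm_of (isFormOn_lc s t (isFormOn_of hβ.1 _) (isFormOn_of (hη 0).1.1 _)
    (isFormOn_of (hη 1).1.1 _))

end Pool.Agent.H781.CM.Q
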