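import Pool.Agent.H781.CM.QG
import Pool.Agent.H781.CM.Gfrm
import Pool.Agent.H781.CM.Pf
import Pool.Agent.H781.CM.Cholg
import Pool.Graph.R_seed8.H893R5.HO.RiemEx

/-!
Existence of the Levi-Civita connection and of the Riemann tensor on compact manifolds.
-/

set_option autoImplicit false
set_option synthInstance.maxHeartbeats 400000
set_option maxHeartbeats 4000000

open Bundle Manifold ContDiff VectorField
open scoped Topology RealInnerProductSpace

noncomputable section

namespace Pool.Agent.H781.CM.Q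

open Pool.Agent.H821R2 Pool.Agent.H821R3 Pool.Agent.H781.S22 Pool.Agent.H781.CM
  Pool.Agent.H893R5.HO

namespace Lcex

variable {n : ℕ} {M : Type} [TopologicalSpace M] [ChartedSpace (EU n) M] [IsManifold (𝓡 n) ∞ M]
  {g : Met n M} {N : ℕ} (T : PF g N)

/-- the gradient field of `f` -/
def gr (f : M → ℝ) (p : M) : TangentSpace (𝓡 n) p :=
  ∑ a, (mvfderiv (𝓡 n) f p (T.X a p)) • T.X a p

theorem gr_smooth {f : M → ℝ} (hf : Sm (𝓡 n) f) : SmV (gr T f) := by
  apply ContMDiff.sum_section (V := fun x : M => TangentSpace (𝓡 n) x) (F := EU n)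
    (t := fun (a : Fin N) (p : M) => (mvfderiv (𝓡 n) f p (T.X a p)) • T.X a p)
  intro a _
  exact ContMDiff.smul_section (Sm.der (T.hX a) hf) (T.hX a)

theorem gr_inner (f : M → ℝ) (p : M) (v : TangentSpace (𝓡 n) p) :
    g.inner p (gr T f p) v = mvfderiv (𝓡 n) f p v := by
  have e1 : g.inner p (gr T f p) v =
      ∑ a, (mvfderiv (𝓡 n) f p (T.X a p)) * g.inner p (T.X a p) v := by
    rw [gr, map_sum, ContinuousLinearMap.sum_apply]
    refine Finset.sum_congr rfl fun a _ => ?_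
    rw [map_smul, ContinuousLinearMap.smul_apply, smul_eq_mul]
  rw [e1]
  conv_rhs => rw [← T.par p v, map_sum]
  refine Finset.sum_congr rfl fun a _ => ?_
  rw [map_smul, smul_eq_mul, mul_comm, g.symm]

end Lcex

theorem s_lcex : S_LCEX := by
  intro n M _ _ _ _ _ hn g
  haveI : Nonempty (Fin n) := ⟨⟨0, hn⟩⟩
  obtain ⟨m, -, ⟨D⟩⟩ := s_gfrm n M
  obtain ⟨N, -, hT⟩ := s_pf s_gfrm s_cholg n M
  obtain ⟨T⟩ := hT g
  have h := D.isLeviCivita_lc g (X := fun i => Lcex.gr T (D.f i))
    (fun i => Lcex.gr_smooth T (D.hf i)) (fun i p v => Lcex.gr_inner T (D.f i) p v)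
  obtain ⟨R, hR⟩ := exists_riemann_of_LC h
  exact ⟨_, R, h, hR⟩

end Pool.Agent.H781.CM.Q
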