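import Pool.Agent.H781.NG.Bas

/-!
Linearity of the operators of `NG/Bas.lean`.
-/

set_option autoImplicit false
set_option synthInstance.maxHeartbeats 400000
set_option maxHeartbeats 4000000

noncomputable section

namespace Pool.Agent.H781.CM

open Pool.Agent.H781.NG

variable {N : ℕ} {A : Type*} [CommRing A] [Algebra ℝ A] (F : Fr N A)

theorem ip_smulR (c : ℝ) (u v : Fk N A) : ip (c • u) v = c • ip u v := by
  unfold ip
  rw [Finset.smul_sum]
  exact Finset.sum_congr rfl fun S _ => by rw [Pi.smul_apply, smul_mul_assoc]

theorem ip_smulR' (c : ℝ) (u v : Fk N A) : ip u (c • v) = c • ip u v := by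
  rw [ip_comm, ip_smulR, ip_comm]

theorem gam_add (a : Fin N) (u v : Fk N A) : gam F a (u + v) = gam F a u + gam F a v := by
  unfold gam
  simp only [map_add, smul_add, Finset.sum_add_distrib]

theorem gam_smulR (a : Fin N) (c : ℝ) (u : Fk N A) : gam F a (c • u) = c • gam F a u := by
  unfold gam
  rw [Finset.smul_sum]
  refine Finset.sum_congr rfl fun b _ => ?_
  rw [Finset.smul_sum]
  refine Finset.sum_congr rfl fun d _ => ?_
  rw [LinearMap.map_smul_of_tower, LinearMap.map_smul_of_tower, smul_comm]

theorem nab_add (a : Fin N) (u v : Fk N A) : nab F a (u + v) = nab F a u + nab F a v := by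
  unfold nab
  rw [gam_add]
  have : (fun S => F.e a ((u + v) S)) = (fun S => F.e a (u S)) + fun S => F.e a (v S) := by
    funext S
    simp only [Pi.add_apply, map_add]
  rw [this]
  abel

theorem nab_smulR (a : Fin N) (c : ℝ) (u : Fk N A) : nab F a (c • u) = c • nab F a u := by
  unfold nab
  rw [gam_smulR, smul_add]
  congr 1
  funext S
  simp only [Pi.smul_apply]
  exact (F.e a).map_smul_of_tower c (u S)

/-- `∇_a` as a linear map -/
def nabL (a : Fin N) : Fk N A →ₗ[ℝ] Fk N A where
  toFun := nab F a
  map_add' u v := nab_add F a u v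
  map_smul' c u := nab_smulR F a c u

/-- `d` as a linear map -/
def ddL : Fk N A →ₗ[ℝ] Fk N A where
  toFun := dd F
  map_add' u v := by
    unfold dd
    simp only [nab_add, map_add, Finset.sum_add_distrib]
  map_smul' c u := by
    unfold dd
    rw [RingHom.id_apply, Finset.smul_sum]
    refine Finset.sum_congr rfl fun a _ => ?_
    rw [nab_smulR, LinearMap.map_smul_of_tower]

/-- `δ` as a linear map -/
def deL : Fk N A →ₗ[ℝ] Fk N A where
  toFun := de F
  map_add' u v := by
    unfold de
    simp only [nab_add, map_add, Finset.sum_add_distrib, neg_add]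
  map_smul' c u := by
    unfold de
    rw [RingHom.id_apply, smul_neg, Finset.smul_sum]
    congr 1
    refine Finset.sum_congr rfl fun a _ => ?_
    rw [nab_smulR, LinearMap.map_smul_of_tower]

/-- homogeneous elements of degree `p` -/
def Deg (p : ℕ) (u : Fk N A) : Prop := ∀ S, S.card ≠ p → u S = 0

/-- the component of degree `p` -/
def dpt (p : ℕ) (u : Fk N A) : Fk N A := fun S => if S.card = p then u S else 0

variable (N A) in
/-- homogeneous elements of degree `p` as a subspace -/
def DegS (p : ℕ) : Submodule ℝ (Fk N A) where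
  carrier := {u | Deg p u}
  add_mem' := by
    intro u v hu hv S hS
    rw [Pi.add_apply, hu S hS, hv S hS, add_zero]
  zero_mem' := fun S _ => rfl
  smul_mem' := by
    intro c u hu S hS
    rw [Pi.smul_apply, hu S hS, smul_zero]

end Pool.Agent.H781.CM
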