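import Pool.Agent.H781.CM.QM

/-!
Project Q: local primitives of closed 2-forms on the chart domains.
-/

set_option autoImplicit false

open Bundle Manifold ContDiff VectorField
open scoped Topology ComplexConjugate

noncomputable section

namespace Pool.Agent.H781.CM.Q

open Pool.Agent.H781.CM.F

namespace Lp2

theorem img (i j : Fin 2) : cM i j '' DM i j = BD := by
  ext y
  constructor
  · rintro ⟨x, hx, rfl⟩
    exact ((parM i j).r x hx).1
  · intro hy
    exact ⟨psM i j y, ((parM i j).l y hy).1, ((parM i j).l y hy).2⟩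

theorem star : StarConvex ℝ (0 : EV 4) BD := by
  rw [starConvex_zero_iff]
  intro y hy t ht0 ht1
  have h1 : Complex.normSq (c1 (t • y)) = t ^ 2 * Complex.normSq (c1 y) := by
    simp only [c1, Complex.normSq_apply, PiLp.smul_apply, smul_eq_mul]
    ring
  have h2 : Complex.normSq (c2 (t • y)) = t ^ 2 * Complex.normSq (c2 y) := by
    simp only [c2, Complex.normSq_apply, PiLp.smul_apply, smul_eq_mul]
    ring
  have h3 : t ^ 2 ≤ 1 := by nlinarith
  have h4 : 0 ≤ t ^ 2 := by positivity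
  refine ⟨?_, ?_⟩
  · rw [h1]
    calc t ^ 2 * Complex.normSq (c1 y) ≤ 1 * Complex.normSq (c1 y) :=
          mul_le_mul_of_nonneg_right h3 (Complex.normSq_nonneg _)
      _ < 1 := by rw [one_mul]; exact hy.1
  · rw [h2]
    calc t ^ 2 * Complex.normSq (c2 y) ≤ 1 * Complex.normSq (c2 y) :=
          mul_le_mul_of_nonneg_right h3 (Complex.normSq_nonneg _)
      _ < 1 := by rw [one_mul]; exact hy.2

end Lp2

theorem s_lp2 : S_LP2 := by
  intro β hβ i j
  have hP := parM i j
  have hForm : IsFormOn (DM i j) β :=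
    ⟨fun x _ => hβ.1.1 x, fun Y hY => (hβ.1.2 Y hY).contMDiffOn⟩
  have hD : IsDOn (DM i j) β (fun _ _ => 0) := fun Y hY x _ => hβ.2 Y hY x
  have himg := Lp2.img i j
  obtain ⟨b, hb, hb0, hbco⟩ := (s_t3 4 M BD (DM i j) (psM i j) (cM i j) hP (DM i j) hP.oU
    subset_rfl β).1 hForm
  have hcl := (s_t4 4 M BD (DM i j) (psM i j) (cM i j) hP (DM i j) hP.oU subset_rfl β b hb hb0
    hbco).1 hD
  rw [himg] at hb hcl
  obtain ⟨a, ha, hab⟩ := s_poin2 4 BD hP.oV Lp2.star b hb hb0 hcl
  have hco : Co1 (cM i j) (DM i j) (fun x v => a (cM i j x) (dm (cM i j) x (v 0))) a :=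
    fun x _ v => rfl
  have ha' : ContDiffOn ℝ ∞ a (cM i j '' DM i j) := by rw [himg]; exact ha
  refine ⟨fun x v => a (cM i j x) (dm (cM i j) x (v 0)), ?_, ?_⟩
  · exact (s_t1 4 M BD (DM i j) (psM i j) (cM i j) hP (DM i j) hP.oU subset_rfl _).2 a ha' hco
  · rw [s_t2 4 M BD (DM i j) (psM i j) (cM i j) hP (DM i j) hP.oU subset_rfl _ β a ha' hco]
    intro x hx v
    rw [hbco x hx v]
    exact hab (cM i j x) (hP.r x hx).1 _ _

end Pool.Agent.H781.CM.Q
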