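import Pool.Agent.H781.CM.QM

/-!
# The metric of nonnegative sectional curvature on `M` (helper287)
-/

set_option autoImplicit false

open Bundle Manifold ContDiff VectorField Metric Set
open scoped Topology RealInnerProductSpace ComplexConjugate

noncomputable section

namespace Pool.Agent.H781.CM.Q

open Pool.Agent.H821R2 Pool.Agent.H781.S22 Pool.Agent.H781.CM.F Pool.Agent.H839R2.RS
  Pool.Agent.H893R5.HO

namespace Msec

/-- the inclusion of `X` in `U4 × U4` -/
def jj (x : X) : U4 × U4 := ((x.1 : U4), (x.2 : U4))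

theorem jj_smooth : ContMDiff IX 𝓘(ℝ, U4 × U4) ∞ jj := fst_smooth.prodMk_space snd_smooth

theorem c1_add (x y : U4) : c1 (x + y) = c1 x + c1 y := by
  apply Complex.ext <;> simp [c1]

theorem c2_add (x y : U4) : c2 (x + y) = c2 x + c2 y := by
  apply Complex.ext <;> simp [c2]

theorem c1_smul (r : ℝ) (x : U4) : c1 (r • x) = (r : ℂ) * c1 x := by
  apply Complex.ext <;> simp [c1]

theorem c2_smul (r : ℝ) (x : U4) : c2 (r • x) = (r : ℂ) * c2 x := by
  apply Complex.ext <;> simp [c2]

theorem mk_add (z w z' w' : ℂ) : mk (z + z') (w + w') = mk z w + mk z' w' := by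
  ext i
  fin_cases i <;> simp [mk]

theorem mk_smul (r : ℝ) (z w : ℂ) : mk ((r : ℂ) * z) ((r : ℂ) * w) = r • mk z w := by
  ext i
  fin_cases i <;> simp [mk]

/-- the diagonal unitary map as a linear isometry -/
def dgI (s t : ℂ) (hs : Complex.normSq s = 1) (ht : Complex.normSq t = 1) : U4 →ₗᵢ[ℝ] U4 where
  toFun := dg s t
  map_add' x y := by
    unfold dg
    rw [c1_add, c2_add, mul_add, mul_add, mk_add]
  map_smul' r x := by
    unfold dg
    rw [c1_smul, c2_smul, mul_left_comm, mul_left_comm t, mk_smul, RingHom.id_apply]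
  norm_map' := norm_dg s t hs ht

/-- the rotation of the ambient space -/
def RR (s t : ℂ) (hs : Complex.normSq s = 1) (ht : Complex.normSq t = 1) :
    U4 × U4 →L[ℝ] U4 × U4 :=
  ((dgI s t hs ht).toContinuousLinearMap).prodMap
    ((dgI (s * conj t) (conj s * conj t) (by simp [hs, ht]) (by simp [hs, ht])).toContinuousLinearMap)

theorem jj_rot (s t : ℂ) (hs : Complex.normSq s = 1) (ht : Complex.normSq t = 1) :
    jj ∘ rot s t hs ht = RR s t hs ht ∘ jj := rfl

theorem inner_RR (s t : ℂ) (hs : Complex.normSq s = 1) (ht : Complex.normSq t = 1)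
    (v w : U4 × U4) : ⟪(RR s t hs ht v).1, (RR s t hs ht w).1⟫ +
      ⟪(RR s t hs ht v).2, (RR s t hs ht w).2⟫ = ⟪v.1, w.1⟫ + ⟪v.2, w.2⟫ := by
  have h1 := (dgI s t hs ht).inner_map_map v.1 w.1
  have h2 := (dgI (s * conj t) (conj s * conj t) (by simp [hs, ht])
    (by simp [hs, ht])).inner_map_map v.2 w.2
  rw [← h1, ← h2]
  rfl

theorem deriv_jj (s t : ℂ) (hs : Complex.normSq s = 1) (ht : Complex.normSq t = 1) (p : X)
    (v : TangentSpace IX p) :
    mvfderiv IX jj (rot s t hs ht p) (mfderiv IX IX (rot s t hs ht) p v) =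
      RR s t hs ht (mvfderiv IX jj p v) := by
  have h1 : mfderiv IX 𝓘(ℝ, U4 × U4) (jj ∘ rot s t hs ht) p =
      (mfderiv IX 𝓘(ℝ, U4 × U4) jj (rot s t hs ht p)).comp (mfderiv IX IX (rot s t hs ht) p) :=
    mfderiv_comp p ((jj_smooth _).mdifferentiableAt (by simp))
      ((rot_smooth s t hs ht p).mdifferentiableAt (by simp))
  have h2 : mfderiv IX 𝓘(ℝ, U4 × U4) (RR s t hs ht ∘ jj) p =
      (mfderiv 𝓘(ℝ, U4 × U4) 𝓘(ℝ, U4 × U4) (RR s t hs ht) (jj p)).comp
        (mfderiv IX 𝓘(ℝ, U4 × U4) jj p) :=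
    mfderiv_comp p ((RR s t hs ht).mdifferentiableAt)
      ((jj_smooth _).mdifferentiableAt (by simp))
  rw [ContinuousLinearMap.mfderiv_eq] at h2
  rw [jj_rot] at h1
  have h3 := congrArg (fun L => L v) (h1.symm.trans h2)
  exact h3

theorem surj_of_isom (g : ContMDiffRiemannianMetric IX ∞
    (EuclideanSpace ℝ (Fin 3) × EuclideanSpace ℝ (Fin 3)) (fun x : X => TangentSpace IX x))
    (p q : X) (L : TangentSpace IX p →L[ℝ] TangentSpace IX q)
    (h : ∀ v w, g.inner q (L v) (L w) = g.inner p v w) : Function.Surjective L := by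
  have hinj : Function.Injective L := by
    intro v w hvw
    by_contra hne
    have h1 : v - w ≠ 0 := sub_ne_zero.2 hne
    have h2 := g.pos p (v - w) h1
    rw [← h, map_sub, hvw, sub_self] at h2
    simp at h2
  let L' : (EuclideanSpace ℝ (Fin 3) × EuclideanSpace ℝ (Fin 3)) →ₗ[ℝ]
    (EuclideanSpace ℝ (Fin 3) × EuclideanSpace ℝ (Fin 3)) := L.toLinearMap
  have h1 : Function.Injective L' := hinj
  have h2 : Function.Surjective L' := (LinearMap.injective_iff_surjective (K := ℝ)
    (V := EuclideanSpace ℝ (Fin 3) × EuclideanSpace ℝ (Fin 3)) (f := L')).1 h1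
  exact h2

end Msec

open Msec in
/-- `M` has a metric of nonnegative sectional curvature -/
theorem s_msec (h1 : S_LCEX) (h2 : S_ONEILL) (h3 : S_SUBM) (h4 : S_SPH) : S_MSEC := by
  obtain ⟨g, hg, hcurv⟩ := h4
  obtain ⟨h, hsub⟩ := h3 (EuclideanSpace ℝ (Fin 3) × EuclideanSpace ℝ (Fin 3)) _ IX X 4 M g pr
    pr_smooth pr_surj
    (by
      intro p
      obtain ⟨i, j, hq⟩ := exists_DM (pr p)
      exact ⟨DM i j, isOpen_DM i j, hq, sgX i j, sgX_smooth i j, fun y _ => pr_sgX i j y,
        fun y _ w => prm_deriv (sgX i j y) w⟩)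
    (by
      intro p q hpq
      obtain ⟨s, t, hs, ht, rfl⟩ := exists_rot hpq
      have hiso : ∀ v w : TangentSpace IX p, g.inner (rot s t hs ht p)
          (mfderiv IX IX (rot s t hs ht) p v) (mfderiv IX IX (rot s t hs ht) p w) =
          g.inner p v w := by
        intro v w
        rw [hg, hg]
        have e1 := deriv_jj s t hs ht p v
        have e2 := deriv_jj s t hs ht p w
        have e3 := inner_RR s t hs ht (mvfderiv IX jj p v) (mvfderiv IX jj p w)
        rw [← e1, ← e2] at e3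
        exact e3
      refine ⟨mfderiv IX IX (rot s t hs ht) p, surj_of_isom g p _ _ hiso, hiso, fun v => ?_⟩
      have e1 : mfderiv IX (𝓡 4) (pr ∘ rot s t hs ht) p =
          (mfderiv IX (𝓡 4) pr (rot s t hs ht p)).comp (mfderiv IX IX (rot s t hs ht) p) :=
        mfderiv_comp p ((pr_smooth _).mdifferentiableAt (by simp))
          ((rot_smooth s t hs ht p).mdifferentiableAt (by simp))
      have e2 : pr ∘ rot s t hs ht = pr := funext fun x => pr_rot s t hs ht x
      rw [e2] at e1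
      have e3 := congrArg (fun L => L v) e1
      exact e3.symm)
  refine ⟨h, h1 4 M (by norm_num) h, fun cov R hcov hR x u v => ?_⟩
  rw [zero_mul]
  exact h2 (EuclideanSpace ℝ (Fin 3) × EuclideanSpace ℝ (Fin 3)) _ IX X
    (EuclideanSpace ℝ (Fin 4)) _ (𝓡 4) M g h pr hsub hcurv cov R hcov hR x u v

end Pool.Agent.H781.CM.Q
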