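import Pool.Agent.H781.CM.QM

/-!
Project Q: the orientation of the manifold `M`.
-/

set_option autoImplicit false

open Bundle Manifold ContDiff VectorField Filter
open scoped Topology ComplexConjugate

noncomputable section

namespace Pool.Agent.H781.CM.Q

open Pool.Agent.H781.CM.F

namespace Om

/-! ### angular derivatives along curves -/

theorem dArg_eq (z w : ℂ) : dArg z w = (w / z).im := by
  unfold dArg
  rw [Complex.div_im]
  simp only [Complex.mul_im, Complex.conj_re, Complex.conj_im]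
  ring

theorem dArg_mul {z z' : ℂ} (hz : z ≠ 0) (hz' : z' ≠ 0) (w w' : ℂ) :
    dArg (z * z') (w * z' + z * w') = dArg z w + dArg z' w' := by
  rw [dArg_eq, dArg_eq, dArg_eq, ← Complex.add_im]
  congr 1
  field_simp

theorem dArg_conj (z w : ℂ) : dArg (conj z) (conj w) = - dArg z w := by
  rw [dArg_eq, dArg_eq, ← map_div₀, Complex.conj_im]

theorem dArg_real (a b : ℝ) : dArg (a : ℂ) (b : ℂ) = 0 := by
  rw [dArg_eq, ← Complex.ofReal_div, Complex.ofReal_im]

/-- `f` is differentiable and nonzero at `0`, with angular derivative `a` -/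
def HA (f : ℝ → ℂ) (a : ℝ) : Prop := ∃ f' : ℂ, HasDerivAt f f' 0 ∧ f 0 ≠ 0 ∧ dArg (f 0) f' = a

theorem HA.mul {f g : ℝ → ℂ} {a b : ℝ} (hf : HA f a) (hg : HA g b) :
    HA (fun t => f t * g t) (a + b) := by
  obtain ⟨f', h1, h2, h3⟩ := hf
  obtain ⟨g', k1, k2, k3⟩ := hg
  refine ⟨f' * g 0 + f 0 * g', h1.mul k1, mul_ne_zero h2 k2, ?_⟩
  rw [dArg_mul h2 k2, h3, k3]

theorem HA.conj {f : ℝ → ℂ} {a : ℝ} (hf : HA f a) : HA (fun t => conj (f t)) (-a) := by
  obtain ⟨f', h1, h2, h3⟩ := hf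
  refine ⟨(starRingEnd ℂ) f', h1.star, ?_, ?_⟩
  · exact (map_ne_zero _).2 h2
  · rw [dArg_conj, h3]

theorem HA.real {f : ℝ → ℝ} {f' : ℝ} (hf : HasDerivAt f f' 0) (h0 : f 0 ≠ 0) :
    HA (fun t => (f t : ℂ)) 0 := by
  refine ⟨(f' : ℂ), hf.ofReal_comp, ?_, ?_⟩
  · exact Complex.ofReal_ne_zero.2 h0
  · exact dArg_real _ _

theorem lin_deriv (u w : ℂ) : HasDerivAt (fun t : ℝ => u + (t : ℂ) * w) w 0 := by
  have h : HasDerivAt (fun t : ℝ => (t : ℂ)) 1 (0 : ℝ) := (hasDerivAt_id (0 : ℝ)).ofReal_comp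
  have h2 := (h.mul_const w).const_add u
  rw [one_mul] at h2
  exact h2

theorem HA.lin {u : ℂ} (hu : u ≠ 0) (w : ℂ) : HA (fun t => u + (t : ℂ) * w) (dArg u w) := by
  refine ⟨w, lin_deriv u w, ?_, ?_⟩
  · simpa using hu
  · simp

theorem HA.unique {f : ℝ → ℂ} {a : ℝ} (hf : HA f a) {δ : ℂ} (h : HasDerivAt f δ 0) :
    dArg (f 0) δ = a := by
  obtain ⟨f', h1, -, h3⟩ := hf
  rw [h.unique h1, h3]

theorem nsq_deriv (u w : ℂ) : HasDerivAt (fun t : ℝ => Complex.normSq (u + (t : ℂ) * w))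
    (2 * (conj u * w).re) 0 := by
  have h : (fun t : ℝ => Complex.normSq (u + (t : ℂ) * w)) =
      fun t : ℝ => (u.re + t * w.re) * (u.re + t * w.re) +
        (u.im + t * w.im) * (u.im + t * w.im) := by
    funext t
    rw [Complex.normSq_apply]
    simp
  rw [h]
  have h1 : HasDerivAt (fun t : ℝ => u.re + t * w.re) w.re 0 := by
    simpa using ((hasDerivAt_id (0 : ℝ)).mul_const w.re).const_add u.re
  have h2 : HasDerivAt (fun t : ℝ => u.im + t * w.im) w.im 0 := by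
    simpa using ((hasDerivAt_id (0 : ℝ)).mul_const w.im).const_add u.im
  have h3 := (h1.mul h1).add (h2.mul h2)
  have h4 : 2 * (conj u * w).re = w.re * (u.re + 0 * w.re) + (u.re + 0 * w.re) * w.re +
      (w.im * (u.im + 0 * w.im) + (u.im + 0 * w.im) * w.im) := by
    simp only [Complex.mul_re, Complex.conj_re, Complex.conj_im]
    ring
  rw [h4]
  exact h3

theorem HA.h1 {u : ℂ} (hu : Complex.normSq u < 1) (w : ℂ) :
    HA (fun t => h1 (u + (t : ℂ) * w)) 0 := by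
  unfold Q.h1
  have h : HasDerivAt (fun t : ℝ => 1 - Complex.normSq (u + (t : ℂ) * w))
    (-(2 * (starRingEnd ℂ u * w).re)) 0 := by
    simpa using (nsq_deriv u w).const_sub 1
  have h0 : (1 : ℝ) - Complex.normSq (u + ((0 : ℝ) : ℂ) * w) ≠ 0 := by
    simp only [Complex.ofReal_zero, zero_mul, add_zero]
    linarith [hu]
  refine HA.real (h.sqrt h0) ?_
  have h1 : Real.sqrt (1 - Complex.normSq u) ≠ 0 := (Real.sqrt_pos.2 (by linarith)).ne'
  simpa using h1

/-! ### the coordinate expressions along curves -/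

theorem c1_add (y w : U4) (t : ℝ) : c1 (y + t • w) = c1 y + (t : ℂ) * c1 w := by
  apply Complex.ext <;> simp [c1]

theorem c2_add (y w : U4) (t : ℝ) : c2 (y + t • w) = c2 y + (t : ℂ) * c2 w := by
  apply Complex.ext <;> simp [c2]

theorem curve_deriv {k l : Fin 2} {y : U4} (hy : y ∈ BD) (w : U4) :
    HasDerivAt (fun t : ℝ => ps k l (y + t • w)) (fderiv ℝ (ps k l) y w) 0 := by
  have h1 : HasFDerivAt (ps k l) (fderiv ℝ (ps k l) y) y :=
    (((s_q0.smooth_ps k l).contDiffAt (s_q0.open_BD.mem_nhds hy)).differentiableAt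
      (by simp)).hasFDerivAt
  have h2 : HasDerivAt (fun t : ℝ => y + t • w) w 0 := by
    simpa using ((hasDerivAt_id (0 : ℝ)).smul_const w).const_add y
  have h3 : HasFDerivAt (ps k l) (fderiv ℝ (ps k l) y) (y + (0 : ℝ) • w) := by
    simpa using h1
  exact h3.comp_hasDerivAt (0 : ℝ) h2

theorem curve_mem {y : U4} (hy : y ∈ BD) (w : U4) : ∀ᶠ t : ℝ in 𝓝 0, y + t • w ∈ BD := by
  have h : Continuous (fun t : ℝ => y + t • w) := by fun_prop
  have h2 : (fun t : ℝ => y + t • w) 0 ∈ BD := by simpa using hy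
  exact h.continuousAt.preimage_mem_nhds (s_q0.open_BD.mem_nhds h2)

theorem fst_deriv {E F : Type*} [NormedAddCommGroup E] [NormedSpace ℝ E] [NormedAddCommGroup F]
    [NormedSpace ℝ F] {f : ℝ → E × F} {f' : E × F} (h : HasDerivAt f f' 0) :
    HasDerivAt (fun t => (f t).1) f'.1 0 :=
  (ContinuousLinearMap.fst ℝ E F).hasFDerivAt.comp_hasDerivAt 0 h

theorem snd_deriv {E F : Type*} [NormedAddCommGroup E] [NormedSpace ℝ E] [NormedAddCommGroup F]
    [NormedSpace ℝ F] {f : ℝ → E × F} {f' : E × F} (h : HasDerivAt f f' 0) :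
    HasDerivAt (fun t => (f t).2) f'.2 0 :=
  (ContinuousLinearMap.snd ℝ E F).hasFDerivAt.comp_hasDerivAt 0 h

/-- sign of the first radial coordinate -/
def e0 (k : Fin 2) : ℝ := if k = 0 then 1 else -1

theorem rr_ps {k l : Fin 2} {y : U4} (hy : y ∈ BD) :
    rr (ps k l y) = if k = 0 then Complex.normSq (c1 y) else 1 - Complex.normSq (c1 y) := by
  fin_cases k
  · simp [rr, ps, Phi, Phi4, Q0p.sg_fst0]
  · simp [rr, ps, Phi, Phi4, Q0p.sg_fst1, Q0p.normSq_h1 hy.1]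

theorem ss_ps {k l : Fin 2} {y : U4} (hy : y ∈ BD) :
    ss (ps k l y) = if l = 0 then Complex.normSq (c2 y) else 1 - Complex.normSq (c2 y) := by
  fin_cases l
  · simp [ss, ps, Phi, Phi4, Q0p.sg_snd0]
  · simp [ss, ps, Phi, Phi4, Q0p.sg_snd1, Q0p.normSq_h1 hy.2]

theorem d_r {k l : Fin 2} {y : U4} (hy : y ∈ BD) (w : U4) :
    (fderiv ℝ (ps k l) y w).1.1 = 2 * (e0 k * (conj (c1 y) * c1 w).re) := by
  have h1 := fst_deriv (fst_deriv (curve_deriv (k := k) (l := l) hy w))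
  have h2 : HasDerivAt (fun t : ℝ => if k = 0 then Complex.normSq (c1 y + (t : ℂ) * c1 w)
      else 1 - Complex.normSq (c1 y + (t : ℂ) * c1 w))
      (2 * (e0 k * (conj (c1 y) * c1 w).re)) 0 := by
    unfold e0
    split_ifs
    · simpa using nsq_deriv (c1 y) (c1 w)
    · rw [show (2 : ℝ) * (-1 * (conj (c1 y) * c1 w).re) = -(2 * (conj (c1 y) * c1 w).re) by ring]
      exact (nsq_deriv (c1 y) (c1 w)).const_sub 1
  refine h1.unique (h2.congr_of_eventuallyEq ?_)
  filter_upwards [curve_mem hy w] with t ht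
  rw [← c1_add]
  exact rr_ps ht

theorem d_s {k l : Fin 2} {y : U4} (hy : y ∈ BD) (w : U4) :
    (fderiv ℝ (ps k l) y w).1.2 = 2 * (e0 l * (conj (c2 y) * c2 w).re) := by
  have h1 := snd_deriv (fst_deriv (curve_deriv (k := k) (l := l) hy w))
  have h2 : HasDerivAt (fun t : ℝ => if l = 0 then Complex.normSq (c2 y + (t : ℂ) * c2 w)
      else 1 - Complex.normSq (c2 y + (t : ℂ) * c2 w))
      (2 * (e0 l * (conj (c2 y) * c2 w).re)) 0 := by
    unfold e0
    split_ifs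
    · simpa using nsq_deriv (c2 y) (c2 w)
    · rw [show (2 : ℝ) * (-1 * (conj (c2 y) * c2 w).re) = -(2 * (conj (c2 y) * c2 w).re) by ring]
      exact (nsq_deriv (c2 y) (c2 w)).const_sub 1
  refine h1.unique (h2.congr_of_eventuallyEq ?_)
  filter_upwards [curve_mem hy w] with t ht
  rw [← c2_add]
  exact ss_ps ht

/-- coefficient matrix of the arguments of `p`, `q` -/
def m11 (k : Fin 2) (_ : Fin 2) : ℝ := if k = 0 then 1 else -1
/-- coefficient matrix of the arguments of `p`, `q` -/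
def m12 (_ : Fin 2) (l : Fin 2) : ℝ := if l = 0 then 0 else 1
/-- coefficient matrix of the arguments of `p`, `q` -/
def m22 (_ : Fin 2) (l : Fin 2) : ℝ := if l = 0 then 1 else 0

theorem d_p {k l : Fin 2} {y : U4} (hy : y ∈ BD) (h1 : c1 y ≠ 0) (h2 : c2 y ≠ 0) (w : U4) :
    dArg (ps k l y).2.1.1 (fderiv ℝ (ps k l) y w).2.1.1 =
      m11 k l * dArg (c1 y) (c1 w) + m12 k l * dArg (c2 y) (c2 w) := by
  have h3 := fst_deriv (fst_deriv (snd_deriv (curve_deriv (k := k) (l := l) hy w)))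
  have a1 := HA.lin h1 (c1 w)
  have a2 := HA.lin h2 (c2 w)
  have b1 := HA.h1 hy.1 (c1 w)
  have b2 := HA.h1 hy.2 (c2 w)
  have h4 : HA (fun t : ℝ => (ps k l (y + t • w)).2.1.1)
      (m11 k l * dArg (c1 y) (c1 w) + m12 k l * dArg (c2 y) (c2 w)) := by
    fin_cases k <;> fin_cases l
    · have := (b1.conj.mul a1).mul b2
      simpa [ps, Phi, Phi4, sg, c1_add, c2_add, m11, m12, Q0p.c1_mk, Q0p.c2_mk] using this
    · have := (b1.conj.mul a1).mul a2
      simpa [ps, Phi, Phi4, sg, c1_add, c2_add, m11, m12, Q0p.c1_mk, Q0p.c2_mk] using this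
    · have := (a1.conj.mul b1).mul b2
      simpa [ps, Phi, Phi4, sg, c1_add, c2_add, m11, m12, Q0p.c1_mk, Q0p.c2_mk] using this
    · have := (a1.conj.mul b1).mul a2
      simpa [ps, Phi, Phi4, sg, c1_add, c2_add, m11, m12, Q0p.c1_mk, Q0p.c2_mk] using this
  have h5 := h4.unique h3
  simpa using h5

theorem d_q {k l : Fin 2} {y : U4} (hy : y ∈ BD) (h1 : c1 y ≠ 0) (h2 : c2 y ≠ 0) (w : U4) :
    dArg (ps k l y).2.1.2 (fderiv ℝ (ps k l) y w).2.1.2 =
      1 * dArg (c1 y) (c1 w) + m22 k l * dArg (c2 y) (c2 w) := by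
  have h3 := snd_deriv (fst_deriv (snd_deriv (curve_deriv (k := k) (l := l) hy w)))
  have a1 := HA.lin h1 (c1 w)
  have a2 := HA.lin h2 (c2 w)
  have b1 := HA.h1 hy.1 (c1 w)
  have b2 := HA.h1 hy.2 (c2 w)
  have h4 : HA (fun t : ℝ => (ps k l (y + t • w)).2.1.2)
      (1 * dArg (c1 y) (c1 w) + m22 k l * dArg (c2 y) (c2 w)) := by
    fin_cases k <;> fin_cases l
    · have := (b1.mul a1).mul a2
      simpa [ps, Phi, Phi4, sg, c1_add, c2_add, m22, Q0p.c1_mk, Q0p.c2_mk] using this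
    · have := (b1.mul a1).mul b2
      simpa [ps, Phi, Phi4, sg, c1_add, c2_add, m22, Q0p.c1_mk, Q0p.c2_mk] using this
    · have := (a1.mul b1).mul a2
      simpa [ps, Phi, Phi4, sg, c1_add, c2_add, m22, Q0p.c1_mk, Q0p.c2_mk] using this
    · have := (a1.mul b1).mul b2
      simpa [ps, Phi, Phi4, sg, c1_add, c2_add, m22, Q0p.c1_mk, Q0p.c2_mk] using this
  have h5 := h4.unique h3
  simpa using h5

/-! ### the determinant at generic points -/

/-- the radial and angular derivatives -/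
def Rm (x : A) (δ : Fin 4 → A) : Matrix (Fin 4) (Fin 4) ℝ :=
  Matrix.of fun a => ![(δ a).1.1 / 2, dArg x.2.1.1 (δ a).2.1.1, (δ a).1.2 / 2,
    dArg x.2.1.2 (δ a).2.1.2]

/-- the polar frame -/
def Gm (k l : Fin 2) (y : U4) : Matrix (Fin 4) (Fin 4) ℝ :=
  !![e0 k * y 0, m11 k l * (-(y 1 / nu y)), 0, -(y 1 / nu y);
    e0 k * y 1, m11 k l * (y 0 / nu y), 0, y 0 / nu y;
    0, m12 k l * (-(y 3 / nv y)), e0 l * y 2, m22 k l * (-(y 3 / nv y));
    0, m12 k l * (y 2 / nv y), e0 l * y 3, m22 k l * (y 2 / nv y)]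

/-- the sign of the chart -/
def kap (k l : Fin 2) : ℝ := if k = 1 ∧ l = 1 then -1 else 1

theorem normSq_c1 (y : U4) : Complex.normSq (c1 y) = nu y := by
  rw [Complex.normSq_apply, c1, nu]; ring

theorem normSq_c2 (y : U4) : Complex.normSq (c2 y) = nv y := by
  rw [Complex.normSq_apply, c2, nv]; ring

theorem det_Gm (k l : Fin 2) (y : U4) (h1 : c1 y ≠ 0) (h2 : c2 y ≠ 0) :
    (Gm k l y).det = kap k l := by
  have h1' : nu y ≠ 0 := by
    rw [← normSq_c1]; exact (Complex.normSq_pos.2 h1).ne'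
  have h2' : nv y ≠ 0 := by
    rw [← normSq_c2]; exact (Complex.normSq_pos.2 h2).ne'
  have h3 : y 0 / nu y * y 0 + y 1 / nu y * y 1 = 1 := by
    field_simp; unfold nu; ring
  have h4 : y 2 / nv y * y 2 + y 3 / nv y * y 3 = 1 := by
    field_simp; unfold nv; ring
  have h5 : (Gm k l y).det = e0 k * e0 l * (m11 k l * m22 k l - m12 k l) *
      ((y 0 / nu y * y 0 + y 1 / nu y * y 1) * (y 2 / nv y * y 2 + y 3 / nv y * y 3)) := by
    have s1 : Fin.succAbove (1 : Fin 4) (2 : Fin 3) = 3 := rfl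
    have s2 : Fin.succAbove (3 : Fin 4) (2 : Fin 3) = 2 := rfl
    unfold Gm
    simp [Matrix.det_succ_row_zero, Fin.sum_univ_succ, s1, s2]
    ring
  rw [h5, h3, h4]
  fin_cases k <;> fin_cases l <;> simp [e0, m11, m12, m22, kap]

theorem Rm_eq {k l : Fin 2} {y : U4} (hy : y ∈ BD) (h1 : c1 y ≠ 0) (h2 : c2 y ≠ 0)
    (w : Fin 4 → U4) : Rm (ps k l y) (fun a => fderiv ℝ (ps k l) y (w a)) =
      (Matrix.of fun a b => w a b) * Gm k l y := by
  ext a b
  rw [Matrix.mul_apply, Fin.sum_univ_four]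
  have e1 : dArg (c1 y) (c1 (w a)) = (y 0 / nu y) * w a 1 - (y 1 / nu y) * w a 0 := by
    unfold dArg
    rw [normSq_c1]
    simp [c1]
    ring
  have e2 : dArg (c2 y) (c2 (w a)) = (y 2 / nv y) * w a 3 - (y 3 / nv y) * w a 2 := by
    unfold dArg
    rw [normSq_c2]
    simp [c2]
    ring
  fin_cases b
  · simp [Rm, Gm, d_r hy, c1]
    ring
  · simp [Rm, Gm, d_p hy h1 h2, e1, e2]
    ring
  · simp [Rm, Gm, d_s hy, c2]
    ring
  · simp [Rm, Gm, d_q hy h1 h2, e1, e2]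
    ring

theorem det_Rm {k l : Fin 2} {y : U4} (hy : y ∈ BD) (h1 : c1 y ≠ 0) (h2 : c2 y ≠ 0)
    (w : Fin 4 → U4) : (Rm (ps k l y) (fun a => fderiv ℝ (ps k l) y (w a))).det =
      kap k l * (Matrix.of fun a b => w a b).det := by
  rw [Rm_eq hy h1 h2, Matrix.det_mul, det_Gm k l y h1 h2, mul_comm]

/-! ### the transition maps -/

/-- transition map -/
def Tm (i j k l : Fin 2) (y : U4) : U4 := ch k l (ps i j y)

/-- domain of the transition map -/
def SS (i j k l : Fin 2) : Set U4 := BD ∩ ps i j ⁻¹' OO k l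

theorem isOpen_SS (i j k l : Fin 2) : IsOpen (SS i j k l) :=
  (s_q0.smooth_ps i j).continuousOn.isOpen_inter_preimage s_q0.open_BD (s_q0.open_OO k l)

theorem smooth_Tm (i j k l : Fin 2) : ContDiffOn ℝ ∞ (Tm i j k l) (SS i j k l) :=
  (s_q0.smooth_ch k l).comp ((s_q0.smooth_ps i j).mono Set.inter_subset_left) (fun _ hy => hy.2)

theorem diff_Tm {i j k l : Fin 2} {y : U4} (hy : y ∈ SS i j k l) :
    DifferentiableAt ℝ (Tm i j k l) y :=
  ((smooth_Tm i j k l).contDiffAt ((isOpen_SS i j k l).mem_nhds hy)).differentiableAt (by simp)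

theorem Tm_mem {i j k l : Fin 2} {y : U4} (hy : y ∈ SS i j k l) : Tm i j k l y ∈ BD :=
  s_q0.ch_mem k l _ (s_q0.ps_mem i j y hy.1).1 hy.2

theorem ps_Tm {i j k l : Fin 2} {y : U4} (hy : y ∈ SS i j k l) :
    ps k l (Tm i j k l y) = ps i j y :=
  s_q0.ps_ch k l _ (s_q0.ps_mem i j y hy.1).1 hy.2

theorem fderiv_ps_Tm {i j k l : Fin 2} {y : U4} (hy : y ∈ SS i j k l) (w : U4) :
    fderiv ℝ (ps k l) (Tm i j k l y) (fderiv ℝ (Tm i j k l) y w) = fderiv ℝ (ps i j) y w := by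
  have h1 := (diff_Tm hy).hasFDerivAt
  have h2 : HasFDerivAt (ps k l) (fderiv ℝ (ps k l) (Tm i j k l y)) (Tm i j k l y) :=
    (((s_q0.smooth_ps k l).contDiffAt (s_q0.open_BD.mem_nhds (Tm_mem hy))).differentiableAt
      (by simp)).hasFDerivAt
  have h3 := h2.comp y h1
  have h4 : ps k l ∘ Tm i j k l =ᶠ[𝓝 y] ps i j := by
    filter_upwards [(isOpen_SS i j k l).mem_nhds hy] with z hz using ps_Tm hz
  rw [← h4.fderiv_eq, h3.fderiv]
  rfl

theorem gen1 {k l : Fin 2} {y : U4} (hy : y ∈ BD) :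
    c1 y ≠ 0 ↔ 0 < rr (ps k l y) ∧ rr (ps k l y) < 1 := by
  rw [rr_ps hy]
  have h1 : Complex.normSq (c1 y) < 1 := hy.1
  have h2 := Complex.normSq_nonneg (c1 y)
  constructor
  · intro h
    have h3 := Complex.normSq_pos.2 h
    split_ifs
    · exact ⟨h3, h1⟩
    · constructor <;> linarith
  · rintro ⟨h3, h4⟩ h5
    rw [h5, map_zero] at h3 h4
    split_ifs at h3 h4
    · exact lt_irrefl _ h3
    · linarith

theorem gen2 {k l : Fin 2} {y : U4} (hy : y ∈ BD) :
    c2 y ≠ 0 ↔ 0 < ss (ps k l y) ∧ ss (ps k l y) < 1 := by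
  rw [ss_ps hy]
  have h1 : Complex.normSq (c2 y) < 1 := hy.2
  have h2 := Complex.normSq_nonneg (c2 y)
  constructor
  · intro h
    have h3 := Complex.normSq_pos.2 h
    split_ifs
    · exact ⟨h3, h1⟩
    · constructor <;> linarith
  · rintro ⟨h3, h4⟩ h5
    rw [h5, map_zero] at h3 h4
    split_ifs at h3 h4
    · exact lt_irrefl _ h3
    · linarith

/-- the determinant of four vectors -/
def Dt (w : Fin 4 → U4) : ℝ := (Matrix.of fun a b : Fin 4 => w a b).det

theorem contDiff_Dt : ContDiff ℝ ∞ Dt := by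
  unfold Dt
  simp only [Matrix.det_apply, Matrix.of_apply]
  refine ContDiff.sum fun σ _ => ContDiff.const_smul _ (contDiff_prod fun b _ => ?_)
  exact (Q0p.cd_coord b).comp (contDiff_apply ℝ U4 (σ b))

theorem det_gen {i j k l : Fin 2} {y : U4} (hy : y ∈ SS i j k l) (h1 : c1 y ≠ 0) (h2 : c2 y ≠ 0)
    (w : Fin 4 → U4) :
    kap i j * Dt w = kap k l * Dt (fun a => fderiv ℝ (Tm i j k l) y (w a)) := by
  have k1 : c1 (Tm i j k l y) ≠ 0 := by
    rw [gen1 (k := k) (l := l) (Tm_mem hy), ps_Tm hy, ← gen1 hy.1]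
    exact h1
  have k2 : c2 (Tm i j k l y) ≠ 0 := by
    rw [gen2 (k := k) (l := l) (Tm_mem hy), ps_Tm hy, ← gen2 hy.1]
    exact h2
  have a1 := det_Rm (k := i) (l := j) hy.1 h1 h2 w
  have a2 := det_Rm (k := k) (l := l) (Tm_mem hy) k1 k2
    (fun a => fderiv ℝ (Tm i j k l) y (w a))
  simp only [ps_Tm hy, fderiv_ps_Tm hy] at a2
  unfold Dt
  rw [← a1, ← a2]

theorem ev_ne (a : ℂ) : ∀ᶠ t : ℝ in 𝓝[≠] 0, a + (t : ℂ) ≠ 0 := by
  by_cases ha : a = 0
  · subst ha
    filter_upwards [self_mem_nhdsWithin] with t ht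
    simpa using ht
  · have h1 : Continuous (fun t : ℝ => a + (t : ℂ)) := by fun_prop
    have h2 : (fun t : ℝ => a + (t : ℂ)) 0 ≠ 0 := by simpa using ha
    exact (h1.continuousAt.eventually_ne h2).filter_mono nhdsWithin_le_nhds

theorem det_all {i j k l : Fin 2} {y : U4} (hy : y ∈ SS i j k l) (w : Fin 4 → U4) :
    kap i j * Dt w = kap k l * Dt (fun a => fderiv ℝ (Tm i j k l) y (w a)) := by
  have hf : ContinuousAt (fun z => kap k l * Dt (fun a => fderiv ℝ (Tm i j k l) z (w a))) y := by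
    have h1 : ContinuousAt (fderiv ℝ (Tm i j k l)) y :=
      ((smooth_Tm i j k l).continuousOn_fderiv_of_isOpen (isOpen_SS i j k l)
        (by simp)).continuousAt ((isOpen_SS i j k l).mem_nhds hy)
    have h2 : ContinuousAt (fun z => (fun a => fderiv ℝ (Tm i j k l) z (w a) : Fin 4 → U4)) y :=
      continuousAt_pi.2 fun a => h1.clm_apply continuousAt_const
    exact continuousAt_const.mul (contDiff_Dt.continuous.continuousAt.comp h2)
  set e : U4 := mk 1 1 with he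
  have hg : Continuous (fun t : ℝ => y + t • e) := by fun_prop
  have hg0 : (fun t : ℝ => y + t • e) 0 = y := by simp
  have h3 : Tendsto (fun t : ℝ => kap k l *
      Dt (fun a => fderiv ℝ (Tm i j k l) (y + t • e) (w a))) (𝓝[≠] 0)
      (𝓝 (kap k l * Dt (fun a => fderiv ℝ (Tm i j k l) y (w a)))) := by
    have h4 : Tendsto (fun t : ℝ => y + t • e) (𝓝[≠] 0) (𝓝 y) := by
      have := hg.tendsto 0
      simp only [zero_smul, add_zero] at this
      exact this.mono_left nhdsWithin_le_nhds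
    exact hf.tendsto.comp h4
  have h5 : ∀ᶠ t : ℝ in 𝓝[≠] 0, kap k l *
      Dt (fun a => fderiv ℝ (Tm i j k l) (y + t • e) (w a)) = kap i j * Dt w := by
    have h6 : ∀ᶠ t : ℝ in 𝓝[≠] 0, y + t • e ∈ SS i j k l := by
      have : (fun t : ℝ => y + t • e) 0 ∈ SS i j k l := by simpa using hy
      have h7 : ∀ᶠ t : ℝ in 𝓝 0, y + t • e ∈ SS i j k l :=
        hg.continuousAt.preimage_mem_nhds ((isOpen_SS i j k l).mem_nhds this)
      exact h7.filter_mono nhdsWithin_le_nhds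
    filter_upwards [h6, ev_ne (c1 y), ev_ne (c2 y)] with t ht ht1 ht2
    refine (det_gen ht ?_ ?_ w).symm
    · rw [c1_add, he, Q0p.c1_mk, mul_one]
      exact ht1
    · rw [c2_add, he, Q0p.c2_mk, mul_one]
      exact ht2
  exact tendsto_nhds_unique (tendsto_const_nhds.congr' (h5.mono fun t ht => ht.symm)) h3

/-! ### the form -/

theorem dm_trans {i j k l : Fin 2} {x : M} (h1 : x ∈ DM i j) (h2 : x ∈ DM k l)
    (v : TangentSpace (𝓡 4) x) :
    dm (cM k l) x v = fderiv ℝ (Tm i j k l) (cM i j x) (dm (cM i j) x v) := by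
  have hy : cM i j x ∈ SS i j k l := by
    refine ⟨chM_mem h1, ?_⟩
    show ps i j (ch i j x.1) ∈ OO k l
    rw [s_q0.ps_ch i j x.1 x.2 h1]
    exact h2
  have h3 : mfderiv (𝓡 4) 𝓘(ℝ, U4) (Tm i j k l ∘ cM i j) x =
      (mfderiv 𝓘(ℝ, U4) 𝓘(ℝ, U4) (Tm i j k l) (cM i j x)).comp
        (mfderiv (𝓡 4) 𝓘(ℝ, U4) (cM i j) x) :=
    mfderiv_comp x (diff_Tm hy).mdifferentiableAt (mdiff_chM h1)
  have h4 : (Tm i j k l ∘ cM i j) =ᶠ[𝓝 x] cM k l := by
    filter_upwards [(isOpen_DM i j).mem_nhds h1] with z hz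
    show ch k l (ps i j (ch i j z.1)) = ch k l z.1
    rw [s_q0.ps_ch i j z.1 z.2 hz]
  rw [h4.mfderiv_eq, mfderiv_eq_fderiv] at h3
  have h5 := congrArg (fun L => L v) h3
  exact h5

theorem sgn_eq (i j : Fin 2) : sgn i j = -4 * kap i j := by
  unfold sgn kap
  split_ifs <;> norm_num

theorem dt_trans {i j k l : Fin 2} {x : M} (h1 : x ∈ DM i j) (h2 : x ∈ DM k l)
    (v : Fin 4 → TangentSpace (𝓡 4) x) :
    sgn i j * Dt (fun a => dm (cM i j) x (v a)) = sgn k l * Dt (fun a => dm (cM k l) x (v a)) := by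
  have hy : cM i j x ∈ SS i j k l := by
    refine ⟨chM_mem h1, ?_⟩
    show ps i j (ch i j x.1) ∈ OO k l
    rw [s_q0.ps_ch i j x.1 x.2 h1]
    exact h2
  have h3 := det_all hy (fun a => dm (cM i j) x (v a))
  rw [sgn_eq, sgn_eq, mul_assoc, mul_assoc, h3]
  simp only [dm_trans h1 h2]

/-- the orientation form -/
def Omf : DF (𝓡 4) M 4 := fun x v => sgn (ci x) (cj x) * Dt (fun a => dm (cM (ci x) (cj x)) x (v a))

theorem Omf_eq {i j : Fin 2} {x : M} (hx : x ∈ DM i j) (v : Fin 4 → TangentSpace (𝓡 4) x) :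
    Omf x v = sgn i j * Dt (fun a => dm (cM i j) x (v a)) :=
  dt_trans (mem_cij x) hx v

/-- the coordinates of the differential of a chart -/
def dml (i j : Fin 2) (x : M) : TangentSpace (𝓡 4) x →ₗ[ℝ] (Fin 4 → ℝ) where
  toFun v := fun b => dm (cM i j) x v b
  map_add' v w := by
    funext b
    unfold dm
    rw [map_add]
    rfl
  map_smul' r v := by
    funext b
    unfold dm
    rw [map_smul]
    rfl

theorem Omf_form : IsForm Omf := by
  constructor
  · intro x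
    refine ⟨sgn (ci x) (cj x) • (Matrix.detRowAlternating (n := Fin 4) (R := ℝ)).compLinearMap
      (dml (ci x) (cj x) x), fun v => ?_⟩
    rfl
  · intro Y hY x₀
    obtain ⟨i, j, hx⟩ := exists_DM x₀
    have h1 : ContMDiffOn (𝓡 4) 𝓘(ℝ, ℝ) ∞ (fun x => sgn i j *
        Dt (fun a => dm (cM i j) x (Y a x))) (DM i j) := by
      have h2 : ContMDiffOn (𝓡 4) 𝓘(ℝ, Fin 4 → U4) ∞
          (fun x => (fun a => dm (cM i j) x (Y a x) : Fin 4 → U4)) (DM i j) :=
        contMDiffOn_pi_space.2 fun a => Qt1.smooth_dm (parM i j) (hY a)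
      exact (contDiff_const.mul contDiff_Dt).contMDiff.comp_contMDiffOn h2
    have h3 : ContMDiffOn (𝓡 4) 𝓘(ℝ, ℝ) ∞ (fun x => Omf x (fun a => Y a x)) (DM i j) :=
      h1.congr fun x hx => Omf_eq hx _
    exact h3.contMDiffAt ((isOpen_DM i j).mem_nhds hx)

end Om

/-- the orientation of `M` -/
theorem s_om : S_OM := ⟨Om.Omf, Om.Omf_form, fun _ _ _ hx v => Om.Omf_eq hx v⟩

end Pool.Agent.H781.CM.Q
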