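import Pool.Agent.H781.CM.QG
import Pool.Graph.R_seed8.H907R2.HO.Mario
import Pool.Graph.R_seed8.H893R5.HO.EmbField

/-!
Nonnegative sectional curvature passes to the base of a Riemannian submersion (helper828).
-/

open Bundle Manifold ContDiff ContinuousLinearMap Filter VectorField
open scoped Topology

set_option autoImplicit false
set_option synthInstance.maxHeartbeats 400000
set_option maxHeartbeats 4000000
set_option linter.unusedSectionVars false

noncomputable section

namespace Pool.Agent.H781.CM.Q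

namespace Onl

open Pool.Agent.H821R2 Pool.Agent.H821R3 Pool.Agent.H893R5.HO

variable {E : Type*} [NormedAddCommGroup E] [NormedSpace ℝ E] [FiniteDimensional ℝ E]
  {H : Type*} [TopologicalSpace H] {I : ModelWithCorners ℝ E H}
  {M : Type*} [TopologicalSpace M] [ChartedSpace H M] [IsManifold I ∞ M]

/-- one-forms to vector fields -/
theorem smooth_sharp (g : ContMDiffRiemannianMetric I ∞ E (fun x : M => TangentSpace I x))
    {φ : Π x : M, TangentSpace I x →L[ℝ] ℝ}
    (hφ : ContMDiff I (I.prod 𝓘(ℝ, E →L[ℝ] ℝ)) ∞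
      (fun x : M => TotalSpace.mk' (E →L[ℝ] ℝ)
        (E := fun x : M => TangentSpace I x →L[ℝ] Bundle.Trivial M ℝ x) x (φ x)))
    {X : Π x : M, TangentSpace I x} (hX : ∀ x v, g.inner x (X x) v = φ x v) : SmV X := by
  intro x₀
  rw [contMDiffAt_section]
  have hG := ((contMDiffAt_hom_bundle _).1 (g.contMDiff x₀)).2
  have hF := ((contMDiffAt_hom_bundle _).1 (hφ x₀)).2
  set G : M → E →L[ℝ] (E →L[ℝ] ℝ) := fun x => inCoordinates E (TangentSpace I : M → Type _)
    (E →L[ℝ] ℝ) (fun x : M => TangentSpace I x →L[ℝ] ℝ) x₀ x x₀ x (g.inner x) with hGdef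
  set F : M → (E →L[ℝ] ℝ) := fun x => inCoordinates E (TangentSpace I : M → Type _) ℝ
    (Bundle.Trivial M ℝ) x₀ x x₀ x (φ x) with hFdef
  have hb : ∀ᶠ x in 𝓝 x₀, x ∈ (trivializationAt E (TangentSpace I) x₀).baseSet :=
    (trivializationAt E (TangentSpace I) x₀).open_baseSet.mem_nhds
      (mem_baseSet_trivializationAt E (TangentSpace I) x₀)
  have hFv : ∀ x, ∀ v : E, F x v = φ x
      ((trivializationAt E (TangentSpace I) x₀).symmL ℝ x v) := by
    intro x v
    exact congrArg (fun L : ℝ →L[ℝ] ℝ => L ((φ x)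
      ((Trivialization.symmL ℝ (trivializationAt E (TangentSpace I) x₀) x) v)))
      (Bundle.Trivial.continuousLinearMapAt_trivialization ℝ M ℝ x)
  have hGv : ∀ x, x ∈ (trivializationAt E (TangentSpace I) x₀).baseSet → ∀ v w : E,
      G x v w = g.inner x ((trivializationAt E (TangentSpace I) x₀).symmL ℝ x v)
        ((trivializationAt E (TangentSpace I) x₀).symmL ℝ x w) := by
    intro x hx v w
    have hx' : x ∈ (trivializationAt (E →L[ℝ] ℝ)
        (fun x : M => TangentSpace I x →L[ℝ] Bundle.Trivial M ℝ x) x₀).baseSet := by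
      rw [hom_trivializationAt_baseSet]
      exact ⟨hx, Set.mem_univ _⟩
    have h1 : G x v = ((trivializationAt (E →L[ℝ] ℝ)
        (fun x : M => TangentSpace I x →L[ℝ] Bundle.Trivial M ℝ x) x₀).continuousLinearMapAt ℝ x)
        (g.inner x ((trivializationAt E (TangentSpace I) x₀).symmL ℝ x v)) := rfl
    rw [h1, Trivialization.continuousLinearMapAt_apply,
      Trivialization.coe_linearMapAt_of_mem _ hx']
    exact congrArg (fun L : ℝ →L[ℝ] ℝ => L ((g.inner x
      ((trivializationAt E (TangentSpace I) x₀).symmL ℝ x v))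
      ((Trivialization.symmL ℝ (trivializationAt E (TangentSpace I) x₀) x) w)))
      (Bundle.Trivial.continuousLinearMapAt_trivialization ℝ M ℝ x)
  have hG' : ContMDiffAt I 𝓘(ℝ, E →L[ℝ] (E →L[ℝ] ℝ)) ∞ G x₀ := hG
  have hF' : ContMDiffAt I 𝓘(ℝ, E →L[ℝ] ℝ) ∞ F x₀ := hF
  have hinj : ∀ x, x ∈ (trivializationAt E (TangentSpace I) x₀).baseSet →
      Function.Injective (G x) := by
    intro x hx v w hvw
    by_contra hne
    have h0 : G x (v - w) = 0 := by rw [map_sub, hvw, sub_self]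
    have h1 : G x (v - w) (v - w) = 0 := by rw [h0]; rfl
    rw [hGv x hx] at h1
    have h2 : (trivializationAt E (TangentSpace I) x₀).symmL ℝ x (v - w) ≠ 0 := by
      intro h3
      have h4 := congrArg ((trivializationAt E (TangentSpace I) x₀).continuousLinearMapAt ℝ x) h3
      rw [(trivializationAt E (TangentSpace I) x₀).continuousLinearMapAt_symmL hx, map_zero] at h4
      exact hne (sub_eq_zero.1 h4)
    exact (g.pos x _ h2).ne' h1
  have hsol : ∀ x, x ∈ (trivializationAt E (TangentSpace I) x₀).baseSet →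
      G x ((trivializationAt E (TangentSpace I) x₀ ⟨x, X x⟩).2) = F x := by
    intro x hx
    ext w
    have h1 : (trivializationAt E (TangentSpace I) x₀).symmL ℝ x
        ((trivializationAt E (TangentSpace I) x₀ ⟨x, X x⟩).2) = X x := by
      have h2 := (trivializationAt E (TangentSpace I) x₀).symmL_continuousLinearMapAt (R := ℝ) hx (X x)
      rw [Bundle.Trivialization.continuousLinearMapAt_apply,
        Bundle.Trivialization.coe_linearMapAt_of_mem _ hx] at h2
      exact h2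
    rw [hGv x hx, h1, hX, hFv]
  have hx0 := mem_baseSet_trivializationAt E (TangentSpace I) x₀
  have heq : ∀ x, x ∈ (trivializationAt E (TangentSpace I) x₀).baseSet →
      ∃ e : E ≃L[ℝ] (E →L[ℝ] ℝ), (e : E →L[ℝ] (E →L[ℝ] ℝ)) = G x :=
    fun x hx => exists_equiv_of_inj finrank_dual (G x) (hinj x hx)
  have hs : ContMDiffAt I 𝓘(ℝ, E) ∞
      (fun x => ContinuousLinearMap.inverse (G x) (F x)) x₀ := by
    obtain ⟨e, he⟩ := heq x₀ hx0
    have h4 := contDiffAt_map_inverse (𝕜 := ℝ) (n := ∞) e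
    rw [he] at h4
    have h5 : ContMDiffAt I 𝓘(ℝ, (E →L[ℝ] ℝ) →L[ℝ] E) ∞
        (fun x => ContinuousLinearMap.inverse (G x)) x₀ :=
      ContDiffAt.comp_contMDiffAt (g := ContinuousLinearMap.inverse) (f := G) h4 hG'
    exact h5.clm_apply hF'
  refine hs.congr_of_eventuallyEq ?_
  filter_upwards [hb] with x hx
  obtain ⟨e, he⟩ := heq x hx
  have h6 := hsol x hx
  rw [← he] at h6 ⊢
  rw [ContinuousLinearMap.inverse_equiv, ← h6]
  simp

/-- the gradient of a smooth function -/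
theorem exists_grad (g : ContMDiffRiemannianMetric I ∞ E (fun x : M => TangentSpace I x))
    {u : M → ℝ} (hu : Sm I u) : ∃ X : Π x : M, TangentSpace I x, SmV X ∧ H907H.IsGrad g X u := by
  have hex : ∀ x : M, ∃ v : TangentSpace I x, ∀ z, g.inner x v z = d% u x z := by
    intro x
    have hinj : Function.Injective (g.inner x) := by
      intro v w hvw
      by_contra hne
      have h0 : g.inner x (v - w) = 0 := by rw [map_sub, hvw, sub_self]
      have h1 : g.inner x (v - w) (v - w) = 0 := by rw [h0]; rfl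
      exact (g.pos x _ (sub_ne_zero.2 hne)).ne' h1
    obtain ⟨e, he⟩ := exists_equiv_of_inj (E := E) (F := E →L[ℝ] ℝ) finrank_dual
      (show E →L[ℝ] (E →L[ℝ] ℝ) from g.inner x) hinj
    refine ⟨e.symm (show E →L[ℝ] ℝ from d% u x), fun z => ?_⟩
    have h2 : (e : E →L[ℝ] (E →L[ℝ] ℝ)) (e.symm (show E →L[ℝ] ℝ from d% u x)) =
        (show E →L[ℝ] ℝ from d% u x) := e.apply_symm_apply _
    rw [he] at h2
    exact congrArg (fun L : E →L[ℝ] ℝ => L z) h2
  choose X hX using hex
  exact ⟨X, smooth_sharp g (contMDiff_dSec hu) hX, hX⟩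

/-- functions with a prescribed differential at a point -/
theorem exists_fun [T2Space M] (x : M) (l : TangentSpace I x →L[ℝ] ℝ) :
    ∃ u : M → ℝ, Sm I u ∧ ∀ z, d% u x z = l z := by
  have hne : Nonempty (SmoothBumpFunction I x) := inferInstance
  obtain ⟨b⟩ := hne
  let l' : E →L[ℝ] ℝ := l
  have h1 : ContMDiffOn I 𝓘(ℝ, ℝ) ∞ (fun y => l' (extChartAt I x y)) (chartAt H x).source := by
    have h2 : ContMDiffOn I 𝓘(ℝ, E) ∞ (extChartAt I x) (chartAt H x).source :=
      contMDiffOn_extChartAt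
    exact (l'.contMDiff).comp_contMDiffOn h2
  refine ⟨fun y => b y • l' (extChartAt I x y), b.contMDiff_smul h1, fun z => ?_⟩
  have h3 : (fun y => b y • l' (extChartAt I x y)) =ᶠ[𝓝 x] fun y => l' (extChartAt I x y) := by
    filter_upwards [b.eventuallyEq_one] with y hy
    rw [hy]
    simp
  have h4 : mfderiv I 𝓘(ℝ, ℝ) (fun y => b y • l' (extChartAt I x y)) x =
      mfderiv I 𝓘(ℝ, ℝ) (fun y => l' (extChartAt I x y)) x := h3.mfderiv_eq
  have h5 : MDifferentiableAt I 𝓘(ℝ, E) (extChartAt I x) x :=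
    mdifferentiableAt_extChartAt (mem_chart_source H x)
  have h6 : mfderiv I 𝓘(ℝ, ℝ) (fun y => l' (extChartAt I x y)) x =
      (mfderiv 𝓘(ℝ, E) 𝓘(ℝ, ℝ) l' (extChartAt I x x)).comp
        (mfderiv I 𝓘(ℝ, E) (extChartAt I x) x) :=
    mfderiv_comp x (l'.mdifferentiableAt) h5
  have h8 : mfderiv 𝓘(ℝ, E) 𝓘(ℝ, ℝ) l' (extChartAt I x x) = l' := by
    rw [mfderiv_eq_fderiv]
    exact l'.fderiv
  have h9 : mfderiv I 𝓘(ℝ, ℝ) (fun y => b y • l' (extChartAt I x y)) x = l := by
    rw [h4, h6, h8, mfderiv_extChartAt_self]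
    rfl
  exact congrArg (fun L : TangentSpace I x →L[ℝ] ℝ => L z) h9

end Onl

namespace Onl

open Pool.Agent.H821R2 Pool.Agent.H821R3 Pool.Agent.H893R5.HO Pool.Agent.H839R2.RS H907H

section sub

variable {E : Type*} [NormedAddCommGroup E] [NormedSpace ℝ E] [FiniteDimensional ℝ E]
  {H : Type*} [TopologicalSpace H] {I : ModelWithCorners ℝ E H}
  {P : Type*} [TopologicalSpace P] [ChartedSpace H P] [IsManifold I ∞ P]
  {E' : Type*} [NormedAddCommGroup E'] [NormedSpace ℝ E'] [FiniteDimensional ℝ E']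
  {H' : Type*} [TopologicalSpace H'] {I' : ModelWithCorners ℝ E' H'}
  {B : Type*} [TopologicalSpace B] [ChartedSpace H' B] [IsManifold I' ∞ B]
  {g : ContMDiffRiemannianMetric I ∞ E (fun x : P => TangentSpace I x)}
  {h : ContMDiffRiemannianMetric I' ∞ E' (fun x : B => TangentSpace I' x)} {f : P → B}

/-- nondegeneracy -/
theorem nondeg (h : ContMDiffRiemannianMetric I' ∞ E' (fun x : B => TangentSpace I' x)) (x : B)
    {v w : TangentSpace I' x} (hvw : ∀ z, h.inner x v z = h.inner x w z) : v = w := by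
  by_contra hne
  have h2 : h.inner x (v - w) = 0 := by
    rw [map_sub, sub_eq_zero]
    ext z
    exact hvw z
  have h0 : h.inner x (v - w) (v - w) = 0 := by
    rw [h2]
    rfl
  exact (h.pos x _ (sub_ne_zero.2 hne)).ne' h0

/-- the chain rule -/
theorem d_comp (hf : ContMDiff I I' ∞ f) {u : B → ℝ} (hu : Sm I' u) (p : P)
    (z : TangentSpace I p) : d% (fun q => u (f q)) p z = d% u (f p) (mfderiv I I' f p z) := by
  have h1 : MDifferentiableAt I' 𝓘(ℝ, ℝ) u (f p) := hu.mdiff (f p)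
  have h2 : MDifferentiableAt I I' f p := (hf p).mdifferentiableAt (by simp)
  have h3 : mfderiv I 𝓘(ℝ, ℝ) (u ∘ f) p = (mfderiv I' 𝓘(ℝ, ℝ) u (f p)).comp (mfderiv I I' f p) :=
    mfderiv_comp p h1 h2
  exact congrArg (fun L : TangentSpace I p →L[ℝ] ℝ => L z) h3

/-- a vector representing a pulled back form -/
theorem hor_of (hs : IsRiemannianSubmersion g h f) (p : P) {a' : TangentSpace I p}
    {a : TangentSpace I' (f p)}
    (hh : ∀ z, g.inner p a' z = h.inner (f p) a (mfderiv I I' f p z)) :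
    IsHorizontal g I' f p a' ∧ mfderiv I I' f p a' = a := by
  have h1 : IsHorizontal g I' f p a' := by
    intro k hk
    rw [hh, hk, map_zero]
  refine ⟨h1, nondeg h (f p) fun w => ?_⟩
  obtain ⟨v, hv, rfl⟩ := hs.onto p w
  rw [hs.isometry p a' v h1 hv, hh]

/-- vectors above -/
theorem norm_ge (hs : IsRiemannianSubmersion g h f) (p : P) (z : TangentSpace I p) :
    h.inner (f p) (mfderiv I I' f p z) (mfderiv I I' f p z) ≤ g.inner p z z := by
  obtain ⟨v, hv, hvz⟩ := hs.onto p (mfderiv I I' f p z)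
  have hk : mfderiv I I' f p (z - v) = 0 := by rw [map_sub, hvz, sub_self]
  have h1 : g.inner p v (z - v) = 0 := hv _ hk
  have h2 : g.inner p (z - v) v = 0 := by rw [g.symm]; exact h1
  have h3 : g.inner p z z = g.inner p v v + g.inner p (z - v) (z - v) := by
    have e : z = v + (z - v) := by abel
    have e2 : g.inner p z z = g.inner p (v + (z - v)) (v + (z - v)) := by rw [← e]
    have e3 : g.inner p (v + (z - v)) = g.inner p v + g.inner p (z - v) := map_add _ _ _
    rw [e2, e3, add_apply, map_add, map_add, h1, h2]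
    ring
  have h4 : 0 ≤ g.inner p (z - v) (z - v) := by
    by_cases h5 : z - v = 0
    · rw [h5, map_zero]
    · exact (g.pos p _ h5).le
  have h5 := hs.isometry p v v hv hv
  rw [hvz] at h5
  rw [h5, h3]
  linarith

end sub

end Onl

open Pool.Agent.H821R2 Pool.Agent.H821R3 Pool.Agent.H893R5.HO Pool.Agent.H839R2.RS H907H

theorem s_oneill : S_ONEILL := by
  intro E _ _ _ _ H _ I P _ _ _ _ _ E' _ _ _ _ H' _ I' B _ _ _ _ _ g h f hs hP cov' R' hc' hR' x
    u₀ v₀
  obtain ⟨cov, R, hc, hR, hsec⟩ := hP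
  obtain ⟨p, hp⟩ := hs.surjective x
  subst hp
  obtain ⟨u, hu, hu0⟩ := Onl.exists_fun (f p) (h.inner (f p) u₀)
  obtain ⟨w, hw, hw0⟩ := Onl.exists_fun (f p) (h.inner (f p) v₀)
  obtain ⟨X, hX, hXu⟩ := Onl.exists_grad h hu
  obtain ⟨Y, hY, hYw⟩ := Onl.exists_grad h hw
  have hXp : X (f p) = u₀ := Onl.nondeg h (f p) fun z => by rw [hXu, hu0]
  have hYp : Y (f p) = v₀ := Onl.nondeg h (f p) fun z => by rw [hYw, hw0]
  have hcomp : ∀ {F : B → ℝ}, Sm I' F → Sm I (fun q => F (f q)) := fun hF => hF.comp hs.smooth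
  obtain ⟨Xb, hXb, hXbu⟩ := Onl.exists_grad g (hcomp hu)
  obtain ⟨Yb, hYb, hYbw⟩ := Onl.exists_grad g (hcomp hw)
  have hXd : ∀ q, IsHorizontal g I' f q (Xb q) ∧ mfderiv I I' f q (Xb q) = X (f q) := fun q =>
    Onl.hor_of hs q fun z => by rw [hXbu, Onl.d_comp hs.smooth hu, hXu]
  have hYd : ∀ q, IsHorizontal g I' f q (Yb q) ∧ mfderiv I I' f q (Yb q) = Y (f q) := fun q =>
    Onl.hor_of hs q fun z => by rw [hYbw, Onl.d_comp hs.smooth hw, hYw]
  -- products
  have hXX : gi g Xb Xb = fun q => gi h X X (f q) := by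
    ext q
    rw [gi_apply, ← hs.isometry q _ _ (hXd q).1 (hXd q).1, (hXd q).2, gi_apply]
  have hYY : gi g Yb Yb = fun q => gi h Y Y (f q) := by
    ext q
    rw [gi_apply, ← hs.isometry q _ _ (hYd q).1 (hYd q).1, (hYd q).2, gi_apply]
  have hXY : gi g Xb Yb = fun q => gi h X Y (f q) := by
    ext q
    rw [gi_apply, ← hs.isometry q _ _ (hXd q).1 (hYd q).1, (hXd q).2, (hYd q).2, gi_apply]
  have sXX : Sm I' (gi h X X) := gi_smooth hX hX
  have sYY : Sm I' (gi h Y Y) := gi_smooth hY hY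
  have sXY : Sm I' (gi h X Y) := gi_smooth hX hY
  -- derivatives
  have dX : ∀ {F : B → ℝ}, Sm I' F → der Xb (fun q => F (f q)) = fun q => der X F (f q) := by
    intro F hF
    ext q
    rw [der_apply, Onl.d_comp hs.smooth hF, (hXd q).2, der_apply]
  have dY : ∀ {F : B → ℝ}, Sm I' F → der Yb (fun q => F (f q)) = fun q => der Y F (f q) := by
    intro F hF
    ext q
    rw [der_apply, Onl.d_comp hs.smooth hF, (hYd q).2, der_apply]
  -- gradients of the products
  obtain ⟨A1, -, hA1⟩ := Onl.exists_grad h sXX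
  obtain ⟨A2, -, hA2⟩ := Onl.exists_grad h sYY
  obtain ⟨A3, -, hA3⟩ := Onl.exists_grad h sXY
  obtain ⟨A1', -, hA1'⟩ := Onl.exists_grad g (hcomp sXX)
  obtain ⟨A2', -, hA2'⟩ := Onl.exists_grad g (hcomp sYY)
  obtain ⟨A3', -, hA3'⟩ := Onl.exists_grad g (hcomp sXY)
  have hd1 := Onl.hor_of hs p (a' := A1' p) (a := A1 (f p)) fun z => by
    rw [hA1', Onl.d_comp hs.smooth sXX, hA1]
  have hd2 := Onl.hor_of hs p (a' := A2' p) (a := A2 (f p)) fun z => by
    rw [hA2', Onl.d_comp hs.smooth sYY, hA2]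
  have hd3 := Onl.hor_of hs p (a' := A3' p) (a := A3 (f p)) fun z => by
    rw [hA3', Onl.d_comp hs.smooth sXY, hA3]
  have i12 : g.inner p (A1' p) (A2' p) = h.inner (f p) (A1 (f p)) (A2 (f p)) := by
    rw [← hs.isometry p _ _ hd1.1 hd2.1, hd1.2, hd2.2]
  have i33 : g.inner p (A3' p) (A3' p) = h.inner (f p) (A3 (f p)) (A3 (f p)) := by
    rw [← hs.isometry p _ _ hd3.1 hd3.1, hd3.2]
  -- the bracket
  have hbr : mfderiv I I' f p (mlieBracket I Xb Yb p) = mlieBracket I' X Y (f p) := by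
    refine Onl.nondeg h (f p) fun z => ?_
    obtain ⟨ψ, hψ, hψz⟩ := Onl.exists_fun (f p) (h.inner (f p) z)
    have e1 := comm_fun (hcomp hψ) hXb hYb (Sm.der hXb (hcomp hψ)) (Sm.der hYb (hcomp hψ)) p
    have e2 := comm_fun hψ hX hY (Sm.der hX hψ) (Sm.der hY hψ) (f p)
    have e3 : d% (der Yb (fun q => ψ (f q))) p (Xb p) - d% (der Xb (fun q => ψ (f q))) p (Yb p) =
        d% (fun q => ψ (f q)) p (mlieBracket I Xb Yb p) := e1
    have e4 : d% (der Y ψ) (f p) (X (f p)) - d% (der X ψ) (f p) (Y (f p)) =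
        d% ψ (f p) (mlieBracket I' X Y (f p)) := e2
    rw [dX hψ, dY hψ, Onl.d_comp hs.smooth (Sm.der hY hψ), Onl.d_comp hs.smooth (Sm.der hX hψ),
      (hXd p).2, (hYd p).2, e4, Onl.d_comp hs.smooth hψ, hψz, hψz] at e3
    rw [h.symm, ← e3, h.symm]
  have hn := Onl.norm_ge hs p (mlieBracket I Xb Yb p)
  rw [hbr] at hn
  -- Mario's formula
  have m1 := mario hc' hR' hX hY hu hw hXu hYw (f p) (a := A1 (f p)) (b := A2 (f p))
    (c := A3 (f p)) (fun z => hA1 (f p) z) (fun z => hA2 (f p) z) (fun z => hA3 (f p) z)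
  have m2 := mario hc hR hXb hYb (hcomp hu) (hcomp hw) hXbu hYbw p (a := A1' p) (b := A2' p)
    (c := A3' p) (fun z => by rw [hXX]; exact hA1' p z) (fun z => by rw [hYY]; exact hA2' p z)
    (fun z => by rw [hXY]; exact hA3' p z)
  rw [hXX, hYY, hXY, dX sYY, dX (Sm.der hX sYY), dY sXX, dY (Sm.der hY sXX), dY sXY,
    dX (Sm.der hY sXY), dX sXY, dY (Sm.der hX sXY), i12, i33] at m2
  have m3 := hsec p (Xb p) (Yb p)
  rw [hXp, hYp] at m1
  rw [m1]
  rw [m2] at m3
  linarith

end Pool.Agent.H781.CM.Q
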