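import Pool.Agent.H781.CM.Base

/-!
Uniform Poincaré inequality from the gradient estimate and the spectral theorem.
-/

set_option autoImplicit false
set_option synthInstance.maxHeartbeats 400000
set_option maxHeartbeats 4000000
set_option linter.unusedSectionVars false

open MeasureTheory Filter
open scoped Topology ContDiff

noncomputable section

namespace Pool.Agent.H781.CM

open Pool.Agent.H781.NG

namespace Poi

section alg
variable {N : ℕ} {A : Type*} [CommRing A] [Algebra ℝ A] (F : Fr N A)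

theorem an_fvac (f : A) (i : Fin N) : an i (f • (vac : Fk N A)) = 0 := by
  rw [map_smul, an_vac, smul_zero]

theorem gam_vac (a : Fin N) : gam F a (vac : Fk N A) = 0 := by
  unfold gam
  simp only [an_vac, map_zero, smul_zero, Finset.sum_const_zero]

theorem ee_vac (a : Fin N) : Boch.ee F a (vac : Fk N A) = 0 := by
  funext S
  simp only [Boch.ee, vac, Pi.zero_apply]
  split_ifs
  · exact Derivation.map_one_eq_zero _
  · exact map_zero _

theorem nab_vac (a : Fin N) : nab F a (vac : Fk N A) = 0 := by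
  rw [Boch.nab_def, ee_vac, gam_vac, add_zero]

theorem nab_smul (a : Fin N) (f : A) (u : Fk N A) :
    nab F a (f • u) = F.e a f • u + f • nab F a u := by
  rw [Boch.nab_def, Boch.nab_def, Boch.ee_smul, Boch.gam_smul, smul_add, add_assoc]

theorem nab_fvac (a : Fin N) (f : A) : nab F a (f • (vac : Fk N A)) = F.e a f • vac := by
  rw [nab_smul, nab_vac, smul_zero, add_zero]

theorem dd_fvac (f : A) : dd F (f • (vac : Fk N A)) = ∑ a, F.e a f • cr a vac := by
  unfold dd
  exact Finset.sum_congr rfl fun a _ => by rw [nab_fvac, map_smul]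

theorem de_fvac (f : A) : de F (f • (vac : Fk N A)) = 0 := by
  unfold de
  rw [Finset.sum_eq_zero, neg_zero]
  intro a _
  rw [nab_fvac, an_fvac]

theorem an_cr_vac (a b : Fin N) : an a (cr b (vac : Fk N A)) = if a = b then vac else 0 := by
  rw [an_cr, an_vac, map_zero, sub_zero]

theorem ip_vac_left (u : Fk N A) : ip vac u = u ∅ := by
  unfold ip vac
  simp

theorem ip_vac_right (u : Fk N A) : ip u vac = u ∅ := by
  rw [ip_comm, ip_vac_left]

theorem vac_empty : (vac : Fk N A) ∅ = 1 := by
  unfold vac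
  rw [if_pos rfl]

theorem ip_cr_vac (a b : Fin N) :
    ip (cr a (vac : Fk N A)) (cr b vac) = if a = b then 1 else 0 := by
  rw [ip_cr, an_cr_vac]
  split_ifs
  · rw [ip_vac_left, vac_empty]
  · rw [ip_zero_right]

theorem nab_cr_vac (a b : Fin N) :
    nab F a (cr b (vac : Fk N A)) = ∑ c, F.Γ a b c • cr c vac := by
  rw [Boch.nab_cr, nab_vac, map_zero, zero_add]

theorem nab_sum {κ : Type*} (a : Fin N) (s : Finset κ) (f : κ → Fk N A) :
    nab F a (∑ k ∈ s, f k) = ∑ k ∈ s, nab F a (f k) := by
  rw [Boch.nab_def, Boch.ee_sum, Boch.gam_sum, ← Finset.sum_add_distrib]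
  rfl

/-- the codifferential of the differential of a function -/
theorem de_dd (f : A) : de F (∑ a, F.e a f • cr a (vac : Fk N A)) =
    - ((∑ a, F.e a (F.e a f) - ∑ a, ∑ c, F.Γ a a c * F.e c f) • vac) := by
  have h1 : ∀ b, an b (nab F b (∑ a, F.e a f • cr a (vac : Fk N A))) =
      (F.e b (F.e b f) + ∑ a, F.e a f * F.Γ b a b) • vac := by
    intro b
    rw [nab_sum, map_sum]
    have h2 : ∀ a, an b (nab F b (F.e a f • cr a (vac : Fk N A))) =
        (if b = a then F.e b (F.e a f) else 0) • (vac : Fk N A) + (F.e a f * F.Γ b a b) • vac := by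
      intro a
      rw [nab_smul, nab_cr_vac, map_add, map_smul, map_smul, map_sum, an_cr_vac]
      have h3 : ∀ c, an b (F.Γ b a c • cr c (vac : Fk N A)) =
          if b = c then F.Γ b a c • (vac : Fk N A) else 0 := by
        intro c
        rw [map_smul, an_cr_vac]
        split_ifs
        · rfl
        · rw [smul_zero]
      simp only [h3]
      rw [Finset.sum_ite_eq, if_pos (Finset.mem_univ b), smul_smul]
      congr 1
      split_ifs
      · rfl
      · rw [smul_zero, zero_smul]
    simp only [h2]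
    rw [Finset.sum_add_distrib, ← Finset.sum_smul, ← Finset.sum_smul, ← add_smul,
      Finset.sum_ite_eq, if_pos (Finset.mem_univ b)]
  unfold de
  simp only [h1]
  rw [← Finset.sum_smul, Finset.sum_add_distrib]
  congr 2
  rw [sub_eq_add_neg]
  congr 1
  rw [← Finset.sum_neg_distrib]
  refine Finset.sum_congr rfl fun a _ => ?_
  rw [← Finset.sum_neg_distrib]
  refine Finset.sum_congr rfl fun c _ => ?_
  rw [F.anti a a c]
  ring

end alg

variable {M : Type} [TopologicalSpace M] [CompactSpace M] [MeasurableSpace M] [BorelSpace M]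
  {N : ℕ} (C : CD M N)

theorem hor_fvac (f : C.A) : Hor C (f • (vac : Fk N C.A)) := by
  intro c
  simp only [an_fvac, smul_zero, Finset.sum_const_zero]

theorem DD_fvac (f : C.A) : DD C (f • (vac : Fk N C.A)) = ∑ a, C.F.e a f • cr a vac := by
  unfold DD
  rw [dd_fvac, de_fvac, add_zero]

theorem nq_DD_fvac (f : C.A) : nq C (DD C (f • (vac : Fk N C.A))) = ig C (gsq C f) := by
  rw [DD_fvac]
  unfold nq gsq
  congr 1
  rw [ip_sum_left]
  refine Finset.sum_congr rfl fun a _ => ?_
  rw [ip_sum_right]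
  have h : ∀ b, ip (C.F.e a f • cr a (vac : Fk N C.A)) (C.F.e b f • cr b vac) =
      if a = b then C.F.e a f * C.F.e b f else 0 := by
    intro b
    rw [ip_smul_left, ip_smul_right, ip_cr_vac]
    split_ifs
    · rw [mul_one]
    · rw [mul_zero, mul_zero]
  simp only [h]
  rw [Finset.sum_ite_eq, if_pos (Finset.mem_univ a)]

theorem DDDD_fvac (h3 : S_DDH) (f : C.A) :
    DD C (DD C (f • (vac : Fk N C.A))) = -(Lap C f • vac) := by
  obtain ⟨-, -, -, -, -, -, -, hdd, -⟩ := h3 M N C
  have h1 := hdd _ (hor_fvac C f)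
  rw [dd_fvac] at h1
  rw [DD_fvac]
  unfold DD
  rw [h1, zero_add, de_dd]
  unfold Lap Hs
  rw [Finset.sum_sub_distrib]

theorem pr_fvac (u : Fk N C.A) (g : C.A) : pr C u (g • vac) = ig C (g * u ∅) := by
  unfold pr
  rw [ip_smul_right, ip_vac_right]

/-- the function part of an eigenform is an eigenfunction -/
theorem eigen (h3 : S_DDH) {u : Fk N C.A} {l : ℝ} (hu : DD C (DD C u) = l • u) :
    Lap C (u ∅) = -(l • u ∅) := by
  obtain ⟨-, -, -, -, -, -, -, -, -, -, hsym, -, -⟩ := h3 M N C
  set f := u ∅ with hf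
  have h1 : ∀ g : C.A, l * ig C (g * f) = - ig C (Lap C g * f) := by
    intro g
    have e1 : pr C (DD C (DD C u)) (g • vac) = l * ig C (g * f) := by
      rw [hu, pr_smul_left, pr_fvac]
    have e2 : pr C (DD C (DD C u)) (g • vac) = - ig C (Lap C g * f) := by
      rw [hsym, hsym, DDDD_fvac C h3, pr_neg_right, pr_fvac]
    rw [← e1, e2]
  have h2 : ∀ g : C.A, ig C (Lap C g * f) = ig C (Lap C f * g) := by
    intro g
    have e1 : pr C (DD C (DD C (f • vac))) (g • vac) = - ig C (Lap C f * g) := by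
      rw [DDDD_fvac C h3, pr_neg_left, pr_fvac]
      simp only [Pi.smul_apply, smul_eq_mul, vac_empty, mul_one]
      rw [mul_comm]
    have e2 : pr C (DD C (DD C (f • vac))) (g • vac) = - ig C (Lap C g * f) := by
      rw [hsym, hsym, DDDD_fvac C h3, pr_neg_right, pr_fvac]
      simp only [Pi.smul_apply, smul_eq_mul, vac_empty, mul_one]
    rw [e1] at e2
    exact (neg_injective e2).symm
  have h4 : ∀ g : C.A, ig C (g * (Lap C f + l • f)) = 0 := by
    intro g
    have e : g * (Lap C f + l • f) = Lap C f * g + l • (g * f) := by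
      rw [mul_add, mul_comm g, mul_smul_comm]
    rw [e, ig_add, ig_smul, h1, h2]
    ring
  have h5 := h4 (Lap C f + l • f)
  have h6 := ig_eq_zero C (fun p => by rw [map_mul]; exact mul_self_nonneg _) h5
  have h7 : Lap C f + l • f = 0 := by
    refine C.ext_ev _ _ fun p => ?_
    have := congrArg (C.ev p) h6
    rw [map_mul, map_zero] at this
    rw [map_zero]
    exact mul_self_eq_zero.1 this
  exact eq_neg_of_add_eq_zero_left h7

theorem const_of_gsq (hD : DiamOne C) {f : C.A} (h : ig C (gsq C f) = 0) :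
    ∃ c : ℝ, f = cs C c := by
  have h1 : gsq C f = 0 := by
    refine ig_eq_zero C (fun p => ?_) h
    unfold gsq
    rw [ev_sum]
    exact Finset.sum_nonneg fun a _ => by rw [map_mul]; exact mul_self_nonneg _
  have h2 := hD f 0 le_rfl (fun p => by rw [h1, map_zero]; norm_num)
  have h3 : ∀ x y, C.ev x f = C.ev y f := fun x y => by
    have := abs_nonpos_iff.1 (h2 x y)
    linarith
  refine ⟨ig C f, C.ext_ev _ _ fun p => ?_⟩
  rw [ev_cs]
  unfold ig
  rw [integral_congr_ae (g := fun _ => C.ev p f) (Filter.Eventually.of_forall fun q => h3 q p)]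
  simp

/-- the function part of an element of the sum of the small eigenspaces is constant -/
theorem const_of_mem (h1 : S_LY) (h3 : S_DDH) {ε : ℝ} (hN : 0 < N) (hε : 0 ≤ ε)
    (hK : CurvGE C ε) (hM : MaxP C) (hD : DiamOne C) (h8 : 8 * N ^ 2 * ε ≤ Real.log 2 ^ 2)
    {u : Fk N C.A} (hu : u ∈ Ev C (Real.log 2 ^ 2 / (32 * N))) : ∃ c : ℝ, u ∅ = cs C c := by
  have hlog : 0 < Real.log 2 := Real.log_pos one_lt_two
  have hN' : (0 : ℝ) < N := Nat.cast_pos.2 hN
  refine Submodule.span_induction (p := fun u _ => ∃ c : ℝ, u ∅ = cs C c) ?_ ?_ ?_ ?_ hu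
  · rintro u ⟨hu, l, hl0, hlt, hul⟩
    have hE := eigen C h3 hul
    rcases hl0.eq_or_lt with h0 | h0
    · have hL : Lap C (u ∅) = 0 := by rw [hE, ← h0, zero_smul, neg_zero]
      apply const_of_gsq C hD
      obtain ⟨-, -, -, -, -, -, -, -, -, -, hsym, -, -⟩ := h3 M N C
      rw [← nq_DD_fvac, ← pr_self, hsym, DDDD_fvac C h3, hL, zero_smul, neg_zero, pr_zero_right]
    · by_cases hf : u ∅ = 0
      · exact ⟨0, by rw [hf]; unfold cs; rw [map_zero]⟩
      · exfalso
        have h5 := h1 M N C ε hε hK hM hD (u ∅) l h0 hE hf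
        have h6 : 8 * N * l ≤ Real.log 2 ^ 2 / 4 := by
          have : l * (32 * N) ≤ Real.log 2 ^ 2 := by
            rw [le_div_iff₀ (by positivity)] at hlt
            exact hlt
          linarith
        have h7 : 0 < Real.log 2 ^ 2 := by positivity
        nlinarith
  · exact ⟨0, by unfold cs; rw [map_zero]; rfl⟩
  · rintro u v _ _ ⟨c, hc⟩ ⟨d, hd⟩
    exact ⟨c + d, by rw [Pi.add_apply, hc, hd]; unfold cs; rw [map_add]⟩
  · rintro r u _ ⟨c, hc⟩
    exact ⟨r * c, by rw [Pi.smul_apply, hc]; unfold cs; rw [map_mul, Algebra.smul_def]⟩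

end Poi

open Poi

theorem s_poin (h1 : S_LY) (h2 : S_SPEC) (h3 : S_DDH) : S_POIN := by
  intro M _ _ _ _ N C ε hN hε hK hM hD hMo hDe hRe h8
  have hlog : 0 < Real.log 2 := Real.log_pos one_lt_two
  have hN' : (0 : ℝ) < N := Nat.cast_pos.2 hN
  have ht : 0 < Real.log 2 ^ 2 / (32 * N) := by positivity
  obtain ⟨-, -, hgap, -⟩ := h2 M N C hMo hDe hRe _ ht
  constructor
  · intro f
    have hv := hgap ((f - cs C (ig C f)) • vac) (hor_fvac C _) (by
      intro u hu
      obtain ⟨c, hc⟩ := const_of_mem C h1 h3 hN hε hK hM hD h8 hu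
      have e : (f - cs C (ig C f)) * cs C c = c • (f - cs C (ig C f)) := by
        rw [Algebra.smul_def, mul_comm]
        rfl
      rw [pr_fvac, hc, e, ig_smul, ig_sub, ig_cs, sub_self, mul_zero])
    rw [nq_DD_fvac] at hv
    have e1 : gsq C (f - cs C (ig C f)) = gsq C f := by
      unfold gsq cs
      simp only [map_sub, Derivation.map_algebraMap, sub_zero]
    have e2 : nq C ((f - cs C (ig C f)) • (vac : Fk N C.A)) = ig C (f ^ 2) - ig C f ^ 2 := by
      rw [← pr_self, pr_fvac]
      simp only [Pi.smul_apply, smul_eq_mul, vac_empty, mul_one]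
      have e : (f - cs C (ig C f)) * (f - cs C (ig C f)) =
          f ^ 2 - (2 * ig C f) • f + cs C (ig C f ^ 2) := by
        have e' : (2 * ig C f) • f = 2 * cs C (ig C f) * f := by
          rw [Algebra.smul_def, map_mul, map_ofNat]
          rfl
        have e'' : cs C (ig C f ^ 2) = cs C (ig C f) ^ 2 := by
          unfold cs
          rw [map_pow]
        rw [e', e'']
        ring
      rw [e, ig_add, ig_sub, ig_smul, ig_cs]
      ring
    rw [e1, e2] at hv
    rw [div_mul_eq_mul_div, div_le_iff₀ (by positivity)] at hv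
    rw [div_mul_eq_mul_div, le_div_iff₀ (by positivity)]
    linarith
  · rintro u ⟨hu, hd⟩
    obtain ⟨c, hc⟩ := const_of_mem C h1 h3 hN hε hK hM hD h8 hu
    refine ⟨c, ?_⟩
    funext S
    by_cases hS : S = ∅
    · subst hS
      rw [hc, Pi.smul_apply, vac_empty, Algebra.smul_def, mul_one]
      rfl
    · have hd' : Deg 0 u := hd
      rw [hd' S (fun h => hS (Finset.card_eq_zero.1 h)), Pi.smul_apply]
      unfold vac
      rw [if_neg hS, smul_zero]

end Pool.Agent.H781.CM
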