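import Pool.Agent.H781.CM.FDefs2

/-!
The closed 4-manifold `CP² # CP²` as the quotient of `S³ × S³` by a free action of the torus `T²`,
realised as a subset of `ℝ² × ℂ⁴` by invariant polynomials. Here: definitions.

`T²` acts on `S³ × S³ ∋ (z₁, z₂, a, b)` by
`(s, t) · (z₁, z₂, a, b) = (s z₁, t z₂, s t⁻¹ a, s⁻¹ t⁻¹ b)`, and
`Phi = (|z₂|², |b|², z̄₁ z₂ a, z₁ z₂ b, z₂² a b, z̄₁² a b̄)` is invariant and separates the orbits.
-/

open Bundle Manifold ContDiff Metric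
open scoped Topology ComplexConjugate

set_option autoImplicit false

noncomputable section

namespace Pool.Agent.H781.CM.Q

/-- `ℝ⁴ = ℂ²` -/
abbrev U4 : Type := EuclideanSpace ℝ (Fin 4)

/-- the ambient space `ℝ² × ℂ⁴` -/
abbrev A : Type := (ℝ × ℝ) × (ℂ × ℂ) × (ℂ × ℂ)

/-- first complex coordinate -/
def c1 (x : U4) : ℂ := ⟨x 0, x 1⟩

/-- second complex coordinate -/
def c2 (x : U4) : ℂ := ⟨x 2, x 3⟩

/-- the point with the complex coordinates `z`, `w` -/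
def mk (z w : ℂ) : U4 := !₂[z.re, z.im, w.re, w.im]

/-- the invariants -/
def Phi4 (z1 z2 a b : ℂ) : A :=
  ((Complex.normSq z2, Complex.normSq b),
    (conj z1 * z2 * a, z1 * z2 * b), (z2 ^ 2 * a * b, conj z1 ^ 2 * a * conj b))

/-- the invariants on `ℝ⁴ × ℝ⁴` -/
def Phi (x : U4 × U4) : A := Phi4 (c1 x.1) (c2 x.1) (c1 x.2) (c2 x.2)

/-- the unit sphere of `ℝ⁴` -/
abbrev S3 : Type := sphere (0 : U4) 1

/-- `S³ × S³` -/
abbrev X : Type := S3 × S3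

/-- the map `S³ × S³ → A` -/
def PhiX (x : X) : A := Phi ((x.1 : U4), (x.2 : U4))

/-- the subset of `A` which is the quotient `(S³ × S³) / T²` -/
def MS : Set A := Set.range PhiX

/-- the closed 4-manifold `CP² # CP²` (smooth structure in `Q1`) -/
abbrev M : Type := MS

/-- the projection `S³ × S³ → M` -/
def pr (x : X) : M := ⟨PhiX x, x, rfl⟩

/-- the function `√(1 - |u|²)` -/
def h1 (u : ℂ) : ℂ := (Real.sqrt (1 - Complex.normSq u) : ℝ)

/-- the section over the chart `(i, j)`: `z_i > 0` and `a > 0` (`j = 0`) or `b > 0` (`j = 1`); the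
other coordinate of `z` is `u = c1 y` and the other one of `(a, b)` is `v = c2 y` -/
def sg (i j : Fin 2) (y : U4) : U4 × U4 :=
  (if i = 0 then mk (h1 (c1 y)) (c1 y) else mk (c1 y) (h1 (c1 y)),
    if j = 0 then mk (h1 (c2 y)) (c2 y) else mk (c2 y) (h1 (c2 y)))

/-- the bidisc -/
def BD : Set U4 := {y | Complex.normSq (c1 y) < 1 ∧ Complex.normSq (c2 y) < 1}

/-- the parametrisation of `M` over the bidisc -/
def ps (i j : Fin 2) (y : U4) : A := Phi (sg i j y)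

/-- `r = |z₂|²` -/
def rr (q : A) : ℝ := q.1.1

/-- `s = |b|²` -/
def ss (q : A) : ℝ := q.1.2

/-- the open subset of `A` which contains the chart domain `(i, j)` -/
def OO (i j : Fin 2) : Set A :=
  {q | (if i = 0 then rr q < 1 else 0 < rr q) ∧ (if j = 0 then ss q < 1 else 0 < ss q)}

/-- real scalar as a complex number -/
def rc (t : ℝ) : ℂ := (t : ℂ)

/-- the chart `(i, j)` as a map on `OO i j` (left inverse of `ps i j`):
`z₁, a > 0`: `u = z₂ = p / √((1-r)(1-s))`, `v = b = n̄ / ((1-r) √(1-s))`;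
`z₁, b > 0`: `u = z₂ = q / √((1-r) s)`, `v = a = n / ((1-r) √s)`;
`z₂, a > 0`: `u = z₁ = p̄ / √(r (1-s))`, `v = b = m / (r √(1-s))`;
`z₂, b > 0`: `u = z₁ = q / √(r s)`, `v = a = m / (r √s)`,
with `(p, q, m, n) = (z̄₁ z₂ a, z₁ z₂ b, z₂² a b, z̄₁² a b̄)`. -/
def ch (i j : Fin 2) (q : A) : U4 :=
  if i = 0 then
    if j = 0 then
      mk (q.2.1.1 / rc (Real.sqrt ((1 - rr q) * (1 - ss q))))
        (conj q.2.2.2 / rc ((1 - rr q) * Real.sqrt (1 - ss q)))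
    else
      mk (q.2.1.2 / rc (Real.sqrt ((1 - rr q) * ss q)))
        (q.2.2.2 / rc ((1 - rr q) * Real.sqrt (ss q)))
  else
    if j = 0 then
      mk (conj q.2.1.1 / rc (Real.sqrt (rr q * (1 - ss q))))
        (q.2.2.1 / rc (rr q * Real.sqrt (1 - ss q)))
    else
      mk (q.2.1.2 / rc (Real.sqrt (rr q * ss q)))
        (q.2.2.1 / rc (rr q * Real.sqrt (ss q)))

/-! ### targets of `Q1` (the smooth manifold `M`) -/

/-- properties of the definitions above, all elementary -/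
structure S_Q0 : Prop where
  compact : IsCompact MS
  conn : IsConnected MS
  fib : ∀ x y : X, pr x = pr y ↔ ∃ s t : ℂ, Complex.normSq s = 1 ∧ Complex.normSq t = 1 ∧
    c1 (y.1 : U4) = s * c1 (x.1 : U4) ∧ c2 (y.1 : U4) = t * c2 (x.1 : U4) ∧
    c1 (y.2 : U4) = s * conj t * c1 (x.2 : U4) ∧ c2 (y.2 : U4) = conj s * conj t * c2 (x.2 : U4)
  open_BD : IsOpen BD
  open_OO : ∀ i j, IsOpen (OO i j)
  cover : ∀ q ∈ MS, ∃ i j, q ∈ OO i j
  smooth_sg : ∀ i j, ContDiffOn ℝ ∞ (sg i j) BD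
  norm_sg : ∀ i j, ∀ y ∈ BD, ‖(sg i j y).1‖ = 1 ∧ ‖(sg i j y).2‖ = 1
  smooth_ps : ∀ i j, ContDiffOn ℝ ∞ (ps i j) BD
  smooth_ch : ∀ i j, ContDiffOn ℝ ∞ (ch i j) (OO i j)
  ps_mem : ∀ i j, ∀ y ∈ BD, ps i j y ∈ MS ∧ ps i j y ∈ OO i j
  ch_mem : ∀ i j, ∀ q ∈ MS, q ∈ OO i j → ch i j q ∈ BD
  ch_ps : ∀ i j, ∀ y ∈ BD, ch i j (ps i j y) = y
  ps_ch : ∀ i j, ∀ q ∈ MS, q ∈ OO i j → ps i j (ch i j q) = q

end Pool.Agent.H781.CM.Q
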