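import Pool.Agent.H781.CM.Q0

/-!
Elementary facts on the charts of `M = (S³ × S³) / T²`.
-/

open Bundle Manifold ContDiff Metric
open scoped Topology ComplexConjugate

set_option autoImplicit false

noncomputable section

namespace Pool.Agent.H781.CM.Q

namespace Q0p

/-! ### coordinates -/

theorem c1_mk (z w : ℂ) : c1 (mk z w) = z := by
  unfold c1 mk
  apply Complex.ext <;> simp

theorem c2_mk (z w : ℂ) : c2 (mk z w) = w := by
  unfold c2 mk
  apply Complex.ext <;> simp

theorem mk_c (x : U4) : mk (c1 x) (c2 x) = x := by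
  unfold c1 c2 mk
  ext i
  fin_cases i <;> simp

theorem ext_c {x y : U4} (h1 : c1 x = c1 y) (h2 : c2 x = c2 y) : x = y := by
  rw [← mk_c x, ← mk_c y, h1, h2]

theorem norm_sq (x : U4) : ‖x‖ ^ 2 = Complex.normSq (c1 x) + Complex.normSq (c2 x) := by
  rw [EuclideanSpace.real_norm_sq_eq, Fin.sum_univ_four]
  unfold c1 c2
  rw [Complex.normSq_mk, Complex.normSq_mk]
  ring

theorem norm_one_iff (x : U4) :
    ‖x‖ = 1 ↔ Complex.normSq (c1 x) + Complex.normSq (c2 x) = 1 := by
  rw [← norm_sq]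
  constructor
  · intro h
    rw [h]
    norm_num
  · intro h
    have h0 := norm_nonneg x
    nlinarith

theorem S3_eq (x : S3) :
    Complex.normSq (c1 (x : U4)) + Complex.normSq (c2 (x : U4)) = 1 := by
  rw [← norm_one_iff]
  have := x.2
  rw [mem_sphere_zero_iff_norm] at this
  exact this

theorem cd_coord (i : Fin 4) : ContDiff ℝ ∞ (fun x : U4 => x i) := by
  have h : ContDiff ℝ ∞ (fun x : U4 => x) := contDiff_id
  rw [contDiff_euclidean] at h
  exact h i

theorem cd_ofReal {E : Type*} [NormedAddCommGroup E] [NormedSpace ℝ E] {f : E → ℝ} {s : Set E}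
    (hf : ContDiffOn ℝ ∞ f s) : ContDiffOn ℝ ∞ (fun x => (f x : ℂ)) s :=
  Complex.ofRealCLM.contDiff.comp_contDiffOn hf

theorem cd_conj {E : Type*} [NormedAddCommGroup E] [NormedSpace ℝ E] {f : E → ℂ} {s : Set E}
    (hf : ContDiffOn ℝ ∞ f s) : ContDiffOn ℝ ∞ (fun x => conj (f x)) s :=
  Complex.conjCLE.contDiff.comp_contDiffOn hf

theorem cd_re {E : Type*} [NormedAddCommGroup E] [NormedSpace ℝ E] {f : E → ℂ} {s : Set E}
    (hf : ContDiffOn ℝ ∞ f s) : ContDiffOn ℝ ∞ (fun x => (f x).re) s :=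
  Complex.reCLM.contDiff.comp_contDiffOn hf

theorem cd_im {E : Type*} [NormedAddCommGroup E] [NormedSpace ℝ E] {f : E → ℂ} {s : Set E}
    (hf : ContDiffOn ℝ ∞ f s) : ContDiffOn ℝ ∞ (fun x => (f x).im) s :=
  Complex.imCLM.contDiff.comp_contDiffOn hf

theorem cd_normSq {E : Type*} [NormedAddCommGroup E] [NormedSpace ℝ E] {f : E → ℂ} {s : Set E}
    (hf : ContDiffOn ℝ ∞ f s) : ContDiffOn ℝ ∞ (fun x => Complex.normSq (f x)) s := by
  have : (fun x => Complex.normSq (f x)) = fun x => (f x).re * (f x).re + (f x).im * (f x).im := by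
    funext x
    rw [Complex.normSq_apply]
  rw [this]
  exact ((cd_re hf).mul (cd_re hf)).add ((cd_im hf).mul (cd_im hf))

theorem cd_c1' : ContDiff ℝ ∞ c1 := by
  have : c1 = fun x : U4 => ((x 0 : ℝ) : ℂ) + ((x 1 : ℝ) : ℂ) * Complex.I := by
    funext x
    unfold c1
    apply Complex.ext <;> simp
  rw [this]
  exact (Complex.ofRealCLM.contDiff.comp (cd_coord 0)).add
    ((Complex.ofRealCLM.contDiff.comp (cd_coord 1)).mul contDiff_const)

theorem cd_c2' : ContDiff ℝ ∞ c2 := by
  have : c2 = fun x : U4 => ((x 2 : ℝ) : ℂ) + ((x 3 : ℝ) : ℂ) * Complex.I := by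
    funext x
    unfold c2
    apply Complex.ext <;> simp
  rw [this]
  exact (Complex.ofRealCLM.contDiff.comp (cd_coord 2)).add
    ((Complex.ofRealCLM.contDiff.comp (cd_coord 3)).mul contDiff_const)

theorem cd_c1 {E : Type*} [NormedAddCommGroup E] [NormedSpace ℝ E] {f : E → U4} {s : Set E}
    (hf : ContDiffOn ℝ ∞ f s) : ContDiffOn ℝ ∞ (fun x => c1 (f x)) s :=
  cd_c1'.comp_contDiffOn hf

theorem cd_c2 {E : Type*} [NormedAddCommGroup E] [NormedSpace ℝ E] {f : E → U4} {s : Set E}
    (hf : ContDiffOn ℝ ∞ f s) : ContDiffOn ℝ ∞ (fun x => c2 (f x)) s :=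
  cd_c2'.comp_contDiffOn hf

theorem cd_mk {E : Type*} [NormedAddCommGroup E] [NormedSpace ℝ E] {f g : E → ℂ} {s : Set E}
    (hf : ContDiffOn ℝ ∞ f s) (hg : ContDiffOn ℝ ∞ g s) :
    ContDiffOn ℝ ∞ (fun x => mk (f x) (g x)) s := by
  rw [contDiffOn_euclidean]
  intro i
  fin_cases i
  · exact cd_re hf
  · exact cd_im hf
  · exact cd_re hg
  · exact cd_im hg

theorem cd_divc {E : Type*} [NormedAddCommGroup E] [NormedSpace ℝ E] {f g : E → ℂ} {s : Set E}
    (hf : ContDiffOn ℝ ∞ f s) (hg : ContDiffOn ℝ ∞ g s) (h0 : ∀ x ∈ s, g x ≠ 0) :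
    ContDiffOn ℝ ∞ (fun x => f x / g x) s := by
  have : (fun x => f x / g x) = fun x => f x * (g x)⁻¹ := by
    funext x
    rw [div_eq_mul_inv]
  rw [this]
  exact hf.mul (hg.inv h0)

theorem cont_c1 : Continuous c1 := cd_c1'.continuous

theorem cont_c2 : Continuous c2 := cd_c2'.continuous

/-! ### the map `Phi` -/

theorem cd_Phi {E : Type*} [NormedAddCommGroup E] [NormedSpace ℝ E] {f : E → U4 × U4} {s : Set E}
    (hf : ContDiffOn ℝ ∞ f s) : ContDiffOn ℝ ∞ (fun x => Phi (f x)) s := by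
  unfold Phi Phi4
  have h1 := cd_c1 hf.fst
  have h2 := cd_c2 hf.fst
  have h3 := cd_c1 hf.snd
  have h4 := cd_c2 hf.snd
  refine ContDiffOn.prodMk (ContDiffOn.prodMk (cd_normSq h2) (cd_normSq h4)) (ContDiffOn.prodMk
    (ContDiffOn.prodMk (((cd_conj h1).mul h2).mul h3) ((h1.mul h2).mul h4))
    (ContDiffOn.prodMk (((h2.pow 2).mul h3).mul h4) ((((cd_conj h1).pow 2).mul h3).mul
      (cd_conj h4))))

theorem cont_Phi : Continuous Phi := by
  have h : ContDiffOn ℝ ∞ (fun x : U4 × U4 => Phi x) Set.univ :=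
    cd_Phi (contDiffOn_id)
  rw [contDiffOn_univ] at h
  exact h.continuous

theorem cont_PhiX : Continuous PhiX := by
  unfold PhiX
  exact cont_Phi.comp ((continuous_subtype_val.comp continuous_fst).prodMk
    (continuous_subtype_val.comp continuous_snd))

theorem conj_mul_of_one {s : ℂ} (hs : Complex.normSq s = 1) : conj s * s = 1 := by
  rw [← Complex.normSq_eq_conj_mul_self, hs]
  norm_num

/-- invariance -/
theorem Phi4_act (s t z1 z2 a b : ℂ) (hs : Complex.normSq s = 1) (ht : Complex.normSq t = 1) :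
    Phi4 (s * z1) (t * z2) (s * conj t * a) (conj s * conj t * b) = Phi4 z1 z2 a b := by
  have h1 := conj_mul_of_one hs
  have h2 := conj_mul_of_one ht
  unfold Phi4
  have e1 : Complex.normSq (t * z2) = Complex.normSq z2 := by
    rw [Complex.normSq_mul, ht, one_mul]
  have e2 : Complex.normSq (conj s * conj t * b) = Complex.normSq b := by
    rw [Complex.normSq_mul, Complex.normSq_mul, Complex.normSq_conj, Complex.normSq_conj, hs, ht]
    ring
  have e3 : conj (s * z1) * (t * z2) * (s * conj t * a) = conj z1 * z2 * a := by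
    rw [map_mul]
    calc conj s * conj z1 * (t * z2) * (s * conj t * a) =
        (conj s * s) * (conj t * t) * (conj z1 * z2 * a) := by ring
      _ = _ := by rw [h1, h2]; ring
  have e4 : s * z1 * (t * z2) * (conj s * conj t * b) = z1 * z2 * b := by
    calc s * z1 * (t * z2) * (conj s * conj t * b) =
        (conj s * s) * (conj t * t) * (z1 * z2 * b) := by ring
      _ = _ := by rw [h1, h2]; ring
  have e5 : (t * z2) ^ 2 * (s * conj t * a) * (conj s * conj t * b) = z2 ^ 2 * a * b := by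
    calc (t * z2) ^ 2 * (s * conj t * a) * (conj s * conj t * b) =
        (conj s * s) * (conj t * t) ^ 2 * (z2 ^ 2 * a * b) := by ring
      _ = _ := by rw [h1, h2]; ring
  have e6 : conj (s * z1) ^ 2 * (s * conj t * a) * conj (conj s * conj t * b) =
      conj z1 ^ 2 * a * conj b := by
    rw [map_mul, map_mul, map_mul, Complex.conj_conj, Complex.conj_conj]
    calc (conj s * conj z1) ^ 2 * (s * conj t * a) * (s * t * conj b) =
        (conj s * s) ^ 2 * (conj t * t) * (conj z1 ^ 2 * a * conj b) := by ring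
      _ = _ := by rw [h1, h2]; ring
  rw [e1, e2, e3, e4, e5, e6]

/-- rotating a complex number to its absolute value -/
theorem rot1 {w : ℂ} (hw : 0 < Complex.normSq w) :
    ∃ e : ℂ, Complex.normSq e = 1 ∧ e * w = (Real.sqrt (Complex.normSq w) : ℝ) := by
  have hs : 0 < Real.sqrt (Complex.normSq w) := Real.sqrt_pos.mpr hw
  have hsc : ((Real.sqrt (Complex.normSq w) : ℝ) : ℂ) ≠ 0 := by
    exact_mod_cast hs.ne'
  have hsq : Real.sqrt (Complex.normSq w) * Real.sqrt (Complex.normSq w) = Complex.normSq w :=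
    Real.mul_self_sqrt hw.le
  refine ⟨conj w / (Real.sqrt (Complex.normSq w) : ℝ), ?_, ?_⟩
  · rw [Complex.normSq_div, Complex.normSq_conj, Complex.normSq_ofReal, hsq, div_self hw.ne']
  · rw [div_mul_eq_mul_div, ← Complex.normSq_eq_conj_mul_self, div_eq_iff hsc]
    rw [← Complex.ofReal_mul, hsq]

theorem h1_eq {u : ℂ} {r : ℝ} (h : 1 - Complex.normSq u = r) : h1 u = (Real.sqrt r : ℝ) := by
  unfold h1
  rw [h]

theorem sg_fst0 (j : Fin 2) (y : U4) : (sg 0 j y).1 = mk (h1 (c1 y)) (c1 y) := by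
  unfold sg
  simp

theorem sg_fst1 (j : Fin 2) (y : U4) : (sg 1 j y).1 = mk (c1 y) (h1 (c1 y)) := by
  unfold sg
  simp

theorem sg_snd0 (i : Fin 2) (y : U4) : (sg i 0 y).2 = mk (h1 (c2 y)) (c2 y) := by
  unfold sg
  simp

theorem sg_snd1 (i : Fin 2) (y : U4) : (sg i 1 y).2 = mk (c2 y) (h1 (c2 y)) := by
  unfold sg
  simp

/-- every point over the chart can be rotated into the section -/
theorem rot (i j : Fin 2) (z1 z2 a b : ℂ) (hz : Complex.normSq z1 + Complex.normSq z2 = 1)
    (hab : Complex.normSq a + Complex.normSq b = 1)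
    (hi : if i = 0 then Complex.normSq z2 < 1 else 0 < Complex.normSq z2)
    (hj : if j = 0 then Complex.normSq b < 1 else 0 < Complex.normSq b) :
    ∃ (s t : ℂ) (y : U4), Complex.normSq s = 1 ∧ Complex.normSq t = 1 ∧ y ∈ BD ∧
      c1 (sg i j y).1 = s * z1 ∧ c2 (sg i j y).1 = t * z2 ∧
      c1 (sg i j y).2 = s * conj t * a ∧ c2 (sg i j y).2 = conj s * conj t * b := by
  have hcj : ∀ w : ℂ, Complex.normSq w = 1 → Complex.normSq (conj w) = 1 := by
    intro w hw
    rw [Complex.normSq_conj, hw]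
  have hmul : ∀ w z : ℂ, Complex.normSq w = 1 → Complex.normSq z = 1 →
      Complex.normSq (w * z) = 1 := by
    intro w z hw hz
    rw [Complex.normSq_mul, hw, hz, one_mul]
  have hpi : i = 0 ∨ i = 1 := by omega
  have hpj : j = 0 ∨ j = 1 := by omega
  rcases hpi with rfl | rfl
  · have hi' : Complex.normSq z2 < 1 := by simpa using hi
    obtain ⟨e1, he1, he1'⟩ := rot1 (w := z1) (by linarith)
    have k1 := conj_mul_of_one he1
    rcases hpj with rfl | rfl
    · have hj' : Complex.normSq b < 1 := by simpa using hj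
      obtain ⟨e2, he2, he2'⟩ := rot1 (w := a) (by linarith)
      have k2 := conj_mul_of_one he2
      have ht : Complex.normSq (e1 * conj e2) = 1 := hmul _ _ he1 (hcj _ he2)
      have hcc : conj (e1 * conj e2) = conj e1 * e2 := by
        rw [map_mul, Complex.conj_conj]
      have hn1 : Complex.normSq ((e1 * conj e2) * z2) = Complex.normSq z2 := by
        rw [Complex.normSq_mul, ht, one_mul]
      have hn2 : Complex.normSq (conj e1 * (conj e1 * e2) * b) = Complex.normSq b := by
        rw [Complex.normSq_mul, hmul _ _ (hcj _ he1) (hmul _ _ (hcj _ he1) he2), one_mul]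
      refine ⟨e1, e1 * conj e2, mk ((e1 * conj e2) * z2) (conj e1 * (conj e1 * e2) * b), he1, ht,
        ?_, ?_, ?_, ?_, ?_⟩
      · unfold BD
        rw [Set.mem_ofPred_eq, c1_mk, c2_mk, hn1, hn2]
        exact ⟨hi', hj'⟩
      · rw [sg_fst0, c1_mk, c1_mk, he1']
        exact h1_eq (by rw [hn1]; linarith)
      · rw [sg_fst0, c2_mk, c1_mk]
      · rw [sg_snd0, c1_mk, c2_mk, hcc]
        rw [h1_eq (r := Complex.normSq a) (by rw [hn2]; linarith), ← he2']
        calc e2 * a = (conj e1 * e1) * e2 * a := by rw [k1]; ring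
          _ = _ := by ring
      · rw [sg_snd0, c2_mk, c2_mk, hcc]
    · have hj' : 0 < Complex.normSq b := by simpa using hj
      obtain ⟨e2, he2, he2'⟩ := rot1 (w := b) hj'
      have k2 := conj_mul_of_one he2
      have ht : Complex.normSq (conj e1 * conj e2) = 1 := hmul _ _ (hcj _ he1) (hcj _ he2)
      have hcc : conj (conj e1 * conj e2) = e1 * e2 := by
        rw [map_mul, Complex.conj_conj, Complex.conj_conj]
      have hn1 : Complex.normSq ((conj e1 * conj e2) * z2) = Complex.normSq z2 := by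
        rw [Complex.normSq_mul, ht, one_mul]
      have hn2 : Complex.normSq (e1 * (e1 * e2) * a) = Complex.normSq a := by
        rw [Complex.normSq_mul, hmul _ _ he1 (hmul _ _ he1 he2), one_mul]
      refine ⟨e1, conj e1 * conj e2, mk ((conj e1 * conj e2) * z2) (e1 * (e1 * e2) * a), he1, ht,
        ?_, ?_, ?_, ?_, ?_⟩
      · unfold BD
        rw [Set.mem_ofPred_eq, c1_mk, c2_mk, hn1, hn2]
        exact ⟨hi', by linarith⟩
      · rw [sg_fst0, c1_mk, c1_mk, he1']
        exact h1_eq (by rw [hn1]; linarith)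
      · rw [sg_fst0, c2_mk, c1_mk]
      · rw [sg_snd1, c1_mk, c2_mk, hcc]
      · rw [sg_snd1, c2_mk, c2_mk, hcc]
        rw [h1_eq (r := Complex.normSq b) (by rw [hn2]; linarith), ← he2']
        calc e2 * b = (conj e1 * e1) * e2 * b := by rw [k1]; ring
          _ = _ := by ring
  · have hi' : 0 < Complex.normSq z2 := by simpa using hi
    obtain ⟨e1, he1, he1'⟩ := rot1 (w := z2) hi'
    have k1 := conj_mul_of_one he1
    rcases hpj with rfl | rfl
    · have hj' : Complex.normSq b < 1 := by simpa using hj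
      obtain ⟨e2, he2, he2'⟩ := rot1 (w := a) (by linarith)
      have k2 := conj_mul_of_one he2
      have hs : Complex.normSq (e1 * e2) = 1 := hmul _ _ he1 he2
      have hcc : conj (e1 * e2) = conj e1 * conj e2 := by
        rw [map_mul]
      have hn1 : Complex.normSq ((e1 * e2) * z1) = Complex.normSq z1 := by
        rw [Complex.normSq_mul, hs, one_mul]
      have hn2 : Complex.normSq ((conj e1 * conj e2) * conj e1 * b) = Complex.normSq b := by
        rw [Complex.normSq_mul, hmul _ _ (hmul _ _ (hcj _ he1) (hcj _ he2)) (hcj _ he1), one_mul]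
      refine ⟨e1 * e2, e1, mk ((e1 * e2) * z1) ((conj e1 * conj e2) * conj e1 * b), hs, he1,
        ?_, ?_, ?_, ?_, ?_⟩
      · unfold BD
        rw [Set.mem_ofPred_eq, c1_mk, c2_mk, hn1, hn2]
        exact ⟨by linarith, hj'⟩
      · rw [sg_fst1, c1_mk, c1_mk]
      · rw [sg_fst1, c2_mk, c1_mk, he1']
        exact h1_eq (by rw [hn1]; linarith)
      · rw [sg_snd0, c1_mk, c2_mk]
        rw [h1_eq (r := Complex.normSq a) (by rw [hn2]; linarith), ← he2']
        calc e2 * a = (conj e1 * e1) * e2 * a := by rw [k1]; ring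
          _ = _ := by ring
      · rw [sg_snd0, c2_mk, c2_mk, hcc]
    · have hj' : 0 < Complex.normSq b := by simpa using hj
      obtain ⟨e2, he2, he2'⟩ := rot1 (w := b) hj'
      have k2 := conj_mul_of_one he2
      have hs : Complex.normSq (conj e1 * conj e2) = 1 := hmul _ _ (hcj _ he1) (hcj _ he2)
      have hcc : conj (conj e1 * conj e2) = e1 * e2 := by
        rw [map_mul, Complex.conj_conj, Complex.conj_conj]
      have hn1 : Complex.normSq ((conj e1 * conj e2) * z1) = Complex.normSq z1 := by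
        rw [Complex.normSq_mul, hs, one_mul]
      have hn2 : Complex.normSq ((conj e1 * conj e2) * conj e1 * a) = Complex.normSq a := by
        rw [Complex.normSq_mul, hmul _ _ (hmul _ _ (hcj _ he1) (hcj _ he2)) (hcj _ he1), one_mul]
      refine ⟨conj e1 * conj e2, e1, mk ((conj e1 * conj e2) * z1)
        ((conj e1 * conj e2) * conj e1 * a), hs, he1, ?_, ?_, ?_, ?_, ?_⟩
      · unfold BD
        rw [Set.mem_ofPred_eq, c1_mk, c2_mk, hn1, hn2]
        exact ⟨by linarith, by linarith⟩
      · rw [sg_fst1, c1_mk, c1_mk]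
      · rw [sg_fst1, c2_mk, c1_mk, he1']
        exact h1_eq (by rw [hn1]; linarith)
      · rw [sg_snd1, c1_mk, c2_mk]
      · rw [sg_snd1, c2_mk, c2_mk, hcc]
        rw [h1_eq (r := Complex.normSq b) (by rw [hn2]; linarith), ← he2']
        calc e2 * b = (conj e1 * e1) * e2 * b := by rw [k1]; ring
          _ = _ := by ring

theorem rr_Phi (x : U4 × U4) : rr (Phi x) = Complex.normSq (c2 x.1) := rfl

theorem ss_Phi (x : U4 × U4) : ss (Phi x) = Complex.normSq (c2 x.2) := rfl

/-- the rotation lemma for points of `X` -/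
theorem rotX (i j : Fin 2) (x : X) (h : PhiX x ∈ OO i j) :
    ∃ (s t : ℂ) (y : U4), Complex.normSq s = 1 ∧ Complex.normSq t = 1 ∧ y ∈ BD ∧
      c1 (sg i j y).1 = s * c1 (x.1 : U4) ∧ c2 (sg i j y).1 = t * c2 (x.1 : U4) ∧
      c1 (sg i j y).2 = s * conj t * c1 (x.2 : U4) ∧
      c2 (sg i j y).2 = conj s * conj t * c2 (x.2 : U4) := by
  unfold OO at h
  rw [Set.mem_ofPred_eq] at h
  obtain ⟨hi, hj⟩ := h
  exact rot i j _ _ _ _ (S3_eq x.1) (S3_eq x.2) hi hj

theorem Phi_of_rot (i j : Fin 2) (x : X) (s t : ℂ) (y : U4) (hs : Complex.normSq s = 1)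
    (ht : Complex.normSq t = 1)
    (h1 : c1 (sg i j y).1 = s * c1 (x.1 : U4)) (h2 : c2 (sg i j y).1 = t * c2 (x.1 : U4))
    (h3 : c1 (sg i j y).2 = s * conj t * c1 (x.2 : U4))
    (h4 : c2 (sg i j y).2 = conj s * conj t * c2 (x.2 : U4)) : ps i j y = PhiX x := by
  unfold ps PhiX Phi
  rw [h1, h2, h3, h4]
  exact Phi4_act s t _ _ _ _ hs ht

theorem normSq_h1 {u : ℂ} (hu : Complex.normSq u < 1) :
    Complex.normSq (h1 u) = 1 - Complex.normSq u := by
  unfold h1
  rw [Complex.normSq_ofReal, Real.mul_self_sqrt (by linarith)]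

theorem norm_sg (i j : Fin 2) (y : U4) (hy : y ∈ BD) : ‖(sg i j y).1‖ = 1 ∧ ‖(sg i j y).2‖ = 1 := by
  unfold BD at hy
  rw [Set.mem_ofPred_eq] at hy
  obtain ⟨hu, hv⟩ := hy
  have hpi : i = 0 ∨ i = 1 := by omega
  have hpj : j = 0 ∨ j = 1 := by omega
  constructor
  · rw [norm_one_iff]
    rcases hpi with rfl | rfl
    · rw [sg_fst0, c1_mk, c2_mk, normSq_h1 hu]
      ring
    · rw [sg_fst1, c1_mk, c2_mk, normSq_h1 hu]
      ring
  · rw [norm_one_iff]
    rcases hpj with rfl | rfl
    · rw [sg_snd0, c1_mk, c2_mk, normSq_h1 hv]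
      ring
    · rw [sg_snd1, c1_mk, c2_mk, normSq_h1 hv]
      ring

theorem cd_h1 {E : Type*} [NormedAddCommGroup E] [NormedSpace ℝ E] {f : E → ℂ} {s : Set E}
    (hf : ContDiffOn ℝ ∞ f s) (h : ∀ x ∈ s, Complex.normSq (f x) < 1) :
    ContDiffOn ℝ ∞ (fun x => h1 (f x)) s := by
  unfold h1
  apply cd_ofReal
  apply ContDiffOn.sqrt
  · exact contDiffOn_const.sub (cd_normSq hf)
  · intro x hx
    have := h x hx
    linarith

theorem smooth_sg (i j : Fin 2) : ContDiffOn ℝ ∞ (sg i j) BD := by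
  have hu : ContDiffOn ℝ ∞ (fun y : U4 => c1 y) BD := cd_c1 contDiffOn_id
  have hv : ContDiffOn ℝ ∞ (fun y : U4 => c2 y) BD := cd_c2 contDiffOn_id
  have hhu : ContDiffOn ℝ ∞ (fun y : U4 => h1 (c1 y)) BD := cd_h1 hu fun y hy => hy.1
  have hhv : ContDiffOn ℝ ∞ (fun y : U4 => h1 (c2 y)) BD := cd_h1 hv fun y hy => hy.2
  have hpi : i = 0 ∨ i = 1 := by omega
  have hpj : j = 0 ∨ j = 1 := by omega
  have e : sg i j = fun y => ((sg i j y).1, (sg i j y).2) := rfl
  rw [e]
  refine ContDiffOn.prodMk ?_ ?_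
  · rcases hpi with rfl | rfl
    · have e1 : (fun y => (sg 0 j y).1) = fun y => mk (h1 (c1 y)) (c1 y) := by
        funext y
        exact sg_fst0 j y
      rw [e1]
      exact cd_mk hhu hu
    · have e1 : (fun y => (sg 1 j y).1) = fun y => mk (c1 y) (h1 (c1 y)) := by
        funext y
        exact sg_fst1 j y
      rw [e1]
      exact cd_mk hu hhu
  · rcases hpj with rfl | rfl
    · have e1 : (fun y => (sg i 0 y).2) = fun y => mk (h1 (c2 y)) (c2 y) := by
        funext y
        exact sg_snd0 i y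
      rw [e1]
      exact cd_mk hhv hv
    · have e1 : (fun y => (sg i 1 y).2) = fun y => mk (c2 y) (h1 (c2 y)) := by
        funext y
        exact sg_snd1 i y
      rw [e1]
      exact cd_mk hv hhv

/-- the section as a point of `X` -/
def sgX (i j : Fin 2) (y : U4) (hy : y ∈ BD) : X :=
  (⟨(sg i j y).1, by rw [mem_sphere_zero_iff_norm]; exact (norm_sg i j y hy).1⟩,
    ⟨(sg i j y).2, by rw [mem_sphere_zero_iff_norm]; exact (norm_sg i j y hy).2⟩)

theorem PhiX_sgX (i j : Fin 2) (y : U4) (hy : y ∈ BD) : PhiX (sgX i j y hy) = ps i j y := rfl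

theorem ps_mem (i j : Fin 2) (y : U4) (hy : y ∈ BD) : ps i j y ∈ MS ∧ ps i j y ∈ OO i j := by
  refine ⟨⟨sgX i j y hy, rfl⟩, ?_⟩
  have hy' := hy
  unfold BD at hy'
  rw [Set.mem_ofPred_eq] at hy'
  obtain ⟨hu, hv⟩ := hy'
  unfold OO
  rw [Set.mem_ofPred_eq]
  have hpi : i = 0 ∨ i = 1 := by omega
  have hpj : j = 0 ∨ j = 1 := by omega
  constructor
  · unfold ps
    rw [rr_Phi]
    rcases hpi with rfl | rfl
    · rw [if_pos rfl, sg_fst0, c2_mk]
      exact hu
    · rw [if_neg (by decide), sg_fst1, c2_mk, normSq_h1 hu]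
      linarith
  · unfold ps
    rw [ss_Phi]
    rcases hpj with rfl | rfl
    · rw [if_pos rfl, sg_snd0, c2_mk]
      exact hv
    · rw [if_neg (by decide), sg_snd1, c2_mk, normSq_h1 hv]
      linarith

theorem conj_h1 (u : ℂ) : conj (h1 u) = h1 u := by
  unfold h1
  exact Complex.conj_ofReal _

theorem h1_sq {u : ℂ} (hu : Complex.normSq u < 1) :
    h1 u * h1 u = ((1 - Complex.normSq u : ℝ) : ℂ) := by
  unfold h1
  rw [← Complex.ofReal_mul, Real.mul_self_sqrt (by linarith)]

theorem h1_ne {u : ℂ} (hu : Complex.normSq u < 1) : h1 u ≠ 0 := by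
  unfold h1
  have : 0 < Real.sqrt (1 - Complex.normSq u) := Real.sqrt_pos.mpr (by linarith)
  exact_mod_cast this.ne'

theorem rc_sqrt_mul {u v : ℂ} (hu : Complex.normSq u < 1) :
    rc (Real.sqrt ((1 - Complex.normSq u) * (1 - Complex.normSq v))) = h1 u * h1 v := by
  unfold rc h1
  rw [Real.sqrt_mul (by linarith), Complex.ofReal_mul]

theorem rc_mul_sqrt {u v : ℂ} (hu : Complex.normSq u < 1) :
    rc ((1 - Complex.normSq u) * Real.sqrt (1 - Complex.normSq v)) =
      h1 u * h1 u * h1 v := by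
  rw [h1_sq hu]
  unfold rc h1
  rw [Complex.ofReal_mul]

theorem ch_ps (i j : Fin 2) (y : U4) (hy : y ∈ BD) : ch i j (ps i j y) = y := by
  have hy' := hy
  unfold BD at hy'
  rw [Set.mem_ofPred_eq] at hy'
  obtain ⟨hu, hv⟩ := hy'
  have hu0 := h1_ne hu
  have hv0 := h1_ne hv
  have hpi : i = 0 ∨ i = 1 := by omega
  have hpj : j = 0 ∨ j = 1 := by omega
  conv_rhs => rw [← mk_c y]
  rcases hpi with rfl | rfl
  · rcases hpj with rfl | rfl
    · have hr : rr (ps 0 0 y) = Complex.normSq (c1 y) := by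
        unfold ps
        rw [rr_Phi, sg_fst0, c2_mk]
      have hs : ss (ps 0 0 y) = Complex.normSq (c2 y) := by
        unfold ps
        rw [ss_Phi, sg_snd0, c2_mk]
      unfold ch
      rw [if_pos rfl, if_pos rfl, hr, hs, rc_sqrt_mul hu, rc_mul_sqrt hu]
      unfold ps Phi Phi4
      simp only
      rw [sg_fst0, sg_snd0, c1_mk, c2_mk, c1_mk, c2_mk, conj_h1]
      congr 1
      · field_simp
      · rw [map_mul, map_mul, map_pow, Complex.conj_conj, conj_h1, conj_h1]
        field_simp
    · have hr : rr (ps 0 1 y) = Complex.normSq (c1 y) := by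
        unfold ps
        rw [rr_Phi, sg_fst0, c2_mk]
      have hs : ss (ps 0 1 y) = 1 - Complex.normSq (c2 y) := by
        unfold ps
        rw [ss_Phi, sg_snd1, c2_mk, normSq_h1 hv]
      unfold ch
      rw [if_pos rfl, if_neg (by decide), hr, hs, rc_sqrt_mul hu, rc_mul_sqrt hu]
      unfold ps Phi Phi4
      simp only
      rw [sg_fst0, sg_snd1, c1_mk, c2_mk, c1_mk, c2_mk, conj_h1, conj_h1]
      congr 1
      · field_simp
      · field_simp
  · rcases hpj with rfl | rfl
    · have hr : rr (ps 1 0 y) = 1 - Complex.normSq (c1 y) := by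
        unfold ps
        rw [rr_Phi, sg_fst1, c2_mk, normSq_h1 hu]
      have hs : ss (ps 1 0 y) = Complex.normSq (c2 y) := by
        unfold ps
        rw [ss_Phi, sg_snd0, c2_mk]
      unfold ch
      rw [if_neg (by decide), if_pos rfl, hr, hs, rc_sqrt_mul hu, rc_mul_sqrt hu]
      unfold ps Phi Phi4
      simp only
      rw [sg_fst1, sg_snd0, c1_mk, c2_mk, c1_mk, c2_mk]
      congr 1
      · rw [map_mul, map_mul, Complex.conj_conj, conj_h1, conj_h1]
        field_simp
      · field_simp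
    · have hr : rr (ps 1 1 y) = 1 - Complex.normSq (c1 y) := by
        unfold ps
        rw [rr_Phi, sg_fst1, c2_mk, normSq_h1 hu]
      have hs : ss (ps 1 1 y) = 1 - Complex.normSq (c2 y) := by
        unfold ps
        rw [ss_Phi, sg_snd1, c2_mk, normSq_h1 hv]
      unfold ch
      rw [if_neg (by decide), if_neg (by decide), hr, hs, rc_sqrt_mul hu, rc_mul_sqrt hu]
      unfold ps Phi Phi4
      simp only
      rw [sg_fst1, sg_snd1, c1_mk, c2_mk, c1_mk, c2_mk]
      congr 1
      · field_simp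
      · field_simp

theorem cont_rr : Continuous rr := by
  unfold rr
  fun_prop

theorem cont_ss : Continuous ss := by
  unfold ss
  fun_prop

theorem open_OO (i j : Fin 2) : IsOpen (OO i j) := by
  have hpi : i = 0 ∨ i = 1 := by omega
  have hpj : j = 0 ∨ j = 1 := by omega
  have e : OO i j = {q | if i = 0 then rr q < 1 else 0 < rr q} ∩
      {q | if j = 0 then ss q < 1 else 0 < ss q} := by
    ext q
    rfl
  rw [e]
  refine IsOpen.inter ?_ ?_
  · rcases hpi with rfl | rfl
    · simp only [if_true]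
      exact isOpen_lt cont_rr continuous_const
    · simp only [one_ne_zero, if_false]
      exact isOpen_lt continuous_const cont_rr
  · rcases hpj with rfl | rfl
    · simp only [if_true]
      exact isOpen_lt cont_ss continuous_const
    · simp only [one_ne_zero, if_false]
      exact isOpen_lt continuous_const cont_ss

theorem open_BD : IsOpen BD := by
  have e : BD = {y | Complex.normSq (c1 y) < 1} ∩ {y | Complex.normSq (c2 y) < 1} := by
    ext q
    rfl
  rw [e]
  exact (isOpen_lt (Complex.continuous_normSq.comp cont_c1) continuous_const).inter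
    (isOpen_lt (Complex.continuous_normSq.comp cont_c2) continuous_const)

theorem cd_rc {E : Type*} [NormedAddCommGroup E] [NormedSpace ℝ E] {f : E → ℝ} {s : Set E}
    (hf : ContDiffOn ℝ ∞ f s) : ContDiffOn ℝ ∞ (fun x => rc (f x)) s := cd_ofReal hf

theorem rc_ne {t : ℝ} (ht : 0 < t) : rc t ≠ 0 := by
  unfold rc
  exact_mod_cast ht.ne'

/-- smoothness of a chart map, abstract form: `x, y` are the positive functions -/
theorem smooth_aux (x y : A → ℝ) (f g : A → ℂ) (S : Set A) (hx : ContDiffOn ℝ ∞ x S)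
    (hy : ContDiffOn ℝ ∞ y S) (hf : ContDiffOn ℝ ∞ f S) (hg : ContDiffOn ℝ ∞ g S)
    (hx0 : ∀ q ∈ S, 0 < x q) (hy0 : ∀ q ∈ S, 0 < y q) :
    ContDiffOn ℝ ∞ (fun q => mk (f q / rc (Real.sqrt (x q * y q)))
      (g q / rc (x q * Real.sqrt (y q)))) S := by
  refine cd_mk (cd_divc hf (cd_rc ((hx.mul hy).sqrt ?_)) ?_)
    (cd_divc hg (cd_rc (hx.mul (hy.sqrt ?_))) ?_)
  · intro q hq
    exact (mul_pos (hx0 q hq) (hy0 q hq)).ne'
  · intro q hq
    exact rc_ne (Real.sqrt_pos.mpr (mul_pos (hx0 q hq) (hy0 q hq)))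
  · intro q hq
    exact (hy0 q hq).ne'
  · intro q hq
    exact rc_ne (mul_pos (hx0 q hq) (Real.sqrt_pos.mpr (hy0 q hq)))

theorem smooth_ch (i j : Fin 2) : ContDiffOn ℝ ∞ (ch i j) (OO i j) := by
  have hpi : i = 0 ∨ i = 1 := by omega
  have hpj : j = 0 ∨ j = 1 := by omega
  have hr : ContDiffOn ℝ ∞ rr (OO i j) := by
    unfold rr
    exact contDiff_fst.fst.contDiffOn
  have hs : ContDiffOn ℝ ∞ ss (OO i j) := by
    unfold ss
    exact contDiff_fst.snd.contDiffOn
  have h1 : ContDiffOn ℝ ∞ (fun q : A => q.2.1.1) (OO i j) :=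
    contDiff_snd.fst.fst.contDiffOn
  have h2 : ContDiffOn ℝ ∞ (fun q : A => q.2.1.2) (OO i j) :=
    contDiff_snd.fst.snd.contDiffOn
  have h3 : ContDiffOn ℝ ∞ (fun q : A => q.2.2.1) (OO i j) :=
    contDiff_snd.snd.fst.contDiffOn
  have h4 : ContDiffOn ℝ ∞ (fun q : A => q.2.2.2) (OO i j) :=
    contDiff_snd.snd.snd.contDiffOn
  have one : ContDiffOn ℝ ∞ (fun _ : A => (1 : ℝ)) (OO i j) := contDiffOn_const
  rcases hpi with rfl | rfl
  · rcases hpj with rfl | rfl
    · have e : ch 0 0 = fun q => mk (q.2.1.1 / rc (Real.sqrt ((1 - rr q) * (1 - ss q))))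
          (conj q.2.2.2 / rc ((1 - rr q) * Real.sqrt (1 - ss q))) := by
        funext q
        unfold ch
        rw [if_pos rfl, if_pos rfl]
      rw [e]
      refine smooth_aux (fun q => 1 - rr q) (fun q => 1 - ss q) _ _ _ (one.sub hr) (one.sub hs)
        h1 (cd_conj h4) ?_ ?_
      · intro q hq
        have := hq.1
        rw [if_pos rfl] at this
        linarith
      · intro q hq
        have := hq.2
        rw [if_pos rfl] at this
        linarith
    · have e : ch 0 1 = fun q => mk (q.2.1.2 / rc (Real.sqrt ((1 - rr q) * ss q)))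
          (q.2.2.2 / rc ((1 - rr q) * Real.sqrt (ss q))) := by
        funext q
        unfold ch
        rw [if_pos rfl, if_neg (by decide)]
      rw [e]
      refine smooth_aux (fun q => 1 - rr q) (fun q => ss q) _ _ _ (one.sub hr) hs
        h2 h4 ?_ ?_
      · intro q hq
        have := hq.1
        rw [if_pos rfl] at this
        linarith
      · intro q hq
        have := hq.2
        rw [if_neg (by decide)] at this
        exact this
  · rcases hpj with rfl | rfl
    · have e : ch 1 0 = fun q => mk (conj q.2.1.1 / rc (Real.sqrt (rr q * (1 - ss q))))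
          (q.2.2.1 / rc (rr q * Real.sqrt (1 - ss q))) := by
        funext q
        unfold ch
        rw [if_neg (by decide), if_pos rfl]
      rw [e]
      refine smooth_aux (fun q => rr q) (fun q => 1 - ss q) _ _ _ hr (one.sub hs)
        (cd_conj h1) h3 ?_ ?_
      · intro q hq
        have := hq.1
        rw [if_neg (by decide)] at this
        exact this
      · intro q hq
        have := hq.2
        rw [if_pos rfl] at this
        linarith
    · have e : ch 1 1 = fun q => mk (q.2.1.2 / rc (Real.sqrt (rr q * ss q)))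
          (q.2.2.1 / rc (rr q * Real.sqrt (ss q))) := by
        funext q
        unfold ch
        rw [if_neg (by decide), if_neg (by decide)]
      rw [e]
      refine smooth_aux (fun q => rr q) (fun q => ss q) _ _ _ hr hs h2 h3 ?_ ?_
      · intro q hq
        have := hq.1
        rw [if_neg (by decide)] at this
        exact this
      · intro q hq
        have := hq.2
        rw [if_neg (by decide)] at this
        exact this

/-- points of the chart domain come from the section -/
theorem ps_surj (i j : Fin 2) (x : X) (h : PhiX x ∈ OO i j) :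
    ch i j (PhiX x) ∈ BD ∧ ps i j (ch i j (PhiX x)) = PhiX x ∧
      ∃ s t : ℂ, Complex.normSq s = 1 ∧ Complex.normSq t = 1 ∧
      c1 (sg i j (ch i j (PhiX x))).1 = s * c1 (x.1 : U4) ∧
      c2 (sg i j (ch i j (PhiX x))).1 = t * c2 (x.1 : U4) ∧
      c1 (sg i j (ch i j (PhiX x))).2 = s * conj t * c1 (x.2 : U4) ∧
      c2 (sg i j (ch i j (PhiX x))).2 = conj s * conj t * c2 (x.2 : U4) := by
  obtain ⟨s, t, y, hs, ht, hy, e1, e2, e3, e4⟩ := rotX i j x h
  have hps := Phi_of_rot i j x s t y hs ht e1 e2 e3 e4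
  have hch : ch i j (PhiX x) = y := by
    rw [← hps]
    exact ch_ps i j y hy
  rw [hch]
  exact ⟨hy, hps, s, t, hs, ht, e1, e2, e3, e4⟩

theorem cover (x : X) : ∃ i j, PhiX x ∈ OO i j := by
  by_cases h1 : rr (PhiX x) < 1
  · by_cases h2 : ss (PhiX x) < 1
    · refine ⟨0, 0, ?_, ?_⟩
      · rw [if_pos rfl]
        exact h1
      · rw [if_pos rfl]
        exact h2
    · refine ⟨0, 1, ?_, ?_⟩
      · rw [if_pos rfl]
        exact h1
      · rw [if_neg (by decide)]
        linarith
  · by_cases h2 : ss (PhiX x) < 1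
    · refine ⟨1, 0, ?_, ?_⟩
      · rw [if_neg (by decide)]
        linarith
      · rw [if_pos rfl]
        exact h2
    · refine ⟨1, 1, ?_, ?_⟩
      · rw [if_neg (by decide)]
        linarith
      · rw [if_neg (by decide)]
        linarith

theorem cancel1 {s a b : ℂ} (hs : Complex.normSq s = 1) (h : a = s * b) : b = conj s * a := by
  have := conj_mul_of_one hs
  rw [h, ← mul_assoc, this, one_mul]

theorem fib (x y : X) : pr x = pr y ↔ ∃ s t : ℂ, Complex.normSq s = 1 ∧ Complex.normSq t = 1 ∧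
    c1 (y.1 : U4) = s * c1 (x.1 : U4) ∧ c2 (y.1 : U4) = t * c2 (x.1 : U4) ∧
    c1 (y.2 : U4) = s * conj t * c1 (x.2 : U4) ∧
    c2 (y.2 : U4) = conj s * conj t * c2 (x.2 : U4) := by
  constructor
  · intro h
    have h' : PhiX x = PhiX y := by
      have := congrArg Subtype.val h
      exact this
    obtain ⟨i, j, hx⟩ := cover x
    have hy : PhiX y ∈ OO i j := by
      rw [← h']
      exact hx
    obtain ⟨-, -, s1, t1, hs1, ht1, a1, a2, a3, a4⟩ := ps_surj i j x hx
    obtain ⟨-, -, s2, t2, hs2, ht2, b1, b2, b3, b4⟩ := ps_surj i j y hy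
    rw [← h'] at b1 b2 b3 b4
    have hcs2 : Complex.normSq (conj s2) = 1 := by rw [Complex.normSq_conj, hs2]
    have hct2 : Complex.normSq (conj t2) = 1 := by rw [Complex.normSq_conj, ht2]
    refine ⟨conj s2 * s1, conj t2 * t1, ?_, ?_, ?_, ?_, ?_, ?_⟩
    · rw [Complex.normSq_mul, hcs2, hs1, one_mul]
    · rw [Complex.normSq_mul, hct2, ht1, one_mul]
    · rw [cancel1 hs2 b1, a1]
      ring
    · rw [cancel1 ht2 b2, a2]
      ring
    · have hn : Complex.normSq (s2 * conj t2) = 1 := by
        rw [Complex.normSq_mul, hs2, hct2, one_mul]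
      rw [cancel1 hn b3, a3, map_mul, map_mul, Complex.conj_conj]
      ring
    · have hn : Complex.normSq (conj s2 * conj t2) = 1 := by
        rw [Complex.normSq_mul, hcs2, hct2, one_mul]
      rw [cancel1 hn b4, a4, map_mul, map_mul, map_mul, Complex.conj_conj, Complex.conj_conj]
      ring
  · rintro ⟨s, t, hs, ht, e1, e2, e3, e4⟩
    apply Subtype.ext
    unfold pr
    simp only
    unfold PhiX Phi
    simp only
    rw [e1, e2, e3, e4]
    exact (Phi4_act s t _ _ _ _ hs ht).symm

theorem rank_U4 : 1 < Module.rank ℝ U4 := by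
  have h : Module.finrank ℝ U4 = 4 := by
    simp
  have h2 : (1 : Cardinal) < ((Module.finrank ℝ U4 : ℕ) : Cardinal) := by
    rw [h]
    norm_num
  rw [Module.finrank_eq_rank] at h2
  exact h2

theorem conn_S3 : ConnectedSpace S3 :=
  isConnected_iff_connectedSpace.mp (isConnected_sphere rank_U4 (0 : U4) zero_le_one)

end Q0p

open Q0p in
theorem s_q0 : S_Q0 where
  compact := by
    unfold MS
    exact isCompact_range cont_PhiX
  conn := by
    unfold MS
    have := conn_S3
    exact isConnected_range cont_PhiX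
  fib := fib
  open_BD := open_BD
  open_OO := open_OO
  cover := by
    rintro q ⟨x, rfl⟩
    exact cover x
  smooth_sg := smooth_sg
  norm_sg := norm_sg
  smooth_ps := fun i j => cd_Phi (smooth_sg i j)
  smooth_ch := smooth_ch
  ps_mem := ps_mem
  ch_mem := by
    rintro i j q ⟨x, rfl⟩ h
    exact (ps_surj i j x h).1
  ch_ps := ch_ps
  ps_ch := by
    rintro i j q ⟨x, rfl⟩ h
    exact (ps_surj i j x h).2.1

end Pool.Agent.H781.CM.Q
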