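import Pool.Agent.H781.CM.Q0p

/-!
The smooth manifold `M = (S³ × S³) / T²`.
-/

set_option autoImplicit false

open Bundle Manifold ContDiff Metric Set
open scoped Topology ComplexConjugate

noncomputable section

namespace Pool.Agent.H781.CM.Q

instance : Nonempty M := by
  obtain ⟨q, hq⟩ := s_q0.conn.nonempty
  exact ⟨⟨q, hq⟩⟩

instance : CompactSpace M := isCompact_iff_compactSpace.1 s_q0.compact

instance : ConnectedSpace M := isConnected_iff_connectedSpace.1 s_q0.conn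

instance : T2Space M := inferInstance

open Classical in
/-- the parametrisation with values in `M` -/
def psM (i j : Fin 2) (y : U4) : M :=
  if h : ps i j y ∈ MS then ⟨ps i j y, h⟩ else Classical.arbitrary M

theorem psM_val {i j : Fin 2} {y : U4} (hy : y ∈ BD) : (psM i j y : A) = ps i j y := by
  unfold psM
  rw [dif_pos (s_q0.ps_mem i j y hy).1]

/-- the domain of the chart -/
def DM (i j : Fin 2) : Set M := {q : M | q.1 ∈ OO i j}

theorem isOpen_DM (i j : Fin 2) : IsOpen (DM i j) :=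
  (s_q0.open_OO i j).preimage continuous_subtype_val

theorem psM_mem {i j : Fin 2} {y : U4} (hy : y ∈ BD) : psM i j y ∈ DM i j := by
  change (psM i j y : A) ∈ OO i j
  rw [psM_val hy]
  exact (s_q0.ps_mem i j y hy).2

theorem chM_mem {i j : Fin 2} {q : M} (hq : q ∈ DM i j) : ch i j q.1 ∈ BD :=
  s_q0.ch_mem i j q.1 q.2 hq

theorem chM_psM {i j : Fin 2} {y : U4} (hy : y ∈ BD) : ch i j (psM i j y : A) = y := by
  rw [psM_val hy]
  exact s_q0.ch_ps i j y hy

theorem psM_chM {i j : Fin 2} {q : M} (hq : q ∈ DM i j) : psM i j (ch i j q.1) = q := by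
  apply Subtype.ext
  rw [psM_val (chM_mem hq)]
  exact s_q0.ps_ch i j q.1 q.2 hq

theorem psM_inj (i j : Fin 2) : Set.InjOn (psM i j) BD := by
  intro x hx y hy h
  rw [← chM_psM (i := i) (j := j) hx, h, chM_psM hy]

theorem psM_image (i j : Fin 2) : psM i j '' BD = DM i j := by
  ext q
  constructor
  · rintro ⟨y, hy, rfl⟩
    exact psM_mem hy
  · intro hq
    exact ⟨_, chM_mem hq, psM_chM hq⟩

/-- the charts of `M` -/
def chart (i j : Fin 2) : OpenPartialHomeomorph M U4 where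
  toFun q := ch i j q.1
  invFun := psM i j
  source := DM i j
  target := BD
  map_source' _ hq := chM_mem hq
  map_target' _ hy := psM_mem hy
  left_inv' _ hq := psM_chM hq
  right_inv' _ hy := chM_psM hy
  open_source := isOpen_DM i j
  open_target := s_q0.open_BD
  continuousOn_toFun := (s_q0.smooth_ch i j).continuousOn.comp
    continuous_subtype_val.continuousOn (fun _ hq => hq)
  continuousOn_invFun := by
    rw [Topology.IsInducing.subtypeVal.continuousOn_iff]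
    exact (s_q0.smooth_ps i j).continuousOn.congr fun y hy => psM_val hy

theorem exists_DM (q : M) : ∃ i j, q ∈ DM i j := s_q0.cover q.1 q.2

/-- the chart indices at `q` -/
def ci (q : M) : Fin 2 := (exists_DM q).choose

/-- the chart indices at `q` -/
def cj (q : M) : Fin 2 := (exists_DM q).choose_spec.choose

theorem mem_cij (q : M) : q ∈ DM (ci q) (cj q) := (exists_DM q).choose_spec.choose_spec

instance instChartedSpaceM : ChartedSpace U4 M where
  atlas := {e | ∃ i j, e = chart i j}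
  chartAt q := chart (ci q) (cj q)
  mem_chart_source q := mem_cij q
  chart_mem_atlas _ := ⟨_, _, rfl⟩

theorem chart_mem_atlas' (i j : Fin 2) : chart i j ∈ atlas U4 M := ⟨i, j, rfl⟩

instance instIsManifoldM : IsManifold (𝓡 4) ∞ M := by
  refine isManifold_of_contDiffOn (𝓡 4) ∞ M ?_
  rintro _ _ ⟨i, j, rfl⟩ ⟨k, l, rfl⟩
  have h1 : ContDiffOn ℝ ∞ (ch k l ∘ ps i j) (BD ∩ ps i j ⁻¹' OO k l) :=
    (s_q0.smooth_ch k l).comp ((s_q0.smooth_ps i j).mono inter_subset_left) (fun y hy => hy.2)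
  have h2 : ContDiffOn ℝ ∞ (ch k l ∘ (fun y => (psM i j y : A))) (BD ∩ ps i j ⁻¹' OO k l) :=
    h1.congr fun y hy => by
      simp only [Function.comp]
      rw [psM_val hy.1]
  refine h2.mono ?_
  rintro y hy
  simp only [modelWithCornersSelf_coe_symm, modelWithCornersSelf_coe, range_id, inter_univ,
    preimage_id_eq, id, OpenPartialHomeomorph.trans_source, OpenPartialHomeomorph.symm_source]
    at hy
  obtain ⟨hy1, hy2⟩ := hy
  refine ⟨hy1, ?_⟩
  have : (psM i j y : A) ∈ OO k l := hy2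
  rw [psM_val hy1] at this
  exact this

theorem chart_mem_max (i j : Fin 2) : chart i j ∈ IsManifold.maximalAtlas (𝓡 4) ∞ M :=
  IsManifold.subset_maximalAtlas (chart_mem_atlas' i j)

theorem chM_smooth (i j : Fin 2) :
    ContMDiffOn (𝓡 4) 𝓘(ℝ, U4) ∞ (fun q : M => ch i j q.1) (DM i j) :=
  contMDiffOn_of_mem_maximalAtlas (chart_mem_max i j)

theorem psM_smooth (i j : Fin 2) : ContMDiffOn 𝓘(ℝ, U4) (𝓡 4) ∞ (psM i j) BD :=
  contMDiffOn_symm_of_mem_maximalAtlas (chart_mem_max i j)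

/-- the inclusion is smooth -/
theorem incl_smooth : ContMDiff (𝓡 4) 𝓘(ℝ, A) ∞ (Subtype.val : M → A) := by
  intro q
  obtain ⟨i, j, hq⟩ := exists_DM q
  have h1 : ContMDiffOn (𝓡 4) 𝓘(ℝ, A) ∞ (fun q : M => ps i j (ch i j q.1)) (DM i j) :=
    (s_q0.smooth_ps i j).contMDiffOn.comp (chM_smooth i j) (fun _ h => chM_mem h)
  have h2 : ContMDiffOn (𝓡 4) 𝓘(ℝ, A) ∞ (Subtype.val : M → A) (DM i j) :=
    h1.congr fun q hq => (s_q0.ps_ch i j q.1 q.2 hq).symm
  exact h2.contMDiffAt ((isOpen_DM i j).mem_nhds hq)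

section lift
variable {F : Type*} [NormedAddCommGroup F] [NormedSpace ℝ F] {G : Type*} [TopologicalSpace G]
  {J : ModelWithCorners ℝ F G} {N : Type*} [TopologicalSpace N] [ChartedSpace G N]

theorem lift_within {f : N → M} {s : Set N} {x : N}
    (hf : ContMDiffWithinAt J 𝓘(ℝ, A) ∞ (fun y => (f y : A)) s x) :
    ContMDiffWithinAt J (𝓡 4) ∞ f s x := by
  have hc : ContinuousWithinAt f s x :=
    Topology.IsInducing.subtypeVal.continuousWithinAt_iff.2 hf.continuousWithinAt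
  obtain ⟨i, j, hq⟩ := exists_DM (f x)
  have hev : ∀ᶠ y in 𝓝[s] x, f y ∈ DM i j := hc ((isOpen_DM i j).mem_nhds hq)
  have h1 : ContMDiffAt 𝓘(ℝ, A) 𝓘(ℝ, U4) ∞ (ch i j) (f x : A) :=
    ((s_q0.smooth_ch i j).contDiffAt ((s_q0.open_OO i j).mem_nhds hq)).contMDiffAt
  have h2 : ContMDiffAt 𝓘(ℝ, U4) (𝓡 4) ∞ (psM i j) (ch i j (f x : A)) :=
    (psM_smooth i j).contMDiffAt (s_q0.open_BD.mem_nhds (chM_mem hq))
  have h3 : ContMDiffWithinAt J (𝓡 4) ∞ (fun y => psM i j (ch i j (f y : A))) s x :=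
    h2.comp_contMDiffWithinAt x (h1.comp_contMDiffWithinAt x hf)
  refine h3.congr_of_eventuallyEq (hev.mono fun y hy => (psM_chM hy).symm) (psM_chM hq).symm

theorem lift_smoothOn {f : N → M} {s : Set N}
    (hf : ContMDiffOn J 𝓘(ℝ, A) ∞ (fun y => (f y : A)) s) : ContMDiffOn J (𝓡 4) ∞ f s :=
  fun x hx => lift_within (hf x hx)

theorem lift_smooth {f : N → M} (hf : ContMDiff J 𝓘(ℝ, A) ∞ (fun y => (f y : A))) :
    ContMDiff J (𝓡 4) ∞ f := fun x => lift_within (hf x)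

end lift

/-! ### derivatives of the charts and of the inclusion -/

theorem mdiff_chM {i j : Fin 2} {q : M} (hq : q ∈ DM i j) :
    MDifferentiableAt (𝓡 4) 𝓘(ℝ, U4) (fun q : M => ch i j q.1) q :=
  ((chM_smooth i j).contMDiffAt ((isOpen_DM i j).mem_nhds hq)).mdifferentiableAt (by simp)

theorem mdiff_psM {i j : Fin 2} {y : U4} (hy : y ∈ BD) :
    MDifferentiableAt 𝓘(ℝ, U4) (𝓡 4) (psM i j) y :=
  ((psM_smooth i j).contMDiffAt (s_q0.open_BD.mem_nhds hy)).mdifferentiableAt (by simp)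

theorem mdiff_incl (q : M) : MDifferentiableAt (𝓡 4) 𝓘(ℝ, A) (Subtype.val : M → A) q :=
  (incl_smooth q).mdifferentiableAt (by simp)

/-- `d ch ∘ d psM = id` -/
theorem deriv_ch_ps (i j : Fin 2) {y : U4} (hy : y ∈ BD) (v : U4) :
    mfderiv (𝓡 4) 𝓘(ℝ, U4) (fun q : M => ch i j q.1) (psM i j y)
      (mfderiv 𝓘(ℝ, U4) (𝓡 4) (psM i j) y v) = v := by
  have h1 : mfderiv 𝓘(ℝ, U4) 𝓘(ℝ, U4) ((fun q : M => ch i j q.1) ∘ psM i j) y =
      (mfderiv (𝓡 4) 𝓘(ℝ, U4) (fun q : M => ch i j q.1) (psM i j y)).comp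
        (mfderiv 𝓘(ℝ, U4) (𝓡 4) (psM i j) y) :=
    mfderiv_comp y (mdiff_chM (psM_mem hy)) (mdiff_psM hy)
  have h2 : ((fun q : M => ch i j q.1) ∘ psM i j) =ᶠ[𝓝 y] id := by
    filter_upwards [s_q0.open_BD.mem_nhds hy] with z hz using chM_psM hz
  rw [h2.mfderiv_eq, mfderiv_id] at h1
  have h3 := congrArg (fun L => L v) h1
  exact h3.symm

/-- `d psM ∘ d ch = id` -/
theorem deriv_ps_ch (i j : Fin 2) {q : M} (hq : q ∈ DM i j) (v : TangentSpace (𝓡 4) q) :
    (mfderiv 𝓘(ℝ, U4) (𝓡 4) (psM i j) (ch i j q.1)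
      (mfderiv (𝓡 4) 𝓘(ℝ, U4) (fun q : M => ch i j q.1) q v) : U4) = v := by
  have h1 : mfderiv (𝓡 4) (𝓡 4) (psM i j ∘ (fun q : M => ch i j q.1)) q =
      (mfderiv 𝓘(ℝ, U4) (𝓡 4) (psM i j) (ch i j q.1)).comp
        (mfderiv (𝓡 4) 𝓘(ℝ, U4) (fun q : M => ch i j q.1) q) :=
    mfderiv_comp q (mdiff_psM (chM_mem hq)) (mdiff_chM hq)
  have h2 : (psM i j ∘ (fun q : M => ch i j q.1)) =ᶠ[𝓝 q] id := by
    filter_upwards [(isOpen_DM i j).mem_nhds hq] with z hz using psM_chM hz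
  have h4 : mfderiv (𝓡 4) (𝓡 4) (psM i j ∘ (fun q : M => ch i j q.1)) q =
      mfderiv (𝓡 4) (𝓡 4) (id : M → M) q := h2.mfderiv_eq
  rw [mfderiv_id] at h4
  have h3 := congrArg (fun L => L v) (h1.symm.trans h4)
  exact h3

theorem deriv_ch_injective (i j : Fin 2) {q : M} (hq : q ∈ DM i j) :
    Function.Injective (mfderiv (𝓡 4) 𝓘(ℝ, U4) (fun q : M => ch i j q.1) q) := by
  intro v w h
  rw [← deriv_ps_ch i j hq v, h]
  exact deriv_ps_ch i j hq w

theorem deriv_ps_injective (i j : Fin 2) {y : U4} (hy : y ∈ BD) :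
    Function.Injective (mfderiv 𝓘(ℝ, U4) (𝓡 4) (psM i j) y) := by
  intro v w h
  have h1 := deriv_ch_ps i j hy v
  have h2 := deriv_ch_ps i j hy w
  rw [h] at h1
  exact h1.symm.trans h2

theorem deriv_ps_surjective (i j : Fin 2) {y : U4} (hy : y ∈ BD) :
    Function.Surjective (mfderiv 𝓘(ℝ, U4) (𝓡 4) (psM i j) y) := by
  intro w
  have h := deriv_ps_ch i j (psM_mem hy (i := i) (j := j)) w
  rw [chM_psM hy] at h
  exact ⟨_, h⟩

theorem deriv_ps_bijective (i j : Fin 2) {y : U4} (hy : y ∈ BD) :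
    Function.Bijective (mfderiv 𝓘(ℝ, U4) (𝓡 4) (psM i j) y) :=
  ⟨deriv_ps_injective i j hy, deriv_ps_surjective i j hy⟩

/-- the inclusion is an immersion -/
theorem incl_inj (x : M) (v : TangentSpace (𝓡 4) x)
    (hv : mfderiv (𝓡 4) 𝓘(ℝ, A) (Subtype.val : M → A) x v = 0) : v = 0 := by
  obtain ⟨i, j, hq⟩ := exists_DM x
  have h1 : mfderiv (𝓡 4) 𝓘(ℝ, U4) (ch i j ∘ (Subtype.val : M → A)) x =
      (mfderiv 𝓘(ℝ, A) 𝓘(ℝ, U4) (ch i j) (x : A)).comp
        (mfderiv (𝓡 4) 𝓘(ℝ, A) (Subtype.val : M → A) x) := by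
    refine mfderiv_comp x ?_ (mdiff_incl x)
    exact (((s_q0.smooth_ch i j).contDiffAt
      ((s_q0.open_OO i j).mem_nhds hq)).contMDiffAt).mdifferentiableAt (by simp)
  apply deriv_ch_injective i j hq
  have h2 := congrArg (fun L => L v) h1
  have h3 : mfderiv (𝓡 4) 𝓘(ℝ, U4) (fun q : M => ch i j q.1) x v =
      mfderiv 𝓘(ℝ, A) 𝓘(ℝ, U4) (ch i j) (x : A)
        (mfderiv (𝓡 4) 𝓘(ℝ, A) (Subtype.val : M → A) x v) := h2
  rw [h3, hv, map_zero, map_zero]

/-! ### maps into the spheres -/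

section sphere

theorem fact4 : Fact (Module.finrank ℝ U4 = 3 + 1) := ⟨by simp⟩

variable {F : Type*} [NormedAddCommGroup F] [NormedSpace ℝ F] {G : Type*} [TopologicalSpace G]
  {J : ModelWithCorners ℝ F G} {N : Type*} [TopologicalSpace N] [ChartedSpace G N]

theorem sph_within {f : N → S3} {s : Set N} {x : N}
    (hf : ContMDiffWithinAt J 𝓘(ℝ, U4) ∞ (fun y => (f y : U4)) s x) :
    ContMDiffWithinAt J (𝓡 3) ∞ f s x := by
  have := fact4
  rw [contMDiffWithinAt_iff_target]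
  refine ⟨Topology.IsInducing.subtypeVal.continuousWithinAt_iff.2 hf.continuousWithinAt, ?_⟩
  let U : _ ≃ₗᵢ[ℝ] _ := (OrthonormalBasis.fromOrthogonalSpanSingleton (𝕜 := ℝ)
    3 (ne_zero_of_mem_unit_sphere (-(f x)))).repr
  have hnorm : ‖(f x : U4)‖ = 1 := norm_eq_of_mem_sphere (f x)
  have h1 : ContDiffAt ℝ ∞ (stereoToFun (-(f x) : U4)) (f x : U4) := by
    refine contDiffOn_stereoToFun.contDiffAt (IsOpen.mem_nhds ?_ ?_)
    · exact isOpen_ne_fun (innerSL ℝ (-(f x) : U4)).continuous continuous_const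
    · change innerSL ℝ (-(f x) : U4) (f x : U4) ≠ 1
      rw [innerSL_apply_apply, inner_neg_left, real_inner_self_eq_norm_sq, hnorm]
      norm_num
  have h2 : ContDiffAt ℝ ∞ (fun z : U4 => U (stereoToFun (-(f x) : U4) z)) (f x : U4) :=
    U.contDiff.contDiffAt.comp _ h1
  have h3 : ContMDiffWithinAt J 𝓘(ℝ, EuclideanSpace ℝ (Fin 3)) ∞
      ((fun z : U4 => U (stereoToFun (-(f x) : U4) z)) ∘ fun y => (f y : U4)) s x :=
    h2.contMDiffAt.comp_contMDiffWithinAt x hf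
  exact h3

theorem sphX_within {f : N → X} {s : Set N} {x : N}
    (h1 : ContMDiffWithinAt J 𝓘(ℝ, U4) ∞ (fun y => ((f y).1 : U4)) s x)
    (h2 : ContMDiffWithinAt J 𝓘(ℝ, U4) ∞ (fun y => ((f y).2 : U4)) s x) :
    ContMDiffWithinAt J ((𝓡 3).prod (𝓡 3)) ∞ f s x :=
  (sph_within (f := fun y => (f y).1) h1).prodMk (sph_within (f := fun y => (f y).2) h2)

theorem coe_smooth : ContMDiff (𝓡 3) 𝓘(ℝ, U4) ∞ ((↑) : S3 → U4) :=
  haveI := fact4
  contMDiff_coe_sphere

theorem fst_smooth : ContMDiff ((𝓡 3).prod (𝓡 3)) 𝓘(ℝ, U4) ∞ (fun x : X => (x.1 : U4)) :=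
  coe_smooth.comp contMDiff_fst

theorem snd_smooth : ContMDiff ((𝓡 3).prod (𝓡 3)) 𝓘(ℝ, U4) ∞ (fun x : X => (x.2 : U4)) :=
  coe_smooth.comp contMDiff_snd

end sphere

theorem contDiff_c1 : ContDiff ℝ ∞ c1 := by
  have h : c1 = fun x : U4 => ((x 0 : ℝ) : ℂ) + ((x 1 : ℝ) : ℂ) * Complex.I := by
    funext x
    apply Complex.ext <;> simp [c1]
  rw [h]
  exact (Complex.ofRealCLM.contDiff.comp (by fun_prop)).add
    ((Complex.ofRealCLM.contDiff.comp (by fun_prop)).mul contDiff_const)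

theorem contDiff_c2 : ContDiff ℝ ∞ c2 := by
  have h : c2 = fun x : U4 => ((x 2 : ℝ) : ℂ) + ((x 3 : ℝ) : ℂ) * Complex.I := by
    funext x
    apply Complex.ext <;> simp [c2]
  rw [h]
  exact (Complex.ofRealCLM.contDiff.comp (by fun_prop)).add
    ((Complex.ofRealCLM.contDiff.comp (by fun_prop)).mul contDiff_const)

theorem contDiff_conj : ContDiff ℝ ∞ (fun z : ℂ => conj z) := Complex.conjCLE.contDiff

theorem contDiff_normSq : ContDiff ℝ ∞ Complex.normSq := by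
  have h : (Complex.normSq : ℂ → ℝ) = fun z => z.re * z.re + z.im * z.im := by
    funext z
    exact Complex.normSq_apply z
  rw [h]
  exact (Complex.reCLM.contDiff.mul Complex.reCLM.contDiff).add
    (Complex.imCLM.contDiff.mul Complex.imCLM.contDiff)

theorem contDiff_Phi : ContDiff ℝ ∞ Phi := by
  have h1 : ContDiff ℝ ∞ (fun x : U4 × U4 => c1 x.1) := contDiff_c1.comp contDiff_fst
  have h2 : ContDiff ℝ ∞ (fun x : U4 × U4 => c2 x.1) := contDiff_c2.comp contDiff_fst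
  have h3 : ContDiff ℝ ∞ (fun x : U4 × U4 => c1 x.2) := contDiff_c1.comp contDiff_snd
  have h4 : ContDiff ℝ ∞ (fun x : U4 × U4 => c2 x.2) := contDiff_c2.comp contDiff_snd
  have g1 : ContDiff ℝ ∞ (fun x : U4 × U4 => conj (c1 x.1)) := contDiff_conj.comp h1
  have g4 : ContDiff ℝ ∞ (fun x : U4 × U4 => conj (c2 x.2)) := contDiff_conj.comp h4
  unfold Phi Phi4
  exact ((contDiff_normSq.comp h2).prodMk (contDiff_normSq.comp h4)).prodMk
    ((((g1.mul h2).mul h3).prodMk ((h1.mul h2).mul h4)).prodMk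
      ((((h2.pow 2).mul h3).mul h4).prodMk (((g1.pow 2).mul h3).mul g4)))

theorem PhiX_smooth : ContMDiff ((𝓡 3).prod (𝓡 3)) 𝓘(ℝ, A) ∞ PhiX := by
  have h : ContMDiff ((𝓡 3).prod (𝓡 3)) 𝓘(ℝ, U4 × U4) ∞
      (fun x : X => ((x.1 : U4), (x.2 : U4))) := fst_smooth.prodMk_space snd_smooth
  exact contDiff_Phi.contMDiff.comp h

/-- the projection is smooth -/
theorem pr_smooth : ContMDiff ((𝓡 3).prod (𝓡 3)) (𝓡 4) ∞ pr := lift_smooth PhiX_smooth

theorem pr_surj : Function.Surjective pr := by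
  rintro ⟨q, x, rfl⟩
  exact ⟨x, rfl⟩

/-! ### local sections -/

open Classical in
/-- the section over the chart domain `(i, j)`, with values in `S³ × S³` -/
def sgX (i j : Fin 2) (q : M) : X :=
  if h : q ∈ DM i j then
    (⟨(sg i j (ch i j q.1)).1, by
      rw [mem_sphere_zero_iff_norm]
      exact (s_q0.norm_sg i j _ (chM_mem h)).1⟩,
    ⟨(sg i j (ch i j q.1)).2, by
      rw [mem_sphere_zero_iff_norm]
      exact (s_q0.norm_sg i j _ (chM_mem h)).2⟩)
  else (pr_surj q).choose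

theorem sgX_fst {i j : Fin 2} {q : M} (hq : q ∈ DM i j) :
    ((sgX i j q).1 : U4) = (sg i j (ch i j q.1)).1 := by
  unfold sgX
  rw [dif_pos hq]

theorem sgX_snd {i j : Fin 2} {q : M} (hq : q ∈ DM i j) :
    ((sgX i j q).2 : U4) = (sg i j (ch i j q.1)).2 := by
  unfold sgX
  rw [dif_pos hq]

theorem pr_sgX (i j : Fin 2) (q : M) : pr (sgX i j q) = q := by
  by_cases hq : q ∈ DM i j
  · apply Subtype.ext
    change Phi (((sgX i j q).1 : U4), ((sgX i j q).2 : U4)) = q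
    rw [sgX_fst hq, sgX_snd hq]
    exact s_q0.ps_ch i j q.1 q.2 hq
  · unfold sgX
    rw [dif_neg hq]
    exact (pr_surj q).choose_spec

theorem sgX_smooth (i j : Fin 2) :
    ContMDiffOn (𝓡 4) ((𝓡 3).prod (𝓡 3)) ∞ (sgX i j) (DM i j) := by
  have h1 : ContMDiffOn (𝓡 4) 𝓘(ℝ, U4) ∞ (fun q : M => (sg i j (ch i j q.1)).1) (DM i j) :=
    ((contDiff_fst.comp_contDiffOn (s_q0.smooth_sg i j)).contMDiffOn).comp (chM_smooth i j)
      (fun _ h => chM_mem h)
  have h2 : ContMDiffOn (𝓡 4) 𝓘(ℝ, U4) ∞ (fun q : M => (sg i j (ch i j q.1)).2) (DM i j) :=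
    ((contDiff_snd.comp_contDiffOn (s_q0.smooth_sg i j)).contMDiffOn).comp (chM_smooth i j)
      (fun _ h => chM_mem h)
  intro q hq
  exact sphX_within ((h1.congr fun q hq => sgX_fst hq) q hq) ((h2.congr fun q hq => sgX_snd hq) q hq)

/-! ### the torus action -/

@[simp] theorem c1_mk (z w : ℂ) : c1 (mk z w) = z := by
  apply Complex.ext <;> simp [c1, mk]

@[simp] theorem c2_mk (z w : ℂ) : c2 (mk z w) = w := by
  apply Complex.ext <;> simp [c2, mk]

theorem mk_c (x : U4) : mk (c1 x) (c2 x) = x := by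
  ext i
  fin_cases i <;> simp [c1, c2, mk]

theorem norm_sq_eq (x : U4) : ‖x‖ ^ 2 = Complex.normSq (c1 x) + Complex.normSq (c2 x) := by
  rw [EuclideanSpace.norm_sq_eq, Fin.sum_univ_four]
  simp only [Complex.normSq_apply, c1, c2, Real.norm_eq_abs, sq_abs]
  ring

/-- the diagonal unitary map `(z, w) ↦ (s z, t w)` -/
def dg (s t : ℂ) (x : U4) : U4 := mk (s * c1 x) (t * c2 x)

theorem norm_dg (s t : ℂ) (hs : Complex.normSq s = 1) (ht : Complex.normSq t = 1) (x : U4) :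
    ‖dg s t x‖ = ‖x‖ := by
  have h : ‖dg s t x‖ ^ 2 = ‖x‖ ^ 2 := by
    rw [norm_sq_eq, norm_sq_eq]
    simp [dg, hs, ht]
  exact (sq_eq_sq₀ (norm_nonneg _) (norm_nonneg _)).1 h

theorem contDiff_mk : ContDiff ℝ ∞ (fun p : ℂ × ℂ => mk p.1 p.2) := by
  rw [contDiff_euclidean]
  intro i
  fin_cases i
  · exact Complex.reCLM.contDiff.comp contDiff_fst
  · exact Complex.imCLM.contDiff.comp contDiff_fst
  · exact Complex.reCLM.contDiff.comp contDiff_snd
  · exact Complex.imCLM.contDiff.comp contDiff_snd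

theorem contDiff_dg (s t : ℂ) : ContDiff ℝ ∞ (dg s t) := by
  have h : ContDiff ℝ ∞ (fun x : U4 => (s * c1 x, t * c2 x)) :=
    (contDiff_const.mul contDiff_c1).prodMk (contDiff_const.mul contDiff_c2)
  exact contDiff_mk.comp h

/-- the action of `(s, t)` on `S³ × S³` -/
def rot (s t : ℂ) (hs : Complex.normSq s = 1) (ht : Complex.normSq t = 1) (x : X) : X :=
  (⟨dg s t x.1, by
      rw [mem_sphere_zero_iff_norm, norm_dg s t hs ht]
      exact norm_eq_of_mem_sphere x.1⟩,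
    ⟨dg (s * conj t) (conj s * conj t) x.2, by
      rw [mem_sphere_zero_iff_norm, norm_dg _ _ (by simp [hs, ht]) (by simp [hs, ht])]
      exact norm_eq_of_mem_sphere x.2⟩)

theorem rot_smooth (s t : ℂ) (hs : Complex.normSq s = 1) (ht : Complex.normSq t = 1) :
    ContMDiff ((𝓡 3).prod (𝓡 3)) ((𝓡 3).prod (𝓡 3)) ∞ (rot s t hs ht) := by
  intro x
  refine sphX_within (s := univ) ?_ ?_
  · exact ((contDiff_dg s t).contMDiff.comp fst_smooth) x
  · exact ((contDiff_dg (s * conj t) (conj s * conj t)).contMDiff.comp snd_smooth) x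

theorem pr_rot (s t : ℂ) (hs : Complex.normSq s = 1) (ht : Complex.normSq t = 1) (x : X) :
    pr (rot s t hs ht x) = pr x := by
  symm
  rw [s_q0.fib]
  refine ⟨s, t, hs, ht, ?_, ?_, ?_, ?_⟩ <;> simp [rot, dg]

theorem exists_rot {x y : X} (h : pr x = pr y) : ∃ (s t : ℂ) (hs : Complex.normSq s = 1)
    (ht : Complex.normSq t = 1), rot s t hs ht x = y := by
  obtain ⟨s, t, hs, ht, h1, h2, h3, h4⟩ := (s_q0.fib x y).1 h
  refine ⟨s, t, hs, ht, ?_⟩
  apply Prod.ext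
  · apply Subtype.ext
    change mk (s * c1 (x.1 : U4)) (t * c2 (x.1 : U4)) = y.1
    rw [← h1, ← h2, mk_c]
  · apply Subtype.ext
    change mk (s * conj t * c1 (x.2 : U4)) (conj s * conj t * c2 (x.2 : U4)) = y.2
    rw [← h3, ← h4, mk_c]

/-- the projection is a submersion -/
theorem prm_deriv (x : X) :
    Function.Surjective (mfderiv ((𝓡 3).prod (𝓡 3)) (𝓡 4) pr x) := by
  obtain ⟨i, j, hq⟩ := exists_DM (pr x)
  set q : M := pr x with hqdef
  have hx0 : pr (sgX i j q) = q := pr_sgX i j q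
  obtain ⟨s, t, hs, ht, hr⟩ := exists_rot (x := sgX i j q) (y := x) (hx0.trans hqdef)
  -- the map `rot ∘ sgX` is a section near `q`
  have hsg : ContMDiffAt (𝓡 4) ((𝓡 3).prod (𝓡 3)) ∞ (sgX i j) q :=
    (sgX_smooth i j).contMDiffAt ((isOpen_DM i j).mem_nhds hq)
  have hsec : MDifferentiableAt (𝓡 4) ((𝓡 3).prod (𝓡 3)) (rot s t hs ht ∘ sgX i j) q :=
    ((rot_smooth s t hs ht).contMDiffAt.comp q hsg).mdifferentiableAt (by simp)
  have hval : (rot s t hs ht ∘ sgX i j) q = x := hr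
  have hid : pr ∘ (rot s t hs ht ∘ sgX i j) = (id : M → M) := by
    funext p
    simp only [Function.comp, pr_rot, pr_sgX, id]
  have hpr : MDifferentiableAt ((𝓡 3).prod (𝓡 3)) (𝓡 4) pr ((rot s t hs ht ∘ sgX i j) q) :=
    (pr_smooth _).mdifferentiableAt (by simp)
  have h1 := mfderiv_comp q hpr hsec
  have h2 : mfderiv (𝓡 4) (𝓡 4) (pr ∘ (rot s t hs ht ∘ sgX i j)) q =
      mfderiv (𝓡 4) (𝓡 4) (id : M → M) q := by rw [hid]
  rw [mfderiv_id] at h2
  intro w
  have h3 := congrArg (fun L => L w) (h1.symm.trans h2)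
  have h4 : mfderiv ((𝓡 3).prod (𝓡 3)) (𝓡 4) pr ((rot s t hs ht ∘ sgX i j) q)
      (mfderiv (𝓡 4) ((𝓡 3).prod (𝓡 3)) (rot s t hs ht ∘ sgX i j) q w) = w := h3
  rw [← hval]
  exact ⟨_, h4⟩

end Pool.Agent.H781.CM.Q
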