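import Pool.Agent.H781.CM.Q0

/-!
Specification of the cohomological part of project Q: local forms, charts, Poincaré lemmas.
-/

set_option autoImplicit false

open Bundle Manifold ContDiff VectorField
open scoped Topology ComplexConjugate

noncomputable section

namespace Pool.Agent.H781.CM.Q

open Pool.Agent.H781.CM.F

section loc

variable {E : Type*} [NormedAddCommGroup E] [NormedSpace ℝ E]
  {H : Type*} [TopologicalSpace H] {I : ModelWithCorners ℝ E H}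
  {M : Type*} [TopologicalSpace M] [ChartedSpace H M] [IsManifold I ∞ M]

/-- `α` is a smooth differential form on the open set `O` -/
def IsFormOn (O : Set M) {p : ℕ} (α : DF I M p) : Prop :=
  (∀ x ∈ O, ∃ A : (TangentSpace I x) [⋀^Fin p]→ₗ[ℝ] ℝ, ∀ v, α x v = A v) ∧
  ∀ Y : Fin p → Π x : M, TangentSpace I x, (∀ i, CMDiff ∞ (T% (Y i))) →
    ContMDiffOn I 𝓘(ℝ, ℝ) ∞ (fun x => α x (fun i => Y i x)) O

/-- `β = dα` on the open set `O` -/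
def IsDOn (O : Set M) {p : ℕ} (α : DF I M p) (β : DF I M (p + 1)) : Prop :=
  ∀ Y : Fin (p + 1) → Π x : M, TangentSpace I x, (∀ i, CMDiff ∞ (T% (Y i))) → ∀ x ∈ O,
    β x (fun i => Y i x) = ∑ j : Fin (p + 1), (-1 : ℝ) ^ (j : ℕ) *
      (d% (fun y => α y (fun k => j.removeNth Y k y)) x (Y j x) +
        ∑ i : Fin p, if (i : ℕ) < (j : ℕ) then
          α x (Function.update (fun k => j.removeNth Y k x) i
            (mlieBracket I (Y i.castSucc) (Y j) x)) else 0)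

end loc

/-- `ℝⁿ` -/
abbrev EV (n : ℕ) : Type := EuclideanSpace ℝ (Fin n)

/-- `ψ : V → U` is a smooth parametrisation of the open set `U` of `M` with inverse `φ` -/
structure Par {n : ℕ} {M : Type} [TopologicalSpace M] [ChartedSpace (EV n) M]
    [IsManifold (𝓡 n) ∞ M] (V : Set (EV n)) (U : Set M) (ψ : EV n → M) (φ : M → EV n) :
    Prop where
  oV : IsOpen V
  oU : IsOpen U
  smψ : ContMDiffOn 𝓘(ℝ, EV n) (𝓡 n) ∞ ψ V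
  smφ : ContMDiffOn (𝓡 n) 𝓘(ℝ, EV n) ∞ φ U
  l : ∀ y ∈ V, ψ y ∈ U ∧ φ (ψ y) = y
  r : ∀ x ∈ U, φ x ∈ V ∧ ψ (φ x) = x

/-- the differential of `φ : M → ℝⁿ` with values in `ℝⁿ` -/
def dm {n : ℕ} {M : Type} [TopologicalSpace M] [ChartedSpace (EV n) M]
    (φ : M → EV n) (x : M) (v : TangentSpace (𝓡 n) x) : EV n :=
  mfderiv (𝓡 n) 𝓘(ℝ, EV n) φ x v

/-- `α` has the coordinate expression `a` on `O`: `α_x(v) = a(φ x)(dφ v)` -/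
def Co1 {n : ℕ} {M : Type} [TopologicalSpace M] [ChartedSpace (EV n) M]
    (φ : M → EV n) (O : Set M) (α : DF (𝓡 n) M 1) (a : EV n → EV n →L[ℝ] ℝ) : Prop :=
  ∀ x ∈ O, ∀ v : Fin 1 → TangentSpace (𝓡 n) x, α x v = a (φ x) (dm φ x (v 0))

/-- `β` has the coordinate expression `b` on `O`: `β_x(v, w) = b(φ x)(dφ v)(dφ w)` -/
def Co2 {n : ℕ} {M : Type} [TopologicalSpace M] [ChartedSpace (EV n) M]
    (φ : M → EV n) (O : Set M) (β : DF (𝓡 n) M 2) (b : EV n → EV n →L[ℝ] EV n →L[ℝ] ℝ) : Prop :=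
  ∀ x ∈ O, ∀ v : Fin 2 → TangentSpace (𝓡 n) x,
    β x v = b (φ x) (dm φ x (v 0)) (dm φ x (v 1))

/-- coordinate expressions of 1-forms -/
def S_T1 : Prop := ∀ (n : ℕ) (M : Type) [TopologicalSpace M] [T2Space M] [CompactSpace M]
  [ChartedSpace (EV n) M] [IsManifold (𝓡 n) ∞ M] (V : Set (EV n)) (U : Set M) (ψ : EV n → M)
  (φ : M → EV n), Par V U ψ φ → ∀ O : Set M, IsOpen O → O ⊆ U → ∀ α : DF (𝓡 n) M 1,
  (IsFormOn O α → ∃ a : EV n → EV n →L[ℝ] ℝ, ContDiffOn ℝ ∞ a (φ '' O) ∧ Co1 φ O α a) ∧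
  (∀ a : EV n → EV n →L[ℝ] ℝ, ContDiffOn ℝ ∞ a (φ '' O) → Co1 φ O α a → IsFormOn O α)

/-- exterior derivative of 1-forms in coordinates -/
def S_T2 : Prop := ∀ (n : ℕ) (M : Type) [TopologicalSpace M] [T2Space M] [CompactSpace M]
  [ChartedSpace (EV n) M] [IsManifold (𝓡 n) ∞ M] (V : Set (EV n)) (U : Set M) (ψ : EV n → M)
  (φ : M → EV n), Par V U ψ φ → ∀ O : Set M, IsOpen O → O ⊆ U → ∀ (α : DF (𝓡 n) M 1)
  (β : DF (𝓡 n) M 2) (a : EV n → EV n →L[ℝ] ℝ), ContDiffOn ℝ ∞ a (φ '' O) → Co1 φ O α a →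
  (IsDOn O α β ↔ ∀ x ∈ O, ∀ v : Fin 2 → TangentSpace (𝓡 n) x,
    β x v = fderiv ℝ a (φ x) (dm φ x (v 0)) (dm φ x (v 1)) -
      fderiv ℝ a (φ x) (dm φ x (v 1)) (dm φ x (v 0)))

/-- coordinate expressions of 2-forms -/
def S_T3 : Prop := ∀ (n : ℕ) (M : Type) [TopologicalSpace M] [T2Space M] [CompactSpace M]
  [ChartedSpace (EV n) M] [IsManifold (𝓡 n) ∞ M] (V : Set (EV n)) (U : Set M) (ψ : EV n → M)
  (φ : M → EV n), Par V U ψ φ → ∀ O : Set M, IsOpen O → O ⊆ U → ∀ β : DF (𝓡 n) M 2,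
  (IsFormOn O β → ∃ b : EV n → EV n →L[ℝ] EV n →L[ℝ] ℝ, ContDiffOn ℝ ∞ b (φ '' O) ∧
    (∀ y v, b y v v = 0) ∧ Co2 φ O β b) ∧
  (∀ b : EV n → EV n →L[ℝ] EV n →L[ℝ] ℝ, ContDiffOn ℝ ∞ b (φ '' O) → (∀ y v, b y v v = 0) →
    Co2 φ O β b → IsFormOn O β)

/-- closed 2-forms in coordinates -/
def S_T4 : Prop := ∀ (n : ℕ) (M : Type) [TopologicalSpace M] [T2Space M] [CompactSpace M]
  [ChartedSpace (EV n) M] [IsManifold (𝓡 n) ∞ M] (V : Set (EV n)) (U : Set M) (ψ : EV n → M)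
  (φ : M → EV n), Par V U ψ φ → ∀ O : Set M, IsOpen O → O ⊆ U → ∀ (β : DF (𝓡 n) M 2)
  (b : EV n → EV n →L[ℝ] EV n →L[ℝ] ℝ), ContDiffOn ℝ ∞ b (φ '' O) → (∀ y v, b y v v = 0) →
  Co2 φ O β b →
  (IsDOn O β (fun _ _ => 0) ↔ ∀ y ∈ φ '' O, ∀ u v w : EV n,
    fderiv ℝ b y u v w + fderiv ℝ b y v w u + fderiv ℝ b y w u v = 0)

/-- closed 1-forms: `IsDOn O α 0` in coordinates and primitives of them -/
def S_T5 : Prop := ∀ (n : ℕ) (M : Type) [TopologicalSpace M] [T2Space M] [CompactSpace M]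
  [ChartedSpace (EV n) M] [IsManifold (𝓡 n) ∞ M] (V : Set (EV n)) (U : Set M) (ψ : EV n → M)
  (φ : M → EV n), Par V U ψ φ → ∀ O : Set M, IsOpen O → O ⊆ U → ∀ (α : DF (𝓡 n) M 1)
  (a : EV n → EV n →L[ℝ] ℝ), Co1 φ O α a → ∀ f : EV n → ℝ, ContDiffOn ℝ ∞ f (φ '' O) →
  (∀ y ∈ φ '' O, ∀ v, a y v = fderiv ℝ f y v) →
  ContMDiffOn (𝓡 n) 𝓘(ℝ, ℝ) ∞ (fun x => f (φ x)) O ∧
    ∀ x ∈ O, ∀ v : Fin 1 → TangentSpace (𝓡 n) x, α x v = mvfderiv (𝓡 n) (fun x => f (φ x)) x (v 0)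

/-- gluing two primitives -/
def S_PATCH : Prop := ∀ (n : ℕ) (M : Type) [TopologicalSpace M] [T2Space M] [CompactSpace M]
  [ChartedSpace (EV n) M] [IsManifold (𝓡 n) ∞ M] (U V U1 V1 : Set M),
  IsOpen U → IsOpen V → IsOpen U1 → IsOpen V1 → U1 ⊆ U → V1 ⊆ V → U ∪ V ⊆ U1 ∪ V1 ∪ (U ∩ V) →
  ∀ ρ : M → ℝ, ContMDiffOn (𝓡 n) 𝓘(ℝ, ℝ) ∞ ρ (U ∩ V) → (∀ x ∈ U1 ∩ V, ρ x = 1) →
  (∀ x ∈ V1 ∩ U, ρ x = 0) → ∀ (β : DF (𝓡 n) M 2) (αU αV : DF (𝓡 n) M 1),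
  IsFormOn U αU → IsDOn U αU β → IsFormOn V αV → IsDOn V αV β →
  ∀ f : M → ℝ, ContMDiffOn (𝓡 n) 𝓘(ℝ, ℝ) ∞ f (U ∩ V) →
  (∀ x ∈ U ∩ V, ∀ v : Fin 1 → TangentSpace (𝓡 n) x,
    αU x v - αV x v = mvfderiv (𝓡 n) f x (v 0)) →
  ∃ α : DF (𝓡 n) M 1, IsFormOn (U ∪ V) α ∧ IsDOn (U ∪ V) α β

/-- Poincaré lemma for 2-forms on star-shaped open sets -/
def S_POIN2 : Prop := ∀ (n : ℕ) (V : Set (EV n)), IsOpen V → StarConvex ℝ 0 V →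
  ∀ b : EV n → EV n →L[ℝ] EV n →L[ℝ] ℝ, ContDiffOn ℝ ∞ b V → (∀ y v, b y v v = 0) →
  (∀ y ∈ V, ∀ u v w : EV n,
    fderiv ℝ b y u v w + fderiv ℝ b y v w u + fderiv ℝ b y w u v = 0) →
  ∃ a : EV n → EV n →L[ℝ] ℝ, ContDiffOn ℝ ∞ a V ∧
    ∀ y ∈ V, ∀ v w, b y v w = fderiv ℝ a y v w - fderiv ℝ a y w v

/-- `a` is closed on `V` -/
def Cl1 {n : ℕ} (V : Set (EV n)) (a : EV n → EV n →L[ℝ] ℝ) : Prop :=
  ∀ y ∈ V, ∀ v w, fderiv ℝ a y v w = fderiv ℝ a y w v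

/-- Poincaré lemma for 1-forms on star-shaped open sets -/
def S_H1A : Prop := ∀ (n : ℕ) (V : Set (EV n)), IsOpen V → StarConvex ℝ 0 V →
  ∀ a : EV n → EV n →L[ℝ] ℝ, ContDiffOn ℝ ∞ a V → Cl1 V a →
  ∃ f : EV n → ℝ, ContDiffOn ℝ ∞ f V ∧ ∀ y ∈ V, ∀ v, a y v = fderiv ℝ f y v

/-- the differential of the argument of the complex number `z` in the direction `w` -/
def dArg (z w : ℂ) : ℝ := (conj z * w).im / Complex.normSq z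

/-- closed 1-forms on disc times punctured disc -/
def S_H1B : Prop := ∀ a : U4 → U4 →L[ℝ] ℝ, ContDiffOn ℝ ∞ a (BD ∩ {y | c2 y ≠ 0}) →
  Cl1 (BD ∩ {y | c2 y ≠ 0}) a → ∃ (c : ℝ) (f : U4 → ℝ),
    ContDiffOn ℝ ∞ f (BD ∩ {y | c2 y ≠ 0}) ∧
    ∀ y ∈ BD ∩ {y | c2 y ≠ 0}, ∀ v, a y v = c * dArg (c2 y) (c2 v) + fderiv ℝ f y v

/-- closed 1-forms on punctured disc times disc -/
def S_H1C : Prop := ∀ a : U4 → U4 →L[ℝ] ℝ, ContDiffOn ℝ ∞ a (BD ∩ {y | c1 y ≠ 0}) →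
  Cl1 (BD ∩ {y | c1 y ≠ 0}) a → ∃ (c : ℝ) (f : U4 → ℝ),
    ContDiffOn ℝ ∞ f (BD ∩ {y | c1 y ≠ 0}) ∧
    ∀ y ∈ BD ∩ {y | c1 y ≠ 0}, ∀ v, a y v = c * dArg (c1 y) (c1 v) + fderiv ℝ f y v

/-- closed 1-forms on the punctured bidisc -/
def S_H1D : Prop := ∀ a : U4 → U4 →L[ℝ] ℝ, ContDiffOn ℝ ∞ a (BD ∩ {y | y ≠ 0}) →
  Cl1 (BD ∩ {y | y ≠ 0}) a → ∃ f : U4 → ℝ,
    ContDiffOn ℝ ∞ f (BD ∩ {y | y ≠ 0}) ∧
    ∀ y ∈ BD ∩ {y | y ≠ 0}, ∀ v, a y v = fderiv ℝ f y v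

end Pool.Agent.H781.CM.Q
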