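import Pool.Agent.H781.CM.QG
import Pool.Agent.H781.CM.Gfrm

/-!
The metric on the base of a Riemannian submersion.
-/

set_option autoImplicit false
set_option synthInstance.maxHeartbeats 400000
set_option maxHeartbeats 4000000
set_option linter.unusedSectionVars false

open Bundle Manifold ContDiff VectorField
open scoped Topology

noncomputable section

namespace Pool.Agent.H781.CM.Q

namespace Sbm

section LA

variable {E V : Type*} [NormedAddCommGroup E] [NormedSpace ℝ E] [FiniteDimensional ℝ E]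
  [NormedAddCommGroup V] [NormedSpace ℝ V] [FiniteDimensional ℝ V]

/-- positive definite symmetric forms -/
structure PD (G : E →L[ℝ] E →L[ℝ] ℝ) : Prop where
  symm : ∀ u v, G u v = G v u
  pos : ∀ v, v ≠ 0 → 0 < G v v

theorem finrank_dual : Module.finrank ℝ (V →L[ℝ] ℝ) = Module.finrank ℝ V := by
  rw [← (LinearMap.toContinuousLinearMap : (V →ₗ[ℝ] ℝ) ≃ₗ[ℝ] (V →L[ℝ] ℝ)).finrank_eq]
  exact Subspace.dual_finrank_eq

theorem exists_equiv {W : Type*} [NormedAddCommGroup W] [NormedSpace ℝ W] [FiniteDimensional ℝ W]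
    (T : V →L[ℝ] W) (hT : ∀ v, T v = 0 → v = 0)
    (hd : Module.finrank ℝ V = Module.finrank ℝ W) :
    ∃ e : V ≃L[ℝ] W, (e : V →L[ℝ] W) = T := by
  have hinj : Function.Injective (T : V →ₗ[ℝ] W) :=
    (injective_iff_map_eq_zero _).2 hT
  refine ⟨(LinearMap.linearEquivOfInjective (T : V →ₗ[ℝ] W) hinj hd).toContinuousLinearEquiv, ?_⟩
  ext v
  rfl

variable (E V) in
/-- precomposition, as a linear map -/
def preL : (E →L[ℝ] V) →L[ℝ] ((V →L[ℝ] ℝ) →L[ℝ] (E →L[ℝ] ℝ)) :=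
  (ContinuousLinearMap.compL ℝ E V ℝ).flip

/-- precomposition -/
def pre (F : E →L[ℝ] V) : (V →L[ℝ] ℝ) →L[ℝ] (E →L[ℝ] ℝ) := preL E V F

theorem pre_apply (F : E →L[ℝ] V) (φ : V →L[ℝ] ℝ) (u : E) : pre F φ u = φ (F u) := rfl

/-- the dual form -/
def KK (G : E →L[ℝ] E →L[ℝ] ℝ) (F : E →L[ℝ] V) : (V →L[ℝ] ℝ) →L[ℝ] V :=
  F ∘L (ContinuousLinearMap.inverse G ∘L pre F)

/-- the quotient form -/
def QF (G : E →L[ℝ] E →L[ℝ] ℝ) (F : E →L[ℝ] V) : V →L[ℝ] V →L[ℝ] ℝ :=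
  ContinuousLinearMap.inverse (KK G F)

theorem PD.equiv {G : E →L[ℝ] E →L[ℝ] ℝ} (h : PD G) :
    ∃ e : E ≃L[ℝ] (E →L[ℝ] ℝ), (e : E →L[ℝ] (E →L[ℝ] ℝ)) = G := by
  refine exists_equiv G (fun v hv => ?_) finrank_dual.symm
  by_contra h0
  have h1 := h.pos v h0
  rw [hv] at h1
  simp at h1

theorem PD.inv {G : E →L[ℝ] E →L[ℝ] ℝ} (h : PD G) (ψ : E →L[ℝ] ℝ) :
    G (ContinuousLinearMap.inverse G ψ) = ψ := by
  obtain ⟨e, he⟩ := h.equiv
  rw [← he, ContinuousLinearMap.inverse_equiv]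
  exact e.apply_symm_apply ψ

theorem KK_equiv {G : E →L[ℝ] E →L[ℝ] ℝ} {F : E →L[ℝ] V} (h : PD G)
    (hF : Function.Surjective F) :
    ∃ e : (V →L[ℝ] ℝ) ≃L[ℝ] V, (e : (V →L[ℝ] ℝ) →L[ℝ] V) = KK G F := by
  refine exists_equiv _ (fun φ hφ => ?_) finrank_dual
  have h1 : G (ContinuousLinearMap.inverse G (pre F φ)) = pre F φ := h.inv _
  have h2 : F (ContinuousLinearMap.inverse G (pre F φ)) = 0 := hφ
  have h3 : ContinuousLinearMap.inverse G (pre F φ) = 0 := by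
    by_contra h0
    have h4 := h.pos _ h0
    rw [h1, pre_apply, h2] at h4
    simp at h4
  rw [h3, map_zero] at h1
  ext a
  obtain ⟨u, rfl⟩ := hF a
  rw [← pre_apply, ← h1]
  rfl

theorem hor {G : E →L[ℝ] E →L[ℝ] ℝ} {F : E →L[ℝ] V} (h : PD G)
    (hF : Function.Surjective F) (a : V) :
    ∃ v, (∀ u, F u = 0 → G v u = 0) ∧ F v = a ∧ ∀ w, QF G F a (F w) = G v w := by
  obtain ⟨e, he⟩ := KK_equiv h hF
  refine ⟨ContinuousLinearMap.inverse G (pre F (QF G F a)), ?_, ?_, ?_⟩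
  · intro u hu
    rw [h.inv, pre_apply, hu, map_zero]
  · change KK G F (QF G F a) = a
    rw [QF, ← he, ContinuousLinearMap.inverse_equiv]
    exact e.apply_symm_apply a
  · intro w
    rw [h.inv, pre_apply]

theorem QF_hor {G : E →L[ℝ] E →L[ℝ] ℝ} {F : E →L[ℝ] V} (h : PD G)
    (hF : Function.Surjective F) {v : E} (hv : ∀ u, F u = 0 → G v u = 0) (w : E) :
    QF G F (F v) (F w) = G v w := by
  obtain ⟨v', h1, h2, h3⟩ := hor h hF (F v)
  rw [h3 w]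
  have h4 : F (v - v') = 0 := by rw [map_sub, h2, sub_self]
  have h5 : G (v - v') (v - v') = 0 := by
    have e : ∀ u, G (v - v') u = G v u - G v' u := fun u => by rw [map_sub]; rfl
    rw [e, hv _ h4, h1 _ h4, sub_self]
  have h6 : v - v' = 0 := by
    by_contra h0
    exact (h.pos _ h0).ne' h5
  rw [sub_eq_zero.1 h6]

theorem QF_PD {G : E →L[ℝ] E →L[ℝ] ℝ} {F : E →L[ℝ] V} (h : PD G)
    (hF : Function.Surjective F) : PD (QF G F) where
  symm a b := by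
    obtain ⟨v, h1, h2, h3⟩ := hor h hF a
    obtain ⟨w, k1, k2, k3⟩ := hor h hF b
    rw [← k2, h3 w, k2, ← h2, k3 v, h.symm]
  pos a ha := by
    obtain ⟨v, h1, h2, h3⟩ := hor h hF a
    have h4 := h3 v
    rw [h2] at h4
    rw [h4]
    refine h.pos v fun h0 => ha ?_
    rw [← h2, h0, map_zero]

theorem QF_nat {E₂ V₂ : Type*} [NormedAddCommGroup E₂] [NormedSpace ℝ E₂]
    [FiniteDimensional ℝ E₂] [NormedAddCommGroup V₂] [NormedSpace ℝ V₂] [FiniteDimensional ℝ V₂]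
    {G : E →L[ℝ] E →L[ℝ] ℝ} {F : E →L[ℝ] V} (h : PD G) (hF : Function.Surjective F)
    {G₂ : E₂ →L[ℝ] E₂ →L[ℝ] ℝ} {F₂ : E₂ →L[ℝ] V₂} (h₂ : PD G₂) (hF₂ : Function.Surjective F₂)
    (B : E →L[ℝ] E₂) (A : V →L[ℝ] V₂) (hB : Function.Surjective B) (hA : ∀ a, A a = 0 → a = 0)
    (hG : ∀ u v, G₂ (B u) (B v) = G u v) (hAB : ∀ u, F₂ (B u) = A (F u)) (a b : V) :
    QF G₂ F₂ (A a) (A b) = QF G F a b := by
  obtain ⟨v, h1, h2, h3⟩ := hor h hF a
  obtain ⟨w, rfl⟩ := hF b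
  rw [h3 w, ← h2, ← hAB, ← hAB, QF_hor h₂ hF₂ _ _, hG]
  intro u hu
  obtain ⟨u', rfl⟩ := hB u
  rw [hG]
  refine h1 u' (hA _ ?_)
  rw [← hAB, hu]

theorem QF_contDiffAt {G : E →L[ℝ] E →L[ℝ] ℝ} {F : E →L[ℝ] V} (h : PD G)
    (hF : Function.Surjective F) :
    ContDiffAt ℝ ∞ (fun x : (E →L[ℝ] E →L[ℝ] ℝ) × (E →L[ℝ] V) => QF x.1 x.2) (G, F) := by
  obtain ⟨e, he⟩ := h.equiv
  obtain ⟨e', he'⟩ := KK_equiv h hF
  have h1 : ContDiffAt ℝ ∞ (fun x : (E →L[ℝ] E →L[ℝ] ℝ) × (E →L[ℝ] V) =>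
      ContinuousLinearMap.inverse x.1) (G, F) := by
    have h2 : ContDiffAt ℝ ∞ (ContinuousLinearMap.inverse :
      (E →L[ℝ] (E →L[ℝ] ℝ)) → _) G := by
      rw [← he]
      exact contDiffAt_map_inverse e
    exact h2.comp (G, F) contDiffAt_fst
  have h3' : ContDiff ℝ ∞ (fun F : E →L[ℝ] V => pre F) := by
    exact ContinuousLinearMap.contDiff (𝕜 := ℝ) (E := E →L[ℝ] V)
      (F := (V →L[ℝ] ℝ) →L[ℝ] (E →L[ℝ] ℝ)) (preL E V)
  have h3 : ContDiffAt ℝ ∞ (fun x : (E →L[ℝ] E →L[ℝ] ℝ) × (E →L[ℝ] V) => pre x.2) (G, F) :=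
    ContDiffAt.comp (G, F) h3'.contDiffAt contDiffAt_snd
  have h4 : ContDiffAt ℝ ∞ (fun x : (E →L[ℝ] E →L[ℝ] ℝ) × (E →L[ℝ] V) => KK x.1 x.2) (G, F) :=
    contDiffAt_snd.clm_comp (h1.clm_comp h3)
  have h5 : ContDiffAt ℝ ∞ (ContinuousLinearMap.inverse :
      ((V →L[ℝ] ℝ) →L[ℝ] V) → _) (KK G F) := by
    rw [← he']
    exact contDiffAt_map_inverse e'
  exact ContDiffAt.comp (G, F) h5 h4

end LA

section Loc

open Pool.Agent.H821R2 Pool.Agent.H821R3 Pool.Agent.H893R5.HO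

variable {E : Type} [NormedAddCommGroup E] [NormedSpace ℝ E] [FiniteDimensional ℝ E]
  {H : Type} [TopologicalSpace H] {I : ModelWithCorners ℝ E H}
  {P : Type} [TopologicalSpace P] [ChartedSpace H P] [IsManifold I ∞ P]

variable (I) in
/-- inverse of the trivialization at `x₀` -/
def SS (x₀ x : P) : E →L[ℝ] E := (trivializationAt E (TangentSpace I) x₀).symmL ℝ x

variable (I) in
/-- the trivialization at `x₀` -/
def AA (x₀ x : P) : E →L[ℝ] E := (trivializationAt E (TangentSpace I) x₀).continuousLinearMapAt ℝ x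

variable (I) in
/-- the domain of the trivialization at `x₀` -/
def bs (x₀ : P) : Set P := (trivializationAt E (TangentSpace I) x₀).baseSet

theorem bs_open (x₀ : P) : IsOpen (bs I x₀) := (trivializationAt E (TangentSpace I) x₀).open_baseSet

theorem mem_bs (x₀ : P) : x₀ ∈ bs I x₀ := FiberBundle.mem_baseSet_trivializationAt' x₀

theorem SS_AA {x₀ x : P} (hx : x ∈ bs I x₀) (v : E) : SS I x₀ x (AA I x₀ x v) = v :=
  (trivializationAt E (TangentSpace I) x₀).symmL_continuousLinearMapAt (R := ℝ) hx v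

theorem AA_SS {x₀ x : P} (hx : x ∈ bs I x₀) (v : E) : AA I x₀ x (SS I x₀ x v) = v :=
  (trivializationAt E (TangentSpace I) x₀).continuousLinearMapAt_symmL (R := ℝ) hx v

/-- smoothness of a section in a trivialization -/
theorem AA_smooth {x₀ x₁ : P} (hx : x₁ ∈ bs I x₀) {a : Π x : P, TangentSpace I x}
    (ha : SmV a) : ContMDiffAt I 𝓘(ℝ, E) ∞ (fun x => AA I x₀ x (a x)) x₁ := by
  have h1 := (Bundle.Trivialization.contMDiffAt_section_iff
    (trivializationAt E (TangentSpace I : P → Type _) x₀) hx).1 (ha x₁)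
  refine h1.congr_of_eventuallyEq ?_
  filter_upwards [(bs_open x₀).mem_nhds hx] with x hx'
  exact (trivializationAt E (TangentSpace I) x₀).continuousLinearMapAt_apply_of_mem
    (R := ℝ) hx' (a x)

theorem SS_smooth {x₀ x₁ : P} (hx : x₁ ∈ bs I x₀) (u : E) :
    ContMDiffAt I (I.prod 𝓘(ℝ, E)) ∞
      (fun x => TotalSpace.mk' E (E := TangentSpace I) x (SS I x₀ x u)) x₁ := by
  refine (Bundle.Trivialization.contMDiffAt_section_iff
    (trivializationAt E (TangentSpace I : P → Type _) x₀) hx).2 ?_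
  refine (contMDiffAt_const (c := u)).congr_of_eventuallyEq ?_
  filter_upwards [(bs_open x₀).mem_nhds hx] with x hx'
  have h2 := (trivializationAt E (TangentSpace I) x₀).continuousLinearMapAt_apply_of_mem
    (R := ℝ) hx' (SS I x₀ x u)
  rw [← h2]
  exact AA_SS hx' u

variable (g : ContMDiffRiemannianMetric I ∞ E (fun x : P => TangentSpace I x))

/-- the metric as a bilinear form of `E` -/
def gE (x : P) : E →L[ℝ] E →L[ℝ] ℝ := g.inner x

theorem gE_PD (x : P) : PD (gE g x) where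
  symm u v := g.symm x u v
  pos v hv := g.pos x v hv

theorem coef_smooth {x₀ x₁ : P} (hx : x₁ ∈ bs I x₀) (u v : E) :
    ContMDiffAt I 𝓘(ℝ, ℝ) ∞ (fun x => gE g x (SS I x₀ x u) (SS I x₀ x v)) x₁ := by
  have : ContMDiffAt I (I.prod 𝓘(ℝ)) ∞
      (fun m ↦ TotalSpace.mk' ℝ (E := Bundle.Trivial P ℝ) m
        (g.inner m (SS I x₀ m u) (SS I x₀ m v))) x₁ := by
    apply ContMDiffAt.clm_bundle_apply₂ (F₁ := E) (F₂ := E)
    · exact g.contMDiff.contMDiffAt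
    · exact SS_smooth hx u
    · exact SS_smooth hx v
  simp only [contMDiffAt_totalSpace] at this
  exact this.2

variable (E) in
/-- coordinate functionals -/
def cf (i : Fin (Module.finrank ℝ E)) : E →L[ℝ] ℝ :=
  LinearMap.toContinuousLinearMap ((Module.finBasis ℝ E).coord i)

theorem cf_sum (u : E) : ∑ i, cf E i u • Module.finBasis ℝ E i = u :=
  (Module.finBasis ℝ E).sum_repr u

/-- the metric in the trivialization at `x₀` -/
def Gt (x₀ x : P) : E →L[ℝ] E →L[ℝ] ℝ :=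
  ∑ i, ∑ j, gE g x (SS I x₀ x (Module.finBasis ℝ E i)) (SS I x₀ x (Module.finBasis ℝ E j)) •
    (cf E i).smulRight (cf E j)

theorem Gt_apply (x₀ x : P) (u v : E) :
    Gt g x₀ x u v = gE g x (SS I x₀ x u) (SS I x₀ x v) := by
  conv_rhs => rw [← cf_sum u, ← cf_sum v]
  simp only [Gt, map_sum, sum_apply, map_smul, smul_apply,
    ContinuousLinearMap.smulRight_apply, smul_eq_mul, Finset.mul_sum]
  rw [Finset.sum_comm]
  refine Finset.sum_congr rfl fun i _ => Finset.sum_congr rfl fun j _ => ?_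
  ring

theorem Gt_smooth {x₀ x₁ : P} (hx : x₁ ∈ bs I x₀) :
    ContMDiffAt I 𝓘(ℝ, E →L[ℝ] E →L[ℝ] ℝ) ∞ (fun x => Gt g x₀ x) x₁ := by
  unfold Gt
  refine ContMDiffAt.sum fun i _ => ContMDiffAt.sum fun j _ => ?_
  exact (coef_smooth g hx _ _).smul contMDiffAt_const

theorem Gt_PD {x₀ x : P} (hx : x ∈ bs I x₀) : PD (Gt g x₀ x) where
  symm u v := by
    rw [Gt_apply, Gt_apply, (gE_PD g x).symm]
  pos v hv := by
    rw [Gt_apply]
    refine (gE_PD g x).pos _ fun h0 => hv ?_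
    rw [← AA_SS hx v, h0, map_zero]

variable {n : ℕ} {B : Type} [TopologicalSpace B] [ChartedSpace (EuclideanSpace ℝ (Fin n)) B]
  [IsManifold (𝓡 n) ∞ B]

variable (I) in
/-- the differential -/
def DF (f : P → B) (x : P) : E →L[ℝ] EuclideanSpace ℝ (Fin n) := mfderiv I (𝓡 n) f x

/-- the differential in trivializations -/
def Ft (f : P → B) (σ : B → P) (y₀ y : B) : E →L[ℝ] EuclideanSpace ℝ (Fin n) :=
  AA (𝓡 n) (f (σ y₀)) (f (σ y)) ∘L (DF I f (σ y) ∘L SS I (σ y₀) (σ y))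

theorem Ft_smooth {f : P → B} (hf : ContMDiff I (𝓡 n) ∞ f) {σ : B → P} {y₀ : B}
    (hσ : ContMDiffAt (𝓡 n) I ∞ σ y₀) :
    ContMDiffAt (𝓡 n) 𝓘(ℝ, E →L[ℝ] EuclideanSpace ℝ (Fin n)) ∞
      (fun y => Ft (I := I) (n := n) f σ y₀ y) y₀ := by
  have h1 : ContMDiffAt ((𝓡 n).prod I) (𝓡 n) ∞ (Function.uncurry fun (_ : B) => f)
      (y₀, σ y₀) := by
    change ContMDiffAt ((𝓡 n).prod I) (𝓡 n) ∞ (fun q : B × P => f q.2) (y₀, σ y₀)
    exact (hf (σ y₀)).comp (y₀, σ y₀) contMDiffAt_snd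
  exact ContMDiffAt.mfderiv (fun (_ : B) => f) σ h1 hσ (m := ∞) (n := ∞) (by simp)

/-- the quotient form at `x` -/
def hq (f : P → B) (x : P) :
    EuclideanSpace ℝ (Fin n) →L[ℝ] EuclideanSpace ℝ (Fin n) →L[ℝ] ℝ :=
  QF (gE g x) (DF I (n := n) f x)

theorem loc_smooth {f : P → B} (hf : ContMDiff I (𝓡 n) ∞ f) {σ : B → P} {y₀ : B}
    (hσ : ContMDiffAt (𝓡 n) I ∞ σ y₀) (hs : ∀ᶠ y in 𝓝 y₀, f (σ y) = y)
    (hsur : ∀ x : P, Function.Surjective (DF I (n := n) f x))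
    {a b : Π x : B, TangentSpace (𝓡 n) x} (ha : SmV a) (hb : SmV b) :
    ContMDiffAt (𝓡 n) 𝓘(ℝ, ℝ) ∞ (fun y => hq g (n := n) f (σ y) (a y) (b y)) y₀ := by
  have hy₀ : f (σ y₀) = y₀ := hs.self_of_nhds
  have hm : y₀ ∈ bs (𝓡 n) (f (σ y₀)) := by
    have h := mem_bs (I := 𝓡 n) (f (σ y₀))
    rw [hy₀] at h ⊢
    exact h
  have hF := Ft_smooth (n := n) hf hσ
  have hG : ContMDiffAt (𝓡 n) 𝓘(ℝ, E →L[ℝ] E →L[ℝ] ℝ) ∞ (fun y => Gt g (σ y₀) (σ y)) y₀ :=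
    (Gt_smooth g (mem_bs (I := I) (σ y₀))).comp y₀ hσ
  have hev : ∀ᶠ y in 𝓝 y₀, f (σ y) = y ∧ σ y ∈ bs I (σ y₀) ∧ y ∈ bs (𝓡 n) (f (σ y₀)) := by
    refine hs.and ((hσ.continuousAt.eventually_mem
      ((bs_open (I := I) (σ y₀)).mem_nhds (mem_bs (I := I) (σ y₀)))).and ?_)
    exact (bs_open (I := 𝓡 n) (f (σ y₀))).mem_nhds hm
  have hFs : ∀ y, f (σ y) = y → σ y ∈ bs I (σ y₀) → y ∈ bs (𝓡 n) (f (σ y₀)) →
      Function.Surjective (Ft (I := I) (n := n) f σ y₀ y) := by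
    intro y h1 h2 h3 w
    obtain ⟨v, hv⟩ := hsur (σ y) (SS (𝓡 n) (f (σ y₀)) (f (σ y)) w)
    refine ⟨AA I (σ y₀) (σ y) v, ?_⟩
    change AA (𝓡 n) (f (σ y₀)) (f (σ y)) (DF I f (σ y) (SS I (σ y₀) (σ y)
      (AA I (σ y₀) (σ y) v))) = w
    rw [SS_AA h2, hv, AA_SS]
    rw [h1]
    exact h3
  have hQ : ContMDiffAt (𝓡 n) 𝓘(ℝ, EuclideanSpace ℝ (Fin n) →L[ℝ]
      EuclideanSpace ℝ (Fin n) →L[ℝ] ℝ) ∞
      (fun y => QF (Gt g (σ y₀) (σ y)) (Ft (I := I) (n := n) f σ y₀ y)) y₀ := by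
    have h1 := QF_contDiffAt (Gt_PD g (mem_bs (I := I) (σ y₀)))
      (hFs y₀ hy₀ (mem_bs (I := I) (σ y₀)) hm)
    exact ContMDiffAt.comp (g := fun x : (E →L[ℝ] E →L[ℝ] ℝ) ×
      (E →L[ℝ] EuclideanSpace ℝ (Fin n)) => QF x.1 x.2)
      (f := fun y => (Gt g (σ y₀) (σ y), Ft (I := I) (n := n) f σ y₀ y)) y₀ h1.contMDiffAt
      (hG.prodMk_space hF)
  have hR := (hQ.clm_apply (AA_smooth hm ha)).clm_apply (AA_smooth hm hb)
  refine hR.congr_of_eventuallyEq ?_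
  filter_upwards [hev] with y hy
  obtain ⟨h1, h2, h3⟩ := hy
  refine (QF_nat (gE_PD g (σ y)) (hsur (σ y)) (Gt_PD g h2) (hFs y h1 h2 h3)
    (AA I (σ y₀) (σ y)) (AA (𝓡 n) (f (σ y₀)) y) ?_ ?_ ?_ ?_ (a y) (b y)).symm
  · intro u
    exact ⟨SS I (σ y₀) (σ y) u, AA_SS h2 u⟩
  · intro w hw
    rw [← SS_AA h3 w, hw, map_zero]
  · intro u v
    rw [Gt_apply, SS_AA h2, SS_AA h2]
  · intro u
    change AA (𝓡 n) (f (σ y₀)) (f (σ y)) (DF I f (σ y) (SS I (σ y₀) (σ y)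
      (AA I (σ y₀) (σ y) u))) = _
    rw [SS_AA h2, h1]

theorem hq_eq {f : P → B} (hsur : ∀ x : P, Function.Surjective (DF I (n := n) f x)) {p q : P}
    (L : E →L[ℝ] E) (hL : Function.Surjective L)
    (hg : ∀ v w, gE g q (L v) (L w) = gE g p v w)
    (hd : ∀ v, DF I (n := n) f q (L v) = DF I (n := n) f p v) (a b : EuclideanSpace ℝ (Fin n)) :
    hq g (n := n) f q a b = hq g (n := n) f p a b :=
  QF_nat (gE_PD g p) (hsur p) (gE_PD g q) (hsur q) L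
    (ContinuousLinearMap.id ℝ (EuclideanSpace ℝ (Fin n))) hL (fun _ h => h) hg hd a b

theorem form_eq {ι : Type} [Fintype ι] (D : FrameData (𝓡 n) B ι)
    (h : Π x : B, TangentSpace (𝓡 n) x →L[ℝ] TangentSpace (𝓡 n) x →L[ℝ] ℝ) (x : B)
    (v w : TangentSpace (𝓡 n) x) :
    D.form (fun i j y => h y (D.e i y) (D.e j y)) x v w = h x v w := by
  rw [D.form_apply]
  conv_rhs => rw [← D.repr x v, ← D.repr x w]
  simp only [map_sum, sum_apply, map_smul, smul_apply, smul_eq_mul, Finset.mul_sum]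
  rw [Finset.sum_comm]
  refine Finset.sum_congr rfl fun i _ => Finset.sum_congr rfl fun j _ => ?_
  ring

end Loc

end Sbm

open Pool.Agent.H821R2 Pool.Agent.H821R3 Pool.Agent.H893R5.HO Pool.Agent.H839R2.RS Sbm

/-- the metric on the base of a Riemannian submersion -/
theorem s_subm : S_SUBM := by
  intro E _ _ _ H _ I P _ _ _ n B _ _ _ _ _ g f hf hsurj hloc hiso
  have hsur : ∀ x : P, Function.Surjective (DF I (n := n) f x) := by
    intro x w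
    obtain ⟨U, hU, hx, σ, hσ, h1, h2⟩ := hloc x
    obtain ⟨v, hv⟩ := h2 (f x) hx w
    obtain ⟨L, -, -, h3⟩ := hiso (σ (f x)) x (h1 _ hx)
    exact ⟨L v, (h3 v).trans hv⟩
  choose s hs using hsurj
  obtain ⟨m, -, ⟨D⟩⟩ := Pool.Agent.H781.CM.s_gfrm n B
  have hany : ∀ (p : P) (b : B), f p = b → ∀ v w : EuclideanSpace ℝ (Fin n),
      hq g (n := n) f (s b) v w = hq g (n := n) f p v w := by
    intro p b hpb v w
    obtain ⟨L, hL, h2, h3⟩ := hiso p (s b) (by rw [hs, hpb])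
    exact hq_eq g hsur (p := p) (q := s b) L hL h2 h3 v w
  let hB : Π x : B, TangentSpace (𝓡 n) x →L[ℝ] TangentSpace (𝓡 n) x →L[ℝ] ℝ :=
    fun x => hq g (n := n) f (s x)
  have hPD : ∀ x : B, PD (hq g (n := n) f (s x)) := fun x => QF_PD (gE_PD g _) (hsur _)
  have ha : ∀ i j, Sm (𝓡 n) (fun y => hB y (D.e i y) (D.e j y)) := by
    intro i j b₀
    obtain ⟨U, hU, hx, σ, hσ, h1, h2⟩ := hloc (s b₀)
    rw [hs] at hx
    have h3 := loc_smooth g hf (hσ.contMDiffAt (hU.mem_nhds hx))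
      (Filter.mem_of_superset (hU.mem_nhds hx) h1) hsur (D.he i) (D.he j)
    refine h3.congr_of_eventuallyEq ?_
    filter_upwards [hU.mem_nhds hx] with y hy
    exact hany (σ y) y (h1 y hy) _ _
  let h : ContMDiffRiemannianMetric (𝓡 n) ∞ (EuclideanSpace ℝ (Fin n))
      (fun x : B => TangentSpace (𝓡 n) x) :=
    D.metric (fun i j y => hB y (D.e i y) (D.e j y)) ha
      (fun i j x => (hPD x).symm _ _)
      (fun x v hv => by
        rw [form_eq D hB x v v]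
        exact (hPD x).pos v hv)
  have hh : ∀ (x : B) (v w : TangentSpace (𝓡 n) x), h.inner x v w = hB x v w :=
    fun x v w => form_eq D hB x v w
  refine ⟨h, hf, fun b => ⟨s b, hs b⟩, ?_, ?_⟩
  · intro p v w hv hw
    rw [hh]
    refine (hany p (f p) rfl _ _).trans ?_
    exact QF_hor (gE_PD g p) (hsur p) hv w
  · intro p w
    obtain ⟨v, h1, h2, -⟩ := hor (gE_PD g p) (hsur p) w
    exact ⟨v, h1, h2⟩

end Pool.Agent.H781.CM.Q
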