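import Pool.Agent.H781.CM.QG

/-!
The product metric on `S³ × S³` has nonnegative sectional curvature.
-/

set_option autoImplicit false
set_option synthInstance.maxHeartbeats 400000
set_option maxHeartbeats 4000000

open Bundle Manifold ContDiff VectorField
open scoped Topology RealInnerProductSpace

noncomputable section

namespace Pool.Agent.H781.CM.Q

open Pool.Agent.H821R2 Pool.Agent.H781.S22 Pool.Agent.H781.CM.F Pool.Agent.H839R2.RS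
  Pool.Agent.H893R5.HO

namespace Sph

/-- directional derivatives of functions which are cubic along a line -/
theorem fderiv_line {V V' : Type*} [NormedAddCommGroup V] [NormedSpace ℝ V]
    [NormedAddCommGroup V'] [NormedSpace ℝ V'] {G : V → V'} {z : V} (hG : DifferentiableAt ℝ G z)
    (w : V) {c0 c1 c2 c3 : V'}
    (h : ∀ t : ℝ, G (z + t • w) = c0 + t • c1 + t ^ 2 • c2 + t ^ 3 • c3) :
    fderiv ℝ G z w = c1 := by
  have h1 : lineDeriv ℝ G z w = fderiv ℝ G z w := hG.lineDeriv_eq_fderiv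
  rw [← h1]
  have h2 : HasDerivAt (fun t : ℝ => G (z + t • w)) c1 0 := by
    have h3 : (fun t : ℝ => G (z + t • w)) =
        fun t : ℝ => c0 + t • c1 + t ^ 2 • c2 + t ^ 3 • c3 := funext h
    rw [h3]
    have a1 : HasDerivAt (fun t : ℝ => t • c1) ((1 : ℝ) • c1) 0 := (hasDerivAt_id 0).smul_const c1
    have a2 : HasDerivAt (fun t : ℝ => t ^ 2 • c2) ((0 : ℝ) • c2) 0 := by
      have := (hasDerivAt_pow 2 (0 : ℝ)).smul_const c2
      simpa using this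
    have a3 : HasDerivAt (fun t : ℝ => t ^ 3 • c3) ((0 : ℝ) • c3) 0 := by
      have := (hasDerivAt_pow 3 (0 : ℝ)).smul_const c3
      simpa using this
    have a4 := (((hasDerivAt_const (0 : ℝ) c0).add a1).add a2).add a3
    have e : (0 : V') + (1 : ℝ) • c1 + (0 : ℝ) • c2 + (0 : ℝ) • c3 = c1 := by simp
    rw [e] at a4
    exact a4
  exact h2.deriv

theorem fct : Fact (Module.finrank ℝ U4 = 3 + 1) := ⟨finrank_euclideanSpace_fin⟩

attribute [local instance] fct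

/-- the immersion of `S³ × S³` -/
def SX : Emb IX X (U4 × U4) := sph 3 3 U4 U4

/-- the cometric -/
def W (z : U4 × U4) : U4 × U4 →L[ℝ] U4 × U4 := ContinuousLinearMap.id ℝ _ - sN z

theorem W_apply (z a : U4 × U4) :
    W z a = (a.1 - ⟪z.1, a.1⟫ • z.1, a.2 - ⟪z.2, a.2⟫ • z.2) := by
  show a - sN z a = _
  rw [sN_apply]
  rfl

theorem hW : SX.Com W where
  smooth := contDiff_const.sub smooth_sN
  symm z a b := by
    have h1 : sB U4 U4 (a - sN z a) b = sB U4 U4 a (b - sN z b) := by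
      rw [map_sub, map_sub, sub_apply, sN_symm]
    exact h1
  tan p a := SX.PP p a
  pos p a ha h0 := by
    have h1 : W (SX.j p) a = a := ha
    rw [h1]
    exact SX.Bpos a h0

theorem FF_eq (a b z : U4 × U4) : SX.FF W a b z =
    ⟪a.1, b.1⟫ - ⟪z.1, a.1⟫ * ⟪z.1, b.1⟫ + (⟪a.2, b.2⟫ - ⟪z.2, a.2⟫ * ⟪z.2, b.2⟫) := by
  show sB U4 U4 a (W z b) = _
  rw [sB_apply, W_apply]
  simp only [inner_sub_right, real_inner_smul_right]
  rw [real_inner_comm z.1 a.1, real_inner_comm z.2 a.2]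
  ring

theorem dFF (a b z w : U4 × U4) : fderiv ℝ (SX.FF W a b) z w =
    -(⟪w.1, a.1⟫ * ⟪z.1, b.1⟫ + ⟪z.1, a.1⟫ * ⟪w.1, b.1⟫ +
      (⟪w.2, a.2⟫ * ⟪z.2, b.2⟫ + ⟪z.2, a.2⟫ * ⟪w.2, b.2⟫)) := by
  apply fderiv_line ((Emb.smoothFF hW a b).differentiable (by simp) z) w
    (c0 := SX.FF W a b z) (c2 := -(⟪w.1, a.1⟫ * ⟪w.1, b.1⟫ + ⟪w.2, a.2⟫ * ⟪w.2, b.2⟫)) (c3 := 0)
  intro t
  rw [FF_eq, FF_eq]
  simp only [Prod.fst_add, Prod.snd_add, Prod.smul_fst, Prod.smul_snd, inner_add_left,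
    real_inner_smul_left, smul_eq_mul]
  ring

theorem dir_eq (c a b z : U4 × U4) : Emb.Dir W c (SX.FF W a b) z =
    -((⟪c.1, a.1⟫ - ⟪z.1, c.1⟫ * ⟪z.1, a.1⟫) * ⟪z.1, b.1⟫ +
      ⟪z.1, a.1⟫ * (⟪c.1, b.1⟫ - ⟪z.1, c.1⟫ * ⟪z.1, b.1⟫) +
      ((⟪c.2, a.2⟫ - ⟪z.2, c.2⟫ * ⟪z.2, a.2⟫) * ⟪z.2, b.2⟫ +
        ⟪z.2, a.2⟫ * (⟪c.2, b.2⟫ - ⟪z.2, c.2⟫ * ⟪z.2, b.2⟫))) := by
  rw [Emb.Dir, dFF, W_apply]
  simp only [inner_sub_left, real_inner_smul_left]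

/-- orthogonality -/
def Tan (z a : U4 × U4) : Prop := ⟪z.1, a.1⟫ = 0 ∧ ⟪z.2, a.2⟫ = 0

theorem W_tan {z a : U4 × U4} (h : Tan z a) : W z a = a := by
  rw [W_apply, h.1, h.2, zero_smul, zero_smul, sub_zero, sub_zero]

theorem dir2 {c d a b z : U4 × U4} (hc : Tan z c) (hd : Tan z d) (ha : Tan z a) (hb : Tan z b) :
    Emb.Dir W d (Emb.Dir W c (SX.FF W a b)) z =
      -(⟪c.1, a.1⟫ * ⟪d.1, b.1⟫ + ⟪d.1, a.1⟫ * ⟪c.1, b.1⟫ +
        (⟪c.2, a.2⟫ * ⟪d.2, b.2⟫ + ⟪d.2, a.2⟫ * ⟪c.2, b.2⟫)) := by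
  rw [Emb.Dir, W_tan hd]
  apply fderiv_line ((Emb.smoothDir hW c (Emb.smoothFF hW a b)).differentiable (by simp) z) d
    (c0 := 0) (c2 := 0) (c3 := ⟪d.1, c.1⟫ * ⟪d.1, a.1⟫ * ⟪d.1, b.1⟫ * 2 +
      ⟪d.2, c.2⟫ * ⟪d.2, a.2⟫ * ⟪d.2, b.2⟫ * 2)
  intro t
  rw [dir_eq]
  simp only [Prod.fst_add, Prod.snd_add, Prod.smul_fst, Prod.smul_snd, inner_add_left,
    real_inner_smul_left, smul_eq_mul, hc.1, hc.2, ha.1, ha.2, hb.1, hb.2]
  ring

theorem dW {z a b : U4 × U4} (ha : Tan z a) (hb : Tan z b) :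
    fderiv ℝ (fun y => W y b) z (W z a) = (-(⟪a.1, b.1⟫ • z.1), -(⟪a.2, b.2⟫ • z.2)) := by
  rw [W_tan ha]
  apply fderiv_line ((Emb.smoothAp hW b).differentiable (by simp) z) a (c0 := b)
    (c2 := (-(⟪a.1, b.1⟫ • a.1), -(⟪a.2, b.2⟫ • a.2))) (c3 := 0)
  intro t
  rw [W_apply]
  simp only [Prod.fst_add, Prod.snd_add, Prod.smul_fst, Prod.smul_snd, inner_add_left,
    real_inner_smul_left, hb.1, hb.2, zero_add]
  refine Prod.ext ?_ ?_
  · simp only [Prod.fst_add, Prod.smul_fst, Prod.fst_zero]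
    module
  · simp only [Prod.snd_add, Prod.smul_snd, Prod.snd_zero]
    module

theorem Br_eq {z a b : U4 × U4} (ha : Tan z a) (hb : Tan z b) : Emb.Br W a b z = 0 := by
  rw [Emb.Br, dW ha hb, dW hb ha, real_inner_comm a.1 b.1, real_inner_comm a.2 b.2, sub_self]

theorem Pexp_eq {z a b γ : U4 × U4} (ha : Tan z a) (hb : Tan z b) (hγ : W z γ = 0) :
    SX.Pexp W z a b γ = (⟪a.1, a.1⟫ * ⟪b.1, b.1⟫ - ⟪a.1, b.1⟫ ^ 2) +
      (⟪a.2, a.2⟫ * ⟪b.2, b.2⟫ - ⟪a.2, b.2⟫ ^ 2) := by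
  rw [Emb.Pexp, dir2 ha ha hb hb, dir2 hb hb ha ha, dir2 hb ha ha hb, dir2 ha hb ha hb, dFF, dFF,
    Br_eq ha hb, hγ, map_zero, ha.1, ha.2, hb.1, hb.2, real_inner_comm a.1 b.1,
    real_inner_comm a.2 b.2]
  ring

theorem tan_d (p : X) (v : TangentSpace IX p) : Tan (SX.j p) (SX.d p v) := by
  have h := SX.P_d p v
  have h1 : W (SX.j p) (SX.d p v) = SX.d p v := h
  rw [W_apply] at h1
  have h2 := congrArg Prod.fst h1
  have h3 := congrArg Prod.snd h1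
  have n1 : ⟪(SX.j p).1, (SX.j p).1⟫ = 1 := inner_self_sph p.1
  have n2 : ⟪(SX.j p).2, (SX.j p).2⟫ = 1 := inner_self_sph p.2
  constructor
  · have h4 := congrArg (fun y => ⟪(SX.j p).1, y⟫) h2
    simp only [inner_sub_right, real_inner_smul_right, n1] at h4
    linarith
  · have h4 := congrArg (fun y => ⟪(SX.j p).2, y⟫) h3
    simp only [inner_sub_right, real_inner_smul_right, n2] at h4
    linarith

end Sph

open Sph in
theorem s_sph : S_SPH := by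
  obtain ⟨g, hg⟩ := Emb.exists_metric hW
  have hgi : ∀ (p : X) (v w : TangentSpace IX p), g.inner p v w =
      sB U4 U4 (SX.d p v) (SX.d p w) := fun p v w => hg p (SX.d p v) v (SX.P_d p v).symm w
  refine ⟨g, fun p v w => hgi p v w, ?_⟩
  obtain ⟨cov, R, h, hR⟩ := Emb.exists_cov hW hg
  refine ⟨cov, R, h, hR, fun p u v => ?_⟩
  obtain ⟨γ, hγ1, hγ2, hc⟩ := Emb.curv_eq hW hg h hR p (SX.d p u) (SX.d p v) u v
    (SX.P_d p u).symm (SX.P_d p v).symm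
  have hu := tan_d p u
  have hv := tan_d p v
  rw [Br_eq hu hv] at hγ2
  rw [hc, Pexp_eq hu hv hγ2]
  have c1 := real_inner_mul_inner_self_le (SX.d p u).1 (SX.d p v).1
  have c2 := real_inner_mul_inner_self_le (SX.d p u).2 (SX.d p v).2
  nlinarith

end Pool.Agent.H781.CM.Q
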