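import Pool.Agent.H781.CM.AllN
import Pool.Agent.H781.CM.Lcex
import Pool.Agent.H781.CM.Onl
import Pool.Agent.H781.CM.Sbm
import Pool.Agent.H781.CM.Sph
import Pool.Agent.H781.CM.Ansc
import Pool.Agent.H781.CM.Msec
import Pool.Agent.H781.CM.Lp2
import Pool.Agent.H781.CM.Clm
import Pool.Agent.H781.CM.Cnn
import Pool.Agent.H781.CM.H1m
import Pool.Agent.H781.CM.H2m
import Pool.Agent.H781.CM.Diff
import Pool.Agent.H781.CM.Eta

/-!
Assembly: `M = CP² # CP²` has a metric of nonnegative sectional curvature and does not admit almost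
nonnegative curvature operator.
-/

set_option autoImplicit false

open Bundle Manifold ContDiff VectorField
open scoped Topology ComplexConjugate

noncomputable section

namespace Pool.Agent.H781.CM.Q

open Pool.Agent.H781.CM.F

namespace QFin

theorem rr_psM {y : U4} (hy : y ∈ BD) : rr (psM 0 0 y).1 = Complex.normSq (c1 y) := by
  rw [psM_val hy]
  simp [ps, sg, Phi, Phi4, rr]

theorem exists_rr {r : ℝ} (h0 : 0 ≤ r) (h1 : r < 1) : ∃ x : M, rr x.1 = r := by
  have hn : Complex.normSq ((Real.sqrt r : ℝ) : ℂ) = r := by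
    rw [Complex.normSq_ofReal, Real.mul_self_sqrt h0]
  have hy : mk ((Real.sqrt r : ℝ) : ℂ) 0 ∈ BD := by
    refine ⟨?_, ?_⟩
    · rw [c1_mk, hn]; exact h1
    · rw [c2_mk]; simp
  exact ⟨psM 0 0 (mk ((Real.sqrt r : ℝ) : ℂ) 0), by rw [rr_psM hy, c1_mk, hn]⟩

theorem hh_smooth : ContDiff ℝ ∞ hh :=
  Real.smoothTransition.contDiff.comp (by fun_prop)

theorem kk_smooth : ContDiff ℝ ∞ kk :=
  Real.smoothTransition.contDiff.comp (by fun_prop)

theorem hh_mono : Monotone hh := fun a b h =>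
  Real.smoothTransition.monotone (by linarith)

theorem kk_anti : Antitone kk := fun a b h =>
  Real.smoothTransition.monotone (by linarith)

theorem hh_nonneg (r : ℝ) : 0 ≤ hh r := Real.smoothTransition.nonneg _

theorem kk_nonneg (r : ℝ) : 0 ≤ kk r := Real.smoothTransition.nonneg _

theorem dhh_nonneg (r : ℝ) : 0 ≤ deriv hh r := hh_mono.deriv_nonneg

theorem dkk_nonpos (r : ℝ) : deriv kk r ≤ 0 := kk_anti.deriv_nonpos

theorem rr_cont : Continuous (fun x : M => rr x.1) :=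
  (continuous_fst.comp continuous_fst).comp continuous_subtype_val

theorem hh_pos : ∃ r : ℝ, 0 ≤ r ∧ r < 1 ∧ 0 < 2 * hh r * deriv hh r := by
  have hd : Differentiable ℝ hh := hh_smooth.differentiable (by simp)
  obtain ⟨r, hr, he⟩ := exists_deriv_eq_slope hh (a := 1 / 2) (b := 3 / 4) (by norm_num)
    hh_smooth.continuous.continuousOn hd.differentiableOn
  have e1 : hh (3 / 4) = 1 := Real.smoothTransition.one_of_one_le (by norm_num)
  have e2 : hh (1 / 2) = 0 := Real.smoothTransition.zero_of_nonpos (by norm_num)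
  have e3 : 0 < hh r := Real.smoothTransition.pos_of_pos (by linarith [hr.1])
  refine ⟨r, by linarith [hr.1], by linarith [hr.2], ?_⟩
  rw [he, e1, e2]
  have : (0 : ℝ) < (1 - 0) / (3 / 4 - 1 / 2) := by norm_num
  positivity

theorem kk_pos : ∃ r : ℝ, 0 ≤ r ∧ r < 1 ∧ 0 < -(2 * kk r * deriv kk r) := by
  have hd : Differentiable ℝ kk := kk_smooth.differentiable (by simp)
  obtain ⟨r, hr, he⟩ := exists_deriv_eq_slope kk (a := 1 / 4) (b := 1 / 2) (by norm_num)
    kk_smooth.continuous.continuousOn hd.differentiableOn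
  have e1 : kk (1 / 2) = 0 := Real.smoothTransition.zero_of_nonpos (by norm_num)
  have e2 : kk (1 / 4) = 1 := Real.smoothTransition.one_of_one_le (by norm_num)
  have e3 : 0 < kk r := Real.smoothTransition.pos_of_pos (by linarith [hr.2])
  refine ⟨r, by linarith [hr.1], by linarith [hr.2], ?_⟩
  rw [he, e1, e2]
  have : ((0 : ℝ) - 1) / (1 / 2 - 1 / 4) = -4 := by norm_num
  rw [this]
  nlinarith

end QFin

open QFin in
/-- `CP² # CP²` -/
theorem main_q (hom : S_OM) (hwed : S_WED) :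
    (∃ g : ContMDiffRiemannianMetric (𝓡 4) ∞ (EuclideanSpace ℝ (Fin 4))
      (fun x : M => TangentSpace (𝓡 4) x), SecGE g 0) ∧ F.AdmitsANSC (𝓡 4) M ∧
      ¬ F.AdmitsANCO (𝓡 4) M 4 := by
  obtain ⟨g, hg⟩ := s_msec s_lcex s_oneill s_subm s_sph
  refine ⟨⟨g, hg⟩, s_ansc 4 M (by norm_num) g hg, ?_⟩
  obtain ⟨η, hη⟩ := s_eta s_diff
  obtain ⟨Ω, hΩ, hΩ'⟩ := hom
  obtain ⟨w1, w2, w3, w4⟩ := hwed η Ω (fun k i j => ((hη k).2 i j).2) hΩ'
  have hh2 := s_h2m s_diff s_lp2 s_clm η hη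
  obtain ⟨r, hr0, hr1, hr⟩ := hh_pos
  obtain ⟨x, hx⟩ := exists_rr hr0 hr1
  obtain ⟨r', hr0', hr1', hr'⟩ := kk_pos
  obtain ⟨x', hx'⟩ := exists_rr hr0' hr1'
  refine nanco M Ω (η 0) (η 1) (fun x => 2 * hh (rr x.1) * deriv hh (rr x.1))
    (fun x => -(2 * kk (rr x.1) * deriv kk (rr x.1))) hΩ w4 (s_h1m s_clm s_con) (hη 0).1
    (hη 1).1 hh2 ?_ ?_ (fun x => ?_) (fun x => ?_) ⟨x, ?_⟩ ⟨x', ?_⟩ w1 w2 w3
  · have h1 : Continuous hh := hh_smooth.continuous
    have h2 : Continuous (deriv hh) := hh_smooth.continuous_deriv (by simp)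
    exact (continuous_const.mul (h1.comp rr_cont)).mul (h2.comp rr_cont)
  · have h1 : Continuous kk := kk_smooth.continuous
    have h2 : Continuous (deriv kk) := kk_smooth.continuous_deriv (by simp)
    exact ((continuous_const.mul (h1.comp rr_cont)).mul (h2.comp rr_cont)).neg
  · have a := hh_nonneg (rr x.1)
    have b := dhh_nonneg (rr x.1)
    positivity
  · have a := kk_nonneg (rr x.1)
    have b := dkk_nonpos (rr x.1)
    show 0 ≤ -(2 * kk (rr x.1) * deriv kk (rr x.1))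
    nlinarith
  · show 0 < 2 * hh (rr x.1) * deriv hh (rr x.1)
    rw [hx]; exact hr
  · show 0 < -(2 * kk (rr x'.1) * deriv kk (rr x'.1))
    rw [hx']; exact hr'

end Pool.Agent.H781.CM.Q
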