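import Pool.Agent.H781.CM.Q0
import Pool.Agent.H781.CM.GSpec
import Pool.Graph.R_seed8.H839R2.HO.RSub
import Pool.Graph.R_seed8.H893R5.HO.SphEmb

/-!
Specification of the geometric part of project Q (sectional curvature of `CP² # CP²`).
-/

set_option autoImplicit false

open Bundle Manifold ContDiff VectorField
open scoped Topology RealInnerProductSpace

noncomputable section

namespace Pool.Agent.H781.CM.Q

open Pool.Agent.H821R2 Pool.Agent.H781.S22 Pool.Agent.H781.CM.F Pool.Agent.H839R2.RS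
  Pool.Agent.H893R5.HO

/-- the model of `S³ × S³` -/
abbrev IX := (𝓡 3).prod (𝓡 3)

/-- existence of the Levi-Civita connection and of the Riemann tensor -/
def S_LCEX : Prop := ∀ (n : ℕ) (M : Type) [TopologicalSpace M] [T2Space M] [CompactSpace M]
  [ChartedSpace (EuclideanSpace ℝ (Fin n)) M] [IsManifold (𝓡 n) ∞ M], 1 ≤ n →
  ∀ g : ContMDiffRiemannianMetric (𝓡 n) ∞ (EuclideanSpace ℝ (Fin n))
    (fun x : M => TangentSpace (𝓡 n) x),
  ∃ (cov : CovariantDerivative (𝓡 n) (EuclideanSpace ℝ (Fin n)) (TangentSpace (𝓡 n) : M → Type _))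
    (R : CurvField (𝓡 n) M), IsLeviCivita g cov ∧ IsRiemannTensor cov R

/-- nonnegative sectional curvature passes to the base of a Riemannian submersion (O'Neill) -/
def S_ONEILL : Prop := ∀ (E : Type) [NormedAddCommGroup E] [NormedSpace ℝ E]
  [FiniteDimensional ℝ E] [Nontrivial E] (H : Type) [TopologicalSpace H]
  (I : ModelWithCorners ℝ E H) (P : Type) [TopologicalSpace P] [ChartedSpace H P]
  [IsManifold I ∞ P] [T2Space P] [SigmaCompactSpace P]
  (E' : Type) [NormedAddCommGroup E'] [NormedSpace ℝ E']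
  [FiniteDimensional ℝ E'] [Nontrivial E'] (H' : Type) [TopologicalSpace H']
  (I' : ModelWithCorners ℝ E' H') (B : Type) [TopologicalSpace B] [ChartedSpace H' B]
  [IsManifold I' ∞ B] [T2Space B] [SigmaCompactSpace B]
  (g : ContMDiffRiemannianMetric I ∞ E (fun x : P => TangentSpace I x))
  (h : ContMDiffRiemannianMetric I' ∞ E' (fun x : B => TangentSpace I' x)) (f : P → B),
  IsRiemannianSubmersion g h f →
  (∃ (cov : CovariantDerivative I E (TangentSpace I : P → Type _)) (R : CurvField I P),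
    IsLeviCivita g cov ∧ IsRiemannTensor cov R ∧
      ∀ (x : P) (u v : TangentSpace I x), 0 ≤ g.inner x (R x u v v) u) →
  ∀ (cov : CovariantDerivative I' E' (TangentSpace I' : B → Type _)) (R : CurvField I' B),
    IsLeviCivita h cov → IsRiemannTensor cov R →
      ∀ (x : B) (u v : TangentSpace I' x), 0 ≤ h.inner x (R x u v v) u

/-- the metric on the base of a Riemannian submersion -/
def S_SUBM : Prop := ∀ (E : Type) [NormedAddCommGroup E] [NormedSpace ℝ E]
  [FiniteDimensional ℝ E] (H : Type) [TopologicalSpace H]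
  (I : ModelWithCorners ℝ E H) (P : Type) [TopologicalSpace P] [ChartedSpace H P]
  [IsManifold I ∞ P] (n : ℕ) (B : Type) [TopologicalSpace B]
  [ChartedSpace (EuclideanSpace ℝ (Fin n)) B]
  [IsManifold (𝓡 n) ∞ B] [T2Space B] [CompactSpace B]
  (g : ContMDiffRiemannianMetric I ∞ E (fun x : P => TangentSpace I x)) (f : P → B),
  ContMDiff I (𝓡 n) ∞ f → Function.Surjective f →
  (∀ p : P, ∃ U : Set B, IsOpen U ∧ f p ∈ U ∧ ∃ σ : B → P, ContMDiffOn (𝓡 n) I ∞ σ U ∧
    (∀ y ∈ U, f (σ y) = y) ∧ ∀ y ∈ U, ∀ w : TangentSpace (𝓡 n) y, ∃ v : TangentSpace I (σ y),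
      (mfderiv I (𝓡 n) f (σ y) v : EuclideanSpace ℝ (Fin n)) = w) →
  (∀ p q : P, f p = f q → ∃ L : TangentSpace I p →L[ℝ] TangentSpace I q,
    Function.Surjective L ∧ (∀ v w, g.inner q (L v) (L w) = g.inner p v w) ∧
    ∀ v, (mfderiv I (𝓡 n) f q (L v) : EuclideanSpace ℝ (Fin n)) = mfderiv I (𝓡 n) f p v) →
  ∃ h : ContMDiffRiemannianMetric (𝓡 n) ∞ (EuclideanSpace ℝ (Fin n))
    (fun x : B => TangentSpace (𝓡 n) x), IsRiemannianSubmersion g h f

/-- the product metric on `S³ × S³` -/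
def S_SPH : Prop := ∃ g : ContMDiffRiemannianMetric IX ∞
    (EuclideanSpace ℝ (Fin 3) × EuclideanSpace ℝ (Fin 3)) (fun x : X => TangentSpace IX x),
  (∀ (p : X) (v w : TangentSpace IX p), g.inner p v w =
    ⟪(mvfderiv IX (fun x : X => ((x.1 : U4), (x.2 : U4))) p v).1,
      (mvfderiv IX (fun x : X => ((x.1 : U4), (x.2 : U4))) p w).1⟫ +
    ⟪(mvfderiv IX (fun x : X => ((x.1 : U4), (x.2 : U4))) p v).2,
      (mvfderiv IX (fun x : X => ((x.1 : U4), (x.2 : U4))) p w).2⟫) ∧
  ∃ (cov : CovariantDerivative IX (EuclideanSpace ℝ (Fin 3) × EuclideanSpace ℝ (Fin 3))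
      (TangentSpace IX : X → Type _)) (R : CurvField IX X),
    IsLeviCivita g cov ∧ IsRiemannTensor cov R ∧
      ∀ (x : X) (u v : TangentSpace IX x), 0 ≤ g.inner x (R x u v v) u

/-- a closed manifold with nonnegative sectional curvature admits almost nonnegative sectional
curvature (finite diameter, scaling) -/
def S_ANSC : Prop := ∀ (n : ℕ) (M : Type) [TopologicalSpace M] [T2Space M] [CompactSpace M]
  [ConnectedSpace M] [ChartedSpace (EuclideanSpace ℝ (Fin n)) M] [IsManifold (𝓡 n) ∞ M], 1 ≤ n →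
  ∀ g : ContMDiffRiemannianMetric (𝓡 n) ∞ (EuclideanSpace ℝ (Fin n))
    (fun x : M => TangentSpace (𝓡 n) x), SecGE g 0 → AdmitsANSC (𝓡 n) M

end Pool.Agent.H781.CM.Q
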