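import Pool.Agent.H781.CM.QC

/-!
The Poincaré lemma for 1-forms on star-shaped open sets (helper282 for helper781).
-/

set_option autoImplicit false

open Bundle Manifold ContDiff VectorField
open scoped Topology ComplexConjugate

noncomputable section

namespace Pool.Agent.H781.CM.Q

namespace Qh1a

theorem isCompact_segment' {n : ℕ} (y : EV n) : IsCompact (segment ℝ (0 : EV n) y) := by
  rw [segment_eq_image]
  exact isCompact_Icc.image (by fun_prop)

/-- the primitive of a closed 1-form on a star-shaped open set -/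
theorem primitive {n : ℕ} (V : Set (EV n)) (hV : IsOpen V) (hs : StarConvex ℝ 0 V)
    (a : EV n → EV n →L[ℝ] ℝ) (ha : DifferentiableOn ℝ a V) (hc : Cl1 V a) :
    ∀ y ∈ V, HasFDerivAt (fun z => curveIntegral a (Path.segment (0 : EV n) z)) (a y) y := by
  intro y hy
  obtain ⟨δ, hδ, hδV⟩ := (isCompact_segment' y).exists_thickening_subset_open hV
    (hs.segment_subset hy)
  have hconv : Convex ℝ (Metric.thickening δ (segment ℝ (0 : EV n) y)) :=
    (convex_segment (0 : EV n) y).thickening δ
  have hopen : IsOpen (Metric.thickening δ (segment ℝ (0 : EV n) y)) := Metric.isOpen_thickening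
  have h0 : (0 : EV n) ∈ Metric.thickening δ (segment ℝ (0 : EV n) y) :=
    Metric.self_subset_thickening hδ _ (left_mem_segment ℝ _ _)
  have h1 : y ∈ Metric.thickening δ (segment ℝ (0 : EV n) y) :=
    Metric.self_subset_thickening hδ _ (right_mem_segment ℝ _ _)
  have hd : ∀ x ∈ Metric.thickening δ (segment ℝ (0 : EV n) y),
      HasFDerivWithinAt a (fderiv ℝ a x) (Metric.thickening δ (segment ℝ (0 : EV n) y)) x :=
    fun x hx =>
      ((ha x (hδV hx)).differentiableAt (hV.mem_nhds (hδV hx))).hasFDerivAt.hasFDerivWithinAt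
  have h2 := hconv.hasFDerivWithinAt_curveIntegral_segment_of_hasFDerivWithinAt_symmetric
    hd (fun x hx v _ w _ => hc x (hδV hx) v w) h0 h1
  exact h2.hasFDerivAt (hopen.mem_nhds h1)

end Qh1a

/-- **Poincaré lemma for 1-forms on star-shaped open sets** -/
theorem s_h1a : S_H1A := by
  intro n V hV hs a ha hc
  have h1 := Qh1a.primitive V hV hs a (ha.differentiableOn (by simp)) hc
  refine ⟨fun z => curveIntegral a (Path.segment (0 : EV n) z), ?_, fun y hy v => ?_⟩
  · rw [contDiffOn_infty_iff_fderiv_of_isOpen hV]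
    refine ⟨fun y hy => (h1 y hy).differentiableAt.differentiableWithinAt, ?_⟩
    exact ha.congr fun y hy => (h1 y hy).fderiv
  · rw [(h1 y hy).fderiv]

end Pool.Agent.H781.CM.Q
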