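import Pool.Agent.H781.CM.QC

/-!
Closed 1-forms on disc times punctured disc.
-/

set_option autoImplicit false

open Bundle Manifold ContDiff VectorField
open scoped Topology ComplexConjugate

noncomputable section

namespace Pool.Agent.H781.CM.Q

namespace Qh1b

/-- the coordinate functions -/
def P (p : Fin 4) : U4 →L[ℝ] ℝ := EuclideanSpace.proj p

theorem P_apply (p : Fin 4) (y : U4) : P p y = y p := rfl

/-- the angular form of the coordinates `p`, `q` -/
def AA (p q : Fin 4) (y : U4) : U4 →L[ℝ] ℝ :=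
  (y p ^ 2 + y q ^ 2)⁻¹ • (y p • P q - y q • P p)

theorem AA_apply (p q : Fin 4) (y v : U4) :
    AA p q y v = (y p * v q - y q * v p) / (y p ^ 2 + y q ^ 2) := by
  unfold AA
  rw [ContinuousLinearMap.smul_apply, ContinuousLinearMap.sub_apply,
    ContinuousLinearMap.smul_apply, ContinuousLinearMap.smul_apply, P_apply, P_apply,
    smul_eq_mul, smul_eq_mul, smul_eq_mul, div_eq_inv_mul]

theorem hasFDerivAt_P (p : Fin 4) (y : U4) : HasFDerivAt (fun x : U4 => x p) (P p) y :=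
  (P p).hasFDerivAt

theorem theta_a (p q : Fin 4) (y : U4) (h : y p ≠ 0) :
    HasFDerivAt (fun x : U4 => Real.arctan (x q / x p)) (AA p q y) y := by
  have h1 : HasFDerivAt (fun x : U4 => x q * (x p)⁻¹)
      (y q • (-(y p ^ 2)⁻¹ • P p) + (y p)⁻¹ • P q) y := by
    have h2 : HasFDerivAt (fun x : U4 => (x p)⁻¹) (-(y p ^ 2)⁻¹ • P p) y :=
      (hasDerivAt_inv h).comp_hasFDerivAt y (hasFDerivAt_P p y)
    exact (hasFDerivAt_P q y).mul h2
  have h3 := h1.arctan
  have h4 : (fun x : U4 => Real.arctan (x q / x p)) =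
      fun x : U4 => Real.arctan (x q * (x p)⁻¹) := by
    funext x
    rw [div_eq_mul_inv]
  rw [h4]
  refine h3.congr_fderiv ?_
  ext v
  rw [AA_apply]
  simp only [ContinuousLinearMap.smul_apply, ContinuousLinearMap.add_apply, P_apply, smul_eq_mul]
  have h5 : y p ^ 2 + y q ^ 2 ≠ 0 := by
    have : 0 < y p ^ 2 := by positivity
    positivity
  have h6 : 1 + (y q * (y p)⁻¹) ^ 2 ≠ 0 := by positivity
  field_simp
  ring

theorem theta_b (p q : Fin 4) (y : U4) (h : y q ≠ 0) :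
    HasFDerivAt (fun x : U4 => -Real.arctan (x p / x q)) (AA p q y) y := by
  refine (theta_a q p y h).neg.congr_fderiv ?_
  ext v
  rw [ContinuousLinearMap.neg_apply, AA_apply, AA_apply, add_comm (y q ^ 2) (y p ^ 2),
    ← neg_div]
  ring

theorem smooth_AA (p q : Fin 4) : ContDiffOn ℝ ∞ (AA p q) {y : U4 | y p ≠ 0 ∨ y q ≠ 0} := by
  unfold AA
  have hp : ContDiff ℝ ∞ fun y : U4 => y p := (P p).contDiff
  have hq : ContDiff ℝ ∞ fun y : U4 => y q := (P q).contDiff
  refine ContDiffOn.smul (ContDiffOn.inv ((hp.pow 2).add (hq.pow 2)).contDiffOn ?_)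
    ((hp.smul contDiff_const).sub (hq.smul contDiff_const)).contDiffOn
  intro y hy
  rcases hy with hy | hy
  · have : 0 < y p ^ 2 := by positivity
    positivity
  · have : 0 < y q ^ 2 := by positivity
    positivity

theorem convex_half (p : Fin 4) (ε : ℝ) : Convex ℝ {y : U4 | 0 < ε * y p} := by
  have h : IsLinearMap ℝ fun y : U4 => ε * y p :=
    ⟨fun x y => by rw [PiLp.add_apply, mul_add], fun c x => by
      rw [PiLp.smul_apply, smul_eq_mul, smul_eq_mul]; ring⟩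
  exact convex_halfSpace_gt h 0

theorem open_half (p : Fin 4) (ε : ℝ) : IsOpen {y : U4 | 0 < ε * y p} :=
  isOpen_lt continuous_const (continuous_const.mul (P p).continuous)

theorem BD_eq : BD = {y : U4 | y 0 ^ 2 + y 1 ^ 2 < 1} ∩ {y : U4 | y 2 ^ 2 + y 3 ^ 2 < 1} := by
  ext y
  unfold BD c1 c2
  rw [Set.mem_setOf_eq, Complex.normSq_mk, Complex.normSq_mk]
  constructor
  · rintro ⟨h1, h2⟩
    exact ⟨by rw [Set.mem_setOf_eq]; nlinarith, by rw [Set.mem_setOf_eq]; nlinarith⟩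
  · rintro ⟨h1, h2⟩
    rw [Set.mem_setOf_eq] at h1 h2
    exact ⟨by nlinarith, by nlinarith⟩

theorem convex_disc (p q : Fin 4) : Convex ℝ {y : U4 | y p ^ 2 + y q ^ 2 < 1} := by
  intro x hx y hy s t hs ht hst
  rw [Set.mem_setOf_eq] at *
  rw [PiLp.add_apply, PiLp.add_apply, PiLp.smul_apply, PiLp.smul_apply, PiLp.smul_apply,
    PiLp.smul_apply, smul_eq_mul, smul_eq_mul, smul_eq_mul, smul_eq_mul]
  have ht' : t = 1 - s := by linarith
  subst ht'
  have h1 : (s * x p + (1 - s) * y p) ^ 2 + (s * x q + (1 - s) * y q) ^ 2 =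
      s * (x p ^ 2 + x q ^ 2) + (1 - s) * (y p ^ 2 + y q ^ 2) -
        s * (1 - s) * ((x p - y p) ^ 2 + (x q - y q) ^ 2) := by ring
  have h2 : 0 ≤ s * (1 - s) * ((x p - y p) ^ 2 + (x q - y q) ^ 2) := by positivity
  rw [h1]
  rcases hs.eq_or_lt with h | h
  · rw [← h]
    linarith
  · have h3 : s * (x p ^ 2 + x q ^ 2) < s * 1 := mul_lt_mul_of_pos_left hx h
    have h4 : (1 - s) * (y p ^ 2 + y q ^ 2) ≤ (1 - s) * 1 := mul_le_mul_of_nonneg_left hy.le ht
    linarith

theorem convex_BD : Convex ℝ BD := by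
  rw [BD_eq]
  exact (convex_disc 0 1).inter (convex_disc 2 3)

theorem open_BD : IsOpen BD := by
  rw [BD_eq]
  have h : ∀ p : Fin 4, Continuous fun y : U4 => y p := fun p => (P p).continuous
  exact (isOpen_lt (((h 0).pow 2).add ((h 1).pow 2)) continuous_const).inter
    (isOpen_lt (((h 2).pow 2).add ((h 3).pow 2)) continuous_const)

/-- two primitives on a convex open set -/
theorem const_diff {s : Set U4} (hs : IsOpen s) (hc : Convex ℝ s) {a : U4 → U4 →L[ℝ] ℝ}
    {f g : U4 → ℝ} (hf : ∀ x ∈ s, HasFDerivAt f (a x) x) (hg : ∀ x ∈ s, HasFDerivAt g (a x) x) :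
    ∃ K, ∀ x ∈ s, f x = g x + K := by
  obtain ⟨K, hK⟩ := hs.exists_eq_add_of_fderiv_eq hc.isPreconnected
    (fun x hx => (hf x hx).differentiableAt.differentiableWithinAt)
    (fun x hx => (hg x hx).differentiableAt.differentiableWithinAt)
    (fun x hx => by rw [(hf x hx).fderiv, (hg x hx).fderiv])
  exact ⟨K, fun x hx => hK hx⟩

/-- the general statement -/
theorem gen (p q : Fin 4) (a : U4 → U4 →L[ℝ] ℝ)
    (ha : ContDiffOn ℝ ∞ a (BD ∩ {y : U4 | y p ≠ 0 ∨ y q ≠ 0}))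
    (hcl : ∀ y ∈ BD ∩ {y : U4 | y p ≠ 0 ∨ y q ≠ 0}, ∀ v w, fderiv ℝ a y v w = fderiv ℝ a y w v) :
    ∃ (c : ℝ) (f : U4 → ℝ), ContDiffOn ℝ ∞ f (BD ∩ {y : U4 | y p ≠ 0 ∨ y q ≠ 0}) ∧
      ∀ y ∈ BD ∩ {y : U4 | y p ≠ 0 ∨ y q ≠ 0}, HasFDerivAt f (a y - c • AA p q y) y := by
  classical
  have hpi := Real.pi_pos
  set O : Set U4 := BD ∩ {y : U4 | y p ≠ 0 ∨ y q ≠ 0} with hO
  have hOopen : IsOpen O := by
    refine open_BD.inter ?_
    have h1 : {y : U4 | y p ≠ 0 ∨ y q ≠ 0} = {y : U4 | y p ≠ 0} ∪ {y : U4 | y q ≠ 0} := rfl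
    rw [h1]
    exact (isOpen_ne_fun (P p).continuous continuous_const).union
      (isOpen_ne_fun (P q).continuous continuous_const)
  -- the four half discs
  set H : Fin 4 → ℝ → Set U4 := fun r ε => BD ∩ {y : U4 | 0 < ε * y r} with hH
  have hHo : ∀ r ε, IsOpen (H r ε) := fun r ε => open_BD.inter (open_half r ε)
  have hHc : ∀ r ε, Convex ℝ (H r ε) := fun r ε => convex_BD.inter (convex_half r ε)
  have hHp : ∀ ε, H p ε ⊆ O := by
    rintro ε y ⟨h1, h2⟩
    refine ⟨h1, Or.inl fun h => ?_⟩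
    rw [Set.mem_setOf_eq, h, mul_zero] at h2
    exact lt_irrefl _ h2
  have hHq : ∀ ε, H q ε ⊆ O := by
    rintro ε y ⟨h1, h2⟩
    refine ⟨h1, Or.inr fun h => ?_⟩
    rw [Set.mem_setOf_eq, h, mul_zero] at h2
    exact lt_irrefl _ h2
  have hprim : ∀ s : Set U4, IsOpen s → Convex ℝ s → s ⊆ O →
      ∃ f : U4 → ℝ, ∀ x ∈ s, HasFDerivAt f (a x) x := by
    intro s hs hc hsO
    exact hc.exists_forall_hasFDerivAt_of_fderiv_symmetric hs
      (((ha.differentiableOn (by simp)).mono hsO)) fun x hx => hcl x (hsO hx)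
  obtain ⟨f1, hf1⟩ := hprim (H p 1) (hHo _ _) (hHc _ _) (hHp _)
  obtain ⟨f2, hf2⟩ := hprim (H q 1) (hHo _ _) (hHc _ _) (hHq _)
  obtain ⟨f3, hf3⟩ := hprim (H p (-1)) (hHo _ _) (hHc _ _) (hHp _)
  obtain ⟨f4, hf4⟩ := hprim (H q (-1)) (hHo _ _) (hHc _ _) (hHq _)
  have hdiff : ∀ (s t : Set U4) (f g : U4 → ℝ), IsOpen s → IsOpen t → Convex ℝ s → Convex ℝ t →
      (∀ x ∈ s, HasFDerivAt f (a x) x) → (∀ x ∈ t, HasFDerivAt g (a x) x) →
      ∃ K, ∀ x, x ∈ s → x ∈ t → f x = g x + K := by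
    intro s t f g hs ht hsc htc hf hg
    obtain ⟨K, hK⟩ := const_diff (hs.inter ht) (hsc.inter htc)
      (fun x hx => hf x hx.1) (fun x hx => hg x hx.2)
    exact ⟨K, fun x h1 h2 => hK x ⟨h1, h2⟩⟩
  obtain ⟨K1, hK1⟩ := hdiff _ _ f1 f2 (hHo _ _) (hHo _ _) (hHc _ _) (hHc _ _) hf1 hf2
  obtain ⟨K2, hK2⟩ := hdiff _ _ f2 f3 (hHo _ _) (hHo _ _) (hHc _ _) (hHc _ _) hf2 hf3
  obtain ⟨K3, hK3⟩ := hdiff _ _ f3 f4 (hHo _ _) (hHo _ _) (hHc _ _) (hHc _ _) hf3 hf4
  obtain ⟨K4, hK4⟩ := hdiff _ _ f4 f1 (hHo _ _) (hHo _ _) (hHc _ _) (hHc _ _) hf4 hf1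
  set c : ℝ := (K1 + K2 + K3 + K4) / (2 * Real.pi) with hc
  have hc' : c * (2 * Real.pi) = K1 + K2 + K3 + K4 := by
    rw [hc]; field_simp
  set F1 : U4 → ℝ := fun x => f1 x - c * Real.arctan (x q / x p) with hF1
  set F2 : U4 → ℝ := fun x => f2 x + K1 - c * (Real.pi / 2 + -Real.arctan (x p / x q)) with hF2
  set F3 : U4 → ℝ := fun x => f3 x + (K1 + K2) - c * (Real.pi + Real.arctan (x q / x p)) with hF3
  set F4 : U4 → ℝ := fun x => f4 x + (K1 + K2 + K3) -
    c * (3 * Real.pi / 2 + -Real.arctan (x p / x q)) with hF4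
  have d1 : ∀ x ∈ H p 1, HasFDerivAt F1 (a x - c • AA p q x) x := by
    intro x hx
    have hne : x p ≠ 0 := by
      intro h
      have := hx.2
      rw [Set.mem_setOf_eq, h, mul_zero] at this
      exact lt_irrefl _ this
    exact (hf1 x hx).sub ((theta_a p q x hne).const_mul c)
  have d2 : ∀ x ∈ H q 1, HasFDerivAt F2 (a x - c • AA p q x) x := by
    intro x hx
    have hne : x q ≠ 0 := by
      intro h
      have := hx.2
      rw [Set.mem_setOf_eq, h, mul_zero] at this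
      exact lt_irrefl _ this
    exact ((hf2 x hx).add_const K1).sub (((theta_b p q x hne).const_add (Real.pi / 2)).const_mul c)
  have d3 : ∀ x ∈ H p (-1), HasFDerivAt F3 (a x - c • AA p q x) x := by
    intro x hx
    have hne : x p ≠ 0 := by
      intro h
      have := hx.2
      rw [Set.mem_setOf_eq, h, mul_zero] at this
      exact lt_irrefl _ this
    exact ((hf3 x hx).add_const (K1 + K2)).sub
      (((theta_a p q x hne).const_add Real.pi).const_mul c)
  have d4 : ∀ x ∈ H q (-1), HasFDerivAt F4 (a x - c • AA p q x) x := by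
    intro x hx
    have hne : x q ≠ 0 := by
      intro h
      have := hx.2
      rw [Set.mem_setOf_eq, h, mul_zero] at this
      exact lt_irrefl _ this
    exact ((hf4 x hx).add_const (K1 + K2 + K3)).sub
      (((theta_b p q x hne).const_add (3 * Real.pi / 2)).const_mul c)
  -- the identities of the arc tangent
  have arcpos : ∀ x : U4, 0 < x p / x q →
      Real.arctan (x q / x p) = Real.pi / 2 - Real.arctan (x p / x q) := by
    intro x hx
    rw [← Real.arctan_inv_of_pos hx, inv_div]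
  have arcneg : ∀ x : U4, x p / x q < 0 →
      Real.arctan (x q / x p) = -(Real.pi / 2) - Real.arctan (x p / x q) := by
    intro x hx
    rw [← Real.arctan_inv_of_neg hx, inv_div]
  have e12 : ∀ x, x ∈ H p 1 → x ∈ H q 1 → F1 x = F2 x := by
    intro x h1 h2
    have hp : 0 < x p := by have := h1.2; rwa [Set.mem_setOf_eq, one_mul] at this
    have hq : 0 < x q := by have := h2.2; rwa [Set.mem_setOf_eq, one_mul] at this
    simp only [hF1, hF2]
    rw [arcpos x (div_pos hp hq), hK1 x h1 h2]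
    ring
  have e23 : ∀ x, x ∈ H q 1 → x ∈ H p (-1) → F2 x = F3 x := by
    intro x h1 h2
    have hq : 0 < x q := by have := h1.2; rwa [Set.mem_setOf_eq, one_mul] at this
    have hp : x p < 0 := by have := h2.2; rw [Set.mem_setOf_eq] at this; linarith
    simp only [hF2, hF3]
    rw [arcneg x (div_neg_of_neg_of_pos hp hq), hK2 x h1 h2]
    ring
  have e34 : ∀ x, x ∈ H p (-1) → x ∈ H q (-1) → F3 x = F4 x := by
    intro x h1 h2
    have hp : x p < 0 := by have := h1.2; rw [Set.mem_setOf_eq] at this; linarith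
    have hq : x q < 0 := by have := h2.2; rw [Set.mem_setOf_eq] at this; linarith
    simp only [hF3, hF4]
    rw [arcpos x (div_pos_of_neg_of_neg hp hq), hK3 x h1 h2]
    ring
  have e41 : ∀ x, x ∈ H q (-1) → x ∈ H p 1 → F4 x = F1 x := by
    intro x h1 h2
    have hq : x q < 0 := by have := h1.2; rw [Set.mem_setOf_eq] at this; linarith
    have hp : 0 < x p := by have := h2.2; rwa [Set.mem_setOf_eq, one_mul] at this
    simp only [hF4, hF1]
    rw [arcneg x (div_neg_of_pos_of_neg hp hq), hK4 x h1 h2]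
    linear_combination -hc'
  set f : U4 → ℝ := fun x => if 0 < x p then F1 x else if 0 < x q then F2 x else
    if x p < 0 then F3 x else F4 x with hf
  have g1 : ∀ x ∈ H p 1, f x = F1 x := by
    intro x hx
    have hp : 0 < x p := by have := hx.2; rwa [Set.mem_setOf_eq, one_mul] at this
    simp only [hf]
    rw [if_pos hp]
  have g2 : ∀ x ∈ H q 1, f x = F2 x := by
    intro x hx
    have hq : 0 < x q := by have := hx.2; rwa [Set.mem_setOf_eq, one_mul] at this
    by_cases hp : 0 < x p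
    · have hm : x ∈ H p 1 := ⟨hx.1, by rw [Set.mem_setOf_eq, one_mul]; exact hp⟩
      rw [g1 x hm, e12 x hm hx]
    · simp only [hf]
      rw [if_neg hp, if_pos hq]
  have g3 : ∀ x ∈ H p (-1), f x = F3 x := by
    intro x hx
    have hp : x p < 0 := by have := hx.2; rw [Set.mem_setOf_eq] at this; linarith
    by_cases hq : 0 < x q
    · have hm : x ∈ H q 1 := ⟨hx.1, by rw [Set.mem_setOf_eq, one_mul]; exact hq⟩
      rw [g2 x hm, e23 x hm hx]
    · simp only [hf]
      rw [if_neg (not_lt.2 hp.le), if_neg hq, if_pos hp]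
  have g4 : ∀ x ∈ H q (-1), f x = F4 x := by
    intro x hx
    have hq : x q < 0 := by have := hx.2; rw [Set.mem_setOf_eq] at this; linarith
    by_cases hp : 0 < x p
    · have hm : x ∈ H p 1 := ⟨hx.1, by rw [Set.mem_setOf_eq, one_mul]; exact hp⟩
      rw [g1 x hm, e41 x hx hm]
    · by_cases hp' : x p < 0
      · have hm : x ∈ H p (-1) := ⟨hx.1, by rw [Set.mem_setOf_eq]; linarith⟩
        rw [g3 x hm, e34 x hm hx]
      · simp only [hf]
        rw [if_neg hp, if_neg (not_lt.2 hq.le), if_neg hp']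
  have hfd : ∀ y ∈ O, HasFDerivAt f (a y - c • AA p q y) y := by
    rintro y ⟨hy, hy'⟩
    have key : ∀ (s : Set U4) (G : U4 → ℝ), IsOpen s → (∀ x ∈ s, f x = G x) →
        (∀ x ∈ s, HasFDerivAt G (a x - c • AA p q x) x) → y ∈ s →
        HasFDerivAt f (a y - c • AA p q y) y := by
      intro s G hs hG hd hys
      exact (hd y hys).congr_of_eventuallyEq (Filter.eventuallyEq_of_mem (hs.mem_nhds hys) hG)
    rcases hy' with h | h
    · rcases lt_or_gt_of_ne h with h | h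
      · exact key _ F3 (hHo _ _) g3 d3 ⟨hy, by rw [Set.mem_setOf_eq]; linarith⟩
      · exact key _ F1 (hHo _ _) g1 d1 ⟨hy, by rw [Set.mem_setOf_eq, one_mul]; exact h⟩
    · rcases lt_or_gt_of_ne h with h | h
      · exact key _ F4 (hHo _ _) g4 d4 ⟨hy, by rw [Set.mem_setOf_eq]; linarith⟩
      · exact key _ F2 (hHo _ _) g2 d2 ⟨hy, by rw [Set.mem_setOf_eq, one_mul]; exact h⟩
  refine ⟨c, f, ?_, hfd⟩
  rw [contDiffOn_infty_iff_fderiv_of_isOpen hOopen]
  refine ⟨fun y hy => (hfd y hy).differentiableAt.differentiableWithinAt, ?_⟩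
  have h1 : ContDiffOn ℝ ∞ (fun y => a y - c • AA p q y) O :=
    ha.sub (((smooth_AA p q).mono fun y hy => hy.2).const_smul c)
  exact h1.congr fun y hy => (hfd y hy).fderiv

theorem dArg_eq (x y u v : ℝ) :
    dArg ⟨x, y⟩ ⟨u, v⟩ = (x * v - y * u) / (x ^ 2 + y ^ 2) := by
  unfold dArg
  rw [Complex.normSq_mk, Complex.mul_im, Complex.conj_re, Complex.conj_im]
  congr 1
  · ring
  · ring

theorem ne_iff (x y : ℝ) : (⟨x, y⟩ : ℂ) ≠ 0 ↔ x ≠ 0 ∨ y ≠ 0 := by
  rw [Ne, Complex.ext_iff, not_and_or]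
  rfl

end Qh1b

open Qh1b

theorem s_h1b : S_H1B := by
  intro a ha hcl
  have hset : {y : U4 | c2 y ≠ 0} = {y : U4 | y 2 ≠ 0 ∨ y 3 ≠ 0} := by
    ext y
    exact ne_iff _ _
  rw [hset] at ha hcl ⊢
  obtain ⟨c, f, hf, hd⟩ := gen 2 3 a ha hcl
  refine ⟨c, f, hf, fun y hy v => ?_⟩
  rw [(hd y hy).fderiv, ContinuousLinearMap.sub_apply, ContinuousLinearMap.smul_apply, AA_apply,
    smul_eq_mul]
  unfold c2
  rw [dArg_eq]
  ring

theorem s_h1c : S_H1C := by
  intro a ha hcl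
  have hset : {y : U4 | c1 y ≠ 0} = {y : U4 | y 0 ≠ 0 ∨ y 1 ≠ 0} := by
    ext y
    exact ne_iff _ _
  rw [hset] at ha hcl ⊢
  obtain ⟨c, f, hf, hd⟩ := gen 0 1 a ha hcl
  refine ⟨c, f, hf, fun y hy v => ?_⟩
  rw [(hd y hy).fderiv, ContinuousLinearMap.sub_apply, ContinuousLinearMap.smul_apply, AA_apply,
    smul_eq_mul]
  unfold c1
  rw [dArg_eq]
  ring

end Pool.Agent.H781.CM.Q
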