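import Pool.Agent.H781.CM.QC

/-!
Project Q, cohomological part: closed 1-forms on the punctured bidisc (helper190).
-/

set_option autoImplicit false

open scoped Topology ComplexConjugate ContDiff

noncomputable section

namespace Pool.Agent.H781.CM.Q

namespace Qh1d

theorem c1_mk (z w : ℂ) : c1 (mk z w) = z := by
  apply Complex.ext <;> simp [c1, mk]

theorem c2_mk (z w : ℂ) : c2 (mk z w) = w := by
  apply Complex.ext <;> simp [c2, mk]

theorem mk_c (x : U4) : mk (c1 x) (c2 x) = x := by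
  ext i
  fin_cases i <;> simp [mk, c1, c2]

/-- `mk` as a continuous linear map -/
def mkL : (ℂ × ℂ) →L[ℝ] U4 := LinearMap.toContinuousLinearMap
  { toFun := fun p => mk p.1 p.2
    map_add' := by
      intro p q
      ext i
      fin_cases i <;> simp [mk]
    map_smul' := by
      intro r p
      ext i
      fin_cases i <;> simp [mk] }

theorem mkL_apply (p : ℂ × ℂ) : mkL p = mk p.1 p.2 := rfl

/-- the first coordinate as a continuous linear map -/
def c1L : U4 →L[ℝ] ℂ := LinearMap.toContinuousLinearMap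
  { toFun := c1
    map_add' := by
      intro p q
      apply Complex.ext <;> simp [c1]
    map_smul' := by
      intro r p
      apply Complex.ext <;> simp [c1] }

/-- the second coordinate as a continuous linear map -/
def c2L : U4 →L[ℝ] ℂ := LinearMap.toContinuousLinearMap
  { toFun := c2
    map_add' := by
      intro p q
      apply Complex.ext <;> simp [c2]
    map_smul' := by
      intro r p
      apply Complex.ext <;> simp [c2] }

theorem cont1 : Continuous c1 := c1L.continuous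

theorem cont2 : Continuous c2 := c2L.continuous

theorem c1_zero : c1 0 = 0 := map_zero c1L

theorem c2_zero : c2 0 = 0 := map_zero c2L

theorem open_BD : IsOpen BD :=
  (isOpen_lt (Complex.continuous_normSq.comp cont1) continuous_const).inter
    (isOpen_lt (Complex.continuous_normSq.comp cont2) continuous_const)

theorem open_1 : IsOpen (BD ∩ {y | c1 y ≠ 0}) :=
  open_BD.inter (isOpen_ne_fun cont1 continuous_const)

theorem open_2 : IsOpen (BD ∩ {y | c2 y ≠ 0}) :=
  open_BD.inter (isOpen_ne_fun cont2 continuous_const)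

theorem dArg_zero (z : ℂ) : dArg z 0 = 0 := by simp [dArg]

theorem dArg_I {z : ℂ} (hz : z ≠ 0) : dArg z (Complex.I * z) = 1 := by
  have h1 : (conj z * (Complex.I * z)).im = Complex.normSq z := by
    simp [Complex.normSq_apply]
  rw [dArg, h1, div_self]
  exact (Complex.normSq_pos.2 hz).ne'

/-- the derivative of the difference of the primitives along a curve -/
theorem diff {a : U4 → U4 →L[ℝ] ℝ} {c c' : ℝ} {f1 f2 : U4 → ℝ}
    (hf1 : ContDiffOn ℝ ∞ f1 (BD ∩ {y | c1 y ≠ 0}))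
    (h1 : ∀ y ∈ BD ∩ {y | c1 y ≠ 0}, ∀ v, a y v = c' * dArg (c1 y) (c1 v) + fderiv ℝ f1 y v)
    (hf2 : ContDiffOn ℝ ∞ f2 (BD ∩ {y | c2 y ≠ 0}))
    (h2 : ∀ y ∈ BD ∩ {y | c2 y ≠ 0}, ∀ v, a y v = c * dArg (c2 y) (c2 v) + fderiv ℝ f2 y v)
    {γ : ℝ → U4} {v : U4} {t : ℝ} (hγ : HasDerivAt γ v t) (hB : γ t ∈ BD) (hc1 : c1 (γ t) ≠ 0)
    (hc2 : c2 (γ t) ≠ 0) : HasDerivAt (fun t => f1 (γ t) - f2 (γ t))
      (c * dArg (c2 (γ t)) (c2 v) - c' * dArg (c1 (γ t)) (c1 v)) t := by
  have m1 : γ t ∈ BD ∩ {y | c1 y ≠ 0} := ⟨hB, hc1⟩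
  have m2 : γ t ∈ BD ∩ {y | c2 y ≠ 0} := ⟨hB, hc2⟩
  have d1 : DifferentiableAt ℝ f1 (γ t) :=
    (hf1.contDiffAt (open_1.mem_nhds m1)).differentiableAt (by simp)
  have d2 : DifferentiableAt ℝ f2 (γ t) :=
    (hf2.contDiffAt (open_2.mem_nhds m2)).differentiableAt (by simp)
  have e1 := d1.hasFDerivAt.comp_hasDerivAt t hγ
  have e2 := d2.hasFDerivAt.comp_hasDerivAt t hγ
  have e3 := e1.sub e2
  have e4 : fderiv ℝ f1 (γ t) v - fderiv ℝ f2 (γ t) v =
      c * dArg (c2 (γ t)) (c2 v) - c' * dArg (c1 (γ t)) (c1 v) := by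
    have := h1 _ m1 v
    have := h2 _ m2 v
    linarith
  rw [← e4]
  exact e3

theorem per {g : ℝ → ℝ} {c : ℝ} (hg : ∀ t, HasDerivAt g c t) (h : g (2 * Real.pi) = g 0) :
    c = 0 := by
  have h1 : ∀ t, HasDerivAt (fun t => g t - c * t) 0 t := fun t => by
    have h2 := (hg t).sub ((hasDerivAt_id t).const_mul c)
    rw [mul_one, sub_self] at h2
    exact h2
  have h2 := is_const_of_deriv_eq_zero (fun t => (h1 t).differentiableAt)
    (fun t => (h1 t).deriv) (2 * Real.pi) 0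
  simp only [mul_zero, sub_zero] at h2
  have h3 := Real.pi_pos
  have h4 : c * (2 * Real.pi) = 0 := by linarith
  rcases mul_eq_zero.1 h4 with h5 | h5
  · exact h5
  · linarith

/-- the circle -/
def cir (t : ℝ) : ℂ := Complex.exp (Complex.I * t) / 2

theorem cir_deriv (t : ℝ) : HasDerivAt cir (Complex.I * cir t) t := by
  have h1 : HasDerivAt (fun t : ℝ => (t : ℂ)) 1 t := Complex.ofRealCLM.hasDerivAt
  have h2 := (((h1.const_mul Complex.I)).cexp).div_const 2
  have h3 : Complex.I * cir t = Complex.exp (Complex.I * t) * (Complex.I * 1) / 2 := by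
    unfold cir
    ring
  rw [h3]
  exact h2

theorem cir_ne (t : ℝ) : cir t ≠ 0 := by
  unfold cir
  exact div_ne_zero (Complex.exp_ne_zero _) two_ne_zero

theorem cir_normSq (t : ℝ) : Complex.normSq (cir t) = 1 / 4 := by
  rw [Complex.normSq_eq_norm_sq, cir, norm_div, mul_comm, Complex.norm_exp_ofReal_mul_I]
  norm_num

theorem cir_per : cir (2 * Real.pi) = cir 0 := by
  unfold cir
  have h1 : Complex.I * ((2 * Real.pi : ℝ) : ℂ) = 2 * Real.pi * Complex.I := by
    push_cast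
    ring
  rw [h1, Complex.exp_two_pi_mul_I]
  simp

theorem half_normSq : Complex.normSq ((1 / 2 : ℝ) : ℂ) = 1 / 4 := by
  rw [Complex.normSq_ofReal]
  norm_num

theorem mem_exp {σ τ : ℂ} (hσ : σ.re < 0) (hτ : τ.re < 0) :
    mk (Complex.exp σ) (Complex.exp τ) ∈ BD := by
  constructor
  · show Complex.normSq (c1 _) < 1
    rw [c1_mk, Complex.normSq_eq_norm_sq, Complex.norm_exp, ← Real.exp_nat_mul]
    rw [Real.exp_lt_one_iff]
    push_cast
    linarith
  · show Complex.normSq (c2 _) < 1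
    rw [c2_mk, Complex.normSq_eq_norm_sq, Complex.norm_exp, ← Real.exp_nat_mul]
    rw [Real.exp_lt_one_iff]
    push_cast
    linarith

theorem log_re {z : ℂ} (hz : z ≠ 0) (h : Complex.normSq z < 1) : (Complex.log z).re < 0 := by
  rw [Complex.log_re]
  refine Real.log_neg (norm_pos_iff.2 hz) ?_
  rw [Complex.normSq_eq_norm_sq] at h
  nlinarith [norm_nonneg z]

end Qh1d

open Qh1d in
/-- closed 1-forms on the punctured bidisc -/
theorem s_h1d (_ : S_H1A) (hB : S_H1B) (hC : S_H1C) : S_H1D := by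
  intro a ha hcl
  have hs1 : BD ∩ {y | c1 y ≠ 0} ⊆ BD ∩ {y | y ≠ 0} := fun y hy =>
    ⟨hy.1, fun h => hy.2 (by rw [h, c1_zero])⟩
  have hs2 : BD ∩ {y | c2 y ≠ 0} ⊆ BD ∩ {y | y ≠ 0} := fun y hy =>
    ⟨hy.1, fun h => hy.2 (by rw [h, c2_zero])⟩
  obtain ⟨c, f2, hf2, h2⟩ := hB a (ha.mono hs2) (fun y hy => hcl y (hs2 hy))
  obtain ⟨c', f1, hf1, h1⟩ := hC a (ha.mono hs1) (fun y hy => hcl y (hs1 hy))
  have hc : c = 0 := by
    refine per (g := fun t => f1 (mk ((1 / 2 : ℝ) : ℂ) (cir t)) -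
      f2 (mk ((1 / 2 : ℝ) : ℂ) (cir t))) (fun t => ?_) (by simp only [cir_per])
    have hγ : HasDerivAt (fun t : ℝ => mk ((1 / 2 : ℝ) : ℂ) (cir t)) (mk 0 (Complex.I * cir t)) t :=
      mkL.hasFDerivAt.comp_hasDerivAt t ((hasDerivAt_const t ((1 / 2 : ℝ) : ℂ)).prodMk (cir_deriv t))
    have h3 := diff hf1 h1 hf2 h2 hγ ⟨by
        show Complex.normSq (c1 _) < 1
        rw [c1_mk, half_normSq]
        norm_num, by
        show Complex.normSq (c2 _) < 1
        rw [c2_mk, cir_normSq]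
        norm_num⟩ (by rw [c1_mk]; norm_num) (by rw [c2_mk]; exact cir_ne t)
    rw [c2_mk, c2_mk, c1_mk, c1_mk, dArg_zero, dArg_I (cir_ne t), mul_one, mul_zero,
      sub_zero] at h3
    exact h3
  have hc' : c' = 0 := by
    rw [← neg_eq_zero]
    refine per (g := fun t => f1 (mk (cir t) ((1 / 2 : ℝ) : ℂ)) -
      f2 (mk (cir t) ((1 / 2 : ℝ) : ℂ))) (fun t => ?_) (by simp only [cir_per])
    have hγ : HasDerivAt (fun t : ℝ => mk (cir t) ((1 / 2 : ℝ) : ℂ)) (mk (Complex.I * cir t) 0) t :=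
      mkL.hasFDerivAt.comp_hasDerivAt t ((cir_deriv t).prodMk (hasDerivAt_const t ((1 / 2 : ℝ) : ℂ)))
    have h3 := diff hf1 h1 hf2 h2 hγ ⟨by
        show Complex.normSq (c1 _) < 1
        rw [c1_mk, cir_normSq]
        norm_num, by
        show Complex.normSq (c2 _) < 1
        rw [c2_mk, half_normSq]
        norm_num⟩ (by rw [c1_mk]; exact cir_ne t) (by rw [c2_mk]; norm_num)
    rw [c2_mk, c2_mk, c1_mk, c1_mk, dArg_zero, dArg_I (cir_ne t), mul_one, mul_zero,
      zero_sub] at h3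
    exact h3
  subst hc hc'
  -- the difference is constant
  have hconst : ∀ p ∈ BD, c1 p ≠ 0 → c2 p ≠ 0 → ∀ q ∈ BD, c1 q ≠ 0 → c2 q ≠ 0 →
      f1 p - f2 p = f1 q - f2 q := by
    intro p hp hp1 hp2 q hq hq1 hq2
    set σ : ℝ → ℂ := fun t => Complex.log (c1 p) + t * (Complex.log (c1 q) - Complex.log (c1 p))
      with hσ
    set τ : ℝ → ℂ := fun t => Complex.log (c2 p) + t * (Complex.log (c2 q) - Complex.log (c2 p))
      with hτ
    have hd : ∀ (u v : ℂ) (t : ℝ), HasDerivAt (fun t : ℝ => Complex.exp (u + t * (v - u)))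
        (Complex.exp (u + t * (v - u)) * (1 * (v - u))) t := fun u v t => by
      have h1 : HasDerivAt (fun t : ℝ => (t : ℂ)) 1 t := Complex.ofRealCLM.hasDerivAt
      exact ((h1.mul_const (v - u)).const_add u).cexp
    set γ : ℝ → U4 := fun t => mk (Complex.exp (σ t)) (Complex.exp (τ t)) with hγ
    have hγd : ∀ t, HasDerivAt γ (mk (Complex.exp (σ t) *
        (1 * (Complex.log (c1 q) - Complex.log (c1 p)))) (Complex.exp (τ t) *
        (1 * (Complex.log (c2 q) - Complex.log (c2 p))))) t := fun t =>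
      mkL.hasFDerivAt.comp_hasDerivAt t ((hd _ _ t).prodMk (hd _ _ t))
    have hre : ∀ (u v : ℂ) (t : ℝ), u.re < 0 → v.re < 0 → 0 ≤ t → t ≤ 1 →
        (u + t * (v - u)).re < 0 := fun u v t hu hv h0 h1 => by
      have h3 : (u + t * (v - u)).re = (1 - t) * u.re + t * v.re := by
        simp
        ring
      rw [h3]
      rcases h0.eq_or_lt with h4 | h4
      · rw [← h4]
        linarith
      · nlinarith [mul_pos h4 (neg_pos.2 hv), mul_nonneg (sub_nonneg.2 h1) (neg_pos.2 hu).le]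
    have hder : ∀ t ∈ Set.Icc (0 : ℝ) 1, HasDerivAt (fun t => f1 (γ t) - f2 (γ t)) 0 t := by
      intro t ht
      have hm : γ t ∈ BD := mem_exp (hre _ _ t (log_re hp1 hp.1) (log_re hq1 hq.1) ht.1 ht.2)
        (hre _ _ t (log_re hp2 hp.2) (log_re hq2 hq.2) ht.1 ht.2)
      have h3 := diff hf1 h1 hf2 h2 (hγd t) hm
        (by rw [hγ]; simp only [c1_mk]; exact Complex.exp_ne_zero _)
        (by rw [hγ]; simp only [c2_mk]; exact Complex.exp_ne_zero _)
      rw [zero_mul, zero_mul, sub_zero] at h3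
      exact h3
    have h4 : ∀ t ∈ Set.Icc (0 : ℝ) 1, f1 (γ t) - f2 (γ t) = f1 (γ 0) - f2 (γ 0) :=
      constant_of_has_deriv_right_zero
        (fun t ht => (hder t ht).continuousAt.continuousWithinAt)
        (fun t ht => (hder t ⟨ht.1, ht.2.le⟩).hasDerivWithinAt)
    have h5 := h4 1 ⟨zero_le_one, le_rfl⟩
    have g0 : γ 0 = p := by
      rw [hγ, hσ, hτ]
      simp only [Complex.ofReal_zero, zero_mul, add_zero]
      rw [Complex.exp_log hp1, Complex.exp_log hp2, mk_c]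
    have g1 : γ 1 = q := by
      rw [hγ, hσ, hτ]
      simp only [Complex.ofReal_one, one_mul, add_sub_cancel]
      rw [Complex.exp_log hq1, Complex.exp_log hq2, mk_c]
    rw [g0, g1] at h5
    exact h5.symm
  obtain ⟨k, hk⟩ : ∃ k : ℝ, ∀ q ∈ BD, c1 q ≠ 0 → c2 q ≠ 0 → f1 q = f2 q + k := by
    have hm : mk (cir 0) (cir 0) ∈ BD := ⟨by
      show Complex.normSq (c1 _) < 1
      rw [c1_mk, cir_normSq]
      norm_num, by
      show Complex.normSq (c2 _) < 1
      rw [c2_mk, cir_normSq]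
      norm_num⟩
    refine ⟨f1 (mk (cir 0) (cir 0)) - f2 (mk (cir 0) (cir 0)), fun q hq h3 h4 => ?_⟩
    have := hconst _ hm (by rw [c1_mk]; exact cir_ne 0) (by rw [c2_mk]; exact cir_ne 0) q hq h3 h4
    linarith
  classical
  set f : U4 → ℝ := fun y => if c1 y ≠ 0 then f1 y else f2 y + k with hf
  have e1 : ∀ y ∈ BD ∩ {y | c1 y ≠ 0}, f =ᶠ[𝓝 y] f1 := fun y hy => by
    filter_upwards [open_1.mem_nhds hy] with z hz
    exact if_pos hz.2
  have e2 : ∀ y ∈ BD ∩ {y | c2 y ≠ 0}, f =ᶠ[𝓝 y] fun z => f2 z + k := fun y hy => by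
    filter_upwards [open_2.mem_nhds hy] with z hz
    by_cases h3 : c1 z ≠ 0
    · rw [hf]
      simp only [if_pos h3]
      exact hk z hz.1 h3 hz.2
    · exact if_neg h3
  have hcase : ∀ y ∈ BD ∩ {y | y ≠ 0}, y ∈ BD ∩ {y | c1 y ≠ 0} ∨ y ∈ BD ∩ {y | c2 y ≠ 0} := by
    intro y hy
    by_cases h3 : c1 y = 0
    · right
      refine ⟨hy.1, fun h4 => hy.2 ?_⟩
      rw [← mk_c y, h3, h4, ← mkL_apply (0, 0)]
      exact map_zero mkL
    · exact Or.inl ⟨hy.1, h3⟩
  refine ⟨f, ?_, ?_⟩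
  · intro y hy
    apply ContDiffAt.contDiffWithinAt
    rcases hcase y hy with h3 | h3
    · exact (hf1.contDiffAt (open_1.mem_nhds h3)).congr_of_eventuallyEq (e1 y h3)
    · exact ((hf2.contDiffAt (open_2.mem_nhds h3)).add contDiffAt_const).congr_of_eventuallyEq
        (e2 y h3)
  · intro y hy v
    rcases hcase y hy with h3 | h3
    · rw [(e1 y h3).fderiv_eq, h1 y h3 v, zero_mul, zero_add]
    · rw [(e2 y h3).fderiv_eq, h2 y h3 v, zero_mul, zero_add, fderiv_add_const]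

end Pool.Agent.H781.CM.Q
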