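import Pool.Agent.H781.CM.QC
import Pool.Graph.R_seed8.H821R3.Der

/-!
Gluing two primitives of a 2-form.
-/

set_option autoImplicit false

open Bundle Manifold ContDiff VectorField Filter
open scoped Topology

noncomputable section

namespace Pool.Agent.H781.CM.Q

open Pool.Agent.H781.CM.F

namespace Qpat

section gen

variable {E : Type*} [NormedAddCommGroup E] [NormedSpace ℝ E]
  {H : Type*} [TopologicalSpace H] {I : ModelWithCorners ℝ E H}
  {M : Type*} [TopologicalSpace M] [ChartedSpace H M]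

theorem mvf_congr {g g' : M → ℝ} {x : M} (h : g =ᶠ[𝓝 x] g') :
    mvfderiv I g x = mvfderiv I g' x := by
  have h1 : mfderiv I 𝓘(ℝ, ℝ) g x = (mfderiv I 𝓘(ℝ, ℝ) g' x : _) := h.mfderiv_eq
  ext v
  exact DFunLike.congr_fun h1 v

variable [IsManifold I ∞ M]

theorem isFormOn_mono {O O' : Set M} {p : ℕ} {α : DF I M p} (h : IsFormOn O α) (hs : O' ⊆ O) :
    IsFormOn O' α :=
  ⟨fun x hx => h.1 x (hs hx), fun Y hY => (h.2 Y hY).mono hs⟩

theorem isDOn_mono {O O' : Set M} {p : ℕ} {α : DF I M p} {β : DF I M (p + 1)} (h : IsDOn O α β)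
    (hs : O' ⊆ O) : IsDOn O' α β :=
  fun Y hY x hx => h Y hY x (hs hx)

theorem isFormOn_local {O : Set M} {p : ℕ} {α : DF I M p}
    (h : ∀ x ∈ O, ∃ (W : Set M) (α' : DF I M p), IsOpen W ∧ x ∈ W ∧ IsFormOn W α' ∧
      ∀ y ∈ W, ∀ v, α y v = α' y v) : IsFormOn O α := by
  constructor
  · intro x hx
    obtain ⟨W, α', _, hxW, hf, he⟩ := h x hx
    obtain ⟨A, hA⟩ := hf.1 x hxW
    exact ⟨A, fun v => (he x hxW v).trans (hA v)⟩
  · intro Y hY x hx
    obtain ⟨W, α', hW, hxW, hf, he⟩ := h x hx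
    have h1 := (hf.2 Y hY).contMDiffAt (hW.mem_nhds hxW)
    refine ContMDiffAt.contMDiffWithinAt ?_
    exact h1.congr_of_eventuallyEq
      (Filter.eventually_of_mem (hW.mem_nhds hxW) fun y hy => he y hy _)

theorem isDOn_local {O : Set M} {p : ℕ} {α : DF I M p} {β : DF I M (p + 1)}
    (h : ∀ x ∈ O, ∃ (W : Set M) (α' : DF I M p), IsOpen W ∧ x ∈ W ∧ IsDOn W α' β ∧
      ∀ y ∈ W, ∀ v, α y v = α' y v) : IsDOn O α β := by
  intro Y hY x hx
  obtain ⟨W, α', hW, hxW, hd, he⟩ := h x hx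
  rw [hd Y hY x hxW]
  refine Finset.sum_congr rfl fun j _ => ?_
  have e1 : mvfderiv I (fun y => α' y (fun k => j.removeNth Y k y)) x =
      mvfderiv I (fun y => α y (fun k => j.removeNth Y k y)) x :=
    mvf_congr (Filter.eventually_of_mem (hW.mem_nhds hxW) fun y hy => (he y hy _).symm)
  rw [e1]
  congr 2
  refine Finset.sum_congr rfl fun i _ => ?_
  rw [he x hxW]

theorem isFormOn_add {O : Set M} {p : ℕ} {α₁ α₂ : DF I M p} (h1 : IsFormOn O α₁)
    (h2 : IsFormOn O α₂) : IsFormOn O (fun x v => α₁ x v + α₂ x v) := by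
  constructor
  · intro x hx
    obtain ⟨A, hA⟩ := h1.1 x hx
    obtain ⟨B, hB⟩ := h2.1 x hx
    exact ⟨A + B, fun v => by show α₁ x v + α₂ x v = _; rw [hA v, hB v]; rfl⟩
  · intro Y hY
    exact (h1.2 Y hY).add (h2.2 Y hY)

theorem isDOn_add {O : Set M} (hO : IsOpen O) {p : ℕ} {α₁ α₂ : DF I M p}
    {β₁ β₂ : DF I M (p + 1)} (f1 : IsFormOn O α₁) (f2 : IsFormOn O α₂) (h1 : IsDOn O α₁ β₁)
    (h2 : IsDOn O α₂ β₂) :
    IsDOn O (fun x v => α₁ x v + α₂ x v) (fun x v => β₁ x v + β₂ x v) := by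
  intro Y hY x hx
  show β₁ x _ + β₂ x _ = _
  rw [h1 Y hY x hx, h2 Y hY x hx, ← Finset.sum_add_distrib]
  refine Finset.sum_congr rfl fun j _ => ?_
  have m1 : MDifferentiableAt I 𝓘(ℝ, ℝ) (fun y => α₁ y (fun k => j.removeNth Y k y)) x :=
    ((f1.2 (fun k => j.removeNth Y k) fun k => hY _).contMDiffAt
      (hO.mem_nhds hx)).mdifferentiableAt (by simp)
  have m2 : MDifferentiableAt I 𝓘(ℝ, ℝ) (fun y => α₂ y (fun k => j.removeNth Y k y)) x :=
    ((f2.2 (fun k => j.removeNth Y k) fun k => hY _).contMDiffAt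
      (hO.mem_nhds hx)).mdifferentiableAt (by simp)
  have e1 : mvfderiv I (fun y => α₁ y (fun k => j.removeNth Y k y) +
      α₂ y (fun k => j.removeNth Y k y)) x =
      mvfderiv I (fun y => α₁ y (fun k => j.removeNth Y k y)) x +
        mvfderiv I (fun y => α₂ y (fun k => j.removeNth Y k y)) x := mvfderiv_add m1 m2
  rw [e1, ← mul_add]
  congr 1
  rw [add_add_add_comm, ← Finset.sum_add_distrib]
  congr 1
  refine Finset.sum_congr rfl fun i _ => ?_
  split_ifs
  · rfl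
  · simp

/-- the differential of a function -/
def dF (F : M → ℝ) : DF I M 1 := fun x v => mvfderiv I F x (v 0)

theorem ext_fn [FiniteDimensional ℝ E] [T2Space M] {O : Set M} (hO : IsOpen O) {F : M → ℝ}
    (hF : ContMDiffOn I 𝓘(ℝ, ℝ) ∞ F O) {x : M} (hx : x ∈ O) :
    ∃ F' : M → ℝ, ContMDiff I 𝓘(ℝ, ℝ) ∞ F' ∧ F' =ᶠ[𝓝 x] F := by
  obtain ⟨f, -, hf⟩ := (SmoothBumpFunction.nhds_basis_tsupport (I := I) x).mem_iff.mp
    (hO.mem_nhds hx)
  refine ⟨fun y => f y * F y, ?_, ?_⟩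
  · refine contMDiff_of_tsupport fun y hy => ?_
    have hy' : y ∈ O := by
      apply hf
      refine closure_mono ?_ hy
      intro z hz
      rw [Function.mem_support] at hz ⊢
      exact left_ne_zero_of_mul hz
    exact (f.contMDiffAt).mul (hF.contMDiffAt (hO.mem_nhds hy'))
  · filter_upwards [f.eventuallyEq_one] with y hy
    rw [hy]
    simp

theorem dF_form [FiniteDimensional ℝ E] [T2Space M] {O : Set M} (hO : IsOpen O) {F : M → ℝ}
    (hF : ContMDiffOn I 𝓘(ℝ, ℝ) ∞ F O) : IsFormOn O (dF (I := I) F) := by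
  constructor
  · intro x _
    refine ⟨AlternatingMap.ofSubsingleton ℝ (TangentSpace I x) ℝ (0 : Fin 1)
      ((mvfderiv I F x).toLinearMap), fun v => ?_⟩
    rfl
  · intro Y hY x hx
    obtain ⟨F', hF', he⟩ := ext_fn hO hF hx
    have h1 := (Pool.Agent.H821R3.Sm.der (hY 0) hF') x
    refine ContMDiffAt.contMDiffWithinAt ?_
    refine h1.congr_of_eventuallyEq ?_
    filter_upwards [he.eventuallyEq_nhds] with y hy
    show mvfderiv I F y (Y 0 y) = mvfderiv I F' y (Y 0 y)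
    rw [mvf_congr hy]

theorem dF_closed [FiniteDimensional ℝ E] [T2Space M] [SigmaCompactSpace M] {O : Set M}
    (hO : IsOpen O) {F : M → ℝ} (hF : ContMDiffOn I 𝓘(ℝ, ℝ) ∞ F O) :
    IsDOn O (dF (I := I) F) (fun _ _ => 0) := by
  intro Y hY x hx
  obtain ⟨F', hF', he⟩ := ext_fn hO hF hx
  have key : mvfderiv I (fun y => mvfderiv I F' y (Y 1 y)) x (Y 0 x) -
      mvfderiv I (fun y => mvfderiv I F' y (Y 0 y)) x (Y 1 x) =
        mvfderiv I F' x (mlieBracket I (Y 0) (Y 1) x) := by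
    rcases subsingleton_or_nontrivial E with hE | hE
    · have : ∀ y : M, Subsingleton (TangentSpace I y) := fun y => hE
      have z : ∀ v : TangentSpace I x, v = 0 := fun v => Subsingleton.elim _ _
      rw [z (Y 0 x), z (Y 1 x), z (mlieBracket I (Y 0) (Y 1) x), map_zero, map_zero, map_zero,
        sub_zero]
    · exact Pool.Agent.H821R2.comm_fun hF' (hY 0) (hY 1)
        (Pool.Agent.H821R3.Sm.der (hY 0) hF') (Pool.Agent.H821R3.Sm.der (hY 1) hF') x
  have c0 : ∀ i : Fin 2, mvfderiv I (fun y => mvfderiv I F y (Y i y)) x =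
      mvfderiv I (fun y => mvfderiv I F' y (Y i y)) x := by
    intro i
    refine mvf_congr ?_
    filter_upwards [he.eventuallyEq_nhds] with y hy
    rw [mvf_congr hy]
  rw [Fin.sum_univ_two]
  simp only [Fin.sum_univ_one]
  show (0 : ℝ) = (-1) ^ 0 * (mvfderiv I (fun y => mvfderiv I F y (Y 1 y)) x (Y 0 x) + _) +
    (-1) ^ 1 * (mvfderiv I (fun y => mvfderiv I F y (Y 0 y)) x (Y 1 x) +
      mvfderiv I F x (mlieBracket I (Y 0) (Y 1) x))
  rw [c0 0, c0 1, ← mvf_congr he, ← key]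
  simp

end gen

end Qpat

open Qpat in
theorem s_patch : S_PATCH := by
  classical
  intro n M _ _ _ _ _ U V U1 V1 oU oV oU1 oV1 hU1 hV1 hcov ρ hρ hρ1 hρ0 β αU αV fU dU fV dV f hf hfd
  set F : M → ℝ := fun y => ρ y * f y with hF
  have hFs : ContMDiffOn (𝓡 n) 𝓘(ℝ, ℝ) ∞ F (U ∩ V) := hρ.mul hf
  have oUV : IsOpen (U ∩ V) := oU.inter oV
  have hdis : ∀ x, x ∈ U1 → x ∈ V1 → False := by
    intro x h1 h2
    have a := hρ1 x ⟨h1, hV1 h2⟩
    have b := hρ0 x ⟨h2, hU1 h1⟩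
    rw [a] at b
    exact one_ne_zero b
  set α : DF (𝓡 n) M 1 := fun x v =>
    if x ∈ U1 then αU x v else if x ∈ V1 then αV x v else αV x v + dF (I := 𝓡 n) F x v with hα
  have e1 : ∀ x ∈ U1, ∀ v, α x v = αU x v := by
    intro x hx v
    simp only [hα, if_pos hx]
  have e2 : ∀ x ∈ V1, ∀ v, α x v = αV x v := by
    intro x hx v
    simp only [hα, if_neg (fun h => hdis x h hx), if_pos hx]
  have e3 : ∀ x ∈ U ∩ V, ∀ v, α x v = αV x v + dF (I := 𝓡 n) F x v := by
    intro x hx v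
    by_cases h1 : x ∈ U1
    · rw [e1 x h1 v]
      have h2 : F =ᶠ[𝓝 x] f := by
        filter_upwards [(oU1.inter oV).mem_nhds ⟨h1, hx.2⟩] with y hy
        simp only [hF, hρ1 y hy, one_mul]
      have h3 := hfd x hx v
      unfold dF
      rw [mvf_congr h2, ← h3]
      ring
    · by_cases h2 : x ∈ V1
      · rw [e2 x h2 v]
        have h3 : F =ᶠ[𝓝 x] fun _ => 0 := by
          filter_upwards [(oV1.inter oU).mem_nhds ⟨h2, hx.1⟩] with y hy
          simp only [hF, hρ0 y hy, zero_mul]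
        unfold dF
        rw [mvf_congr h3, mvfderiv_const]
        simp
      · simp only [hα, if_neg h1, if_neg h2]
  have f3 : IsFormOn (U ∩ V) (fun x v => αV x v + dF (I := 𝓡 n) F x v) :=
    isFormOn_add (isFormOn_mono fV Set.inter_subset_right) (dF_form oUV hFs)
  have d3 : IsDOn (U ∩ V) (fun x v => αV x v + dF (I := 𝓡 n) F x v) β := by
    have := isDOn_add oUV (isFormOn_mono fV Set.inter_subset_right) (dF_form oUV hFs)
      (isDOn_mono dV Set.inter_subset_right) (dF_closed oUV hFs)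
    simpa using this
  refine ⟨α, isFormOn_local fun x hx => ?_, isDOn_local fun x hx => ?_⟩
  · rcases hcov hx with (h | h) | h
    · exact ⟨U1, αU, oU1, h, isFormOn_mono fU hU1, e1⟩
    · exact ⟨V1, αV, oV1, h, isFormOn_mono fV hV1, e2⟩
    · exact ⟨U ∩ V, _, oUV, h, f3, e3⟩
  · rcases hcov hx with (h | h) | h
    · exact ⟨U1, αU, oU1, h, isDOn_mono dU hU1, e1⟩
    · exact ⟨V1, αV, oV1, h, isDOn_mono dV hV1, e2⟩
    · exact ⟨U ∩ V, _, oUV, h, d3, e3⟩

end Pool.Agent.H781.CM.Q
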