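import Pool.Agent.H781.CM.QC

/-!
The Poincaré lemma for closed 2-forms on star-shaped open sets.
-/

open Bundle Manifold ContDiff Metric MeasureTheory
open scoped Topology ComplexConjugate

set_option autoImplicit false

noncomputable section

namespace Pool.Agent.H781.CM.Q

namespace Qpo2

variable {E : Type} [NormedAddCommGroup E] [NormedSpace ℝ E] [FiniteDimensional ℝ E]

theorem smul_mem {V : Set E} (hs : StarConvex ℝ 0 V) {y : E} (hy : y ∈ V) {t : ℝ}
    (ht : t ∈ Set.Icc (0 : ℝ) 1) : t • y ∈ V := hs.smul_mem hy ht.1 ht.2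

/-- local bound of a continuous function near a segment -/
theorem seg_bound {F : Type} [NormedAddCommGroup F] {V : Set E} (hV : IsOpen V)
    (hs : StarConvex ℝ 0 V) (G : E → F) (hG : ContinuousOn G V) {y0 : E} (hy0 : y0 ∈ V) :
    ∃ δ : ℝ, 0 < δ ∧ ∃ C : ℝ, 0 ≤ C ∧ ∀ y ∈ ball y0 δ, ∀ t ∈ Set.Icc (0 : ℝ) 1,
      t • y ∈ V ∧ ‖G (t • y)‖ ≤ C := by
  have hK : IsCompact ((fun t : ℝ => t • y0) '' Set.Icc (0 : ℝ) 1) :=
    isCompact_Icc.image (by fun_prop)
  have hKV : (fun t : ℝ => t • y0) '' Set.Icc (0 : ℝ) 1 ⊆ V := by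
    rintro _ ⟨t, ht, rfl⟩
    exact smul_mem hs hy0 ht
  obtain ⟨δ, hδ, hsub⟩ := hK.exists_cthickening_subset_open hV hKV
  have hcomp : IsCompact (cthickening δ ((fun t : ℝ => t • y0) '' Set.Icc (0 : ℝ) 1)) :=
    hK.cthickening
  obtain ⟨C, hC⟩ := hcomp.exists_bound_of_continuousOn (hG.mono hsub)
  have hmem : ∀ y ∈ ball y0 δ, ∀ t ∈ Set.Icc (0 : ℝ) 1,
      t • y ∈ cthickening δ ((fun t : ℝ => t • y0) '' Set.Icc (0 : ℝ) 1) := by
    intro y hy t ht
    refine mem_cthickening_of_dist_le (t • y) (t • y0) δ _ ⟨t, ht, rfl⟩ ?_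
    rw [dist_eq_norm, ← smul_sub, norm_smul, Real.norm_eq_abs, abs_of_nonneg ht.1]
    rw [mem_ball, dist_eq_norm] at hy
    have h0 := norm_nonneg (y - y0)
    nlinarith [ht.1, ht.2]
  refine ⟨δ, hδ, C, ?_, ?_⟩
  · exact (norm_nonneg _).trans (hC (0 • y0) (hmem y0 (mem_ball_self hδ) 0
      ⟨le_rfl, zero_le_one⟩))
  · intro y hy t ht
    exact ⟨hsub (hmem y hy t ht), hC _ (hmem y hy t ht)⟩

variable {F : Type} [NormedAddCommGroup F] [NormedSpace ℝ F] [CompleteSpace F]

theorem contOn_seg {V : Set E} (hs : StarConvex ℝ 0 V) (φ : ℝ → ℝ) (hφ : Continuous φ)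
    (G : E → F) (hG : ContinuousOn G V) {y : E} (hy : y ∈ V) :
    ContinuousOn (fun t : ℝ => φ t • G (t • y)) (Set.Icc 0 1) := by
  refine hφ.continuousOn.smul (hG.comp (by fun_prop) ?_)
  intro t ht
  exact smul_mem hs hy ht

theorem ii_seg {V : Set E} (hs : StarConvex ℝ 0 V) (φ : ℝ → ℝ) (hφ : Continuous φ)
    (G : E → F) (hG : ContinuousOn G V) {y : E} (hy : y ∈ V) :
    IntervalIntegrable (fun t : ℝ => φ t • G (t • y)) volume 0 1 := by
  apply ContinuousOn.intervalIntegrable
  rw [Set.uIcc_of_le zero_le_one]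
  exact contOn_seg hs φ hφ G hG hy

theorem meas_seg {V : Set E} (hs : StarConvex ℝ 0 V) (φ : ℝ → ℝ) (hφ : Continuous φ)
    (G : E → F) (hG : ContinuousOn G V) {y : E} (hy : y ∈ V) :
    AEStronglyMeasurable (fun t : ℝ => φ t • G (t • y))
      (volume.restrict (Set.uIoc (0 : ℝ) 1)) := by
  rw [Set.uIoc_of_le zero_le_one]
  exact ((contOn_seg hs φ hφ G hG hy).mono Set.Ioc_subset_Icc_self).aestronglyMeasurable
    measurableSet_Ioc

/-- the derivative of the parametric integral -/
theorem deriv_seg {V : Set E} (hV : IsOpen V) (hs : StarConvex ℝ 0 V) (φ : ℝ → ℝ)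
    (hφ : Continuous φ) (G : E → F) (hG : ContDiffOn ℝ 1 G V) {y0 : E} (hy0 : y0 ∈ V) :
    HasFDerivAt (fun y => ∫ t in (0 : ℝ)..1, φ t • G (t • y))
      (∫ t in (0 : ℝ)..1, (φ t * t) • fderiv ℝ G (t • y0)) y0 := by
  have hdG : ContinuousOn (fderiv ℝ G) V := hG.continuousOn_fderiv_of_isOpen hV le_rfl
  obtain ⟨δ, hδ, C, hC0, hC⟩ := seg_bound hV hs (fderiv ℝ G) hdG hy0
  have hball : ∀ y ∈ ball y0 δ, y ∈ V := by
    intro y hy
    have := (hC y hy 1 ⟨zero_le_one, le_rfl⟩).1
    rwa [one_smul] at this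
  have hφt : Continuous fun t => φ t * t := hφ.mul continuous_id
  refine intervalIntegral.hasFDerivAt_integral_of_dominated_of_fderiv_le
    (F' := fun y t => (φ t * t) • fderiv ℝ G (t • y)) (bound := fun t => |φ t * t| * C)
    (ball_mem_nhds y0 hδ) ?_ ?_ ?_ ?_ ?_ ?_
  · filter_upwards [ball_mem_nhds y0 hδ] with y hy
    exact meas_seg hs φ hφ G hG.continuousOn (hball y hy)
  · exact ii_seg hs φ hφ G hG.continuousOn hy0
  · exact meas_seg hs (fun t => φ t * t) hφt (fderiv ℝ G) hdG hy0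
  · filter_upwards with t ht y hy
    rw [Set.uIoc_of_le zero_le_one] at ht
    rw [norm_smul, Real.norm_eq_abs]
    exact mul_le_mul_of_nonneg_left (hC y hy t ⟨ht.1.le, ht.2⟩).2 (abs_nonneg _)
  · exact (hφt.abs.mul continuous_const).intervalIntegrable _ _
  · filter_upwards with t ht y hy
    rw [Set.uIoc_of_le zero_le_one] at ht
    have hty : t • y ∈ V := (hC y hy t ⟨ht.1.le, ht.2⟩).1
    have h1 : HasFDerivAt G (fderiv ℝ G (t • y)) (t • y) :=
      ((hG.differentiableOn one_ne_zero).differentiableAt (hV.mem_nhds hty)).hasFDerivAt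
    have h2 : HasFDerivAt (fun y : E => t • y) (t • ContinuousLinearMap.id ℝ E) y :=
      (hasFDerivAt_id y).const_smul t
    have h3 := (h1.comp y h2).const_smul (φ t)
    have e : (φ t * t) • fderiv ℝ G (t • y) =
        φ t • (fderiv ℝ G (t • y)).comp (t • ContinuousLinearMap.id ℝ E) := by
      ext v
      simp [mul_smul]
    rw [e]
    exact h3

/-- smoothness of the parametric integral -/
theorem smooth_seg {V : Set E} (hV : IsOpen V) (hs : StarConvex ℝ 0 V) (k : ℕ) :
    ∀ (F : Type) [NormedAddCommGroup F] [NormedSpace ℝ F] [CompleteSpace F] (φ : ℝ → ℝ)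
    (_ : Continuous φ) (G : E → F) (_ : ContDiffOn ℝ ∞ G V),
    ContDiffOn ℝ k (fun y => ∫ t in (0 : ℝ)..1, φ t • G (t • y)) V := by
  induction k with
  | zero =>
    intro F _ _ _ φ hφ G hG
    have : ∀ y ∈ V, ContinuousAt (fun y => ∫ t in (0 : ℝ)..1, φ t • G (t • y)) y := by
      intro y hy
      exact (deriv_seg hV hs φ hφ G (hG.of_le (by exact_mod_cast le_top)) hy).continuousAt
    rw [Nat.cast_zero, contDiffOn_zero]
    exact fun y hy => (this y hy).continuousWithinAt
  | succ k ih =>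
    intro F _ _ _ φ hφ G hG
    have hG1 : ContDiffOn ℝ 1 G V := hG.of_le (by exact_mod_cast le_top)
    have hφt : Continuous fun t => φ t * t := hφ.mul continuous_id
    push_cast
    rw [contDiffOn_succ_iff_fderiv_of_isOpen hV]
    refine ⟨?_, ?_, ?_⟩
    · intro y hy
      exact (deriv_seg hV hs φ hφ G hG1 hy).differentiableAt.differentiableWithinAt
    · intro h
      exact absurd h (by simp)
    · have hdG : ContDiffOn ℝ ∞ (fderiv ℝ G) V :=
        hG.fderiv_of_isOpen hV (by exact_mod_cast le_rfl)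
      have h := ih (E →L[ℝ] F) (fun t => φ t * t) hφt (fderiv ℝ G) hdG
      refine h.congr ?_
      intro y hy
      exact (deriv_seg hV hs φ hφ G hG1 hy).fderiv

theorem smooth_seg' {V : Set E} (hV : IsOpen V) (hs : StarConvex ℝ 0 V)
    (F : Type) [NormedAddCommGroup F] [NormedSpace ℝ F] [CompleteSpace F] (φ : ℝ → ℝ)
    (hφ : Continuous φ) (G : E → F) (hG : ContDiffOn ℝ ∞ G V) :
    ContDiffOn ℝ ∞ (fun y => ∫ t in (0 : ℝ)..1, φ t • G (t • y)) V := by
  rw [contDiffOn_infty]
  intro k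
  exact smooth_seg hV hs k F φ hφ G hG

/-- all facts on the parametric integral, evaluated by functionals -/
theorem gen {V : Set E} (hV : IsOpen V) (hs : StarConvex ℝ 0 V) (b : E → F)
    (hb : ContDiffOn ℝ ∞ b V) :
    ∃ (B : E → F) (B' : E → E →L[ℝ] F), ContDiffOn ℝ ∞ B V ∧
      (∀ y ∈ V, HasFDerivAt B (B' y) y) ∧
      (∀ y ∈ V, ∀ L : F →L[ℝ] ℝ, L (B y) = ∫ t in (0 : ℝ)..1, t * L (b (t • y))) ∧
      (∀ y ∈ V, ∀ (L : F →L[ℝ] ℝ) (v : E),
        L (B' y v) = ∫ t in (0 : ℝ)..1, t * t * L (fderiv ℝ b (t • y) v)) ∧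
      (∀ y ∈ V, ∀ (L : F →L[ℝ] ℝ) (v : E),
        ContinuousOn (fun t : ℝ => L (fderiv ℝ b (t • y) v)) (Set.Icc 0 1)) ∧
      (∀ y ∈ V, ∀ (L : F →L[ℝ] ℝ), ∀ t ∈ Set.Icc (0 : ℝ) 1,
        HasDerivAt (fun t : ℝ => L (b (t • y))) (L (fderiv ℝ b (t • y) y)) t) ∧
      (∀ L L' : F →L[ℝ] ℝ, (∀ z, L (b z) = - L' (b z)) → ∀ y ∈ V, ∀ u : E,
        L (fderiv ℝ b y u) = - L' (fderiv ℝ b y u)) := by
  have hb1 : ContDiffOn ℝ 1 b V := hb.of_le (by exact_mod_cast le_top)
  have hcb : ContinuousOn b V := hb.continuousOn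
  have hdb : ContinuousOn (fderiv ℝ b) V := hb1.continuousOn_fderiv_of_isOpen hV le_rfl
  have hdbat : ∀ y ∈ V, HasFDerivAt b (fderiv ℝ b y) y := fun y hy =>
    ((hb1.differentiableOn one_ne_zero).differentiableAt (hV.mem_nhds hy)).hasFDerivAt
  have hL : ∀ y ∈ V, ∀ L : F →L[ℝ] ℝ, HasFDerivAt (fun y => L (b y)) (L.comp (fderiv ℝ b y)) y :=
    fun y hy L => L.hasFDerivAt.comp y (hdbat y hy)
  refine ⟨fun y => ∫ t in (0 : ℝ)..1, t • b (t • y),
    fun y => ∫ t in (0 : ℝ)..1, (t * t) • fderiv ℝ b (t • y), ?_, ?_, ?_, ?_, ?_, ?_, ?_⟩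
  · exact smooth_seg' hV hs F (fun t => t) continuous_id b hb
  · intro y hy
    exact deriv_seg hV hs (fun t => t) continuous_id b hb1 hy
  · intro y hy L
    have hi : IntervalIntegrable (fun t : ℝ => t • b (t • y)) volume 0 1 :=
      ii_seg hs (fun t => t) continuous_id b hcb hy
    have h := L.intervalIntegral_comp_comm hi
    simp only
    rw [← h]
    apply intervalIntegral.integral_congr
    intro t _
    simp only [map_smul, smul_eq_mul]
  · intro y hy L v
    have hi : IntervalIntegrable (fun t : ℝ => (t * t) • fderiv ℝ b (t • y)) volume 0 1 :=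
      ii_seg hs (fun t => t * t) (by fun_prop) _ hdb hy
    have hi2 : IntervalIntegrable (fun t : ℝ => ((t * t) • fderiv ℝ b (t • y)) v) volume 0 1 :=
      ⟨hi.1.apply_continuousLinearMap v, hi.2.apply_continuousLinearMap v⟩
    have h1 := ContinuousLinearMap.intervalIntegral_apply hi v
    have h := L.intervalIntegral_comp_comm hi2
    simp only
    rw [h1, ← h]
    apply intervalIntegral.integral_congr
    intro t _
    simp only [map_smul, smul_eq_mul, smul_apply]
  · intro y hy L v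
    have hc : ContinuousOn (fun t : ℝ => fderiv ℝ b (t • y)) (Set.Icc 0 1) :=
      hdb.comp (by fun_prop) fun t ht => smul_mem hs hy ht
    exact L.continuous.comp_continuousOn (hc.clm_apply continuousOn_const)
  · intro y hy L t ht
    have h1 : HasDerivAt (fun t : ℝ => t • y) y t := by
      have := (hasDerivAt_id t).smul_const y
      simpa using this
    have h2 := hL (t • y) (smul_mem hs hy ht) L
    have h3 : HasDerivAt ((fun y => L (b y)) ∘ fun t : ℝ => t • y)
        ((L.comp (fderiv ℝ b (t • y))) y) t := h2.comp_hasDerivAt t h1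
    exact h3
  · intro L L' hLL y hy u
    have h1 := hL y hy L
    have h2 := (hL y hy L').neg
    have e : (fun y => L (b y)) = -(fun y => L' (b y)) := by
      funext y
      exact hLL y
    rw [e] at h1
    have h3 := h1.unique h2
    have h4 := congrArg (fun L : E →L[ℝ] ℝ => L u) h3
    exact h4

theorem poin {V : Set E} (hV : IsOpen V) (hs : StarConvex ℝ 0 V) (b : E → E →L[ℝ] E →L[ℝ] ℝ)
    (hb : ContDiffOn ℝ ∞ b V) (hanti : ∀ y v, b y v v = 0)
    (hclosed : ∀ y ∈ V, ∀ u v w : E,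
      fderiv ℝ b y u v w + fderiv ℝ b y v w u + fderiv ℝ b y w u v = 0) :
    ∃ a : E → E →L[ℝ] ℝ, ContDiffOn ℝ ∞ a V ∧
      ∀ y ∈ V, ∀ v w, b y v w = fderiv ℝ a y v w - fderiv ℝ a y w v := by
  have hb1 : ContDiffOn ℝ 1 b V := hb.of_le (by exact_mod_cast le_top)
  have hcb : ContinuousOn b V := hb.continuousOn
  obtain ⟨B, B', hBs, hB', hBi, hBi', hBc, hBd, hLL⟩ := gen hV hs b hb
  let ev : E → E → (E →L[ℝ] E →L[ℝ] ℝ) →L[ℝ] ℝ := fun v w =>
    (ContinuousLinearMap.apply ℝ ℝ w).comp (ContinuousLinearMap.apply ℝ (E →L[ℝ] ℝ) v)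
  have hev : ∀ (T : E →L[ℝ] E →L[ℝ] ℝ) (v w : E), ev v w T = T v w := fun T v w => rfl
  -- evaluation of the integrals
  have e1 : ∀ y ∈ V, ∀ v w : E, B y v w = ∫ t in (0 : ℝ)..1, t * b (t • y) v w := by
    intro y hy v w
    have h := hBi y hy (ev v w)
    simp only [hev] at h
    exact h
  have e2 : ∀ y ∈ V, ∀ v u w : E, B' y v u w =
      ∫ t in (0 : ℝ)..1, t * t * fderiv ℝ b (t • y) v u w := by
    intro y hy v u w
    have h := hBi' y hy (ev u w) v
    simp only [hev] at h
    exact h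
  have e3 : ∀ y ∈ V, ∀ v u w : E,
      ContinuousOn (fun t : ℝ => fderiv ℝ b (t • y) v u w) (Set.Icc 0 1) := by
    intro y hy v u w
    have h := hBc y hy (ev u w) v
    simp only [hev] at h
    exact h
  have hanti2 : ∀ y v w, b y v w = - b y w v := by
    intro y v w
    have h := hanti y (v + w)
    rw [map_add, map_add, add_apply, add_apply,
      hanti, hanti] at h
    linarith
  have hdanti : ∀ y ∈ V, ∀ u v w, fderiv ℝ b y u v w = - fderiv ℝ b y u w v := by
    intro y hy u v w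
    have h := hLL (ev v w) (ev w v) (fun z => hanti2 z v w) y hy u
    simp only [hev] at h
    exact h
  refine ⟨fun y => B y y, hBs.clm_apply contDiffOn_id, ?_⟩
  intro y hy v w
  have hda := (hB' y hy).clm_apply (hasFDerivAt_id y)
  have hfd : ∀ v w : E, fderiv ℝ (fun y => B y y) y v w =
      (∫ t in (0 : ℝ)..1, t * b (t • y) v w) +
        ∫ t in (0 : ℝ)..1, t * t * fderiv ℝ b (t • y) v y w := by
    intro v w
    have h := hda.fderiv
    simp only [id] at h
    rw [h, ← e1 y hy v w, ← e2 y hy v y w]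
    rfl
  rw [hfd v w, hfd w v]
  -- the fundamental theorem of calculus
  have hcont1 : ∀ v w : E, ContinuousOn (fun t : ℝ => t * b (t • y) v w) (Set.Icc 0 1) := by
    intro v w
    refine continuousOn_id.mul ?_
    have hc : ContinuousOn (fun t : ℝ => b (t • y)) (Set.Icc 0 1) :=
      hcb.comp (by fun_prop) fun t ht => smul_mem hs hy ht
    exact (hc.clm_apply continuousOn_const).clm_apply continuousOn_const
  have hcont2 : ∀ u v w : E, ContinuousOn (fun t : ℝ => t * t * fderiv ℝ b (t • y) u v w)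
      (Set.Icc 0 1) := by
    intro u v w
    exact (continuousOn_id.mul continuousOn_id).mul (e3 y hy u v w)
  have hii1 : ∀ v w : E, IntervalIntegrable (fun t : ℝ => t * b (t • y) v w) volume 0 1 := by
    intro v w
    apply ContinuousOn.intervalIntegrable
    rw [Set.uIcc_of_le zero_le_one]
    exact hcont1 v w
  have hii2 : ∀ u v w : E, IntervalIntegrable
      (fun t : ℝ => t * t * fderiv ℝ b (t • y) u v w) volume 0 1 := by
    intro u v w
    apply ContinuousOn.intervalIntegrable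
    rw [Set.uIcc_of_le zero_le_one]
    exact hcont2 u v w
  have hftc : ∫ t in (0 : ℝ)..1, (2 * t * b (t • y) v w + t * t * fderiv ℝ b (t • y) y v w) =
      b y v w := by
    have h := intervalIntegral.integral_eq_sub_of_hasDerivAt
      (f := fun t : ℝ => t ^ 2 * b (t • y) v w)
      (f' := fun t : ℝ => 2 * t * b (t • y) v w + t * t * fderiv ℝ b (t • y) y v w)
      (a := 0) (b := 1) ?_ ?_
    · rw [h]
      simp
    · intro t ht
      rw [Set.uIcc_of_le zero_le_one] at ht
      have h2 : HasDerivAt (fun t : ℝ => b (t • y) v w) (fderiv ℝ b (t • y) y v w) t := by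
        have h := hBd y hy (ev v w) t ht
        simp only [hev] at h
        exact h
      have h0 : HasDerivAt (fun t : ℝ => t ^ 2) (2 * t) t := by
        have := hasDerivAt_pow 2 t
        simpa using this
      have h3 := h0.mul h2
      have e : 2 * t * b (t • y) v w + t * t * fderiv ℝ b (t • y) y v w =
          2 * t * b (t • y) v w + t ^ 2 * fderiv ℝ b (t • y) y v w := by
        ring
      rw [e]
      exact h3
    · have := ((hii1 v w).const_mul 2).add (hii2 y v w)
      refine this.congr ?_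
      intro t _
      simp only
      ring
  rw [← hftc]
  rw [← intervalIntegral.integral_add (hii1 v w) (hii2 v y w),
    ← intervalIntegral.integral_add (hii1 w v) (hii2 w y v),
    ← intervalIntegral.integral_sub ((hii1 v w).add (hii2 v y w)) ((hii1 w v).add (hii2 w y v))]
  apply intervalIntegral.integral_congr
  intro t ht
  rw [Set.uIcc_of_le zero_le_one] at ht
  have hty := smul_mem hs hy ht
  have h1 := hanti2 (t • y) w v
  have h2 := hclosed (t • y) hty v y w
  have h3 := hdanti (t • y) hty y w v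
  have h4 := hdanti (t • y) hty w v y
  simp only
  rw [h1]
  have h5 : fderiv ℝ b (t • y) y v w =
      fderiv ℝ b (t • y) v y w - fderiv ℝ b (t • y) w y v := by linarith
  rw [h5]
  ring

end Qpo2

open Qpo2 in
theorem s_poin2 : S_POIN2 := by
  intro n V hV hs b hb hanti hclosed
  exact poin hV hs b hb hanti hclosed

end Pool.Agent.H781.CM.Q
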