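import Pool.Agent.H781.CM.QC
import Pool.Graph.R_seed8.H821R3.Der

/-!
Project Q: 1-forms and their exterior derivative in a chart.
-/

set_option autoImplicit false
set_option linter.unusedSectionVars false

open Bundle Manifold ContDiff VectorField Filter
open scoped Topology

noncomputable section

namespace Pool.Agent.H781.CM.Q

open Pool.Agent.H781.CM.F

namespace Qt1

variable {n : ℕ} {M : Type} [TopologicalSpace M] [ChartedSpace (EV n) M]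
  [IsManifold (𝓡 n) ∞ M] {V : Set (EV n)} {U : Set M} {ψ : EV n → M} {φ : M → EV n}

theorem phi_cm (h : Par V U ψ φ) {x : M} (hx : x ∈ U) :
    ContMDiffAt (𝓡 n) 𝓘(ℝ, EV n) ∞ φ x := (h.smφ x hx).contMDiffAt (h.oU.mem_nhds hx)

theorem psi_cm (h : Par V U ψ φ) {y : EV n} (hy : y ∈ V) :
    ContMDiffAt 𝓘(ℝ, EV n) (𝓡 n) ∞ ψ y := (h.smψ y hy).contMDiffAt (h.oV.mem_nhds hy)

theorem phi_md (h : Par V U ψ φ) {x : M} (hx : x ∈ U) :
    MDifferentiableAt (𝓡 n) 𝓘(ℝ, EV n) φ x := (phi_cm h hx).mdifferentiableAt (by simp)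

theorem psi_md (h : Par V U ψ φ) {y : EV n} (hy : y ∈ V) :
    MDifferentiableAt 𝓘(ℝ, EV n) (𝓡 n) ψ y := (psi_cm h hy).mdifferentiableAt (by simp)

/-- `dφ ∘ dψ = id` -/
theorem dphi_comp (h : Par V U ψ φ) {y : EV n} (hy : y ∈ V) :
    (mfderiv (𝓡 n) 𝓘(ℝ, EV n) φ (ψ y)).comp (mfderiv 𝓘(ℝ, EV n) (𝓡 n) ψ y) =
      ContinuousLinearMap.id ℝ (TangentSpace 𝓘(ℝ, EV n) y) := by
  have h1 := mfderiv_comp y (phi_md h (h.l y hy).1) (psi_md h hy)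
  have h2 : φ ∘ ψ =ᶠ[𝓝 y] id := by
    filter_upwards [h.oV.mem_nhds hy] with z hz using (h.l z hz).2
  rw [h2.mfderiv_eq, mfderiv_id] at h1
  exact h1.symm

/-- `dψ ∘ dφ = id` -/
theorem dpsi_comp (h : Par V U ψ φ) {x : M} (hx : x ∈ U) :
    (mfderiv 𝓘(ℝ, EV n) (𝓡 n) ψ (φ x)).comp (mfderiv (𝓡 n) 𝓘(ℝ, EV n) φ x) =
      ContinuousLinearMap.id ℝ (TangentSpace (𝓡 n) x) := by
  have h1 := mfderiv_comp x (psi_md h (h.r x hx).1) (phi_md h hx)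
  have h2 : ψ ∘ φ =ᶠ[𝓝 x] id := by
    filter_upwards [h.oU.mem_nhds hx] with z hz using (h.r z hz).2
  rw [h2.mfderiv_eq, mfderiv_id] at h1
  exact h1.symm

/-- smooth fields -/
abbrev SmF (Y : Π x : M, TangentSpace (𝓡 n) x) : Prop :=
  ContMDiff (𝓡 n) (𝓡 n).tangent ∞ (fun x => (TotalSpace.mk' (EV n) x (Y x) : TangentBundle (𝓡 n) M))

/-- a smooth field in the chart -/
theorem smooth_dm (h : Par V U ψ φ) {Y : Π x : M, TangentSpace (𝓡 n) x} (hY : SmF Y) :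
    ContMDiffOn (𝓡 n) 𝓘(ℝ, EV n) ∞ (fun x => dm φ x (Y x)) U := by
  have h1 := h.smφ.contMDiffOn_tangentMapWithin (m := ∞) (by simp) h.oU.uniqueMDiffOn
  have h2 : ContMDiffOn (𝓡 n) (𝓘(ℝ, EV n)).tangent ∞
      (fun x => tangentMapWithin (𝓡 n) 𝓘(ℝ, EV n) φ U (⟨x, Y x⟩ : TangentBundle (𝓡 n) M)) U :=
    h1.comp hY.contMDiffOn (fun x hx => hx)
  have h3 := (contMDiff_snd_tangentBundle_modelSpace (EV n) 𝓘(ℝ, EV n)).comp_contMDiffOn h2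
  refine h3.congr fun x hx => ?_
  show dm φ x (Y x) = mfderivWithin (𝓡 n) 𝓘(ℝ, EV n) φ U x (Y x)
  rw [mfderivWithin_of_isOpen h.oU hx]
  rfl

/-- the coordinate field -/
def cf (ψ : EV n → M) (φ : M → EV n) (w : EV n) : Π x : M, TangentSpace (𝓡 n) x :=
  fun x => (mfderiv 𝓘(ℝ, EV n) (𝓡 n) ψ (φ x) w : EV n)

theorem mk_eq {x x' : M} (hx : x' = x) (e : EV n) :
    (⟨x', e⟩ : TangentBundle (𝓡 n) M) = ⟨x, e⟩ := by
  subst hx
  rfl

theorem smooth_cf (h : Par V U ψ φ) (w : EV n) :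
    ContMDiffOn (𝓡 n) (𝓡 n).tangent ∞ (fun x => (⟨x, cf ψ φ w x⟩ : TangentBundle (𝓡 n) M)) U := by
  have h1 := h.smψ.contMDiffOn_tangentMapWithin (m := ∞) (by simp) h.oV.uniqueMDiffOn
  have h0 : ContMDiff 𝓘(ℝ, EV n) (𝓘(ℝ, EV n)).tangent ∞
      (fun y : EV n => (⟨y, w⟩ : TangentBundle 𝓘(ℝ, EV n) (EV n))) :=
    contMDiff_vectorSpace_iff_contDiff.2 contDiff_const
  have h2 : ContMDiffOn (𝓡 n) (𝓡 n).tangent ∞
      (fun x => tangentMapWithin 𝓘(ℝ, EV n) (𝓡 n) ψ V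
        (⟨φ x, w⟩ : TangentBundle 𝓘(ℝ, EV n) (EV n))) U :=
    h1.comp (h0.comp_contMDiffOn h.smφ) (fun x hx => (h.r x hx).1)
  refine h2.congr fun x hx => ?_
  show (⟨x, cf ψ φ w x⟩ : TangentBundle (𝓡 n) M) =
    ⟨ψ (φ x), mfderivWithin 𝓘(ℝ, EV n) (𝓡 n) ψ V (φ x) w⟩
  rw [mfderivWithin_of_isOpen h.oV (h.r x hx).1]
  exact (mk_eq (h.r x hx).2 _).symm

theorem exists_global [T2Space M] [CompactSpace M] (h : Par V U ψ φ) {O : Set M} (hO : IsOpen O)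
    (hOU : O ⊆ U) {x₀ : M} (hx₀ : x₀ ∈ O) (w : EV n) :
    ∃ Y : Π x : M, TangentSpace (𝓡 n) x, SmF Y ∧ ∀ᶠ x in 𝓝 x₀, Y x = cf ψ φ w x := by
  obtain ⟨f, -, hf⟩ := (SmoothBumpFunction.nhds_basis_tsupport (I := 𝓡 n) x₀).mem_iff.1
    (hO.mem_nhds hx₀)
  refine ⟨(f : M → ℝ) • cf ψ φ w, ?_, ?_⟩
  · exact ContMDiffOn.smul_section_of_tsupport f.contMDiff.contMDiffOn hO hf
      ((smooth_cf h w).mono hOU)
  · filter_upwards [f.eventuallyEq_one] with x hx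
    rw [Pi.smul_apply', hx, Pi.one_apply, one_smul]

/-- 1-forms in coordinates -/
theorem alt_lin {T : Type*} [AddCommGroup T] [Module ℝ T] (A : T [⋀^Fin 1]→ₗ[ℝ] ℝ) :
    ∃ ℓ : T →ₗ[ℝ] ℝ, ∀ v : Fin 1 → T, A v = ℓ (v 0) := by
  refine ⟨(AlternatingMap.ofSubsingleton ℝ T ℝ (0 : Fin 1)).symm A, fun v => ?_⟩
  rw [AlternatingMap.ofSubsingleton_symm_apply_apply]
  congr 1
  funext i
  rw [Subsingleton.elim i 0]

theorem al_eq (α : DF (𝓡 n) M 1) {x x' : M} (hx : x' = x) (e : EV n) :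
    α x' (fun _ => (e : TangentSpace (𝓡 n) x')) = α x (fun _ => (e : TangentSpace (𝓡 n) x)) := by
  subst hx
  rfl

theorem im_eq (h : Par V U ψ φ) {O : Set M} (hOU : O ⊆ U) : φ '' O = V ∩ ψ ⁻¹' O := by
  ext z
  constructor
  · rintro ⟨x, hx, rfl⟩
    refine ⟨(h.r x (hOU hx)).1, ?_⟩
    show ψ (φ x) ∈ O
    rw [(h.r x (hOU hx)).2]
    exact hx
  · rintro ⟨hz, hz'⟩
    exact ⟨ψ z, hz', (h.l z hz).2⟩

theorem im_open (h : Par V U ψ φ) {O : Set M} (hO : IsOpen O) (hOU : O ⊆ U) :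
    IsOpen (φ '' O) := by
  rw [im_eq h hOU]
  exact h.smψ.continuousOn.isOpen_inter_preimage h.oV hO

/-- the components of a form are smooth -/
theorem comp_smooth [T2Space M] [CompactSpace M] (h : Par V U ψ φ) {O : Set M} (hO : IsOpen O)
    (hOU : O ⊆ U) (α : DF (𝓡 n) M 1) (hα : IsFormOn O α) (w : EV n) :
    ContDiffOn ℝ ∞ (fun z => α (ψ z) (fun _ => mfderiv 𝓘(ℝ, EV n) (𝓡 n) ψ z w)) (φ '' O) := by
  rintro _ ⟨x, hx, rfl⟩
  obtain ⟨Y, hY, hYe⟩ := exists_global h hO hOU hx w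
  have hG : ContMDiffOn (𝓡 n) 𝓘(ℝ, ℝ) ∞ (fun x => α x (fun _ => Y x)) O :=
    hα.2 (fun _ => Y) (fun _ => hY)
  obtain ⟨hxV, hψx⟩ := h.r x (hOU hx)
  have hG1 : ContMDiffAt (𝓡 n) 𝓘(ℝ, ℝ) ∞ (fun x => α x (fun _ => Y x)) (ψ (φ x)) := by
    rw [hψx]
    exact (hG x hx).contMDiffAt (hO.mem_nhds hx)
  have hG2 := hG1.comp (φ x) (psi_cm h hxV)
  have hG3 : ContDiffAt ℝ ∞ ((fun x => α x (fun _ => Y x)) ∘ ψ) (φ x) :=
    contMDiffAt_iff_contDiffAt.1 hG2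
  refine ContDiffAt.contDiffWithinAt (hG3.congr_of_eventuallyEq ?_)
  have ht : Tendsto ψ (𝓝 (φ x)) (𝓝 x) := by
    have := (psi_cm h hxV).continuousAt
    rw [ContinuousAt, hψx] at this
    exact this
  filter_upwards [ht.eventually hYe, h.oV.mem_nhds hxV] with z hz hzV
  show α (ψ z) (fun _ => mfderiv 𝓘(ℝ, EV n) (𝓡 n) ψ z w) = α (ψ z) (fun _ => Y (ψ z))
  rw [hz]
  unfold cf
  rw [(h.l z hzV).2]

end Qt1

theorem s_t1 : S_T1 := by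
  intro n M _ _ _ _ _ V U ψ φ h O hO hOU α
  refine ⟨?_, ?_⟩
  · intro hα
    refine ⟨fun z => ∑ i, (α (ψ z) (fun _ => mfderiv 𝓘(ℝ, EV n) (𝓡 n) ψ z
      (EuclideanSpace.single i (1 : ℝ)))) • (EuclideanSpace.proj i : EV n →L[ℝ] ℝ), ?_, ?_⟩
    · exact ContDiffOn.sum fun i _ => (Qt1.comp_smooth h hO hOU α hα _).smul contDiffOn_const
    · intro x hx v
      obtain ⟨A, hA⟩ := hα.1 x hx
      obtain ⟨ℓ, hℓ⟩ := Qt1.alt_lin A
      obtain ⟨hxV, hψx⟩ := h.r x (hOU hx)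
      set w : EV n := dm φ x (v 0) with hw
      have h1 : ∀ i, α (ψ (φ x)) (fun _ => mfderiv 𝓘(ℝ, EV n) (𝓡 n) ψ (φ x)
          (EuclideanSpace.single i (1 : ℝ))) = ℓ (mfderiv 𝓘(ℝ, EV n) (𝓡 n) ψ (φ x)
          (EuclideanSpace.single i (1 : ℝ)) : EV n) := by
        intro i
        rw [Qt1.al_eq α hψx, hA, hℓ]
      have h2 : (mfderiv 𝓘(ℝ, EV n) (𝓡 n) ψ (φ x) w : EV n) = v 0 := by
        have := congrArg (fun L => L (v 0)) (Qt1.dpsi_comp h (hOU hx))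
        exact this
      have h3 : w = ∑ i, w i • (EuclideanSpace.single i (1 : ℝ) : EV n) := by
        ext j
        simp [Pi.single_apply]
      let L : EV n →ₗ[ℝ] ℝ :=
        { toFun := fun u => ℓ (mfderiv 𝓘(ℝ, EV n) (𝓡 n) ψ (φ x) u : EV n)
          map_add' := fun a b => by
            have e := (mfderiv 𝓘(ℝ, EV n) (𝓡 n) ψ (φ x)).map_add a b
            exact (congrArg (fun t : EV n => ℓ t) e).trans (ℓ.map_add _ _)
          map_smul' := fun c a => by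
            have e := (mfderiv 𝓘(ℝ, EV n) (𝓡 n) ψ (φ x)).map_smul c a
            exact (congrArg (fun t : EV n => ℓ t) e).trans (ℓ.map_smul _ _) }
      have h4 : L w = ∑ i, w i • L (EuclideanSpace.single i (1 : ℝ)) := by
        conv_lhs => rw [h3]
        rw [map_sum]
        refine Finset.sum_congr rfl fun i _ => ?_
        rw [map_smul]
      have h5 : L w = ℓ (v 0) := congrArg (fun t : EV n => ℓ t) h2
      rw [hA, hℓ, ← h5, h4]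
      show _ = (∑ i, (α (ψ (φ x)) (fun _ => mfderiv 𝓘(ℝ, EV n) (𝓡 n) ψ (φ x)
        (EuclideanSpace.single i (1 : ℝ)))) • (EuclideanSpace.proj i : EV n →L[ℝ] ℝ)) w
      rw [sum_apply]
      refine Finset.sum_congr rfl fun i _ => ?_
      rw [h1 i]
      show w i * L (EuclideanSpace.single i (1 : ℝ)) = L (EuclideanSpace.single i (1 : ℝ)) * w i
      exact mul_comm _ _
  · intro a ha hC
    refine ⟨?_, ?_⟩
    · intro x hx
      refine ⟨AlternatingMap.ofSubsingleton ℝ (TangentSpace (𝓡 n) x) ℝ (0 : Fin 1)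
        ((a (φ x)).toLinearMap ∘ₗ
          (mfderiv (𝓡 n) 𝓘(ℝ, EV n) φ x : TangentSpace (𝓡 n) x →L[ℝ] EV n).toLinearMap), ?_⟩
      intro v
      rw [hC x hx v]
      rfl
    · intro Y hY
      have h1 : ContMDiffOn (𝓡 n) 𝓘(ℝ, EV n →L[ℝ] ℝ) ∞ (fun x => a (φ x)) O :=
        ha.contMDiffOn.comp (h.smφ.mono hOU) (fun x hx => ⟨x, hx, rfl⟩)
      have h2 : ContMDiffOn (𝓡 n) 𝓘(ℝ, EV n) ∞ (fun x => dm φ x (Y 0 x)) O :=
        (Qt1.smooth_dm h (hY 0)).mono hOU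
      exact (h1.clm_apply h2).congr fun x hx => hC x hx _

namespace Qt1

variable {n : ℕ} {M : Type} [TopologicalSpace M] [ChartedSpace (EV n) M]
  [IsManifold (𝓡 n) ∞ M] {V : Set (EV n)} {U : Set M} {ψ : EV n → M} {φ : M → EV n}

/-- the field `Y` in the chart -/
def cy (ψ : EV n → M) (φ : M → EV n) (Y : Π x : M, TangentSpace (𝓡 n) x) : EV n → EV n :=
  fun z => dm φ (ψ z) (Y (ψ z))

theorem cy_phi (h : Par V U ψ φ) (Y : Π x : M, TangentSpace (𝓡 n) x) {x : M} (hx : x ∈ U) :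
    cy ψ φ Y (φ x) = dm φ x (Y x) := by
  unfold cy
  rw [(h.r x hx).2]

theorem cy_smooth (h : Par V U ψ φ) {Y : Π x : M, TangentSpace (𝓡 n) x} (hY : SmF Y) :
    ContDiffOn ℝ ∞ (cy ψ φ Y) V := by
  have h1 : ContMDiffOn 𝓘(ℝ, EV n) 𝓘(ℝ, EV n) ∞ ((fun x => dm φ x (Y x)) ∘ ψ) V :=
    (smooth_dm h hY).comp h.smψ (fun z hz => (h.l z hz).1)
  exact contMDiffOn_iff_contDiffOn.1 h1

theorem cy_diff (h : Par V U ψ φ) {Y : Π x : M, TangentSpace (𝓡 n) x} (hY : SmF Y) {z : EV n}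
    (hz : z ∈ V) : DifferentiableAt ℝ (cy ψ φ Y) z :=
  (((cy_smooth h hY) z hz).contDiffAt (h.oV.mem_nhds hz)).differentiableAt (by simp)

/-- the bracket in the chart -/
theorem dm_bracket (h : Par V U ψ φ) {Y₀ Y₁ : Π x : M, TangentSpace (𝓡 n) x} (h₀ : SmF Y₀)
    (h₁ : SmF Y₁) {x : M} (hx : x ∈ U) : dm φ x (mlieBracket (𝓡 n) Y₀ Y₁ x) =
      fderiv ℝ (cy ψ φ Y₁) (φ x) (dm φ x (Y₀ x)) - fderiv ℝ (cy ψ φ Y₀) (φ x) (dm φ x (Y₁ x)) := by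
  obtain ⟨hxV, hψx⟩ := h.r x hx
  have h2 : minSmoothness ℝ 2 ≤ (∞ : ℕ∞ω) := by
    rw [minSmoothness_of_isRCLikeNormedField]
    exact Pool.Agent.H821R2.two_le_infty
  have hM : IsManifold (𝓡 n) (minSmoothness ℝ 2) M := IsManifold.of_le h2
  have e1 := mpullback_mlieBracket (I := 𝓘(ℝ, EV n)) (I' := 𝓡 n) (f := ψ) (V := Y₀) (W := Y₁)
    (x₀ := φ x) (n := ∞) ((h₀ _).mdifferentiableAt (by simp)) ((h₁ _).mdifferentiableAt (by simp))
    (psi_cm h hxV) h2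
  have inv : ∀ z ∈ V, (mfderiv 𝓘(ℝ, EV n) (𝓡 n) ψ z).inverse =
      mfderiv (𝓡 n) 𝓘(ℝ, EV n) φ (ψ z) := by
    intro z hz
    refine ContinuousLinearMap.inverse_eq ?_ (dphi_comp h hz)
    have := dpsi_comp h (h.l z hz).1
    rw [(h.l z hz).2] at this
    exact this
  have pb : ∀ Y : Π x : M, TangentSpace (𝓡 n) x,
      mpullback 𝓘(ℝ, EV n) (𝓡 n) ψ Y =ᶠ[𝓝 (φ x)] cy ψ φ Y := by
    intro Y
    filter_upwards [h.oV.mem_nhds hxV] with z hz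
    rw [mpullback_apply, inv z hz]
    rfl
  rw [(pb Y₀).mlieBracket_vectorField_eq (pb Y₁), mpullback_apply, inv _ hxV] at e1
  have e2 : mlieBracket 𝓘(ℝ, EV n) (cy ψ φ Y₀) (cy ψ φ Y₁) (φ x) =
      lieBracket ℝ (cy ψ φ Y₀) (cy ψ φ Y₁) (φ x) := by
    rw [← mlieBracketWithin_univ, mlieBracketWithin_eq_lieBracketWithin, lieBracketWithin_univ]
  rw [e2, lieBracket_eq] at e1
  have e3 : dm φ (ψ (φ x)) (mlieBracket (𝓡 n) Y₀ Y₁ (ψ (φ x))) =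
      fderiv ℝ (cy ψ φ Y₁) (φ x) (cy ψ φ Y₀ (φ x)) - fderiv ℝ (cy ψ φ Y₀) (φ x)
        (cy ψ φ Y₁ (φ x)) := e1
  rw [cy_phi h Y₀ hx, cy_phi h Y₁ hx, hψx] at e3
  exact e3

/-- derivative of a form on a field -/
theorem der_form (h : Par V U ψ φ) {O : Set M} (hO : IsOpen O) (hOU : O ⊆ U)
    {α : DF (𝓡 n) M 1} {a : EV n → EV n →L[ℝ] ℝ} (ha : ContDiffOn ℝ ∞ a (φ '' O))
    (hC : Co1 φ O α a) {Y : Π x : M, TangentSpace (𝓡 n) x} (hY : SmF Y) {x : M} (hx : x ∈ O)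
    (v : TangentSpace (𝓡 n) x) :
    mvfderiv (𝓡 n) (fun y => α y (fun _ => Y y)) x v =
      fderiv ℝ a (φ x) (dm φ x v) (dm φ x (Y x)) +
        a (φ x) (fderiv ℝ (cy ψ φ Y) (φ x) (dm φ x v)) := by
  obtain ⟨hxV, hψx⟩ := h.r x (hOU hx)
  have had : DifferentiableAt ℝ a (φ x) :=
    ((ha _ ⟨x, hx, rfl⟩).contDiffAt ((im_open h hO hOU).mem_nhds ⟨x, hx, rfl⟩)).differentiableAt
      (by simp)
  have hcd := cy_diff h hY hxV
  have hev : (fun y => α y (fun _ => Y y)) =ᶠ[𝓝 x] (fun z => a z (cy ψ φ Y z)) ∘ φ := by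
    filter_upwards [hO.mem_nhds hx] with y hy
    rw [hC y hy, Function.comp_apply, cy_phi h Y (hOU hy)]
  have hfd : DifferentiableAt ℝ (fun z => a z (cy ψ φ Y z)) (φ x) := had.clm_apply hcd
  have e1 : mfderiv (𝓡 n) 𝓘(ℝ, ℝ) (fun y => α y (fun _ => Y y)) x =
      (mfderiv 𝓘(ℝ, EV n) 𝓘(ℝ, ℝ) (fun z => a z (cy ψ φ Y z)) (φ x)).comp
        (mfderiv (𝓡 n) 𝓘(ℝ, EV n) φ x) := by
    rw [hev.mfderiv_eq]
    exact mfderiv_comp x hfd.mdifferentiableAt (phi_md h (hOU hx))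
  have e2 : mvfderiv (𝓡 n) (fun y => α y (fun _ => Y y)) x v =
      fderiv ℝ (fun z => a z (cy ψ φ Y z)) (φ x) (dm φ x v) := by
    show (mfderiv (𝓡 n) 𝓘(ℝ, ℝ) (fun y => α y (fun _ => Y y)) x v : ℝ) = _
    rw [e1, mfderiv_eq_fderiv]
    rfl
  rw [e2, fderiv_clm_apply had hcd]
  rw [add_apply, ContinuousLinearMap.comp_apply, ContinuousLinearMap.flip_apply,
    cy_phi h Y (hOU hx)]
  ring

/-- the right hand side of the formula for `dα` -/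
theorem rhs_eq (h : Par V U ψ φ) {O : Set M} (hO : IsOpen O) (hOU : O ⊆ U)
    {α : DF (𝓡 n) M 1} {a : EV n → EV n →L[ℝ] ℝ} (ha : ContDiffOn ℝ ∞ a (φ '' O))
    (hC : Co1 φ O α a) (Y : Fin 2 → Π x : M, TangentSpace (𝓡 n) x) (hY : ∀ i, SmF (Y i)) {x : M}
    (hx : x ∈ O) :
    (∑ j : Fin 2, (-1 : ℝ) ^ (j : ℕ) *
      (mvfderiv (𝓡 n) (fun y => α y (fun k => j.removeNth Y k y)) x (Y j x) +
        ∑ i : Fin 1, if (i : ℕ) < (j : ℕ) then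
          α x (Function.update (fun k => j.removeNth Y k x) i
            (mlieBracket (𝓡 n) (Y i.castSucc) (Y j) x)) else 0)) =
    fderiv ℝ a (φ x) (dm φ x (Y 0 x)) (dm φ x (Y 1 x)) -
      fderiv ℝ a (φ x) (dm φ x (Y 1 x)) (dm φ x (Y 0 x)) := by
  have r0 : (fun y => α y (fun k => (0 : Fin 2).removeNth Y k y)) =
      fun y => α y (fun _ => Y 1 y) := by
    funext y
    congr 1
    funext k
    rw [Subsingleton.elim k 0]
    rfl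
  have r1 : (fun y => α y (fun k => (1 : Fin 2).removeNth Y k y)) =
      fun y => α y (fun _ => Y 0 y) := by
    funext y
    congr 1
    funext k
    rw [Subsingleton.elim k 0]
    rfl
  rw [Fin.sum_univ_two, r0, r1, der_form h hO hOU ha hC (hY 1) hx,
    der_form h hO hOU ha hC (hY 0) hx]
  rw [Fin.sum_univ_one, Fin.sum_univ_one, if_neg (by simp), if_pos (by simp), hC x hx,
    Function.update_self]
  have e : dm φ x (mlieBracket (𝓡 n) (Y (0 : Fin 1).castSucc) (Y 1) x) =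
      fderiv ℝ (cy ψ φ (Y 1)) (φ x) (dm φ x (Y 0 x)) -
        fderiv ℝ (cy ψ φ (Y 0)) (φ x) (dm φ x (Y 1 x)) :=
    dm_bracket h (hY 0) (hY 1) (hOU hx)
  rw [e, map_sub]
  norm_num
  ring

end Qt1

theorem s_t2 : S_T2 := by
  intro n M _ _ _ _ _ V U ψ φ h O hO hOU α β a ha hC
  constructor
  · intro hD x hx v
    have hs : SigmaCompactSpace M := inferInstance
    obtain ⟨Y₀, h₀, h₀'⟩ := Pool.Agent.H821R2.exists_smooth_field (I := 𝓡 n) x (v 0)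
    obtain ⟨Y₁, h₁, h₁'⟩ := Pool.Agent.H821R2.exists_smooth_field (I := 𝓡 n) x (v 1)
    have hY : ∀ i : Fin 2, Qt1.SmF ((![Y₀, Y₁] : Fin 2 → Π x : M, TangentSpace (𝓡 n) x) i) := by
      intro i
      fin_cases i
      · exact h₀
      · exact h₁
    have e := hD ![Y₀, Y₁] hY x hx
    have e2 := Qt1.rhs_eq h hO hOU ha hC ![Y₀, Y₁] hY hx
    have e3 : (fun i => (![Y₀, Y₁] : Fin 2 → Π x : M, TangentSpace (𝓡 n) x) i x) = v := by
      funext i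
      fin_cases i
      · exact h₀'
      · exact h₁'
    rw [e3] at e
    rw [e]
    refine e2.trans ?_
    show fderiv ℝ a (φ x) (dm φ x (Y₀ x)) (dm φ x (Y₁ x)) -
      fderiv ℝ a (φ x) (dm φ x (Y₁ x)) (dm φ x (Y₀ x)) = _
    rw [h₀', h₁']
  · intro hβ Y hY x hx
    rw [hβ x hx]
    exact (Qt1.rhs_eq h hO hOU ha hC Y hY hx).symm

end Pool.Agent.H781.CM.Q
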