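import Pool.Agent.H781.CM.QC

/-!
Q-12 (helper357 for helper781): 2-forms and closedness in a chart.
-/

set_option autoImplicit false
set_option synthInstance.maxHeartbeats 400000
set_option maxHeartbeats 4000000
set_option linter.unusedSectionVars false

open Bundle Manifold ContDiff VectorField Filter
open scoped Topology ComplexConjugate

noncomputable section

namespace Pool.Agent.H781.CM.Q

open Pool.Agent.H781.CM.F

namespace Qt3

theorem two_le : (2 : WithTop ℕ∞) ≤ ∞ := ENat.LEInfty.out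

section gen

variable {E : Type*} [NormedAddCommGroup E] [NormedSpace ℝ E]
  {H : Type*} [TopologicalSpace H] {I : ModelWithCorners ℝ E H}
  {M : Type*} [TopologicalSpace M] [ChartedSpace H M] [IsManifold I ∞ M]

/-- smooth fields -/
abbrev SmF (Z : Π x : M, TangentSpace I x) : Prop := CMDiff ∞ (T% Z)

/-- smooth fields at a point -/
abbrev SmFAt (Z : Π x : M, TangentSpace I x) (x : M) : Prop := CMDiffAt ∞ (T% Z) x

/-- smooth fields on a set -/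
abbrev SmFOn (Z : Π x : M, TangentSpace I x) (U : Set M) : Prop := CMDiff[U] ∞ (T% Z)

end gen

section chart

variable {n : ℕ} {M : Type} [TopologicalSpace M] [ChartedSpace (EV n) M]
  [IsManifold (𝓡 n) ∞ M] {V : Set (EV n)} {U : Set M} {ψ : EV n → M} {φ : M → EV n}

/-- differential of the chart as an endomorphism of `ℝⁿ` -/
def Dp (φ : M → EV n) (x : M) : EV n →L[ℝ] EV n := mfderiv (𝓡 n) 𝓘(ℝ, EV n) φ x

/-- differential of the parametrisation as an endomorphism of `ℝⁿ` -/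
def Dq (ψ : EV n → M) (z : EV n) : EV n →L[ℝ] EV n := mfderiv 𝓘(ℝ, EV n) (𝓡 n) ψ z

/-- coordinate expression of a field -/
def crd (ψ : EV n → M) (Y : Π x : M, TangentSpace (𝓡 n) x) : EV n → EV n :=
  mpullback 𝓘(ℝ, EV n) (𝓡 n) ψ Y

theorem smψ_at (h : Par V U ψ φ) {z : EV n} (hz : z ∈ V) :
    ContMDiffAt 𝓘(ℝ, EV n) (𝓡 n) ∞ ψ z :=
  (h.smψ z hz).contMDiffAt (h.oV.mem_nhds hz)

theorem smφ_at (h : Par V U ψ φ) {x : M} (hx : x ∈ U) :
    ContMDiffAt (𝓡 n) 𝓘(ℝ, EV n) ∞ φ x :=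
  (h.smφ x hx).contMDiffAt (h.oU.mem_nhds hx)

theorem comp1 (h : Par V U ψ φ) {z : EV n} (hz : z ∈ V) :
    (Dp φ (ψ z)).comp (Dq ψ z) = ContinuousLinearMap.id ℝ (EV n) := by
  have h1 := (smψ_at h hz).mdifferentiableAt (by simp)
  have h2 := (smφ_at h (h.l z hz).1).mdifferentiableAt (by simp)
  have h3 := mfderiv_comp z h2 h1
  have h4 : (φ ∘ ψ) =ᶠ[𝓝 z] id := by
    filter_upwards [h.oV.mem_nhds hz] with y hy
    exact (h.l y hy).2
  rw [h4.mfderiv_eq, mfderiv_id] at h3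
  exact h3.symm

theorem comp2 (h : Par V U ψ φ) {z : EV n} (hz : z ∈ V) :
    (Dq ψ z).comp (Dp φ (ψ z)) = ContinuousLinearMap.id ℝ (EV n) := by
  have h1 := comp1 h hz
  have h2 : (Dp φ (ψ z)).toLinearMap * (Dq ψ z).toLinearMap = 1 := by
    ext1 v
    exact DFunLike.congr_fun h1 v
  have h3 := mul_eq_one_comm.mp h2
  ext1 v
  exact DFunLike.congr_fun h3 v

theorem inv_ψ (h : Par V U ψ φ) {z : EV n} (hz : z ∈ V) :
    (mfderiv 𝓘(ℝ, EV n) (𝓡 n) ψ z).IsInvertible :=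
  ContinuousLinearMap.IsInvertible.of_inverse (f := Dq ψ z) (g := Dp φ (ψ z)) (comp2 h hz)
    (comp1 h hz)

theorem inv_φ (h : Par V U ψ φ) {x : M} (hx : x ∈ U) :
    (mfderiv (𝓡 n) 𝓘(ℝ, EV n) φ x).IsInvertible := by
  have hz := (h.r x hx).1
  have e1 := comp1 h hz
  have e2 := comp2 h hz
  rw [(h.r x hx).2] at e1 e2
  exact ContinuousLinearMap.IsInvertible.of_inverse (f := Dp φ x) (g := Dq ψ (φ x)) e1 e2

theorem crd_eq (h : Par V U ψ φ) (Y : Π x : M, TangentSpace (𝓡 n) x) {z : EV n} (hz : z ∈ V) :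
    crd ψ Y z = dm φ (ψ z) (Y (ψ z)) := by
  have h1 : (Dq ψ z).inverse = Dp φ (ψ z) :=
    ContinuousLinearMap.inverse_eq (comp2 h hz) (comp1 h hz)
  exact DFunLike.congr_fun h1 (Y (ψ z))

theorem crd_φ (h : Par V U ψ φ) (Y : Π x : M, TangentSpace (𝓡 n) x) {x : M} (hx : x ∈ U) :
    crd ψ Y (φ x) = dm φ x (Y x) := by
  rw [crd_eq h Y (h.r x hx).1]
  exact congrArg (fun y => dm φ y (Y y)) (h.r x hx).2

theorem crd_smooth (h : Par V U ψ φ) {Y : Π x : M, TangentSpace (𝓡 n) x}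
    (hY : SmF Y) {z : EV n} (hz : z ∈ V) : ContDiffAt ℝ ∞ (crd ψ Y) z := by
  have h1 := ContMDiffAt.mpullback_vectorField_preimage (V := Y) (m := ∞) (n := ∞)
    (hY (ψ z)) (smψ_at h hz) (inv_ψ h hz) (by simp)
  exact contMDiffAt_vectorSpace_iff_contDiffAt.mp h1

theorem crd_br (h : Par V U ψ φ) {Y Z : Π x : M, TangentSpace (𝓡 n) x}
    (hY : SmF Y) (hZ : SmF Z) {z : EV n} (hz : z ∈ V) :
    crd ψ (mlieBracket (𝓡 n) Y Z) z =
      fderiv ℝ (crd ψ Z) z (crd ψ Y z) - fderiv ℝ (crd ψ Y) z (crd ψ Z z) := by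
  have hM : IsManifold (𝓡 n) (minSmoothness ℝ 2) M := by
    rw [minSmoothness_of_isRCLikeNormedField]
    exact IsManifold.of_le (n := ∞) two_le
  have h1 := mpullback_mlieBracket (I := 𝓘(ℝ, EV n)) (I' := 𝓡 n) (f := ψ) (V := Y) (W := Z)
    (x₀ := z) ((hY (ψ z)).mdifferentiableAt (by simp)) ((hZ (ψ z)).mdifferentiableAt (by simp))
    (smψ_at h hz) (by
      rw [minSmoothness_of_isRCLikeNormedField]
      exact two_le)
  have h2 : mlieBracket 𝓘(ℝ, EV n) (mpullback 𝓘(ℝ, EV n) (𝓡 n) ψ Y)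
      (mpullback 𝓘(ℝ, EV n) (𝓡 n) ψ Z) z = lieBracket ℝ (crd ψ Y) (crd ψ Z) z := by
    have h3 := congrFun (mlieBracketWithin_eq_lieBracketWithin (𝕜 := ℝ) (E := EV n)
      (V := mpullback 𝓘(ℝ, EV n) (𝓡 n) ψ Y) (W := mpullback 𝓘(ℝ, EV n) (𝓡 n) ψ Z)
      (s := Set.univ)) z
    rw [mlieBracketWithin_univ] at h3
    rw [h3]
    exact congrFun (lieBracketWithin_univ (𝕜 := ℝ) (V := crd ψ Y) (W := crd ψ Z)) z
  exact h1.trans h2

/-- the coordinate field -/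
def cf (φ : M → EV n) (w : EV n) : Π x : M, TangentSpace (𝓡 n) x :=
  mpullback (𝓡 n) 𝓘(ℝ, EV n) φ (fun _ => w)

theorem cf_eq (h : Par V U ψ φ) (w : EV n) {x : M} (hx : x ∈ U) :
    cf φ w x = Dq ψ (φ x) w := by
  have hz := (h.r x hx).1
  have e1 := comp1 h hz
  have e2 := comp2 h hz
  rw [(h.r x hx).2] at e1 e2
  have h1 : (Dp φ x).inverse = Dq ψ (φ x) := ContinuousLinearMap.inverse_eq e1 e2
  exact DFunLike.congr_fun h1 w

theorem dm_cf (h : Par V U ψ φ) (w : EV n) {x : M} (hx : x ∈ U) : dm φ x (cf φ w x) = w := by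
  have hz := (h.r x hx).1
  have e1 := comp1 h hz
  rw [(h.r x hx).2] at e1
  have h1 : cf φ w x = Dq ψ (φ x) w := cf_eq h w hx
  have h2 : dm φ x (cf φ w x) = Dp φ x (Dq ψ (φ x) w) := by
    rw [h1]
    rfl
  rw [h2]
  exact DFunLike.congr_fun e1 w

theorem cf_smooth (h : Par V U ψ φ) (w : EV n) {x : M} (hx : x ∈ U) :
    SmFAt (cf φ w) x := by
  refine ContMDiffAt.mpullback_vectorField_preimage (V := fun _ => w) (m := ∞) (n := ∞)
    ?_ (smφ_at h hx) (inv_φ h hx) (by simp)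
  exact contMDiffAt_vectorSpace_iff_contDiffAt.mpr contDiffAt_const

/-- coordinate fields extended to global smooth fields -/
theorem exists_cf [T2Space M] [CompactSpace M] (h : Par V U ψ φ) (w : EV n) {x : M} (hx : x ∈ U) :
    ∃ Y : Π x : M, TangentSpace (𝓡 n) x, SmF Y ∧ ∀ᶠ y in 𝓝 x, Y y = cf φ w y := by
  classical
  obtain ⟨K, hK1, hK2, hK3⟩ := exists_mem_nhds_isClosed_subset (h.oU.mem_nhds hx)
  let t : ∀ y : M, Set (TangentSpace (𝓡 n) y) := fun y => {u | y ∈ K → u = cf φ w y}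
  obtain ⟨s, hs⟩ := exists_contMDiffSection_forall_mem_convex_of_local (n := (⊤ : ℕ∞)) (𝓡 n)
    (TangentSpace (𝓡 n) : M → Type _) t (by
      intro y a ha b hb c d hc hd hcd hy
      have h1 : a = cf φ w y := ha hy
      have h2 : b = cf φ w y := hb hy
      change c • a + d • b = cf φ w y
      rw [h1, h2, ← add_smul, hcd, one_smul]) (by
      intro x0
      by_cases hx0 : x0 ∈ K
      · refine ⟨U, h.oU.mem_nhds (hK3 hx0), cf φ w, ?_, fun y _ _ => rfl⟩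
        intro y hy
        exact (cf_smooth h w hy).contMDiffWithinAt
      · refine ⟨Kᶜ, hK2.isOpen_compl.mem_nhds hx0, fun y => 0, ?_, ?_⟩
        · exact (contMDiff_zeroSection ℝ (TangentSpace (𝓡 n) : M → Type _)).contMDiffOn
        · intro y hy hy'
          exact absurd hy' hy)
  refine ⟨s, s.contMDiff, ?_⟩
  filter_upwards [hK1] with y hy
  exact hs y hy

/-- smoothness of compositions with the chart -/
theorem comp_φ_smooth (h : Par V U ψ φ) {O : Set M} (hOU : O ⊆ U)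
    {F : EV n → ℝ} (hF : ContDiffOn ℝ ∞ F (φ '' O)) :
    ContMDiffOn (𝓡 n) 𝓘(ℝ, ℝ) ∞ (fun x => F (φ x)) O := by
  have h1 : ContMDiffOn 𝓘(ℝ, EV n) 𝓘(ℝ, ℝ) ∞ F (φ '' O) := hF.contMDiffOn
  exact h1.comp (h.smφ.mono hOU) (fun x hx => ⟨x, hx, rfl⟩)

theorem image_eq (h : Par V U ψ φ) {O : Set M} (hOU : O ⊆ U) : φ '' O = V ∩ ψ ⁻¹' O := by
  ext z
  constructor
  · rintro ⟨x, hx, rfl⟩
    refine ⟨(h.r x (hOU hx)).1, ?_⟩
    show ψ (φ x) ∈ O
    rw [(h.r x (hOU hx)).2]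
    exact hx
  · rintro ⟨hz, hz'⟩
    exact ⟨ψ z, hz', (h.l z hz).2⟩

theorem open_image (h : Par V U ψ φ) {O : Set M} (hO : IsOpen O) (hOU : O ⊆ U) :
    IsOpen (φ '' O) := by
  rw [image_eq h hOU]
  exact h.smψ.continuousOn.isOpen_inter_preimage h.oV hO

theorem comp_ψ_smooth (h : Par V U ψ φ) {O : Set M} (hOU : O ⊆ U)
    {F : M → ℝ} (hF : ContMDiffOn (𝓡 n) 𝓘(ℝ, ℝ) ∞ F O) :
    ContDiffOn ℝ ∞ (fun z => F (ψ z)) (φ '' O) := by
  rw [← contMDiffOn_iff_contDiffOn, image_eq h hOU]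
  exact hF.comp (h.smψ.mono Set.inter_subset_left) (fun z hz => hz.2)

/-- derivative of a function in coordinates -/
theorem der_comp (h : Par V U ψ φ) {F : EV n → ℝ} {x : M} (hx : x ∈ U)
    (hF : DifferentiableAt ℝ F (φ x)) {G : M → ℝ} (hG : G =ᶠ[𝓝 x] fun y => F (φ y))
    (v : TangentSpace (𝓡 n) x) :
    mvfderiv (𝓡 n) G x v = fderiv ℝ F (φ x) (dm φ x v) := by
  have h1 : MDifferentiableAt 𝓘(ℝ, EV n) 𝓘(ℝ, ℝ) F (φ x) := hF.mdifferentiableAt
  have h2 := (smφ_at h hx).mdifferentiableAt (by simp)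
  have h3 := mfderiv_comp x h1 h2
  have h4 : mfderiv (𝓡 n) 𝓘(ℝ, ℝ) G x = mfderiv (𝓡 n) 𝓘(ℝ, ℝ) (F ∘ φ) x := hG.mfderiv_eq
  have h5 : mfderiv 𝓘(ℝ, EV n) 𝓘(ℝ, ℝ) F (φ x) = fderiv ℝ F (φ x) := mfderiv_eq_fderiv
  have h6 : mvfderiv (𝓡 n) G x v = mfderiv (𝓡 n) 𝓘(ℝ, ℝ) G x v := rfl
  rw [h6, h4, h3, h5]
  rfl

/-! ### algebra -/

theorem alt_swap (A : EV n [⋀^Fin 2]→ₗ[ℝ] ℝ) (v w : EV n) : A ![v, w] = -A ![w, v] := by
  have h1 := A.map_swap ![w, v] (i := 0) (j := 1) (by decide)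
  have h2 : (![w, v] ∘ Equiv.swap (0 : Fin 2) 1 : Fin 2 → EV n) = ![v, w] := by
    funext k
    fin_cases k
    · rfl
    · rfl
  rw [h2] at h1
  exact h1

theorem exists_bil (A : EV n [⋀^Fin 2]→ₗ[ℝ] ℝ) (D : EV n →L[ℝ] EV n) :
    ∃ B : EV n →L[ℝ] EV n →L[ℝ] ℝ, ∀ v w, B v w = A ![D v, D w] := by
  let L : EV n →ₗ[ℝ] EV n →ₗ[ℝ] ℝ := LinearMap.mk₂ ℝ (fun v w => A ![D v, D w])
    (by
      intro v v' w
      rw [map_add]
      exact A.map_vecCons_add _ _ _)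
    (by
      intro c v w
      rw [map_smul]
      exact A.map_vecCons_smul _ _ _)
    (by
      intro v w w'
      rw [map_add, alt_swap, alt_swap A (D v) (D w), alt_swap A (D v) (D w')]
      have h1 : A ![D w + D w', D v] = A ![D w, D v] + A ![D w', D v] :=
        A.map_vecCons_add _ _ _
      rw [h1]
      ring)
    (by
      intro c v w
      rw [map_smul, alt_swap, alt_swap A (D v) (D w)]
      have h1 : A ![c • D w, D v] = c • A ![D w, D v] := A.map_vecCons_smul _ _ _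
      rw [h1, smul_neg])
  refine ⟨LinearMap.toContinuousLinearMap
    ((LinearMap.toContinuousLinearMap : (EV n →ₗ[ℝ] ℝ) ≃ₗ[ℝ] (EV n →L[ℝ] ℝ)).toLinearMap ∘ₗ L),
    fun v w => rfl⟩

theorem exists_alt (B : EV n →L[ℝ] EV n →L[ℝ] ℝ) (hB : ∀ v, B v v = 0) (D : EV n →L[ℝ] EV n) :
    ∃ A : EV n [⋀^Fin 2]→ₗ[ℝ] ℝ, ∀ v, A v = B (D (v 0)) (D (v 1)) := by
  refine ⟨{ toFun := fun v => B (D (v 0)) (D (v 1))
            map_update_add' := ?_
            map_update_smul' := ?_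
            map_eq_zero_of_eq' := ?_ }, fun v => rfl⟩
  · intro _ m i x y
    fin_cases i
    · simp
    · simp
  · intro _ m i c x
    fin_cases i
    · simp
    · simp
  · intro v i j hv hij
    have h01 : v 0 = v 1 := by
      fin_cases i <;> fin_cases j
      · exact absurd rfl hij
      · exact hv
      · exact hv.symm
      · exact absurd rfl hij
    rw [h01]
    exact hB _

theorem bil_swap {B : EV n →L[ℝ] EV n →L[ℝ] ℝ} (hB : ∀ v, B v v = 0) (v w : EV n) :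
    B v w = -B w v := by
  have h1 := hB (v + w)
  simp only [map_add, add_apply] at h1
  rw [hB v, hB w] at h1
  linarith

theorem fderiv_F {b : EV n → EV n →L[ℝ] EV n →L[ℝ] ℝ} {p q : EV n → EV n} {z : EV n}
    (hb : DifferentiableAt ℝ b z) (hp : DifferentiableAt ℝ p z) (hq : DifferentiableAt ℝ q z)
    (u : EV n) : fderiv ℝ (fun z => b z (p z) (q z)) z u =
      fderiv ℝ b z u (p z) (q z) + b z (fderiv ℝ p z u) (q z) + b z (p z) (fderiv ℝ q z u) := by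
  have h1 := (hb.hasFDerivAt.clm_apply hp.hasFDerivAt).clm_apply hq.hasFDerivAt
  rw [h1.fderiv]
  simp only [add_apply, ContinuousLinearMap.coe_comp, Function.comp_apply,
    ContinuousLinearMap.flip_apply]
  ring

theorem fderiv_swap {b : EV n → EV n →L[ℝ] EV n →L[ℝ] ℝ} (hb0 : ∀ y v, b y v v = 0) {z : EV n}
    (hb : DifferentiableAt ℝ b z) (u v w : EV n) :
    fderiv ℝ b z u v w = -fderiv ℝ b z u w v := by
  refine bil_swap (B := fderiv ℝ b z u) (fun v => ?_) v w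
  have h1 := fderiv_F (p := fun _ => v) (q := fun _ => v) hb (differentiableAt_const v)
    (differentiableAt_const v) u
  have h2 : (fun z => b z v v) = fun _ => (0 : ℝ) := by
    funext y
    exact hb0 y v
  rw [h2] at h1
  simp only [fderiv_fun_const, Pi.zero_apply, zero_apply, map_zero, add_zero] at h1
  exact h1.symm

theorem β_congr (β : DF (𝓡 n) M 2) {z x : M} (hz : z = x) (u : Fin 2 → EV n) :
    β z u = β x u := by
  subst hz
  rfl

/-! ### T3 -/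

theorem t3_fwd [T2Space M] [CompactSpace M] (h : Par V U ψ φ) {O : Set M} (hO : IsOpen O)
    (hOU : O ⊆ U) {β : DF (𝓡 n) M 2} (hβ : IsFormOn O β) :
    ∃ b : EV n → EV n →L[ℝ] EV n →L[ℝ] ℝ, ContDiffOn ℝ ∞ b (φ '' O) ∧
      (∀ y v, b y v v = 0) ∧ Co2 φ O β b := by
  classical
  have key : ∀ y : EV n, ∃ B : EV n →L[ℝ] EV n →L[ℝ] ℝ,
      (y ∈ φ '' O → ∀ v w : EV n, B v w = β (ψ y) (fun k => Dq ψ y (![v, w] k))) ∧
        ∀ v, B v v = 0 := by
    intro y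
    by_cases hy : y ∈ φ '' O
    · have hy' := hy
      rw [image_eq h hOU] at hy'
      obtain ⟨A, hA⟩ := hβ.1 (ψ y) hy'.2
      obtain ⟨B, hB⟩ := exists_bil (show EV n [⋀^Fin 2]→ₗ[ℝ] ℝ from A) (Dq ψ y)
      refine ⟨B, fun _ v w => ?_, fun v => ?_⟩
      · rw [hB]
        have h1 : (fun k => Dq ψ y (![v, w] k)) = ![Dq ψ y v, Dq ψ y w] := by
          funext k
          fin_cases k
          · rfl
          · rfl
        rw [h1]
        exact (hA ![Dq ψ y v, Dq ψ y w]).symm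
      · rw [hB]
        exact AlternatingMap.map_eq_zero_of_eq (show EV n [⋀^Fin 2]→ₗ[ℝ] ℝ from A)
          (![Dq ψ y v, Dq ψ y v]) (i := 0) (j := 1) rfl (by decide)
    · exact ⟨0, fun hy' => absurd hy' hy, fun v => rfl⟩
  choose b hb1 hb0 using key
  refine ⟨b, ?_, hb0, ?_⟩
  · rw [contDiffOn_clm_apply]
    intro v
    rw [contDiffOn_clm_apply]
    intro w
    rintro _ ⟨x0, hx0, rfl⟩
    obtain ⟨Yv, hYv, hv⟩ := exists_cf h v (hOU hx0)
    obtain ⟨Yw, hYw, hw⟩ := exists_cf h w (hOU hx0)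
    have h1 := hβ.2 (fun k x => if k = 0 then Yv x else Yw x) (by
      intro k
      fin_cases k
      · exact hYv
      · exact hYw)
    have h2 := comp_ψ_smooth h hOU h1
    have hop := open_image h hO hOU
    have hmem : φ x0 ∈ φ '' O := ⟨x0, hx0, rfl⟩
    have hz := (h.r x0 (hOU hx0)).1
    have h3 := h2.contDiffAt (hop.mem_nhds hmem)
    have hψ : Tendsto ψ (𝓝 (φ x0)) (𝓝 x0) := by
      have h4 := (smψ_at h hz).continuousAt
      have h5 : ψ (φ x0) = x0 := (h.r x0 (hOU hx0)).2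
      have h6 : Tendsto ψ (𝓝 (φ x0)) (𝓝 (ψ (φ x0))) := h4
      rw [h5] at h6
      exact h6
    have h4 : (fun y => b y v w) =ᶠ[𝓝 (φ x0)] fun z => β (ψ z)
        (fun i => (fun (k : Fin 2) x => if k = 0 then Yv x else Yw x) i (ψ z)) := by
      filter_upwards [hop.mem_nhds hmem, hψ.eventually hv, hψ.eventually hw] with y hy hyv hyw
      rw [hb1 y hy v w]
      have hyV : y ∈ V ∩ ψ ⁻¹' O := by rw [← image_eq h hOU]; exact hy
      have hyU : ψ y ∈ U := hOU hyV.2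
      have hφψ : φ (ψ y) = y := (h.l y hyV.1).2
      have e1 : Yv (ψ y) = Dq ψ y v := by
        rw [hyv]
        have := cf_eq h v hyU
        rw [hφψ] at this
        exact this
      have e2 : Yw (ψ y) = Dq ψ y w := by
        rw [hyw]
        have := cf_eq h w hyU
        rw [hφψ] at this
        exact this
      congr 1
      funext k
      fin_cases k
      · exact e1.symm
      · exact e2.symm
    exact (h3.congr_of_eventuallyEq h4).contDiffWithinAt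
  · intro x hx v
    have hz := (h.r x (hOU hx)).1
    have hxx := (h.r x (hOU hx)).2
    rw [hb1 (φ x) ⟨x, hx, rfl⟩]
    have e2 := comp2 h hz
    rw [hxx] at e2
    have e3 : (fun k => Dq ψ (φ x) (![dm φ x (v 0), dm φ x (v 1)] k)) = v := by
      funext k
      fin_cases k
      · exact DFunLike.congr_fun e2 (v 0)
      · exact DFunLike.congr_fun e2 (v 1)
    rw [β_congr β hxx, e3]

theorem t3_bwd (h : Par V U ψ φ) {O : Set M} (hOU : O ⊆ U) {β : DF (𝓡 n) M 2}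
    {b : EV n → EV n →L[ℝ] EV n →L[ℝ] ℝ} (hb : ContDiffOn ℝ ∞ b (φ '' O))
    (hb0 : ∀ y v, b y v v = 0) (hc : Co2 φ O β b) : IsFormOn O β := by
  refine ⟨fun x hx => ?_, fun Y hY => ?_⟩
  · obtain ⟨A, hA⟩ := exists_alt (b (φ x)) (hb0 (φ x)) (Dp φ x)
    refine ⟨(show (TangentSpace (𝓡 n) x) [⋀^Fin 2]→ₗ[ℝ] ℝ from A), fun v => ?_⟩
    rw [hc x hx v]
    exact (hA v).symm
  · have hs : ∀ i, ContDiffOn ℝ ∞ (crd ψ (Y i)) (φ '' O) := by
      intro i z hz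
      rw [image_eq h hOU] at hz
      exact (crd_smooth h (hY i) hz.1).contDiffWithinAt
    have h1 : ContDiffOn ℝ ∞ (fun z => b z (crd ψ (Y 0) z) (crd ψ (Y 1) z)) (φ '' O) :=
      (hb.clm_apply (hs 0)).clm_apply (hs 1)
    refine (comp_φ_smooth h hOU h1).congr ?_
    intro x hx
    rw [hc x hx, crd_φ h (Y 0) (hOU hx), crd_φ h (Y 1) (hOU hx)]

/-! ### T4 -/

theorem val (h : Par V U ψ φ) {O : Set M} (hOU : O ⊆ U) {β : DF (𝓡 n) M 2}
    {b : EV n → EV n →L[ℝ] EV n →L[ℝ] ℝ} (hc : Co2 φ O β b)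
    (A B : Π x : M, TangentSpace (𝓡 n) x) {x : M} (hx : x ∈ O) (v : Fin 2 → TangentSpace (𝓡 n) x)
    (h0 : v 0 = A x) (h1 : v 1 = B x) :
    β x v = b (φ x) (crd ψ A (φ x)) (crd ψ B (φ x)) := by
  rw [hc x hx v, h0, h1, crd_φ h A (hOU hx), crd_φ h B (hOU hx)]

theorem dval (h : Par V U ψ φ) {O : Set M} (hO : IsOpen O) (hOU : O ⊆ U) {β : DF (𝓡 n) M 2}
    {b : EV n → EV n →L[ℝ] EV n →L[ℝ] ℝ} (hb : ContDiffOn ℝ ∞ b (φ '' O)) (hc : Co2 φ O β b)
    {A B C : Π x : M, TangentSpace (𝓡 n) x} (hA : SmF A) (hB : SmF B) {x : M} (hx : x ∈ O)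
    (w : Π y : M, Fin 2 → TangentSpace (𝓡 n) y) (h0 : ∀ y, w y 0 = A y) (h1 : ∀ y, w y 1 = B y) :
    mvfderiv (𝓡 n) (fun y => β y (w y)) x (C x) =
      fderiv ℝ b (φ x) (crd ψ C (φ x)) (crd ψ A (φ x)) (crd ψ B (φ x)) +
        b (φ x) (fderiv ℝ (crd ψ A) (φ x) (crd ψ C (φ x))) (crd ψ B (φ x)) +
        b (φ x) (crd ψ A (φ x)) (fderiv ℝ (crd ψ B) (φ x) (crd ψ C (φ x))) := by
  have hz := (h.r x (hOU hx)).1
  have hop := open_image h hO hOU
  have hb1 : DifferentiableAt ℝ b (φ x) :=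
    (hb.contDiffAt (hop.mem_nhds ⟨x, hx, rfl⟩)).differentiableAt (by simp)
  have hA1 : DifferentiableAt ℝ (crd ψ A) (φ x) := (crd_smooth h hA hz).differentiableAt (by simp)
  have hB1 : DifferentiableAt ℝ (crd ψ B) (φ x) := (crd_smooth h hB hz).differentiableAt (by simp)
  have h2 : (fun y => β y (w y)) =ᶠ[𝓝 x] fun y =>
      (fun z => b z (crd ψ A z) (crd ψ B z)) (φ y) := by
    filter_upwards [hO.mem_nhds hx] with y hy
    exact val h hOU hc A B hy (w y) (h0 y) (h1 y)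
  have h3 : DifferentiableAt ℝ (fun z => b z (crd ψ A z) (crd ψ B z)) (φ x) :=
    (hb1.clm_apply hA1).clm_apply hB1
  rw [der_comp h (hOU hx) h3 h2, ← crd_φ h C (hOU hx)]
  exact fderiv_F hb1 hA1 hB1 _

theorem t4_eq (h : Par V U ψ φ) {O : Set M} (hO : IsOpen O) (hOU : O ⊆ U) {β : DF (𝓡 n) M 2}
    {b : EV n → EV n →L[ℝ] EV n →L[ℝ] ℝ} (hb : ContDiffOn ℝ ∞ b (φ '' O))
    (hb0 : ∀ y v, b y v v = 0) (hc : Co2 φ O β b)
    {Y : Fin (2 + 1) → Π x : M, TangentSpace (𝓡 n) x} (hY : ∀ i, SmF (Y i)) {x : M} (hx : x ∈ O) :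
    (∑ j : Fin (2 + 1), (-1 : ℝ) ^ (j : ℕ) *
      (mvfderiv (𝓡 n) (fun y => β y (fun k => j.removeNth Y k y)) x (Y j x) +
        ∑ i : Fin 2, if (i : ℕ) < (j : ℕ) then
          β x (Function.update (fun k => j.removeNth Y k x) i
            (mlieBracket (𝓡 n) (Y i.castSucc) (Y j) x)) else 0)) =
    fderiv ℝ b (φ x) (crd ψ (Y 0) (φ x)) (crd ψ (Y 1) (φ x)) (crd ψ (Y 2) (φ x)) +
    fderiv ℝ b (φ x) (crd ψ (Y 1) (φ x)) (crd ψ (Y 2) (φ x)) (crd ψ (Y 0) (φ x)) +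
    fderiv ℝ b (φ x) (crd ψ (Y 2) (φ x)) (crd ψ (Y 0) (φ x)) (crd ψ (Y 1) (φ x)) := by
  have hz := (h.r x (hOU hx)).1
  have hop := open_image h hO hOU
  have hb1 : DifferentiableAt ℝ b (φ x) :=
    (hb.contDiffAt (hop.mem_nhds ⟨x, hx, rfl⟩)).differentiableAt (by simp)
  have d0 := dval h hO hOU hb hc (C := Y 0) (hY 1) (hY 2) hx
    (fun y k => (0 : Fin 3).removeNth Y k y) (fun _ => rfl) (fun _ => rfl)
  have d1 := dval h hO hOU hb hc (C := Y 1) (hY 0) (hY 2) hx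
    (fun y k => (1 : Fin 3).removeNth Y k y) (fun _ => rfl) (fun _ => rfl)
  have d2 := dval h hO hOU hb hc (C := Y 2) (hY 0) (hY 1) hx
    (fun y k => (2 : Fin 3).removeNth Y k y) (fun _ => rfl) (fun _ => rfl)
  have v1 := val h hOU hc (mlieBracket (𝓡 n) (Y 0) (Y 1)) (Y 2) hx
    (Function.update (fun k => (1 : Fin 3).removeNth Y k x) (0 : Fin 2)
      (mlieBracket (𝓡 n) (Y 0) (Y 1) x)) rfl rfl
  have v2 := val h hOU hc (mlieBracket (𝓡 n) (Y 0) (Y 2)) (Y 1) hx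
    (Function.update (fun k => (2 : Fin 3).removeNth Y k x) (0 : Fin 2)
      (mlieBracket (𝓡 n) (Y 0) (Y 2) x)) rfl rfl
  have v3 := val h hOU hc (Y 0) (mlieBracket (𝓡 n) (Y 1) (Y 2)) hx
    (Function.update (fun k => (2 : Fin 3).removeNth Y k x) (1 : Fin 2)
      (mlieBracket (𝓡 n) (Y 1) (Y 2) x)) rfl rfl
  rw [crd_br h (hY 0) (hY 1) hz] at v1
  rw [crd_br h (hY 0) (hY 2) hz] at v2
  rw [crd_br h (hY 1) (hY 2) hz] at v3
  rw [Fin.sum_univ_three, Fin.sum_univ_two, Fin.sum_univ_two, Fin.sum_univ_two]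
  have c00 : ¬ (((0 : Fin 2) : ℕ) < ((0 : Fin (2 + 1)) : ℕ)) := by decide
  have c10 : ¬ (((1 : Fin 2) : ℕ) < ((0 : Fin (2 + 1)) : ℕ)) := by decide
  have c01 : (((0 : Fin 2) : ℕ) < ((1 : Fin (2 + 1)) : ℕ)) := by decide
  have c11 : ¬ (((1 : Fin 2) : ℕ) < ((1 : Fin (2 + 1)) : ℕ)) := by decide
  have c02 : (((0 : Fin 2) : ℕ) < ((2 : Fin (2 + 1)) : ℕ)) := by decide
  have c12 : (((1 : Fin 2) : ℕ) < ((2 : Fin (2 + 1)) : ℕ)) := by decide
  rw [if_neg c00, if_neg c10, if_pos c01, if_neg c11, if_pos c02, if_pos c12]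
  have w1 : β x (Function.update (fun k => (1 : Fin (2 + 1)).removeNth Y k x) (0 : Fin 2)
      (mlieBracket (𝓡 n) (Y (0 : Fin 2).castSucc) (Y 1) x)) = _ := v1
  have w2 : β x (Function.update (fun k => (2 : Fin (2 + 1)).removeNth Y k x) (0 : Fin 2)
      (mlieBracket (𝓡 n) (Y (0 : Fin 2).castSucc) (Y 2) x)) = _ := v2
  have w3 : β x (Function.update (fun k => (2 : Fin (2 + 1)).removeNth Y k x) (1 : Fin 2)
      (mlieBracket (𝓡 n) (Y (1 : Fin 2).castSucc) (Y 2) x)) = _ := v3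
  rw [w1, w2, w3, d0, d1, d2]
  have hp0 : (-1 : ℝ) ^ ((0 : Fin (2 + 1)) : ℕ) = 1 := by norm_num
  have hp1 : (-1 : ℝ) ^ ((1 : Fin (2 + 1)) : ℕ) = -1 := by norm_num
  have hp2 : (-1 : ℝ) ^ ((2 : Fin (2 + 1)) : ℕ) = 1 := by norm_num
  rw [hp0, hp1, hp2]
  generalize crd ψ (Y 0) (φ x) = y0
  generalize crd ψ (Y 1) (φ x) = y1
  generalize crd ψ (Y 2) (φ x) = y2
  have s1 := fderiv_swap hb0 hb1 y1 y0 y2
  have s2 := bil_swap (hb0 (φ x)) y1 (fderiv ℝ (crd ψ (Y 2)) (φ x) y0)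
  simp only [map_sub, sub_apply]
  linarith

end chart


end Qt3

/-- T3 -/
theorem s_t3 : S_T3 := by
  intro n M _ _ _ _ _ V U ψ φ h O hO hOU β
  exact ⟨fun hβ => Qt3.t3_fwd h hO hOU hβ, fun b hb hb0 hc => Qt3.t3_bwd h hOU hb hb0 hc⟩

/-- T4 -/
theorem s_t4 : S_T4 := by
  intro n M _ _ _ _ _ V U ψ φ h O hO hOU β b hb hb0 hc
  constructor
  · rintro hD _ ⟨x, hx, rfl⟩ u v w
    obtain ⟨Yu, hYu, hu⟩ := Qt3.exists_cf h u (hOU hx)
    obtain ⟨Yv, hYv, hv⟩ := Qt3.exists_cf h v (hOU hx)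
    obtain ⟨Yw, hYw, hw⟩ := Qt3.exists_cf h w (hOU hx)
    have hY : ∀ i : Fin (2 + 1), Qt3.SmF ((![Yu, Yv, Yw] : Fin (2 + 1) →
        Π x : M, TangentSpace (𝓡 n) x) i) := by
      intro i
      fin_cases i
      · exact hYu
      · exact hYv
      · exact hYw
    have h1 := hD ![Yu, Yv, Yw] hY x hx
    have h2 := Qt3.t4_eq h hO hOU hb hb0 hc hY hx
    have h3 := h2.symm.trans h1.symm
    have e0 : Qt3.crd ψ Yu (φ x) = u := by
      rw [Qt3.crd_φ h Yu (hOU hx), hu.self_of_nhds, Qt3.dm_cf h u (hOU hx)]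
    have e1 : Qt3.crd ψ Yv (φ x) = v := by
      rw [Qt3.crd_φ h Yv (hOU hx), hv.self_of_nhds, Qt3.dm_cf h v (hOU hx)]
    have e2 : Qt3.crd ψ Yw (φ x) = w := by
      rw [Qt3.crd_φ h Yw (hOU hx), hw.self_of_nhds, Qt3.dm_cf h w (hOU hx)]
    have h4 : fderiv ℝ b (φ x) (Qt3.crd ψ Yu (φ x)) (Qt3.crd ψ Yv (φ x)) (Qt3.crd ψ Yw (φ x)) +
      fderiv ℝ b (φ x) (Qt3.crd ψ Yv (φ x)) (Qt3.crd ψ Yw (φ x)) (Qt3.crd ψ Yu (φ x)) +
      fderiv ℝ b (φ x) (Qt3.crd ψ Yw (φ x)) (Qt3.crd ψ Yu (φ x)) (Qt3.crd ψ Yv (φ x)) = 0 := h3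
    rw [e0, e1, e2] at h4
    exact h4
  · intro hcl Y hY x hx
    have h2 := Qt3.t4_eq h hO hOU hb hb0 hc hY hx
    have h3 := hcl (φ x) ⟨x, hx, rfl⟩ (Qt3.crd ψ (Y 0) (φ x)) (Qt3.crd ψ (Y 1) (φ x))
      (Qt3.crd ψ (Y 2) (φ x))
    exact (h2.trans h3).symm

end Pool.Agent.H781.CM.Q

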