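import Pool.Agent.H781.CM.QC

/-!
Primitives of 1-forms in a chart (Q-13, by helper967 for helper781).
-/

set_option autoImplicit false

open Bundle Manifold ContDiff VectorField
open scoped Topology ComplexConjugate

noncomputable section

namespace Pool.Agent.H781.CM.Q

open Pool.Agent.H781.CM.F

/-- images of open sets under the coordinate map are open -/
theorem par_image_open {n : ℕ} {M : Type} [TopologicalSpace M] [ChartedSpace (EV n) M]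
    [IsManifold (𝓡 n) ∞ M] {V : Set (EV n)} {U : Set M} {ψ : EV n → M} {φ : M → EV n}
    (h : Par V U ψ φ) {O : Set M} (hO : IsOpen O) (hOU : O ⊆ U) : IsOpen (φ '' O) := by
  have e : φ '' O = V ∩ ψ ⁻¹' O := by
    ext y
    constructor
    · rintro ⟨x, hx, rfl⟩
      have h1 := h.r x (hOU hx)
      refine ⟨h1.1, ?_⟩
      show ψ (φ x) ∈ O
      rw [h1.2]
      exact hx
    · rintro ⟨hy, hy'⟩
      exact ⟨ψ y, hy', (h.l y hy).2⟩
  rw [e]
  exact h.smψ.continuousOn.isOpen_inter_preimage h.oV hO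

theorem s_t5 : S_T5 := by
  intro n M _ _ _ _ _ V U ψ φ h O hO hOU α a hα f hf haf
  have hopen := par_image_open h hO hOU
  have hφ : ContMDiffOn (𝓡 n) 𝓘(ℝ, EV n) ∞ φ O := h.smφ.mono hOU
  have hfm : ContMDiffOn 𝓘(ℝ, EV n) 𝓘(ℝ, ℝ) ∞ f (φ '' O) := hf.contMDiffOn
  refine ⟨hfm.comp hφ (Set.subset_preimage_image φ O), fun x hx v => ?_⟩
  have hyx : φ x ∈ φ '' O := ⟨x, hx, rfl⟩
  have h1 : MDifferentiableAt (𝓡 n) 𝓘(ℝ, EV n) φ x :=
    (hφ.contMDiffAt (hO.mem_nhds hx)).mdifferentiableAt (by simp)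
  have h2 : DifferentiableAt ℝ f (φ x) :=
    (hf.contDiffAt (hopen.mem_nhds hyx)).differentiableAt (by simp)
  have h3 : mfderiv (𝓡 n) 𝓘(ℝ, ℝ) (f ∘ φ) x =
      (mfderiv 𝓘(ℝ, EV n) 𝓘(ℝ, ℝ) f (φ x)).comp (mfderiv (𝓡 n) 𝓘(ℝ, EV n) φ x) :=
    mfderiv_comp x h2.mdifferentiableAt h1
  rw [hα x hx v, haf _ hyx]
  show fderiv ℝ f (φ x) (dm φ x (v 0)) = mfderiv (𝓡 n) 𝓘(ℝ, ℝ) (f ∘ φ) x (v 0)
  rw [h3, mfderiv_eq_fderiv]
  rfl

end Pool.Agent.H781.CM.Q
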