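import Pool.Agent.H781.CM.Q1
import Pool.Agent.H781.CM.QC
import Pool.Agent.H781.CM.QG
import Pool.Agent.H781.CM.Qt1
import Pool.Agent.H781.CM.Qt3
import Pool.Agent.H781.CM.Qt5
import Pool.Agent.H781.CM.Qpat
import Pool.Agent.H781.CM.Qpo2
import Pool.Agent.H781.CM.Qh1a
import Pool.Agent.H781.CM.Qh1b
import Pool.Agent.H781.CM.Qh1d

/-!
Specification of the last part of project Q: the manifold `M`.
-/

set_option autoImplicit false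

open Bundle Manifold ContDiff VectorField
open scoped Topology ComplexConjugate

noncomputable section

namespace Pool.Agent.H781.CM.Q

open Pool.Agent.H781.CM.F

/-- `M` has a metric of nonnegative sectional curvature -/
def S_MSEC : Prop := ∃ g : ContMDiffRiemannianMetric (𝓡 4) ∞ (EuclideanSpace ℝ (Fin 4))
    (fun x : M => TangentSpace (𝓡 4) x), SecGE g 0

/-- the chart `(i, j)` of `M` -/
def cM (i j : Fin 2) (x : M) : EV 4 := ch i j x.1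

/-- `Im(ū du)` in the coordinates `(u, v)` of `U4` -/
def iuL (y : U4) : U4 →L[ℝ] ℝ :=
  y 0 • (EuclideanSpace.proj 1 : U4 →L[ℝ] ℝ) - y 1 • (EuclideanSpace.proj 0 : U4 →L[ℝ] ℝ)

/-- `Im(v̄ dv)` in the coordinates `(u, v)` of `U4` -/
def ivL (y : U4) : U4 →L[ℝ] ℝ :=
  y 2 • (EuclideanSpace.proj 3 : U4 →L[ℝ] ℝ) - y 3 • (EuclideanSpace.proj 2 : U4 →L[ℝ] ℝ)

/-- `0` for `r ≤ 1/2`, `1` for `r ≥ 3/4` -/
def hh (r : ℝ) : ℝ := Real.smoothTransition (4 * r - 2)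

/-- `1` for `r ≤ 1/4`, `0` for `r ≥ 1/2` -/
def kk (r : ℝ) : ℝ := Real.smoothTransition (2 - 4 * r)

/-- `|u|²` -/
def nu (y : U4) : ℝ := y 0 ^ 2 + y 1 ^ 2

/-- `|v|²` -/
def nv (y : U4) : ℝ := y 2 ^ 2 + y 3 ^ 2

/-- local primitives of the two generators (`k = 0`, `k = 1`) in the chart `(i, j)` -/
def lamL (k i j : Fin 2) (y : U4) : U4 →L[ℝ] ℝ :=
  if k = 0 then
    if i = 0 then
      if j = 0 then -(hh (nu y) / nu y * (1 - 2 * nv y)) • iuL y + hh (nu y) • ivL y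
      else (hh (nu y) / nu y * (1 - 2 * nv y)) • iuL y - hh (nu y) • ivL y
    else
      if j = 0 then ((hh (1 - nu y) - 1) / nu y) • iuL y + hh (1 - nu y) • ivL y
      else ((hh (1 - nu y) - 1) / nu y) • iuL y - hh (1 - nu y) • ivL y
  else
    if i = 0 then ((kk (nu y) - 1) / nu y) • iuL y + kk (nu y) • ivL y
    else
      if j = 0 then
        -(kk (1 - nu y) / nu y * (1 - 2 * nv y)) • iuL y + kk (1 - nu y) • ivL y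
      else (kk (1 - nu y) / nu y * (1 - 2 * nv y)) • iuL y + kk (1 - nu y) • ivL y

/-- the 1-form on the chart domain `(i, j)` with the coordinate expression `lamL k i j` -/
def LF (k i j : Fin 2) : DF (𝓡 4) M 1 := fun x v => lamL k i j (cM i j x) (dm (cM i j) x (v 0))

/-- differential of the argument of the function `w : M → ℂ` -/
def dA (w : M → ℂ) : DF (𝓡 4) M 1 := fun x v =>
  dArg (w x) (mfderiv (𝓡 4) 𝓘(ℝ, ℂ) w x (v 0))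

/-- `m = z₂² a b` -/
def wm (x : M) : ℂ := x.1.2.2.1

/-- `q = z₁ z₂ b` -/
def wq (x : M) : ℂ := x.1.2.1.2

/-- `p = z̄₁ z₂ a` -/
def wp (x : M) : ℂ := x.1.2.1.1

/-- `n = z̄₁² a b̄` -/
def wn (x : M) : ℂ := x.1.2.2.2

/-- differences of the local primitives -/
def S_DIFF : Prop :=
  (∀ x ∈ DM 1 0 ∩ DM 1 1, ∀ v, LF 0 1 0 x v - LF 0 1 1 x v = dA wm x v ∧
    LF 1 1 0 x v = LF 1 1 1 x v) ∧
  (∀ x ∈ DM 0 1 ∩ DM 1 1, ∀ v, LF 0 0 1 x v - LF 0 1 1 x v = dA wq x v ∧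
    LF 1 0 1 x v - LF 1 1 1 x v = - dA wq x v) ∧
  (∀ x ∈ DM 0 0 ∩ DM 0 1, ∀ v, LF 0 0 0 x v = LF 0 0 1 x v ∧
    LF 1 0 0 x v - LF 1 0 1 x v = - dA wn x v) ∧
  (∀ x ∈ DM 0 0 ∩ DM 1 0, ∀ v, LF 0 0 0 x v - LF 0 1 0 x v = - dA wp x v ∧
    LF 1 0 0 x v - LF 1 1 0 x v = - dA wp x v)

/-- the two generators of the second cohomology -/
def S_ETA : Prop := ∃ η : Fin 2 → DF (𝓡 4) M 2, ∀ k, IsClosedForm (η k) ∧
  ∀ i j, IsFormOn (DM i j) (LF k i j) ∧ IsDOn (DM i j) (LF k i j) (η k)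

/-- sign of the orientation of the chart `(i, j)` -/
def sgn (i j : Fin 2) : ℝ := if i = 1 ∧ j = 1 then 4 else -4

/-- the orientation of `M` -/
def S_OM : Prop := ∃ Ω : DF (𝓡 4) M 4, IsForm Ω ∧ ∀ i j, ∀ x ∈ DM i j,
  ∀ v : Fin 4 → TangentSpace (𝓡 4) x,
    Ω x v = sgn i j * (Matrix.of fun a b : Fin 4 => dm (cM i j) x (v a) b).det

/-- the wedge products of the generators -/
def S_WED : Prop := ∀ (η : Fin 2 → DF (𝓡 4) M 2) (Ω : DF (𝓡 4) M 4),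
  (∀ k i j, IsDOn (DM i j) (LF k i j) (η k)) →
  (∀ i j, ∀ x ∈ DM i j, ∀ v : Fin 4 → TangentSpace (𝓡 4) x,
    Ω x v = sgn i j * (Matrix.of fun a b : Fin 4 => dm (cM i j) x (v a) b).det) →
  (∀ x v, wedge22 (η 0) (η 0) x v = 2 * hh (rr x.1) * deriv hh (rr x.1) * Ω x v) ∧
  (∀ x v, wedge22 (η 1) (η 1) x v = -(2 * kk (rr x.1) * deriv kk (rr x.1)) * Ω x v) ∧
  (∀ x v, wedge22 (η 0) (η 1) x v = 0) ∧ (∀ x, ∃ v, Ω x v ≠ 0)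

/-- the first cohomology of `M` vanishes -/
def S_H1M : Prop := ∀ α : DF (𝓡 4) M 1, IsClosedForm α → IsExactForm 1 α

/-- the second cohomology of `M` -/
def S_H2M : Prop := ∀ η : Fin 2 → DF (𝓡 4) M 2, (∀ k, IsClosedForm (η k) ∧
    ∀ i j, IsFormOn (DM i j) (LF k i j) ∧ IsDOn (DM i j) (LF k i j) (η k)) →
  ∀ β : DF (𝓡 4) M 2, IsClosedForm β → ∃ s t : ℝ,
    IsExactForm 2 (fun x v => β x v - s * η 0 x v - t * η 1 x v)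

/-- the charts as parametrisations -/
theorem parM (i j : Fin 2) : Par BD (DM i j) (psM i j) (cM i j) where
  oV := s_q0.open_BD
  oU := isOpen_DM i j
  smψ := psM_smooth i j
  smφ := chM_smooth i j
  l _ hy := ⟨psM_mem hy, chM_psM hy⟩
  r _ hx := ⟨chM_mem hx, psM_chM hx⟩

/-- local primitives of closed 2-forms -/
def S_LP2 : Prop := ∀ β : DF (𝓡 4) M 2, IsClosedForm β → ∀ i j, ∃ α : DF (𝓡 4) M 1,
  IsFormOn (DM i j) α ∧ IsDOn (DM i j) α β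

/-- closed 1-forms on chart domains and their intersections -/
def S_CLM : Prop :=
  (∀ (i j : Fin 2) (α : DF (𝓡 4) M 1), IsFormOn (DM i j) α →
    IsDOn (DM i j) α (fun _ _ => 0) → ∃ f : M → ℝ, ContMDiffOn (𝓡 4) 𝓘(ℝ, ℝ) ∞ f (DM i j) ∧
    ∀ x ∈ DM i j, ∀ v : Fin 1 → TangentSpace (𝓡 4) x,
      α x v = mvfderiv (𝓡 4) f x (v 0)) ∧
  (∀ α : DF (𝓡 4) M 1, IsFormOn (DM 1 0 ∩ DM 1 1) α →
    IsDOn (DM 1 0 ∩ DM 1 1) α (fun _ _ => 0) → ∃ (c : ℝ) (f : M → ℝ),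
    ContMDiffOn (𝓡 4) 𝓘(ℝ, ℝ) ∞ f (DM 1 0 ∩ DM 1 1) ∧
    ∀ x ∈ DM 1 0 ∩ DM 1 1, ∀ v : Fin 1 → TangentSpace (𝓡 4) x,
      α x v = c * dA wm x v + mvfderiv (𝓡 4) f x (v 0)) ∧
  (∀ α : DF (𝓡 4) M 1, IsFormOn (DM 0 1 ∩ DM 1 1) α →
    IsDOn (DM 0 1 ∩ DM 1 1) α (fun _ _ => 0) → ∃ (c : ℝ) (f : M → ℝ),
    ContMDiffOn (𝓡 4) 𝓘(ℝ, ℝ) ∞ f (DM 0 1 ∩ DM 1 1) ∧
    ∀ x ∈ DM 0 1 ∩ DM 1 1, ∀ v : Fin 1 → TangentSpace (𝓡 4) x,
      α x v = c * dA wq x v + mvfderiv (𝓡 4) f x (v 0)) ∧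
  (∀ α : DF (𝓡 4) M 1, IsFormOn (DM 0 0 ∩ {x : M | 0 < rr x.1 ∨ 0 < ss x.1}) α →
    IsDOn (DM 0 0 ∩ {x : M | 0 < rr x.1 ∨ 0 < ss x.1}) α (fun _ _ => 0) → ∃ f : M → ℝ,
    ContMDiffOn (𝓡 4) 𝓘(ℝ, ℝ) ∞ f (DM 0 0 ∩ {x : M | 0 < rr x.1 ∨ 0 < ss x.1}) ∧
    ∀ x ∈ DM 0 0 ∩ {x : M | 0 < rr x.1 ∨ 0 < ss x.1}, ∀ v : Fin 1 → TangentSpace (𝓡 4) x,
      α x v = mvfderiv (𝓡 4) f x (v 0))

/-- the overlaps of chart domains are connected -/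
def S_CON : Prop := ∀ i j k l : Fin 2, IsPreconnected (DM i j ∩ DM k l) ∧
  ∃ x : M, ∀ i j : Fin 2, x ∈ DM i j

end Pool.Agent.H781.CM.Q
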