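import Pool.Agent.H781.CM.Spec

/-!
The curvature commutes with the projection `P` and is horizontal (statement `S_RMP`).
-/

set_option autoImplicit false
set_option synthInstance.maxHeartbeats 400000
set_option maxHeartbeats 4000000

open MeasureTheory Filter
open scoped Topology ContDiff

noncomputable section

namespace Pool.Agent.H781.CM

open Pool.Agent.H781.NG

namespace Rmp

variable {N : ℕ} {A : Type*} [CommRing A] [Algebra ℝ A] (F : Fr N A)

/-- the matrix of the connection -/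
def Gm (a : Fin N) : Matrix (Fin N) (Fin N) A := Matrix.of fun b c => F.Γ a b c

/-- derivative of a matrix -/
def Em (a : Fin N) (X : Matrix (Fin N) (Fin N) A) : Matrix (Fin N) (Fin N) A := Matrix.of fun b c => F.e a (X b c)

lemma Em_mul (a : Fin N) (X Y : Matrix (Fin N) (Fin N) A) : Em F a (X * Y) = Em F a X * Y + X * Em F a Y := by
  ext b c
  simp only [Em, Matrix.of_apply, Matrix.mul_apply, Matrix.add_apply, map_sum, Derivation.leibniz, smul_eq_mul]
  rw [← Finset.sum_add_distrib]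
  exact Finset.sum_congr rfl fun d _ => by ring

lemma Em_sub (a : Fin N) (X Y : Matrix (Fin N) (Fin N) A) : Em F a (X - Y) = Em F a X - Em F a Y := by
  ext b c
  simp [Em]

/-- the matrix of the curvature -/
lemma Rm_mat (a b : Fin N) : (Matrix.of fun c d => Rm F a b c d) =
    Em F a (Gm F b) - Em F b (Gm F a) + (Gm F b * Gm F a - Gm F a * Gm F b)
      - ∑ f, (F.Γ a b f - F.Γ b a f) • Gm F f := by
  ext c d
  simp only [Rm, Em, Gm, Matrix.of_apply, Matrix.mul_apply, Matrix.add_apply, Matrix.sub_apply, Matrix.sum_apply,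
    Matrix.smul_apply, smul_eq_mul, Finset.sum_sub_distrib]

lemma comm_key (P : Matrix (Fin N) (Fin N) A) (hP : ∀ a, Em F a P = Gm F a * P - P * Gm F a) (a b : Fin N) :
    P * (Matrix.of fun c d => Rm F a b c d) = (Matrix.of fun c d => Rm F a b c d) * P := by
  have h1 : Em F a (Em F b P) - Em F b (Em F a P) = ∑ f, (F.Γ a b f - F.Γ b a f) • Em F f P := by
    ext c d
    simp only [Em, Matrix.of_apply, Matrix.sub_apply, Matrix.sum_apply, Matrix.smul_apply, smul_eq_mul]
    exact F.tors a b (P c d)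
  have h2 : ∑ f, (F.Γ a b f - F.Γ b a f) • Em F f P =
      (∑ f, (F.Γ a b f - F.Γ b a f) • Gm F f) * P - P * ∑ f, (F.Γ a b f - F.Γ b a f) • Gm F f := by
    rw [Finset.sum_mul, Finset.mul_sum, ← Finset.sum_sub_distrib]
    refine Finset.sum_congr rfl fun f _ => ?_
    rw [hP, smul_sub, Matrix.smul_mul, Matrix.mul_smul]
  rw [h2, hP a, hP b, Em_sub, Em_sub, Em_mul, Em_mul, Em_mul, Em_mul, hP a, hP b] at h1
  rw [Rm_mat]
  rw [← sub_eq_zero] at h1 ⊢
  rw [← neg_eq_zero, ← h1]
  generalize (∑ f, (F.Γ a b f - F.Γ b a f) • Gm F f) = T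
  generalize Em F a (Gm F b) = X
  generalize Em F b (Gm F a) = Y
  generalize Gm F a = G
  generalize Gm F b = H
  noncomm_ring

lemma anti12 (a b c d : Fin N) : Rm F a b c d = - Rm F b a c d := by
  have h1 : ∑ f, (F.Γ b c f * F.Γ a f d - F.Γ a c f * F.Γ b f d) =
      - ∑ f, (F.Γ a c f * F.Γ b f d - F.Γ b c f * F.Γ a f d) := by
    rw [← Finset.sum_neg_distrib]
    exact Finset.sum_congr rfl fun f _ => by ring
  have h2 : ∑ f, (F.Γ a b f - F.Γ b a f) * F.Γ f c d = - ∑ f, (F.Γ b a f - F.Γ a b f) * F.Γ f c d := by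
    rw [← Finset.sum_neg_distrib]
    exact Finset.sum_congr rfl fun f _ => by ring
  simp only [Rm]
  rw [h1, h2]
  ring

lemma anti34 (a b c d : Fin N) : Rm F a b c d = - Rm F a b d c := by
  have h1 : ∑ f, (F.Γ b c f * F.Γ a f d - F.Γ a c f * F.Γ b f d) =
      - ∑ f, (F.Γ b d f * F.Γ a f c - F.Γ a d f * F.Γ b f c) := by
    rw [← Finset.sum_neg_distrib]
    refine Finset.sum_congr rfl fun f _ => ?_
    rw [F.anti b c f, F.anti a f d, F.anti a c f, F.anti b f d]
    ring
  have h2 : ∑ f, (F.Γ a b f - F.Γ b a f) * F.Γ f c d = - ∑ f, (F.Γ a b f - F.Γ b a f) * F.Γ f d c := by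
    rw [← Finset.sum_neg_distrib]
    refine Finset.sum_congr rfl fun f _ => ?_
    rw [F.anti f c d]
    ring
  have h3 : F.e a (F.Γ b c d) = - F.e a (F.Γ b d c) := by rw [F.anti b c d, map_neg]
  have h4 : F.e b (F.Γ a c d) = - F.e b (F.Γ a d c) := by rw [F.anti a c d, map_neg]
  simp only [Rm]
  rw [h1, h2, h3, h4]
  ring

lemma hor_key (P : Fin N → Fin N → A) (Pe : ∀ a f, ∑ b, P a b * F.e b f = F.e a f)
    (PG : ∀ a b c, ∑ d, P a d * F.Γ d b c = F.Γ a b c)
    (Ppar : ∀ a b c, F.e a (P b c) = ∑ d, (F.Γ a b d * P d c + F.Γ a c d * P b d)) (a b c d : Fin N) :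
    ∑ a', P a a' * Rm F a' b c d = Rm F a b c d := by
  -- the derivative of the connection coefficients
  have e1 : F.e b (F.Γ a c d) = ∑ x, P a x * F.e b (F.Γ x c d) + ∑ x, F.e b (P a x) * F.Γ x c d := by
    conv_lhs => rw [← PG a c d]
    rw [map_sum, ← Finset.sum_add_distrib]
    refine Finset.sum_congr rfl fun x _ => ?_
    rw [Derivation.leibniz, smul_eq_mul, smul_eq_mul]
    ring
  have e2 : ∑ x, F.e b (P a x) * F.Γ x c d = ∑ f, F.Γ b a f * F.Γ f c d + ∑ x, ∑ f, P a f * F.Γ b x f * F.Γ x c d := by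
    have : ∀ x, F.e b (P a x) * F.Γ x c d = ∑ f, F.Γ b a f * (P f x * F.Γ x c d) + ∑ f, P a f * F.Γ b x f * F.Γ x c d := by
      intro x
      rw [Ppar, Finset.sum_mul, ← Finset.sum_add_distrib]
      exact Finset.sum_congr rfl fun f _ => by ring
    simp_rw [this]
    rw [Finset.sum_add_distrib]
    congr 1
    rw [Finset.sum_comm]
    refine Finset.sum_congr rfl fun f _ => ?_
    rw [← Finset.mul_sum, PG]
  have e3 : ∑ x, ∑ f, P a f * F.Γ b x f * F.Γ x c d = - ∑ x, ∑ f, P a x * F.Γ b x f * F.Γ f c d := by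
    rw [Finset.sum_comm, ← Finset.sum_neg_distrib]
    refine Finset.sum_congr rfl fun f _ => ?_
    rw [← Finset.sum_neg_distrib]
    refine Finset.sum_congr rfl fun x _ => ?_
    rw [F.anti b x f]
    ring
  have t1 : ∑ x, P a x * ∑ f, (F.Γ b c f * F.Γ x f d - F.Γ x c f * F.Γ b f d) =
      ∑ f, (F.Γ b c f * F.Γ a f d - F.Γ a c f * F.Γ b f d) := by
    simp_rw [Finset.mul_sum]
    rw [Finset.sum_comm]
    refine Finset.sum_congr rfl fun f _ => ?_
    rw [← PG a f d, ← PG a c f, Finset.mul_sum, Finset.sum_mul, ← Finset.sum_sub_distrib]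
    exact Finset.sum_congr rfl fun x _ => by ring
  have t2 : ∑ x, P a x * ∑ f, (F.Γ x b f - F.Γ b x f) * F.Γ f c d =
      ∑ f, F.Γ a b f * F.Γ f c d - ∑ x, ∑ f, P a x * F.Γ b x f * F.Γ f c d := by
    have : ∀ x, P a x * ∑ f, (F.Γ x b f - F.Γ b x f) * F.Γ f c d =
        ∑ f, (P a x * F.Γ x b f) * F.Γ f c d - ∑ f, P a x * F.Γ b x f * F.Γ f c d := by
      intro x
      rw [Finset.mul_sum, ← Finset.sum_sub_distrib]
      exact Finset.sum_congr rfl fun f _ => by ring
    simp_rw [this]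
    rw [Finset.sum_sub_distrib]
    congr 1
    rw [Finset.sum_comm]
    refine Finset.sum_congr rfl fun f _ => ?_
    rw [← Finset.sum_mul, PG]
  have t3 : ∑ f, (F.Γ a b f - F.Γ b a f) * F.Γ f c d = ∑ f, F.Γ a b f * F.Γ f c d - ∑ f, F.Γ b a f * F.Γ f c d := by
    rw [← Finset.sum_sub_distrib]
    exact Finset.sum_congr rfl fun f _ => by ring
  have main : ∑ x, P a x * Rm F x b c d = ∑ x, P a x * F.e x (F.Γ b c d) - ∑ x, P a x * F.e b (F.Γ x c d)
      + ∑ x, P a x * ∑ f, (F.Γ b c f * F.Γ x f d - F.Γ x c f * F.Γ b f d)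
      - ∑ x, P a x * ∑ f, (F.Γ x b f - F.Γ b x f) * F.Γ f c d := by
    rw [← Finset.sum_sub_distrib, ← Finset.sum_add_distrib, ← Finset.sum_sub_distrib]
    refine Finset.sum_congr rfl fun x _ => ?_
    simp only [Rm]
    ring
  rw [main, Pe, t1, t2]
  simp only [Rm]
  rw [e1, e2, e3, t3]
  ring

end Rmp

open Rmp in
theorem s_rmp : S_RMP := by
  intro M _ _ _ _ N C
  refine ⟨?_, ?_, fun a b c d => anti12 C.F a b c d, fun a b c d => anti34 C.F a b c d⟩
  · intro a b c d
    have h := comm_key C.F (Matrix.of fun c d => C.P c d) ?_ a b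
    · have h1 := congrFun (congrFun h c) d
      simp only [Matrix.mul_apply, Matrix.of_apply] at h1
      rw [h1]
      exact Finset.sum_congr rfl fun d' _ => by rw [C.Psymm d' d, mul_comm]
    · intro a
      ext c d
      simp only [Em, Gm, Matrix.of_apply, Matrix.sub_apply, Matrix.mul_apply]
      rw [C.Ppar, ← Finset.sum_sub_distrib]
      refine Finset.sum_congr rfl fun x _ => ?_
      rw [C.F.anti a d x]
      ring
  · intro a b c d
    exact hor_key C.F C.P C.Pe C.PG C.Ppar a b c d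

end Pool.Agent.H781.CM
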