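import Pool.Agent.H781.CM.Spec

/-!
Specification of the abstract part of stage 2: an oriented 4-manifold with `b_1 = 0`, `b_2 = 2` and
definite intersection form has no almost nonnegative curvature operator.
-/

set_option autoImplicit false
set_option synthInstance.maxHeartbeats 400000
set_option maxHeartbeats 4000000

open MeasureTheory Filter
open scoped Topology ContDiff

noncomputable section

namespace Pool.Agent.H781.CM

open Pool.Agent.H781.NG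

/-- horizontal elements for a real projection matrix -/
def HorP {N : ℕ} (P : Fin N → Fin N → ℝ) (u : Fk N ℝ) : Prop :=
  ∀ c, an c u = ∑ a, P c a • an a u

/-- the volume element of a 4-dimensional subspace `im P` of `ℝ^N` -/
def S_LIN4 : Prop := ∀ (N : ℕ) (P : Fin N → Fin N → ℝ), (∀ a b, P a b = P b a) →
  (∀ a c, ∑ b, P a b * P b c = P a c) → ∑ a, P a a = 4 →
  ∀ w : Fk N ℝ, HorP P w → Deg 4 w → ip w w = 1 →
  mulF w w = vac ∧
  (∀ (p : ℕ) (u : Fk N ℝ), p ≤ 4 → HorP P u → Deg p u → Deg (4 - p) (mulF w u)) ∧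
  (∀ (p : ℕ) (u : Fk N ℝ), 4 < p → HorP P u → Deg p u → u = 0) ∧
  ∀ u : Fk N ℝ, HorP P u → Deg 4 u → u = ip u w • w

section

variable {M : Type} [TopologicalSpace M] [CompactSpace M] [MeasurableSpace M] [BorelSpace M]
  {N : ℕ}

/-- harmonic forms of degree `p` -/
def Hm (C : CD M N) (p : ℕ) : Submodule ℝ (Fk N C.A) :=
  HD C p ⊓ LinearMap.ker (ddL C.F) ⊓ LinearMap.ker (deL C.F)

/-- `W` is the volume form of a 4-manifold -/
structure W4 (C : CD M N) (W : Fk N C.A) : Prop where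
  hor : Hor C W
  deg : Deg 4 W
  one : ip W W = 1
  tr : ∑ a, C.P a a = 4

end

/-- Hodge theorem for harmonic forms -/
def S_HARM : Prop := ∀ (M : Type) [TopologicalSpace M] [CompactSpace M] [MeasurableSpace M]
  [BorelSpace M] (N : ℕ) (C : CD M N), Moll C → Dense2 C → Reg C → ∀ p : ℕ,
  Module.Finite ℝ (Hm C p) ∧ Module.finrank ℝ (Hm C p) = bet C p ∧
  (∀ u ∈ Zp C p, ∃ h ∈ Hm C p, u - h ∈ Bp C p) ∧ ∀ h ∈ Hm C p, h ∈ Bp C p → h = 0

/-- Clifford multiplication by the volume form -/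
def S_W4 : Prop := ∀ (M : Type) [TopologicalSpace M] [CompactSpace M] [MeasurableSpace M]
  [BorelSpace M] (N : ℕ) (C : CD M N) (W : Fk N C.A), W4 C W →
  mulF W W = vac ∧ (∀ a, nab C.F a W = 0) ∧
  (∀ (p : ℕ) (u : Fk N C.A), p ≤ 4 → Hor C u → Deg p u → Deg (4 - p) (mulF W u)) ∧
  (∀ (p : ℕ) (u : Fk N C.A), 4 < p → Hor C u → Deg p u → u = 0) ∧
  (∀ u : Fk N C.A, Hor C u → Deg 4 u → u = ip u W • W) ∧
  (∀ u : Fk N C.A, Hor C u → Hor C (mulF W u)) ∧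
  (∀ u v : Fk N C.A, ip (mulF W u) (mulF W v) = ip u v) ∧
  ∀ u : Fk N C.A, DD C (mulF W u) = mulF W (DD C u)

/-- products of (anti-)self-dual forms -/
def S_AB : Prop := ∀ (M : Type) [TopologicalSpace M] [CompactSpace M] [MeasurableSpace M]
  [BorelSpace M] (N : ℕ) (C : CD M N) (W : Fk N C.A), W4 C W → ∀ (l : ℝ) (a b : Fk N C.A),
  l ^ 2 = 1 → Hor C a → Deg 2 a → Hor C b → Deg 2 b → mulF W a = l • a → mulF W b = l • b →
  ip (mulF a b) (mulF a b) = 2 * (ip a a * ip b b) ∧ ip (mulF a b) a = 0 ∧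
  ip (mulF a b) b = 0 ∧
  mulF a b = dpt 0 (mulF a b) + dpt 2 (mulF a b) + dpt 4 (mulF a b) ∧
  ip (dpt 0 (mulF a b)) (dpt 0 (mulF a b)) = ip a b ^ 2 ∧
  ip (dpt 4 (mulF a b)) (dpt 4 (mulF a b)) = ip a b ^ 2

/-- the intersection form -/
def S_STK : Prop := ∀ (M : Type) [TopologicalSpace M] [CompactSpace M] [MeasurableSpace M]
  [BorelSpace M] (N : ℕ) (C : CD M N) (W : Fk N C.A), W4 C W →
  (∀ u v : Fk N C.A, Hor C u → Deg 2 u → Hor C v → Deg 2 v →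
    pr C (mulF u v) W = - pr C u (mulF W v) ∧ pr C (mulF u v) W = pr C (mulF v u) W) ∧
  ∀ a ∈ HD C 1, ∀ v ∈ Zp C 2, pr C (mulF (dd C.F a) v) W = 0

/-- truncated products -/
def S_PROD2 : Prop := ∀ (M : Type) [TopologicalSpace M] [CompactSpace M] [MeasurableSpace M]
  [BorelSpace M] (N : ℕ) (C : CD M N) (τ : ℝ) (u v : Fk N C.A), Hor C u → Hor C v →
  en C u ≤ τ → en C v ≤ τ → ∃ φ ψ : C.A, (∀ p, C.ev p φ = 2 / (1 + C.ev p (ip u u))) ∧
    (∀ p, C.ev p ψ = 2 / (1 + C.ev p (ip v v))) ∧ Hor C (mulF (φ • u) (ψ • v)) ∧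
    nq C (DD C (mulF (φ • u) (ψ • v))) ≤ 36 * N * 2 ^ N * τ

/-- the constant of the Poincaré inequality -/
def KN (N : ℕ) : ℝ := 32 * N / Real.log 2 ^ 2

/-- the eigenvalues up to `t` are small, and there is a gap up to `t'` -/
structure Gap {M : Type} [TopologicalSpace M] [CompactSpace M] [MeasurableSpace M] [BorelSpace M]
    {N : ℕ} (C : CD M N) (δ ε t t' : ℝ) : Prop where
  e0 : 0 ≤ ε
  cv : CurvGE C ε
  mo : Moll C
  de : Dense2 C
  re : Reg C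
  po : Poin C (KN N)
  t0 : 0 < t
  tt : t ≤ t'
  ev : Ev C t' = Ev C t
  s1 : t + ε * N ^ 2 ≤ δ
  s2 : t + ε * N ^ 2 ≤ δ * t'
  v0 : ∀ u ∈ Evp C t 0, ∃ c : ℝ, u = c • (vac : Fk N C.A)
  fr : Module.finrank ℝ (Ev C t) ≤ 2 ^ N

/-- existence of a gap -/
def S_GAPX : Prop := ∀ N : ℕ, 0 < N → ∀ δ : ℝ, 0 < δ → ∃ ε : ℝ, 0 < ε ∧
  ∀ (M : Type) [TopologicalSpace M] [CompactSpace M] [MeasurableSpace M] [BorelSpace M]
    (C : CD M N), CurvGE C ε → Moll C → Dense2 C → Reg C → MaxP C → DiamOne C →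
    ∃ t t' : ℝ, Gap C δ ε t t'

/-- a small eigenform of degree one implies that the alternating sum vanishes -/
def S_ODD : Prop := ∀ N : ℕ, 0 < N → ∃ δ : ℝ, 0 < δ ∧
  ∀ (M : Type) [TopologicalSpace M] [CompactSpace M] [MeasurableSpace M] [BorelSpace M]
    (C : CD M N) (ε t t' : ℝ), Gap C δ ε t t' → ∀ e ∈ Evp C t 1, e ≠ 0 →
    ∑ p ∈ Finset.range (N + 1), (-1 : ℤ) ^ p * (Module.finrank ℝ (Evp C t p) : ℤ) = 0

/-- the product of two self-dual small eigenforms is a third one -/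
def S_TWO : Prop := ∀ N : ℕ, 0 < N → ∃ δ : ℝ, 0 < δ ∧
  ∀ (M : Type) [TopologicalSpace M] [CompactSpace M] [MeasurableSpace M] [BorelSpace M]
    (C : CD M N) (ε t t' : ℝ), Gap C δ ε t t' → ∀ W : Fk N C.A, W4 C W →
    ∀ (l : ℝ) (a b : Fk N C.A), l ^ 2 = 1 → a ∈ Evp C t 2 → b ∈ Evp C t 2 → nq C a = 1 →
    nq C b = 1 → pr C a b = 0 → mulF W a = l • a → mulF W b = l • b →
    ∃ g ∈ Evp C t 2, g ≠ 0 ∧ pr C g a = 0 ∧ pr C g b = 0

/-- the abstract theorem of stage 2 -/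
def S_NO4 : Prop := ∀ N : ℕ, 0 < N → ∃ ε : ℝ, 0 < ε ∧
  ∀ (M : Type) [TopologicalSpace M] [CompactSpace M] [MeasurableSpace M] [BorelSpace M]
    (C : CD M N) (W f₁ f₂ : Fk N C.A), CurvGE C ε → Moll C → Dense2 C → Reg C → MaxP C →
    DiamOne C → W4 C W → (∀ u ∈ Zp C 1, u ∈ Bp C 1) → f₁ ∈ Zp C 2 → f₂ ∈ Zp C 2 →
    (∀ u ∈ Zp C 2, ∃ x y : ℝ, u - x • f₁ - y • f₂ ∈ Bp C 2) → 0 < pr C (mulF f₁ f₁) W →
    0 < pr C (mulF f₂ f₂) W → pr C (mulF f₁ f₂) W = 0 → False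

end Pool.Agent.H781.CM
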