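import Pool.Agent.H781.CM.GSpec
import Pool.Agent.H781.CM.SA
import Pool.Agent.H781.CM.FDefs2
import Pool.Agent.H781.CM.Bri

/-!
Specification of the geometric part of stage 2.
-/

set_option autoImplicit false
set_option synthInstance.maxHeartbeats 400000
set_option maxHeartbeats 4000000
set_option linter.unusedSectionVars false

open Bundle Manifold ContDiff VectorField MeasureTheory Filter
open scoped Topology

noncomputable section

namespace Pool.Agent.H781.CM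

open Pool.Agent.H781.NG Pool.Agent.H821R2 Pool.Agent.H821R3 Pool.Agent.H893R5.HO
  Pool.Agent.H781.S22

/-- the trace of the projection is the dimension -/
def S_GTR : Prop := ∀ (n : ℕ) (M : Type) [TopologicalSpace M] [T2Space M] [CompactSpace M]
  [ChartedSpace (EU n) M] [IsManifold (𝓡 n) ∞ M] [MeasurableSpace M] [BorelSpace M] (N : ℕ)
  (D : GD n M N), 1 ≤ n → ∑ a, D.C.P a a = (n : D.C.A)

/-- the wedge product of two elements of degree two -/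
def S_PHIW : Prop := ∀ (N : ℕ) (u v : Fk N ℝ), Deg 2 u → Deg 2 v → ∀ V : Fin 4 → Fin N → ℝ,
  phi 4 V (mulF u v) =
    phi 2 ![V 0, V 1] u * phi 2 ![V 2, V 3] v - phi 2 ![V 0, V 2] u * phi 2 ![V 1, V 3] v +
    phi 2 ![V 0, V 3] u * phi 2 ![V 1, V 2] v + phi 2 ![V 1, V 2] u * phi 2 ![V 0, V 3] v -
    phi 2 ![V 1, V 3] u * phi 2 ![V 0, V 2] v + phi 2 ![V 2, V 3] u * phi 2 ![V 0, V 1] v

/-- the volume form -/
def S_GW4 : Prop := ∀ (M : Type) [TopologicalSpace M] [T2Space M] [CompactSpace M]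
  [ChartedSpace (EU 4) M] [IsManifold (𝓡 4) ∞ M] [MeasurableSpace M] [BorelSpace M] (N : ℕ)
  (D : GD 4 M N) (Ω : AF 4 M 4), SmF Ω → (∀ x, Ω x ≠ 0) →
  ∃ (W : Fk N D.C.A) (ρ : M → ℝ), W4 D.C W ∧ (∀ x, 0 < ρ x) ∧ Continuous ρ ∧
    ∀ (x : M) (v : Fin 4 → TangentSpace (𝓡 4) x), Ω x v =
      ρ x * phi 4 (fun i a => D.g.inner x (v i) (D.T.X a x)) (fun S => evA x (W S))

/-- an oriented closed 4-manifold with `b_1 = 0`, `b_2 = 2` and definite intersection form does not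
admit almost nonnegative curvature operator -/
def S_NANCO : Prop := ∀ (M : Type) [TopologicalSpace M] [T2Space M] [CompactSpace M]
  [ConnectedSpace M] [ChartedSpace (EU 4) M] [IsManifold (𝓡 4) ∞ M]
  (Ω : F.DF (𝓡 4) M 4) (η₁ η₂ : F.DF (𝓡 4) M 2) (r₁ r₂ : M → ℝ),
  F.IsForm Ω → (∀ x, ∃ v, Ω x v ≠ 0) →
  (∀ α : F.DF (𝓡 4) M 1, F.IsClosedForm α → F.IsExactForm 1 α) →
  F.IsClosedForm η₁ → F.IsClosedForm η₂ →
  (∀ β : F.DF (𝓡 4) M 2, F.IsClosedForm β → ∃ s t : ℝ,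
    F.IsExactForm 2 (fun x v => β x v - s * η₁ x v - t * η₂ x v)) →
  Continuous r₁ → Continuous r₂ → (∀ x, 0 ≤ r₁ x) → (∀ x, 0 ≤ r₂ x) → (∃ x, 0 < r₁ x) →
  (∃ x, 0 < r₂ x) → (∀ x v, F.wedge22 η₁ η₁ x v = r₁ x * Ω x v) →
  (∀ x v, F.wedge22 η₂ η₂ x v = r₂ x * Ω x v) → (∀ x v, F.wedge22 η₁ η₂ x v = 0) →
  ¬ F.AdmitsANCO (𝓡 4) M 4

end Pool.Agent.H781.CM
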