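import Pool.Agent.H781.CM.QM

/-!
The wedge products of the two generators of the second cohomology of `M`.
-/

set_option autoImplicit false

open Bundle Manifold ContDiff VectorField Filter
open scoped Topology ComplexConjugate

noncomputable section

namespace Pool.Agent.H781.CM.Q

open Pool.Agent.H781.CM.F

namespace Wed

/-! ### the cut-off functions -/

theorem hh_smooth : ContDiff ℝ ∞ hh := by
  unfold hh
  exact Real.smoothTransition.contDiff.comp (by fun_prop)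

theorem kk_smooth : ContDiff ℝ ∞ kk := by
  unfold kk
  exact Real.smoothTransition.contDiff.comp (by fun_prop)

theorem hh_zero {r : ℝ} (h : r ≤ 1 / 2) : hh r = 0 :=
  Real.smoothTransition.zero_of_nonpos (by linarith)

theorem hh_one {r : ℝ} (h : 3 / 4 ≤ r) : hh r = 1 :=
  Real.smoothTransition.one_of_one_le (by linarith)

theorem kk_one {r : ℝ} (h : r ≤ 1 / 4) : kk r = 1 :=
  Real.smoothTransition.one_of_one_le (by linarith)

theorem kk_zero {r : ℝ} (h : 1 / 2 ≤ r) : kk r = 0 :=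
  Real.smoothTransition.zero_of_nonpos (by linarith)

theorem dhh_kk (r : ℝ) : deriv hh r * kk r = 0 := by
  rcases lt_or_ge r (1 / 2) with h | h
  · have h1 : hh =ᶠ[𝓝 r] fun _ => 0 := by
      filter_upwards [Iio_mem_nhds h] with t ht using hh_zero (le_of_lt ht)
    rw [h1.deriv_eq, deriv_const, zero_mul]
  · rw [kk_zero h, mul_zero]

theorem hh_dkk (r : ℝ) : hh r * deriv kk r = 0 := by
  rcases le_or_gt r (1 / 2) with h | h
  · rw [hh_zero h, zero_mul]
  · have h1 : kk =ᶠ[𝓝 r] fun _ => 0 := by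
      filter_upwards [Ioi_mem_nhds h] with t ht using kk_zero (le_of_lt ht)
    rw [h1.deriv_eq, deriv_const, mul_zero]

theorem deriv_one_sub {f : ℝ → ℝ} (t : ℝ) :
    deriv (fun s => f (1 - s)) t = - deriv f (1 - t) := deriv_comp_const_sub _ _ _

/-- division by the variable -/
theorem smooth_div {H : ℝ → ℝ} (hH : ContDiff ℝ ∞ H) (h0 : ∀ᶠ t in 𝓝 (0 : ℝ), H t = 0) :
    ContDiff ℝ ∞ (fun t => H t / t) := by
  rw [contDiff_iff_contDiffAt]
  intro t
  by_cases ht : t = 0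
  · subst ht
    refine (contDiffAt_const (c := (0 : ℝ))).congr_of_eventuallyEq ?_
    filter_upwards [h0] with s hs
    rw [hs, zero_div]
  · exact hH.contDiffAt.div contDiffAt_id ht

/-! ### the local primitives in a uniform notation -/

/-- `H` -/
def Hf (k i j : Fin 2) (t : ℝ) : ℝ :=
  if k = 0 then (if i = 0 then (if j = 0 then -hh t else hh t) else hh (1 - t) - 1)
  else (if i = 0 then kk t - 1 else (if j = 0 then -kk (1 - t) else kk (1 - t)))

/-- `G` -/
def Gf (k i j : Fin 2) (t : ℝ) : ℝ :=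
  if k = 0 then
    (if i = 0 then (if j = 0 then hh t else -hh t)
      else (if j = 0 then hh (1 - t) else -hh (1 - t)))
  else (if i = 0 then kk t else kk (1 - t))

/-- the coefficient of `|v|²` -/
def cw (k i : Fin 2) : ℝ := if k = i then -2 else 0

/-- the uniform expression -/
def lam (F G : ℝ → ℝ) (c : ℝ) (y : U4) : U4 →L[ℝ] ℝ :=
  (F (nu y) * (1 + c * nv y)) • iuL y + G (nu y) • ivL y

theorem lamL_eq (k i j : Fin 2) (y : U4) :
    lamL k i j y = lam (fun t => Hf k i j t / t) (Gf k i j) (cw k i) y := by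
  fin_cases k <;> fin_cases i <;> fin_cases j <;> ext v <;>
    simp [lamL, lam, Hf, Gf, cw, -mul_eq_mul_right_iff, -mul_eq_mul_left_iff] <;> ring

theorem Hf_smooth (k i j : Fin 2) : ContDiff ℝ ∞ (Hf k i j) := by
  have h1 := hh_smooth
  have h2 := kk_smooth
  have h3 : ContDiff ℝ ∞ (fun t : ℝ => hh (1 - t)) := h1.comp (by fun_prop)
  have h4 : ContDiff ℝ ∞ (fun t : ℝ => kk (1 - t)) := h2.comp (by fun_prop)
  fin_cases k <;> fin_cases i <;> fin_cases j
  · exact h1.neg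
  · exact h1
  · exact h3.sub contDiff_const
  · exact h3.sub contDiff_const
  · exact h2.sub contDiff_const
  · exact h2.sub contDiff_const
  · exact h4.neg
  · exact h4

theorem Gf_smooth (k i j : Fin 2) : ContDiff ℝ ∞ (Gf k i j) := by
  have h1 := hh_smooth
  have h2 := kk_smooth
  have h3 : ContDiff ℝ ∞ (fun t : ℝ => hh (1 - t)) := h1.comp (by fun_prop)
  have h4 : ContDiff ℝ ∞ (fun t : ℝ => kk (1 - t)) := h2.comp (by fun_prop)
  fin_cases k <;> fin_cases i <;> fin_cases j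
  · exact h1
  · exact h1.neg
  · exact h3
  · exact h3.neg
  · exact h2
  · exact h2
  · exact h4
  · exact h4

theorem Hf_zero (k i j : Fin 2) : ∀ᶠ t in 𝓝 (0 : ℝ), Hf k i j t = 0 := by
  have h0 : ∀ᶠ t in 𝓝 (0 : ℝ), t < 1 / 4 := Iio_mem_nhds (by norm_num)
  filter_upwards [h0] with t ht
  have e1 : hh t = 0 := hh_zero (by linarith)
  have e2 : hh (1 - t) = 1 := hh_one (by linarith)
  have e3 : kk t = 1 := kk_one (by linarith)
  have e4 : kk (1 - t) = 0 := kk_zero (by linarith)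
  fin_cases k <;> fin_cases i <;> fin_cases j <;> simp [Hf, e1, e2, e3, e4]

theorem Ff_smooth (k i j : Fin 2) : ContDiff ℝ ∞ (fun t => Hf k i j t / t) :=
  smooth_div (Hf_smooth k i j) (Hf_zero k i j)

theorem Ff_mul (k i j : Fin 2) (t : ℝ) : t * (Hf k i j t / t) = Hf k i j t := by
  by_cases ht : t = 0
  · subst ht
    rw [zero_mul]
    exact (Hf_zero k i j).self_of_nhds.symm
  · field_simp

/-! ### derivatives -/

/-- `iuL` as a bilinear map -/
def iuB : U4 →L[ℝ] U4 →L[ℝ] ℝ :=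
  (EuclideanSpace.proj 0 : U4 →L[ℝ] ℝ).smulRight (EuclideanSpace.proj 1 : U4 →L[ℝ] ℝ) -
    (EuclideanSpace.proj 1 : U4 →L[ℝ] ℝ).smulRight (EuclideanSpace.proj 0 : U4 →L[ℝ] ℝ)

/-- `ivL` as a bilinear map -/
def ivB : U4 →L[ℝ] U4 →L[ℝ] ℝ :=
  (EuclideanSpace.proj 2 : U4 →L[ℝ] ℝ).smulRight (EuclideanSpace.proj 3 : U4 →L[ℝ] ℝ) -
    (EuclideanSpace.proj 3 : U4 →L[ℝ] ℝ).smulRight (EuclideanSpace.proj 2 : U4 →L[ℝ] ℝ)

theorem iuB_apply (y : U4) : iuL y = iuB y := rfl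

theorem ivB_apply (y : U4) : ivL y = ivB y := rfl

theorem iuB_val (a b : U4) : iuB a b = a 0 * b 1 - a 1 * b 0 := rfl

theorem ivB_val (a b : U4) : ivB a b = a 2 * b 3 - a 3 * b 2 := rfl

/-- the differential of `nu` -/
def dnu (y : U4) : U4 →L[ℝ] ℝ :=
  (2 * y 0) • (EuclideanSpace.proj 0 : U4 →L[ℝ] ℝ) +
    (2 * y 1) • (EuclideanSpace.proj 1 : U4 →L[ℝ] ℝ)

/-- the differential of `nv` -/
def dnv (y : U4) : U4 →L[ℝ] ℝ :=
  (2 * y 2) • (EuclideanSpace.proj 2 : U4 →L[ℝ] ℝ) +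
    (2 * y 3) • (EuclideanSpace.proj 3 : U4 →L[ℝ] ℝ)

theorem dnu_val (y a : U4) : dnu y a = 2 * y 0 * a 0 + 2 * y 1 * a 1 := rfl

theorem dnv_val (y a : U4) : dnv y a = 2 * y 2 * a 2 + 2 * y 3 * a 3 := rfl

theorem hasF_nu (y : U4) : HasFDerivAt nu (dnu y) y := by
  have h : ∀ i : Fin 4, HasFDerivAt (fun x : U4 => x i) (EuclideanSpace.proj i : U4 →L[ℝ] ℝ) y :=
    fun i => (EuclideanSpace.proj i : U4 →L[ℝ] ℝ).hasFDerivAt
  have h1 := ((h 0).pow 2).add ((h 1).pow 2)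
  refine h1.congr_fderiv ?_
  ext v
  simp [dnu]

theorem hasF_nv (y : U4) : HasFDerivAt nv (dnv y) y := by
  have h : ∀ i : Fin 4, HasFDerivAt (fun x : U4 => x i) (EuclideanSpace.proj i : U4 →L[ℝ] ℝ) y :=
    fun i => (EuclideanSpace.proj i : U4 →L[ℝ] ℝ).hasFDerivAt
  have h1 := ((h 2).pow 2).add ((h 3).pow 2)
  refine h1.congr_fderiv ?_
  ext v
  simp [dnv]

theorem smooth_nu : ContDiff ℝ ∞ nu := by
  unfold nu
  fun_prop

theorem smooth_nv : ContDiff ℝ ∞ nv := by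
  unfold nv
  fun_prop

theorem smooth_lam {F G : ℝ → ℝ} (hF : ContDiff ℝ ∞ F) (hG : ContDiff ℝ ∞ G) (c : ℝ) :
    ContDiff ℝ ∞ (lam F G c) := by
  have h1 : lam F G c = fun y => (F (nu y) * (1 + c * nv y)) • iuB y + G (nu y) • ivB y := rfl
  rw [h1]
  have e1 : ContDiff ℝ ∞ (fun y : U4 => iuB y) := iuB.contDiff
  have e2 : ContDiff ℝ ∞ (fun y : U4 => ivB y) := ivB.contDiff
  exact (((hF.comp smooth_nu).mul (contDiff_const.add (contDiff_const.mul smooth_nv))).smul e1).add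
    ((hG.comp smooth_nu).smul e2)

/-- coefficient of `a₀ b₁ - a₁ b₀` etc. -/
theorem lam_ext {F G : ℝ → ℝ} (hF : ContDiff ℝ ∞ F) (hG : ContDiff ℝ ∞ G) (c : ℝ) (y a b : U4) :
    fderiv ℝ (lam F G c) y a b - fderiv ℝ (lam F G c) y b a =
      (2 * (nu y * deriv F (nu y) + F (nu y)) * (1 + c * nv y)) * (a 0 * b 1 - a 1 * b 0) +
      (2 * G (nu y)) * (a 2 * b 3 - a 3 * b 2) +
      (F (nu y) * c) * (2 * (y 2 * a 2 + y 3 * a 3) * (y 0 * b 1 - y 1 * b 0) -
        2 * (y 2 * b 2 + y 3 * b 3) * (y 0 * a 1 - y 1 * a 0)) +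
      deriv G (nu y) * (2 * (y 0 * a 0 + y 1 * a 1) * (y 2 * b 3 - y 3 * b 2) -
        2 * (y 0 * b 0 + y 1 * b 1) * (y 2 * a 3 - y 3 * a 2)) := by
  have hF1 : HasDerivAt F (deriv F (nu y)) (nu y) :=
    (hF.differentiable (by simp) _).hasDerivAt
  have hG1 : HasDerivAt G (deriv G (nu y)) (nu y) :=
    (hG.differentiable (by simp) _).hasDerivAt
  have hF2 : HasFDerivAt (fun y => F (nu y)) (deriv F (nu y) • dnu y) y :=
    hF1.comp_hasFDerivAt y (hasF_nu y)
  have hG2 : HasFDerivAt (fun y => G (nu y)) (deriv G (nu y) • dnu y) y :=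
    hG1.comp_hasFDerivAt y (hasF_nu y)
  have hf : HasFDerivAt (fun y => F (nu y) * (1 + c * nv y)) _ y :=
    hF2.mul (((hasF_nv y).const_mul c).const_add 1)
  have hl : HasFDerivAt (lam F G c) _ y :=
    (hf.smul (iuB.hasFDerivAt (x := y))).add (hG2.smul (ivB.hasFDerivAt (x := y)))
  rw [hl.fderiv]
  simp only [_root_.add_apply, _root_.smul_apply,
    ContinuousLinearMap.smulRight_apply, smul_eq_mul, dnu_val, dnv_val, iuB_val, ivB_val]
  simp only [nu, nv]
  ring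

/-! ### linear algebra -/

/-- the determinant of four vectors -/
def dt (a : Fin 4 → U4) : ℝ := (Matrix.of fun p q : Fin 4 => a p q).det

/-- an alternating form with the coefficients `e` -/
def ef (e01 e02 e03 e12 e13 e23 : ℝ) (a b : U4) : ℝ :=
  e01 * (a 0 * b 1 - a 1 * b 0) + e02 * (a 0 * b 2 - a 2 * b 0) + e03 * (a 0 * b 3 - a 3 * b 0) +
  e12 * (a 1 * b 2 - a 2 * b 1) + e13 * (a 1 * b 3 - a 3 * b 1) + e23 * (a 2 * b 3 - a 3 * b 2)

theorem dt_eq (a : Fin 4 → U4) : dt a =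
    a 0 0 * (a 1 1 * (a 2 2 * a 3 3 - a 2 3 * a 3 2) - a 1 2 * (a 2 1 * a 3 3 - a 2 3 * a 3 1) +
      a 1 3 * (a 2 1 * a 3 2 - a 2 2 * a 3 1)) -
    a 0 1 * (a 1 0 * (a 2 2 * a 3 3 - a 2 3 * a 3 2) - a 1 2 * (a 2 0 * a 3 3 - a 2 3 * a 3 0) +
      a 1 3 * (a 2 0 * a 3 2 - a 2 2 * a 3 0)) +
    a 0 2 * (a 1 0 * (a 2 1 * a 3 3 - a 2 3 * a 3 1) - a 1 1 * (a 2 0 * a 3 3 - a 2 3 * a 3 0) +
      a 1 3 * (a 2 0 * a 3 1 - a 2 1 * a 3 0)) -
    a 0 3 * (a 1 0 * (a 2 1 * a 3 2 - a 2 2 * a 3 1) - a 1 1 * (a 2 0 * a 3 2 - a 2 2 * a 3 0) +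
      a 1 2 * (a 2 0 * a 3 1 - a 2 1 * a 3 0)) := by
  unfold dt
  rw [Matrix.det_succ_row_zero, Fin.sum_univ_four]
  simp [Matrix.det_fin_three, Matrix.submatrix_apply, Fin.succAbove]
  ring

theorem wedge_eq (e01 e02 e03 e12 e13 e23 f01 f02 f03 f12 f13 f23 : ℝ) (a : Fin 4 → U4) :
    ef e01 e02 e03 e12 e13 e23 (a 0) (a 1) * ef f01 f02 f03 f12 f13 f23 (a 2) (a 3) -
    ef e01 e02 e03 e12 e13 e23 (a 0) (a 2) * ef f01 f02 f03 f12 f13 f23 (a 1) (a 3) +
    ef e01 e02 e03 e12 e13 e23 (a 0) (a 3) * ef f01 f02 f03 f12 f13 f23 (a 1) (a 2) +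
    ef e01 e02 e03 e12 e13 e23 (a 1) (a 2) * ef f01 f02 f03 f12 f13 f23 (a 0) (a 3) -
    ef e01 e02 e03 e12 e13 e23 (a 1) (a 3) * ef f01 f02 f03 f12 f13 f23 (a 0) (a 2) +
    ef e01 e02 e03 e12 e13 e23 (a 2) (a 3) * ef f01 f02 f03 f12 f13 f23 (a 0) (a 1) =
    (e01 * f23 - e02 * f13 + e03 * f12 + e12 * f03 - e13 * f02 + e23 * f01) * dt a := by
  rw [dt_eq]
  unfold ef
  ring

/-- the exterior derivative in coordinates -/
theorem lam_ef {F G : ℝ → ℝ} (hF : ContDiff ℝ ∞ F) (hG : ContDiff ℝ ∞ G) (c : ℝ) (y a b : U4) :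
    fderiv ℝ (lam F G c) y a b - fderiv ℝ (lam F G c) y b a =
      ef (2 * (nu y * deriv F (nu y) + F (nu y)) * (1 + c * nv y))
        (2 * y 1 * y 2 * (F (nu y) * c) - 2 * y 0 * y 3 * deriv G (nu y))
        (2 * y 1 * y 3 * (F (nu y) * c) + 2 * y 0 * y 2 * deriv G (nu y))
        (-(2 * y 0 * y 2 * (F (nu y) * c)) - 2 * y 1 * y 3 * deriv G (nu y))
        (-(2 * y 0 * y 3 * (F (nu y) * c)) + 2 * y 1 * y 2 * deriv G (nu y))
        (2 * G (nu y)) a b := by
  rw [lam_ext hF hG]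
  unfold ef
  ring

/-- the derivative of `H` -/
def dHf (k i j : Fin 2) (t : ℝ) : ℝ :=
  if k = 0 then
    (if i = 0 then (if j = 0 then -deriv hh t else deriv hh t) else -deriv hh (1 - t))
  else (if i = 0 then deriv kk t else (if j = 0 then deriv kk (1 - t) else -deriv kk (1 - t)))

/-- the derivative of `G` -/
def dGf (k i j : Fin 2) (t : ℝ) : ℝ :=
  if k = 0 then
    (if i = 0 then (if j = 0 then deriv hh t else -deriv hh t)
      else (if j = 0 then -deriv hh (1 - t) else deriv hh (1 - t)))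
  else (if i = 0 then deriv kk t else -deriv kk (1 - t))

theorem has_one_sub {f : ℝ → ℝ} (hf : ContDiff ℝ ∞ f) (t : ℝ) :
    HasDerivAt (fun s => f (1 - s)) (-deriv f (1 - t)) t := by
  have h1 : HasDerivAt f (deriv f (1 - t)) (1 - t) := (hf.differentiable (by simp) _).hasDerivAt
  have h2 : HasDerivAt (fun s : ℝ => 1 - s) (-1) t := by
    simpa using (hasDerivAt_id t).const_sub 1
  have := h1.comp t h2
  rw [mul_neg_one] at this
  exact this

theorem has_Hf (k i j : Fin 2) (t : ℝ) : HasDerivAt (Hf k i j) (dHf k i j t) t := by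
  have h1 : HasDerivAt hh (deriv hh t) t := (hh_smooth.differentiable (by simp) _).hasDerivAt
  have h2 : HasDerivAt kk (deriv kk t) t := (kk_smooth.differentiable (by simp) _).hasDerivAt
  have h3 := has_one_sub hh_smooth t
  have h4 := has_one_sub kk_smooth t
  fin_cases k <;> fin_cases i <;> fin_cases j
  · exact h1.neg
  · exact h1
  · exact h3.sub_const 1
  · exact h3.sub_const 1
  · exact h2.sub_const 1
  · exact h2.sub_const 1
  · have := h4.neg
    rw [neg_neg] at this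
    exact this
  · exact h4

theorem has_Gf (k i j : Fin 2) (t : ℝ) : HasDerivAt (Gf k i j) (dGf k i j t) t := by
  have h1 : HasDerivAt hh (deriv hh t) t := (hh_smooth.differentiable (by simp) _).hasDerivAt
  have h2 : HasDerivAt kk (deriv kk t) t := (kk_smooth.differentiable (by simp) _).hasDerivAt
  have h3 := has_one_sub hh_smooth t
  have h4 := has_one_sub kk_smooth t
  fin_cases k <;> fin_cases i <;> fin_cases j
  · exact h1
  · exact h1.neg
  · exact h3
  · have := h3.neg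
    rw [neg_neg] at this
    exact this
  · exact h2
  · exact h2
  · exact h4
  · exact h4

theorem dFf (k i j : Fin 2) (t : ℝ) :
    t * deriv (fun t => Hf k i j t / t) t + Hf k i j t / t = dHf k i j t := by
  have h1 : HasDerivAt (fun t => Hf k i j t / t) (deriv (fun t => Hf k i j t / t) t) t :=
    ((Ff_smooth k i j).differentiable (by simp) _).hasDerivAt
  have h2 := (hasDerivAt_id t).mul h1
  have h3 : (id * fun t => Hf k i j t / t) = Hf k i j := by
    funext s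
    exact Ff_mul k i j s
  rw [h3] at h2
  have h4 := h2.unique (has_Hf k i j t)
  simp only [id] at h4
  linarith

/-! ### the point -/

theorem rr_nu {i j : Fin 2} {x : M} (hx : x ∈ DM i j) :
    rr x.1 = if i = 0 then nu (cM i j x) else 1 - nu (cM i j x) := by
  have h1 : ps i j (cM i j x) = x.1 := s_q0.ps_ch i j x.1 x.2 hx
  have h2 : cM i j x ∈ BD := chM_mem hx
  have h3 : Complex.normSq (c1 (cM i j x)) = nu (cM i j x) := by
    rw [Complex.normSq_apply]
    unfold nu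
    show cM i j x 0 * cM i j x 0 + cM i j x 1 * cM i j x 1 = _
    ring
  rw [← h1]
  show Complex.normSq (c2 (sg i j (cM i j x)).1) = _
  unfold sg
  split_ifs with hi
  · rw [c2_mk, h3]
  · rw [c2_mk, h3]
  · rw [c2_mk]
    unfold Q.h1
    rw [Complex.normSq_ofReal, Real.mul_self_sqrt (by have := h2.1; linarith), h3]
  · rw [c2_mk]
    unfold Q.h1
    rw [Complex.normSq_ofReal, Real.mul_self_sqrt (by have := h2.1; linarith), h3]

/-- the exterior derivative of the local primitive in coordinates -/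
def EE (k i j : Fin 2) (y a b : U4) : ℝ :=
  ef (2 * dHf k i j (nu y) * (1 + cw k i * nv y))
    (2 * y 1 * y 2 * (Hf k i j (nu y) / nu y * cw k i) - 2 * y 0 * y 3 * dGf k i j (nu y))
    (2 * y 1 * y 3 * (Hf k i j (nu y) / nu y * cw k i) + 2 * y 0 * y 2 * dGf k i j (nu y))
    (-(2 * y 0 * y 2 * (Hf k i j (nu y) / nu y * cw k i)) - 2 * y 1 * y 3 * dGf k i j (nu y))
    (-(2 * y 0 * y 3 * (Hf k i j (nu y) / nu y * cw k i)) + 2 * y 1 * y 2 * dGf k i j (nu y))
    (2 * Gf k i j (nu y)) a b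

theorem eta_EE {η : Fin 2 → DF (𝓡 4) M 2}
    (hη : ∀ k i j, IsDOn (DM i j) (LF k i j) (η k)) {i j : Fin 2} {x : M} (hx : x ∈ DM i j)
    (k : Fin 2) (w : Fin 2 → TangentSpace (𝓡 4) x) :
    η k x w = EE k i j (cM i j x) (dm (cM i j) x (w 0)) (dm (cM i j) x (w 1)) := by
  have h1 := (s_t2 4 M BD (DM i j) (psM i j) (cM i j) (parM i j) (DM i j) (isOpen_DM i j)
    (Set.Subset.refl _) (LF k i j) (η k) (lam (fun t => Hf k i j t / t) (Gf k i j) (cw k i))
    (smooth_lam (Ff_smooth k i j) (Gf_smooth k i j) _).contDiffOn ?_).1 (hη k i j) x hx w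
  · rw [lam_ef (Ff_smooth k i j) (Gf_smooth k i j), dFf, (has_Gf k i j _).deriv] at h1
    exact h1
  · intro z _ u
    show lamL k i j (cM i j z) (dm (cM i j) z (u 0)) = _
    rw [lamL_eq]

/-- the wedge products in a chart -/
theorem wedge_chart {η : Fin 2 → DF (𝓡 4) M 2}
    (hη : ∀ k i j, IsDOn (DM i j) (LF k i j) (η k)) {i j : Fin 2} {x : M} (hx : x ∈ DM i j)
    (k l : Fin 2) (v : Fin 4 → TangentSpace (𝓡 4) x) :
    wedge22 (η k) (η l) x v =
      (4 * dHf k i j (nu (cM i j x)) * (1 + cw k i * nv (cM i j x)) * Gf l i j (nu (cM i j x)) +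
      4 * dHf l i j (nu (cM i j x)) * (1 + cw l i * nv (cM i j x)) * Gf k i j (nu (cM i j x)) -
      4 * nv (cM i j x) * (cw k i * Hf k i j (nu (cM i j x)) * dGf l i j (nu (cM i j x)) +
        cw l i * Hf l i j (nu (cM i j x)) * dGf k i j (nu (cM i j x)))) *
      (Matrix.of fun a b : Fin 4 => dm (cM i j) x (v a) b).det := by
  have hk := Ff_mul k i j (nu (cM i j x))
  have hl := Ff_mul l i j (nu (cM i j x))
  unfold wedge22
  rw [eta_EE hη hx, eta_EE hη hx, eta_EE hη hx, eta_EE hη hx, eta_EE hη hx, eta_EE hη hx,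
    eta_EE hη hx, eta_EE hη hx, eta_EE hη hx, eta_EE hη hx, eta_EE hη hx, eta_EE hη hx]
  refine (wedge_eq _ _ _ _ _ _ _ _ _ _ _ _ (fun p => dm (cM i j) x (v p))).trans ?_
  congr 1
  have hU : nu (cM i j x) = cM i j x 0 ^ 2 + cM i j x 1 ^ 2 := rfl
  have hV : nv (cM i j x) = cM i j x 2 ^ 2 + cM i j x 3 ^ 2 := rfl
  generalize dHf k i j (nu (cM i j x)) = a1
  generalize dHf l i j (nu (cM i j x)) = a2
  generalize dGf k i j (nu (cM i j x)) = a3 at *
  generalize dGf l i j (nu (cM i j x)) = a4 at *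
  generalize Gf k i j (nu (cM i j x)) = a5 at *
  generalize Gf l i j (nu (cM i j x)) = a6 at *
  generalize Hf k i j (nu (cM i j x)) / nu (cM i j x) = a7 at *
  generalize Hf l i j (nu (cM i j x)) / nu (cM i j x) = a8 at *
  rw [← hk, ← hl, hU, hV]
  ring

end Wed

open Wed in
theorem s_wed : S_WED := by
  intro η Ω hη hΩ
  have hx0 : ∀ x : M, ∃ (i j : Fin 2) (hx : x ∈ DM i j), True := fun x => by
    obtain ⟨i, j, hx⟩ := exists_DM x
    exact ⟨i, j, hx, trivial⟩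
  refine ⟨?_, ?_, ?_, ?_⟩
  · intro x v
    obtain ⟨i, j, hx, -⟩ := hx0 x
    rw [wedge_chart hη hx, hΩ i j x hx, rr_nu hx, ← mul_assoc]
    congr 1
    fin_cases i <;> fin_cases j <;> simp [dHf, cw, Gf, Hf, dGf, sgn] <;> ring
  · intro x v
    obtain ⟨i, j, hx, -⟩ := hx0 x
    rw [wedge_chart hη hx, hΩ i j x hx, rr_nu hx, ← mul_assoc]
    congr 1
    fin_cases i <;> fin_cases j <;> simp [dHf, cw, Gf, Hf, dGf, sgn] <;> ring
  · intro x v
    obtain ⟨i, j, hx, -⟩ := hx0 x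
    rw [wedge_chart hη hx]
    refine mul_eq_zero_of_left ?_ _
    have h1 := dhh_kk (nu (cM i j x))
    have h2 := hh_dkk (nu (cM i j x))
    have h3 := dhh_kk (1 - nu (cM i j x))
    have h4 := hh_dkk (1 - nu (cM i j x))
    generalize nu (cM i j x) = t at *
    generalize nv (cM i j x) = V at *
    fin_cases i <;> fin_cases j <;> simp [dHf, cw, Gf, Hf, dGf]
    · linear_combination (-4 * (1 - 2 * V)) * h1 + (4 - 8 * V) * h2
    · linear_combination (4 * (1 - 2 * V)) * h1 + (-4 + 8 * V) * h2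
    · linear_combination (-4 + 8 * V) * h3 + (4 * (1 - 2 * V)) * h4
    · linear_combination (-4 + 8 * V) * h3 + (4 * (1 - 2 * V)) * h4
  · intro x
    obtain ⟨i, j, hx, -⟩ := hx0 x
    refine ⟨fun a => Qt3.cf (cM i j) (EuclideanSpace.single a (1 : ℝ)) x, ?_⟩
    rw [hΩ i j x hx]
    have h1 : (Matrix.of fun a b : Fin 4 => dm (cM i j) x
        (Qt3.cf (cM i j) (EuclideanSpace.single a (1 : ℝ)) x) b) = (1 : Matrix (Fin 4) (Fin 4) ℝ) := by
      ext a b
      rw [Matrix.of_apply, Qt3.dm_cf (parM i j) _ hx, Matrix.one_apply]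
      simp [eq_comm]
    rw [h1, Matrix.det_one, mul_one]
    unfold sgn
    split_ifs <;> norm_num

end Pool.Agent.H781.CM.Q
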